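import Mathlib

/-! # TU X5aux: injective holomorphic functions, retraction of a disc off a point -/

open Complex Set Filter Topology Metric

namespace Pool.TU.X5

noncomputable section

/-- an injective holomorphic function has nonvanishing derivative -/
theorem deriv_ne_zero_of_injOn {f : ℂ → ℂ} {U : Set ℂ} (hU : IsOpen U)
    (hf : DifferentiableOn ℂ f U) (hi : InjOn f U) {a : ℂ} (ha : a ∈ U) : deriv f a ≠ 0 := by
  intro h0
  have hUa : U ∈ 𝓝 a := hU.mem_nhds ha
  have hfa : AnalyticAt ℂ f a := hf.analyticAt hUa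
  have hFa : AnalyticAt ℂ (fun z => f z - f a) a := hfa.sub analyticAt_const
  have hntop : analyticOrderAt (fun z => f z - f a) a ≠ ⊤ := by
    intro htop
    rw [analyticOrderAt_eq_top] at htop
    obtain ⟨r, hr, hsub⟩ := Metric.eventually_nhds_iff_ball.1 (htop.and hUa)
    have hmem : a + ((r / 2 : ℝ) : ℂ) ∈ ball a r := by
      rw [mem_ball, dist_eq_norm, add_sub_cancel_left, Complex.norm_real, Real.norm_eq_abs,
        abs_of_pos (by linarith)]
      linarith
    obtain ⟨h1, h2⟩ := hsub _ hmem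
    have h3 := hi h2 ha (sub_eq_zero.1 h1)
    have h4 : ((r / 2 : ℝ) : ℂ) = 0 := by linear_combination h3
    rw [ofReal_eq_zero] at h4
    linarith
  obtain ⟨h, hha, hh0, heq⟩ := hFa.analyticOrderAt_ne_top.1 hntop
  set m := analyticOrderNatAt (fun z => f z - f a) a with hm
  have hm2 : 2 ≤ m := by
    by_contra hlt
    have hm01 : m = 0 ∨ m = 1 := by omega
    rcases hm01 with hm0 | hm1
    · have h1 : f a - f a = (a - a) ^ m • h a := heq.self_of_nhds
      rw [hm0, pow_zero, one_smul, sub_self] at h1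
      exact hh0 h1.symm
    · rw [hm1] at heq
      have h2 : HasDerivAt (fun z => (z - a) ^ 1 • h z) (h a) a := by
        have e1 : HasDerivAt (fun z : ℂ => z - a) 1 a := (hasDerivAt_id a).sub_const a
        have e2 := e1.mul hha.differentiableAt.hasDerivAt
        have e3 : HasDerivAt (fun z : ℂ => (z - a) * h z) (1 * h a + (a - a) * deriv h a) a := e2
        simp only [pow_one, smul_eq_mul]
        convert e3 using 1
        ring
      have h3 : HasDerivAt (fun z => f z - f a) (h a) a := h2.congr_of_eventuallyEq heq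
      have h4 : HasDerivAt (fun z => f z - f a) (deriv f a) a :=
        hfa.differentiableAt.hasDerivAt.sub_const _
      have := h3.unique h4
      rw [h0] at this
      exact hh0 this
  have hm0 : (m : ℂ) ≠ 0 := by exact_mod_cast (by omega : m ≠ 0)
  -- the root
  set k : ℂ → ℂ := fun z => exp (log (h a) / m) * exp (log (h z / h a) / m) with hk
  have hka : AnalyticAt ℂ k a := by
    have h1 : AnalyticAt ℂ (fun z => h z / h a) a := hha.div analyticAt_const hh0
    have h2 : AnalyticAt ℂ (fun z => log (h z / h a)) a := by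
      apply h1.clog
      simp [div_self hh0]
    exact analyticAt_const.mul ((h2.div analyticAt_const hm0).cexp)
  have hk0 : k a ≠ 0 := mul_ne_zero (exp_ne_zero _) (exp_ne_zero _)
  have hkm : ∀ᶠ z in 𝓝 a, k z ^ m = h z := by
    filter_upwards [hha.continuousAt.eventually_ne hh0] with z hz
    simp only [hk]
    rw [mul_pow, ← exp_nat_mul, ← exp_nat_mul, mul_div_cancel₀ _ hm0, mul_div_cancel₀ _ hm0,
      exp_log hh0, exp_log (div_ne_zero hz hh0), mul_div_cancel₀ _ hh0]
  set g : ℂ → ℂ := fun z => (z - a) * k z with hg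
  have hga : AnalyticAt ℂ g a := (analyticAt_id.sub analyticAt_const).mul hka
  have hgd : HasStrictDerivAt g (k a) a := by
    have h1 := hga.hasStrictDerivAt
    have h2 : deriv g a = k a := by
      have e1 : HasDerivAt (fun z : ℂ => z - a) 1 a := (hasDerivAt_id a).sub_const a
      have e2 := e1.mul hka.differentiableAt.hasDerivAt
      have e3 : HasDerivAt g (1 * k a + (a - a) * deriv k a) a := e2
      rw [e3.deriv]; ring
    rwa [h2] at h1
  have hmap := hgd.map_nhds_eq hk0
  have hga0 : g a = 0 := by simp [hg]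
  rw [hga0] at hmap
  -- the good neighbourhood
  have hV : {z | z ∈ U ∧ f z = f a + g z ^ m} ∈ 𝓝 a := by
    filter_upwards [hUa, heq, hkm] with z h1 h2 h3
    refine ⟨h1, ?_⟩
    simp only [hg, mul_pow, h3]
    rw [smul_eq_mul] at h2
    linear_combination h2
  have himg : g '' {z | z ∈ U ∧ f z = f a + g z ^ m} ∈ 𝓝 (0 : ℂ) := by
    rw [← hmap]
    exact image_mem_map hV
  obtain ⟨r, hr, hsub⟩ := Metric.mem_nhds_iff.1 himg
  set ω : ℂ := exp (2 * Real.pi * I / m) with hω
  have hωm : ω ^ m = 1 := by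
    rw [hω, ← exp_nat_mul, mul_div_cancel₀ _ hm0, exp_two_pi_mul_I]
  have hω1 : ω ≠ 1 := by
    have := Complex.isPrimitiveRoot_exp m (by omega)
    exact this.ne_one (by omega)
  have hωn : ‖ω‖ = 1 := by
    have : ‖ω‖ ^ m = 1 := by rw [← norm_pow, hωm, norm_one]
    exact (pow_eq_one_iff_of_nonneg (norm_nonneg _) (by omega)).1 this
  set w : ℂ := ((r / 2 : ℝ) : ℂ) with hw
  have hwn : ‖w‖ = r / 2 := by
    rw [hw, Complex.norm_real, Real.norm_eq_abs, abs_of_pos (by linarith)]
  have hw1 : w ∈ ball (0 : ℂ) r := by rw [mem_ball_zero_iff, hwn]; linarith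
  have hw2 : ω * w ∈ ball (0 : ℂ) r := by
    rw [mem_ball_zero_iff, norm_mul, hωn, one_mul, hwn]; linarith
  obtain ⟨z1, ⟨hz1U, hz1f⟩, hz1⟩ := hsub hw1
  obtain ⟨z2, ⟨hz2U, hz2f⟩, hz2⟩ := hsub hw2
  have hff : f z1 = f z2 := by
    rw [hz1f, hz2f, hz1, hz2, mul_pow, hωm, one_mul]
  have hzz := hi hz1U hz2U hff
  rw [hzz, hz2] at hz1
  have hw0 : w ≠ 0 := by
    rw [← norm_pos_iff, hwn]; linarith
  apply hω1
  exact mul_right_cancel₀ hw0 (by rw [hz1, one_mul])

theorem isOpen_image_of_injOn {f : ℂ → ℂ} {U : Set ℂ} (hU : IsOpen U)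
    (hf : DifferentiableOn ℂ f U) (hi : InjOn f U) : IsOpen (f '' U) := by
  rw [isOpen_iff_mem_nhds]
  rintro _ ⟨z, hz, rfl⟩
  have h1 := (hf.analyticAt (hU.mem_nhds hz)).hasStrictDerivAt
  rw [← h1.map_nhds_eq (deriv_ne_zero_of_injOn hU hf hi hz)]
  exact image_mem_map (hU.mem_nhds hz)

end

end Pool.TU.X5
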