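import Pool.Agent.Helper71.TU.L3

/-! # TU A1: the lift operator: existence and continuity -/

open Complex Set Filter Topology Metric Polynomial ComplexConjugate Pool.Tuning

namespace Pool.TU

noncomputable section

/-- the square root of the action of `R` -/
private def sig (H : ℂ → ℂ) (s : ℂ) : ℂ := if s = 0 then 0 else exp (H (2 * log s) / 2)

private theorem tpi_mem_UU : tpi ∈ UU := by
  show (tpi).re ≤ 0
  simp [tpi]

private theorem exp_half_tpi : exp (tpi / 2) = -1 := by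
  have : tpi / 2 = Real.pi * I := by
    unfold tpi
    ring
  rw [this, Complex.exp_pi_mul_I]

private theorem exp_mem_DD {u : ℂ} (hu : u ∈ UU) : exp u ∈ DD := by
  show exp u ∈ closedBall 0 1
  rw [mem_closedBall_zero_iff, Complex.norm_exp]
  exact Real.exp_le_one_iff.mpr hu

private theorem half_mem_UU {u : ℂ} (hu : u ∈ UU) : u / 2 ∈ UU := by
  have h1 : u.re ≤ 0 := hu
  show (u / 2).re ≤ 0
  have : (u / 2).re = u.re / 2 := by
    rw [show (2 : ℂ) = ((2 : ℝ) : ℂ) by norm_num, Complex.div_ofReal_re]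
  rw [this]
  linarith

private theorem sq_mem_DD {s : ℂ} (hs : s ∈ DD) : s ^ 2 ∈ DD := by
  have h1 : ‖s‖ ≤ 1 := by simpa [DD] using hs
  show s ^ 2 ∈ closedBall 0 1
  rw [mem_closedBall_zero_iff, norm_pow]
  exact pow_le_one₀ (norm_nonneg _) h1

private theorem logre {s : ℂ} (hs : s ∈ DD) (h0 : s ≠ 0) : (log s).re ≤ 0 := by
  rw [Complex.log_re]
  have h1 : ‖s‖ ≤ 1 := by simpa [DD] using hs
  exact Real.log_nonpos (norm_nonneg _) h1

private theorem two_log_mem {s : ℂ} (hs : s ∈ DD) (h0 : s ≠ 0) : 2 * log s ∈ UU := by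
  have h1 := logre hs h0
  show (2 * log s).re ≤ 0
  have : (2 * log s).re = 2 * (log s).re := by
    rw [show (2 : ℂ) = ((2 : ℝ) : ℂ) by norm_num, Complex.re_ofReal_mul]
  rw [this]
  linarith

private theorem sig_exp {R H : ℂ → ℂ} (hH : IsHat R H) {u : ℂ} (hu : u ∈ UU) :
    sig H (exp (u / 2)) = exp (H u / 2) := by
  have h0 : exp (u / 2) ≠ 0 := exp_ne_zero _
  unfold sig
  rw [if_neg h0]
  have h1 : exp (log (exp (u / 2))) = exp (u / 2) := Complex.exp_log h0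
  obtain ⟨n, hn⟩ := Complex.exp_eq_exp_iff_exists_int.mp h1
  have h2 : 2 * log (exp (u / 2)) = u + ((2 * n : ℤ) : ℂ) * tpi := by
    rw [hn]
    unfold tpi
    push_cast
    ring
  rw [h2, hat_shift hH (2 * n) u hu]
  have h3 : (H u + ((2 * n : ℤ) : ℂ) * tpi) / 2 = H u / 2 + n * (2 * Real.pi * I) := by
    unfold tpi
    push_cast
    ring
  rw [h3, Complex.exp_add, Complex.exp_int_mul_two_pi_mul_I, mul_one]

private theorem sig_zero (H : ℂ → ℂ) : sig H 0 = 0 := by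
  simp [sig]

private theorem sig_sq {κ κ' : ℝ} {R H : ℂ → ℂ} {ρ : ℝ → ℝ} (hR : RMap κ κ' R ρ) (hH : IsHat R H)
    {s : ℂ} (hs : s ∈ DD) : sig H s ^ 2 = R (s ^ 2) := by
  by_cases h0 : s = 0
  · subst h0
    rw [sig_zero]
    have h1 : (0 : ℂ) ∈ DD := by simp [DD]
    have h2 : R 0 = 0 := (hR.zero 0 h1).mpr rfl
    simp [h2]
  · have h1 := two_log_mem hs h0
    have h2 : s = exp ((2 * log s) / 2) := by
      rw [mul_div_cancel_left₀ _ two_ne_zero, Complex.exp_log h0]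
    have h3 : sig H s = exp (H (2 * log s) / 2) := by
      unfold sig
      rw [if_neg h0]
    rw [h3, ← Complex.exp_nat_mul]
    have h4 : ((2 : ℕ) : ℂ) * (H (2 * log s) / 2) = H (2 * log s) := by
      push_cast
      ring
    rw [h4, hH.exp_eq _ h1]
    congr 1
    have h5 : 2 * log s = ((2 : ℕ) : ℂ) * log s := by
      push_cast
      ring
    rw [h5, Complex.exp_nat_mul, Complex.exp_log h0]

private theorem sig_norm {κ κ' : ℝ} {R H : ℂ → ℂ} {ρ : ℝ → ℝ} (hR : RMap κ κ' R ρ) (hH : IsHat R H)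
    {s : ℂ} (hs : s ∈ DD) : ‖sig H s‖ ^ 2 = ‖R (s ^ 2)‖ := by
  rw [← norm_pow, sig_sq hR hH hs]

private theorem sig_mem {κ κ' : ℝ} {R H : ℂ → ℂ} {ρ : ℝ → ℝ} (hR : RMap κ κ' R ρ) (hH : IsHat R H)
    {s : ℂ} (hs : s ∈ DD) : sig H s ∈ DD := by
  have h1 := sig_norm hR hH hs
  have h2 : R (s ^ 2) ∈ DD := hR.maps (sq_mem_DD hs)
  have h3 : ‖R (s ^ 2)‖ ≤ 1 := by simpa [DD] using h2
  show sig H s ∈ closedBall 0 1
  rw [mem_closedBall_zero_iff]
  rw [← h1] at h3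
  nlinarith [norm_nonneg (sig H s)]

private theorem sig_cont {κ κ' : ℝ} {R H : ℂ → ℂ} {ρ : ℝ → ℝ} (hR : RMap κ κ' R ρ) (hH : IsHat R H) :
    ContinuousOn (sig H) DD := by
  intro s0 hs0
  by_cases h0 : s0 = 0
  · subst h0
    unfold ContinuousWithinAt
    rw [sig_zero, tendsto_zero_iff_norm_tendsto_zero]
    have h1 : ContinuousOn (fun s => Real.sqrt ‖R (s ^ 2)‖) DD := by
      refine Real.continuous_sqrt.comp_continuousOn ?_
      refine ContinuousOn.norm ?_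
      exact hR.cont.comp (by fun_prop) (fun s hs => sq_mem_DD hs)
    have h2 : Tendsto (fun s => Real.sqrt ‖R (s ^ 2)‖) (𝓝[DD] 0)
        (𝓝 (Real.sqrt ‖R ((0 : ℂ) ^ 2)‖)) := h1 0 hs0
    have h3 : R 0 = 0 := (hR.zero 0 hs0).mpr rfl
    have h4 : Real.sqrt ‖R ((0 : ℂ) ^ 2)‖ = 0 := by
      simp [h3]
    rw [h4] at h2
    refine h2.congr' ?_
    filter_upwards [self_mem_nhdsWithin] with s hs
    rw [← sig_norm hR hH hs, Real.sqrt_sq (norm_nonneg _)]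
  · obtain ⟨l, hl⟩ : ∃ l : ℂ → ℂ, l = fun s => log (s / s0) + log s0 := ⟨_, rfl⟩
    have hlexp : ∀ s, s ≠ 0 → exp (l s) = s := by
      intro s hs
      rw [hl]
      show exp (log (s / s0) + log s0) = s
      rw [Complex.exp_add, Complex.exp_log (div_ne_zero hs h0), Complex.exp_log h0]
      field_simp
    have hlUU : ∀ s ∈ DD, s ≠ 0 → 2 * l s ∈ UU := by
      intro s hs hs0'
      have h1 : ‖exp (l s)‖ ≤ 1 := by
        rw [hlexp s hs0']
        simpa [DD] using hs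
      rw [Complex.norm_exp] at h1
      have h2 : (l s).re ≤ 0 := Real.exp_le_one_iff.mp h1
      show (2 * l s).re ≤ 0
      have : (2 * l s).re = 2 * (l s).re := by
        rw [show (2 : ℂ) = ((2 : ℝ) : ℂ) by norm_num, Complex.re_ofReal_mul]
      rw [this]
      linarith
    have hlcont : ContinuousAt l s0 := by
      rw [hl]
      refine ContinuousAt.add ?_ continuousAt_const
      refine ContinuousAt.clog (by fun_prop) ?_
      rw [div_self h0]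
      exact Complex.one_mem_slitPlane
    have heq : ∀ s ∈ DD, s ≠ 0 → sig H s = exp (H (2 * l s) / 2) := by
      intro s hs hs0'
      have h1 := sig_exp hH (hlUU s hs hs0')
      rw [mul_div_cancel_left₀ _ two_ne_zero, hlexp s hs0'] at h1
      exact h1
    have hcomp : ContinuousWithinAt (fun s => exp (H (2 * l s) / 2)) (DD ∩ {s | s ≠ 0}) s0 := by
      have h1 : ContinuousWithinAt (fun s => 2 * l s) (DD ∩ {s | s ≠ 0}) s0 :=
        (continuousAt_const.mul hlcont).continuousWithinAt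
      have h2 : ContinuousWithinAt (fun s => H (2 * l s)) (DD ∩ {s | s ≠ 0}) s0 :=
        ContinuousWithinAt.comp (f := fun s => 2 * l s) (g := H) (t := UU)
          (hH.cont _ (hlUU s0 hs0 h0)) h1 (fun s hs => hlUU s hs.1 hs.2)
      exact (h2.div_const 2).cexp
    have hfin : ContinuousWithinAt (sig H) (DD ∩ {s | s ≠ 0}) s0 :=
      hcomp.congr (fun s hs => heq s hs.1 hs.2) (heq s0 hs0 h0)
    refine hfin.mono_of_mem_nhdsWithin ?_
    refine inter_mem self_mem_nhdsWithin ?_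
    exact mem_nhdsWithin_of_mem_nhds (isOpen_ne.mem_nhds h0)

private theorem sig_one {R H : ℂ → ℂ} (hH : IsHat R H) : sig H 1 = 1 := by
  have h0 : (0 : ℂ) ∈ UU := by simp [UU]
  have := sig_exp hH h0
  simpa [hH.zero] using this

private theorem sig_ec {κ κ' : ℝ} {R H : ℂ → ℂ} {ρ : ℝ → ℝ} (hR : RMap κ κ' R ρ) (hH : IsHat R H)
    {θ : ℝ} (hθ : θ ∈ Icc 0 (2 * Real.pi)) : sig H (ec (θ / 2)) = ec (ρ θ / 2) := by
  have h0 : (θ * I : ℂ) ∈ UU := by simp [UU]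
  have h1 := sig_exp hH h0
  rw [hat_circ hR hH θ hθ] at h1
  have h2 : ∀ x : ℝ, exp (x * I / 2) = ec (x / 2) := by
    intro x
    unfold ec
    congr 1
    push_cast
    ring
  rwa [h2, h2] at h1

private theorem sig_neg_ec {κ κ' : ℝ} {R H : ℂ → ℂ} {ρ : ℝ → ℝ} (hR : RMap κ κ' R ρ) (hH : IsHat R H)
    {θ : ℝ} (hθ : θ ∈ Icc 0 (2 * Real.pi)) : sig H (-(ec (θ / 2))) = -(ec (ρ θ / 2)) := by
  have h0 : (θ * I : ℂ) ∈ UU := by simp [UU]
  have h3 : (θ * I + tpi : ℂ) ∈ UU := by simp [UU, tpi]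
  have h1 := sig_exp hH h3
  rw [hH.period _ h0, hat_circ hR hH θ hθ] at h1
  have h2 : ∀ x : ℝ, exp ((x * I + tpi) / 2) = -(ec (x / 2)) := by
    intro x
    have : (x * I + tpi) / 2 = ((x / 2 : ℝ) : ℂ) * I + tpi / 2 := by
      push_cast
      ring
    rw [this, Complex.exp_add, exp_half_tpi]
    unfold ec
    ring
  rwa [h2, h2] at h1

private theorem ec_sq (x : ℝ) : ec (x / 2) ^ 2 = ec x := by
  unfold ec
  rw [← Complex.exp_nat_mul]
  congr 1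
  push_cast
  ring

private theorem one_mem_DD : (1 : ℂ) ∈ DD := by simp [DD]

private theorem neg_one_mem_DD : (-1 : ℂ) ∈ DD := by simp [DD]

private theorem ec_mem_DD (x : ℝ) : ec x ∈ DD := by
  show ec x ∈ closedBall 0 1
  rw [mem_closedBall_zero_iff, norm_ec]

/-- the relation defining the lift -/
private def QR (f g : TS) (R H : ℂ → ℂ) (z v : ℂ) : Prop :=
  (∃ s ∈ DD, z = f.Θ s ∧ v = g.Θ (sig H s)) ∨
  (∃ w ∈ DD, z = f.G2 w ∧ v = g.G2 (R w)) ∨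
  (∃ w ∈ DD, z = f.G4 w ∧ v = g.G4 (R w))

private theorem QR_uniq {f g : TS} {R H : ℂ → ℂ} {ρ : ℝ → ℝ} (hR : RMap f.κ g.κ R ρ)
    (hH : IsHat R H) {z v v' : ℂ} (h : QR f g R H z v) (h' : QR f g R H z v') : v = v' := by
  have hone : R 1 = 1 := (hR.one 1 one_mem_DD).mpr rfl
  have hsneg : sig H (-1) = -1 := by
    have h1 := sig_neg_ec hR hH (θ := 0) ⟨le_rfl, by positivity⟩
    rw [hR.ρ0] at h1
    simpa [ec] using h1
  have cTT : ∀ s ∈ DD, ∀ s' ∈ DD, f.Θ s = f.Θ s' → g.Θ (sig H s) = g.Θ (sig H s') := by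
    intro s hs s' hs' he
    rcases f.injΘ s hs s' hs' he with h1 | ⟨h1, h2⟩ | ⟨h1, h2⟩
    · rw [h1]
    · rw [h1, h2, hsneg, sig_one hH, g.Θone, g.Θneg]
    · rw [h1, h2, hsneg, sig_one hH, g.Θone, g.Θneg]
  have cT2 : ∀ s ∈ DD, ∀ w ∈ DD, f.Θ s = f.G2 w → g.Θ (sig H s) = g.G2 (R w) := by
    intro s hs w hw he
    obtain ⟨θ, hθ, hsθ⟩ := f.sep2 s hs w hw he
    have h1 : w = ec θ := by
      have h2 : f.F (f.Θ s) = f.F (f.G2 w) := by rw [he]
      rw [f.FΘ s hs, f.F2 w hw, hsθ, neg_sq, ec_sq] at h2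
      exact h2.symm
    have hρ : ρ θ ∈ Icc 0 (2 * Real.pi) := by
      rcases le_total θ f.κ with h3 | h3
      · have := hR.ρlo θ ⟨hθ.1, h3⟩
        exact ⟨this.1, this.2.trans g.κ_mem.2.le⟩
      · have := hR.ρhi θ ⟨h3, hθ.2⟩
        exact ⟨g.κ_mem.1.le.trans this.1, this.2⟩
    rw [h1, hsθ, sig_neg_ec hR hH hθ, hR.circ θ hθ, g.bd2 _ hρ]
  have cT4 : ∀ s ∈ DD, ∀ w ∈ DD, f.Θ s = f.G4 w → g.Θ (sig H s) = g.G4 (R w) := by
    intro s hs w hw he
    have h2 : f.F (f.Θ s) = f.F (f.G4 w) := by rw [he]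
    rw [f.FΘ s hs, f.F4 w hw] at h2
    rcases f.sep4 s hs w hw he with h1 | ⟨θ, hθ, hsθ⟩
    · have h3 : w = 1 := by
        rw [← h2, h1]
        norm_num
      rw [h1, h3, hsneg, hone, g.Θneg, g.G4one]
    · have h3 : w = ec θ := by rw [← h2, hsθ, ec_sq]
      have hθ' : θ ∈ Icc 0 (2 * Real.pi) := ⟨hθ.1, hθ.2.trans f.κ_mem.2.le⟩
      rw [h3, hsθ, sig_ec hR hH hθ', hR.circ θ hθ', g.bd4 _ (hR.ρlo θ hθ)]
  have c22 : ∀ w ∈ DD, ∀ w' ∈ DD, f.G2 w = f.G2 w' → w = w' := by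
    intro w hw w' hw' he
    rw [← f.F2 w hw, ← f.F2 w' hw', he]
  have c44 : ∀ w ∈ DD, ∀ w' ∈ DD, f.G4 w = f.G4 w' → w = w' := by
    intro w hw w' hw' he
    rw [← f.F4 w hw, ← f.F4 w' hw', he]
  have c24 : ∀ w ∈ DD, ∀ w' ∈ DD, f.G2 w = f.G4 w' → g.G2 (R w) = g.G4 (R w') := by
    intro w hw w' hw' he
    obtain ⟨h1, h2⟩ := f.sep24 w hw w' hw' he
    rw [h1, h2, hone, g.G2one, g.G4one]
  rcases h with ⟨s, hs, hz, hv⟩ | ⟨w, hw, hz, hv⟩ | ⟨w, hw, hz, hv⟩ <;>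
  rcases h' with ⟨s', hs', hz', hv'⟩ | ⟨w', hw', hz', hv'⟩ | ⟨w', hw', hz', hv'⟩ <;>
  rw [hv, hv']
  · exact cTT s hs s' hs' (hz ▸ hz')
  · exact cT2 s hs w' hw' (hz ▸ hz')
  · exact cT4 s hs w' hw' (hz ▸ hz')
  · exact (cT2 s' hs' w hw (hz' ▸ hz)).symm
  · rw [c22 w hw w' hw' (hz ▸ hz')]
  · exact c24 w hw w' hw' (hz ▸ hz')
  · exact (cT4 s' hs' w hw (hz' ▸ hz)).symm
  · exact (c24 w' hw' w hw (hz' ▸ hz)).symm
  · rw [c44 w hw w' hw' (hz ▸ hz')]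

private theorem compact_image_closed {φ ψ : ℂ → ℂ} (hφ : ContinuousOn φ DD) (hψ : ContinuousOn ψ DD)
    {t : Set ℂ} (ht : IsClosed t) : IsClosed (φ '' (DD ∩ ψ ⁻¹' t)) := by
  have h1 : IsClosed (DD ∩ ψ ⁻¹' t) := hψ.preimage_isClosed_of_isClosed isClosed_closedBall ht
  have h2 : IsCompact (DD ∩ ψ ⁻¹' t) :=
    (isCompact_closedBall (0 : ℂ) 1).of_isClosed_subset h1 inter_subset_left
  exact (h2.image_of_continuousOn (hφ.mono inter_subset_left)).isClosed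

/-- The lift exists and is continuous. -/
theorem exists_lift {f g : TS} {R H : ℂ → ℂ} {ρ : ℝ → ℝ} (hR : RMap f.κ g.κ R ρ)
    (hH : IsHat R H) : ∃ R' : ℂ → ℂ, ContinuousOn R' DD ∧ MapsTo R' DD DD ∧
      IsLift f g R H R' := by
  classical
  obtain ⟨R', hR'⟩ : ∃ R' : ℂ → ℂ, ∀ z v, QR f g R H z v → R' z = v := by
    refine ⟨fun z => if h : ∃ v, QR f g R H z v then h.choose else 0, ?_⟩
    intro z v hv
    have hex : ∃ v, QR f g R H z v := ⟨v, hv⟩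
    show (if h : ∃ v, QR f g R H z v then h.choose else 0) = v
    rw [dif_pos hex]
    exact QR_uniq hR hH hex.choose_spec hv
  have eT : ∀ s ∈ DD, R' (f.Θ s) = g.Θ (sig H s) :=
    fun s hs => hR' _ _ (Or.inl ⟨s, hs, rfl, rfl⟩)
  have e2 : ∀ w ∈ DD, R' (f.G2 w) = g.G2 (R w) :=
    fun w hw => hR' _ _ (Or.inr (Or.inl ⟨w, hw, rfl, rfl⟩))
  have e4 : ∀ w ∈ DD, R' (f.G4 w) = g.G4 (R w) :=
    fun w hw => hR' _ _ (Or.inr (Or.inr ⟨w, hw, rfl, rfl⟩))
  have kT : ContinuousOn (fun s => g.Θ (sig H s)) DD :=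
    g.contΘ.comp (sig_cont hR hH) (fun s hs => sig_mem hR hH hs)
  have k2 : ContinuousOn (fun w => g.G2 (R w)) DD := g.cont2.comp hR.cont hR.maps
  have k4 : ContinuousOn (fun w => g.G4 (R w)) DD := g.cont4.comp hR.cont hR.maps
  refine ⟨R', ?_, ?_, ?_⟩
  · rw [continuousOn_iff_isClosed]
    intro t ht
    refine ⟨(f.Θ '' (DD ∩ (fun s => g.Θ (sig H s)) ⁻¹' t)) ∪
      (f.G2 '' (DD ∩ (fun w => g.G2 (R w)) ⁻¹' t)) ∪
      (f.G4 '' (DD ∩ (fun w => g.G4 (R w)) ⁻¹' t)),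
      ((compact_image_closed f.contΘ kT ht).union (compact_image_closed f.cont2 k2 ht)).union
        (compact_image_closed f.cont4 k4 ht), ?_⟩
    ext z
    constructor
    · rintro ⟨h1, h2⟩
      refine ⟨?_, h2⟩
      have h1' : R' z ∈ t := h1
      rcases f.cover z h2 with ⟨s, hs, rfl⟩ | ⟨w, hw, rfl⟩ | ⟨w, hw, rfl⟩
      · rw [eT s hs] at h1'
        exact Or.inl (Or.inl ⟨s, ⟨hs, h1'⟩, rfl⟩)
      · rw [e2 w hw] at h1'
        exact Or.inl (Or.inr ⟨w, ⟨hw, h1'⟩, rfl⟩)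
      · rw [e4 w hw] at h1'
        exact Or.inr ⟨w, ⟨hw, h1'⟩, rfl⟩
    · rintro ⟨h1, h2⟩
      refine ⟨?_, h2⟩
      show R' z ∈ t
      rcases h1 with (⟨s, ⟨hs, h3⟩, rfl⟩ | ⟨w, ⟨hw, h3⟩, rfl⟩) | ⟨w, ⟨hw, h3⟩, rfl⟩
      · rw [eT s hs]
        exact h3
      · rw [e2 w hw]
        exact h3
      · rw [e4 w hw]
        exact h3
  · intro z hz
    rcases f.cover z hz with ⟨s, hs, rfl⟩ | ⟨w, hw, rfl⟩ | ⟨w, hw, rfl⟩
    · rw [eT s hs]
      exact g.mapsΘ (sig_mem hR hH hs)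
    · rw [e2 w hw]
      exact g.maps2 (hR.maps hw)
    · rw [e4 w hw]
      exact g.maps4 (hR.maps hw)
  · refine ⟨?_, ?_, e2, e4⟩
    · intro u hu
      rw [eT _ (exp_mem_DD (half_mem_UU hu)), sig_exp hH hu]
    · rw [eT 0 (by simp [DD]), sig_zero]

end

end Pool.TU
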