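import Pool.Agent.Helper71.TU.A9

/-! # TU A10: the pull-back step -/

open Complex Set Filter Topology Metric Polynomial ComplexConjugate Pool.Tuning

namespace Pool.TU

noncomputable section

variable {f g : TS} {A : XS f} {B : XS g} {M : NS f} {N : NS g} {βf βg : ℝ}
  {P0 H0 : ℂ → ℂ} {ρ0 : ℝ → ℝ}

namespace A10aux

/-- points of the rigid set are in the tile `Θ` -/
theorem X_tile (A : XS f) {z : ℂ} (hz : z ∈ A.X) : ∃ s ∈ DD, z = f.Θ s ∧ s ^ 2 ∈ A.X := by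
  rcases f.cover z (A.subX hz) with ⟨s, hs, rfl⟩ | ⟨w, hw, rfl⟩ | ⟨w, hw, rfl⟩
  · refine ⟨s, hs, rfl, ?_⟩
    rw [← f.FΘ s hs]
    exact A.FX hz
  · exact absurd hz (A.notG2 w hw)
  · exact absurd hz (A.notG4 w hw)

theorem exists_half_log {s : ℂ} (hs : s ∈ DD) (h0 : s ≠ 0) :
    ∃ u ∈ UU, exp (u / 2) = s ∧ exp u = s ^ 2 := by
  refine ⟨2 * Complex.log s, ?_, ?_, ?_⟩
  · show (2 * Complex.log s).re ≤ 0
    have h1 : Real.log ‖s‖ ≤ 0 := by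
      apply Real.log_nonpos (norm_nonneg _)
      unfold DD at hs
      rwa [mem_closedBall_zero_iff] at hs
    have h2 : (2 * Complex.log s).re = 2 * Real.log ‖s‖ := by
      rw [Complex.mul_re, Complex.log_re]
      simp
    rw [h2]
    linarith
  · rw [mul_div_cancel_left₀ _ (two_ne_zero), Complex.exp_log h0]
  · rw [two_mul, Complex.exp_add, Complex.exp_log h0, sq]

end A10aux

open A10aux

/-- The pull-back step. -/
theorem Inv.step (h : ED f g A B M N βf βg P0 H0 ρ0) {R H : ℂ → ℂ} {ρ : ℝ → ℝ}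
    (hI : Inv f g A B M N βf βg P0 H0 R H ρ) :
    ∃ (R' H' : ℂ → ℂ) (ρ' : ℝ → ℝ), IsLift f g R H R' ∧
      Inv f g A B M N βf βg P0 H0 R' H' ρ' := by
  obtain ⟨R', hc, hm, hL⟩ := exists_lift hI.rm.toRMap hI.hat
  obtain ⟨P', pc, pm, pL⟩ := exists_lift h.rm.toRMap h.hat
  have hbX := h.baseX P' pc pL
  have hX : ∀ z ∈ A.X, R' z = P0 z := by
    intro z hz
    rw [← hbX z hz]
    obtain ⟨s, hs, hzs, hs2⟩ := X_tile A hz
    rw [hzs]
    by_cases h0 : s = 0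
    · rw [h0, hL.Θ0, pL.Θ0]
    · obtain ⟨u, hu, hu1, hu2⟩ := exists_half_log hs h0
      rw [← hu1, hL.Θ_eq u hu, pL.Θ_eq u hu, hI.eqHX u hu (by rw [hu2]; exact hs2)]
  obtain ⟨q1, q2, q3, ⟨ρ', q4⟩, ⟨H', q5⟩⟩ := hI.lift_props h.toPreED hc hm hL hX
  have hI0 := PreED.inv0 h.toPreED
  obtain ⟨-, -, -, -, ⟨K', k5⟩⟩ := hI0.lift_props h.toPreED pc pm pL hbX
  refine ⟨R', H', ρ', hL, q4, q5, hX, ?_, q3, q1, q2⟩
  intro u hu hux
  obtain ⟨s, hs, hzs, hs2⟩ := X_tile A hux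
  rw [← h.baseH P' K' pc pL k5 u hu hux]
  exact hat_agree hI.rm.toRMap hI.hat hc hL q5 hI.mapsO h.rm.toRMap h.hat pc pL k5 hI0.mapsO
    hI.eqHX u hu s hs hs2 hzs

/-- hats agree over `M.N` -/
theorem Inv.eqHN {R H K L : ℂ → ℂ} {ρ σ : ℝ → ℝ}
    (hI : Inv f g A B M N βf βg P0 H0 R H ρ) (hJ : Inv f g A B M N βf βg P0 H0 K L σ) :
    ∀ u ∈ UU, exp u ∈ M.N → H u = L u :=
  hat_agree_near_one hI.hat hJ.hat M.conn M.subN (M.No_sub M.one_mem) M.repos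
    (fun z hz => by rw [hI.eqN z hz, hJ.eqN z hz])

end

end Pool.TU
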