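import Pool.Agent.Helper71.TU.A10

/-! # TU A11: the pull-back sequence, Claim C -/

open Complex Set Filter Topology Metric Polynomial ComplexConjugate Pool.Tuning

namespace Pool.TU

noncomputable section

variable {f g : TS} {A : XS f} {B : XS g} {M : NS f} {N : NS g} {βf βg : ℝ}
  {P0 H0 : ℂ → ℂ} {ρ0 : ℝ → ℝ}

theorem ED.exists_seq (h : ED f g A B M N βf βg P0 H0 ρ0) :
    ∃ (R H : ℕ → ℂ → ℂ) (ρ : ℕ → ℝ → ℝ), Seq f g A B M N βf βg P0 H0 R H ρ := by
  let T := {t : (ℂ → ℂ) × (ℂ → ℂ) × (ℝ → ℝ) //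
    Inv f g A B M N βf βg P0 H0 t.1 t.2.1 t.2.2}
  have hstep : ∀ t : T, ∃ t' : T, IsLift f g t.1.1 t.1.2.1 t'.1.1 := by
    rintro ⟨⟨R, H, ρ⟩, hI⟩
    obtain ⟨R', H', ρ', h1, h2⟩ := Inv.step h hI
    exact ⟨⟨⟨R', H', ρ'⟩, h2⟩, h1⟩
  choose nx hnx using hstep
  let t0 : T := ⟨⟨P0, H0, ρ0⟩, h.toPreED.inv0⟩
  let sq : ℕ → T := fun n => Nat.rec t0 (fun _ t => nx t) n
  refine ⟨fun n => (sq n).1.1, fun n => (sq n).1.2.1, fun n => (sq n).1.2.2, ?_, ?_, ?_⟩
  · exact ⟨rfl, rfl⟩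
  · intro n
    exact (sq n).2
  · intro n
    exact hnx (sq n)

theorem A11_exp_mem_DD {u : ℂ} : exp u ∈ DD ↔ u ∈ UU := by
  unfold DD UU
  rw [mem_closedBall, dist_zero_right, Complex.norm_exp, mem_setOf_eq, Real.exp_le_one_iff]

/-- Claim C: once the orbit of `z` has entered `X ∪ N`, the sequence of hats is constant. -/
theorem Seq.const {R H : ℕ → ℂ → ℂ} {ρ : ℕ → ℝ → ℝ}
    (hs : Seq f g A B M N βf βg P0 H0 R H ρ) (j : ℕ) (u : ℂ) (hu : u ∈ UU)
    (hj : f.F^[j] (exp u) ∈ A.X ∪ M.N) : ∀ m, j ≤ m → H m u = H j u := by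
  obtain ⟨C⟩ := exists_br f A
  obtain ⟨E⟩ := exists_br g B
  have base : ∀ v ∈ UU, exp v ∈ A.X ∪ M.N → ∀ m, H m v = H 0 v := by
    intro v hv h m
    rcases h with h | h
    · rw [(hs.inv m).eqHX v hv h, (hs.inv 0).eqHX v hv h]
    · exact (hs.inv m).eqHN (hs.inv 0) v hv h
  induction j generalizing u with
  | zero =>
    intro m _
    exact base u hu hj m
  | succ j ih =>
    intro m hm
    obtain ⟨m', rfl⟩ : ∃ m', m = m' + 1 := ⟨m - 1, by omega⟩
    have hm' : j ≤ m' := by omega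
    by_cases hX : exp u ∈ A.Xo
    · rw [base u hu (Or.inl (A.Xo_sub hX)) (m' + 1), base u hu (Or.inl (A.Xo_sub hX)) (j + 1)]
    have huO : u ∈ OO A.Xo := ⟨hu, hX⟩
    have huD : exp u ∈ DD := A11_exp_mem_DD.mpr hu
    have hwD : f.F (exp u) ∈ DD := f.mapsF huD
    rw [Function.iterate_succ_apply] at hj
    by_cases hw : f.F (exp u) ∈ A.Xo
    · -- the image is in the rigid set
      have hwX := A.Xo_sub hw
      have hg := fun n => hat_g (hs.inv n).rm.toRMap (hs.inv n).hat (hs.inv (n + 1)).rm.cont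
        (hs.lift n) (hs.inv (n + 1)).hat C.cont2 C.exp2 C.one2 C.cont4 C.exp4 C.one4
        E.cont2 E.exp2 E.one2 E.cont4 E.exp4 E.one4
      rcases f.cover (exp u) huD with ⟨s, hs', hse⟩ | ⟨w, hwm, hwe⟩ | ⟨w, hwm, hwe⟩
      · have hs2 : s ^ 2 ∈ A.X := by
          rw [← f.FΘ s hs', hse]
          exact hwX
        exact hat_agree (hs.inv m').rm.toRMap (hs.inv m').hat (hs.inv (m' + 1)).rm.cont
          (hs.lift m') (hs.inv (m' + 1)).hat (hs.inv m').mapsO (hs.inv j).rm.toRMap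
          (hs.inv j).hat (hs.inv (j + 1)).rm.cont (hs.lift j) (hs.inv (j + 1)).hat
          (hs.inv j).mapsO (fun v hv hvX => by
            rw [(hs.inv m').eqHX v hv hvX, (hs.inv j).eqHX v hv hvX]) u hu s hs' hs2 hse.symm
      · have hww : w ∈ A.X := by
          rw [← f.F2 w hwm, hwe]
          exact hwX
        obtain ⟨k, hk⟩ := C.cover2 hwm hwe.symm
        have hU : C.g2 w ∈ UU := by
          rw [← A11_exp_mem_DD, C.exp2 w hwm]
          exact f.maps2 hwm
        rw [hk, hat_shift (hs.inv (m' + 1)).hat k _ hU, hat_shift (hs.inv (j + 1)).hat k _ hU,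
          (hg m').1 w hwm, (hg j).1 w hwm, (hs.inv m').eqX w hww, (hs.inv j).eqX w hww]
      · have hww : w ∈ A.X := by
          rw [← f.F4 w hwm, hwe]
          exact hwX
        obtain ⟨k, hk⟩ := C.cover4 hwm hwe.symm
        have hU : C.g4 w ∈ UU := by
          rw [← A11_exp_mem_DD, C.exp4 w hwm]
          exact f.maps4 hwm
        rw [hk, hat_shift (hs.inv (m' + 1)).hat k _ hU, hat_shift (hs.inv (j + 1)).hat k _ hU,
          (hg m').2 w hwm, (hg j).2 w hwm, (hs.inv m').eqX w hww, (hs.inv j).eqX w hww]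
    · have hw0 : f.F (exp u) ≠ 0 := by
        intro h0
        rw [h0] at hw
        exact hw A.zero_mem
      have he : exp (Complex.log (f.F (exp u))) = f.F (exp u) := Complex.exp_log hw0
      have hu' : Complex.log (f.F (exp u)) ∈ UU := by
        rw [← A11_exp_mem_DD, he]
        exact hwD
      obtain ⟨l, hl⟩ := C.cover huO hw hu' he
      have huO' : Complex.log (f.F (exp u)) ∈ OO A.Xo := ⟨hu', by rw [he]; exact hw⟩
      have hih := ih (Complex.log (f.F (exp u))) hu' (by rw [he]; exact hj) m' hm'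
      have h1 := ap_hat C E (hs.inv m').rm.toRMap (hs.inv m').hat (hs.inv (m' + 1)).rm.cont
        (hs.lift m') (hs.inv (m' + 1)).hat (hs.inv m').mapsO l _ huO'
      have h2 := ap_hat C E (hs.inv j).rm.toRMap (hs.inv j).hat (hs.inv (j + 1)).rm.cont
        (hs.lift j) (hs.inv (j + 1)).hat (hs.inv j).mapsO l _ huO'
      rw [hl, h1, h2, hih]

end

end Pool.TU
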