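import Pool.Agent.Helper71.TU.A11

/-! # TU A12: words and displacement bounds -/

open Complex Set Filter Topology Metric Polynomial ComplexConjugate Pool.Tuning

namespace Pool.TU

noncomputable section

variable {f g : TS} {A : XS f} {B : XS g} {M : NS f} {N : NS g} {βf βg : ℝ}
  {P0 H0 : ℂ → ℂ} {ρ0 : ℝ → ℝ}

/-- One step of the functional equation. -/
theorem Seq.ap_eq {R H : ℕ → ℂ → ℂ} {ρ : ℕ → ℝ → ℝ}
    (hs : Seq f g A B M N βf βg P0 H0 R H ρ) (C : Br f A) (E : Br g B) (l : Ltr) (m : ℕ)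
    (u : ℂ) (hu : u ∈ OO A.Xo) : H (m + 1) (C.ap l u) = E.ap l (H m u) :=
  ap_hat C E (hs.inv m).rm.toRMap (hs.inv m).hat (hs.inv (m + 1)).rm.cont (hs.lift m)
    (hs.inv (m + 1)).hat (hs.inv m).mapsO l u hu

/-- The functional equation along a word. -/
theorem Seq.word {R H : ℕ → ℂ → ℂ} {ρ : ℕ → ℝ → ℝ}
    (hs : Seq f g A B M N βf βg P0 H0 R H ρ) (C : Br f A) (E : Br g B) (w : List Ltr) (m : ℕ)
    (u : ℂ) (hu : u ∈ OO A.Xo) : H (m + w.length) (C.ev w u) = E.ev w (H m u) := by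
  induction w with
  | nil => rfl
  | cons l w ih =>
    show H (m + (w.length + 1)) (C.ap l (C.ev w u)) = E.ap l (E.ev w (H m u))
    rw [← ih, ← add_assoc]
    exact hs.ap_eq C E l _ _ (C.ev_mem subset_rfl A.FXo w hu)

/-- a lift of the image of a point not over `Xo` -/
theorem A12_pre (C : Br f A) {v : ℂ} (hv : v ∈ OO A.Xo) (hF : f.F (exp v) ∉ A.Xo) :
    ∃ l u, u ∈ OO A.Xo ∧ exp u = f.F (exp v) ∧ v = C.ap l u := by
  have h0 : f.F (exp v) ≠ 0 := by
    intro h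
    exact hF (h ▸ A.zero_mem)
  have h1 : exp (log (f.F (exp v))) = f.F (exp v) := exp_log h0
  have h2 : log (f.F (exp v)) ∈ UU := A8_mem_UU (f.mapsF (A8_exp_mem hv.1)) h1
  obtain ⟨l, hl⟩ := C.cover hv hF h2 h1
  exact ⟨l, _, ⟨h2, by rw [h1]; exact hF⟩, h1, hl⟩

/-- A point whose orbit avoids `Xo` up to time `n` is the image of a word of length `n`. -/
theorem exists_word (C : Br f A) (n : ℕ) {v : ℂ} (hv : v ∈ UU)
    (h : ∀ j ≤ n, f.F^[j] (exp v) ∉ A.Xo) : ∃ (w : List Ltr) (u : ℂ), w.length = n ∧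
      u ∈ OO A.Xo ∧ exp u = f.F^[n] (exp v) ∧ v = C.ev w u := by
  induction n generalizing v with
  | zero => exact ⟨[], v, rfl, ⟨hv, h 0 le_rfl⟩, rfl, rfl⟩
  | succ n ih =>
    have h1 : f.F (exp v) ∉ A.Xo := h 1 (by omega)
    obtain ⟨l, u', hu', he, hvu⟩ := A12_pre C ⟨hv, h 0 (by omega)⟩ h1
    obtain ⟨w, u, hw, hu, hu2, hu3⟩ := ih (v := u') hu'.1 (by
      intro j hj
      rw [he, ← Function.iterate_succ_apply]
      exact h (j + 1) (by omega))
    refine ⟨l :: w, u, by simp [hw], hu, ?_, ?_⟩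
    · rw [hu2, he, ← Function.iterate_succ_apply]
    · rw [hvu, hu3]; rfl

theorem A12_closed_UU : IsClosed UU := isClosed_le Complex.continuous_re continuous_const

theorem A12_closed_OO {S : TS} (A : XS S) : IsClosed (OO A.Xo) := by
  obtain ⟨O, hO, hXo⟩ := A.Xo_open
  have : OO A.Xo = UU ∩ (exp ⁻¹' Oᶜ) := by
    ext u
    constructor
    · rintro ⟨hu, h⟩
      refine ⟨hu, fun h2 => h ?_⟩
      rw [hXo]
      exact ⟨h2, A8_exp_mem hu⟩
    · rintro ⟨hu, h⟩
      refine ⟨hu, fun h2 => h ?_⟩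
      rw [hXo] at h2
      exact h2.1
  rw [this]
  exact A12_closed_UU.inter (hO.isClosed_compl.preimage Complex.continuous_exp)

theorem A12_re_bdd {S : TS} (A : XS S) : ∃ m : ℝ, ∀ u ∈ OO A.Xo, m ≤ u.re := by
  obtain ⟨O, hO, hXo⟩ := A.Xo_open
  have h0 : (0 : ℂ) ∈ O := by
    have := A.zero_mem
    rw [hXo] at this
    exact this.1
  obtain ⟨ε, hε, hb⟩ := Metric.isOpen_iff.1 hO 0 h0
  refine ⟨Real.log ε, fun u hu => ?_⟩
  by_contra hlt
  push Not at hlt
  apply hu.2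
  rw [hXo]
  refine ⟨hb ?_, A8_exp_mem hu.1⟩
  rw [mem_ball_zero_iff, Complex.norm_exp]
  exact (Real.lt_log_iff_exp_lt hε).1 hlt

theorem A12_compact {S : TS} (A : XS S) (a b : ℝ) :
    IsCompact (OO A.Xo ∩ {u | a ≤ u.im ∧ u.im ≤ b}) := by
  obtain ⟨m, hm⟩ := A12_re_bdd A
  refine Metric.isCompact_of_isClosed_isBounded ?_ ?_
  · refine (A12_closed_OO A).inter ?_
    exact (isClosed_le continuous_const Complex.continuous_im).inter
      (isClosed_le Complex.continuous_im continuous_const)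
  · refine (isBounded_closedBall (x := (0 : ℂ)) (r := |m| + (|a| + |b|))).subset ?_
    rintro u ⟨hu, hu1, hu2⟩
    rw [mem_closedBall_zero_iff]
    have h1 := hm u hu
    have h2 : u.re ≤ 0 := hu.1
    have h3 : |u.re| ≤ |m| := by
      rw [abs_of_nonpos h2]
      exact le_trans (by linarith) (neg_le_abs m)
    have h4 : |u.im| ≤ |a| + |b| := by
      rw [abs_le]
      constructor
      · have := neg_abs_le a
        have := abs_nonneg b
        linarith
      · have := le_abs_self b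
        have := abs_nonneg a
        linarith
    exact (Complex.norm_le_abs_re_add_abs_im u).trans (add_le_add h3 h4)

theorem A12_fund (u : ℂ) : ∃ k : ℤ, 0 ≤ (u + (k : ℂ) * tpi).im ∧
    (u + (k : ℂ) * tpi).im ≤ 2 * Real.pi := by
  have hpi := Real.pi_pos
  refine ⟨-⌊u.im / (2 * Real.pi)⌋, ?_⟩
  have h1 : (u + ((-⌊u.im / (2 * Real.pi)⌋ : ℤ) : ℂ) * tpi).im =
      u.im - 2 * Real.pi * ⌊u.im / (2 * Real.pi)⌋ := by
    rw [← A8_ktpi]
    simp
    ring
  rw [h1]
  have h2 := Int.floor_le (u.im / (2 * Real.pi))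
  have h3 := Int.lt_floor_add_one (u.im / (2 * Real.pi))
  have h4 : 0 < 2 * Real.pi := by positivity
  rw [le_div_iff₀ h4] at h2
  rw [div_lt_iff₀ h4] at h3
  constructor
  · nlinarith
  · nlinarith

/-- a hat has bounded displacement off `Xo` -/
theorem A12_hat_bdd {S : TS} (A : XS S) {R H : ℂ → ℂ} (hH : IsHat R H) :
    ∃ D : ℝ, ∀ u ∈ OO A.Xo, ‖H u - u‖ ≤ D := by
  have hK := A12_compact A 0 (2 * Real.pi)
  have hc : ContinuousOn (fun u => H u - u) (OO A.Xo ∩ {u | 0 ≤ u.im ∧ u.im ≤ 2 * Real.pi}) :=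
    (hH.cont.mono fun u hu => hu.1.1).sub continuousOn_id
  obtain ⟨D, hD⟩ := hK.exists_bound_of_continuousOn hc
  refine ⟨D, fun u hu => ?_⟩
  obtain ⟨k, hk⟩ := A12_fund u
  have h1 := hD _ ⟨A8_add_OO hu k, hk⟩
  have h2 : H (u + (k : ℂ) * tpi) - (u + (k : ℂ) * tpi) = H u - u := by
    rw [hat_shift hH k u hu.1]
    ring
  rwa [h2] at h1

/-- uniformly bounded displacement of the hats -/
theorem Seq.bdd (h : ED f g A B M N βf βg P0 H0 ρ0) {R H : ℕ → ℂ → ℂ} {ρ : ℕ → ℝ → ℝ}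
    (hs : Seq f g A B M N βf βg P0 H0 R H ρ) :
    ∃ D : ℝ, ∀ n, ∀ u ∈ OO A.Xo, ‖H n u - u‖ ≤ D := by
  obtain ⟨C⟩ := exists_br f A
  obtain ⟨E⟩ := exists_br g B
  obtain ⟨C1, hC, hC2, hC4⟩ := C.bdd
  obtain ⟨C2, hE, hE2, hE4⟩ := E.bdd
  obtain ⟨D0, hD0⟩ := A12_hat_bdd A (hs.inv 0).hat
  obtain ⟨D1, hD1⟩ := A12_hat_bdd A (hs.inv 1).hat
  have h1D : (1 : ℂ) ∈ DD := by simp [DD]
  have hC1 : 0 ≤ C1 := (norm_nonneg _).trans (hC2 1 h1D)
  have hC2' : 0 ≤ C2 := (norm_nonneg _).trans (hE2 1 h1D)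
  set D : ℝ := max (max D0 D1) (2 * (C1 + C2)) with hD
  have d0 : D0 ≤ D := (le_max_left _ _).trans (le_max_left _ _)
  have d1 : D1 ≤ D := (le_max_right _ _).trans (le_max_left _ _)
  have d2 : 2 * (C1 + C2) ≤ D := le_max_right _ _
  refine ⟨D, fun n => ?_⟩
  induction n with
  | zero => exact fun u hu => (hD0 u hu).trans d0
  | succ n ih =>
    intro v hv
    by_cases hF : f.F (exp v) ∈ A.Xo
    · have := hs.const 1 v hv.1 (Or.inl (A.Xo_sub hF)) (n + 1) (by omega)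
      rw [this]
      exact (hD1 v hv).trans d1
    · obtain ⟨l, u, hu, -, rfl⟩ := A12_pre C hv hF
      rw [hs.ap_eq C E l n u hu]
      have hHu := (hs.inv n).mapsO hu
      cases l with
      | P k =>
        show ‖E.Φ (H n u + k * tpi) - C.Φ (u + k * tpi)‖ ≤ D
        have a1 := hE _ (A8_add_OO hHu k)
        have a2 := hC _ (A8_add_OO hu k)
        have a3 := ih u hu
        have a4 : E.Φ (H n u + k * tpi) - C.Φ (u + k * tpi) =
            (E.Φ (H n u + k * tpi) - (H n u + k * tpi) / 2) + (H n u - u) / 2 -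
            (C.Φ (u + k * tpi) - (u + k * tpi) / 2) := by ring
        rw [a4]
        have a5 : ‖(H n u - u) / 2‖ ≤ D / 2 := by
          rw [norm_div]
          simp only [Complex.norm_ofNat]
          linarith
        refine (norm_sub_le _ _).trans ?_
        refine (add_le_add (norm_add_le _ _) le_rfl).trans ?_
        linarith
      | Q2 k =>
        show ‖E.g2 (exp (H n u)) + k * tpi - (C.g2 (exp u) + k * tpi)‖ ≤ D
        have a1 := hE2 _ (A8_exp_mem hHu.1)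
        have a2 := hC2 _ (A8_exp_mem hu.1)
        rw [add_sub_add_right_eq_sub]
        refine (norm_sub_le _ _).trans ?_
        linarith
      | Q4 k =>
        show ‖E.g4 (exp (H n u)) + k * tpi - (C.g4 (exp u) + k * tpi)‖ ≤ D
        have a1 := hE4 _ (A8_exp_mem hHu.1)
        have a2 := hC4 _ (A8_exp_mem hu.1)
        rw [add_sub_add_right_eq_sub]
        refine (norm_sub_le _ _).trans ?_
        linarith

end

end Pool.TU
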