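import Pool.Agent.Helper71.TU.A12

/-! # TU A13: linking consecutive hats -/

open Complex Set Filter Topology Metric Polynomial ComplexConjugate Pool.Tuning

namespace Pool.TU

noncomputable section

variable {f g : TS} {A : XS f} {B : XS g} {M : NS f} {N : NS g} {βf βg : ℝ}
  {P0 H0 : ℂ → ℂ} {ρ0 : ℝ → ℝ}

private theorem a13_idx (hee : A.e = B.e) {R H : ℂ → ℂ} {ρ : ℝ → ℝ}
    (hI : Inv f g A B M N βf βg P0 H0 R H ρ) {u : ℂ} (hu : u ∈ OO A.Xo) :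
    B.idx (H u) = A.idx u := by
  obtain ⟨s, hs, hconn, hus, k, hk⟩ := A.cconn u hu
  have hmaps : MapsTo H s (OO B.Xo) := fun x hx => hI.mapsO (hs hx)
  have hHc : ContinuousOn H s := hI.hat.cont.mono (fun x hx => (hs hx).1)
  have hc1 : ContinuousOn (fun x => B.idx (H x)) s := B.idx_cont.comp hHc hmaps
  have hc2 : ContinuousOn (fun x => A.idx x) s := A.idx_cont.mono hs
  have hc : ContinuousOn (fun x => B.idx (H x) - A.idx x) s := hc1.sub hc2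
  have h := int_const hconn hc hus hk
  rw [hat_int hI.hat k, B.idx_val, A.idx_val, hee] at h
  linarith

private theorem a13_link (h : ED f g A B M N βf βg P0 H0 ρ0) {R H : ℕ → ℂ → ℂ} {ρ : ℕ → ℝ → ℝ}
    (hs : Seq f g A B M N βf βg P0 H0 R H ρ) (hl : Linked B (B.Xo ∪ N.No)) :
    ∃ R' : ℝ, ∀ m n, ∀ u ∈ OO (A.Xo ∪ M.No), ∃ s, Lump (B.Xo ∪ N.No) R' s ∧
      H m u ∈ s ∧ H n u ∈ s := by
  obtain ⟨D, hD⟩ := Seq.bdd h hs
  obtain ⟨R', hR'⟩ := hl (2 * D)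
  refine ⟨R', fun m n u hu => ?_⟩
  have huA : u ∈ OO A.Xo := ⟨hu.1, fun hx => hu.2 (Or.inl hx)⟩
  apply hR' (H m u) ((hs.inv m).mapsZ hu) (H n u) ((hs.inv n).mapsZ hu)
  · rw [a13_idx h.ee (hs.inv m) huA, a13_idx h.ee (hs.inv n) huA]
  · have h1 := hD m u huA
    have h2 := hD n u huA
    have h3 : H m u - H n u = (H m u - u) - (H n u - u) := by ring
    rw [h3]
    calc ‖(H m u - u) - (H n u - u)‖ ≤ ‖H m u - u‖ + ‖H n u - u‖ := norm_sub_le _ _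
      _ ≤ 2 * D := by linarith

/-- consecutive hats are linked by lumps of uniformly bounded size -/
theorem Seq.linked (h : ED f g A B M N βf βg P0 H0 ρ0) {R H : ℕ → ℂ → ℂ} {ρ : ℕ → ℝ → ℝ}
    (hs : Seq f g A B M N βf βg P0 H0 R H ρ) (hl : Linked B (B.Xo ∪ N.No)) :
    ∃ R' : ℝ, ∀ n, ∀ u ∈ OO (A.Xo ∪ M.No), ∃ s, Lump (B.Xo ∪ N.No) R' s ∧
      H n u ∈ s ∧ H (n + 1) u ∈ s := by
  obtain ⟨R', hR'⟩ := a13_link h hs hl
  exact ⟨R', fun n u hu => hR' n (n + 1) u hu⟩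

/-- the first and the `m`-th hat are linked by lumps of uniformly bounded size -/
theorem Seq.linked0 (h : ED f g A B M N βf βg P0 H0 ρ0) {R H : ℕ → ℂ → ℂ} {ρ : ℕ → ℝ → ℝ}
    (hs : Seq f g A B M N βf βg P0 H0 R H ρ) (hl : Linked B (B.Xo ∪ N.No)) :
    ∃ R' : ℝ, ∀ n, ∀ u ∈ OO (A.Xo ∪ M.No), ∃ s, Lump (B.Xo ∪ N.No) R' s ∧
      H 0 u ∈ s ∧ H n u ∈ s := by
  obtain ⟨R', hR'⟩ := a13_link h hs hl
  exact ⟨R', fun n u hu => hR' 0 n u hu⟩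

end

end Pool.TU
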