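import Pool.Agent.Helper71.TU.A13

/-! # TU A14: convergence of the pull-back sequence -/

open Complex Set Filter Topology Metric Polynomial ComplexConjugate Pool.Tuning

namespace Pool.TU

noncomputable section

variable {f g : TS} {A : XS f} {B : XS g} {M : NS f} {N : NS g} {βf βg : ℝ}
  {P0 H0 : ℂ → ℂ} {ρ0 : ℝ → ℝ}

/-- uniform Cauchy estimate -/
theorem A14_cauchy (h : ED f g A B M N βf βg P0 H0 ρ0) (E : Br g B)
    (hS : Shrinks E (B.Xo ∪ N.No)) (hl : Linked B (B.Xo ∪ N.No)) {R H : ℕ → ℂ → ℂ}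
    {ρ : ℕ → ℝ → ℝ} (hs : Seq f g A B M N βf βg P0 H0 R H ρ) (η : ℝ) (hη : 0 < η) :
    ∃ N0 : ℕ, ∀ m, N0 ≤ m → ∀ n, N0 ≤ n → ∀ v ∈ UU, ‖H m v - H n v‖ ≤ η := by
  obtain ⟨C⟩ := exists_br f A
  obtain ⟨R1, hR1⟩ := hs.linked0 h hl
  obtain ⟨N0, hN0⟩ := hS R1 (η / 2) (by positivity)
  refine ⟨N0, fun m hm n hn v hv => ?_⟩
  by_cases hj : ∃ j ≤ N0, f.F^[j] (exp v) ∈ A.X ∪ M.N
  · obtain ⟨j, hj, hjv⟩ := hj
    rw [hs.const j v hv hjv m (hj.trans hm), hs.const j v hv hjv n (hj.trans hn), sub_self,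
      norm_zero]
    exact hη.le
  · push Not at hj
    obtain ⟨w, u, hw, hu, he, hvu⟩ := exists_word C N0 hv (fun j hjN hjX =>
      hj j hjN (Or.inl (A.Xo_sub hjX)))
    have huZ : u ∈ OO (A.Xo ∪ M.No) := by
      refine ⟨hu.1, fun hx => ?_⟩
      rw [he] at hx
      refine hj N0 le_rfl ?_
      rcases hx with hx | hx
      · exact Or.inl (A.Xo_sub hx)
      · exact Or.inr (M.No_sub hx)
    have key : ∀ m, N0 ≤ m → ‖H m v - E.ev w (H 0 u)‖ ≤ η / 2 := by
      intro m hm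
      have e1 : H m v = E.ev w (H (m - N0) u) := by
        have := hs.word C E w (m - N0) u hu
        rw [hw, Nat.sub_add_cancel hm, ← hvu] at this
        exact this
      obtain ⟨s, hsL, h0s, hms⟩ := hR1 (m - N0) u huZ
      rw [e1]
      exact hN0 w hw.ge s hsL _ hms _ h0s
    have k1 := key m hm
    have k2 := key n hn
    have : H m v - H n v = (H m v - E.ev w (H 0 u)) - (H n v - E.ev w (H 0 u)) := by ring
    rw [this]
    refine (norm_sub_le _ _).trans ?_
    linarith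

theorem A14_exp_lip {a b : ℂ} (ha : a ∈ UU) (hb : b ∈ UU) : ‖exp a - exp b‖ ≤ ‖a - b‖ := by
  have hc : Convex ℝ UU := by
    intro x hx y hy s t hs ht hst
    have h1 : x.re ≤ 0 := hx
    have h2 : y.re ≤ 0 := hy
    show (s • x + t • y).re ≤ 0
    simp only [add_re, real_smul, mul_re, ofReal_re, ofReal_im, zero_mul, sub_zero]
    nlinarith
  have := hc.norm_image_sub_le_of_norm_deriv_le (f := exp) (C := 1)
    (fun x _ => Complex.differentiable_exp.differentiableAt) (fun x hx => by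
      rw [Complex.deriv_exp, Complex.norm_exp]
      exact Real.exp_le_one_iff.2 hx) hb ha
  simpa using this

theorem A14_closed_DD : IsClosed DD := isClosed_closedBall

theorem A14_unif_limit {F : ℕ → ℂ → ℂ} {S : Set ℂ}
    (hF : ∀ η : ℝ, 0 < η → ∃ N0 : ℕ, ∀ m, N0 ≤ m → ∀ n, N0 ≤ n → ∀ v ∈ S,
      ‖F m v - F n v‖ ≤ η) :
    ∃ G : ℂ → ℂ, TendstoUniformlyOn F G atTop S := by
  have hlim : ∀ v ∈ S, ∃ y, Tendsto (fun n => F n v) atTop (𝓝 y) := by
    intro v hv
    refine cauchySeq_tendsto_of_complete ?_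
    rw [Metric.cauchySeq_iff']
    intro ε hε
    obtain ⟨N0, hN0⟩ := hF (ε / 2) (by positivity)
    refine ⟨N0, fun n hn => ?_⟩
    rw [dist_eq_norm]
    exact (hN0 n hn N0 le_rfl v hv).trans_lt (by linarith)
  classical
  refine ⟨fun v => if hv : v ∈ S then (hlim v hv).choose else 0, ?_⟩
  rw [Metric.tendstoUniformlyOn_iff]
  intro ε hε
  obtain ⟨N0, hN0⟩ := hF (ε / 2) (by positivity)
  filter_upwards [eventually_ge_atTop N0] with n hn v hv
  simp only [dif_pos hv]
  have h1 := (hlim v hv).choose_spec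
  have h2 : Tendsto (fun m => dist (F m v) (F n v)) atTop (𝓝 (dist (hlim v hv).choose (F n v))) :=
    h1.dist tendsto_const_nhds
  have h3 : dist (hlim v hv).choose (F n v) ≤ ε / 2 := by
    refine le_of_tendsto h2 ?_
    filter_upwards [eventually_ge_atTop N0] with m hm
    rw [dist_eq_norm]
    exact hN0 m hm n hn v hv
  linarith

/-- The pull-back theorem. -/
theorem engine (h : ED f g A B M N βf βg P0 H0 ρ0) (E : Br g B)
    (hS : Shrinks E (B.Xo ∪ N.No)) (hl : Linked B (B.Xo ∪ N.No)) :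
    ∃ (R H : ℂ → ℂ) (ρ : ℝ → ℝ), EC f g A B M N βf βg P0 H0 R H ρ := by
  obtain ⟨R, H, ρ, hs⟩ := h.exists_seq
  obtain ⟨D, hD⟩ := hs.bdd h
  have hC := A14_cauchy h E hS hl hs
  -- the hats
  obtain ⟨Hl, hHl⟩ := A14_unif_limit hC
  have pH : ∀ u ∈ UU, Tendsto (fun n => H n u) atTop (𝓝 (Hl u)) := fun u hu =>
    hHl.tendsto_at hu
  have cH : ContinuousOn Hl UU :=
    hHl.continuousOn (Eventually.of_forall fun n => (hs.inv n).hat.cont).frequently
  -- the maps
  have hCR : ∀ η : ℝ, 0 < η → ∃ N0 : ℕ, ∀ m, N0 ≤ m → ∀ n, N0 ≤ n → ∀ z ∈ DD,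
      ‖R m z - R n z‖ ≤ η := by
    intro η hη
    obtain ⟨N0, hN0⟩ := hC η hη
    refine ⟨N0, fun m hm n hn z hz => ?_⟩
    rcases eq_or_ne z 0 with rfl | hz0
    · rw [((hs.inv m).rm.zero 0 hz).2 rfl, ((hs.inv n).rm.zero 0 hz).2 rfl, sub_self, norm_zero]
      exact hη.le
    · have e1 : exp (log z) = z := exp_log hz0
      have hu : log z ∈ UU := A8_mem_UU hz e1
      rw [← e1, ← (hs.inv m).hat.exp_eq _ hu, ← (hs.inv n).hat.exp_eq _ hu]
      exact (A14_exp_lip ((hs.inv m).hat.maps hu) ((hs.inv n).hat.maps hu)).trans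
        (hN0 m hm n hn _ hu)
  obtain ⟨Rl, hRl⟩ := A14_unif_limit hCR
  have pR : ∀ z ∈ DD, Tendsto (fun n => R n z) atTop (𝓝 (Rl z)) := fun z hz =>
    hRl.tendsto_at hz
  have cR : ContinuousOn Rl DD :=
    hRl.continuousOn (Eventually.of_forall fun n => (hs.inv n).rm.cont).frequently
  -- the circle maps
  have hθU : ∀ θ : ℝ, (θ : ℂ) * I ∈ UU := by
    intro θ
    show ((θ : ℂ) * I).re ≤ 0
    simp
  have hρ : ∀ n, ∀ θ ∈ Icc 0 (2 * Real.pi), ρ n θ = (H n (θ * I)).im := by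
    intro n θ hθ
    rw [hat_circ (hs.inv n).rm.toRMap (hs.inv n).hat θ hθ]
    simp
  have pρ : ∀ θ ∈ Icc 0 (2 * Real.pi),
      Tendsto (fun n => ρ n θ) atTop (𝓝 ((Hl (θ * I)).im)) := by
    intro θ hθ
    have := (Complex.continuous_im.tendsto _).comp (pH _ (hθU θ))
    refine this.congr fun n => ?_
    rw [hρ n θ hθ]
    rfl
  have mR : ∀ z ∈ DD, Rl z ∈ DD := fun z hz =>
    A14_closed_DD.mem_of_tendsto (pR z hz) (Eventually.of_forall fun n => (hs.inv n).rm.maps hz)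
  have mH : ∀ u ∈ UU, Hl u ∈ UU := fun u hu =>
    A12_closed_UU.mem_of_tendsto (pH u hu) (Eventually.of_forall fun n =>
      (hs.inv n).hat.maps hu)
  have eR : ∀ u ∈ UU, exp (Hl u) = Rl (exp u) := by
    intro u hu
    have t1 := (Complex.continuous_exp.tendsto _).comp (pH u hu)
    have t2 := pR (exp u) (A8_exp_mem hu)
    refine tendsto_nhds_unique (t1.congr fun n => ?_) t2
    exact (hs.inv n).hat.exp_eq u hu
  have eqX : ∀ z ∈ A.X, Rl z = P0 z := by
    intro z hz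
    refine tendsto_nhds_unique (pR z (A.subX hz)) (tendsto_const_nhds.congr fun n => ?_)
    exact ((hs.inv n).eqX z hz).symm
  have eqN : ∀ z ∈ M.N, Rl z = P0 z := by
    intro z hz
    refine tendsto_nhds_unique (pR z (M.subN hz)) (tendsto_const_nhds.congr fun n => ?_)
    exact ((hs.inv n).eqN z hz).symm
  have Xof : ∀ z ∈ DD, Rl z ∈ B.Xo → z ∈ A.Xo := by
    intro z hz hm
    obtain ⟨O, hO, hXo⟩ := B.Xo_open
    have h1 : Rl z ∈ O := by rw [hXo] at hm; exact hm.1
    have h2 := (pR z hz).eventually (hO.mem_nhds h1)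
    obtain ⟨n, hn⟩ := h2.exists
    refine (hs.inv n).Xo_of z hz ?_
    rw [hXo]
    exact ⟨hn, (hs.inv n).rm.maps hz⟩
  have Nof : ∀ z ∈ DD, Rl z ∈ N.No → z ∈ M.No := by
    intro z hz hm
    obtain ⟨O, hO, hXo⟩ := N.No_open
    have h1 : Rl z ∈ O := by rw [hXo] at hm; exact hm.1
    have h2 := (pR z hz).eventually (hO.mem_nhds h1)
    obtain ⟨n, hn⟩ := h2.exists
    refine (hs.inv n).No_of z hz ?_
    rw [hXo]
    exact ⟨hn, (hs.inv n).rm.maps hz⟩
  have h1D : (1 : ℂ) ∈ DD := by simp [DD]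
  have h0D : (0 : ℂ) ∈ DD := by simp [DD]
  have hR1 : Rl 1 = 1 := by
    refine tendsto_nhds_unique (pR 1 h1D) (tendsto_const_nhds.congr fun n => ?_)
    exact (((hs.inv n).rm.one 1 h1D).2 rfl).symm
  have hR0 : Rl 0 = 0 := by
    refine tendsto_nhds_unique (pR 0 h0D) (tendsto_const_nhds.congr fun n => ?_)
    exact (((hs.inv n).rm.zero 0 h0D).2 rfl).symm
  have hpi : 0 < 2 * Real.pi := by positivity
  have hκ := f.κ_mem
  have lim_eq : ∀ θ ∈ Icc 0 (2 * Real.pi), ∀ c : ℝ, (∀ n, ρ n θ = c) →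
      (Hl (θ * I)).im = c := by
    intro θ hθ c hc
    refine tendsto_nhds_unique (pρ θ hθ) (tendsto_const_nhds.congr fun n => ?_)
    exact (hc n).symm
  have lim_mem : ∀ θ ∈ Icc 0 (2 * Real.pi), ∀ a b : ℝ, (∀ n, ρ n θ ∈ Icc a b) →
      (Hl (θ * I)).im ∈ Icc a b := by
    intro θ hθ a b hc
    exact isClosed_Icc.mem_of_tendsto (pρ θ hθ) (Eventually.of_forall hc)
  have hβ := h.bf.mem
  refine ⟨Rl, Hl, fun θ => (Hl (θ * I)).im, ?_⟩
  have hrm : RMapB f g βf βg Rl (fun θ => (Hl (θ * I)).im) := by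
    refine { cont := cR, maps := mR, zero := ?_, one := ?_, ρcont := ?_, ρ0 := ?_, ρ1 := ?_,
             ρκ := ?_, ρlo := ?_, ρhi := ?_, circ := ?_, ρβ := ?_, ρmid := ?_, ρtop := ?_ }
    · intro z hz
      constructor
      · intro hz0
        by_contra hne
        have e1 : exp (log z) = z := exp_log hne
        have hu : log z ∈ UU := A8_mem_UU hz e1
        have := eR _ hu
        rw [e1, hz0] at this
        exact exp_ne_zero _ this
      · rintro rfl
        exact hR0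
    · intro z hz
      constructor
      · intro hz1
        have hzM : z ∈ M.N := M.No_sub (Nof z hz (by rw [hz1]; exact N.one_mem))
        have := eqN z hzM
        rw [hz1] at this
        exact (h.rm.one z hz).1 this.symm
      · rintro rfl
        exact hR1
    · refine Continuous.continuousOn ?_
      refine Complex.continuous_im.comp ?_
      exact cH.comp_continuous (by fun_prop) hθU
    · exact lim_eq 0 ⟨le_rfl, hpi.le⟩ 0 (fun n => (hs.inv n).rm.ρ0)
    · exact lim_eq (2 * Real.pi) ⟨hpi.le, le_rfl⟩ _ (fun n => (hs.inv n).rm.ρ1)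
    · exact lim_eq f.κ ⟨hκ.1.le, hκ.2.le⟩ _ (fun n => (hs.inv n).rm.ρκ)
    · intro θ hθ
      exact lim_mem θ ⟨hθ.1, hθ.2.trans hκ.2.le⟩ _ _ (fun n => (hs.inv n).rm.ρlo θ hθ)
    · intro θ hθ
      exact lim_mem θ ⟨hκ.1.le.trans hθ.1, hθ.2⟩ _ _ (fun n => (hs.inv n).rm.ρhi θ hθ)
    · intro θ hθ
      have e1 := hat_circ (hs.inv 0).rm.toRMap (hs.inv 0).hat θ hθ
      have hre : (Hl (θ * I)).re = 0 := by
        have t1 := (Complex.continuous_re.tendsto _).comp (pH _ (hθU θ))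
        refine tendsto_nhds_unique (t1.congr fun n => ?_) tendsto_const_nhds
        show (H n (θ * I)).re = 0
        rw [hat_circ (hs.inv n).rm.toRMap (hs.inv n).hat θ hθ]
        simp
      have e2 := eR _ (hθU θ)
      show Rl (exp (θ * I)) = exp (((Hl (θ * I)).im : ℂ) * I)
      rw [← e2]
      congr 1
      apply Complex.ext
      · simpa using hre
      · simp
    · exact lim_eq βf ⟨hκ.1.le.trans hβ.1.le, hβ.2.le⟩ _ (fun n => (hs.inv n).rm.ρβ)
    · intro θ hθ
      exact lim_mem θ ⟨hκ.1.le.trans hθ.1, hθ.2.trans hβ.2.le⟩ _ _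
        (fun n => (hs.inv n).rm.ρmid θ hθ)
    · intro θ hθ
      exact lim_mem θ ⟨(hκ.1.le.trans hβ.1.le).trans hθ.1, hθ.2⟩ _ _
        (fun n => (hs.inv n).rm.ρtop θ hθ)
  have hhat : IsHat Rl Hl := by
    refine ⟨cH, mH, eR, ?_, ?_⟩
    · intro u hu
      have t1 := pH _ (A9_add_tpi hu)
      have t2 := (pH u hu).add_const tpi
      refine tendsto_nhds_unique (t1.congr fun n => ?_) t2
      exact (hs.inv n).hat.period u hu
    · have h0U : (0 : ℂ) ∈ UU := by show (0 : ℂ).re ≤ 0; simp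
      refine tendsto_nhds_unique (pH 0 h0U) (tendsto_const_nhds.congr fun n => ?_)
      exact (hs.inv n).hat.zero.symm
  refine { rm := hrm, hat := hhat, eqX := eqX, eqHX := ?_, eqN := eqN, Xo_of := Xof,
           No_of := Nof, lift := ?_, bdd := ?_ }
  · intro u hu hX
    refine tendsto_nhds_unique (pH u hu) (tendsto_const_nhds.congr fun n => ?_)
    exact ((hs.inv n).eqHX u hu hX).symm
  · refine ⟨?_, ?_, ?_, ?_⟩
    · intro u hu
      have hz : f.Θ (exp (u / 2)) ∈ DD := f.mapsΘ (A8_exp_mem (A8_half_mem hu))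
      have t1 := (tendsto_add_atTop_iff_nat 1).2 (pR _ hz)
      have m1 : exp (Hl u / 2) ∈ DD := A8_exp_mem (A8_half_mem (mH u hu))
      have t2 : Tendsto (fun n => exp (H n u / 2)) atTop (𝓝 (exp (Hl u / 2))) :=
        (Complex.continuous_exp.tendsto _).comp ((pH u hu).div_const 2)
      have t3 : Tendsto (fun n => g.Θ (exp (H n u / 2))) atTop (𝓝 (g.Θ (exp (Hl u / 2)))) := by
        refine (g.contΘ _ m1).tendsto.comp ?_
        refine tendsto_nhdsWithin_iff.2 ⟨t2, Eventually.of_forall fun n => ?_⟩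
        exact A8_exp_mem (A8_half_mem ((hs.inv n).hat.maps hu))
      refine tendsto_nhds_unique t1 (t3.congr fun n => ?_)
      exact ((hs.lift n).Θ_eq u hu).symm
    · have hz : f.Θ 0 ∈ DD := f.mapsΘ h0D
      have t1 := (tendsto_add_atTop_iff_nat 1).2 (pR _ hz)
      refine tendsto_nhds_unique t1 (tendsto_const_nhds.congr fun n => ?_)
      exact (hs.lift n).Θ0.symm
    · intro w hw
      have t1 := (tendsto_add_atTop_iff_nat 1).2 (pR _ (f.maps2 hw))
      have t3 : Tendsto (fun n => g.G2 (R n w)) atTop (𝓝 (g.G2 (Rl w))) := by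
        refine (g.cont2 _ (mR w hw)).tendsto.comp ?_
        exact tendsto_nhdsWithin_iff.2 ⟨pR w hw, Eventually.of_forall fun n =>
          (hs.inv n).rm.maps hw⟩
      refine tendsto_nhds_unique t1 (t3.congr fun n => ?_)
      exact ((hs.lift n).G2_eq w hw).symm
    · intro w hw
      have t1 := (tendsto_add_atTop_iff_nat 1).2 (pR _ (f.maps4 hw))
      have t3 : Tendsto (fun n => g.G4 (R n w)) atTop (𝓝 (g.G4 (Rl w))) := by
        refine (g.cont4 _ (mR w hw)).tendsto.comp ?_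
        exact tendsto_nhdsWithin_iff.2 ⟨pR w hw, Eventually.of_forall fun n =>
          (hs.inv n).rm.maps hw⟩
      refine tendsto_nhds_unique t1 (t3.congr fun n => ?_)
      exact ((hs.lift n).G4_eq w hw).symm
  · refine ⟨D, fun u hu => ?_⟩
    have t1 : Tendsto (fun n => ‖H n u - u‖) atTop (𝓝 ‖Hl u - u‖) :=
      ((pH u hu.1).sub_const u).norm
    exact le_of_tendsto t1 (Eventually.of_forall fun n => hD n u hu)

end

end Pool.TU
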