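import Pool.Agent.Helper71.TU.A1

/-! # TU A2: basic facts on lifts and the real branches -/

open Complex Set Filter Topology Metric Polynomial ComplexConjugate Pool.Tuning

namespace Pool.TU

noncomputable section

/-- a nonzero point of the disc is `exp (u/2)` with `u` in the left half plane -/
theorem a2_log {s : ℂ} (hs : s ∈ DD) (h0 : s ≠ 0) : ∃ u ∈ UU, exp (u / 2) = s := by
  refine ⟨2 * log s, ?_, ?_⟩
  · have h1 : ‖s‖ ≤ 1 := by simpa [DD] using hs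
    have h2 : Real.log ‖s‖ ≤ 0 := Real.log_nonpos (norm_nonneg s) h1
    have h3 : (2 * log s).re = 2 * Real.log ‖s‖ := by
      rw [show (2 : ℂ) = ((2 : ℝ) : ℂ) by norm_num, Complex.re_ofReal_mul, Complex.log_re]
    change (2 * log s).re ≤ 0
    rw [h3]
    linarith
  · rw [mul_div_cancel_left₀ _ (by norm_num : (2 : ℂ) ≠ 0), exp_log h0]

theorem a2_exp_mem {u : ℂ} (hu : u ∈ UU) : exp u ∈ DD := by
  have h : u.re ≤ 0 := hu
  simp only [DD, mem_closedBall, dist_zero_right, norm_exp]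
  exact Real.exp_le_one_iff.mpr h

theorem a2_half_mem {u : ℂ} (hu : u ∈ UU) : u / 2 ∈ UU := by
  have h : u.re ≤ 0 := hu
  change (u / 2).re ≤ 0
  have : (u / 2).re = u.re / 2 := by
    rw [show (2 : ℂ) = ((2 : ℝ) : ℂ) by norm_num, Complex.div_ofReal_re]
  rw [this]
  linarith

theorem a2_exp_half_sq (u : ℂ) : exp (u / 2) ^ 2 = exp u := by
  rw [← exp_nat_mul]
  congr 1
  push_cast
  ring

theorem a2_one_mem : (1 : ℂ) ∈ DD := by simp [DD]

theorem a2_neg_one_mem : (-1 : ℂ) ∈ DD := by simp [DD]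

theorem a2_zero_mem : (0 : ℂ) ∈ DD := by simp [DD]

/-- Two lifts agree on the disc. -/
theorem lift_unique {f g : TS} {R H R' R'' : ℂ → ℂ} (h' : IsLift f g R H R')
    (h'' : IsLift f g R H R'') : ∀ z ∈ DD, R' z = R'' z := by
  intro z hz
  rcases f.cover z hz with ⟨s, hs, rfl⟩ | ⟨w, hw, rfl⟩ | ⟨w, hw, rfl⟩
  · by_cases h0 : s = 0
    · subst h0
      rw [h'.Θ0, h''.Θ0]
    · obtain ⟨u, hu, rfl⟩ := a2_log hs h0
      rw [h'.Θ_eq u hu, h''.Θ_eq u hu]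
  · rw [h'.G2_eq w hw, h''.G2_eq w hw]
  · rw [h'.G4_eq w hw, h''.G4_eq w hw]

theorem F_eq_one {S : TS} {z : ℂ} (hz : z ∈ DD) (h : S.F z = 1) : z = 1 := by
  rcases S.cover z hz with ⟨s, hs, rfl⟩ | ⟨w, hw, rfl⟩ | ⟨w, hw, rfl⟩
  · rw [S.FΘ s hs] at h
    have hh : s = 1 ∨ s = -1 := by
      have h2 : (s - 1) * (s + 1) = 0 := by linear_combination h
      rcases mul_eq_zero.mp h2 with h3 | h3
      · exact Or.inl (sub_eq_zero.mp h3)
      · exact Or.inr (eq_neg_of_add_eq_zero_left h3)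
    rcases hh with h1 | h1
    · rw [h1, S.Θone]
    · rw [h1, S.Θneg]
  · rw [S.F2 w hw] at h
    rw [h, S.G2one]
  · rw [S.F4 w hw] at h
    rw [h, S.G4one]

theorem F_one {S : TS} : S.F 1 = 1 := by
  have h := S.FΘ 1 a2_one_mem
  rw [S.Θone] at h
  rw [h]
  norm_num

theorem lift_F {f g : TS} {R H R' : ℂ → ℂ} {ρ : ℝ → ℝ} (hR : RMap f.κ g.κ R ρ)
    (hH : IsHat R H) (h' : IsLift f g R H R') : ∀ z ∈ DD, g.F (R' z) = R (f.F z) := by
  intro z hz
  rcases f.cover z hz with ⟨s, hs, rfl⟩ | ⟨w, hw, rfl⟩ | ⟨w, hw, rfl⟩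
  · by_cases h0 : s = 0
    · subst h0
      rw [h'.Θ0, g.FΘ 0 a2_zero_mem, f.FΘ 0 a2_zero_mem]
      have : R ((0 : ℂ) ^ 2) = 0 := by
        rw [zero_pow (by norm_num)]
        exact (hR.zero 0 a2_zero_mem).mpr rfl
      rw [this]
      norm_num
    · obtain ⟨u, hu, rfl⟩ := a2_log hs h0
      rw [h'.Θ_eq u hu, g.FΘ _ (a2_exp_mem (a2_half_mem (hH.maps hu))), f.FΘ _ hs,
        a2_exp_half_sq, a2_exp_half_sq]
      exact hH.exp_eq u hu
  · rw [h'.G2_eq w hw, g.F2 _ (hR.maps hw), f.F2 w hw]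
  · rw [h'.G4_eq w hw, g.F4 _ (hR.maps hw), f.F4 w hw]

theorem rp_inj (S : TS) : InjOn S.rp (Icc S.κ (2 * Real.pi)) := by
  intro a ha b hb hab
  have hκ := S.κ_mem.1
  have h1 := S.rpΘ a ha
  have h2 := S.rpΘ b hb
  rw [hab, ← h2] at h1
  have ha0 : a / 2 ∈ Ioc 0 (2 * Real.pi) := ⟨by have := ha.1; linarith, by
    have := ha.2
    have := Real.pi_pos
    linarith⟩
  have hb0 : b / 2 ∈ Ioc 0 (2 * Real.pi) := ⟨by have := hb.1; linarith, by
    have := hb.2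
    have := Real.pi_pos
    linarith⟩
  have hm : ∀ θ : ℝ, ec θ ∈ DD := fun θ => by simp [DD, norm_ec]
  have hne : ∀ c ∈ Icc S.κ (2 * Real.pi), ec (c / 2) ≠ 1 := by
    intro c hc h
    have := Real.pi_pos
    rcases ec_eq_one (a := c / 2) ⟨by have := hc.1; linarith, by have := hc.2; linarith⟩ h with h3 | h3
    · have := hc.1
      linarith
    · have := hc.2
      linarith
  rcases S.injΘ _ (hm _) _ (hm _) h1 with h3 | ⟨h3, _⟩ | ⟨_, h3⟩
  · have := ec_inj ha0 hb0 h3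
    linarith
  · exact absurd h3 (hne a ha)
  · exact absurd h3 (hne b hb)

theorem rm_inj (S : TS) : InjOn S.rm (Icc S.κ (2 * Real.pi)) := by
  intro a ha b hb hab
  have hκ := S.κ_mem.1
  have h1 := S.rmG a ha
  have h2 := S.rmG b hb
  rw [hab, ← h2] at h1
  have hm : ∀ θ : ℝ, ec θ ∈ DD := fun θ => by simp [DD, norm_ec]
  have h3 : ec a = ec b := by
    rw [← S.F4 _ (hm a), ← S.F4 _ (hm b), h1]
  exact ec_inj ⟨lt_of_lt_of_le hκ ha.1, ha.2⟩ ⟨lt_of_lt_of_le hκ hb.1, hb.2⟩ h3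

theorem rp_strictMono (S : TS) : StrictMonoOn S.rp (Icc S.κ (2 * Real.pi)) := by
  have hκ := S.κ_mem.2
  apply ContinuousOn.strictMonoOn_of_injOn_Icc hκ.le _ S.contrp (rp_inj S)
  rw [S.rpκ, S.rp2]
  exact S.ω₀_mem.2.le

theorem rm_strictAnti (S : TS) : StrictAntiOn S.rm (Icc S.κ (2 * Real.pi)) := by
  have hκ := S.κ_mem.2
  apply ContinuousOn.strictAntiOn_of_injOn_Icc hκ.le _ S.contrm (rm_inj S)
  rw [S.rmκ, S.rm2]
  exact S.ω₀_mem.1.le

theorem rp_surj (S : TS) : SurjOn S.rp (Icc S.κ (2 * Real.pi)) (Icc S.ω₀ (2 * Real.pi)) := by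
  have h := intermediate_value_Icc S.κ_mem.2.le S.contrp
  rw [S.rpκ, S.rp2] at h
  exact h

theorem rm_surj (S : TS) : SurjOn S.rm (Icc S.κ (2 * Real.pi)) (Icc 0 S.ω₀) := by
  have h := intermediate_value_Icc' S.κ_mem.2.le S.contrm
  rw [S.rmκ, S.rm2] at h
  exact h

end

end Pool.TU
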