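import Pool.Agent.Helper71.TU.A2

/-! # TU A3: the lift stays in the class -/

open Complex Set Filter Topology Metric Polynomial ComplexConjugate Pool.Tuning

namespace Pool.TU

noncomputable section

theorem a3_κ_le {S : TS} {β : ℝ} (h : IsBeta S β) : S.κ ≤ S.ω₀ := by
  have h1 := (S.rm_mem β ⟨h.mem.1.le, h.mem.2.le⟩).2
  rw [h.fixm] at h1
  exact h1

theorem a3_ω_le {S : TS} {β : ℝ} (h : IsBeta S β) : S.ω₀ ≤ β := by
  have h1 := (S.rp_mem β ⟨h.mem.1.le, h.mem.2.le⟩).1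
  rw [h.fixp] at h1
  exact h1

/-- continuity through a quotient map of a compact set -/
theorem a3_cont {K L : Set ℝ} (hK : IsCompact K) {φ G : ℝ → ℝ} (hφ : ContinuousOn φ K)
    (hs : SurjOn φ K L) (hG : ContinuousOn (fun x => G (φ x)) K) : ContinuousOn G L := by
  rw [continuousOn_iff_isClosed]
  intro t ht
  refine ⟨φ '' (K ∩ (fun x => G (φ x)) ⁻¹' t), ?_, ?_⟩
  · have h1 : IsClosed (K ∩ (fun x => G (φ x)) ⁻¹' t) :=
      hG.preimage_isClosed_of_isClosed hK.isClosed ht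
    have h2 : IsCompact (K ∩ (fun x => G (φ x)) ⁻¹' t) := hK.of_isClosed_subset h1 inter_subset_left
    exact (h2.image_of_continuousOn (hφ.mono inter_subset_left)).isClosed
  · ext y
    constructor
    · rintro ⟨hy, hyL⟩
      obtain ⟨x, hx, rfl⟩ := hs hyL
      exact ⟨⟨x, ⟨hx, hy⟩, rfl⟩, hyL⟩
    · rintro ⟨⟨x, ⟨hx, hxt⟩, rfl⟩, hyL⟩
      exact ⟨hxt, hyL⟩

/-- the conjugated boundary map -/
theorem a3_exists (f g : TS) (ρ : ℝ → ℝ) (hρc : ContinuousOn ρ (Icc 0 (2 * Real.pi)))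
    (hρκ : ρ f.κ = g.κ)
    (hρhi : ∀ θ ∈ Icc f.κ (2 * Real.pi), ρ θ ∈ Icc g.κ (2 * Real.pi)) :
    ∃ ρ' : ℝ → ℝ, ContinuousOn ρ' (Icc 0 (2 * Real.pi)) ∧
      (∀ θ ∈ Icc f.κ (2 * Real.pi), ρ' (f.rp θ) = g.rp (ρ θ)) ∧
      (∀ θ ∈ Icc f.κ (2 * Real.pi), ρ' (f.rm θ) = g.rm (ρ θ)) := by
  have hκ0 := f.κ_mem.1
  have hκ2 := f.κ_mem.2
  have hω0 := f.ω₀_mem.1
  have hω2 := f.ω₀_mem.2
  have hpi := rp_inj f
  have hmi := rm_inj f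
  have hcK : IsCompact (Icc f.κ (2 * Real.pi)) := isCompact_Icc
  have hκK : f.κ ∈ Icc f.κ (2 * Real.pi) := left_mem_Icc.mpr hκ2.le
  have hρK : ContinuousOn ρ (Icc f.κ (2 * Real.pi)) := hρc.mono (Icc_subset_Icc_left hκ0.le)
  have c1 : ContinuousOn (fun θ => g.rp (ρ θ)) (Icc f.κ (2 * Real.pi)) :=
    g.contrp.comp hρK hρhi
  have c2 : ContinuousOn (fun θ => g.rm (ρ θ)) (Icc f.κ (2 * Real.pi)) :=
    g.contrm.comp hρK hρhi
  obtain ⟨ip, ip_l⟩ : ∃ ip : ℝ → ℝ, ∀ θ ∈ Icc f.κ (2 * Real.pi), ip (f.rp θ) = θ :=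
    ⟨Function.invFunOn f.rp (Icc f.κ (2 * Real.pi)), fun θ hθ => hpi.leftInvOn_invFunOn hθ⟩
  obtain ⟨im, im_l⟩ : ∃ im : ℝ → ℝ, ∀ θ ∈ Icc f.κ (2 * Real.pi), im (f.rm θ) = θ :=
    ⟨Function.invFunOn f.rm (Icc f.κ (2 * Real.pi)), fun θ hθ => hmi.leftInvOn_invFunOn hθ⟩
  set r : ℝ → ℝ := fun x => if x ≤ f.ω₀ then g.rm (ρ (im x)) else g.rp (ρ (ip x)) with hr
  have hrm : ∀ θ ∈ Icc f.κ (2 * Real.pi), r (f.rm θ) = g.rm (ρ θ) := by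
    intro θ hθ
    rw [hr]
    simp only
    rw [if_pos (f.rm_mem θ hθ).2, im_l θ hθ]
  have hrp : ∀ θ ∈ Icc f.κ (2 * Real.pi), r (f.rp θ) = g.rp (ρ θ) := by
    intro θ hθ
    by_cases h : f.rp θ ≤ f.ω₀
    · have h1 : f.rp θ = f.rp f.κ := by
        rw [f.rpκ]
        exact le_antisymm h (f.rp_mem θ hθ).1
      have h2 : θ = f.κ := hpi hθ hκK h1
      rw [h2, f.rpκ, ← f.rmκ, hrm _ hκK, hρκ, g.rpκ, g.rmκ]
    · rw [hr]
      simp only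
      rw [if_neg h, ip_l θ hθ]
  refine ⟨r, ?_, hrp, hrm⟩
  have e1 : ContinuousOn r (Icc 0 f.ω₀) := by
    apply a3_cont hcK f.contrm (rm_surj f)
    exact c2.congr hrm
  have e2 : ContinuousOn r (Icc f.ω₀ (2 * Real.pi)) := by
    apply a3_cont hcK f.contrp (rp_surj f)
    exact c1.congr hrp
  rw [← Icc_union_Icc_eq_Icc hω0.le hω2.le]
  exact e1.union_of_isClosed e2 isClosed_Icc isClosed_Icc

/-- The lift is again in the class (the condition at `0` is given). -/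
theorem lift_rmapB {f g : TS} {βf βg : ℝ} {R H R' : ℂ → ℂ} {ρ : ℝ → ℝ} (hf : IsBeta f βf)
    (hg : IsBeta g βg) (hR : RMapB f g βf βg R ρ) (hH : IsHat R H) (hc : ContinuousOn R' DD)
    (hm : MapsTo R' DD DD) (h' : IsLift f g R H R') (h0 : ∀ z ∈ DD, R' z = 0 ↔ z = 0) :
    ∃ ρ' : ℝ → ℝ, RMapB f g βf βg R' ρ' := by
  obtain ⟨r, rc, rp, rm⟩ := a3_exists f g ρ hR.ρcont hR.ρκ hR.ρhi
  have hκ0 := f.κ_mem.1
  have hκ2 := f.κ_mem.2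
  have hω0 := f.ω₀_mem.1
  have hω2 := f.ω₀_mem.2
  have gκ0 := g.κ_mem.1
  have gκ2 := g.κ_mem.2
  have gω0 := g.ω₀_mem.1
  have gω2 := g.ω₀_mem.2
  have hκω := a3_κ_le hf
  have gκω := a3_κ_le hg
  have hωβ := a3_ω_le hf
  have gωβ := a3_ω_le hg
  have hβK : βf ∈ Icc f.κ (2 * Real.pi) := ⟨hf.mem.1.le, hf.mem.2.le⟩
  have gβK : βg ∈ Icc g.κ (2 * Real.pi) := ⟨hg.mem.1.le, hg.mem.2.le⟩
  have h2K : 2 * Real.pi ∈ Icc f.κ (2 * Real.pi) := ⟨hκ2.le, le_rfl⟩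
  have fpm := rp_strictMono f
  have fmm := rm_strictAnti f
  have gpm := rp_strictMono g
  have gmm := rm_strictAnti g
  -- the two halves
  have hlow : ∀ θ ∈ Icc 0 f.ω₀, ∃ t ∈ Icc f.κ (2 * Real.pi), θ = f.rm t ∧ r θ = g.rm (ρ t) := by
    intro θ hθ
    obtain ⟨t, ht, rfl⟩ := rm_surj f hθ
    exact ⟨t, ht, rfl, rm t ht⟩
  have hhigh : ∀ θ ∈ Icc f.ω₀ (2 * Real.pi), ∃ t ∈ Icc f.κ (2 * Real.pi),
      θ = f.rp t ∧ r θ = g.rp (ρ t) := by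
    intro θ hθ
    obtain ⟨t, ht, rfl⟩ := rp_surj f hθ
    exact ⟨t, ht, rfl, rp t ht⟩
  have midlow : ∀ θ ∈ Icc f.κ f.ω₀, r θ ∈ Icc g.κ g.ω₀ := by
    intro θ hθ
    obtain ⟨t, ht, e, er⟩ := hlow θ ⟨hκ0.le.trans hθ.1, hθ.2⟩
    have h1 : f.rm βf ≤ f.rm t := by rw [hf.fixm, ← e]; exact hθ.1
    have h2 : t ≤ βf := (fmm.le_iff_ge hβK ht).mp h1
    have h3 := hR.ρmid t ⟨ht.1, h2⟩
    have h4 : ρ t ∈ Icc g.κ (2 * Real.pi) := hR.ρhi t ht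
    rw [er]
    refine ⟨?_, (g.rm_mem _ h4).2⟩
    have h5 : g.rm βg ≤ g.rm (ρ t) := (gmm.le_iff_ge gβK h4).mpr h3.2
    rw [hg.fixm] at h5
    exact h5
  have tophigh : ∀ θ ∈ Icc f.ω₀ (2 * Real.pi), r θ ∈ Icc g.ω₀ (2 * Real.pi) := by
    intro θ hθ
    obtain ⟨t, ht, e, er⟩ := hhigh θ hθ
    rw [er]
    exact g.rp_mem _ (hR.ρhi t ht)
  refine ⟨r, ⟨⟨hc, hm, h0, ?_, rc, ?_, ?_, ?_, ?_, ?_, ?_⟩, ?_, ?_, ?_⟩⟩
  · -- one
    intro z hz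
    constructor
    · intro h
      have h1 := lift_F hR.toRMap hH h' z hz
      rw [h, F_one] at h1
      exact F_eq_one hz ((hR.one _ (f.mapsF hz)).mp h1.symm)
    · rintro rfl
      have h1 := h'.Θ_eq 0 (by simp [UU])
      rw [hH.zero] at h1
      simpa [f.Θone, g.Θone] using h1
  · -- ρ0
    have := rm _ h2K
    rw [f.rm2, hR.ρ1, g.rm2] at this
    exact this
  · -- ρ1
    have := rp _ h2K
    rw [f.rp2, hR.ρ1, g.rp2] at this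
    exact this
  · -- ρκ
    have := rm _ hβK
    rw [hf.fixm, hR.ρβ, hg.fixm] at this
    exact this
  · -- ρlo
    intro θ hθ
    obtain ⟨t, ht, e, er⟩ := hlow θ ⟨hθ.1, hθ.2.trans hκω⟩
    have h1 : f.rm t ≤ f.rm βf := by rw [hf.fixm, ← e]; exact hθ.2
    have h2 : βf ≤ t := (fmm.le_iff_ge ht hβK).mp h1
    have h3 := hR.ρtop t ⟨h2, ht.2⟩
    have h4 : ρ t ∈ Icc g.κ (2 * Real.pi) := hR.ρhi t ht
    rw [er]
    refine ⟨(g.rm_mem _ h4).1, ?_⟩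
    have h5 : g.rm (ρ t) ≤ g.rm βg := (gmm.le_iff_ge h4 gβK).mpr h3.1
    rw [hg.fixm] at h5
    exact h5
  · -- ρhi
    intro θ hθ
    rcases le_total θ f.ω₀ with h | h
    · have := midlow θ ⟨hθ.1, h⟩
      exact ⟨this.1, this.2.trans gω2.le⟩
    · have := tophigh θ ⟨h, hθ.2⟩
      exact ⟨gκω.trans this.1, this.2⟩
  · -- circ
    intro θ hθ
    rcases le_total θ f.ω₀ with h | h
    · obtain ⟨t, ht, e, er⟩ := hlow θ ⟨hθ.1, h⟩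
      have ht0 : t ∈ Icc 0 (2 * Real.pi) := ⟨hκ0.le.trans ht.1, ht.2⟩
      have hmem : ec t ∈ DD := by simp [DD, norm_ec]
      rw [er, e, ← f.rmG t ht, h'.G4_eq _ hmem, hR.circ t ht0, g.rmG _ (hR.ρhi t ht)]
    · obtain ⟨t, ht, e, er⟩ := hhigh θ ⟨h, hθ.2⟩
      have ht0 : t ∈ Icc 0 (2 * Real.pi) := ⟨hκ0.le.trans ht.1, ht.2⟩
      have hu : (t : ℂ) * I ∈ UU := by simp [UU]
      have h1 := h'.Θ_eq _ hu
      rw [hat_circ hR.toRMap hH t ht0] at h1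
      have e1 : exp ((t : ℂ) * I / 2) = ec (t / 2) := by
        unfold ec
        congr 1
        push_cast
        ring
      have e2 : exp ((ρ t : ℂ) * I / 2) = ec (ρ t / 2) := by
        unfold ec
        congr 1
        push_cast
        ring
      rw [e1, e2, f.rpΘ t ht, g.rpΘ _ (hR.ρhi t ht)] at h1
      rw [er, e]
      exact h1
  · -- ρβ
    have := rp _ hβK
    rw [hf.fixp, hR.ρβ, hg.fixp] at this
    exact this
  · -- ρmid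
    intro θ hθ
    rcases le_total θ f.ω₀ with h | h
    · have := midlow θ ⟨hθ.1, h⟩
      exact ⟨this.1, this.2.trans gωβ⟩
    · obtain ⟨t, ht, e, er⟩ := hhigh θ ⟨h, hθ.2.trans hβK.2⟩
      have h1 : f.rp t ≤ f.rp βf := by rw [hf.fixp, ← e]; exact hθ.2
      have h2 : t ≤ βf := (fpm.le_iff_le ht hβK).mp h1
      have h3 := hR.ρmid t ⟨ht.1, h2⟩
      have h4 : ρ t ∈ Icc g.κ (2 * Real.pi) := hR.ρhi t ht
      rw [er]
      refine ⟨gκω.trans (g.rp_mem _ h4).1, ?_⟩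
      have h5 : g.rp (ρ t) ≤ g.rp βg := (gpm.le_iff_le h4 gβK).mpr h3.2
      rw [hg.fixp] at h5
      exact h5
  · -- ρtop
    intro θ hθ
    obtain ⟨t, ht, e, er⟩ := hhigh θ ⟨hωβ.trans hθ.1, hθ.2⟩
    have h1 : f.rp βf ≤ f.rp t := by rw [hf.fixp, ← e]; exact hθ.1
    have h2 : βf ≤ t := (fpm.le_iff_le hβK ht).mp h1
    have h3 := hR.ρtop t ⟨h2, ht.2⟩
    have h4 : ρ t ∈ Icc g.κ (2 * Real.pi) := hR.ρhi t ht
    rw [er]
    refine ⟨?_, (g.rp_mem _ h4).2⟩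
    have h5 : g.rp βg ≤ g.rp (ρ t) := (gpm.le_iff_le gβK h4).mpr h3.1
    rw [hg.fixp] at h5
    exact h5

end

end Pool.TU
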