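import Pool.Agent.Helper71.TU.A2

/-! # TU A4: boundary lifts -/

open Complex Set Filter Topology Metric Polynomial ComplexConjugate Pool.Tuning

namespace Pool.TU

noncomputable section

theorem A4_ec_zero : ec 0 = 1 := by simp [ec]

theorem A4_ec_two_pi : ec (2 * Real.pi) = 1 := by
  unfold ec
  rw [← Complex.exp_two_pi_mul_I]
  congr 1
  push_cast
  ring

theorem A4_ec_pi : ec Real.pi = -1 := by
  unfold ec
  exact Complex.exp_pi_mul_I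

theorem A4_ec_add_two_pi (θ : ℝ) : ec (θ + 2 * Real.pi) = ec θ := by
  rw [ec_add, A4_ec_two_pi, mul_one]

theorem A4_ec_add_pi (θ : ℝ) : ec (θ + Real.pi) = -ec θ := by
  rw [ec_add, A4_ec_pi, mul_neg, mul_one]

theorem A4_ec_mem (θ : ℝ) : ec θ ∈ DD := by
  rw [DD, mem_closedBall_zero_iff, norm_ec]

theorem A4_exp_tpi : exp tpi = 1 := by
  unfold tpi
  exact Complex.exp_two_pi_mul_I

theorem A4_exp_int_tpi (k : ℤ) : exp (k * tpi) = 1 := by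
  unfold tpi
  exact Complex.exp_int_mul_two_pi_mul_I k

theorem A4_one_mem : (1 : ℂ) ∈ DD := by simp [DD]

theorem A4_convex_DD : Convex ℝ DD := convex_closedBall 0 1

theorem exists_bd (S : TS) : ∃ b, IsBd S b := by
  have hc : Continuous (fun θ : ℝ => S.Θ (ec (θ / 2))) := by
    have h1 : Continuous (fun θ : ℝ => ec (θ / 2)) :=
      continuous_ec.comp (continuous_id.div_const 2)
    exact S.contΘ.comp_continuous h1 (fun θ => A4_ec_mem _)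
  obtain ⟨L, hL, hexp, h0⟩ := exists_log_real (fun θ : ℝ => S.Θ (ec (θ / 2))) hc
    (fun t => S.nzΘ _ (norm_ec _)) 0 (by
      rw [Complex.exp_zero, zero_div, A4_ec_zero, S.Θone])
  exact ⟨L, hL, hexp, h0⟩

theorem A4_ghat (G : ℂ → ℂ) (hG : ContinuousOn G DD) (h0 : ∀ w ∈ DD, G w ≠ 0) (h1 : G 1 = 1)
    (c : ℂ) (hc : exp c = 1) : ∃ g : ℂ → ℂ, ContinuousOn g DD ∧
      (∀ w ∈ DD, exp (g w) = G w) ∧ g 1 = c := by
  obtain ⟨L, hL, hexp⟩ := exists_log A4_convex_DD G hG h0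
  refine ⟨fun w => L w - L 1 + c, (hL.sub continuousOn_const).add continuousOn_const, ?_, ?_⟩
  · intro w hw
    have h2 : exp (L 1) = 1 := by rw [hexp 1 A4_one_mem, h1]
    rw [Complex.exp_add, Complex.exp_sub, hexp w hw, h2, hc, mul_one, div_one]
  · simp

/-- logarithms of `G2`, `G4` -/
theorem exists_ghat (S : TS) : ∃ g2 g4 : ℂ → ℂ, ContinuousOn g2 DD ∧
    (∀ w ∈ DD, exp (g2 w) = S.G2 w) ∧ g2 1 = tpi ∧ ContinuousOn g4 DD ∧
    (∀ w ∈ DD, exp (g4 w) = S.G4 w) ∧ g4 1 = 0 := by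
  obtain ⟨g2, h2, e2, o2⟩ := A4_ghat S.G2 S.cont2 S.nz2 S.G2one tpi A4_exp_tpi
  obtain ⟨g4, h4, e4, o4⟩ := A4_ghat S.G4 S.cont4 S.nz4 S.G4one 0 Complex.exp_zero
  exact ⟨g2, g4, h2, e2, o2, h4, e4, o4⟩

theorem A4_cont_ec {g : ℂ → ℂ} (hg : ContinuousOn g DD) : Continuous (fun θ : ℝ => g (ec θ)) :=
  hg.comp_continuous continuous_ec A4_ec_mem

theorem A4_bd_g4 {S : TS} {b : ℝ → ℂ} (hb : IsBd S b) {g4 : ℂ → ℂ} (h4 : ContinuousOn g4 DD)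
    (e4 : ∀ w ∈ DD, exp (g4 w) = S.G4 w) (o4 : g4 1 = 0) :
    (∀ θ ∈ Icc 0 S.κ, b θ = g4 (ec θ)) ∧
    (∀ θ ∈ Icc S.κ (2 * Real.pi), g4 (ec θ) = S.rm θ * I) := by
  have hκ := S.κ_mem
  constructor
  · refine log_unique (S := Icc 0 S.κ) isPreconnected_Icc hb.cont.continuousOn
      (A4_cont_ec h4).continuousOn ?_ (x0 := 0) ⟨le_rfl, hκ.1.le⟩ ?_
    · intro θ hθ
      rw [hb.exp_eq, e4 _ (A4_ec_mem θ), S.bd4 θ hθ]
    · rw [hb.zero, A4_ec_zero, o4]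
  · refine log_unique (S := Icc S.κ (2 * Real.pi)) isPreconnected_Icc
      (A4_cont_ec h4).continuousOn ?_ ?_ (x0 := 2 * Real.pi) ⟨hκ.2.le, le_rfl⟩ ?_
    · exact (Complex.continuous_ofReal.comp_continuousOn S.contrm).mul continuousOn_const
    · intro θ hθ
      rw [e4 _ (A4_ec_mem θ), S.rmG θ hθ, ec]
    · rw [A4_ec_two_pi, o4, S.rm2]
      simp

theorem bd_rp {S : TS} {b : ℝ → ℂ} (hb : IsBd S b) :
    ∀ θ ∈ Icc S.κ (2 * Real.pi), b θ = S.rp θ * I := by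
  have hκ := S.κ_mem
  obtain ⟨g2, g4, h2, e2, o2, h4, e4, o4⟩ := exists_ghat S
  obtain ⟨hl, hr⟩ := A4_bd_g4 hb h4 e4 o4
  refine log_unique (S := Icc S.κ (2 * Real.pi)) isPreconnected_Icc hb.cont.continuousOn
    ?_ ?_ (x0 := S.κ) ⟨le_rfl, hκ.2.le⟩ ?_
  · exact (Complex.continuous_ofReal.comp_continuousOn S.contrp).mul continuousOn_const
  · intro θ hθ
    rw [hb.exp_eq, S.rpΘ θ hθ, ec]
  · rw [hl S.κ ⟨hκ.1.le, le_rfl⟩, hr S.κ ⟨le_rfl, hκ.2.le⟩, S.rmκ, S.rpκ]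

theorem A4_bd_two_pi {S : TS} {b : ℝ → ℂ} (hb : IsBd S b) : b (2 * Real.pi) = tpi := by
  rw [bd_rp hb _ ⟨S.κ_mem.2.le, le_rfl⟩, S.rp2, tpi]
  push_cast
  ring

/-- `b` on `[0, κ]` is the logarithm of `G4`, on `[2π, 4π]` that of `G2` -/
theorem bd_g {S : TS} {b : ℝ → ℂ} (hb : IsBd S b) {g2 g4 : ℂ → ℂ} (h2 : ContinuousOn g2 DD)
    (e2 : ∀ w ∈ DD, exp (g2 w) = S.G2 w) (o2 : g2 1 = tpi) (h4 : ContinuousOn g4 DD)
    (e4 : ∀ w ∈ DD, exp (g4 w) = S.G4 w) (o4 : g4 1 = 0) :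
    (∀ θ ∈ Icc 0 (2 * Real.pi), b (θ + 2 * Real.pi) = g2 (ec θ)) ∧
    (∀ θ ∈ Icc 0 S.κ, b θ = g4 (ec θ)) ∧
    (∀ θ ∈ Icc S.κ (2 * Real.pi), g4 (ec θ) = S.rm θ * I) := by
  refine ⟨?_, A4_bd_g4 hb h4 e4 o4⟩
  have hp : (0 : ℝ) ≤ 2 * Real.pi := by positivity
  refine log_unique (S := Icc 0 (2 * Real.pi)) isPreconnected_Icc ?_
    (A4_cont_ec h2).continuousOn ?_ (x0 := 0) ⟨le_rfl, hp⟩ ?_
  · exact (hb.cont.comp (continuous_id.add continuous_const)).continuousOn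
  · intro θ hθ
    rw [hb.exp_eq, e2 _ (A4_ec_mem θ), S.bd2 θ hθ, ← A4_ec_add_pi]
    congr 2
    ring
  · rw [zero_add, A4_bd_two_pi hb, A4_ec_zero, o2]

theorem bd_shift {S : TS} {b : ℝ → ℂ} (hb : IsBd S b) (θ : ℝ) :
    b (θ + 4 * Real.pi) = b θ + tpi := by
  obtain ⟨g2, g4, h2, e2, o2, h4, e4, o4⟩ := exists_ghat S
  have hg := (bd_g hb h2 e2 o2 h4 e4 o4).1
  have hp : (0 : ℝ) ≤ 2 * Real.pi := by positivity
  refine log_unique (S := univ) (a := fun θ : ℝ => b (θ + 4 * Real.pi))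
    (b := fun θ : ℝ => b θ + tpi) isPreconnected_univ ?_ ?_ ?_ (x0 := 0) (mem_univ _) ?_ θ
    (mem_univ _)
  · exact (hb.cont.comp (continuous_id.add continuous_const)).continuousOn
  · exact (hb.cont.add continuous_const).continuousOn
  · intro θ _
    rw [Complex.exp_add, A4_exp_tpi, mul_one, hb.exp_eq, hb.exp_eq,
      show (θ + 4 * Real.pi) / 2 = θ / 2 + 2 * Real.pi by ring, A4_ec_add_two_pi]
  · have h1 := hg (2 * Real.pi) ⟨hp, le_rfl⟩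
    rw [A4_ec_two_pi, o2] at h1
    change b (0 + 4 * Real.pi) = b 0 + tpi
    rw [hb.zero, zero_add, zero_add, ← h1]
    congr 1
    ring

theorem A4_bd_shift_int {S : TS} {b : ℝ → ℂ} (hb : IsBd S b) (θ : ℝ) (k : ℤ) :
    b (4 * Real.pi * k + θ) = b θ + k * tpi := by
  induction k using Int.induction_on with
  | zero => simp
  | succ n ih =>
    have h1 := bd_shift hb (4 * Real.pi * (n : ℤ) + θ)
    rw [ih] at h1
    rw [show 4 * Real.pi * (((n : ℤ) + 1 : ℤ) : ℝ) + θ =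
      4 * Real.pi * ((n : ℤ) : ℝ) + θ + 4 * Real.pi by push_cast; ring, h1]
    push_cast
    ring
  | pred n ih =>
    have h1 := bd_shift hb (4 * Real.pi * ((-(n : ℤ) - 1 : ℤ) : ℝ) + θ)
    rw [show 4 * Real.pi * ((-(n : ℤ) - 1 : ℤ) : ℝ) + θ + 4 * Real.pi =
      4 * Real.pi * ((-(n : ℤ) : ℤ) : ℝ) + θ by push_cast; ring, ih] at h1
    rw [← sub_eq_iff_eq_add] at h1
    rw [← h1]
    push_cast
    ring

theorem bd_even {S : TS} {b : ℝ → ℂ} (hb : IsBd S b) (k : ℤ) :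
    b (4 * Real.pi * k) = k * tpi := by
  have h := A4_bd_shift_int hb 0 k
  rwa [add_zero, hb.zero, zero_add] at h

theorem bd_odd {S : TS} {b : ℝ → ℂ} (hb : IsBd S b) (k : ℤ) :
    b (4 * Real.pi * k + 2 * Real.pi) = (k + 1) * tpi := by
  rw [A4_bd_shift_int hb (2 * Real.pi) k, A4_bd_two_pi hb]
  ring

end

end Pool.TU
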