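import Pool.Agent.Helper71.TU.A4

/-! # TU A5: hats of lifts on the boundary -/

open Complex Set Filter Topology Metric Polynomial ComplexConjugate Pool.Tuning

namespace Pool.TU

noncomputable section

namespace A5aux

theorem mem_UU_of_exp {u : ℂ} (h : exp u ∈ DD) : u ∈ UU := by
  unfold DD at h
  rw [mem_closedBall_zero_iff, Complex.norm_exp] at h
  exact Real.exp_le_one_iff.1 h

theorem ec_mem_DD (θ : ℝ) : ec θ ∈ DD := by
  unfold DD
  rw [mem_closedBall_zero_iff, norm_ec]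

theorem isPreconnected_DD : IsPreconnected DD := (convex_closedBall (0 : ℂ) 1).isPreconnected

theorem one_mem_DD : (1 : ℂ) ∈ DD := by
  unfold DD
  simp

theorem re_zero_mem (θ : ℝ) : (θ : ℂ) * I ∈ UU := by
  show ((θ : ℂ) * I).re ≤ 0
  simp

theorem hat_tpi {R H : ℂ → ℂ} (hH : IsHat R H) : H tpi = tpi := by
  have := hat_int hH 1
  simpa using this

end A5aux

open A5aux

/-- the hat of the lift on the boundary lift -/
theorem hat_bd {f g : TS} {R H R' H' : ℂ → ℂ} {ρ : ℝ → ℝ} (hR : RMap f.κ g.κ R ρ)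
    (hH : IsHat R H) (_hc : ContinuousOn R' DD) (h' : IsLift f g R H R') (hH' : IsHat R' H')
    {b b' : ℝ → ℂ} (hb : IsBd f b) (hb' : IsBd g b') (θ : ℝ) :
    H' (b θ) = b' ((H (θ * I)).im) := by
  have hbU : ∀ θ : ℝ, b θ ∈ UU := by
    intro θ
    apply mem_UU_of_exp
    rw [hb.exp_eq]
    exact f.mapsΘ (ec_mem_DD _)
  have key := log_unique (X := ℝ) (S := univ) isPreconnected_univ
    (a := fun θ : ℝ => H' (b θ)) (b := fun θ : ℝ => b' ((H (θ * I)).im)) ?_ ?_ ?_
    (mem_univ 0) ?_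
  · exact key θ (mem_univ θ)
  · exact hH'.cont.comp hb.cont.continuousOn (fun θ _ => hbU θ)
  · apply hb'.cont.comp_continuousOn
    apply Complex.continuous_im.comp_continuousOn
    exact hH.cont.comp (by fun_prop) (fun θ _ => re_zero_mem θ)
  · intro θ _
    have e1 : H ((θ : ℂ) * I) = ((H (θ * I)).im : ℂ) * I := by
      apply Complex.ext
      · rw [hat_re hR hH]
        simp
      · simp
    have e2 : f.Θ (ec (θ / 2)) = f.Θ (exp ((θ : ℂ) * I / 2)) := by
      unfold ec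
      congr 2
      push_cast
      ring
    rw [hH'.exp_eq _ (hbU θ), hb.exp_eq, hb'.exp_eq, e2, h'.Θ_eq _ (re_zero_mem θ)]
    congr 1
    unfold ec
    congr 1
    conv_lhs => rw [e1]
    push_cast
    ring
  · simp only [hb.zero, Complex.ofReal_zero, zero_mul, hH.zero, hH'.zero, Complex.zero_im,
      hb'.zero]

/-- the hat of the lift on the tiles `G2`, `G4` -/
theorem hat_g {f g : TS} {R H R' H' : ℂ → ℂ} {ρ : ℝ → ℝ} (hR : RMap f.κ g.κ R ρ)
    (_hH : IsHat R H) (_hc : ContinuousOn R' DD) (h' : IsLift f g R H R') (hH' : IsHat R' H')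
    {g2 g4 k2 k4 : ℂ → ℂ} (h2 : ContinuousOn g2 DD)
    (e2 : ∀ w ∈ DD, exp (g2 w) = f.G2 w) (o2 : g2 1 = tpi) (h4 : ContinuousOn g4 DD)
    (e4 : ∀ w ∈ DD, exp (g4 w) = f.G4 w) (o4 : g4 1 = 0) (i2 : ContinuousOn k2 DD)
    (j2 : ∀ w ∈ DD, exp (k2 w) = g.G2 w) (p2 : k2 1 = tpi) (i4 : ContinuousOn k4 DD)
    (j4 : ∀ w ∈ DD, exp (k4 w) = g.G4 w) (p4 : k4 1 = 0) :
    (∀ w ∈ DD, H' (g2 w) = k2 (R w)) ∧ (∀ w ∈ DD, H' (g4 w) = k4 (R w)) := by
  have hR1 : R 1 = 1 := (hR.one 1 one_mem_DD).2 rfl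
  constructor
  · have hU : ∀ w ∈ DD, g2 w ∈ UU := by
      intro w hw
      apply mem_UU_of_exp
      rw [e2 w hw]
      exact f.maps2 hw
    apply log_unique isPreconnected_DD (hH'.cont.comp h2 hU) (i2.comp hR.cont hR.maps) ?_
      one_mem_DD ?_
    · intro w hw
      rw [Function.comp_apply, Function.comp_apply, hH'.exp_eq _ (hU w hw), e2 w hw,
        h'.G2_eq w hw, j2 _ (hR.maps hw)]
    · rw [Function.comp_apply, Function.comp_apply, o2, hR1, p2, hat_tpi hH']
  · have hU : ∀ w ∈ DD, g4 w ∈ UU := by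
      intro w hw
      apply mem_UU_of_exp
      rw [e4 w hw]
      exact f.maps4 hw
    apply log_unique isPreconnected_DD (hH'.cont.comp h4 hU) (i4.comp hR.cont hR.maps) ?_
      one_mem_DD ?_
    · intro w hw
      rw [Function.comp_apply, Function.comp_apply, hH'.exp_eq _ (hU w hw), e4 w hw,
        h'.G4_eq w hw, j4 _ (hR.maps hw)]
    · rw [Function.comp_apply, Function.comp_apply, o4, hR1, p4, hH'.zero]

end

end Pool.TU
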