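import Pool.Agent.Helper71.TU.A4

/-! # TU A6: lifted inverse branches -/

open Complex Set Filter Topology Metric Polynomial ComplexConjugate Pool.Tuning

namespace Pool.TU

noncomputable section

theorem A6_exp_mem {u : ℂ} (hu : u ∈ UU) : exp u ∈ DD := by
  rw [DD, mem_closedBall_zero_iff, Complex.norm_exp]
  exact Real.exp_le_one_iff.2 hu

theorem A6_mem_UU {u : ℂ} (hu : exp u ∈ DD) : u ∈ UU := by
  rw [DD, mem_closedBall_zero_iff, Complex.norm_exp] at hu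
  exact Real.exp_le_one_iff.1 hu

theorem A6_half_mem {u : ℂ} (hu : u ∈ UU) : u / 2 ∈ UU := by
  have h : u.re ≤ 0 := hu
  change (u / 2).re ≤ 0
  have h2 : (u / 2).re = u.re / 2 := by
    rw [show (2 : ℂ) = ((2 : ℝ) : ℂ) by norm_num, Complex.div_ofReal_re]
  rw [h2]
  linarith

theorem A6_tpi_re (k : ℤ) : ((k : ℂ) * tpi).re = 0 := by
  simp [tpi]

theorem A6_add_mem {u : ℂ} (hu : u ∈ UU) (k : ℤ) : u + k * tpi ∈ UU := by
  change (u + k * tpi).re ≤ 0
  rw [Complex.add_re, A6_tpi_re, add_zero]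
  exact hu

theorem A6_exp_add (u : ℂ) (k : ℤ) : exp (u + k * tpi) = exp u := by
  rw [Complex.exp_add, A4_exp_int_tpi, mul_one]

theorem A6_add_OO {Z : Set ℂ} {u : ℂ} (hu : u ∈ OO Z) (k : ℤ) : u + k * tpi ∈ OO Z :=
  ⟨A6_add_mem hu.1 k, by rw [A6_exp_add]; exact hu.2⟩

theorem A6_int_mem {S : TS} (A : XS S) (k : ℤ) : (k : ℂ) * tpi ∈ OO A.Xo := by
  constructor
  · change ((k : ℂ) * tpi).re ≤ 0
    rw [A6_tpi_re]
  · rw [A4_exp_int_tpi]
    exact fun h => A.one_nmem (A.Xo_sub h)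

theorem A6_F_Θ {S : TS} {u : ℂ} (hu : u ∈ UU) : S.F (S.Θ (exp (u / 2))) = exp u := by
  rw [S.FΘ _ (A6_exp_mem (A6_half_mem hu)), ← Complex.exp_nat_mul]
  congr 1
  push_cast
  ring

theorem A6_Θ_ne {S : TS} (A : XS S) {u : ℂ} (hu : u ∈ OO A.Xo) : S.Θ (exp (u / 2)) ≠ 0 := by
  intro h
  apply hu.2
  rw [← A6_F_Θ (S := S) hu.1, h]
  exact A.FXo A.zero_mem

theorem A6_cont_Θ (S : TS) : ContinuousOn (fun u : ℂ => S.Θ (exp (u / 2))) UU :=
  S.contΘ.comp (Complex.continuous_exp.comp (continuous_id.div_const 2)).continuousOn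
    (fun _ hu => A6_exp_mem (A6_half_mem hu))

theorem A6_OO_sub {Z : Set ℂ} : OO Z ⊆ UU := fun _ h => h.1

theorem exists_br (S : TS) (A : XS S) : Nonempty (Br S A) := by
  obtain ⟨b, hb⟩ := exists_bd S
  obtain ⟨g2, g4, h2, e2, o2, h4, e4, o4⟩ := exists_ghat S
  obtain ⟨Φ, hc, he, hbd⟩ := A.logext (fun u => S.Θ (exp (u / 2))) (fun u => b u.im)
    ((A6_cont_Θ S).mono A6_OO_sub) (fun u hu => A6_Θ_ne A hu)
    (hb.cont.comp Complex.continuous_im).continuousOn (by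
      intro u hu hre
      rw [hb.exp_eq, ec]
      congr 2
      apply Complex.ext
      · have : (u / 2).re = u.re / 2 := by
          rw [show (2 : ℂ) = ((2 : ℝ) : ℂ) by norm_num, Complex.div_ofReal_re]
        rw [this, hre]
        simp
      · have : (u / 2).im = u.im / 2 := by
          rw [show (2 : ℂ) = ((2 : ℝ) : ℂ) by norm_num, Complex.div_ofReal_im]
        rw [this]
        simp)
  exact ⟨⟨b, Φ, g2, g4, hb, hc, he, fun θ hθ => by
    have h1 := hbd _ hθ (by simp)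
    rw [h1]
    simp, h2, e2, o2, h4, e4, o4⟩⟩

variable {S : TS} {A : XS S} (B : Br S A)

theorem Br.expΦ_mem {u : ℂ} (hu : u ∈ OO A.Xo) : B.Φ u ∈ OO A.Xo := by
  have h1 : exp (B.Φ u) ∈ DD := by
    rw [B.expΦ u hu]
    exact S.mapsΘ (A6_exp_mem (A6_half_mem hu.1))
  refine ⟨A6_mem_UU h1, fun h2 => hu.2 ?_⟩
  have h3 := A.FXo h2
  rwa [B.expΦ u hu, A6_F_Θ hu.1] at h3

theorem Br.Φ_int (k : ℤ) : B.Φ (k * tpi) = B.b (2 * Real.pi * k) := by
  have h1 : ((2 * Real.pi * k : ℝ) : ℂ) * I = (k : ℂ) * tpi := by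
    unfold tpi
    push_cast
    ring
  have h2 := B.bdΦ (2 * Real.pi * k) (by rw [h1]; exact A6_int_mem A k)
  rwa [h1] at h2

theorem Br.Φ_shift {u : ℂ} (hu : u ∈ OO A.Xo) : B.Φ (u + 2 * tpi) = B.Φ u + tpi := by
  obtain ⟨s, hs, hsc, hus, k, hk⟩ := A.cconn u hu
  have h2 : ∀ x ∈ OO A.Xo, x + 2 * tpi ∈ OO A.Xo := fun x hx => by
    have := A6_add_OO hx 2
    push_cast at this
    exact this
  refine log_unique (S := s) (a := fun x => B.Φ (x + 2 * tpi)) (b := fun x => B.Φ x + tpi) hsc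
    ?_ ?_ ?_ hk ?_ u hus
  · exact B.contΦ.comp (continuous_id.add continuous_const).continuousOn
      (fun x hx => h2 x (hs hx))
  · exact (B.contΦ.mono hs).add continuousOn_const
  · intro x hx
    have hx' := hs hx
    rw [Complex.exp_add, A4_exp_tpi, mul_one, B.expΦ _ (h2 x hx'), B.expΦ _ hx']
    congr 1
    rw [show (x + 2 * tpi) / 2 = x / 2 + tpi by ring, Complex.exp_add, A4_exp_tpi, mul_one]
  · have h3 := B.Φ_int (k + 2)
    have h4 := bd_shift B.bd (2 * Real.pi * k)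
    push_cast at h3
    change B.Φ (k * tpi + 2 * tpi) = B.Φ (k * tpi) + tpi
    rw [← add_mul, h3, B.Φ_int k, ← h4]
    congr 1
    ring

theorem Br.Φ_shift_int {u : ℂ} (hu : u ∈ OO A.Xo) (k : ℤ) :
    B.Φ (u + (2 * k : ℤ) * tpi) = B.Φ u + k * tpi := by
  induction k using Int.induction_on with
  | zero => simp
  | succ n ih =>
    have h1 := B.Φ_shift (A6_add_OO hu (2 * (n : ℤ)))
    rw [ih] at h1
    rw [show u + ((2 * ((n : ℤ) + 1) : ℤ) : ℂ) * tpi =
      u + ((2 * (n : ℤ) : ℤ) : ℂ) * tpi + 2 * tpi by push_cast; ring, h1]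
    push_cast
    ring
  | pred n ih =>
    have h1 := B.Φ_shift (A6_add_OO hu (2 * (-(n : ℤ) - 1)))
    rw [show u + ((2 * (-(n : ℤ) - 1) : ℤ) : ℂ) * tpi + 2 * tpi =
      u + ((2 * (-(n : ℤ)) : ℤ) : ℂ) * tpi by push_cast; ring, ih] at h1
    rw [← sub_eq_iff_eq_add] at h1
    rw [← h1]
    push_cast
    ring

theorem Br.Φ_even (k : ℤ) : B.Φ (2 * k * tpi) = k * tpi := by
  have h1 := B.Φ_int (2 * k)
  push_cast at h1
  rw [h1, show 2 * Real.pi * (2 * (k : ℝ)) = 4 * Real.pi * k by ring, bd_even B.bd]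

theorem Br.Φ_odd (k : ℤ) : B.Φ ((2 * k + 1) * tpi) = (k + 1) * tpi := by
  have h1 := B.Φ_int (2 * k + 1)
  push_cast at h1
  rw [h1, show 2 * Real.pi * (2 * (k : ℝ) + 1) = 4 * Real.pi * k + 2 * Real.pi by ring,
    bd_odd B.bd]

theorem A6_closed_UU : IsClosed UU := isClosed_le Complex.continuous_re continuous_const

theorem A6_closed_OO (A : XS S) : IsClosed (OO A.Xo) := by
  obtain ⟨O, hO, hXo⟩ := A.Xo_open
  have h1 : OO A.Xo = UU ∩ (exp ⁻¹' O)ᶜ := by
    ext u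
    constructor
    · rintro ⟨h1, h2⟩
      refine ⟨h1, fun h3 => h2 ?_⟩
      rw [hXo]
      exact ⟨h3, A6_exp_mem h1⟩
    · rintro ⟨h1, h2⟩
      refine ⟨h1, fun h3 => h2 ?_⟩
      rw [hXo] at h3
      exact h3.1
  rw [h1]
  exact A6_closed_UU.inter (hO.preimage Complex.continuous_exp).isClosed_compl

theorem A6_re_bound (A : XS S) : ∃ M : ℝ, ∀ u ∈ OO A.Xo, -M ≤ u.re := by
  obtain ⟨O, hO, hXo⟩ := A.Xo_open
  have h0 : (0 : ℂ) ∈ O := by
    have := A.zero_mem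
    rw [hXo] at this
    exact this.1
  obtain ⟨ε, hε, hball⟩ := Metric.isOpen_iff.1 hO 0 h0
  refine ⟨-Real.log ε, fun u hu => ?_⟩
  rw [neg_neg]
  by_contra hcon
  push Not at hcon
  apply hu.2
  rw [hXo]
  refine ⟨hball ?_, A6_exp_mem hu.1⟩
  rw [mem_ball_zero_iff, Complex.norm_exp, ← Real.lt_log_iff_exp_lt hε]
  exact hcon

/-- bounded displacement -/
theorem Br.bdd : ∃ C : ℝ, (∀ u ∈ OO A.Xo, ‖B.Φ u - u / 2‖ ≤ C) ∧
    (∀ w ∈ DD, ‖B.g2 w‖ ≤ C) ∧ (∀ w ∈ DD, ‖B.g4 w‖ ≤ C) := by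
  obtain ⟨M, hM⟩ := A6_re_bound A
  have hDD : IsCompact DD := isCompact_closedBall 0 1
  obtain ⟨C2, hC2⟩ := hDD.exists_bound_of_continuousOn B.cont2
  obtain ⟨C4, hC4⟩ := hDD.exists_bound_of_continuousOn B.cont4
  let K : Set ℂ := OO A.Xo ∩ {u | 0 ≤ u.im ∧ u.im ≤ 4 * Real.pi}
  have hK : IsCompact K := by
    refine Metric.isCompact_of_isClosed_isBounded ?_ ?_
    · exact (A6_closed_OO A).inter
        ((isClosed_le continuous_const Complex.continuous_im).inter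
          (isClosed_le Complex.continuous_im continuous_const))
    · refine (Metric.isBounded_iff_subset_closedBall 0).2 ⟨|M| + 4 * Real.pi, ?_⟩
      rintro u ⟨hu, h0, h4⟩
      rw [mem_closedBall_zero_iff]
      refine (Complex.norm_le_abs_re_add_abs_im u).trans ?_
      refine add_le_add ?_ ?_
      · have h1 := hM u hu
        have h2 : u.re ≤ 0 := hu.1
        rw [abs_of_nonpos h2]
        exact (by linarith : -u.re ≤ M).trans (le_abs_self M)
      · rw [abs_of_nonneg h0]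
        exact h4
  obtain ⟨C1, hC1⟩ := hK.exists_bound_of_continuousOn (f := fun u => B.Φ u - u / 2)
    ((B.contΦ.mono inter_subset_left).sub (continuous_id.div_const 2).continuousOn)
  refine ⟨max C1 (max C2 C4), fun u hu => ?_, fun w hw => ?_, fun w hw => ?_⟩
  · have hpi : (0 : ℝ) < 4 * Real.pi := by positivity
    let k : ℤ := ⌊u.im / (4 * Real.pi)⌋
    have hk1 : (k : ℝ) * (4 * Real.pi) ≤ u.im := by
      have := Int.floor_le (u.im / (4 * Real.pi))
      rwa [le_div_iff₀ hpi] at this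
    have hk2 : u.im < ((k : ℝ) + 1) * (4 * Real.pi) := by
      have := Int.lt_floor_add_one (u.im / (4 * Real.pi))
      rwa [div_lt_iff₀ hpi] at this
    have hu0 : u + (2 * (-k) : ℤ) * tpi ∈ OO A.Xo := A6_add_OO hu _
    have him : (u + (2 * (-k) : ℤ) * tpi).im = u.im - k * (4 * Real.pi) := by
      simp [tpi]
      ring
    have h1 := hC1 (u + (2 * (-k) : ℤ) * tpi) ⟨hu0, by
      constructor
      · rw [him]; linarith
      · rw [him]; linarith⟩
    rw [B.Φ_shift_int hu (-k)] at h1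
    have h2 : B.Φ u + ((-k : ℤ) : ℂ) * tpi - (u + ((2 * (-k) : ℤ) : ℂ) * tpi) / 2 =
        B.Φ u - u / 2 := by
      push_cast
      ring
    rw [h2] at h1
    exact h1.trans (le_max_left _ _)
  · exact (hC2 w hw).trans ((le_max_left _ _).trans (le_max_right _ _))
  · exact (hC4 w hw).trans ((le_max_right _ _).trans (le_max_right _ _))

/-- `F ∘ exp ∘ (letter) = exp`. -/
theorem Br.F_ap (l : Ltr) {u : ℂ} (hu : u ∈ OO A.Xo) : S.F (exp (B.ap l u)) = exp u := by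
  cases l with
  | P k =>
    change S.F (exp (B.Φ (u + k * tpi))) = exp u
    rw [B.expΦ _ (A6_add_OO hu k), A6_F_Θ (A6_add_OO hu k).1, A6_exp_add]
  | Q2 k =>
    change S.F (exp (B.g2 (exp u) + k * tpi)) = exp u
    rw [A6_exp_add, B.exp2 _ (A6_exp_mem hu.1), S.F2 _ (A6_exp_mem hu.1)]
  | Q4 k =>
    change S.F (exp (B.g4 (exp u) + k * tpi)) = exp u
    rw [A6_exp_add, B.exp4 _ (A6_exp_mem hu.1), S.F4 _ (A6_exp_mem hu.1)]

theorem Br.exp_ap_mem (l : Ltr) {u : ℂ} (hu : u ∈ OO A.Xo) : exp (B.ap l u) ∈ DD := by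
  cases l with
  | P k =>
    change exp (B.Φ (u + k * tpi)) ∈ DD
    rw [B.expΦ _ (A6_add_OO hu k)]
    exact S.mapsΘ (A6_exp_mem (A6_half_mem (A6_add_OO hu k).1))
  | Q2 k =>
    change exp (B.g2 (exp u) + k * tpi) ∈ DD
    rw [A6_exp_add, B.exp2 _ (A6_exp_mem hu.1)]
    exact S.maps2 (A6_exp_mem hu.1)
  | Q4 k =>
    change exp (B.g4 (exp u) + k * tpi) ∈ DD
    rw [A6_exp_add, B.exp4 _ (A6_exp_mem hu.1)]
    exact S.maps4 (A6_exp_mem hu.1)

theorem A6_OO_anti {Y Z : Set ℂ} (h : Y ⊆ Z) : OO Z ⊆ OO Y :=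
  fun _ hu => ⟨hu.1, fun h1 => hu.2 (h h1)⟩

/-- letters preserve `OO Z` for forward invariant `Z ⊇ Xo` -/
theorem Br.ap_mem {Z : Set ℂ} (hZ : A.Xo ⊆ Z) (hF : MapsTo S.F Z Z) (l : Ltr) {u : ℂ}
    (hu : u ∈ OO Z) : B.ap l u ∈ OO Z := by
  have hu' := A6_OO_anti hZ hu
  refine ⟨A6_mem_UU (B.exp_ap_mem l hu'), fun h => hu.2 ?_⟩
  have h1 := hF h
  rwa [B.F_ap l hu'] at h1

theorem Br.ev_mem {Z : Set ℂ} (hZ : A.Xo ⊆ Z) (hF : MapsTo S.F Z Z) (w : List Ltr) {u : ℂ}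
    (hu : u ∈ OO Z) : B.ev w u ∈ OO Z := by
  induction w with
  | nil => exact hu
  | cons l w ih => exact B.ap_mem hZ hF l ih

theorem Br.contOn_ap (l : Ltr) : ContinuousOn (B.ap l) (OO A.Xo) := by
  cases l with
  | P k =>
    change ContinuousOn (fun u => B.Φ (u + k * tpi)) (OO A.Xo)
    exact B.contΦ.comp (continuous_id.add continuous_const).continuousOn
      (fun u hu => A6_add_OO hu k)
  | Q2 k =>
    change ContinuousOn (fun u => B.g2 (exp u) + k * tpi) (OO A.Xo)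
    exact (B.cont2.comp Complex.continuous_exp.continuousOn
      (fun u hu => A6_exp_mem hu.1)).add continuousOn_const
  | Q4 k =>
    change ContinuousOn (fun u => B.g4 (exp u) + k * tpi) (OO A.Xo)
    exact (B.cont4.comp Complex.continuous_exp.continuousOn
      (fun u hu => A6_exp_mem hu.1)).add continuousOn_const

theorem Br.contOn_ev (w : List Ltr) : ContinuousOn (B.ev w) (OO A.Xo) := by
  induction w with
  | nil => exact continuousOn_id
  | cons l w ih =>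
    exact (B.contOn_ap l).comp ih (fun u hu => B.ev_mem (Subset.refl _) A.FXo w hu)

end

end Pool.TU
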