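import Pool.Agent.Helper71.TU.A6

/-! # TU A7: covering by branches -/

open Complex Set Filter Topology Metric Polynomial ComplexConjugate Pool.Tuning

namespace Pool.TU

noncomputable section

variable {S : TS} {A : XS S} (B : Br S A)

theorem a7_exp_shift (u : ℂ) (k : ℤ) : exp (u + k * tpi) = exp u := by
  rw [Complex.exp_eq_exp_iff_exists_int]
  exact ⟨k, rfl⟩

theorem a7_exp_eq {u v : ℂ} (h : exp u = exp v) : ∃ k : ℤ, u = v + k * tpi := by
  obtain ⟨k, hk⟩ := Complex.exp_eq_exp_iff_exists_int.mp h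
  exact ⟨k, hk⟩

theorem a7_tpi_re : tpi.re = 0 := by
  simp [tpi]

theorem a7_tpi_ne : tpi ≠ 0 := Complex.two_pi_I_ne_zero

theorem a7_UU_shift {u : ℂ} (hu : u ∈ UU) (k : ℤ) : u + k * tpi ∈ UU := by
  have h : u.re ≤ 0 := hu
  change (u + k * tpi).re ≤ 0
  have h2 : ((k : ℂ) * tpi).re = 0 := by
    simp [tpi]
  rw [Complex.add_re, h2]
  linarith

theorem a7_OO_shift {Z : Set ℂ} {u : ℂ} (hu : u ∈ OO Z) (k : ℤ) : u + k * tpi ∈ OO Z := by
  refine ⟨a7_UU_shift hu.1 k, ?_⟩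
  rw [a7_exp_shift]
  exact hu.2

/-- integer version of `Br.Φ_shift` -/
theorem a7_Φ_shift {u : ℂ} (hu : u ∈ OO A.Xo) (m : ℤ) :
    B.Φ (u + (2 * m : ℤ) * tpi) = B.Φ u + m * tpi := by
  induction m using Int.induction_on with
  | zero => simp
  | succ i ih =>
    have h1 := B.Φ_shift (a7_OO_shift hu (2 * (i : ℤ)))
    rw [ih] at h1
    have h2 : u + ((2 * ((i : ℤ) + 1) : ℤ) : ℂ) * tpi
        = u + ((2 * (i : ℤ) : ℤ) : ℂ) * tpi + 2 * tpi := by
      push_cast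
      ring
    rw [h2, h1]
    push_cast
    ring
  | pred i ih =>
    have h1 := B.Φ_shift (a7_OO_shift hu (2 * (-(i : ℤ) - 1)))
    have h2 : u + ((2 * (-(i : ℤ) - 1) : ℤ) : ℂ) * tpi + 2 * tpi
        = u + ((2 * (-(i : ℤ)) : ℤ) : ℂ) * tpi := by
      push_cast
      ring
    rw [h2, ih] at h1
    have h3 := eq_sub_of_add_eq h1.symm
    rw [h3]
    push_cast
    ring

theorem a7_half (u : ℂ) : exp ((u + ((1 : ℤ) : ℂ) * tpi) / 2) = -exp (u / 2) := by
  have h1 : (u + ((1 : ℤ) : ℂ) * tpi) / 2 = u / 2 + Real.pi * I := by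
    simp only [tpi]
    push_cast
    ring
  rw [h1, Complex.exp_add, Complex.exp_pi_mul_I]
  ring

/-- every point of `OO Xo` not over the double cover of `Xo` is the image of a lift of its
image by a letter; more precisely one can take any lift. -/
theorem Br.cover {v : ℂ} (hv : v ∈ OO A.Xo) (hF : S.F (exp v) ∉ A.Xo) {u : ℂ} (hu : u ∈ UU)
    (he : exp u = S.F (exp v)) : ∃ l, v = B.ap l u := by
  rcases S.cover _ (a2_exp_mem hv.1) with ⟨s, hs, hs2⟩ | ⟨w, hw, hw2⟩ | ⟨w, hw, hw2⟩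
  · have huO : u ∈ OO A.Xo := ⟨hu, by rw [he]; exact hF⟩
    have h1 : exp u = s ^ 2 := by rw [he, ← hs2, S.FΘ s hs]
    have key : ∀ k : ℤ, exp ((u + k * tpi) / 2) = s → ∃ l, v = B.ap l u := by
      intro k hk
      have h3 := B.expΦ _ (a7_OO_shift huO k)
      rw [hk, hs2] at h3
      obtain ⟨m, hm⟩ := a7_exp_eq h3.symm
      refine ⟨Ltr.P (k + 2 * m), ?_⟩
      show v = B.Φ (u + ((k + 2 * m : ℤ) : ℂ) * tpi)
      rw [hm, ← a7_Φ_shift B (a7_OO_shift huO k) m]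
      congr 1
      push_cast
      ring
    have h2 : (s - exp (u / 2)) * (s + exp (u / 2)) = 0 := by
      have := a2_exp_half_sq u
      linear_combination -h1 - this
    rcases mul_eq_zero.mp h2 with h3 | h3
    · apply key 0
      rw [sub_eq_zero.mp h3]
      simp
    · apply key 1
      rw [a7_half]
      linear_combination -h3
  · have h1 : exp u = w := by rw [he, ← hw2, S.F2 w hw]
    have h3 := B.exp2 w hw
    rw [hw2] at h3
    obtain ⟨m, hm⟩ := a7_exp_eq h3.symm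
    refine ⟨Ltr.Q2 m, ?_⟩
    show v = B.g2 (exp u) + m * tpi
    rw [h1]
    exact hm
  · have h1 : exp u = w := by rw [he, ← hw2, S.F4 w hw]
    have h3 := B.exp4 w hw
    rw [hw2] at h3
    obtain ⟨m, hm⟩ := a7_exp_eq h3.symm
    refine ⟨Ltr.Q4 m, ?_⟩
    show v = B.g4 (exp u) + m * tpi
    rw [h1]
    exact hm

/-- letters of type `Q2`, `Q4` cover the points of the tiles 2 and 4 -/
theorem Br.cover2 {v w : ℂ} (hw : w ∈ DD) (he : exp v = S.G2 w) :
    ∃ k : ℤ, v = B.g2 w + k * tpi := by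
  have h3 := B.exp2 w hw
  rw [← he] at h3
  exact a7_exp_eq h3.symm

theorem Br.cover4 {v w : ℂ} (hw : w ∈ DD) (he : exp v = S.G4 w) :
    ∃ k : ℤ, v = B.g4 w + k * tpi := by
  have h3 := B.exp4 w hw
  rw [← he] at h3
  exact a7_exp_eq h3.symm

theorem Br.coverΦ {v s : ℂ} (hs : s ∈ DD) (he : exp v = S.Θ s) (hX : s ^ 2 ∉ A.Xo) :
    ∃ u ∈ OO A.Xo, exp (u / 2) = s ∧ v = B.Φ u := by
  have h0 : s ≠ 0 := by
    intro h
    apply hX
    rw [h, zero_pow (by norm_num)]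
    exact A.zero_mem
  obtain ⟨u0, hu0, hu1⟩ := a2_log hs h0
  have huO : u0 ∈ OO A.Xo := ⟨hu0, by rw [← a2_exp_half_sq, hu1]; exact hX⟩
  have h3 := B.expΦ _ huO
  rw [hu1, ← he] at h3
  obtain ⟨m, hm⟩ := a7_exp_eq h3.symm
  refine ⟨u0 + (2 * m : ℤ) * tpi, a7_OO_shift huO _, ?_, ?_⟩
  · have h4 : (u0 + ((2 * m : ℤ) : ℂ) * tpi) / 2 = u0 / 2 + m * tpi := by
      push_cast
      ring
    rw [h4, a7_exp_shift, hu1]
  · rw [a7_Φ_shift B huO m]
    exact hm

/-- injectivity of `Φ` away from infinity -/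
theorem Br.Φ_inj {u v : ℂ} (hu : u ∈ OO A.Xo) (hv : v ∈ OO A.Xo) (h : B.Φ u = B.Φ v)
    (h1 : exp u ≠ 1) : u = v := by
  have h2 : S.Θ (exp (u / 2)) = S.Θ (exp (v / 2)) := by
    rw [← B.expΦ u hu, ← B.expΦ v hv, h]
  rcases S.injΘ _ (a2_exp_mem (a2_half_mem hu.1)) _ (a2_exp_mem (a2_half_mem hv.1)) h2 with
    h3 | ⟨h3, _⟩ | ⟨h3, _⟩
  · obtain ⟨m, hm⟩ := a7_exp_eq h3
    have h4 : u = v + (2 * m : ℤ) * tpi := by
      push_cast
      linear_combination 2 * hm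
    have h5 := a7_Φ_shift B hv m
    rw [← h4, h] at h5
    have h6 : (m : ℂ) * tpi = 0 := by linear_combination -h5
    rcases mul_eq_zero.mp h6 with h7 | h7
    · have h8 : m = 0 := by exact_mod_cast h7
      rw [h4, h8]
      simp
    · exact absurd h7 a7_tpi_ne
  · exfalso
    apply h1
    rw [← a2_exp_half_sq, h3]
    norm_num
  · exfalso
    apply h1
    rw [← a2_exp_half_sq, h3]
    norm_num

end

end Pool.TU
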