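import Pool.Agent.Helper71.TU.A5
import Pool.Agent.Helper71.TU.A7

/-! # TU A8: functional equation of hats -/

open Complex Set Filter Topology Metric Polynomial ComplexConjugate Pool.Tuning

namespace Pool.TU

noncomputable section

theorem A8_ktpi (k : ℤ) : ((2 * Real.pi * k : ℝ) : ℂ) * I = (k : ℂ) * tpi := by
  simp only [tpi]
  push_cast
  ring

theorem A8_exp_ktpi (k : ℤ) : exp ((k : ℂ) * tpi) = 1 := by
  rw [tpi]
  exact Complex.exp_int_mul_two_pi_mul_I k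

theorem A8_ktpi_UU (k : ℤ) : (k : ℂ) * tpi ∈ UU := by
  rw [← A8_ktpi]
  show (((2 * Real.pi * k : ℝ) : ℂ) * I).re ≤ 0
  simp

theorem A8_ktpi_mem {S : TS} (A : XS S) (k : ℤ) : (k : ℂ) * tpi ∈ OO A.Xo := by
  refine ⟨A8_ktpi_UU k, ?_⟩
  rw [A8_exp_ktpi]
  exact fun h => A.one_nmem (A.Xo_sub h)

theorem A8_mem_UU {v z : ℂ} (hz : z ∈ DD) (h : exp v = z) : v ∈ UU := by
  show v.re ≤ 0
  have h1 : ‖exp v‖ ≤ 1 := by
    rw [h]
    simpa [DD] using hz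
  rw [Complex.norm_exp] at h1
  exact Real.exp_le_one_iff.1 h1

theorem A8_exp_mem {u : ℂ} (hu : u ∈ UU) : exp u ∈ DD := by
  have h1 : u.re ≤ 0 := hu
  simp only [DD, mem_closedBall, dist_zero_right]
  rw [Complex.norm_exp]
  exact Real.exp_le_one_iff.2 h1

theorem A8_half_mem {u : ℂ} (hu : u ∈ UU) : u / 2 ∈ UU := by
  have h1 : u.re ≤ 0 := hu
  show (u / 2).re ≤ 0
  have : (u / 2).re = u.re / 2 := by
    rw [show u / 2 = u / ((2 : ℝ) : ℂ) by push_cast; rfl, Complex.div_ofReal_re]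
  rw [this]
  linarith

theorem A8_add_UU {u : ℂ} (hu : u ∈ UU) (k : ℤ) : u + (k : ℂ) * tpi ∈ UU := by
  have h1 : u.re ≤ 0 := hu
  show (u + (k : ℂ) * tpi).re ≤ 0
  rw [← A8_ktpi]
  simpa using h1

theorem A8_exp_add (u : ℂ) (k : ℤ) : exp (u + (k : ℂ) * tpi) = exp u := by
  rw [Complex.exp_add, A8_exp_ktpi, mul_one]

theorem A8_add_OO {Z : Set ℂ} {u : ℂ} (hu : u ∈ OO Z) (k : ℤ) : u + (k : ℂ) * tpi ∈ OO Z := by
  refine ⟨A8_add_UU hu.1 k, ?_⟩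
  rw [A8_exp_add]
  exact hu.2

/-- The hat of the lift on `Φ`: the basic functional equation. -/
theorem phi_hat {f g : TS} {A : XS f} {B : XS g} (C : Br f A) (E : Br g B)
    {R H R' H' : ℂ → ℂ} {ρ : ℝ → ℝ} (hR : RMap f.κ g.κ R ρ) (hH : IsHat R H)
    (hc : ContinuousOn R' DD) (h' : IsLift f g R H R') (hH' : IsHat R' H')
    (hO : MapsTo H (OO A.Xo) (OO B.Xo)) : ∀ u ∈ OO A.Xo, H' (C.Φ u) = E.Φ (H u) := by
  intro u hu
  obtain ⟨s, hsO, hsc, hus, k, hks⟩ := A.cconn u hu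
  have c1 : ContinuousOn (fun u => H' (C.Φ u)) s := by
    refine hH'.cont.comp (C.contΦ.mono hsO) ?_
    intro x hx
    exact (C.expΦ_mem (hsO hx)).1
  have c2 : ContinuousOn (fun u => E.Φ (H u)) s := by
    refine E.contΦ.comp ((hH.cont.mono fun x hx => hx.1).mono hsO) ?_
    intro x hx
    exact hO (hsO hx)
  refine log_unique hsc c1 c2 ?_ hks ?_ u hus
  · intro x hx
    have hxO := hsO hx
    have e1 : exp (H' (C.Φ x)) = R' (exp (C.Φ x)) := hH'.exp_eq _ (C.expΦ_mem hxO).1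
    rw [e1, C.expΦ x hxO, h'.Θ_eq x hxO.1, E.expΦ _ (hO hxO)]
  · show H' (C.Φ ((k : ℂ) * tpi)) = E.Φ (H ((k : ℂ) * tpi))
    rw [hat_int hH k]
    have m1 : (((2 * Real.pi * k : ℝ)) : ℂ) * I ∈ OO A.Xo := by
      rw [A8_ktpi]; exact A8_ktpi_mem A k
    have m2 : (((2 * Real.pi * k : ℝ)) : ℂ) * I ∈ OO B.Xo := by
      rw [A8_ktpi]; exact A8_ktpi_mem B k
    have e1 := C.bdΦ _ m1
    have e2 := E.bdΦ _ m2
    rw [A8_ktpi] at e1 e2
    rw [e1, e2, hat_bd hR hH hc h' hH' C.bd E.bd, A8_ktpi, hat_int hH k, ← A8_ktpi]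
    congr 1
    simp

/-- The functional equation for all letters. -/
theorem ap_hat {f g : TS} {A : XS f} {B : XS g} (C : Br f A) (E : Br g B)
    {R H R' H' : ℂ → ℂ} {ρ : ℝ → ℝ} (hR : RMap f.κ g.κ R ρ) (hH : IsHat R H)
    (hc : ContinuousOn R' DD) (h' : IsLift f g R H R') (hH' : IsHat R' H')
    (hO : MapsTo H (OO A.Xo) (OO B.Xo)) (l : Ltr) :
    ∀ u ∈ OO A.Xo, H' (C.ap l u) = E.ap l (H u) := by
  intro u hu
  have hg := hat_g hR hH hc h' hH' C.cont2 C.exp2 C.one2 C.cont4 C.exp4 C.one4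
    E.cont2 E.exp2 E.one2 E.cont4 E.exp4 E.one4
  cases l with
  | P k =>
    show H' (C.Φ (u + k * tpi)) = E.Φ (H u + k * tpi)
    rw [phi_hat C E hR hH hc h' hH' hO _ (A8_add_OO hu k), hat_shift hH k u hu.1]
  | Q2 k =>
    show H' (C.g2 (exp u) + k * tpi) = E.g2 (exp (H u)) + k * tpi
    have hw := A8_exp_mem hu.1
    have hm : C.g2 (exp u) ∈ UU := A8_mem_UU (f.maps2 hw) (C.exp2 _ hw)
    rw [hat_shift hH' k _ hm, hg.1 _ hw, hH.exp_eq u hu.1]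
  | Q4 k =>
    show H' (C.g4 (exp u) + k * tpi) = E.g4 (exp (H u)) + k * tpi
    have hw := A8_exp_mem hu.1
    have hm : C.g4 (exp u) ∈ UU := A8_mem_UU (f.maps4 hw) (C.exp4 _ hw)
    rw [hat_shift hH' k _ hm, hg.2 _ hw, hH.exp_eq u hu.1]

/-- every nonzero point of the disc is `exp (u/2)` with `u ∈ UU` -/
theorem A8_exists_half {s : ℂ} (hs : s ∈ DD) (h0 : s ≠ 0) : ∃ u ∈ UU, exp (u / 2) = s := by
  refine ⟨2 * log s, ?_, ?_⟩
  · have h1 : exp (log s) = s := exp_log h0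
    have h2 : log s ∈ UU := A8_mem_UU hs h1
    have h3 : (log s).re ≤ 0 := h2
    show (2 * log s).re ≤ 0
    simp only [mul_re, re_ofNat, im_ofNat, zero_mul, sub_zero]
    linarith
  · rw [mul_div_cancel_left₀ _ (two_ne_zero), exp_log h0]

theorem A8_exp_half_sq (u : ℂ) : exp (u / 2) ^ 2 = exp u := by
  rw [← Complex.exp_nat_mul]
  congr 1
  push_cast
  ring

/-- Rigidity over the double cover of `X`: if the hats of two maps agree over `X`, the hats of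
their lifts agree over the double cover of `X`. -/
theorem hat_agree {f g : TS} {A : XS f} {B : XS g}
    {R H R' H' K L K' L' : ℂ → ℂ} {ρ σ : ℝ → ℝ} (hR : RMap f.κ g.κ R ρ) (hH : IsHat R H)
    (hc : ContinuousOn R' DD) (h' : IsLift f g R H R') (hH' : IsHat R' H')
    (hO : MapsTo H (OO A.Xo) (OO B.Xo)) (hK : RMap f.κ g.κ K σ) (hL : IsHat K L)
    (kc : ContinuousOn K' DD) (k' : IsLift f g K L K') (hL' : IsHat K' L')
    (lO : MapsTo L (OO A.Xo) (OO B.Xo)) (hHL : ∀ u ∈ UU, exp u ∈ A.X → H u = L u) :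
    ∀ v ∈ UU, ∀ s ∈ DD, s ^ 2 ∈ A.X → exp v = f.Θ s → H' v = L' v := by
  intro v hv s hs hsX hvs
  obtain ⟨C⟩ := exists_br f A
  obtain ⟨E⟩ := exists_br g B
  have hΘs : f.Θ s ≠ 0 := by rw [← hvs]; exact exp_ne_zero v
  obtain ⟨γ, γc, γ0, γm, γ1⟩ := A.path s hs hsX hΘs
  obtain ⟨l, lc, le, l0⟩ := exists_log_path (fun t => f.Θ (γ t))
    (f.contΘ.comp γc fun t ht => (γm t ht).1) (fun t ht => (γm t ht).2.2) v
    (by show exp v = f.Θ (γ 0); rw [γ0, hvs])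
  have lU : ∀ t ∈ Icc (0 : ℝ) 1, l t ∈ UU := fun t ht =>
    A8_mem_UU (f.mapsΘ (γm t ht).1) (le t ht)
  have c1 : ContinuousOn (fun t => H' (l t)) (Icc (0 : ℝ) 1) := hH'.cont.comp lc lU
  have c2 : ContinuousOn (fun t => L' (l t)) (Icc (0 : ℝ) 1) := hL'.cont.comp lc lU
  have key := log_unique (S := Icc (0 : ℝ) 1) isPreconnected_Icc c1 c2 ?_
    (x0 := 1) (by simp) ?_ 0 (by simp)
  · simpa only [l0] using key
  · intro t ht
    show exp (H' (l t)) = exp (L' (l t))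
    rw [hH'.exp_eq _ (lU t ht), hL'.exp_eq _ (lU t ht), le t ht]
    show R' (f.Θ (γ t)) = K' (f.Θ (γ t))
    rcases eq_or_ne (γ t) 0 with h0 | h0
    · rw [h0, h'.Θ0, k'.Θ0]
    · obtain ⟨u, hu, hut⟩ := A8_exists_half (γm t ht).1 h0
      have hX : exp u ∈ A.X := by
        rw [← A8_exp_half_sq, hut]
        exact (γm t ht).2.1
      rw [← hut, h'.Θ_eq u hu, k'.Θ_eq u hu, hHL u hu hX]
  · show H' (l 1) = L' (l 1)
    have h1 : (1 : ℝ) ∈ Icc (0 : ℝ) 1 := by simp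
    obtain ⟨u, hu, hus, hv1⟩ := C.coverΦ (γm 1 h1).1 (le 1 h1) γ1
    have hX : exp u ∈ A.X := by
      rw [← A8_exp_half_sq, hus]
      exact (γm 1 h1).2.1
    rw [hv1, phi_hat C E hR hH hc h' hH' hO u hu, phi_hat C E hK hL kc k' hL' lO u hu,
      hHL u hu.1 hX]

end

end Pool.TU
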