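import Pool.Agent.Helper71.TU.A3
import Pool.Agent.Helper71.TU.A8

/-! # TU A9: properties of one lift -/

open Complex Set Filter Topology Metric Polynomial ComplexConjugate Pool.Tuning

namespace Pool.TU

noncomputable section

variable {f g : TS} {A : XS f} {B : XS g} {M : NS f} {N : NS g} {βf βg : ℝ}
  {P0 H0 : ℂ → ℂ} {ρ0 : ℝ → ℝ}

theorem PreED.inv0 (h : PreED f g A B M N βf βg P0 H0 ρ0) :
    Inv f g A B M N βf βg P0 H0 P0 H0 ρ0 where
  rm := h.rm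
  hat := h.hat
  eqX := fun _ _ => rfl
  eqHX := fun _ _ _ => rfl
  eqN := fun _ _ => rfl
  Xo_of := fun z hz hm => (h.Xo_iff z hz).1 hm
  No_of := fun z hz hm => h.No_of z hz hm

theorem Inv.mapsO {R H : ℂ → ℂ} {ρ : ℝ → ℝ} (hI : Inv f g A B M N βf βg P0 H0 R H ρ) :
    MapsTo H (OO A.Xo) (OO B.Xo) := by
  intro u hu
  refine ⟨hI.hat.maps hu.1, fun h => hu.2 ?_⟩
  rw [hI.hat.exp_eq u hu.1] at h
  exact hI.Xo_of _ (A8_exp_mem hu.1) h

theorem Inv.mapsZ {R H : ℂ → ℂ} {ρ : ℝ → ℝ} (hI : Inv f g A B M N βf βg P0 H0 R H ρ) :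
    MapsTo H (OO (A.Xo ∪ M.No)) (OO (B.Xo ∪ N.No)) := by
  intro u hu
  refine ⟨hI.hat.maps hu.1, fun h => hu.2 ?_⟩
  rw [hI.hat.exp_eq u hu.1] at h
  rcases h with h | h
  · exact Or.inl (hI.Xo_of _ (A8_exp_mem hu.1) h)
  · exact Or.inr (hI.No_of _ (A8_exp_mem hu.1) h)

theorem A9_exp_tpi_half (u : ℂ) : exp ((u + tpi) / 2) = -exp (u / 2) := by
  rw [add_div, Complex.exp_add]
  have : exp (tpi / 2) = -1 := by
    rw [tpi, show (2 * (Real.pi : ℂ) * I) / 2 = Real.pi * I by ring]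
    exact Complex.exp_pi_mul_I
  rw [this]
  ring

theorem A9_add_tpi {u : ℂ} (hu : u ∈ UU) : u + tpi ∈ UU := by
  have := A8_add_UU hu 1
  simpa using this

/-- Properties of the lift, given that it agrees with `P0` on `X`. -/
theorem Inv.lift_props (h : PreED f g A B M N βf βg P0 H0 ρ0) {R H R' : ℂ → ℂ} {ρ : ℝ → ℝ}
    (hI : Inv f g A B M N βf βg P0 H0 R H ρ) (hc : ContinuousOn R' DD) (hm : MapsTo R' DD DD)
    (hL : IsLift f g R H R') (hX : ∀ z ∈ A.X, R' z = P0 z) :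
    (∀ z ∈ DD, R' z ∈ B.Xo → z ∈ A.Xo) ∧ (∀ z ∈ DD, R' z ∈ N.No → z ∈ M.No) ∧
      (∀ z ∈ M.N, R' z = P0 z) ∧ (∃ ρ' : ℝ → ℝ, RMapB f g βf βg R' ρ') ∧
      ∃ H', IsHat R' H' := by
  have hF := lift_F hI.rm.toRMap hI.hat hL
  have p1 : ∀ z ∈ DD, R' z ∈ B.Xo → z ∈ A.Xo := by
    intro z hz hzB
    have hFz : f.F z ∈ A.Xo := by
      have h1 : g.F (R' z) ∈ B.Xo := B.FXo hzB
      rw [hF z hz] at h1
      exact hI.Xo_of _ (f.mapsF hz) h1
    obtain ⟨y, hy, hyz⟩ := h.surjX (B.Xo_sub hzB)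
    have hyD : y ∈ DD := A.subX hy
    have hyo : y ∈ A.Xo := by
      rw [← h.Xo_iff y hyD, hyz]; exact hzB
    have hFy : f.F y = f.F z := by
      refine h.injX (A.FX hy) (A.Xo_sub hFz) ?_
      rw [h.conjX y hy, hyz, hF z hz, hI.eqX _ (A.Xo_sub hFz)]
    have hzs : ∃ s ∈ DD, f.Θ s = z := by
      rcases f.cover z hz with h1 | h1 | h1
      · exact h1
      · obtain ⟨w, hw, rfl⟩ := h1
        exfalso
        rw [hL.G2_eq w hw] at hzB
        exact B.notG2 _ (hI.rm.maps hw) (B.Xo_sub hzB)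
      · obtain ⟨w, hw, rfl⟩ := h1
        exfalso
        rw [hL.G4_eq w hw] at hzB
        exact B.notG4 _ (hI.rm.maps hw) (B.Xo_sub hzB)
    have hys : ∃ s ∈ DD, f.Θ s = y := by
      rcases f.cover y hyD with h1 | h1 | h1
      · exact h1
      · obtain ⟨w, hw, hwy⟩ := h1
        exact absurd (hwy ▸ hy) (A.notG2 w hw)
      · obtain ⟨w, hw, hwy⟩ := h1
        exact absurd (hwy ▸ hy) (A.notG4 w hw)
    obtain ⟨s, hs, hsz⟩ := hzs
    obtain ⟨t, ht, hty⟩ := hys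
    have hsq : s ^ 2 = t ^ 2 := by
      rw [← f.FΘ s hs, ← f.FΘ t ht, hsz, hty, hFy]
    rcases sq_eq_sq_iff_eq_or_eq_neg.1 hsq with hst | hst
    · rw [← hsz, hst, hty]; exact hyo
    · rcases eq_or_ne t 0 with ht0 | ht0
      · rw [← hsz, hst, ht0, neg_zero, ← ht0, hty]; exact hyo
      · exfalso
        obtain ⟨u, hu, hut⟩ := A8_exists_half ht ht0
        have e1 : R' y = g.Θ (exp (H u / 2)) := by
          rw [← hty, ← hut, hL.Θ_eq u hu]
        have e2 : R' z = g.Θ (-exp (H u / 2)) := by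
          rw [← hsz, hst, ← hut, ← A9_exp_tpi_half, hL.Θ_eq _ (A9_add_tpi hu),
            hI.hat.period u hu, A9_exp_tpi_half]
        have e3 : R' y = R' z := by rw [hX y hy, hyz]
        have m1 : exp (H u / 2) ∈ DD := A8_exp_mem (A8_half_mem (hI.hat.maps hu))
        have m2 : -exp (H u / 2) ∈ DD := by
          rw [← A9_exp_tpi_half]
          exact A8_exp_mem (A8_half_mem (A9_add_tpi (hI.hat.maps hu)))
        rw [e1, e2] at e3
        rcases g.injΘ _ m1 _ m2 e3 with h1 | ⟨h1, h2⟩ | ⟨h1, h2⟩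
        · have h3 : exp (H u / 2) = 0 := by
            have : (2 : ℂ) * exp (H u / 2) = 0 := by linear_combination h1
            rcases mul_eq_zero.1 this with h4 | h4
            · exact absurd h4 two_ne_zero
            · exact h4
          exact exp_ne_zero _ h3
        · rw [h2, g.Θneg] at e2
          exact B.one_nmem (e2 ▸ B.Xo_sub hzB)
        · rw [h2, g.Θone] at e2
          exact B.one_nmem (e2 ▸ B.Xo_sub hzB)
  have h0X : (0 : ℂ) ∈ A.X := A.Xo_sub A.zero_mem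
  have h0 : ∀ z ∈ DD, R' z = 0 ↔ z = 0 := by
    intro z hz
    constructor
    · intro hz0
      have hzA : z ∈ A.Xo := p1 z hz (by rw [hz0]; exact B.zero_mem)
      have hP : P0 z = 0 := by rw [← hX z (A.Xo_sub hzA), hz0]
      exact (h.rm.zero z hz).1 hP
    · rintro rfl
      rw [hX 0 h0X]
      exact (h.rm.zero 0 hz).2 rfl
  obtain ⟨ρ', hρ'⟩ := lift_rmapB h.bf h.bg hI.rm hI.hat hc hm hL h0
  refine ⟨p1, ?_, h.N2 R H R' ρ hI.rm.toRMap hI.hat hI.eqN hL, ⟨ρ', hρ'⟩,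
    exists_hat hρ'.toRMap⟩
  intro z hz hzN
  have h1 : R (f.F z) ∈ N.No := by
    rw [← hF z hz]; exact N.FNo hzN
  have h2 : f.F z ∈ M.N := M.No_sub (hI.No_of _ (f.mapsF hz) h1)
  refine h.N1 z hz (R' z) hzN h2 ?_
  rw [hF z hz, hI.eqN _ h2]

end

end Pool.TU
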