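import Pool.Agent.Helper71.TU.AllDefs

/-! # TU B1: the disc coordinate -/

open Complex Set Filter Topology Metric Polynomial ComplexConjugate Pool.Tuning

namespace Pool.TU

noncomputable section

variable {v : ℂ}

private theorem b1_den (hv : 0 < v.im) {z : ℂ} (hz : z ∈ HH) : z - conj v ≠ 0 := by
  intro h
  have h1 := congrArg Complex.im h
  have hz' : 0 ≤ z.im := hz
  simp at h1
  linarith

private theorem b1_normSq_sub (z : ℂ) :
    normSq (z - conj v) - normSq (z - v) = 4 * z.im * v.im := by
  simp only [normSq_apply, sub_re, sub_im, conj_re, conj_im]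
  ring

private theorem b1_vc (hv : 0 < v.im) : v - conj v ≠ 0 := by
  intro h
  have h1 := congrArg Complex.im h
  simp at h1
  linarith

private theorem b1_normSq_mm (hv : 0 < v.im) {z : ℂ} (hz : z ∈ HH) :
    normSq (mm v z) = 1 - 4 * z.im * v.im / normSq (z - conj v) := by
  have hd := b1_den hv hz
  have hd' : normSq (z - conj v) ≠ 0 := by
    intro h; exact hd (normSq_eq_zero.1 h)
  have h := b1_normSq_sub (v := v) z
  unfold mm
  rw [normSq_div]
  field_simp
  linarith

theorem mm_mem (hv : 0 < v.im) {z : ℂ} (hz : z ∈ HH) : mm v z ∈ DD := by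
  have hz' : 0 ≤ z.im := hz
  have h := b1_normSq_mm hv hz
  have hd := b1_den hv hz
  have hpos : 0 < normSq (z - conj v) := normSq_pos.2 hd
  have h1 : normSq (mm v z) ≤ 1 := by
    rw [h]
    have : 0 ≤ 4 * z.im * v.im / normSq (z - conj v) := by positivity
    linarith
  rw [DD, mem_closedBall, dist_zero_right]
  rw [normSq_eq_norm_sq] at h1
  nlinarith [norm_nonneg (mm v z)]

theorem mm_ne_one (hv : 0 < v.im) {z : ℂ} (hz : z ∈ HH) : mm v z ≠ 1 := by
  intro h
  have hd := b1_den hv hz
  unfold mm at h
  rw [div_eq_one_iff_eq hd] at h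
  apply b1_vc hv
  linear_combination -h

theorem mi_mem (hv : 0 < v.im) {s : ℂ} (hs : s ∈ DD) (h1 : s ≠ 1) : mi v s ∈ HH := by
  have hs1 : normSq s ≤ 1 := by
    rw [DD, mem_closedBall, dist_zero_right] at hs
    rw [normSq_eq_norm_sq]
    nlinarith [norm_nonneg s]
  have hne : (1 - s) ≠ 0 := sub_ne_zero.2 (Ne.symm h1)
  have hpos : 0 < normSq (1 - s) := normSq_pos.2 hne
  have key : (mi v s).im = v.im * (1 - normSq s) / normSq (1 - s) := by
    unfold mi
    rw [div_im]
    simp only [sub_re, sub_im, mul_re, mul_im, conj_re, conj_im, one_re, one_im]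
    rw [← sub_div]
    congr 1
    simp only [normSq_apply]
    ring
  show 0 ≤ (mi v s).im
  rw [key]
  apply div_nonneg _ hpos.le
  apply mul_nonneg hv.le
  linarith

theorem mi_mm (hv : 0 < v.im) {z : ℂ} (hz : z ∈ HH) : mi v (mm v z) = z := by
  have hd := b1_den hv hz
  have hvc := b1_vc hv
  have h1 : 1 - mm v z = (v - conj v) / (z - conj v) := by
    unfold mm
    field_simp
    ring
  have h2 : v - conj v * mm v z = z * (v - conj v) / (z - conj v) := by
    unfold mm
    field_simp
    ring
  unfold mi
  rw [h1, h2]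
  field_simp

theorem mm_mi (hv : 0 < v.im) {s : ℂ} (hs : s ∈ DD) (h1 : s ≠ 1) : mm v (mi v s) = s := by
  have hne : (1 - s) ≠ 0 := sub_ne_zero.2 (Ne.symm h1)
  have hvc := b1_vc hv
  have h2 : mi v s - v = s * (v - conj v) / (1 - s) := by
    unfold mi
    field_simp
    ring
  have h3 : mi v s - conj v = (v - conj v) / (1 - s) := by
    unfold mi
    field_simp
    ring
  unfold mm
  rw [h2, h3]
  field_simp

theorem mm_self (hv : 0 < v.im) : mm v v = 0 := by
  unfold mm
  simp

theorem mm_eq_zero (hv : 0 < v.im) {z : ℂ} (hz : z ∈ HH) : mm v z = 0 ↔ z = v := by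
  constructor
  · intro h
    unfold mm at h
    rcases div_eq_zero_iff.1 h with h | h
    · exact sub_eq_zero.1 h
    · exact absurd h (b1_den hv hz)
  · rintro rfl
    exact mm_self hv

theorem mm_inj (hv : 0 < v.im) : InjOn (mm v) HH := by
  intro z hz w hw h
  rw [← mi_mm hv hz, ← mi_mm hv hw, h]

theorem mm_cont (hv : 0 < v.im) : ContinuousOn (mm v) HH := by
  unfold mm
  apply ContinuousOn.div
  · fun_prop
  · fun_prop
  · intro z hz
    exact b1_den hv hz

theorem mi_cont (hv : 0 < v.im) : ContinuousOn (mi v) (DD \ {1}) := by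
  unfold mi
  apply ContinuousOn.div
  · fun_prop
  · fun_prop
  · intro s hs
    exact sub_ne_zero.2 (fun h => hs.2 h.symm)

theorem norm_mm_eq_one (hv : 0 < v.im) {z : ℂ} (hz : z ∈ HH) : ‖mm v z‖ = 1 ↔ z.im = 0 := by
  have h := b1_normSq_mm hv hz
  have hd := b1_den hv hz
  have hpos : 0 < normSq (z - conj v) := normSq_pos.2 hd
  rw [normSq_eq_norm_sq] at h
  constructor
  · intro h1
    rw [h1] at h
    have h2 : 4 * z.im * v.im / normSq (z - conj v) = 0 := by linarith
    rcases div_eq_zero_iff.1 h2 with h3 | h3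
    · have h4 : z.im * v.im = 0 := by linarith
      rcases mul_eq_zero.1 h4 with h5 | h5
      · exact h5
      · exact absurd h5 hv.ne'
    · exact absurd h3 hpos.ne'
  · intro h1
    rw [h1] at h
    simp at h
    rcases h with h | h
    · exact h
    · linarith [norm_nonneg (mm v z)]

theorem fold_mem (w : ℂ) : fold w ∈ HH := by
  unfold fold
  split_ifs with h
  · exact h
  · show 0 ≤ (conj w).im
    simp only [conj_im]
    linarith

theorem fold_cont : Continuous fold := by
  unfold fold
  apply Continuous.if_le continuous_id continuous_conj continuous_const continuous_im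
  intro w hw
  apply Complex.ext
  · simp
  · simp [← hw]

end

end Pool.TU
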