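import Pool.Agent.Helper71.TU.B1

/-! # TU B5: real quartics: basics -/

open Complex Set Filter Topology Metric Polynomial ComplexConjugate Pool.Tuning

namespace Pool.TU

noncomputable section

variable (q : RQ)

theorem RQ.vpos : 0 < q.v.im := q.hv

theorem RQ.h_conj (z : ℂ) : q.h.eval (conj z) = conj (q.h.eval z) := by
  have := Polynomial.aeval_conj q.p z
  simpa [RQ.h, Polynomial.aeval_def, Polynomial.eval_map] using this

theorem RQ.h_real (x : ℝ) : q.h.eval (x : ℂ) = (q.p.eval x : ℝ) := by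
  have := Polynomial.eval₂_at_apply (p := q.p) (algebraMap ℝ ℂ) x
  simpa [RQ.h, Polynomial.eval_map] using this

theorem RQ.natDegree : q.h.natDegree = 4 := by
  unfold RQ.h
  rw [Polynomial.natDegree_map]
  exact q.deg

theorem RQ.crit_iff (z : ℂ) :
    q.h.derivative.eval z = 0 ↔ z = q.r ∨ z = q.c ∨ z = conj q.c := by
  have h4 : (4 * (q.p.leadingCoeff : ℂ)) ≠ 0 := by
    have := q.lead.ne'
    simp [this]
  have hd : q.h.derivative.eval z =
    4 * (q.p.leadingCoeff : ℂ) * (z - q.r) * (z - q.c) * (z - conj q.c) := q.der z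
  rw [hd, mul_eq_zero, mul_eq_zero, mul_eq_zero]
  simp only [h4, false_or, sub_eq_zero]
  tauto

/-- the real derivative -/
theorem RQ.der_real (x : ℝ) : q.p.derivative.eval x =
    4 * q.p.leadingCoeff * (x - q.r) * Complex.normSq (x - q.c) := by
  have h1 : q.h.derivative.eval (x : ℂ) = (q.p.derivative.eval x : ℝ) := by
    have := Polynomial.eval₂_at_apply (p := q.p.derivative) (algebraMap ℝ ℂ) x
    simpa [RQ.h, Polynomial.eval_map, Polynomial.derivative_map] using this
  have h2 : q.h.derivative.eval (x : ℂ) =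
    4 * (q.p.leadingCoeff : ℂ) * (x - q.r) * (x - q.c) * (x - conj q.c) := q.der x
  have h3 : ((x : ℂ) - q.c) * (x - conj q.c) = (Complex.normSq (x - q.c) : ℝ) := by
    rw [Complex.normSq_eq_conj_mul_self]
    simp [mul_comm]
  have h4 : ((q.p.derivative.eval x : ℝ) : ℂ) =
      ((4 * q.p.leadingCoeff * (x - q.r) * Complex.normSq (x - q.c) : ℝ) : ℂ) := by
    rw [← h1, h2, mul_assoc, h3]
    push_cast
    ring
  exact_mod_cast h4

theorem RQ.normSq_pos (x : ℝ) : 0 < Complex.normSq (x - q.c) := by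
  rw [Complex.normSq_pos]
  intro h
  have := congrArg Complex.im h
  simp at this
  exact q.hc.ne' this

theorem RQ.mono_right : StrictMonoOn (fun x => q.p.eval x) (Ici q.r) := by
  refine strictMonoOn_of_deriv_pos (convex_Ici _) q.p.continuous.continuousOn ?_
  intro x hx
  rw [interior_Ici] at hx
  rw [Polynomial.deriv, q.der_real]
  have h1 : 0 < x - q.r := sub_pos.2 hx
  have := q.lead
  have := q.normSq_pos x
  positivity

theorem RQ.anti_left : StrictAntiOn (fun x => q.p.eval x) (Iic q.r) := by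
  refine strictAntiOn_of_deriv_neg (convex_Iic _) q.p.continuous.continuousOn ?_
  intro x hx
  rw [interior_Iic] at hx
  rw [Polynomial.deriv, q.der_real]
  have h1 : 0 < q.r - x := sub_pos.2 hx
  have h2 := q.lead
  have h3 := q.normSq_pos x
  have : 0 < 4 * q.p.leadingCoeff * (q.r - x) * Complex.normSq (x - q.c) := by positivity
  nlinarith

theorem RQ.vr_le (x : ℝ) : q.vr ≤ q.p.eval x := by
  rcases le_total q.r x with h | h
  · exact q.mono_right.monotoneOn (mem_Ici.2 le_rfl) (mem_Ici.2 h) h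
  · exact q.anti_left.antitoneOn (mem_Iic.2 h) (mem_Iic.2 le_rfl) h

theorem RQ.tendsto_top : Tendsto (fun x => q.p.eval x) atTop atTop := by
  refine Polynomial.tendsto_atTop_of_leadingCoeff_nonneg _ ?_ q.lead.le
  rw [← Polynomial.natDegree_pos_iff_degree_pos, q.deg]
  norm_num

theorem RQ.tendsto_bot : Tendsto (fun x => q.p.eval x) atBot atTop := by
  have h1 : Tendsto (fun x => (q.p.comp (-X)).eval x) atTop atTop := by
    refine Polynomial.tendsto_atTop_of_leadingCoeff_nonneg _ ?_ ?_
    · rw [← Polynomial.natDegree_pos_iff_degree_pos, Polynomial.natDegree_comp, q.deg]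
      simp
    · rw [Polynomial.leadingCoeff_comp (by simp), q.deg]
      have := q.lead
      simp
      positivity
  have h2 := h1.comp tendsto_neg_atBot_atTop
  refine h2.congr fun x => ?_
  simp [Polynomial.eval_comp]

/-- every value `≥ vr` is taken on both sides -/
theorem RQ.surj_real {y : ℝ} (hy : q.vr ≤ y) :
    (∃ x, q.r ≤ x ∧ q.p.eval x = y) ∧ ∃ x, x ≤ q.r ∧ q.p.eval x = y := by
  constructor
  · obtain ⟨b, hb1, hb2⟩ := ((q.tendsto_top.eventually_ge_atTop y).and
      (eventually_ge_atTop q.r)).exists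
    obtain ⟨x, hx, hxy⟩ := intermediate_value_Icc hb2 q.p.continuous.continuousOn ⟨hy, hb1⟩
    exact ⟨x, hx.1, hxy⟩
  · obtain ⟨b, hb1, hb2⟩ := ((q.tendsto_bot.eventually_ge_atTop y).and
      (eventually_le_atBot q.r)).exists
    obtain ⟨x, hx, hxy⟩ := intermediate_value_Icc' hb2 q.p.continuous.continuousOn ⟨hy, hb1⟩
    exact ⟨x, hx.2, hxy⟩

/-- growth -/
theorem RQ.large (R : ℝ) : ∃ R' : ℝ, ∀ z : ℂ, R' ≤ ‖z‖ → R ≤ ‖q.h.eval z‖ := by
  have hdeg : 0 < q.h.degree := by
    rw [← Polynomial.natDegree_pos_iff_degree_pos, q.natDegree]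
    norm_num
  have h1 : Tendsto (fun z : ℂ => ‖z‖) (comap (fun z : ℂ => ‖z‖) atTop) atTop := tendsto_comap
  have h2 := Polynomial.tendsto_norm_atTop q.h hdeg (z := id) h1
  have h3 := h2.eventually_ge_atTop R
  rw [eventually_comap] at h3
  obtain ⟨R', hR'⟩ := eventually_atTop.1 h3
  exact ⟨R', fun z hz => hR' _ hz z rfl⟩

end

end Pool.TU
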