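import Pool.Agent.Helper71.TU.B1
import Pool.Agent.Helper71.TU.B5

/-! # TU B9: square root chart at the critical point -/

open Complex Set Filter Topology Metric Polynomial ComplexConjugate Pool.Tuning

namespace Pool.TU

noncomputable section

/-- the factorisation at the nonreal critical point -/
theorem RQ.exists_sq_factor (q : RQ) : ∃ k : ℂ[X], k.eval q.c ≠ 0 ∧
    ∀ z, q.h.eval z - q.v = (z - q.c) ^ 2 * k.eval z := by
  have hder : ∀ z : ℂ, q.h.derivative.eval z =
    4 * (q.p.leadingCoeff : ℂ) * (z - q.r) * (z - q.c) * (z - conj q.c) := q.der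
  obtain ⟨g, hg⟩ : (X - C q.c) ∣ q.h - C q.v := by
    rw [dvd_iff_isRoot, IsRoot.def, eval_sub, eval_C]
    exact sub_self _
  have hgd : q.h.derivative = g + (X - C q.c) * derivative g := by
    have := congrArg derivative hg
    rw [derivative_sub, derivative_C, sub_zero, derivative_mul, derivative_sub, derivative_X,
      derivative_C, sub_zero, one_mul] at this
    exact this
  obtain ⟨k, hk⟩ : (X - C q.c) ∣ g := by
    rw [dvd_iff_isRoot, IsRoot.def]
    have h1 := hder q.c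
    rw [hgd] at h1
    simpa using h1
  have hkd : q.h.derivative = (X - C q.c) * (2 * k + (X - C q.c) * derivative k) := by
    rw [hgd, hk, derivative_mul, derivative_sub, derivative_X, derivative_C, sub_zero, one_mul]
    ring
  have hpoly : q.h.derivative =
      (X - C q.c) * (C (4 * (q.p.leadingCoeff : ℂ)) * (X - C (q.r : ℂ)) * (X - C (conj q.c))) := by
    refine Polynomial.funext fun z => ?_
    rw [hder z]
    simp only [eval_mul, eval_sub, eval_X, eval_C]
    ring
  have hne : (X - C q.c : ℂ[X]) ≠ 0 := X_sub_C_ne_zero _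
  have h2 : 2 * k + (X - C q.c) * derivative k =
      C (4 * (q.p.leadingCoeff : ℂ)) * (X - C (q.r : ℂ)) * (X - C (conj q.c)) :=
    mul_left_cancel₀ hne (hkd.symm.trans hpoly)
  refine ⟨k, ?_, ?_⟩
  · intro h0
    have h3 := congrArg (fun f : ℂ[X] => f.eval q.c) h2
    simp only [eval_add, eval_mul, eval_sub, eval_X, eval_C, h0, sub_self, zero_mul, mul_zero,
      add_zero] at h3
    have h4 : (4 * (q.p.leadingCoeff : ℂ)) ≠ 0 := by
      have := q.lead
      simp only [ne_eq, mul_eq_zero, OfNat.ofNat_ne_zero, ofReal_eq_zero, false_or]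
      exact this.ne'
    have h5 : q.c - (q.r : ℂ) ≠ 0 := by
      intro h
      have := congrArg Complex.im h
      simp only [sub_im, ofReal_im, sub_zero, zero_im] at this
      exact q.hc.ne' this
    have h6 : q.c - conj q.c ≠ 0 := by
      intro h
      have := congrArg Complex.im h
      simp only [sub_im, conj_im, zero_im, sub_neg_eq_add] at this
      have := q.hc
      linarith
    exact mul_ne_zero (mul_ne_zero h4 h5) h6 h3.symm
  · intro z
    have h3 := congrArg (fun f : ℂ[X] => f.eval z) hg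
    simp only [eval_sub, eval_C, eval_mul, eval_X, hk] at h3
    rw [h3]
    ring

/-- an analytic square root -/
theorem exists_sqrt_strict {f : ℂ → ℂ} {f' x : ℂ} (hf : HasStrictDerivAt f f' x) (h0 : f x ≠ 0) :
    ∃ (g : ℂ → ℂ) (g' : ℂ), HasStrictDerivAt g g' x ∧ g x ≠ 0 ∧ ∀ z, g z ^ 2 = f z := by
  obtain ⟨w, hw⟩ : ∃ w : ℂ, w ^ 2 = f x := ⟨f x ^ ((2 : ℕ) : ℂ)⁻¹, cpow_nat_inv_pow _ two_ne_zero⟩
  have h1 : HasStrictDerivAt (fun z => f z / f x) (f' / f x) x := hf.div_const _
  have h2 : f x / f x ∈ slitPlane := by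
    rw [div_self h0]
    exact one_mem_slitPlane
  have h3 := (h1.cpow_const (c := ((2 : ℕ) : ℂ)⁻¹) h2).const_mul w
  refine ⟨_, _, h3, ?_, ?_⟩
  · rw [div_self h0, one_cpow, mul_one]
    rintro rfl
    rw [zero_pow two_ne_zero] at hw
    exact h0 hw.symm
  · intro z
    rw [mul_pow, hw, cpow_nat_inv_pow _ two_ne_zero, mul_div_cancel₀ _ h0]

/-- the inverse function theorem as a chart -/
theorem exists_chart {f : ℂ → ℂ} {f' x : ℂ} (hf : HasStrictDerivAt f f' x) (h : f' ≠ 0) :
    ∃ e : OpenPartialHomeomorph ℂ ℂ, (∀ z, e z = f z) ∧ x ∈ e.source := by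
  have h1 := HasStrictDerivAt.hasStrictFDerivAt_equiv hf h
  exact ⟨HasStrictFDerivAt.toOpenPartialHomeomorph f h1, fun z => rfl,
    HasStrictFDerivAt.mem_toOpenPartialHomeomorph_source h1⟩

/-- local square root chart at `c` -/
theorem local_sqrt (q : RQ) : ∃ (ε : ℝ) (θ : ℂ → ℂ), 0 < ε ∧ ε < 1 ∧
    ContinuousOn θ (ball 0 ε) ∧ InjOn θ (ball 0 ε) ∧ θ 0 = q.c ∧
    ∀ s ∈ ball (0 : ℂ) ε, 0 < (θ s).im ∧ q.h.eval (θ s) = mi q.v (s ^ 2) := by
  have hv : 0 < q.v.im := q.hv
  obtain ⟨k, hk0, hk⟩ := q.exists_sq_factor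
  -- the chart at `c`
  obtain ⟨g1, g1', hg1, hg10, hg1sq⟩ := exists_sqrt_strict (k.hasStrictDerivAt q.c) hk0
  have hψ : HasStrictDerivAt (fun z => (z - q.c) * g1 z) (g1 q.c) q.c := by
    have h0 : HasStrictDerivAt (fun z : ℂ => z - q.c) 1 q.c :=
      HasDerivAtFilter.sub_const q.c (hasStrictDerivAt_id q.c)
    have h1 := HasStrictDerivAt.mul h0 hg1
    have h2 : (1 : ℂ) * g1 q.c + (q.c - q.c) * g1' = g1 q.c := by ring
    rw [h2] at h1
    exact h1
  obtain ⟨e1, he1c, hsrc1⟩ := exists_chart hψ hg10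
  -- the chart at `0`
  have hm0 : q.v - conj q.v ≠ 0 := by
    intro h
    have := congrArg Complex.im h
    simp only [sub_im, conj_im, zero_im, sub_neg_eq_add] at this
    linarith
  have hm : HasStrictDerivAt (fun s : ℂ => (q.v - conj q.v) / (1 - s ^ 2)) 0 0 := by
    have h1 : HasStrictDerivAt (fun s : ℂ => 1 - s ^ 2) 0 0 := by
      have := HasStrictDerivAt.const_sub (1 : ℂ) (hasStrictDerivAt_pow 2 (0 : ℂ))
      simpa using this
    have h2 := HasStrictDerivAt.div (hasStrictDerivAt_const (0 : ℂ) (q.v - conj q.v)) h1 (by simp)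
    have h3 : ((0 : ℂ) * (1 - 0 ^ 2) - (q.v - conj q.v) * 0) / (1 - 0 ^ 2) ^ 2 = 0 := by simp
    rw [h3] at h2
    exact h2
  obtain ⟨g2, g2', hg2, hg20, hg2sq⟩ := exists_sqrt_strict hm (by simpa using hm0)
  have hσ : HasStrictDerivAt (fun s : ℂ => s * g2 s) (g2 0) 0 := by
    have h1 := HasStrictDerivAt.mul (hasStrictDerivAt_id (0 : ℂ)) hg2
    have h2 : (1 : ℂ) * g2 0 + id 0 * g2' = g2 0 := by simp
    rw [h2] at h1
    exact h1
  obtain ⟨e2, he2c, hsrc2⟩ := exists_chart hσ hg20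
  have he20 : e2 0 = e1 q.c := by rw [he1c, he2c, sub_self, zero_mul, zero_mul]
  have htar : e2 0 ∈ e1.target := by
    rw [he20]
    exact e1.map_source hsrc1
  have hθ0 : e1.symm (e2 0) = q.c := by rw [he20, e1.left_inv hsrc1]
  have hc2 : ContinuousAt e2 0 := e2.continuousAt hsrc2
  have hcθ : ContinuousAt (fun s => e1.symm (e2 s)) 0 := by
    have h1 : ContinuousAt e1.symm (e2 0) := e1.symm.continuousAt (by exact htar)
    exact h1.comp hc2
  have hev : ∀ᶠ s in 𝓝 (0 : ℂ), s ∈ e2.source ∧ e2 s ∈ e1.target ∧ 0 < (e1.symm (e2 s)).im := by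
    have h1 : ContinuousAt (fun s => (e1.symm (e2 s)).im) 0 := continuous_im.continuousAt.comp hcθ
    have h2 : ∀ᶠ s in 𝓝 (0 : ℂ), s ∈ e2.source := e2.open_source.mem_nhds hsrc2
    have h3 : ∀ᶠ s in 𝓝 (0 : ℂ), e2 s ∈ e1.target := hc2.eventually (e1.open_target.mem_nhds htar)
    have h4 : ∀ᶠ s in 𝓝 (0 : ℂ), 0 < (e1.symm (e2 s)).im := by
      refine h1.eventually (lt_mem_nhds ?_)
      change 0 < (e1.symm (e2 0)).im
      rw [hθ0]
      exact q.hc
    exact h2.and (h3.and h4)
  obtain ⟨ε, hε, hball⟩ := Metric.eventually_nhds_iff_ball.1 hev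
  refine ⟨min ε (1 / 2), fun s => e1.symm (e2 s), lt_min hε (by norm_num),
    lt_of_le_of_lt (min_le_right _ _) (by norm_num), ?_, ?_, hθ0, ?_⟩
  · intro s hs
    have hs' := hball s (ball_subset_ball (min_le_left _ _) hs)
    have h1 : ContinuousAt e1.symm (e2 s) := e1.symm.continuousAt hs'.2.1
    exact (ContinuousAt.comp (f := e2) (g := e1.symm) h1 (e2.continuousAt hs'.1)).continuousWithinAt
  · intro s hs t ht hst
    have hs' := hball s (ball_subset_ball (min_le_left _ _) hs)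
    have ht' := hball t (ball_subset_ball (min_le_left _ _) ht)
    have h1 : e2 s = e2 t := e1.symm.injOn hs'.2.1 ht'.2.1 hst
    exact e2.injOn hs'.1 ht'.1 h1
  · intro s hs
    have hs' := hball s (ball_subset_ball (min_le_left _ _) hs)
    refine ⟨hs'.2.2, ?_⟩
    have h1 : e1 (e1.symm (e2 s)) = e2 s := e1.right_inv hs'.2.1
    rw [he1c] at h1
    have h2 := hk (e1.symm (e2 s))
    rw [← hg1sq, ← mul_pow, h1, he2c, mul_pow, hg2sq, ← he2c] at h2
    have hs1 : (1 : ℂ) - s ^ 2 ≠ 0 := by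
      intro h
      have h3 : s ^ 2 = 1 := (sub_eq_zero.1 h).symm
      have h4 : ‖s‖ ^ 2 = 1 := by rw [← norm_pow, h3, norm_one]
      have h5 : ‖s‖ < 1 / 2 := by
        have := ball_subset_ball (min_le_right ε (1 / 2)) hs
        rwa [mem_ball_zero_iff] at this
      nlinarith [norm_nonneg s]
    have h3 : q.h.eval (e1.symm (e2 s)) = s ^ 2 * ((q.v - conj q.v) / (1 - s ^ 2)) + q.v := by
      rw [← h2, sub_add_cancel]
    change q.h.eval (e1.symm (e2 s)) = mi q.v (s ^ 2)
    rw [h3]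
    unfold mi
    field_simp
    ring

end

end Pool.TU
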