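import Pool.Agent.Helper71.TU.B8
import Pool.Agent.Helper71.TU.B9

/-! # TU B10: the tile of the critical point -/

open Complex Set Filter Topology Metric Polynomial ComplexConjugate Pool.Tuning

namespace Pool.TU

noncomputable section

private theorem b10_int {z : ℂ} (hz : 0 < z.im) : z ∈ interior HH := by
  rw [mem_interior]
  refine ⟨{z : ℂ | 0 < z.im}, fun w hw => ?_, isOpen_lt continuous_const Complex.continuous_im, hz⟩
  exact le_of_lt (show 0 < w.im from hw)

private theorem b10_closed : IsClosed HH := isClosed_le continuous_const Complex.continuous_im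

private theorem b10_im_pos (q : RQ) {z : ℂ} (hz : z ∈ HH) (h : (q.h.eval z).im ≠ 0) :
    0 < z.im := by
  rcases lt_or_eq_of_le (show 0 ≤ z.im from hz) with h1 | h1
  · exact h1
  · exfalso
    apply h
    have h2 : z = (z.re : ℂ) := by
      apply Complex.ext
      · simp
      · simp [← h1]
    rw [h2, q.h_real]
    exact Complex.ofReal_im _

private theorem b10_DD {s : ℂ} (hs : s ∈ ball (0 : ℂ) 1) : s ∈ DD := by
  rw [mem_ball_zero_iff] at hs
  rw [DD, mem_closedBall_zero_iff]
  exact hs.le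

private theorem b10_ne {s : ℂ} (hs : s ∈ ball (0 : ℂ) 1) : s ≠ 1 := by
  rw [mem_ball_zero_iff] at hs
  rintro rfl
  simp at hs

private theorem b10_mi_pos {v : ℂ} (hv : 0 < v.im) {s : ℂ} (hs : s ∈ ball (0 : ℂ) 1) :
    0 < (mi v s).im := by
  have h2 := mi_mem hv (b10_DD hs) (b10_ne hs)
  rcases lt_or_eq_of_le (show 0 ≤ (mi v s).im from h2) with h3 | h3
  · exact h3
  · exfalso
    have h4 := (norm_mm_eq_one hv h2).2 h3.symm
    rw [mm_mi hv (b10_DD hs) (b10_ne hs)] at h4
    rw [mem_ball_zero_iff] at hs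
    linarith

private theorem b10_mm_ball {v : ℂ} (hv : 0 < v.im) {z : ℂ} (hz : 0 < z.im) :
    mm v z ∈ ball (0 : ℂ) 1 := by
  have h1 : z ∈ HH := le_of_lt hz
  have h2 := mm_mem hv h1
  rw [DD, mem_closedBall_zero_iff] at h2
  rw [mem_ball_zero_iff]
  refine lt_of_le_of_ne h2 fun h => ?_
  have := (norm_mm_eq_one hv h1).1 h
  linarith

private theorem b10_mi_cont {v : ℂ} (hv : 0 < v.im) : ContinuousOn (mi v) (ball (0 : ℂ) 1) :=
  (mi_cont hv).mono fun _ hs => ⟨b10_DD hs, by rw [mem_singleton_iff]; exact b10_ne hs⟩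

private theorem b10_exp_mem {u : ℂ} (hu : u.re < 0) : exp u ∈ ball (0 : ℂ) 1 := by
  rw [mem_ball_zero_iff, Complex.norm_exp]
  exact Real.exp_lt_one_iff.2 hu

private theorem b10_sq_mem {s : ℂ} (hs : s ∈ ball (0 : ℂ) 1) : s ^ 2 ∈ ball (0 : ℂ) 1 := by
  rw [mem_ball_zero_iff] at hs ⊢
  rw [norm_pow]
  exact pow_lt_one₀ (norm_nonneg _) hs (by norm_num)

/-- the tile of the critical point, on the open disc -/
theorem exists_tileΘ (q : RQ) : ∃ θ : ℂ → ℂ, ContinuousOn θ (ball 0 1) ∧
    InjOn θ (ball 0 1) ∧ θ 0 = q.c ∧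
    (∀ s ∈ ball (0 : ℂ) 1, 0 < (θ s).im ∧ q.h.eval (θ s) = mi q.v (s ^ 2)) ∧
    ∀ z : ℂ, 0 < z.im → 0 < (q.h.eval z).im → z ∈ θ '' ball 0 1 := by
  have hv := q.vpos
  obtain ⟨ε, θl, hε0, hε1, hθc, hθi, hθ0, hθ⟩ := local_sqrt q
  set s : Set ℂ := {w : ℂ | 0 < w.im ∧ w ≠ q.v} with hs
  have hso : IsOpen s := (isOpen_lt continuous_const Complex.continuous_im).inter
    (isOpen_ne_fun continuous_id continuous_const)
  set K : Set ℂ := {u : ℂ | u.re < 0} with hK
  have hKc : Convex ℝ K := convex_halfSpace_re_lt 0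
  have hKo : IsOpen K := isOpen_lt Complex.continuous_re continuous_const
  have hloc : ∀ z ∈ HH, q.h.eval z ∈ s → z ∈ interior HH ∧ q.h.derivative.eval z ≠ 0 := by
    intro z hz hzs
    have h1 : 0 < z.im := b10_im_pos q hz (ne_of_gt hzs.1)
    refine ⟨b10_int h1, fun h => ?_⟩
    rcases (q.crit_iff z).1 h with h2 | h2 | h2
    · rw [h2, Complex.ofReal_im] at h1
      exact lt_irrefl _ h1
    · rw [h2] at hzs
      exact hzs.2 rfl
    · rw [h2, Complex.conj_im] at h1
      linarith [q.hc]
  -- the base map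
  let g : ℂ → ℂ := fun u => mi q.v (exp (2 * u))
  have h2u : ∀ u ∈ K, exp (2 * u) ∈ ball (0 : ℂ) 1 := by
    intro u hu
    apply b10_exp_mem
    have h3 : (2 * u).re = 2 * u.re := by simp
    rw [h3]
    have h4 : u.re < 0 := hu
    linarith
  have hgc : ContinuousOn g K := by
    apply (b10_mi_cont hv).comp
    · exact (Complex.continuous_exp.comp (continuous_const.mul continuous_id)).continuousOn
    · exact h2u
  have hgs : MapsTo g K s := by
    intro u hu
    refine ⟨b10_mi_pos hv (h2u u hu), fun h => ?_⟩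
    have h3 := mm_mi hv (b10_DD (h2u u hu)) (b10_ne (h2u u hu))
    have h4 : mi q.v (exp (2 * u)) = q.v := h
    rw [h4, mm_self hv] at h3
    exact Complex.exp_ne_zero _ h3.symm
  have hε2 : ε / 2 ∈ Ioo (0 : ℝ) ε := ⟨by linarith, by linarith⟩
  set u0 : ℂ := ((Real.log (ε / 2) : ℝ) : ℂ) with hu0
  have hexp0 : exp u0 = ((ε / 2 : ℝ) : ℂ) := by
    rw [hu0, ← Complex.ofReal_exp, Real.exp_log hε2.1]
  have hu0re : u0.re = Real.log (ε / 2) := Complex.ofReal_re _
  have hu0K : u0 ∈ K := by
    show u0.re < 0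
    rw [hu0re]
    exact Real.log_neg hε2.1 (by linarith)
  have hmemε : ((ε / 2 : ℝ) : ℂ) ∈ ball (0 : ℂ) ε := by
    rw [mem_ball_zero_iff, Complex.norm_real, Real.norm_eq_abs, abs_of_pos hε2.1]
    exact hε2.2
  have hexp2 : ∀ u : ℂ, exp (2 * u) = exp u ^ 2 := by
    intro u
    rw [two_mul, Complex.exp_add, sq]
  have hz0 := hθ _ hmemε
  obtain ⟨L, hLc, hLm, hLe, hLb⟩ := lift_gen q.h (by rw [q.natDegree]; norm_num) b10_closed hso
    hloc hKc hgc hgs hu0K (show θl ((ε / 2 : ℝ) : ℂ) ∈ HH from le_of_lt hz0.1) (by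
      rw [hz0.2]
      show _ = mi q.v (exp (2 * u0))
      rw [hexp2, hexp0])
  have hLd : ∀ x ∈ K, q.h.derivative.eval (L x) ≠ 0 := by
    intro x hx
    refine (hloc _ (hLm hx) ?_).2
    rw [hLe x hx]
    exact hgs hx
  -- comparison with the local chart
  have hre : ∀ u : ℂ, ‖exp u‖ = Real.exp u.re := fun u => Complex.norm_exp u
  have hball : ∀ u : ℂ, u.re < Real.log ε → exp u ∈ ball (0 : ℂ) ε := by
    intro u hu
    rw [mem_ball_zero_iff, hre]
    calc Real.exp u.re < Real.exp (Real.log ε) := Real.exp_lt_exp.2 hu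
      _ = ε := Real.exp_log hε0
  have hlogε : Real.log ε < 0 := Real.log_neg hε0 hε1
  have hK'K : ∀ u : ℂ, u.re < Real.log ε → u ∈ K := fun u hu =>
    show u.re < 0 from hu.trans hlogε
  have hlog2 : Real.log (ε / 2) < Real.log ε := Real.log_lt_log hε2.1 hε2.2
  have hL1 : ∀ u : ℂ, u.re < Real.log ε → L u = θl (exp u) := by
    have hconv : Convex ℝ {u : ℂ | u.re < Real.log ε} := convex_halfSpace_re_lt _
    have := lift_uniq q.h (K := {u : ℂ | u.re < Real.log ε}) hconv.isPreconnected
      (l := L) (l' := fun u => θl (exp u)) (hLc.mono hK'K)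
      (hθc.comp Complex.continuous_exp.continuousOn hball)
      (fun x hx => by
        rw [hLe x (hK'K x hx), (hθ _ (hball x hx)).2]
        show mi q.v (exp (2 * x)) = _
        rw [hexp2])
      (fun x hx => hLd x (hK'K x hx)) (x0 := u0)
      (show u0.re < Real.log ε by rw [hu0re]; exact hlog2)
      (by
        show L u0 = θl (exp u0)
        rw [hLb, hexp0])
    exact this
  -- periodicity
  have hadd : ∀ (y : ℝ) (u : ℂ), (u + (y : ℂ) * I).re = u.re := by
    intro y u
    simp
  have hshift : ∀ (y : ℝ), exp (2 * ((y : ℂ) * I)) = 1 →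
      θl (exp (u0 + (y : ℂ) * I)) = L (u0 + (y : ℂ) * I) := by
    intro y _
    rw [hL1]
    rw [hadd, hu0re]
    exact hlog2
  have hKadd : ∀ (y : ℝ), ∀ u ∈ K, u + (y : ℂ) * I ∈ K := by
    intro y u hu
    show (u + (y : ℂ) * I).re < 0
    rw [hadd]
    exact hu
  have hLadd : ∀ y : ℝ, exp (2 * ((y : ℂ) * I)) = 1 → ∀ x0 ∈ K, L x0 = L (x0 + (y : ℂ) * I) →
      ∀ x ∈ K, L x = L (x + (y : ℂ) * I) := by
    intro y hy x0 hx0 h0
    have := lift_uniq q.h (K := K) hKc.isPreconnected
      (l := L) (l' := fun u => L (u + (y : ℂ) * I)) hLc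
      (hLc.comp (continuous_id.add continuous_const).continuousOn (hKadd y))
      (fun x hx => by
        rw [hLe x hx, hLe _ (hKadd y x hx)]
        show mi q.v (exp (2 * x)) = mi q.v (exp (2 * (x + (y : ℂ) * I)))
        rw [mul_add, Complex.exp_add, hy, mul_one])
      hLd (x0 := x0) hx0 h0
    exact this
  have htpi : exp (2 * (((2 * Real.pi : ℝ) : ℂ) * I)) = 1 := by
    have h1 : 2 * (((2 * Real.pi : ℝ) : ℂ) * I) = ((2 : ℕ) : ℂ) * (2 * Real.pi * I) := by
      push_cast
      ring
    rw [h1, Complex.exp_nat_mul, Complex.exp_two_pi_mul_I, one_pow]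
  have hexpi : exp (((2 * Real.pi : ℝ) : ℂ) * I) = 1 := by
    have h1 : ((2 * Real.pi : ℝ) : ℂ) * I = 2 * Real.pi * I := by
      push_cast
      ring
    rw [h1, Complex.exp_two_pi_mul_I]
  have hper : ∀ x ∈ K, L x = L (x + ((2 * Real.pi : ℝ) : ℂ) * I) := by
    apply hLadd _ htpi u0 hu0K
    rw [← hshift _ htpi, Complex.exp_add, hexpi, mul_one, hLb, hexp0]
  have hperN : ∀ n : ℕ, ∀ x ∈ K, L x = L (x + n * (((2 * Real.pi : ℝ) : ℂ) * I)) := by
    intro n
    induction n with
    | zero =>
      intro x _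
      simp
    | succ n ih =>
      intro x hx
      rw [ih x hx]
      have h1 : x + (n : ℂ) * (((2 * Real.pi : ℝ) : ℂ) * I) ∈ K := by
        have := hKadd (n * (2 * Real.pi)) x hx
        convert this using 2
        push_cast
        ring
      rw [hper _ h1]
      congr 1
      push_cast
      ring
  have hLexp : ∀ x ∈ K, ∀ y ∈ K, exp x = exp y → L x = L y := by
    intro x hx y hy hxy
    obtain ⟨n, hn⟩ := Complex.exp_eq_exp_iff_exists_int.1 hxy
    rcases Int.le_total 0 n with h | h
    · obtain ⟨m, rfl⟩ := Int.eq_ofNat_of_zero_le h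
      rw [hperN m y hy, hn]
      congr 1
      push_cast
      ring
    · obtain ⟨m, hm⟩ := Int.eq_ofNat_of_zero_le (Int.neg_nonneg.2 h)
      have hn' : n = -(m : ℤ) := by omega
      subst hn'
      rw [hperN m x hx, hn]
      congr 1
      push_cast
      ring
  -- the map
  let θ : ℂ → ℂ := fun s => if s = 0 then q.c else L (Complex.log s)
  have hlogK : ∀ s ∈ ball (0 : ℂ) 1, s ≠ 0 → Complex.log s ∈ K := by
    intro s hs1 hs0
    show (Complex.log s).re < 0
    rw [Complex.log_re]
    rw [mem_ball_zero_iff] at hs1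
    exact Real.log_neg (norm_pos_iff.2 hs0) hs1
  have hθexp : ∀ u ∈ K, θ (exp u) = L u := by
    intro u hu
    simp only [θ]
    rw [if_neg (Complex.exp_ne_zero u)]
    apply hLexp
    · exact hlogK _ (b10_exp_mem hu) (Complex.exp_ne_zero u)
    · exact hu
    · rw [Complex.exp_log (Complex.exp_ne_zero u)]
  have hθloc : ∀ s ∈ ball (0 : ℂ) ε, θ s = θl s := by
    intro s hs1
    simp only [θ]
    split_ifs with h0
    · rw [h0, hθ0]
    · rw [hL1, Complex.exp_log h0]
      rw [Complex.log_re]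
      rw [mem_ball_zero_iff] at hs1
      exact Real.log_lt_log (norm_pos_iff.2 h0) hs1
  have hθ1 : ∀ s ∈ ball (0 : ℂ) 1, 0 < (θ s).im ∧ q.h.eval (θ s) = mi q.v (s ^ 2) := by
    intro s hs1
    have h3 : q.h.eval (θ s) = mi q.v (s ^ 2) ∧ θ s ∈ HH := by
      simp only [θ]
      split_ifs with h0
      · rw [h0]
        refine ⟨?_, le_of_lt q.hc⟩
        show q.v = _
        simp [mi]
      · have hk := hlogK s hs1 h0
        refine ⟨?_, hLm hk⟩
        rw [hLe _ hk]
        show mi q.v (exp (2 * Complex.log s)) = _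
        rw [hexp2, Complex.exp_log h0]
    refine ⟨b10_im_pos q h3.2 ?_, h3.1⟩
    rw [h3.1]
    exact ne_of_gt (b10_mi_pos hv (b10_sq_mem hs1))
  have hθinj : InjOn θ (ball 0 1) := by
    intro s hs1 s' hs1' hss
    have h3 : mi q.v (s ^ 2) = mi q.v (s' ^ 2) := by
      rw [← (hθ1 s hs1).2, ← (hθ1 s' hs1').2, hss]
    have h4 : s ^ 2 = s' ^ 2 := by
      rw [← mm_mi hv (b10_DD (b10_sq_mem hs1)) (b10_ne (b10_sq_mem hs1)), h3,
        mm_mi hv (b10_DD (b10_sq_mem hs1')) (b10_ne (b10_sq_mem hs1'))]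
    rcases sq_eq_sq_iff_eq_or_eq_neg.1 h4 with h5 | h5
    · exact h5
    · by_cases h0 : s' = 0
      · rw [h5, h0, neg_zero]
      · exfalso
        have hk := hlogK s' hs1' h0
        have hk2 := hKadd Real.pi _ hk
        have hpi : exp ((Real.pi : ℂ) * I) = -1 := Complex.exp_pi_mul_I
        have h6 : θ s' = L (Complex.log s') := by
          simp only [θ]
          rw [if_neg h0]
        have h7 : θ s = L (Complex.log s' + (Real.pi : ℂ) * I) := by
          rw [← hθexp _ hk2, Complex.exp_add, Complex.exp_log h0, hpi, h5]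
          congr 1
          ring
        have h8 : exp (2 * ((Real.pi : ℂ) * I)) = 1 := by
          rw [← mul_assoc, Complex.exp_two_pi_mul_I]
        have h9 := hLadd Real.pi h8 _ hk (by rw [← h6, ← h7]; exact hss.symm) u0 hu0K
        rw [← hshift _ h8, Complex.exp_add, hpi, hLb, hexp0] at h9
        have h10 := hθi hmemε (by
          rw [mem_ball_zero_iff, norm_mul, norm_neg, norm_one, mul_one]
          rw [mem_ball_zero_iff] at hmemε
          exact hmemε) h9
        have h11 : ((ε / 2 : ℝ) : ℂ) = 0 := by linear_combination h10 / 2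
        have h12 : ε / 2 = 0 := by exact_mod_cast h11
        linarith [hε2.1]
  refine ⟨θ, ?_, hθinj, ?_, hθ1, ?_⟩
  · intro s0 hs0
    by_cases h0 : s0 = 0
    · have h1 : ContinuousAt θl s0 := by
        apply hθc.continuousAt
        rw [h0]
        exact ball_mem_nhds 0 hε0
      have h2 : θ =ᶠ[𝓝 s0] θl := by
        rw [h0]
        filter_upwards [ball_mem_nhds (0 : ℂ) hε0] with x hx
        exact hθloc x hx
      exact (h1.congr h2.symm).continuousWithinAt
    · -- a local logarithm
      have hlt : ContinuousAt (fun s : ℂ => Complex.log s0 + Complex.log (s / s0)) s0 := by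
        refine continuousAt_const.add ?_
        have h1 : ContinuousAt (fun s : ℂ => s / s0) s0 := continuousAt_id.div_const s0
        refine ContinuousAt.clog h1 ?_
        rw [div_self h0]
        exact Complex.one_mem_slitPlane
      have hval : Complex.log s0 + Complex.log (s0 / s0) = Complex.log s0 := by
        rw [div_self h0, Complex.log_one, add_zero]
      have hL2 : ContinuousAt L (Complex.log s0 + Complex.log (s0 / s0)) := by
        rw [hval]
        exact hLc.continuousAt (hKo.mem_nhds (hlogK s0 hs0 h0))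
      have h3 : ContinuousAt (fun s : ℂ => L (Complex.log s0 + Complex.log (s / s0))) s0 :=
        ContinuousAt.comp (f := fun s : ℂ => Complex.log s0 + Complex.log (s / s0)) hL2 hlt
      have h4 : θ =ᶠ[𝓝 s0] fun s : ℂ => L (Complex.log s0 + Complex.log (s / s0)) := by
        filter_upwards [isOpen_ball.mem_nhds hs0, isOpen_ne.mem_nhds h0] with x hx hx0
        have h5 : exp (Complex.log s0 + Complex.log (x / s0)) = x := by
          rw [Complex.exp_add, Complex.exp_log h0, Complex.exp_log (div_ne_zero hx0 h0)]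
          field_simp
        have h6 : Complex.log s0 + Complex.log (x / s0) ∈ K := by
          show (Complex.log s0 + Complex.log (x / s0)).re < 0
          have h7 : Real.exp (Complex.log s0 + Complex.log (x / s0)).re = ‖x‖ := by
            rw [← hre, h5]
          rw [mem_ball_zero_iff] at hx
          rw [← h7] at hx
          rwa [Real.exp_lt_one_iff] at hx
        rw [← hθexp _ h6, h5]
      exact (h3.congr h4.symm).continuousWithinAt
  · show (if (0 : ℂ) = 0 then q.c else L (Complex.log 0)) = q.c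
    rw [if_pos rfl]
  · intro z hz hzh
    by_cases hzv : q.h.eval z = q.v
    · refine ⟨0, ?_, ?_⟩
      · rw [mem_ball_zero_iff, norm_zero]
        exact one_pos
      · show (if (0 : ℂ) = 0 then q.c else L (Complex.log 0)) = z
        rw [if_pos rfl]
        exact (q.count_up.2 z hz hzv).symm
    · have hw : mm q.v (q.h.eval z) ∈ ball (0 : ℂ) 1 := b10_mm_ball hv hzh
      have hw0 : mm q.v (q.h.eval z) ≠ 0 := fun h =>
        hzv ((mm_eq_zero hv (show q.h.eval z ∈ HH from le_of_lt hzh)).1 h)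
      obtain ⟨t, ht⟩ := IsAlgClosed.exists_pow_nat_eq (mm q.v (q.h.eval z)) (n := 2) (by norm_num)
      have ht1 : t ∈ ball (0 : ℂ) 1 := by
        rw [mem_ball_zero_iff] at hw ⊢
        rw [← ht, norm_pow] at hw
        by_contra h
        have h1 : 1 ≤ ‖t‖ := not_lt.1 h
        have : 1 ≤ ‖t‖ ^ 2 := one_le_pow₀ h1
        linarith
      have ht0 : t ≠ 0 := by
        rintro rfl
        apply hw0
        rw [← ht]
        simp
      have ht1' : -t ∈ ball (0 : ℂ) 1 := by
        rw [mem_ball_zero_iff, norm_neg]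
        rwa [mem_ball_zero_iff] at ht1
      obtain ⟨y1, y2, -, -, -, -, -, hy⟩ := q.count_up.1 _ hzh hzv
      have hmi : mi q.v (t ^ 2) = q.h.eval z := by
        rw [ht, mi_mm hv (show q.h.eval z ∈ HH from le_of_lt hzh)]
      have b1 := hθ1 t ht1
      have b2 := hθ1 (-t) ht1'
      have b3 : (-t) ^ 2 = t ^ 2 := by ring
      rw [b3] at b2
      rw [hmi] at b1 b2
      have a1 := hy _ b1.1 b1.2
      have a2 := hy _ b2.1 b2.2
      have a3 := hy _ hz rfl
      have a4 : θ t ≠ θ (-t) := by
        intro h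
        have h1 := hθinj ht1 ht1' h
        apply ht0
        linear_combination h1 / 2
      have a5 : z = θ t ∨ z = θ (-t) := by
        rcases a1 with a1 | a1 <;> rcases a2 with a2 | a2 <;> rcases a3 with a3 | a3
        · exact absurd (a1.trans a2.symm) a4
        · exact absurd (a1.trans a2.symm) a4
        · exact Or.inl (a3.trans a1.symm)
        · exact Or.inr (a3.trans a2.symm)
        · exact Or.inr (a3.trans a2.symm)
        · exact Or.inl (a3.trans a1.symm)
        · exact absurd (a1.trans a2.symm) a4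
        · exact absurd (a1.trans a2.symm) a4
      rcases a5 with a5 | a5
      · exact ⟨t, ht1, a5.symm⟩
      · exact ⟨-t, ht1', a5.symm⟩

end

end Pool.TU
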