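import Pool.Agent.Helper71.TU.B8

/-! # TU B11: the two other tiles -/

open Complex Set Filter Topology Metric Polynomial ComplexConjugate Pool.Tuning

namespace Pool.TU

noncomputable section

/-- the upper half plane is in the interior of the closed upper half plane -/
private theorem b11_int {z : ℂ} (hz : 0 < z.im) : z ∈ interior HH := by
  rw [mem_interior]
  refine ⟨{z : ℂ | 0 < z.im}, fun w hw => ?_, isOpen_lt continuous_const Complex.continuous_im, hz⟩
  exact le_of_lt (show 0 < w.im from hw)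

private theorem b11_closed : IsClosed HH := isClosed_le continuous_const Complex.continuous_im

/-- a point of the closed upper half plane with nonreal image is in the open upper half plane -/
private theorem b11_im_pos (q : RQ) {z : ℂ} (hz : z ∈ HH) (h : (q.h.eval z).im ≠ 0) : 0 < z.im := by
  rcases lt_or_eq_of_le (show 0 ≤ z.im from hz) with h1 | h1
  · exact h1
  · exfalso
    apply h
    have h2 : z = (z.re : ℂ) := by
      apply Complex.ext
      · simp
      · simp [← h1]
    rw [h2, q.h_real]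
    exact Complex.ofReal_im _

private theorem b11_mi_pos {v : ℂ} (hv : 0 < v.im) {s : ℂ} (hs : s ∈ ball (0 : ℂ) 1) :
    0 < (mi v s).im := by
  rw [mem_ball_zero_iff] at hs
  have h1 : s ≠ 1 := by
    rintro rfl
    simp at hs
  have hD : s ∈ DD := by
    rw [DD, mem_closedBall_zero_iff]
    exact hs.le
  have h2 := mi_mem hv hD h1
  rcases lt_or_eq_of_le (show 0 ≤ (mi v s).im from h2) with h3 | h3
  · exact h3
  · exfalso
    have h4 := (norm_mm_eq_one hv h2).2 h3.symm
    rw [mm_mi hv hD h1] at h4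
    linarith

private theorem b11_mm_ball {v : ℂ} (hv : 0 < v.im) {z : ℂ} (hz : 0 < z.im) :
    mm v z ∈ ball (0 : ℂ) 1 := by
  have h1 : z ∈ HH := le_of_lt hz
  have h2 := mm_mem hv h1
  rw [DD, mem_closedBall_zero_iff] at h2
  rw [mem_ball_zero_iff]
  refine lt_of_le_of_ne h2 fun h => ?_
  have := (norm_mm_eq_one hv h1).1 h
  linarith

private theorem b11_mi_cont {v : ℂ} (hv : 0 < v.im) : ContinuousOn (mi v) (ball (0 : ℂ) 1) := by
  refine (mi_cont hv).mono fun s hs => ?_
  rw [mem_ball_zero_iff] at hs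
  refine ⟨?_, ?_⟩
  · rw [DD, mem_closedBall_zero_iff]
    exact hs.le
  · rw [mem_singleton_iff]
    rintro rfl
    simp at hs

/-- the two other tiles, on the open disc -/
theorem exists_tileG (q : RQ) : ∃ ga gb : ℂ → ℂ, ContinuousOn ga (ball 0 1) ∧
    ContinuousOn gb (ball 0 1) ∧
    (∀ w ∈ ball (0 : ℂ) 1, 0 < (ga w).im ∧ q.h.eval (ga w) = conj (mi q.v w)) ∧
    (∀ w ∈ ball (0 : ℂ) 1, 0 < (gb w).im ∧ q.h.eval (gb w) = conj (mi q.v w)) ∧
    (∀ w ∈ ball (0 : ℂ) 1, ga w ≠ gb w) ∧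
    ∀ z : ℂ, 0 < z.im → (q.h.eval z).im < 0 → z ∈ ga '' ball 0 1 ∨ z ∈ gb '' ball 0 1 := by
  have hv := q.vpos
  set s : Set ℂ := {w : ℂ | w.im < 0} with hs
  have hso : IsOpen s := isOpen_lt Complex.continuous_im continuous_const
  have hsc : Convex ℝ s := (convex_halfSpace_im_lt 0)
  have hloc : ∀ z ∈ HH, q.h.eval z ∈ s → z ∈ interior HH ∧ q.h.derivative.eval z ≠ 0 := by
    intro z hz hzs
    have h1 : 0 < z.im := b11_im_pos q hz (ne_of_lt hzs)
    refine ⟨b11_int h1, fun h => ?_⟩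
    rcases (q.crit_iff z).1 h with h2 | h2 | h2
    · rw [h2, Complex.ofReal_im] at h1
      exact lt_irrefl _ h1
    · rw [h2] at hzs
      exact lt_asymm hv hzs
    · rw [h2, Complex.conj_im] at h1
      linarith [q.hc]
  have hw0 : (-I : ℂ) ∈ s := by
    simp [hs]
  obtain ⟨z1, z2, hne, hz1, hz2, he1, he2, -⟩ := q.count_down (-I) hw0
  have hid : MapsTo (fun w : ℂ => w) s s := fun w hw => hw
  have hdeg : 1 ≤ q.h.natDegree := by
    rw [q.natDegree]
    norm_num
  obtain ⟨G1, hG1c, hG1m, hG1e, hG1b⟩ := lift_gen q.h hdeg b11_closed hso hloc hsc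
    (continuous_id.continuousOn (s := s)) hid hw0 (show z1 ∈ HH from le_of_lt hz1) he1
  obtain ⟨G2, hG2c, hG2m, hG2e, hG2b⟩ := lift_gen q.h hdeg b11_closed hso hloc hsc
    (continuous_id.continuousOn (s := s)) hid hw0 (show z2 ∈ HH from le_of_lt hz2) he2
  have hG1e' : ∀ x ∈ s, q.h.eval (G1 x) = x := hG1e
  have hG2e' : ∀ x ∈ s, q.h.eval (G2 x) = x := hG2e
  have hcm : ∀ w ∈ ball (0 : ℂ) 1, conj (mi q.v w) ∈ s := by
    intro w hw
    show (conj (mi q.v w)).im < 0
    rw [Complex.conj_im]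
    linarith [b11_mi_pos hv hw]
  have hcc : ContinuousOn (fun w => conj (mi q.v w)) (ball (0 : ℂ) 1) :=
    Complex.continuous_conj.comp_continuousOn (b11_mi_cont hv)
  have him : ∀ G : ℂ → ℂ, MapsTo G s HH → (∀ x ∈ s, q.h.eval (G x) = x) → ∀ x ∈ s,
      0 < (G x).im := by
    intro G hm he x hx
    apply b11_im_pos q (hm hx)
    rw [he x hx]
    exact ne_of_lt hx
  have hneq : ∀ x ∈ s, G1 x ≠ G2 x := by
    intro x hx hxe
    apply hne
    have := lift_uniq q.h hsc.isPreconnected hG1c hG2c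
      (fun y hy => by rw [hG1e' y hy, hG2e' y hy])
      (fun y hy => (hloc _ (hG1m hy) (by rw [hG1e' y hy]; exact hy)).2) hx hxe (-I) hw0
    rw [hG1b, hG2b] at this
    exact this
  refine ⟨fun w => G1 (conj (mi q.v w)), fun w => G2 (conj (mi q.v w)),
    hG1c.comp hcc hcm, hG2c.comp hcc hcm, ?_, ?_, ?_, ?_⟩
  · intro w hw
    exact ⟨him G1 hG1m hG1e' _ (hcm w hw), hG1e' _ (hcm w hw)⟩
  · intro w hw
    exact ⟨him G2 hG2m hG2e' _ (hcm w hw), hG2e' _ (hcm w hw)⟩
  · intro w hw
    exact hneq _ (hcm w hw)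
  · intro z hz hzh
    have hxs : q.h.eval z ∈ s := hzh
    have hcz : 0 < (conj (q.h.eval z)).im := by
      rw [Complex.conj_im]
      linarith
    have hw : mm q.v (conj (q.h.eval z)) ∈ ball (0 : ℂ) 1 := b11_mm_ball hv hcz
    have hmi : conj (mi q.v (mm q.v (conj (q.h.eval z)))) = q.h.eval z := by
      rw [mi_mm hv (show conj (q.h.eval z) ∈ HH from le_of_lt hcz), Complex.conj_conj]
    obtain ⟨y1, y2, -, -, -, -, -, hy⟩ := q.count_down _ hzh
    have a1 := hy _ (him G1 hG1m hG1e' _ hxs) (hG1e' _ hxs)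
    have a2 := hy _ (him G2 hG2m hG2e' _ hxs) (hG2e' _ hxs)
    have a3 := hy _ hz rfl
    have a4 := hneq _ hxs
    have a5 : z = G1 (q.h.eval z) ∨ z = G2 (q.h.eval z) := by
      rcases a1 with a1 | a1 <;> rcases a2 with a2 | a2 <;> rcases a3 with a3 | a3
      · exact absurd (a1.trans a2.symm) a4
      · exact absurd (a1.trans a2.symm) a4
      · exact Or.inl (a3.trans a1.symm)
      · exact Or.inr (a3.trans a2.symm)
      · exact Or.inr (a3.trans a2.symm)
      · exact Or.inl (a3.trans a1.symm)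
      · exact absurd (a1.trans a2.symm) a4
      · exact absurd (a1.trans a2.symm) a4
    rcases a5 with a5 | a5
    · refine Or.inl ⟨_, hw, ?_⟩
      show G1 (conj (mi q.v (mm q.v (conj (q.h.eval z))))) = z
      rw [hmi]
      exact a5.symm
    · refine Or.inr ⟨_, hw, ?_⟩
      show G2 (conj (mi q.v (mm q.v (conj (q.h.eval z))))) = z
      rw [hmi]
      exact a5.symm

end

end Pool.TU
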