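import Pool.Agent.Helper71.TU.AllDefs

/-! # TU B4: boundary extension -/

open Complex Set Filter Topology Metric Polynomial ComplexConjugate Pool.Tuning

namespace Pool.TU

noncomputable section

/-- A map into the disc whose composition with a finite-to-one continuous map has a limit has
a limit. -/
theorem limit_of_finite {F G : ℂ → ℂ} {U : Set ℂ} (hF : ContinuousOn F DD)
    (hG : ContinuousOn G U) (hGm : MapsTo G U DD) {x0 y0 : ℂ} (hx0 : x0 ∈ closure U)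
    (hfin : {z | z ∈ DD ∧ F z = y0}.Finite) (hconn : ∀ ε > 0, IsPreconnected (U ∩ ball x0 ε))
    (hlim : Tendsto (fun x => F (G x)) (𝓝[U] x0) (𝓝 y0)) :
    ∃ z0 ∈ DD, F z0 = y0 ∧ Tendsto G (𝓝[U] x0) (𝓝 z0) := by
  have hNB : (𝓝[U] x0).NeBot := mem_closure_iff_nhdsWithin_neBot.1 hx0
  have hDD : IsCompact DD := isCompact_closedBall 0 1
  set l : Filter ℂ := map G (𝓝[U] x0) with hl
  have hlDD : l ≤ 𝓟 DD := by
    rw [hl, le_principal_iff, mem_map]
    exact mem_of_superset self_mem_nhdsWithin fun x hx => hGm hx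
  -- cluster points
  have hA : ∀ z ∈ DD, ClusterPt z l → F z = y0 := by
    intro z hz hc
    have h1 : (𝓝[DD] z ⊓ l).NeBot := by
      have h2 : 𝓝[DD] z ⊓ l = 𝓝 z ⊓ l := by
        rw [nhdsWithin, inf_assoc, inf_eq_right.2 hlDD]
      rw [h2]
      exact hc
    have h3 : Tendsto F (𝓝[DD] z ⊓ l) (𝓝 (F z)) := (hF z hz).mono_left inf_le_left
    have h4 : Tendsto F (𝓝[DD] z ⊓ l) (𝓝 y0) := by
      refine Tendsto.mono_left ?_ inf_le_right
      rw [hl, tendsto_map'_iff]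
      exact hlim
    exact tendsto_nhds_unique h3 h4
  have hS : ∀ S : Set ℂ, IsCompact S → S ⊆ DD → (∀ z ∈ S, F z ≠ y0) →
      ∀ᶠ x in 𝓝[U] x0, G x ∉ S := by
    intro S hSc hSD hSy
    by_contra h
    rw [not_eventually] at h
    have h1 : ∃ᶠ x in 𝓝[U] x0, G x ∈ S := h.mono fun x hx => not_not.1 hx
    have h2 : ∃ᶠ z in l, z ∈ S := by
      rw [hl, frequently_map]
      exact h1
    have h3 : (l ⊓ 𝓟 S).NeBot := frequently_mem_iff_neBot.1 h2
    obtain ⟨z, hz, hc⟩ := hSc.exists_clusterPt (f := l ⊓ 𝓟 S) inf_le_right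
    exact hSy z hz (hA z (hSD hz) (hc.mono inf_le_left))
  have hlNB : l.NeBot := map_neBot
  obtain ⟨z0, hz0, hc0⟩ := hDD.exists_clusterPt hlDD
  refine ⟨z0, hz0, hA z0 hz0 hc0, ?_⟩
  rw [Metric.tendsto_nhds]
  intro ρ0 hρ0
  have hY : (({z | z ∈ DD ∧ F z = y0} \ {z0})ᶜ : Set ℂ) ∈ 𝓝 z0 :=
    (hfin.subset sdiff_subset).isClosed.isOpen_compl.mem_nhds fun h => h.2 rfl
  obtain ⟨ρ1, hρ1, hball⟩ := Metric.mem_nhds_iff.1 hY
  set ρ := min ρ0 ρ1 / 2 with hρ
  have hρpos : 0 < ρ := by positivity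
  have hρlt0 : ρ < ρ0 := by
    have := min_le_left ρ0 ρ1
    rw [hρ]
    linarith [lt_min hρ0 hρ1]
  have hρlt1 : ρ < ρ1 := by
    have := min_le_right ρ0 ρ1
    rw [hρ]
    linarith [lt_min hρ0 hρ1]
  have h1 := hS (DD ∩ sphere z0 ρ) (hDD.inter_right isClosed_sphere) inter_subset_left (by
    rintro z ⟨hz, hz'⟩ hFz
    have h2 : z ∈ ball z0 ρ1 := by
      rw [mem_ball, mem_sphere.1 hz']
      exact hρlt1
    have h3 := hball h2
    apply h3
    refine ⟨⟨hz, hFz⟩, ?_⟩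
    rintro rfl
    rw [mem_sphere, dist_self] at hz'
    exact hρpos.ne hz')
  obtain ⟨ε, hε, hε'⟩ := Metric.mem_nhdsWithin_iff.1 h1
  have hV : IsPreconnected (G '' (U ∩ ball x0 ε)) :=
    (hconn ε hε).image G (hG.mono inter_subset_left)
  have hsub : G '' (U ∩ ball x0 ε) ⊆ ball z0 ρ ∪ (closedBall z0 ρ)ᶜ := by
    rintro _ ⟨x, ⟨hxU, hxb⟩, rfl⟩
    have h2 : G x ∉ DD ∩ sphere z0 ρ := hε' ⟨hxb, hxU⟩
    rcases lt_trichotomy (dist (G x) z0) ρ with h3 | h3 | h3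
    · exact Or.inl h3
    · exact absurd ⟨hGm hxU, h3⟩ h2
    · right
      rw [mem_compl_iff, mem_closedBall, not_le]
      exact h3
  have hne : (G '' (U ∩ ball x0 ε) ∩ ball z0 ρ).Nonempty := by
    have h2 : G '' (U ∩ ball x0 ε) ∈ l := by
      rw [hl]
      refine image_mem_map ?_
      rw [inter_comm]
      exact inter_mem (mem_nhdsWithin_of_mem_nhds (ball_mem_nhds x0 hε)) self_mem_nhdsWithin
    have h3 := clusterPt_iff_nonempty.1 hc0 (ball_mem_nhds z0 hρpos) h2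
    rw [inter_comm]
    exact h3
  have hdis : Disjoint (ball z0 ρ) (closedBall z0 ρ)ᶜ :=
    disjoint_compl_right_iff_subset.2 ball_subset_closedBall
  have hin := hV.subset_left_of_subset_union isOpen_ball isClosed_closedBall.isOpen_compl hdis
    hsub hne
  have h4 : ball x0 ε ∩ U ∈ 𝓝[U] x0 :=
    inter_mem (mem_nhdsWithin_of_mem_nhds (ball_mem_nhds x0 hε)) self_mem_nhdsWithin
  filter_upwards [h4] with x hx
  exact lt_trans (hin ⟨x, ⟨hx.2, hx.1⟩, rfl⟩) hρlt0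

/-- Extension to the closed disc. -/
theorem extend_disc {F G g : ℂ → ℂ} (hF : ContinuousOn F DD)
    (hfin : ∀ y ∈ DD, {z | z ∈ DD ∧ F z = y}.Finite) (hG : ContinuousOn G (ball 0 1))
    (hGm : MapsTo G (ball 0 1) DD) (hg : ContinuousOn g DD) (hgm : MapsTo g DD DD)
    (hFG : ∀ s ∈ ball (0 : ℂ) 1, F (G s) = g s) :
    ∃ G' : ℂ → ℂ, ContinuousOn G' DD ∧ MapsTo G' DD DD ∧ (∀ s ∈ ball (0 : ℂ) 1, G' s = G s) ∧
      ∀ s ∈ DD, F (G' s) = g s := by
  have hcl : DD ⊆ closure (ball (0 : ℂ) 1) := by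
    rw [closure_ball (0 : ℂ) one_ne_zero]
    exact subset_rfl
  have key : ∀ s ∈ DD, ∃ z0 ∈ DD, F z0 = g s ∧ Tendsto G (𝓝[ball 0 1] s) (𝓝 z0) := by
    intro s hs
    refine limit_of_finite hF hG hGm (hcl hs) (hfin _ (hgm hs))
      (fun ε _ => ((convex_ball _ _).inter (convex_ball _ _)).isPreconnected) ?_
    have h1 : Tendsto g (𝓝[ball 0 1] s) (𝓝 (g s)) :=
      (hg s hs).mono_left (nhdsWithin_mono _ ball_subset_closedBall)
    refine h1.congr' ?_
    filter_upwards [self_mem_nhdsWithin] with x hx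
    exact (hFG x hx).symm
  refine ⟨extendFrom (ball 0 1) G, ?_, ?_, ?_, ?_⟩
  · refine continuousOn_extendFrom hcl fun s hs => ?_
    obtain ⟨z0, -, -, h⟩ := key s hs
    exact ⟨z0, h⟩
  · intro s hs
    obtain ⟨z0, hz0, -, h⟩ := key s hs
    rw [extendFrom_eq (hcl hs) h]
    exact hz0
  · intro s hs
    exact extendFrom_eq (hcl (ball_subset_closedBall hs)) (hG s hs)
  · intro s hs
    obtain ⟨z0, hz0, h1, h⟩ := key s hs
    rw [extendFrom_eq (hcl hs) h]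
    exact h1

end

end Pool.TU
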