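import Pool.Agent.Helper71.TU.AllDefs

/-! # TU L2: uniqueness of logarithms, the circle -/

open Complex Set Filter Topology Metric Polynomial ComplexConjugate Pool.Tuning

namespace Pool.TU

noncomputable section

/-- A locally constant integer function on a preconnected set is constant. -/
theorem int_const {X : Type*} [TopologicalSpace X] {S : Set X} (hS : IsPreconnected S)
    {k : X → ℤ} (hk : ContinuousOn k S) {x y : X} (hx : x ∈ S) (hy : y ∈ S) : k x = k y :=
  (hS.image k hk).subsingleton (mem_image_of_mem k hx) (mem_image_of_mem k hy)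

/-- Uniqueness of continuous logarithms on preconnected sets. -/
theorem log_unique {X : Type*} [TopologicalSpace X] {S : Set X} (hS : IsPreconnected S)
    {a b : X → ℂ} (ha : ContinuousOn a S) (hb : ContinuousOn b S)
    (h : ∀ x ∈ S, exp (a x) = exp (b x)) {x0 : X} (hx0 : x0 ∈ S) (h0 : a x0 = b x0) :
    ∀ x ∈ S, a x = b x := by
  classical
  have hpi : (2 * Real.pi * I : ℂ) ≠ 0 := Complex.two_pi_I_ne_zero
  have hex : ∀ x, ∃ n : ℤ, x ∈ S → a x = b x + n * (2 * Real.pi * I) := by
    intro x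
    by_cases hx : x ∈ S
    · obtain ⟨n, hn⟩ := Complex.exp_eq_exp_iff_exists_int.1 (h x hx)
      exact ⟨n, fun _ => hn⟩
    · exact ⟨0, fun hx' => absurd hx' hx⟩
  choose k hk using hex
  have hkc : ContinuousOn k S := by
    rw [Int.isClosedEmbedding_coe_real.isInducing.continuousOn_iff]
    have h1 : ContinuousOn (fun x => ((a x - b x) / (2 * Real.pi * I)).re) S :=
      Complex.continuous_re.comp_continuousOn ((ha.sub hb).div_const _)
    refine h1.congr ?_
    intro x hx
    have h2 : (a x - b x) / (2 * Real.pi * I) = (k x : ℂ) := by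
      rw [div_eq_iff hpi, hk x hx]
      ring
    simp only [Function.comp_apply, h2]
    simp
  intro x hx
  have h3 := int_const hS hkc hx hx0
  have h4 := hk x0 hx0
  rw [h0] at h4
  have h5 : (k x0 : ℂ) * (2 * Real.pi * I) = 0 := by
    have : b x0 + (k x0 : ℂ) * (2 * Real.pi * I) = b x0 + 0 := by rw [← h4, add_zero]
    exact add_left_cancel this
  rw [hk x hx, h3, h5, add_zero]

theorem norm_ec (θ : ℝ) : ‖ec θ‖ = 1 := by
  unfold ec
  exact Complex.norm_exp_ofReal_mul_I θ

theorem ec_add (a b : ℝ) : ec (a + b) = ec a * ec b := by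
  unfold ec
  rw [← Complex.exp_add]
  push_cast
  ring_nf

theorem continuous_ec : Continuous ec := by
  unfold ec
  fun_prop

theorem ec_two_pi : ec (2 * Real.pi) = 1 := by
  unfold ec
  push_cast
  exact Complex.exp_two_pi_mul_I

/-- every point of the circle is `ec θ` with `θ ∈ [0, 2π)` -/
theorem exists_ec {z : ℂ} (hz : ‖z‖ = 1) : ∃ θ ∈ Ico 0 (2 * Real.pi), z = ec θ := by
  have h1 : z = ec (arg z) := by
    unfold ec
    have := Complex.norm_mul_exp_arg_mul_I z
    rw [hz, Complex.ofReal_one, one_mul] at this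
    exact this.symm
  have h2 := Complex.neg_pi_lt_arg z
  have h3 := Complex.arg_le_pi z
  have hpi := Real.pi_pos
  rcases le_or_gt 0 (arg z) with h | h
  · exact ⟨arg z, ⟨h, by linarith⟩, h1⟩
  · refine ⟨arg z + 2 * Real.pi, ⟨by linarith, by linarith⟩, ?_⟩
    rw [ec_add, ec_two_pi, mul_one]
    exact h1

theorem ec_eq_iff {a b : ℝ} (h : ec a = ec b) : ∃ n : ℤ, a = b + n * (2 * Real.pi) := by
  unfold ec at h
  obtain ⟨n, hn⟩ := Complex.exp_eq_exp_iff_exists_int.1 h
  refine ⟨n, ?_⟩
  have h1 := congrArg Complex.im hn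
  simpa using h1

theorem ec_inj_aux {a b : ℝ} (h1 : a - b < 2 * Real.pi) (h2 : b - a < 2 * Real.pi)
    (h : ec a = ec b) : a = b := by
  obtain ⟨n, hn⟩ := ec_eq_iff h
  have hpi := Real.pi_pos
  have h3 : (n : ℝ) < 1 := by
    by_contra hc
    rw [not_lt] at hc
    nlinarith
  have h4 : (-1 : ℝ) < n := by
    by_contra hc
    rw [not_lt] at hc
    nlinarith
  have h5 : n < 1 := by exact_mod_cast h3
  have h6 : -1 < n := by exact_mod_cast h4
  have : n = 0 := by omega
  rw [hn, this]
  simp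

theorem ec_inj {a b : ℝ} (ha : a ∈ Ioc 0 (2 * Real.pi)) (hb : b ∈ Ioc 0 (2 * Real.pi))
    (h : ec a = ec b) : a = b :=
  ec_inj_aux (by linarith [ha.2, hb.1]) (by linarith [hb.2, ha.1]) h

theorem ec_inj' {a b : ℝ} (ha : a ∈ Ico 0 (2 * Real.pi)) (hb : b ∈ Ico 0 (2 * Real.pi))
    (h : ec a = ec b) : a = b :=
  ec_inj_aux (by linarith [ha.2, hb.1]) (by linarith [hb.2, ha.1]) h

theorem ec_eq_one {a : ℝ} (ha : a ∈ Icc 0 (2 * Real.pi)) (h : ec a = 1) :
    a = 0 ∨ a = 2 * Real.pi := by
  rcases eq_or_lt_of_le ha.1 with h0 | h0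
  · exact Or.inl h0.symm
  · right
    have hpi := Real.pi_pos
    apply ec_inj ⟨h0, ha.2⟩ ⟨by positivity, le_rfl⟩
    rw [h, ec_two_pi]

end

end Pool.TU
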