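import Pool.Agent.Helper71.TU.B1
import Pool.Agent.Helper71.TU.L2

/-! # TU B2: angles, Lipschitz bounds -/

open Complex Set Filter Topology Metric Polynomial ComplexConjugate Pool.Tuning

namespace Pool.TU

noncomputable section

variable {v : ℂ}

private theorem ang_formula (hv : 0 < v.im) (x : ℝ) :
    ang v x = Real.pi + 2 * Real.arctan ((x - v.re) / v.im) := by
  have h : arg ((x : ℂ) - conj v) = Real.pi / 2 - Real.arctan ((x - v.re) / v.im) := by
    obtain ⟨t, ht⟩ : ∃ t : ℝ, t = (x - v.re) / v.im := ⟨_, rfl⟩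
    have h1 : (x : ℂ) - conj v = ((v.im * Real.sqrt (1 + t ^ 2) : ℝ) : ℂ) *
        (Complex.cos ((Real.pi / 2 - Real.arctan t : ℝ) : ℂ) +
          Complex.sin ((Real.pi / 2 - Real.arctan t : ℝ) : ℂ) * I) := by
      have hs : 0 < Real.sqrt (1 + t ^ 2) := Real.sqrt_pos.mpr (by positivity)
      rw [← Complex.ofReal_cos, ← Complex.ofReal_sin, Real.cos_pi_div_two_sub,
        Real.sin_pi_div_two_sub, Real.sin_arctan, Real.cos_arctan]
      apply Complex.ext
      · simp only [sub_re, ofReal_re, conj_re, mul_re, add_re, ofReal_im, mul_im, I_re, I_im,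
          add_im, mul_zero, mul_one, zero_mul, sub_zero, add_zero]
        rw [ht]
        field_simp
      · simp only [sub_im, ofReal_im, conj_im, mul_re, add_re, ofReal_re, mul_im, I_re, I_im,
          add_im, mul_zero, mul_one, zero_mul, sub_zero, add_zero, zero_add]
        field_simp
        ring
    rw [h1, ← ht]
    apply Complex.arg_mul_cos_add_sin_mul_I
    · have hs : 0 < Real.sqrt (1 + t ^ 2) := Real.sqrt_pos.mpr (by positivity)
      positivity
    · have a1 := Real.neg_pi_div_two_lt_arctan t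
      have a2 := Real.arctan_lt_pi_div_two t
      constructor <;> linarith [Real.pi_pos]
  unfold ang
  rw [h]
  ring

theorem ang_mem (hv : 0 < v.im) (x : ℝ) : ang v x ∈ Ioo 0 (2 * Real.pi) := by
  rw [ang_formula hv]
  have a1 := Real.neg_pi_div_two_lt_arctan ((x - v.re) / v.im)
  have a2 := Real.arctan_lt_pi_div_two ((x - v.re) / v.im)
  constructor <;> linarith

theorem mm_real (hv : 0 < v.im) (x : ℝ) : mm v x = ec (ang v x) := by
  obtain ⟨y, hy⟩ : ∃ y : ℂ, y = (x : ℂ) - conj v := ⟨_, rfl⟩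
  have hy0 : y ≠ 0 := by
    intro h
    have : y.im = 0 := by rw [h]; simp
    rw [hy] at this
    simp at this
    linarith
  have h1 : mm v x = conj y / y := by
    unfold mm
    rw [hy]
    simp
  have h2 : ec (ang v x) = exp (-(2 * (arg y : ℂ) * I)) := by
    unfold ec ang
    rw [← hy]
    have : ((2 * Real.pi - 2 * arg y : ℝ) : ℂ) * I = -(2 * (arg y : ℂ) * I) + 2 * Real.pi * I := by
      push_cast
      ring
    rw [this, Complex.exp_add, Complex.exp_two_pi_mul_I, mul_one]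
  have h3 : (‖y‖ : ℂ) * exp (arg y * I) = y := Complex.norm_mul_exp_arg_mul_I y
  have h4 : conj y = (‖y‖ : ℂ) * exp (-(arg y * I)) := by
    conv_lhs => rw [← h3]
    rw [map_mul, Complex.conj_ofReal, ← Complex.exp_conj, map_mul, Complex.conj_ofReal,
      Complex.conj_I]
    ring_nf
  have h5 : exp (-(2 * (arg y : ℂ) * I)) * ((‖y‖ : ℂ) * exp (arg y * I)) =
      (‖y‖ : ℂ) * exp (-(arg y * I)) := by
    rw [mul_left_comm, ← Complex.exp_add]
    congr 2
    ring
  rw [h3] at h5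
  rw [h1, h2, div_eq_iff hy0, h4, h5]

theorem ang_strictMono (hv : 0 < v.im) : StrictMono (ang v) := by
  intro x y hxy
  rw [ang_formula hv, ang_formula hv]
  have : Real.arctan ((x - v.re) / v.im) < Real.arctan ((y - v.re) / v.im) := by
    apply Real.arctan_strictMono
    gcongr
  linarith

theorem ang_cont (hv : 0 < v.im) : Continuous (ang v) := by
  have : ang v = fun x => Real.pi + 2 * Real.arctan ((x - v.re) / v.im) := by
    funext x
    exact ang_formula hv x
  rw [this]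
  have := Real.continuous_arctan
  fun_prop

theorem ang_surj (hv : 0 < v.im) {θ : ℝ} (hθ : θ ∈ Ioo 0 (2 * Real.pi)) :
    ∃ x : ℝ, ang v x = θ := by
  refine ⟨v.re + v.im * Real.tan ((θ - Real.pi) / 2), ?_⟩
  rw [ang_formula hv]
  have h1 : (v.re + v.im * Real.tan ((θ - Real.pi) / 2) - v.re) / v.im =
      Real.tan ((θ - Real.pi) / 2) := by
    field_simp
    ring
  rw [h1, Real.arctan_tan]
  · ring
  · linarith [hθ.1]
  · linarith [hθ.2]

private theorem dist_lower (hv : 0 < v.im) {z : ℂ} (hz : z ∈ HH) : v.im ≤ ‖z - conj v‖ := by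
  have h1 : 0 ≤ z.im := hz
  have h2 : (z - conj v).im ≤ ‖z - conj v‖ := (le_abs_self _).trans (Complex.abs_im_le_norm _)
  simp only [sub_im, conj_im] at h2
  linarith

private theorem ne_conj (hv : 0 < v.im) {z : ℂ} (hz : z ∈ HH) : z - conj v ≠ 0 := by
  intro h
  have := dist_lower hv hz
  rw [h, norm_zero] at this
  linarith

private theorem norm_sub_conj (hv : 0 < v.im) : ‖v - conj v‖ = 2 * v.im := by
  rw [Complex.sub_conj]
  simp only [ofReal_mul, ofReal_ofNat, norm_mul, Complex.norm_ofNat, norm_real, Real.norm_eq_abs,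
    norm_I, mul_one, abs_of_pos hv]

/-- `mm v` is Lipschitz on the upper half plane -/
theorem mm_lip (hv : 0 < v.im) : ∃ C : ℝ, ∀ z ∈ HH, ∀ z' ∈ HH, ‖mm v z - mm v z'‖ ≤ C * ‖z - z'‖ := by
  refine ⟨2 / v.im, ?_⟩
  intro z hz z' hz'
  have h1 := ne_conj hv hz
  have h2 := ne_conj hv hz'
  have h3 : mm v z - mm v z' = (v - conj v) * (z - z') / ((z - conj v) * (z' - conj v)) := by
    unfold mm
    field_simp
    ring
  rw [h3, norm_div, norm_mul, norm_mul, norm_sub_conj hv]
  have h4 := dist_lower hv hz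
  have h5 := dist_lower hv hz'
  calc 2 * v.im * ‖z - z'‖ / (‖z - conj v‖ * ‖z' - conj v‖) ≤
      2 * v.im * ‖z - z'‖ / (v.im * v.im) := by gcongr
    _ = 2 / v.im * ‖z - z'‖ := by field_simp

/-- `z → ∞` in the half plane iff `mm v z → 1` -/
theorem mm_tendsto_one (hv : 0 < v.im) (η : ℝ) (hη : 0 < η) :
    ∃ R : ℝ, ∀ z ∈ HH, R ≤ ‖z‖ → ‖mm v z - 1‖ ≤ η := by
  refine ⟨‖v‖ + 2 * v.im / η, ?_⟩
  intro z hz hR
  have h1 := ne_conj hv hz
  have h3 : mm v z - 1 = -((v - conj v) / (z - conj v)) := by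
    unfold mm
    field_simp
    ring
  rw [h3, norm_neg, norm_div, norm_sub_conj hv]
  have h4 : ‖z‖ - ‖conj v‖ ≤ ‖z - conj v‖ := norm_sub_norm_le _ _
  rw [Complex.norm_conj] at h4
  have h5 : 2 * v.im / η ≤ ‖z - conj v‖ := by linarith
  have h6 : 0 < ‖z - conj v‖ := norm_pos_iff.mpr h1
  rw [div_le_iff₀ hη] at h5
  rw [div_le_iff₀ h6]
  linarith

theorem mi_large (hv : 0 < v.im) (R : ℝ) :
    ∃ η > 0, ∀ s ∈ DD, s ≠ 1 → ‖s - 1‖ ≤ η → R ≤ ‖mi v s‖ := by
  refine ⟨2 * v.im / (‖v‖ + |R| + 1), by positivity, ?_⟩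
  intro s _ hs1 hs
  have h1 : (1 : ℂ) - s ≠ 0 := sub_ne_zero.mpr (Ne.symm hs1)
  have h2 : mi v s = (v - conj v) / (1 - s) + conj v := by
    unfold mi
    field_simp
    ring
  have h3 : ‖(v - conj v) / (1 - s)‖ ≤ ‖mi v s‖ + ‖v‖ := by
    have : (v - conj v) / (1 - s) = mi v s - conj v := by rw [h2]; ring
    rw [this]
    refine (norm_sub_le _ _).trans ?_
    rw [Complex.norm_conj]
  rw [norm_div, norm_sub_conj hv] at h3
  have h4 : 0 < ‖(1 : ℂ) - s‖ := norm_pos_iff.mpr h1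
  have h5 : ‖(1 : ℂ) - s‖ ≤ 2 * v.im / (‖v‖ + |R| + 1) := by
    rw [norm_sub_rev]
    exact hs
  have h6 : ‖v‖ + |R| + 1 ≤ 2 * v.im / ‖(1 : ℂ) - s‖ := by
    have h7 : 0 < ‖v‖ + |R| + 1 := by positivity
    rw [le_div_iff₀ h7] at h5
    rw [le_div_iff₀ h4]
    linarith
  have := le_abs_self R
  linarith

end

end Pool.TU
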