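import Pool.Agent.Helper71.TU.B5
import Pool.Agent.Helper71.TU.B2

/-! # TU B6: the folded map -/

open Complex Set Filter Topology Metric Polynomial ComplexConjugate Pool.Tuning

namespace Pool.TU

noncomputable section

variable (q : RQ)

theorem B6_norm_fold (w : ℂ) : ‖fold w‖ = ‖w‖ := by
  unfold fold
  split_ifs
  · rfl
  · exact Complex.norm_conj w

theorem B6_fold_eq {w y : ℂ} (h : fold w = y) : w = y ∨ w = conj y := by
  unfold fold at h
  split_ifs at h
  · exact Or.inl h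
  · right
    rw [← h, Complex.conj_conj]

theorem FF_mm {z : ℂ} (hz : z ∈ HH) : FF q (mm q.v z) = mm q.v (fold (q.h.eval z)) := by
  unfold FF
  rw [if_neg (mm_ne_one q.vpos hz), mi_mm q.vpos hz]

theorem B6_FF_one : FF q 1 = 1 := by
  unfold FF
  rw [if_pos rfl]

theorem B6_FF_ne {s : ℂ} (h1 : s ≠ 1) : FF q s = mm q.v (fold (q.h.eval (mi q.v s))) := by
  unfold FF
  rw [if_neg h1]

theorem B6_near (η : ℝ) (hη : 0 < η) :
    ∃ δ > 0, ∀ s ∈ DD, ‖s - 1‖ ≤ δ → ‖FF q s - 1‖ ≤ η := by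
  obtain ⟨R, hR⟩ := mm_tendsto_one q.vpos η hη
  obtain ⟨R', hR'⟩ := q.large R
  obtain ⟨δ, hδ, hmi⟩ := mi_large q.vpos R'
  refine ⟨δ, hδ, fun s hs hsd => ?_⟩
  by_cases h1 : s = 1
  · rw [h1, B6_FF_one, sub_self, norm_zero]
    exact hη.le
  · rw [B6_FF_ne q h1]
    apply hR _ (fold_mem _)
    rw [B6_norm_fold]
    exact hR' _ (hmi s hs h1 hsd)

theorem FF_cont : ContinuousOn (FF q) DD := by
  intro s hs
  by_cases h1 : s = 1
  · subst h1
    rw [Metric.continuousWithinAt_iff]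
    intro ε hε
    obtain ⟨δ, hδ, hn⟩ := B6_near q (ε / 2) (by positivity)
    refine ⟨δ, hδ, fun x hx hd => ?_⟩
    rw [dist_eq_norm] at hd ⊢
    rw [B6_FF_one]
    have := hn x hx hd.le
    linarith
  · have hopen : {x : ℂ | x ≠ 1} ∈ 𝓝 s := isOpen_ne.mem_nhds h1
    have hc : ContinuousOn (fun x => mm q.v (fold (q.h.eval (mi q.v x)))) (DD \ {1}) := by
      refine (mm_cont q.vpos).comp ?_ (fun x _ => fold_mem _)
      refine fold_cont.comp_continuousOn ?_
      exact q.h.continuous.comp_continuousOn (mi_cont q.vpos)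
    have hc2 : ContinuousWithinAt (fun x => mm q.v (fold (q.h.eval (mi q.v x)))) DD s := by
      have h3 := hc s ⟨hs, h1⟩
      have hset : DD \ {1} = DD ∩ {x : ℂ | x ≠ 1} := by
        ext x
        constructor
        · rintro ⟨a, b⟩
          exact ⟨a, b⟩
        · rintro ⟨a, b⟩
          exact ⟨a, b⟩
      rw [hset] at h3
      exact (continuousWithinAt_inter hopen).1 h3
    refine hc2.congr_of_eventuallyEq ?_ (B6_FF_ne q h1)
    filter_upwards [mem_nhdsWithin_of_mem_nhds hopen] with x hx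
    exact B6_FF_ne q hx

theorem FF_maps : MapsTo (FF q) DD DD := by
  intro s hs
  by_cases h1 : s = 1
  · subst h1
    rw [B6_FF_one]
    exact hs
  · rw [B6_FF_ne q h1]
    exact mm_mem q.vpos (fold_mem _)

theorem FF_one_iff {s : ℂ} (hs : s ∈ DD) : FF q s = 1 ↔ s = 1 := by
  constructor
  · intro h
    by_contra h1
    rw [B6_FF_ne q h1] at h
    exact mm_ne_one q.vpos (fold_mem _) h
  · intro h
    rw [h, B6_FF_one]

theorem B6_fin (c : ℂ) : {z : ℂ | q.h.eval z = c}.Finite := by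
  have hne : q.h - C c ≠ 0 := by
    intro h
    have h4 := q.natDegree
    rw [sub_eq_zero.1 h, natDegree_C] at h4
    omega
  refine (finite_setOf_isRoot hne).subset ?_
  intro z hz
  have hz' : q.h.eval z = c := hz
  show (q.h - C c).IsRoot z
  rw [IsRoot.def, eval_sub, eval_C, hz', sub_self]

theorem FF_fin {y : ℂ} (hy : y ∈ DD) : {z | z ∈ DD ∧ FF q z = y}.Finite := by
  by_cases hy1 : y = 1
  · refine (Set.finite_singleton (1 : ℂ)).subset ?_
    rintro z ⟨hz, hF⟩
    rw [hy1] at hF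
    exact (FF_one_iff q hz).1 hF
  · have hfin : ({z : ℂ | q.h.eval z = mi q.v y} ∪ {z : ℂ | q.h.eval z = conj (mi q.v y)}).Finite :=
      (B6_fin q _).union (B6_fin q _)
    refine ((hfin.image (mm q.v)).subset ?_)
    rintro z ⟨hz, hF⟩
    have hz1 : z ≠ 1 := by
      intro h
      rw [h, B6_FF_one] at hF
      exact hy1 hF.symm
    rw [B6_FF_ne q hz1] at hF
    have h2 : fold (q.h.eval (mi q.v z)) = mi q.v y := by
      rw [← hF, mi_mm q.vpos (fold_mem _)]
    refine ⟨mi q.v z, ?_, mm_mi q.vpos hz hz1⟩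
    rcases B6_fold_eq h2 with h | h
    · exact Or.inl h
    · exact Or.inr h

end

end Pool.TU
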