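import Pool.Agent.Helper71.TU.B10
import Pool.Agent.Helper71.TU.B11
import Pool.Agent.Helper71.TU.B6
import Pool.Agent.Helper71.TU.B4

/-! # TU B12: the closed tiles -/

open Complex Set Filter Topology Metric Polynomial ComplexConjugate Pool.Tuning

namespace Pool.TU

noncomputable section

namespace B12aux

theorem ball_sub {s : ℂ} (hs : s ∈ ball (0 : ℂ) 1) : s ∈ DD := ball_subset_closedBall hs

theorem ball_ne {s : ℂ} (hs : s ∈ ball (0 : ℂ) 1) : s ≠ 1 := by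
  rintro rfl
  rw [mem_ball_zero_iff, norm_one] at hs
  exact lt_irrefl _ hs

theorem sq_ball {s : ℂ} (hs : s ∈ ball (0 : ℂ) 1) : s ^ 2 ∈ ball (0 : ℂ) 1 := by
  rw [mem_ball_zero_iff] at hs ⊢
  rw [norm_pow]
  exact pow_lt_one₀ (norm_nonneg _) hs (by norm_num)

theorem sq_DD {s : ℂ} (hs : s ∈ DD) : s ^ 2 ∈ DD := by
  unfold DD at hs ⊢
  rw [mem_closedBall_zero_iff] at hs ⊢
  rw [norm_pow]
  exact pow_le_one₀ (norm_nonneg _) hs

theorem fold_of_mem {w : ℂ} (hw : w ∈ HH) : fold w = w := if_pos hw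

theorem fold_conj {w : ℂ} (hw : w ∈ HH) : fold (conj w) = w := by
  have h : 0 ≤ w.im := hw
  unfold fold
  split_ifs with h1
  · rw [Complex.conj_im] at h1
    have h2 : w.im = 0 := by linarith
    apply Complex.ext
    · simp
    · simp [h2]
  · simp

theorem mi_im_pos {v s : ℂ} (hv : 0 < v.im) (hs : s ∈ ball (0 : ℂ) 1) : 0 < (mi v s).im := by
  have h1 : mi v s ∈ HH := mi_mem hv (ball_sub hs) (ball_ne hs)
  have h2 : mm v (mi v s) = s := mm_mi hv (ball_sub hs) (ball_ne hs)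
  have h3 : (mi v s).im ≠ 0 := by
    rw [Ne, ← norm_mm_eq_one hv h1, h2]
    rw [mem_ball_zero_iff] at hs
    exact hs.ne
  exact lt_of_le_of_ne h1 h3.symm

theorem mem_HH {z : ℂ} (h : 0 < z.im) : z ∈ HH := h.le

end B12aux

open B12aux

theorem exists_tiles (q : RQ) : ∃ Θ Ga Gb : ℂ → ℂ, Tiles q Θ Ga Gb := by
  have hv := q.vpos
  obtain ⟨θ, θc, θi, θ0, θh, θs⟩ := exists_tileΘ q
  obtain ⟨ga, gb, gac, gbc, gah, gbh, gne, gs⟩ := exists_tileG q
  have hfin : ∀ y ∈ DD, {z | z ∈ DD ∧ FF q z = y}.Finite := fun y hy => FF_fin q hy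
  obtain ⟨Θ, Θc, Θm, Θe, ΘF⟩ := extend_disc (G := fun s => mm q.v (θ s)) (g := fun s => s ^ 2)
    (FF_cont q) hfin ((mm_cont hv).comp θc (fun s hs => mem_HH (θh s hs).1))
    (fun s hs => mm_mem hv (mem_HH (θh s hs).1)) (by fun_prop) (fun s hs => sq_DD hs)
    (fun s hs => by
      have h1 := sq_ball hs
      rw [FF_mm q (mem_HH (θh s hs).1), (θh s hs).2,
        fold_of_mem (mi_mem hv (ball_sub h1) (ball_ne h1)), mm_mi hv (ball_sub h1) (ball_ne h1)])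
  have hG : ∀ ga : ℂ → ℂ, ContinuousOn ga (ball 0 1) →
      (∀ w ∈ ball (0 : ℂ) 1, 0 < (ga w).im ∧ q.h.eval (ga w) = conj (mi q.v w)) →
      ∃ G' : ℂ → ℂ, ContinuousOn G' DD ∧ MapsTo G' DD DD ∧
        (∀ s ∈ ball (0 : ℂ) 1, G' s = mm q.v (ga s)) ∧ ∀ s ∈ DD, FF q (G' s) = s := by
    intro ga gac gah
    exact extend_disc (G := fun s => mm q.v (ga s)) (g := fun s => s)
      (FF_cont q) hfin ((mm_cont hv).comp gac (fun s hs => mem_HH (gah s hs).1))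
      (fun s hs => mm_mem hv (mem_HH (gah s hs).1)) (by fun_prop) (fun s hs => hs)
      (fun s hs => by
        rw [FF_mm q (mem_HH (gah s hs).1), (gah s hs).2,
          fold_conj (mi_mem hv (ball_sub hs) (ball_ne hs)), mm_mi hv (ball_sub hs) (ball_ne hs)])
  obtain ⟨Ga, Gac, Gam, Gae, GaF⟩ := hG ga gac gah
  obtain ⟨Gb, Gbc, Gbm, Gbe, GbF⟩ := hG gb gbc gbh
  refine ⟨Θ, Ga, Gb, ?_⟩
  constructor
  · exact Θc
  · exact Gac
  · exact Gbc
  · exact Θm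
  · exact Gam
  · exact Gbm
  · exact ΘF
  · exact GaF
  · exact GbF
  · intro s hs
    refine ⟨θ s, (θh s hs).1, ?_, Θe s hs⟩
    rw [(θh s hs).2]
    exact mi_im_pos hv (sq_ball hs)
  · intro w hw
    refine ⟨ga w, (gah w hw).1, ?_, Gae w hw⟩
    rw [(gah w hw).2, Complex.conj_im]
    linarith [mi_im_pos hv hw]
  · intro w hw
    refine ⟨gb w, (gbh w hw).1, ?_, Gbe w hw⟩
    rw [(gbh w hw).2, Complex.conj_im]
    linarith [mi_im_pos hv hw]
  · rw [Θe 0 (mem_ball_self one_pos), θ0]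
  · intro s hs s' hs' h
    rw [Θe s hs, Θe s' hs'] at h
    exact θi hs hs' (mm_inj hv (mem_HH (θh s hs).1) (mem_HH (θh s' hs').1) h)
  · intro w hw h
    rw [Gae w hw, Gbe w hw] at h
    exact gne w hw (mm_inj hv (mem_HH (gah w hw).1) (mem_HH (gbh w hw).1) h)
  · intro z hz hhz
    obtain ⟨s, hs, rfl⟩ := θs z hz hhz
    exact ⟨s, hs, Θe s hs⟩
  · intro z hz hhz
    rcases gs z hz hhz with ⟨s, hs, rfl⟩ | ⟨s, hs, rfl⟩
    · exact Or.inl ⟨s, hs, Gae s hs⟩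
    · exact Or.inr ⟨s, hs, Gbe s hs⟩

end

end Pool.TU
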