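import Pool.Agent.Helper71.TU.B12

/-! # TU B13: accesses -/

open Complex Set Filter Topology Metric Polynomial ComplexConjugate Pool.Tuning

namespace Pool.TU

noncomputable section

/-- radial approach -/
theorem b13_appr {v : ℂ} (hv : 0 < v.im) {G : ℂ → ℂ} (hG : ContinuousOn G DD)
    (hGm : MapsTo G DD DD) {s z : ℂ} (hs : ‖s‖ = 1) (hz : z ∈ HH) (h : G s = mm v z)
    {ε : ℝ} (hε : 0 < ε) :
    ∀ᶠ r : ℝ in 𝓝[<] 1, (0 < r ∧ r < 1) ∧ mi v (G (r * s)) ∈ ball z ε := by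
  have h0 : ∀ᶠ r : ℝ in 𝓝[<] 1, 0 < r ∧ r < 1 := by
    have h1 : ∀ᶠ r : ℝ in 𝓝[<] 1, 0 < r :=
      nhdsWithin_le_nhds (lt_mem_nhds (by norm_num))
    have h2 : ∀ᶠ r : ℝ in 𝓝[<] 1, r < 1 := eventually_mem_nhdsWithin
    exact h1.and h2
  have hsD : s ∈ DD := by simp [DD, hs]
  have hmem : ∀ r : ℝ, 0 < r → r < 1 → (r : ℂ) * s ∈ DD := by
    intro r h1 h2
    simp only [DD, mem_closedBall, dist_zero_right, norm_mul, hs, mul_one, Complex.norm_real,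
      Real.norm_eq_abs, abs_of_pos h1]
    exact h2.le
  have hGs1 : G s ≠ 1 := by
    rw [h]; exact mm_ne_one hv hz
  have ht1 : Tendsto (fun r : ℝ => (r : ℂ) * s) (𝓝[<] 1) (𝓝[DD] s) := by
    rw [tendsto_nhdsWithin_iff]
    refine ⟨?_, ?_⟩
    · have hc : Continuous (fun r : ℝ => (r : ℂ) * s) := by fun_prop
      have := hc.tendsto 1
      simp only [ofReal_one, one_mul] at this
      exact this.mono_left nhdsWithin_le_nhds
    · filter_upwards [h0] with r hr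
      exact hmem r hr.1 hr.2
  have ht2 : Tendsto (fun r : ℝ => G ((r : ℂ) * s)) (𝓝[<] 1) (𝓝[DD \ {1}] (G s)) := by
    rw [tendsto_nhdsWithin_iff]
    have ht3 : Tendsto (fun r : ℝ => G ((r : ℂ) * s)) (𝓝[<] 1) (𝓝 (G s)) :=
      (hG s hsD).tendsto.comp ht1
    refine ⟨ht3, ?_⟩
    have h5 : ∀ᶠ r : ℝ in 𝓝[<] 1, G ((r : ℂ) * s) ≠ 1 := ht3.eventually_ne hGs1
    filter_upwards [h0, h5] with r hr h6
    exact ⟨hGm (hmem r hr.1 hr.2), h6⟩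
  have ht4 : Tendsto (fun r : ℝ => mi v (G ((r : ℂ) * s))) (𝓝[<] 1) (𝓝 z) := by
    have h7 := (mi_cont hv (G s) ⟨hGm hsD, hGs1⟩).tendsto
    rw [h, mi_mm hv hz, ← h] at h7
    exact h7.comp ht2
  filter_upwards [h0, ht4.eventually (ball_mem_nhds z hε)] with r h8 h9
  exact ⟨h8, h9⟩

theorem b13_fold_im {w : ℂ} : (fold w).im = 0 ↔ w.im = 0 := by
  unfold fold
  split_ifs <;> simp

theorem b13_fold_pos {w : ℂ} (h : 0 ≤ w.im) : fold w = w := by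
  unfold fold
  rw [if_pos h]

theorem b13_fold_neg {w : ℂ} (h : w.im < 0) : fold w = conj w := by
  unfold fold
  rw [if_neg (not_le.mpr h)]

/-- a point with boundary image -/
theorem b13_bdpt (q : RQ) {y w : ℂ} (hy : y ∈ DD) (hy1 : y ≠ 1) (hF : FF q y = w) (hw : ‖w‖ = 1) :
    ∃ z ∈ HH, y = mm q.v z ∧ (q.h.eval z).im = 0 := by
  have hv := RQ.vpos q
  refine ⟨mi q.v y, mi_mem hv hy hy1, (mm_mi hv hy hy1).symm, ?_⟩
  have h1 := FF_mm q (mi_mem hv hy hy1)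
  rw [mm_mi hv hy hy1, hF] at h1
  rw [h1, norm_mm_eq_one hv (fold_mem _)] at hw
  exact b13_fold_im.mp hw

theorem b13_norm_FF (q : RQ) {z : ℂ} (hz : z ∈ HH) (hh : (q.h.eval z).im = 0) :
    ‖FF q (mm q.v z)‖ = 1 := by
  have hv := RQ.vpos q
  rw [FF_mm q hz, norm_mm_eq_one hv (fold_mem _)]
  exact b13_fold_im.mpr hh

/-- closedness -/
theorem b13_closed {v : ℂ} (hv : 0 < v.im) {K : Set ℂ} (hK : IsClosed K) {z : ℂ} (hz : z ∈ HH)
    (h : ∀ ε > 0, ∃ z1 ∈ ball z ε, 0 < z1.im ∧ mm v z1 ∈ K) : mm v z ∈ K := by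
  have h1 : z ∈ closure {z1 : ℂ | 0 < z1.im ∧ mm v z1 ∈ K} := by
    rw [Metric.mem_closure_iff]
    intro ε hε
    obtain ⟨z1, h1, h2, h3⟩ := h ε hε
    exact ⟨z1, ⟨h2, h3⟩, by rw [dist_comm]; exact h1⟩
  have h2 : ContinuousWithinAt (mm v) {z1 : ℂ | 0 < z1.im ∧ mm v z1 ∈ K} z :=
    (mm_cont hv z hz).mono (fun z1 hz1 => le_of_lt hz1.1)
  have h3 := h2.mem_closure h1 (fun z1 hz1 => hz1.2)
  rwa [hK.closure_eq] at h3

theorem b13_comp {G : ℂ → ℂ} (hG : ContinuousOn G DD) : IsClosed (G '' DD) :=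
  ((isCompact_closedBall (0 : ℂ) 1).image_of_continuousOn hG).isClosed

theorem b13_ball {s : ℂ} (hs : s ∈ ball (0 : ℂ) 1) : s ∈ DD := ball_subset_closedBall hs

variable {q : RQ} {Θ Ga Gb : ℂ → ℂ} (t : Tiles q Θ Ga Gb)

include t

theorem Tiles.one : Θ 1 = 1 ∧ Θ (-1) = 1 ∧ Ga 1 = 1 ∧ Gb 1 = 1 := by
  have h1 : (1 : ℂ) ∈ DD := by simp [DD]
  have h2 : (-1 : ℂ) ∈ DD := by simp [DD]
  refine ⟨?_, ?_, ?_, ?_⟩
  · rw [← FF_one_iff q (t.mapsΘ h1), t.FΘ 1 h1, one_pow]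
  · rw [← FF_one_iff q (t.mapsΘ h2), t.FΘ _ h2]; norm_num
  · rw [← FF_one_iff q (t.mapsa h1), t.Fa 1 h1]
  · rw [← FF_one_iff q (t.mapsb h1), t.Fb 1 h1]

/-- the union of the closed tiles is the disc -/
theorem Tiles.cover {z : ℂ} (hz : z ∈ DD) : z ∈ Θ '' DD ∨ z ∈ Ga '' DD ∨ z ∈ Gb '' DD := by
  have hv := RQ.vpos q
  by_cases h1 : z = 1
  · left
    exact ⟨1, by simp [DD], by rw [h1]; exact t.one.1⟩
  have hcl : IsClosed (Θ '' DD ∪ (Ga '' DD ∪ Gb '' DD)) :=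
    (b13_comp t.contΘ).union ((b13_comp t.conta).union (b13_comp t.contb))
  have hx := mi_mem hv hz h1
  have hup : ∀ z1 : ℂ, 0 < z1.im → 0 < (q.h.eval z1).im →
      mm q.v z1 ∈ Θ '' DD ∪ (Ga '' DD ∪ Gb '' DD) := by
    intro z1 h2 h3
    obtain ⟨s, hs, h4⟩ := t.coverT z1 h2 h3
    exact Or.inl ⟨s, b13_ball hs, h4⟩
  have hdn : ∀ z1 : ℂ, 0 < z1.im → (q.h.eval z1).im < 0 →
      mm q.v z1 ∈ Θ '' DD ∪ (Ga '' DD ∪ Gb '' DD) := by
    intro z1 h2 h3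
    rcases t.coverE z1 h2 h3 with ⟨s, hs, h4⟩ | ⟨s, hs, h4⟩
    · exact Or.inr (Or.inl ⟨s, b13_ball hs, h4⟩)
    · exact Or.inr (Or.inr ⟨s, b13_ball hs, h4⟩)
  have key : mm q.v (mi q.v z) ∈ Θ '' DD ∪ (Ga '' DD ∪ Gb '' DD) := by
    apply b13_closed hv hcl hx
    intro ε hε
    by_cases h2 : (q.h.eval (mi q.v z)).im = 0
    · by_cases h3 : (mi q.v z).im ≠ 0 ∨ q.r ≤ (mi q.v z).re
      · obtain ⟨z1, h4, h5, h6⟩ := RQ.access_up q hx h2 h3 ε hε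
        exact ⟨z1, h4, h5, hup z1 h5 h6⟩
      · have h3' : (mi q.v z).im ≠ 0 ∨ (mi q.v z).re ≤ q.r := by
          push Not at h3
          exact Or.inr h3.2.le
        obtain ⟨z1, h4, h5, h6⟩ := RQ.access_down q hx h2 h3' ε hε
        exact ⟨z1, h4, h5, hdn z1 h5 h6⟩
    · set x := mi q.v z with hxdef
      have hcont : Continuous (fun y : ℝ => (q.h.eval (x + y * I)).im) := by
        have h5 : Continuous (fun y : ℝ => x + (y : ℂ) * I) := by fun_prop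
        exact Complex.continuous_im.comp (q.h.continuous.comp h5)
      have hev : ∀ᶠ y : ℝ in 𝓝[>] 0, (q.h.eval (x + y * I)).im ≠ 0 := by
        apply nhdsWithin_le_nhds
        apply hcont.continuousAt.eventually_ne
        simpa using h2
      have hev2 : ∀ᶠ y : ℝ in 𝓝[>] 0, y < ε := nhdsWithin_le_nhds (gt_mem_nhds hε)
      have hev3 : ∀ᶠ y : ℝ in 𝓝[>] 0, 0 < y := eventually_mem_nhdsWithin
      obtain ⟨y, hy1, hy2, hy3⟩ := (hev.and (hev2.and hev3)).exists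
      have hxim : 0 ≤ x.im := hx
      have him : 0 < (x + y * I).im := by simp; linarith
      refine ⟨x + y * I, ?_, him, ?_⟩
      · rw [mem_ball, dist_eq_norm, add_sub_cancel_left, norm_mul, Complex.norm_I, mul_one,
          Complex.norm_real, Real.norm_eq_abs, abs_of_pos hy3]
        exact hy2
      · rcases lt_or_gt_of_ne hy1 with h6 | h6
        · exact hdn _ him h6
        · exact hup _ him h6
  rw [mm_mi hv hz h1] at key
  rcases key with h | h | h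
  · exact Or.inl h
  · exact Or.inr (Or.inl h)
  · exact Or.inr (Or.inr h)

theorem Tiles.accΘ {s s' : ℂ} (hs : ‖s‖ = 1) (hs' : ‖s'‖ = 1) (h : Θ s = Θ s')
    (h1 : Θ s ≠ 1) : s = s' := by
  have hv := RQ.vpos q
  have hsD : s ∈ DD := by simp [DD, hs]
  have hsD' : s' ∈ DD := by simp [DD, hs']
  by_contra hne
  have hsq : s ^ 2 = s' ^ 2 := by
    rw [← t.FΘ s hsD, ← t.FΘ s' hsD', h]
  have hneg : s' = -s := by
    rcases sq_eq_sq_iff_eq_or_eq_neg.mp hsq with h2 | h2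
    · exact absurd h2 hne
    · rw [h2, neg_neg]
  subst hneg
  obtain ⟨z, hz, hyz, hhz⟩ := b13_bdpt q (t.mapsΘ hsD) h1 (t.FΘ s hsD) (by rw [norm_pow, hs, one_pow])
  have hzc : z ≠ q.c := by
    rintro rfl
    exact absurd hhz (ne_of_gt q.hv)
  obtain ⟨ε, hε, hloc⟩ := RQ.local_inj q hz hzc
  have ha := b13_appr hv t.contΘ t.mapsΘ hs hz hyz hε
  have hb := b13_appr hv t.contΘ t.mapsΘ hs' hz (h ▸ hyz) hε
  obtain ⟨r, ⟨⟨hr0, hr1⟩, hra⟩, ⟨_, hrb⟩⟩ := (ha.and hb).exists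
  have hball : ∀ u : ℂ, ‖u‖ = 1 → (r : ℂ) * u ∈ ball (0 : ℂ) 1 := by
    intro u hu
    simp only [mem_ball, dist_zero_right, norm_mul, hu, mul_one, Complex.norm_real,
      Real.norm_eq_abs, abs_of_pos hr0]
    exact hr1
  have hB1 := hball s hs
  have hB2 := hball (-s) hs'
  obtain ⟨z1, hz1, hhz1, hT1⟩ := t.inΘ _ hB1
  obtain ⟨z2, hz2, hhz2, hT2⟩ := t.inΘ _ hB2
  have hz1H : z1 ∈ HH := le_of_lt hz1
  have hz2H : z2 ∈ HH := le_of_lt hz2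
  rw [hT1, mi_mm hv hz1H] at hra
  rw [hT2, mi_mm hv hz2H] at hrb
  have e1 := t.FΘ _ (b13_ball hB1)
  have e2 := t.FΘ _ (b13_ball hB2)
  rw [hT1, FF_mm q hz1H, b13_fold_pos hhz1.le] at e1
  rw [hT2, FF_mm q hz2H, b13_fold_pos hhz2.le] at e2
  have e3 : mm q.v (q.h.eval z1) = mm q.v (q.h.eval z2) := by
    rw [e1, e2]; ring
  have e4 := mm_inj hv hhz1.le hhz2.le e3
  have e5 := hloc z1 hra z2 hrb hz1 hz2 e4
  have e6 : Θ ((r : ℂ) * s) = Θ ((r : ℂ) * (-s)) := by rw [hT1, hT2, e5]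
  have e7 := t.injΘ hB1 hB2 e6
  have hr0' : (r : ℂ) ≠ 0 := by exact_mod_cast hr0.ne'
  have e8 : s = -s := mul_left_cancel₀ hr0' e7
  exact hne e8

theorem Tiles.accG {w : ℂ} (hw : ‖w‖ = 1) (h : Ga w = Gb w) : w = 1 := by
  have hv := RQ.vpos q
  have hwD : w ∈ DD := by simp [DD, hw]
  by_contra hne
  have h1 : Ga w ≠ 1 := by
    intro h2
    rw [← FF_one_iff q (t.mapsa hwD), t.Fa w hwD] at h2
    exact hne h2
  obtain ⟨z, hz, hyz, hhz⟩ := b13_bdpt q (t.mapsa hwD) h1 (t.Fa w hwD) hw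
  have hzc : z ≠ q.c := by
    rintro rfl
    exact absurd hhz (ne_of_gt q.hv)
  obtain ⟨ε, hε, hloc⟩ := RQ.local_inj q hz hzc
  have ha := b13_appr hv t.conta t.mapsa hw hz hyz hε
  have hb := b13_appr hv t.contb t.mapsb hw hz (h ▸ hyz) hε
  obtain ⟨r, ⟨⟨hr0, hr1⟩, hra⟩, ⟨_, hrb⟩⟩ := (ha.and hb).exists
  have hB : (r : ℂ) * w ∈ ball (0 : ℂ) 1 := by
    simp only [mem_ball, dist_zero_right, norm_mul, hw, mul_one, Complex.norm_real,
      Real.norm_eq_abs, abs_of_pos hr0]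
    exact hr1
  obtain ⟨z1, hz1, hhz1, hT1⟩ := t.ina _ hB
  obtain ⟨z2, hz2, hhz2, hT2⟩ := t.inb _ hB
  have hz1H : z1 ∈ HH := le_of_lt hz1
  have hz2H : z2 ∈ HH := le_of_lt hz2
  rw [hT1, mi_mm hv hz1H] at hra
  rw [hT2, mi_mm hv hz2H] at hrb
  have e1 := t.Fa _ (b13_ball hB)
  have e2 := t.Fb _ (b13_ball hB)
  rw [hT1, FF_mm q hz1H, b13_fold_neg hhz1] at e1
  rw [hT2, FF_mm q hz2H, b13_fold_neg hhz2] at e2
  have e3 : mm q.v (conj (q.h.eval z1)) = mm q.v (conj (q.h.eval z2)) := by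
    rw [e1, e2]
  have hc1 : conj (q.h.eval z1) ∈ HH := by
    simp only [HH, mem_ofPred_eq, Complex.conj_im]; linarith
  have hc2 : conj (q.h.eval z2) ∈ HH := by
    simp only [HH, mem_ofPred_eq, Complex.conj_im]; linarith
  have e4 : q.h.eval z1 = q.h.eval z2 := (starRingEnd ℂ).injective (mm_inj hv hc1 hc2 e3)
  have e5 := hloc z1 hra z2 hrb hz1 hz2 e4
  exact t.neab _ hB (by rw [hT1, hT2, e5])

theorem Tiles.reachΘ {z : ℂ} (hz : z ∈ HH) (hh : (q.h.eval z).im = 0)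
    (hc : z.im ≠ 0 ∨ q.r ≤ z.re) : ∃ s, ‖s‖ = 1 ∧ Θ s = mm q.v z := by
  have hv := RQ.vpos q
  have h1 : mm q.v z ∈ Θ '' DD := by
    apply b13_closed hv (b13_comp t.contΘ) hz
    intro ε hε
    obtain ⟨z1, h2, h3, h4⟩ := RQ.access_up q hz hh hc ε hε
    obtain ⟨s, hs, h5⟩ := t.coverT z1 h3 h4
    exact ⟨z1, h2, h3, s, b13_ball hs, h5⟩
  obtain ⟨s, hs, h2⟩ := h1
  refine ⟨s, ?_, h2⟩
  have h3 := b13_norm_FF q hz hh
  rw [← h2, t.FΘ s hs, norm_pow] at h3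
  exact (pow_eq_one_iff_of_nonneg (norm_nonneg s) two_ne_zero).mp h3

theorem Tiles.reachG {z : ℂ} (hz : z ∈ HH) (hh : (q.h.eval z).im = 0)
    (hc : z.im ≠ 0 ∨ z.re ≤ q.r) :
    ∃ w, ‖w‖ = 1 ∧ (Ga w = mm q.v z ∨ Gb w = mm q.v z) := by
  have hv := RQ.vpos q
  have h1 : mm q.v z ∈ Ga '' DD ∪ Gb '' DD := by
    apply b13_closed hv ((b13_comp t.conta).union (b13_comp t.contb)) hz
    intro ε hε
    obtain ⟨z1, h2, h3, h4⟩ := RQ.access_down q hz hh hc ε hε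
    rcases t.coverE z1 h3 h4 with ⟨s, hs, h5⟩ | ⟨s, hs, h5⟩
    · exact ⟨z1, h2, h3, Or.inl ⟨s, b13_ball hs, h5⟩⟩
    · exact ⟨z1, h2, h3, Or.inr ⟨s, b13_ball hs, h5⟩⟩
  have h3 := b13_norm_FF q hz hh
  rcases h1 with ⟨w, hw, h2⟩ | ⟨w, hw, h2⟩
  · refine ⟨w, ?_, Or.inl h2⟩
    rw [← h2, t.Fa w hw] at h3
    exact h3
  · refine ⟨w, ?_, Or.inr h2⟩
    rw [← h2, t.Fb w hw] at h3
    exact h3

theorem Tiles.notΘ {x : ℝ} (hx : x < q.r) : mm q.v x ∉ Θ '' DD := by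
  rintro ⟨s, hs, h⟩
  have hv := RQ.vpos q
  have hxH : (x : ℂ) ∈ HH := by simp [HH]
  have hhx : (q.h.eval (x : ℂ)).im = 0 := by rw [RQ.h_real q x, Complex.ofReal_im]
  have hns : ‖s‖ = 1 := by
    have h3 := b13_norm_FF q hxH hhx
    rw [← h, t.FΘ s hs, norm_pow] at h3
    exact (pow_eq_one_iff_of_nonneg (norm_nonneg s) two_ne_zero).mp h3
  obtain ⟨ε, hε, hloc⟩ := RQ.local_left q hx
  obtain ⟨r, ⟨hr0, hr1⟩, hra⟩ := (b13_appr hv t.contΘ t.mapsΘ hns hxH h hε).exists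
  have hB : (r : ℂ) * s ∈ ball (0 : ℂ) 1 := by
    simp only [mem_ball, dist_zero_right, norm_mul, hns, mul_one, Complex.norm_real,
      Real.norm_eq_abs, abs_of_pos hr0]
    exact hr1
  obtain ⟨z1, hz1, hhz1, hT1⟩ := t.inΘ _ hB
  rw [hT1, mi_mm hv (le_of_lt hz1)] at hra
  exact absurd (hloc z1 hra hz1) (not_lt.mpr hhz1.le)

theorem Tiles.notG {x : ℝ} (hx : q.r < x) : mm q.v x ∉ Ga '' DD ∧ mm q.v x ∉ Gb '' DD := by
  have hv := RQ.vpos q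
  have hxH : (x : ℂ) ∈ HH := by simp [HH]
  have hhx : (q.h.eval (x : ℂ)).im = 0 := by rw [RQ.h_real q x, Complex.ofReal_im]
  obtain ⟨ε, hε, hloc⟩ := RQ.local_right q hx
  constructor
  · rintro ⟨s, hs, h⟩
    have hns : ‖s‖ = 1 := by
      have h3 := b13_norm_FF q hxH hhx
      rw [← h, t.Fa s hs] at h3
      exact h3
    obtain ⟨r, ⟨hr0, hr1⟩, hra⟩ := (b13_appr hv t.conta t.mapsa hns hxH h hε).exists
    have hB : (r : ℂ) * s ∈ ball (0 : ℂ) 1 := by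
      simp only [mem_ball, dist_zero_right, norm_mul, hns, mul_one, Complex.norm_real,
        Real.norm_eq_abs, abs_of_pos hr0]
      exact hr1
    obtain ⟨z1, hz1, hhz1, hT1⟩ := t.ina _ hB
    rw [hT1, mi_mm hv (le_of_lt hz1)] at hra
    exact absurd (hloc z1 hra hz1) (not_lt.mpr hhz1.le)
  · rintro ⟨s, hs, h⟩
    have hns : ‖s‖ = 1 := by
      have h3 := b13_norm_FF q hxH hhx
      rw [← h, t.Fb s hs] at h3
      exact h3
    obtain ⟨r, ⟨hr0, hr1⟩, hra⟩ := (b13_appr hv t.contb t.mapsb hns hxH h hε).exists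
    have hB : (r : ℂ) * s ∈ ball (0 : ℂ) 1 := by
      simp only [mem_ball, dist_zero_right, norm_mul, hns, mul_one, Complex.norm_real,
        Real.norm_eq_abs, abs_of_pos hr0]
      exact hr1
    obtain ⟨z1, hz1, hhz1, hT1⟩ := t.inb _ hB
    rw [hT1, mi_mm hv (le_of_lt hz1)] at hra
    exact absurd (hloc z1 hra hz1) (not_lt.mpr hhz1.le)

end

end Pool.TU
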