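import Pool.Agent.Helper71.TU.B13

/-! # TU B14: choice of signs -/

open Complex Set Filter Topology Metric Polynomial ComplexConjugate Pool.Tuning

namespace Pool.TU

noncomputable section

theorem b14_ec0 : ec 0 = 1 := by simp [ec]

theorem b14_ec2 : ec (2 * Real.pi) = 1 := by
  simp [ec]

theorem b14_ecpi : ec (2 * Real.pi / 2) = -1 := by
  have h1 : 2 * Real.pi / 2 = Real.pi := by ring
  rw [h1]
  simp [ec]

theorem b14_ecsq (θ : ℝ) : ec (θ / 2) ^ 2 = ec θ := by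
  rw [sq, ← ec_add]
  congr 1
  ring

theorem b14_ecD (θ : ℝ) : ec θ ∈ DD := by simp [DD, norm_ec]

theorem b14_ecnD (θ : ℝ) : -(ec θ) ∈ DD := by simp [DD, norm_ec]

theorem b14_ecne {θ : ℝ} (h : θ ∈ Ioo 0 (2 * Real.pi)) : ec θ ≠ 1 := by
  intro h1
  rcases ec_eq_one ⟨h.1.le, h.2.le⟩ h1 with h2 | h2
  · exact absurd h2 h.1.ne'
  · exact absurd h2 h.2.ne

/-- two disjoint relatively closed sets covering a preconnected set of reals -/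
theorem b14_conn {J S1 S2 : Set ℝ} (hJ : IsPreconnected J) (h1 : IsClosed S1) (h2 : IsClosed S2)
    (hc : ∀ θ ∈ J, θ ∈ S1 ∨ θ ∈ S2) (hd : ∀ θ ∈ J, θ ∈ S1 → θ ∈ S2 → False) :
    (∀ θ ∈ J, θ ∈ S1) ∨ (∀ θ ∈ J, θ ∈ S2) := by
  by_contra hcon
  push Not at hcon
  obtain ⟨⟨a, ha, ha1⟩, ⟨b, hb, hb2⟩⟩ := hcon
  have ha2 : a ∈ S2 := (hc a ha).resolve_left ha1
  have hb1 : b ∈ S1 := (hc b hb).resolve_right hb2
  obtain ⟨c, hcJ, hc1, hc2⟩ := isPreconnected_closed_iff.mp hJ S1 S2 h1 h2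
    (fun x hx => hc x hx) ⟨b, hb, hb1⟩ ⟨a, ha, ha2⟩
  exact hd c hcJ hc1 hc2

theorem b14_x_ge {q : RQ} {θ x : ℝ} (hx : ang q.v x = θ) (hθ : ang q.v q.vr ≤ θ) :
    q.vr ≤ x := by
  rw [← hx] at hθ
  exact (ang_strictMono (RQ.vpos q)).le_iff_le.mp hθ

variable {q : RQ} {Θ Ga Gb : ℂ → ℂ} (t : Tiles q Θ Ga Gb)

include t

theorem Tiles.b14_swap : Tiles q Θ Gb Ga where
  contΘ := t.contΘ
  conta := t.contb
  contb := t.conta
  mapsΘ := t.mapsΘ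
  mapsa := t.mapsb
  mapsb := t.mapsa
  FΘ := t.FΘ
  Fa := t.Fb
  Fb := t.Fa
  inΘ := t.inΘ
  ina := t.inb
  inb := t.ina
  Θ0 := t.Θ0
  injΘ := t.injΘ
  neab := fun w hw h => t.neab w hw h.symm
  coverT := t.coverT
  coverE := fun z hz h => (t.coverE z hz h).symm

theorem Tiles.b14_neg : Tiles q (fun s => Θ (-s)) Ga Gb where
  contΘ := t.contΘ.comp continuous_neg.continuousOn (fun s hs => by
    simpa [DD] using hs)
  conta := t.conta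
  contb := t.contb
  mapsΘ := fun s hs => t.mapsΘ (by simpa [DD] using hs)
  mapsa := t.mapsa
  mapsb := t.mapsb
  FΘ := fun s hs => by
    have := t.FΘ (-s) (by simpa [DD] using hs)
    simpa using this
  Fa := t.Fa
  Fb := t.Fb
  inΘ := fun s hs => t.inΘ (-s) (by simpa using hs)
  ina := t.ina
  inb := t.inb
  Θ0 := by simpa using t.Θ0
  injΘ := fun s hs s' hs' h => by
    have := t.injΘ (show -s ∈ ball (0 : ℂ) 1 by simpa using hs)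
      (show -s' ∈ ball (0 : ℂ) 1 by simpa using hs') h
    exact neg_injective this
  neab := t.neab
  coverT := fun z hz h => by
    obtain ⟨s, hs, h1⟩ := t.coverT z hz h
    exact ⟨-s, by simpa using hs, by simpa using h1⟩
  coverE := t.coverE

theorem Tiles.b14_contA : Continuous (fun θ : ℝ => Θ (ec (θ / 2))) := by
  apply t.contΘ.comp_continuous
  · exact continuous_ec.comp (by fun_prop)
  · intro θ; exact b14_ecD _

theorem Tiles.b14_contA' : Continuous (fun θ : ℝ => Θ (-(ec (θ / 2)))) := by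
  apply t.contΘ.comp_continuous
  · exact (continuous_ec.comp (by fun_prop)).neg
  · intro θ; exact b14_ecnD _

theorem Tiles.b14_contB : Continuous (fun θ : ℝ => Gb (ec θ)) := by
  apply t.contb.comp_continuous continuous_ec
  intro θ; exact b14_ecD _

theorem Tiles.b14_FA (θ : ℝ) : FF q (Θ (ec (θ / 2))) = ec θ := by
  rw [t.FΘ _ (b14_ecD _), b14_ecsq]

theorem Tiles.b14_FA' (θ : ℝ) : FF q (Θ (-(ec (θ / 2)))) = ec θ := by
  rw [t.FΘ _ (b14_ecnD _), neg_sq, b14_ecsq]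

theorem Tiles.b14_neA {θ : ℝ} (h : θ ∈ Ioo 0 (2 * Real.pi)) :
    Θ (ec (θ / 2)) ≠ Θ (-(ec (θ / 2))) := by
  intro h1
  have h2 : Θ (ec (θ / 2)) ≠ 1 := by
    intro h3
    have h4 := t.b14_FA θ
    rw [(FF_one_iff q (t.mapsΘ (b14_ecD _))).mpr h3] at h4
    exact b14_ecne h h4.symm
  have h5 := t.accΘ (norm_ec _) (by rw [norm_neg, norm_ec]) h1 h2
  have h6 : ec (θ / 2) = 0 := by
    have : (2 : ℂ) * ec (θ / 2) = 0 := by linear_combination h5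
    simpa using this
  have h7 := norm_ec (θ / 2)
  rw [h6, norm_zero] at h7
  exact zero_ne_one h7

theorem Tiles.b14_neB {θ : ℝ} (h : θ ∈ Ioo 0 (2 * Real.pi)) : Ga (ec θ) ≠ Gb (ec θ) :=
  fun h1 => b14_ecne h (t.accG (norm_ec _) h1)

/-- the fibre over `ec θ`: description of a point -/
theorem Tiles.b14_fib {θ x : ℝ} (hx : ang q.v x = θ) {y : ℂ} (hy : y ∈ DD)
    (hF : FF q y = ec θ) (hθ : θ ∈ Ioo 0 (2 * Real.pi)) :
    (‖y‖ < 1 ∧ (y = Θ (ec (θ / 2)) ∨ y = Θ (-(ec (θ / 2)))) ∧ (y = Ga (ec θ) ∨ y = Gb (ec θ))) ∨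
    (‖y‖ = 1 ∧ ∃ z : ℝ, y = mm q.v z ∧ q.p.eval z = x) := by
  have hv := RQ.vpos q
  have hy1 : y ≠ 1 := by
    intro h1
    rw [(FF_one_iff q hy).mpr h1] at hF
    exact b14_ecne hθ hF.symm
  obtain ⟨z, hz, hyz, hhz⟩ := b13_bdpt q hy hy1 hF (norm_ec _)
  by_cases h0 : z.im = 0
  · right
    have hzre : z = (z.re : ℂ) := by
      apply Complex.ext <;> simp [h0]
    refine ⟨?_, z.re, ?_, ?_⟩
    · rw [hyz, norm_mm_eq_one hv hz]; exact h0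
    · rw [← hzre]; exact hyz
    · have h1 : FF q (mm q.v z) = mm q.v ((q.p.eval z.re : ℝ) : ℂ) := by
        rw [FF_mm q hz, b13_fold_pos hhz.ge]
        conv_lhs => rw [hzre]
        rw [RQ.h_real]
      rw [← hyz, hF, ← hx, ← mm_real hv] at h1
      have h2 := mm_inj hv (show ((x : ℝ) : ℂ) ∈ HH by simp [HH])
        (show ((q.p.eval z.re : ℝ) : ℂ) ∈ HH by simp [HH]) h1
      exact_mod_cast h2.symm
  · left
    refine ⟨?_, ?_, ?_⟩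
    · have h1 : ‖y‖ ≤ 1 := by simpa [DD] using hy
      rcases h1.lt_or_eq with h2 | h2
      · exact h2
      · rw [hyz, norm_mm_eq_one hv hz] at h2
        exact absurd h2 h0
    · obtain ⟨s, hs, h1⟩ := t.reachΘ hz hhz (Or.inl h0)
      have hsD : s ∈ DD := by simp [DD, hs]
      have h2 : s ^ 2 = ec (θ / 2) ^ 2 := by
        rw [← t.FΘ s hsD, h1, ← hyz, hF, b14_ecsq]
      rcases sq_eq_sq_iff_eq_or_eq_neg.mp h2 with h3 | h3
      · left; rw [hyz, ← h1, h3]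
      · right; rw [hyz, ← h1, h3]
    · obtain ⟨w, hw, h1⟩ := t.reachG hz hhz (Or.inl h0)
      have hwD : w ∈ DD := by simp [DD, hw]
      rcases h1 with h1 | h1
      · left
        have h2 : w = ec θ := by rw [← t.Fa w hwD, h1, ← hyz, hF]
        rw [hyz, ← h1, h2]
      · right
        have h2 : w = ec θ := by rw [← t.Fb w hwD, h1, ← hyz, hF]
        rw [hyz, ← h1, h2]

/-- a point of the fibre in the `Θ`-tile on the circle is to the right -/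
theorem Tiles.b14_geΘ {s : ℂ} (hs : s ∈ DD) {z : ℝ} (h : Θ s = mm q.v z) : q.r ≤ z := by
  by_contra h1
  push Not at h1
  exact t.notΘ h1 ⟨s, hs, h⟩

theorem Tiles.b14_leA {s : ℂ} (hs : s ∈ DD) {z : ℝ} (h : Ga s = mm q.v z) : z ≤ q.r := by
  by_contra h1
  push Not at h1
  exact (t.notG h1).1 ⟨s, hs, h⟩

theorem Tiles.b14_leB {s : ℂ} (hs : s ∈ DD) {z : ℝ} (h : Gb s = mm q.v z) : z ≤ q.r := by
  by_contra h1
  push Not at h1
  exact (t.notG h1).2 ⟨s, hs, h⟩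

/-- not both of the `Θ` points are on the circle -/
theorem Tiles.b14_notbothA {θ : ℝ} (hθ : θ ∈ Ioo 0 (2 * Real.pi))
    (h1 : ‖Θ (ec (θ / 2))‖ = 1) (h2 : ‖Θ (-(ec (θ / 2)))‖ = 1) : False := by
  have hv := RQ.vpos q
  obtain ⟨x, hx⟩ := ang_surj hv hθ
  rcases t.b14_fib hx (t.mapsΘ (b14_ecD _)) (t.b14_FA θ) hθ with h3 | ⟨_, z, hz, hpz⟩
  · exact absurd h1 h3.1.ne
  rcases t.b14_fib hx (t.mapsΘ (b14_ecnD _)) (t.b14_FA' θ) hθ with h3 | ⟨_, z', hz', hpz'⟩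
  · exact absurd h2 h3.1.ne
  have e1 := t.b14_geΘ (b14_ecD _) hz
  have e2 := t.b14_geΘ (b14_ecnD _) hz'
  have e3 : z = z' := (RQ.mono_right q).injOn e1 e2 (by
    show q.p.eval z = q.p.eval z'
    rw [hpz, hpz'])
  exact t.b14_neA hθ (by rw [hz, hz', e3])

theorem Tiles.b14_notbothB {θ : ℝ} (hθ : θ ∈ Ioo 0 (2 * Real.pi))
    (h1 : ‖Ga (ec θ)‖ = 1) (h2 : ‖Gb (ec θ)‖ = 1) : False := by
  have hv := RQ.vpos q
  obtain ⟨x, hx⟩ := ang_surj hv hθ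
  rcases t.b14_fib hx (t.mapsa (b14_ecD _)) (t.Fa _ (b14_ecD _)) hθ with h3 | ⟨_, z, hz, hpz⟩
  · exact absurd h1 h3.1.ne
  rcases t.b14_fib hx (t.mapsb (b14_ecD _)) (t.Fb _ (b14_ecD _)) hθ with h3 | ⟨_, z', hz', hpz'⟩
  · exact absurd h2 h3.1.ne
  have e1 := t.b14_leA (b14_ecD _) hz
  have e2 := t.b14_leB (b14_ecD _) hz'
  have e3 : z = z' := (RQ.anti_left q).injOn e1 e2 (by
    show q.p.eval z = q.p.eval z'
    rw [hpz, hpz'])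
  exact t.b14_neB hθ (by rw [hz, hz', e3])

/-- at least one is -/
theorem Tiles.b14_someA {θ : ℝ} (hθ : θ ∈ Ioo 0 (2 * Real.pi)) (hκ : ang q.v q.vr ≤ θ) :
    ‖Θ (ec (θ / 2))‖ = 1 ∨ ‖Θ (-(ec (θ / 2)))‖ = 1 := by
  have hv := RQ.vpos q
  obtain ⟨x, hx⟩ := ang_surj hv hθ
  obtain ⟨z, hz, hpz⟩ := (RQ.surj_real q (b14_x_ge hx hκ)).1
  have hzH : (z : ℂ) ∈ HH := by simp [HH]
  have hhz : (q.h.eval (z : ℂ)).im = 0 := by rw [RQ.h_real, Complex.ofReal_im]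
  obtain ⟨s, hs, h1⟩ := t.reachΘ hzH hhz (Or.inr (by simpa using hz))
  have hsD : s ∈ DD := by simp [DD, hs]
  have hn : ‖mm q.v (z : ℂ)‖ = 1 := by rw [norm_mm_eq_one hv hzH]; simp
  have h2 : s ^ 2 = ec (θ / 2) ^ 2 := by
    rw [← t.FΘ s hsD, h1, FF_mm q hzH, b13_fold_pos hhz.ge, RQ.h_real, hpz, mm_real hv, hx,
      b14_ecsq]
  rcases sq_eq_sq_iff_eq_or_eq_neg.mp h2 with h3 | h3
  · left; rw [← h3, h1, hn]
  · right; rw [← h3, h1, hn]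

theorem Tiles.b14_someB {θ : ℝ} (hθ : θ ∈ Ioo 0 (2 * Real.pi)) (hκ : ang q.v q.vr ≤ θ) :
    ‖Ga (ec θ)‖ = 1 ∨ ‖Gb (ec θ)‖ = 1 := by
  have hv := RQ.vpos q
  obtain ⟨x, hx⟩ := ang_surj hv hθ
  obtain ⟨z, hz, hpz⟩ := (RQ.surj_real q (b14_x_ge hx hκ)).2
  have hzH : (z : ℂ) ∈ HH := by simp [HH]
  have hhz : (q.h.eval (z : ℂ)).im = 0 := by rw [RQ.h_real, Complex.ofReal_im]
  obtain ⟨w, hw, h1⟩ := t.reachG hzH hhz (Or.inr (by simpa using hz))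
  have hwD : w ∈ DD := by simp [DD, hw]
  have hn : ‖mm q.v (z : ℂ)‖ = 1 := by rw [norm_mm_eq_one hv hzH]; simp
  have hFF : FF q (mm q.v z) = ec θ := by
    rw [FF_mm q hzH, b13_fold_pos hhz.ge, RQ.h_real, hpz, mm_real hv, hx]
  rcases h1 with h1 | h1
  · left
    have h2 : w = ec θ := by rw [← t.Fa w hwD, h1, hFF]
    rw [← h2, h1, hn]
  · right
    have h2 : w = ec θ := by rw [← t.Fb w hwD, h1, hFF]
    rw [← h2, h1, hn]

/-- the result after the choice of signs and labels -/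
theorem Tiles.b14_main
    (hA : ∀ θ ∈ Ico (ang q.v q.vr) (2 * Real.pi), ‖Θ (ec (θ / 2))‖ = 1)
    (hB : ∀ θ ∈ Ico (ang q.v q.vr) (2 * Real.pi), ‖Gb (ec θ)‖ = 1) :
    (∀ θ ∈ Icc (ang q.v q.vr) (2 * Real.pi), ‖Θ (ec (θ / 2))‖ = 1 ∧ ‖Gb (ec θ)‖ = 1) ∧
    (∀ θ ∈ Icc 0 (2 * Real.pi), Ga (ec θ) = Θ (-(ec (θ / 2)))) ∧
    (∀ θ ∈ Icc 0 (ang q.v q.vr), Gb (ec θ) = Θ (ec (θ / 2))) := by
  have hv := RQ.vpos q
  obtain ⟨o1, o2, o3, o4⟩ := t.one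
  set κ := ang q.v q.vr with hκdef
  have hκ : κ ∈ Ioo 0 (2 * Real.pi) := ang_mem hv _
  -- the points over `[κ, 2π)`
  have hii : ∀ θ ∈ Ico κ (2 * Real.pi), Ga (ec θ) = Θ (-(ec (θ / 2))) := by
    intro θ hθ
    have hθ' : θ ∈ Ioo 0 (2 * Real.pi) := ⟨lt_of_lt_of_le hκ.1 hθ.1, hθ.2⟩
    obtain ⟨x, hx⟩ := ang_surj hv hθ'
    rcases t.b14_fib hx (t.mapsΘ (b14_ecnD _)) (t.b14_FA' θ) hθ' with h3 | h3
    · rcases h3.2.2 with h4 | h4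
      · exact h4.symm
      · exact absurd (h4 ▸ hB θ hθ) h3.1.ne
    · exact (t.b14_notbothA hθ' (hA θ hθ) h3.1).elim
  -- the value at `κ`
  have hiii : Θ (ec (κ / 2)) = Gb (ec κ) := by
    have hκ' : κ ∈ Ico κ (2 * Real.pi) := ⟨le_refl _, hκ.2⟩
    rcases t.b14_fib hκdef.symm (t.mapsΘ (b14_ecD _)) (t.b14_FA κ) hκ with h3 | ⟨_, z, hz, hpz⟩
    · exact absurd (hA κ hκ') h3.1.ne
    rcases t.b14_fib hκdef.symm (t.mapsb (b14_ecD _)) (t.Fb _ (b14_ecD _)) hκ with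
      h3 | ⟨_, z', hz', hpz'⟩
    · exact absurd (hB κ hκ') h3.1.ne
    have e1 := t.b14_geΘ (b14_ecD _) hz
    have e2 := t.b14_leB (b14_ecD _) hz'
    have e3 : z = q.r := (RQ.mono_right q).injOn e1 (mem_Ici.mpr (le_refl _)) hpz
    have e4 : z' = q.r := (RQ.anti_left q).injOn e2 (mem_Iic.mpr (le_refl _)) hpz'
    rw [hz, hz', e3, e4]
  -- below `κ` all points of the fibre are nonreal
  have hlow : ∀ θ ∈ Ioo 0 κ, (Θ (ec (θ / 2)) = Ga (ec θ) ∨ Θ (ec (θ / 2)) = Gb (ec θ)) ∧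
      (Θ (-(ec (θ / 2))) = Ga (ec θ) ∨ Θ (-(ec (θ / 2))) = Gb (ec θ)) := by
    intro θ hθ
    have hθ' : θ ∈ Ioo 0 (2 * Real.pi) := ⟨hθ.1, hθ.2.trans hκ.2⟩
    obtain ⟨x, hx⟩ := ang_surj hv hθ'
    have hx' : x < q.vr := by
      have h5 : ang q.v x < ang q.v q.vr := by rw [hx]; exact hθ.2
      exact (ang_strictMono hv).lt_iff_lt.mp h5
    constructor
    · rcases t.b14_fib hx (t.mapsΘ (b14_ecD _)) (t.b14_FA θ) hθ' with h3 | ⟨_, z, hz, hpz⟩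
      · exact h3.2.2
      · exact absurd (RQ.vr_le q z) (not_le.mpr (hpz ▸ hx'))
    · rcases t.b14_fib hx (t.mapsΘ (b14_ecnD _)) (t.b14_FA' θ) hθ' with h3 | ⟨_, z, hz, hpz⟩
      · exact h3.2.2
      · exact absurd (RQ.vr_le q z) (not_le.mpr (hpz ▸ hx'))
  have hiv : ∀ θ ∈ Ioc 0 κ, Θ (ec (θ / 2)) = Gb (ec θ) := by
    have hcl1 : IsClosed {θ : ℝ | Θ (ec (θ / 2)) = Gb (ec θ)} :=
      isClosed_eq t.b14_contA t.b14_contB
    have hcl2 : IsClosed {θ : ℝ | Θ (ec (θ / 2)) = Ga (ec θ)} :=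
      isClosed_eq t.b14_contA t.b14_swap.b14_contB
    rcases b14_conn (isPreconnected_Ioc (a := (0 : ℝ)) (b := κ)) hcl1 hcl2 (by
      intro θ hθ
      rcases hθ.2.lt_or_eq with h5 | h5
      · exact (hlow θ ⟨hθ.1, h5⟩).1.symm
      · left
        rw [h5]
        exact hiii) (by
      intro θ hθ h5 h6
      have hθ' : θ ∈ Ioo 0 (2 * Real.pi) := ⟨hθ.1, lt_of_le_of_lt hθ.2 hκ.2⟩
      exact t.b14_neB hθ' (h6.symm.trans h5)) with h | h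
    · exact h
    · exfalso
      have h5 := h κ ⟨hκ.1, le_refl _⟩
      exact t.b14_neB hκ (Eq.trans (Eq.symm h5) hiii)
  have hv' : ∀ θ ∈ Ioc 0 κ, Ga (ec θ) = Θ (-(ec (θ / 2))) := by
    intro θ hθ
    rcases hθ.2.lt_or_eq with h5 | h5
    · rcases (hlow θ ⟨hθ.1, h5⟩).2 with h6 | h6
      · exact h6.symm
      · have hθ' : θ ∈ Ioo 0 (2 * Real.pi) := ⟨hθ.1, lt_of_le_of_lt hθ.2 hκ.2⟩
        exact absurd ((hiv θ hθ).trans h6.symm) (t.b14_neA hθ')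
    · rw [h5]; exact hii κ ⟨le_refl _, hκ.2⟩
  refine ⟨?_, ?_, ?_⟩
  · intro θ hθ
    rcases hθ.2.lt_or_eq with h5 | h5
    · exact ⟨hA θ ⟨hθ.1, h5⟩, hB θ ⟨hθ.1, h5⟩⟩
    · rw [h5, b14_ecpi, b14_ec2, o2, o4]
      simp
  · intro θ hθ
    rcases hθ.1.eq_or_lt with h5 | h5
    · rw [← h5, zero_div, b14_ec0, o3, o2]
    rcases hθ.2.lt_or_eq with h6 | h6
    · rcases le_or_gt θ κ with h7 | h7
      · exact hv' θ ⟨h5, h7⟩
      · exact hii θ ⟨h7.le, h6⟩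
    · rw [h6, b14_ecpi, b14_ec2, neg_neg, o1, o3]
  · intro θ hθ
    rcases hθ.1.eq_or_lt with h5 | h5
    · rw [← h5, zero_div, b14_ec0, o4, o1]
    · exact (hiv θ ⟨h5, hθ.2⟩).symm

/-- choice of signs and labels -/
theorem Tiles.choose : ∃ Θ' G2 G4 : ℂ → ℂ, Tiles q Θ' G2 G4 ∧
    (∀ θ ∈ Icc (ang q.v q.vr) (2 * Real.pi), ‖Θ' (ec (θ / 2))‖ = 1 ∧ ‖G4 (ec θ)‖ = 1) ∧
    (∀ θ ∈ Icc 0 (2 * Real.pi), G2 (ec θ) = Θ' (-(ec (θ / 2)))) ∧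
    (∀ θ ∈ Icc 0 (ang q.v q.vr), G4 (ec θ) = Θ' (ec (θ / 2))) := by
  have hv := RQ.vpos q
  have hκ : ang q.v q.vr ∈ Ioo 0 (2 * Real.pi) := ang_mem hv _
  have hpos : ∀ θ ∈ Ico (ang q.v q.vr) (2 * Real.pi), θ ∈ Ioo 0 (2 * Real.pi) :=
    fun θ hθ => ⟨lt_of_lt_of_le hκ.1 hθ.1, hθ.2⟩
  -- choice of the sign
  obtain ⟨Θ', t', hA⟩ : ∃ Θ' : ℂ → ℂ, Tiles q Θ' Ga Gb ∧
      ∀ θ ∈ Ico (ang q.v q.vr) (2 * Real.pi), ‖Θ' (ec (θ / 2))‖ = 1 := by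
    have hcl1 : IsClosed {θ : ℝ | ‖Θ (ec (θ / 2))‖ = 1} :=
      isClosed_eq t.b14_contA.norm continuous_const
    have hcl2 : IsClosed {θ : ℝ | ‖Θ (-(ec (θ / 2)))‖ = 1} :=
      isClosed_eq t.b14_contA'.norm continuous_const
    rcases b14_conn (isPreconnected_Ico (a := ang q.v q.vr) (b := 2 * Real.pi)) hcl1 hcl2
      (fun θ hθ => t.b14_someA (hpos θ hθ) hθ.1)
      (fun θ hθ h1 h2 => t.b14_notbothA (hpos θ hθ) h1 h2) with h | h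
    · exact ⟨Θ, t, h⟩
    · exact ⟨fun s => Θ (-s), t.b14_neg, h⟩
  -- choice of the labels
  obtain ⟨G2, G4, t'', hB⟩ : ∃ G2 G4 : ℂ → ℂ, Tiles q Θ' G2 G4 ∧
      ∀ θ ∈ Ico (ang q.v q.vr) (2 * Real.pi), ‖G4 (ec θ)‖ = 1 := by
    have hcl1 : IsClosed {θ : ℝ | ‖Gb (ec θ)‖ = 1} :=
      isClosed_eq t'.b14_contB.norm continuous_const
    have hcl2 : IsClosed {θ : ℝ | ‖Ga (ec θ)‖ = 1} :=
      isClosed_eq t'.b14_swap.b14_contB.norm continuous_const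
    rcases b14_conn (isPreconnected_Ico (a := ang q.v q.vr) (b := 2 * Real.pi)) hcl1 hcl2
      (fun θ hθ => (t'.b14_someB (hpos θ hθ) hθ.1).symm)
      (fun θ hθ h1 h2 => t'.b14_notbothB (hpos θ hθ) h2 h1) with h | h
    · exact ⟨Ga, Gb, t', h⟩
    · exact ⟨Gb, Ga, t'.b14_swap, h⟩
  obtain ⟨c1, c2, c3⟩ := t''.b14_main hA hB
  exact ⟨Θ', G2, G4, t'', c1, c2, c3⟩

end

end Pool.TU
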