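import Pool.Agent.Helper71.TU.B14

/-! # TU B15: the tile system of a real quartic -/

open Complex Set Filter Topology Metric Polynomial ComplexConjugate Pool.Tuning

namespace Pool.TU

noncomputable section

namespace B15aux

theorem ec_zero : ec 0 = 1 := by simp [ec]

theorem ec_pi : ec Real.pi = -1 := by
  unfold ec
  exact Complex.exp_pi_mul_I

theorem ec_2pi : ec (2 * Real.pi) = 1 := by
  unfold ec
  rw [ofReal_mul, ofReal_ofNat]
  exact Complex.exp_two_pi_mul_I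

theorem ec_half_sq (θ : ℝ) : ec (θ / 2) ^ 2 = ec θ := by
  rw [pow_two, ← ec_add]
  congr 1
  ring

theorem ec_ne_zero (θ : ℝ) : ec θ ≠ 0 := by
  unfold ec
  exact Complex.exp_ne_zero _

theorem ec_ne_neg (θ : ℝ) : ec θ ≠ -(ec θ) := by
  intro h
  have h1 : ec θ = 0 := by linear_combination h / 2
  exact ec_ne_zero θ h1

theorem cont_of_ec {K : Set ℝ} (hK : IsCompact K) (hinj : InjOn ec K) {S : Set ℝ} {φ : ℝ → ℝ}
    (hm : MapsTo φ S K) (hc : ContinuousOn (fun θ => ec (φ θ)) S) : ContinuousOn φ S := by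
  have : CompactSpace K := isCompact_iff_compactSpace.1 hK
  have h0 : Continuous (fun x : K => ec x) := continuous_ec.comp continuous_subtype_val
  have h1 : IsClosedEmbedding (fun x : K => ec x) :=
    h0.isClosedEmbedding (fun x y h => Subtype.ext (hinj x.2 y.2 h))
  rw [continuousOn_iff_continuous_domRestrict] at hc ⊢
  let ψ : S → K := fun x => ⟨φ x, hm x.2⟩
  have h2 : Continuous ψ := by
    rw [h1.isEmbedding.continuous_iff]
    exact hc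
  exact continuous_subtype_val.comp h2

theorem mem_DD {y : ℂ} : y ∈ DD ↔ ‖y‖ ≤ 1 := by
  unfold DD
  rw [mem_closedBall, dist_zero_right]

theorem mem_ball {y : ℂ} : y ∈ ball (0 : ℂ) 1 ↔ ‖y‖ < 1 := by
  rw [Metric.mem_ball, dist_zero_right]

theorem real_HH (x : ℝ) : (x : ℂ) ∈ HH := by
  unfold HH
  simp

variable (q : RQ)

theorem real_pt {y : ℂ} (hy : ‖y‖ = 1) (h1 : y ≠ 1) : ∃ x : ℝ, y = mm q.v x := by
  have hv := q.vpos
  have hD : y ∈ DD := mem_DD.2 hy.le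
  have h2 := mi_mem hv hD h1
  have h3 := mm_mi hv hD h1
  have h4 : (mi q.v y).im = 0 := by
    rw [← norm_mm_eq_one hv h2, h3, hy]
  refine ⟨(mi q.v y).re, ?_⟩
  have h5 : (((mi q.v y).re : ℝ) : ℂ) = mi q.v y := Complex.ext (by simp) (by simp [h4])
  rw [h5, h3]

theorem mm_real_ne_one (x : ℝ) : mm q.v x ≠ 1 := mm_ne_one q.vpos (real_HH x)

theorem norm_mm_real (x : ℝ) : ‖mm q.v x‖ = 1 := by
  rw [norm_mm_eq_one q.vpos (real_HH x), ofReal_im]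

theorem mm_real_inj {x y : ℝ} (h : mm q.v x = mm q.v y) : x = y := by
  have := mm_inj q.vpos (real_HH x) (real_HH y) h
  exact ofReal_injective this

theorem fold_real (x : ℝ) : fold (x : ℂ) = x := by
  unfold fold
  rw [if_pos (by simp)]

theorem FF_real (x : ℝ) : FF q (mm q.v x) = mm q.v (q.p.eval x : ℝ) := by
  rw [FF_mm q (real_HH x), q.h_real, fold_real]

theorem FF_one : FF q 1 = 1 := by
  unfold FF
  rw [if_pos rfl]

theorem ang_le {x y : ℝ} (h : x ≤ y) : ang q.v x ≤ ang q.v y :=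
  (ang_strictMono q.vpos).monotone h

theorem le_of_ang_le {x y : ℝ} (h : ang q.v x ≤ ang q.v y) : x ≤ y :=
  (ang_strictMono q.vpos).le_iff_le.1 h

theorem norm_lt_of_im_pos {z : ℂ} (hz : 0 < z.im) : ‖mm q.v z‖ < 1 := by
  have hH : z ∈ HH := le_of_lt hz
  have h1 := mem_DD.1 (mm_mem q.vpos hH)
  refine lt_of_le_of_ne h1 fun h2 => ?_
  rw [norm_mm_eq_one q.vpos hH] at h2
  exact hz.ne' h2

theorem fold_im_pos {w : ℂ} (hw : w.im ≠ 0) : 0 < (fold w).im := by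
  unfold fold
  split_ifs with h
  · exact lt_of_le_of_ne h (Ne.symm hw)
  · rw [conj_im]
    linarith [not_le.1 h]

theorem FF_zero : ‖FF q 0‖ < 1 := by
  have hv := q.vpos
  have h1 : FF q (mm q.v q.v) = mm q.v (fold (q.h.eval q.v)) := FF_mm q (le_of_lt hv)
  rw [mm_self hv] at h1
  rw [h1]
  apply norm_lt_of_im_pos
  apply fold_im_pos
  exact q.hvv.ne'

theorem sq_one {s : ℂ} (h : s ^ 2 = 1) : s = 1 ∨ s = -1 := by
  have h1 : (s - 1) * (s + 1) = 0 := by linear_combination h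
  rcases mul_eq_zero.1 h1 with h2 | h2
  · left
    linear_combination h2
  · right
    linear_combination h2

theorem sq_eq {s : ℂ} {θ : ℝ} (h : s ^ 2 = ec θ) : s = ec (θ / 2) ∨ s = -(ec (θ / 2)) := by
  rw [← ec_half_sq] at h
  exact sq_eq_sq_iff_eq_or_eq_neg.1 h

theorem im_zero_of_norm {z : ℂ} (h : ‖mm q.v (fold z)‖ = 1) : z.im = 0 := by
  by_contra hne
  exact absurd h (norm_lt_of_im_pos q (fold_im_pos hne)).ne

theorem p_inj_right {x y : ℝ} (hx : q.r ≤ x) (hy : q.r ≤ y) (h : q.p.eval x = q.p.eval y) :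
    x = y := q.mono_right.injOn hx hy h

theorem p_inj_left {x y : ℝ} (hx : x ≤ q.r) (hy : y ≤ q.r) (h : q.p.eval x = q.p.eval y) :
    x = y := q.anti_left.injOn hx hy h

theorem p_eq_vr {x : ℝ} (h : q.p.eval x = q.vr) : x = q.r := by
  rcases le_total q.r x with h1 | h1
  · exact p_inj_right q h1 le_rfl h
  · exact p_inj_left q h1 le_rfl h

/-- the data used -/
structure Dat (q : RQ) (Θ G2 G4 : ℂ → ℂ) : Prop where
  t : Tiles q Θ G2 G4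
  c1 : ∀ θ ∈ Icc (ang q.v q.vr) (2 * Real.pi), ‖Θ (ec (θ / 2))‖ = 1 ∧ ‖G4 (ec θ)‖ = 1
  c2 : ∀ θ ∈ Icc 0 (2 * Real.pi), G2 (ec θ) = Θ (-(ec (θ / 2)))
  c4 : ∀ θ ∈ Icc 0 (ang q.v q.vr), G4 (ec θ) = Θ (ec (θ / 2))

variable {q} {Θ G2 G4 : ℂ → ℂ} (d : Dat q Θ G2 G4)

include d

theorem Dat.injΘ {s s' : ℂ} (hs : s ∈ DD) (hs' : s' ∈ DD) (h : Θ s = Θ s') :
    s = s' ∨ (s = 1 ∧ s' = -1) ∨ (s = -1 ∧ s' = 1) := by
  have h1 : s ^ 2 = s' ^ 2 := by rw [← d.t.FΘ s hs, ← d.t.FΘ s' hs', h]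
  have h2 : ‖s‖ = ‖s'‖ := by
    rcases sq_eq_sq_iff_eq_or_eq_neg.1 h1 with h2 | h2
    · rw [h2]
    · rw [h2, norm_neg]
  rcases lt_or_eq_of_le (mem_DD.1 hs) with h3 | h3
  · left
    exact d.t.injΘ (mem_ball.2 h3) (mem_ball.2 (h2 ▸ h3)) h
  · by_cases h4 : Θ s = 1
    · have h5 : s ^ 2 = 1 := by rw [← d.t.FΘ s hs, h4, FF_one]
      have h6 : s' ^ 2 = 1 := by rw [← h1, h5]
      rcases sq_one h5 with h7 | h7
      · rcases sq_one h6 with h8 | h8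
        · left; rw [h7, h8]
        · right; left; exact ⟨h7, h8⟩
      · rcases sq_one h6 with h8 | h8
        · right; right; exact ⟨h7, h8⟩
        · left; rw [h7, h8]
    · left
      exact d.t.accΘ h3 (h2 ▸ h3) h h4

theorem Dat.Θ_one {s : ℂ} (hs : s ∈ DD) (h : Θ s = 1) : s = 1 ∨ s = -1 := by
  have h5 : s ^ 2 = 1 := by rw [← d.t.FΘ s hs, h, FF_one]
  exact sq_one h5

/-- an interior point of the critical tile is not in the other tiles -/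
theorem Dat.sepi {s w : ℂ} {G : ℂ → ℂ} (hG : G = G2 ∨ G = G4) (hs : s ∈ DD) (hw : w ∈ DD)
    (h : Θ s = G w) : ‖s‖ = 1 ∧ ‖w‖ = 1 ∧ s ^ 2 = w := by
  have h1 : s ^ 2 = w := by
    rw [← d.t.FΘ s hs, h]
    rcases hG with hG | hG
    · rw [hG, d.t.Fa w hw]
    · rw [hG, d.t.Fb w hw]
  have h2 : ‖s‖ = 1 := by
    by_contra hne
    have h3 : ‖s‖ < 1 := lt_of_le_of_ne (mem_DD.1 hs) hne
    have h4 : ‖w‖ < 1 := by
      rw [← h1, norm_pow]
      exact pow_lt_one₀ (norm_nonneg _) h3 two_ne_zero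
    obtain ⟨z, hz1, hz2, hz3⟩ := d.t.inΘ s (mem_ball.2 h3)
    have h5 : ∃ z : ℂ, 0 < z.im ∧ (q.h.eval z).im < 0 ∧ G w = mm q.v z := by
      rcases hG with hG | hG
      · rw [hG]
        exact d.t.ina w (mem_ball.2 h4)
      · rw [hG]
        exact d.t.inb w (mem_ball.2 h4)
    obtain ⟨z', hz1', hz2', hz3'⟩ := h5
    have h6 : z = z' := mm_inj q.vpos (le_of_lt hz1) (le_of_lt hz1')
      (by rw [← hz3, ← hz3', h])
    rw [h6] at hz2
    linarith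
  refine ⟨h2, ?_, h1⟩
  rw [← h1, norm_pow, h2, one_pow]

theorem Dat.real_Θ {s : ℂ} (hs : s ∈ DD) (hn : ‖Θ s‖ = 1) (h1 : Θ s ≠ 1) :
    ∃ x : ℝ, q.r ≤ x ∧ Θ s = mm q.v x := by
  obtain ⟨x, hx⟩ := real_pt q hn h1
  refine ⟨x, ?_, hx⟩
  by_contra hcon
  exact d.t.notΘ (not_le.1 hcon) (hx ▸ mem_image_of_mem Θ hs)

theorem Dat.real_2 {w : ℂ} (hw : w ∈ DD) (hn : ‖G2 w‖ = 1) (h1 : G2 w ≠ 1) :
    ∃ x : ℝ, x ≤ q.r ∧ G2 w = mm q.v x := by
  obtain ⟨x, hx⟩ := real_pt q hn h1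
  refine ⟨x, ?_, hx⟩
  by_contra hcon
  exact (d.t.notG (not_le.1 hcon)).1 (hx ▸ mem_image_of_mem G2 hw)

theorem Dat.real_4 {w : ℂ} (hw : w ∈ DD) (hn : ‖G4 w‖ = 1) (h1 : G4 w ≠ 1) :
    ∃ x : ℝ, x ≤ q.r ∧ G4 w = mm q.v x := by
  obtain ⟨x, hx⟩ := real_pt q hn h1
  refine ⟨x, ?_, hx⟩
  by_contra hcon
  exact (d.t.notG (not_le.1 hcon)).2 (hx ▸ mem_image_of_mem G4 hw)

omit d in
theorem ec_mem_DD (θ : ℝ) : ec θ ∈ DD := mem_DD.2 (norm_ec θ).le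

theorem Dat.sep2 {s w : ℂ} (hs : s ∈ DD) (hw : w ∈ DD) (h : Θ s = G2 w) :
    ∃ θ ∈ Icc 0 (2 * Real.pi), s = -(ec (θ / 2)) := by
  obtain ⟨h1, h2, h3⟩ := d.sepi (Or.inl rfl) hs hw h
  obtain ⟨θ, hθ, rfl⟩ := exists_ec h2
  have hpi := Real.pi_pos
  rcases sq_eq h3 with h4 | h4
  · have h5 : Θ (ec (θ / 2)) = Θ (-(ec (θ / 2))) := by
      rw [← h4, h, d.c2 θ ⟨hθ.1, hθ.2.le⟩, h4]
    have hD : -(ec (θ / 2)) ∈ DD := by
      rw [mem_DD, norm_neg, norm_ec]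
    rcases d.injΘ (ec_mem_DD _) hD h5 with h6 | h6 | h6
    · exact absurd h6 (ec_ne_neg _)
    · refine ⟨2 * Real.pi, ⟨by linarith, le_rfl⟩, ?_⟩
      rw [h4, h6.1, show 2 * Real.pi / 2 = Real.pi by ring, ec_pi, neg_neg]
    · refine ⟨0, ⟨le_rfl, by linarith⟩, ?_⟩
      rw [h4, h6.1, zero_div, ec_zero]
  · exact ⟨θ, ⟨hθ.1, hθ.2.le⟩, h4⟩

theorem Dat.sep4 {s w : ℂ} (hs : s ∈ DD) (hw : w ∈ DD) (h : Θ s = G4 w) :
    s = -1 ∨ ∃ θ ∈ Icc 0 (ang q.v q.vr), s = ec (θ / 2) := by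
  obtain ⟨h1, h2, h3⟩ := d.sepi (Or.inr rfl) hs hw h
  obtain ⟨θ, hθ, rfl⟩ := exists_ec h2
  have hpi := Real.pi_pos
  have hκ := ang_mem q.vpos q.vr
  have hone : ∃ θ ∈ Icc 0 (ang q.v q.vr), (1 : ℂ) = ec (θ / 2) :=
    ⟨0, ⟨le_rfl, hκ.1.le⟩, by rw [zero_div, ec_zero]⟩
  rcases le_or_gt θ (ang q.v q.vr) with h4 | h4
  · rw [d.c4 θ ⟨hθ.1, h4⟩] at h
    rcases d.injΘ hs (ec_mem_DD _) h with h6 | h6 | h6
    · exact Or.inr ⟨θ, ⟨hθ.1, h4⟩, h6⟩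
    · right
      rw [h6.1]
      exact hone
    · exact Or.inl h6.1
  · have h5 := (d.c1 θ ⟨h4.le, hθ.2.le⟩).2
    by_cases h6 : G4 (ec θ) = 1
    · rcases d.Θ_one hs (h.trans h6) with h7 | h7
      · right
        rw [h7]
        exact hone
      · exact Or.inl h7
    · exfalso
      obtain ⟨x, hx1, hx2⟩ := d.real_4 hw h5 h6
      obtain ⟨x', hx1', hx2'⟩ := d.real_Θ hs (by rw [h, h5]) (by rw [h]; exact h6)
      have h7 : x = x' := mm_real_inj q (by rw [← hx2, ← hx2', h])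
      have h8 : x = q.r := le_antisymm hx1 (by rw [h7]; exact hx1')
      have h9 : ec θ = ec (ang q.v q.vr) := by
        rw [← d.t.Fb _ hw, hx2, FF_real, h8, mm_real q.vpos]
        rfl
      have h10 := ec_inj' ⟨hθ.1, hθ.2⟩ ⟨hκ.1.le, hκ.2⟩ h9
      linarith

theorem Dat.sep24 {w w' : ℂ} (hw : w ∈ DD) (hw' : w' ∈ DD) (h : G2 w = G4 w') :
    w = 1 ∧ w' = 1 := by
  have h1 : w = w' := by rw [← d.t.Fa w hw, ← d.t.Fb w' hw', h]
  subst h1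
  have h2 : w = 1 := by
    by_contra hne
    rcases lt_or_eq_of_le (mem_DD.1 hw) with h3 | h3
    · exact d.t.neab w (mem_ball.2 h3) h
    · exact hne (d.t.accG h3 h)
  exact ⟨h2, h2⟩

theorem Dat.nzG {G : ℂ → ℂ} (hG : G = G2 ∨ G = G4) {w : ℂ} (hw : w ∈ DD) : G w ≠ 0 := by
  intro h
  have h1 : FF q (G w) = w := by
    rcases hG with hG | hG
    · rw [hG, d.t.Fa w hw]
    · rw [hG, d.t.Fb w hw]
  have h2 : ‖w‖ < 1 := by
    rw [← h1, h]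
    exact FF_zero q
  have h5 : ∃ z : ℂ, 0 < z.im ∧ (q.h.eval z).im < 0 ∧ G w = mm q.v z := by
    rcases hG with hG | hG
    · rw [hG]
      exact d.t.ina w (mem_ball.2 h2)
    · rw [hG]
      exact d.t.inb w (mem_ball.2 h2)
  obtain ⟨z, hz1, hz2, hz3⟩ := h5
  rw [h] at hz3
  have h6 : z = q.v := (mm_eq_zero q.vpos (le_of_lt hz1)).1 hz3.symm
  rw [h6] at hz2
  have := q.hvv
  unfold RQ.v RQ.h at hz2
  linarith

theorem Dat.nzΘ {s : ℂ} (hs : ‖s‖ = 1) : Θ s ≠ 0 := by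
  intro h
  have h1 := FF_zero q
  rw [← h, d.t.FΘ s (mem_DD.2 hs.le), norm_pow, hs, one_pow] at h1
  exact lt_irrefl _ h1

omit d in
theorem ec_inj_hi {a : ℝ} (ha : 0 < a) : InjOn ec (Icc a (2 * Real.pi)) := by
  intro x hx y hy h
  exact ec_inj ⟨lt_of_lt_of_le ha hx.1, hx.2⟩ ⟨lt_of_lt_of_le ha hy.1, hy.2⟩ h

omit d in
theorem ec_inj_lo {a : ℝ} (ha : a < 2 * Real.pi) : InjOn ec (Icc 0 a) := by
  intro x hx y hy h
  exact ec_inj' ⟨hx.1, lt_of_le_of_lt hx.2 ha⟩ ⟨hy.1, lt_of_le_of_lt hy.2 ha⟩ h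

theorem Dat.exists_rp : ∃ rp : ℝ → ℝ, ∀ θ ∈ Icc (ang q.v q.vr) (2 * Real.pi),
    rp θ ∈ Icc (ang q.v q.r) (2 * Real.pi) ∧ Θ (ec (θ / 2)) = ec (rp θ) := by
  have key : ∀ θ : ℝ, ∃ φ : ℝ, θ ∈ Icc (ang q.v q.vr) (2 * Real.pi) →
      φ ∈ Icc (ang q.v q.r) (2 * Real.pi) ∧ Θ (ec (θ / 2)) = ec φ := by
    intro θ
    by_cases hθ : θ ∈ Icc (ang q.v q.vr) (2 * Real.pi)
    · by_cases h1 : Θ (ec (θ / 2)) = 1
      · exact ⟨2 * Real.pi, fun _ => ⟨⟨(ang_mem q.vpos q.r).2.le, le_rfl⟩, by rw [h1, ec_2pi]⟩⟩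
      · obtain ⟨x, hx1, hx2⟩ := d.real_Θ (ec_mem_DD _) (d.c1 θ hθ).1 h1
        refine ⟨ang q.v x, fun _ => ⟨⟨ang_le q hx1, (ang_mem q.vpos x).2.le⟩, ?_⟩⟩
        rw [hx2, mm_real q.vpos]
    · exact ⟨0, fun h => absurd h hθ⟩
  choose rp hrp using key
  exact ⟨rp, hrp⟩

theorem Dat.exists_rm : ∃ rm : ℝ → ℝ, ∀ θ ∈ Icc (ang q.v q.vr) (2 * Real.pi),
    rm θ ∈ Icc 0 (ang q.v q.r) ∧ G4 (ec θ) = ec (rm θ) := by
  have key : ∀ θ : ℝ, ∃ φ : ℝ, θ ∈ Icc (ang q.v q.vr) (2 * Real.pi) →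
      φ ∈ Icc 0 (ang q.v q.r) ∧ G4 (ec θ) = ec φ := by
    intro θ
    by_cases hθ : θ ∈ Icc (ang q.v q.vr) (2 * Real.pi)
    · by_cases h1 : G4 (ec θ) = 1
      · exact ⟨0, fun _ => ⟨⟨le_rfl, (ang_mem q.vpos q.r).1.le⟩, by rw [h1, ec_zero]⟩⟩
      · obtain ⟨x, hx1, hx2⟩ := d.real_4 (ec_mem_DD _) (d.c1 θ hθ).2 h1
        refine ⟨ang q.v x, fun _ => ⟨⟨(ang_mem q.vpos x).1.le, ang_le q hx1⟩, ?_⟩⟩
        rw [hx2, mm_real q.vpos]
    · exact ⟨0, fun h => absurd h hθ⟩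
  choose rm hrm using key
  exact ⟨rm, hrm⟩

omit d in
/-- a real point over the real critical value is the real critical point -/
theorem over_κ {y : ℂ} (hy : ‖y‖ = 1) (hF : FF q y = ec (ang q.v q.vr)) :
    y = ec (ang q.v q.r) := by
  have hκ := ang_mem q.vpos q.vr
  have h1 : y ≠ 1 := by
    intro h
    rw [h, FF_one] at hF
    have hpi := Real.pi_pos
    rcases ec_eq_one ⟨hκ.1.le, hκ.2.le⟩ hF.symm with h2 | h2
    · exact hκ.1.ne' h2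
    · exact hκ.2.ne h2
  obtain ⟨x, hx⟩ := real_pt q hy h1
  rw [hx, FF_real, ← mm_real q.vpos] at hF
  have h2 := p_eq_vr q (mm_real_inj q hF)
  rw [hx, h2, mm_real q.vpos]

theorem Dat.circΘ {s : ℂ} (hs : s ∈ DD) (hn : ‖Θ s‖ = 1) :
    s = 1 ∨ ∃ θ ∈ Icc (ang q.v q.vr) (2 * Real.pi), s = ec (θ / 2) := by
  have hκ := ang_mem q.vpos q.vr
  have hpi := Real.pi_pos
  have h1 : ‖s‖ = 1 := by
    by_contra hne
    have h3 : ‖s‖ < 1 := lt_of_le_of_ne (mem_DD.1 hs) hne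
    obtain ⟨z, hz1, hz2, hz3⟩ := d.t.inΘ s (mem_ball.2 h3)
    have h4 := norm_lt_of_im_pos q hz1
    rw [← hz3, hn] at h4
    exact lt_irrefl _ h4
  by_cases h2 : Θ s = 1
  · rcases d.Θ_one hs h2 with h3 | h3
    · exact Or.inl h3
    · right
      refine ⟨2 * Real.pi, ⟨hκ.2.le, le_rfl⟩, ?_⟩
      rw [h3, show 2 * Real.pi / 2 = Real.pi by ring, ec_pi]
  · right
    obtain ⟨x, hx1, hx2⟩ := d.real_Θ hs hn h2
    have h3 : s ^ 2 = ec (ang q.v (q.p.eval x)) := by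
      rw [← d.t.FΘ s hs, hx2, FF_real, mm_real q.vpos]
    have hθ : ang q.v (q.p.eval x) ∈ Icc (ang q.v q.vr) (2 * Real.pi) :=
      ⟨ang_le q (q.vr_le x), (ang_mem q.vpos _).2.le⟩
    refine ⟨_, hθ, ?_⟩
    rcases sq_eq h3 with h4 | h4
    · exact h4
    · exfalso
      set θ := ang q.v (q.p.eval x) with hθdef
      have h5 := (d.c1 θ hθ).1
      have h6 : Θ (ec (θ / 2)) ≠ 1 := by
        intro h6
        rcases d.Θ_one (ec_mem_DD _) h6 with h7 | h7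
        · apply h2
          rw [h4, h7]
          exact d.t.one.2.1
        · apply h2
          rw [h4, h7, neg_neg]
          exact d.t.one.1
      obtain ⟨x', hx1', hx2'⟩ := d.real_Θ (ec_mem_DD _) h5 h6
      have h7 : FF q (Θ (ec (θ / 2))) = ec θ := by
        rw [d.t.FΘ _ (ec_mem_DD _), ec_half_sq]
      rw [hx2', FF_real, hθdef, ← mm_real q.vpos] at h7
      have h8 : x' = x := p_inj_right q hx1' hx1 (mm_real_inj q h7)
      have h9 : Θ (ec (θ / 2)) = Θ s := by rw [hx2', hx2, h8]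
      have h10 : ec (θ / 2) ≠ s := by
        rw [h4]
        exact ec_ne_neg _
      have h11 := d.t.accΘ (norm_ec _) h1 h9 h6
      exact h10 h11

theorem Dat.circ4 {w : ℂ} (hw : w ∈ DD) (hn : ‖G4 w‖ = 1) :
    ∃ θ ∈ Icc (ang q.v q.vr) (2 * Real.pi), w = ec θ := by
  have hκ := ang_mem q.vpos q.vr
  by_cases h2 : G4 w = 1
  · refine ⟨2 * Real.pi, ⟨hκ.2.le, le_rfl⟩, ?_⟩
    rw [ec_2pi, ← d.t.Fb w hw, h2, FF_one]
  · obtain ⟨x, hx1, hx2⟩ := d.real_4 hw hn h2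
    refine ⟨ang q.v (q.p.eval x), ⟨ang_le q (q.vr_le x), (ang_mem q.vpos _).2.le⟩, ?_⟩
    rw [← mm_real q.vpos, ← FF_real, ← hx2, d.t.Fb w hw]

theorem Dat.circ2 {w : ℂ} (hw : w ∈ DD) (hn : ‖G2 w‖ = 1) : w = 1 := by
  have hκ := ang_mem q.vpos q.vr
  by_cases h2 : G2 w = 1
  · rw [← d.t.Fa w hw, h2, FF_one]
  · obtain ⟨x, hx1, hx2⟩ := d.real_2 hw hn h2
    set θ := ang q.v (q.p.eval x) with hθdef
    have hθ : θ ∈ Icc (ang q.v q.vr) (2 * Real.pi) :=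
      ⟨ang_le q (q.vr_le x), (ang_mem q.vpos _).2.le⟩
    have h3 : w = ec θ := by
      rw [hθdef, ← mm_real q.vpos, ← FF_real, ← hx2, d.t.Fa w hw]
    have h5 := (d.c1 θ hθ).2
    rw [← h3] at h5
    have h6 : G4 w ≠ 1 := by
      intro h6
      have h7 : w = 1 := by rw [← d.t.Fb w hw, h6, FF_one]
      apply h2
      rw [h7]
      exact d.t.one.2.2.1
    obtain ⟨x', hx1', hx2'⟩ := d.real_4 hw h5 h6
    have h7 : FF q (G4 w) = FF q (G2 w) := by rw [d.t.Fb w hw, d.t.Fa w hw]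
    rw [hx2', hx2, FF_real, FF_real] at h7
    have h8 : x' = x := p_inj_left q hx1' hx1 (mm_real_inj q h7)
    have h9 : ‖w‖ = 1 := by rw [h3, norm_ec]
    exact d.t.accG h9 (by rw [hx2, hx2', h8])

theorem Dat.im_of_Θ {z : ℂ} (hz : z ∈ HH) (h : mm q.v z ∈ Θ '' DD) : 0 ≤ (q.h.eval z).im := by
  obtain ⟨s, hs, h1⟩ := h
  rcases lt_or_eq_of_le (mem_DD.1 hs) with h3 | h3
  · obtain ⟨z', hz1, hz2, hz3⟩ := d.t.inΘ s (mem_ball.2 h3)
    have h6 : z = z' := mm_inj q.vpos hz (le_of_lt hz1) (by rw [← hz3, h1])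
    rw [h6]
    exact hz2.le
  · have h4 : ‖mm q.v (fold (q.h.eval z))‖ = 1 := by
      rw [← FF_mm q hz, ← h1, d.t.FΘ s hs, norm_pow, h3, one_pow]
    rw [im_zero_of_norm q h4]

theorem Dat.im_of_G {G : ℂ → ℂ} (hG : G = G2 ∨ G = G4) {z : ℂ} (hz : z ∈ HH)
    (h : mm q.v z ∈ G '' DD) : (q.h.eval z).im ≤ 0 := by
  obtain ⟨w, hw, h1⟩ := h
  have hFw : FF q (G w) = w := by
    rcases hG with hG | hG
    · rw [hG, d.t.Fa w hw]
    · rw [hG, d.t.Fb w hw]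
  rcases lt_or_eq_of_le (mem_DD.1 hw) with h3 | h3
  · have h5 : ∃ z : ℂ, 0 < z.im ∧ (q.h.eval z).im < 0 ∧ G w = mm q.v z := by
      rcases hG with hG | hG
      · rw [hG]
        exact d.t.ina w (mem_ball.2 h3)
      · rw [hG]
        exact d.t.inb w (mem_ball.2 h3)
    obtain ⟨z', hz1, hz2, hz3⟩ := h5
    have h6 : z = z' := mm_inj q.vpos hz (le_of_lt hz1) (by rw [← hz3, h1])
    rw [h6]
    exact hz2.le
  · have h4 : ‖mm q.v (fold (q.h.eval z))‖ = 1 := by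
      rw [← FF_mm q hz, ← h1, hFw, h3]
    rw [im_zero_of_norm q h4]

theorem Dat.exists_ts : ∃ S : TS, IsTS q S := by
  obtain ⟨rp, hrp⟩ := d.exists_rp
  obtain ⟨rm, hrm⟩ := d.exists_rm
  have hκ := ang_mem q.vpos q.vr
  have hω := ang_mem q.vpos q.r
  have hpi := Real.pi_pos
  have hκm : ang q.v q.vr ∈ Icc (ang q.v q.vr) (2 * Real.pi) := ⟨le_rfl, hκ.2.le⟩
  have h2m : 2 * Real.pi ∈ Icc (ang q.v q.vr) (2 * Real.pi) := ⟨hκ.2.le, le_rfl⟩
  have hhalf : ∀ θ : ℝ, ec (θ / 2) ∈ DD := fun θ => ec_mem_DD _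
  have hcrp : ContinuousOn rp (Icc (ang q.v q.vr) (2 * Real.pi)) := by
    apply cont_of_ec isCompact_Icc (ec_inj_hi hω.1) (fun θ hθ => (hrp θ hθ).1)
    have h1 : ContinuousOn (fun θ : ℝ => Θ (ec (θ / 2))) (Icc (ang q.v q.vr) (2 * Real.pi)) :=
      d.t.contΘ.comp (continuous_ec.comp (continuous_id.div_const 2)).continuousOn
        (fun θ _ => hhalf θ)
    exact h1.congr (fun θ hθ => (hrp θ hθ).2.symm)
  have hcrm : ContinuousOn rm (Icc (ang q.v q.vr) (2 * Real.pi)) := by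
    apply cont_of_ec isCompact_Icc (ec_inj_lo hω.2) (fun θ hθ => (hrm θ hθ).1)
    have h1 : ContinuousOn (fun θ : ℝ => G4 (ec θ)) (Icc (ang q.v q.vr) (2 * Real.pi)) :=
      d.t.contb.comp continuous_ec.continuousOn (fun θ _ => ec_mem_DD θ)
    exact h1.congr (fun θ hθ => (hrm θ hθ).2.symm)
  obtain ⟨o1, o2, o3, o4⟩ := d.t.one
  let S : TS :=
    { κ := ang q.v q.vr
      ω₀ := ang q.v q.r
      Θ := Θ
      G2 := G2
      G4 := G4
      F := FF q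
      rp := rp
      rm := rm
      κ_mem := hκ
      ω₀_mem := hω
      contΘ := d.t.contΘ
      cont2 := d.t.conta
      cont4 := d.t.contb
      contF := FF_cont q
      mapsΘ := d.t.mapsΘ
      maps2 := d.t.mapsa
      maps4 := d.t.mapsb
      mapsF := FF_maps q
      FΘ := d.t.FΘ
      F2 := d.t.Fa
      F4 := d.t.Fb
      cover := fun z hz => d.t.cover hz
      Θone := o1
      Θneg := o2
      G2one := o3
      G4one := o4
      injΘ := fun s hs s' hs' h => d.injΘ hs hs' h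
      bd2 := d.c2
      bd4 := d.c4
      sep2 := fun s hs w hw h => d.sep2 hs hw h
      sep4 := fun s hs w hw h => d.sep4 hs hw h
      sep24 := fun w hw w' hw' h => d.sep24 hw hw' h
      nz2 := fun w hw => d.nzG (Or.inl rfl) hw
      nz4 := fun w hw => d.nzG (Or.inr rfl) hw
      nzΘ := fun s hs => d.nzΘ hs
      contrp := hcrp
      contrm := hcrm
      rpκ := by
        obtain ⟨h1, h2⟩ := hrp _ hκm
        apply ec_inj_hi hω.1 h1 ⟨le_rfl, hω.2.le⟩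
        rw [← h2]
        apply over_κ (d.c1 _ hκm).1
        rw [d.t.FΘ _ (hhalf _), ec_half_sq]
      rmκ := by
        obtain ⟨h1, h2⟩ := hrm _ hκm
        apply ec_inj_lo hω.2 h1 ⟨hω.1.le, le_rfl⟩
        rw [← h2]
        apply over_κ (d.c1 _ hκm).2
        rw [d.t.Fb _ (ec_mem_DD _)]
      rp2 := by
        obtain ⟨h1, h2⟩ := hrp _ h2m
        apply ec_inj_hi hω.1 h1 ⟨hω.2.le, le_rfl⟩
        rw [← h2, ec_2pi, show 2 * Real.pi / 2 = Real.pi by ring, ec_pi]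
        exact o2
      rm2 := by
        obtain ⟨h1, h2⟩ := hrm _ h2m
        apply ec_inj_lo hω.2 h1 ⟨le_rfl, hω.1.le⟩
        rw [← h2, ec_2pi, ec_zero]
        exact o4
      rp_mem := fun θ hθ => (hrp θ hθ).1
      rm_mem := fun θ hθ => (hrm θ hθ).1
      rpΘ := fun θ hθ => (hrp θ hθ).2
      rmG := fun θ hθ => (hrm θ hθ).2
      circΘ := fun s hs h => d.circΘ hs h
      circ2 := fun w hw h => d.circ2 hw h
      circ4 := fun w hw h => d.circ4 hw h }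
  refine ⟨S, ?_⟩
  exact
    { F_eq := fun z hz => FF_mm q hz
      κ_eq := rfl
      ω_eq := rfl
      Θ0 := d.t.Θ0
      imΘ := fun z hz h => d.im_of_Θ hz h
      im2 := fun z hz h => d.im_of_G (Or.inl rfl) hz h
      im4 := fun z hz h => d.im_of_G (Or.inr rfl) hz h }

end B15aux

theorem exists_ts (q : RQ) : ∃ S : TS, IsTS q S := by
  obtain ⟨Θ, Ga, Gb, t⟩ := exists_tiles q
  obtain ⟨Θ', G2, G4, t', c1, c2, c4⟩ := t.choose
  exact B15aux.Dat.exists_ts ⟨t', c1, c2, c4⟩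

end

end Pool.TU
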