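import Pool.Agent.Helper71.TU.AllDefs

/-! # TU B3: lifting through polynomials -/

open Complex Set Filter Topology Metric Polynomial ComplexConjugate Pool.Tuning

namespace Pool.TU

noncomputable section

/-- The restriction of a polynomial to a closed set is a local homeomorphism at interior
points with nonzero derivative. -/
theorem b3_local (h : ℂ[X]) {E : Set ℂ} (z : E) (hz : (z : ℂ) ∈ interior E)
    (hd : h.derivative.eval (z : ℂ) ≠ 0) :
    ∃ e : OpenPartialHomeomorph E ℂ, z ∈ e.source ∧
      EqOn (fun w : E => h.eval (w : ℂ)) e e.source := by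
  classical
  set φ := ((h.hasStrictDerivAt (z : ℂ)).hasStrictFDerivAt_equiv hd).toOpenPartialHomeomorph
    (fun w => h.eval w) with hφ
  have hφc : ∀ w, φ w = h.eval w := fun w => by
    rw [hφ]
    rfl
  have hzs : (z : ℂ) ∈ φ.source :=
    ((h.hasStrictDerivAt (z : ℂ)).hasStrictFDerivAt_equiv hd).mem_toOpenPartialHomeomorph_source
  set ψ := φ.restrOpen (interior E) isOpen_interior with hψ
  have hψs : ψ.source = φ.source ∩ interior E := φ.restrOpen_source _ _
  have hψc : ∀ w, ψ w = h.eval w := fun w => hφc w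
  have hψE : ∀ w ∈ ψ.target, ψ.symm w ∈ E := by
    intro w hw
    have := ψ.map_target hw
    rw [hψs] at this
    exact interior_subset this.2
  refine ⟨{
    toFun := fun w => h.eval (w : ℂ)
    invFun := fun w => if hw : ψ.symm w ∈ E then ⟨ψ.symm w, hw⟩ else z
    source := Subtype.val ⁻¹' ψ.source
    target := ψ.target
    map_source' := fun w hw => by
      have := ψ.map_source hw
      rw [hψc] at this
      exact this
    map_target' := fun w hw => by
      rw [dif_pos (hψE w hw)]
      exact ψ.map_target hw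
    left_inv' := fun w hw => by
      have h1 : ψ.symm (h.eval (w : ℂ)) = w := by
        have := ψ.left_inv hw
        rwa [hψc] at this
      have h2 : ψ.symm (h.eval (w : ℂ)) ∈ E := by rw [h1]; exact w.2
      rw [dif_pos h2]
      exact Subtype.ext h1
    right_inv' := fun w hw => by
      rw [dif_pos (hψE w hw)]
      have := ψ.right_inv hw
      rw [hψc] at this
      exact this
    open_source := ψ.open_source.preimage continuous_subtype_val
    open_target := ψ.open_target
    continuousOn_toFun := (h.continuous.comp continuous_subtype_val).continuousOn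
    continuousOn_invFun := by
      rw [continuousOn_iff_continuous_restrict]
      refine Continuous.subtype_mk (p := fun x => x ∈ E) (f := fun w : ψ.target => ψ.symm w)
        (continuousOn_iff_continuous_restrict.1 ψ.continuousOn_symm) (fun w => hψE w w.2) |>.congr ?_
      intro w
      rw [restrict_apply, dif_pos (hψE w w.2)] }, ?_, ?_⟩
  · change (z : ℂ) ∈ ψ.source
    rw [hψs]
    exact ⟨hzs, hz⟩
  · intro w _
    rfl

/-- Lifting of a map defined on a convex set through the restriction of a polynomial to a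
closed set `E`, over an open set `s` over which it is a local homeomorphism. -/
theorem lift_gen (h : ℂ[X]) (hd : 1 ≤ h.natDegree) {E s : Set ℂ} (hE : IsClosed E)
    (hs : IsOpen s)
    (hloc : ∀ z ∈ E, h.eval z ∈ s → z ∈ interior E ∧ h.derivative.eval z ≠ 0)
    {K : Set ℂ} (hK : Convex ℝ K) {g : ℂ → ℂ} (hg : ContinuousOn g K) (hgs : MapsTo g K s)
    {x0 z0 : ℂ} (hx0 : x0 ∈ K) (hz0 : z0 ∈ E) (h0 : h.eval z0 = g x0) :
    ∃ l : ℂ → ℂ, ContinuousOn l K ∧ MapsTo l K E ∧ (∀ x ∈ K, h.eval (l x) = g x) ∧
      l x0 = z0 := by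
  classical
  set p : E → ℂ := fun w => h.eval (w : ℂ) with hp
  have hclosed : IsClosedMap p :=
    h.isClosedMap_eval.comp hE.isClosedEmbedding_subtypeVal.isClosedMap
  have hfin : ∀ x ∈ s, (p ⁻¹' {x}).Finite := by
    intro x _
    have hne : h ≠ C x := by
      rintro rfl
      simp at hd
    have h1 : ((fun w => h.eval w) ⁻¹' {x}).Finite := by
      rw [preimage_eval_singleton hne]
      exact rootSet_finite ..
    exact h1.preimage (f := (Subtype.val : E → ℂ)) Subtype.val_injective.injOn
  have hcov : IsCoveringMapOn p s := by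
    refine hclosed.isCoveringMapOn_of_isLocalHomeomorphOn hfin ?_
    refine IsLocalHomeomorphOn.mk _ _ fun w hw => ?_
    obtain ⟨h1, h2⟩ := hloc w w.2 hw
    exact b3_local h w h1 h2
  have : Nonempty K := ⟨⟨x0, hx0⟩⟩
  have : ContractibleSpace K := hK.contractibleSpace ⟨x0, hx0⟩
  have : LocallyPathConnectedSpace K := hK.locallyPathConnectedSpace
  obtain ⟨F, ⟨hF1, hF2⟩, -⟩ := hcov.existsUnique_continuousMap_lifts
    (⟨K.restrict g, continuousOn_iff_continuous_restrict.1 hg⟩ : C(K, ℂ)) (a₀ := ⟨x0, hx0⟩)
    (e₀ := ⟨z0, hz0⟩) h0 (fun a => hgs a.2)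
  refine ⟨fun x => if hx : x ∈ K then (F ⟨x, hx⟩ : ℂ) else 0, ?_, ?_, ?_, ?_⟩
  · rw [continuousOn_iff_continuous_restrict]
    refine (continuous_subtype_val.comp F.continuous).congr ?_
    intro x
    rw [restrict_apply, dif_pos x.2]
    rfl
  · intro x hx
    simp only [dif_pos hx]
    exact (F ⟨x, hx⟩).2
  · intro x hx
    simp only [dif_pos hx]
    exact congrFun hF2 ⟨x, hx⟩
  · simp only [dif_pos hx0]
    rw [hF1]

/-- Uniqueness of lifts. -/
theorem lift_uniq (h : ℂ[X]) {K : Set ℂ} (hK : IsPreconnected K) {l l' : ℂ → ℂ}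
    (hl : ContinuousOn l K) (hl' : ContinuousOn l' K)
    (he : ∀ x ∈ K, h.eval (l x) = h.eval (l' x)) (hd : ∀ x ∈ K, h.derivative.eval (l x) ≠ 0)
    {x0 : ℂ} (hx0 : x0 ∈ K) (h0 : l x0 = l' x0) : ∀ x ∈ K, l x = l' x := by
  have hpre : PreconnectedSpace K := Subtype.preconnectedSpace hK
  set A : Set K := {x | l x = l' x} with hA
  have hlc : Continuous (fun x : K => l x) := continuousOn_iff_continuous_restrict.1 hl
  have hlc' : Continuous (fun x : K => l' x) := continuousOn_iff_continuous_restrict.1 hl'
  have hclosed : IsClosed A := isClosed_eq hlc hlc'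
  have hopen : IsOpen A := by
    rw [isOpen_iff_mem_nhds]
    intro x hx
    have hx' : l x = l' x := hx
    set φ := ((h.hasStrictDerivAt (l x)).hasStrictFDerivAt_equiv
      (hd x x.2)).toOpenPartialHomeomorph (fun w => h.eval w) with hφ
    have hφc : ∀ w, φ w = h.eval w := fun w => by
      rw [hφ]
      rfl
    have hzs : l x ∈ φ.source :=
      ((h.hasStrictDerivAt (l x)).hasStrictFDerivAt_equiv
        (hd x x.2)).mem_toOpenPartialHomeomorph_source
    have hn : φ.source ∈ 𝓝 (l x) := φ.open_source.mem_nhds hzs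
    have hn' : φ.source ∈ 𝓝 (l' x) := by rw [← hx']; exact hn
    filter_upwards [hlc.continuousAt.preimage_mem_nhds hn,
      hlc'.continuousAt.preimage_mem_nhds hn'] with y hy hy'
    have : φ (l y) = φ (l' y) := by rw [hφc, hφc]; exact he y y.2
    exact φ.injOn hy hy' this
  have huniv : A = univ := IsClopen.eq_univ ⟨hclosed, hopen⟩ ⟨⟨x0, hx0⟩, h0⟩
  intro x hx
  have : (⟨x, hx⟩ : K) ∈ A := by rw [huniv]; exact mem_univ _
  exact this

end

end Pool.TU
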