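import Pool.Agent.Helper71.TU.B5

/-! # TU B7: local structure -/

open Complex Set Filter Topology Metric Polynomial ComplexConjugate Pool.Tuning

namespace Pool.TU

noncomputable section

variable (q : RQ)

namespace B7

/-- local injectivity where the derivative does not vanish -/
theorem inj_near {f : ℂ → ℂ} {f' z : ℂ} (hf : HasStrictDerivAt f f' z) (h : f' ≠ 0) :
    ∃ ε > 0, InjOn f (ball z ε) := by
  obtain ⟨ε, hε, h1⟩ := Metric.eventually_nhds_iff_ball.1 (hf.eventually_left_inverse h)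
  refine ⟨ε, hε, fun a ha b hb hab => ?_⟩
  rw [← h1 a ha, ← h1 b hb, hab]

/-- a real function with derivative of positive real part maps points above the real axis to
points above the real axis -/
theorem im_pos {f : ℂ → ℂ} {x ε : ℝ} (hd : ∀ z ∈ ball (x : ℂ) ε, DifferentiableAt ℂ f z)
    (hpos : ∀ z ∈ ball (x : ℂ) ε, 0 < (deriv f z).re)
    (hreal : ∀ y : ℝ, (y : ℂ) ∈ ball (x : ℂ) ε → (f y).im = 0) {z : ℂ}
    (hz : z ∈ ball (x : ℂ) ε) (hi : 0 < z.im) : 0 < (f z).im := by
  have hseg : ∀ t ∈ Icc (0 : ℝ) z.im, ((z.re : ℂ) + t * I) ∈ ball (x : ℂ) ε := by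
    intro t ht
    rw [mem_ball, dist_eq_norm] at hz ⊢
    refine lt_of_le_of_lt ?_ hz
    rw [Complex.norm_def, Complex.norm_def]
    apply Real.sqrt_le_sqrt
    simp only [Complex.normSq_apply]
    simp
    nlinarith [ht.1, ht.2]
  have hder : ∀ t ∈ Icc (0 : ℝ) z.im, HasDerivAt (fun t : ℝ => (f ((z.re : ℂ) + t * I)).im)
      (deriv f ((z.re : ℂ) + t * I)).re t := by
    intro t ht
    have h1 := (hd _ (hseg t ht)).hasDerivAt
    have h2 : HasDerivAt (fun t : ℝ => (z.re : ℂ) + t * I) (1 * I) t := by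
      have := (Complex.ofRealCLM.hasDerivAt (x := t)).mul_const I
      simpa using this.const_add (z.re : ℂ)
    have h3 := h1.comp_of_eq t h2 rfl
    have h4 := (Complex.imCLM.hasFDerivAt).comp_hasDerivAt t h3
    have h5 : Complex.imCLM (deriv f ((z.re : ℂ) + t * I) * (1 * I)) =
        (deriv f ((z.re : ℂ) + t * I)).re := by simp
    rw [h5] at h4
    exact h4
  have hmono : StrictMonoOn (fun t : ℝ => (f ((z.re : ℂ) + t * I)).im) (Icc 0 z.im) := by
    refine strictMonoOn_of_deriv_pos (convex_Icc _ _)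
      (fun t ht => (hder t ht).continuousAt.continuousWithinAt) ?_
    intro t ht
    rw [interior_Icc] at ht
    rw [(hder t (Ioo_subset_Icc_self ht)).deriv]
    exact hpos _ (hseg t (Ioo_subset_Icc_self ht))
  have h0 := hmono (left_mem_Icc.2 hi.le) (right_mem_Icc.2 hi.le) hi
  have h1 : (f ((z.re : ℂ) + (0 : ℝ) * I)).im = 0 := by
    have := hreal z.re (by simpa using hseg 0 (left_mem_Icc.2 hi.le))
    simpa using this
  simp only at h0
  rw [h1, Complex.re_add_im] at h0
  exact h0

end B7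

open B7

theorem RQ.hasDeriv (z : ℂ) : HasDerivAt (fun w => q.h.eval w) (q.h.derivative.eval z) z :=
  q.h.hasDerivAt z

theorem RQ.deriv_real (x : ℝ) :
    q.h.derivative.eval (x : ℂ) = (q.p.derivative.eval x : ℝ) := by
  have := Polynomial.eval₂_at_apply (p := q.p.derivative) (algebraMap ℝ ℂ) x
  simpa [RQ.h, Polynomial.eval_map, Polynomial.derivative_map] using this

/-- near a real point right of `r`, the upper half plane is mapped to the upper half plane -/
theorem RQ.local_right {x : ℝ} (hx : q.r < x) : ∃ ε > 0, ∀ z1 ∈ ball (x : ℂ) ε, 0 < z1.im →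
    0 < (q.h.eval z1).im := by
  have h0 : 0 < (q.h.derivative.eval (x : ℂ)).re := by
    rw [q.deriv_real, Complex.ofReal_re, q.der_real]
    have h1 : 0 < x - q.r := sub_pos.2 hx
    have := q.lead
    have := q.normSq_pos x
    positivity
  have hc : Continuous fun z : ℂ => (q.h.derivative.eval z).re :=
    Complex.continuous_re.comp q.h.derivative.continuous
  obtain ⟨ε, hε, h1⟩ := Metric.eventually_nhds_iff_ball.1
    (hc.continuousAt.eventually (lt_mem_nhds h0))
  refine ⟨ε, hε, fun z1 hz1 hi => ?_⟩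
  refine im_pos (f := fun w => q.h.eval w) (x := x) (ε := ε) (fun z _ => (q.hasDeriv z).differentiableAt)
    (fun z hz => ?_) (fun y _ => ?_) hz1 hi
  · rw [(q.hasDeriv z).deriv]
    exact h1 z hz
  · show (q.h.eval (y : ℂ)).im = 0
    rw [q.h_real, Complex.ofReal_im]

theorem RQ.local_left {x : ℝ} (hx : x < q.r) : ∃ ε > 0, ∀ z1 ∈ ball (x : ℂ) ε, 0 < z1.im →
    (q.h.eval z1).im < 0 := by
  have h0 : 0 < (-q.h.derivative.eval (x : ℂ)).re := by
    rw [q.deriv_real, Complex.neg_re, Complex.ofReal_re, q.der_real]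
    have h1 : 0 < q.r - x := sub_pos.2 hx
    have h2 := q.lead
    have h3 := q.normSq_pos x
    have : 0 < 4 * q.p.leadingCoeff * (q.r - x) * Complex.normSq (x - q.c) := by positivity
    nlinarith
  have hc : Continuous fun z : ℂ => (-q.h.derivative.eval z).re :=
    Complex.continuous_re.comp q.h.derivative.continuous.neg
  obtain ⟨ε, hε, h1⟩ := Metric.eventually_nhds_iff_ball.1
    (hc.continuousAt.eventually (lt_mem_nhds h0))
  refine ⟨ε, hε, fun z1 hz1 hi => ?_⟩
  have hd : ∀ z : ℂ, HasDerivAt (fun w => -q.h.eval w) (-q.h.derivative.eval z) z :=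
    fun z => (q.hasDeriv z).neg
  have := im_pos (f := fun w => -q.h.eval w) (x := x) (ε := ε)
    (fun z _ => (hd z).differentiableAt)
    (fun z hz => by rw [(hd z).deriv]; exact h1 z hz)
    (fun y _ => by
      show (-q.h.eval (y : ℂ)).im = 0
      rw [q.h_real, Complex.neg_im, Complex.ofReal_im, neg_zero]) hz1 hi
  have h2 : 0 < (-q.h.eval z1).im := this
  rw [Complex.neg_im] at h2
  linarith

/-- factorisation at the real critical point -/
theorem RQ.exists_k : ∃ k : ℝ[X], q.p = C q.vr + (X - C q.r) ^ 2 * k ∧ 0 < k.eval q.r := by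
  have h1 : (X - C q.r) ∣ q.p - C q.vr := by
    rw [Polynomial.dvd_iff_isRoot]
    simp [RQ.vr]
  obtain ⟨k1, hk1⟩ := h1
  have h2 : q.p.derivative.eval q.r = 0 := by
    rw [q.der_real]; simp
  have h3 : k1.eval q.r = 0 := by
    have := congrArg (fun p => (derivative p).eval q.r) hk1
    simp [h2] at this
    linarith
  have h4 : (X - C q.r) ∣ k1 := by
    rw [Polynomial.dvd_iff_isRoot]
    exact h3
  obtain ⟨k, hk⟩ := h4
  have hp : q.p = C q.vr + (X - C q.r) ^ 2 * k := by
    rw [hk] at hk1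
    linear_combination hk1
  refine ⟨k, hp, ?_⟩
  -- second derivative
  have h5 : ∀ x : ℝ, x ≠ q.r → 2 * k.eval x + (x - q.r) * k.derivative.eval x =
      4 * q.p.leadingCoeff * Complex.normSq (x - q.c) := by
    intro x hx
    have h6 : q.p.derivative.eval x =
      2 * (x - q.r) * k.eval x + (x - q.r) ^ 2 * k.derivative.eval x := by
      have := congrArg (fun p => (derivative p).eval x) hp
      simp only [derivative_add, derivative_C, derivative_mul, derivative_pow, derivative_sub,
        derivative_X, eval_add, eval_mul, eval_pow, eval_sub, eval_X, eval_C,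
        zero_add, sub_zero, mul_one] at this
      rw [this]
      norm_num
    rw [q.der_real] at h6
    have h7 : x - q.r ≠ 0 := sub_ne_zero.2 hx
    apply mul_left_cancel₀ h7
    linear_combination -h6
  have hcont1 : Continuous fun x : ℝ => 2 * k.eval x + (x - q.r) * k.derivative.eval x := by
    have := k.continuous
    have := k.derivative.continuous
    fun_prop
  have hcont2 : Continuous fun x : ℝ => 4 * q.p.leadingCoeff * Complex.normSq (x - q.c) := by
    have := Complex.continuous_normSq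
    fun_prop
  have h6 : (fun x : ℝ => 2 * k.eval x + (x - q.r) * k.derivative.eval x) =
      fun x : ℝ => 4 * q.p.leadingCoeff * Complex.normSq (x - q.c) := by
    refine Continuous.ext_on (s := {q.r}ᶜ) (dense_compl_singleton q.r) hcont1 hcont2 ?_
    intro x hx
    exact h5 x hx
  have h7 := congrFun h6 q.r
  simp at h7
  have h8 := q.normSq_pos q.r
  have h9 := q.lead
  have : 0 < 4 * q.p.leadingCoeff * Complex.normSq (q.r - q.c) := by positivity
  linarith

theorem RQ.h_eq {k : ℝ[X]} (hk : q.p = C q.vr + (X - C q.r) ^ 2 * k) (z : ℂ) :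
    q.h.eval z = q.vr + (z - q.r) ^ 2 * (k.map (algebraMap ℝ ℂ)).eval z := by
  have := congrArg (fun p => (p.map (algebraMap ℝ ℂ)).eval z) hk
  simpa [RQ.h] using this

/-- local injectivity on the upper half plane near every point but `c` -/
theorem RQ.local_inj {z : ℂ} (hz : z ∈ HH) (hc : z ≠ q.c) : ∃ ε > 0, ∀ z1 ∈ ball z ε,
    ∀ z2 ∈ ball z ε, 0 < z1.im → 0 < z2.im → q.h.eval z1 = q.h.eval z2 → z1 = z2 := by
  by_cases hr : z = q.r
  · subst hr
    obtain ⟨k, hk, hkr⟩ := q.exists_k
    set K : ℂ → ℂ := fun w => (k.map (algebraMap ℝ ℂ)).eval w with hK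
    have hKreal : ∀ y : ℝ, K y = (k.eval y : ℝ) := by
      intro y
      have := Polynomial.eval₂_at_apply (p := k) (algebraMap ℝ ℂ) y
      simpa [hK, Polynomial.eval_map] using this
    have hKd : ∀ w, HasDerivAt K ((k.map (algebraMap ℝ ℂ)).derivative.eval w) w :=
      fun w => (k.map (algebraMap ℝ ℂ)).hasDerivAt w
    set φ : ℂ → ℂ := fun w => (w - q.r) * (K w) ^ (1 / 2 : ℂ) with hφ
    have hKc : Continuous K := (k.map (algebraMap ℝ ℂ)).continuous
    have hslit : ∀ᶠ w in 𝓝 (q.r : ℂ), K w ∈ slitPlane := by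
      refine hKc.continuousAt.eventually (isOpen_slitPlane.mem_nhds ?_)
      rw [hKreal]
      exact Complex.ofReal_mem_slitPlane.2 hkr
    have hkpos : ∀ᶠ w in 𝓝 (q.r : ℂ), 0 < (K w).re := by
      refine (Complex.continuous_re.comp hKc).continuousAt.eventually (lt_mem_nhds ?_)
      simp only [Function.comp]
      rw [hKreal]
      simpa using hkr
    have hφd : ∀ w, K w ∈ slitPlane → HasDerivAt φ
        ((K w) ^ (1 / 2 : ℂ) + (w - q.r) * ((1 / 2 : ℂ) * (K w) ^ ((1 / 2 : ℂ) - 1) *
          (k.map (algebraMap ℝ ℂ)).derivative.eval w)) w := by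
      intro w hw
      have h1 := ((hasDerivAt_id w).sub_const (q.r : ℂ)).mul ((hKd w).cpow_const (c := 1 / 2) hw)
      rw [one_mul] at h1
      exact h1
    have hderc : ContinuousAt (fun w : ℂ => ((K w) ^ (1 / 2 : ℂ) + (w - q.r) *
        ((1 / 2 : ℂ) * (K w) ^ ((1 / 2 : ℂ) - 1) *
          (k.map (algebraMap ℝ ℂ)).derivative.eval w)).re) (q.r : ℂ) := by
      have h1 : ContinuousAt K q.r := hKc.continuousAt
      have h2 := hslit.self_of_nhds
      have h3 : ContinuousAt (fun w => (K w) ^ (1 / 2 : ℂ)) (q.r : ℂ) :=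
        ContinuousAt.cpow h1 continuousAt_const h2
      have h4 : ContinuousAt (fun w => (K w) ^ ((1 / 2 : ℂ) - 1)) (q.r : ℂ) :=
        ContinuousAt.cpow h1 continuousAt_const h2
      have h5 : ContinuousAt (fun w : ℂ => (k.map (algebraMap ℝ ℂ)).derivative.eval w) q.r :=
        (k.map (algebraMap ℝ ℂ)).derivative.continuous.continuousAt
      exact Complex.continuous_re.continuousAt.comp
        (h3.add ((continuousAt_id.sub continuousAt_const).mul ((continuousAt_const.mul h4).mul h5)))
    have hcp : ∀ y : ℝ, 0 < k.eval y → (K y) ^ (1 / 2 : ℂ) = ((k.eval y) ^ (1 / 2 : ℝ) : ℝ) := by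
      intro y hy
      rw [hKreal, Complex.ofReal_cpow hy.le]
      norm_num
    have hpos0 : 0 < ((K q.r) ^ (1 / 2 : ℂ) + ((q.r : ℂ) - q.r) *
        ((1 / 2 : ℂ) * (K q.r) ^ ((1 / 2 : ℂ) - 1) *
          (k.map (algebraMap ℝ ℂ)).derivative.eval (q.r : ℂ))).re := by
      rw [sub_self, zero_mul, add_zero, hcp _ hkr, Complex.ofReal_re]
      exact Real.rpow_pos_of_pos hkr _
    have hev := hderc.eventually (lt_mem_nhds hpos0)
    obtain ⟨ε1, hε1, h1⟩ := Metric.eventually_nhds_iff_ball.1 ((hslit.and hkpos).and hev)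
    have hne : ((K q.r) ^ (1 / 2 : ℂ) + ((q.r : ℂ) - q.r) *
        ((1 / 2 : ℂ) * (K q.r) ^ ((1 / 2 : ℂ) - 1) *
          (k.map (algebraMap ℝ ℂ)).derivative.eval (q.r : ℂ))) ≠ 0 := by
      intro h
      rw [h] at hpos0
      simp at hpos0
    have hstrict : HasStrictDerivAt φ ((K q.r) ^ (1 / 2 : ℂ) + ((q.r : ℂ) - q.r) *
        ((1 / 2 : ℂ) * (K q.r) ^ ((1 / 2 : ℂ) - 1) *
          (k.map (algebraMap ℝ ℂ)).derivative.eval (q.r : ℂ))) q.r := by
      have han : AnalyticAt ℂ φ q.r := by
        rw [Complex.analyticAt_iff_eventually_differentiableAt]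
        filter_upwards [hslit] with w hw
        exact (hφd w hw).differentiableAt
      have := han.hasStrictDerivAt
      rwa [(hφd _ hslit.self_of_nhds).deriv] at this
    obtain ⟨ε2, hε2, h2⟩ := inj_near hstrict hne
    refine ⟨min ε1 ε2, lt_min hε1 hε2, ?_⟩
    have hsq : ∀ w ∈ ball (q.r : ℂ) ε1, q.h.eval w = q.vr + (φ w) ^ 2 := by
      intro w hw
      have h3 : ((K w) ^ (1 / 2 : ℂ)) ^ 2 = K w := by
        rw [← Complex.cpow_nat_mul]
        norm_num
      rw [q.h_eq hk]
      show _ = _ + ((w - q.r) * (K w) ^ (1 / 2 : ℂ)) ^ 2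
      rw [mul_pow, h3]
    have him : ∀ w ∈ ball (q.r : ℂ) ε1, 0 < w.im → 0 < (φ w).im := by
      intro w hw hi
      refine im_pos (f := φ) (x := q.r) (ε := ε1) (fun z hz => (hφd z (h1 z hz).1.1).differentiableAt)
        (fun z hz => ?_) (fun y hy => ?_) hw hi
      · rw [(hφd z (h1 z hz).1.1).deriv]
        exact (h1 z hz).2
      · have h3 := (h1 _ hy).1.2
        rw [hKreal, Complex.ofReal_re] at h3
        simp only [hφ]
        rw [hcp _ h3, ← Complex.ofReal_sub, ← Complex.ofReal_mul, Complex.ofReal_im]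
    intro z1 hz1 z2 hz2 hi1 hi2 he
    have hz1' := ball_subset_ball (min_le_left _ _) hz1
    have hz2' := ball_subset_ball (min_le_left _ _) hz2
    rw [hsq z1 hz1', hsq z2 hz2'] at he
    have h3 : (φ z1) ^ 2 = (φ z2) ^ 2 := by linear_combination he
    rcases sq_eq_sq_iff_eq_or_eq_neg.1 h3 with h4 | h4
    · exact h2 (ball_subset_ball (min_le_right _ _) hz1) (ball_subset_ball (min_le_right _ _) hz2) h4
    · have h5 := him z1 hz1' hi1
      have h6 := him z2 hz2' hi2
      rw [h4, Complex.neg_im] at h5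
      linarith
  · have hne : q.h.derivative.eval z ≠ 0 := by
      rw [Ne, q.crit_iff]
      push Not
      refine ⟨hr, hc, fun h => ?_⟩
      rw [h] at hz
      have : 0 ≤ (conj q.c).im := hz
      rw [Complex.conj_im] at this
      linarith [q.hc]
    obtain ⟨ε, hε, h1⟩ := inj_near (q.h.hasStrictDerivAt z) hne
    exact ⟨ε, hε, fun z1 h2 z2 h3 _ _ h4 => h1 h2 h3 h4⟩

/-- open mapping at a nonreal point -/
theorem RQ.open_at {z : ℂ} (hz : 0 < z.im) (hh : (q.h.eval z).im = 0) (σ : ℝ) (hσ : σ ≠ 0) :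
    ∀ ε > 0, ∃ z1 ∈ ball z ε, 0 < z1.im ∧ 0 < σ * (q.h.eval z1).im := by
  intro ε hε
  have han : AnalyticAt ℂ (fun w => q.h.eval w) z := by
    have := q.h.differentiable.analyticAt z
    exact this
  rcases han.eventually_constant_or_nhds_le_map_nhds with h | h
  · exfalso
    have hinf : {w | q.h.eval w = q.h.eval z}.Infinite := by
      have : {w | q.h.eval w = q.h.eval z} ∈ 𝓝 z := h
      exact infinite_of_mem_nhds z this
    have hfin : {w | q.h.eval w = q.h.eval z}.Finite := by
      have hne : q.h - C (q.h.eval z) ≠ 0 := by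
        intro h0
        have := q.natDegree
        rw [sub_eq_zero] at h0
        rw [h0, Polynomial.natDegree_C] at this
        norm_num at this
      refine ((q.h - C (q.h.eval z)).roots.toFinset.finite_toSet).subset ?_
      intro w hw
      have hw' : q.h.eval w = q.h.eval z := hw
      rw [Finset.mem_coe, Multiset.mem_toFinset, Polynomial.mem_roots hne]
      simp [hw']
    exact hinf hfin
  · have hU : ball z ε ∩ {w | 0 < w.im} ∈ 𝓝 z :=
      inter_mem (ball_mem_nhds z hε) ((isOpen_lt continuous_const Complex.continuous_im).mem_nhds hz)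
    have h1 : (fun w => q.h.eval w) '' (ball z ε ∩ {w | 0 < w.im}) ∈ 𝓝 (q.h.eval z) :=
      h (image_mem_map hU)
    obtain ⟨δ, hδ, h2⟩ := Metric.mem_nhds_iff.1 h1
    set t : ℝ := SignType.sign σ * (δ / 2) with ht
    have h3 : q.h.eval z + t * I ∈ ball (q.h.eval z) δ := by
      rw [mem_ball, dist_eq_norm, add_sub_cancel_left, norm_mul, Complex.norm_I, mul_one,
        Complex.norm_real, Real.norm_eq_abs, ht, abs_mul]
      rcases lt_or_gt_of_ne hσ with h | h
      · have : |δ / 2| = δ / 2 := abs_of_pos (by positivity)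
        simp [sign_neg h, this]; linarith
      · have : |δ / 2| = δ / 2 := abs_of_pos (by positivity)
        simp [sign_pos h, this]; linarith
    obtain ⟨z1, ⟨hz1, hz2⟩, hz3⟩ := h2 h3
    refine ⟨z1, hz1, hz2, ?_⟩
    simp only at hz3
    rw [hz3, Complex.add_im, hh]
    simp only [zero_add, Complex.im_ofReal_mul, Complex.I_im, mul_one]
    rw [ht]
    rcases lt_or_gt_of_ne hσ with h | h
    · simp only [sign_neg h]
      simp
      nlinarith
    · simp only [sign_pos h]
      simp
      positivity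

/-- directions at the real critical point -/
theorem RQ.crit_dir (σ : ℝ) (hσ : σ = 1 ∨ σ = -1) :
    ∀ ε > 0, ∃ z1 ∈ ball (q.r : ℂ) ε, 0 < z1.im ∧ 0 < σ * (q.h.eval z1).im := by
  intro ε hε
  obtain ⟨k, hk, hkr⟩ := q.exists_k
  set K : ℂ → ℂ := fun w => (k.map (algebraMap ℝ ℂ)).eval w with hK
  have hKreal : ∀ y : ℝ, K y = (k.eval y : ℝ) := by
    intro y
    have := Polynomial.eval₂_at_apply (p := k) (algebraMap ℝ ℂ) y
    simpa [hK, Polynomial.eval_map] using this
  have hKc : Continuous K := (k.map (algebraMap ℝ ℂ)).continuous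
  have hkpos : ∀ᶠ w in 𝓝 (q.r : ℂ), 0 < (K w).re := by
    refine (Complex.continuous_re.comp hKc).continuousAt.eventually (lt_mem_nhds ?_)
    simp only [Function.comp]
    rw [hKreal]
    simpa using hkr
  obtain ⟨δ, hδ, h1⟩ := Metric.eventually_nhds_iff_ball.1 hkpos
  set ρ : ℝ := min ε δ / 2 with hρ
  have hρ0 : 0 < ρ := by have := lt_min hε hδ; positivity
  set z1 : ℂ := q.r + ρ * (σ + I) / 2 with hz1
  have hnorm : ‖z1 - q.r‖ < min ε δ := by
    rw [hz1, add_sub_cancel_left, norm_div, norm_mul, Complex.norm_real, Real.norm_eq_abs,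
      abs_of_pos hρ0]
    have h2 : ‖(σ : ℂ) + I‖ ≤ 2 := by
      refine (norm_add_le _ _).trans ?_
      rw [Complex.norm_real, Complex.norm_I]
      rcases hσ with h | h <;> rw [h] <;> norm_num
    have h3 : ‖(2 : ℂ)‖ = 2 := by norm_num
    rw [h3]
    have h4 : ρ * ‖(σ : ℂ) + I‖ / 2 ≤ ρ := by nlinarith
    have h5 : ρ < min ε δ := by rw [hρ]; linarith [lt_min hε hδ]
    linarith
  refine ⟨z1, ?_, ?_, ?_⟩
  · rw [mem_ball, dist_eq_norm]
    exact hnorm.trans_le (min_le_left _ _)
  · rw [hz1]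
    simp
    exact hρ0
  · have h2 := h1 z1 (by rw [mem_ball, dist_eq_norm]; exact hnorm.trans_le (min_le_right _ _))
    rw [q.h_eq hk]
    have h3 : (z1 - q.r) ^ 2 = ((σ * (ρ ^ 2 / 2) : ℝ) : ℂ) * I := by
      rw [hz1, add_sub_cancel_left]
      have h4 : (σ : ℂ) ^ 2 = 1 := by
        rcases hσ with h | h <;> rw [h] <;> norm_num
      push_cast
      linear_combination (ρ : ℂ) ^ 2 / 4 * h4 + (ρ : ℂ) ^ 2 / 4 * Complex.I_sq
    have h4 : ((q.vr : ℂ) + (z1 - q.r) ^ 2 * (k.map (algebraMap ℝ ℂ)).eval z1).im =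
        σ * (ρ ^ 2 / 2) * (K z1).re := by
      rw [h3, Complex.add_im, Complex.ofReal_im, zero_add, mul_assoc, Complex.im_ofReal_mul,
        Complex.I_mul_im]
    rw [h4]
    have h5 : σ * σ = 1 := by rcases hσ with h | h <;> rw [h] <;> norm_num
    have h6 : 0 < ρ ^ 2 / 2 * (K z1).re := by positivity
    nlinarith

/-- accessibility from the side where the value is in the upper half plane -/
theorem RQ.access_up {z : ℂ} (hz : z ∈ HH) (hh : (q.h.eval z).im = 0)
    (hc : z.im ≠ 0 ∨ q.r ≤ z.re) : ∀ ε > 0, ∃ z1 ∈ ball z ε, 0 < z1.im ∧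
      0 < (q.h.eval z1).im := by
  intro ε hε
  by_cases hi : z.im = 0
  · have hre : q.r ≤ z.re := hc.resolve_left (fun h => h hi)
    have hzr : z = (z.re : ℂ) := by
      apply Complex.ext <;> simp [hi]
    rcases hre.eq_or_lt with h | h
    · obtain ⟨z1, h1, h2, h3⟩ := q.crit_dir 1 (Or.inl rfl) ε hε
      refine ⟨z1, ?_, h2, by linarith⟩
      rw [hzr, ← h]
      exact h1
    · obtain ⟨δ, hδ, h1⟩ := q.local_right h
      have hm := lt_min hε hδ
      refine ⟨(z.re : ℂ) + ((min ε δ / 2 : ℝ) : ℂ) * I, ?_, ?_, ?_⟩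
      · rw [hzr]
        simp only [Complex.ofReal_re]
        rw [mem_ball, dist_eq_norm, add_sub_cancel_left, norm_mul, Complex.norm_I, mul_one,
          Complex.norm_real, Real.norm_eq_abs, abs_of_pos (by positivity)]
        linarith [min_le_left ε δ]
      · rw [Complex.add_im, Complex.ofReal_im, Complex.im_ofReal_mul, Complex.I_im]
        linarith
      · apply h1
        · rw [mem_ball, dist_eq_norm, add_sub_cancel_left, norm_mul, Complex.norm_I, mul_one,
            Complex.norm_real, Real.norm_eq_abs, abs_of_pos (by positivity)]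
          linarith [min_le_right ε δ]
        · rw [Complex.add_im, Complex.ofReal_im, Complex.im_ofReal_mul, Complex.I_im]
          linarith
  · have hp : 0 < z.im := lt_of_le_of_ne hz (Ne.symm hi)
    obtain ⟨z1, h1, h2, h3⟩ := q.open_at hp hh 1 one_ne_zero ε hε
    exact ⟨z1, h1, h2, by linarith⟩

theorem RQ.access_down {z : ℂ} (hz : z ∈ HH) (hh : (q.h.eval z).im = 0)
    (hc : z.im ≠ 0 ∨ z.re ≤ q.r) : ∀ ε > 0, ∃ z1 ∈ ball z ε, 0 < z1.im ∧
      (q.h.eval z1).im < 0 := by
  intro ε hε
  by_cases hi : z.im = 0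
  · have hre : z.re ≤ q.r := hc.resolve_left (fun h => h hi)
    have hzr : z = (z.re : ℂ) := by
      apply Complex.ext <;> simp [hi]
    rcases hre.eq_or_lt with h | h
    · obtain ⟨z1, h1, h2, h3⟩ := q.crit_dir (-1) (Or.inr rfl) ε hε
      refine ⟨z1, ?_, h2, by linarith⟩
      rw [hzr, h]
      exact h1
    · obtain ⟨δ, hδ, h1⟩ := q.local_left h
      have hm := lt_min hε hδ
      refine ⟨(z.re : ℂ) + ((min ε δ / 2 : ℝ) : ℂ) * I, ?_, ?_, ?_⟩
      · rw [hzr]
        simp only [Complex.ofReal_re]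
        rw [mem_ball, dist_eq_norm, add_sub_cancel_left, norm_mul, Complex.norm_I, mul_one,
          Complex.norm_real, Real.norm_eq_abs, abs_of_pos (by positivity)]
        linarith [min_le_left ε δ]
      · rw [Complex.add_im, Complex.ofReal_im, Complex.im_ofReal_mul, Complex.I_im]
        linarith
      · apply h1
        · rw [mem_ball, dist_eq_norm, add_sub_cancel_left, norm_mul, Complex.norm_I, mul_one,
            Complex.norm_real, Real.norm_eq_abs, abs_of_pos (by positivity)]
          linarith [min_le_right ε δ]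
        · rw [Complex.add_im, Complex.ofReal_im, Complex.im_ofReal_mul, Complex.I_im]
          linarith
  · have hp : 0 < z.im := lt_of_le_of_ne hz (Ne.symm hi)
    obtain ⟨z1, h1, h2, h3⟩ := q.open_at hp hh (-1) (by norm_num) ε hε
    exact ⟨z1, h1, h2, by linarith⟩

end

end Pool.TU
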