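import Pool.Agent.Helper71.TU.AllDefs

/-! # TU C1: local Böttcher coordinate -/

open Complex Set Filter Topology Metric Polynomial ComplexConjugate Pool.Tuning

namespace Pool.TU

noncomputable section

/-- the germ -/
private def C1_F (d : ℕ) (e : ℂ → ℂ) (z : ℂ) : ℂ := z ^ d * e z

/-- the series -/
private def C1_S (d : ℕ) (e : ℂ → ℂ) (z : ℂ) : ℂ :=
  ∑' n : ℕ, ((d : ℂ) ^ (n + 1))⁻¹ * Complex.log (e ((C1_F d e)^[n] z))

private lemma C1_injOn {φ : ℂ → ℂ} (h : HasStrictDerivAt φ 1 0) :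
    ∃ r > 0, InjOn φ (ball 0 r) := by
  have h1 := (h.hasStrictFDerivAt_equiv one_ne_zero).eventually_left_inverse
  obtain ⟨r, hr, hr2⟩ := Metric.eventually_nhds_iff_ball.1 h1
  refine ⟨r, hr, ?_⟩
  intro x hx y hy hxy
  have a := hr2 x hx
  have b := hr2 y hy
  rw [hxy] at a
  exact a.symm.trans b

/-- Böttcher's theorem for a superattracting germ `F z = z ^ d * e z`, `e 0 = 1`, real. -/
theorem boettcher_local (d : ℕ) (hd : 2 ≤ d) (e : ℂ → ℂ) (he : AnalyticAt ℂ e 0) (he0 : e 0 = 1)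
    (hreal : ∀ᶠ z in 𝓝 (0 : ℂ), e (conj z) = conj (e z)) :
    ∃ (φ : ℂ → ℂ) (r : ℝ), 0 < r ∧ DifferentiableOn ℂ φ (ball 0 r) ∧ InjOn φ (ball 0 r) ∧
      φ 0 = 0 ∧ deriv φ 0 = 1 ∧ (∀ z ∈ ball (0 : ℂ) r, z ^ d * e z ∈ ball (0 : ℂ) r) ∧
      (∀ z ∈ ball (0 : ℂ) r, φ (z ^ d * e z) = φ z ^ d) ∧
      (∀ z ∈ ball (0 : ℂ) r, φ (conj z) = conj (φ z)) := by
  set F := C1_F d e with hF
  set S := C1_S d e with hS
  have hd0 : (d : ℂ) ≠ 0 := by
    have : d ≠ 0 := by omega
    exact_mod_cast this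
  have hdR : (2 : ℝ) ≤ d := by exact_mod_cast hd
  -- the good radius
  have hev : ∀ᶠ z in 𝓝 (0 : ℂ), AnalyticAt ℂ e z ∧ ‖e z - 1‖ < 1 / 2 ∧ e (conj z) = conj (e z) := by
    refine he.eventually_analyticAt.and (Filter.Eventually.and ?_ hreal)
    have hc : ContinuousAt (fun z => ‖e z - 1‖) 0 := (he.continuousAt.sub continuousAt_const).norm
    have : (fun z => ‖e z - 1‖) 0 < 1 / 2 := by simp [he0]
    exact hc.eventually_lt continuousAt_const this
  obtain ⟨r1, hr1, hr1b⟩ := Metric.eventually_nhds_iff_ball.1 hev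
  set r0 : ℝ := min r1 (1 / 4) with hr0
  have hr0p : 0 < r0 := lt_min hr1 (by norm_num)
  have hr0q : r0 ≤ 1 / 4 := min_le_right _ _
  have hb : ∀ z ∈ ball (0 : ℂ) r0, AnalyticAt ℂ e z ∧ ‖e z - 1‖ < 1 / 2 ∧
      e (conj z) = conj (e z) := fun z hz => hr1b z (ball_subset_ball (min_le_left _ _) hz)
  have hnorm_e : ∀ z ∈ ball (0 : ℂ) r0, ‖e z‖ ≤ 3 / 2 := by
    intro z hz
    have h1 : ‖e z‖ ≤ ‖e z - 1‖ + ‖(1 : ℂ)‖ := by
      have := norm_add_le (e z - 1) 1
      simpa using this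
    have h2 := (hb z hz).2.1
    simp at h1
    linarith
  have hslit : ∀ z ∈ ball (0 : ℂ) r0, e z ∈ slitPlane := by
    intro z hz
    have h2 := (hb z hz).2.1
    left
    have h3 : |(e z - 1).re| ≤ ‖e z - 1‖ := abs_re_le_norm _
    have h4 : (e z - 1).re = (e z).re - 1 := by simp
    rw [h4] at h3
    have := (abs_le.1 h3).1
    linarith
  have hne : ∀ z ∈ ball (0 : ℂ) r0, e z ≠ 0 := fun z hz => slitPlane_ne_zero (hslit z hz)
  have hFle : ∀ z ∈ ball (0 : ℂ) r0, ‖F z‖ ≤ ‖z‖ / 2 := by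
    intro z hz
    have hz1 : ‖z‖ < 1 / 4 := lt_of_lt_of_le (mem_ball_zero_iff.1 hz) hr0q
    have h1 : ‖z‖ ^ d ≤ ‖z‖ ^ 2 := pow_le_pow_of_le_one (norm_nonneg _) (by linarith) hd
    have h2 : ‖F z‖ = ‖z‖ ^ d * ‖e z‖ := by simp [hF, C1_F]
    rw [h2]
    have h3 := hnorm_e z hz
    have h4 : ‖z‖ ^ d * ‖e z‖ ≤ ‖z‖ ^ 2 * (3 / 2) :=
      mul_le_mul h1 h3 (norm_nonneg _) (by positivity)
    nlinarith [norm_nonneg z]
  have hFball : ∀ r, r ≤ r0 → ∀ z ∈ ball (0 : ℂ) r, F z ∈ ball (0 : ℂ) r := by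
    intro r hr z hz
    have h1 := hFle z (ball_subset_ball hr hz)
    rw [mem_ball_zero_iff] at hz ⊢
    have := norm_nonneg z
    linarith
  have hFit : ∀ n, ∀ z ∈ ball (0 : ℂ) r0, F^[n] z ∈ ball (0 : ℂ) r0 := by
    intro n
    induction n with
    | zero => intro z hz; simpa using hz
    | succ n ih =>
      intro z hz
      rw [Function.iterate_succ_apply]
      exact ih _ (hFball r0 le_rfl z hz)
  have hF0 : F 0 = 0 := by
    simp only [hF, C1_F]
    rw [zero_pow (by omega)]; simp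
  have hFdiff : DifferentiableOn ℂ F (ball 0 r0) := by
    intro z hz
    have : AnalyticAt ℂ e z := (hb z hz).1
    have h2 : DifferentiableAt ℂ F z := by
      have h3 : DifferentiableAt ℂ (fun z => z ^ d * e z) z :=
        (differentiableAt_id.pow d).mul this.differentiableAt
      exact h3
    exact h2.differentiableWithinAt
  have hFitd : ∀ n, DifferentiableOn ℂ (F^[n]) (ball 0 r0) := by
    intro n
    induction n with
    | zero => exact differentiableOn_id
    | succ n ih =>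
      rw [Function.iterate_succ]
      exact ih.comp hFdiff (fun z hz => hFball r0 le_rfl z hz)
  have hLd : DifferentiableOn ℂ (fun z => Complex.log (e z)) (ball 0 r0) := by
    intro z hz
    exact ((hb z hz).1.differentiableAt.clog (hslit z hz)).differentiableWithinAt
  have hLle : ∀ z ∈ ball (0 : ℂ) r0, ‖Complex.log (e z)‖ ≤ 1 := by
    intro z hz
    have h1 := (hb z hz).2.1
    have h2 := Complex.norm_log_one_add_half_le_self (z := e z - 1) h1.le
    rw [add_sub_cancel] at h2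
    linarith
  have hterm : ∀ n, ∀ z ∈ ball (0 : ℂ) r0,
      ‖((d : ℂ) ^ (n + 1))⁻¹ * Complex.log (e (F^[n] z))‖ ≤ (1 / 2 : ℝ) ^ n := by
    intro n z hz
    rw [norm_mul, norm_inv, norm_pow, Complex.norm_natCast]
    have h1 := hLle _ (hFit n z hz)
    have h2 : ((d : ℝ) ^ (n + 1))⁻¹ ≤ (1 / 2 : ℝ) ^ n := by
      rw [one_div, inv_pow]
      apply inv_anti₀ (by positivity)
      calc (2 : ℝ) ^ n ≤ 2 ^ (n + 1) := pow_le_pow_right₀ (by norm_num) (by omega)
        _ ≤ (d : ℝ) ^ (n + 1) := pow_le_pow_left₀ (by norm_num) hdR _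
    calc ((d : ℝ) ^ (n + 1))⁻¹ * ‖Complex.log (e (F^[n] z))‖ ≤ (1 / 2 : ℝ) ^ n * 1 :=
          mul_le_mul h2 h1 (norm_nonneg _) (by positivity)
      _ = _ := mul_one _
  have hsum : Summable (fun n : ℕ => (1 / 2 : ℝ) ^ n) := summable_geometric_two
  have hSd : DifferentiableOn ℂ S (ball 0 r0) := by
    refine Complex.differentiableOn_tsum_of_summable_norm hsum ?_ isOpen_ball hterm
    intro n
    refine DifferentiableOn.const_mul ?_ _
    exact hLd.comp (hFitd n) (hFit n)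
  have hSsum : ∀ z ∈ ball (0 : ℂ) r0,
      Summable (fun n : ℕ => ((d : ℂ) ^ (n + 1))⁻¹ * Complex.log (e (F^[n] z))) := by
    intro z hz
    exact Summable.of_norm_bounded hsum (fun n => hterm n z hz)
  have hS0 : S 0 = 0 := by
    have : ∀ n : ℕ, F^[n] 0 = 0 := fun n => Function.iterate_fixed hF0 n
    simp only [hS, C1_S]
    rw [← hF]
    simp [this, he0]
  have hSfe : ∀ z ∈ ball (0 : ℂ) r0, (d : ℂ) * S z = Complex.log (e z) + S (F z) := by
    intro z hz
    have h1 : S z = ((d : ℂ) ^ (0 + 1))⁻¹ * Complex.log (e (F^[0] z)) +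
        ∑' n : ℕ, ((d : ℂ) ^ (n + 1 + 1))⁻¹ * Complex.log (e (F^[n + 1] z)) :=
      (hSsum z hz).tsum_eq_zero_add
    rw [h1, mul_add, ← tsum_mul_left]
    congr 1
    · simp [hd0]
    · simp only [hS, C1_S, ← hF]
      congr 1
      ext n
      rw [Function.iterate_succ_apply, pow_succ _ (n + 1)]
      field_simp
  set φ : ℂ → ℂ := fun z => z * Complex.exp (S z) with hφ
  have hφd : DifferentiableOn ℂ φ (ball 0 r0) := differentiableOn_id.mul hSd.cexp
  have hS0a : AnalyticAt ℂ S 0 :=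
    hSd.analyticAt (isOpen_ball.mem_nhds (mem_ball_self hr0p))
  have hφderiv : HasStrictDerivAt φ 1 0 := by
    have h1 : HasStrictDerivAt S (deriv S 0) 0 := hS0a.hasStrictDerivAt
    have h2 : HasStrictDerivAt (fun z => z * Complex.exp (S z))
        (1 * Complex.exp (S 0) + 0 * (Complex.exp (S 0) * deriv S 0)) 0 :=
      (hasStrictDerivAt_id (0 : ℂ)).mul h1.cexp
    have h3 : (1 * Complex.exp (S 0) + 0 * (Complex.exp (S 0) * deriv S 0)) = 1 := by
      rw [hS0]; simp
    rw [h3] at h2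
    exact h2
  obtain ⟨r2, hr2, hinj⟩ := C1_injOn hφderiv
  refine ⟨φ, min r0 r2, lt_min hr0p hr2, hφd.mono (ball_subset_ball (min_le_left _ _)),
    hinj.mono (ball_subset_ball (min_le_right _ _)), by simp [hφ], hφderiv.hasDerivAt.deriv,
    fun z hz => hFball _ (min_le_left _ _) z hz, ?_, ?_⟩
  · intro z hz
    have hz0 : z ∈ ball (0 : ℂ) r0 := ball_subset_ball (min_le_left _ _) hz
    change F z * Complex.exp (S (F z)) = (z * Complex.exp (S z)) ^ d
    rw [mul_pow, ← Complex.exp_nat_mul, hSfe z hz0, Complex.exp_add, Complex.exp_log (hne z hz0)]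
    change z ^ d * e z * _ = _
    ring
  · intro z hz
    have hz0 : z ∈ ball (0 : ℂ) r0 := ball_subset_ball (min_le_left _ _) hz
    have hFconj : ∀ z ∈ ball (0 : ℂ) r0, F (conj z) = conj (F z) := by
      intro z hz
      change (conj z) ^ d * e (conj z) = conj (z ^ d * e z)
      rw [(hb z hz).2.2]; simp
    have hit : ∀ n, ∀ z ∈ ball (0 : ℂ) r0, F^[n] (conj z) = conj (F^[n] z) := by
      intro n
      induction n with
      | zero => intro z _; rfl
      | succ n ih =>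
        intro z hz
        rw [Function.iterate_succ_apply, Function.iterate_succ_apply, hFconj z hz]
        exact ih _ (hFball r0 le_rfl z hz)
    have hSc : S (conj z) = conj (S z) := by
      simp only [hS, C1_S, ← hF]
      rw [Complex.conj_tsum]
      congr 1
      ext n
      have hw := hFit n z hz0
      rw [hit n z hz0, (hb _ hw).2.2, Complex.log_conj _ (slitPlane_arg_ne_pi (hslit _ hw))]
      simp
    change conj z * Complex.exp (S (conj z)) = conj (z * Complex.exp (S z))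
    rw [hSc, map_mul, ← Complex.exp_conj]

end

end Pool.TU
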