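import Pool.Agent.Helper71.TU.C2b

/-! # TU C2: Böttcher chart at infinity -/

open Complex Set Filter Topology Metric Polynomial ComplexConjugate Pool.Tuning

namespace Pool.TU

noncomputable section

/-- sectors -/
def c2O (δ a b a' b' : ℝ) : Set ℂ :=
  {t | ‖t‖ ≤ δ ∧ 0 < a * t.re + b * t.im ∧ 0 < a' * t.re + b' * t.im}

theorem c2O_closure {δ a b a' b' : ℝ} {p : ℂ} (hp : p ∈ c2O δ a b a' b') {t : ℂ}
    (h1 : ‖t‖ ≤ δ) (h2 : 0 ≤ a * t.re + b * t.im) (h3 : 0 ≤ a' * t.re + b' * t.im) :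
    t ∈ closure (c2O δ a b a' b') := by
  have hlim : Tendsto (fun s : ℝ => t + (s : ℂ) * (p - t)) (𝓝[>] 0) (𝓝 t) := by
    have hc : Continuous (fun s : ℝ => t + (s : ℂ) * (p - t)) := by fun_prop
    have h0 := hc.tendsto 0
    simp only [ofReal_zero, zero_mul, add_zero] at h0
    exact h0.mono_left nhdsWithin_le_nhds
  refine mem_closure_of_tendsto hlim ?_
  have hev : ∀ᶠ s : ℝ in 𝓝[>] 0, s ∈ Ioo (0 : ℝ) 1 := Ioo_mem_nhdsGT one_pos
  filter_upwards [hev] with s hs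
  obtain ⟨hp1, hp2, hp3⟩ := hp
  have e : t + (s : ℂ) * (p - t) = ((1 - s : ℝ) : ℂ) * t + (s : ℂ) * p := by
    push_cast
    ring
  rw [e]
  have h1s : 0 < 1 - s := by linarith [hs.2]
  refine ⟨?_, ?_, ?_⟩
  · calc ‖((1 - s : ℝ) : ℂ) * t + (s : ℂ) * p‖ ≤ ‖((1 - s : ℝ) : ℂ) * t‖ + ‖(s : ℂ) * p‖ :=
          norm_add_le _ _
      _ = (1 - s) * ‖t‖ + s * ‖p‖ := by
          rw [norm_mul, norm_mul, norm_real, norm_real, Real.norm_eq_abs, Real.norm_eq_abs,
            abs_of_pos h1s, abs_of_pos hs.1]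
      _ ≤ (1 - s) * δ + s * δ := by
          have := hs.1
          gcongr
      _ = δ := by ring
  · simp only [add_re, add_im, re_ofReal_mul, im_ofReal_mul]
    have h4 : 0 ≤ (1 - s) * (a * t.re + b * t.im) := mul_nonneg h1s.le h2
    have h5 : 0 < s * (a * p.re + b * p.im) := mul_pos hs.1 hp2
    nlinarith
  · simp only [add_re, add_im, re_ofReal_mul, im_ofReal_mul]
    have h4 : 0 ≤ (1 - s) * (a' * t.re + b' * t.im) := mul_nonneg h1s.le h3
    have h5 : 0 < s * (a' * p.re + b' * p.im) := mul_pos hs.1 hp3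
    nlinarith

theorem c2O_conn (δ a b a' b' : ℝ) : IsPreconnected (c2O δ a b a' b') := by
  have hlin : ∀ a b : ℝ, Convex ℝ {t : ℂ | 0 < a * t.re + b * t.im} := fun a b =>
    convex_halfSpace_gt (𝕜 := ℝ) (f := fun t : ℂ => a * t.re + b * t.im)
      ⟨fun x y => by simp only [add_re, add_im]; ring,
        fun c x => by simp only [smul_re, smul_im, smul_eq_mul]; ring⟩ 0
  have h1 : Convex ℝ {t : ℂ | ‖t‖ ≤ δ} := by
    have := convex_closedBall (0 : ℂ) δ
    have e : closedBall (0 : ℂ) δ = {t : ℂ | ‖t‖ ≤ δ} := by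
      ext t
      rw [mem_closedBall_zero_iff, mem_setOf_eq]
    rwa [e] at this
  exact (h1.inter ((hlin a b).inter (hlin a' b'))).isPreconnected

/-- two alternatives, one of which holds on a connected set -/
theorem c2_alt {K O : Set ℂ} (hK : IsClosed K) (hO : IsPreconnected O) (hOK : O ⊆ K)
    {f g1 g2 : ℂ → ℂ} (hf : ContinuousOn f K) (h1 : ContinuousOn g1 K) (h2 : ContinuousOn g2 K)
    (hor : ∀ t ∈ O, f t = g1 t ∨ f t = g2 t) (hne : ∀ t ∈ O, ¬ (f t = g1 t ∧ f t = g2 t))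
    (hex : ¬ ∀ t ∈ O, f t = g2 t) : ∀ t ∈ O, f t = g1 t := by
  have hc : ∀ g : ℂ → ℂ, ContinuousOn g K → IsClosed (K ∩ (fun t => (f t, g t)) ⁻¹' diagonal ℂ) :=
    fun g hg => (hf.prodMk hg).preimage_isClosed_of_isClosed hK isClosed_diagonal
  have hpre := isPreconnected_closed_iff.1 hO _ _ (hc g1 h1) (hc g2 h2) (by
    intro t ht
    rcases hor t ht with h | h
    · exact Or.inl ⟨hOK ht, h⟩
    · exact Or.inr ⟨hOK ht, h⟩)
  by_contra hcon
  push Not at hcon hex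
  obtain ⟨t1, ht1, hn1⟩ := hcon
  obtain ⟨t2, ht2, hn2⟩ := hex
  have hA : f t1 = g2 t1 := (hor t1 ht1).resolve_left hn1
  have hB : f t2 = g1 t2 := (hor t2 ht2).resolve_right hn2
  obtain ⟨t, ht, ⟨-, h3⟩, -, h4⟩ := hpre ⟨t2, ht2, hOK ht2, hB⟩ ⟨t1, ht1, hOK ht1, hA⟩
  exact hne t ht ⟨h3, h4⟩

theorem c2_im4 (t : ℂ) : (-t ^ 4).im = -(4 * (t.re * t.im) * (t.re ^ 2 - t.im ^ 2)) := by
  have : t ^ 4 = (t * t) * (t * t) := by ring
  rw [neg_im, this]
  simp only [mul_im, mul_re]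
  ring

theorem c2_HB_closed (δ : ℝ) : IsClosed (HB δ) := by
  have h1 : IsClosed {t : ℂ | ‖t‖ ≤ δ} := isClosed_le continuous_norm continuous_const
  have h2 : IsClosed {t : ℂ | 0 ≤ t.im} := isClosed_le continuous_const continuous_im
  exact h1.inter h2

theorem c2_sq4_cont : Continuous sq4 := by
  unfold sq4
  exact fold_cont.comp (by fun_prop)

theorem c2_sq4_rot {t : ℂ} {w : ℂ} (hw : w ^ 4 = 1) : sq4 (w * t) = sq4 t := by
  rw [sq4, sq4, mul_pow, hw, one_mul]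

theorem c2_neg_I4 : (-I) ^ 4 = 1 := by
  have : (-I) ^ 4 = (I * I) * (I * I) := by ring
  rw [this, I_mul_I]
  norm_num

theorem c2_I4 : I ^ 4 = 1 := by
  have : I ^ 4 = (I * I) * (I * I) := by ring
  rw [this, I_mul_I]
  norm_num

namespace C2D

variable {q : RQ} (d : C2D q) {S : TS} (hS : IsTS q S)

/-- the value -/
def E (t : ℂ) : ℂ := exp (d.c (sq4 t))

/-- its square root -/
def σ (t : ℂ) : ℂ := exp (d.c (sq4 t) / 2)

theorem σ_sq (t : ℂ) : d.σ t ^ 2 = d.E t := by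
  rw [σ, E, ← Complex.exp_nat_mul]
  congr 1
  push_cast
  ring

theorem E_eq {t : ℂ} (ht : t ∈ HB d.δ0) : d.E t = d.M (sq4 t) :=
  d.exp_c (d.mem_cb (sq4_mem d.lt_one.le ht))

theorem E_mem {t : ℂ} (ht : t ∈ HB d.δ0) : d.E t ∈ DD := by
  rw [d.E_eq ht]
  exact d.M_mem (sq4_mem d.lt_one.le ht)

theorem σ_norm {t : ℂ} (ht : t ∈ HB d.δ0) : ‖d.σ t‖ ≤ 1 := by
  have h1 := mem_closedBall_zero_iff.1 (d.E_mem ht)
  rw [← d.σ_sq, norm_pow] at h1
  have h0 := norm_nonneg (d.σ t)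
  by_contra hc
  push Not at hc
  nlinarith

theorem σ_mem {t : ℂ} (ht : t ∈ HB d.δ0) : d.σ t ∈ DD :=
  mem_closedBall_zero_iff.2 (d.σ_norm ht)

theorem nσ_mem {t : ℂ} (ht : t ∈ HB d.δ0) : -d.σ t ∈ DD :=
  mem_closedBall_zero_iff.2 (by rw [norm_neg]; exact d.σ_norm ht)

theorem σ_ne (t : ℂ) : d.σ t ≠ 0 := exp_ne_zero _

theorem E_ne_one {t : ℂ} (ht : t ∈ HB d.δ0) (h0 : t ≠ 0) : d.E t ≠ 1 := by
  intro h
  rw [d.E_eq ht, ← d.M0] at h
  have := d.M_inj (d.mem_cb (sq4_mem d.lt_one.le ht)) (d.mem_cb d.zero_mem) h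
  exact h0 (sq4_eq_zero.1 this)

theorem cont_csq : ContinuousOn (fun t => d.c (sq4 t)) (HB d.δ0) :=
  d.contc.comp c2_sq4_cont.continuousOn fun _ ht => d.mem_cb (sq4_mem d.lt_one.le ht)

theorem cont_E : ContinuousOn d.E (HB d.δ0) := d.cont_csq.cexp

theorem cont_σ : ContinuousOn d.σ (HB d.δ0) := (d.cont_csq.div_const 2).cexp

theorem cont_M : ContinuousOn d.M (HB d.δ0) := d.contM.mono fun _ ht => d.mem_cb ht

include hS in
/-- the four possibilities -/
theorem cases4 {t : ℂ} (ht : t ∈ HB d.δ0) : (d.M t = S.Θ (d.σ t) ∨ d.M t = S.Θ (-d.σ t)) ∨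
    (d.M t = S.G2 (d.E t) ∨ d.M t = S.G4 (d.E t)) := by
  have hF : S.F (d.M t) = d.E t := by rw [d.conj4 hS ht, d.E_eq ht]
  rcases S.cover _ (d.M_mem ht) with ⟨s, hs, h⟩ | ⟨w, hw, h⟩ | ⟨w, hw, h⟩
  · left
    rw [← h, S.FΘ s hs, ← d.σ_sq] at hF
    rcases sq_eq_sq_iff_eq_or_eq_neg.1 hF with h1 | h1
    · left; rw [← h, h1]
    · right; rw [← h, h1]
  · right; left
    rw [← h, S.F2 w hw] at hF
    rw [← h, hF]
  · right; right
    rw [← h, S.F4 w hw] at hF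
    rw [← h, hF]

include hS in
theorem caseΘ {t : ℂ} (ht : t ∈ HB d.δ0) (h : 0 < (-t ^ 4).im) :
    d.M t = S.Θ (-d.σ t) ∨ d.M t = S.Θ (d.σ t) := by
  have h0 : t ≠ 0 := by
    rintro rfl
    simp at h
  have h1 := d.h_z_im' ht h0 h
  rcases d.cases4 hS ht with h2 | h2 | h2
  · exact h2.symm
  · exfalso
    have := hS.im2 (d.z t) (d.z_mem ht h0) ⟨d.E t, d.E_mem ht, by rw [d.mm_z ht h0, h2]⟩
    linarith
  · exfalso
    have := hS.im4 (d.z t) (d.z_mem ht h0) ⟨d.E t, d.E_mem ht, by rw [d.mm_z ht h0, h2]⟩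
    linarith

include hS in
theorem caseG {t : ℂ} (ht : t ∈ HB d.δ0) (h : (-t ^ 4).im < 0) :
    d.M t = S.G4 (d.E t) ∨ d.M t = S.G2 (d.E t) := by
  have h0 : t ≠ 0 := by
    rintro rfl
    simp at h
  have h1 : ¬ 0 ≤ (q.h.eval (d.z t)).im := fun hc => by
    have := (d.h_z_im ht h0).1 hc
    linarith
  rcases d.cases4 hS ht with (h2 | h2) | h2
  · exact absurd (hS.imΘ (d.z t) (d.z_mem ht h0) ⟨d.σ t, d.σ_mem ht, by rw [d.mm_z ht h0, h2]⟩) h1
  · exact absurd (hS.imΘ (d.z t) (d.z_mem ht h0) ⟨-d.σ t, d.nσ_mem ht,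
      by rw [d.mm_z ht h0, h2]⟩) h1
  · exact h2.symm

theorem ne_G {t : ℂ} (ht : t ∈ HB d.δ0) (h0 : t ≠ 0) :
    ¬ (d.M t = S.G4 (d.E t) ∧ d.M t = S.G2 (d.E t)) := by
  rintro ⟨h1, h2⟩
  exact d.E_ne_one ht h0 (S.sep24 _ (d.E_mem ht) _ (d.E_mem ht) (h2.symm.trans h1)).1

theorem ne_Θ {t : ℂ} (ht : t ∈ HB d.δ0) (h0 : t ≠ 0) :
    ¬ (d.M t = S.Θ (-d.σ t) ∧ d.M t = S.Θ (d.σ t)) := by
  rintro ⟨h1, h2⟩
  have hE := d.E_ne_one ht h0
  have hσ := d.σ_ne t
  rw [← d.σ_sq] at hE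
  rcases S.injΘ _ (d.σ_mem ht) _ (d.nσ_mem ht) (h2.symm.trans h1) with h | ⟨h, -⟩ | ⟨h, -⟩
  · have : d.σ t = 0 := by linear_combination h / 2
    exact hσ this
  · exact hE (by rw [h]; ring)
  · exact hE (by rw [h]; ring)

/-- the open sectors -/
theorem O_sub {a b a' b' : ℝ} (h : ∀ t : ℂ, 0 < a * t.re + b * t.im → 0 < a' * t.re + b' * t.im →
    0 ≤ t.im) : c2O d.δ0 a b a' b' ⊆ HB d.δ0 := fun t ht => ⟨ht.1, h t ht.2.1 ht.2.2⟩

include hS in
theorem sec4 : ∀ t ∈ HB d.δ0, t.im ≤ t.re → d.M t = S.G4 (d.E t) := by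
  have hpos := d.pos
  have hsub : c2O d.δ0 0 1 1 (-1) ⊆ HB d.δ0 := d.O_sub fun t h1 _ => by linarith
  have hp : ((d.δ0 / 2 : ℝ) : ℂ) + ((d.δ0 / 4 : ℝ) : ℂ) * I ∈ c2O d.δ0 0 1 1 (-1) := by
    refine ⟨?_, ?_, ?_⟩
    · refine (norm_add_le _ _).trans ?_
      rw [norm_mul, norm_I, mul_one, norm_real, norm_real, Real.norm_eq_abs, Real.norm_eq_abs,
        abs_of_pos (by positivity), abs_of_pos (by positivity)]
      linarith
    · simp
      positivity
    · simp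
      linarith
  have hG2 : ContinuousOn (fun t => S.G2 (d.E t)) (HB d.δ0) :=
    S.cont2.comp d.cont_E fun t ht => d.E_mem ht
  have hG4 : ContinuousOn (fun t => S.G4 (d.E t)) (HB d.δ0) :=
    S.cont4.comp d.cont_E fun t ht => d.E_mem ht
  have hcl : ∀ t ∈ HB d.δ0, t.im ≤ t.re → t ∈ closure (c2O d.δ0 0 1 1 (-1)) := by
    intro t ht h
    refine c2O_closure hp ht.1 ?_ ?_
    · have := ht.2
      linarith
    · linarith
  have hKc : IsClosed (HB d.δ0) := c2_HB_closed _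
  have hopen : ∀ t ∈ c2O d.δ0 0 1 1 (-1), d.M t = S.G4 (d.E t) := by
    have him : ∀ t ∈ c2O d.δ0 0 1 1 (-1), (-t ^ 4).im < 0 := by
      rintro t ⟨-, h1, h2⟩
      rw [c2_im4]
      have h3 : 0 < t.im := by linarith
      have h4 : t.im < t.re := by linarith
      have h5 : 0 < t.re * t.im := mul_pos (h3.trans h4) h3
      have h6 : 0 < t.re ^ 2 - t.im ^ 2 := by nlinarith
      have := mul_pos h5 h6
      linarith
    have hne0 : ∀ t ∈ c2O d.δ0 0 1 1 (-1), t ≠ 0 := by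
      rintro t ⟨-, h1, -⟩ rfl
      simp at h1
    refine c2_alt hKc (c2O_conn _ _ _ _ _) hsub d.cont_M hG4 hG2
      (fun t ht => d.caseG hS (hsub ht) (him t ht)) (fun t ht => d.ne_G (hsub ht) (hne0 t ht)) ?_
    intro hall
    set x : ℂ := (d.δ0 : ℂ) with hx
    have hxHB : x ∈ HB d.δ0 := ⟨by rw [hx, norm_real, Real.norm_eq_abs, abs_of_pos hpos],
      by rw [hx, ofReal_im]⟩
    have hx0 : x ≠ 0 := by
      rw [hx]
      exact_mod_cast hpos.ne'
    have hcx : x ∈ closure (c2O d.δ0 0 1 1 (-1)) :=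
      hcl x hxHB (by rw [hx, ofReal_im, ofReal_re]; exact hpos.le)
    have heq : EqOn d.M (fun t => S.G2 (d.E t)) (closure (c2O d.δ0 0 1 1 (-1))) :=
      EqOn.of_subset_closure (s := c2O d.δ0 0 1 1 (-1)) (fun t ht => hall t ht)
        (d.cont_M.mono (hKc.closure_subset_iff.2 hsub)) (hG2.mono (hKc.closure_subset_iff.2 hsub))
        subset_closure le_rfl
    have h1 := heq hcx
    have h2 : ‖d.M x‖ = 1 := (d.M_norm hxHB).2 (by rw [hx, ofReal_im])
    rw [h1] at h2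
    exact d.E_ne_one hxHB hx0 (S.circ2 _ (d.E_mem hxHB) h2)
  have heq : EqOn d.M (fun t => S.G4 (d.E t)) (closure (c2O d.δ0 0 1 1 (-1))) :=
    EqOn.of_subset_closure (s := c2O d.δ0 0 1 1 (-1)) (fun t ht => hopen t ht)
      (d.cont_M.mono (hKc.closure_subset_iff.2 hsub)) (hG4.mono (hKc.closure_subset_iff.2 hsub))
      subset_closure le_rfl
  exact fun t ht h => heq (hcl t ht h)

include hS in
theorem sec1 : ∀ t ∈ HB d.δ0, t.im ≤ -t.re → d.M t = S.Θ (-d.σ t) := by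
  have hpos := d.pos
  have hsub : c2O d.δ0 0 1 (-1) (-1) ⊆ HB d.δ0 := d.O_sub fun t h1 _ => by linarith
  have hp : ((-(d.δ0 / 2) : ℝ) : ℂ) + ((d.δ0 / 4 : ℝ) : ℂ) * I ∈ c2O d.δ0 0 1 (-1) (-1) := by
    refine ⟨?_, ?_, ?_⟩
    · refine (norm_add_le _ _).trans ?_
      rw [norm_mul, norm_I, mul_one, norm_real, norm_real, Real.norm_eq_abs, Real.norm_eq_abs,
        abs_neg, abs_of_pos (by positivity), abs_of_pos (by positivity)]
      linarith
    · simp
      positivity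
    · simp
      linarith
  have hΘ : ContinuousOn (fun t => S.Θ (d.σ t)) (HB d.δ0) :=
    S.contΘ.comp d.cont_σ fun t ht => d.σ_mem ht
  have hΘ' : ContinuousOn (fun t => S.Θ (-d.σ t)) (HB d.δ0) :=
    S.contΘ.comp d.cont_σ.neg fun t ht => d.nσ_mem ht
  have hcl : ∀ t ∈ HB d.δ0, t.im ≤ -t.re → t ∈ closure (c2O d.δ0 0 1 (-1) (-1)) := by
    intro t ht h
    refine c2O_closure hp ht.1 ?_ ?_
    · have := ht.2
      linarith
    · linarith
  have hKc : IsClosed (HB d.δ0) := c2_HB_closed _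
  have hopen : ∀ t ∈ c2O d.δ0 0 1 (-1) (-1), d.M t = S.Θ (-d.σ t) := by
    have him : ∀ t ∈ c2O d.δ0 0 1 (-1) (-1), 0 < (-t ^ 4).im := by
      rintro t ⟨-, h1, h2⟩
      rw [c2_im4]
      have h3 : 0 < t.im := by linarith
      have h4 : t.im < -t.re := by linarith
      have h5 : t.re * t.im < 0 := mul_neg_of_neg_of_pos (by linarith) h3
      have h6 : 0 < t.re ^ 2 - t.im ^ 2 := by nlinarith
      have := mul_neg_of_neg_of_pos h5 h6
      linarith
    have hne0 : ∀ t ∈ c2O d.δ0 0 1 (-1) (-1), t ≠ 0 := by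
      rintro t ⟨-, h1, -⟩ rfl
      simp at h1
    refine c2_alt hKc (c2O_conn _ _ _ _ _) hsub d.cont_M hΘ' hΘ
      (fun t ht => d.caseΘ hS (hsub ht) (him t ht)) (fun t ht => d.ne_Θ (hsub ht) (hne0 t ht)) ?_
    intro hall
    set x : ℂ := ((-d.δ0 : ℝ) : ℂ) with hx
    have hxHB : x ∈ HB d.δ0 := ⟨by rw [hx, norm_real, Real.norm_eq_abs, abs_neg,
      abs_of_pos hpos], by rw [hx, ofReal_im]⟩
    have hcx : x ∈ closure (c2O d.δ0 0 1 (-1) (-1)) :=
      hcl x hxHB (by rw [hx, ofReal_im, ofReal_re]; linarith)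
    have heq : EqOn d.M (fun t => S.Θ (d.σ t)) (closure (c2O d.δ0 0 1 (-1) (-1))) :=
      EqOn.of_subset_closure (s := c2O d.δ0 0 1 (-1) (-1)) (fun t ht => hall t ht)
        (d.cont_M.mono (hKc.closure_subset_iff.2 hsub)) (hΘ.mono (hKc.closure_subset_iff.2 hsub))
        subset_closure le_rfl
    have h1 := heq hcx
    have h2 : ‖d.M x‖ = 1 := (d.M_norm hxHB).2 (by rw [hx, ofReal_im])
    rw [h1] at h2
    -- the argument of `σ x`
    have hsq : sq4 x = ((-(d.δ0 ^ 4) : ℝ) : ℂ) := by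
      have e : -x ^ 4 = ((-(d.δ0 ^ 4) : ℝ) : ℂ) := by
        rw [hx]
        push_cast
        ring
      rw [sq4, e, c2_fold_of (by rw [ofReal_im])]
    have hδ4 : d.δ0 ^ 4 ≤ d.δ0 := by
      calc d.δ0 ^ 4 ≤ d.δ0 ^ 1 := pow_le_pow_of_le_one hpos.le d.lt_one.le (by norm_num)
        _ = d.δ0 := pow_one _
    have hneg : (d.c (sq4 x)).im < 0 := by
      rw [hsq]
      refine d.realneg ?_ ?_
      · have : 0 < d.δ0 ^ 4 := by positivity
        linarith
      · linarith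
    have hlt : |(d.c (sq4 x)).im| < 1 := d.im_lt (d.mem_cb (sq4_mem d.lt_one.le hxHB))
    have hσim : (d.σ x).im < 0 := by
      rw [σ, im_exp']
      · simp only [div_ofNat_im]
        linarith
      · simp only [div_ofNat_im]
        rw [abs_lt] at hlt ⊢
        constructor <;> linarith [hlt.1, hlt.2]
    rcases S.circΘ _ (d.σ_mem hxHB) h2 with h3 | ⟨θ, hθ, h3⟩
    · rw [h3] at hσim
      simp at hσim
    · rw [h3, ec] at hσim
      have hκ := S.κ_mem
      have e : (((θ / 2 : ℝ) : ℂ) * I) = ((θ / 2 : ℝ) : ℂ) * I := rfl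
      have h4 : (exp (((θ / 2 : ℝ) : ℂ) * I)).im = Real.sin (θ / 2) := exp_ofReal_mul_I_im _
      have h5 : 0 ≤ Real.sin (θ / 2) :=
        Real.sin_nonneg_of_nonneg_of_le_pi (by linarith [hκ.1, hθ.1]) (by linarith [hθ.2])
      push_cast at hσim h4
      rw [h4] at hσim
      linarith
  have heq : EqOn d.M (fun t => S.Θ (-d.σ t)) (closure (c2O d.δ0 0 1 (-1) (-1))) :=
    EqOn.of_subset_closure (s := c2O d.δ0 0 1 (-1) (-1)) (fun t ht => hopen t ht)
      (d.cont_M.mono (hKc.closure_subset_iff.2 hsub)) (hΘ'.mono (hKc.closure_subset_iff.2 hsub))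
      subset_closure le_rfl
  exact fun t ht h => heq (hcl t ht h)

theorem E_rot {t w : ℂ} (hw : w ^ 4 = 1) : d.E (w * t) = d.E t := by
  rw [E, E, c2_sq4_rot hw]

theorem σ_rot {t w : ℂ} (hw : w ^ 4 = 1) : d.σ (w * t) = d.σ t := by
  rw [σ, σ, c2_sq4_rot hw]

include hS in
theorem sec2 : ∀ t ∈ HB d.δ0, t.re ≤ 0 → -t.re ≤ t.im → d.M t = S.G2 (d.E t) := by
  have hpos := d.pos
  have hsub : c2O d.δ0 (-1) 0 1 1 ⊆ HB d.δ0 := d.O_sub fun t h1 _ => by linarith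
  have hp : ((-(d.δ0 / 4) : ℝ) : ℂ) + ((d.δ0 / 2 : ℝ) : ℂ) * I ∈ c2O d.δ0 (-1) 0 1 1 := by
    refine ⟨?_, ?_, ?_⟩
    · refine (norm_add_le _ _).trans ?_
      rw [norm_mul, norm_I, mul_one, norm_real, norm_real, Real.norm_eq_abs, Real.norm_eq_abs,
        abs_neg, abs_of_pos (by positivity), abs_of_pos (by positivity)]
      linarith
    · simp
      positivity
    · simp
      linarith
  have hG2 : ContinuousOn (fun t => S.G2 (d.E t)) (HB d.δ0) :=
    S.cont2.comp d.cont_E fun t ht => d.E_mem ht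
  have hKc : IsClosed (HB d.δ0) := c2_HB_closed _
  have hopen : ∀ t ∈ c2O d.δ0 (-1) 0 1 1, d.M t = S.G2 (d.E t) := by
    intro t ht
    have htHB := hsub ht
    obtain ⟨-, h1, h2⟩ := ht
    have h3 : t.re < 0 := by linarith
    have h4 : -t.re < t.im := by linarith
    have him : (-t ^ 4).im < 0 := by
      rw [c2_im4]
      have h5 : t.re * t.im < 0 := mul_neg_of_neg_of_pos h3 (by linarith)
      have h6 : t.re ^ 2 - t.im ^ 2 < 0 := by nlinarith
      have := mul_pos_of_neg_of_neg h5 h6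
      linarith
    have ht' : -I * t ∈ HB d.δ0 := by
      refine ⟨?_, ?_⟩
      · rw [norm_mul, norm_neg, norm_I, one_mul]
        exact htHB.1
      · simp
        linarith
    have h7 : d.M (-I * t) = S.G4 (d.E t) := by
      rw [← d.E_rot (t := t) c2_neg_I4]
      refine d.sec4 hS _ ht' ?_
      simp
      linarith
    refine (d.caseG hS htHB him).resolve_left fun h8 => ?_
    have h9 := d.M_inj (d.mem_cb ht') (d.mem_cb htHB) (h7.trans h8.symm)
    have h10 := congrArg Complex.re h9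
    simp at h10
    linarith
  have heq : EqOn d.M (fun t => S.G2 (d.E t)) (closure (c2O d.δ0 (-1) 0 1 1)) :=
    EqOn.of_subset_closure (s := c2O d.δ0 (-1) 0 1 1) (fun t ht => hopen t ht)
      (d.cont_M.mono (hKc.closure_subset_iff.2 hsub)) (hG2.mono (hKc.closure_subset_iff.2 hsub))
      subset_closure le_rfl
  intro t ht h1 h2
  exact heq (c2O_closure hp ht.1 (by linarith) (by linarith))

include hS in
theorem sec3 : ∀ t ∈ HB d.δ0, 0 ≤ t.re → t.re ≤ t.im → d.M t = S.Θ (d.σ t) := by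
  have hpos := d.pos
  have hsub : c2O d.δ0 1 0 (-1) 1 ⊆ HB d.δ0 := d.O_sub fun t h1 _ => by linarith
  have hp : ((d.δ0 / 4 : ℝ) : ℂ) + ((d.δ0 / 2 : ℝ) : ℂ) * I ∈ c2O d.δ0 1 0 (-1) 1 := by
    refine ⟨?_, ?_, ?_⟩
    · refine (norm_add_le _ _).trans ?_
      rw [norm_mul, norm_I, mul_one, norm_real, norm_real, Real.norm_eq_abs, Real.norm_eq_abs,
        abs_of_pos (by positivity), abs_of_pos (by positivity)]
      linarith
    · simp
      positivity
    · simp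
      linarith
  have hΘ : ContinuousOn (fun t => S.Θ (d.σ t)) (HB d.δ0) :=
    S.contΘ.comp d.cont_σ fun t ht => d.σ_mem ht
  have hKc : IsClosed (HB d.δ0) := c2_HB_closed _
  have hopen : ∀ t ∈ c2O d.δ0 1 0 (-1) 1, d.M t = S.Θ (d.σ t) := by
    intro t ht
    have htHB := hsub ht
    obtain ⟨-, h1, h2⟩ := ht
    have h3 : 0 < t.re := by linarith
    have h4 : t.re < t.im := by linarith
    have him : 0 < (-t ^ 4).im := by
      rw [c2_im4]
      have h5 : 0 < t.re * t.im := mul_pos h3 (by linarith)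
      have h6 : t.re ^ 2 - t.im ^ 2 < 0 := by nlinarith
      have := mul_neg_of_pos_of_neg h5 h6
      linarith
    have ht' : I * t ∈ HB d.δ0 := by
      refine ⟨?_, ?_⟩
      · rw [norm_mul, norm_I, one_mul]
        exact htHB.1
      · simp
        linarith
    have h7 : d.M (I * t) = S.Θ (-d.σ t) := by
      rw [← d.σ_rot (t := t) c2_I4]
      refine d.sec1 hS _ ht' ?_
      simp
      linarith
    refine (d.caseΘ hS htHB him).resolve_left fun h8 => ?_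
    have h9 := d.M_inj (d.mem_cb ht') (d.mem_cb htHB) (h7.trans h8.symm)
    have h10 := congrArg Complex.re h9
    simp at h10
    linarith
  have heq : EqOn d.M (fun t => S.Θ (d.σ t)) (closure (c2O d.δ0 1 0 (-1) 1)) :=
    EqOn.of_subset_closure (s := c2O d.δ0 1 0 (-1) 1) (fun t ht => hopen t ht)
      (d.cont_M.mono (hKc.closure_subset_iff.2 hsub)) (hΘ.mono (hKc.closure_subset_iff.2 hsub))
      subset_closure le_rfl
  intro t ht h1 h2
  exact heq (c2O_closure hp ht.1 (by linarith) (by linarith))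

/-- the fourth root in the third sector -/
theorem root3 {δ : ℝ} (hδ : 0 < δ) {t : ℂ} (ht : t ∈ HB (δ ^ 4)) :
    ∃ s : ℂ, s ∈ HB δ ∧ 0 ≤ s.re ∧ s.re ≤ s.im ∧ -s ^ 4 = t := by
  set α : ℝ := arg t with hα
  have hα0 : 0 ≤ α := arg_nonneg_iff.2 ht.2
  have hα1 : α ≤ Real.pi := arg_le_pi t
  set ρ : ℝ := ‖t‖ ^ ((1 : ℝ) / 4) with hρ
  have hρ0 : 0 ≤ ρ := Real.rpow_nonneg (norm_nonneg _) _
  have hρ4 : ρ ^ 4 = ‖t‖ := by
    rw [hρ, ← Real.rpow_natCast, ← Real.rpow_mul (norm_nonneg _)]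
    norm_num
  have hρδ : ρ ≤ δ := by
    have : ρ ^ 4 ≤ δ ^ 4 := by rw [hρ4]; exact ht.1
    exact (pow_le_pow_iff_left₀ hρ0 hδ.le (by norm_num)).1 this
  set β : ℝ := (α + Real.pi) / 4 with hβ
  have hpi := Real.pi_pos
  have hβ1 : Real.pi / 4 ≤ β := by rw [hβ]; linarith
  have hβ2 : β ≤ Real.pi / 2 := by rw [hβ]; linarith
  have hcos : 0 ≤ Real.cos β := Real.cos_nonneg_of_neg_pi_div_two_le_of_le (by linarith) hβ2
  have hcs : Real.cos β ≤ Real.sin β := by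
    rw [← Real.sin_pi_div_two_sub]
    exact Real.sin_le_sin_of_le_of_le_pi_div_two (by linarith) hβ2 (by linarith)
  refine ⟨(ρ : ℂ) * exp ((β : ℂ) * I), ⟨?_, ?_⟩, ?_, ?_, ?_⟩
  · rw [norm_mul, norm_exp_ofReal_mul_I, mul_one, norm_real, Real.norm_eq_abs, abs_of_nonneg hρ0]
    exact hρδ
  · rw [im_ofReal_mul, exp_ofReal_mul_I_im]
    exact mul_nonneg hρ0 (hcos.trans hcs)
  · rw [re_ofReal_mul, exp_ofReal_mul_I_re]
    exact mul_nonneg hρ0 hcos
  · rw [re_ofReal_mul, im_ofReal_mul, exp_ofReal_mul_I_im, exp_ofReal_mul_I_re]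
    exact mul_le_mul_of_nonneg_left hcs hρ0
  · rw [mul_pow, ← Complex.exp_nat_mul]
    have e1 : ((4 : ℕ) : ℂ) * ((β : ℂ) * I) = (α : ℂ) * I + Real.pi * I := by
      rw [hβ]
      push_cast
      ring
    have e2 : (ρ : ℂ) ^ 4 = (‖t‖ : ℂ) := by
      rw [← hρ4]
      push_cast
      ring
    rw [e1, exp_add, exp_pi_mul_I, e2]
    have e3 := norm_mul_exp_arg_mul_I t
    rw [← hα] at e3
    rw [mul_neg_one, mul_neg, neg_neg]
    exact e3

include hS in
theorem level {δ : ℝ} (h0 : 0 < δ) (hδ : δ < d.δ0) : ∀ z ∈ DD, ∀ t ∈ HB (δ ^ 4),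
    S.F z = exp (d.c t) → ∃ t' ∈ HB δ, z = exp (d.c t') := by
  intro z hz t ht hF
  obtain ⟨s, hs, hre, hle, hs4⟩ := root3 h0 ht
  have hmono : ∀ {u : ℂ}, u ∈ HB δ → u ∈ HB d.δ0 := fun hu => ⟨hu.1.trans hδ.le, hu.2⟩
  have him : 0 ≤ s.im := hs.2
  -- the four roots
  have hs3 : sq4 s = t := by rw [sq4, hs4, c2_fold_of ht.2]
  have hs1 : sq4 (I * s) = t := by rw [c2_sq4_rot c2_I4, hs3]
  have hconj4 : ∀ w : ℂ, w ^ 4 = 1 → sq4 (w * conj s) = t := by
    intro w hw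
    have e : -(w * conj s) ^ 4 = conj t := by
      rw [mul_pow, hw, one_mul, ← hs4, map_neg, map_pow]
    rw [sq4, e]
    rcases ht.2.eq_or_lt with h | h
    · rw [conj_eq_iff_im.2 h.symm, c2_fold_of h.le]
    · rw [c2_fold_of_neg (by rw [conj_im]; linarith), conj_conj]
  have hn : ‖conj s‖ = ‖s‖ := RCLike.norm_conj s
  have hm1 : I * s ∈ HB δ := by
    refine ⟨by rw [norm_mul, norm_I, one_mul]; exact hs.1, ?_⟩
    simp
    exact hre
  have hm2 : (-1) * conj s ∈ HB δ := by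
    refine ⟨by rw [norm_mul, norm_neg, norm_one, one_mul, hn]; exact hs.1, ?_⟩
    simp
    exact him
  have hm4 : I * conj s ∈ HB δ := by
    refine ⟨by rw [norm_mul, norm_I, one_mul, hn]; exact hs.1, ?_⟩
    simp
    exact hre
  rcases S.cover z hz with ⟨x, hx, h⟩ | ⟨w, hw, h⟩ | ⟨w, hw, h⟩
  · have h1 : x ^ 2 = exp (d.c t / 2) ^ 2 := by
      rw [← S.FΘ x hx, h, hF, ← Complex.exp_nat_mul]
      congr 1
      push_cast
      ring
    rcases sq_eq_sq_iff_eq_or_eq_neg.1 h1 with h2 | h2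
    · refine ⟨s, hs, ?_⟩
      rw [d.exp_c (d.mem_cb (hmono hs)), d.sec3 hS s (hmono hs) hre hle, σ, hs3, ← h2, h]
    · refine ⟨I * s, hm1, ?_⟩
      rw [d.exp_c (d.mem_cb (hmono hm1)), d.sec1 hS _ (hmono hm1) ?_, σ, hs1, ← h2, h]
      simp
      exact hle
  · have h1 : w = exp (d.c t) := by rw [← hF, ← h, S.F2 w hw]
    refine ⟨(-1) * conj s, hm2, ?_⟩
    rw [d.exp_c (d.mem_cb (hmono hm2)), d.sec2 hS _ (hmono hm2) ?_ ?_, E,
      hconj4 (-1) (by norm_num), ← h1, h]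
    · simp
      exact hre
    · simp
      exact hle
  · have h1 : w = exp (d.c t) := by rw [← hF, ← h, S.F4 w hw]
    refine ⟨I * conj s, hm4, ?_⟩
    rw [d.exp_c (d.mem_cb (hmono hm4)), d.sec4 hS _ (hmono hm4) ?_, E,
      hconj4 I c2_I4, ← h1, h]
    simp
    exact hle

end C2D

theorem exists_nb (q : RQ) {S : TS} (hS : IsTS q S) : Nonempty (NB S) := by
  obtain ⟨d⟩ := c2d_exists q
  have hE : ∀ t ∈ HB d.δ0, exp (d.c t) = d.M t := fun t ht => d.exp_c (d.mem_cb ht)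
  exact ⟨{
    δ0 := d.δ0
    c := d.c
    pos := d.pos
    lt := d.lt_one
    cont := d.contc.mono fun t ht => d.mem_cb ht
    zero := d.c0
    maps := fun t ht => by
      have h1 := mem_closedBall_zero_iff.1 (d.M_mem ht)
      change (log (d.M t)).re ≤ 0
      rw [log_re]
      exact Real.log_nonpos (norm_nonneg _) h1
    im_lt := fun t ht => d.im_lt (d.mem_cb ht)
    inj := fun t ht t' ht' h => by
      have h1 : d.M t = d.M t' := by rw [← hE t ht, ← hE t' ht', h]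
      exact d.M_inj (d.mem_cb ht) (d.mem_cb ht') h1
    real := fun t ht => by
      have hp : 0 < ‖d.M t‖ := norm_pos_iff.2 (d.M_ne (d.mem_cb ht))
      rw [← d.M_norm ht]
      change (log (d.M t)).re = 0 ↔ _
      rw [log_re, Real.log_eq_zero]
      constructor
      · rintro (h | h | h) <;> linarith
      · intro h
        right; left
        exact h
    realpos := fun x h1 h2 => d.realpos h1 h2
    realneg := fun x h1 h2 => d.realneg h1 h2
    openo := fun δ h1 h2 => d.openo h1 h2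
    conj4 := fun t ht => by
      rw [hE t ht, hE _ (C2D.sq4_mem d.lt_one.le ht)]
      exact d.conj4 hS ht
    s1 := fun t ht h => by
      rw [hE t ht]
      exact d.sec1 hS t ht h
    s2 := fun t ht h1 h2 => by
      rw [hE t ht]
      exact d.sec2 hS t ht h1 h2
    s3 := fun t ht h1 h2 => by
      rw [hE t ht]
      exact d.sec3 hS t ht h1 h2
    s4 := fun t ht h => by
      rw [hE t ht]
      exact d.sec4 hS t ht h
    level := fun δ h1 h2 => d.level hS h1 h2 }⟩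

end

end Pool.TU
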