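import Pool.Agent.Helper71.TU.C2
import Pool.Agent.Helper71.TU.A2

/-! # TU C3: pairs of neighbourhoods of infinity -/

open Complex Set Filter Topology Metric Polynomial ComplexConjugate Pool.Tuning

namespace Pool.TU

noncomputable section

private lemma C3_HB_mono {a b : ℝ} (h : a ≤ b) : HB a ⊆ HB b := fun _ ht => ⟨ht.1.trans h, ht.2⟩

private lemma C3_zero_mem {δ : ℝ} (h : 0 ≤ δ) : (0 : ℂ) ∈ HB δ := ⟨by simpa using h, by simp⟩

private lemma C3_fold_im (w : ℂ) : 0 ≤ (fold w).im := by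
  unfold fold
  split_ifs with h
  · exact h
  · rw [Complex.conj_im]; push Not at h; linarith

private lemma C3_fold_norm (w : ℂ) : ‖fold w‖ = ‖w‖ := by
  unfold fold
  split_ifs with h
  · rfl
  · exact Complex.norm_conj w

private lemma C3_sq4_norm (t : ℂ) : ‖sq4 t‖ = ‖t‖ ^ 4 := by
  unfold sq4
  rw [C3_fold_norm, norm_neg, norm_pow]

private lemma C3_sq4_im (t : ℂ) : 0 ≤ (sq4 t).im := C3_fold_im _

private lemma C3_sq4_le {t : ℂ} (h1 : ‖t‖ ≤ 1) : ‖sq4 t‖ ≤ ‖t‖ := by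
  rw [C3_sq4_norm]
  calc ‖t‖ ^ 4 ≤ ‖t‖ ^ 1 := pow_le_pow_of_le_one (norm_nonneg _) h1 (by norm_num)
    _ = ‖t‖ := pow_one _

private lemma C3_sq4_mem {δ : ℝ} (h1 : δ ≤ 1) {t : ℂ} (ht : t ∈ HB δ) : sq4 t ∈ HB δ :=
  ⟨(C3_sq4_le (ht.1.trans h1)).trans ht.1, C3_sq4_im t⟩

private lemma C3_compact (δ : ℝ) : IsCompact (HB δ) := by
  have h1 : HB δ = closedBall 0 δ ∩ {t | 0 ≤ t.im} := by
    ext t; simp [HB]
  rw [h1]
  exact (isCompact_closedBall 0 δ).inter_right (isClosed_le continuous_const Complex.continuous_im)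

private lemma C3_convex (δ : ℝ) : Convex ℝ (HB δ) := by
  have h1 : HB δ = closedBall 0 δ ∩ {t | 0 ≤ t.im} := by
    ext t; simp [HB]
  rw [h1]
  refine (convex_closedBall 0 δ).inter ?_
  exact convex_halfSpace_ge (f := fun z : ℂ => z.im) ⟨by simp, by simp⟩ 0

private lemma C3_real_mem {δ x : ℝ} (h : |x| ≤ δ) : (x : ℂ) ∈ HB δ := ⟨by simpa using h, by simp⟩

/-- restriction of the chart -/
private def C3_restrict {S : TS} (C : NB S) (δ : ℝ) (h0 : 0 < δ) (h1 : δ ≤ C.δ0) : NB S where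
  δ0 := δ
  c := C.c
  pos := h0
  lt := h1.trans_lt C.lt
  cont := C.cont.mono (C3_HB_mono h1)
  zero := C.zero
  maps := C.maps.mono_left (C3_HB_mono h1)
  im_lt := fun t ht => C.im_lt t (C3_HB_mono h1 ht)
  inj := C.inj.mono (C3_HB_mono h1)
  real := fun t ht => C.real t (C3_HB_mono h1 ht)
  realpos := fun x hx hx' => C.realpos x hx (hx'.trans h1)
  realneg := fun x hx hx' => C.realneg x hx (by linarith)
  openo := fun δ' h h' => C.openo δ' h (h'.trans_le h1)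
  conj4 := fun t ht => C.conj4 t (C3_HB_mono h1 ht)
  s1 := fun t ht => C.s1 t (C3_HB_mono h1 ht)
  s2 := fun t ht => C.s2 t (C3_HB_mono h1 ht)
  s3 := fun t ht => C.s3 t (C3_HB_mono h1 ht)
  s4 := fun t ht => C.s4 t (C3_HB_mono h1 ht)
  level := fun δ' h h' => C.level δ' h (h'.trans_le h1)

/-- the chart can be shrunk -/
theorem NB.shrink {S : TS} (C : NB S) (ε : ℝ) (hε : 0 < ε) :
    ∃ C' : NB S, ∀ t ∈ HB C'.δ0, ‖exp (C'.c t) - 1‖ < ε := by
  have hc : ContinuousWithinAt (fun t => ‖exp (C.c t) - 1‖) (HB C.δ0) 0 :=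
    ((C.cont.cexp.sub continuousOn_const).norm) 0 (C3_zero_mem C.pos.le)
  have h0 : (fun t => ‖exp (C.c t) - 1‖) 0 < ε := by simpa [C.zero] using hε
  have hev := hc.eventually_lt continuousWithinAt_const h0
  rw [eventually_nhdsWithin_iff, Metric.eventually_nhds_iff_ball] at hev
  obtain ⟨r, hr, hrb⟩ := hev
  refine ⟨C3_restrict C (min C.δ0 (r / 2)) (lt_min C.pos (by positivity)) (min_le_left _ _), ?_⟩
  intro t ht
  have ht' : ‖t‖ ≤ min C.δ0 (r / 2) := ht.1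
  refine hrb t ?_ (C3_HB_mono (min_le_left _ _) ht)
  rw [mem_ball_zero_iff]
  have := ht'.trans (min_le_right _ _)
  linarith

private lemma C3_exp_inj {S : TS} (C : NB S) :
    InjOn (fun t => exp (C.c t)) (HB C.δ0) := by
  intro t ht t' ht' h
  obtain ⟨n, hn⟩ := Complex.exp_eq_exp_iff_exists_int.1 h
  have h1 := abs_lt.1 (C.im_lt t ht)
  have h2 := abs_lt.1 (C.im_lt t' ht')
  have h3 : (C.c t).im = (C.c t').im + n * (2 * Real.pi) := by
    rw [hn]; simp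
  have hpi := Real.pi_gt_three
  have hn0 : n = 0 := by
    by_contra hne
    rcases lt_or_gt_of_ne hne with h4 | h4
    · have h5 : (n : ℝ) ≤ -1 := by exact_mod_cast (by omega : n ≤ -1)
      nlinarith
    · have h5 : (1 : ℝ) ≤ n := by exact_mod_cast (by omega : 1 ≤ n)
      nlinarith
  rw [hn0] at hn
  exact C.inj ht ht' (by simpa using hn)

/-- the boundary function -/
private def C3_a {S : TS} (C : NB S) (x : ℝ) : ℝ := (C.c x).im

private lemma C3_c_real {S : TS} (C : NB S) {x : ℝ} (hx : |x| ≤ C.δ0) :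
    C.c x = (C3_a C x : ℂ) * I := by
  have h := (C.real x (C3_real_mem hx)).2 (by simp)
  apply Complex.ext
  · simp [h]
  · simp [C3_a]

private lemma C3_exp_real {S : TS} (C : NB S) {x : ℝ} (hx : |x| ≤ C.δ0) :
    exp (C.c x) = ec (C3_a C x) := by
  rw [C3_c_real C hx]; rfl

private lemma C3_a_cont {S : TS} (C : NB S) : ContinuousOn (C3_a C) (Icc (-C.δ0) C.δ0) := by
  have h1 : ContinuousOn (fun x : ℝ => C.c x) (Icc (-C.δ0) C.δ0) :=
    C.cont.comp Complex.continuous_ofReal.continuousOn (fun x hx => C3_real_mem (abs_le.2 hx))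
  exact Complex.continuous_im.comp_continuousOn h1

private lemma C3_a_zero {S : TS} (C : NB S) : C3_a C 0 = 0 := by simp [C3_a, C.zero]

private lemma C3_a_mono {S : TS} (C : NB S) : StrictMonoOn (C3_a C) (Icc (-C.δ0) C.δ0) := by
  have hp := C.pos
  have hinj : InjOn (C3_a C) (Icc (-C.δ0) C.δ0) := by
    intro x hx y hy hxy
    have h1 := C3_c_real C (abs_le.2 hx)
    have h2 := C3_c_real C (abs_le.2 hy)
    rw [hxy, ← h2] at h1
    have h3 := C.inj (C3_real_mem (abs_le.2 hx)) (C3_real_mem (abs_le.2 hy)) h1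
    exact_mod_cast h3
  rcases ContinuousOn.strictMonoOn_of_injOn_Icc' (by linarith : -C.δ0 ≤ C.δ0) (C3_a_cont C) hinj
    with h | h
  · exact h
  · exfalso
    have h1 := h (show (0 : ℝ) ∈ Icc (-C.δ0) C.δ0 from ⟨by linarith, hp.le⟩)
      (show C.δ0 ∈ Icc (-C.δ0) C.δ0 from ⟨by linarith, le_rfl⟩) hp
    rw [C3_a_zero] at h1
    have h2 := C.realpos C.δ0 hp le_rfl
    simp only [C3_a] at h1
    linarith

private lemma C3_a_lt {S : TS} (C : NB S) {x : ℝ} (hx : |x| ≤ C.δ0) : |C3_a C x| < 1 :=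
  C.im_lt x (C3_real_mem hx)

/-- parametrisation of the right side -/
private lemma C3_sol1 {S : TS} (C : NB S) {δ : ℝ} (h0 : 0 < δ) (h1 : δ < C.δ0) {θ : ℝ}
    (ha : 0 ≤ θ) (hb : θ ≤ C3_a C δ) : ∃ x ∈ Icc 0 δ, C3_a C x = θ := by
  have hc : ContinuousOn (C3_a C) (Icc 0 δ) :=
    (C3_a_cont C).mono (Icc_subset_Icc (by linarith) h1.le)
  have h2 := intermediate_value_Icc h0.le hc
  have h3 : θ ∈ Icc (C3_a C 0) (C3_a C δ) := ⟨by rw [C3_a_zero]; exact ha, hb⟩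
  exact h2 h3

private lemma C3_sol2 {S : TS} (C : NB S) {δ : ℝ} (h0 : 0 < δ) (h1 : δ < C.δ0) {θ : ℝ}
    (ha : θ ≤ 2 * Real.pi) (hb : 2 * Real.pi + C3_a C (-δ) ≤ θ) :
    ∃ x ∈ Icc (-δ) 0, 2 * Real.pi + C3_a C x = θ := by
  have hc : ContinuousOn (C3_a C) (Icc (-δ) 0) :=
    (C3_a_cont C).mono (Icc_subset_Icc (by linarith) (by linarith [C.pos]))
  have h2 := intermediate_value_Icc (by linarith : -δ ≤ 0) hc
  have h3 : θ - 2 * Real.pi ∈ Icc (C3_a C (-δ)) (C3_a C 0) :=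
    ⟨by linarith, by rw [C3_a_zero]; linarith⟩
  obtain ⟨x, hx, hx'⟩ := h2 h3
  exact ⟨x, hx, by rw [hx']; ring⟩

private lemma C3_ec_per (θ : ℝ) : ec (2 * Real.pi + θ) = ec θ := by
  unfold ec
  push_cast
  rw [add_mul, Complex.exp_add, Complex.exp_two_pi_mul_I, one_mul]

/-- angles of points of the half disc on the circle -/
private lemma C3_ang {S : TS} (C : NB S) {θ : ℝ} (hθ : θ ∈ Icc 0 (2 * Real.pi)) {t : ℂ}
    (ht : t ∈ HB C.δ0) (h : ec θ = exp (C.c t)) :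
    ∃ x : ℝ, t = x ∧ |x| ≤ C.δ0 ∧ ((0 ≤ x ∧ θ = C3_a C x) ∨
      (x ≤ 0 ∧ θ = 2 * Real.pi + C3_a C x)) := by
  have hre : (C.c t).re = 0 := by
    have h1 : ‖ec θ‖ = ‖exp (C.c t)‖ := by rw [h]
    rw [Complex.norm_exp] at h1
    unfold ec at h1
    rw [Complex.norm_exp_ofReal_mul_I] at h1
    have := Real.exp_eq_one_iff (C.c t).re
    exact this.1 h1.symm
  have him := (C.real t ht).1 hre
  have htx : t = (t.re : ℂ) := by
    apply Complex.ext
    · simp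
    · simp [him]
  have hx : |t.re| ≤ C.δ0 := by
    have := ht.1
    rw [htx] at this
    simpa using this
  refine ⟨t.re, htx, hx, ?_⟩
  rw [htx, C3_exp_real C hx] at h
  unfold ec at h
  obtain ⟨n, hn⟩ := Complex.exp_eq_exp_iff_exists_int.1 h
  have h3 : θ = C3_a C t.re + n * (2 * Real.pi) := by
    have h4 := congrArg Complex.im hn
    simpa using h4
  have h5 := abs_lt.1 (C3_a_lt C hx)
  have hpi := Real.pi_gt_three
  have hn0 : n = 0 ∨ n = 1 := by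
    by_contra hne
    push Not at hne
    have h6 : n ≤ -1 ∨ 2 ≤ n := by omega
    rcases h6 with h6 | h6
    · have h7 : (n : ℝ) ≤ -1 := by exact_mod_cast h6
      nlinarith [hθ.1]
    · have h7 : (2 : ℝ) ≤ n := by exact_mod_cast h6
      nlinarith [hθ.2]
  have hp := C.pos
  rcases hn0 with h6 | h6
  · left
    rw [h6] at h3
    have h7 : θ = C3_a C t.re := by simpa using h3
    refine ⟨?_, h7⟩
    by_contra hneg
    push Not at hneg
    have h8 := C3_a_mono C (abs_le.1 hx) (show (0 : ℝ) ∈ Icc (-C.δ0) C.δ0 from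
      ⟨by linarith, hp.le⟩) hneg
    rw [C3_a_zero] at h8
    linarith [hθ.1]
  · right
    rw [h6] at h3
    have h7 : θ = 2 * Real.pi + C3_a C t.re := by rw [h3]; push_cast; ring
    refine ⟨?_, h7⟩
    by_contra hneg
    push Not at hneg
    have h8 := C3_a_mono C (show (0 : ℝ) ∈ Icc (-C.δ0) C.δ0 from
      ⟨by linarith, hp.le⟩) (abs_le.1 hx) hneg
    rw [C3_a_zero] at h8
    linarith [hθ.2]

private lemma C3_arc {S : TS} (C : NB S) {δ : ℝ} (h0 : 0 < δ) (h1 : δ < C.δ0) {θ : ℝ}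
    (hθ : θ ∈ Icc 0 (2 * Real.pi)) : ec θ ∈ (fun t => exp (C.c t)) '' HB δ ↔
      θ ≤ C3_a C δ ∨ 2 * Real.pi + C3_a C (-δ) ≤ θ := by
  have hp := C.pos
  have hm1 : δ ∈ Icc (-C.δ0) C.δ0 := ⟨by linarith, h1.le⟩
  have hm2 : -δ ∈ Icc (-C.δ0) C.δ0 := ⟨by linarith, by linarith⟩
  constructor
  · rintro ⟨t, ht, h⟩
    obtain ⟨x, hx, hx1, hx2⟩ := C3_ang C hθ (C3_HB_mono h1.le ht) h.symm
    have hx3 : |x| ≤ δ := by
      have := ht.1
      rw [hx] at this
      simpa using this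
    rcases hx2 with ⟨_, h2⟩ | ⟨_, h2⟩
    · left
      rw [h2]
      exact (C3_a_mono C).monotoneOn (abs_le.1 hx1) hm1 (abs_le.1 hx3).2
    · right
      rw [h2]
      have := (C3_a_mono C).monotoneOn hm2 (abs_le.1 hx1) (abs_le.1 hx3).1
      linarith
  · rintro (h | h)
    · obtain ⟨x, hx, hx'⟩ := C3_sol1 C h0 h1 hθ.1 h
      have habs : |x| ≤ δ := abs_le.2 ⟨by linarith [hx.1], hx.2⟩
      refine ⟨x, C3_real_mem habs, ?_⟩
      change exp (C.c x) = _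
      rw [C3_exp_real C (habs.trans h1.le), hx']
    · obtain ⟨x, hx, hx'⟩ := C3_sol2 C h0 h1 hθ.2 h
      have habs : |x| ≤ δ := abs_le.2 ⟨hx.1, by linarith [hx.2]⟩
      refine ⟨x, C3_real_mem habs, ?_⟩
      change exp (C.c x) = _
      rw [C3_exp_real C (habs.trans h1.le), ← hx', C3_ec_per]

private lemma C3_arco {S : TS} (C : NB S) {δ : ℝ} (h0 : 0 < δ) (h1 : δ < C.δ0) {θ : ℝ}
    (hθ : θ ∈ Icc 0 (2 * Real.pi)) :
    ec θ ∈ (fun t => exp (C.c t)) '' {t | ‖t‖ < δ ∧ 0 ≤ t.im} ↔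
      θ < C3_a C δ ∨ 2 * Real.pi + C3_a C (-δ) < θ := by
  have hp := C.pos
  have hm1 : δ ∈ Icc (-C.δ0) C.δ0 := ⟨by linarith, h1.le⟩
  have hm2 : -δ ∈ Icc (-C.δ0) C.δ0 := ⟨by linarith, by linarith⟩
  constructor
  · rintro ⟨t, ht, h⟩
    obtain ⟨x, hx, hx1, hx2⟩ := C3_ang C hθ
      (show t ∈ HB C.δ0 from ⟨ht.1.le.trans h1.le, ht.2⟩) h.symm
    have hx3 : |x| < δ := by
      have := ht.1
      rw [hx] at this
      simpa using this
    rcases hx2 with ⟨_, h2⟩ | ⟨_, h2⟩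
    · left
      rw [h2]
      exact (C3_a_mono C) (abs_le.1 hx1) hm1 (abs_lt.1 hx3).2
    · right
      rw [h2]
      have := (C3_a_mono C) hm2 (abs_le.1 hx1) (abs_lt.1 hx3).1
      linarith
  · rintro (h | h)
    · obtain ⟨x, hx, hx'⟩ := C3_sol1 C h0 h1 hθ.1 h.le
      have hxδ : x < δ := by
        rcases hx.2.lt_or_eq with h2 | h2
        · exact h2
        · rw [h2] at hx'; linarith
      have habs : |x| < δ := abs_lt.2 ⟨by linarith [hx.1], hxδ⟩
      refine ⟨x, ⟨by simpa using habs, by simp⟩, ?_⟩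
      change exp (C.c x) = _
      rw [C3_exp_real C (habs.le.trans h1.le), hx']
    · obtain ⟨x, hx, hx'⟩ := C3_sol2 C h0 h1 hθ.2 h.le
      have hxδ : -δ < x := by
        rcases hx.1.lt_or_eq with h2 | h2
        · exact h2
        · rw [← h2] at hx'; linarith
      have habs : |x| < δ := abs_lt.2 ⟨hxδ, by linarith [hx.2]⟩
      refine ⟨x, ⟨by simpa using habs, by simp⟩, ?_⟩
      change exp (C.c x) = _
      rw [C3_exp_real C (habs.le.trans h1.le), ← hx', C3_ec_per]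

/-- the neighbourhood -/
private def C3_NS {S : TS} (C : NB S) (δ : ℝ) (h0 : 0 < δ) (h1 : δ < C.δ0)
    (hre : ∀ t ∈ HB C.δ0, 0 < (exp (C.c t)).re) : NS S where
  N := (fun t => exp (C.c t)) '' HB δ
  No := (fun t => exp (C.c t)) '' {t | ‖t‖ < δ ∧ 0 ≤ t.im}
  closedN := ((C3_compact δ).image_of_continuousOn
    (C.cont.cexp.mono (C3_HB_mono h1.le))).isClosed
  subN := by
    rintro _ ⟨t, ht, rfl⟩
    have h2 : (C.c t).re ≤ 0 := C.maps (C3_HB_mono h1.le ht)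
    simp only [DD, mem_closedBall_zero_iff]
    rw [Complex.norm_exp]
    exact Real.exp_le_one_iff.2 h2
  No_sub := by
    rintro _ ⟨t, ht, rfl⟩
    exact ⟨t, ⟨ht.1.le, ht.2⟩, rfl⟩
  No_open := C.openo δ h0 h1
  one_mem := ⟨0, ⟨by simpa using h0, by simp⟩, by simp [C.zero]⟩
  FN := by
    rintro _ ⟨t, ht, rfl⟩
    have h2 := C.conj4 t (C3_HB_mono h1.le ht)
    simp only [h2]
    exact ⟨sq4 t, C3_sq4_mem (h1.le.trans C.lt.le) ht, rfl⟩
  FNo := by
    rintro _ ⟨t, ht, rfl⟩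
    have h2 := C.conj4 t ⟨ht.1.le.trans h1.le, ht.2⟩
    simp only [h2]
    refine ⟨sq4 t, ⟨(C3_sq4_le (ht.1.le.trans (h1.le.trans C.lt.le))).trans_lt ht.1,
      C3_sq4_im t⟩, rfl⟩
  conn := (C3_convex δ).isPreconnected.image _ (C.cont.cexp.mono (C3_HB_mono h1.le))
  repos := by
    rintro _ ⟨t, ht, rfl⟩
    exact hre t (C3_HB_mono h1.le ht)

private lemma C3_descent {X Y Z : Type*} [TopologicalSpace X] [TopologicalSpace Y] [T2Space Y]
    [TopologicalSpace Z] {K : Set X} (hK : IsCompact K) {τ : X → Y} {σ : X → Z} {P : Y → Z}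
    (hτ : ContinuousOn τ K) (hσ : ContinuousOn σ K) (hP : ∀ t ∈ K, P (τ t) = σ t) :
    ContinuousOn P (τ '' K) := by
  rw [continuousOn_iff_isClosed]
  intro C hC
  obtain ⟨u, hu, hu2⟩ := continuousOn_iff_isClosed.1 hσ C hC
  refine ⟨τ '' (K ∩ u), ((hK.inter_right hu).image_of_continuousOn
    (hτ.mono inter_subset_left)).isClosed, ?_⟩
  ext y
  constructor
  · rintro ⟨hy1, t, ht, rfl⟩
    refine ⟨⟨t, ⟨ht, ?_⟩, rfl⟩, ⟨t, ht, rfl⟩⟩
    have h1 : t ∈ σ ⁻¹' C ∩ K := ⟨by simpa [hP t ht] using hy1, ht⟩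
    rw [hu2] at h1
    exact h1.1
  · rintro ⟨⟨t, ⟨ht, htu⟩, rfl⟩, _⟩
    refine ⟨?_, ⟨t, ht, rfl⟩⟩
    have h1 : t ∈ u ∩ K := ⟨htu, ht⟩
    rw [← hu2] at h1
    simpa [hP t ht] using h1.1

private lemma C3_re_of {z : ℂ} (h : ‖z - 1‖ < 1 / 2) : 0 < z.re := by
  have h3 : |(z - 1).re| ≤ ‖z - 1‖ := abs_re_le_norm _
  have h4 : (z - 1).re = z.re - 1 := by simp
  rw [h4] at h3
  have := (abs_le.1 h3).1
  linarith

private lemma C3_tpi_half (u : ℂ) : exp ((u + tpi) / 2) = -exp (u / 2) := by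
  have : (u + tpi) / 2 = u / 2 + Real.pi * I := by unfold tpi; ring
  rw [this, Complex.exp_add, Complex.exp_pi_mul_I]; ring

private lemma C3_tpi_mem {u : ℂ} (hu : u ∈ UU) : u + tpi ∈ UU := by
  have h : u.re ≤ 0 := hu
  change (u + tpi).re ≤ 0
  unfold tpi
  simpa using h

open Classical in
/-- the conjugacy -/
private def C3_P {f g : TS} (cf : NB f) (cg : NB g) (δ : ℝ) (z : ℂ) : ℂ :=
  exp (cg.c (Function.invFunOn (fun t => exp (cf.c t)) (HB δ) z))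

open Classical in
/-- the boundary conjugacy -/
private def C3_ρ {f g : TS} (cf : NB f) (cg : NB g) (δ : ℝ) (θ : ℝ) : ℝ :=
  if θ ≤ C3_a cf δ then C3_a cg (Function.invFunOn (C3_a cf) (Icc (-δ) δ) θ)
  else 2 * Real.pi + C3_a cg (Function.invFunOn (C3_a cf) (Icc (-δ) δ) (θ - 2 * Real.pi))

private lemma C3_P_eq {f g : TS} (cf : NB f) (cg : NB g) {δ : ℝ} (h : δ < cf.δ0) {t : ℂ}
    (ht : t ∈ HB δ) : C3_P cf cg δ (exp (cf.c t)) = exp (cg.c t) := by
  unfold C3_P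
  have hinj : InjOn (fun t => exp (cf.c t)) (HB δ) := (C3_exp_inj cf).mono (C3_HB_mono h.le)
  have h1 := hinj.leftInvOn_invFunOn ht
  rw [h1]

private lemma C3_ρ_eq1 {f g : TS} (cf : NB f) (cg : NB g) {δ : ℝ} (h0 : 0 < δ) (h : δ < cf.δ0)
    {x : ℝ} (hx : x ∈ Icc 0 δ) : C3_ρ cf cg δ (C3_a cf x) = C3_a cg x := by
  unfold C3_ρ
  have hp := cf.pos
  have hsub : Icc (-δ) δ ⊆ Icc (-cf.δ0) cf.δ0 := Icc_subset_Icc (by linarith) h.le
  have hx' : x ∈ Icc (-δ) δ := ⟨by linarith [hx.1], hx.2⟩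
  have hle : C3_a cf x ≤ C3_a cf δ :=
    (C3_a_mono cf).monotoneOn (hsub hx') (hsub ⟨by linarith, le_rfl⟩) hx.2
  rw [if_pos hle]
  have hinj : InjOn (C3_a cf) (Icc (-δ) δ) := (C3_a_mono cf).injOn.mono hsub
  rw [hinj.leftInvOn_invFunOn hx']

private lemma C3_ρ_eq2 {f g : TS} (cf : NB f) (cg : NB g) {δ : ℝ} (h0 : 0 < δ) (h : δ < cf.δ0)
    {x : ℝ} (hx : x ∈ Icc (-δ) 0) :
    C3_ρ cf cg δ (2 * Real.pi + C3_a cf x) = 2 * Real.pi + C3_a cg x := by
  unfold C3_ρ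
  have hp := cf.pos
  have hsub : Icc (-δ) δ ⊆ Icc (-cf.δ0) cf.δ0 := Icc_subset_Icc (by linarith) h.le
  have hx' : x ∈ Icc (-δ) δ := ⟨hx.1, by linarith [hx.2]⟩
  have h1 := abs_lt.1 (C3_a_lt cf (abs_le.2 (hsub hx')))
  have h2 := abs_lt.1 (C3_a_lt cf (x := δ) (abs_le.2 (hsub ⟨by linarith, le_rfl⟩)))
  have hpi := Real.pi_gt_three
  rw [if_neg (by push Not; linarith), add_sub_cancel_left]
  have hinj : InjOn (C3_a cf) (Icc (-δ) δ) := (C3_a_mono cf).injOn.mono hsub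
  rw [hinj.leftInvOn_invFunOn hx']

private lemma C3_HC {S : TS} (C : NB S) {δ : ℝ} (h0 : 0 < δ) (h1 : δ < C.δ0)
    (hre : ∀ t ∈ HB C.δ0, 0 < (exp (C.c t)).re) :
    ∃ δ' τ, HC (C3_NS C δ h0 h1 hre).N (C3_NS C δ h0 h1 hre).No δ' τ :=
  ⟨δ, fun t => exp (C.c t), h0, C.cont.cexp.mono (C3_HB_mono h1.le),
    (C3_exp_inj C).mono (C3_HB_mono h1.le), rfl, rfl, (C3_NS C δ h0 h1 hre).subN,
    (C3_NS C δ h0 h1 hre).No_open⟩

/-- Neighbourhoods of infinity with a conjugacy exist, arbitrarily small. -/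
theorem exists_npair {f g : TS} (cf : NB f) (cg : NB g) (ε : ℝ) (hε : 0 < ε) :
    ∃ (M : NS f) (N : NS g) (_ : NPair f g M N), (∀ z ∈ M.N, ‖z - 1‖ < ε) ∧
      (∀ z ∈ N.N, ‖z - 1‖ < ε) := by
  have hε' : 0 < min ε (1 / 2) := lt_min hε (by norm_num)
  obtain ⟨cf, hcf⟩ := cf.shrink _ hε'
  obtain ⟨cg, hcg⟩ := cg.shrink _ hε'
  have hfre : ∀ t ∈ HB cf.δ0, 0 < (exp (cf.c t)).re := fun t ht =>
    C3_re_of ((hcf t ht).trans_le (min_le_right _ _))
  have hgre : ∀ t ∈ HB cg.δ0, 0 < (exp (cg.c t)).re := fun t ht =>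
    C3_re_of ((hcg t ht).trans_le (min_le_right _ _))
  have hpf := cf.pos
  have hpg := cg.pos
  obtain ⟨δ, h0, hδf, hδg⟩ : ∃ δ : ℝ, 0 < δ ∧ δ < cf.δ0 ∧ δ < cg.δ0 := by
    refine ⟨min cf.δ0 cg.δ0 / 2, by positivity, ?_, ?_⟩
    · have := min_le_left cf.δ0 cg.δ0
      have : 0 < min cf.δ0 cg.δ0 := lt_min hpf hpg
      linarith
    · have := min_le_right cf.δ0 cg.δ0
      have : 0 < min cf.δ0 cg.δ0 := lt_min hpf hpg
      linarith
  have hδ1 : δ ≤ 1 := hδf.le.trans cf.lt.le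
  have hsf := C3_HB_mono hδf.le
  have hsg := C3_HB_mono hδg.le
  have hPe : ∀ t ∈ HB δ, C3_P cf cg δ (exp (cf.c t)) = exp (cg.c t) :=
    fun t ht => C3_P_eq cf cg hδf ht
  have hpi := Real.pi_gt_three
  have hzero : (0 : ℂ) ∈ HB δ := C3_zero_mem h0.le
  have hIf : ∀ x ∈ Icc (-δ) δ, x ∈ Icc (-cf.δ0) cf.δ0 :=
    fun x hx => ⟨by linarith [hx.1], by linarith [hx.2]⟩
  have hIg : ∀ x ∈ Icc (-δ) δ, x ∈ Icc (-cg.δ0) cg.δ0 :=
    fun x hx => ⟨by linarith [hx.1], by linarith [hx.2]⟩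
  have hmδ : δ ∈ Icc (-δ) δ := ⟨by linarith, le_rfl⟩
  have hm0 : (0 : ℝ) ∈ Icc (-δ) δ := ⟨by linarith, h0.le⟩
  have hmn : -δ ∈ Icc (-δ) δ := ⟨le_rfl, by linarith⟩
  -- the order of the end points
  have hord : ∀ (S : TS) (C : NB S), δ < C.δ0 → 0 < C3_a C δ ∧
      C3_a C δ < 2 * Real.pi + C3_a C (-δ) ∧ 2 * Real.pi + C3_a C (-δ) < 2 * Real.pi := by
    intro S C hC
    have hpC := C.pos
    have h1 := C.realpos δ h0 hC.le
    have h2 : (C.c ((-δ : ℝ) : ℂ)).im < 0 := C.realneg (-δ) (by linarith) (by linarith)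
    have h3 := abs_lt.1 (C3_a_lt C (x := δ) (abs_le.2 ⟨by linarith, hC.le⟩))
    have h4 := abs_lt.1 (C3_a_lt C (x := -δ) (abs_le.2 ⟨by linarith, by linarith⟩))
    have h2' : C3_a C (-δ) < 0 := h2
    refine ⟨h1, by linarith, by linarith⟩
  let M : NS f := C3_NS cf δ h0 hδf hfre
  let N : NS g := C3_NS cg δ h0 hδg hgre
  have hNP : NPair f g M N :=
    { P := C3_P cf cg δ
      ρ := C3_ρ cf cg δ
      s1 := C3_a cf δ
      s2 := 2 * Real.pi + C3_a cf (-δ)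
      s1' := C3_a cg δ
      s2' := 2 * Real.pi + C3_a cg (-δ)
      cont := C3_descent (C3_compact δ) (cf.cont.cexp.mono hsf) (cg.cont.cexp.mono hsg) hPe
      maps := by
        rintro _ ⟨t, ht, rfl⟩
        exact ⟨t, ht, (hPe t ht).symm⟩
      inj := by
        rintro _ ⟨t, ht, rfl⟩ _ ⟨t', ht', rfl⟩ h
        simp only [hPe t ht, hPe t' ht'] at h
        have h2 := C3_exp_inj cg (hsg ht) (hsg ht') h
        rw [h2]
      one := by
        have h1 := hPe 0 hzero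
        simpa [cf.zero, cg.zero] using h1
      No_iff := by
        rintro _ ⟨t, ht, rfl⟩
        simp only [hPe t ht]
        constructor
        · rintro ⟨t', ht', h⟩
          have h2 := C3_exp_inj cg (⟨ht'.1.le.trans hδg.le, ht'.2⟩ : t' ∈ HB cg.δ0) (hsg ht) h
          rw [h2] at ht'
          exact ⟨t, ht', rfl⟩
        · rintro ⟨t', ht', h⟩
          have h2 := C3_exp_inj cf (⟨ht'.1.le.trans hδf.le, ht'.2⟩ : t' ∈ HB cf.δ0) (hsf ht) h
          rw [h2] at ht'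
          exact ⟨t, ht', rfl⟩
      N1 := by
        rintro z hz _ ⟨tx, htx, rfl⟩ ⟨t1, ht1, h1⟩ h2
        have htx' : tx ∈ HB δ := ⟨htx.1.le, htx.2⟩
        simp only at h1 h2
        rw [← h1, hPe t1 ht1, cg.conj4 tx (hsg htx')] at h2
        have h3 := C3_exp_inj cg (hsg ht1) (hsg (C3_sq4_mem hδ1 htx')) h2
        rw [h3] at h1
        by_cases h4 : tx = 0
        · rw [h4] at h1
          have h5 : sq4 0 = 0 := by
            have : ‖sq4 0‖ = 0 := by rw [C3_sq4_norm]; simp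
            exact norm_eq_zero.1 this
          rw [h5, cf.zero, Complex.exp_zero] at h1
          have h6 := F_eq_one hz h1.symm
          rw [h6]
          exact M.one_mem
        · have hpos : 0 < ‖tx‖ := norm_pos_iff.2 h4
          obtain ⟨t', ht', h7⟩ := cf.level ‖tx‖ hpos (htx.1.trans hδf) z hz (sq4 tx)
            ⟨by rw [C3_sq4_norm], C3_sq4_im tx⟩ h1.symm
          exact ⟨t', ⟨ht'.1.trans_lt htx.1, ht'.2⟩, h7.symm⟩
      N2 := by
        intro R H R' ρ hR hH hRP hL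
        have hHc : ∀ t ∈ HB δ, H (cf.c t) = cg.c t := by
          refine log_unique (C3_convex δ).isPreconnected
            (hH.cont.comp (cf.cont.mono hsf) (fun t ht => cf.maps (hsf ht)))
            (cg.cont.mono hsg) ?_ hzero (by rw [cf.zero, cg.zero, hH.zero])
          intro t ht
          rw [hH.exp_eq _ (cf.maps (hsf ht)), hRP _ ⟨t, ht, rfl⟩, hPe t ht]
        rintro _ ⟨t, ht, rfl⟩
        simp only [hPe t ht]
        have hq := C3_sq4_mem hδ1 ht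
        have hqU : cf.c (sq4 t) ∈ UU := cf.maps (hsf hq)
        rcases le_total 0 t.re with hre | hre
        · rcases le_total t.re t.im with h2 | h2
          · rw [cf.s3 t (hsf ht) hre h2, hL.Θ_eq _ hqU, hHc _ hq, ← cg.s3 t (hsg ht) hre h2]
          · have hqD : exp (cf.c (sq4 t)) ∈ DD := M.subN ⟨_, hq, rfl⟩
            rw [cf.s4 t (hsf ht) h2, hL.G4_eq _ hqD, hRP _ ⟨_, hq, rfl⟩, hPe _ hq,
              ← cg.s4 t (hsg ht) h2]
        · rcases le_total (-t.re) t.im with h2 | h2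
          · have hqD : exp (cf.c (sq4 t)) ∈ DD := M.subN ⟨_, hq, rfl⟩
            rw [cf.s2 t (hsf ht) hre h2, hL.G2_eq _ hqD, hRP _ ⟨_, hq, rfl⟩, hPe _ hq,
              ← cg.s2 t (hsg ht) hre h2]
          · rw [cf.s1 t (hsf ht) h2, ← C3_tpi_half, hL.Θ_eq _ (C3_tpi_mem hqU),
              hH.period _ hqU, hHc _ hq, C3_tpi_half, ← cg.s1 t (hsg ht) h2]
      s_ord := hord f cf hδf
      s_ord' := hord g cg hδg
      arc := fun θ hθ => C3_arc cf h0 hδf hθ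
      arco := fun θ hθ => C3_arco cf h0 hδf hθ
      arc' := fun θ hθ => C3_arc cg h0 hδg hθ
      arco' := fun θ hθ => C3_arco cg h0 hδg hθ
      ρcont1 := by
        have h1 : ContinuousOn (C3_ρ cf cg δ) (C3_a cf '' Icc 0 δ) :=
          C3_descent isCompact_Icc
            ((C3_a_cont cf).mono (fun x hx => hIf x ⟨by linarith [hx.1], hx.2⟩))
            ((C3_a_cont cg).mono (fun x hx => hIg x ⟨by linarith [hx.1], hx.2⟩))
            (fun x hx => C3_ρ_eq1 cf cg h0 hδf hx)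
        refine h1.mono ?_
        intro θ hθ
        obtain ⟨x, hx, hx'⟩ := C3_sol1 cf h0 hδf hθ.1 hθ.2
        exact ⟨x, hx, hx'⟩
      ρcont2 := by
        have h1 : ContinuousOn (C3_ρ cf cg δ)
            ((fun x => 2 * Real.pi + C3_a cf x) '' Icc (-δ) 0) :=
          C3_descent isCompact_Icc
            (continuousOn_const.add ((C3_a_cont cf).mono
              (fun x hx => hIf x ⟨hx.1, by linarith [hx.2]⟩)))
            (continuousOn_const.add ((C3_a_cont cg).mono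
              (fun x hx => hIg x ⟨hx.1, by linarith [hx.2]⟩)))
            (fun x hx => C3_ρ_eq2 cf cg h0 hδf hx)
        refine h1.mono ?_
        intro θ hθ
        obtain ⟨x, hx, hx'⟩ := C3_sol2 cf h0 hδf hθ.2 hθ.1
        exact ⟨x, hx, hx'⟩
      ρmem1 := by
        intro θ hθ
        obtain ⟨x, hx, hx'⟩ := C3_sol1 cf h0 hδf hθ.1 hθ.2
        rw [← hx', C3_ρ_eq1 cf cg h0 hδf hx]
        have hxI : x ∈ Icc (-δ) δ := ⟨by linarith [hx.1], hx.2⟩
        constructor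
        · rw [← C3_a_zero cg]
          exact (C3_a_mono cg).monotoneOn (hIg 0 hm0) (hIg x hxI) hx.1
        · exact (C3_a_mono cg).monotoneOn (hIg x hxI) (hIg δ hmδ) hx.2
      ρmem2 := by
        intro θ hθ
        obtain ⟨x, hx, hx'⟩ := C3_sol2 cf h0 hδf hθ.2 hθ.1
        rw [← hx', C3_ρ_eq2 cf cg h0 hδf hx]
        have hxI : x ∈ Icc (-δ) δ := ⟨hx.1, by linarith [hx.2]⟩
        have h1 := (C3_a_mono cg).monotoneOn (hIg (-δ) hmn) (hIg x hxI) hx.1
        have h2 := (C3_a_mono cg).monotoneOn (hIg x hxI) (hIg 0 hm0) hx.2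
        rw [C3_a_zero] at h2
        exact ⟨by linarith, by linarith⟩
      ρ0 := by
        have h1 := C3_ρ_eq1 cf cg h0 hδf (x := 0) ⟨le_rfl, h0.le⟩
        rwa [C3_a_zero, C3_a_zero] at h1
      ρs1 := C3_ρ_eq1 cf cg h0 hδf ⟨h0.le, le_rfl⟩
      ρs2 := C3_ρ_eq2 cf cg h0 hδf ⟨le_rfl, by linarith⟩
      ρ1 := by
        have h1 := C3_ρ_eq2 cf cg h0 hδf (x := 0) ⟨by linarith, le_rfl⟩
        rwa [C3_a_zero, C3_a_zero, add_zero] at h1
      circ := by
        intro θ hθ hmem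
        rcases (C3_arc cf h0 hδf hθ).1 hmem with h | h
        · obtain ⟨x, hx, hx'⟩ := C3_sol1 cf h0 hδf hθ.1 h
          have hxI : x ∈ Icc (-δ) δ := ⟨by linarith [hx.1], hx.2⟩
          rw [← hx', C3_ρ_eq1 cf cg h0 hδf hx, ← C3_exp_real cf (abs_le.2 (hIf x hxI)),
            hPe _ (C3_real_mem (abs_le.2 hxI)), C3_exp_real cg (abs_le.2 (hIg x hxI))]
        · obtain ⟨x, hx, hx'⟩ := C3_sol2 cf h0 hδf hθ.2 h
          have hxI : x ∈ Icc (-δ) δ := ⟨hx.1, by linarith [hx.2]⟩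
          rw [← hx', C3_ρ_eq2 cf cg h0 hδf hx, C3_ec_per, C3_ec_per,
            ← C3_exp_real cf (abs_le.2 (hIf x hxI)),
            hPe _ (C3_real_mem (abs_le.2 hxI)), C3_exp_real cg (abs_le.2 (hIg x hxI))]
      chartM := C3_HC cf h0 hδf hfre
      chart := C3_HC cg h0 hδg hgre }
  refine ⟨M, N, hNP, ?_, ?_⟩
  · rintro _ ⟨t, ht, rfl⟩
    exact (hcf t (hsf ht)).trans_le (min_le_left _ _)
  · rintro _ ⟨t, ht, rfl⟩
    exact (hcg t (hsg ht)).trans_le (min_le_left _ _)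

end

end Pool.TU
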