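import Pool.Agent.Helper71.TU.AllDefs

/-! # TU D1: sections of iterates -/

open Complex Set Filter Topology Metric Polynomial ComplexConjugate Pool.Tuning

namespace Pool.TU

noncomputable section

/-- Existence of sections through a given point. -/
theorem exists_sec {h : ℂ[X]} {P : Set ℂ} (hd : 2 ≤ h.natDegree) (hP : PC h P) (n : ℕ)
    {x0 : ℂ} {r : ℝ} (hr : Disjoint (ball x0 r) P) {w0 z0 : ℂ} (hw0 : w0 ∈ ball x0 r)
    (hz0 : (fun z => h.eval z)^[n] z0 = w0) :
    ∃ S, Sec h n (ball x0 r) S ∧ S w0 = z0 := by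
  have hPn : ∀ (m : ℕ) (z : ℂ), z ∈ P → (fun z => h.eval z)^[m] z ∈ P := by
    intro m
    induction m with
    | zero => intro z hz; simpa using hz
    | succ m ih =>
      intro z hz
      rw [Function.iterate_succ_apply]
      exact ih _ (hP.inv z hz)
  induction n generalizing z0 with
  | zero =>
    refine ⟨fun z => z, ⟨continuousOn_id, fun w _ => rfl⟩, ?_⟩
    simpa using hz0.symm
  | succ n ih =>
    rw [Function.iterate_succ_apply] at hz0
    obtain ⟨S, hS, hS0⟩ := ih hz0
    have : ContractibleSpace (ball x0 r) :=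
      (convex_ball x0 r).contractibleSpace ⟨w0, hw0⟩
    have : LocallyPathConnectedSpace (ball x0 r) := isOpen_ball.locallyPathConnectedSpace
    have hcov := h.isCoveringMapOn_eval
    obtain ⟨F, ⟨hF0, hF⟩, -⟩ := hcov.existsUnique_continuousMap_lifts
      (A := ball x0 r) ⟨(ball x0 r).domRestrict S, continuousOn_iff_continuous_domRestrict.mp hS.cont⟩
      (a₀ := ⟨w0, hw0⟩) (e₀ := z0) (by simpa using hS0.symm) (by
        rintro ⟨a, ha⟩ ⟨c, hc, hc2⟩
        have h1 := hPn n _ (hP.crit c hc)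
        have h2 : h.eval c = S a := hc2
        rw [h2, hS.sec a ha] at h1
        exact Set.disjoint_left.mp hr ha h1)
    classical
    obtain ⟨g, hg⟩ : ∃ g : ℂ → ℂ, ∀ z : ball x0 r, g z = F z :=
      ⟨fun z ↦ if hz : z ∈ ball x0 r then F ⟨z, hz⟩ else 0, by
        rintro ⟨z, hz⟩
        exact dif_pos hz⟩
    refine ⟨g, ⟨?_, ?_⟩, ?_⟩
    · rw [continuousOn_iff_continuous_domRestrict]
      have h1 : (ball x0 r).domRestrict g = F := by
        funext z
        exact hg z
      rw [h1]
      exact map_continuous F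
    · intro w hw
      rw [Function.iterate_succ_apply, hg ⟨w, hw⟩]
      have h1 : h.eval (F ⟨w, hw⟩) = S w := congrFun hF ⟨w, hw⟩
      show (fun z => h.eval z)^[n] (h.eval (F ⟨w, hw⟩)) = w
      rw [h1]
      exact hS.sec w hw
    · rw [hg ⟨w0, hw0⟩]
      exact hF0

/-- the iterated polynomial -/
def itp (h : ℂ[X]) (n : ℕ) : ℂ[X] := h.comp^[n] X

theorem itp_eval (h : ℂ[X]) (n : ℕ) (z : ℂ) :
    (itp h n).eval z = (fun z => h.eval z)^[n] z := by
  unfold itp
  rw [Polynomial.iterate_comp_eval, Polynomial.eval_X]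

theorem itp_der {h : ℂ[X]} {P : Set ℂ} (hP : PC h P) (n : ℕ) (z : ℂ)
    (hz : (fun z => h.eval z)^[n] z ∉ P) : (itp h n).derivative.eval z ≠ 0 := by
  induction n with
  | zero => simp [itp]
  | succ n ih =>
    rw [Function.iterate_succ_apply'] at hz
    have h1 : (fun z => h.eval z)^[n] z ∉ P := fun h2 => hz (hP.inv _ h2)
    have h3 : itp h (n + 1) = h.comp (itp h n) := by
      unfold itp
      rw [Function.iterate_succ_apply']
    rw [h3, Polynomial.derivative_comp, Polynomial.eval_mul, Polynomial.eval_comp, itp_eval]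
    refine mul_ne_zero (ih h1) ?_
    intro h4
    exact hz (hP.crit _ h4)

/-- Uniqueness of sections on preconnected sets outside `P`. -/
theorem sec_unique {h : ℂ[X]} {P : Set ℂ} (hd : 2 ≤ h.natDegree) (hP : PC h P) (n : ℕ)
    {V : Set ℂ} (hV : IsPreconnected V) (hr : Disjoint V P) {S S' : ℂ → ℂ}
    (hS : Sec h n V S) (hS' : Sec h n V S') {w0 : ℂ} (hw0 : w0 ∈ V) (h0 : S w0 = S' w0) :
    ∀ w ∈ V, S w = S' w := by
  have : PreconnectedSpace V := isPreconnected_iff_preconnectedSpace.mp hV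
  have hc : Continuous (fun w : V => S w) := continuousOn_iff_continuous_domRestrict.mp hS.cont
  have hc' : Continuous (fun w : V => S' w) := continuousOn_iff_continuous_domRestrict.mp hS'.cont
  have hclopen : IsClopen {w : V | S w = S' w} := by
    refine ⟨isClosed_eq hc hc', ?_⟩
    rw [isOpen_iff_mem_nhds]
    intro w hw
    have hne : (itp h n).derivative.eval (S w) ≠ 0 := by
      apply itp_der hP
      rw [hS.sec w w.2]
      exact Set.disjoint_left.mp hr w.2
    obtain ⟨e, he1, he2⟩ : ∃ e : OpenPartialHomeomorph ℂ ℂ, S w ∈ e.source ∧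
        ∀ z, e z = (itp h n).eval z :=
      ⟨(((itp h n).hasStrictDerivAt (S w)).hasStrictFDerivAt_equiv
        hne).toOpenPartialHomeomorph _, HasStrictFDerivAt.mem_toOpenPartialHomeomorph_source _,
        fun z => by simp⟩
    have hw' : S w = S' w := hw
    have m1 : ∀ᶠ a : V in 𝓝 w, S a ∈ e.source :=
      hc.continuousAt.eventually_mem (e.open_source.mem_nhds he1)
    have m2 : ∀ᶠ a : V in 𝓝 w, S' a ∈ e.source :=
      hc'.continuousAt.eventually_mem (e.open_source.mem_nhds (hw' ▸ he1))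
    filter_upwards [m1, m2] with a ha1 ha2
    apply e.injOn ha1 ha2
    rw [he2, he2, itp_eval, itp_eval, hS.sec a a.2, hS'.sec a a.2]
  have := hclopen.eq_univ ⟨⟨w0, hw0⟩, h0⟩
  intro w hw
  have h1 : (⟨w, hw⟩ : V) ∈ {w : V | S w = S' w} := by
    rw [this]
    trivial
  exact h1

theorem sec_differentiable {h : ℂ[X]} {P : Set ℂ} (hd : 2 ≤ h.natDegree) (hP : PC h P)
    (n : ℕ) {x0 : ℂ} {r : ℝ} (hr : Disjoint (ball x0 r) P) {S : ℂ → ℂ}
    (hS : Sec h n (ball x0 r) S) : DifferentiableOn ℂ S (ball x0 r) := by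
  intro w hw
  have hne : (itp h n).derivative.eval (S w) ≠ 0 := by
    apply itp_der hP
    rw [hS.sec w hw]
    exact Set.disjoint_left.mp hr hw
  have hc : ContinuousAt S w := hS.cont.continuousAt (isOpen_ball.mem_nhds hw)
  refine (HasDerivAt.of_local_left_inverse hc ((itp h n).hasDerivAt (S w)) hne
    ?_).differentiableAt.differentiableWithinAt
  filter_upwards [isOpen_ball.mem_nhds hw] with y hy
  rw [itp_eval]
  exact hS.sec y hy

end

end Pool.TU
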