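import Pool.Agent.Helper71.TU.D1

/-! # TU D2: bounds, equicontinuity -/

open Complex Set Filter Topology Metric Polynomial ComplexConjugate Pool.Tuning

namespace Pool.TU

noncomputable section

theorem d2_escape {h : ℂ[X]} (hd : 2 ≤ h.natDegree) :
    ∃ R0 : ℝ, ∀ z : ℂ, R0 ≤ ‖z‖ → ‖z‖ ≤ ‖h.eval z‖ := by
  have hq : 0 < h.divX.degree := by
    rw [← Polynomial.natDegree_pos_iff_degree_pos, Polynomial.natDegree_divX_eq_natDegree_tsub_one]
    omega
  have ht := Polynomial.tendsto_norm_atTop h.divX hq (tendsto_norm_cobounded_atTop (E := ℂ))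
  have h1 := ht.eventually_ge_atTop 2
  have h2 := (tendsto_norm_cobounded_atTop (E := ℂ)).eventually_ge_atTop ‖h.coeff 0‖
  obtain ⟨R0, -, hR0⟩ := (Filter.hasBasis_cobounded_norm (E := ℂ)).eventually_iff.mp (h1.and h2)
  refine ⟨R0, fun z hz => ?_⟩
  obtain ⟨h3, h4⟩ := hR0 (x := z) hz
  have h5 : h.eval z = h.divX.eval z * z + h.coeff 0 := by
    conv_lhs => rw [← Polynomial.divX_mul_X_add h]
    simp
  rw [h5]
  have h6 : ‖h.divX.eval z * z‖ ≤ ‖h.divX.eval z * z + h.coeff 0‖ + ‖h.coeff 0‖ := by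
    have := norm_sub_le (h.divX.eval z * z + h.coeff 0) (h.coeff 0)
    simpa using this
  rw [norm_mul] at h6
  have h7 : 2 * ‖z‖ ≤ ‖h.divX.eval z‖ * ‖z‖ := mul_le_mul_of_nonneg_right h3 (norm_nonneg z)
  linarith

/-- Preimages of bounded sets are uniformly bounded. -/
theorem sec_bounded {h : ℂ[X]} (hd : 2 ≤ h.natDegree) (R : ℝ) :
    ∃ R' : ℝ, ∀ (n : ℕ) (z : ℂ), ‖(fun z => h.eval z)^[n] z‖ ≤ R → ‖z‖ ≤ R' := by
  obtain ⟨R0, hR0⟩ := d2_escape hd
  have key : ∀ (n : ℕ) (z : ℂ), R0 ≤ ‖z‖ → ‖z‖ ≤ ‖(fun z => h.eval z)^[n] z‖ := by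
    intro n
    induction n with
    | zero => intro z _; simp
    | succ n ih =>
      intro z hz
      rw [Function.iterate_succ_apply]
      have h1 := hR0 z hz
      exact h1.trans (ih _ (hz.trans h1))
  refine ⟨max R R0, fun n z hz => ?_⟩
  by_contra hcon
  have h1 := not_le.mp hcon
  have h2 := key n z ((le_max_right _ _).trans h1.le)
  have h3 := (le_max_left R R0).trans_lt h1
  linarith

/-- Equicontinuity of all sections at points outside `P`. -/
theorem eqreg {h : ℂ[X]} {P : Set ℂ} (hd : 2 ≤ h.natDegree) (hP : PC h P) {x0 : ℂ} {r : ℝ}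
    (hr0 : 0 < r) (hr : Disjoint (ball x0 r) P) :
    ∀ η > 0, ∃ δ > 0, ∀ (n : ℕ) (S : ℂ → ℂ), Sec h n (ball x0 r) S →
      ∀ a ∈ ball x0 δ, ‖S a - S x0‖ ≤ η := by
  intro η hη
  obtain ⟨R', hR'⟩ := sec_bounded hd (‖x0‖ + r)
  have hbd : ∀ (n : ℕ) (S : ℂ → ℂ), Sec h n (ball x0 r) S → ∀ a ∈ ball x0 r, ‖S a‖ ≤ R' := by
    intro n S hS a ha
    apply hR' n
    rw [hS.sec a ha]
    have h1 : ‖a - x0‖ < r := by
      rw [← dist_eq_norm]
      exact mem_ball.mp ha
    have h2 : ‖a‖ ≤ ‖a - x0‖ + ‖x0‖ := by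
      have := norm_add_le (a - x0) x0
      simpa using this
    linarith
  by_cases hne : ∃ (n : ℕ) (S : ℂ → ℂ), Sec h n (ball x0 r) S
  · have hR0 : 0 ≤ R' := by
      obtain ⟨n, S, hS⟩ := hne
      exact (norm_nonneg _).trans (hbd n S hS x0 (mem_ball_self hr0))
    have hM : (0 : ℝ) < 2 * R' + 1 := by linarith
    refine ⟨min r (η * r / (2 * R' + 1)), lt_min hr0 (by positivity), ?_⟩
    intro n S hS a ha
    have ha1 : a ∈ ball x0 r := ball_subset_ball (min_le_left _ _) ha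
    have ha2 : dist a x0 < η * r / (2 * R' + 1) :=
      (mem_ball.mp ha).trans_le (min_le_right _ _)
    have hmaps : MapsTo S (ball x0 r) (closedBall (S x0) (2 * R' + 1)) := by
      intro b hb
      rw [mem_closedBall, dist_eq_norm]
      have h1 := hbd n S hS b hb
      have h2 := hbd n S hS x0 (mem_ball_self hr0)
      have h3 := norm_sub_le (S b) (S x0)
      linarith
    have h1 := Complex.dist_le_div_mul_dist_of_mapsTo_ball (sec_differentiable hd hP n hr hS)
      hmaps ha1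
    rw [dist_eq_norm] at h1
    refine h1.trans ?_
    have h4 : (2 * R' + 1) / r * dist a x0 ≤ (2 * R' + 1) / r * (η * r / (2 * R' + 1)) :=
      mul_le_mul_of_nonneg_left ha2.le (by positivity)
    refine h4.trans (le_of_eq ?_)
    field_simp
  · refine ⟨1, one_pos, fun n S hS => ?_⟩
    exact absurd ⟨n, S, hS⟩ hne

end

end Pool.TU
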