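import Pool.Agent.Helper71.TU.D2

/-! # TU D3: shrinking near escaping points -/

open Complex Set Filter Topology Metric Polynomial ComplexConjugate Pool.Tuning

namespace Pool.TU

noncomputable section

/-- A compact set of escaping points escapes uniformly. -/
theorem escape_unif {h : ℂ[X]} (hd : 2 ≤ h.natDegree) {K : Set ℂ} (hK : IsCompact K)
    (hesc : ∀ z ∈ K, Tendsto (fun n => ‖(fun z => h.eval z)^[n] z‖) atTop atTop) (R : ℝ) :
    ∃ k0 : ℕ, ∀ k ≥ k0, ∀ w ∈ K, R < ‖(fun z => h.eval z)^[k] w‖ := by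
  obtain ⟨R', hR'⟩ := sec_bounded hd R
  have hcont : ∀ n : ℕ, Continuous (fun z => h.eval z)^[n] := fun n =>
    Continuous.iterate h.continuous n
  have hopen : ∀ n : ℕ, IsOpen {w | R' < ‖(fun z => h.eval z)^[n] w‖} := fun n =>
    isOpen_lt continuous_const (hcont n).norm
  obtain ⟨t, ht⟩ := hK.elim_finite_subcover (fun n : ℕ => {w | R' < ‖(fun z => h.eval z)^[n] w‖})
    hopen (by
      intro w hw
      obtain ⟨n, hn⟩ := ((hesc w hw).eventually_gt_atTop R').exists
      exact mem_iUnion.2 ⟨n, hn⟩)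
  refine ⟨t.sup id, fun k hk w hw => ?_⟩
  obtain ⟨n, hn⟩ := mem_iUnion.1 (ht hw)
  obtain ⟨hnt, hn⟩ := mem_iUnion.1 hn
  have hnk : n ≤ k := le_trans (Finset.le_sup (f := id) hnt) hk
  by_contra hcon
  push Not at hcon
  have e : (fun z => h.eval z)^[k] w = (fun z => h.eval z)^[k - n] ((fun z => h.eval z)^[n] w) := by
    rw [← Function.iterate_add_apply]
    congr 2
    omega
  rw [e] at hcon
  have := hR' _ _ hcon
  have hn' : R' < ‖(fun z => h.eval z)^[n] w‖ := hn
  linarith

/-- A quantitative covering estimate. -/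
theorem cover_est {r R1 : ℝ} (hr : 0 < r) (hR1 : 0 ≤ R1) {η : ℝ} (hη : 0 < η) :
    ∃ δ > 0, ∀ (x0 : ℂ) (S : ℂ → ℂ), DifferentiableOn ℂ S (ball x0 r) →
      (∀ w ∈ ball x0 r, ‖S w‖ ≤ R1) → InjOn S (ball x0 r) → ∀ a ∈ ball x0 (r / 4),
      η ≤ ‖deriv S a‖ → ball (S a) δ ⊆ S '' closedBall x0 (r / 2) := by
  set D : ℝ := R1 / (r / 8) with hD
  have hD0 : 0 ≤ D := by positivity
  set C : ℝ := (2 * D + 1) / (r / 4) with hC
  have hC0 : 0 < C := by positivity
  set t : ℝ := min (r / 8) (η / (2 * C)) with ht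
  have ht0 : 0 < t := by
    rw [ht]
    positivity
  have htr : t ≤ r / 8 := min_le_left _ _
  have htη : C * t ≤ η / 2 := by
    have : t ≤ η / (2 * C) := min_le_right _ _
    calc C * t ≤ C * (η / (2 * C)) := mul_le_mul_of_nonneg_left this hC0.le
      _ = η / 2 := by field_simp
  refine ⟨η * t / 4, by positivity, ?_⟩
  intro x0 S hS hb hinj a ha hder
  have hdiffAt : ∀ w ∈ ball x0 r, DifferentiableAt ℂ S w := fun w hw =>
    hS.differentiableAt (isOpen_ball.mem_nhds hw)
  -- derivative bound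
  have hbd : ∀ b ∈ ball x0 (r / 2), ‖deriv S b‖ ≤ D := by
    intro b hb'
    have hsub : closedBall b (r / 8) ⊆ ball x0 r := by
      intro z hz
      rw [mem_closedBall] at hz
      rw [mem_ball] at hb' ⊢
      have := dist_triangle z b x0
      linarith
    apply Complex.norm_deriv_le_of_forall_mem_sphere_norm_le (by positivity)
    · refine DifferentiableOn.diffContOnCl ?_
      rw [closure_ball _ (by positivity)]
      exact hS.mono hsub
    · intro z hz
      exact hb z (hsub (sphere_subset_closedBall hz))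
  have hS' : DifferentiableOn ℂ (deriv S) (ball x0 r) := hS.deriv isOpen_ball
  have hsub4 : ball a (r / 4) ⊆ ball x0 (r / 2) := by
    intro z hz
    rw [mem_ball] at hz ha ⊢
    have := dist_triangle z a x0
    linarith
  have hlip : ∀ w ∈ ball a (r / 4), ‖deriv S w - deriv S a‖ ≤ C * dist w a := by
    intro w hw
    have hmaps : MapsTo (deriv S) (ball a (r / 4)) (closedBall (deriv S a) (2 * D + 1)) := by
      intro z hz
      rw [mem_closedBall, dist_eq_norm]
      have h1 := hbd z (hsub4 hz)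
      have h2 := hbd a (hsub4 (mem_ball_self (by positivity)))
      have := norm_sub_le (deriv S z) (deriv S a)
      linarith
    have := Complex.dist_le_div_mul_dist_of_mapsTo_ball
      (hS'.mono (hsub4.trans (ball_subset_ball (by linarith)))) hmaps hw
    rwa [dist_eq_norm] at this
  have hsubt : closedBall a t ⊆ ball a (r / 4) := closedBall_subset_ball (by linarith)
  have hsubr : closedBall a t ⊆ ball x0 r :=
    hsubt.trans (hsub4.trans (ball_subset_ball (by linarith)))
  have key : ∀ w ∈ closedBall a t, ‖S w - S a - deriv S a * (w - a)‖ ≤ C * t * ‖w - a‖ := by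
    intro w hw
    have := Convex.norm_image_sub_le_of_norm_deriv_le (𝕜 := ℂ)
      (f := fun z => S z - deriv S a * z) (s := closedBall a t) (C := C * t) (x := a) (y := w)
      ?_ ?_ (convex_closedBall a t) (mem_closedBall_self ht0.le) hw
    · calc ‖S w - S a - deriv S a * (w - a)‖
          = ‖(S w - deriv S a * w) - (S a - deriv S a * a)‖ := by ring_nf
        _ ≤ _ := this
    · intro x hx
      exact (hdiffAt x (hsubr hx)).sub ((differentiableAt_id).const_mul _)
    · intro x hx
      have h1 : HasDerivAt (fun z => S z - deriv S a * z) (deriv S x - deriv S a * 1) x :=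
        (hdiffAt x (hsubr hx)).hasDerivAt.sub ((hasDerivAt_id x).const_mul _)
      rw [h1.deriv, mul_one]
      refine (hlip x (hsubt hx)).trans ?_
      exact mul_le_mul_of_nonneg_left (mem_closedBall.1 hx) hC0.le
  have hsph : ∀ w ∈ sphere a t, η * t / 2 ≤ ‖S w - S a‖ := by
    intro w hw
    have hw' : ‖w - a‖ = t := by rwa [mem_sphere, dist_eq_norm] at hw
    have h1 := key w (sphere_subset_closedBall hw)
    rw [hw'] at h1
    have h2 : ‖deriv S a * (w - a)‖ = ‖deriv S a‖ * t := by rw [norm_mul, hw']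
    have h3 : ‖deriv S a * (w - a)‖ ≤ ‖S w - S a‖ + ‖S w - S a - deriv S a * (w - a)‖ := by
      have := norm_sub_le (S w - S a) (S w - S a - deriv S a * (w - a))
      rwa [sub_sub_cancel] at this
    have h4 : η * t ≤ ‖deriv S a‖ * t := mul_le_mul_of_nonneg_right hder ht0.le
    have h5 : C * t * t ≤ η / 2 * t := mul_le_mul_of_nonneg_right htη ht0.le
    linarith
  have hdc : DiffContOnCl ℂ S (ball a t) := by
    refine DifferentiableOn.diffContOnCl ?_
    rw [closure_ball _ ht0.ne']
    exact hS.mono hsubr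
  have hfr : ∃ᶠ z in 𝓝 a, S z ≠ S a := by
    have h1 : ∀ᶠ z in 𝓝[≠] a, z ∈ ball x0 r :=
      mem_nhdsWithin_of_mem_nhds (isOpen_ball.mem_nhds (hsubr (mem_closedBall_self ht0.le)))
    have h2 : ∀ᶠ z in 𝓝[≠] a, S z ≠ S a := by
      filter_upwards [h1, self_mem_nhdsWithin] with z hz hza he
      exact hza (hinj hz (hsubr (mem_closedBall_self ht0.le)) he)
    exact (h2.frequently).filter_mono nhdsWithin_le_nhds
  have := hdc.ball_subset_image_closedBall ht0 hsph hfr
  have e : η * t / 2 / 2 = η * t / 4 := by ring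
  rw [e] at this
  refine this.trans (image_mono ?_)
  exact hsubt.trans (hsub4.trans ball_subset_closedBall)

/-- Uniform shrinking near an escaping point. -/
theorem sreg_escape {h : ℂ[X]} {P : Set ℂ} (hd : 2 ≤ h.natDegree) (hP : PC h P)
    {x0 : ℂ} {r : ℝ} (hr0 : 0 < r) (hr : Disjoint (ball x0 r) P)
    (hesc : ∀ z ∈ ball x0 r, Tendsto (fun n => ‖(fun z => h.eval z)^[n] z‖) atTop atTop) :
    ∃ r' > 0, r' ≤ r ∧ ∀ η > 0, ∃ N : ℕ, ∀ n ≥ N, ∀ S : ℂ → ℂ, Sec h n (ball x0 r) S →
      ∀ a ∈ ball x0 r', ‖deriv S a‖ ≤ η := by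
  refine ⟨r / 4, by positivity, by linarith, fun η hη => ?_⟩
  have hKsub : closedBall x0 (r / 2) ⊆ ball x0 r := closedBall_subset_ball (by linarith)
  obtain ⟨k0, hk0⟩ := escape_unif hd (isCompact_closedBall x0 (r / 2))
    (fun z hz => hesc z (hKsub hz)) (‖x0‖ + r)
  obtain ⟨R1, hR1⟩ := sec_bounded hd (‖x0‖ + r)
  have hnorm : ∀ w ∈ ball x0 r, ‖w‖ ≤ ‖x0‖ + r := by
    intro w hw
    rw [mem_ball, dist_eq_norm] at hw
    have := norm_add_le x0 (w - x0)
    rw [add_sub_cancel] at this
    linarith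
  have hbd : ∀ (n : ℕ) (S : ℂ → ℂ), Sec h n (ball x0 r) S → ∀ w ∈ ball x0 r, ‖S w‖ ≤ R1 := by
    intro n S hS w hw
    apply hR1 n
    rw [hS.sec w hw]
    exact hnorm w hw
  have hinj : ∀ (n : ℕ) (S : ℂ → ℂ), Sec h n (ball x0 r) S → InjOn S (ball x0 r) := by
    intro n S hS w hw w' hw' he
    rw [← hS.sec w hw, ← hS.sec w' hw', he]
  have hdisj : ∀ (n k : ℕ) (S S' : ℂ → ℂ), Sec h n (ball x0 r) S → Sec h (n + k) (ball x0 r) S' →
      k0 ≤ k → ∀ w ∈ closedBall x0 (r / 2), ∀ w' ∈ closedBall x0 (r / 2), S w ≠ S' w' := by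
    intro n k S S' hS hS' hk w hw w' hw' he
    have h1 := hS.sec w (hKsub hw)
    have h2 := hS'.sec w' (hKsub hw')
    rw [← he, add_comm n k, Function.iterate_add_apply, h1] at h2
    have h3 := hk0 k hk w hw
    rw [h2] at h3
    have := hnorm w' (hKsub hw')
    linarith
  by_contra hcon
  push Not at hcon
  have hR10 : 0 ≤ max R1 0 := le_max_right _ _
  obtain ⟨δ, hδ, hcov⟩ := cover_est (r := r) (R1 := max R1 0) hr0 hR10 hη
  choose n hn S hS a ha hder using hcon
  -- the sequence of thresholds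
  let N : ℕ → ℕ := fun i => Nat.rec 0 (fun _ m => n m + k0) i
  have hN : ∀ i, N (i + 1) = n (N i) + k0 := fun i => rfl
  have hmono : ∀ i j, i < j → n (N i) + k0 ≤ n (N j) := by
    intro i j hij
    induction j, hij using Nat.le_induction with
    | base =>
      have := hn (N (i + 1))
      rw [hN] at this ⊢
      exact this
    | succ j hj ih =>
      have := hn (N (j + 1))
      rw [hN] at this ⊢
      omega
  let c : ℕ → ℂ := fun i => S (N i) (a (N i))
  have haK : ∀ m, a m ∈ closedBall x0 (r / 2) := fun m =>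
    ball_subset_closedBall (ball_subset_ball (by linarith) (ha m))
  have hsep : ∀ i j, i < j → δ ≤ dist (c j) (c i) := by
    intro i j hij
    by_contra hlt
    push Not at hlt
    have hmem : c j ∈ S (N i) '' closedBall x0 (r / 2) := by
      refine hcov x0 (S (N i)) (sec_differentiable hd hP _ hr (hS (N i)))
        (fun w hw => (hbd _ _ (hS (N i)) w hw).trans (le_max_left _ _)) (hinj _ _ (hS (N i)))
        (a (N i)) (ha (N i)) (hder (N i)).le ?_
      exact hlt
    obtain ⟨w, hw, hwe⟩ := hmem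
    have hle := hmono i j hij
    obtain ⟨k, hk⟩ : ∃ k, n (N j) = n (N i) + k := ⟨n (N j) - n (N i), by omega⟩
    have hSj := hS (N j)
    rw [hk] at hSj
    exact hdisj (n (N i)) k (S (N i)) (S (N j)) (hS (N i)) hSj (by omega) w hw (a (N j)) (haK _) hwe
  have hcb : ∀ i, c i ∈ closedBall (0 : ℂ) (max R1 0) := by
    intro i
    rw [mem_closedBall, dist_zero_right]
    exact (hbd _ _ (hS (N i)) _ (hKsub (haK _))).trans (le_max_left _ _)
  obtain ⟨l, -, φ, hφ, hlim⟩ := (isCompact_closedBall (0 : ℂ) (max R1 0)).tendsto_subseq hcb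
  have hcau := hlim.cauchySeq
  rw [Metric.cauchySeq_iff] at hcau
  obtain ⟨M, hM⟩ := hcau δ hδ
  have h1 := hM (M + 1) (by omega) M (le_refl M)
  have h2 := hsep (φ M) (φ (M + 1)) (hφ (Nat.lt_succ_self M))
  simp only [Function.comp] at h1
  linarith

end

end Pool.TU
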