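import Pool.Agent.Helper71.TU.AllDefs

/-! # TU D4: propagation of small derivatives -/

open Complex Set Filter Topology Metric Polynomial ComplexConjugate Pool.Tuning

namespace Pool.TU

noncomputable section

namespace D4aux

/-- a two-sided estimate for the values of a holomorphic function -/
theorem two_bounds {g : ℂ → ℂ} {x0 : ℂ} {r s ρ t M η : ℝ} (hs : 0 < s) (hsρ : s < ρ) (hρr : ρ < r)
    (ht : 0 < t) (htr : t < r) (hg : DifferentiableOn ℂ g (ball x0 r))
    (hM : ∀ z ∈ sphere x0 ρ, ‖g z‖ ≤ M) (hη : ∀ z ∈ sphere x0 t, ‖g z‖ ≤ η) (K : ℕ) {z : ℂ}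
    (hz : z ∈ ball x0 s) :
    ‖g z‖ ≤ η * ∑ k ∈ Finset.range K, (s / t) ^ k + M * ((s / ρ) ^ K * (1 - s / ρ)⁻¹) := by
  have hρ : 0 < ρ := hs.trans hsρ
  have hr : 0 < r := hρ.trans hρr
  have hzr : z ∈ ball x0 r := ball_subset_ball (hsρ.trans hρr).le hz
  have hd : ‖z - x0‖ ≤ s := by
    rw [mem_ball, dist_eq_norm] at hz
    exact hz.le
  have hsum : HasSum (fun n : ℕ => ((n.factorial : ℂ))⁻¹ • (z - x0) ^ n • iteratedDeriv n g x0)
      (g z) := Complex.hasSum_taylorSeries_on_ball (by simpa using hg) (by simpa using hzr)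
  have hcl : ∀ u : ℝ, 0 < u → u < r → DiffContOnCl ℂ g (ball x0 u) := by
    intro u hu hur
    refine DifferentiableOn.diffContOnCl ?_
    rw [closure_ball _ hu.ne']
    exact hg.mono (closedBall_subset_ball hur)
  have hcoef : ∀ (u C : ℝ), 0 < u → u < r → (∀ w ∈ sphere x0 u, ‖g w‖ ≤ C) → ∀ n : ℕ,
      ‖((n.factorial : ℂ))⁻¹ • (z - x0) ^ n • iteratedDeriv n g x0‖ ≤ C * (s / u) ^ n := by
    intro u C hu hur hC n
    have h1 := Complex.norm_iteratedDeriv_le_of_forall_mem_sphere_norm_le n hu (hcl u hu hur) hC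
    have hf : (0 : ℝ) < n.factorial := by exact_mod_cast n.factorial_pos
    have hC0 : 0 ≤ n.factorial * C / u ^ n := (norm_nonneg _).trans h1
    rw [norm_smul, norm_smul, norm_inv, norm_pow, Complex.norm_natCast]
    calc ((n.factorial : ℝ))⁻¹ * (‖z - x0‖ ^ n * ‖iteratedDeriv n g x0‖)
        ≤ ((n.factorial : ℝ))⁻¹ * (s ^ n * (n.factorial * C / u ^ n)) := by
          apply mul_le_mul_of_nonneg_left _ (by positivity)
          exact mul_le_mul (pow_le_pow_left₀ (norm_nonneg _) hd n) h1 (norm_nonneg _) (by positivity)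
      _ = C * (s / u) ^ n := by
          rw [div_pow]
          field_simp
  have hq0 : 0 ≤ s / ρ := by positivity
  have hq1 : s / ρ < 1 := (div_lt_one hρ).2 hsρ
  set f : ℕ → ℂ := fun n : ℕ => ((n.factorial : ℂ))⁻¹ • (z - x0) ^ n • iteratedDeriv n g x0 with hf
  have hb1 := hcoef ρ M hρ hρr hM
  have hb2 := hcoef t η ht htr hη
  have hgs : Summable fun n : ℕ => M * (s / ρ) ^ n := (summable_geometric_of_lt_one hq0 hq1).mul_left M
  have hsplit := hsum.summable.sum_add_tsum_nat_add K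
  rw [hsum.tsum_eq] at hsplit
  rw [← hsplit]
  refine (norm_add_le _ _).trans (add_le_add ?_ ?_)
  · refine (norm_sum_le _ _).trans ?_
    rw [Finset.mul_sum]
    exact Finset.sum_le_sum fun k _ => hb2 k
  · have hgeo : HasSum (fun n : ℕ => M * (s / ρ) ^ (n + K)) (M * ((s / ρ) ^ K * (1 - s / ρ)⁻¹)) := by
      have := ((hasSum_geometric_of_lt_one hq0 hq1).mul_left ((s / ρ) ^ K)).mul_left M
      have h3 : (fun n : ℕ => M * (s / ρ) ^ (n + K)) =
          fun n : ℕ => M * ((s / ρ) ^ K * (s / ρ) ^ n) := by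
        funext n
        rw [pow_add, mul_comm ((s / ρ) ^ n)]
      rw [h3]
      exact this
    exact tsum_of_norm_bounded hgeo fun n => hb1 (n + K)

end D4aux

/-- Propagation: a bounded family of holomorphic functions whose derivatives are uniformly
small on a small ball has uniformly small derivatives on any smaller concentric ball. -/
theorem propagate {ι : Type*} (l : Filter ι) (F : ι → ℂ → ℂ) {x0 : ℂ} {r r' : ℝ}
    (hr' : 0 < r') (hrr : r' ≤ r) (hF : ∀ i, DifferentiableOn ℂ (F i) (ball x0 r)) {M : ℝ}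
    (hM : ∀ i, ∀ z ∈ ball x0 r, ‖F i z‖ ≤ M)
    (hsm : ∀ η > 0, ∀ᶠ i in l, ∀ a ∈ ball x0 r', ‖deriv (F i) a‖ ≤ η) {s : ℝ} (hs : s < r) :
    ∀ η > 0, ∀ᶠ i in l, ∀ a ∈ ball x0 s, ‖deriv (F i) a‖ ≤ η := by
  intro η hη
  rcases le_or_gt s 0 with hs0 | hs0
  · refine Eventually.of_forall fun i a ha => ?_
    rw [ball_eq_empty.2 hs0] at ha
    exact absurd ha (notMem_empty a)
  have hr : 0 < r := hs0.trans hs
  set ρ : ℝ := (s + r) / 2 with hρ
  have hsρ : s < ρ := by rw [hρ]; linarith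
  have hρr : ρ < r := by rw [hρ]; linarith
  have hρ0 : 0 < ρ := hs0.trans hsρ
  set M' : ℝ := M / ((r - ρ) / 2) with hM'
  have hMi : ∀ i, ∀ z ∈ sphere x0 ρ, ‖deriv (F i) z‖ ≤ M' := by
    intro i z hz
    have hu : 0 < (r - ρ) / 2 := by linarith
    have hsub : closedBall z ((r - ρ) / 2) ⊆ ball x0 r := by
      intro w hw
      rw [mem_sphere] at hz
      rw [mem_closedBall] at hw
      rw [mem_ball]
      calc dist w x0 ≤ dist w z + dist z x0 := dist_triangle _ _ _
        _ ≤ (r - ρ) / 2 + ρ := by rw [hz]; linarith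
        _ < r := by linarith
    apply Complex.norm_deriv_le_of_forall_mem_sphere_norm_le hu
    · refine DifferentiableOn.diffContOnCl ?_
      rw [closure_ball _ hu.ne']
      exact (hF i).mono hsub
    · intro w hw
      exact hM i w (hsub (sphere_subset_closedBall hw))
  have hq0 : 0 ≤ s / ρ := by positivity
  have hq1 : s / ρ < 1 := (div_lt_one hρ0).2 hsρ
  have hlim : Tendsto (fun K : ℕ => M' * ((s / ρ) ^ K * (1 - s / ρ)⁻¹)) atTop (𝓝 0) := by
    have := (((tendsto_pow_atTop_nhds_zero_of_lt_one hq0 hq1).mul_const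
      ((1 - s / ρ)⁻¹)).const_mul M')
    simpa using this
  obtain ⟨K, hK⟩ := ((hlim.eventually (gt_mem_nhds (half_pos hη)))).exists
  set T : ℝ := ∑ k ∈ Finset.range K, (s / (r' / 2)) ^ k with hT
  have hT0 : 0 ≤ T := Finset.sum_nonneg fun k _ => by positivity
  have hη' : 0 < η / 2 / (T + 1) := by positivity
  filter_upwards [hsm _ hη'] with i hi a ha
  have h1 := D4aux.two_bounds (g := deriv (F i)) (t := r' / 2) hs0 hsρ hρr (half_pos hr')
    (by linarith) ((hF i).deriv isOpen_ball) (hMi i)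
    (fun w hw => hi w (by
      rw [mem_sphere] at hw
      rw [mem_ball, hw]
      linarith)) K ha
  have h2 : η / 2 / (T + 1) * T ≤ η / 2 := by
    rw [div_mul_eq_mul_div, div_le_iff₀ (by linarith)]
    nlinarith
  rw [← hT] at h1
  linarith

end

end Pool.TU
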