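import Pool.Agent.Helper71.TU.D3
import Pool.Agent.Helper71.TU.D4

/-! # TU D5: uniform shrinking outside the postcritical set -/

open Complex Set Filter Topology Metric Polynomial ComplexConjugate Pool.Tuning

namespace Pool.TU

noncomputable section

/-- Points of large modulus are doubled. -/
theorem growth {h : ℂ[X]} (hd : 2 ≤ h.natDegree) :
    ∃ R0 : ℝ, 1 ≤ R0 ∧ ∀ z : ℂ, R0 ≤ ‖z‖ → 2 * ‖z‖ ≤ ‖h.eval z‖ := by
  have hq : 0 < h.divX.degree := by
    rw [← natDegree_pos_iff_degree_pos, natDegree_divX_eq_natDegree_tsub_one]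
    omega
  have ht := Polynomial.tendsto_norm_atTop h.divX hq (l := comap norm atTop) (z := id)
    tendsto_comap
  have h3 := ht.eventually_ge_atTop 3
  rw [eventually_comap] at h3
  obtain ⟨R, hR⟩ := eventually_atTop.1 h3
  refine ⟨max 1 (max R ‖h.coeff 0‖), le_max_left _ _, fun z hz => ?_⟩
  have h1 : R ≤ ‖z‖ := le_trans (le_trans (le_max_left _ _) (le_max_right _ _)) hz
  have h2 : ‖h.coeff 0‖ ≤ ‖z‖ := le_trans (le_trans (le_max_right _ _) (le_max_right _ _)) hz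
  have h4 : 3 ≤ ‖h.divX.eval z‖ := hR ‖z‖ h1 z rfl
  have e : h.eval z = h.divX.eval z * z + h.coeff 0 := by
    conv_lhs => rw [← divX_mul_X_add h]
    simp
  rw [e]
  have h5 : ‖h.divX.eval z * z‖ ≤ ‖h.divX.eval z * z + h.coeff 0‖ + ‖h.coeff 0‖ := by
    have := norm_sub_le (h.divX.eval z * z + h.coeff 0) (h.coeff 0)
    rwa [add_sub_cancel_right] at this
  rw [norm_mul] at h5
  have h6 : 3 * ‖z‖ ≤ ‖h.divX.eval z‖ * ‖z‖ := mul_le_mul_of_nonneg_right h4 (norm_nonneg z)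
  linarith

theorem escape_of_large {h : ℂ[X]} {R0 : ℝ} (h1 : 1 ≤ R0)
    (hR : ∀ z : ℂ, R0 ≤ ‖z‖ → 2 * ‖z‖ ≤ ‖h.eval z‖) {z : ℂ} (hz : R0 ≤ ‖z‖) :
    Tendsto (fun n => ‖(fun z => h.eval z)^[n] z‖) atTop atTop := by
  have key : ∀ n : ℕ, 2 ^ n * ‖z‖ ≤ ‖(fun z => h.eval z)^[n] z‖ := by
    intro n
    induction n with
    | zero => simp
    | succ n ih =>
      rw [Function.iterate_succ_apply']
      have h2 : (1 : ℝ) ≤ 2 ^ n := one_le_pow₀ (by norm_num)
      have h3 : R0 ≤ 2 ^ n * ‖z‖ := by nlinarith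
      have := hR _ (h3.trans ih)
      rw [pow_succ]
      linarith
  refine tendsto_atTop_mono key ?_
  have h0 : 0 < ‖z‖ := by linarith
  exact Tendsto.atTop_mul_const h0 (tendsto_pow_atTop_atTop_of_one_lt (by norm_num))

theorem Sec.mono {h : ℂ[X]} {n : ℕ} {V W : Set ℂ} {S : ℂ → ℂ} (hS : Sec h n V S) (hW : W ⊆ V) :
    Sec h n W S := ⟨hS.cont.mono hW, fun w hw => hS.sec w (hW hw)⟩

/-- Sections on small balls extend to larger balls outside `P`. -/
theorem sec_extend {h : ℂ[X]} {P : Set ℂ} (hd : 2 ≤ h.natDegree) (hP : PC h P) {n : ℕ}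
    {x y : ℂ} {r s : ℝ} (hs : 0 < s) (hsub : ball y s ⊆ ball x r) (hr : Disjoint (ball x r) P)
    {S : ℂ → ℂ} (hS : Sec h n (ball y s) S) :
    ∃ T, Sec h n (ball x r) T ∧ (∀ w ∈ ball y s, T w = S w) ∧
      ∀ w ∈ ball y s, deriv T w = deriv S w := by
  have hy : y ∈ ball y s := mem_ball_self hs
  obtain ⟨T, hT, hTy⟩ := exists_sec hd hP n hr (hsub hy) (hS.sec y hy)
  have hTS : ∀ w ∈ ball y s, T w = S w :=
    sec_unique hd hP n (convex_ball y s).isPreconnected (hr.mono_left hsub) (hT.mono hsub) hS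
      hy hTy
  refine ⟨T, hT, hTS, fun w hw => ?_⟩
  apply Filter.EventuallyEq.deriv_eq
  filter_upwards [isOpen_ball.mem_nhds hw] with z hz using hTS z hz

/-- good points -/
def GoodPt (h : ℂ[X]) (P : Set ℂ) : Set ℂ :=
  {x | ∃ r > 0, Disjoint (ball x r) P ∧ ∀ η > 0, ∃ N : ℕ, ∀ n ≥ N, ∀ S : ℂ → ℂ,
    Sec h n (ball x r) S → ∀ a ∈ ball x r, ‖deriv S a‖ ≤ η}

theorem goodPt_open {h : ℂ[X]} {P : Set ℂ} (hd : 2 ≤ h.natDegree) (hP : PC h P) :
    IsOpen (GoodPt h P) := by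
  rw [isOpen_iff_mem_nhds]
  rintro x ⟨r, hr, hdis, hx⟩
  filter_upwards [isOpen_ball.mem_nhds (mem_ball_self hr)] with y hy
  have hs : 0 < r - dist y x := by
    rw [mem_ball] at hy
    linarith
  have hsub : ball y (r - dist y x) ⊆ ball x r := by
    intro z hz
    rw [mem_ball] at hz ⊢
    have := dist_triangle z y x
    linarith
  refine ⟨r - dist y x, hs, hdis.mono_left hsub, fun η hη => ?_⟩
  obtain ⟨N, hN⟩ := hx η hη
  refine ⟨N, fun n hn S hS a ha => ?_⟩
  obtain ⟨T, hT, -, hTd⟩ := sec_extend hd hP hs hsub hdis hS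
  rw [← hTd a ha]
  exact hN n hn T hT a (hsub ha)

theorem goodPt_closed {h : ℂ[X]} {P : Set ℂ} (hd : 2 ≤ h.natDegree) (hP : PC h P) :
    closure (GoodPt h P) ∩ Pᶜ ⊆ GoodPt h P := by
  rintro x ⟨hxc, hxP⟩
  obtain ⟨ε, hε, hεP⟩ := Metric.isOpen_iff.1 hP.closed.isOpen_compl x hxP
  set t : ℝ := ε / 4 with ht
  have ht0 : 0 < t := by positivity
  obtain ⟨y, hyW, hyx⟩ := Metric.mem_closure_iff.1 hxc t ht0
  have hdis : Disjoint (ball y (3 * t)) P := by
    rw [Set.disjoint_left]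
    intro z hz hzP
    refine hεP ?_ hzP
    rw [mem_ball] at hz ⊢
    have := dist_triangle z y x
    rw [dist_comm y x] at this
    linarith
  obtain ⟨ry, hry, hdy, hy⟩ := hyW
  obtain ⟨R1, hR1⟩ := sec_bounded hd (‖y‖ + 3 * t)
  have hnorm : ∀ w ∈ ball y (3 * t), ‖w‖ ≤ ‖y‖ + 3 * t := by
    intro w hw
    rw [mem_ball, dist_eq_norm] at hw
    have := norm_add_le y (w - y)
    rw [add_sub_cancel] at this
    linarith
  set ρ : ℝ := min ry (3 * t) with hρ
  have hρ0 : 0 < ρ := by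
    rw [hρ]
    positivity
  have hprop := propagate
    (ι := Σ n : ℕ, {S : ℂ → ℂ // Sec h n (ball y (3 * t)) S})
    (comap Sigma.fst atTop) (fun i => i.2.1) (x0 := y) (r := 3 * t) (r' := ρ) hρ0
    (min_le_right _ _)
    (fun i => sec_differentiable hd hP i.1 hdis i.2.2) (M := R1)
    (fun i z hz => hR1 i.1 _ (by
      rw [i.2.2.sec z hz]
      exact hnorm z hz))
    (by
      intro η hη
      obtain ⟨N, hN⟩ := hy η hη
      rw [eventually_comap]
      filter_upwards [eventually_ge_atTop N] with n hn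
      rintro ⟨m, S, hS⟩ hm a ha
      simp only at hm
      subst hm
      obtain ⟨T, hT, -, hTd⟩ := sec_extend hd hP hρ0 (ball_subset_ball (min_le_left _ _)) hdy
        (hS.mono (ball_subset_ball (min_le_right ry (3 * t))))
      simp only
      rw [← hTd a ha]
      exact hN m hn T hT a (ball_subset_ball (min_le_left _ _) ha))
    (s := 2 * t) (by linarith)
  have hsub3 : ball x t ⊆ ball y (3 * t) := by
    intro z hz
    rw [mem_ball] at hz ⊢
    have := dist_triangle z x y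
    linarith
  have hsub2 : ball x t ⊆ ball y (2 * t) := by
    intro z hz
    rw [mem_ball] at hz ⊢
    have := dist_triangle z x y
    linarith
  refine ⟨t, ht0, hdis.mono_left hsub3, fun η hη => ?_⟩
  have h1 := hprop η hη
  rw [eventually_comap] at h1
  obtain ⟨N, hN⟩ := eventually_atTop.1 h1
  refine ⟨N, fun n hn S hS a ha => ?_⟩
  obtain ⟨T, hT, -, hTd⟩ := sec_extend hd hP ht0 hsub3 hdis hS
  rw [← hTd a ha]
  exact hN n hn ⟨n, T, hT⟩ rfl a (hsub2 ha)

theorem goodPt_nonempty {h : ℂ[X]} {P : Set ℂ} (hd : 2 ≤ h.natDegree) (hP : PC h P)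
    (hb : Bornology.IsBounded P) : (Pᶜ ∩ GoodPt h P).Nonempty := by
  obtain ⟨R0, hR1, hR⟩ := growth hd
  obtain ⟨RP, hRP⟩ := hb.subset_closedBall (0 : ℂ)
  set M : ℝ := max R0 (RP + 1) with hM
  have hM0 : 1 ≤ M := hR1.trans (le_max_left _ _)
  set x : ℂ := ((M + 1 : ℝ) : ℂ) with hx
  have hxn : ‖x‖ = M + 1 := by
    rw [hx, Complex.norm_real, Real.norm_of_nonneg (by linarith)]
  have hball : ∀ z ∈ ball x 1, M ≤ ‖z‖ := by
    intro z hz
    rw [mem_ball, dist_eq_norm] at hz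
    have := norm_sub_norm_le x z
    rw [norm_sub_rev] at this
    linarith
  have hdis : Disjoint (ball x 1) P := by
    rw [Set.disjoint_left]
    intro z hz hzP
    have h1 := hRP hzP
    rw [mem_closedBall, dist_zero_right] at h1
    have h2 := hball z hz
    have h3 : RP + 1 ≤ M := le_max_right _ _
    linarith
  obtain ⟨r', hr', hr1, hη⟩ := sreg_escape hd hP one_pos hdis
    (fun z hz => escape_of_large hR1 hR ((le_max_left _ _).trans (hball z hz)))
  have hxP : x ∉ P := fun hxP => Set.disjoint_left.1 hdis (mem_ball_self one_pos) hxP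
  refine ⟨x, hxP, r', hr', hdis.mono_left (ball_subset_ball hr1), fun η hη' => ?_⟩
  obtain ⟨N, hN⟩ := hη η hη'
  refine ⟨N, fun n hn S hS a ha => ?_⟩
  obtain ⟨T, hT, -, hTd⟩ := sec_extend hd hP hr' (ball_subset_ball hr1) hdis hS
  rw [← hTd a ha]
  exact hN n hn T hT a ha

/-- Uniform shrinking near every point outside `P`, if the complement of `P` is connected. -/
theorem sreg {h : ℂ[X]} {P : Set ℂ} (hd : 2 ≤ h.natDegree) (hP : PC h P)
    (hb : Bornology.IsBounded P) (hc : IsPreconnected Pᶜ) {x0 : ℂ} (hx0 : x0 ∉ P) :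
    ∃ r > 0, Disjoint (ball x0 r) P ∧ ∀ η > 0, ∃ N : ℕ, ∀ n ≥ N, ∀ S : ℂ → ℂ,
      Sec h n (ball x0 r) S → ∀ a ∈ ball x0 r, ∀ b ∈ ball x0 r, ‖S a - S b‖ ≤ η := by
  have hall := hc.subset_of_closure_inter_subset (goodPt_open hd hP)
    (goodPt_nonempty hd hP hb) (goodPt_closed hd hP)
  obtain ⟨r, hr, hdis, hx⟩ := hall hx0
  refine ⟨r, hr, hdis, fun η hη => ?_⟩
  obtain ⟨N, hN⟩ := hx (η / (2 * r)) (by positivity)
  refine ⟨N, fun n hn S hS a ha b hb' => ?_⟩
  have hdiff := sec_differentiable hd hP n hdis hS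
  have := Convex.norm_image_sub_le_of_norm_deriv_le (𝕜 := ℂ) (f := S) (s := ball x0 r)
    (C := η / (2 * r)) (x := b) (y := a)
    (fun z hz => hdiff.differentiableAt (isOpen_ball.mem_nhds hz)) (hN n hn S hS)
    (convex_ball x0 r) hb' ha
  refine this.trans ?_
  have h2 : ‖a - b‖ ≤ 2 * r := by
    rw [← dist_eq_norm]
    rw [mem_ball] at ha hb'
    have := dist_triangle a x0 b
    rw [dist_comm x0 b] at this
    linarith
  calc η / (2 * r) * ‖a - b‖ ≤ η / (2 * r) * (2 * r) :=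
        mul_le_mul_of_nonneg_left h2 (by positivity)
    _ = η := by field_simp

end

end Pool.TU
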