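import Pool.Agent.Helper71.TU.H1

/-! # TU H2: rays of z^2-2 -/

open Complex Set Filter Topology Metric Polynomial ComplexConjugate Pool.Tuning

namespace Pool.TU

noncomputable section

namespace H2aux

theorem den_cast (ζ : ℂ) : (1 : ℂ) - (‖ζ‖ : ℂ) = ((1 - ‖ζ‖ : ℝ) : ℂ) := by push_cast; ring

theorem den_cast' (ζ : ℂ) : (1 : ℂ) + (‖ζ‖ : ℂ) = ((1 + ‖ζ‖ : ℝ) : ℂ) := by push_cast; ring

theorem norm_toPlane {ζ : ℂ} (h : ‖ζ‖ < 1) : ‖toPlane ζ‖ = ‖ζ‖ / (1 - ‖ζ‖) := by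
  unfold toPlane
  rw [norm_div, den_cast, norm_real, Real.norm_eq_abs, abs_of_pos (by linarith)]

theorem ofPlane_toPlane {ζ : ℂ} (h : ‖ζ‖ < 1) : ofPlane (toPlane ζ) = ζ := by
  have h1 : (0 : ℝ) < 1 - ‖ζ‖ := by linarith
  have h3 : (1 : ℂ) - (‖ζ‖ : ℂ) ≠ 0 := by
    rw [den_cast]
    exact_mod_cast h1.ne'
  unfold ofPlane
  rw [norm_toPlane h]
  unfold toPlane
  push_cast
  field_simp
  ring

/-- elliptic coordinates -/
theorem exists_eta (z : ℂ) : ∃ η : ℂ, 1 ≤ ‖η‖ ∧ z = η + η⁻¹ := by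
  obtain ⟨s, hs⟩ := IsAlgClosed.exists_pow_nat_eq (z ^ 2 - 4) (n := 2) (by norm_num)
  have hm : (z + s) / 2 * ((z - s) / 2) = 1 := by
    linear_combination (-1 / 4 : ℂ) * hs
  have hn : ‖(z + s) / 2‖ * ‖(z - s) / 2‖ = 1 := by
    rw [← norm_mul, hm, norm_one]
  rcases le_or_gt 1 ‖(z + s) / 2‖ with h | h
  · refine ⟨(z + s) / 2, h, ?_⟩
    have : ((z + s) / 2)⁻¹ = (z - s) / 2 := inv_eq_of_mul_eq_one_right hm
    rw [this]
    ring
  · refine ⟨(z - s) / 2, ?_, ?_⟩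
    · by_contra hc
      push Not at hc
      have : ‖(z + s) / 2‖ * ‖(z - s) / 2‖ < 1 :=
        mul_lt_one_of_nonneg_of_lt_one_left (norm_nonneg _) h hc.le
      linarith
    · have : ((z - s) / 2)⁻¹ = (z + s) / 2 := by
        rw [mul_comm] at hm
        exact inv_eq_of_mul_eq_one_right hm
      rw [this]
      ring

theorem iter_eq (η : ℂ) (h : η ≠ 0) (n : ℕ) :
    (fun w => (X ^ 2 + C (-2) : ℂ[X]).eval w)^[n] (η + η⁻¹) = η ^ 2 ^ n + (η ^ 2 ^ n)⁻¹ := by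
  induction n with
  | zero => simp
  | succ n ih =>
    rw [Function.iterate_succ_apply', ih]
    have h2 : η ^ 2 ^ n ≠ 0 := pow_ne_zero _ h
    simp only [eval_add, eval_pow, eval_X, eval_C]
    rw [pow_succ 2 n, pow_mul]
    field_simp
    ring

theorem inv_eq_conj {η : ℂ} (h : ‖η‖ = 1) : η⁻¹ = conj η := Complex.inv_eq_conj h

/-- elliptic coordinates and the landing value -/
theorem EL {η : ℂ} (h : η ≠ 0) : lvd (ofPlane (η + η⁻¹)) = 2 * η.re / ‖η‖ := by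
  rw [H1aux.lvd_plane]
  have hn : 0 < ‖η‖ := norm_pos_iff.2 h
  have h1 : ‖η + η⁻¹ - 2‖ = ‖η - 1‖ ^ 2 / ‖η‖ := by
    have : η + η⁻¹ - 2 = (η - 1) ^ 2 / η := by
      field_simp
      ring
    rw [this, norm_div, norm_pow]
  have h2 : ‖η + η⁻¹ + 2‖ = ‖η + 1‖ ^ 2 / ‖η‖ := by
    have : η + η⁻¹ + 2 = (η + 1) ^ 2 / η := by
      field_simp
      ring
    rw [this, norm_div, norm_pow]
  have h3 : ‖η - 1‖ ^ 2 + ‖η + 1‖ ^ 2 = 2 * (‖η‖ ^ 2 + 1) := by
    simp only [← Complex.normSq_eq_norm_sq, Complex.normSq_apply, sub_re, add_re, sub_im, add_im,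
      one_re, one_im]
    ring
  have h4 : (η + η⁻¹).re = η.re * (‖η‖ ^ 2 + 1) / ‖η‖ ^ 2 := by
    rw [add_re, inv_re, Complex.normSq_eq_norm_sq]
    field_simp
  rw [h1, h2, ← add_div, h3, h4]
  field_simp
  ring

theorem not_mem_of_gt {η : ℂ} (h : 1 < ‖η‖) : η + η⁻¹ ∉ filledJulia (X ^ 2 + C (-2)) := by
  have h0 : η ≠ 0 := by
    rintro rfl
    simp at h
    linarith
  intro hb
  have hb' : Bornology.IsBounded
    (Set.range fun n : ℕ => (fun w => (X ^ 2 + C (-2) : ℂ[X]).eval w)^[n] (η + η⁻¹)) := hb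
  obtain ⟨R, hR⟩ := hb'.exists_norm_le
  obtain ⟨m, hm⟩ := pow_unbounded_of_one_lt (R + 1) h
  have h1 := hR _ ⟨m, rfl⟩
  simp only at h1
  rw [iter_eq η h0] at h1
  have h2 : ‖η‖ ^ m ≤ ‖η‖ ^ 2 ^ m := pow_le_pow_right₀ h.le (Nat.lt_two_pow_self).le
  have h3 : ‖(η ^ 2 ^ m)⁻¹‖ ≤ 1 := by
    rw [norm_inv, norm_pow]
    exact inv_le_one_of_one_le₀ (one_le_pow₀ h.le)
  have h4 : ‖η ^ 2 ^ m‖ ≤ ‖η ^ 2 ^ m + (η ^ 2 ^ m)⁻¹‖ + ‖(η ^ 2 ^ m)⁻¹‖ := by
    have := norm_sub_le (η ^ 2 ^ m + (η ^ 2 ^ m)⁻¹) ((η ^ 2 ^ m)⁻¹)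
    rwa [add_sub_cancel_right] at this
  rw [norm_pow] at h4
  linarith

theorem eta_circle {η : ℂ} (h : ‖η‖ = 1) : η + η⁻¹ = ((2 * η.re : ℝ) : ℂ) := by
  rw [inv_eq_conj h, add_conj]

theorem re_mem_circle {η : ℂ} (h : ‖η‖ = 1) : 2 * η.re ∈ Icc (-2 : ℝ) 2 := by
  have := abs_le.1 (h ▸ abs_re_le_norm η)
  rw [mem_Icc]
  constructor <;> linarith [this.1, this.2]

end H2aux

open H2aux

/-- the filled Julia set of `z ^ 2 - 2` -/
theorem filled2 : filledJulia (X ^ 2 + C (-2)) = {z | z.im = 0 ∧ z.re ∈ Icc (-2 : ℝ) 2} := by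
  ext z
  constructor
  · intro hz
    obtain ⟨η, h1, rfl⟩ := exists_eta z
    rcases h1.lt_or_eq with h1 | h1
    · exact absurd hz (not_mem_of_gt h1)
    · rw [eta_circle h1.symm]
      exact ⟨ofReal_im _, by rw [ofReal_re]; exact re_mem_circle h1.symm⟩
  · rintro ⟨hz1, hz2⟩
    have key : ∀ n : ℕ, ((fun w => (X ^ 2 + C (-2) : ℂ[X]).eval w)^[n] z).im = 0 ∧
        ((fun w => (X ^ 2 + C (-2) : ℂ[X]).eval w)^[n] z).re ∈ Icc (-2 : ℝ) 2 := by
      intro n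
      induction n with
      | zero => exact ⟨hz1, hz2⟩
      | succ n ih =>
        rw [Function.iterate_succ_apply']
        set w := (fun w => (X ^ 2 + C (-2) : ℂ[X]).eval w)^[n] z with hw
        obtain ⟨i1, i2⟩ := ih
        have e : (X ^ 2 + C (-2) : ℂ[X]).eval w = ((w.re ^ 2 - 2 : ℝ) : ℂ) := by
          have hw' : w = (w.re : ℂ) := Complex.ext (by simp) (by simp [i1])
          simp only [eval_add, eval_pow, eval_X, eval_C]
          rw [hw']
          push_cast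
          simp
          ring
        rw [e]
        refine ⟨ofReal_im _, ?_⟩
        rw [ofReal_re]
        obtain ⟨j1, j2⟩ := i2
        constructor <;> nlinarith
    show Bornology.IsBounded
      (Set.range fun n : ℕ => (fun w => (X ^ 2 + C (-2) : ℂ[X]).eval w)^[n] z)
    rw [isBounded_iff_forall_norm_le]
    refine ⟨2, ?_⟩
    rintro _ ⟨n, rfl⟩
    obtain ⟨k1, k2⟩ := key n
    have hw' : (fun w => (X ^ 2 + C (-2) : ℂ[X]).eval w)^[n] z =
        (((fun w => (X ^ 2 + C (-2) : ℂ[X]).eval w)^[n] z).re : ℂ) :=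
      Complex.ext (ofReal_re _).symm (k1.trans (ofReal_im _).symm)
    show ‖(fun w => (X ^ 2 + C (-2) : ℂ[X]).eval w)^[n] z‖ ≤ 2
    rw [hw', norm_real, Real.norm_eq_abs, abs_le]
    exact k2

theorem exists_bottcher2 : IsBottcher (-2) (fun ζ => ζ + ζ⁻¹) := by
  refine ⟨?_, ?_, ?_, ?_, ?_, ?_⟩
  · refine continuousOn_id.add (continuousOn_inv₀.mono ?_)
    intro ζ hζ h0
    have h1 : (1 : ℝ) ≤ ‖ζ‖ := hζ
    rw [h0] at h1
    simp at h1
    linarith
  · intro ζ hζ ξ hξ h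
    have hζ' : (1 : ℝ) < ‖ζ‖ := hζ
    have hξ' : (1 : ℝ) < ‖ξ‖ := hξ
    have h0 : ζ ≠ 0 := by
      rintro rfl
      simp at hζ'
      linarith
    have h1 : ξ ≠ 0 := by
      rintro rfl
      simp at hξ'
      linarith
    have h2 : (ζ - ξ) * (ζ * ξ - 1) = 0 := by
      have h' : ζ + ζ⁻¹ = ξ + ξ⁻¹ := h
      field_simp at h'
      linear_combination h'
    rcases mul_eq_zero.1 h2 with h3 | h3
    · exact sub_eq_zero.1 h3
    · exfalso
      have h4 : ‖ζ * ξ‖ = 1 := by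
        rw [sub_eq_zero.1 h3, norm_one]
      rw [norm_mul] at h4
      nlinarith
  · refine differentiableOn_id.add (differentiableOn_inv.mono ?_)
    intro ζ hζ h0
    have h1 : (1 : ℝ) < ‖ζ‖ := hζ
    rw [h0] at h1
    simp at h1
    linarith
  · ext z
    constructor
    · rintro ⟨η, hη, rfl⟩
      exact not_mem_of_gt hη
    · intro hz
      obtain ⟨η, h1, rfl⟩ := exists_eta z
      rcases h1.lt_or_eq with h1 | h1
      · exact ⟨η, h1, rfl⟩
      · exfalso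
        apply hz
        rw [filled2, eta_circle h1.symm]
        exact ⟨ofReal_im _, by rw [ofReal_re]; exact re_mem_circle h1.symm⟩
  · intro ζ hζ
    have h0 : ζ ≠ 0 := by
      rintro rfl
      simp at hζ
      linarith
    show (ζ + ζ⁻¹) ^ 2 + (-2) = ζ ^ 2 + (ζ ^ 2)⁻¹
    field_simp
    ring
  · have h1 : Tendsto (fun ζ : ℂ => 1 + ζ⁻¹ * ζ⁻¹) (Bornology.cobounded ℂ) (𝓝 (1 + 0 * 0)) :=
      tendsto_const_nhds.add (tendsto_inv₀_cobounded.mul tendsto_inv₀_cobounded)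
    rw [mul_zero, add_zero] at h1
    refine h1.congr' ?_
    filter_upwards [Bornology.eventually_ne_cobounded (0 : ℂ)] with ζ hζ
    field_simp

theorem lvd_diskMap {ζ : ℂ} (h : ζ ∈ closedBall (0 : ℂ) 1) :
    lvd (diskMap (-2) ζ) = lvd ζ ^ 2 - 2 := by
  rw [mem_closedBall_zero_iff] at h
  unfold diskMap
  split_ifs with h1
  · obtain ⟨η, hη, hz⟩ := exists_eta (toPlane ζ)
    have h0 : η ≠ 0 := by
      rintro rfl
      simp at hη
      linarith
    have e1 : lvd ζ = 2 * η.re / ‖η‖ := by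
      rw [← EL h0, ← hz, ofPlane_toPlane h1]
    have e2 : toPlane ζ ^ 2 + (-2) = η ^ 2 + (η ^ 2)⁻¹ := by
      rw [hz]
      field_simp
      ring
    rw [e2, EL (pow_ne_zero 2 h0), e1, norm_pow]
    have hn : 0 < ‖η‖ := norm_pos_iff.2 h0
    have hsq : ‖η‖ ^ 2 = η.re ^ 2 + η.im ^ 2 := by
      rw [← Complex.normSq_eq_norm_sq, Complex.normSq_apply]
      ring
    have hre : (η ^ 2).re = η.re ^ 2 - η.im ^ 2 := by
      rw [pow_two, mul_re]
      ring
    rw [hre, div_pow, div_sub' (by positivity)]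
    congr 1
    rw [hsq]
    ring
  · have h2 : ‖ζ‖ = 1 := le_antisymm h (not_lt.1 h1)
    rw [lvd_circle h2, lvd_circle (by rw [norm_pow, h2, one_pow])]
    have hsq : ζ.re ^ 2 + ζ.im ^ 2 = 1 := by
      have : ‖ζ‖ ^ 2 = 1 := by rw [h2, one_pow]
      rw [← Complex.normSq_eq_norm_sq, Complex.normSq_apply] at this
      linarith
    have hre : (ζ ^ 2).re = ζ.re ^ 2 - ζ.im ^ 2 := by
      rw [pow_two, mul_re]
      ring
    rw [hre]
    linear_combination (-2 : ℝ) * hsq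

theorem lands_iff {ζ w : ℂ} (h : ζ ∈ closedBall (0 : ℂ) 1) :
    LandsAt (-2) (fun ζ => ζ + ζ⁻¹) ζ w ↔ w = lvd ζ := by
  rw [mem_closedBall_zero_iff] at h
  -- value of the landing point of a ray
  have hray : ∀ η : ℂ, 1 < ‖η‖ → ‖ζ‖ < 1 → toPlane ζ = η + η⁻¹ →
      η / ‖η‖ + (η / ‖η‖)⁻¹ = (lvd ζ : ℂ) := by
    intro η h1 h2 h3
    have h0 : η ≠ 0 := by
      rintro rfl
      simp at h1
      linarith
    have e1 : lvd ζ = 2 * η.re / ‖η‖ := by
      rw [← EL h0, ← h3, ofPlane_toPlane h2]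
    have hn : ‖η / ‖η‖‖ = 1 := by
      rw [norm_div, norm_real, norm_norm]
      exact div_self (norm_pos_iff.2 h0).ne'
    rw [eta_circle hn, e1, div_ofReal_re]
    congr 1
    ring
  constructor
  · rintro (⟨h1, h2⟩ | ⟨h1, h2, h3⟩ | ⟨h1, η, h2, h3, h4⟩)
    · rw [h2, lvd_circle h1]
      exact eta_circle h1
    · rw [filled2] at h2
      obtain ⟨i1, i2⟩ := h2
      have e : toPlane ζ = ((toPlane ζ).re : ℂ) := Complex.ext (by simp) (by simp [i1])
      rw [h3]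
      have : lvd ζ = (toPlane ζ).re := by
        rw [← lvd_ofPlane i2, ← e, ofPlane_toPlane h1]
      rw [this]
      exact e
    · rw [h4]
      exact hray η h2 h1 h3
  · intro hw
    rcases h.lt_or_eq with h1 | h1
    · by_cases hK : toPlane ζ ∈ filledJulia (X ^ 2 + C (-2))
      · refine Or.inr (Or.inl ⟨h1, hK, ?_⟩)
        rw [filled2] at hK
        obtain ⟨i1, i2⟩ := hK
        have e : toPlane ζ = ((toPlane ζ).re : ℂ) := Complex.ext (by simp) (by simp [i1])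
        have : lvd ζ = (toPlane ζ).re := by
          rw [← lvd_ofPlane i2, ← e, ofPlane_toPlane h1]
        rw [hw, this]
        exact e.symm
      · have hK' : toPlane ζ ∈ (filledJulia (X ^ 2 + C (-2)))ᶜ := hK
        rw [← exists_bottcher2.img] at hK'
        obtain ⟨η, h2, h3⟩ := hK'
        refine Or.inr (Or.inr ⟨h1, η, h2, h3.symm, ?_⟩)
        rw [hw]
        exact (hray η h2 h1 h3.symm).symm
    · refine Or.inl ⟨h1, ?_⟩
      rw [hw, lvd_circle h1]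
      exact (eta_circle h1).symm

end

end Pool.TU
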