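import Pool.Agent.Helper71.TU.H5
import Pool.Agent.Helper71.TU.H2

/-! # TU H6: the folded model map -/

open Complex Set Filter Topology Metric Polynomial ComplexConjugate Pool.Tuning

namespace Pool.TU

noncomputable section

private theorem h6_fold_conj (w : ℂ) : fold (conj w) = fold w := by
  unfold fold
  rcases lt_trichotomy w.im 0 with h | h | h
  · rw [if_pos (by rw [conj_im]; linarith), if_neg (not_le.2 h)]
  · rw [if_pos (by rw [conj_im, h]; simp), if_pos h.ge]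
    exact Complex.conj_eq_iff_im.2 h
  · rw [if_neg (by rw [conj_im]; linarith), if_pos h.le, Complex.conj_conj]

private theorem h6_fold_norm (w : ℂ) : ‖fold w‖ = ‖w‖ := by
  unfold fold
  split_ifs
  · rfl
  · exact Complex.norm_conj w

private theorem h6_fold_of {w : ℂ} (h : 0 ≤ w.im) : fold w = w := by
  unfold fold
  rw [if_pos h]

private theorem h6_sqf_norm (ζ : ℂ) : ‖sqf ζ‖ = ‖ζ‖ ^ 2 := by
  unfold sqf
  rw [h6_fold_norm, norm_pow]

private theorem h6_sqf_mem {ζ : ℂ} (h : ζ ∈ HD) : sqf ζ ∈ HD := by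
  refine ⟨?_, ?_⟩
  · rw [h6_sqf_norm]
    have h1 : ‖ζ‖ ≤ 1 := h.1
    nlinarith [norm_nonneg ζ]
  · exact fold_mem (ζ ^ 2)

private theorem h6_tau {ζ : ℂ} (h : ζ ∈ HD) : tau ζ = Lam2 (sqf ζ) := fold_diskMap h

private theorem h6_sqf_neg_conj (ζ : ℂ) : sqf (-(conj ζ)) = sqf ζ := by
  unfold sqf
  have : (-(conj ζ)) ^ 2 = conj (ζ ^ 2) := by rw [neg_sq, map_pow]
  rw [this, h6_fold_conj]

theorem tau_maps : MapsTo tau HD HD := by
  intro ζ h
  rw [h6_tau h]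
  exact Lam2_maps (h6_sqf_mem h)

theorem tau_cont : ContinuousOn tau HD := by
  have h1 : ContinuousOn sqf HD := by
    unfold sqf
    exact (fold_cont.comp (continuous_pow 2)).continuousOn
  have h2 : ContinuousOn (fun ζ => Lam2 (sqf ζ)) HD := Lam2_cont.comp h1 (fun ζ h => h6_sqf_mem h)
  exact h2.congr (fun ζ h => h6_tau h)

theorem tau_norm {ζ : ℂ} (h : ζ ∈ HD) : ‖tau ζ‖ < 1 ↔ ‖ζ‖ < 1 := by
  rw [h6_tau h, Lam2_norm (h6_sqf_mem h), h6_sqf_norm]
  constructor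
  · intro h1
    by_contra h2
    push Not at h2
    nlinarith
  · intro h1
    nlinarith [norm_nonneg ζ]

theorem tau_circle {ζ : ℂ} (h : ζ ∈ HD) (h1 : ‖ζ‖ = 1) : tau ζ = sqf ζ := by
  rw [h6_tau h]
  apply Lam2_circle
  rw [h6_sqf_norm, h1, one_pow]

theorem lvd_tau {ζ : ℂ} (h : ζ ∈ HD) : lvd (tau ζ) = lvd ζ ^ 2 - 2 := by
  have h0 : ζ ∈ closedBall (0 : ℂ) 1 := by
    rw [mem_closedBall, dist_zero_right]; exact h.1
  have h1 : lvd (tau ζ) = lvd (diskMap (-2) ζ) := by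
    unfold tau fold
    split_ifs
    · rfl
    · exact lvd_conj _
  rw [h1, lvd_diskMap h0]

theorem tau_two_thirds : tau (2 / 3) = 2 / 3 ∧ tau (-(2 / 3)) = 2 / 3 ∧ tau 0 = -(2 / 3) := by
  have n1 : ‖(2 / 3 : ℂ)‖ = 2 / 3 := by
    rw [norm_div]; simp
  have n2 : ‖(2 : ℂ)‖ = 2 := by simp
  have o1 : ofPlane 2 = 2 / 3 := by
    unfold ofPlane
    rw [n2]; norm_num
  have o2 : ofPlane (-2) = -(2 / 3) := by
    unfold ofPlane
    rw [norm_neg, n2]; norm_num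
  have t1 : toPlane (2 / 3) = 2 := by
    unfold toPlane
    rw [n1]; norm_num
  have t2 : toPlane (-(2 / 3)) = -2 := by
    unfold toPlane
    rw [norm_neg, n1]; norm_num
  have t0 : toPlane 0 = 0 := by
    unfold toPlane
    simp
  refine ⟨?_, ?_, ?_⟩
  · unfold tau diskMap
    rw [n1, if_pos (by norm_num), t1]
    have : (2 : ℂ) ^ 2 + -2 = 2 := by norm_num
    rw [this, o1]
    apply h6_fold_of
    norm_num
  · unfold tau diskMap
    rw [norm_neg, n1, if_pos (by norm_num), t2]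
    have : (-2 : ℂ) ^ 2 + -2 = 2 := by norm_num
    rw [this, o1]
    apply h6_fold_of
    norm_num
  · unfold tau diskMap
    rw [norm_zero, if_pos (by norm_num), t0]
    have : (0 : ℂ) ^ 2 + -2 = -2 := by norm_num
    rw [this, o2]
    apply h6_fold_of
    norm_num

/-- the principal square root on the closed upper half plane -/
private def h6_rr (η : ℂ) : ℂ :=
  (Real.sqrt ((‖η‖ + η.re) / 2) : ℝ) + (Real.sqrt ((‖η‖ - η.re) / 2) : ℝ) * I

private theorem h6_rr_re (η : ℂ) : (h6_rr η).re = Real.sqrt ((‖η‖ + η.re) / 2) := by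
  unfold h6_rr; simp

private theorem h6_rr_im (η : ℂ) : (h6_rr η).im = Real.sqrt ((‖η‖ - η.re) / 2) := by
  unfold h6_rr; simp

private theorem h6_rr_cont : Continuous h6_rr := by
  unfold h6_rr
  fun_prop

private theorem h6_rr_sq {η : ℂ} (h : 0 ≤ η.im) : h6_rr η ^ 2 = η := by
  have h1 : 0 ≤ (‖η‖ + η.re) / 2 := by
    have := neg_abs_le η.re
    have := Complex.abs_re_le_norm η
    linarith
  have h2 : 0 ≤ (‖η‖ - η.re) / 2 := by
    have := le_abs_self η.re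
    have := Complex.abs_re_le_norm η
    linarith
  have hn : ‖η‖ ^ 2 = η.re ^ 2 + η.im ^ 2 := by
    rw [← Complex.normSq_eq_norm_sq, Complex.normSq_apply]; ring
  have h3 : Real.sqrt ((‖η‖ + η.re) / 2) * Real.sqrt ((‖η‖ - η.re) / 2) = η.im / 2 := by
    rw [← Real.sqrt_mul h1]
    have : (‖η‖ + η.re) / 2 * ((‖η‖ - η.re) / 2) = (η.im / 2) ^ 2 := by
      nlinarith
    rw [this, Real.sqrt_sq (by linarith)]
  apply Complex.ext
  · rw [pow_two, Complex.mul_re, h6_rr_re, h6_rr_im, Real.mul_self_sqrt h1, Real.mul_self_sqrt h2]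
    ring
  · rw [pow_two, Complex.mul_im, h6_rr_re, h6_rr_im]
    linarith

private theorem h6_rr_norm {η : ℂ} (h : 0 ≤ η.im) : ‖h6_rr η‖ ^ 2 = ‖η‖ := by
  rw [← norm_pow, h6_rr_sq h]

private theorem h6_rr_mem {η : ℂ} (h : η ∈ HD) : h6_rr η ∈ HD := by
  refine ⟨?_, ?_⟩
  · have h1 := h6_rr_norm h.2
    have h2 : ‖η‖ ≤ 1 := h.1
    have h3 := norm_nonneg (h6_rr η)
    show ‖h6_rr η‖ ≤ 1
    nlinarith
  · rw [h6_rr_im]
    exact Real.sqrt_nonneg _

private theorem h6_sqf_rr {η : ℂ} (h : η ∈ HD) : sqf (h6_rr η) = η := by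
  unfold sqf
  rw [h6_rr_sq h.2, h6_fold_of h.2]

private theorem h6_rr_sqf {ζ : ℂ} (h : ζ ∈ HD) (h0 : 0 ≤ ζ.re) : h6_rr (sqf ζ) = ζ := by
  have h1 : 0 ≤ (ζ ^ 2).im := by
    rw [pow_two, Complex.mul_im]
    have := h.2
    nlinarith [mul_nonneg h0 h.2]
  have h2 : sqf ζ = ζ ^ 2 := h6_fold_of h1
  rw [h2]
  have h3 := h6_rr_sq h1
  have h4 : 0 ≤ (h6_rr (ζ ^ 2)).re := by rw [h6_rr_re]; exact Real.sqrt_nonneg _
  have h5 : 0 ≤ (h6_rr (ζ ^ 2)).im := by rw [h6_rr_im]; exact Real.sqrt_nonneg _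
  rcases sq_eq_sq_iff_eq_or_eq_neg.1 h3 with h6 | h6
  · exact h6
  · rw [h6] at h4 h5
    rw [h6]
    rw [Complex.neg_re] at h4
    rw [Complex.neg_im] at h5
    have h7 := h.2
    apply Complex.ext
    · rw [Complex.neg_re]; linarith
    · rw [Complex.neg_im]; linarith

private theorem h6_compact : IsCompact HD := by
  have : HD = closedBall (0 : ℂ) 1 ∩ {ζ | 0 ≤ ζ.im} := by
    ext ζ
    simp [HD]
  rw [this]
  exact (isCompact_closedBall 0 1).inter_right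
    (isClosed_le continuous_const Complex.continuous_im)

private theorem h6_inv : ∃ Λ : ℂ → ℂ, ContinuousOn Λ HD ∧ (∀ ξ ∈ HD, Λ ξ ∈ HD ∧ Lam2 (Λ ξ) = ξ) ∧
    ∀ η ∈ HD, Λ (Lam2 η) = η := by
  classical
  have hb := Lam2_bij
  have : CompactSpace HD := isCompact_iff_compactSpace.1 h6_compact
  let f : HD → HD := fun x => ⟨Lam2 x, hb.mapsTo x.2⟩
  have hf : Function.Bijective f := by
    constructor
    · intro x y hxy
      apply Subtype.ext
      apply hb.injOn x.2 y.2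
      exact congrArg Subtype.val hxy
    · intro y
      obtain ⟨x, hx, hxy⟩ := hb.surjOn y.2
      exact ⟨⟨x, hx⟩, Subtype.ext hxy⟩
  have hc : Continuous f := by
    apply Continuous.subtype_mk
    exact continuousOn_iff_continuous_domRestrict.1 Lam2_cont
  let e : HD ≃ₜ HD := Continuous.homeoOfEquivCompactToT2 (f := Equiv.ofBijective f hf) hc
  have hef : ∀ x : HD, e x = f x := fun x => rfl
  refine ⟨fun ξ => if h : ξ ∈ HD then (e.symm ⟨ξ, h⟩ : ℂ) else 0, ?_, ?_, ?_⟩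
  · rw [continuousOn_iff_continuous_domRestrict]
    have : (HD.domRestrict fun ξ => if h : ξ ∈ HD then (e.symm ⟨ξ, h⟩ : ℂ) else 0) =
        fun x : HD => (e.symm x : ℂ) := by
      funext x
      simp [Set.domRestrict, x.2]
    rw [this]
    exact continuous_subtype_val.comp e.symm.continuous
  · intro ξ hξ
    simp only [dif_pos hξ]
    refine ⟨(e.symm ⟨ξ, hξ⟩).2, ?_⟩
    have := hef (e.symm ⟨ξ, hξ⟩)
    rw [e.apply_symm_apply] at this
    exact (congrArg Subtype.val this).symm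
  · intro η hη
    have h1 : Lam2 η ∈ HD := hb.mapsTo hη
    simp only [dif_pos h1]
    have : e.symm ⟨Lam2 η, h1⟩ = ⟨η, hη⟩ := by
      rw [Homeomorph.symm_apply_eq]
      rfl
    rw [this]

private theorem h6_real {η : ℂ} (h : η ∈ HD) (h0 : η.im = 0) :
    η = ((η.re : ℝ) : ℂ) ∧ η.re ∈ Icc (-1 : ℝ) 1 := by
  refine ⟨?_, ?_⟩
  · apply Complex.ext <;> simp [h0]
  · have h1 := Complex.abs_re_le_norm η
    have h2 := abs_le.1 (h1.trans h.1)
    exact h2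

private theorem h6_Lam2_zero : Lam2 0 = -(2 / 3) := by
  rw [Lam2_zero]
  unfold ofPlane
  rw [norm_neg]
  have n2 : ‖(2 : ℂ)‖ = 2 := by simp
  rw [n2]; norm_num

private theorem h6_L0 : (Lam2 ((0 : ℝ) : ℂ)).re = -(2 / 3) := by
  rw [Complex.ofReal_zero, h6_Lam2_zero]
  norm_num

private theorem h6_iff_nonneg {η : ℂ} (h : η ∈ HD) (h0 : η.im = 0) :
    0 ≤ η.re ↔ -(2 / 3) ≤ (Lam2 η).re := by
  obtain ⟨h1, h2⟩ := h6_real h h0
  have h3 : (0 : ℝ) ∈ Icc (-1 : ℝ) 1 := ⟨by norm_num, by norm_num⟩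
  have := Lam2_mono.le_iff_le h3 h2
  rw [h6_L0, ← h1] at this
  exact this.symm

private theorem h6_iff_nonpos {η : ℂ} (h : η ∈ HD) (h0 : η.im = 0) :
    η.re ≤ 0 ↔ (Lam2 η).re ≤ -(2 / 3) := by
  obtain ⟨h1, h2⟩ := h6_real h h0
  have h3 : (0 : ℝ) ∈ Icc (-1 : ℝ) 1 := ⟨by norm_num, by norm_num⟩
  have := Lam2_mono.le_iff_le h2 h3
  rw [h6_L0, ← h1] at this
  exact this.symm

private theorem h6_neg_conj_mem {ζ : ℂ} (h : ζ ∈ HD) : -(conj ζ) ∈ HD := by
  refine ⟨?_, ?_⟩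
  · rw [norm_neg, Complex.norm_conj]; exact h.1
  · have := h.2
    simpa using this

private theorem h6_norm_eq {z : ℂ} (h : z.im = 0) (h0 : 0 ≤ z.re) : ‖z‖ = z.re := by
  have : z = ((z.re : ℝ) : ℂ) := by apply Complex.ext <;> simp [h]
  rw [this, Complex.norm_real, Real.norm_eq_abs, Complex.ofReal_re, abs_of_nonneg h0]

private theorem h6_norm_eq' {z : ℂ} (h : z.im = 0) (h0 : z.re ≤ 0) : ‖z‖ = -z.re := by
  have : z = ((z.re : ℝ) : ℂ) := by apply Complex.ext <;> simp [h]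
  rw [this, Complex.norm_real, Real.norm_eq_abs, Complex.ofReal_re, abs_of_nonpos h0]

private theorem h6_rr_im_eq {η : ℂ} (h : η ∈ HD) : (h6_rr η).im = 0 ↔ η.im = 0 ∧ 0 ≤ η.re := by
  constructor
  · intro h1
    have h2 := h6_rr_sq h.2
    have h3 : 0 ≤ (h6_rr η).re := by rw [h6_rr_re]; exact Real.sqrt_nonneg _
    constructor
    · rw [← h2, pow_two, Complex.mul_im, h1]; ring
    · rw [← h2, pow_two, Complex.mul_re, h1]; nlinarith
  · rintro ⟨h1, h2⟩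
    rw [h6_rr_im, h6_norm_eq h1 h2]
    simp

private theorem h6_rr_re_eq {η : ℂ} (h : η ∈ HD) : (h6_rr η).re = 0 ↔ η.im = 0 ∧ η.re ≤ 0 := by
  constructor
  · intro h1
    have h2 := h6_rr_sq h.2
    constructor
    · rw [← h2, pow_two, Complex.mul_im, h1]; ring
    · rw [← h2, pow_two, Complex.mul_re, h1]; nlinarith
  · rintro ⟨h1, h2⟩
    rw [h6_rr_re, h6_norm_eq' h1 h2]
    simp

theorem exists_roots : ∃ tr tl, Roots tr tl := by
  obtain ⟨Λ, hΛc, hΛ, hΛi⟩ := h6_inv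
  have htr_mem : ∀ ξ ∈ HD, h6_rr (Λ ξ) ∈ HD := fun ξ h => h6_rr_mem (hΛ ξ h).1
  have htr_re : ∀ ξ : ℂ, 0 ≤ (h6_rr (Λ ξ)).re := fun ξ => by
    rw [h6_rr_re]; exact Real.sqrt_nonneg _
  have htr_tau : ∀ ξ ∈ HD, tau (h6_rr (Λ ξ)) = ξ := by
    intro ξ h
    rw [h6_tau (htr_mem ξ h), h6_sqf_rr (hΛ ξ h).1, (hΛ ξ h).2]
  have htl_tau : ∀ ξ ∈ HD, tau (-(conj (h6_rr (Λ ξ)))) = ξ := by
    intro ξ h
    rw [h6_tau (h6_neg_conj_mem (htr_mem ξ h)), h6_sqf_neg_conj, h6_sqf_rr (hΛ ξ h).1, (hΛ ξ h).2]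
  have htr_inv : ∀ ζ ∈ HD, 0 ≤ ζ.re → h6_rr (Λ (tau ζ)) = ζ := by
    intro ζ h h0
    rw [h6_tau h, hΛi _ (h6_sqf_mem h), h6_rr_sqf h h0]
  have hcr : ContinuousOn (fun ξ => h6_rr (Λ ξ)) HD := h6_rr_cont.comp_continuousOn hΛc
  have hr_real : ∀ ξ ∈ HD, (h6_rr (Λ ξ)).im = 0 ↔ ξ.im = 0 ∧ -(2 / 3) ≤ ξ.re := by
    intro ξ h
    obtain ⟨h1, h2⟩ := hΛ ξ h
    rw [h6_rr_im_eq h1]
    have h3 : (Λ ξ).im = 0 ↔ ξ.im = 0 := by
      rw [← Lam2_real h1, h2]
    rw [h3]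
    constructor
    · rintro ⟨h4, h5⟩
      refine ⟨h4, ?_⟩
      have := (h6_iff_nonneg h1 (h3.2 h4)).1 h5
      rwa [h2] at this
    · rintro ⟨h4, h5⟩
      refine ⟨h4, ?_⟩
      apply (h6_iff_nonneg h1 (h3.2 h4)).2
      rwa [h2]
  have hr_im : ∀ ξ ∈ HD, (h6_rr (Λ ξ)).re = 0 ↔ ξ.im = 0 ∧ ξ.re ≤ -(2 / 3) := by
    intro ξ h
    obtain ⟨h1, h2⟩ := hΛ ξ h
    rw [h6_rr_re_eq h1]
    have h3 : (Λ ξ).im = 0 ↔ ξ.im = 0 := by
      rw [← Lam2_real h1, h2]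
    rw [h3]
    constructor
    · rintro ⟨h4, h5⟩
      refine ⟨h4, ?_⟩
      have := (h6_iff_nonpos h1 (h3.2 h4)).1 h5
      rwa [h2] at this
    · rintro ⟨h4, h5⟩
      refine ⟨h4, ?_⟩
      apply (h6_iff_nonpos h1 (h3.2 h4)).2
      rwa [h2]
  have hnorm_r : ∀ ξ ∈ HD, ‖h6_rr (Λ ξ)‖ < 1 ↔ ‖ξ‖ < 1 := by
    intro ξ h
    rw [← tau_norm (htr_mem ξ h), htr_tau ξ h]
  have hmono : StrictMonoOn (fun t : ℝ => (h6_rr (Λ t)).re) (Icc (-(2 / 3)) 1) := by
    intro s hs t ht hst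
    have key : ∀ x : ℝ, x ∈ Icc (-(2 / 3) : ℝ) 1 → (x : ℂ) ∈ HD := by
      intro x hx
      refine ⟨?_, by simp⟩
      rw [Complex.norm_real, Real.norm_eq_abs, abs_le]
      exact ⟨by linarith [hx.1], hx.2⟩
    have key2 : ∀ x : ℝ, x ∈ Icc (-(2 / 3) : ℝ) 1 →
        Lam2 (((h6_rr (Λ x)).re ^ 2 : ℝ) : ℂ) = x ∧
        (h6_rr (Λ x)).re ^ 2 ∈ Icc (-1 : ℝ) 1 := by
      intro x hx
      have h1 := key x hx
      have h2 : (h6_rr (Λ x)).im = 0 := (hr_real x h1).2 ⟨by simp, by simpa using hx.1⟩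
      have h3 := h6_rr_sq (hΛ x h1).1.2
      have h4 : h6_rr (Λ x) = (((h6_rr (Λ x)).re : ℝ) : ℂ) := by
        apply Complex.ext <;> simp [h2]
      have h5 : (((h6_rr (Λ x)).re ^ 2 : ℝ) : ℂ) = Λ x := by
        rw [Complex.ofReal_pow, ← h4, h3]
      have h6 : (h6_rr (Λ x)).re ^ 2 ≤ 1 := by
        have h7 := (h6_real (htr_mem x h1) h2).2
        nlinarith [h7.1, h7.2]
      exact ⟨by rw [h5]; exact (hΛ x h1).2, by nlinarith [sq_nonneg (h6_rr (Λ x)).re], h6⟩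
    simp only
    by_contra hle
    push Not at hle
    obtain ⟨s1, s2⟩ := key2 s hs
    obtain ⟨t1, t2⟩ := key2 t ht
    have h1 : (h6_rr (Λ t)).re ^ 2 ≤ (h6_rr (Λ s)).re ^ 2 := by
      have := htr_re t
      nlinarith [htr_re s]
    have h2 := Lam2_mono.monotoneOn t2 s2 h1
    rw [s1, t1, Complex.ofReal_re, Complex.ofReal_re] at h2
    linarith
  have hv1 : h6_rr (Λ (-(2 / 3))) = 0 := by
    have := htr_inv 0 ⟨by simp, by simp⟩ (by simp)
    rwa [tau_two_thirds.2.2] at this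
  have hm23 : (2 / 3 : ℂ) ∈ HD := by
    refine ⟨?_, by norm_num⟩
    rw [norm_div]; simp; norm_num
  have hv2 : h6_rr (Λ (2 / 3)) = 2 / 3 := by
    have := htr_inv (2 / 3) hm23 (by norm_num)
    rwa [tau_two_thirds.1] at this
  have hm1 : (1 : ℂ) ∈ HD := ⟨by simp, by simp⟩
  have ht1 : tau 1 = 1 := by
    rw [tau_circle hm1 (by simp)]
    unfold sqf
    rw [one_pow]
    exact h6_fold_of (by simp)
  have hv3 : h6_rr (Λ 1) = 1 := by
    have := htr_inv 1 hm1 (by simp)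
    rwa [ht1] at this
  refine ⟨fun ξ => h6_rr (Λ ξ), fun ξ => -(conj (h6_rr (Λ ξ))), ?_⟩
  constructor
  · exact hcr
  · exact (Complex.continuous_conj.comp_continuousOn hcr).neg
  · exact fun ξ h => htr_mem ξ h
  · exact fun ξ h => h6_neg_conj_mem (htr_mem ξ h)
  · exact fun ξ _ => htr_re ξ
  · intro ξ _
    show (-(conj (h6_rr (Λ ξ)))).re ≤ 0
    rw [Complex.neg_re, Complex.conj_re]
    linarith [htr_re ξ]
  · exact htr_tau
  · exact htl_tau
  · exact htr_inv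
  · -- l_inv
    intro ζ h h0
    show -(conj (h6_rr (Λ (tau ζ)))) = ζ
    have h1 := h6_neg_conj_mem h
    have h2 : tau (-(conj ζ)) = tau ζ := by
      rw [h6_tau h1, h6_tau h, h6_sqf_neg_conj]
    have h3 := htr_inv _ h1 (by rw [Complex.neg_re, Complex.conj_re]; linarith)
    rw [h2] at h3
    rw [h3, map_neg, Complex.conj_conj, neg_neg]
  · exact hnorm_r
  · intro ξ h
    show ‖-(conj (h6_rr (Λ ξ)))‖ < 1 ↔ ‖ξ‖ < 1
    rw [norm_neg, Complex.norm_conj]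
    exact hnorm_r ξ h
  · -- r_circ
    intro ξ h h1
    have h2 : ‖h6_rr (Λ ξ)‖ = 1 := by
      apply le_antisymm (htr_mem ξ h).1
      by_contra h3
      push Not at h3
      have := (hnorm_r ξ h).1 h3
      linarith
    have h3 := tau_circle (htr_mem ξ h) h2
    rw [htr_tau ξ h] at h3
    exact h3.symm
  · -- l_circ
    intro ξ h h1
    have h2 : ‖h6_rr (Λ ξ)‖ = 1 := by
      apply le_antisymm (htr_mem ξ h).1
      by_contra h3
      push Not at h3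
      have := (hnorm_r ξ h).1 h3
      linarith
    have h3 := tau_circle (htr_mem ξ h) h2
    rw [htr_tau ξ h] at h3
    show sqf (-(conj (h6_rr (Λ ξ)))) = ξ
    rw [h6_sqf_neg_conj]
    exact h3.symm
  · exact hr_real
  · intro ξ h
    show (-(conj (h6_rr (Λ ξ)))).im = 0 ↔ _
    have : (-(conj (h6_rr (Λ ξ)))).im = (h6_rr (Λ ξ)).im := by simp
    rw [this]
    exact hr_real ξ h
  · -- eq_iff
    intro ξ h
    rw [← hr_im ξ h]
    show h6_rr (Λ ξ) = -(conj (h6_rr (Λ ξ))) ↔ _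
    constructor
    · intro h1
      have h2 := congrArg Complex.re h1
      rw [Complex.neg_re, Complex.conj_re] at h2
      linarith
    · intro h1
      apply Complex.ext
      · rw [Complex.neg_re, Complex.conj_re, h1, neg_zero]
      · rw [Complex.neg_im, Complex.conj_im, neg_neg]
  · exact hmono
  · intro s hs t ht hst
    have := hmono hs ht hst
    show (-(conj (h6_rr (Λ t)))).re < (-(conj (h6_rr (Λ s)))).re
    rw [Complex.neg_re, Complex.conj_re, Complex.neg_re, Complex.conj_re]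
    simp only at this
    linarith
  · exact ⟨hv1, hv2, hv3⟩
  · refine ⟨?_, ?_, ?_⟩
    · show -(conj (h6_rr (Λ (-(2 / 3))))) = 0
      rw [hv1]; simp
    · show -(conj (h6_rr (Λ (2 / 3)))) = -(2 / 3)
      rw [hv2, Complex.conj_eq_iff_im.2 (by norm_num)]
    · show -(conj (h6_rr (Λ 1))) = -1
      rw [hv3]; simp

end

end Pool.TU
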