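import Pool.Agent.Helper71.TU.H3
import Pool.Agent.Helper71.TU.H6
import Pool.Agent.Helper71.TU.A9

/-! # TU T12: values on the marked basin -/

open Complex Set Filter Topology Metric Polynomial ComplexConjugate Pool.Tuning

namespace Pool.TU

noncomputable section

variable {S g : TS} {A : XS S} {B : Br S A} {D : BD B} {T : TS} {A' : XS T}
  {B' : Br T A'} {G : XS g} {M : NS T} {N : NS g} {βg : ℝ} {P0 H0 R H : ℂ → ℂ} {ρ : ℝ → ℝ}

/-- functional equation of the values on the marked basin -/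
theorem BX_fe (hT : TW D T A' B') (E : Br g G)
    (hE : EC T g A' G M N (D.a (2 / 3)) βg P0 H0 R H ρ) :
    (∀ ζ ∈ HD, 0 ≤ ζ.re → H (D.c ζ) = E.ap (Ltr.P 0) (H (D.c (tau ζ)))) ∧
    (∀ ζ ∈ HD, ζ.re ≤ 0 → H (D.c ζ) = E.ap (Ltr.Q4 0) (H (D.c (tau ζ)))) := by
  have hI : Inv T g A' G M N (D.a (2 / 3)) βg P0 H0 R H ρ := hE.toInv
  have hmem : ∀ ζ ∈ HD, D.c (tau ζ) ∈ OO A'.Xo := by
    intro ζ hζ
    rw [hT.Xo_eq]
    exact D.maps (tau_maps hζ)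
  have key : ∀ l : Ltr, ∀ u ∈ OO A'.Xo, H (B'.ap l u) = E.ap l (H u) := fun l =>
    ap_hat B' E hI.rm.toRMap hI.hat hI.rm.cont hE.lift hI.hat hI.mapsO l
  constructor
  · intro ζ hζ h0
    rw [← key _ _ (hmem ζ hζ), ← hT.feP ζ hζ h0]
  · intro ζ hζ h0
    rw [← key _ _ (hmem ζ hζ), ← hT.feM ζ hζ h0]

theorem t12_HD_ball {ζ : ℂ} (h : ζ ∈ HD) : ζ ∈ closedBall (0 : ℂ) 1 := by
  rw [mem_closedBall, dist_zero_right]
  exact h.1

theorem t12_HD_compact : IsCompact HD := by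
  have h : HD = closedBall (0 : ℂ) 1 ∩ {ζ | 0 ≤ ζ.im} := by
    ext ζ
    simp only [HD, mem_ofPred_eq, mem_inter_iff, mem_closedBall, dist_zero_right]
  rw [h]
  exact (isCompact_closedBall (0 : ℂ) 1).inter_right
    (isClosed_le continuous_const Complex.continuous_im)

theorem t12_words (hT : TW D T A' B') (E : Br g G)
    (hE : EC T g A' G M N (D.a (2 / 3)) βg P0 H0 R H ρ) (n : ℕ) :
    ∀ t : ℝ, t ∈ Icc (-2 : ℝ) 2 → ∃ w : List Ltr, w.length = n ∧ ∃ t' ∈ Icc (-2 : ℝ) 2,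
      ∀ ζ ∈ HD, lvd ζ = t → ∃ ζ' ∈ HD, lvd ζ' = t' ∧ H (D.c ζ) = E.ev w (H (D.c ζ')) := by
  obtain ⟨hP, hQ⟩ := BX_fe hT E hE
  induction n with
  | zero =>
    intro t ht
    exact ⟨[], rfl, t, ht, fun ζ hζ h => ⟨ζ, hζ, h, rfl⟩⟩
  | succ n ih =>
    intro t ht
    have ht2 : t ^ 2 - 2 ∈ Icc (-2 : ℝ) 2 := by
      constructor <;> nlinarith [ht.1, ht.2, sq_nonneg t]
    obtain ⟨w, hw, t', ht', hζ'⟩ := ih (t ^ 2 - 2) ht2
    by_cases h0 : 0 ≤ t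
    · refine ⟨Ltr.P 0 :: w, by simp [hw], t', ht', ?_⟩
      intro ζ hζ hl
      obtain ⟨ζ', h1, h2, h3⟩ := hζ' (tau ζ) (tau_maps hζ) (by rw [lvd_tau hζ, hl])
      refine ⟨ζ', h1, h2, ?_⟩
      rw [hP ζ hζ ((lvd_nonneg (t12_HD_ball hζ)).1 (by rw [hl]; exact h0)), h3]
      rfl
    · refine ⟨Ltr.Q4 0 :: w, by simp [hw], t', ht', ?_⟩
      intro ζ hζ hl
      obtain ⟨ζ', h1, h2, h3⟩ := hζ' (tau ζ) (tau_maps hζ) (by rw [lvd_tau hζ, hl])
      refine ⟨ζ', h1, h2, ?_⟩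
      rw [hQ ζ hζ ((lvd_nonpos (t12_HD_ball hζ)).1 (by rw [hl]; linarith)), h3]
      rfl

/-- the values only depend on the landing value -/
theorem BX_const (hT : TW D T A' B') (E : Br g G)
    (hE : EC T g A' G M N (D.a (2 / 3)) βg P0 H0 R H ρ)
    (hM : ∀ ζ ∈ HD, exp (D.c ζ) ∉ M.No) (hS : Shrinks E (G.Xo ∪ N.No)) {ζ ζ' : ℂ}
    (hζ : ζ ∈ HD) (hζ' : ζ' ∈ HD) (h : lvd ζ = lvd ζ') : H (D.c ζ) = H (D.c ζ') := by
  have hI : Inv T g A' G M N (D.a (2 / 3)) βg P0 H0 R H ρ := hE.toInv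
  have hmemA : ∀ ζ ∈ HD, D.c ζ ∈ OO (A'.Xo ∪ M.No) := by
    intro ζ hζ
    have h1 := D.maps hζ
    refine ⟨h1.1, ?_⟩
    rintro (h2 | h2)
    · rw [hT.Xo_eq] at h2
      exact h1.2 h2
    · exact hM ζ hζ h2
  have hmemG : ∀ ζ ∈ HD, H (D.c ζ) ∈ OO (G.Xo ∪ N.No) := fun ζ hζ => hI.mapsZ (hmemA ζ hζ)
  have hcont : ContinuousOn (fun ζ => H (D.c ζ)) HD := by
    apply hI.hat.cont.comp D.cont
    intro ζ hζ
    exact (D.maps hζ).1
  obtain ⟨C, hC⟩ := t12_HD_compact.exists_bound_of_continuousOn hcont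
  have hmain : ∀ η : ℝ, 0 < η → ‖H (D.c ζ) - H (D.c ζ')‖ ≤ η := by
    intro η hη
    obtain ⟨n, hn⟩ := hS (2 * C) η hη
    obtain ⟨w, hw, t', ht', hwz⟩ := t12_words hT E hE n (lvd ζ) (lvd_mem (t12_HD_ball hζ))
    obtain ⟨ζ1, h11, h12, h13⟩ := hwz ζ hζ rfl
    obtain ⟨ζ2, h21, h22, h23⟩ := hwz ζ' hζ' h.symm
    rw [h13, h23]
    refine hn w hw.ge ((fun ζ => H (D.c ζ)) '' {ζ | ζ ∈ HD ∧ lvd ζ = t'}) ⟨?_, ?_, ?_⟩ _
      ⟨ζ1, ⟨h11, h12⟩, rfl⟩ _ ⟨ζ2, ⟨h21, h22⟩, rfl⟩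
    · rintro _ ⟨ξ, ⟨hξ, -⟩, rfl⟩
      exact hmemG ξ hξ
    · apply (lvd_fiber_half ht').1.image
      apply hcont.mono
      rintro ξ ⟨hξ, -⟩
      exact hξ
    · rintro _ ⟨ξ, ⟨hξ, -⟩, rfl⟩ _ ⟨ξ', ⟨hξ', -⟩, rfl⟩
      have h1 := hC ξ hξ
      have h2 := hC ξ' hξ'
      calc ‖H (D.c ξ) - H (D.c ξ')‖ ≤ ‖H (D.c ξ)‖ + ‖H (D.c ξ')‖ := norm_sub_le _ _
        _ ≤ 2 * C := by linarith
  by_contra hne
  have hpos : 0 < ‖H (D.c ζ) - H (D.c ζ')‖ := norm_pos_iff.2 (sub_ne_zero.2 hne)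
  have := hmain (‖H (D.c ζ) - H (D.c ζ')‖ / 2) (by linarith)
  linarith

/-- real analysis part: injectivity -/
theorem t12_inj {κ ω β : ℝ} {rp rm e : ℝ → ℝ} {K : ℝ} (hκβ : κ < β) (hβK : β ≤ K)
    (hrp : StrictMonoOn rp (Icc κ K)) (hrm : StrictAntiOn rm (Icc κ K))
    (hrpκ : rp κ = ω) (hrmκ : rm κ = ω) (hrpβ : rp β = β) (hrmβ : rm β = κ)
    (he : ContinuousOn e (Icc (-2) 2)) (hmem : ∀ t ∈ Icc (-2 : ℝ) 2, e t ∈ Icc κ β)
    (hP : ∀ t ∈ Icc (-2 : ℝ) 2, 0 ≤ t → e t = rp (e (t ^ 2 - 2)))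
    (hQ : ∀ t ∈ Icc (-2 : ℝ) 2, t ≤ 0 → e t = rm (e (t ^ 2 - 2)))
    (h2 : e 2 = β) : InjOn e (Icc (-2) 2) := by
  have hmemK : ∀ t ∈ Icc (-2 : ℝ) 2, e t ∈ Icc κ K := fun t ht =>
    ⟨(hmem t ht).1, (hmem t ht).2.trans hβK⟩
  have hsq : ∀ t ∈ Icc (-2 : ℝ) 2, t ^ 2 - 2 ∈ Icc (-2 : ℝ) 2 := by
    intro t ht
    constructor <;> nlinarith [ht.1, ht.2, sq_nonneg t]
  have hκK : κ ∈ Icc κ K := ⟨le_refl _, by linarith⟩
  have hβm : β ∈ Icc κ K := ⟨hκβ.le, hβK⟩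
  have hωβ : ω < β := by
    rw [← hrpκ, ← hrpβ]
    exact hrp hκK hβm hκβ
  have hκω : κ < ω := by
    have := hrm hκK hβm hκβ
    rw [hrmβ, hrmκ] at this
    exact this
  have hPge : ∀ t ∈ Icc (-2 : ℝ) 2, 0 ≤ t → ω ≤ e t := by
    intro t ht h0
    rw [hP t ht h0, ← hrpκ]
    exact hrp.monotoneOn hκK (hmemK _ (hsq t ht)) (hmem _ (hsq t ht)).1
  have hQle : ∀ t ∈ Icc (-2 : ℝ) 2, t ≤ 0 → e t ≤ ω := by
    intro t ht h0
    rw [hQ t ht h0, ← hrmκ]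
    exact hrm.antitoneOn hκK (hmemK _ (hsq t ht)) (hmem _ (hsq t ht)).1
  -- (i)
  have hi : ∀ t ∈ Icc (-2 : ℝ) 2, e t = β → t = 2 := by
    have hZc : IsCompact (Icc (-2 : ℝ) 2 ∩ e ⁻¹' {β}) := by
      have : IsClosed (Icc (-2 : ℝ) 2 ∩ e ⁻¹' {β}) :=
        he.preimage_isClosed_of_isClosed isClosed_Icc isClosed_singleton
      exact isCompact_Icc.of_isClosed_subset this inter_subset_left
    have hZne : (Icc (-2 : ℝ) 2 ∩ e ⁻¹' {β}).Nonempty :=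
      ⟨2, ⟨by norm_num, by norm_num⟩, h2⟩
    obtain ⟨m, hm, hmin⟩ := hZc.exists_isLeast hZne
    have hm1 : m ∈ Icc (-2 : ℝ) 2 := hm.1
    have hm2 : e m = β := hm.2
    have hmpos : 0 < m := by
      by_contra hcon
      push Not at hcon
      have := hQle m hm1 hcon
      linarith
    have h3 : e (m ^ 2 - 2) = β := by
      have h4 := hP m hm1 hmpos.le
      rw [hm2] at h4
      apply hrp.injOn (hmemK _ (hsq m hm1)) hβm
      rw [← h4, hrpβ]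
    have h5 : m ≤ m ^ 2 - 2 := hmin ⟨hsq m hm1, h3⟩
    have h6 : 2 ≤ m := by nlinarith
    intro t ht het
    have h7 : m ≤ t := hmin ⟨ht, het⟩
    linarith [ht.2]
  have hii : ∀ t ∈ Icc (-2 : ℝ) 2, e t = κ → t = -2 := by
    intro t ht het
    have hneg : t < 0 := by
      by_contra hcon
      push Not at hcon
      have := hPge t ht hcon
      linarith
    have h4 := hQ t ht hneg.le
    rw [het] at h4
    have h5 : e (t ^ 2 - 2) = β := by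
      apply hrm.injOn (hmemK _ (hsq t ht)) hβm
      rw [← h4, hrmβ]
    have h6 := hi _ (hsq t ht) h5
    nlinarith
  -- reduction of a pair
  have hred : ∀ t ∈ Icc (-2 : ℝ) 2, ∀ t' ∈ Icc (-2 : ℝ) 2, e t = e t' → t ≠ t' →
      ((0 ≤ t ∧ 0 ≤ t') ∨ (t ≤ 0 ∧ t' ≤ 0)) ∧ e (t ^ 2 - 2) = e (t' ^ 2 - 2) := by
    have hopp : ∀ t ∈ Icc (-2 : ℝ) 2, ∀ t' ∈ Icc (-2 : ℝ) 2, e t = e t' → t < 0 → 0 < t' →
        False := by
      intro t ht t' ht' h ht0 ht0'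
      have h3 := hQle t ht ht0.le
      have h4 := hPge t' ht' ht0'.le
      have h5 : e t' = ω := le_antisymm (h ▸ h3) h4
      have h6 := hP t' ht' ht0'.le
      have h7 : e (t' ^ 2 - 2) = κ := by
        apply hrp.injOn (hmemK _ (hsq t' ht')) hκK
        rw [← h6, h5, hrpκ]
      have h8 := hii _ (hsq t' ht') h7
      have h9 : t' ^ 2 = 0 := by linarith
      have h10 : t' = 0 := by simpa using h9
      linarith
    intro t ht t' ht' h hne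
    have hsame : (0 ≤ t ∧ 0 ≤ t') ∨ (t ≤ 0 ∧ t' ≤ 0) := by
      rcases lt_trichotomy t 0 with h1 | h1 | h1
      · rcases le_or_gt t' 0 with h3 | h3
        · exact Or.inr ⟨h1.le, h3⟩
        · exact (hopp t ht t' ht' h h1 h3).elim
      · rcases le_or_gt t' 0 with h3 | h3
        · exact Or.inr ⟨h1.le, h3⟩
        · exact Or.inl ⟨h1.ge, h3.le⟩
      · rcases le_or_gt 0 t' with h3 | h3
        · exact Or.inl ⟨h1.le, h3⟩
        · exact (hopp t' ht' t ht h.symm h3 h1).elim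
    refine ⟨hsame, ?_⟩
    rcases hsame with ⟨h1, h3⟩ | ⟨h1, h3⟩
    · apply hrp.injOn (hmemK _ (hsq t ht)) (hmemK _ (hsq t' ht'))
      rw [← hP t ht h1, ← hP t' ht' h3, h]
    · apply hrm.injOn (hmemK _ (hsq t ht)) (hmemK _ (hsq t' ht'))
      rw [← hQ t ht h1, ← hQ t' ht' h3, h]
  -- angles
  have hang1 : ∀ t ∈ Icc (-2 : ℝ) 2, 0 ≤ t →
      Real.arccos ((t ^ 2 - 2) / 2) = 2 * Real.arccos (t / 2) := by
    intro t ht h0
    have h3 : Real.cos (Real.arccos (t / 2)) = t / 2 :=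
      Real.cos_arccos (by linarith [ht.1]) (by linarith [ht.2])
    have h4 : (t ^ 2 - 2) / 2 = Real.cos (2 * Real.arccos (t / 2)) := by
      rw [Real.cos_two_mul, h3]
      ring
    rw [h4, Real.arccos_cos]
    · have := Real.arccos_nonneg (t / 2)
      linarith
    · have := Real.arccos_le_pi_div_two.2 (show 0 ≤ t / 2 by linarith)
      linarith
  have hang2 : ∀ t ∈ Icc (-2 : ℝ) 2, t ≤ 0 →
      Real.arccos ((t ^ 2 - 2) / 2) = 2 * Real.pi - 2 * Real.arccos (t / 2) := by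
    intro t ht h0
    have h3 : Real.cos (Real.arccos (t / 2)) = t / 2 :=
      Real.cos_arccos (by linarith [ht.1]) (by linarith [ht.2])
    have h4 : (t ^ 2 - 2) / 2 = Real.cos (2 * Real.pi - 2 * Real.arccos (t / 2)) := by
      rw [Real.cos_two_pi_sub, Real.cos_two_mul, h3]
      ring
    rw [h4, Real.arccos_cos]
    · have := Real.arccos_le_pi (t / 2)
      linarith
    · have h5 : Real.pi / 2 ≤ Real.arccos (t / 2) := by
        by_contra hcon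
        push Not at hcon
        have h6 := Real.arccos_lt_pi_div_two.1 hcon
        linarith
      linarith
  have hexp : ∀ n : ℕ, ∀ t ∈ Icc (-2 : ℝ) 2, ∀ t' ∈ Icc (-2 : ℝ) 2, e t = e t' → t ≠ t' →
      2 ^ n * |Real.arccos (t / 2) - Real.arccos (t' / 2)| ≤ Real.pi := by
    intro n
    induction n with
    | zero =>
      intro t ht t' ht' _ _
      rw [pow_zero, one_mul, abs_le]
      have h3 := Real.arccos_nonneg (t / 2)
      have h4 := Real.arccos_nonneg (t' / 2)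
      have h5 := Real.arccos_le_pi (t / 2)
      have h6 := Real.arccos_le_pi (t' / 2)
      constructor <;> linarith
    | succ n ih =>
      intro t ht t' ht' h hne
      obtain ⟨hsame, hsq'⟩ := hred t ht t' ht' h hne
      have hne2 : t ^ 2 - 2 ≠ t' ^ 2 - 2 := by
        intro hcon
        have h3 : (t - t') * (t + t') = 0 := by ring_nf; linarith
        rcases mul_eq_zero.1 h3 with h4 | h4
        · exact hne (by linarith)
        · rcases hsame with ⟨h5, h6⟩ | ⟨h5, h6⟩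
          · exact hne (by linarith)
          · exact hne (by linarith)
      have h3 := ih _ (hsq t ht) _ (hsq t' ht') hsq' hne2
      have h4 : |Real.arccos ((t ^ 2 - 2) / 2) - Real.arccos ((t' ^ 2 - 2) / 2)| =
          2 * |Real.arccos (t / 2) - Real.arccos (t' / 2)| := by
        rcases hsame with ⟨h5, h6⟩ | ⟨h5, h6⟩
        · rw [hang1 t ht h5, hang1 t' ht' h6, ← mul_sub, abs_mul, abs_two]
        · rw [hang2 t ht h5, hang2 t' ht' h6]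
          have : 2 * Real.pi - 2 * Real.arccos (t / 2) -
              (2 * Real.pi - 2 * Real.arccos (t' / 2)) =
              -(2 * (Real.arccos (t / 2) - Real.arccos (t' / 2))) := by ring
          rw [this, abs_neg, abs_mul, abs_two]
      rw [h4] at h3
      rw [pow_succ]
      linarith
  intro t ht t' ht' h
  by_contra hne
  have hpos : 0 < |Real.arccos (t / 2) - Real.arccos (t' / 2)| := by
    rw [abs_pos, sub_ne_zero]
    intro hcon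
    have := Real.arccos_injOn ⟨by linarith [ht.1], by linarith [ht.2]⟩
      ⟨by linarith [ht'.1], by linarith [ht'.2]⟩ hcon
    apply hne
    linarith
  obtain ⟨n, hn⟩ := pow_unbounded_of_one_lt
    (Real.pi / |Real.arccos (t / 2) - Real.arccos (t' / 2)|) (one_lt_two)
  rw [div_lt_iff₀ hpos] at hn
  have := hexp n t ht t' ht' h hne
  linarith

/-- The values of a semiconjugacy on the marked basin: they only depend on the landing value,
and are real. -/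
theorem BX (hT : TW D T A' B') (E : Br g G)
    (hE : EC T g A' G M N (D.a (2 / 3)) βg P0 H0 R H ρ) (hg : IsBeta g βg)
    (hM : ∀ ζ ∈ HD, exp (D.c ζ) ∉ M.No) (hS : Shrinks E (G.Xo ∪ N.No)) :
    ∃ e : ℝ → ℝ, StrictMonoOn e (Icc (-2) 2) ∧ ContinuousOn e (Icc (-2) 2) ∧ e (-2) = g.κ ∧
      e 2 = βg ∧ e 0 = g.ω₀ ∧ (∀ ζ ∈ HD, R (exp (D.c ζ)) = ec (e (lvd ζ))) ∧
      (∀ ζ ∈ HD, H (D.c ζ) = e (lvd ζ) * I) := by
  have hI : Inv T g A' G M N (D.a (2 / 3)) βg P0 H0 R H ρ := hE.toInv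
  set x : ℝ → ℝ := fun t => t / (1 + |t|) with hx
  have hxof : ∀ t : ℝ, ofPlane (t : ℂ) = ((x t : ℝ) : ℂ) := by
    intro t
    simp only [ofPlane, hx]
    rw [Complex.norm_real, Real.norm_eq_abs]
    push_cast
    rfl
  have hxpos : ∀ t : ℝ, 0 < 1 + |t| := fun t => by positivity
  have hxcont : Continuous x := by
    apply Continuous.div continuous_id (by fun_prop)
    intro t
    exact (hxpos t).ne'
  have hxlo : ∀ t ∈ Icc (-2 : ℝ) 2, -(2 / 3) ≤ x t := by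
    intro t ht
    rw [hx]
    simp only
    rw [le_div_iff₀ (hxpos t)]
    rcases abs_cases t with ⟨h1, h2⟩ | ⟨h1, h2⟩
    · rw [h1]; linarith [ht.1]
    · rw [h1]; linarith [ht.1]
  have hxhi : ∀ t ∈ Icc (-2 : ℝ) 2, x t ≤ 2 / 3 := by
    intro t ht
    rw [hx]
    simp only
    rw [div_le_iff₀ (hxpos t)]
    rcases abs_cases t with ⟨h1, h2⟩ | ⟨h1, h2⟩
    · rw [h1]; linarith [ht.2]
    · rw [h1]; linarith [ht.2]
  have hx1 : ∀ t ∈ Icc (-2 : ℝ) 2, x t ∈ Icc (-1 : ℝ) 1 := fun t ht =>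
    ⟨by linarith [hxlo t ht], by linarith [hxhi t ht]⟩
  have hxm2 : x (-2) = -(2 / 3) := by
    rw [hx]; simp only [abs_neg, abs_two]; norm_num
  have hx2 : x 2 = 2 / 3 := by
    rw [hx]; simp only [abs_two]; norm_num
  set e : ℝ → ℝ := fun t => ρ (D.a (x t)) with he
  have hm1 : (-(2 / 3) : ℝ) ∈ Icc (-1 : ℝ) 1 := by norm_num
  have hm2 : ((2 / 3) : ℝ) ∈ Icc (-1 : ℝ) 1 := by norm_num
  have haI : ∀ t ∈ Icc (-2 : ℝ) 2, D.a (x t) ∈ Icc T.κ (D.a (2 / 3)) := by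
    intro t ht
    rw [hT.κ_eq]
    exact ⟨D.mono.monotoneOn hm1 (hx1 t ht) (hxlo t ht),
      D.mono.monotoneOn (hx1 t ht) hm2 (hxhi t ht)⟩
  have ha2 : ∀ t ∈ Icc (-2 : ℝ) 2, D.a (x t) ∈ Icc 0 (2 * Real.pi) := by
    intro t ht
    have := (D.real (x t) (hx1 t ht)).2
    exact ⟨this.1.le, this.2.le⟩
  have hemem : ∀ t ∈ Icc (-2 : ℝ) 2, e t ∈ Icc g.κ βg := fun t ht => hI.rm.ρmid _ (haI t ht)
  have hem2 : e (-2) = g.κ := by
    rw [he]
    simp only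
    rw [hxm2, ← hT.κ_eq, hI.rm.ρκ]
  have he2 : e 2 = βg := by
    rw [he]
    simp only
    rw [hx2, hI.rm.ρβ]
  have hecont : ContinuousOn e (Icc (-2) 2) := by
    have h1 : ContinuousOn (fun t => D.a (x t)) (Icc (-2) 2) :=
      D.conta.comp hxcont.continuousOn (fun t ht => hx1 t ht)
    exact hI.rm.ρcont.comp h1 (fun t ht => ha2 t ht)
  have hof : ∀ t ∈ Icc (-2 : ℝ) 2, ofPlane (t : ℂ) ∈ HD := fun t ht => (lvd_fiber_half ht).2.2.1
  have hHof : ∀ t ∈ Icc (-2 : ℝ) 2, H (D.c (ofPlane t)) = e t * I := by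
    intro t ht
    rw [hxof t, (D.real (x t) (hx1 t ht)).1, hat_circ hI.rm.toRMap hI.hat _ (ha2 t ht)]
  have hval : ∀ ζ ∈ HD, H (D.c ζ) = e (lvd ζ) * I := by
    intro ζ hζ
    have hl := lvd_mem (t12_HD_ball hζ)
    rw [← hHof _ hl]
    exact BX_const hT E hE hM hS hζ (hof _ hl) (lvd_ofPlane hl).symm
  have hR : ∀ ζ ∈ HD, R (exp (D.c ζ)) = ec (e (lvd ζ)) := by
    intro ζ hζ
    rw [← hI.hat.exp_eq _ (D.maps hζ).1, hval ζ hζ]
    rfl
  have hsq : ∀ t ∈ Icc (-2 : ℝ) 2, t ^ 2 - 2 ∈ Icc (-2 : ℝ) 2 := by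
    intro t ht
    constructor <;> nlinarith [ht.1, ht.2, sq_nonneg t]
  have hβ := hg.mem
  have hK : ∀ t ∈ Icc (-2 : ℝ) 2, e t ∈ Icc g.κ (2 * Real.pi) := fun t ht =>
    ⟨(hemem t ht).1, (hemem t ht).2.trans hβ.2.le⟩
  obtain ⟨hfP, hfQ⟩ := BX_fe hT E hE
  have hofre : ∀ t : ℝ, (ofPlane (t : ℂ)).re = x t := by
    intro t
    rw [hxof t, ofReal_re]
  have hOO : ∀ ζ ∈ HD, H (D.c ζ) ∈ OO G.Xo := by
    intro ζ hζ
    apply hI.mapsO
    rw [hT.Xo_eq]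
    exact D.maps hζ
  have hcancel : ∀ a b : ℝ, (a : ℂ) * I = (b : ℂ) * I → a = b := by
    intro a b h
    have := mul_right_cancel₀ I_ne_zero h
    exact_mod_cast this
  have hP : ∀ t ∈ Icc (-2 : ℝ) 2, 0 ≤ t → e t = g.rp (e (t ^ 2 - 2)) := by
    intro t ht h0
    have hx0 : 0 ≤ (ofPlane (t : ℂ)).re := by
      rw [hofre]
      exact div_nonneg h0 (hxpos t).le
    have h1 := hfP _ (hof t ht) hx0
    have h2 : lvd (tau (ofPlane t)) = t ^ 2 - 2 := by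
      rw [lvd_tau (hof t ht), lvd_ofPlane ht]
    have h3 := hval _ (tau_maps (hof t ht))
    have h5 := hOO _ (tau_maps (hof t ht))
    rw [h3, h2] at h5
    rw [hHof t ht, h3, h2] at h1
    have h4 : E.ap (Ltr.P 0) ((e (t ^ 2 - 2) : ℂ) * I) = E.Φ ((e (t ^ 2 - 2) : ℂ) * I) := by
      show E.Φ ((e (t ^ 2 - 2) : ℂ) * I + ((0 : ℤ) : ℂ) * tpi) = _
      simp
    rw [h4, E.bdΦ _ h5, bd_rp E.bd _ (hK _ (hsq t ht))] at h1
    exact hcancel _ _ h1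
  have hQ : ∀ t ∈ Icc (-2 : ℝ) 2, t ≤ 0 → e t = g.rm (e (t ^ 2 - 2)) := by
    intro t ht h0
    have hx0 : (ofPlane (t : ℂ)).re ≤ 0 := by
      rw [hofre]
      exact div_nonpos_of_nonpos_of_nonneg h0 (hxpos t).le
    have h1 := hfQ _ (hof t ht) hx0
    have h2 : lvd (tau (ofPlane t)) = t ^ 2 - 2 := by
      rw [lvd_tau (hof t ht), lvd_ofPlane ht]
    have h3 := hval _ (tau_maps (hof t ht))
    rw [hHof t ht, h3, h2] at h1
    have h4 : E.ap (Ltr.Q4 0) ((e (t ^ 2 - 2) : ℂ) * I) = E.g4 (ec (e (t ^ 2 - 2))) := by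
      show E.g4 (exp ((e (t ^ 2 - 2) : ℂ) * I)) + ((0 : ℤ) : ℂ) * tpi = _
      simp [ec]
    have h6 := (bd_g E.bd E.cont2 E.exp2 E.one2 E.cont4 E.exp4 E.one4).2.2
      _ (hK _ (hsq t ht))
    rw [h4, h6] at h1
    exact hcancel _ _ h1
  have he0 : e 0 = g.ω₀ := by
    have h0 : (0 : ℝ) ∈ Icc (-2 : ℝ) 2 := by norm_num
    have h1 := hP 0 h0 le_rfl
    have h2 : (0 : ℝ) ^ 2 - 2 = -2 := by norm_num
    rw [h2, hem2, g.rpκ] at h1
    exact h1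
  have hinj : InjOn e (Icc (-2) 2) :=
    t12_inj hβ.1 hβ.2.le (rp_strictMono g) (rm_strictAnti g) g.rpκ g.rmκ hg.fixp hg.fixm hecont
      hemem hP hQ he2
  have hmono : StrictMonoOn e (Icc (-2) 2) := by
    apply ContinuousOn.strictMonoOn_of_injOn_Icc (by norm_num) _ hecont hinj
    rw [hem2, he2]
    exact hβ.1.le
  exact ⟨e, hmono, hecont, hem2, he2, he0, hR, hval⟩

end

end Pool.TU
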