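import Pool.Agent.Helper71.TU.A9
import Pool.Agent.Helper71.TU.T12

/-! # TU F1: semiconjugacy off the marked basin -/

open Complex Set Filter Topology Metric Polynomial ComplexConjugate Pool.Tuning

namespace Pool.TU

noncomputable section

variable {q q' : RQ}

/-- Index is preserved. -/
theorem EC.idx_eq {f g : TS} {A : XS f} {B : XS g} {M : NS f} {N : NS g} {βf βg : ℝ}
    {P0 H0 R H : ℂ → ℂ} {ρ : ℝ → ℝ} (h : EC f g A B M N βf βg P0 H0 R H ρ) (he : A.e = B.e) :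
    ∀ u ∈ OO A.Xo, B.idx (H u) = A.idx u := by
  intro u hu
  obtain ⟨s, hs, hsc, hus, k, hk⟩ := A.cconn u hu
  have hO : MapsTo H (OO A.Xo) (OO B.Xo) := h.toInv.mapsO
  have hc1 : ContinuousOn (fun x => B.idx (H x)) s := by
    refine B.idx_cont.comp (h.hat.cont.mono ?_) ?_
    · intro x hx
      exact (hs hx).1
    · intro x hx
      exact hO (hs hx)
  have hc2 : ContinuousOn A.idx s := A.idx_cont.mono hs
  have hc3 : ContinuousOn (fun x => B.idx (H x) - A.idx x) s := hc1.sub hc2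
  have h1 := int_const hsc hc3 hus hk
  rw [hat_int h.hat k, A.idx_val k, B.idx_val k, he, sub_self] at h1
  linarith

theorem FD.Do_sub (d : FD q q') : d.L.Do d.δ ⊆ d.D.Bo := by
  rintro _ ⟨t, ⟨ht, ht'⟩, rfl⟩
  have h1 : ‖t‖ < d.L.r0 := ht.trans d.hδ'
  refine ⟨t, ⟨h1.trans d.L.lt, ht'⟩, ?_⟩
  show exp (d.D.c t) = exp (d.L.c t)
  rw [d.hD t ⟨h1.le, ht'⟩]

/-- `R` semiconjugates the twist to `g` -/
theorem FD.R_F (d : FD q q') {z : ℂ} (hz : z ∈ DD) : d.g.F (d.R z) = d.R (d.T.F z) :=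
  lift_F d.hE.rm.toRMap d.hE.hat d.hE.lift z hz

/-- off `Bo`, `R` semiconjugates `S` to `g` -/
theorem FD.R_F' (d : FD q q') {z : ℂ} (hz : z ∈ DD) (h : z ∉ d.D.Bo) :
    d.g.F (d.R z) = d.R (d.S.F z) := by
  rw [d.R_F hz, d.hT.F_out z hz h]

/-- values on the closed marked basin -/
theorem FD.bx (d : FD q q') : ∃ e : ℝ → ℝ, StrictMonoOn e (Icc (-2) 2) ∧
    ContinuousOn e (Icc (-2) 2) ∧ e (-2) = d.g.κ ∧ e 2 = d.βg ∧ e 0 = d.g.ω₀ ∧
    (∀ ζ ∈ HD, d.R (exp (d.D.c ζ)) = ec (e (lvd ζ))) ∧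
    (∀ ζ ∈ HD, d.H (d.D.c ζ) = e (lvd ζ) * I) :=
  BX d.hT d.E d.hE d.hβ (fun ζ hζ h => d.hM ζ hζ (d.M.No_sub h)) d.shG

/-- points entering the rigid set or infinity are determined by their value -/
theorem FD.entry (d : FD q q') {x y : ℂ} (hx : x ∈ DD) (hy : y ∈ DD) (h : d.R x = d.R y)
    (h' : x ∈ d.A.Xo ∪ d.M.No) : x = y := by
  have _ := hx
  rcases h' with h' | h'
  · have h1 : d.R y ∈ d.G.Xo := by rw [← h]; exact d.mapsXo h'
    have h2 : y ∈ d.A'.Xo := d.hE.Xo_of y hy h1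
    rw [d.hT.Xo_eq] at h2
    exact d.injX (d.A.Xo_sub h') (d.A.Xo_sub h2) h
  · have h1 : d.R y ∈ d.N.No := by rw [← h]; exact d.mapsNo h'
    have h2 : y ∈ d.M.No := d.hE.No_of y hy h1
    exact d.injN (d.M.No_sub h') (d.M.No_sub h2) h

private theorem f1_neg_mem {s : ℂ} (hs : s ∈ DD) : -s ∈ DD := by
  simpa [DD] using hs

private theorem f1_sq_mem {s : ℂ} (hs : s ∈ DD) : s ^ 2 ∈ DD := by
  have h1 : ‖s‖ ≤ 1 := by simpa [DD] using hs
  have h2 : ‖s ^ 2‖ ≤ 1 := by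
    rw [norm_pow]
    nlinarith [norm_nonneg s]
  simpa [DD] using h2

private theorem f1_Rmaps (d : FD q q') {z : ℂ} (hz : z ∈ DD) : d.R z ∈ DD := d.hE.rm.maps hz

/-- the values of `R` on the critical tile -/
private theorem f1_sig (d : FD q q') {s : ℂ} (hs : s ∈ DD) : ∃ σ ∈ DD,
    σ ^ 2 = d.R (s ^ 2) ∧ d.R (d.T.Θ s) = d.g.Θ σ ∧ d.R (d.T.Θ (-s)) = d.g.Θ (-σ) := by
  by_cases h0 : s = 0
  · subst h0
    refine ⟨0, by simp [DD], ?_, d.hE.lift.Θ0, ?_⟩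
    · have h1 : d.R 0 = 0 := (d.hE.rm.zero 0 (by simp [DD])).mpr rfl
      simp [h1]
    · simpa using d.hE.lift.Θ0
  · have hn : ‖s‖ ≤ 1 := by simpa [DD] using hs
    set u : ℂ := 2 * Complex.log s with hu
    have hu2 : exp (u / 2) = s := by
      have : u / 2 = Complex.log s := by rw [hu]; ring
      rw [this, Complex.exp_log h0]
    have hu1 : exp u = s ^ 2 := by
      rw [← hu2, ← Complex.exp_nat_mul]
      congr 1
      push_cast
      ring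
    have huU : u ∈ UU := by
      show u.re ≤ 0
      have h1 : u.re = 2 * Real.log ‖s‖ := by
        rw [hu]
        simp [Complex.log_re]
      rw [h1]
      have := Real.log_nonpos (norm_nonneg s) hn
      linarith
    have huU' : u + tpi ∈ UU := by
      show (u + tpi).re ≤ 0
      have h1 : (tpi : ℂ).re = 0 := by simp [tpi]
      rw [Complex.add_re, h1, add_zero]
      exact huU
    have hH := d.hE.hat.maps huU
    have hexp2 : ∀ v : ℂ, exp ((v + tpi) / 2) = -exp (v / 2) := by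
      intro v
      have h1 : (v + tpi) / 2 = v / 2 + Real.pi * I := by
        simp only [tpi]
        ring
      rw [h1, Complex.exp_add, Complex.exp_pi_mul_I]
      ring
    refine ⟨exp (d.H u / 2), ?_, ?_, ?_, ?_⟩
    · have h1 : ‖exp (d.H u / 2)‖ ≤ 1 := by
        rw [Complex.norm_exp]
        refine Real.exp_le_one_iff.mpr ?_
        have h2 : (d.H u).re ≤ 0 := hH
        have h3 : (d.H u / 2).re = (d.H u).re / 2 := by simp
        rw [h3]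
        linarith
      simpa [DD] using h1
    · rw [← hu1, ← d.hE.hat.exp_eq u huU, ← Complex.exp_nat_mul]
      congr 1
      push_cast
      ring
    · have h1 := d.hE.lift.Θ_eq u huU
      rwa [hu2] at h1
    · have h1 := d.hE.lift.Θ_eq (u + tpi) huU'
      rwa [hexp2, hu2, d.hE.hat.period u huU, hexp2] at h1

private theorem f1_norm_of_ec {σ : ℂ} {θ : ℝ} (h : σ = ec θ ∨ σ = -ec θ) : ‖σ‖ = 1 := by
  rcases h with h | h
  · rw [h, norm_ec]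
  · rw [h, norm_neg, norm_ec]

private theorem f1_ΘΘ (d : FD q q') {s s' : ℂ} (hs : s ∈ DD) (_hs' : s' ∈ DD)
    (hF : s ^ 2 = s' ^ 2) (h : d.R (d.T.Θ s) = d.R (d.T.Θ s'))
    (h1 : d.R (d.T.Θ s) ≠ 1) : s = s' := by
  rcases sq_eq_sq_iff_eq_or_eq_neg.mp hF with h2 | h2
  · exact h2
  · have h3 : s' = -s := by rw [h2, neg_neg]
    obtain ⟨σ, hσ, e1, e2, e3⟩ := f1_sig d hs
    rw [h3, e2, e3] at h
    rcases d.g.injΘ σ hσ (-σ) (f1_neg_mem hσ) h with h4 | ⟨h4, _⟩ | ⟨h4, _⟩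
    · have h5 : σ = 0 := by
        have : (2 : ℂ) * σ = 0 := by linear_combination h4
        simpa using this
      rw [h5] at e1
      have h6 : s ^ 2 = 0 := (d.hE.rm.zero _ (f1_sq_mem hs)).mp (by rw [← e1]; ring)
      have h7 : s = 0 := by simpa using h6
      rw [h3, h7, neg_zero]
    · exfalso
      rw [e2, h4, d.g.Θone] at h1
      exact h1 rfl
    · exfalso
      rw [e2, h4, d.g.Θneg] at h1
      exact h1 rfl

/-- backward step -/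
theorem FD.back (d : FD q q') {x y : ℂ} (hx : x ∈ DD) (hy : y ∈ DD) (hxB : x ∉ d.D.Bo)
    (hyB : y ∉ d.D.Bo) (hF : d.S.F x = d.S.F y) (h : d.R x = d.R y)
    (hc : ‖d.g.F (d.R x)‖ ≠ 1) : x = y := by
  have hTF : d.T.F x = d.T.F y := by
    rw [d.hT.F_out x hx hxB, d.hT.F_out y hy hyB, hF]
  have hRF := d.R_F hx
  have hne1 : d.R x ≠ 1 := by
    intro h1
    rw [h1, F_one] at hc
    simp at hc
  -- incompatible tiles
  have hΘ2 : ∀ s ∈ DD, ∀ w ∈ DD, d.R (d.T.Θ s) = d.R (d.T.G2 w) → s ^ 2 = w →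
      ‖d.R w‖ ≠ 1 → False := by
    intro s hs w hw he hsw hn
    obtain ⟨σ, hσ, e1, e2, _⟩ := f1_sig d hs
    rw [e2, d.hE.lift.G2_eq w hw] at he
    obtain ⟨θ, _, h3⟩ := d.g.sep2 σ hσ _ (f1_Rmaps d hw) he
    have h4 : ‖σ‖ = 1 := f1_norm_of_ec (Or.inr h3)
    apply hn
    rw [← hsw, ← e1, norm_pow, h4, one_pow]
  have hΘ4 : ∀ s ∈ DD, ∀ w ∈ DD, d.R (d.T.Θ s) = d.R (d.T.G4 w) → s ^ 2 = w →
      ‖d.R w‖ ≠ 1 → False := by
    intro s hs w hw he hsw hn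
    obtain ⟨σ, hσ, e1, e2, _⟩ := f1_sig d hs
    rw [e2, d.hE.lift.G4_eq w hw] at he
    have h4 : ‖σ‖ = 1 := by
      rcases d.g.sep4 σ hσ _ (f1_Rmaps d hw) he with h3 | ⟨θ, _, h3⟩
      · rw [h3]; simp
      · exact f1_norm_of_ec (Or.inl h3)
    apply hn
    rw [← hsw, ← e1, norm_pow, h4, one_pow]
  have h24 : ∀ w ∈ DD, ∀ w' ∈ DD, d.R (d.T.G2 w) = d.R (d.T.G4 w') →
      ‖d.R w‖ ≠ 1 → False := by
    intro w hw w' hw' he hn
    rw [d.hE.lift.G2_eq w hw, d.hE.lift.G4_eq w' hw'] at he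
    obtain ⟨h1, _⟩ := d.g.sep24 _ (f1_Rmaps d hw) _ (f1_Rmaps d hw') he
    rw [h1] at hn
    simp at hn
  rw [hRF] at hc
  rcases d.T.cover x hx with ⟨s, hs, rfl⟩ | ⟨w, hw, rfl⟩ | ⟨w, hw, rfl⟩
  · rw [d.T.FΘ s hs] at hc hTF
    rcases d.T.cover y hy with ⟨s', hs', rfl⟩ | ⟨w', hw', rfl⟩ | ⟨w', hw', rfl⟩
    · rw [d.T.FΘ s' hs'] at hTF
      rw [f1_ΘΘ d hs hs' hTF h hne1]
    · rw [d.T.F2 w' hw'] at hTF
      exact (hΘ2 s hs w' hw' h hTF (by rw [← hTF]; exact hc)).elim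
    · rw [d.T.F4 w' hw'] at hTF
      exact (hΘ4 s hs w' hw' h hTF (by rw [← hTF]; exact hc)).elim
  · rw [d.T.F2 w hw] at hc hTF
    rcases d.T.cover y hy with ⟨s', hs', rfl⟩ | ⟨w', hw', rfl⟩ | ⟨w', hw', rfl⟩
    · rw [d.T.FΘ s' hs'] at hTF
      exact (hΘ2 s' hs' w hw h.symm hTF.symm hc).elim
    · rw [d.T.F2 w' hw'] at hTF
      rw [hTF]
    · exact (h24 w hw w' hw' h hc).elim
  · rw [d.T.F4 w hw] at hc hTF
    rcases d.T.cover y hy with ⟨s', hs', rfl⟩ | ⟨w', hw', rfl⟩ | ⟨w', hw', rfl⟩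
    · rw [d.T.FΘ s' hs'] at hTF
      exact (hΘ4 s' hs' w hw h.symm hTF.symm hc).elim
    · rw [d.T.F2 w' hw'] at hTF
      exact (h24 w' hw' w hw h.symm (by rw [← hTF]; exact hc)).elim
    · rw [d.T.F4 w' hw'] at hTF
      rw [hTF]

/-- backward step at real values -/
theorem FD.back_real (d : FD q q') {x y : ℂ} (hx : x ∈ DD) (hy : y ∈ DD) (hxB : x ∉ d.D.Bo)
    (hyB : y ∉ d.D.Bo) (hF : d.S.F x = d.S.F y) (h : d.R x = d.R y) (hc : ‖d.R x‖ = 1)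
    (hω : d.R x ≠ ec d.g.ω₀) : x = y := by
  by_cases h1 : d.R x = 1
  · have hx1 : x = 1 := (d.hE.rm.one x hx).mp h1
    have hy1 : y = 1 := (d.hE.rm.one y hy).mp (h ▸ h1)
    rw [hx1, hy1]
  have hTF : d.T.F x = d.T.F y := by
    rw [d.hT.F_out x hx hxB, d.hT.F_out y hy hyB, hF]
  have h2 : ∀ w ∈ DD, ‖d.R (d.T.G2 w)‖ = 1 → d.R (d.T.G2 w) = 1 := by
    intro w hw hn
    rw [d.hE.lift.G2_eq w hw] at hn ⊢
    rw [d.g.circ2 _ (f1_Rmaps d hw) hn, d.g.G2one]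
  have hΘ4 : ∀ s ∈ DD, ∀ w ∈ DD, d.R (d.T.Θ s) = d.R (d.T.G4 w) → ‖d.R (d.T.Θ s)‖ = 1 →
      d.R (d.T.Θ s) ≠ 1 → d.R (d.T.Θ s) ≠ ec d.g.ω₀ → False := by
    intro s hs w hw he hn hne hne'
    obtain ⟨σ, hσ, e1, e2, _⟩ := f1_sig d hs
    rw [e2] at he hn hne hne'
    rw [d.hE.lift.G4_eq w hw] at he
    have hpi := Real.pi_pos
    have hκ := d.g.κ_mem
    rcases d.g.sep4 σ hσ _ (f1_Rmaps d hw) he with h3 | ⟨θ, hθ, h3⟩
    · rw [h3, d.g.Θneg] at hne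
      exact hne rfl
    · rcases d.g.circΘ σ hσ hn with h4 | ⟨θ', hθ', h4⟩
      · rw [h4, d.g.Θone] at hne
        exact hne rfl
      · have h5 : θ / 2 = θ' / 2 := by
          refine ec_inj' ?_ ?_ (h3.symm.trans h4)
          · exact ⟨by linarith [hθ.1], by linarith [hθ.2, hκ.2]⟩
          · exact ⟨by linarith [hθ'.1, hκ.1], by linarith [hθ'.2]⟩
        have h6 : θ = θ' := by linarith
        have h7 : θ' = d.g.κ := le_antisymm (h6 ▸ hθ.2) hθ'.1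
        apply hne'
        rw [h4, h7, d.g.rpΘ _ ⟨le_refl _, hκ.2.le⟩, d.g.rpκ]
  rcases d.T.cover x hx with ⟨s, hs, rfl⟩ | ⟨w, hw, rfl⟩ | ⟨w, hw, rfl⟩
  · rw [d.T.FΘ s hs] at hTF
    rcases d.T.cover y hy with ⟨s', hs', rfl⟩ | ⟨w', hw', rfl⟩ | ⟨w', hw', rfl⟩
    · rw [d.T.FΘ s' hs'] at hTF
      rw [f1_ΘΘ d hs hs' hTF h h1]
    · exact (h1 (by rw [h]; exact h2 w' hw' (h ▸ hc))).elim
    · exact (hΘ4 s hs w' hw' h hc h1 hω).elim
  · exact (h1 (h2 w hw hc)).elim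
  · rcases d.T.cover y hy with ⟨s', hs', rfl⟩ | ⟨w', hw', rfl⟩ | ⟨w', hw', rfl⟩
    · exact (hΘ4 s' hs' w hw h.symm (h ▸ hc) (h ▸ h1) (h ▸ hω)).elim
    · exact (h1 (by rw [h]; exact h2 w' hw' (h ▸ hc))).elim
    · rw [d.T.F4 w hw, d.T.F4 w' hw'] at hTF
      rw [hTF]

end

end Pool.TU
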