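import Pool.Agent.Helper71.TU.B3
import Pool.Agent.Helper71.TU.B7

/-! # TU B8: counting preimages -/

open Complex Set Filter Topology Metric Polynomial ComplexConjugate Pool.Tuning

namespace Pool.TU

noncomputable section

variable (q : RQ)

namespace B8aux

theorem ne0 (w : ℂ) : q.h - C w ≠ 0 := by
  intro h
  have h1 : (q.h - C w).natDegree = 4 := by rw [natDegree_sub_C, q.natDegree]
  rw [h] at h1
  simp at h1

theorem mem_iff (w z : ℂ) : z ∈ (q.h - C w).roots ↔ q.h.eval z = w := by
  rw [mem_roots (ne0 q w), IsRoot.def, eval_sub, eval_C, sub_eq_zero]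

theorem card4 (w : ℂ) : (q.h - C w).roots.card = 4 := by
  rw [IsAlgClosed.card_roots_eq_natDegree, natDegree_sub_C, q.natDegree]

theorem nodup {w : ℂ} (hd : ∀ z, q.h.eval z = w → q.h.derivative.eval z ≠ 0) :
    (q.h - C w).roots.Nodup := by
  classical
  rw [Multiset.nodup_iff_count_le_one]
  intro z
  rw [count_roots]
  by_contra hcon
  rw [not_le, one_lt_rootMultiplicity_iff_isRoot (ne0 q w)] at hcon
  obtain ⟨h1, h2⟩ := hcon
  rw [IsRoot.def, eval_sub, eval_C, sub_eq_zero] at h1
  rw [IsRoot.def, derivative_sub, derivative_C, sub_zero] at h2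
  exact hd z h1 h2

/-- the finite set of the preimages -/
def FS (w : ℂ) : Finset ℂ := by
  classical exact (q.h - C w).roots.toFinset

theorem mem_FS {w z : ℂ} : z ∈ FS q w ↔ q.h.eval z = w := by
  classical
  unfold FS
  rw [Multiset.mem_toFinset, mem_iff]

theorem card_FS {w : ℂ} (hd : ∀ z, q.h.eval z = w → q.h.derivative.eval z ≠ 0) :
    (FS q w).card = 4 := by
  classical
  unfold FS
  rw [Multiset.toFinset_card_of_nodup (nodup q hd), card4]

theorem noreal {w : ℂ} (hw : w.im ≠ 0 ∨ w.re < q.vr) {z : ℂ} (hz : q.h.eval z = w) :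
    z.im ≠ 0 := by
  intro h0
  have h1 : z = (z.re : ℂ) := Complex.ext (by simp) (by simp [h0])
  rw [h1, q.h_real] at hz
  rcases hw with h2 | h2
  · apply h2
    rw [← hz, ofReal_im]
  · rw [← hz, ofReal_re] at h2
    exact absurd (q.vr_le z.re) (not_le.2 h2)

/-- upper preimages -/
def UP (w : ℂ) : Finset ℂ := by
  classical exact (FS q w).filter (fun z => 0 < z.im)

/-- lower preimages -/
def LO (w : ℂ) : Finset ℂ := by
  classical exact (FS q w).filter (fun z => z.im < 0)

theorem mem_UP {w z : ℂ} : z ∈ UP q w ↔ q.h.eval z = w ∧ 0 < z.im := by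
  classical
  unfold UP
  rw [Finset.mem_filter, mem_FS]

theorem mem_LO {w z : ℂ} : z ∈ LO q w ↔ q.h.eval z = w ∧ z.im < 0 := by
  classical
  unfold LO
  rw [Finset.mem_filter, mem_FS]

theorem card_add {w : ℂ} (hw : w.im ≠ 0 ∨ w.re < q.vr) :
    (UP q w).card + (LO q w).card = (FS q w).card := by
  classical
  rw [← Finset.card_union_of_disjoint]
  · congr 1
    ext z
    rw [Finset.mem_union, mem_UP, mem_LO, mem_FS]
    constructor
    · rintro (h | h)
      · exact h.1
      · exact h.1
    · intro h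
      rcases lt_or_gt_of_ne (noreal q hw h) with h1 | h1
      · exact Or.inr ⟨h, h1⟩
      · exact Or.inl ⟨h, h1⟩
  · rw [Finset.disjoint_left]
    intro z h1 h2
    rw [mem_UP] at h1
    rw [mem_LO] at h2
    exact absurd h1.2 (not_lt.2 h2.2.le)

theorem card_conj (w : ℂ) : (LO q w).card = (UP q (conj w)).card := by
  classical
  apply Finset.card_bij (fun z _ => conj z)
  · intro z hz
    rw [mem_LO] at hz
    rw [mem_UP, q.h_conj, hz.1, conj_im]
    exact ⟨rfl, by linarith [hz.2]⟩
  · intro z _ z' _ h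
    exact (starRingEnd ℂ).injective h
  · intro z hz
    rw [mem_UP] at hz
    refine ⟨conj z, ?_, by simp⟩
    rw [mem_LO, q.h_conj, hz.1, conj_im]
    exact ⟨by simp, by linarith [hz.2]⟩

/-- the base point -/
theorem base {x : ℝ} (hx : x < q.vr) : (UP q (x : ℂ)).card = 2 := by
  have hw : ((x : ℂ)).im ≠ 0 ∨ ((x : ℂ)).re < q.vr := Or.inr (by simpa using hx)
  have h1 := card_add q hw
  rw [card_conj, conj_ofReal, card_FS] at h1
  · omega
  · intro z hz hd
    rw [q.crit_iff] at hd
    rcases hd with hd | hd | hd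
    · rw [hd] at hz
      rw [q.h_real] at hz
      have := ofReal_inj.1 hz
      unfold RQ.vr at hx
      linarith
    · rw [hd] at hz
      have h2 := q.vpos
      unfold RQ.v at h2
      rw [hz, ofReal_im] at h2
      exact lt_irrefl _ h2
    · rw [hd, q.h_conj] at hz
      have h2 := q.vpos
      unfold RQ.v at h2
      have h3 := congrArg Complex.im hz
      rw [conj_im, ofReal_im] at h3
      linarith

/-- the open set of regular values -/
def RS : Set ℂ := {w | (w.im ≠ 0 ∨ w.re < q.vr) ∧ w ≠ q.v}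

theorem isOpen_RS : IsOpen (RS q) := by
  have h1 : RS q = ({w | w.im ≠ 0} ∪ {w | w.re < q.vr}) ∩ {q.v}ᶜ := by
    ext w
    simp [RS]
  rw [h1]
  apply IsOpen.inter _ isOpen_compl_singleton
  apply IsOpen.union
  · exact isOpen_ne_fun continuous_im continuous_const
  · exact isOpen_lt continuous_re continuous_const

theorem hloc : ∀ z ∈ HH, q.h.eval z ∈ RS q → z ∈ interior HH ∧ q.h.derivative.eval z ≠ 0 := by
  intro z hz hw
  have h1 : z.im ≠ 0 := noreal q hw.1 rfl
  have h2 : 0 < z.im := lt_of_le_of_ne hz (Ne.symm h1)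
  constructor
  · have h3 : {z : ℂ | 0 < z.im} ⊆ HH := fun z (hz : 0 < z.im) => (le_of_lt hz : 0 ≤ z.im)
    exact interior_maximal h3 (isOpen_lt continuous_const continuous_im) h2
  · intro hd
    rw [q.crit_iff] at hd
    rcases hd with hd | hd | hd
    · rw [hd, ofReal_im] at h1
      exact h1 rfl
    · apply hw.2
      rw [hd]
      rfl
    · rw [hd, conj_im] at h2
      have := q.hc
      linarith

/-- transport of the upper preimages -/
theorem transport {w0 w1 : ℂ} (hseg : segment ℝ w0 w1 ⊆ RS q) :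
    ∃ f : ℂ → ℂ, (∀ a ∈ UP q w0, f a ∈ UP q w1 ∧
      ∃ l : ℂ → ℂ, ContinuousOn l (segment ℝ w0 w1) ∧
        (∀ x ∈ segment ℝ w0 w1, q.h.eval (l x) = x ∧ q.h.derivative.eval (l x) ≠ 0) ∧
        l w0 = a ∧ l w1 = f a) := by
  classical
  have key : ∀ a, ∃ b, a ∈ UP q w0 → b ∈ UP q w1 ∧ ∃ l : ℂ → ℂ,
      ContinuousOn l (segment ℝ w0 w1) ∧
        (∀ x ∈ segment ℝ w0 w1, q.h.eval (l x) = x ∧ q.h.derivative.eval (l x) ≠ 0) ∧
        l w0 = a ∧ l w1 = b := by
    intro a
    by_cases ha : a ∈ UP q w0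
    · rw [mem_UP] at ha
      obtain ⟨l, h1, h2, h3, h4⟩ := lift_gen q.h (by rw [q.natDegree]; norm_num)
        (E := HH) (s := RS q) (isClosed_le continuous_const continuous_im) (isOpen_RS q)
        (hloc q) (K := segment ℝ w0 w1) (convex_segment _ _) (g := fun x => x)
        continuousOn_id (fun x hx => hseg hx) (x0 := w0) (z0 := a) (left_mem_segment ℝ w0 w1)
        ha.2.le ha.1
      refine ⟨l w1, fun _ => ⟨?_, l, h1, ?_, h4, rfl⟩⟩
      · rw [mem_UP]
        have h5 := right_mem_segment ℝ w0 w1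
        refine ⟨h3 w1 h5, ?_⟩
        have h6 : (l w1).im ≠ 0 := noreal q (hseg h5).1 (h3 w1 h5)
        exact lt_of_le_of_ne (h2 h5) (Ne.symm h6)
      · intro x hx
        refine ⟨h3 x hx, (hloc q (l x) (h2 hx) ?_).2⟩
        rw [h3 x hx]
        exact hseg hx
    · exact ⟨a, fun h => absurd h ha⟩
  choose f hf using key
  exact ⟨f, hf⟩

theorem transport_card {w0 w1 : ℂ} (hseg : segment ℝ w0 w1 ⊆ RS q) :
    (UP q w0).card ≤ (UP q w1).card := by
  classical
  obtain ⟨f, hf⟩ := transport q hseg
  apply Finset.card_le_card_of_injOn f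
  · intro a ha
    exact (hf a ha).1
  · intro a ha b hb hab
    obtain ⟨-, l, h1, h2, h3, h4⟩ := hf a ha
    obtain ⟨-, l', h1', h2', h3', h4'⟩ := hf b hb
    have := lift_uniq q.h (K := segment ℝ w0 w1) (convex_segment _ _).isPreconnected h1 h1'
      (fun x hx => by rw [(h2 x hx).1, (h2' x hx).1]) (fun x hx => (h2 x hx).2)
      (right_mem_segment ℝ w0 w1) (by rw [h4, h4', hab]) w0 (left_mem_segment ℝ w0 w1)
    rw [← h3, ← h3', this]

theorem up_down {w : ℂ} (hw : w.im < 0) : (UP q w).card = 2 := by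
  have hx : q.vr - 1 < q.vr := by linarith
  have hseg : segment ℝ w ((q.vr - 1 : ℝ) : ℂ) ⊆ RS q := by
    rintro y ⟨a, b, ha, hb, hab, rfl⟩
    have him : (a • w + b • ((q.vr - 1 : ℝ) : ℂ)).im = a * w.im := by simp
    have hne : (a • w + b • ((q.vr - 1 : ℝ) : ℂ)) ≠ q.v := by
      intro h
      have h1 := q.vpos
      rw [← h, him] at h1
      nlinarith
    refine ⟨?_, hne⟩
    rcases eq_or_lt_of_le ha with h | h
    · right
      subst h
      have : b = 1 := by linarith
      subst this
      simp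
    · left
      rw [him]
      exact (mul_neg_of_pos_of_neg h hw).ne
  have h1 := transport_card q hseg
  rw [segment_symm] at hseg
  have h2 := transport_card q hseg
  rw [base q hx] at h1 h2
  omega

end B8aux

open B8aux

/-- counting: over every point of the lower half plane there are exactly two points of the
upper half plane -/
theorem RQ.count_down : (∀ w : ℂ, w.im < 0 → ∃ z1 z2 : ℂ, z1 ≠ z2 ∧ 0 < z1.im ∧ 0 < z2.im ∧
    q.h.eval z1 = w ∧ q.h.eval z2 = w ∧
      ∀ z : ℂ, 0 < z.im → q.h.eval z = w → z = z1 ∨ z = z2) := by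
  classical
  intro w hw
  obtain ⟨z1, z2, h12, hU⟩ := Finset.card_eq_two.1 (up_down q hw)
  have h1 : z1 ∈ UP q w := by rw [hU]; simp
  have h2 : z2 ∈ UP q w := by rw [hU]; simp
  rw [mem_UP] at h1 h2
  refine ⟨z1, z2, h12, h1.2, h2.2, h1.1, h2.1, ?_⟩
  intro z hz hzw
  have h3 : z ∈ UP q w := by rw [mem_UP]; exact ⟨hzw, hz⟩
  rw [hU] at h3
  simpa using h3

/-- over a point of the upper half plane other than `v` there are exactly two points of the
upper half plane, over `v` only `c` -/
theorem RQ.count_up : (∀ w : ℂ, 0 < w.im → w ≠ q.v → ∃ z1 z2 : ℂ, z1 ≠ z2 ∧ 0 < z1.im ∧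
    0 < z2.im ∧ q.h.eval z1 = w ∧ q.h.eval z2 = w ∧
      ∀ z : ℂ, 0 < z.im → q.h.eval z = w → z = z1 ∨ z = z2) ∧
    ∀ z : ℂ, 0 < z.im → q.h.eval z = q.v → z = q.c := by
  classical
  constructor
  · intro w hw hwv
    have h0 : (UP q w).card = 2 := by
      have h1 := card_add q (w := w) (Or.inl hw.ne')
      rw [card_conj, up_down q (w := conj w) (by rw [conj_im]; linarith), card_FS] at h1
      · omega
      · intro z hz hd
        rw [q.crit_iff] at hd
        rcases hd with hd | hd | hd
        · rw [hd, q.h_real] at hz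
          rw [← hz, ofReal_im] at hw
          exact lt_irrefl _ hw
        · rw [hd] at hz
          exact hwv hz.symm
        · rw [hd, q.h_conj] at hz
          have h2 := q.vpos
          unfold RQ.v at h2
          rw [← hz, conj_im] at hw
          linarith
    obtain ⟨z1, z2, h12, hU⟩ := Finset.card_eq_two.1 h0
    have h1 : z1 ∈ UP q w := by rw [hU]; simp
    have h2 : z2 ∈ UP q w := by rw [hU]; simp
    rw [mem_UP] at h1 h2
    refine ⟨z1, z2, h12, h1.2, h2.2, h1.1, h2.1, ?_⟩
    intro z hz hzw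
    have h3 : z ∈ UP q w := by rw [mem_UP]; exact ⟨hzw, hz⟩
    rw [hU] at h3
    simpa using h3
  · intro z hz hzv
    by_contra hne
    have hv := q.vpos
    have h1 : (LO q q.v).card = 2 := by
      rw [card_conj, up_down q (w := conj q.v) (by rw [conj_im]; linarith)]
    have h2 : 2 ≤ (UP q q.v).card := by
      have h3 : ({z, q.c} : Finset ℂ) ⊆ UP q q.v := by
        intro y hy
        rw [Finset.mem_insert, Finset.mem_singleton] at hy
        rcases hy with hy | hy
        · rw [hy, mem_UP]
          exact ⟨hzv, hz⟩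
        · rw [hy, mem_UP]
          exact ⟨rfl, q.hc⟩
      calc 2 = ({z, q.c} : Finset ℂ).card := (Finset.card_pair hne).symm
        _ ≤ _ := Finset.card_le_card h3
    have h3 := card_add q (w := q.v) (Or.inl hv.ne')
    have h4 : (q.h - C q.v).roots.toFinset.card = 4 := by
      apply le_antisymm
      · rw [← card4 q q.v]
        exact Multiset.toFinset_card_le _
      · have h5 : (FS q q.v) = (q.h - C q.v).roots.toFinset := by
          ext y
          rw [mem_FS, Multiset.mem_toFinset, mem_iff]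
        rw [← h5, ← h3]
        omega
    rw [← card4 q q.v, Multiset.toFinset_card_eq_card_iff_nodup] at h4
    rw [Multiset.nodup_iff_count_le_one] at h4
    have h6 := h4 q.c
    rw [count_roots] at h6
    have h7 : 1 < (q.h - C q.v).rootMultiplicity q.c := by
      rw [one_lt_rootMultiplicity_iff_isRoot (ne0 q q.v)]
      constructor
      · rw [IsRoot.def, eval_sub, eval_C, sub_eq_zero]
        rfl
      · rw [IsRoot.def, derivative_sub, derivative_C, sub_zero, q.crit_iff]
        exact Or.inr (Or.inl rfl)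
    omega

end

end Pool.TU
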