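import Pool.Agent.Helper71.TU.F7
import Pool.Agent.Helper71.TU.B3
import Pool.Agent.Helper71.TU.B5

/-! # TU F8: parametrised preimages -/

open Complex Set Filter Topology Metric Polynomial ComplexConjugate Pool.Tuning

namespace Pool.TU

noncomputable section

variable {q q' : RQ}

theorem FD.χ_sq (d : FD q q') {ζ : ℂ} (hζ : ζ ∈ closedBall (0 : ℂ) 1) :
    ζ ^ 2 ∈ closedBall (0 : ℂ) 1 := by
  rw [mem_closedBall, dist_zero_right] at *
  rw [norm_pow]
  exact pow_le_one₀ (norm_nonneg _) hζ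

theorem FD.h_maps (d : FD q q') {z : ℂ} (hz : z ∈ d.χ '' closedBall 0 1) :
    q.h.eval z ∈ d.χ '' closedBall 0 1 := by
  obtain ⟨ζ, hζ, rfl⟩ := hz
  rw [d.mb.conjF ζ hζ]
  exact ⟨ζ ^ 2, d.χ_sq hζ, rfl⟩

theorem FD.par_zero (d : FD q q') : Par q d.χ 0 d.χ := by
  refine ⟨d.mb.cont, fun ζ _ => rfl, fun m hm => absurd hm (Nat.not_lt_zero m)⟩

/-- critical points never enter a depth `n` preimage -/
theorem FD.par_der (d : FD q q') {n : ℕ} {s : ℂ → ℂ} (h : Par q d.χ (n + 1) s) {ζ : ℂ}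
    (hζ : ζ ∈ closedBall (0 : ℂ) 1) : q.h.derivative.eval (s ζ) ≠ 0 := by
  intro h0
  have he := h.eq ζ hζ
  have hχ : d.χ ζ ∈ d.χ '' closedBall 0 1 := ⟨ζ, hζ, rfl⟩
  rcases (q.crit_iff (s ζ)).1 h0 with h1 | h1 | h1
  · apply h.out 0 (Nat.succ_pos n) ζ hζ
    refine ⟨0, by simp, ?_⟩
    rw [d.mb.zero]
    exact h1.symm
  · rw [h1, Function.iterate_succ_apply] at he
    rw [← he] at hχ
    exact (d.post n).1 hχ
  · rw [h1, Function.iterate_succ_apply, q.h_conj] at he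
    rw [← he] at hχ
    exact (d.post n).2 hχ

/-- the image of a parametrised preimage avoids the critical values -/
theorem FD.par_critval (d : FD q q') {n : ℕ} {s : ℂ → ℂ} (h : Par q d.χ (n + 1) s) {ζ : ℂ}
    (hζ : ζ ∈ closedBall (0 : ℂ) 1) {z : ℂ} (hz : q.h.derivative.eval z = 0) :
    q.h.eval z ≠ s ζ := by
  intro h0
  have he := h.eq ζ hζ
  have hχ : d.χ ζ ∈ d.χ '' closedBall 0 1 := ⟨ζ, hζ, rfl⟩
  rcases (q.crit_iff z).1 hz with h1 | h1 | h1
  · apply h.out 0 (Nat.succ_pos n) ζ hζ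
    refine ⟨0, by simp, ?_⟩
    rw [d.mb.zero]
    show (q.r : ℂ) = s ζ
    rw [← h0, h1, q.h_real, d.fix]
  · rw [← h0, h1] at he
    rw [← he] at hχ
    exact (d.post (n + 1)).1 hχ
  · rw [← h0, h1, q.h_conj] at he
    rw [← he] at hχ
    exact (d.post (n + 1)).2 hχ

/-- lifting a parametrised preimage -/
theorem FD.lift_par (d : FD q q') {n : ℕ} {s : ℂ → ℂ} (h : Par q d.χ n s) {x ζ : ℂ}
    (hζ : ζ ∈ closedBall (0 : ℂ) 1) (hx : x ∉ d.χ '' closedBall 0 1)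
    (he : q.h.eval x = s ζ) : ∃ s', Par q d.χ (n + 1) s' ∧ s' ζ = x ∧
      ∀ ξ ∈ closedBall (0 : ℂ) 1, q.h.eval (s' ξ) = s ξ := by
  rcases n with _ | n
  · -- depth zero
    have hs : ∀ ξ ∈ closedBall (0 : ℂ) 1, s ξ = d.χ ξ := fun ξ hξ => h.eq ξ hξ
    obtain ⟨s1, hs1, -, hex⟩ := d.exists_s1
    have key : ∀ t : ℂ → ℂ, Par q d.χ 1 t → ∀ ξ ∈ closedBall (0 : ℂ) 1, t ξ = x →
        ∃ s', Par q d.χ (0 + 1) s' ∧ s' ζ = x ∧
          ∀ ξ ∈ closedBall (0 : ℂ) 1, q.h.eval (s' ξ) = s ξ := by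
      intro t ht ξ hξ hξx
      have h1 : ∀ ξ ∈ closedBall (0 : ℂ) 1, q.h.eval (t ξ) = d.χ ξ := fun ξ hξ => ht.eq ξ hξ
      have h2 : ξ = ζ := by
        apply d.mb.inj hξ hζ
        rw [← h1 ξ hξ, hξx, he, hs ζ hζ]
      refine ⟨t, ht, by rw [← h2]; exact hξx, fun ξ hξ => ?_⟩
      rw [h1 ξ hξ, hs ξ hξ]
    rcases hex x hx (by rw [he, hs ζ hζ]; exact ⟨ζ, hζ, rfl⟩) with ⟨ξ, hξ, h1⟩ | ⟨ξ, hξ, h1⟩
    · exact key s1 hs1 ξ hξ h1
    · refine key _ (d.par_conj hs1) (conj ξ) ?_ ?_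
      · rw [mem_closedBall, dist_zero_right] at *
        rwa [Complex.norm_conj]
      · show conj (s1 (conj (conj ξ))) = x
        rw [Complex.conj_conj, h1, Complex.conj_conj]
  · have hd : 1 ≤ q.h.natDegree := by rw [q.natDegree]; norm_num
    have hK : Convex ℝ (closedBall (0 : ℂ) 1) := convex_closedBall 0 1
    have hfin : (({(q.r : ℂ), q.c, conj q.c} : Set ℂ).image fun z => q.h.eval z).Finite :=
      (Set.toFinite _).image _
    obtain ⟨l, hl1, -, hl3, hl4⟩ := lift_gen q.h hd (E := univ)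
      (s := ((({(q.r : ℂ), q.c, conj q.c} : Set ℂ).image fun z => q.h.eval z))ᶜ)
      isClosed_univ hfin.isClosed.isOpen_compl (by
        intro z _ hz
        refine ⟨by simp, fun h0 => hz ?_⟩
        refine ⟨z, ?_, rfl⟩
        rcases (q.crit_iff z).1 h0 with h1 | h1 | h1
        · rw [h1]; simp
        · rw [h1]; simp
        · rw [h1]; simp) hK h.cont (by
        rintro ξ hξ ⟨z, hz, h0⟩
        refine d.par_critval h hξ ?_ h0
        rw [q.crit_iff]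
        simpa using hz) hζ (mem_univ x) he
    refine ⟨l, ⟨hl1, fun ξ hξ => ?_, fun m hm ξ hξ => ?_⟩, hl4, hl3⟩
    · rw [Function.iterate_succ_apply, hl3 ξ hξ]
      exact h.eq ξ hξ
    · rcases m with _ | m
      · intro hmem
        have h1 := d.h_maps hmem
        rw [Function.iterate_zero_apply, hl3 ξ hξ] at h1
        exact h.out 0 (Nat.succ_pos n) ξ hξ h1
      · rw [Function.iterate_succ_apply, hl3 ξ hξ]
        exact h.out m (Nat.lt_of_succ_lt_succ hm) ξ hξ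

/-- every point that enters the closed basin lies on a parametrised preimage -/
theorem FD.exists_par (d : FD q q') (n : ℕ) {z : ℂ}
    (h : (fun w => q.h.eval w)^[n] z ∈ d.χ '' closedBall 0 1)
    (h' : ∀ m < n, (fun w => q.h.eval w)^[m] z ∉ d.χ '' closedBall 0 1) :
    ∃ s, Par q d.χ n s ∧ z ∈ s '' closedBall 0 1 := by
  induction n generalizing z with
  | zero => exact ⟨d.χ, d.par_zero, h⟩
  | succ n ih =>
    rw [Function.iterate_succ_apply] at h
    obtain ⟨s, hs, ζ, hζ, hsz⟩ := ih h (fun m hm => by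
      have := h' (m + 1) (Nat.succ_lt_succ hm)
      rwa [Function.iterate_succ_apply] at this)
    obtain ⟨s', hs', h1, -⟩ := d.lift_par hs hζ (h' 0 (Nat.succ_pos n)) hsz.symm
    exact ⟨s', hs', ζ, hζ, h1⟩

theorem FD.par_push (d : FD q q') {n : ℕ} {s : ℂ → ℂ} (hs : Par q d.χ (n + 1) s) :
    Par q d.χ n (fun ζ => q.h.eval (s ζ)) := by
  refine ⟨q.h.continuous.comp_continuousOn hs.cont, fun ζ hζ => ?_, fun m hm ζ hζ => ?_⟩
  · have := hs.eq ζ hζ
    rwa [Function.iterate_succ_apply] at this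
  · have := hs.out (m + 1) (Nat.succ_lt_succ hm) ζ hζ
    rwa [Function.iterate_succ_apply] at this

theorem FD.par_param (d : FD q q') {n : ℕ} {s s' : ℂ → ℂ} (hs : Par q d.χ n s)
    (hs' : Par q d.χ n s') {ζ ζ' : ℂ} (hζ : ζ ∈ closedBall (0 : ℂ) 1)
    (hζ' : ζ' ∈ closedBall (0 : ℂ) 1) (h : s ζ = s' ζ') : ζ = ζ' := by
  apply d.mb.inj hζ hζ'
  rw [← hs.eq ζ hζ, ← hs'.eq ζ' hζ', h]

/-- parametrised preimages of the same depth through a common point are equal -/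
theorem FD.par_unique (d : FD q q') {n : ℕ} {s s' : ℂ → ℂ} (hs : Par q d.χ n s)
    (hs' : Par q d.χ n s') {z : ℂ} (hz : z ∈ s '' closedBall 0 1)
    (hz' : z ∈ s' '' closedBall 0 1) : ∀ ζ ∈ closedBall (0 : ℂ) 1, s ζ = s' ζ := by
  induction n generalizing s s' z with
  | zero =>
    intro ζ hζ
    have h1 : s ζ = d.χ ζ := hs.eq ζ hζ
    have h2 : s' ζ = d.χ ζ := hs'.eq ζ hζ
    rw [h1, h2]
  | succ n ih =>
    obtain ⟨ζ0, hζ0, h0⟩ := hz
    obtain ⟨ζ1, hζ1, h1⟩ := hz'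
    have h01 : ζ0 = ζ1 := d.par_param hs hs' hζ0 hζ1 (h0.trans h1.symm)
    have hpush := ih (d.par_push hs) (d.par_push hs') (z := q.h.eval z)
      ⟨ζ0, hζ0, by simp only [h0]⟩ ⟨ζ1, hζ1, by simp only [h1]⟩
    exact lift_uniq q.h (convex_closedBall (0 : ℂ) 1).isPreconnected hs.cont hs'.cont hpush
      (fun x hx => d.par_der hs hx) hζ0 (by rw [h0, h01, h1])

end

end Pool.TU
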