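import Pool.Agent.Helper71.TU.H2

/-! # TU H3: fibres of the landing value -/

open Complex Set Filter Topology Metric Polynomial ComplexConjugate Pool.Tuning

namespace Pool.TU

noncomputable section

private theorem h3_norm_ofPlane (z : ℂ) : ‖ofPlane z‖ = ‖z‖ / (1 + ‖z‖) := by
  have h0 : 0 < 1 + ‖z‖ := by positivity
  have h1 : (1 : ℂ) + (‖z‖ : ℂ) = ((1 + ‖z‖ : ℝ) : ℂ) := by push_cast; rfl
  rw [ofPlane, norm_div, h1, Complex.norm_real, Real.norm_eq_abs, abs_of_pos h0]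

private theorem h3_ofPlane_lt (z : ℂ) : ‖ofPlane z‖ < 1 := by
  rw [h3_norm_ofPlane, div_lt_one (by positivity)]
  linarith

private theorem h3_one_sub (z : ℂ) : 1 - ‖ofPlane z‖ = 1 / (1 + ‖z‖) := by
  have h0 : 1 + ‖z‖ ≠ 0 := by positivity
  rw [h3_norm_ofPlane]
  field_simp
  ring

private theorem h3_to_of (z : ℂ) : toPlane (ofPlane z) = z := by
  have h0 : (1 : ℂ) + (‖z‖ : ℂ) ≠ 0 := by
    have h1 : (1 : ℂ) + (‖z‖ : ℂ) = ((1 + ‖z‖ : ℝ) : ℂ) := by push_cast; rfl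
    rw [h1]
    exact_mod_cast (by positivity : (1 + ‖z‖ : ℝ) ≠ 0)
  have h2 : (1 : ℂ) - (‖ofPlane z‖ : ℂ) = 1 / (1 + (‖z‖ : ℂ)) := by
    have := h3_one_sub z
    have h3 : ((1 - ‖ofPlane z‖ : ℝ) : ℂ) = ((1 / (1 + ‖z‖) : ℝ) : ℂ) := by rw [this]
    push_cast at h3
    exact h3
  rw [toPlane, h2, ofPlane]
  field_simp

private theorem h3_of_to {ζ : ℂ} (h : ‖ζ‖ < 1) : ofPlane (toPlane ζ) = ζ := by
  have h0 : 0 < 1 - ‖ζ‖ := by linarith
  have h1 : (1 : ℂ) - (‖ζ‖ : ℂ) = ((1 - ‖ζ‖ : ℝ) : ℂ) := by push_cast; rfl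
  have hc : ((1 - ‖ζ‖ : ℝ) : ℂ) ≠ 0 := by exact_mod_cast h0.ne'
  have h2 : ‖toPlane ζ‖ = ‖ζ‖ / (1 - ‖ζ‖) := by
    rw [toPlane, norm_div, h1, Complex.norm_real, Real.norm_eq_abs, abs_of_pos h0]
  have h3 : (1 : ℂ) + (‖toPlane ζ‖ : ℂ) = 1 / ((1 - ‖ζ‖ : ℝ) : ℂ) := by
    rw [h2]
    have h4 : (1 + ‖ζ‖ / (1 - ‖ζ‖) : ℝ) = 1 / (1 - ‖ζ‖) := by
      field_simp
      ring
    have h5 : ((1 + ‖ζ‖ / (1 - ‖ζ‖) : ℝ) : ℂ) = ((1 / (1 - ‖ζ‖) : ℝ) : ℂ) := by rw [h4]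
    rw [← Complex.ofReal_one, ← Complex.ofReal_add, h5]
    push_cast
    rfl
  rw [ofPlane, h3, toPlane, h1]
  field_simp

private theorem h3_of_neg (z : ℂ) : ofPlane (-z) = -ofPlane z := by
  rw [ofPlane, ofPlane, norm_neg, neg_div]

private theorem h3_to_neg (z : ℂ) : toPlane (-z) = -toPlane z := by
  rw [toPlane, toPlane, norm_neg, neg_div]

private theorem h3_lvd_neg (z : ℂ) : lvd (-z) = -lvd z := by
  rw [lvd, lvd, norm_neg, Complex.neg_re]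
  have h1 : ‖-z - 2 * (1 - (‖z‖ : ℂ))‖ = ‖z + 2 * (1 - (‖z‖ : ℂ))‖ := by
    rw [← norm_neg]
    congr 1
    ring
  have h2 : ‖-z + 2 * (1 - (‖z‖ : ℂ))‖ = ‖z - 2 * (1 - (‖z‖ : ℂ))‖ := by
    rw [← norm_neg]
    congr 1
    ring
  rw [h1, h2, add_comm]
  ring

private theorem h3_disk_neg (ζ : ℂ) : diskMap (-2) (-ζ) = diskMap (-2) ζ := by
  rw [diskMap, diskMap, norm_neg, h3_to_neg, neg_sq, neg_sq]

/-- scale invariance -/
private theorem h3_lvd_of (z : ℂ) : lvd (ofPlane z) = 4 * z.re / (‖z - 2‖ + ‖z + 2‖) := by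
  have h0 : 0 < 1 + ‖z‖ := by positivity
  have h1 : (1 : ℂ) + (‖z‖ : ℂ) = ((1 + ‖z‖ : ℝ) : ℂ) := by push_cast; rfl
  have hc : ((1 + ‖z‖ : ℝ) : ℂ) ≠ 0 := by exact_mod_cast h0.ne'
  have h2 : (1 : ℂ) - (‖ofPlane z‖ : ℂ) = 1 / ((1 + ‖z‖ : ℝ) : ℂ) := by
    have := h3_one_sub z
    have h3 : ((1 - ‖ofPlane z‖ : ℝ) : ℂ) = ((1 / (1 + ‖z‖) : ℝ) : ℂ) := by rw [this]
    rw [Complex.ofReal_sub, Complex.ofReal_one] at h3
    rw [h3]
    push_cast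
    rfl
  have h3 : ofPlane z = z / ((1 + ‖z‖ : ℝ) : ℂ) := by rw [ofPlane, h1]
  have h4 : ofPlane z - 2 * (1 - (‖ofPlane z‖ : ℂ)) = (z - 2) / ((1 + ‖z‖ : ℝ) : ℂ) := by
    rw [h2, h3]
    ring
  have h5 : ofPlane z + 2 * (1 - (‖ofPlane z‖ : ℂ)) = (z + 2) / ((1 + ‖z‖ : ℝ) : ℂ) := by
    rw [h2, h3]
    ring
  have h6 : (ofPlane z).re = z.re / (1 + ‖z‖) := by
    rw [h3, Complex.div_ofReal_re]
  rw [lvd, h4, h5, h6, norm_div, norm_div, Complex.norm_real, Real.norm_eq_abs, abs_of_pos h0]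
  have h7 : 0 < ‖z - 2‖ + ‖z + 2‖ := by
    have h8 : ‖(4 : ℂ)‖ ≤ ‖z - 2‖ + ‖z + 2‖ := by
      calc ‖(4 : ℂ)‖ = ‖(z + 2) - (z - 2)‖ := by
            congr 1
            ring
        _ ≤ ‖z + 2‖ + ‖z - 2‖ := norm_sub_le _ _
        _ = _ := add_comm _ _
    have h9 : ‖(4 : ℂ)‖ = 4 := by simp
    linarith
  field_simp

/-- elliptic coordinates -/
private theorem h3_EL {η : ℂ} (h : η ≠ 0) : lvd (ofPlane (η + η⁻¹)) = 2 * η.re / ‖η‖ := by
  have hn : 0 < ‖η‖ := norm_pos_iff.2 h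
  have h1 : η + η⁻¹ - 2 = (η - 1) ^ 2 / η := by
    field_simp
    ring
  have h2 : η + η⁻¹ + 2 = (η + 1) ^ 2 / η := by
    field_simp
    ring
  have h3 : ‖η - 1‖ ^ 2 + ‖η + 1‖ ^ 2 = 2 * (‖η‖ ^ 2 + 1) := by
    have e1 : ‖η - 1‖ ^ 2 = (η.re - 1) ^ 2 + η.im ^ 2 := by
      rw [← Complex.normSq_eq_norm_sq, Complex.normSq_apply]
      simp
      ring
    have e2 : ‖η + 1‖ ^ 2 = (η.re + 1) ^ 2 + η.im ^ 2 := by
      rw [← Complex.normSq_eq_norm_sq, Complex.normSq_apply]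
      simp
      ring
    have e3 : ‖η‖ ^ 2 = η.re ^ 2 + η.im ^ 2 := by
      rw [← Complex.normSq_eq_norm_sq, Complex.normSq_apply]
      ring
    rw [e1, e2, e3]
    ring
  have h4 : (η + η⁻¹).re = η.re * (1 + 1 / ‖η‖ ^ 2) := by
    rw [Complex.add_re, Complex.inv_re, Complex.normSq_eq_norm_sq]
    ring
  rw [h3_lvd_of, h1, h2, h4, norm_div, norm_div, norm_pow, norm_pow, ← add_div, h3]
  have h5 : ‖η‖ ^ 2 + 1 ≠ 0 := by positivity
  field_simp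
  ring

private theorem h3_exists_η {z : ℂ} (hz : 0 ≤ z.im) :
    ∃ η : ℂ, 1 ≤ ‖η‖ ∧ 0 ≤ η.im ∧ z = η + η⁻¹ := by
  -- a root of the quadratic equation
  obtain ⟨w, hw⟩ := IsAlgClosed.exists_pow_nat_eq (z ^ 2 - 4) (n := 2) (by norm_num)
  obtain ⟨η, hη1, hη2⟩ : ∃ η : ℂ, 1 ≤ ‖η‖ ∧ z = η + η⁻¹ := by
    have h1 : ((z + w) / 2) * ((z - w) / 2) = 1 := by
      linear_combination (-hw) / 4
    have h2 : (z + w) / 2 ≠ 0 := by
      intro h
      rw [h, zero_mul] at h1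
      exact zero_ne_one h1
    have h3 : ((z + w) / 2)⁻¹ = (z - w) / 2 := by
      rw [← mul_left_cancel₀ h2 (b := (z - w) / 2) (c := ((z + w) / 2)⁻¹)]
      rw [h1, mul_inv_cancel₀ h2]
    rcases le_total 1 ‖(z + w) / 2‖ with h | h
    · refine ⟨_, h, ?_⟩
      rw [h3]
      ring
    · refine ⟨((z + w) / 2)⁻¹, ?_, ?_⟩
      · rw [norm_inv]
        exact (one_le_inv₀ (norm_pos_iff.2 h2)).2 h
      · rw [inv_inv, h3]
        ring
  have hn : 0 < ‖η‖ := by linarith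
  have hη0 : η ≠ 0 := norm_pos_iff.1 hn
  by_cases h0 : 0 ≤ η.im
  · exact ⟨η, hη1, h0, hη2⟩
  · have him : z.im = η.im * (1 - 1 / ‖η‖ ^ 2) := by
      rw [hη2, Complex.add_im, Complex.inv_im, Complex.normSq_eq_norm_sq]
      ring
    have h1 : ‖η‖ = 1 := by
      by_contra h
      have h2 : 1 < ‖η‖ := lt_of_le_of_ne hη1 (Ne.symm h)
      have h3 : 1 / ‖η‖ ^ 2 < 1 := by
        rw [div_lt_one (by positivity)]
        nlinarith
      have h4 : z.im < 0 := by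
        rw [him]
        exact mul_neg_of_neg_of_pos (not_le.1 h0) (by linarith)
      linarith
    have h2 : η⁻¹ = conj η := by
      rw [Complex.inv_def, Complex.normSq_eq_norm_sq, h1]
      simp
    refine ⟨conj η, ?_, ?_, ?_⟩
    · rw [Complex.norm_conj, h1]
    · rw [Complex.conj_im]
      linarith [not_le.1 h0]
    · rw [← h2, inv_inv, hη2]
      ring

private def h3_path (e : ℂ) (l : ℝ) : ℂ :=
  (e + (l : ℂ) ^ 2 * conj e) / ((l + ‖e + (l : ℂ) ^ 2 * conj e‖ : ℝ) : ℂ)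

private theorem h3_path_pos {e : ℂ} (he : ‖e‖ = 1) {l : ℝ} (hl : 0 ≤ l) :
    0 < l + ‖e + (l : ℂ) ^ 2 * conj e‖ := by
  rcases lt_or_eq_of_le hl with h | h
  · have := norm_nonneg (e + (l : ℂ) ^ 2 * conj e)
    linarith
  · rw [← h]
    simp [he]

private theorem h3_path_cont {e : ℂ} (he : ‖e‖ = 1) : ContinuousOn (h3_path e) (Icc 0 1) := by
  have h1 : Continuous fun l : ℝ => e + (l : ℂ) ^ 2 * conj e := by
    fun_prop
  apply ContinuousOn.div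
  · exact h1.continuousOn
  · exact (Complex.continuous_ofReal.comp (continuous_id.add h1.norm)).continuousOn
  · intro l hl
    have := h3_path_pos he hl.1
    exact_mod_cast this.ne'

private theorem h3_path_zero {e : ℂ} (he : ‖e‖ = 1) : h3_path e 0 = e := by
  rw [h3_path]
  simp [he]

private theorem h3_path_of {e : ℂ} (he : ‖e‖ = 1) {l : ℝ} (hl : 0 < l) :
    h3_path e l = ofPlane (e / l + (e / l)⁻¹) := by
  have hlc : (l : ℂ) ≠ 0 := by exact_mod_cast hl.ne'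
  have he0 : e ≠ 0 := by
    rintro rfl
    simp at he
  have h2 : e⁻¹ = conj e := by
    rw [Complex.inv_def, Complex.normSq_eq_norm_sq, he]
    simp
  have h3 : e / l + (e / l)⁻¹ = (e + (l : ℂ) ^ 2 * conj e) / l := by
    rw [inv_div, div_eq_mul_inv (l : ℂ) e, h2]
    field_simp
  have hp := h3_path_pos he hl.le
  rw [h3, ofPlane, norm_div, Complex.norm_real, Real.norm_eq_abs, abs_of_pos hl, h3_path]
  have h4 : (1 : ℂ) + ((‖e + (l : ℂ) ^ 2 * conj e‖ / l : ℝ) : ℂ) =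
      ((l + ‖e + (l : ℂ) ^ 2 * conj e‖ : ℝ) : ℂ) / l := by
    push_cast
    field_simp
  rw [h4]
  have h5 : ((l + ‖e + (l : ℂ) ^ 2 * conj e‖ : ℝ) : ℂ) ≠ 0 := by exact_mod_cast hp.ne'
  field_simp

private theorem h3_circ {t : ℝ} (ht : t ∈ Icc (-2 : ℝ) 2) :
    ∃ e : ℂ, ‖e‖ = 1 ∧ 0 ≤ e.im ∧ e.re = t / 2 ∧
      ∀ u : ℂ, ‖u‖ = 1 → 0 ≤ u.im → u.re = t / 2 → u = e := by
  have h1 : 0 ≤ 1 - (t / 2) ^ 2 := by nlinarith [ht.1, ht.2]
  refine ⟨⟨t / 2, Real.sqrt (1 - (t / 2) ^ 2)⟩, ?_, Real.sqrt_nonneg _, rfl, ?_⟩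
  · rw [Complex.norm_def, Complex.normSq_apply]
    simp only
    rw [Real.mul_self_sqrt h1]
    rw [Real.sqrt_eq_one]
    ring
  · intro u hu him hre
    apply Complex.ext
    · exact hre
    · have h2 : u.re ^ 2 + u.im ^ 2 = 1 := by
        have : ‖u‖ ^ 2 = u.re ^ 2 + u.im ^ 2 := by
          rw [← Complex.normSq_eq_norm_sq, Complex.normSq_apply]
          ring
        rw [← this, hu]
        norm_num
      show u.im = Real.sqrt (1 - (t / 2) ^ 2)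
      rw [eq_comm, Real.sqrt_eq_iff_mul_self_eq h1 him]
      rw [hre] at h2
      linarith

private theorem h3_half {t : ℝ} (ht : t ∈ Icc (-2 : ℝ) 2) :
    ∃ e : ℂ, ‖e‖ = 1 ∧ 0 ≤ e.im ∧ e.re = t / 2 ∧
      {ζ | ζ ∈ HD ∧ lvd ζ = t} = h3_path e '' Icc 0 1 := by
  obtain ⟨e, he, him, hre, hu⟩ := h3_circ ht
  refine ⟨e, he, him, hre, ?_⟩
  have he0 : e ≠ 0 := by
    rintro rfl
    simp at he
  ext ζ
  constructor
  · rintro ⟨⟨h1, h2⟩, h3⟩
    rcases lt_or_eq_of_le h1 with h4 | h4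
    · have hz : 0 ≤ (toPlane ζ).im := by
        have h0 : 0 < 1 - ‖ζ‖ := by linarith
        have h5 : (1 : ℂ) - (‖ζ‖ : ℂ) = ((1 - ‖ζ‖ : ℝ) : ℂ) := by push_cast; rfl
        rw [toPlane, h5, Complex.div_ofReal_im]
        positivity
      obtain ⟨η, g1, g2, g3⟩ := h3_exists_η hz
      have hn : 0 < ‖η‖ := by linarith
      have hη0 : η ≠ 0 := norm_pos_iff.1 hn
      have hnc : (‖η‖ : ℂ) ≠ 0 := by exact_mod_cast hn.ne'
      have g4 : ζ = ofPlane (η + η⁻¹) := by rw [← g3, h3_of_to h4]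
      have g5 : 2 * η.re / ‖η‖ = t := by rw [← h3_EL hη0, ← g4, h3]
      have g6 : η / ‖η‖ = e := by
        apply hu
        · rw [norm_div, Complex.norm_real, norm_norm, div_self hn.ne']
        · rw [Complex.div_ofReal_im]
          positivity
        · rw [Complex.div_ofReal_re, ← g5]
          ring
      refine ⟨1 / ‖η‖, ⟨by positivity, by rw [div_le_one hn]; exact g1⟩, ?_⟩
      rw [h3_path_of he (by positivity), g4]
      have g7 : e / ((1 / ‖η‖ : ℝ) : ℂ) = η := by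
        rw [← g6]
        push_cast
        field_simp
      rw [g7]
    · refine ⟨0, ⟨le_rfl, zero_le_one⟩, ?_⟩
      rw [h3_path_zero he]
      symm
      apply hu ζ h4 h2
      rw [lvd_circle h4] at h3
      linarith
  · rintro ⟨l, hl, rfl⟩
    rcases lt_or_eq_of_le hl.1 with h4 | h4
    · have hlc : (l : ℂ) ≠ 0 := by exact_mod_cast h4.ne'
      have hq : e / (l : ℂ) ≠ 0 := div_ne_zero he0 hlc
      refine ⟨⟨?_, ?_⟩, ?_⟩
      · rw [h3_path_of he h4]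
        exact (h3_ofPlane_lt _).le
      · have hp := h3_path_pos he h4.le
        rw [h3_path, Complex.div_ofReal_im]
        apply div_nonneg _ hp.le
        have e1 : (e + (l : ℂ) ^ 2 * conj e).im = (1 - l ^ 2) * e.im := by
          rw [← Complex.ofReal_pow, Complex.add_im, Complex.im_ofReal_mul, Complex.conj_im]
          ring
        rw [e1]
        apply mul_nonneg _ him
        nlinarith [hl.1, hl.2]
      · rw [h3_path_of he h4, h3_EL hq, Complex.div_ofReal_re, norm_div, Complex.norm_real,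
          Real.norm_eq_abs, abs_of_pos h4, he, hre]
        field_simp
    · rw [← h4, h3_path_zero he]
      refine ⟨⟨he.le, him⟩, ?_⟩
      rw [lvd_circle he, hre]
      ring

private theorem h3_half_conn {t : ℝ} (ht : t ∈ Icc (-2 : ℝ) 2) :
    IsPreconnected {ζ | ζ ∈ HD ∧ lvd ζ = t} := by
  obtain ⟨e, he, -, -, hF⟩ := h3_half ht
  rw [hF]
  exact isPreconnected_Icc.image _ (h3_path_cont he)

private theorem h3_ofPlane_real {t : ℝ} (ht : t ∈ Icc (-2 : ℝ) 2) :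
    ofPlane t ∈ HD ∧ lvd (ofPlane t) = t := by
  refine ⟨⟨(h3_ofPlane_lt _).le, ?_⟩, lvd_ofPlane ht⟩
  have h1 : (1 : ℂ) + (‖(t : ℂ)‖ : ℂ) = ((1 + ‖(t : ℂ)‖ : ℝ) : ℂ) := by push_cast; rfl
  rw [ofPlane, h1, ← Complex.ofReal_div, Complex.ofReal_im]

theorem lvd_fiber {t : ℝ} (ht : t ∈ Icc (-2 : ℝ) 2) :
    IsConnected {ζ | ζ ∈ closedBall (0 : ℂ) 1 ∧ lvd ζ = t} := by
  have h1 := h3_half_conn ht
  have h2 := h3_ofPlane_real ht
  have h3 : {ζ | ζ ∈ closedBall (0 : ℂ) 1 ∧ lvd ζ = t} =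
      {ζ | ζ ∈ HD ∧ lvd ζ = t} ∪ (fun ζ => conj ζ) '' {ζ | ζ ∈ HD ∧ lvd ζ = t} := by
    ext ζ
    constructor
    · rintro ⟨g1, g2⟩
      rw [mem_closedBall_zero_iff] at g1
      rcases le_total 0 ζ.im with g3 | g3
      · exact Or.inl ⟨⟨g1, g3⟩, g2⟩
      · refine Or.inr ⟨conj ζ, ⟨⟨?_, ?_⟩, ?_⟩, Complex.conj_conj ζ⟩
        · rw [Complex.norm_conj]
          exact g1
        · rw [Complex.conj_im]
          linarith
        · rw [lvd_conj]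
          exact g2
    · rintro (⟨g1, g2⟩ | ⟨ξ, ⟨g1, g2⟩, rfl⟩)
      · exact ⟨mem_closedBall_zero_iff.2 g1.1, g2⟩
      · refine ⟨mem_closedBall_zero_iff.2 ?_, ?_⟩
        · rw [Complex.norm_conj]
          exact g1.1
        · rw [lvd_conj]
          exact g2
  rw [h3]
  have h4 : conj (ofPlane (t : ℂ)) = ofPlane (t : ℂ) := by
    have e1 : (1 : ℂ) + (‖(t : ℂ)‖ : ℂ) = ((1 + ‖(t : ℂ)‖ : ℝ) : ℂ) := by push_cast; rfl
    rw [ofPlane, e1, ← Complex.ofReal_div, Complex.conj_ofReal]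
  refine ⟨⟨ofPlane t, Or.inl h2⟩, ?_⟩
  refine IsPreconnected.union (ofPlane (t : ℂ)) h2 ⟨ofPlane t, h2, h4⟩ h1 ?_
  exact h1.image _ Complex.continuous_conj.continuousOn

/-- the fibres of `lvd` in the half disc are connected and contain a point of the circle and a
point of the real axis -/
theorem lvd_fiber_half {t : ℝ} (ht : t ∈ Icc (-2 : ℝ) 2) :
    IsPreconnected {ζ | ζ ∈ HD ∧ lvd ζ = t} ∧ (∃ ζ ∈ HD, ‖ζ‖ = 1 ∧ lvd ζ = t) ∧
      (ofPlane t ∈ HD ∧ lvd (ofPlane t) = t) := by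
  refine ⟨h3_half_conn ht, ?_, h3_ofPlane_real ht⟩
  obtain ⟨e, he, him, hre, -⟩ := h3_half ht
  refine ⟨e, ⟨he.le, him⟩, he, ?_⟩
  rw [lvd_circle he, hre]
  ring

/-- classes are mapped onto classes -/
theorem class_onto {ζ ξ : ℂ} (hζ : ζ ∈ closedBall (0 : ℂ) 1) (hξ : ξ ∈ closedBall (0 : ℂ) 1)
    (h : lvd ξ = lvd (diskMap (-2) ζ)) :
    ∃ ζ' ∈ closedBall (0 : ℂ) 1, lvd ζ' = lvd ζ ∧ diskMap (-2) ζ' = ξ := by
  obtain ⟨ζ₀, h1, h2⟩ : ∃ ζ₀ ∈ closedBall (0 : ℂ) 1, diskMap (-2) ζ₀ = ξ := by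
    rw [mem_closedBall_zero_iff] at hξ
    rcases lt_or_eq_of_le hξ with h4 | h4
    · obtain ⟨z, hz⟩ := IsAlgClosed.exists_pow_nat_eq (toPlane ξ + 2) (n := 2) (by norm_num)
      refine ⟨ofPlane z, mem_closedBall_zero_iff.2 (h3_ofPlane_lt z).le, ?_⟩
      rw [diskMap, if_pos (h3_ofPlane_lt z), h3_to_of, hz]
      have e1 : toPlane ξ + 2 + -2 = toPlane ξ := by ring
      rw [e1, h3_of_to h4]
    · obtain ⟨z, hz⟩ := IsAlgClosed.exists_pow_nat_eq ξ (n := 2) (by norm_num)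
      have hz1 : ‖z‖ = 1 := by
        have e1 : ‖z‖ ^ 2 = 1 := by rw [← norm_pow, hz, h4]
        nlinarith [norm_nonneg z]
      refine ⟨z, mem_closedBall_zero_iff.2 hz1.le, ?_⟩
      rw [diskMap, if_neg (by rw [hz1]; exact lt_irrefl _), hz]
  have h3 : lvd ζ₀ ^ 2 - 2 = lvd ζ ^ 2 - 2 := by
    rw [← lvd_diskMap h1, ← lvd_diskMap hζ, h2, h]
  rcases sq_eq_sq_iff_eq_or_eq_neg.1 (show lvd ζ₀ ^ 2 = lvd ζ ^ 2 by linarith) with h4 | h4
  · exact ⟨ζ₀, h1, h4, h2⟩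
  · refine ⟨-ζ₀, ?_, ?_, ?_⟩
    · rw [mem_closedBall_zero_iff, norm_neg]
      exact mem_closedBall_zero_iff.1 h1
    · rw [h3_lvd_neg, h4, neg_neg]
    · rw [h3_disk_neg, h2]

/-- two to one -/
theorem diskMap_eq {ζ ζ' : ℂ} (hζ : ζ ∈ closedBall (0 : ℂ) 1) (hζ' : ζ' ∈ closedBall (0 : ℂ) 1)
    (h : diskMap (-2) ζ = diskMap (-2) ζ') : ζ = ζ' ∨ ζ = -ζ' := by
  have key : ∀ x ∈ closedBall (0 : ℂ) 1, ‖x‖ < 1 ↔ ‖diskMap (-2) x‖ < 1 := by
    intro x hx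
    rw [mem_closedBall_zero_iff] at hx
    rw [diskMap]
    split_ifs with h1
    · exact ⟨fun _ => h3_ofPlane_lt _, fun _ => h1⟩
    · have h2 : ‖x‖ = 1 := le_antisymm hx (not_lt.1 h1)
      rw [norm_pow, h2]
      simp
  by_cases h1 : ‖ζ‖ < 1
  · have h2 : ‖ζ'‖ < 1 := by
      rw [key ζ' hζ', ← h, ← key ζ hζ]
      exact h1
    rw [diskMap, diskMap, if_pos h1, if_pos h2] at h
    have h3 := congrArg toPlane h
    rw [h3_to_of, h3_to_of] at h3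
    rcases sq_eq_sq_iff_eq_or_eq_neg.1 (show toPlane ζ ^ 2 = toPlane ζ' ^ 2 by
      linear_combination h3) with h4 | h4
    · left
      rw [← h3_of_to h1, h4, h3_of_to h2]
    · right
      rw [← h3_of_to h1, h4, h3_of_neg, h3_of_to h2]
  · have h2 : ¬ ‖ζ'‖ < 1 := by
      rw [key ζ' hζ', ← h, ← key ζ hζ]
      exact h1
    rw [diskMap, diskMap, if_neg h1, if_neg h2] at h
    exact sq_eq_sq_iff_eq_or_eq_neg.1 h

end

end Pool.TU
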