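import Pool.Agent.Helper71.TU.F6
import Pool.Agent.Helper71.TU.F8
import Pool.Agent.Helper71.TU.B8
import Pool.Agent.Helper71.TU.H3

/-! # TU F11: counting -/

open Complex Set Filter Topology Metric Polynomial ComplexConjugate Pool.Tuning

namespace Pool.TU

noncomputable section

variable {q q' : RQ}

namespace F11aux

open B8aux

theorem FS_card_le (q : RQ) (w : ℂ) : (FS q w).card ≤ 4 := by
  classical
  unfold FS
  exact (Multiset.toFinset_card_le _).trans (card4 q w).le

theorem FS_card_le_three (q : RQ) {c w : ℂ} (hc : q.h.eval c = w)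
    (hd : q.h.derivative.eval c = 0) : (FS q w).card ≤ 3 := by
  classical
  by_contra hcon
  have h4 : (q.h - C w).roots.toFinset.card = (q.h - C w).roots.card := by
    apply le_antisymm (Multiset.toFinset_card_le _)
    rw [card4]
    have h5 : FS q w = (q.h - C w).roots.toFinset := by
      ext y
      rw [mem_FS, Multiset.mem_toFinset, mem_iff]
    rw [← h5]
    omega
  rw [Multiset.toFinset_card_eq_card_iff_nodup, Multiset.nodup_iff_count_le_one] at h4
  have h6 := h4 c
  rw [count_roots] at h6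
  have h7 : 1 < (q.h - C w).rootMultiplicity c := by
    rw [one_lt_rootMultiplicity_iff_isRoot (ne0 q w)]
    constructor
    · rw [IsRoot.def, eval_sub, eval_C, sub_eq_zero]
      exact hc
    · rw [IsRoot.def, derivative_sub, derivative_C, sub_zero]
      exact hd
  omega

theorem der_eq (q : RQ) : q.h.derivative =
    C (4 * (q.p.leadingCoeff : ℂ)) * ((X - C (q.r : ℂ)) * ((X - C q.c) * (X - C (conj q.c)))) := by
  apply Polynomial.funext
  intro z
  have := q.der z
  unfold RQ.h
  rw [this]
  simp only [eval_mul, eval_C, eval_sub, eval_X]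
  ring

theorem der2_ne (q : RQ) {z : ℂ} (hz : q.h.derivative.eval z = 0) :
    q.h.derivative.derivative.eval z ≠ 0 := by
  have hc := q.hc
  have h4 : (4 * (q.p.leadingCoeff : ℂ)) ≠ 0 :=
    mul_ne_zero (by norm_num) (ofReal_ne_zero.2 q.lead.ne')
  have n1 : (q.r : ℂ) - q.c ≠ 0 := by
    intro h
    have := congrArg Complex.im h
    simp at this
    exact hc.ne' this
  have n2 : (q.r : ℂ) - conj q.c ≠ 0 := by
    intro h
    have := congrArg Complex.im h
    simp at this
    exact hc.ne' this
  have n3 : q.c - conj q.c ≠ 0 := by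
    intro h
    have := congrArg Complex.im h
    simp at this
    linarith
  have n1' : q.c - (q.r : ℂ) ≠ 0 := fun h => n1 (by linear_combination -h)
  have n2' : conj q.c - (q.r : ℂ) ≠ 0 := fun h => n2 (by linear_combination -h)
  have n3' : conj q.c - q.c ≠ 0 := fun h => n3 (by linear_combination -h)
  rw [der_eq]
  simp only [derivative_mul, derivative_C, derivative_sub, derivative_X, sub_zero, zero_mul,
    zero_add, one_mul, mul_one, eval_mul, eval_C, eval_add, eval_sub, eval_X]
  rw [q.crit_iff] at hz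
  rcases hz with h | h | h
  · rw [h, sub_self, zero_mul, add_zero]
    exact mul_ne_zero h4 (mul_ne_zero n1 n2)
  · rw [h, sub_self, zero_mul, zero_add, add_zero]
    exact mul_ne_zero h4 (mul_ne_zero n1' n3)
  · rw [h, sub_self, mul_zero, zero_add, zero_add]
    exact mul_ne_zero h4 (mul_ne_zero n2' n3')

theorem crit_unique (q : RQ) {z z' : ℂ} (hz : q.h.derivative.eval z = 0)
    (hz' : q.h.derivative.eval z' = 0) (h : q.h.eval z = q.h.eval z') : z = z' := by
  have hv := q.vpos
  have e1 : (q.h.eval (q.r : ℂ)).im = 0 := by rw [q.h_real, ofReal_im]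
  have e2 : 0 < (q.h.eval q.c).im := hv
  have e3 : (q.h.eval (conj q.c)).im < 0 := by
    rw [q.h_conj, conj_im]
    linarith
  rw [q.crit_iff] at hz hz'
  rcases hz with a | a | a <;> rcases hz' with b | b | b <;> rw [a, b] at h ⊢
  · rw [h] at e1; linarith
  · rw [h] at e1; linarith
  · rw [← h] at e1; linarith
  · rw [h] at e2; linarith
  · rw [← h] at e1; linarith
  · rw [h] at e3; linarith

theorem count_le (q : RQ) (w z : ℂ) [Decidable (q.h.derivative.eval z = 0)] :
    (q.h - C w).rootMultiplicity z ≤ 1 + if q.h.derivative.eval z = 0 then 1 else 0 := by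
  split_ifs with h
  · by_contra hcon
    have h1 : 2 < (q.h - C w).rootMultiplicity z := by omega
    have h2 := isRoot_iterate_derivative_of_lt_rootMultiplicity h1
    rw [Function.iterate_succ, Function.iterate_one, Function.comp_apply, derivative_sub,
      derivative_C, sub_zero] at h2
    exact der2_ne q h h2
  · by_contra hcon
    have h1 : 1 < (q.h - C w).rootMultiplicity z := by omega
    rw [one_lt_rootMultiplicity_iff_isRoot (ne0 q w)] at h1
    have h2 := h1.2
    rw [IsRoot.def, derivative_sub, derivative_C, sub_zero] at h2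
    exact h h2

theorem three_le_FS (q : RQ) (w : ℂ) : 3 ≤ (FS q w).card := by
  classical
  have h1 := Multiset.toFinset_sum_count_eq (q.h - C w).roots
  rw [card4] at h1
  have h5 : (q.h - C w).roots.toFinset = FS q w := by
    ext y
    rw [mem_FS, Multiset.mem_toFinset, mem_iff]
  rw [h5] at h1
  have h2 : ∑ z ∈ FS q w, (q.h - C w).roots.count z ≤
      ∑ z ∈ FS q w, (1 + if q.h.derivative.eval z = 0 then 1 else 0) := by
    apply Finset.sum_le_sum
    intro z _
    rw [count_roots]
    exact count_le q w z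
  rw [h1, Finset.sum_add_distrib, ← Finset.card_eq_sum_ones, ← Finset.card_filter] at h2
  have h3 : ((FS q w).filter (fun z => q.h.derivative.eval z = 0)).card ≤ 1 := by
    rw [Finset.card_le_one]
    intro a ha b hb
    rw [Finset.mem_filter, mem_FS] at ha hb
    exact crit_unique q ha.2 hb.2 (ha.1.trans hb.1.symm)
  omega

theorem ofPlane_inj {w w' : ℂ} (h : ofPlane w = ofPlane w') : w = w' := by
  unfold ofPlane at h
  have hw : (0 : ℝ) < 1 + ‖w‖ := by positivity
  have hw' : (0 : ℝ) < 1 + ‖w'‖ := by positivity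
  have c1 : (1 : ℂ) + ((‖w‖ : ℝ) : ℂ) ≠ 0 := by
    rw [← ofReal_one, ← ofReal_add]
    exact ofReal_ne_zero.2 hw.ne'
  have c2 : (1 : ℂ) + ((‖w'‖ : ℝ) : ℂ) ≠ 0 := by
    rw [← ofReal_one, ← ofReal_add]
    exact ofReal_ne_zero.2 hw'.ne'
  rw [div_eq_div_iff c1 c2] at h
  have h1 := congrArg norm h
  rw [norm_mul, norm_mul, ← ofReal_one, ← ofReal_add, ← ofReal_add, Complex.norm_real,
    Complex.norm_real, Real.norm_of_nonneg hw.le, Real.norm_of_nonneg hw'.le] at h1
  have h2 : ‖w‖ = ‖w'‖ := by linarith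
  rw [h2] at h
  exact mul_right_cancel₀ c2 h

theorem diskMap_mem {η : ℂ} (h : η ∈ closedBall (0 : ℂ) 1) :
    diskMap (-2) η ∈ closedBall (0 : ℂ) 1 := by
  rw [mem_closedBall, dist_zero_right] at h ⊢
  unfold diskMap
  split_ifs with h1
  · unfold ofPlane
    set z := toPlane η ^ 2 + -2 with hz
    have hw : (0 : ℝ) < 1 + ‖z‖ := by positivity
    rw [norm_div, ← ofReal_one, ← ofReal_add, Complex.norm_real, Real.norm_of_nonneg hw.le,
      div_le_one hw]
    linarith
  · rw [norm_pow]
    exact pow_le_one₀ (norm_nonneg _) h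

theorem diskMap_crit {η : ℂ} (h : η ∈ closedBall (0 : ℂ) 1)
    (he : diskMap (-2) η = ofPlane (-2)) : η = 0 := by
  rw [mem_closedBall, dist_zero_right] at h
  unfold diskMap at he
  split_ifs at he with h1
  · have h2 := ofPlane_inj he
    have h3 : toPlane η ^ 2 = 0 := by linear_combination h2
    have h4 : toPlane η = 0 := by simpa using h3
    unfold toPlane at h4
    rcases div_eq_zero_iff.1 h4 with h5 | h5
    · exact h5
    · exfalso
      have h6 : (1 : ℂ) = ((‖η‖ : ℝ) : ℂ) := by linear_combination h5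
      rw [← ofReal_one] at h6
      have h7 := ofReal_injective h6
      linarith
  · exfalso
    have h2 : ‖η‖ = 1 := le_antisymm h (not_lt.1 h1)
    have h3 := congrArg norm he
    rw [norm_pow, h2, one_pow] at h3
    unfold ofPlane at h3
    norm_num at h3

variable (d : FD q q')

theorem Tp_out {y : ℂ} (h : y ∉ d.χ '' closedBall 0 1) : d.Tp y = q.h.eval y := by
  unfold FD.Tp
  rw [if_neg h]

/-- preimages outside the closed basin -/
theorem out_card (z : ℂ) (hz : z ∈ d.χ '' closedBall 0 1) : ∃ t : Finset ℂ, t.card ≤ 2 ∧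
    ∀ y, y ∉ d.χ '' closedBall 0 1 → d.Tp y = z → y ∈ t := by
  classical
  obtain ⟨s1, hs1, -, hs3⟩ := d.exists_s1
  obtain ⟨ξ, hξ, rfl⟩ := hz
  refine ⟨{s1 ξ, conj (s1 (conj ξ))}, Finset.card_le_two, ?_⟩
  intro y hy hT
  rw [Tp_out d hy] at hT
  have hcξ : conj ξ ∈ closedBall (0 : ℂ) 1 := by
    rw [mem_closedBall, dist_zero_right] at hξ ⊢
    rwa [RCLike.norm_conj]
  rw [Finset.mem_insert, Finset.mem_singleton]
  rcases hs3 y hy (by rw [hT]; exact mem_image_of_mem _ hξ) with h | h
  · left
    obtain ⟨ζ, hζ, h1⟩ := h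
    have h2 := hs1.eq ζ hζ
    rw [Function.iterate_one, h1, hT] at h2
    have h3 := d.mb.inj hξ hζ h2
    rw [← h1, h3]
  · right
    obtain ⟨ζ, hζ, h1⟩ := h
    have h2 := hs1.eq ζ hζ
    rw [Function.iterate_one, h1, q.h_conj, hT, ← d.mb.sym ξ hξ] at h2
    have h3 := d.mb.inj hcξ hζ h2
    rw [h3, h1, Complex.conj_conj]

theorem card_gen (z : ℂ) {s : Finset ℂ} (hs : ∀ y ∈ s, d.Tp y = z) : s.card ≤ 4 := by
  classical
  by_cases hz : z ∈ d.χ '' closedBall 0 1
  · obtain ⟨t, ht, htm⟩ := out_card d z hz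
    have h1 : (s.filter (fun y => y ∉ d.χ '' closedBall 0 1)).card ≤ 2 := by
      refine (Finset.card_le_card ?_).trans ht
      intro y hy
      rw [Finset.mem_filter] at hy
      exact htm y hy.2 (hs y hy.1)
    have h2 : (s.filter (fun y => y ∈ d.χ '' closedBall 0 1)).card ≤ 2 := by
      by_cases hne : (s.filter (fun y => y ∈ d.χ '' closedBall 0 1)).Nonempty
      · obtain ⟨y0, hy0⟩ := hne
        rw [Finset.mem_filter] at hy0
        obtain ⟨hy0s, η0, hη0, hy0e⟩ := hy0
        have h3 : s.filter (fun y => y ∈ d.χ '' closedBall 0 1) ⊆ {d.χ η0, d.χ (-η0)} := by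
          intro y hy
          rw [Finset.mem_filter] at hy
          obtain ⟨hys, η, hη, hye⟩ := hy
          have h4 := hs y hys
          have h5 := hs y0 hy0s
          rw [← hye, d.Tp_in hη] at h4
          rw [← hy0e, d.Tp_in hη0] at h5
          have h6 := d.mb.inj (diskMap_mem hη) (diskMap_mem hη0) (h4.trans h5.symm)
          rw [Finset.mem_insert, Finset.mem_singleton]
          rcases diskMap_eq hη hη0 h6 with h7 | h7
          · left; rw [← hye, h7]
          · right; rw [← hye, h7]
        exact (Finset.card_le_card h3).trans Finset.card_le_two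
      · rw [Finset.not_nonempty_iff_eq_empty.1 hne]
        simp
    have h3 := Finset.card_filter_add_card_filter_not (s := s)
      (fun y => y ∈ d.χ '' closedBall 0 1)
    omega
  · refine (Finset.card_le_card ?_).trans (FS_card_le q z)
    intro y hy
    rw [mem_FS]
    have h1 := hs y hy
    by_cases h2 : y ∈ d.χ '' closedBall 0 1
    · obtain ⟨η, hη, rfl⟩ := h2
      rw [d.Tp_in hη] at h1
      exact absurd ⟨_, diskMap_mem hη, h1⟩ hz
    · rwa [Tp_out d h2] at h1

theorem card_crit {z c : ℂ} (hz : z ∉ d.χ '' closedBall 0 1) (hc : q.h.eval c = z)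
    (hd : q.h.derivative.eval c = 0) {s : Finset ℂ} (hs : ∀ y ∈ s, d.Tp y = z) :
    s.card ≤ 3 := by
  classical
  refine (Finset.card_le_card ?_).trans (FS_card_le_three q hc hd)
  intro y hy
  rw [mem_FS]
  have h1 := hs y hy
  by_cases h2 : y ∈ d.χ '' closedBall 0 1
  · obtain ⟨η, hη, rfl⟩ := h2
    rw [d.Tp_in hη] at h1
    exact absurd ⟨_, diskMap_mem hη, h1⟩ hz
  · rwa [Tp_out d h2] at h1

theorem ofPlane2_mem : ofPlane (-2) ∈ closedBall (0 : ℂ) 1 := by
  rw [mem_closedBall, dist_zero_right]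
  unfold ofPlane
  norm_num

theorem card_vr {s : Finset ℂ} (hs : ∀ y ∈ s, d.Tp y = d.χ (ofPlane (-2))) :
    s.card ≤ 3 := by
  classical
  obtain ⟨t, ht, htm⟩ := out_card d _ (mem_image_of_mem d.χ ofPlane2_mem)
  have h1 : (s.filter (fun y => y ∉ d.χ '' closedBall 0 1)).card ≤ 2 := by
    refine (Finset.card_le_card ?_).trans ht
    intro y hy
    rw [Finset.mem_filter] at hy
    exact htm y hy.2 (hs y hy.1)
  have h2 : (s.filter (fun y => y ∈ d.χ '' closedBall 0 1)).card ≤ 1 := by
    have h3 : s.filter (fun y => y ∈ d.χ '' closedBall 0 1) ⊆ {d.χ 0} := by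
      intro y hy
      rw [Finset.mem_filter] at hy
      obtain ⟨hys, η, hη, hye⟩ := hy
      have h4 := hs y hys
      rw [← hye, d.Tp_in hη] at h4
      have h6 := d.mb.inj (diskMap_mem hη) ofPlane2_mem h4
      rw [Finset.mem_singleton, ← hye, diskMap_crit hη h6]
    exact (Finset.card_le_card h3).trans (by rw [Finset.card_singleton])
  have h3 := Finset.card_filter_add_card_filter_not (s := s)
    (fun y => y ∈ d.χ '' closedBall 0 1)
  omega

theorem Pi_v : d.Pi q.v = q'.v := by
  have hv := q.vpos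
  unfold FD.Pi
  rw [if_pos hv.le, mm_self hv]
  have h0 : d.R 0 = 0 := by
    rw [d.hE.rm.zero 0]
    unfold DD
    simp
  rw [h0]
  unfold mi
  simp

end F11aux

open F11aux B8aux

/-- Counting: over every value there is a point of the fibre with few preimages. -/
theorem FD.count (d : FD q q') (p : ℂ) : ∃ z, d.Pi z = p ∧
    ∀ s : Finset ℂ, (∀ y ∈ s, d.Tp y = z) → ∃ t : Finset ℂ, (∀ y ∈ t, q'.h.eval y = p) ∧
      s.card ≤ t.card := by
  by_cases hgen : ∀ y, q'.h.eval y = p → q'.h.derivative.eval y ≠ 0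
  · obtain ⟨z, hz⟩ := d.Pi_surj p
    refine ⟨z, hz, fun s hs => ⟨FS q' p, fun y hy => (mem_FS q').1 hy, ?_⟩⟩
    rw [card_FS q' hgen]
    exact card_gen d z hs
  · push Not at hgen
    obtain ⟨y0, hy0, hd0⟩ := hgen
    have h3 := three_le_FS q' p
    have key : ∃ z, d.Pi z = p ∧ ∀ s : Finset ℂ, (∀ y ∈ s, d.Tp y = z) → s.card ≤ 3 := by
      rw [q'.crit_iff] at hd0
      rcases hd0 with h | h | h
      · refine ⟨d.χ (ofPlane (-2)), ?_, fun s hs => card_vr d hs⟩
        obtain ⟨e, -, -, he, -, hP⟩ := d.Pi_basin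
        have h1 : lvd (ofPlane (-2)) = -2 := by
          have := lvd_ofPlane (t := -2) ⟨le_rfl, by norm_num⟩
          push_cast at this
          exact this
        rw [hP _ ofPlane2_mem, h1, he, ← hy0, h, q'.h_real]
        rfl
      · refine ⟨q.v, ?_, fun s hs => card_crit d (c := q.c) ?_ rfl ?_ hs⟩
        · rw [Pi_v, ← hy0, h]
          rfl
        · exact (d.post 0).1
        · rw [q.crit_iff]
          exact Or.inr (Or.inl rfl)
      · refine ⟨conj q.v, ?_, fun s hs => card_crit d (c := conj q.c) ?_ (q.h_conj q.c) ?_ hs⟩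
        · rw [d.Pi_conj, Pi_v, ← hy0, h, q'.h_conj]
          rfl
        · exact (d.post 0).2
        · rw [q.crit_iff]
          exact Or.inr (Or.inr rfl)
    obtain ⟨z, hz, hcard⟩ := key
    exact ⟨z, hz, fun s hs => ⟨FS q' p, fun y hy => (mem_FS q').1 hy, (hcard s hs).trans h3⟩⟩

end

end Pool.TU
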