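import Pool.Agent.Helper71.TU.B1

/-! # TU H4: the glued model map -/

open Complex Set Filter Topology Metric Polynomial ComplexConjugate Pool.Tuning

namespace Pool.TU

noncomputable section

theorem h4_den {c ζ : ℂ} (h : ‖ζ‖ ≤ 1) :
    0 < (1 - ‖ζ‖) ^ 2 + ‖ζ ^ 2 + c * (((1 - ‖ζ‖) ^ 2 : ℝ) : ℂ)‖ := by
  rcases lt_or_eq_of_le h with h1 | h1
  · have h2 : 0 < (1 - ‖ζ‖) ^ 2 := by
      apply pow_pos
      linarith
    have h3 := norm_nonneg (ζ ^ 2 + c * (((1 - ‖ζ‖) ^ 2 : ℝ) : ℂ))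
    linarith
  · rw [h1]
    simp [h1]

/-- the uniform formula for `diskMap` -/
theorem h4_eq {c ζ : ℂ} (h : ‖ζ‖ ≤ 1) : diskMap c ζ =
    (ζ ^ 2 + c * (((1 - ‖ζ‖) ^ 2 : ℝ) : ℂ)) /
      (((1 - ‖ζ‖) ^ 2 + ‖ζ ^ 2 + c * (((1 - ‖ζ‖) ^ 2 : ℝ) : ℂ)‖ : ℝ) : ℂ) := by
  have hden := h4_den (c := c) h
  rcases lt_or_eq_of_le h with h1 | h1
  · have hs : 0 < 1 - ‖ζ‖ := by linarith
    have hs2 : 0 < (1 - ‖ζ‖) ^ 2 := pow_pos hs 2
    set t : ℝ := (1 - ‖ζ‖) ^ 2 with ht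
    have htc : (t : ℂ) ≠ 0 := by exact_mod_cast hs2.ne'
    have hsc : (1 - (‖ζ‖ : ℂ)) ≠ 0 := by
      have : ((1 - ‖ζ‖ : ℝ) : ℂ) ≠ 0 := by exact_mod_cast hs.ne'
      push_cast at this
      exact this
    have h2 : toPlane ζ ^ 2 + c = (ζ ^ 2 + c * (t : ℂ)) / (t : ℂ) := by
      unfold toPlane
      rw [ht]
      push_cast
      field_simp
    unfold diskMap
    rw [if_pos h1, h2]
    unfold ofPlane
    rw [norm_div, Complex.norm_real, Real.norm_of_nonneg hs2.le]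
    set N : ℂ := ζ ^ 2 + c * (t : ℂ) with hN
    have h3 : (t : ℂ) + (‖N‖ : ℂ) ≠ 0 := by
      have : ((t + ‖N‖ : ℝ) : ℂ) ≠ 0 := by exact_mod_cast hden.ne'
      push_cast at this
      exact this
    push_cast
    field_simp
  · unfold diskMap
    rw [if_neg (by linarith), h1]
    simp [h1]

theorem diskMap_cont (c : ℂ) : ContinuousOn (diskMap c) (closedBall 0 1) := by
  have h : ContinuousOn (fun ζ : ℂ => (ζ ^ 2 + c * (((1 - ‖ζ‖) ^ 2 : ℝ) : ℂ)) /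
      (((1 - ‖ζ‖) ^ 2 + ‖ζ ^ 2 + c * (((1 - ‖ζ‖) ^ 2 : ℝ) : ℂ)‖ : ℝ) : ℂ)) (closedBall 0 1) := by
    apply ContinuousOn.div
    · fun_prop
    · fun_prop
    · intro ζ hζ
      have h1 : ‖ζ‖ ≤ 1 := by simpa using hζ
      exact_mod_cast (h4_den (c := c) h1).ne'
  refine h.congr ?_
  intro ζ hζ
  have h1 : ‖ζ‖ ≤ 1 := by simpa using hζ
  exact h4_eq h1

theorem diskMap_maps (c : ℂ) : MapsTo (diskMap c) (closedBall 0 1) (closedBall 0 1) := by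
  intro ζ hζ
  have h1 : ‖ζ‖ ≤ 1 := by simpa using hζ
  rw [mem_closedBall_zero_iff, h4_eq h1, norm_div, Complex.norm_real,
    Real.norm_of_nonneg (h4_den h1).le, div_le_one (h4_den h1)]
  have := sq_nonneg (1 - ‖ζ‖)
  linarith

theorem diskMap_norm_lt {c ζ : ℂ} (h : ‖ζ‖ < 1) : ‖diskMap c ζ‖ < 1 := by
  rw [h4_eq h.le, norm_div, Complex.norm_real,
    Real.norm_of_nonneg (h4_den h.le).le, div_lt_one (h4_den h.le)]
  have : 0 < (1 - ‖ζ‖) ^ 2 := by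
    apply pow_pos
    linarith
  linarith

theorem diskMap_conj (ζ : ℂ) : diskMap (-2) (conj ζ) = conj (diskMap (-2) ζ) := by
  unfold diskMap
  rw [Complex.norm_conj]
  split_ifs with h
  · unfold ofPlane toPlane
    rw [Complex.norm_conj]
    have h1 : (conj ζ / (1 - (‖ζ‖ : ℂ))) ^ 2 + -2 = conj ((ζ / (1 - (‖ζ‖ : ℂ))) ^ 2 + -2) := by
      have h0 : conj (2 : ℂ) = 2 := Complex.conj_ofNat 2
      simp [h0]
    rw [h1, Complex.norm_conj]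
    simp
  · simp

end

end Pool.TU
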