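import Pool.Agent.Helper71.TU.T1

/-! # TU T2: sheets -/

open Complex Set Filter Topology Metric Polynomial ComplexConjugate Pool.Tuning

namespace Pool.TU

noncomputable section

variable {S : TS} {A : XS S} {B : Br S A} (D : BD B)

theorem BD.inv_mem {z : ℂ} (hz : z ∈ D.Bc) : D.inv z ∈ HD ∧ exp (D.c (D.inv z)) = z := by
  have h : ∃ a ∈ HD, (fun ζ => exp (D.c ζ)) a = z := hz
  exact ⟨Function.invFunOn_mem h, Function.invFunOn_eq h⟩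

theorem BD.inv_exp {ζ : ℂ} (h : ζ ∈ HD) : D.inv (exp (D.c ζ)) = ζ :=
  D.inj.leftInvOn_invFunOn h

theorem BD.inv_cont : ContinuousOn D.inv D.Bc := by
  rw [continuousOn_iff_isClosed]
  intro t ht
  refine ⟨(fun ζ => exp (D.c ζ)) '' (HD ∩ t), ?_, ?_⟩
  · apply IsCompact.isClosed
    apply (BD.t1_HD_compact.inter_right ht).image_of_continuousOn
    exact (D.cont.cexp).mono inter_subset_left
  · ext z
    constructor
    · rintro ⟨h1, h2⟩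
      exact ⟨⟨D.inv z, ⟨(D.inv_mem h2).1, h1⟩, (D.inv_mem h2).2⟩, h2⟩
    · rintro ⟨⟨ζ, ⟨h1, h2⟩, rfl⟩, h3⟩
      refine ⟨?_, h3⟩
      show D.inv (exp (D.c ζ)) ∈ t
      rw [D.inv_exp h1]; exact h2

theorem BD.t2_Pp_compact : IsCompact D.Pp := by
  apply BD.t1_HD_compact.image_of_continuousOn
  exact (D.cont.div_const 2).cexp

theorem BD.Pp_closed : IsClosed D.Pp := D.t2_Pp_compact.isClosed

theorem BD.sheet {s : ℂ} (h : s ^ 2 ∈ D.Bc) : s ∈ D.Pp ∨ -s ∈ D.Pp := by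
  obtain ⟨ξ, hξ, h1⟩ := h
  have h2 : s ^ 2 = exp (D.c ξ / 2) ^ 2 := by rw [t1_exp_half_sq]; exact h1.symm
  rcases sq_eq_sq_iff_eq_or_eq_neg.mp h2 with h3 | h3
  · exact Or.inl ⟨ξ, hξ, h3.symm⟩
  · right
    refine ⟨ξ, hξ, ?_⟩
    show exp (D.c ξ / 2) = -s
    rw [h3, neg_neg]

theorem BD.sheet_disj {s : ℂ} (h : s ∈ D.Pp) : -s ∉ D.Pp := by
  rintro ⟨ξ', hξ', h2⟩
  obtain ⟨ξ, hξ, h1⟩ := h
  have h1' : exp (D.c ξ / 2) = s := h1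
  have h2' : exp (D.c ξ' / 2) = -s := h2
  have e1 : exp (D.c ξ) = exp (D.c ξ') := by
    rw [← t1_exp_half_sq (D.c ξ), ← t1_exp_half_sq (D.c ξ'), h1', h2', neg_sq]
  have e2 : ξ = ξ' := D.inj hξ hξ' e1
  rw [← e2, h1'] at h2'
  have e3 : s = 0 := by
    have : s + s = 0 := by
      nth_rewrite 1 [h2']
      ring
    have h4 : (2 : ℂ) * s = 0 := by rw [two_mul]; exact this
    rcases mul_eq_zero.mp h4 with h5 | h5
    · norm_num at h5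
    · exact h5
  rw [e3] at h1'
  exact Complex.exp_ne_zero _ h1'

theorem BD.t2_real {ξ : ℂ} (hξ : ξ ∈ HD) (h : ξ.im = 0) :
    D.c ξ = D.a ξ.re * I ∧ D.a ξ.re ∈ Ioo 0 (2 * Real.pi) := by
  have hζr : ((ξ.re : ℝ) : ℂ) = ξ := by
    apply Complex.ext
    · simp
    · simp [h]
  have := D.real ξ.re (t1_HD_re_mem hξ)
  rw [hζr] at this
  exact this

/-- points of the principal sheet with square on the circle -/
theorem BD.Pp_circle {s : ℂ} (h : s ∈ D.Pp) (h1 : ‖s‖ = 1) :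
    ∃ t ∈ Icc (-1 : ℝ) 1, s = ec (D.a t / 2) := by
  obtain ⟨ξ, hξ, rfl⟩ := h
  have h2 : ‖exp (D.c ξ)‖ = 1 := by
    rw [← t1_exp_half_sq, norm_pow]
    have h3 : ‖exp (D.c ξ / 2)‖ = 1 := h1
    rw [h3]; norm_num
  have h3 := (D.circle hξ h2).1
  refine ⟨ξ.re, t1_HD_re_mem hξ, ?_⟩
  show exp (D.c ξ / 2) = ec (D.a ξ.re / 2)
  rw [(D.t2_real hξ h3).1, ec]
  congr 1
  push_cast
  ring

theorem BD.Pp_ne {s : ℂ} (h : s ∈ D.Pp) : ∀ θ ∈ Icc 0 (2 * Real.pi), s ≠ -ec (θ / 2) := by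
  intro θ hθ hs
  have h1 : ‖s‖ = 1 := by rw [hs, norm_neg, norm_ec]
  obtain ⟨t, ht, h2⟩ := D.Pp_circle h h1
  have h3 := (D.real t ht).2
  have h4 : -ec (θ / 2) = ec (θ / 2 + Real.pi) := by
    rw [ec_add]
    have : ec Real.pi = -1 := by rw [ec]; exact Complex.exp_pi_mul_I
    rw [this]; ring
  rw [h4, h2] at hs
  have hpi := Real.pi_pos
  have h5 := ec_inj (a := D.a t / 2) (b := θ / 2 + Real.pi)
    ⟨by linarith [h3.1], by linarith [h3.2]⟩ ⟨by linarith [hθ.1], by linarith [hθ.2]⟩ hs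
  linarith [h3.2, hθ.1]

theorem BD.t2_ec_DD (θ : ℝ) : ec θ ∈ DD := by
  rw [DD, mem_closedBall_zero_iff, norm_ec]

theorem BD.of_Θ {s : ℂ} (hs : s ∈ DD) (h : S.Θ s ∈ D.Bc) : s ∈ D.Pp := by
  obtain ⟨ζ, hζ, h1⟩ := h
  have h1' : exp (D.c ζ) = S.Θ s := h1
  have hξ := t1_sqf_HD hζ
  have hn1 : s ≠ 1 := by
    rintro rfl
    rw [S.Θone] at h1'
    exact D.ne_one hζ h1'
  have hn2 : s ≠ -1 := by
    rintro rfl
    rw [S.Θneg] at h1'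
    exact D.ne_one hζ h1'
  rcases le_total 0 ζ.re with hre | hre
  · rw [D.Θ_eq hζ hre] at h1'
    rcases S.injΘ _ (D.t1_half_mem_DD hξ) _ hs h1' with h2 | h2 | h2
    · exact ⟨sqf ζ, hξ, h2⟩
    · exact absurd h2.2 hn2
    · exact absurd h2.2 hn1
  · rw [D.G4_eq hζ hre] at h1'
    rcases S.sep4 s hs _ (D.mem_DD hξ) h1'.symm with h2 | ⟨θ, hθ, h2⟩
    · exact absurd h2 hn2
    · have h3 : S.G4 (ec θ) = S.G4 (exp (D.c (sqf ζ))) := by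
        rw [S.bd4 θ hθ, ← h2, h1']
      have h4 : ec θ = exp (D.c (sqf ζ)) := by
        rw [← S.F4 _ (BD.t2_ec_DD θ), h3, S.F4 _ (D.mem_DD hξ)]
      have h5 : ‖exp (D.c (sqf ζ))‖ = 1 := by rw [← h4, norm_ec]
      obtain ⟨h6, h7⟩ := D.circle hξ h5
      have h8 := D.t2_real hξ h6
      rw [h7] at h4
      have h9 := ec_inj' (a := θ) (b := D.a (sqf ζ).re)
        ⟨hθ.1, lt_of_le_of_lt hθ.2 S.κ_mem.2⟩ ⟨h8.2.1.le, h8.2.2⟩ h4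
      refine ⟨sqf ζ, hξ, ?_⟩
      show exp (D.c (sqf ζ) / 2) = s
      rw [h8.1, h2, h9, ec]
      congr 1
      push_cast
      ring

theorem BD.of_G2 {w : ℂ} (hw : w ∈ DD) : S.G2 w ∉ D.Bc := by
  rintro ⟨ζ, hζ, h1⟩
  have h1' : exp (D.c ζ) = S.G2 w := h1
  have hξ := t1_sqf_HD hζ
  rcases le_total 0 ζ.re with hre | hre
  · rw [D.Θ_eq hζ hre] at h1'
    obtain ⟨θ, hθ, h2⟩ := S.sep2 _ (D.t1_half_mem_DD hξ) w hw h1'
    exact D.Pp_ne ⟨sqf ζ, hξ, rfl⟩ θ hθ h2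
  · rw [D.G4_eq hζ hre] at h1'
    exact D.ne_one hξ (S.sep24 w hw _ (D.mem_DD hξ) h1'.symm).2

theorem BD.of_G4 {w : ℂ} (hw : w ∈ DD) (h : S.G4 w ∈ D.Bc) : w ∈ D.Bc := by
  obtain ⟨ζ, hζ, h1⟩ := h
  have h1' : exp (D.c ζ) = S.G4 w := h1
  refine ⟨sqf ζ, t1_sqf_HD hζ, ?_⟩
  show exp (D.c (sqf ζ)) = w
  rw [← D.F_eq hζ, h1', S.F4 w hw]

end

end Pool.TU
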