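import Pool.Agent.Helper71.TU.F5
import Pool.Agent.Helper71.TU.T2
import Pool.Agent.Helper71.TU.H4
import Pool.Agent.Helper71.TU.B5

/-! # TU F6: semiconjugacy with the glued map -/

open Complex Set Filter Topology Metric Polynomial ComplexConjugate Pool.Tuning

namespace Pool.TU

noncomputable section

variable {q q' : RQ}

private theorem f6_HD {ζ : ℂ} (h : ζ ∈ HD) : ζ ∈ closedBall (0 : ℂ) 1 :=
  mem_closedBall_zero_iff.2 h.1

private theorem f6_conj {ζ : ℂ} (h : ζ ∈ closedBall (0 : ℂ) 1) :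
    conj ζ ∈ closedBall (0 : ℂ) 1 := by
  rw [mem_closedBall_zero_iff, norm_conj]
  exact mem_closedBall_zero_iff.1 h

private theorem f6_fold_pos {w : ℂ} (h : 0 ≤ w.im) : fold w = w := if_pos h

private theorem f6_fold_neg {w : ℂ} (h : w.im ≤ 0) : fold w = conj w := by
  unfold fold
  split_ifs with h1
  · have h2 : w.im = 0 := le_antisymm h h1
    exact (conj_eq_iff_im.2 h2).symm
  · rfl

theorem FD.Tp_in (d : FD q q') {ζ : ℂ} (h : ζ ∈ closedBall (0 : ℂ) 1) :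
    d.Tp (d.χ ζ) = d.χ (diskMap (-2) ζ) := by
  have h1 : d.χ ζ ∈ d.χ '' closedBall 0 1 := mem_image_of_mem _ h
  rw [FD.Tp, if_pos h1, d.mb.inj.leftInvOn_invFunOn h]

private theorem FD.Tp_out (d : FD q q') {z : ℂ} (h : z ∉ d.χ '' closedBall 0 1) :
    d.Tp z = q.h.eval z := if_neg h

theorem FD.Tp_glued (d : FD q q') (hm : IsMarking q.h q.r d.χ) :
    IsGlued q.h q.r (-2) d.χ d.Tp := by
  refine ⟨fun ζ h => d.Tp_in h, fun z hz => d.Tp_out fun h => hz ?_⟩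
  rw [← hm.img]
  have hcl : closure (ball (0 : ℂ) 1) = closedBall 0 1 := closure_ball 0 one_ne_zero
  have h1 : d.χ '' closure (ball 0 1) ⊆ closure (d.χ '' ball 0 1) :=
    ContinuousOn.image_closure (by rw [hcl]; exact d.mb.cont)
  rw [hcl] at h1
  exact h1 h

/-- values on the closed basin, with the disc version -/
private theorem FD.Pi_basin' (d : FD q q') : ∃ e : ℝ → ℝ, StrictMonoOn e (Icc (-2) 2) ∧
    ContinuousOn e (Icc (-2) 2) ∧ e (-2) = q'.vr ∧ e 0 = q'.r ∧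
    (∀ ζ ∈ closedBall (0 : ℂ) 1, d.Pi (d.χ ζ) = e (lvd ζ)) ∧
    (∀ ζ ∈ HD, d.R (exp (d.D.c ζ)) = mm q'.v (e (lvd ζ))) := by
  obtain ⟨e0, hmono, hcont, hm2, h2, h0, hR, -⟩ := d.bx
  have hv : 0 < q'.v.im := q'.vpos
  have hm22 : (-2 : ℝ) ∈ Icc (-2 : ℝ) 2 := ⟨le_rfl, by norm_num⟩
  have h22 : (2 : ℝ) ∈ Icc (-2 : ℝ) 2 := ⟨by norm_num, le_rfl⟩
  have h02 : (0 : ℝ) ∈ Icc (-2 : ℝ) 2 := ⟨by norm_num, by norm_num⟩
  have hmem : ∀ t ∈ Icc (-2 : ℝ) 2, e0 t ∈ Ioo 0 (2 * Real.pi) := fun t ht => by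
    have i1 := hmono.monotoneOn hm22 ht ht.1
    have i2 := hmono.monotoneOn ht h22 ht.2
    rw [hm2] at i1
    rw [h2] at i2
    exact ⟨d.g.κ_mem.1.trans_le i1, i2.trans_lt d.hβ.mem.2⟩
  let e : ℝ → ℝ := fun t => (mi q'.v (ec (e0 t))).re
  have he : ∀ t ∈ Icc (-2 : ℝ) 2, ang q'.v (e t) = e0 t ∧ mi q'.v (ec (e0 t)) = (e t : ℂ) ∧
      ec (e0 t) = mm q'.v (e t) := by
    intro t ht
    obtain ⟨x, hx⟩ := ang_surj hv (hmem t ht)
    have h1 : ec (e0 t) = mm q'.v x := by rw [mm_real hv, hx]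
    have hxH : (x : ℂ) ∈ HH := by simp [HH]
    have h3 : mi q'.v (ec (e0 t)) = x := by rw [h1, mi_mm hv hxH]
    have h4 : e t = x := by
      show (mi q'.v (ec (e0 t))).re = x
      rw [h3, ofReal_re]
    rw [h4]
    exact ⟨hx, h3, h1⟩
  have hne1 : ∀ t ∈ Icc (-2 : ℝ) 2, ec (e0 t) ≠ 1 := fun t ht h => by
    rw [(he t ht).2.2] at h
    exact mm_ne_one hv (by simp [HH]) h
  have hHDv : ∀ ζ ∈ HD, d.R (exp (d.D.c ζ)) = mm q'.v (e (lvd ζ)) := fun ζ hζ => by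
    rw [hR ζ hζ]
    exact (he _ (lvd_mem (f6_HD hζ))).2.2
  have hHD : ∀ ζ ∈ HD, d.Pi (d.χ ζ) = e (lvd ζ) := fun ζ hζ => by
    have h1 : 0 ≤ (d.χ ζ).im := d.mb.mem ζ hζ
    rw [FD.Pi, if_pos h1, d.mb.disc ζ hζ, hHDv ζ hζ, mi_mm hv (by simp [HH])]
  refine ⟨e, ?_, ?_, ?_, ?_, ?_, hHDv⟩
  · intro s hs t ht hst
    refine (ang_strictMono hv).lt_iff_lt.1 ?_
    rw [(he s hs).1, (he t ht).1]
    exact hmono hs ht hst
  · refine continuous_re.comp_continuousOn ((mi_cont hv).comp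
      (continuous_ec.comp_continuousOn hcont) fun t ht => ⟨?_, hne1 t ht⟩)
    rw [DD, mem_closedBall_zero_iff]
    exact (norm_ec _).le
  · refine (ang_strictMono hv).injective ?_
    rw [(he _ hm22).1, hm2, d.hg.κ_eq]
  · refine (ang_strictMono hv).injective ?_
    rw [(he _ h02).1, h0, d.hg.ω_eq]
  · intro ζ hζ
    by_cases h : 0 ≤ ζ.im
    · exact hHD ζ ⟨mem_closedBall_zero_iff.1 hζ, h⟩
    · have h1 : conj ζ ∈ HD := by
        refine ⟨?_, ?_⟩
        · rw [norm_conj]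
          exact mem_closedBall_zero_iff.1 hζ
        · rw [conj_im]
          linarith [not_le.1 h]
      have h3 := hHD _ h1
      rw [lvd_conj, d.mb.sym ζ hζ, d.Pi_conj] at h3
      have h4 := congrArg conj h3
      rwa [conj_conj, conj_ofReal] at h4

/-- values on the closed basin -/
theorem FD.Pi_basin (d : FD q q') : ∃ e : ℝ → ℝ, StrictMonoOn e (Icc (-2) 2) ∧
    ContinuousOn e (Icc (-2) 2) ∧ e (-2) = q'.vr ∧ e 0 = q'.r ∧
    (∀ ζ ∈ closedBall (0 : ℂ) 1, d.Pi (d.χ ζ) = e (lvd ζ)) := by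
  obtain ⟨e, h1, h2, h3, h4, h5, -⟩ := d.Pi_basin'
  exact ⟨e, h1, h2, h3, h4, h5⟩

/-- left root of the folded squaring -/
private theorem f6_root {ξ : ℂ} (h : ξ ∈ HD) : ∃ ζ ∈ HD, ζ.re ≤ 0 ∧ sqf ζ = ξ := by
  obtain ⟨w, hw⟩ : ∃ w : ℂ, w ^ 2 = ξ := ⟨ξ ^ (1 / 2 : ℂ), by
    rw [← cpow_nat_mul]; norm_num⟩
  have hn : ‖w‖ ≤ 1 := by
    have h1 : ‖w‖ ^ 2 ≤ 1 := by rw [← norm_pow, hw]; exact h.1
    nlinarith [norm_nonneg w]
  have him : 0 ≤ w.re * w.im := by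
    have h1 := h.2
    rw [← hw, sq, mul_im] at h1
    nlinarith
  have hsq : ∀ z : ℂ, z ^ 2 = ξ ∨ z ^ 2 = conj ξ → sqf z = ξ := by
    rintro z (h1 | h1)
    · rw [sqf, h1, f6_fold_pos h.2]
    · rw [sqf, h1, f6_fold_neg, conj_conj]
      rw [conj_im]
      linarith [h.2]
  have hc2 : (conj w) ^ 2 = conj ξ := by rw [← map_pow, hw]
  by_cases hre : 0 ≤ w.re
  · by_cases hi : 0 ≤ w.im
    · refine ⟨-conj w, ⟨by rw [norm_neg, norm_conj]; exact hn, by simpa using hi⟩,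
        by simpa using hre, hsq _ (Or.inr ?_)⟩
      rw [neg_sq, hc2]
    · have hi' := not_le.1 hi
      have hre0 : w.re = 0 := by
        by_contra h1
        have h2 : 0 < w.re := lt_of_le_of_ne hre (Ne.symm h1)
        nlinarith
      refine ⟨-w, ⟨by rw [norm_neg]; exact hn, by rw [neg_im]; linarith⟩,
        by rw [neg_re]; linarith, hsq _ (Or.inl ?_)⟩
      rw [neg_sq, hw]
  · have hre' := not_le.1 hre
    have hi : w.im ≤ 0 := by
      by_contra h1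
      nlinarith [not_le.1 h1]
    refine ⟨conj w, ⟨by rw [norm_conj]; exact hn, by rw [conj_im]; linarith⟩,
      by rw [conj_re]; exact hre'.le, hsq _ (Or.inr hc2)⟩

/-- points over the closed marked basin -/
private theorem FD.mem_of_Bc (d : FD q q') {z : ℂ} (hz : z ∈ HH) (h : mm q.v z ∈ d.D.Bc) :
    z ∈ d.χ '' closedBall 0 1 := by
  obtain ⟨ζ, hζ, he⟩ := h
  have h1 := d.mb.disc ζ hζ
  have h2 : mm q.v (d.χ ζ) = mm q.v z := h1.trans he
  have h3 := mm_inj q.vpos (d.mb.mem ζ hζ) hz h2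
  exact ⟨ζ, f6_HD hζ, h3⟩

private theorem FD.lift_Θ (d : FD q q') {s : ℂ} (hs : s ∈ DD) :
    d.R (d.T.Θ s) ∈ d.g.Θ '' DD := by
  by_cases h0 : s = 0
  · rw [h0]
    exact ⟨0, by simp [DD], d.hE.lift.Θ0.symm⟩
  · have hn : ‖s‖ ≤ 1 := mem_closedBall_zero_iff.1 hs
    have hu : 2 * log s ∈ UU := by
      show (2 * log s).re ≤ 0
      have h1 : (2 * log s).re = 2 * Real.log ‖s‖ := by
        rw [mul_re, log_re]; simp
      rw [h1]
      have := Real.log_nonpos (norm_nonneg s) hn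
      linarith
    have h2 : exp (2 * log s / 2) = s := by
      rw [mul_div_cancel_left₀ _ (two_ne_zero), exp_log h0]
    have h3 := d.hE.lift.Θ_eq _ hu
    rw [h2] at h3
    rw [h3]
    refine ⟨_, ?_, rfl⟩
    rw [DD, mem_closedBall_zero_iff, norm_exp]
    refine Real.exp_le_one_iff.2 ?_
    have h4 : (d.H (2 * log s)).re ≤ 0 := d.hE.hat.maps hu
    have h5 : (d.H (2 * log s) / 2).re = (d.H (2 * log s)).re / 2 := by
      simp
    rw [h5]
    linarith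

private theorem FD.Tp_conj (d : FD q q') (z : ℂ) : d.Tp (conj z) = conj (d.Tp z) := by
  have key : ∀ w : ℂ, w ∈ d.χ '' closedBall 0 1 → conj w ∈ d.χ '' closedBall 0 1 ∧
      d.Tp (conj w) = conj (d.Tp w) := by
    rintro _ ⟨ζ, hζ, rfl⟩
    rw [← d.mb.sym ζ hζ]
    refine ⟨mem_image_of_mem _ (f6_conj hζ), ?_⟩
    rw [d.Tp_in (f6_conj hζ), d.Tp_in hζ, diskMap_conj, d.mb.sym _ (diskMap_maps _ hζ)]
  by_cases h : z ∈ d.χ '' closedBall 0 1
  · exact (key z h).2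
  · have h1 : conj z ∉ d.χ '' closedBall 0 1 := fun h2 => h (by
      have := (key _ h2).1
      rwa [conj_conj] at this)
    rw [d.Tp_out h, d.Tp_out h1, q.h_conj]

/-- both values lie in the same half plane -/
private theorem FD.same_side (d : FD q q') {z : ℂ} (hz : z ∈ HH)
    (hzB : z ∉ d.χ '' closedBall 0 1) {p : ℂ} (hp : p ∈ HH) (hpx : mm q'.v p = d.R (mm q.v z)) :
    (0 ≤ (q.h.eval z).im ∧ 0 ≤ (q'.h.eval p).im) ∨
      ((q.h.eval z).im ≤ 0 ∧ (q'.h.eval p).im ≤ 0) := by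
  have hxD : mm q.v z ∈ DD := mm_mem q.vpos hz
  have hxBc : mm q.v z ∉ d.D.Bc := fun h => hzB (d.mem_of_Bc hz h)
  have hBoBc : d.D.Bo ⊆ d.D.Bc := by
    rintro _ ⟨t, ht, rfl⟩
    exact ⟨t, ⟨ht.1.le, ht.2⟩, rfl⟩
  have hxBo : mm q.v z ∉ d.D.Bo := fun h => hxBc (hBoBc h)
  have hTF : d.T.F (mm q.v z) = d.S.F (mm q.v z) := d.hT.F_out _ hxD hxBo
  rcases d.T.cover _ hxD with ⟨s, hs, hsx⟩ | ⟨w, hw, hwx⟩ | ⟨w, hw, hwx⟩
  · left
    constructor
    · refine d.hS.imΘ z hz ?_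
      by_cases hsB : s ^ 2 ∈ d.D.Bo
      · have hF : d.S.F (mm q.v z) = s ^ 2 := by
          rw [← hTF, ← hsx, d.T.FΘ s hs]
        rcases d.S.cover _ hxD with h1 | ⟨w, hw, hwx⟩ | ⟨w, hw, hwx⟩
        · exact h1
        · have hws : w = s ^ 2 := by
            rw [← hF, ← hwx, d.S.F2 w hw]
          have h2 : d.T.Θ s = d.T.G2 w := by
            rw [hsx, ← hwx, d.hT.G2_eq w hw]
          obtain ⟨θ, hθ, hsθ⟩ := d.T.sep2 s hs w hw h2
          have hwθ : w = ec θ := by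
            rw [hws, hsθ, neg_sq, sq, ← ec_add]
            congr 1
            ring
          rw [← hwx, hwθ, d.S.bd2 θ hθ]
          refine mem_image_of_mem _ ?_
          rw [DD, mem_closedBall_zero_iff, norm_neg]
          exact (norm_ec _).le
        · exfalso
          have hws : w = s ^ 2 := by
            rw [← hF, ← hwx, d.S.F4 w hw]
          rw [hws] at hwx
          obtain ⟨ξ, hξ, hξs⟩ := hsB
          have hξD : ξ ∈ HD := ⟨hξ.1.le, hξ.2⟩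
          obtain ⟨ζ, hζ, hζr, hζs⟩ := f6_root hξD
          have h3 := d.D.G4_eq hζ hζr
          rw [hζs] at h3
          have hξs' : exp (d.D.c ξ) = s ^ 2 := hξs
          rw [hξs', hwx] at h3
          exact hxBc ⟨ζ, hζ, h3⟩
      · rw [← hsx, d.hT.Θ_out s hs hsB]
        exact mem_image_of_mem _ hs
    · refine d.hg.imΘ p hp ?_
      rw [hpx, ← hsx]
      exact d.lift_Θ hs
  · right
    constructor
    · refine d.hS.im2 z hz ?_
      rw [← hwx, d.hT.G2_eq w hw]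
      exact mem_image_of_mem _ hw
    · refine d.hg.im2 p hp ?_
      rw [hpx, ← hwx, d.hE.lift.G2_eq w hw]
      exact mem_image_of_mem _ (d.hE.rm.maps hw)
  · right
    constructor
    · refine d.hS.im4 z hz ?_
      by_cases hwB : w ∈ d.D.Bo
      · exfalso
        obtain ⟨ξ, hξ, hξw⟩ := hwB
        have hξD : ξ ∈ HD := ⟨hξ.1.le, hξ.2⟩
        obtain ⟨tr, tl, hr⟩ := exists_roots
        have h1 := d.hT.feM (tl ξ) (hr.ml hξD) (hr.l_re ξ hξD)
        rw [hr.l_tau ξ hξD, Br.ap] at h1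
        have hξw' : exp (d.D.c ξ) = w := hξw
        rw [hξw'] at h1
        have h2 : exp (d.D.c (tl ξ)) = mm q.v z := by
          rw [h1]
          simp only [Int.cast_zero, zero_mul, add_zero]
          rw [d.B'.exp4 w hw, hwx]
        exact hxBc ⟨tl ξ, hr.ml hξD, h2⟩
      · rw [← hwx, d.hT.G4_out w hw hwB]
        exact mem_image_of_mem _ hw
    · refine d.hg.im4 p hp ?_
      rw [hpx, ← hwx, d.hE.lift.G4_eq w hw]
      exact mem_image_of_mem _ (d.hE.rm.maps hw)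

private theorem FD.Pi_semi_HH (d : FD q q') {z : ℂ} (hz : z ∈ HH) :
    q'.h.eval (d.Pi z) = d.Pi (d.Tp z) := by
  have hv' : 0 < q'.v.im := q'.vpos
  have hv : 0 < q.v.im := q.vpos
  by_cases hzB : z ∈ d.χ '' closedBall 0 1
  · -- on the closed basin
    obtain ⟨e, -, -, -, -, hPi, hR⟩ := d.Pi_basin'
    obtain ⟨ζ, hζ, rfl⟩ : ∃ ζ ∈ HD, d.χ ζ = z := by
      obtain ⟨ζ, hζ, rfl⟩ := hzB
      by_cases h : 0 ≤ ζ.im
      · exact ⟨ζ, ⟨mem_closedBall_zero_iff.1 hζ, h⟩, rfl⟩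
      · have h1 : conj ζ ∈ HD := by
          refine ⟨?_, ?_⟩
          · rw [norm_conj]
            exact mem_closedBall_zero_iff.1 hζ
          · rw [conj_im]
            linarith [not_le.1 h]
        have h2 := d.mb.mem _ h1
        rw [d.mb.sym ζ hζ] at h2
        have h3 : 0 ≤ (conj (d.χ ζ)).im := h2
        have h4 : 0 ≤ (d.χ ζ).im := hz
        rw [conj_im] at h3
        have h5 : (d.χ ζ).im = 0 := by linarith
        refine ⟨conj ζ, h1, ?_⟩
        rw [d.mb.sym ζ hζ]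
        exact conj_eq_iff_im.2 h5
    have hζB := f6_HD hζ
    rw [d.Tp_in hζB, hPi _ (diskMap_maps _ hζB), hPi _ hζB, lvd_diskMap hζB]
    have hxD : exp (d.D.c ζ) ∈ DD := d.D.mem_DD hζ
    have h1 := d.R_F hxD
    rw [d.hT.F_in ζ hζ, hR _ (tau_maps hζ), hR _ hζ, lvd_tau hζ] at h1
    have hH : ∀ x : ℝ, (x : ℂ) ∈ HH := fun x => by simp [HH]
    rw [d.hg.F_eq _ (hH _), q'.h_real, f6_fold_pos (by rw [ofReal_im])] at h1
    rw [q'.h_real]
    exact mm_inj hv' (hH _) (hH _) h1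
  · -- off the closed basin
    have hz' : 0 ≤ z.im := hz
    have hxD : mm q.v z ∈ DD := mm_mem hv hz
    have hx1 : mm q.v z ≠ 1 := mm_ne_one hv hz
    have hRD : d.R (mm q.v z) ∈ DD := d.hE.rm.maps hxD
    have hR1 : d.R (mm q.v z) ≠ 1 := fun h => hx1 ((d.hE.rm.one _ hxD).1 h)
    have hPi : d.Pi z = mi q'.v (d.R (mm q.v z)) := if_pos hz'
    have hp : d.Pi z ∈ HH := by
      rw [hPi]
      exact mi_mem hv' hRD hR1
    have hpx : mm q'.v (d.Pi z) = d.R (mm q.v z) := by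
      rw [hPi, mm_mi hv' hRD hR1]
    have hxBo : mm q.v z ∉ d.D.Bo := by
      rintro ⟨t, ht, hte⟩
      exact hzB (d.mem_of_Bc hz ⟨t, ⟨ht.1.le, ht.2⟩, hte⟩)
    have h1 := d.R_F' hxD hxBo
    rw [← hpx, d.hg.F_eq _ hp, d.hS.F_eq _ hz] at h1
    have hfH : fold (q.h.eval z) ∈ HH := fold_mem _
    have h2 : fold (q'.h.eval (d.Pi z)) = d.Pi (fold (q.h.eval z)) := by
      have hfD := mm_mem hv hfH
      have hf1 : d.R (mm q.v (fold (q.h.eval z))) ≠ 1 := fun h =>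
        mm_ne_one hv hfH ((d.hE.rm.one _ hfD).1 h)
      have h3 : d.Pi (fold (q.h.eval z)) = mi q'.v (d.R (mm q.v (fold (q.h.eval z)))) :=
        if_pos hfH
      rw [h3, ← h1, mi_mm hv' (fold_mem _)]
    rw [d.Tp_out hzB]
    rcases d.same_side hz hzB hp hpx with ⟨i1, i2⟩ | ⟨i1, i2⟩
    · rwa [f6_fold_pos i1, f6_fold_pos i2] at h2
    · rw [f6_fold_neg i1, f6_fold_neg i2, d.Pi_conj] at h2
      have h4 := congrArg conj h2
      rwa [conj_conj, conj_conj] at h4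

theorem FD.Pi_semi (d : FD q q') (z : ℂ) : q'.h.eval (d.Pi z) = d.Pi (d.Tp z) := by
  by_cases h : 0 ≤ z.im
  · exact d.Pi_semi_HH h
  · have h1 : 0 ≤ (conj z).im := by
      rw [conj_im]
      linarith [not_le.1 h]
    have h2 := d.Pi_semi_HH (z := conj z) h1
    rw [d.Tp_conj, d.Pi_conj, d.Pi_conj, q'.h_conj] at h2
    have h4 := congrArg conj h2
    rwa [conj_conj, conj_conj] at h4

end

end Pool.TU
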