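import Pool.Agent.Helper71.TU.F8
import Pool.Agent.Helper71.TU.F6
import Pool.Agent.Helper71.TU.H3
import Pool.Agent.Helper71.TU.H4

/-! # TU F10: classes -/

open Complex Set Filter Topology Metric Polynomial ComplexConjugate Pool.Tuning

namespace Pool.TU

noncomputable section

variable {q q' : RQ}

/-- the glued map outside the closed basin -/
theorem FD.f10_Tp_out (d : FD q q') {z : ℂ} (h : z ∉ d.χ '' closedBall 0 1) :
    d.Tp z = q.h.eval z := by
  unfold FD.Tp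
  rw [if_neg h]

/-- the marking is the parametrised preimage of depth zero -/
theorem FD.f10_par0 (d : FD q q') : Par q d.χ 0 d.χ :=
  ⟨d.mb.cont, fun _ _ => rfl, fun m hm => absurd hm (Nat.not_lt_zero m)⟩

/-- depths of parametrised preimages through the same point agree -/
theorem FD.f10_depth (d : FD q q') {n m : ℕ} {s s' : ℂ → ℂ} (hs : Par q d.χ n s)
    (hs' : Par q d.χ m s') {ζ ξ : ℂ} (hζ : ζ ∈ closedBall (0 : ℂ) 1)
    (hξ : ξ ∈ closedBall (0 : ℂ) 1) (h : s ζ = s' ξ) : n = m := by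
  rcases lt_trichotomy n m with h1 | h1 | h1
  · exfalso
    apply hs'.out n h1 ξ hξ
    rw [← h, hs.eq ζ hζ]
    exact mem_image_of_mem _ hζ
  · exact h1
  · exfalso
    apply hs.out m h1 ζ hζ
    rw [h, hs'.eq ξ hξ]
    exact mem_image_of_mem _ hξ

/-- the parameter of a point is unique -/
theorem FD.f10_param (d : FD q q') {n : ℕ} {s : ℂ → ℂ} (hs : Par q d.χ n s)
    {ζ ξ : ℂ} (hζ : ζ ∈ closedBall (0 : ℂ) 1)
    (hξ : ξ ∈ closedBall (0 : ℂ) 1) (h : s ζ = s ξ) : ζ = ξ := by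
  apply d.mb.inj hζ hξ
  rw [← hs.eq ζ hζ, ← hs.eq ξ hξ, h]

theorem FD.cls_equiv (d : FD q q') : Equivalence d.Cls := by
  refine ⟨fun x => Or.inl rfl, ?_, ?_⟩
  · rintro x y (h | ⟨n, s, hs, ζ, hζ, ζ', hζ', hx, hy, hl⟩)
    · exact Or.inl h.symm
    · exact Or.inr ⟨n, s, hs, ζ', hζ', ζ, hζ, hy, hx, hl.symm⟩
  · rintro x y z (h | ⟨n, s, hs, ζ, hζ, ζ', hζ', hx, hy, hl⟩) h2
    · rw [h]
      exact h2
    · rcases h2 with h2 | ⟨m, s', hs', ξ, hξ, ξ', hξ', hy', hz, hl'⟩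
      · rw [← h2]
        exact Or.inr ⟨n, s, hs, ζ, hζ, ζ', hζ', hx, hy, hl⟩
      · have h3 : s ζ' = s' ξ := hy.symm.trans hy'
        have h4 : n = m := d.f10_depth hs hs' hζ' hξ h3
        subst h4
        have h5 : ∀ ζ ∈ closedBall (0 : ℂ) 1, s ζ = s' ζ :=
          d.par_unique hs hs' (z := y) ⟨ζ', hζ', hy.symm⟩ ⟨ξ, hξ, hy'.symm⟩
        have h6 : ζ' = ξ := d.f10_param hs hζ' hξ (h3.trans (h5 ξ hξ).symm)
        refine Or.inr ⟨n, s, hs, ζ, hζ, ξ', hξ', hx, ?_, ?_⟩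
        · rw [hz, h5 ξ' hξ']
        · rw [hl, h6, hl']

/-- fibres of iterates are finite -/
theorem f10_fin (q : RQ) (n : ℕ) (a : ℂ) :
    {w : ℂ | (fun w => q.h.eval w)^[n] w = a}.Finite := by
  have hdeg : q.h.natDegree = 4 := by
    rw [RQ.h, Polynomial.natDegree_map]
    exact q.deg
  have hfib : ∀ b : ℂ, {w : ℂ | q.h.eval w = b}.Finite := by
    intro b
    have hne : q.h - C b ≠ 0 := by
      intro h
      have h1 : q.h = C b := sub_eq_zero.1 h
      rw [h1, natDegree_C] at hdeg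
      omega
    refine ((q.h - C b).roots.toFinset.finite_toSet).subset ?_
    intro w hw
    have hw' : q.h.eval w = b := hw
    simp only [Finset.mem_coe, Multiset.mem_toFinset]
    rw [mem_roots hne, IsRoot.def, eval_sub, eval_C, hw', sub_self]
  induction n generalizing a with
  | zero =>
    have : {w : ℂ | (fun w => q.h.eval w)^[0] w = a} = {a} := by
      ext w
      simp
    rw [this]
    exact finite_singleton a
  | succ n ih =>
    have h1 : {w : ℂ | (fun w => q.h.eval w)^[n + 1] w = a} ⊆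
        ⋃ b ∈ {b : ℂ | (fun w => q.h.eval w)^[n] b = a}, {w : ℂ | q.h.eval w = b} := by
      intro w hw
      have hw' : (fun w => q.h.eval w)^[n + 1] w = a := hw
      rw [Function.iterate_succ_apply] at hw'
      exact mem_biUnion (x := q.h.eval w) hw' rfl
    exact ((ih a).biUnion fun b _ => hfib b).subset h1

/-- the semiconjugacy before the entry -/
theorem FD.f10_semi (d : FD q q') (n : ℕ) {z : ℂ}
    (h : ∀ m < n, (fun w => q.h.eval w)^[m] z ∉ d.χ '' closedBall 0 1) :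
    (fun w => q'.h.eval w)^[n] (d.Pi z) = d.Pi ((fun w => q.h.eval w)^[n] z) := by
  induction n with
  | zero => rfl
  | succ n ih =>
    rw [Function.iterate_succ_apply', Function.iterate_succ_apply',
      ih fun m hm => h m (hm.trans (Nat.lt_succ_self n))]
    show q'.h.eval (d.Pi ((fun w => q.h.eval w)^[n] z)) = _
    rw [d.Pi_semi, d.f10_Tp_out (h n (Nat.lt_succ_self n))]

/-- `Pi` is constant on classes -/
theorem FD.Pi_cls (d : FD q q') {x y : ℂ} (h : d.Cls x y) : d.Pi x = d.Pi y := by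
  rcases h with h | ⟨n, s, hs, ζ, hζ, ζ', hζ', hx, hy, hl⟩
  · rw [h]
  obtain ⟨e, -, -, -, -, he⟩ := d.Pi_basin
  have hK := (lvd_fiber (lvd_mem hζ)).isPreconnected
  set K : Set ℂ := {ξ | ξ ∈ closedBall (0 : ℂ) 1 ∧ lvd ξ = lvd ζ} with hKdef
  have hc : ContinuousOn (fun ξ => d.Pi (s ξ)) K :=
    d.Pi_cont.comp_continuousOn (hs.cont.mono fun ξ hξ => hξ.1)
  have hfin : ((fun ξ => d.Pi (s ξ)) '' K).Finite := by
    refine (f10_fin q' n (e (lvd ζ))).subset ?_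
    rintro _ ⟨ξ, hξ, rfl⟩
    show (fun w => q'.h.eval w)^[n] (d.Pi (s ξ)) = _
    rw [d.f10_semi n fun m hm => hs.out m hm ξ hξ.1, hs.eq ξ hξ.1, he ξ hξ.1, hξ.2]
  have hpre : IsPreconnected ((fun ξ => d.Pi (s ξ)) '' K) := hK.image _ hc
  have hsub : ((fun ξ => d.Pi (s ξ)) '' K).Subsingleton := by
    by_contra hcon
    rw [not_subsingleton_iff] at hcon
    exact hpre.infinite_of_nontrivial hcon hfin
  rw [hx, hy]
  exact hsub ⟨ζ, ⟨hζ, rfl⟩, rfl⟩ ⟨ζ', ⟨hζ', hl.symm⟩, rfl⟩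

/-- the glued map sends classes onto classes -/
theorem FD.cls_onto (d : FD q q') {x z : ℂ} (h : d.Cls (d.Tp x) z) :
    ∃ y, d.Cls x y ∧ d.Tp y = z := by
  rcases h with h | ⟨n, s, hs, ζ, hζ, ζ', hζ', hx, hz, hl⟩
  · exact ⟨x, Or.inl rfl, h⟩
  by_cases hxB : x ∈ d.χ '' closedBall 0 1
  · obtain ⟨η, hη, rfl⟩ := hxB
    rw [d.Tp_in hη] at hx
    have hdm : diskMap (-2) η ∈ closedBall (0 : ℂ) 1 := diskMap_maps (-2) hη
    have hn : n = 0 := by
      by_contra hn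
      apply hs.out 0 (Nat.pos_of_ne_zero hn) ζ hζ
      show s ζ ∈ _
      rw [← hx]
      exact mem_image_of_mem _ hdm
    subst hn
    have h1 : s ζ = d.χ ζ := hs.eq ζ hζ
    have h2 : s ζ' = d.χ ζ' := hs.eq ζ' hζ'
    have h3 : diskMap (-2) η = ζ := d.mb.inj hdm hζ (hx.trans h1)
    obtain ⟨η', hη', hl', he'⟩ := class_onto hη hζ' (by rw [h3, hl])
    refine ⟨d.χ η', Or.inr ⟨0, d.χ, d.f10_par0, η, hη, η', hη', rfl, rfl, hl'.symm⟩, ?_⟩
    rw [d.Tp_in hη', he', hz, h2]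
  · rw [d.f10_Tp_out hxB] at hx
    obtain ⟨s', hs', h1, h2⟩ := d.lift_par hs hζ hxB hx
    refine ⟨s' ζ', Or.inr ⟨n + 1, s', hs', ζ, hζ, ζ', hζ', h1.symm, rfl, hl⟩, ?_⟩
    have h3 : s' ζ' ∉ d.χ '' closedBall 0 1 := hs'.out 0 (Nat.succ_pos n) ζ' hζ'
    rw [d.f10_Tp_out h3, h2 ζ' hζ', hz]

end

end Pool.TU
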