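import Pool.Agent.Helper71.TU.F4
import Pool.Agent.Helper71.TU.F10

/-! # TU F12: base fibres -/

open Complex Set Filter Topology Metric Polynomial ComplexConjugate Pool.Tuning

namespace Pool.TU

noncomputable section

variable {q q' : RQ}

theorem F12_fold_of_nonneg {w : ℂ} (h : 0 ≤ w.im) : fold w = w := if_pos h

theorem F12_fold_of_nonpos {w : ℂ} (h : w.im ≤ 0) : fold w = conj w := by
  unfold fold
  split_ifs with h1
  · have h2 : w.im = 0 := le_antisymm h h1
    exact (Complex.conj_eq_iff_im.2 h2).symm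
  · rfl

theorem F12_fold_conj (w : ℂ) : fold (conj w) = fold w := by
  rcases le_total 0 w.im with h | h
  · rw [F12_fold_of_nonneg h, F12_fold_of_nonpos (by rw [Complex.conj_im]; linarith),
      Complex.conj_conj]
  · rw [F12_fold_of_nonpos h, F12_fold_of_nonneg (by rw [Complex.conj_im]; linarith)]

theorem F12_fold_or (w : ℂ) : fold w = w ∨ fold w = conj w := by
  rcases le_total 0 w.im with h | h
  · exact Or.inl (F12_fold_of_nonneg h)
  · exact Or.inr (F12_fold_of_nonpos h)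

theorem F12_fold_eq {a b : ℂ} (h : fold a = fold b) : b = a ∨ b = conj a := by
  rcases F12_fold_or a with ha | ha <;> rcases F12_fold_or b with hb | hb
  · left; rw [← hb, ← h, ha]
  · right; rw [← Complex.conj_conj b, ← hb, ← h, ha]
  · right; rw [← hb, ← h, ha]
  · left
    rw [← Complex.conj_conj b, ← hb, ← h, ha, Complex.conj_conj]

/-- iterating in the disc -/
theorem F12_iter {q : RQ} {S : TS} (hS : IsTS q S) (k : ℕ) (z : ℂ) :
    S.F^[k] (mm q.v (fold z)) = mm q.v (fold ((fun w => q.h.eval w)^[k] z)) := by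
  induction k generalizing z with
  | zero => rfl
  | succ k ih =>
    rw [Function.iterate_succ_apply, Function.iterate_succ_apply, hS.F_eq _ (fold_mem z)]
    have h1 : fold (q.h.eval (fold z)) = fold (q.h.eval z) := by
      rcases F12_fold_or z with h | h
      · rw [h]
      · rw [h, q.h_conj, F12_fold_conj]
    rw [h1]
    exact ih (q.h.eval z)

/-- a point whose folding lies in the open basin lies in the open basin of the plane -/
theorem F12_Bo (d : FD q q') {z : ℂ} (h : mm q.v (fold z) ∈ d.D.Bo) :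
    ∃ ζ ∈ ball (0 : ℂ) 1, z = d.χ ζ := by
  obtain ⟨t, ⟨ht, ht'⟩, he⟩ := h
  have htHD : t ∈ HD := ⟨ht.le, ht'⟩
  have h1 : mm q.v (d.χ t) = mm q.v (fold z) := by
    rw [d.mb.disc t htHD]
    exact he
  have h2 : d.χ t = fold z := mm_inj q.vpos (d.mb.mem t htHD) (fold_mem z) h1
  rcases F12_fold_or z with h | h
  · exact ⟨t, by simpa using ht, by rw [h2, h]⟩
  · refine ⟨conj t, by simpa using ht, ?_⟩
    rw [d.mb.sym t (by simpa using ht.le), h2, h, Complex.conj_conj]

theorem F12_iter_χ (d : FD q q') (k : ℕ) {ζ : ℂ} (hζ : ‖ζ‖ = 1) :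
    ∃ ξ : ℂ, ‖ξ‖ = 1 ∧ (fun w => q.h.eval w)^[k] (d.χ ζ) = d.χ ξ := by
  induction k with
  | zero => exact ⟨ζ, hζ, rfl⟩
  | succ k ih =>
    obtain ⟨ξ, h1, h2⟩ := ih
    refine ⟨ξ ^ 2, by rw [norm_pow, h1, one_pow], ?_⟩
    rw [Function.iterate_succ_apply', h2]
    exact d.mb.conjF ξ (by simp [h1])

/-- every class contains a point whose folded orbit avoids `Bo` -/
theorem FD.star (d : FD q q') (x : ℂ) : ∃ y, d.Cls x y ∧
    ∀ k, d.S.F^[k] (mm q.v (fold y)) ∉ d.D.Bo := by
  classical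
  by_cases hx : ∃ n, (fun w => q.h.eval w)^[n] x ∈ d.χ '' closedBall 0 1
  · have hn := Nat.find_spec hx
    set n := Nat.find hx with hndef
    have hmin : ∀ m < n, (fun w => q.h.eval w)^[m] x ∉ d.χ '' closedBall 0 1 :=
      fun m hm => Nat.find_min hx hm
    obtain ⟨s, hs, ζ, hζ, hζx⟩ := d.exists_par n hn hmin
    obtain ⟨-, ⟨ξ, hξ, hξ1, hξ2⟩, -⟩ := lvd_fiber_half (lvd_mem hζ)
    have hξb : ξ ∈ closedBall (0 : ℂ) 1 := by simp [hξ1]
    refine ⟨s ξ, Or.inr ⟨n, s, hs, ζ, hζ, ξ, hξb, hζx.symm, rfl, hξ2.symm⟩, ?_⟩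
    intro k hk
    rw [F12_iter d.hS] at hk
    obtain ⟨t, ht, hte⟩ := F12_Bo d hk
    rcases lt_or_ge k n with hkn | hkn
    · exact hs.out k hkn ξ hξb ⟨t, ball_subset_closedBall ht, hte.symm⟩
    · obtain ⟨m, rfl⟩ := Nat.exists_eq_add_of_le hkn
      rw [add_comm, Function.iterate_add_apply, hs.eq ξ hξb] at hte
      obtain ⟨ξ', h1, h2⟩ := F12_iter_χ d m hξ1
      rw [h2] at hte
      have h3 : ξ' = t := d.mb.inj (by simp [h1]) (ball_subset_closedBall ht) hte
      rw [h3] at h1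
      rw [mem_ball_zero_iff] at ht
      linarith
  · refine ⟨x, Or.inl rfl, fun k hk => ?_⟩
    rw [F12_iter d.hS] at hk
    obtain ⟨t, ht, hte⟩ := F12_Bo d hk
    exact hx ⟨k, t, ball_subset_closedBall ht, hte.symm⟩

/-- the class of a real point is symmetric -/
theorem FD.cls_real (d : FD q q') {x : ℝ} {y : ℂ} (h : d.Cls x y) : d.Cls x (conj y) := by
  rcases h with h | ⟨n, s, hs, ζ, hζ, ζ', hζ', hx, hy, hl⟩
  · left
    rw [← h, Complex.conj_ofReal]
  · right
    have hc : ∀ {ξ : ℂ}, ξ ∈ closedBall (0 : ℂ) 1 → conj ξ ∈ closedBall (0 : ℂ) 1 := by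
      intro ξ hξ
      simpa using hξ
    have hs' := d.par_conj hs
    have e1 : (x : ℂ) = (fun ζ => conj (s (conj ζ))) (conj ζ) := by
      show (x : ℂ) = conj (s (conj (conj ζ)))
      rw [Complex.conj_conj, ← hx, Complex.conj_ofReal]
    have huniq := d.par_unique hs hs' (z := (x : ℂ)) ⟨ζ, hζ, hx.symm⟩
      ⟨conj ζ, hc hζ, e1.symm⟩
    refine ⟨n, s, hs, ζ, hζ, conj ζ', hc hζ', hx, ?_, ?_⟩
    · rw [huniq _ (hc hζ')]
      show conj y = conj (s (conj (conj ζ')))
      rw [Complex.conj_conj, hy]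
    · rw [lvd_conj]
      exact hl

theorem F12_Rne (d : FD q q') {z : ℂ} (hz : z ∈ HH) : d.R (mm q.v z) ≠ 1 := by
  intro h
  have h1 := (d.hE.rm.one _ (mm_mem q.vpos hz)).1 h
  exact mm_ne_one q.vpos hz h1

theorem F12_R (d : FD q q') (z : ℂ) :
    d.R (mm q.v (fold z)) = mm q'.v (fold (d.Pi z)) := by
  have hR : ∀ w ∈ HH, d.R (mm q.v w) ∈ DD := fun w hw => d.hE.rm.maps (mm_mem q.vpos hw)
  by_cases hz : 0 ≤ z.im
  · have h1 : d.Pi z = mi q'.v (d.R (mm q.v z)) := if_pos hz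
    rw [F12_fold_of_nonneg hz, h1]
    have h2 := mi_mem q'.vpos (hR z hz) (F12_Rne d hz)
    rw [F12_fold_of_nonneg h2, mm_mi q'.vpos (hR z hz) (F12_Rne d hz)]
  · have h1 : d.Pi z = conj (mi q'.v (d.R (mm q.v (conj z)))) := if_neg hz
    push Not at hz
    have hz' : conj z ∈ HH := by
      show 0 ≤ (conj z).im
      rw [Complex.conj_im]
      linarith
    rw [F12_fold_of_nonpos hz.le, h1]
    have h2 := mi_mem q'.vpos (hR _ hz') (F12_Rne d hz')
    rw [F12_fold_conj, F12_fold_of_nonneg h2, mm_mi q'.vpos (hR _ hz') (F12_Rne d hz')]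

theorem F12_norm {q : RQ} (z : ℂ) : ‖mm q.v (fold z)‖ = 1 ↔ z.im = 0 := by
  rw [norm_mm_eq_one q.vpos (fold_mem z)]
  rcases F12_fold_or z with h | h
  · rw [h]
  · rw [h, Complex.conj_im, neg_eq_zero]

/-- the star points of a fibre are equal or conjugate -/
theorem F12_star_eq (d : FD q q') {x y : ℂ} (h : d.Pi x = d.Pi y)
    (hx : ∀ k, d.S.F^[k] (mm q.v (fold x)) ∉ d.D.Bo)
    (hy : ∀ k, d.S.F^[k] (mm q.v (fold y)) ∉ d.D.Bo)
    (hc : (∀ k, ((fun w => q'.h.eval w)^[k] (d.Pi x)).im ≠ 0) ∨ (d.Pi x).im = 0) :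
    y = x ∨ y = conj x := by
  have h1 : d.R (mm q.v (fold x)) = d.R (mm q.v (fold y)) := by
    rw [F12_R, F12_R, h]
  have h2 : mm q.v (fold x) = mm q.v (fold y) := by
    refine d.fiber_unique (mm_mem q.vpos (fold_mem x)) (mm_mem q.vpos (fold_mem y)) hx hy h1 ?_
    rcases hc with hc | hc
    · left
      intro k
      rw [F12_R, F12_iter d.hg, Ne, F12_norm]
      exact hc k
    · right
      rw [F12_R, F12_norm]
      exact hc
  exact F12_fold_eq (mm_inj q.vpos (fold_mem x) (fold_mem y) h2)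

/-- fibres over real points and over points with nonreal orbit are single classes -/
theorem FD.fiber_base (d : FD q q') {x y : ℂ} (h : d.Pi x = d.Pi y)
    (hc : (∀ k, ((fun w => q'.h.eval w)^[k] (d.Pi x)).im ≠ 0) ∨ (d.Pi x).im = 0) :
    d.Cls x y := by
  have E := d.cls_equiv
  obtain ⟨x', hx', hxo⟩ := d.star x
  obtain ⟨y', hy', hyo⟩ := d.star y
  have px : d.Pi x' = d.Pi x := (d.Pi_cls hx').symm
  have py : d.Pi y' = d.Pi y := (d.Pi_cls hy').symm
  have hxy : d.Pi x' = d.Pi y' := by rw [px, py, h]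
  rcases F12_star_eq d hxy hxo hyo (by rw [px]; exact hc) with h1 | h1
  · rw [h1] at hy'
    exact E.trans hx' (E.symm hy')
  · have hre : (d.Pi x').im = 0 := by
      have h2 : d.Pi x' = conj (d.Pi x') := by
        rw [← d.Pi_conj, ← h1, hxy]
      exact Complex.conj_eq_iff_im.1 h2.symm
    obtain ⟨r, hr⟩ := d.Pi_real_surj (p := (d.Pi x').re)
    have hr' : d.Pi (r : ℂ) = d.Pi x' := by
      rw [hr]
      exact Complex.ext (by simp) (by simp [hre])
    obtain ⟨z, hz, hzo⟩ := d.star (r : ℂ)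
    have pz : d.Pi x' = d.Pi z := by rw [← d.Pi_cls hz, hr']
    have key : d.Cls x' (conj x') := by
      rcases F12_star_eq d pz hxo hzo (Or.inr hre) with h2 | h2
      · rw [h2] at hz
        exact E.trans (E.symm hz) (d.cls_real hz)
      · rw [h2] at hz
        have h3 := d.cls_real hz
        rw [Complex.conj_conj] at h3
        exact E.trans (E.symm h3) hz
    rw [h1] at hy'
    exact E.trans hx' (E.trans key (E.symm hy'))

end

end Pool.TU
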