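import Pool.Agent.Helper71.TU.F12
import Pool.Agent.Helper71.TU.F11

/-! # TU F13: all fibres -/

open Complex Set Filter Topology Metric Polynomial ComplexConjugate Pool.Tuning

namespace Pool.TU

noncomputable section

variable {q q' : RQ}

theorem f13_ne (q' : RQ) (p : ℂ) : q'.h - C p ≠ 0 := by
  intro h0
  have h1 : q'.h = C p := sub_eq_zero.mp h0
  have h2 : q'.h.natDegree = 4 := by
    unfold RQ.h
    rw [Polynomial.natDegree_map]
    exact q'.deg
  rw [h1, Polynomial.natDegree_C] at h2
  omega

theorem f13_aux (d : FD q q') (k : ℕ) : ∀ x y : ℂ, d.Pi x = d.Pi y →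
    ((fun w => q'.h.eval w)^[k] (d.Pi x)).im = 0 → d.Cls x y := by
  classical
  induction k with
  | zero =>
    intro x y h hk
    exact d.fiber_base h (Or.inr (by simpa using hk))
  | succ k ih =>
    intro x y h hk
    by_contra hcon
    obtain ⟨z, hz, hcount⟩ := d.count (q'.h.eval (d.Pi x))
    have hE := d.cls_equiv
    -- points over a root of `h' - p'` whose image by the glued map is `z`
    have key : ∀ x' : ℂ, q'.h.eval (d.Pi x') = q'.h.eval (d.Pi x) →
        ∃ y', d.Cls x' y' ∧ d.Tp y' = z := by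
      intro x' hx'
      apply d.cls_onto
      apply ih
      · rw [← d.Pi_semi, hx', hz]
      · rw [← d.Pi_semi, hx']
        rw [Function.iterate_succ_apply] at hk
        exact hk
    have hroots : ∀ w : ℂ, ∃ y', q'.h.eval w = q'.h.eval (d.Pi x) →
        (d.Pi y' = w ∧ d.Tp y' = z ∧ (w = d.Pi x → d.Cls x y')) := by
      intro w
      by_cases hw : q'.h.eval w = q'.h.eval (d.Pi x)
      · by_cases hwx : w = d.Pi x
        · obtain ⟨y', h1, h2⟩ := key x rfl
          refine ⟨y', fun _ => ⟨?_, h2, fun _ => h1⟩⟩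
          rw [← d.Pi_cls h1, hwx]
        · obtain ⟨x', hx'⟩ := d.Pi_surj w
          obtain ⟨y', h1, h2⟩ := key x' (by rw [hx', hw])
          refine ⟨y', fun _ => ⟨?_, h2, fun h3 => absurd h3 hwx⟩⟩
          rw [← d.Pi_cls h1, hx']
      · exact ⟨0, fun h3 => absurd h3 hw⟩
    choose Y hY using hroots
    obtain ⟨y', hy1, hy2⟩ := key y (by rw [h])
    have hmem : ∀ w, w ∈ (q'.h - C (q'.h.eval (d.Pi x))).roots.toFinset ↔
        q'.h.eval w = q'.h.eval (d.Pi x) := by
      intro w
      rw [Multiset.mem_toFinset, Polynomial.mem_roots (f13_ne q' _), Polynomial.IsRoot.def,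
        Polynomial.eval_sub, Polynomial.eval_C, sub_eq_zero]
    set t0 := (q'.h - C (q'.h.eval (d.Pi x))).roots.toFinset with ht0
    have hinj : Set.InjOn Y (t0 : Set ℂ) := by
      intro a ha b hb hab
      rw [← ((hY a) ((hmem a).mp ha)).1, ← ((hY b) ((hmem b).mp hb)).1, hab]
    have hy' : y' ∉ t0.image Y := by
      intro hmem'
      obtain ⟨w, hw, hwy⟩ := Finset.mem_image.mp hmem'
      have h1 := (hY w) ((hmem w).mp hw)
      have h2 : w = d.Pi x := by
        rw [← h1.1, hwy, ← d.Pi_cls hy1, h]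
      have h3 := h1.2.2 h2
      rw [hwy] at h3
      exact hcon (hE.trans h3 (hE.symm hy1))
    obtain ⟨t, ht, hcard⟩ := hcount (insert y' (t0.image Y)) (by
      intro v hv
      rcases Finset.mem_insert.mp hv with h1 | h1
      · rw [h1]
        exact hy2
      · obtain ⟨w, hw, hwy⟩ := Finset.mem_image.mp h1
        rw [← hwy]
        exact ((hY w) ((hmem w).mp hw)).2.1)
    rw [Finset.card_insert_of_notMem hy', Finset.card_image_of_injOn hinj] at hcard
    have hsub : t ⊆ t0 := by
      intro w hw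
      exact (hmem w).mpr (ht w hw)
    have := Finset.card_le_card hsub
    omega

/-- all fibres are single classes -/
theorem FD.fiber (d : FD q q') {x y : ℂ} (h : d.Pi x = d.Pi y) : d.Cls x y := by
  by_cases hc : ∃ k, ((fun w => q'.h.eval w)^[k] (d.Pi x)).im = 0
  · obtain ⟨k, hk⟩ := hc
    exact f13_aux d k x y h hk
  · exact d.fiber_base h (Or.inl (fun k hk => hc ⟨k, hk⟩))

end

end Pool.TU
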