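import Pool.Agent.Helper71.TU.F8
import Pool.Agent.Helper71.TU.H2

/-! # TU F9: preimages and ray relation -/

open Complex Set Filter Topology Metric Polynomial ComplexConjugate Pool.Tuning

namespace Pool.TU

noncomputable section

variable {q q' : RQ}

/-- a polynomial is locally injective at a noncritical point -/
private theorem f9_local (h : ℂ[X]) {z : ℂ} (hd : h.derivative.eval z ≠ 0) :
    ∃ N : Set ℂ, IsOpen N ∧ z ∈ N ∧ InjOn (fun w => h.eval w) N := by
  set φ := ((h.hasStrictDerivAt z).hasStrictFDerivAt_equiv hd).toOpenPartialHomeomorph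
    (fun w => h.eval w) with hφ
  refine ⟨φ.source, φ.open_source,
    HasStrictFDerivAt.mem_toOpenPartialHomeomorph_source _, ?_⟩
  intro x hx y hy hxy
  apply φ.injOn hx hy
  rw [hφ]
  exact hxy

private theorem f9_sq_norm {ζ : ℂ} (h : ‖ζ‖ = 1) : ‖ζ ^ 2‖ = 1 := by
  rw [norm_pow, h, one_pow]

/-- images of open sets by a parametrised preimage are open -/
theorem FD.par_open (d : FD q q') {n : ℕ} {s : ℂ → ℂ} (h : Par q d.χ n s) {V : Set ℂ}
    (hV : IsOpen V) (hV1 : V ⊆ ball 0 1) : IsOpen (s '' V) := by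
  induction n generalizing s V with
  | zero =>
    have hs : ∀ ξ ∈ closedBall (0 : ℂ) 1, s ξ = d.χ ξ := fun ξ hξ => h.eq ξ hξ
    have e1 : s '' V = d.χ '' ball 0 1 \ d.χ '' (closedBall 0 1 \ V) := by
      ext y
      constructor
      · rintro ⟨ξ, hξ, rfl⟩
        rw [hs ξ (ball_subset_closedBall (hV1 hξ))]
        refine ⟨⟨ξ, hV1 hξ, rfl⟩, ?_⟩
        rintro ⟨η, hη, h0⟩
        have := d.mb.inj hη.1 (ball_subset_closedBall (hV1 hξ)) h0
        rw [this] at hη
        exact hη.2 hξ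
      · rintro ⟨⟨ξ, hξ, rfl⟩, h1⟩
        by_cases h2 : ξ ∈ V
        · exact ⟨ξ, h2, hs ξ (ball_subset_closedBall hξ)⟩
        · exact absurd ⟨ξ, ⟨ball_subset_closedBall hξ, h2⟩, rfl⟩ h1
    rw [e1]
    apply d.mb.opn.sdiff
    apply IsCompact.isClosed
    apply IsCompact.image_of_continuousOn
    · exact (isCompact_closedBall 0 1).diff hV
    · exact d.mb.cont.mono sdiff_subset
  | succ n ih =>
    rw [isOpen_iff_mem_nhds]
    rintro _ ⟨ζ0, hζ0, rfl⟩
    have hζ0' : ζ0 ∈ closedBall (0 : ℂ) 1 := ball_subset_closedBall (hV1 hζ0)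
    obtain ⟨N, hN, hN0, hNi⟩ := f9_local q.h (d.par_der h hζ0')
    have hsV : ContinuousOn s V := h.cont.mono (hV1.trans ball_subset_closedBall)
    have hV2 : IsOpen (V ∩ s ⁻¹' N) := hsV.isOpen_inter_preimage hV hN
    have h2 := ih (d.par_push h) hV2 (inter_subset_left.trans hV1)
    have h3 : IsOpen (N ∩ (fun w => q.h.eval w) ⁻¹'
        ((fun ζ => q.h.eval (s ζ)) '' (V ∩ s ⁻¹' N))) :=
      hN.inter (h2.preimage q.h.continuous)
    refine mem_of_superset (h3.mem_nhds ⟨hN0, ζ0, ⟨hζ0, hN0⟩, rfl⟩) ?_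
    rintro y ⟨hy1, ζ, ⟨hζ1, hζ2⟩, hy2⟩
    refine ⟨ζ, hζ1, hNi hζ2 hy1 hy2⟩

/-- points of the circle stay on the circle -/
theorem FD.circle_iter (d : FD q q') {z ζ : ℂ} (h1 : ‖ζ‖ = 1) (h : z = d.χ ζ) (n : ℕ) :
    ∃ ξ : ℂ, ‖ξ‖ = 1 ∧ (fun w => q.h.eval w)^[n] z = d.χ ξ := by
  induction n with
  | zero => exact ⟨ζ, h1, h⟩
  | succ n ih =>
    obtain ⟨ξ, hξ, he⟩ := ih
    refine ⟨ξ ^ 2, f9_sq_norm hξ, ?_⟩
    rw [Function.iterate_succ_apply', he]
    exact d.mb.conjF ξ (by rw [mem_closedBall, dist_zero_right]; exact hξ.le)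

/-- a point entering the open basin at time `n` and not before has not met the closed basin -/
theorem FD.first_entry (d : FD q q') {n : ℕ} {u : ℂ}
    (hu : (fun w => q.h.eval w)^[n] u ∈ d.χ '' ball 0 1)
    (hm : ∀ m < n, (fun w => q.h.eval w)^[m] u ∉ d.χ '' ball 0 1) :
    ∀ m < n, (fun w => q.h.eval w)^[m] u ∉ d.χ '' closedBall 0 1 := by
  rintro m hmn ⟨ζ, hζ, he⟩
  rw [mem_closedBall, dist_zero_right] at hζ
  rcases lt_or_eq_of_le hζ with h1 | h1
  · apply hm m hmn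
    exact ⟨ζ, by rwa [mem_ball, dist_zero_right], he⟩
  · obtain ⟨ξ, hξ, he2⟩ := d.circle_iter h1 he.symm (n - m)
    rw [← Function.iterate_add_apply, Nat.sub_add_cancel hmn.le] at he2
    rw [he2] at hu
    obtain ⟨η, hη, h0⟩ := hu
    have h2 : η = ξ := d.mb.inj (ball_subset_closedBall hη)
      (by rw [mem_closedBall, dist_zero_right]; exact hξ.le) h0
    rw [mem_ball, dist_zero_right, h2, hξ] at hη
    exact lt_irrefl _ hη

theorem FD.par_image_closed (d : FD q q') {n : ℕ} {s : ℂ → ℂ} (h : Par q d.χ n s) :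
    IsClosed (s '' closedBall 0 1) :=
  ((isCompact_closedBall 0 1).image_of_continuousOn h.cont).isClosed

theorem FD.par_closure (d : FD q q') {n : ℕ} {s : ℂ → ℂ} (h : Par q d.χ n s) :
    closure (s '' ball 0 1) = s '' closedBall 0 1 := by
  apply Subset.antisymm
  · exact closure_minimal (image_mono ball_subset_closedBall) (d.par_image_closed h)
  · have h1 : closure (ball (0 : ℂ) 1) = closedBall 0 1 := closure_ball 0 one_ne_zero
    have h2 := ContinuousOn.image_closure (f := s) (s := ball (0 : ℂ) 1) (by rw [h1]; exact h.cont)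
    rwa [h1] at h2

/-- the component of a point of a parametrised preimage -/
theorem FD.par_comp (d : FD q q') {n : ℕ} {s : ℂ → ℂ} (h : Par q d.χ n s) {ζ0 : ℂ}
    (hζ0 : ζ0 ∈ ball (0 : ℂ) 1) :
    connectedComponentIn ((fun w => q.h.eval w)^[n] ⁻¹' (d.χ '' ball 0 1)) (s ζ0) =
      s '' ball 0 1 := by
  have hsub : s '' ball 0 1 ⊆ (fun w => q.h.eval w)^[n] ⁻¹' (d.χ '' ball 0 1) := by
    rintro _ ⟨ζ, hζ, rfl⟩
    rw [mem_preimage, h.eq ζ (ball_subset_closedBall hζ)]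
    exact ⟨ζ, hζ, rfl⟩
  apply Subset.antisymm
  · have hpre : IsPreconnected (connectedComponentIn
        ((fun w => q.h.eval w)^[n] ⁻¹' (d.χ '' ball 0 1)) (s ζ0)) :=
      isPreconnected_connectedComponentIn
    have hmem : s ζ0 ∈ connectedComponentIn
        ((fun w => q.h.eval w)^[n] ⁻¹' (d.χ '' ball 0 1)) (s ζ0) :=
      mem_connectedComponentIn (hsub ⟨ζ0, hζ0, rfl⟩)
    refine IsPreconnected.subset_left_of_subset_union (d.par_open h isOpen_ball Subset.rfl)
      (d.par_image_closed h).isOpen_compl ?_ ?_ ⟨s ζ0, hmem, ζ0, hζ0, rfl⟩ hpre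
    · rw [Set.disjoint_left]
      rintro y hy hy'
      exact hy' (image_mono ball_subset_closedBall hy)
    · intro y hy
      have hyW := connectedComponentIn_subset _ _ hy
      by_cases h1 : y ∈ s '' closedBall 0 1
      · left
        obtain ⟨ζ, hζ, rfl⟩ := h1
        rw [mem_preimage, h.eq ζ hζ] at hyW
        obtain ⟨η, hη, h0⟩ := hyW
        have := d.mb.inj (ball_subset_closedBall hη) hζ h0
        rw [this] at hη
        exact ⟨ζ, hη, rfl⟩
      · right
        exact h1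
  · apply IsPreconnected.subset_connectedComponentIn
    · exact (convex_ball (0 : ℂ) 1).isPreconnected.image _ (h.cont.mono ball_subset_closedBall)
    · exact ⟨ζ0, hζ0, rfl⟩
    · exact hsub

/-- `U` is a preimage of depth `n` iff it is the image of the open disc by a parametrised
preimage -/
theorem FD.preimage_iff (d : FD q q') (hB : d.χ '' ball 0 1 = immBasin q.h q.r) (n : ℕ)
    (U : Set ℂ) : IsPreimage q.h q.r n U ↔ ∃ s, Par q d.χ n s ∧ U = s '' ball 0 1 := by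
  unfold IsPreimage
  rw [← hB]
  constructor
  · rintro ⟨u, hu, hm, hU⟩
    have hm' := d.first_entry hu hm
    obtain ⟨s, hs, ζ, hζ, hsz⟩ := d.exists_par n (image_mono ball_subset_closedBall hu) hm'
    refine ⟨s, hs, ?_⟩
    have hζ' : ζ ∈ ball (0 : ℂ) 1 := by
      rw [← hsz, hs.eq ζ hζ] at hu
      obtain ⟨η, hη, h0⟩ := hu
      have := d.mb.inj (ball_subset_closedBall hη) hζ h0
      rwa [this] at hη
    rw [hU, ← hsz]
    exact d.par_comp hs hζ'
  · rintro ⟨s, hs, hU⟩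
    have h0 : (0 : ℂ) ∈ ball (0 : ℂ) 1 := by simp
    refine ⟨s 0, ?_, fun m hm hmem => ?_, ?_⟩
    · rw [hs.eq 0 (ball_subset_closedBall h0)]
      exact ⟨0, h0, rfl⟩
    · exact hs.out m hm 0 (ball_subset_closedBall h0) (image_mono ball_subset_closedBall hmem)
    · rw [hU]
      exact (d.par_comp hs h0).symm

theorem FD.rel_iff (d : FD q q') (hB : d.χ '' ball 0 1 = immBasin q.h q.r) (x y : ℂ) :
    RayRel q.h q.r (-2) (fun ζ => ζ + ζ⁻¹) d.χ x y ↔ d.Cls x y := by
  unfold RayRel FD.Cls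
  constructor
  · rintro (h | ⟨n, U, hU, hx, hy, ζ, hζ, ζ', hζ', w, h1, h2, h3, h4⟩)
    · exact Or.inl h
    · right
      obtain ⟨s, hs, rfl⟩ := (d.preimage_iff hB n U).1 hU
      rw [d.par_closure hs] at hx hy
      obtain ⟨ξ, hξ, rfl⟩ := hx
      obtain ⟨ξ', hξ', rfl⟩ := hy
      rw [hs.eq ξ hξ] at h1
      rw [hs.eq ξ' hξ'] at h2
      have e1 := d.mb.inj hξ hζ h1
      have e2 := d.mb.inj hξ' hζ' h2
      rw [lands_iff hζ] at h3
      rw [lands_iff hζ'] at h4
      refine ⟨n, s, hs, ξ, hξ, ξ', hξ', rfl, rfl, ?_⟩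
      rw [e1, e2]
      exact_mod_cast (h3.symm.trans h4)
  · rintro (h | ⟨n, s, hs, ζ, hζ, ζ', hζ', rfl, rfl, he⟩)
    · exact Or.inl h
    · right
      refine ⟨n, s '' ball 0 1, (d.preimage_iff hB n _).2 ⟨s, hs, rfl⟩, ?_, ?_, ζ, hζ, ζ', hζ',
        (lvd ζ : ℝ), hs.eq ζ hζ, hs.eq ζ' hζ', ?_, ?_⟩
      · rw [d.par_closure hs]; exact ⟨ζ, hζ, rfl⟩
      · rw [d.par_closure hs]; exact ⟨ζ', hζ', rfl⟩
      · rw [lands_iff hζ]
      · rw [lands_iff hζ', he]

end

end Pool.TU
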