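import Pool.Agent.Helper71.TU.G6

/-! # TU G7: the immediate basin -/

open Complex Set Filter Topology Metric Polynomial ComplexConjugate Pool.Tuning

namespace Pool.TU

noncomputable section

theorem G7_conj_mem {ζ : ℂ} (h : ζ ∈ closedBall (0 : ℂ) 1) :
    ζ ∈ HD ∨ conj ζ ∈ HD := by
  rw [mem_closedBall_zero_iff] at h
  rcases le_total 0 ζ.im with h0 | h0
  · exact Or.inl ⟨h, h0⟩
  · right
    refine ⟨by rwa [Complex.norm_conj], ?_⟩
    rw [Complex.conj_im]
    linarith

/-- the critical value is not in the image of the marking -/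
theorem G7_nv (q : RQ) {S : TS} {A : XS S} {B : Br S A} {D : BD B}
    {χ : ℂ → ℂ} (h : MB q D χ) {ζ : ℂ} (hζ : ζ ∈ closedBall (0 : ℂ) 1) : χ ζ ≠ q.v := by
  intro he
  rcases G7_conj_mem hζ with h1 | h1
  · have h2 := h.disc ζ h1
    rw [he, mm_self q.vpos] at h2
    exact Complex.exp_ne_zero _ h2.symm
  · have h2 := h.mem _ h1
    rw [h.sym ζ hζ, he] at h2
    have h3 : 0 ≤ (conj q.v).im := h2
    rw [Complex.conj_im] at h3
    linarith [q.vpos]

theorem G7_iter (q : RQ) {S : TS} {A : XS S} {B : Br S A} {D : BD B}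
    {χ : ℂ → ℂ} (h : MB q D χ) (n : ℕ) : ∀ {ζ : ℂ}, ζ ∈ closedBall (0 : ℂ) 1 →
      (fun w => q.h.eval w)^[n] (χ ζ) = χ (ζ ^ (2 ^ n)) := by
  induction n with
  | zero => intro ζ _; simp
  | succ n ih =>
    intro ζ hζ
    have h2 : ζ ^ 2 ∈ closedBall (0 : ℂ) 1 := by
      rw [mem_closedBall_zero_iff] at hζ ⊢
      rw [norm_pow]
      exact pow_le_one₀ (norm_nonneg _) hζ
    rw [Function.iterate_succ_apply, h.conjF ζ hζ, ih h2]
    congr 1
    rw [← pow_mul, ← pow_succ']

theorem G7_holo (q : RQ) {S : TS} {A : XS S} {B : Br S A} {D : BD B}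
    {χ : ℂ → ℂ} (h : MB q D χ) {L : LB B} (hL : LBq q L)
    (hLD : ∀ ζ ∈ HB L.r0, D.c ζ = L.c ζ) : DifferentiableOn ℂ χ (ball 0 1) := by
  obtain ⟨χ0, hd, hc, h0, hm, he⟩ := hL.holo
  have hball : ball (0 : ℂ) L.r0 ⊆ closedBall 0 1 := by
    intro x hx
    rw [mem_ball_zero_iff] at hx
    rw [mem_closedBall_zero_iff]
    linarith [L.lt]
  have hup : ∀ ζ ∈ ball (0 : ℂ) L.r0, 0 ≤ ζ.im → χ ζ = χ0 ζ := by
    intro ζ hζ him
    have hζ1 : ζ ∈ HD := ⟨mem_closedBall_zero_iff.1 (hball hζ), him⟩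
    apply mm_inj q.vpos (h.mem ζ hζ1) (hm ζ hζ him).1
    rw [h.disc ζ hζ1, (hm ζ hζ him).2, hLD ζ ⟨(mem_ball_zero_iff.1 hζ).le, him⟩]
  have heq : ∀ ζ ∈ ball (0 : ℂ) L.r0, χ ζ = χ0 ζ := by
    intro ζ hζ
    rcases le_total 0 ζ.im with h1 | h1
    · exact hup ζ hζ h1
    · have hζc : conj ζ ∈ ball (0 : ℂ) L.r0 := by
        rw [mem_ball_zero_iff] at hζ ⊢
        rwa [Complex.norm_conj]
      have h2 := hup (conj ζ) hζc (by rw [Complex.conj_im]; linarith)
      rw [h.sym ζ (hball hζ), hc ζ hζ] at h2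
      exact (starRingEnd ℂ).injective h2
  have key : ∀ n : ℕ, ∀ ζ ∈ ball (0 : ℂ) 1, ‖ζ‖ ^ (2 ^ n) < L.r0 → DifferentiableAt ℂ χ ζ := by
    intro n
    induction n with
    | zero =>
      intro ζ _ hζ
      rw [pow_zero, pow_one] at hζ
      have hζ' : ζ ∈ ball (0 : ℂ) L.r0 := mem_ball_zero_iff.2 hζ
      have h1 : DifferentiableAt ℂ χ0 ζ := hd.differentiableAt (isOpen_ball.mem_nhds hζ')
      apply h1.congr_of_eventuallyEq
      filter_upwards [isOpen_ball.mem_nhds hζ'] with x hx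
      exact heq x hx
    | succ n ih =>
      intro ζ hζ1 hζ
      by_cases hz : ζ = 0
      · refine ih ζ hζ1 ?_
        rw [hz, norm_zero, zero_pow (by positivity)]
        exact L.pos
      · have hζcb : ζ ∈ closedBall (0 : ℂ) 1 := ball_subset_closedBall hζ1
        have hζn := mem_ball_zero_iff.1 hζ1
        have h2b : ζ ^ 2 ∈ ball (0 : ℂ) 1 := by
          rw [mem_ball_zero_iff, norm_pow]
          exact pow_lt_one₀ (norm_nonneg _) hζn two_ne_zero
        have h2c : ζ ^ 2 ∈ closedBall (0 : ℂ) 1 := ball_subset_closedBall h2b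
        have h3 : DifferentiableAt ℂ χ (ζ ^ 2) := by
          apply ih _ h2b
          rw [norm_pow, ← pow_mul, ← pow_succ']
          exact hζ
        have h4 : DifferentiableAt ℂ (fun x => χ (x ^ 2)) ζ :=
          DifferentiableAt.comp ζ h3 (by fun_prop)
        have hne : q.h.derivative.eval (χ ζ) ≠ 0 := by
          intro hcon
          rcases (q.crit_iff _).1 hcon with h5 | h5 | h5
          · rw [← h.zero] at h5
            exact hz (h.inj hζcb (by simp) h5)
          · apply G7_nv q h h2c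
            rw [← h.conjF ζ hζcb, h5]
            rfl
          · have h6 : conj (ζ ^ 2) ∈ closedBall (0 : ℂ) 1 := by
              rw [mem_closedBall_zero_iff] at h2c ⊢
              rwa [Complex.norm_conj]
            apply G7_nv q h h6
            rw [h.sym _ h2c, ← h.conjF ζ hζcb, h5, q.h_conj, Complex.conj_conj]
            rfl
        have hs : HasStrictDerivAt (fun x => q.h.eval x) (q.h.derivative.eval (χ ζ)) (χ ζ) :=
          q.h.hasStrictDerivAt _
        have hleft := hs.eventually_left_inverse hne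
        have hinv := (hs.to_localInverse hne).hasDerivAt.differentiableAt
        have hχc : ContinuousAt χ ζ := by
          exact (h.cont ζ hζcb).continuousAt
            (Filter.mem_of_superset (isOpen_ball.mem_nhds hζ1) ball_subset_closedBall)
        have h7 := hχc.eventually hleft
        have h8 : DifferentiableAt ℂ (fun x => (hs.localInverse _ _ _ hne) (χ (x ^ 2))) ζ := by
          apply DifferentiableAt.comp ζ _ h4
          rw [← h.conjF ζ hζcb]
          exact hinv
        apply h8.congr_of_eventuallyEq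
        filter_upwards [h7, isOpen_ball.mem_nhds hζ1] with x hx hx1
        rw [← h.conjF x (ball_subset_closedBall hx1)]
        exact hx.symm
  intro ζ hζ
  have hζn := mem_ball_zero_iff.1 hζ
  have h1 : Tendsto (fun n : ℕ => ‖ζ‖ ^ (2 ^ n)) atTop (𝓝 0) :=
    (tendsto_pow_atTop_nhds_zero_of_lt_one (norm_nonneg _) hζn).comp
      (tendsto_pow_atTop_atTop_of_one_lt (by norm_num : 1 < 2))
  obtain ⟨n, hn⟩ := (h1.eventually (gt_mem_nhds L.pos)).exists
  exact (key n ζ hζ hn).differentiableWithinAt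

theorem G7_img (q : RQ) {S : TS} {A : XS S} {B : Br S A} {D : BD B}
    {χ : ℂ → ℂ} (h : MB q D χ) : χ '' ball 0 1 = immBasin q.h q.r := by
  have hsub : ball (0 : ℂ) 1 ⊆ closedBall 0 1 := ball_subset_closedBall
  have h0b : (0 : ℂ) ∈ ball (0 : ℂ) 1 := mem_ball_self one_pos
  have hcont0 : ContinuousAt χ 0 :=
    (h.cont 0 (hsub h0b)).continuousAt (Filter.mem_of_superset (isOpen_ball.mem_nhds h0b) hsub)
  have hpow : ∀ ζ ∈ ball (0 : ℂ) 1, Tendsto (fun n : ℕ => ζ ^ (2 ^ n)) atTop (𝓝 0) := by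
    intro ζ hζ
    have hζn := mem_ball_zero_iff.1 hζ
    exact (tendsto_pow_atTop_nhds_zero_of_norm_lt_one hζn).comp
      (tendsto_pow_atTop_atTop_of_one_lt (by norm_num : 1 < 2))
  apply Set.Subset.antisymm
  · apply IsPreconnected.subset_connectedComponentIn
    · exact (convex_ball (0 : ℂ) 1).isPreconnected.image χ (h.cont.mono hsub)
    · exact ⟨0, h0b, h.zero⟩
    · rintro _ ⟨ζ, hζ, rfl⟩
      show Tendsto (fun n : ℕ => (fun w => q.h.eval w)^[n] (χ ζ)) atTop (𝓝 (q.r : ℂ))
      have h1 : (fun n : ℕ => (fun w => q.h.eval w)^[n] (χ ζ)) = fun n : ℕ => χ (ζ ^ (2 ^ n)) := by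
        funext n
        exact G7_iter q h n (hsub hζ)
      rw [h1, ← h.zero]
      exact hcont0.tendsto.comp (hpow ζ hζ)
  · have hK : IsClosed (χ '' closedBall 0 1) :=
      ((isCompact_closedBall (0 : ℂ) 1).image_of_continuousOn h.cont).isClosed
    have hconn : IsPreconnected (immBasin q.h q.r) := isPreconnected_connectedComponentIn
    have hbas : immBasin q.h q.r ⊆ basin q.h q.r := connectedComponentIn_subset _ _
    have hr : (q.r : ℂ) ∈ basin q.h q.r := by
      show Tendsto (fun n : ℕ => (fun w => q.h.eval w)^[n] (q.r : ℂ)) atTop (𝓝 (q.r : ℂ))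
      have h1 : (fun n : ℕ => (fun w => q.h.eval w)^[n] (q.r : ℂ)) = fun n : ℕ => (q.r : ℂ) := by
        funext n
        have h2 := G7_iter q h n (hsub h0b)
        rw [h.zero, zero_pow (by positivity), h.zero] at h2
        exact h2
      rw [h1]
      exact tendsto_const_nhds
    have hrm : (q.r : ℂ) ∈ immBasin q.h q.r := mem_connectedComponentIn hr
    have hsphere : ∀ ζ : ℂ, ‖ζ‖ = 1 → χ ζ ∉ basin q.h q.r := by
      intro ζ hζ hcon
      have hcon' : Tendsto (fun n : ℕ => (fun w => q.h.eval w)^[n] (χ ζ)) atTop (𝓝 (q.r : ℂ)) :=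
        hcon
      have hcl : IsClosed (χ '' sphere 0 1) := by
        apply IsCompact.isClosed
        exact (isCompact_sphere (0 : ℂ) 1).image_of_continuousOn
          (h.cont.mono sphere_subset_closedBall)
      have hmem : (q.r : ℂ) ∈ χ '' sphere 0 1 := by
        refine hcl.mem_of_tendsto hcon' (Filter.Eventually.of_forall fun n => ?_)
        rw [G7_iter q h n (mem_closedBall_zero_iff.2 hζ.le)]
        refine ⟨_, ?_, rfl⟩
        rw [mem_sphere_zero_iff_norm, norm_pow, hζ, one_pow]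
      obtain ⟨η, hη, hηr⟩ := hmem
      rw [← h.zero] at hηr
      have h3 := h.inj (sphere_subset_closedBall hη) (hsub h0b) hηr
      rw [mem_sphere_zero_iff_norm, h3, norm_zero] at hη
      exact zero_ne_one hη
    refine IsPreconnected.subset_left_of_subset_union h.opn hK.isOpen_compl ?_ ?_ ?_ hconn
    · rw [Set.disjoint_left]
      rintro x ⟨ζ, hζ, rfl⟩ hx
      exact hx ⟨ζ, hsub hζ, rfl⟩
    · intro x hx
      by_cases hxK : x ∈ χ '' closedBall 0 1
      · obtain ⟨ζ, hζ, rfl⟩ := hxK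
        rw [mem_closedBall_zero_iff] at hζ
        rcases hζ.lt_or_eq with h1 | h1
        · exact Or.inl ⟨ζ, mem_ball_zero_iff.2 h1, rfl⟩
        · exact absurd (hbas hx) (hsphere ζ h1)
      · exact Or.inr hxK
    · exact ⟨q.r, hrm, 0, h0b, h.zero⟩

/-- the image of the open disc is the immediate basin, `χ` is a marking -/
theorem MB.marking (q : RQ) {S : TS} (hS : IsTS q S) {A : XS S} {B : Br S A} {D : BD B}
    {χ : ℂ → ℂ} (h : MB q D χ) (hfix : q.p.eval q.r = q.r) {L : LB B} (hL : LBq q L)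
    (hLD : ∀ ζ ∈ HB L.r0, D.c ζ = L.c ζ) :
    IsMarking q.h q.r χ ∧ χ '' ball 0 1 = immBasin q.h q.r :=
  ⟨⟨h.cont, h.inj, G7_holo q h hL hLD, G7_img q h, h.conjF⟩, G7_img q h⟩

end

end Pool.TU
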