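import Pool.Agent.Helper71.TU.AllDefs

/-! # TU R0: the ray relation and the closed equivalence relation generated by it -/

open Complex Set Filter Topology Metric Polynomial ComplexConjugate Pool.Tuning

namespace Pool.TU

noncomputable section

/-- If the ray relation is the fibre relation of a continuous map, it is already the smallest
closed equivalence relation containing it. -/
theorem rayEq_of {P : ℂ[X]} {ω c : ℂ} {ψ χ q : ℂ → ℂ} (hq : Continuous q)
    (h : ∀ x y, q x = q y ↔ RayRel P ω c ψ χ x y) (x y : ℂ) :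
    q x = q y ↔ RayEq P ω c ψ χ x y := by
  constructor
  · intro hxy r _ _ h3
    exact h3 _ _ ((h x y).1 hxy)
  · intro hxy
    refine hxy (fun a b => q a = q b) ⟨fun _ => rfl, fun e => e.symm, fun e e' => e.trans e'⟩
      ?_ fun a b hab => (h a b).2 hab
    exact isClosed_eq (hq.comp continuous_fst) (hq.comp continuous_snd)

theorem rayEq_mono {P : ℂ[X]} {ω c : ℂ} {ψ χ ψ' χ' : ℂ → ℂ}
    (h : ∀ x y, RayRel P ω c ψ' χ' x y → RayRel P ω c ψ χ x y) {x y : ℂ}
    (hxy : RayEq P ω c ψ' χ' x y) : RayEq P ω c ψ χ x y :=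
  fun r h1 h2 h3 => hxy r h1 h2 fun a b hab => h3 a b (h a b hab)

end

end Pool.TU
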