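import Pool.Agent.Helper71.TU.F13
import Pool.Agent.Helper71.TU.F9
import Pool.Agent.Helper71.TU.G7
import Pool.Agent.Helper71.TU.R0

/-! # TU F14: tuning -/

open Complex Set Filter Topology Metric Polynomial ComplexConjugate Pool.Tuning

namespace Pool.TU

noncomputable section

variable {q q' : RQ}

theorem FD.tuned (d : FD q q') : Tuned q.h q.r (-2) q'.h := by
  obtain ⟨hm, hB⟩ := MB.marking q d.hS d.mb d.fix d.hL d.hD
  exact ⟨fun ζ => ζ + ζ⁻¹, d.χ, d.Tp, d.Pi, exists_bottcher2, hm, d.Tp_glued hm, d.Pi_quot,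
    d.Pi_semi, rayEq_of d.Pi_cont fun x y => ⟨fun h => (d.rel_iff hB x y).mpr (d.fiber h),
      fun h => d.Pi_cls ((d.rel_iff hB x y).mp h)⟩⟩

end

end Pool.TU
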