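import Pool.Agent.Helper71.TU.F1

/-! # TU F2: codes -/

open Complex Set Filter Topology Metric Polynomial ComplexConjugate Pool.Tuning

namespace Pool.TU

noncomputable section

variable {q q' : RQ}

/-- one letter -/
theorem FD.step (d : FD q q') {v u : ℂ} (hv : v ∈ OO d.A.Xo) (hB : exp v ∉ d.D.Bo)
    (hF : d.S.F (exp v) ∉ d.A.Xo) (hFB : d.S.F (exp v) ∉ d.D.Bo) (hu : u ∈ UU)
    (he : exp u = d.S.F (exp v)) : ∃ l, v = d.B.ap l u ∧ d.H v = d.E.ap l (d.H u) := by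
  have _ := hB
  obtain ⟨l, hl⟩ := d.B.cover hv hF hu he
  have huO : u ∈ OO d.A.Xo := ⟨hu, by rw [he]; exact hF⟩
  have huO' : u ∈ OO d.A'.Xo := by rw [d.hT.Xo_eq]; exact huO
  refine ⟨l, hl, ?_⟩
  have h1 := d.hT.ap_out l u huO (by rw [he]; exact hFB)
  have h2 := ap_hat d.B' d.E d.hE.rm.toRMap d.hE.hat d.hE.rm.cont d.hE.lift d.hE.hat
    d.hE.toInv.mapsO l u huO'
  rw [h1, ← hl] at h2
  exact h2

private theorem f2_half_norm {p : ℂ} {k : ℤ} (h : ‖exp ((p + k * tpi) / 2)‖ = 1) :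
    ‖exp p‖ = 1 := by
  have h1 : exp ((p + k * tpi) / 2) ^ 2 = exp p := by
    rw [← Complex.exp_nat_mul, ← A8_exp_add p k]
    congr 1
    push_cast
    ring
  rw [← h1, norm_pow, h, one_pow]

private theorem f2_shift_inj {p : ℂ} {k k' : ℤ} (h : p + k * tpi = p + k' * tpi) : k = k' := by
  have h1 : (k : ℂ) * tpi = k' * tpi := add_left_cancel h
  exact_mod_cast mul_right_cancel₀ a7_tpi_ne h1

/-- the letter is determined by the value, nonreal case -/
theorem letter_unique {g : TS} {G : XS g} (E : Br g G) {p : ℂ} (hp : p ∈ OO G.Xo)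
    (h : ‖exp p‖ ≠ 1) {l l' : Ltr} (he : E.ap l p = E.ap l' p) : l = l' := by
  have hpD : exp p ∈ DD := A8_exp_mem hp.1
  have h1 : exp p ≠ 1 := by
    intro h1
    apply h
    rw [h1, norm_one]
  have hs : ∀ k : ℤ, exp ((p + k * tpi) / 2) ∈ DD := fun k =>
    A8_exp_mem (A8_half_mem (A8_add_UU hp.1 k))
  have e1 : ∀ k : ℤ, exp (E.ap (Ltr.P k) p) = g.Θ (exp ((p + k * tpi) / 2)) := fun k =>
    E.expΦ _ (A8_add_OO hp k)
  have e2 : ∀ k : ℤ, exp (E.ap (Ltr.Q2 k) p) = g.G2 (exp p) := fun k => by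
    show exp (E.g2 (exp p) + k * tpi) = _
    rw [A8_exp_add, E.exp2 _ hpD]
  have e4 : ∀ k : ℤ, exp (E.ap (Ltr.Q4 k) p) = g.G4 (exp p) := fun k => by
    show exp (E.g4 (exp p) + k * tpi) = _
    rw [A8_exp_add, E.exp4 _ hpD]
  have c12 : ∀ k k' : ℤ, E.ap (Ltr.P k) p ≠ E.ap (Ltr.Q2 k') p := by
    intro k k' hc
    have h2 := e1 k
    rw [hc, e2 k'] at h2
    obtain ⟨θ, _, h3⟩ := g.sep2 _ (hs k) _ hpD h2.symm
    apply h
    apply f2_half_norm (k := k)
    rw [h3, norm_neg, norm_ec]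
  have c14 : ∀ k k' : ℤ, E.ap (Ltr.P k) p ≠ E.ap (Ltr.Q4 k') p := by
    intro k k' hc
    have h2 := e1 k
    rw [hc, e4 k'] at h2
    apply h
    apply f2_half_norm (k := k)
    rcases g.sep4 _ (hs k) _ hpD h2.symm with h3 | ⟨θ, _, h3⟩
    · rw [h3, norm_neg, norm_one]
    · rw [h3, norm_ec]
  have c24 : ∀ k k' : ℤ, E.ap (Ltr.Q2 k) p ≠ E.ap (Ltr.Q4 k') p := by
    intro k k' hc
    have h2 := e2 k
    rw [hc, e4 k'] at h2
    exact h1 (g.sep24 _ hpD _ hpD h2.symm).1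
  rcases l with k | k | k <;> rcases l' with k' | k' | k'
  · have h2 := E.Φ_inj (A8_add_OO hp k) (A8_add_OO hp k') he (by rw [A8_exp_add]; exact h1)
    rw [f2_shift_inj h2]
  · exact absurd he (c12 k k')
  · exact absurd he (c14 k k')
  · exact absurd he.symm (c12 k' k)
  · rw [f2_shift_inj (p := E.g2 (exp p)) he]
  · exact absurd he (c24 k k')
  · exact absurd he.symm (c14 k' k)
  · exact absurd he.symm (c24 k' k)
  · rw [f2_shift_inj (p := E.g4 (exp p)) he]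

private theorem f2_ec_ne {θ : ℝ} (hθ : θ ∈ Ioo 0 (2 * Real.pi)) : ec θ ≠ 1 := by
  intro h
  have h1 : ec θ = ec 0 := by rw [h, A4_ec_zero]
  have hpi := Real.pi_pos
  have := ec_inj' ⟨hθ.1.le, hθ.2⟩ ⟨le_rfl, by positivity⟩ h1
  exact hθ.1.ne' this

private theorem f2_int {k : ℤ} {x y : ℝ} (hx : x = y + 2 * Real.pi * k)
    (h1 : x - y < 2 * Real.pi) (h2 : y - x < 2 * Real.pi) : k = 0 := by
  have hpi := Real.pi_pos
  have h3 : (k : ℝ) < 1 := by
    by_contra hc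
    rw [not_lt] at hc
    nlinarith
  have h4 : (-1 : ℝ) < k := by
    by_contra hc
    rw [not_lt] at hc
    nlinarith
  have h5 : k < 1 := by exact_mod_cast h3
  have h6 : -1 < k := by exact_mod_cast h4
  omega

private theorem f2_letter {g : TS} {G : XS g} (E : Br g G) {θ φ : ℝ}
    (hθ : θ ∈ Ioo 0 (2 * Real.pi)) (hφ : φ ∈ Ioo 0 (2 * Real.pi))
    (hO : (θ : ℂ) * I ∈ OO G.Xo) {l : Ltr} (h : E.ap l (θ * I) = φ * I) :
    (l = Ltr.P 0 ∧ g.ω₀ ≤ φ) ∨ (l = Ltr.Q4 0 ∧ φ ≤ g.ω₀) := by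
  have hpi := Real.pi_pos
  have hκ := g.κ_mem
  have hω := g.ω₀_mem
  rcases l with k | k | k
  · left
    have h1 : (θ : ℂ) * I + k * tpi = ((θ + 2 * Real.pi * k : ℝ) : ℂ) * I := by
      unfold tpi
      push_cast
      ring
    have h2 : E.b (θ + 2 * Real.pi * k) = φ * I := by
      rw [← E.bdΦ _ (by rw [← h1]; exact A8_add_OO hO k), ← h1]
      exact h
    have h3 : g.Θ (ec ((θ + 2 * Real.pi * k) / 2)) = ec φ := by
      rw [← E.bd.exp_eq, h2, ec]
    rcases g.circΘ _ (A4_ec_mem _) (by rw [h3, norm_ec]) with h4 | ⟨θ', hθ', h4⟩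
    · exfalso
      rw [h4, g.Θone] at h3
      exact f2_ec_ne hφ h3.symm
    · obtain ⟨m, hm⟩ := ec_eq_iff h4
      have h5 : θ + 2 * Real.pi * k = 4 * Real.pi * m + θ' := by linarith
      rw [h5, A4_bd_shift_int E.bd, bd_rp E.bd _ hθ'] at h2
      have h6 : φ = g.rp θ' + 2 * Real.pi * m := by
        have := congrArg Complex.im h2
        have h7 : ((m : ℂ) * tpi).im = 2 * Real.pi * m := by
          rw [← A8_ktpi]
          simp
        rw [Complex.add_im, h7] at this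
        simpa using this.symm
      have hr := g.rp_mem _ hθ'
      have hm0 : m = 0 := by
        apply f2_int h6
        · linarith [hr.1, hφ.2, hω.1]
        · linarith [hr.2, hφ.1]
      rw [hm0] at h5 h6
      have h8 : θ' = θ + 2 * Real.pi * k := by
        rw [h5]
        simp
      have hk0 : k = 0 := by
        apply f2_int h8
        · linarith [hθ'.2, hθ.1]
        · linarith [hθ'.1, hθ.2, hκ.1]
      refine ⟨by rw [hk0], ?_⟩
      rw [h6]
      simp only [Int.cast_zero, mul_zero, add_zero]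
      exact hr.1
  · exfalso
    have h1 : g.G2 (ec θ) = ec φ := by
      rw [← E.exp2 _ (A4_ec_mem θ), ← A8_exp_add _ k]
      show exp (E.ap (Ltr.Q2 k) (θ * I)) = exp (φ * I)
      rw [h]
    have h2 := g.circ2 _ (A4_ec_mem θ) (by rw [h1, norm_ec])
    exact f2_ec_ne hθ h2
  · right
    have h1 : g.G4 (ec θ) = ec φ := by
      rw [← E.exp4 _ (A4_ec_mem θ), ← A8_exp_add _ k]
      show exp (E.ap (Ltr.Q4 k) (θ * I)) = exp (φ * I)
      rw [h]
    obtain ⟨θ', hθ', h2⟩ := g.circ4 _ (A4_ec_mem θ) (by rw [h1, norm_ec])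
    have h3 : θ = θ' := ec_inj ⟨hθ.1, hθ.2.le⟩ ⟨by linarith [hθ'.1, hκ.1], hθ'.2⟩ h2
    rw [← h3] at hθ'
    have h4 := (A4_bd_g4 E.bd E.cont4 E.exp4 E.one4).2 θ hθ'
    have h5 : E.g4 (ec θ) + k * tpi = φ * I := h
    rw [h4] at h5
    have h6 : φ = g.rm θ + 2 * Real.pi * k := by
      have := congrArg Complex.im h5
      have h7 : ((k : ℂ) * tpi).im = 2 * Real.pi * k := by
        rw [← A8_ktpi]
        simp
      rw [Complex.add_im, h7] at this
      simpa using this.symm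
    have hr := g.rm_mem _ hθ'
    have hk0 : k = 0 := by
      apply f2_int h6
      · linarith [hr.1, hφ.2]
      · linarith [hr.2, hφ.1, hω.2]
    refine ⟨by rw [hk0], ?_⟩
    rw [h6, hk0]
    simp only [Int.cast_zero, mul_zero, add_zero]
    exact hr.2

/-- the letter is determined by the value, real case -/
theorem letter_unique_real {g : TS} {G : XS g} (E : Br g G) {θ φ : ℝ}
    (hθ : θ ∈ Ioo 0 (2 * Real.pi)) (hφ : φ ∈ Ioo 0 (2 * Real.pi))
    (hO : (θ : ℂ) * I ∈ OO G.Xo) (hω : φ ≠ g.ω₀) {l l' : Ltr}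
    (h : E.ap l (θ * I) = φ * I) (h' : E.ap l' (θ * I) = φ * I) : l = l' := by
  rcases f2_letter E hθ hφ hO h with ⟨h1, h2⟩ | ⟨h1, h2⟩ <;>
    rcases f2_letter E hθ hφ hO h' with ⟨h3, h4⟩ | ⟨h3, h4⟩
  · rw [h1, h3]
  · exact absurd (le_antisymm h4 h2) hω
  · exact absurd (le_antisymm h2 h4) hω
  · rw [h1, h3]

/-- equal codes of all lengths imply equality -/
theorem FD.code_eq (d : FD q q') {v v' : ℂ} (h : ∀ n, ∃ w u u', w.length = n ∧
    u ∈ OO d.Z ∧ u' ∈ OO d.Z ∧ v = d.B.ev w u ∧ v' = d.B.ev w u' ∧ d.H u = d.H u') :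
    v = v' := by
  obtain ⟨C, hC⟩ := d.hE.bdd
  have hidx := EC.idx_eq d.hE d.he
  obtain ⟨R', hR'⟩ := d.lk (C + C)
  have hsub : ∀ u ∈ OO d.Z, u ∈ OO d.A'.Xo := by
    intro u hu
    refine ⟨hu.1, fun hx => hu.2 ?_⟩
    rw [d.hT.Xo_eq] at hx
    exact Or.inl (Or.inl hx)
  have key : ∀ η : ℝ, 0 < η → ‖v - v'‖ ≤ η := by
    intro η hη
    obtain ⟨N, hN⟩ := d.shS R' η hη
    obtain ⟨w, u, u', hw, hu, hu', hv, hv', hH⟩ := h N
    have h1 := hC u (hsub u hu)
    have h2 := hC u' (hsub u' hu')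
    have h3 : ‖u - u'‖ ≤ C + C := by
      have h4 : u - u' = (d.H u' - u') - (d.H u - u) := by
        rw [hH]
        ring
      rw [h4]
      refine (norm_sub_le _ _).trans ?_
      linarith
    have h5 : d.A.idx u = d.A.idx u' := by
      have h6 := hidx u (hsub u hu)
      have h7 := hidx u' (hsub u' hu')
      rw [d.hT.idx_eq] at h6 h7
      rw [← h6, ← h7, hH]
    obtain ⟨s, hs, hus, hus'⟩ := hR' u hu u' hu' h5 h3
    rw [hv, hv']
    exact hN w hw.ge s hs u hus u' hus'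
  have h0 : ‖v - v'‖ ≤ 0 := le_of_forall_pos_le_add fun η hη => by
    rw [zero_add]
    exact key η hη
  exact sub_eq_zero.1 (norm_le_zero_iff.1 h0)

end

end Pool.TU
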