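import Pool.Agent.Helper71.TU.F2

/-! # TU F3: fibre uniqueness -/

open Complex Set Filter Topology Metric Polynomial ComplexConjugate Pool.Tuning

namespace Pool.TU

noncomputable section

variable {q q' : RQ}

theorem f3_mapsIter {S : TS} {x : ℂ} (hx : x ∈ DD) (k : ℕ) : S.F^[k] x ∈ DD := by
  induction k with
  | zero => exact hx
  | succ k ih =>
    rw [Function.iterate_succ_apply']
    exact S.mapsF ih

theorem f3_R_iter (d : FD q q') {x : ℂ} (hx : x ∈ DD) (hxB : ∀ k, d.S.F^[k] x ∉ d.D.Bo)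
    (k : ℕ) : d.R (d.S.F^[k] x) = d.g.F^[k] (d.R x) := by
  induction k with
  | zero => rfl
  | succ k ih =>
    rw [Function.iterate_succ_apply', Function.iterate_succ_apply',
      ← d.R_F' (f3_mapsIter hx k) (hxB k), ih]

/-- logarithms with prescribed value of the hat -/
theorem f3_log {R H : ℂ → ℂ} (hH : IsHat R H) {x p : ℂ} (hx : x ∈ DD) (h0 : x ≠ 0)
    (hp : exp p = R x) : ∃ v ∈ UU, exp v = x ∧ H v = p := by
  have hv0 : exp (Complex.log x) = x := Complex.exp_log h0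
  have hre : Complex.log x ∈ UU := by
    show (Complex.log x).re ≤ 0
    rw [Complex.log_re]
    apply Real.log_nonpos (norm_nonneg x)
    rw [DD, mem_closedBall, dist_zero_right] at hx
    exact hx
  have h1 : exp (H (Complex.log x)) = exp p := by
    rw [hH.exp_eq _ hre, hv0, hp]
  obtain ⟨n, hn⟩ := Complex.exp_eq_exp_iff_exists_int.1 h1
  refine ⟨Complex.log x + ((-n : ℤ) : ℂ) * tpi, ?_, ?_, ?_⟩
  · show (Complex.log x + ((-n : ℤ) : ℂ) * tpi).re ≤ 0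
    have : (((-n : ℤ) : ℂ) * tpi).re = 0 := by
      simp [tpi]
    rw [add_re, this, add_zero]
    exact hre
  · have h2 : exp (((-n : ℤ) : ℂ) * tpi) = 1 := Complex.exp_int_mul_two_pi_mul_I (-n)
    rw [Complex.exp_add, h2, mul_one, hv0]
  · rw [hat_shift hH _ _ hre, hn]
    simp only [tpi]
    push_cast
    ring

theorem f3_mem_Z (d : FD q q') {x : ℂ} (h1 : x ∉ d.A.Xo ∪ d.M.No) (h2 : x ∉ d.D.Bo) :
    x ∉ d.Z := by
  rintro (h3 | h3)
  · exact h1 h3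
  · exact h2 (d.Do_sub h3)

/-- the case in which the orbits never enter the rigid set or the neighbourhood of infinity -/
theorem f3_core (d : FD q q') {x y : ℂ} (hx : x ∈ DD) (hy : y ∈ DD)
    (hxB : ∀ k, d.S.F^[k] x ∉ d.D.Bo) (hyB : ∀ k, d.S.F^[k] y ∉ d.D.Bo) (h : d.R x = d.R y)
    (hxZ : ∀ k, d.S.F^[k] x ∉ d.A.Xo ∪ d.M.No) (hyZ : ∀ k, d.S.F^[k] y ∉ d.A.Xo ∪ d.M.No)
    (p : ℕ → ℂ) (hp : ∀ k, exp (p k) = d.R (d.S.F^[k] x))
    (hu : ∀ k l l', d.E.ap l (p (k + 1)) = p k → d.E.ap l' (p (k + 1)) = p k → l = l') :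
    x = y := by
  have hH : IsHat d.R d.H := d.hE.hat
  have hxy : ∀ k, d.R (d.S.F^[k] x) = d.R (d.S.F^[k] y) := by
    intro k
    rw [f3_R_iter d hx hxB, f3_R_iter d hy hyB, h]
  have hx0 : ∀ k, d.S.F^[k] x ≠ 0 := by
    intro k hk
    apply hxZ k
    rw [hk]
    exact Or.inl d.A.zero_mem
  have hy0 : ∀ k, d.S.F^[k] y ≠ 0 := by
    intro k hk
    apply hyZ k
    rw [hk]
    exact Or.inl d.A.zero_mem
  have key : ∀ n j : ℕ, ∀ v v' : ℂ, v ∈ UU → v' ∈ UU → exp v = d.S.F^[j] x →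
      exp v' = d.S.F^[j] y → d.H v = p j → d.H v' = p j →
      ∃ w u u', w.length = n ∧ u ∈ OO d.Z ∧ u' ∈ OO d.Z ∧ v = d.B.ev w u ∧
        v' = d.B.ev w u' ∧ d.H u = d.H u' := by
    intro n
    induction n with
    | zero =>
      intro j v v' hv hv' hev hev' hHv hHv'
      refine ⟨[], v, v', rfl, ⟨hv, ?_⟩, ⟨hv', ?_⟩, rfl, rfl, by rw [hHv, hHv']⟩
      · rw [hev]
        exact f3_mem_Z d (hxZ j) (hxB j)
      · rw [hev']
        exact f3_mem_Z d (hyZ j) (hyB j)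
    | succ n ih =>
      intro j v v' hv hv' hev hev' hHv hHv'
      have hFx : d.S.F (exp v) = d.S.F^[j + 1] x := by
        rw [hev, Function.iterate_succ_apply']
      have hFy : d.S.F (exp v') = d.S.F^[j + 1] y := by
        rw [hev', Function.iterate_succ_apply']
      obtain ⟨u, hu1, hu2, hu3⟩ := f3_log hH (f3_mapsIter hx (j + 1)) (hx0 (j + 1))
        (hp (j + 1))
      obtain ⟨u', hu1', hu2', hu3'⟩ := f3_log hH (f3_mapsIter hy (j + 1)) (hy0 (j + 1))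
        ((hp (j + 1)).trans (hxy (j + 1)))
      obtain ⟨l, hl1, hl2⟩ := d.step (v := v) (u := u)
        ⟨hv, by rw [hev]; exact fun hc => hxZ j (Or.inl hc)⟩ (by rw [hev]; exact hxB j)
        (by rw [hFx]; exact fun hc => hxZ (j + 1) (Or.inl hc)) (by rw [hFx]; exact hxB (j + 1))
        hu1 (by rw [hFx]; exact hu2)
      obtain ⟨l', hl1', hl2'⟩ := d.step (v := v') (u := u')
        ⟨hv', by rw [hev']; exact fun hc => hyZ j (Or.inl hc)⟩ (by rw [hev']; exact hyB j)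
        (by rw [hFy]; exact fun hc => hyZ (j + 1) (Or.inl hc)) (by rw [hFy]; exact hyB (j + 1))
        hu1' (by rw [hFy]; exact hu2')
      rw [hHv, hu3] at hl2
      rw [hHv', hu3'] at hl2'
      have hll : l = l' := hu j l l' hl2.symm hl2'.symm
      subst hll
      obtain ⟨w, u2, u2', hw, h3, h4, h5, h6, h7⟩ := ih (j + 1) u u' hu1 hu1' hu2 hu2' hu3 hu3'
      refine ⟨l :: w, u2, u2', by simp [hw], h3, h4, ?_, ?_, h7⟩
      · rw [hl1, h5]
        rfl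
      · rw [hl1', h6]
        rfl
  obtain ⟨v, hv1, hv2, hv3⟩ := f3_log hH hx (hx0 0) (hp 0)
  obtain ⟨v', hv1', hv2', hv3'⟩ := f3_log hH hy (hy0 0) ((hp 0).trans (hxy 0))
  have hvv : v = v' := d.code_eq (fun n => key n 0 v v' hv1 hv1' hv2 hv2' hv3 hv3')
  rw [← hv2, ← hv2', hvv]

theorem f3_circ {g : TS} {z : ℂ} (hz : z ∈ DD) (h : ‖z‖ = 1) : ‖g.F z‖ = 1 := by
  rcases g.cover z hz with ⟨s, hs, rfl⟩ | ⟨w, hw, rfl⟩ | ⟨w, hw, rfl⟩
  · rw [g.FΘ s hs, norm_pow]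
    rcases g.circΘ s hs h with rfl | ⟨θ, -, rfl⟩
    · simp
    · rw [norm_ec]; simp
  · rw [g.F2 w hw, g.circ2 w hw h]
    simp
  · rw [g.F4 w hw]
    obtain ⟨θ, -, rfl⟩ := g.circ4 w hw h
    exact norm_ec θ

/-- the entry case -/
theorem f3_entry (d : FD q q') {x y : ℂ} (hx : x ∈ DD) (hy : y ∈ DD)
    (hxB : ∀ k, d.S.F^[k] x ∉ d.D.Bo) (hyB : ∀ k, d.S.F^[k] y ∉ d.D.Bo) (h : d.R x = d.R y)
    (hback : ∀ k, d.S.F^[k + 1] x = d.S.F^[k + 1] y → d.S.F^[k] x = d.S.F^[k] y)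
    (he : (∃ k, d.S.F^[k] x ∈ d.A.Xo ∪ d.M.No) ∨ ∃ k, d.S.F^[k] y ∈ d.A.Xo ∪ d.M.No) :
    x = y := by
  have hxy : ∀ k, d.R (d.S.F^[k] x) = d.R (d.S.F^[k] y) := by
    intro k
    rw [f3_R_iter d hx hxB, f3_R_iter d hy hyB, h]
  have hk : ∃ k, d.S.F^[k] x = d.S.F^[k] y := by
    rcases he with ⟨k, hk⟩ | ⟨k, hk⟩
    · exact ⟨k, d.entry (f3_mapsIter hx k) (f3_mapsIter hy k) (hxy k) hk⟩
    · exact ⟨k, (d.entry (f3_mapsIter hy k) (f3_mapsIter hx k) (hxy k).symm hk).symm⟩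
  obtain ⟨k, hk⟩ := hk
  have : ∀ k, d.S.F^[k] x = d.S.F^[k] y → x = y := by
    intro k
    induction k with
    | zero => exact fun h => h
    | succ k ih => exact fun h => ih (hback k h)
  exact this k hk

theorem FD.fiber_nonreal (d : FD q q') {x y : ℂ} (hx : x ∈ DD) (hy : y ∈ DD)
    (hxB : ∀ k, d.S.F^[k] x ∉ d.D.Bo) (hyB : ∀ k, d.S.F^[k] y ∉ d.D.Bo) (h : d.R x = d.R y)
    (hc : ∀ k, ‖d.g.F^[k] (d.R x)‖ ≠ 1) : x = y := by
  have hxy : ∀ k, d.R (d.S.F^[k] x) = d.R (d.S.F^[k] y) := by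
    intro k
    rw [f3_R_iter d hx hxB, f3_R_iter d hy hyB, h]
  by_cases he : (∃ k, d.S.F^[k] x ∈ d.A.Xo ∪ d.M.No) ∨ ∃ k, d.S.F^[k] y ∈ d.A.Xo ∪ d.M.No
  · apply f3_entry d hx hy hxB hyB h _ he
    intro k hk
    rw [Function.iterate_succ_apply', Function.iterate_succ_apply'] at hk
    apply d.back (f3_mapsIter hx k) (f3_mapsIter hy k) (hxB k) (hyB k) hk (hxy k)
    have h1 := hc (k + 1)
    rw [Function.iterate_succ_apply'] at h1
    rw [f3_R_iter d hx hxB]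
    exact h1
  · push Not at he
    have hx0 : ∀ k, d.S.F^[k] x ≠ 0 := by
      intro k hk
      apply he.1 k
      rw [hk]
      exact Or.inl d.A.zero_mem
    have hR0 : ∀ k, d.R (d.S.F^[k] x) ≠ 0 := by
      intro k hk
      exact hx0 k ((d.hE.rm.zero _ (f3_mapsIter hx k)).1 hk)
    have hpe : ∀ k, exp (Complex.log (d.R (d.S.F^[k] x))) = d.R (d.S.F^[k] x) :=
      fun k => Complex.exp_log (hR0 k)
    apply f3_core d hx hy hxB hyB h he.1 he.2 (fun k => Complex.log (d.R (d.S.F^[k] x))) hpe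
    intro k l l' hl hl'
    refine letter_unique d.E (p := Complex.log (d.R (d.S.F^[k + 1] x))) ⟨?_, ?_⟩ ?_
      (hl.trans hl'.symm)
    · show (Complex.log (d.R (d.S.F^[k + 1] x))).re ≤ 0
      rw [Complex.log_re]
      apply Real.log_nonpos (norm_nonneg _)
      have := d.hE.rm.maps (f3_mapsIter (S := d.S) hx (k + 1))
      rw [DD, mem_closedBall, dist_zero_right] at this
      exact this
    · rw [hpe]
      intro hc'
      have := d.hE.Xo_of _ (f3_mapsIter hx (k + 1)) hc'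
      rw [d.hT.Xo_eq] at this
      exact he.1 (k + 1) (Or.inl this)
    · rw [hpe, f3_R_iter d hx hxB]
      exact hc (k + 1)

theorem FD.fiber_real (d : FD q q') {x y : ℂ} (hx : x ∈ DD) (hy : y ∈ DD)
    (hxB : ∀ k, d.S.F^[k] x ∉ d.D.Bo) (hyB : ∀ k, d.S.F^[k] y ∉ d.D.Bo) (h : d.R x = d.R y)
    (hc : ‖d.R x‖ = 1) (hω : ∀ k, d.g.F^[k] (d.R x) ≠ ec d.g.ω₀) : x = y := by
  have hxy : ∀ k, d.R (d.S.F^[k] x) = d.R (d.S.F^[k] y) := by
    intro k
    rw [f3_R_iter d hx hxB, f3_R_iter d hy hyB, h]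
  have hcirc : ∀ k, ‖d.R (d.S.F^[k] x)‖ = 1 := by
    intro k
    induction k with
    | zero => exact hc
    | succ k ih =>
      rw [Function.iterate_succ_apply', ← d.R_F' (f3_mapsIter hx k) (hxB k)]
      exact f3_circ (d.hE.rm.maps (f3_mapsIter hx k)) ih
  have hωk : ∀ k, d.R (d.S.F^[k] x) ≠ ec d.g.ω₀ := by
    intro k
    rw [f3_R_iter d hx hxB]
    exact hω k
  by_cases he : (∃ k, d.S.F^[k] x ∈ d.A.Xo ∪ d.M.No) ∨ ∃ k, d.S.F^[k] y ∈ d.A.Xo ∪ d.M.No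
  · apply f3_entry d hx hy hxB hyB h _ he
    intro k hk
    rw [Function.iterate_succ_apply', Function.iterate_succ_apply'] at hk
    exact d.back_real (f3_mapsIter hx k) (f3_mapsIter hy k) (hxB k) (hyB k) hk (hxy k)
      (hcirc k) (hωk k)
  · push Not at he
    have hθ : ∀ k, ∃ θ : ℝ, θ ∈ Ioo 0 (2 * Real.pi) ∧ d.R (d.S.F^[k] x) = ec θ := by
      intro k
      obtain ⟨θ, hθ, h1⟩ := exists_ec (hcirc k)
      refine ⟨θ, ⟨lt_of_le_of_ne hθ.1 ?_, hθ.2⟩, h1⟩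
      intro h2
      rw [← h2] at h1
      have h3 : d.R (d.S.F^[k] x) = 1 := by
        rw [h1, ec]
        simp
      have h4 := (d.hE.rm.one _ (f3_mapsIter hx k)).1 h3
      apply he.1 k
      rw [h4]
      exact Or.inr d.M.one_mem
    choose θ hθ1 hθ2 using hθ
    apply f3_core d hx hy hxB hyB h he.1 he.2 (fun k => (θ k : ℂ) * I)
      (fun k => (hθ2 k).symm)
    intro k l l' hl hl'
    refine letter_unique_real d.E (hθ1 (k + 1)) (hθ1 k) ⟨?_, ?_⟩ ?_ hl hl'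
    · show ((θ (k + 1) : ℂ) * I).re ≤ 0
      simp
    · have h5 : exp ((θ (k + 1) : ℂ) * I) = d.R (d.S.F^[k + 1] x) := (hθ2 (k + 1)).symm
      rw [h5]
      intro hc'
      have := d.hE.Xo_of _ (f3_mapsIter hx (k + 1)) hc'
      rw [d.hT.Xo_eq] at this
      exact he.1 (k + 1) (Or.inl this)
    · intro hcon
      apply hωk k
      rw [hθ2 k, hcon]

end

end Pool.TU
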