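import Pool.Agent.Helper71.TU.A6
import Pool.Agent.Helper71.TU.L2

/-! # TU T1: basic facts on the marked basin -/

open Complex Set Filter Topology Metric Polynomial ComplexConjugate Pool.Tuning

namespace Pool.TU

noncomputable section

variable {S : TS} {A : XS S} {B : Br S A} (D : BD B)

theorem t1_expUU_mem {u : ℂ} (hu : u ∈ UU) : exp u ∈ DD := by
  rw [DD, mem_closedBall_zero_iff, Complex.norm_exp]
  exact Real.exp_le_one_iff.mpr hu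

theorem t1_half_UU {u : ℂ} (hu : u ∈ UU) : u / 2 ∈ UU := by
  show (u / 2).re ≤ 0
  have h : u.re ≤ 0 := hu
  have : (u / 2).re = u.re / 2 := by simp
  rw [this]; linarith

theorem t1_exp_half_sq (u : ℂ) : exp (u / 2) ^ 2 = exp u := by
  rw [← Complex.exp_nat_mul]; congr 1; push_cast; ring

theorem t1_sqf_norm (ζ : ℂ) : ‖sqf ζ‖ = ‖ζ‖ ^ 2 := by
  unfold sqf fold
  split_ifs
  · exact norm_pow _ _
  · rw [Complex.norm_conj]; exact norm_pow _ _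

theorem t1_sqf_HD {ζ : ℂ} (hζ : ζ ∈ HD) : sqf ζ ∈ HD := by
  refine ⟨?_, ?_⟩
  · rw [t1_sqf_norm]; exact pow_le_one₀ (norm_nonneg _) hζ.1
  · unfold sqf fold
    split_ifs with h
    · exact h
    · rw [Complex.conj_im]; push Not at h; linarith

theorem BD.t1_mem_UU {ζ : ℂ} (hζ : ζ ∈ HD) : D.c ζ ∈ UU := (D.maps hζ).1

theorem BD.mem_DD {ζ : ℂ} (hζ : ζ ∈ HD) : exp (D.c ζ) ∈ DD := t1_expUU_mem (D.maps hζ).1

theorem BD.t1_half_mem_DD {ζ : ℂ} (hζ : ζ ∈ HD) : exp (D.c ζ / 2) ∈ DD :=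
  t1_expUU_mem (t1_half_UU (D.maps hζ).1)

/-- values in `Bc` on the unit circle -/
theorem BD.circle {ζ : ℂ} (hζ : ζ ∈ HD) (h : ‖exp (D.c ζ)‖ = 1) :
    ζ.im = 0 ∧ exp (D.c ζ) = ec (D.a ζ.re) := by
  rw [Complex.norm_exp, Real.exp_eq_one_iff] at h
  have him := D.nonreal ζ hζ h
  refine ⟨him, ?_⟩
  have hζr : ((ζ.re : ℝ) : ℂ) = ζ := by
    apply Complex.ext
    · simp
    · simp [him]
  have hmem : ζ.re ∈ Icc (-1 : ℝ) 1 := abs_le.mp ((Complex.abs_re_le_norm ζ).trans hζ.1)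
  have := (D.real ζ.re hmem).1
  rw [hζr] at this
  rw [this, ec]

theorem t1_HD_re_mem {ζ : ℂ} (hζ : ζ ∈ HD) : ζ.re ∈ Icc (-1 : ℝ) 1 :=
  abs_le.mp ((Complex.abs_re_le_norm ζ).trans hζ.1)

theorem BD.ne_one {ζ : ℂ} (hζ : ζ ∈ HD) : exp (D.c ζ) ≠ 1 := by
  intro h
  have h1 : ‖exp (D.c ζ)‖ = 1 := by rw [h]; simp
  have h2 := (D.circle hζ h1).2
  rw [h] at h2
  have h3 := (D.real ζ.re (t1_HD_re_mem hζ)).2
  rcases ec_eq_one ⟨h3.1.le, h3.2.le⟩ h2.symm with h4 | h4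
  · linarith [h3.1]
  · linarith [h3.2]

theorem BD.t1_HD_compact : IsCompact HD := by
  have : HD = closedBall (0 : ℂ) 1 ∩ {ζ : ℂ | 0 ≤ ζ.im} := by
    ext ζ
    simp [HD]
  rw [this]
  exact (isCompact_closedBall 0 1).inter_right (isClosed_le continuous_const Complex.continuous_im)

theorem BD.t1_Bc_compact : IsCompact D.Bc :=
  BD.t1_HD_compact.image_of_continuousOn D.cont.cexp

theorem BD.Bc_closed : IsClosed D.Bc := D.t1_Bc_compact.isClosed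

theorem BD.Bo_iff {ζ : ℂ} (hζ : ζ ∈ HD) : exp (D.c ζ) ∈ D.Bo ↔ ‖ζ‖ < 1 := by
  constructor
  · rintro ⟨t, ⟨ht1, ht2⟩, ht⟩
    have : t = ζ := D.inj (⟨ht1.le, ht2⟩ : t ∈ HD) hζ ht
    rw [← this]; exact ht1
  · intro h
    exact ⟨ζ, ⟨h, hζ.2⟩, rfl⟩

theorem BD.Θ_eq {ζ : ℂ} (hζ : ζ ∈ HD) (h : 0 ≤ ζ.re) :
    exp (D.c ζ) = S.Θ (exp (D.c (sqf ζ) / 2)) := by
  rw [D.feP ζ hζ h, B.expΦ _ (D.maps (t1_sqf_HD hζ))]

theorem BD.G4_eq {ζ : ℂ} (hζ : ζ ∈ HD) (h : ζ.re ≤ 0) :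
    exp (D.c ζ) = S.G4 (exp (D.c (sqf ζ))) := by
  rw [D.feM ζ hζ h, B.exp4 _ (D.mem_DD (t1_sqf_HD hζ))]

theorem BD.F_eq {ζ : ℂ} (hζ : ζ ∈ HD) : S.F (exp (D.c ζ)) = exp (D.c (sqf ζ)) := by
  rcases le_total 0 ζ.re with h | h
  · rw [D.Θ_eq hζ h, S.FΘ _ (D.t1_half_mem_DD (t1_sqf_HD hζ)), t1_exp_half_sq]
  · rw [D.G4_eq hζ h, S.F4 _ (D.mem_DD (t1_sqf_HD hζ))]

theorem t1_zero_mem_HD : (0 : ℂ) ∈ HD := ⟨by simp, by simp⟩

theorem BD.t1_exp_c_zero : exp (D.c 0) = ec S.κ := by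
  have h := (D.real 0 (by constructor <;> norm_num)).1
  rw [D.a0] at h
  have h2 : D.c 0 = (S.κ : ℂ) * I := by simpa using h
  rw [h2, ec]

/-- the set `Bo` is disjoint from closed forward invariant sets avoiding `ec κ` -/
theorem BD.disj {X : Set ℂ} (hX : IsClosed X) (hF : MapsTo S.F X X) (h : ec S.κ ∉ X) :
    Disjoint X D.Bo := by
  rw [Set.disjoint_left]
  rintro z hz ⟨ζ, ⟨hζ1, hζ2⟩, rfl⟩
  have hζ : ζ ∈ HD := ⟨hζ1.le, hζ2⟩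
  have hiter : ∀ n : ℕ, ∃ t ∈ HD, ‖t‖ = ‖ζ‖ ^ (2 ^ n) ∧ exp (D.c t) ∈ X := by
    intro n
    induction n with
    | zero => exact ⟨ζ, hζ, by simp, hz⟩
    | succ n ih =>
      obtain ⟨t, ht, ht1, ht2⟩ := ih
      refine ⟨sqf t, t1_sqf_HD ht, ?_, ?_⟩
      · rw [t1_sqf_norm, ht1, ← pow_mul, pow_succ]
      · rw [← D.F_eq ht]; exact hF ht2
  have hc : ContinuousOn (fun t => exp (D.c t)) HD := D.cont.cexp
  have h0 := hc 0 t1_zero_mem_HD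
  have hev : ∀ᶠ t in 𝓝[HD] (0 : ℂ), exp (D.c t) ∈ Xᶜ := by
    apply h0.eventually_mem
    apply hX.isOpen_compl.mem_nhds
    show exp (D.c 0) ∉ X
    rw [D.t1_exp_c_zero]; exact h
  rw [eventually_nhdsWithin_iff, Metric.eventually_nhds_iff] at hev
  obtain ⟨ε, hε, hev⟩ := hev
  obtain ⟨n, hn⟩ := exists_pow_lt_of_lt_one hε hζ1
  obtain ⟨t, ht, ht1, ht2⟩ := hiter n
  have h5 : ‖t‖ < ε := by
    rw [ht1]
    refine lt_of_le_of_lt ?_ hn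
    exact pow_le_pow_of_le_one (norm_nonneg _) hζ1.le (Nat.lt_two_pow_self).le
  exact hev (by simpa using h5) ht ht2

theorem t1_sqf_one : sqf 1 = 1 := by
  unfold sqf fold; simp

theorem t1_sqf_neg_one : sqf (-1) = 1 := by
  unfold sqf fold; simp

/-- `a 1` is fixed, `a (-1)` is mapped to it -/
theorem BD.a_one : S.rp (D.a 1) = D.a 1 ∧ S.rm (D.a 1) = D.a (-1) := by
  have h1 : (1 : ℂ) ∈ HD := ⟨by simp, by simp⟩
  have h2 : (-1 : ℂ) ∈ HD := ⟨by simp, by simp⟩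
  have hr1 := D.real 1 (by constructor <;> norm_num)
  have hr2 := D.real (-1) (by constructor <;> norm_num)
  have hc1 : D.c 1 = D.a 1 * I := by simpa using hr1.1
  have hc2 : D.c (-1) = D.a (-1) * I := by simpa using hr2.1
  have hκ : S.κ ≤ D.a 1 := by
    rw [← D.a0]
    exact (D.mono (by constructor <;> norm_num) (by constructor <;> norm_num) (by norm_num)).le
  have hmem : D.a 1 ∈ Icc S.κ (2 * Real.pi) := ⟨hκ, hr1.2.2.le⟩
  constructor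
  · have e1 := D.Θ_eq h1 (by simp)
    rw [t1_sqf_one, hc1] at e1
    have e2 : exp ((D.a 1 : ℂ) * I / 2) = ec (D.a 1 / 2) := by
      rw [ec]; congr 1; push_cast; ring
    rw [e2, S.rpΘ _ hmem] at e1
    have e3 : ec (D.a 1) = ec (S.rp (D.a 1)) := e1
    have h3 := S.rp_mem _ hmem
    exact (ec_inj ⟨hr1.2.1, hr1.2.2.le⟩ ⟨lt_of_lt_of_le S.ω₀_mem.1 h3.1, h3.2⟩ e3).symm
  · have e1 := D.G4_eq h2 (by simp)
    rw [t1_sqf_neg_one, hc1, hc2] at e1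
    have e3 : ec (D.a (-1)) = ec (S.rm (D.a 1)) := by
      have e4 : S.G4 (ec (D.a 1)) = ec (S.rm (D.a 1)) := S.rmG _ hmem
      rw [← e4]
      exact e1
    have h3 := S.rm_mem _ hmem
    exact (ec_inj' ⟨hr2.2.1.le, hr2.2.2⟩ ⟨h3.1, lt_of_le_of_lt h3.2 S.ω₀_mem.2⟩ e3).symm

end

end Pool.TU
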