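import Pool.Agent.Helper71.TU.F3
import Pool.Agent.Helper71.TU.T1

/-! # TU F4: critical real fibres -/

open Complex Set Filter Topology Metric Polynomial ComplexConjugate Pool.Tuning

namespace Pool.TU

noncomputable section

variable {q q' : RQ}

theorem f4_ec_sq (θ : ℝ) : ec (θ / 2) ^ 2 = ec θ := by
  unfold ec
  rw [← Complex.exp_nat_mul]
  congr 1
  push_cast
  ring

theorem f4_ec_mem (θ : ℝ) : ec θ ∈ DD := by
  simp [DD, norm_ec]

theorem f4_F_circle (S : TS) {z : ℂ} (hz : z ∈ DD) (h : ‖z‖ = 1) : ‖S.F z‖ = 1 := by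
  rcases S.cover z hz with ⟨s, hs, rfl⟩ | ⟨w, hw, rfl⟩ | ⟨w, hw, rfl⟩
  · rw [S.FΘ s hs, norm_pow]
    rcases S.circΘ s hs h with h1 | ⟨θ, _, h1⟩
    · rw [h1]
      simp
    · rw [h1, norm_ec]
      norm_num
  · rw [S.F2 w hw, S.circ2 w hw h]
    simp
  · rw [S.F4 w hw]
    obtain ⟨θ, _, h1⟩ := S.circ4 w hw h
    rw [h1, norm_ec]

theorem f4_F_ω (S : TS) : S.F (ec S.ω₀) = ec S.κ := by
  have hκ : S.κ ∈ Icc S.κ (2 * Real.pi) := left_mem_Icc.mpr S.κ_mem.2.le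
  have h1 := S.rpΘ S.κ hκ
  rw [S.rpκ] at h1
  rw [← h1, S.FΘ _ (f4_ec_mem _), f4_ec_sq]

theorem f4_F_κ {S : TS} {β : ℝ} (h : IsBeta S β) : S.F (ec S.κ) = ec β := by
  have hβ : β ∈ Icc S.κ (2 * Real.pi) := ⟨h.mem.1.le, h.mem.2.le⟩
  have h1 := S.rmG β hβ
  rw [h.fixm] at h1
  rw [← h1, S.F4 _ (f4_ec_mem _)]

theorem f4_F_β {S : TS} {β : ℝ} (h : IsBeta S β) : S.F (ec β) = ec β := by
  have hβ : β ∈ Icc S.κ (2 * Real.pi) := ⟨h.mem.1.le, h.mem.2.le⟩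
  have h1 := S.rpΘ β hβ
  rw [h.fixp] at h1
  have h2 : S.F (S.Θ (ec (β / 2))) = ec β := by
    rw [S.FΘ _ (f4_ec_mem _), f4_ec_sq]
  rw [h1] at h2
  exact h2

theorem f4_κβ {S : TS} {β : ℝ} (h : IsBeta S β) : ec S.κ ≠ ec β := by
  intro h1
  have h2 := ec_inj ⟨S.κ_mem.1, S.κ_mem.2.le⟩ ⟨S.κ_mem.1.trans h.mem.1, h.mem.2.le⟩ h1
  have := h.mem.1
  linarith

theorem f4_κω {S : TS} {β : ℝ} (h : IsBeta S β) : ec S.κ ≠ ec S.ω₀ := by
  intro h1
  have h2 := f4_F_κ h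
  rw [h1, f4_F_ω] at h2
  exact f4_κβ h h2

theorem f4_βω {S : TS} {β : ℝ} (h : IsBeta S β) : ec β ≠ ec S.ω₀ := by
  intro h1
  have h2 := f4_F_β h
  rw [h1, f4_F_ω] at h2
  exact f4_κω h h2

theorem f4_orbit {S : TS} {β : ℝ} (h : IsBeta S β) (k : ℕ) : S.F^[k] (ec S.κ) ≠ ec S.ω₀ := by
  have hfix : ∀ k, S.F^[k] (ec β) = ec β := by
    intro k
    induction k with
    | zero => rfl
    | succ k ih => rw [Function.iterate_succ_apply, f4_F_β h, ih]
  cases k with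
  | zero => exact f4_κω h
  | succ k =>
    rw [Function.iterate_succ_apply, f4_F_κ h, hfix]
    exact f4_βω h

theorem f4_neg_one_mem : (-1 : ℂ) ∈ HD := by
  refine ⟨by simp, by simp⟩

theorem f4_I_mem : I ∈ HD := by
  refine ⟨by simp, by simp⟩

theorem f4_sqf_mem {ζ : ℂ} (h : ζ ∈ HD) (h1 : ‖ζ‖ = 1) : sqf ζ ∈ HD ∧ ‖sqf ζ‖ = 1 := by
  have hn : ‖sqf ζ‖ = 1 := by
    unfold sqf fold
    split_ifs with h2
    · rw [norm_pow, h1]
      norm_num
    · rw [Complex.norm_conj, norm_pow, h1]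
      norm_num
  refine ⟨⟨hn.le, ?_⟩, hn⟩
  unfold sqf fold
  split_ifs with h2
  · exact h2
  · rw [Complex.conj_im]
    linarith [not_le.mp h2]

theorem f4_orbit_circle {S : TS} {A : XS S} {B : Br S A} (D : BD B) (k : ℕ) :
    ∀ ζ : ℂ, ζ ∈ HD → ‖ζ‖ = 1 → S.F^[k] (exp (D.c ζ)) ∉ D.Bo := by
  induction k with
  | zero =>
    intro ζ hζ h1 h2
    have h3 := (D.Bo_iff hζ).mp h2
    linarith
  | succ k ih =>
    intro ζ hζ h1
    rw [Function.iterate_succ_apply, D.F_eq hζ]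
    obtain ⟨h2, h3⟩ := f4_sqf_mem hζ h1
    exact ih _ h2 h3

theorem f4_R_neg_one (d : FD q q') : d.R (exp (d.D.c (-1))) = ec d.g.κ := by
  obtain ⟨e, -, -, h1, -, -, h2, -⟩ := d.bx
  rw [h2 (-1) f4_neg_one_mem, lvd_circle (by simp)]
  have h3 : 2 * (-1 : ℂ).re = -2 := by simp
  rw [h3, h1]

theorem f4_R_mem (d : FD q q') {z : ℂ} (hz : z ∈ DD) : d.R z ∈ DD := d.hE.rm.maps hz

/-- the only point over the real critical value off `Bo` -/
theorem FD.fiber_κ (d : FD q q') {x : ℂ} (hx : x ∈ DD) (hxB : ∀ k, d.S.F^[k] x ∉ d.D.Bo)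
    (h : d.R x = ec d.g.κ) : x = exp (d.D.c (-1)) := by
  apply d.fiber_real hx (d.D.mem_DD f4_neg_one_mem) hxB
    (fun k => f4_orbit_circle d.D k _ f4_neg_one_mem (by simp))
  · rw [h, f4_R_neg_one]
  · rw [h, norm_ec]
  · intro k
    rw [h]
    exact f4_orbit d.hβ k

/-- the only point over the real critical point off `Bo` -/
theorem FD.fiber_ω (d : FD q q') {x : ℂ} (hx : x ∈ DD) (hxB : ∀ k, d.S.F^[k] x ∉ d.D.Bo)
    (h : d.R x = ec d.g.ω₀) : x = exp (d.D.c I) := by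
  have h1 : d.R (d.S.F x) = ec d.g.κ := by
    rw [← d.R_F' hx (hxB 0), h, f4_F_ω]
  have h2 : d.S.F x = exp (d.D.c (-1)) := by
    apply d.fiber_κ (d.S.mapsF hx) _ h1
    intro k
    have := hxB (k + 1)
    rw [Function.iterate_succ_apply] at this
    exact this
  obtain ⟨hr, hr2⟩ := d.D.real (-1) ⟨le_refl _, by norm_num⟩
  have hr' : d.D.c (-1) = d.D.a (-1) * I := by
    rw [← hr]
    push_cast
    rfl
  have he : exp (d.D.c (-1)) = ec (d.D.a (-1)) := by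
    rw [hr']
    rfl
  have he2 : exp (d.D.c (-1) / 2) = ec (d.D.a (-1) / 2) := by
    rw [hr']
    unfold ec
    congr 1
    push_cast
    ring
  have hI : exp (d.D.c I) = d.S.Θ (ec (d.D.a (-1) / 2)) := by
    have h3 := d.D.Θ_eq f4_I_mem (by simp)
    have h4 : sqf I = -1 := by
      unfold sqf fold
      rw [Complex.I_sq]
      simp
    rw [h4, he2] at h3
    exact h3
  have hlt : d.D.a (-1) < d.S.κ := by
    have := d.D.mono (a := -1) (b := 0) ⟨le_refl _, by norm_num⟩ ⟨by norm_num, by norm_num⟩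
      (by norm_num)
    rw [d.D.a0] at this
    exact this
  -- the tile `G2` is impossible
  have hG2 : x ≠ d.S.G2 (ec (d.D.a (-1))) := by
    intro h3
    have h4 := d.hE.lift.G2_eq _ (f4_ec_mem (d.D.a (-1)))
    rw [d.hT.G2_eq _ (f4_ec_mem _), ← h3, h] at h4
    have h5 : ‖d.g.G2 (d.R (ec (d.D.a (-1))))‖ = 1 := by
      rw [← h4, norm_ec]
    have h6 := d.g.circ2 _ (f4_R_mem d (f4_ec_mem _)) h5
    rw [← he, f4_R_neg_one] at h6
    have hκ := d.g.κ_mem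
    rcases ec_eq_one (a := d.g.κ) ⟨by linarith [hκ.1], by linarith [hκ.2]⟩ h6 with h7 | h7
    · linarith [hκ.1]
    · linarith [hκ.2]
  rcases d.S.cover x hx with ⟨s, hs, hsx⟩ | ⟨w, hw, hwx⟩ | ⟨w, hw, hwx⟩
  · have h3 : s ^ 2 = ec (d.D.a (-1)) := by
      rw [← he, ← h2, ← hsx, d.S.FΘ s hs]
    have h4 : (s - ec (d.D.a (-1) / 2)) * (s + ec (d.D.a (-1) / 2)) = 0 := by
      have := f4_ec_sq (d.D.a (-1))
      linear_combination h3 - this
    rcases mul_eq_zero.mp h4 with h5 | h5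
    · rw [← hsx, sub_eq_zero.mp h5, hI]
    · exfalso
      apply hG2
      rw [d.S.bd2 _ ⟨hr2.1.le, hr2.2.le⟩, ← hsx, eq_neg_of_add_eq_zero_left h5]
  · exfalso
    apply hG2
    rw [← hwx, ← he, ← h2, ← hwx, d.S.F2 w hw]
  · have h3 : w = ec (d.D.a (-1)) := by
      rw [← he, ← h2, ← hwx, d.S.F4 w hw]
    rw [← hwx, h3, d.S.bd4 _ ⟨hr2.1.le, hlt.le⟩, hI]

theorem f4_aux (d : FD q q') (k : ℕ) : ∀ x y : ℂ, x ∈ DD → y ∈ DD →
    (∀ k, d.S.F^[k] x ∉ d.D.Bo) → (∀ k, d.S.F^[k] y ∉ d.D.Bo) → d.R x = d.R y →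
    ‖d.R x‖ = 1 → d.g.F^[k] (d.R x) = ec d.g.ω₀ → x = y := by
  induction k with
  | zero =>
    intro x y hx hy hxB hyB h _ hk
    have h1 : d.R x = ec d.g.ω₀ := hk
    rw [d.fiber_ω hx hxB h1, d.fiber_ω hy hyB (by rw [← h, h1])]
  | succ k ih =>
    intro x y hx hy hxB hyB h hn hk
    by_cases hω : d.R x = ec d.g.ω₀
    · rw [d.fiber_ω hx hxB hω, d.fiber_ω hy hyB (by rw [← h, hω])]
    · have hF : d.S.F x = d.S.F y := by
        apply ih _ _ (d.S.mapsF hx) (d.S.mapsF hy)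
        · intro j
          have := hxB (j + 1)
          rw [Function.iterate_succ_apply] at this
          exact this
        · intro j
          have := hyB (j + 1)
          rw [Function.iterate_succ_apply] at this
          exact this
        · rw [← d.R_F' hx (hxB 0), ← d.R_F' hy (hyB 0), h]
        · rw [← d.R_F' hx (hxB 0)]
          exact f4_F_circle d.g (f4_R_mem d hx) hn
        · rw [← d.R_F' hx (hxB 0)]
          rw [Function.iterate_succ_apply] at hk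
          exact hk
      exact d.back_real hx hy (hxB 0) (hyB 0) hF h hn hω

/-- Fibre uniqueness at the level of the disc. -/
theorem FD.fiber_unique (d : FD q q') {x y : ℂ} (hx : x ∈ DD) (hy : y ∈ DD)
    (hxB : ∀ k, d.S.F^[k] x ∉ d.D.Bo) (hyB : ∀ k, d.S.F^[k] y ∉ d.D.Bo) (h : d.R x = d.R y)
    (hc : (∀ k, ‖d.g.F^[k] (d.R x)‖ ≠ 1) ∨ ‖d.R x‖ = 1) : x = y := by
  rcases hc with hc | hc
  · exact d.fiber_nonreal hx hy hxB hyB h hc
  · by_cases hω : ∀ k, d.g.F^[k] (d.R x) ≠ ec d.g.ω₀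
    · exact d.fiber_real hx hy hxB hyB h hc hω
    · push Not at hω
      obtain ⟨k, hk⟩ := hω
      exact f4_aux d k x y hx hy hxB hyB h hc hk

end

end Pool.TU
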