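import Pool.Agent.Helper71.TU.AllDefs

/-! # TU L1: continuous logarithms on convex sets -/

open Complex Set Filter Topology Metric Polynomial ComplexConjugate Pool.Tuning

namespace Pool.TU

noncomputable section

namespace L1aux

open unitInterval

theorem lift_homotopy {A : Type*} [TopologicalSpace A] (h : I × A → ℂ) (hc : Continuous h)
    (h0 : ∀ x, h x ≠ 0) (f : A → ℂ) (hf : Continuous f) (hf0 : ∀ a, exp (f a) = h (0, a)) :
    ∃ L : I × A → ℂ, Continuous L ∧ (∀ x, exp (L x) = h x) ∧ ∀ a, L (0, a) = f a := by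
  set H : C(I × A, {z : ℂ // z ≠ 0}) :=
    ⟨fun x => ⟨h x, h0 x⟩, Continuous.subtype_mk hc h0⟩ with hH
  set F : C(A, ℂ) := ⟨f, hf⟩ with hF
  have H0 : ∀ a, H (0, a) = (fun z : ℂ ↦ (⟨_, z.exp_ne_zero⟩ : {z : ℂ // z ≠ 0})) (F a) := by
    intro a
    apply Subtype.ext
    exact (hf0 a).symm
  refine ⟨isCoveringMap_exp.liftHomotopy H F H0, (isCoveringMap_exp.liftHomotopy H F H0).continuous,
    fun x => ?_, fun a => isCoveringMap_exp.liftHomotopy_zero H F H0 a⟩
  have := congrFun (isCoveringMap_exp.liftHomotopy_lifts H F H0) x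
  exact congrArg Subtype.val this

end L1aux

/-- Continuous logarithms on convex sets. -/
theorem exists_log {S : Set ℂ} (hS : Convex ℝ S) (g : ℂ → ℂ) (hg : ContinuousOn g S)
    (h0 : ∀ z ∈ S, g z ≠ 0) : ∃ L : ℂ → ℂ, ContinuousOn L S ∧ ∀ z ∈ S, exp (L z) = g z := by
  classical
  rcases S.eq_empty_or_nonempty with rfl | ⟨x0, hx0⟩
  · exact ⟨fun _ => 0, continuousOn_empty _, fun z hz => hz.elim⟩
  have hmem : ∀ x : unitInterval × S, x0 + ((x.1 : ℝ) : ℂ) * ((x.2 : ℂ) - x0) ∈ S := by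
    intro x
    have h1 := hS hx0 x.2.2 (sub_nonneg.2 x.1.2.2) x.1.2.1 (by ring)
    have h2 : (1 - (x.1 : ℝ)) • x0 + (x.1 : ℝ) • (x.2 : ℂ) =
        x0 + ((x.1 : ℝ) : ℂ) * ((x.2 : ℂ) - x0) := by
      rw [Complex.real_smul, Complex.real_smul]
      push_cast
      ring
    rwa [h2] at h1
  have hcont : Continuous (fun x : unitInterval × S =>
      g (x0 + ((x.1 : ℝ) : ℂ) * ((x.2 : ℂ) - x0))) := by
    apply hg.comp_continuous _ hmem
    fun_prop
  obtain ⟨L, hL, hL1, -⟩ := L1aux.lift_homotopy _ hcont (fun x => h0 _ (hmem x))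
    (fun _ : S => Complex.log (g x0)) continuous_const (fun a => by
      rw [Complex.exp_log (h0 x0 hx0)]
      simp)
  refine ⟨fun z => if hz : z ∈ S then L (1, ⟨z, hz⟩) else 0, ?_, ?_⟩
  · rw [continuousOn_iff_continuous_restrict]
    have h1 : Continuous (fun z : S => L (1, z)) := hL.comp (by fun_prop)
    refine h1.congr ?_
    intro z
    have h2 : (if hz : (z : ℂ) ∈ S then L (1, ⟨z, hz⟩) else 0) = L (1, z) := by
      rw [dif_pos z.2]
    exact h2.symm
  · intro z hz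
    have h2 : (if hz : z ∈ S then L (1, ⟨z, hz⟩) else 0) = L (1, ⟨z, hz⟩) := dif_pos hz
    show exp (if hz : z ∈ S then L (1, ⟨z, hz⟩) else 0) = g z
    rw [h2, hL1]
    simp

/-- Continuous logarithms along a path, with given start. -/
theorem exists_log_path (γ : ℝ → ℂ) (hγ : ContinuousOn γ (Icc 0 1))
    (h0 : ∀ t ∈ Icc (0 : ℝ) 1, γ t ≠ 0) (c : ℂ) (hc : exp c = γ 0) :
    ∃ L : ℝ → ℂ, ContinuousOn L (Icc 0 1) ∧ (∀ t ∈ Icc (0 : ℝ) 1, exp (L t) = γ t) ∧
      L 0 = c := by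
  have hcont : Continuous (fun x : unitInterval × Unit => γ (x.1 : ℝ)) := by
    apply hγ.comp_continuous (by fun_prop) (fun x => x.1.2)
  obtain ⟨L, hL, hL1, hL2⟩ := L1aux.lift_homotopy _ hcont (fun x => h0 _ x.1.2)
    (fun _ : Unit => c) continuous_const (fun a => by simpa using hc)
  refine ⟨fun t => L (projIcc 0 1 zero_le_one t, ()), ?_, ?_, ?_⟩
  · apply Continuous.continuousOn
    exact hL.comp (by fun_prop)
  · intro t ht
    rw [hL1]
    simp only
    rw [projIcc_of_mem zero_le_one ht]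
  · have : projIcc (0 : ℝ) 1 zero_le_one 0 = 0 := projIcc_left zero_le_one
    simp only [this]
    exact hL2 ()

/-- Continuous logarithms on the line, with given value at `0`. -/
theorem exists_log_real (γ : ℝ → ℂ) (hγ : Continuous γ) (h0 : ∀ t, γ t ≠ 0) (c : ℂ)
    (hc : exp c = γ 0) : ∃ L : ℝ → ℂ, Continuous L ∧ (∀ t, exp (L t) = γ t) ∧ L 0 = c := by
  have hcont : Continuous (fun x : unitInterval × ℝ => γ ((x.1 : ℝ) * x.2)) := by
    fun_prop
  obtain ⟨L, hL, hL1, hL2⟩ := L1aux.lift_homotopy _ hcont (fun x => h0 _)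
    (fun _ : ℝ => c) continuous_const (fun a => by simpa using hc)
  have h1 : exp (L (1, 0) - c) = 1 := by
    rw [Complex.exp_sub, hL1, hc]
    simp only [mul_zero]
    exact div_self (h0 0)
  refine ⟨fun x => L (1, x) - (L (1, 0) - c), ?_, ?_, ?_⟩
  · exact (hL.comp (by fun_prop)).sub continuous_const
  · intro t
    rw [Complex.exp_sub, h1, hL1]
    simp
  · ring

end

end Pool.TU
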