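import Pool.Agent.Helper71.TU.F1
import Pool.Agent.Helper71.TU.B2
import Pool.Agent.Helper71.TU.L1

/-! # TU F5: the unfolded semiconjugacy -/

open Complex Set Filter Topology Metric Polynomial ComplexConjugate Pool.Tuning

namespace Pool.TU

noncomputable section

variable {q q' : RQ}

private lemma f5_hv (q : RQ) : 0 < q.v.im := q.hv

/-- the map on the upper half plane -/
private def f5_pu (d : FD q q') (z : ℂ) : ℂ := mi q'.v (d.R (mm q.v z))

private lemma f5_rm (d : FD q q') : RMap d.T.κ d.g.κ d.R d.ρ := d.hE.rm.toRMap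

private lemma f5_mapsHH (d : FD q q') {z : ℂ} (hz : z ∈ HH) : d.R (mm q.v z) ∈ DD \ {1} := by
  have h1 := mm_mem (f5_hv q) hz
  refine ⟨(f5_rm d).maps h1, fun h => mm_ne_one (f5_hv q) hz ?_⟩
  exact ((f5_rm d).one _ h1).1 h

private lemma f5_pu_mem (d : FD q q') {z : ℂ} (hz : z ∈ HH) : f5_pu d z ∈ HH := by
  have h := f5_mapsHH d hz
  exact mi_mem (f5_hv q') h.1 h.2

private lemma f5_pu_cont (d : FD q q') : ContinuousOn (f5_pu d) HH := by
  refine (mi_cont (f5_hv q')).comp ((f5_rm d).cont.comp (mm_cont (f5_hv q)) ?_) ?_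
  · intro z hz
    exact mm_mem (f5_hv q) hz
  · intro z hz
    exact f5_mapsHH d hz

private lemma f5_norm_R (d : FD q q') {s : ℂ} (h1 : ‖s‖ = 1) : ‖d.R s‖ = 1 := by
  obtain ⟨θ, hθ, rfl⟩ := exists_ec h1
  rw [(f5_rm d).circ θ ⟨hθ.1, hθ.2.le⟩, norm_ec]

private lemma f5_pu_real (d : FD q q') {z : ℂ} (hz : z.im = 0) : (f5_pu d z).im = 0 := by
  have hH : z ∈ HH := by show 0 ≤ z.im; rw [hz]
  have h1 : ‖mm q.v z‖ = 1 := (norm_mm_eq_one (f5_hv q) hH).2 hz
  have h2 := f5_norm_R d h1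
  have h3 := f5_mapsHH d hH
  have h4 := f5_pu_mem d hH
  rw [← norm_mm_eq_one (f5_hv q') h4]
  unfold f5_pu
  rw [mm_mi (f5_hv q') h3.1 h3.2]
  exact h2

private lemma f5_Pi_up (d : FD q q') {z : ℂ} (hz : 0 ≤ z.im) : d.Pi z = f5_pu d z := by
  unfold FD.Pi f5_pu
  rw [if_pos hz]

private lemma f5_Pi_down (d : FD q q') {z : ℂ} (hz : ¬ 0 ≤ z.im) :
    d.Pi z = conj (f5_pu d (conj z)) := by
  unfold FD.Pi f5_pu
  rw [if_neg hz]

theorem FD.Pi_cont (d : FD q q') : Continuous d.Pi := by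
  have h : Continuous (fun z : ℂ => if (0 : ℝ) ≤ z.im then f5_pu d z
      else conj (f5_pu d (conj z))) := by
    refine continuous_if_le continuous_const Complex.continuous_im ?_ ?_ ?_
    · exact f5_pu_cont d
    · refine Complex.continuous_conj.comp_continuousOn
        ((f5_pu_cont d).comp Complex.continuous_conj.continuousOn ?_)
      intro z hz
      show 0 ≤ (conj z).im
      rw [Complex.conj_im]
      have : z.im ≤ 0 := hz
      linarith
    · intro z hz
      have h0 : z.im = 0 := hz.symm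
      have h1 : conj z = z := Complex.conj_eq_iff_im.2 h0
      rw [h1]
      exact (Complex.conj_eq_iff_im.2 (f5_pu_real d h0)).symm
  exact h

theorem FD.Pi_conj (d : FD q q') (z : ℂ) : d.Pi (conj z) = conj (d.Pi z) := by
  rcases lt_trichotomy z.im 0 with h | h | h
  · have h1 : 0 ≤ (conj z).im := by rw [Complex.conj_im]; linarith
    rw [f5_Pi_up d h1, f5_Pi_down d (not_le.2 h), Complex.conj_conj]
  · have h1 : conj z = z := Complex.conj_eq_iff_im.2 h
    rw [h1, f5_Pi_up d h.ge]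
    exact (Complex.conj_eq_iff_im.2 (f5_pu_real d h)).symm
  · have h1 : ¬ 0 ≤ (conj z).im := by rw [Complex.conj_im]; linarith
    rw [f5_Pi_down d h1, f5_Pi_up d h.le, Complex.conj_conj]

theorem FD.Pi_im (d : FD q q') (z : ℂ) : (0 < z.im → 0 ≤ (d.Pi z).im) ∧
    (z.im = 0 → (d.Pi z).im = 0) ∧ (z.im < 0 → (d.Pi z).im ≤ 0) := by
  refine ⟨fun h => ?_, fun h => ?_, fun h => ?_⟩
  · rw [f5_Pi_up d h.le]
    exact f5_pu_mem d h.le
  · rw [f5_Pi_up d h.ge]
    exact f5_pu_real d h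
  · rw [f5_Pi_down d (not_le.2 h), Complex.conj_im]
    have h1 : (conj z) ∈ HH := by
      show 0 ≤ (conj z).im
      rw [Complex.conj_im]; linarith
    have h2 : 0 ≤ (f5_pu d (conj z)).im := f5_pu_mem d h1
    linarith

private lemma f5_ec_zero : ec 0 = 1 := by simp [ec]

private lemma f5_ec_two_pi : ec (2 * Real.pi) = 1 := by
  unfold ec
  push_cast
  exact Complex.exp_two_pi_mul_I

/-- values of `ρ` -/
private lemma f5_ivt (d : FD q q') {θ' : ℝ} (h : θ' ∈ Icc 0 (2 * Real.pi)) :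
    ∃ θ ∈ Icc 0 (2 * Real.pi), d.ρ θ = θ' := by
  have hpi : (0 : ℝ) ≤ 2 * Real.pi := by positivity
  have h1 := intermediate_value_Icc hpi (f5_rm d).ρcont
  rw [(f5_rm d).ρ0, (f5_rm d).ρ1] at h1
  exact h1 h

theorem FD.Pi_real_surj (d : FD q q') {p : ℝ} : ∃ x : ℝ, d.Pi x = p := by
  have h1 := ang_mem (f5_hv q') p
  obtain ⟨θ, hθ, hρ⟩ := f5_ivt d (Ioo_subset_Icc_self h1)
  have h2 : θ ∈ Ioo 0 (2 * Real.pi) := by
    refine ⟨lt_of_le_of_ne hθ.1 ?_, lt_of_le_of_ne hθ.2 ?_⟩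
    · rintro rfl
      rw [(f5_rm d).ρ0] at hρ
      rw [← hρ] at h1
      exact lt_irrefl _ h1.1
    · rintro rfl
      rw [(f5_rm d).ρ1] at hρ
      rw [← hρ] at h1
      exact lt_irrefl _ h1.2
  obtain ⟨x, hx⟩ := ang_surj (f5_hv q) h2
  refine ⟨x, ?_⟩
  have hp : (p : ℂ) ∈ HH := by show 0 ≤ (p : ℂ).im; simp
  rw [f5_Pi_up d (by simp)]
  unfold f5_pu
  rw [mm_real (f5_hv q), hx, (f5_rm d).circ θ hθ, hρ, ← mm_real (f5_hv q'), mi_mm (f5_hv q') hp]

/-- `R` is onto the disc -/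
private lemma f5_onto (d : FD q q') {w : ℂ} (hw : w ∈ DD) : ∃ s ∈ DD, d.R s = w := by
  have hw1 : ‖w‖ ≤ 1 := by simpa [DD] using hw
  have hpi : (0 : ℝ) ≤ 2 * Real.pi := by positivity
  have hec : ∀ θ, ec θ ∈ DD := fun θ => by simp [DD, norm_ec]
  rcases hw1.lt_or_eq with h1 | h1
  · by_contra hcon
    push Not at hcon
    have hconv : Convex ℝ DD := convex_closedBall _ _
    obtain ⟨L, hL, hLe⟩ := exists_log hconv (fun s => d.R s - w)
      ((f5_rm d).cont.sub continuousOn_const) (fun s hs h => hcon s hs (sub_eq_zero.1 h))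
    have h1D : (1 : ℂ) ∈ DD := by simp [DD]
    have hR1 : d.R 1 = 1 := ((f5_rm d).one 1 h1D).2 rfl
    -- the second factor
    have hslit : ∀ t : ℝ, 1 - w * ec (-t) ∈ slitPlane := by
      intro t
      left
      have h2 : ‖w * ec (-t)‖ < 1 := by rw [norm_mul, norm_ec, mul_one]; exact h1
      have h3 := (Complex.re_le_norm (w * ec (-t))).trans_lt h2
      rw [Complex.sub_re, Complex.one_re]
      linarith
    have h1w : (1 : ℂ) - w ≠ 0 := by
      intro h
      have : w = 1 := (sub_eq_zero.1 h).symm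
      rw [this] at h1
      simp at h1
    set C : ℂ := L 1 - log (1 - w) with hC
    have hexpC : exp C = 1 := by
      rw [hC, Complex.exp_sub, hLe 1 h1D, Complex.exp_log h1w, hR1]
      exact div_self h1w
    have key := log_unique (X := ℝ) (S := Icc 0 (2 * Real.pi)) isPreconnected_Icc
      (a := fun θ => L (ec θ)) (b := fun θ => (d.ρ θ : ℂ) * I + log (1 - w * ec (-(d.ρ θ))) + C)
      (hL.comp continuous_ec.continuousOn (fun θ _ => hec θ))
      (by
        refine ContinuousOn.add (ContinuousOn.add ?_ ?_) continuousOn_const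
        · exact (Complex.continuous_ofReal.comp_continuousOn (f5_rm d).ρcont).mul
            continuousOn_const
        · refine ContinuousOn.clog ?_ (fun θ _ => hslit _)
          exact continuousOn_const.sub (continuousOn_const.mul
            (continuous_ec.comp_continuousOn (f5_rm d).ρcont.neg)))
      (by
        intro θ hθ
        have h2 : 1 - w * ec (-(d.ρ θ)) ≠ 0 := Complex.slitPlane_ne_zero (hslit _)
        show exp (L (ec θ)) = exp ((d.ρ θ : ℂ) * I + log (1 - w * ec (-(d.ρ θ))) + C)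
        rw [hLe _ (hec θ), Complex.exp_add, Complex.exp_add, hexpC, mul_one,
          Complex.exp_log h2, (f5_rm d).circ θ hθ]
        have h3 : exp ((d.ρ θ : ℂ) * I) = ec (d.ρ θ) := rfl
        have h4 : ec (d.ρ θ) * ec (-(d.ρ θ)) = 1 := by
          rw [← ec_add, add_neg_cancel, f5_ec_zero]
        rw [h3]
        calc ec (d.ρ θ) - w = ec (d.ρ θ) - w * (ec (d.ρ θ) * ec (-(d.ρ θ))) := by
              rw [h4, mul_one]
          _ = ec (d.ρ θ) * (1 - w * ec (-(d.ρ θ))) := by ring)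
      (x0 := 0) ⟨le_rfl, hpi⟩
      (by
        show L (ec 0) = (d.ρ 0 : ℂ) * I + log (1 - w * ec (-(d.ρ 0))) + C
        rw [(f5_rm d).ρ0, neg_zero, f5_ec_zero, hC, mul_one]
        push_cast
        ring) (2 * Real.pi) ⟨hpi, le_rfl⟩
    have h5 : L (ec (2 * Real.pi)) = (d.ρ (2 * Real.pi) : ℂ) * I +
      log (1 - w * ec (-(d.ρ (2 * Real.pi)))) + C := key
    have h6 : ec (-(2 * Real.pi)) = 1 := by
      have : ec (2 * Real.pi) * ec (-(2 * Real.pi)) = 1 := by
        rw [← ec_add, add_neg_cancel, f5_ec_zero]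
      rwa [f5_ec_two_pi, one_mul] at this
    rw [(f5_rm d).ρ1, h6, f5_ec_two_pi, mul_one, hC] at h5
    have h7 : ((2 * Real.pi : ℝ) : ℂ) * I = 0 := by linear_combination -h5
    have h8 : ((2 * Real.pi : ℝ) : ℂ) = 0 := by
      rcases mul_eq_zero.1 h7 with h | h
      · exact h
      · exact absurd h Complex.I_ne_zero
    have h9 : (2 * Real.pi : ℝ) = 0 := by exact_mod_cast h8
    have := Real.pi_pos
    linarith
  · obtain ⟨θ', hθ', rfl⟩ := exists_ec h1
    obtain ⟨θ, hθ, hρ⟩ := f5_ivt d ⟨hθ'.1, hθ'.2.le⟩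
    exact ⟨ec θ, hec θ, by rw [(f5_rm d).circ θ hθ, hρ]⟩

private lemma f5_surj_up (d : FD q q') {y : ℂ} (hy : y ∈ HH) : ∃ z, d.Pi z = y := by
  have h1 := mm_mem (f5_hv q') hy
  have h2 := mm_ne_one (f5_hv q') hy
  obtain ⟨s, hs, hR⟩ := f5_onto d h1
  have h1D : (1 : ℂ) ∈ DD := by simp [DD]
  have hs1 : s ≠ 1 := by
    rintro rfl
    rw [((f5_rm d).one 1 h1D).2 rfl] at hR
    exact h2 hR.symm
  have hm := mi_mem (f5_hv q) hs hs1
  refine ⟨mi q.v s, ?_⟩
  rw [f5_Pi_up d hm]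
  unfold f5_pu
  rw [mm_mi (f5_hv q) hs hs1, hR, mi_mm (f5_hv q') hy]

theorem FD.Pi_surj (d : FD q q') : Function.Surjective d.Pi := by
  intro y
  rcases le_total 0 y.im with h | h
  · exact f5_surj_up d h
  · have h1 : conj y ∈ HH := by
      show 0 ≤ (conj y).im
      rw [Complex.conj_im]; linarith
    obtain ⟨z, hz⟩ := f5_surj_up d h1
    refine ⟨conj z, ?_⟩
    rw [d.Pi_conj, hz, Complex.conj_conj]

private lemma f5_large (d : FD q q') (K : ℝ) : ∃ K1 : ℝ, ∀ z ∈ HH, K1 ≤ ‖z‖ →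
    K ≤ ‖f5_pu d z‖ := by
  obtain ⟨η, hη, h1⟩ := mi_large (f5_hv q') K
  have h1D : (1 : ℂ) ∈ DD := by simp [DD]
  have hR1 : d.R 1 = 1 := ((f5_rm d).one 1 h1D).2 rfl
  have hc := (f5_rm d).cont 1 h1D
  obtain ⟨η', hη', h2⟩ := Metric.continuousWithinAt_iff.1 hc η hη
  obtain ⟨K1, h3⟩ := mm_tendsto_one (f5_hv q) (η' / 2) (by linarith)
  refine ⟨K1, fun z hz hK => ?_⟩
  have h4 := h3 z hz hK
  have h5 := mm_mem (f5_hv q) hz
  have h6 : dist (mm q.v z) 1 < η' := by rw [dist_eq_norm]; linarith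
  have h7 := h2 h5 h6
  rw [hR1, dist_eq_norm] at h7
  have h8 := f5_mapsHH d hz
  exact h1 _ h8.1 h8.2 h7.le

theorem FD.Pi_quot (d : FD q q') : IsQuotientMap d.Pi := by
  have hprop : IsProperMap d.Pi := by
    rw [isProperMap_iff_tendsto_cocompact]
    refine ⟨d.Pi_cont, ?_⟩
    rw [← Metric.cobounded_eq_cocompact, ← tendsto_norm_atTop_iff_cobounded, Filter.tendsto_atTop]
    intro K
    obtain ⟨K1, hK⟩ := f5_large d K
    filter_upwards [eventually_cobounded_le_norm K1] with z hz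
    by_cases h : 0 ≤ z.im
    · rw [f5_Pi_up d h]
      exact hK z h hz
    · rw [f5_Pi_down d h, Complex.norm_conj]
      refine hK _ ?_ (by rw [Complex.norm_conj]; exact hz)
      show 0 ≤ (conj z).im
      rw [Complex.conj_im]
      linarith [not_le.1 h]
  exact hprop.isClosedMap.isQuotientMap d.Pi_cont d.Pi_surj

end

end Pool.TU
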