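import Pool.Agent.Helper71.TU.G6
import Pool.Agent.Helper71.TU.T1
import Pool.Agent.Helper71.TU.T2

/-! # TU F7: first preimages of the basin -/

open Complex Set Filter Topology Metric Polynomial ComplexConjugate Pool.Tuning

namespace Pool.TU

noncomputable section

theorem f7_fold_pos {w : ℂ} (h : 0 ≤ w.im) : fold w = w := if_pos h

theorem f7_fold_neg {w : ℂ} (h : w.im ≤ 0) : fold w = conj w := by
  rcases h.lt_or_eq with h | h
  · exact if_neg (not_le.2 h)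
  · rw [f7_fold_pos h.ge]
    exact Complex.ext (by simp) (by simp [h])

theorem f7_fold_conj (w : ℂ) : fold (conj w) = fold w := by
  rcases le_total 0 w.im with h | h
  · rw [f7_fold_pos h, f7_fold_neg (by simpa using h), conj_conj]
  · rw [f7_fold_neg h, f7_fold_pos (by simpa using h)]

theorem f7_fold_cases (w : ℂ) : w = fold w ∨ w = conj (fold w) := by
  rcases le_total 0 w.im with h | h
  · left
    rw [f7_fold_pos h]
  · right
    rw [f7_fold_neg h, conj_conj]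

theorem f7_fold_h (q : RQ) (z : ℂ) : fold (q.h.eval (fold z)) = fold (q.h.eval z) := by
  rcases le_total 0 z.im with h | h
  · rw [f7_fold_pos h]
  · rw [f7_fold_neg h, q.h_conj, f7_fold_conj]

theorem f7_iter_conj (q : RQ) (n : ℕ) (z : ℂ) :
    (fun w => q.h.eval w)^[n] (conj z) = conj ((fun w => q.h.eval w)^[n] z) := by
  induction n with
  | zero => rfl
  | succ n ih =>
    rw [Function.iterate_succ_apply', Function.iterate_succ_apply', ih]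
    exact q.h_conj _

theorem f7_F (q : RQ) {S : TS} (hS : IsTS q S) (z : ℂ) :
    S.F (mm q.v (fold z)) = mm q.v (fold (q.h.eval z)) := by
  rw [hS.F_eq _ (fold_mem z), f7_fold_h]

theorem f7_F_iter (q : RQ) {S : TS} (hS : IsTS q S) (n : ℕ) (z : ℂ) :
    S.F^[n] (mm q.v (fold z)) = mm q.v (fold ((fun w => q.h.eval w)^[n] z)) := by
  induction n with
  | zero => rfl
  | succ n ih =>
    rw [Function.iterate_succ_apply', Function.iterate_succ_apply', ih, f7_F q hS]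

theorem f7_cB {ζ : ℂ} : ζ ∈ closedBall (0 : ℂ) 1 ↔ ‖ζ‖ ≤ 1 := mem_closedBall_zero_iff

theorem f7_conj_cB {ζ : ℂ} (h : ζ ∈ closedBall (0 : ℂ) 1) : conj ζ ∈ closedBall (0 : ℂ) 1 := by
  rw [f7_cB] at h ⊢
  rwa [Complex.norm_conj]

theorem f7_HD_cB {ζ : ℂ} (h : ζ ∈ HD) : ζ ∈ closedBall (0 : ℂ) 1 := f7_cB.2 h.1

/-- points of the closed basin, folded -/
theorem f7_mem {q : RQ} {S : TS} {A : XS S} {B : Br S A} {D : BD B} {χ : ℂ → ℂ}
    (mb : MB q D χ) (z : ℂ) :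
    z ∈ χ '' closedBall 0 1 ↔ mm q.v (fold z) ∈ D.Bc := by
  have hv : 0 < q.v.im := q.vpos
  constructor
  · rintro ⟨ζ, hζ, rfl⟩
    rcases le_total 0 ζ.im with h | h
    · have hζ' : ζ ∈ HD := ⟨f7_cB.1 hζ, h⟩
      rw [f7_fold_pos (mb.mem ζ hζ'), mb.disc ζ hζ']
      exact ⟨ζ, hζ', rfl⟩
    · have hζ' : conj ζ ∈ HD := ⟨f7_cB.1 (f7_conj_cB hζ), by simpa using h⟩
      have h1 : χ (conj ζ) = conj (χ ζ) := mb.sym ζ hζ
      rw [← f7_fold_conj, ← h1, f7_fold_pos (mb.mem _ hζ'), mb.disc _ hζ']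
      exact ⟨conj ζ, hζ', rfl⟩
  · rintro ⟨ζ, hζ, h⟩
    have h1 : χ ζ = fold z := by
      apply mm_inj hv (mb.mem ζ hζ) (fold_mem z)
      rw [mb.disc ζ hζ]
      exact h
    rcases f7_fold_cases z with h2 | h2
    · exact ⟨ζ, f7_HD_cB hζ, h1.trans h2.symm⟩
    · refine ⟨conj ζ, f7_conj_cB (f7_HD_cB hζ), ?_⟩
      rw [mb.sym ζ (f7_HD_cB hζ), h1]
      exact h2.symm

theorem f7_conj_mem {q : RQ} {S : TS} {A : XS S} {B : Br S A} {D : BD B} {χ : ℂ → ℂ}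
    (mb : MB q D χ) (z : ℂ) :
    conj z ∈ χ '' closedBall 0 1 ↔ z ∈ χ '' closedBall 0 1 := by
  rw [f7_mem mb, f7_mem mb, f7_fold_conj]

theorem f7_root {ξ : ℂ} (hξ : ξ ∈ HD) : ∃ ζ ∈ HD, 0 ≤ ζ.re ∧ sqf ζ = ξ := by
  obtain ⟨w, hw⟩ := IsAlgClosed.exists_pow_nat_eq ξ (n := 2) (by norm_num)
  have hξi : 0 ≤ ξ.im := hξ.2
  have him : 0 ≤ w.re * w.im := by
    have h1 : (w ^ 2).im = 2 * (w.re * w.im) := by
      rw [pow_two, Complex.mul_im]
      ring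
    rw [hw] at h1
    linarith
  have hn : ‖w‖ ≤ 1 := by
    have h1 : ‖w‖ ^ 2 ≤ 1 := by
      rw [← norm_pow, hw]
      exact hξ.1
    nlinarith [norm_nonneg w]
  have key : ∃ ζ : ℂ, ζ ^ 2 = ξ ∧ ‖ζ‖ ≤ 1 ∧ 0 ≤ ζ.re ∧ 0 ≤ ζ.im := by
    by_cases h0 : 0 ≤ w.re ∧ 0 ≤ w.im
    · exact ⟨w, hw, hn, h0.1, h0.2⟩
    · by_cases h1 : 0 ≤ -w.re ∧ 0 ≤ -w.im
      · refine ⟨-w, ?_, ?_, ?_, ?_⟩
        · rw [neg_sq, hw]
        · rw [norm_neg]
          exact hn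
        · simpa using h1.1
        · simpa using h1.2
      · exfalso
        rcases lt_trichotomy w.re 0 with h2 | h2 | h2
        · have h3 : w.im ≤ 0 := by
            by_contra h4
            push Not at h4
            nlinarith
          exact h1 ⟨by linarith, by linarith⟩
        · rcases le_total 0 w.im with h3 | h3
          · exact h0 ⟨h2.ge, h3⟩
          · exact h1 ⟨by linarith, by linarith⟩
        · have h3 : 0 ≤ w.im := by
            by_contra h4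
            push Not at h4
            nlinarith
          exact h0 ⟨h2.le, h3⟩
  obtain ⟨ζ, h1, h2, h3, h4⟩ := key
  refine ⟨ζ, ⟨h2, h4⟩, h3, ?_⟩
  rw [sqf, h1, f7_fold_pos hξi]

theorem f7_root_left {ξ : ℂ} (hξ : ξ ∈ HD) : ∃ ζ ∈ HD, ζ.re ≤ 0 ∧ sqf ζ = ξ := by
  obtain ⟨ζ, h1, h2, h3⟩ := f7_root hξ
  refine ⟨-conj ζ, ⟨?_, ?_⟩, ?_, ?_⟩
  · rw [norm_neg, Complex.norm_conj]
    exact h1.1
  · have : 0 ≤ ζ.im := h1.2
    simpa using this
  · simpa using h2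
  · rw [← h3, sqf, sqf, neg_sq, ← map_pow, f7_fold_conj]

variable {q q' : RQ}

/-- the closed marked basin contains no point of the orbit of the nonreal critical value -/
theorem FD.post (d : FD q q') (n : ℕ) :
    (fun w => q.h.eval w)^[n] q.v ∉ d.χ '' closedBall 0 1 ∧
    (fun w => q.h.eval w)^[n] (conj q.v) ∉ d.χ '' closedBall 0 1 := by
  have hv : 0 < q.v.im := q.vpos
  have h1 : ∀ n : ℕ, d.S.F^[n] 0 ∈ d.A.Xo := by
    intro n
    induction n with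
    | zero => exact d.A.zero_mem
    | succ n ih =>
      rw [Function.iterate_succ_apply']
      exact d.A.FXo ih
  have h2 : (fun w => q.h.eval w)^[n] q.v ∉ d.χ '' closedBall 0 1 := by
    intro h
    rw [f7_mem d.mb, ← f7_F_iter q d.hS, f7_fold_pos hv.le, mm_self hv] at h
    obtain ⟨ζ, hζ, h3⟩ := h
    apply (d.D.maps hζ).2
    have h4 : exp (d.D.c ζ) = d.S.F^[n] 0 := h3
    rw [h4]
    exact h1 n
  refine ⟨h2, ?_⟩
  rw [f7_iter_conj, f7_conj_mem d.mb]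
  exact h2

/-- the two preimages of depth one -/
theorem FD.exists_s1 (d : FD q q') : ∃ s, Par q d.χ 1 s ∧
    (∀ ζ ∈ closedBall (0 : ℂ) 1, 0 < (s ζ).im) ∧
    ∀ y, y ∉ d.χ '' closedBall 0 1 → q.h.eval y ∈ d.χ '' closedBall 0 1 →
      y ∈ s '' closedBall 0 1 ∨ conj y ∈ s '' closedBall 0 1 := by
  have hv : 0 < q.v.im := q.vpos
  set D := d.D with hD
  set S := d.S with hS
  -- membership facts
  have hUp : ∀ ξ ∈ HD, -exp (D.c ξ / 2) ∈ DD := by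
    intro ξ hξ
    have h1 : exp (D.c ξ / 2) ∈ DD := D.t1_half_mem_DD hξ
    have h2 : ‖exp (D.c ξ / 2)‖ ≤ 1 := by simpa [DD] using h1
    simpa [DD] using h2
  have hsq : ∀ ξ : ℂ, (-exp (D.c ξ / 2)) ^ 2 = exp (D.c ξ) := by
    intro ξ
    rw [neg_sq, t1_exp_half_sq]
  have hΘ1 : ∀ ξ ∈ HD, S.Θ (-exp (D.c ξ / 2)) ≠ 1 := by
    intro ξ hξ h
    have h1 := S.FΘ _ (hUp ξ hξ)
    have h2 := S.FΘ 1 (by simp [DD])
    rw [S.Θone, one_pow] at h2
    rw [h, hsq, h2] at h1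
    exact D.ne_one hξ h1.symm
  have hG1 : ∀ ξ ∈ HD, S.G2 (exp (D.c ξ)) ≠ 1 := by
    intro ξ hξ h
    have h1 := S.F2 _ (D.mem_DD hξ)
    have h2 := S.FΘ 1 (by simp [DD])
    rw [S.Θone, one_pow] at h2
    rw [h, h2] at h1
    exact D.ne_one hξ h1.symm
  have hΘD : ∀ ξ ∈ HD, S.Θ (-exp (D.c ξ / 2)) ∈ DD := fun ξ hξ => S.mapsΘ (hUp ξ hξ)
  have hGD : ∀ ξ ∈ HD, S.G2 (exp (D.c ξ)) ∈ DD := fun ξ hξ => S.maps2 (D.mem_DD hξ)
  -- agreement on the real line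
  have hagree : ∀ ξ ∈ HD, ξ.im = 0 →
      S.Θ (-exp (D.c ξ / 2)) = S.G2 (exp (D.c ξ)) := by
    intro ξ hξ h0
    obtain ⟨h1, h2⟩ := D.t2_real hξ h0
    have h3 := S.bd2 (D.a ξ.re) ⟨h2.1.le, h2.2.le⟩
    have h4 : exp (D.c ξ) = ec (D.a ξ.re) := by rw [h1, ec]
    have h5 : exp (D.c ξ / 2) = ec (D.a ξ.re / 2) := by
      rw [h1, ec]
      congr 1
      push_cast
      ring
    rw [h4, h5, h3]
  -- the map
  set s : ℂ → ℂ := fun ξ => if 0 ≤ ξ.im then mi q.v (S.Θ (-exp (D.c ξ / 2)))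
    else mi q.v (S.G2 (exp (D.c (conj ξ)))) with hs
  have hsup : ∀ ξ : ℂ, 0 ≤ ξ.im → s ξ = mi q.v (S.Θ (-exp (D.c ξ / 2))) :=
    fun ξ h => if_pos h
  have hlowHD : ∀ ξ : ℂ, ‖ξ‖ ≤ 1 → ξ.im ≤ 0 → conj ξ ∈ HD := by
    intro ξ h1 h2
    exact ⟨by rw [Complex.norm_conj]; exact h1, by simpa using h2⟩
  have hslow : ∀ ξ : ℂ, ‖ξ‖ ≤ 1 → ξ.im ≤ 0 → s ξ = mi q.v (S.G2 (exp (D.c (conj ξ)))) := by
    intro ξ h1 h2
    rcases h2.lt_or_eq with h3 | h3
    · exact if_neg (not_le.2 h3)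
    · have h4 : conj ξ = ξ := Complex.ext (by simp) (by simp [h3])
      have h5 : ξ ∈ HD := ⟨h1, h3.ge⟩
      rw [hsup ξ h3.ge, h4, hagree ξ h5 h3]
  have hmmup : ∀ ξ ∈ HD, mm q.v (s ξ) = S.Θ (-exp (D.c ξ / 2)) := by
    intro ξ hξ
    rw [hsup ξ hξ.2, mm_mi hv (hΘD ξ hξ) (hΘ1 ξ hξ)]
  have hmmlow : ∀ ξ : ℂ, ‖ξ‖ ≤ 1 → ξ.im ≤ 0 →
      mm q.v (s ξ) = S.G2 (exp (D.c (conj ξ))) := by
    intro ξ h1 h2
    have h3 := hlowHD ξ h1 h2
    rw [hslow ξ h1 h2, mm_mi hv (hGD _ h3) (hG1 _ h3)]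
  have hsHH : ∀ ξ : ℂ, ‖ξ‖ ≤ 1 → s ξ ∈ HH := by
    intro ξ h1
    rcases le_total 0 ξ.im with h2 | h2
    · rw [hsup ξ h2]
      exact mi_mem hv (hΘD ξ ⟨h1, h2⟩) (hΘ1 ξ ⟨h1, h2⟩)
    · have h3 := hlowHD ξ h1 h2
      rw [hslow ξ h1 h2]
      exact mi_mem hv (hGD _ h3) (hG1 _ h3)
  -- positivity of the imaginary part
  have hspos : ∀ ξ ∈ closedBall (0 : ℂ) 1, 0 < (s ξ).im := by
    intro ξ hξ
    have h1 : ‖ξ‖ ≤ 1 := f7_cB.1 hξ
    have h2 : 0 ≤ (s ξ).im := hsHH ξ h1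
    refine lt_of_le_of_ne h2 ?_
    intro h3
    have h4 := (norm_mm_eq_one hv (hsHH ξ h1)).2 h3.symm
    rcases le_total 0 ξ.im with h5 | h5
    · have hξD : ξ ∈ HD := ⟨h1, h5⟩
      rw [hmmup ξ hξD] at h4
      rcases S.circΘ _ (hUp ξ hξD) h4 with h6 | ⟨θ, hθ, h6⟩
      · have h7 := hsq ξ
        rw [h6, one_pow] at h7
        exact D.ne_one hξD h7.symm
      · have h7 : exp (D.c ξ / 2) ∈ D.Pp := ⟨ξ, hξD, rfl⟩
        apply D.Pp_ne h7 θ ⟨S.κ_mem.1.le.trans hθ.1, hθ.2⟩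
        rw [← h6, neg_neg]
    · have h6 := hlowHD ξ h1 h5
      rw [hmmlow ξ h1 h5] at h4
      exact D.ne_one h6 (S.circ2 _ (D.mem_DD h6) h4)
  -- the functional equation
  have heq : ∀ ξ ∈ closedBall (0 : ℂ) 1, q.h.eval (s ξ) = d.χ ξ := by
    intro ξ hξ
    have h1 : ‖ξ‖ ≤ 1 := f7_cB.1 hξ
    have h2 := hsHH ξ h1
    have h3 := d.hS.F_eq _ h2
    rcases le_total 0 ξ.im with h5 | h5
    · have hξD : ξ ∈ HD := ⟨h1, h5⟩
      have h4 : 0 ≤ (q.h.eval (s ξ)).im := by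
        apply d.hS.imΘ _ h2
        rw [hmmup ξ hξD]
        exact mem_image_of_mem _ (hUp ξ hξD)
      rw [f7_fold_pos h4, hmmup ξ hξD, S.FΘ _ (hUp ξ hξD), hsq, ← d.mb.disc ξ hξD] at h3
      exact (mm_inj hv (d.mb.mem ξ hξD) h4 h3).symm
    · have h6 := hlowHD ξ h1 h5
      have h4 : (q.h.eval (s ξ)).im ≤ 0 := by
        apply d.hS.im2 _ h2
        rw [hmmlow ξ h1 h5]
        exact mem_image_of_mem _ (D.mem_DD h6)
      rw [f7_fold_neg h4, hmmlow ξ h1 h5, S.F2 _ (D.mem_DD h6), ← d.mb.disc _ h6] at h3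
      have h7 : conj (q.h.eval (s ξ)) ∈ HH := by
        show 0 ≤ (conj (q.h.eval (s ξ))).im
        simpa using h4
      have h8 := mm_inj hv (d.mb.mem _ h6) h7 h3
      rw [d.mb.sym ξ hξ] at h8
      have h9 := congrArg conj h8
      rw [conj_conj, conj_conj] at h9
      exact h9.symm
  -- not in the basin
  have hout : ∀ ξ ∈ closedBall (0 : ℂ) 1, s ξ ∉ d.χ '' closedBall 0 1 := by
    intro ξ hξ hmem
    have h1 : ‖ξ‖ ≤ 1 := f7_cB.1 hξ
    rw [f7_mem d.mb, f7_fold_pos (hsHH ξ h1)] at hmem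
    rcases le_total 0 ξ.im with h5 | h5
    · have hξD : ξ ∈ HD := ⟨h1, h5⟩
      rw [hmmup ξ hξD] at hmem
      have h6 := D.of_Θ (hUp ξ hξD) hmem
      have h7 : exp (D.c ξ / 2) ∈ D.Pp := ⟨ξ, hξD, rfl⟩
      exact D.sheet_disj h7 h6
    · have h6 := hlowHD ξ h1 h5
      rw [hmmlow ξ h1 h5] at hmem
      exact D.of_G2 (D.mem_DD h6) hmem
  -- continuity
  have hHDc : IsClosed HD := by
    have : HD = closedBall (0 : ℂ) 1 ∩ {ζ : ℂ | 0 ≤ ζ.im} := by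
      ext ζ
      simp [HD]
    rw [this]
    exact isClosed_closedBall.inter (isClosed_le continuous_const Complex.continuous_im)
  have hLc : IsClosed {ζ : ℂ | ‖ζ‖ ≤ 1 ∧ ζ.im ≤ 0} := by
    have : {ζ : ℂ | ‖ζ‖ ≤ 1 ∧ ζ.im ≤ 0} = closedBall (0 : ℂ) 1 ∩ {ζ : ℂ | ζ.im ≤ 0} := by
      ext ζ
      simp
    rw [this]
    exact isClosed_closedBall.inter (isClosed_le Complex.continuous_im continuous_const)
  have hcov : closedBall (0 : ℂ) 1 = HD ∪ {ζ : ℂ | ‖ζ‖ ≤ 1 ∧ ζ.im ≤ 0} := by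
    ext ζ
    constructor
    · intro h
      rcases le_total 0 ζ.im with h2 | h2
      · exact Or.inl ⟨f7_cB.1 h, h2⟩
      · exact Or.inr ⟨f7_cB.1 h, h2⟩
    · rintro (h | h)
      · exact f7_cB.2 h.1
      · exact f7_cB.2 h.1
  have hscont : ContinuousOn s (closedBall 0 1) := by
    rw [hcov]
    apply ContinuousOn.union_of_isClosed _ _ hHDc hLc
    · have h1 : ContinuousOn (fun ξ => -exp (D.c ξ / 2)) HD :=
        ((D.cont.div_const 2).cexp).neg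
      have h2 : ContinuousOn (fun ξ => S.Θ (-exp (D.c ξ / 2))) HD := S.contΘ.comp h1 hUp
      have h3 : ContinuousOn (fun ξ => mi q.v (S.Θ (-exp (D.c ξ / 2)))) HD :=
        (mi_cont hv).comp h2 (fun ξ hξ => ⟨hΘD ξ hξ, hΘ1 ξ hξ⟩)
      exact h3.congr (fun ξ hξ => hsup ξ hξ.2)
    · have h1 : ContinuousOn (fun ξ => exp (D.c ξ)) HD := D.cont.cexp
      have h2 : ContinuousOn (fun ξ => S.G2 (exp (D.c ξ))) HD :=
        S.cont2.comp h1 (fun ξ hξ => D.mem_DD hξ)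
      have h3 : ContinuousOn (fun ξ => mi q.v (S.G2 (exp (D.c ξ)))) HD :=
        (mi_cont hv).comp h2 (fun ξ hξ => ⟨hGD ξ hξ, hG1 ξ hξ⟩)
      have h4 : ContinuousOn (fun ξ : ℂ => mi q.v (S.G2 (exp (D.c (conj ξ)))))
          {ζ : ℂ | ‖ζ‖ ≤ 1 ∧ ζ.im ≤ 0} :=
        h3.comp Complex.continuous_conj.continuousOn (fun ξ hξ => hlowHD ξ hξ.1 hξ.2)
      exact h4.congr (fun ξ hξ => hslow ξ hξ.1 hξ.2)
  refine ⟨s, ⟨hscont, ?_, ?_⟩, hspos, ?_⟩
  · intro ξ hξ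
    show q.h.eval (s ξ) = d.χ ξ
    exact heq ξ hξ
  · intro m hm ξ hξ
    have hm0 : m = 0 := by omega
    subst hm0
    exact hout ξ hξ
  · intro y hy hhy
    have key : fold y ∈ s '' closedBall 0 1 := by
      rw [f7_mem d.mb] at hy hhy
      rw [← f7_F q d.hS] at hhy
      obtain ⟨ξ, hξ, hξe⟩ := hhy
      have hξe' : exp (D.c ξ) = S.F (mm q.v (fold y)) := hξe
      have hback : fold y = mi q.v (mm q.v (fold y)) := (mi_mm hv (fold_mem y)).symm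
      rcases S.cover _ (mm_mem hv (fold_mem y)) with ⟨t, ht, hte⟩ | ⟨w, hw, hwe⟩ | ⟨w, hw, hwe⟩
      · rw [← hte, S.FΘ t ht] at hξe'
        have h1 : (t - exp (D.c ξ / 2)) * (t + exp (D.c ξ / 2)) = 0 := by
          have h2 := t1_exp_half_sq (D.c ξ)
          rw [hξe'] at h2
          linear_combination -h2
        rcases mul_eq_zero.1 h1 with h2 | h2
        · exfalso
          obtain ⟨ζ, hζ, hre, hsqf⟩ := f7_root hξ
          apply hy
          refine ⟨ζ, hζ, ?_⟩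
          have h3 := D.Θ_eq hζ hre
          rw [hsqf, ← sub_eq_zero.1 h2, hte] at h3
          exact h3
        · refine ⟨ξ, f7_HD_cB hξ, ?_⟩
          have h3 : t = -exp (D.c ξ / 2) := eq_neg_of_add_eq_zero_left h2
          rw [hsup ξ hξ.2, ← h3, hte, ← hback]
      · rw [← hwe, S.F2 w hw] at hξe'
        refine ⟨conj ξ, f7_conj_cB (f7_HD_cB hξ), ?_⟩
        have h2 : (conj ξ).im ≤ 0 := by
          have : 0 ≤ ξ.im := hξ.2
          simpa using this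
        rw [hslow _ (f7_cB.1 (f7_conj_cB (f7_HD_cB hξ))) h2, conj_conj, hξe', hwe, ← hback]
      · exfalso
        rw [← hwe, S.F4 w hw] at hξe'
        obtain ⟨ζ, hζ, hre, hsqf⟩ := f7_root_left hξ
        apply hy
        refine ⟨ζ, hζ, ?_⟩
        have h3 := D.G4_eq hζ hre
        rw [hsqf, hξe', hwe] at h3
        exact h3
    rcases f7_fold_cases y with h | h
    · left
      rw [h]
      exact key
    · right
      have h2 : conj y = fold y := by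
        rw [h]
        simp only [conj_conj]
        rw [← h]
      rw [h2]
      exact key

theorem FD.par_conj (d : FD q q') {n : ℕ} {s : ℂ → ℂ} (h : Par q d.χ n s) :
    Par q d.χ n (fun ζ => conj (s (conj ζ))) := by
  refine ⟨?_, ?_, ?_⟩
  · apply Complex.continuous_conj.comp_continuousOn
    exact h.cont.comp Complex.continuous_conj.continuousOn (fun ζ hζ => f7_conj_cB hζ)
  · intro ζ hζ
    rw [f7_iter_conj, h.eq _ (f7_conj_cB hζ), d.mb.sym ζ hζ, conj_conj]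
  · intro m hm ζ hζ
    rw [f7_iter_conj, f7_conj_mem d.mb]
    exact h.out m hm _ (f7_conj_cB hζ)

end

end Pool.TU
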