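import Pool.Agent.Helper71.TU.C1
import Pool.Agent.Helper71.TU.B15
import Pool.Agent.Helper71.TU.A6

/-! # TU G1: local Böttcher chart at the marked point -/

open Complex Set Filter Topology Metric Polynomial ComplexConjugate Pool.Tuning

namespace Pool.TU

noncomputable section

theorem G1_cast (P : ℝ[X]) (x : ℝ) :
    (P.map (algebraMap ℝ ℂ)).eval (x : ℂ) = ((P.eval x : ℝ) : ℂ) := by
  rw [Polynomial.eval_map]
  exact Polynomial.eval₂_at_apply (algebraMap ℝ ℂ) x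

theorem G1_conj (P : ℝ[X]) (z : ℂ) :
    (P.map (algebraMap ℝ ℂ)).eval (conj z) = conj ((P.map (algebraMap ℝ ℂ)).eval z) := by
  have h := Polynomial.hom_eval₂ P (algebraMap ℝ ℂ) (starRingEnd ℂ) z
  rw [Polynomial.eval_map, Polynomial.eval_map, h]
  congr 1
  ext x
  simp

theorem G1_expand (q : RQ) (hfix : q.p.eval q.r = q.r) : ∃ (Q : ℝ[X]), 0 < Q.eval 0 ∧
    ∀ z : ℂ, q.h.eval (q.r + z) = q.r + z ^ 2 * (Q.map (algebraMap ℝ ℂ)).eval z := by
  set T := taylor q.r q.p with hT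
  have hder0 : q.p.derivative.eval q.r = 0 := by
    have h1 := q.der q.r
    rw [derivative_map, G1_cast, sub_self] at h1
    simp only [mul_zero, zero_mul] at h1
    exact_mod_cast h1
  have hT0 : T.coeff 0 = q.r := by rw [hT, taylor_coeff_zero, hfix]
  have hT1 : T.coeff 1 = 0 := by rw [hT, taylor_coeff_one, hder0]
  have hTe : T = T.divX.divX * X ^ 2 + C q.r := by
    conv_lhs => rw [← divX_mul_X_add T]
    have h2 : T.divX = T.divX.divX * X + C (T.divX.coeff 0) := (divX_mul_X_add T.divX).symm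
    rw [coeff_divX, zero_add, hT1, C_0, add_zero] at h2
    rw [hT0]
    conv_lhs => rw [h2]
    ring
  refine ⟨T.divX.divX, ?_, ?_⟩
  · have h2 : T.divX.divX.eval 0 = T.coeff 2 := by
      rw [← coeff_zero_eq_eval_zero, coeff_divX, coeff_divX]
    rw [h2, hT, taylor_coeff]
    have h3 : (derivative^[2] q.p) = (Nat.factorial 2) • hasseDeriv 2 q.p := by
      rw [← Polynomial.factorial_smul_hasseDeriv]
      rfl
    have h4 : ((derivative (derivative q.p)).eval q.r : ℝ) = 2 * (hasseDeriv 2 q.p).eval q.r := by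
      have h5 : derivative (derivative q.p) = (Nat.factorial 2) • hasseDeriv 2 q.p := h3
      rw [h5]
      simp [Nat.factorial]
    have h6 : (q.p.map (algebraMap ℝ ℂ)).derivative = C (4 * (q.p.leadingCoeff : ℂ)) *
        (X - C (q.r : ℂ)) * (X - C q.c) * (X - C (conj q.c)) := by
      apply Polynomial.funext
      intro z
      rw [q.der z]
      simp
    have h7 : (((derivative (derivative q.p)).eval q.r : ℝ) : ℂ) =
        4 * (q.p.leadingCoeff : ℂ) * (q.r - q.c) * (q.r - conj q.c) := by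
      rw [← G1_cast, ← derivative_map, ← derivative_map, h6]
      simp [derivative_mul]
    have h8 : (q.r - q.c) * ((q.r : ℂ) - conj q.c) = ((normSq (q.r - q.c) : ℝ) : ℂ) := by
      rw [← Complex.mul_conj]
      simp
    have h9 : ((derivative (derivative q.p)).eval q.r : ℝ) =
        4 * q.p.leadingCoeff * normSq (q.r - q.c) := by
      have : (((derivative (derivative q.p)).eval q.r : ℝ) : ℂ) =
        ((4 * q.p.leadingCoeff * normSq (q.r - q.c) : ℝ) : ℂ) := by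
        rw [h7, mul_assoc, h8]
        push_cast
        ring
      exact_mod_cast this
    have h10 : 0 < normSq ((q.r : ℂ) - q.c) := by
      rw [Complex.normSq_pos]
      intro h
      have h11 := congrArg Complex.im h
      simp at h11
      exact q.hc.ne' h11
    have h12 := q.lead
    have h13 : 0 < 4 * q.p.leadingCoeff * normSq (q.r - q.c) := by positivity
    rw [← h9, h4] at h13
    linarith
  · intro z
    have h1 : q.h.eval (q.r + z) = (T.map (algebraMap ℝ ℂ)).eval z := by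
      rw [hT, taylor_apply, Polynomial.map_comp]
      simp only [Polynomial.map_add, map_X, map_C, eval_comp, eval_add, eval_X, eval_C]
      rw [add_comm]
      rfl
    rw [h1]
    conv_lhs => rw [hTe]
    simp only [Polynomial.map_add, Polynomial.map_mul, Polynomial.map_pow, map_X, map_C, eval_add,
      eval_mul, eval_pow, eval_X, eval_C]
    rw [show (algebraMap ℝ ℂ) q.r = (q.r : ℂ) from rfl]
    ring

theorem G1_inv (φ : ℂ → ℂ) (r1 : ℝ) (hr1 : 0 < r1) (hφ : DifferentiableOn ℂ φ (ball 0 r1))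
    (h0 : φ 0 = 0) (h1 : deriv φ 0 = 1) :
    ∃ (ψ : ℂ → ℂ) (r2 : ℝ), 0 < r2 ∧ DifferentiableOn ℂ ψ (ball 0 r2) ∧
      (∀ ζ ∈ ball (0 : ℂ) r2, ψ ζ ∈ ball (0 : ℂ) r1 ∧ φ (ψ ζ) = ζ) ∧ ψ 0 = 0 ∧
      (∀ ζ ∈ ball (0 : ℂ) r2, ∀ ζ' ∈ ball (0 : ℂ) r2,
        ‖(ψ ζ - ψ ζ') - (ζ - ζ')‖ ≤ (1 / 2) * ‖ζ - ζ'‖) := by
  have han : AnalyticAt ℂ φ 0 := hφ.analyticAt (ball_mem_nhds _ hr1)
  have hne : deriv φ 0 ≠ 0 := by rw [h1]; exact one_ne_zero
  set ψ := han.hasStrictDerivAt.localInverse _ _ _ hne with hψ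
  have hψan : AnalyticAt ℂ ψ 0 := by
    have := han.analyticAt_localInverse hne
    rwa [h0] at this
  have hψ0 : ψ 0 = 0 := by
    have h2 : ψ (φ 0) = 0 := HasStrictFDerivAt.localInverse_apply_image ..
    rwa [h0] at h2
  have hψd : HasStrictDerivAt ψ 1 0 := by
    have h5 : (deriv φ 0)⁻¹ = 1 := by rw [h1, inv_one]
    have h6 := han.hasStrictDerivAt.to_localInverse hne
    rw [h0] at h6
    rw [← h5]
    exact h6
  have hr : ∀ᶠ x in 𝓝 (0 : ℂ), φ (ψ x) = x := by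
    have := han.hasStrictDerivAt.eventually_right_inverse hne
    rwa [h0] at this
  have hm : ∀ᶠ x in 𝓝 (0 : ℂ), ψ x ∈ ball (0 : ℂ) r1 := by
    have hc := hψan.continuousAt
    have : ball (0 : ℂ) r1 ∈ 𝓝 (ψ 0) := by rw [hψ0]; exact ball_mem_nhds _ hr1
    exact hc this
  have hd : ∀ᶠ x in 𝓝 (0 : ℂ), AnalyticAt ℂ ψ x := hψan.eventually_analyticAt
  have hs : ∀ᶠ p in 𝓝 ((0 : ℂ), (0 : ℂ)), ‖ψ p.1 - ψ p.2 - (p.1 - p.2)‖ ≤
      (1 / 2) * ‖p.1 - p.2‖ := by
    have h3 := hψd.isLittleO.def (show (0 : ℝ) < 1 / 2 by norm_num)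
    filter_upwards [h3] with p hp
    simpa using hp
  rw [nhds_prod_eq] at hs
  obtain ⟨t, ht, hs2⟩ := (Filter.eventually_prod_self_iff
    (r := fun a b => ‖ψ a - ψ b - (a - b)‖ ≤ (1 / 2) * ‖a - b‖)).1 hs
  obtain ⟨r2, hr2, hball⟩ := Metric.mem_nhds_iff.1
    (Filter.inter_mem ht (Filter.inter_mem hr (Filter.inter_mem hm hd)))
  refine ⟨ψ, r2, hr2, ?_, ?_, hψ0, ?_⟩
  · intro ζ hζ
    exact (hball hζ).2.2.2.differentiableAt.differentiableWithinAt
  · intro ζ hζ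
    exact ⟨(hball hζ).2.2.1, (hball hζ).2.1⟩
  · intro ζ hζ ζ' hζ'
    exact hs2 ζ (hball hζ).1 ζ' (hball hζ').1

theorem G1_plane (q : RQ) (hfix : q.p.eval q.r = q.r) :
    ∃ (χ : ℂ → ℂ) (r2 : ℝ), 0 < r2 ∧ r2 ≤ 1 ∧ DifferentiableOn ℂ χ (ball 0 r2) ∧
      (∀ ζ ∈ ball (0 : ℂ) r2, χ (conj ζ) = conj (χ ζ)) ∧ χ 0 = q.r ∧
      (∀ ζ ∈ ball (0 : ℂ) r2, q.h.eval (χ ζ) = χ (ζ ^ 2)) ∧ InjOn χ (ball 0 r2) ∧
      (∀ ζ ∈ ball (0 : ℂ) r2, 0 < ζ.im → 0 < (χ ζ).im) ∧
      (∀ x y : ℝ, (x : ℂ) ∈ ball (0 : ℂ) r2 → (y : ℂ) ∈ ball (0 : ℂ) r2 → x < y →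
        (χ x).re < (χ y).re) ∧
      (∀ δ, δ ≤ r2 → IsOpen (χ '' ball 0 δ)) := by
  obtain ⟨Q, hQ0, hQ⟩ := G1_expand q hfix
  set a : ℝ := Q.eval 0 with ha
  have ha0 : (a : ℂ) ≠ 0 := by exact_mod_cast hQ0.ne'
  set e : ℂ → ℂ := fun z => (Q.map (algebraMap ℝ ℂ)).eval (z / a) / a with he
  have hean : AnalyticAt ℂ e 0 := by
    have hd : Differentiable ℂ e := by
      intro z
      apply DifferentiableAt.div_const
      exact (Q.map (algebraMap ℝ ℂ)).differentiable.differentiableAt.comp z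
        (differentiableAt_id.div_const _)
    exact hd.analyticAt 0
  have he0 : e 0 = 1 := by
    simp only [he, zero_div]
    have : (Q.map (algebraMap ℝ ℂ)).eval (0 : ℂ) = (a : ℂ) := by
      have := G1_cast Q 0
      rw [← ha] at this
      simpa using this
    rw [this, div_self ha0]
  have hereal : ∀ᶠ z in 𝓝 (0 : ℂ), e (conj z) = conj (e z) := by
    refine Filter.Eventually.of_forall fun z => ?_
    simp only [he]
    rw [map_div₀, ← G1_conj, map_div₀, Complex.conj_ofReal]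
  obtain ⟨φ, r1, hr1, hφd, hφinj, hφ0, hφ1, hφm, hφe, hφc⟩ :=
    boettcher_local 2 le_rfl e hean he0 hereal
  obtain ⟨ψ, r2', hr2', hψd, hψm, hψ0, hψl⟩ := G1_inv φ r1 hr1 hφd hφ0 hφ1
  have hr2 : 0 < min r2' 1 := lt_min hr2' one_pos
  set r2 := min r2' 1 with hr2def
  have hle : r2 ≤ r2' := min_le_left _ _
  have hle1 : r2 ≤ 1 := min_le_right _ _
  have hsub : ball (0 : ℂ) r2 ⊆ ball 0 r2' := ball_subset_ball hle
  have hconj_mem : ∀ {r : ℝ} {z : ℂ}, z ∈ ball (0 : ℂ) r → conj z ∈ ball (0 : ℂ) r := by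
    intro r z hz
    rw [mem_ball_zero_iff] at hz ⊢
    rwa [Complex.norm_conj]
  have hsq_mem : ∀ {z : ℂ}, z ∈ ball (0 : ℂ) r2 → z ^ 2 ∈ ball (0 : ℂ) r2 := by
    intro z hz
    rw [mem_ball_zero_iff] at hz ⊢
    rw [norm_pow]
    nlinarith [norm_nonneg z]
  have hψc : ∀ ζ ∈ ball (0 : ℂ) r2, ψ (conj ζ) = conj (ψ ζ) := by
    intro ζ hζ
    apply hφinj (hψm _ (hsub (hconj_mem hζ))).1 (hconj_mem (hψm _ (hsub hζ)).1)
    rw [(hψm _ (hsub (hconj_mem hζ))).2, hφc _ (hψm _ (hsub hζ)).1, (hψm _ (hsub hζ)).2]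
  have hψe : ∀ ζ ∈ ball (0 : ℂ) r2, ψ ζ ^ 2 * e (ψ ζ) = ψ (ζ ^ 2) := by
    intro ζ hζ
    apply hφinj (hφm _ (hψm _ (hsub hζ)).1) (hψm _ (hsub (hsq_mem hζ))).1
    rw [hφe _ (hψm _ (hsub hζ)).1, (hψm _ (hsub hζ)).2, (hψm _ (hsub (hsq_mem hζ))).2]
  have him : ∀ ζ : ℂ, ((q.r : ℂ) + ψ ζ / a).im = (ψ ζ).im / a := by
    intro ζ
    rw [Complex.add_im, Complex.ofReal_im, zero_add, Complex.div_ofReal_im]
  have hre : ∀ ζ : ℂ, ((q.r : ℂ) + ψ ζ / a).re = q.r + (ψ ζ).re / a := by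
    intro ζ
    rw [Complex.add_re, Complex.ofReal_re, Complex.div_ofReal_re]
  refine ⟨fun ζ => q.r + ψ ζ / a, r2, hr2, hle1, ?_, ?_, ?_, ?_, ?_, ?_, ?_, ?_⟩
  · exact ((hψd.mono hsub).div_const _).const_add _
  · intro ζ hζ
    simp only
    rw [hψc ζ hζ, map_add, map_div₀, Complex.conj_ofReal, Complex.conj_ofReal]
  · simp only [hψ0, zero_div, add_zero]
  · intro ζ hζ
    simp only
    rw [hQ, ← hψe ζ hζ]
    simp only [he]
    field_simp
  · intro ζ hζ ζ' hζ' h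
    simp only at h
    have h1 : ψ ζ = ψ ζ' := by
      have h2 := add_left_cancel h
      exact (div_left_inj' ha0).1 h2
    rw [← (hψm _ (hsub hζ)).2, ← (hψm _ (hsub hζ')).2, h1]
  · intro ζ hζ hpos
    simp only
    rw [him]
    apply div_pos _ hQ0
    have h1 := hψl ζ (hsub hζ) (conj ζ) (hsub (hconj_mem hζ))
    rw [hψc ζ hζ, Complex.sub_conj, Complex.sub_conj] at h1
    have h2 := (Complex.abs_im_le_norm _).trans h1
    rw [norm_mul, Complex.norm_I, mul_one, Complex.norm_real, Real.norm_eq_abs,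
      abs_of_pos (by positivity : 0 < 2 * ζ.im)] at h2
    simp at h2
    rw [abs_le] at h2
    linarith [h2.1]
  · intro x y hx hy hxy
    simp only
    rw [hre, hre]
    have h1 := hψl (y : ℂ) (hsub hy) (x : ℂ) (hsub hx)
    have h2 := (Complex.abs_re_le_norm _).trans h1
    rw [← Complex.ofReal_sub, Complex.norm_real, Real.norm_eq_abs,
      abs_of_pos (sub_pos.2 hxy)] at h2
    simp only [Complex.sub_re, Complex.ofReal_re] at h2
    rw [abs_le] at h2
    have h3 : (ψ x).re < (ψ y).re := by linarith [h2.1]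
    have := div_lt_div_of_pos_right h3 hQ0
    linarith
  · intro δ hδ
    have hδ' : ball (0 : ℂ) δ ⊆ ball 0 r2' := ball_subset_ball (hδ.trans hle)
    have h1 : (fun ζ => (q.r : ℂ) + ψ ζ / a) '' ball 0 δ =
        (fun z : ℂ => (a : ℂ) * (z - q.r)) ⁻¹' (ball 0 r1 ∩ φ ⁻¹' ball 0 δ) := by
      ext z
      constructor
      · rintro ⟨ζ, hζ, rfl⟩
        have h2 : (a : ℂ) * ((q.r : ℂ) + ψ ζ / a - q.r) = ψ ζ := by
          field_simp
          ring
        rw [Set.mem_preimage, h2]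
        refine ⟨(hψm _ (hδ' hζ)).1, ?_⟩
        rw [Set.mem_preimage, (hψm _ (hδ' hζ)).2]
        exact hζ
      · rintro ⟨h2, h3⟩
        have h3' : φ ((a : ℂ) * (z - q.r)) ∈ ball (0 : ℂ) δ := h3
        refine ⟨φ ((a : ℂ) * (z - q.r)), h3', ?_⟩
        have h4 : ψ (φ ((a : ℂ) * (z - q.r))) = (a : ℂ) * (z - q.r) := by
          apply hφinj (hψm _ (hδ' h3')).1 h2
          exact (hψm _ (hδ' h3')).2
        simp only
        rw [h4]
        field_simp
        ring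
    rw [h1]
    apply IsOpen.preimage (by fun_prop)
    exact hφd.continuousOn.isOpen_inter_preimage isOpen_ball isOpen_ball
theorem G1_dich {K : Set ℂ} (hK : IsPreconnected K) {f g h : ℂ → ℂ} (hf : ContinuousOn f K)
    (hg : ContinuousOn g K) (hh : ContinuousOn h K) (hcov : ∀ x ∈ K, f x = g x ∨ f x = h x)
    (hdis : ∀ x ∈ K, g x ≠ h x) {x0 : ℂ} (hx0 : x0 ∈ K) (h0 : f x0 = g x0) :
    ∀ x ∈ K, f x = g x := by
  have : PreconnectedSpace K := isPreconnected_iff_preconnectedSpace.1 hK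
  rw [continuousOn_iff_continuous_domRestrict] at hf hg hh
  have hA : IsClosed {x : K | K.domRestrict f x = K.domRestrict g x} := isClosed_eq hf hg
  have hB : IsClosed {x : K | K.domRestrict f x = K.domRestrict h x} := isClosed_eq hf hh
  have hAB : {x : K | K.domRestrict f x = K.domRestrict g x} =
      {x : K | K.domRestrict f x = K.domRestrict h x}ᶜ := by
    ext x
    constructor
    · intro h1 h2
      have h1' : f x = g x := h1
      have h2' : f x = h x := h2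
      exact hdis x x.2 (h1'.symm.trans h2')
    · intro h1
      rcases hcov x x.2 with h2 | h2
      · exact h2
      · exact absurd h2 h1
  have hcl : IsClopen {x : K | K.domRestrict f x = K.domRestrict g x} :=
    ⟨hA, by rw [hAB]; exact hB.isOpen_compl⟩
  rcases isClopen_iff.1 hcl with h1 | h1
  · exfalso
    have : (⟨x0, hx0⟩ : K) ∈ {x : K | K.domRestrict f x = K.domRestrict g x} := h0
    rw [h1] at this
    exact this
  · intro x hx
    have : (⟨x, hx⟩ : K) ∈ {x : K | K.domRestrict f x = K.domRestrict g x} := by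
      rw [h1]
      exact Set.mem_univ _
    exact this

/-- quadrants of the half disc, with sign `σ` -/
theorem G1_quad {r0 : ℝ} (hr0 : 0 < r0) (σ : ℝ) (hσ : σ = 1 ∨ σ = -1) :
    Convex ℝ {ζ : ℂ | ζ ∈ HB r0 ∧ 0 ≤ σ * ζ.re} ∧
      {ζ : ℂ | ζ ∈ HB r0 ∧ 0 ≤ σ * ζ.re} ⊆
        closure {ζ : ℂ | ζ ∈ HB r0 ∧ 0 < σ * ζ.re ∧ 0 < ζ.im} := by
  have hconv : Convex ℝ {ζ : ℂ | ζ ∈ HB r0 ∧ 0 ≤ σ * ζ.re} := by
    intro x hx y hy a b ha hb hab
    obtain ⟨⟨hx1, hx2⟩, hx3⟩ := hx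
    obtain ⟨⟨hy1, hy2⟩, hy3⟩ := hy
    refine ⟨⟨?_, ?_⟩, ?_⟩
    · have h1 : a • x + b • y ∈ closedBall (0 : ℂ) r0 := by
        apply convex_closedBall (0 : ℂ) r0 _ _ ha hb hab
        · rw [mem_closedBall_zero_iff]; exact hx1
        · rw [mem_closedBall_zero_iff]; exact hy1
      rw [mem_closedBall_zero_iff] at h1
      exact h1
    · simp only [Complex.add_im, Complex.real_smul, Complex.mul_im, Complex.ofReal_re,
        Complex.ofReal_im, zero_mul, add_zero]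
      positivity
    · simp only [Complex.add_re, Complex.real_smul, Complex.mul_re, Complex.ofReal_re,
        Complex.ofReal_im, zero_mul, sub_zero]
      have h1 := mul_nonneg ha hx3
      have h2 := mul_nonneg hb hy3
      nlinarith
  refine ⟨hconv, ?_⟩
  intro z hz
  set p : ℂ := ⟨σ * (r0 / 4), r0 / 4⟩ with hp
  have hσ2 : σ * σ = 1 := by rcases hσ with h | h <;> rw [h] <;> norm_num
  have hσ3 : |σ| = 1 := by rcases hσ with h | h <;> rw [h] <;> norm_num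
  have hpn : ‖p‖ ≤ r0 := by
    have h1 := Complex.norm_le_abs_re_add_abs_im p
    simp only [hp] at h1
    rw [abs_mul, hσ3, abs_of_pos (by positivity : 0 < r0 / 4)] at h1
    linarith
  have ht : Tendsto (fun n : ℕ => (1 - 1 / ((n : ℝ) + 1)) • z + (1 / ((n : ℝ) + 1)) • p) atTop
      (𝓝 z) := by
    have h1 : Tendsto (fun n : ℕ => (1 : ℝ) / ((n : ℝ) + 1)) atTop (𝓝 0) :=
      tendsto_one_div_add_atTop_nhds_zero_nat
    have h2 := ((tendsto_const_nhds (x := (1 : ℝ))).sub h1).smul_const z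
    have h3 := h1.smul_const p
    have h4 := h2.add h3
    simpa using h4
  refine mem_closure_of_tendsto ht (Filter.Eventually.of_forall fun n => ?_)
  have hn0 : (0 : ℝ) < 1 / ((n : ℝ) + 1) := by positivity
  have hn1 : (1 : ℝ) / ((n : ℝ) + 1) ≤ 1 := by
    rw [div_le_one (by positivity)]
    linarith [(Nat.cast_nonneg n : (0 : ℝ) ≤ n)]
  set t : ℝ := 1 / ((n : ℝ) + 1) with htdef
  obtain ⟨⟨hz1, hz2⟩, hz3⟩ := hz
  refine ⟨⟨?_, ?_⟩, ?_, ?_⟩
  · calc ‖(1 - t) • z + t • p‖ ≤ ‖(1 - t) • z‖ + ‖t • p‖ := norm_add_le _ _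
      _ = (1 - t) * ‖z‖ + t * ‖p‖ := by
        rw [norm_smul, norm_smul, Real.norm_eq_abs, Real.norm_eq_abs, abs_of_nonneg (by linarith),
          abs_of_pos hn0]
      _ ≤ (1 - t) * r0 + t * r0 := by
        apply add_le_add
        · exact mul_le_mul_of_nonneg_left hz1 (by linarith)
        · exact mul_le_mul_of_nonneg_left hpn hn0.le
      _ = r0 := by ring
  · simp only [Complex.add_im, Complex.real_smul, Complex.mul_im, Complex.ofReal_re,
      Complex.ofReal_im, zero_mul, add_zero, hp]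
    have h1 : 0 ≤ (1 - t) * z.im := mul_nonneg (by linarith) hz2
    positivity
  · simp only [Complex.add_re, Complex.real_smul, Complex.mul_re, Complex.ofReal_re,
      Complex.ofReal_im, zero_mul, sub_zero, hp]
    have h1 : 0 ≤ (1 - t) * (σ * z.re) := mul_nonneg (by linarith) hz3
    have h2 : σ * ((1 - t) * z.re + t * (σ * (r0 / 4))) =
        (1 - t) * (σ * z.re) + t * (σ * σ) * (r0 / 4) := by ring
    rw [h2, hσ2]
    positivity
  · simp only [Complex.add_im, Complex.real_smul, Complex.mul_im, Complex.ofReal_re,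
      Complex.ofReal_im, zero_mul, add_zero, hp]
    have h1 : 0 ≤ (1 - t) * z.im := mul_nonneg (by linarith) hz2
    positivity

/-- the dichotomy on a quadrant from its interior -/
theorem G1_dich2 {r0 : ℝ} (hr0 : 0 < r0) (σ : ℝ) (hσ : σ = 1 ∨ σ = -1) {f g h : ℂ → ℂ}
    (hf : ContinuousOn f (HB r0)) (hg : ContinuousOn g (HB r0)) (hh : ContinuousOn h (HB r0))
    (hcov : ∀ x ∈ HB r0, 0 < σ * x.re → 0 < x.im → f x = g x ∨ f x = h x)
    (hdis : ∀ x ∈ HB r0, g x ≠ h x) (h0 : f 0 = g 0) :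
    ∀ x ∈ HB r0, 0 ≤ σ * x.re → f x = g x := by
  obtain ⟨hconv, hcl⟩ := G1_quad hr0 σ hσ
  have hsub : {ζ : ℂ | ζ ∈ HB r0 ∧ 0 ≤ σ * ζ.re} ⊆ HB r0 := fun x hx => hx.1
  have hprod : EqOn (fun x => (f x - g x) * (f x - h x)) (fun _ => 0)
      {ζ : ℂ | ζ ∈ HB r0 ∧ 0 ≤ σ * ζ.re} := by
    refine Set.EqOn.of_subset_closure (s := {ζ : ℂ | ζ ∈ HB r0 ∧ 0 < σ * ζ.re ∧ 0 < ζ.im})
      ?_ ?_ continuousOn_const ?_ hcl
    · rintro x ⟨hx1, hx2, hx3⟩
      simp only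
      rcases hcov x hx1 hx2 hx3 with h1 | h1
      · rw [h1, sub_self, zero_mul]
      · rw [h1, sub_self, mul_zero]
    · exact (((hf.sub hg).mul (hf.sub hh)).mono hsub)
    · rintro x ⟨hx1, hx2, hx3⟩
      exact ⟨hx1, hx2.le⟩
  intro x hx hxσ
  refine G1_dich hconv.isPreconnected (hf.mono hsub) (hg.mono hsub) (hh.mono hsub) ?_ ?_
    (x0 := 0) ?_ h0 x ⟨hx, hxσ⟩
  · intro y hy
    have h1 := hprod hy
    simp only at h1
    rcases mul_eq_zero.1 h1 with h2 | h2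
    · exact Or.inl (sub_eq_zero.1 h2)
    · exact Or.inr (sub_eq_zero.1 h2)
  · intro y hy
    exact hdis y hy.1
  · refine ⟨⟨?_, ?_⟩, ?_⟩
    · rw [norm_zero]; exact hr0.le
    · simp
    · simp

theorem exists_lb (q : RQ) {S : TS} (hS : IsTS q S) {A : XS S} (B : Br S A)
    (hfix : q.p.eval q.r = q.r) (hA : ec S.κ ∉ A.X) (ε : ℝ) (hε : 0 < ε) :
    ∃ L : LB B, LBq q L ∧ ∀ ζ ∈ HB L.r0, ‖exp (L.c ζ) - ec S.κ‖ < ε := by
  obtain ⟨χ, r2, hr2, hr21, hχd, hχc, hχ0, hχe, hχinj, hχpos, hχmono, hχopen⟩ :=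
    G1_plane q hfix
  have hv := q.vpos
  have hκang : ang q.v q.r = S.κ := by
    rw [hS.κ_eq, RQ.vr, hfix]
  have hωκ : S.ω₀ = S.κ := by rw [hS.ω_eq, hκang]
  have hκm := S.κ_mem
  -- the plane facts
  have hconj_mem : ∀ {r : ℝ} {z : ℂ}, z ∈ ball (0 : ℂ) r → conj z ∈ ball (0 : ℂ) r := by
    intro r z hz
    rw [mem_ball_zero_iff] at hz ⊢
    rwa [Complex.norm_conj]
  have hreal : ∀ z ∈ ball (0 : ℂ) r2, z.im = 0 → (χ z).im = 0 := by
    intro z hz h0
    have h1 : conj z = z := Complex.conj_eq_iff_im.2 h0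
    have h2 := hχc z hz
    rw [h1] at h2
    exact Complex.conj_eq_iff_im.1 h2.symm
  have hnn : ∀ z ∈ ball (0 : ℂ) r2, 0 ≤ z.im → χ z ∈ HH := by
    intro z hz h0
    rcases h0.lt_or_eq with h1 | h1
    · exact (hχpos z hz h1).le
    · exact (hreal z hz h1.symm).ge
  have hneg : ∀ z ∈ ball (0 : ℂ) r2, z.im < 0 → (χ z).im < 0 := by
    intro z hz h0
    have h1 := hχpos (conj z) (hconj_mem hz) (by simpa using h0)
    rw [hχc z hz] at h1
    simpa using h1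
  have himz : ∀ z ∈ ball (0 : ℂ) r2, (χ z).im = 0 → z.im = 0 := by
    intro z hz h0
    rcases lt_trichotomy z.im 0 with h1 | h1 | h1
    · exact absurd h0 (hneg z hz h1).ne
    · exact h1
    · exact absurd h0 (hχpos z hz h1).ne'
  have hfold : ∀ z ∈ ball (0 : ℂ) r2, fold (χ z) = χ (fold z) := by
    intro z hz
    unfold fold
    by_cases h0 : 0 ≤ z.im
    · have h1 : 0 ≤ (χ z).im := hnn z hz h0
      rw [if_pos h0, if_pos h1]
    · rw [if_neg h0, if_neg (not_le.2 (hneg z hz (not_le.1 h0))), hχc z hz]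
  -- the disc function
  set w : ℂ → ℂ := fun ζ => mm q.v (χ ζ) with hw
  set W : Set ℂ := {ζ | ζ ∈ ball (0 : ℂ) r2 ∧ 0 ≤ ζ.im} with hWdef
  have hwcont : ContinuousOn w W := by
    refine (mm_cont hv).comp (hχd.continuousOn.mono fun x hx => hx.1) ?_
    intro x hx
    exact hnn x hx.1 hx.2
  have h0W : (0 : ℂ) ∈ W := ⟨mem_ball_self hr2, by simp⟩
  have hw0 : w 0 = ec S.κ := by
    simp only [hw]
    rw [hχ0, mm_real hv, hκang]
  have hecne : ec S.κ ≠ 0 := Complex.exp_ne_zero _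
  -- choice of the radius
  set m : ℝ := min S.κ (2 * Real.pi - S.κ) with hm
  have hmpos : 0 < m := lt_min hκm.1 (sub_pos.2 hκm.2)
  have hE : ∀ᶠ s in 𝓝 (ec S.κ), (‖s - ec S.κ‖ < ε ∧ s ∉ A.X) ∧ s / ec S.κ ∈ slitPlane ∧
      |(Complex.log (s / ec S.κ)).im| < m := by
    have hone : ec S.κ / ec S.κ = 1 := div_self hecne
    have hdc : ContinuousAt (fun s : ℂ => s / ec S.κ) (ec S.κ) := by fun_prop
    have hsl : ∀ᶠ s in 𝓝 (ec S.κ), s / ec S.κ ∈ slitPlane := by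
      apply hdc.eventually
      simp only [hone]
      exact Complex.isOpen_slitPlane.mem_nhds Complex.one_mem_slitPlane
    have hlogc : ContinuousAt (fun s : ℂ => |(Complex.log (s / ec S.κ)).im|) (ec S.κ) := by
      have h1 : ContinuousAt (fun s : ℂ => Complex.log (s / ec S.κ)) (ec S.κ) := by
        apply ContinuousAt.clog hdc
        rw [hone]
        exact Complex.one_mem_slitPlane
      exact (Complex.continuous_im.continuousAt.comp h1).abs
    have hlog : ∀ᶠ s in 𝓝 (ec S.κ), |(Complex.log (s / ec S.κ)).im| < m := by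
      apply hlogc.eventually_lt_const
      simp only [hone, Complex.log_one]
      simpa using hmpos
    have h1 : ∀ᶠ s in 𝓝 (ec S.κ), ‖s - ec S.κ‖ < ε := by
      filter_upwards [Metric.ball_mem_nhds (ec S.κ) hε] with s hs
      rw [mem_ball, dist_eq_norm] at hs
      exact hs
    have h2 : ∀ᶠ s in 𝓝 (ec S.κ), s ∉ A.X := A.closedX.isOpen_compl.mem_nhds hA
    exact (h1.and h2).and (hsl.and hlog)
  have hE2 : ∀ᶠ ζ in 𝓝[W] 0, (‖w ζ - ec S.κ‖ < ε ∧ w ζ ∉ A.X) ∧ w ζ / ec S.κ ∈ slitPlane ∧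
      |(Complex.log (w ζ / ec S.κ)).im| < m := by
    have h1 := (hwcont 0 h0W).tendsto
    rw [hw0] at h1
    exact h1.eventually hE
  rw [eventually_nhdsWithin_iff, Metric.eventually_nhds_iff_ball] at hE2
  obtain ⟨δ, hδ, hE3⟩ := hE2
  set r0 : ℝ := min δ r2 / 2 with hr0def
  have hr0 : 0 < r0 := by
    have : 0 < min δ r2 := lt_min hδ hr2
    positivity
  have hr0δ : r0 < δ := by
    have h1 := min_le_left δ r2
    have : 0 < min δ r2 := lt_min hδ hr2
    simp only [hr0def]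
    linarith
  have hr0r2 : r0 < r2 := by
    have h1 := min_le_right δ r2
    have : 0 < min δ r2 := lt_min hδ hr2
    simp only [hr0def]
    linarith
  have hHBW : HB r0 ⊆ W := by
    intro ζ hζ
    refine ⟨?_, hζ.2⟩
    rw [mem_ball_zero_iff]
    exact lt_of_le_of_lt hζ.1 hr0r2
  have hE4 : ∀ ζ ∈ HB r0, (‖w ζ - ec S.κ‖ < ε ∧ w ζ ∉ A.X) ∧ w ζ / ec S.κ ∈ slitPlane ∧
      |(Complex.log (w ζ / ec S.κ)).im| < m := by
    intro ζ hζ
    apply hE3 ζ _ (hHBW hζ)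
    rw [mem_ball_zero_iff]
    exact lt_of_le_of_lt hζ.1 hr0δ
  have h0HB : (0 : ℂ) ∈ HB r0 := ⟨by rw [norm_zero]; exact hr0.le, by simp⟩
  -- the logarithm
  set c : ℂ → ℂ := fun ζ => S.κ * I + Complex.log (w ζ / ec S.κ) with hc
  have hcw : ∀ ζ ∈ HB r0, exp (c ζ) = w ζ := by
    intro ζ hζ
    simp only [hc]
    have hne : w ζ / ec S.κ ≠ 0 := Complex.slitPlane_ne_zero (hE4 ζ hζ).2.1
    rw [Complex.exp_add, Complex.exp_log hne]
    show ec S.κ * (w ζ / ec S.κ) = w ζ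
    field_simp
  have hcc : ContinuousOn c (HB r0) := by
    have h1 : ContinuousOn (fun ζ => Complex.log (w ζ / ec S.κ)) (HB r0) := by
      apply ContinuousOn.clog
      · exact (hwcont.mono hHBW).div_const _
      · intro ζ hζ
        exact (hE4 ζ hζ).2.1
    exact continuousOn_const.add h1
  have hc0 : c 0 = S.κ * I := by
    simp only [hc]
    rw [hw0, div_self hecne, Complex.log_one, add_zero]
  have hwD : ∀ ζ ∈ HB r0, w ζ ∈ DD := fun ζ hζ => mm_mem hv (hnn ζ (hHBW hζ).1 (hHBW hζ).2)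
  have hw1 : ∀ ζ ∈ HB r0, w ζ ≠ 1 := fun ζ hζ =>
    mm_ne_one hv (hnn ζ (hHBW hζ).1 (hHBW hζ).2)
  have hcU : ∀ ζ ∈ HB r0, c ζ ∈ UU := by
    intro ζ hζ
    have h1 := hwD ζ hζ
    rw [← hcw ζ hζ, DD, mem_closedBall_zero_iff, Complex.norm_exp] at h1
    exact Real.exp_le_one_iff.1 h1
  have hcO : MapsTo c (HB r0) (OO A.Xo) := by
    intro ζ hζ
    refine ⟨hcU ζ hζ, ?_⟩
    rw [hcw ζ hζ]
    exact fun h => (hE4 ζ hζ).1.2 (A.Xo_sub h)
  have hcim : ∀ ζ ∈ HB r0, (c ζ).im ∈ Ioo 0 (2 * Real.pi) := by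
    intro ζ hζ
    have h1 := (hE4 ζ hζ).2.2
    have h2 : (c ζ).im = S.κ + (Complex.log (w ζ / ec S.κ)).im := by
      simp [hc]
    rw [h2]
    rw [abs_lt] at h1
    have h3 : m ≤ S.κ := min_le_left _ _
    have h4 : m ≤ 2 * Real.pi - S.κ := min_le_right _ _
    constructor
    · linarith [h1.1]
    · linarith [h1.2]
  have hcre : ∀ ζ ∈ HB r0, (c ζ).re = 0 ↔ ζ.im = 0 := by
    intro ζ hζ
    have hζW := hHBW hζ
    have h1 : (c ζ).re = 0 ↔ ‖w ζ‖ = 1 := by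
      rw [← hcw ζ hζ, Complex.norm_exp, Real.exp_eq_one_iff]
    rw [h1]
    simp only [hw]
    rw [norm_mm_eq_one hv (hnn ζ hζW.1 hζW.2)]
    exact ⟨himz ζ hζW.1, hreal ζ hζW.1⟩
  -- the real values
  have hcreal : ∀ x : ℝ, (x : ℂ) ∈ HB r0 → (c x).im = ang q.v (χ x).re := by
    intro x hx
    have hxW := hHBW hx
    have h1 : (χ x).im = 0 := hreal _ hxW.1 (by simp)
    have h2 : χ x = (((χ x).re : ℝ) : ℂ) := by
      apply Complex.ext
      · simp
      · simp [h1]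
    have h3 : w x = ec (ang q.v (χ x).re) := by
      simp only [hw]
      conv_lhs => rw [h2]
      rw [mm_real hv]
    have h4 : c x = ((c x).im : ℝ) * I := by
      apply Complex.ext
      · simp [(hcre x hx).2 (by simp)]
      · simp
    have h5 : ec (c x).im = ec (ang q.v (χ x).re) := by
      rw [← h3, ← hcw x hx]
      conv_rhs => rw [h4]
      rfl
    have h6 := hcim x hx
    have h7 := ang_mem hv (χ x).re
    exact ec_inj ⟨h6.1, h6.2.le⟩ ⟨h7.1, h7.2.le⟩ h5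
  have hHBreal : ∀ x ∈ Icc (-r0) r0, (x : ℂ) ∈ HB r0 := by
    intro x hx
    refine ⟨?_, by simp⟩
    rw [Complex.norm_real, Real.norm_eq_abs, abs_le]
    exact hx
  -- folded squaring
  have hsqm : ∀ ζ ∈ HB r0, sqf ζ ∈ HB r0 := by
    intro ζ hζ
    refine ⟨?_, fold_mem _⟩
    have h1 : ‖sqf ζ‖ = ‖ζ‖ ^ 2 := by
      unfold sqf fold
      split_ifs
      · rw [norm_pow]
      · rw [Complex.norm_conj, norm_pow]
    rw [h1]
    have h2 := hζ.1
    have h3 := norm_nonneg ζ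
    have h4 : r0 ≤ 1 := hr0r2.le.trans hr21
    nlinarith
  have hsqc : Continuous sqf := by
    unfold sqf
    exact fold_cont.comp (continuous_pow 2)
  have hsq0 : sqf 0 = 0 := by
    unfold sqf fold
    simp
  have hsq2 : ∀ ζ ∈ HB r0, ζ ^ 2 ∈ ball (0 : ℂ) r2 := by
    intro ζ hζ
    rw [mem_ball_zero_iff, norm_pow]
    have h2 := hζ.1
    have h3 := norm_nonneg ζ
    have h4 : r0 ≤ 1 := hr0r2.le.trans hr21
    nlinarith
  have hFw : ∀ ζ ∈ HB r0, S.F (w ζ) = exp (c (sqf ζ)) := by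
    intro ζ hζ
    have hζW := hHBW hζ
    rw [hcw _ (hsqm ζ hζ)]
    simp only [hw]
    rw [hS.F_eq _ (hnn ζ hζW.1 hζW.2), hχe ζ hζW.1, hfold _ (hsq2 ζ hζ)]
    rfl
  have hu1 : ∀ ζ ∈ HB r0, exp (c (sqf ζ)) ≠ 1 := by
    intro ζ hζ
    rw [hcw _ (hsqm ζ hζ)]
    exact hw1 _ (hsqm ζ hζ)
  have huD : ∀ ζ ∈ HB r0, exp (c (sqf ζ)) ∈ DD := by
    intro ζ hζ
    rw [hcw _ (hsqm ζ hζ)]
    exact hwD _ (hsqm ζ hζ)
  have hgD : ∀ ζ ∈ HB r0, exp (c (sqf ζ) / 2) ∈ DD := by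
    intro ζ hζ
    have h1 : (c (sqf ζ)).re ≤ 0 := hcU _ (hsqm ζ hζ)
    rw [DD, mem_closedBall_zero_iff, Complex.norm_exp]
    apply Real.exp_le_one_iff.2
    have : (c (sqf ζ) / 2).re = (c (sqf ζ)).re / 2 := by
      rw [show (2 : ℂ) = ((2 : ℝ) : ℂ) by norm_num, Complex.div_ofReal_re]
    rw [this]
    linarith
  have hccs : ContinuousOn (fun ζ => c (sqf ζ)) (HB r0) :=
    hcc.comp hsqc.continuousOn hsqm
  have hwc : ContinuousOn w (HB r0) := hwcont.mono hHBW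
  have hκ2 : S.κ ∈ Icc S.κ (2 * Real.pi) := ⟨le_rfl, hκm.2.le⟩
  -- the right quadrant
  have hP : ∀ ζ ∈ HB r0, 0 ≤ ζ.re → w ζ = S.Θ (exp (c (sqf ζ) / 2)) := by
    have hneg1 : ∀ ζ ∈ HB r0, -exp (c (sqf ζ) / 2) ∈ DD := by
      intro ζ hζ
      have := hgD ζ hζ
      rw [DD, mem_closedBall_zero_iff] at this ⊢
      rwa [norm_neg]
    have key := G1_dich2 hr0 1 (Or.inl rfl) (f := w)
      (g := fun ζ => S.Θ (exp (c (sqf ζ) / 2))) (h := fun ζ => S.Θ (-exp (c (sqf ζ) / 2)))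
      hwc ?_ ?_ ?_ ?_ ?_
    · intro ζ hζ hre
      exact key ζ hζ (by rw [one_mul]; exact hre)
    · exact S.contΘ.comp (Complex.continuous_exp.comp_continuousOn (hccs.div_const 2)) hgD
    · exact S.contΘ.comp (Complex.continuous_exp.comp_continuousOn (hccs.div_const 2)).neg hneg1
    · intro ζ hζ hre him
      rw [one_mul] at hre
      have hζW := hHBW hζ
      have hh : 0 < (q.h.eval (χ ζ)).im := by
        rw [hχe ζ hζW.1]
        apply hχpos _ (hsq2 ζ hζ)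
        have : (ζ ^ 2).im = 2 * ζ.re * ζ.im := by
          rw [sq, Complex.mul_im]
          ring
        rw [this]
        positivity
      rcases S.cover (w ζ) (hwD ζ hζ) with h1 | h1 | h1
      · obtain ⟨s, hs, hsw⟩ := h1
        have h2 := S.FΘ s hs
        rw [hsw, hFw ζ hζ] at h2
        have h3 : exp (c (sqf ζ)) = exp (c (sqf ζ) / 2) ^ 2 := by
          rw [← Complex.exp_nat_mul]
          congr 1
          push_cast
          ring
        rw [h3] at h2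
        rcases sq_eq_sq_iff_eq_or_eq_neg.1 h2.symm with h4 | h4
        · left
          rw [← hsw, h4]
        · right
          rw [← hsw, h4]
      · exact absurd (hS.im2 _ (hnn ζ hζW.1 hζW.2) h1) (not_le.2 hh)
      · exact absurd (hS.im4 _ (hnn ζ hζW.1 hζW.2) h1) (not_le.2 hh)
    · intro ζ hζ h
      have h3 : exp (c (sqf ζ)) = exp (c (sqf ζ) / 2) ^ 2 := by
        rw [← Complex.exp_nat_mul]
        congr 1
        push_cast
        ring
      rcases S.injΘ _ (hgD ζ hζ) _ (hneg1 ζ hζ) h with h4 | h4 | h4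
      · have h5 : exp (c (sqf ζ) / 2) = 0 := self_eq_neg.1 h4
        exact Complex.exp_ne_zero _ h5
      · apply hu1 ζ hζ
        rw [h3, h4.1, one_pow]
      · apply hu1 ζ hζ
        rw [h3, h4.1]
        norm_num
    · rw [hsq0, hw0, hc0]
      have h1 := S.rpΘ S.κ hκ2
      rw [S.rpκ, hωκ] at h1
      rw [← h1]
      congr 1
      unfold ec
      congr 1
      push_cast
      ring
  -- the left quadrant
  have hM : ∀ ζ ∈ HB r0, ζ.re ≤ 0 → w ζ = S.G4 (exp (c (sqf ζ))) := by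
    have key := G1_dich2 hr0 (-1) (Or.inr rfl) (f := w)
      (g := fun ζ => S.G4 (exp (c (sqf ζ)))) (h := fun ζ => S.G2 (exp (c (sqf ζ))))
      hwc ?_ ?_ ?_ ?_ ?_
    · intro ζ hζ hre
      exact key ζ hζ (by linarith)
    · exact S.cont4.comp (Complex.continuous_exp.comp_continuousOn hccs) huD
    · exact S.cont2.comp (Complex.continuous_exp.comp_continuousOn hccs) huD
    · intro ζ hζ hre him
      have hζW := hHBW hζ
      have hh : (q.h.eval (χ ζ)).im < 0 := by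
        rw [hχe ζ hζW.1]
        apply hneg _ (hsq2 ζ hζ)
        have : (ζ ^ 2).im = 2 * ζ.re * ζ.im := by
          rw [sq, Complex.mul_im]
          ring
        rw [this]
        nlinarith
      rcases S.cover (w ζ) (hwD ζ hζ) with h1 | h1 | h1
      · exact absurd (hS.imΘ _ (hnn ζ hζW.1 hζW.2) h1) (not_le.2 hh)
      · obtain ⟨s, hs, hsw⟩ := h1
        right
        have h2 := S.F2 s hs
        rw [hsw, hFw ζ hζ] at h2
        rw [h2, hsw]
      · obtain ⟨s, hs, hsw⟩ := h1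
        left
        have h2 := S.F4 s hs
        rw [hsw, hFw ζ hζ] at h2
        rw [h2, hsw]
    · intro ζ hζ h
      exact hu1 ζ hζ (S.sep24 _ (huD ζ hζ) _ (huD ζ hζ) h.symm).1
    · rw [hsq0, hw0, hc0]
      have h1 := S.rmG S.κ hκ2
      rw [S.rmκ, hωκ] at h1
      rw [show exp ((S.κ : ℂ) * I) = ec S.κ from rfl, h1]
  have hbg := bd_g B.bd B.cont2 B.exp2 B.one2 B.cont4 B.exp4 B.one4
  have hconvQ : ∀ σ : ℝ, σ = 1 ∨ σ = -1 →
      IsPreconnected {ζ : ℂ | ζ ∈ HB r0 ∧ 0 ≤ σ * ζ.re} := fun σ hσ =>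
    (G1_quad hr0 σ hσ).1.isPreconnected
  have hfeP : ∀ ζ ∈ HB r0, 0 ≤ ζ.re → c ζ = B.Φ (c (sqf ζ)) := by
    intro ζ hζ hre
    have hsub : {ζ : ℂ | ζ ∈ HB r0 ∧ 0 ≤ (1 : ℝ) * ζ.re} ⊆ HB r0 := fun x hx => hx.1
    refine log_unique (hconvQ 1 (Or.inl rfl)) (a := c) (b := fun ζ => B.Φ (c (sqf ζ)))
      (hcc.mono hsub) ?_ ?_ (x0 := 0) ⟨h0HB, by simp⟩ ?_ ζ ⟨hζ, by rw [one_mul]; exact hre⟩
    · exact (B.contΦ.comp hccs fun x hx => hcO (hsqm x hx)).mono hsub
    · rintro x ⟨hx, hxr⟩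
      rw [one_mul] at hxr
      rw [B.expΦ _ (hcO (hsqm x hx)), hcw x hx, hP x hx hxr]
    · have h1 : (S.κ : ℂ) * I ∈ OO A.Xo := by
        have := hcO h0HB
        rwa [hc0] at this
      rw [hsq0, hc0, B.bdΦ _ h1, bd_rp B.bd _ hκ2, S.rpκ, hωκ]
  have hfeM : ∀ ζ ∈ HB r0, ζ.re ≤ 0 → c ζ = B.g4 (exp (c (sqf ζ))) := by
    intro ζ hζ hre
    have hsub : {ζ : ℂ | ζ ∈ HB r0 ∧ 0 ≤ (-1 : ℝ) * ζ.re} ⊆ HB r0 := fun x hx => hx.1
    refine log_unique (hconvQ (-1) (Or.inr rfl)) (a := c)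
      (b := fun ζ => B.g4 (exp (c (sqf ζ))))
      (hcc.mono hsub) ?_ ?_ (x0 := 0) ⟨h0HB, by simp⟩ ?_ ζ ⟨hζ, by linarith⟩
    · exact (B.cont4.comp (Complex.continuous_exp.comp_continuousOn hccs) huD).mono hsub
    · rintro x ⟨hx, hxr⟩
      rw [B.exp4 _ (huD x hx), hcw x hx, hM x hx (by linarith)]
    · rw [hsq0, hc0, show exp ((S.κ : ℂ) * I) = ec S.κ from rfl, hbg.2.2 _ hκ2, S.rmκ, hωκ]
  have hopeno : ∀ δ : ℝ, 0 < δ → δ < r0 →
      ∃ O, IsOpen O ∧ (fun t => exp (c t)) '' {t | ‖t‖ < δ ∧ 0 ≤ t.im} = O ∩ DD := by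
    intro δ' hδ' hδr
    have hU : IsOpen (χ '' ball 0 δ') := hχopen δ' (hδr.le.trans hr0r2.le)
    have hmic : ContinuousOn (mi q.v) {s : ℂ | s ≠ 1} := by
      unfold mi
      apply ContinuousOn.div (by fun_prop) (by fun_prop)
      intro x hx h
      exact hx (sub_eq_zero.1 h).symm
    refine ⟨{s : ℂ | s ≠ 1} ∩ mi q.v ⁻¹' (χ '' ball 0 δ'),
      hmic.isOpen_inter_preimage isOpen_ne hU, ?_⟩
    ext s
    constructor
    · rintro ⟨t, ⟨ht1, ht2⟩, hts⟩
      have htH : t ∈ HB r0 := ⟨(ht1.trans hδr).le, ht2⟩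
      have htW := hHBW htH
      simp only at hts
      rw [hcw t htH] at hts
      subst hts
      refine ⟨⟨hw1 t htH, ?_⟩, hwD t htH⟩
      show mi q.v (mm q.v (χ t)) ∈ χ '' ball 0 δ'
      rw [mi_mm hv (hnn t htW.1 htW.2)]
      exact ⟨t, by rw [mem_ball_zero_iff]; exact ht1, rfl⟩
    · rintro ⟨⟨hs1, t, ht, hts⟩, hsD⟩
      have hmem := mi_mem hv hsD hs1
      rw [mem_ball_zero_iff] at ht
      have htb : t ∈ ball (0 : ℂ) r2 := by
        rw [mem_ball_zero_iff]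
        exact ht.trans (hδr.trans hr0r2)
      have ht0 : 0 ≤ t.im := by
        by_contra hcon
        have h1 := hneg t htb (not_le.1 hcon)
        rw [hts] at h1
        exact absurd h1 (not_lt.2 hmem)
      refine ⟨t, ⟨ht, ht0⟩, ?_⟩
      simp only
      rw [hcw t ⟨(ht.trans hδr).le, ht0⟩]
      show mm q.v (χ t) = s
      rw [hts, mm_mi hv hsD hs1]
  refine ⟨⟨r0, c, hr0, lt_of_lt_of_le hr0r2 hr21, hcc, hcO, hcim, ?_, hcre, ?_, hc0, hfeP,
    hfeM, hopeno⟩, ⟨χ, hχd.mono (ball_subset_ball hr0r2.le), ?_, hχ0, ?_, ?_⟩, ?_⟩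
  · intro x hx y hy hxy
    have h1 : w x = w y := by rw [← hcw x hx, ← hcw y hy, hxy]
    have hxW := hHBW hx
    have hyW := hHBW hy
    exact hχinj hxW.1 hyW.1 (mm_inj hv (hnn x hxW.1 hxW.2) (hnn y hyW.1 hyW.2) h1)
  · intro x hx y hy hxy
    simp only
    have hx' := hHBreal x hx
    have hy' := hHBreal y hy
    rw [hcreal x hx', hcreal y hy']
    exact ang_strictMono hv (hχmono x y (hHBW hx').1 (hHBW hy').1 hxy)
  · intro ζ hζ
    exact hχc ζ (ball_subset_ball hr0r2.le hζ)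
  · intro ζ hζ h0
    have hζ' : ζ ∈ HB r0 := by
      refine ⟨?_, h0⟩
      rw [mem_ball_zero_iff] at hζ
      exact hζ.le
    exact ⟨hnn ζ (hHBW hζ').1 h0, (hcw ζ hζ').symm⟩
  · intro ζ hζ
    exact hχe ζ (ball_subset_ball hr0r2.le hζ)
  · intro ζ hζ
    simp only
    rw [hcw ζ hζ]
    exact (hE4 ζ hζ).1.1

end

end Pool.TU
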