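import Pool.Agent.Helper71.TU.A6

/-! # TU G2: the parametrisation of the marked basin -/

open Complex Set Filter Topology Metric Polynomial ComplexConjugate Pool.Tuning

namespace Pool.TU

noncomputable section

/-! ## folded squaring -/

private theorem g2_norm_fold (w : ℂ) : ‖fold w‖ = ‖w‖ := by
  unfold fold
  split_ifs
  · rfl
  · exact norm_conj w

private theorem g2_fold_im (w : ℂ) : 0 ≤ (fold w).im := by
  unfold fold
  split_ifs with h
  · exact h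
  · rw [conj_im]
    linarith [not_le.1 h]

private theorem g2_cont_fold : Continuous fold := by
  have h : fold = fun w : ℂ => (w.re : ℂ) + (|w.im| : ℝ) * I := by
    funext w
    unfold fold
    split_ifs with h
    · rw [abs_of_nonneg h, re_add_im]
    · rw [abs_of_neg (not_le.1 h)]
      apply Complex.ext <;> simp
  rw [h]
  have h1 : Continuous fun w : ℂ => |w.im| := continuous_im.abs
  exact (continuous_ofReal.comp continuous_re).add ((continuous_ofReal.comp h1).mul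
    continuous_const)

private theorem g2_fold_smul {t : ℝ} (ht : 0 < t) (w : ℂ) : fold (t * w) = t * fold w := by
  unfold fold
  have h : (0 ≤ ((t : ℂ) * w).im) ↔ 0 ≤ w.im := by
    rw [im_ofReal_mul]
    exact mul_nonneg_iff_of_pos_left ht
  by_cases h1 : 0 ≤ w.im
  · rw [if_pos (h.2 h1), if_pos h1]
  · rw [if_neg (fun h2 => h1 (h.1 h2)), if_neg h1, map_mul, conj_ofReal]

private theorem g2_norm_sqf (z : ℂ) : ‖sqf z‖ = ‖z‖ ^ 2 := by
  rw [sqf, g2_norm_fold, norm_pow]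

private theorem g2_sqf_im (z : ℂ) : 0 ≤ (sqf z).im := g2_fold_im _

private theorem g2_cont_sqf : Continuous sqf := g2_cont_fold.comp (continuous_pow 2)

private theorem g2_sqf_smul {t : ℝ} (ht : 0 < t) (z : ℂ) :
    sqf (t * z) = ((t ^ 2 : ℝ) : ℂ) * sqf z := by
  rw [sqf, sqf, mul_pow, ← ofReal_pow, g2_fold_smul (by positivity)]

private theorem g2_sqf_real (x : ℝ) : sqf (x : ℂ) = ((x ^ 2 : ℝ) : ℂ) := by
  rw [sqf, fold, ← ofReal_pow, if_pos (by rw [ofReal_im])]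

private theorem g2_sqf_imag {z : ℂ} (h : z.re = 0) : sqf z = ((-(z.im ^ 2) : ℝ) : ℂ) := by
  have h1 : z ^ 2 = ((-(z.im ^ 2) : ℝ) : ℂ) := by
    conv_lhs => rw [← re_add_im z, h]
    rw [ofReal_zero, zero_add, mul_pow, I_sq]
    push_cast
    ring
  rw [sqf, fold, h1, if_pos (by rw [ofReal_im])]

/-! ## letters and words of a point -/

open Classical in
private def g2lt (z : ℂ) : Ltr := if 0 ≤ z.re then Ltr.P 0 else Ltr.Q4 0

private def g2wd : ℕ → ℂ → List Ltr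
  | 0, _ => []
  | n + 1, z => g2lt z :: g2wd n (sqf z)

private theorem g2wd_length (n : ℕ) (z : ℂ) : (g2wd n z).length = n := by
  induction n generalizing z with
  | zero => rfl
  | succ n ih => rw [g2wd, List.length_cons, ih]

private theorem g2lt_smul {t : ℝ} (ht : 0 < t) (z : ℂ) : g2lt (t * z) = g2lt z := by
  have h : (0 ≤ ((t : ℂ) * z).re) ↔ 0 ≤ z.re := by
    rw [re_ofReal_mul]
    exact mul_nonneg_iff_of_pos_left ht
  unfold g2lt
  by_cases h1 : 0 ≤ z.re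
  · rw [if_pos (h.2 h1), if_pos h1]
  · rw [if_neg (fun h2 => h1 (h.1 h2)), if_neg h1]

private theorem g2wd_smul (n : ℕ) {t : ℝ} (ht : 0 < t) (z : ℂ) :
    g2wd n (t * z) = g2wd n z := by
  induction n generalizing z t with
  | zero => rfl
  | succ n ih => rw [g2wd, g2wd, g2lt_smul ht, g2_sqf_smul ht, ih (by positivity)]

private theorem g2_iter_smul (n : ℕ) {t : ℝ} (ht : 0 < t) (z : ℂ) :
    sqf^[n] (t * z) = ((t ^ 2 ^ n : ℝ) : ℂ) * sqf^[n] z := by
  induction n generalizing z t with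
  | zero => simp
  | succ n ih =>
    rw [Function.iterate_succ_apply, Function.iterate_succ_apply, g2_sqf_smul ht,
      ih (by positivity), ← pow_mul, ← pow_succ']

private theorem g2_norm_iter (n : ℕ) (z : ℂ) : ‖sqf^[n] z‖ = ‖z‖ ^ 2 ^ n := by
  induction n generalizing z with
  | zero => simp
  | succ n ih => rw [Function.iterate_succ_apply, ih, g2_norm_sqf, ← pow_mul, ← pow_succ']

private theorem g2_iter_im (n : ℕ) (z : ℂ) (hz : 0 ≤ z.im) : 0 ≤ (sqf^[n] z).im := by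
  induction n generalizing z with
  | zero => exact hz
  | succ n ih => exact ih _ (g2_sqf_im z)

section

variable {S : TS} {A : XS S} {B : Br S A} (L : LB B)

/-- the domains -/
private def g2D (L : LB B) (n : ℕ) : Set ℂ := {z | ‖z‖ ^ 2 ^ n ≤ L.r0 ∧ 0 ≤ z.im}

/-- the open half disc -/
private def g2E : Set ℂ := {z | ‖z‖ < 1 ∧ 0 ≤ z.im}

/-- the pull-backs of the local chart -/
private def g2cc (L : LB B) : ℕ → ℂ → ℂ
  | 0, z => L.c z
  | n + 1, z => B.ap (g2lt z) (g2cc L n (sqf z))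

private theorem g2D_zero : g2D L 0 = HB L.r0 := by
  ext z
  simp [g2D, HB]

private theorem g2D_sub (n : ℕ) : g2D L n ⊆ g2E := by
  intro z hz
  refine ⟨?_, hz.2⟩
  by_contra h
  have h1 : 1 ≤ ‖z‖ := not_lt.1 h
  have h2 : 1 ≤ ‖z‖ ^ 2 ^ n := one_le_pow₀ h1
  linarith [hz.1, L.lt]

private theorem g2D_mono (n : ℕ) : g2D L n ⊆ g2D L (n + 1) := by
  intro z hz
  refine ⟨le_trans ?_ hz.1, hz.2⟩
  exact pow_le_pow_of_le_one (norm_nonneg _) (g2D_sub L n hz).1.le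
    (Nat.pow_le_pow_right (by norm_num) (Nat.le_succ n))

private theorem g2D_le {m n : ℕ} (h : m ≤ n) : g2D L m ⊆ g2D L n :=
  monotone_nat_of_le_succ (f := fun n => g2D L n) (fun n => g2D_mono L n) h

private theorem g2D_sqf {n : ℕ} {z : ℂ} (hz : z ∈ g2D L (n + 1)) : sqf z ∈ g2D L n := by
  refine ⟨?_, g2_sqf_im z⟩
  rw [g2_norm_sqf, ← pow_mul, ← pow_succ']
  exact hz.1

private theorem g2E_sqf {z : ℂ} (hz : z ∈ g2E) : sqf z ∈ g2E := by
  refine ⟨?_, g2_sqf_im z⟩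
  rw [g2_norm_sqf]
  exact pow_lt_one₀ (norm_nonneg _) hz.1 (by norm_num)

private theorem g2E_iter {z : ℂ} (hz : z ∈ g2E) (n : ℕ) : sqf^[n] z ∈ g2E := by
  induction n generalizing z with
  | zero => exact hz
  | succ n ih => exact ih (g2E_sqf hz)

private theorem g2_exists {z : ℂ} (hz : z ∈ g2E) {δ : ℝ} (hδ : 0 < δ) :
    ∃ n : ℕ, ‖z‖ ^ 2 ^ n < δ := by
  obtain ⟨n, hn⟩ := exists_pow_lt_of_lt_one hδ hz.1
  refine ⟨n, lt_of_le_of_lt ?_ hn⟩
  exact pow_le_pow_of_le_one (norm_nonneg _) hz.1.le (Nat.lt_two_pow_self).le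

private theorem g2_exD {z : ℂ} (hz : z ∈ g2E) : ∃ n : ℕ, z ∈ g2D L n := by
  obtain ⟨n, hn⟩ := g2_exists hz L.pos
  exact ⟨n, hn.le, hz.2⟩

private theorem g2_ap (z u : ℂ) : (0 ≤ z.re → B.ap (g2lt z) u = B.Φ u) ∧
    (z.re < 0 → B.ap (g2lt z) u = B.g4 (exp u)) := by
  constructor
  · intro h
    rw [g2lt, if_pos h, Br.ap]
    simp
  · intro h
    rw [g2lt, if_neg (not_le.2 h), Br.ap]
    simp

private theorem g2cc_zero {z : ℂ} (hz : z ∈ g2D L 0) : g2cc L 1 z = g2cc L 0 z := by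
  have hz' : z ∈ HB L.r0 := by rwa [← g2D_zero]
  show B.ap (g2lt z) (L.c (sqf z)) = L.c z
  by_cases h : 0 ≤ z.re
  · rw [(g2_ap z _).1 h, ← L.feP z hz' h]
  · rw [(g2_ap z _).2 (not_le.1 h), ← L.feM z hz' (not_le.1 h).le]

private theorem g2cc_succ (n : ℕ) {z : ℂ} (hz : z ∈ g2D L n) :
    g2cc L (n + 1) z = g2cc L n z := by
  induction n generalizing z with
  | zero => exact g2cc_zero L hz
  | succ n ih =>
    show B.ap (g2lt z) (g2cc L (n + 1) (sqf z)) = B.ap (g2lt z) (g2cc L n (sqf z))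
    rw [ih (g2D_sqf L hz)]

private theorem g2cc_le {m n : ℕ} (h : m ≤ n) {z : ℂ} (hz : z ∈ g2D L m) :
    g2cc L n z = g2cc L m z := by
  induction n, h using Nat.le_induction with
  | base => rfl
  | succ n hmn ih => rw [g2cc_succ L n (g2D_le L hmn hz), ih]

private theorem g2cc_mem {Z : Set ℂ} (hZ : A.Xo ⊆ Z) (hF : MapsTo S.F Z Z)
    (hd : ∀ z ∈ HB L.r0, exp (L.c z) ∉ Z) (n : ℕ) {z : ℂ} (hz : z ∈ g2D L n) :
    g2cc L n z ∈ OO Z := by
  induction n generalizing z with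
  | zero =>
    have hz' : z ∈ HB L.r0 := by rwa [← g2D_zero]
    exact ⟨(L.maps hz').1, hd z hz'⟩
  | succ n ih => exact B.ap_mem hZ hF _ (ih (g2D_sqf L hz))

private theorem g2cc_memX (n : ℕ) {z : ℂ} (hz : z ∈ g2D L n) : g2cc L n z ∈ OO A.Xo :=
  g2cc_mem L subset_rfl A.FXo (fun _ hz => (L.maps hz).2) n hz

include L in
private theorem g2_κω : S.κ = S.ω₀ := by
  have h0 : (0 : ℂ) ∈ HB L.r0 := ⟨by rw [norm_zero]; exact L.pos.le, by simp⟩
  have h1 := L.feP 0 h0 (by simp)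
  have h2 : sqf 0 = 0 := by
    have := g2_sqf_real 0
    simpa using this
  rw [h2, L.zero] at h1
  have h3 : (S.κ : ℂ) * I ∈ OO A.Xo := by
    rw [← L.zero]; exact L.maps h0
  rw [B.bdΦ _ h3, bd_rp B.bd _ ⟨le_rfl, S.κ_mem.2.le⟩, S.rpκ] at h1
  have h4 := mul_right_cancel₀ I_ne_zero h1
  exact_mod_cast h4

private theorem g2_mem0 : (0 : ℂ) ∈ g2D L 0 := by
  rw [g2D_zero]
  exact ⟨by rw [norm_zero]; exact L.pos.le, by simp⟩

private theorem g2cc_real (n : ℕ) {x : ℝ} (hx : (x : ℂ) ∈ g2D L n) :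
    (0 ≤ x → ∃ a ∈ Icc S.κ (2 * Real.pi), g2cc L n x = a * I) ∧
    (x ≤ 0 → ∃ a ∈ Icc 0 S.κ, g2cc L n x = a * I) := by
  induction n generalizing x with
  | zero =>
    have hx' : (x : ℂ) ∈ HB L.r0 := by rwa [← g2D_zero]
    have h1 : (L.c x).re = 0 := (L.real _ hx').2 (by simp)
    have h2 : L.c x = ((L.c x).im : ℂ) * I := by
      conv_lhs => rw [← re_add_im (L.c x), h1]
      simp
    have h3 : |x| ≤ L.r0 := by
      have := hx'.1
      rwa [norm_real, Real.norm_eq_abs] at this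
    have h4 : x ∈ Icc (-L.r0) L.r0 := abs_le.1 h3
    have h5 : (0 : ℝ) ∈ Icc (-L.r0) L.r0 := ⟨by linarith [L.pos], L.pos.le⟩
    have h6 : (L.c ((0 : ℝ) : ℂ)).im = S.κ := by
      rw [ofReal_zero, L.zero]; simp
    have h7 := L.im_mem _ hx'
    constructor
    · intro h
      refine ⟨(L.c x).im, ⟨?_, h7.2.le⟩, h2⟩
      rw [← h6]
      exact L.mono.monotoneOn h5 h4 h
    · intro h
      refine ⟨(L.c x).im, ⟨h7.1.le, ?_⟩, h2⟩
      rw [← h6]
      exact L.mono.monotoneOn h4 h5 h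
  | succ n ih =>
    have h1 := g2D_sqf L hx
    rw [g2_sqf_real] at h1
    obtain ⟨a, ha, hae⟩ := (ih h1).1 (by positivity)
    have hmem : (a : ℂ) * I ∈ OO A.Xo := by
      rw [← hae]
      exact g2cc_memX L n h1
    have hval : g2cc L (n + 1) x = B.ap (g2lt x) (a * I) := by
      show B.ap (g2lt x) (g2cc L n (sqf x)) = _
      rw [g2_sqf_real, hae]
    constructor
    · intro h
      refine ⟨S.rp a, ?_, ?_⟩
      · rw [g2_κω L]
        exact S.rp_mem a ha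
      · rw [hval, (g2_ap (x : ℂ) _).1 (by simpa using h), B.bdΦ _ hmem, bd_rp B.bd _ ha]
    · intro h
      rcases h.lt_or_eq with h2 | h2
      · refine ⟨S.rm a, ?_, ?_⟩
        · rw [g2_κω L]
          exact S.rm_mem a ha
        · rw [hval, (g2_ap (x : ℂ) _).2 (by simpa using h2)]
          exact (bd_g B.bd B.cont2 B.exp2 B.one2 B.cont4 B.exp4 B.one4).2.2 a ha
      · refine ⟨S.κ, ⟨S.κ_mem.1.le, le_rfl⟩, ?_⟩
        rw [h2, ofReal_zero, g2cc_le L (Nat.zero_le (n + 1)) (g2_mem0 L)]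
        exact L.zero

/-- the left functional equation, also on the imaginary axis -/
private theorem g2cc_feM (n : ℕ) {z : ℂ} (hz : z ∈ g2D L (n + 1)) (h : z.re ≤ 0) :
    g2cc L (n + 1) z = B.g4 (exp (g2cc L n (sqf z))) := by
  rcases h.lt_or_eq with h1 | h1
  · exact (g2_ap z _).2 h1
  · have h2 := g2D_sqf L hz
    have h3 : g2cc L (n + 1) z = B.Φ (g2cc L n (sqf z)) := (g2_ap z _).1 h1.ge
    rw [h3]
    have h4 := g2_sqf_imag h1
    have h5 : g2cc L n (sqf z) ∈ OO A.Xo := g2cc_memX L n h2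
    rw [h4] at h2 h5 ⊢
    obtain ⟨a, ha, hae⟩ := (g2cc_real L n h2).2 (by nlinarith [sq_nonneg z.im])
    rw [hae] at h5 ⊢
    rw [B.bdΦ _ h5]
    exact (bd_g B.bd B.cont2 B.exp2 B.one2 B.cont4 B.exp4 B.one4).2.1 a ha

private theorem g2_exp_mem {u : ℂ} (hu : u ∈ UU) : exp u ∈ DD := by
  rw [DD, mem_closedBall_zero_iff, norm_exp]
  exact Real.exp_le_one_iff.2 hu

private theorem g2cc_cont (n : ℕ) : ContinuousOn (g2cc L n) (g2D L n) := by
  induction n with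
  | zero =>
    rw [g2D_zero]
    exact L.cont
  | succ n ih =>
    have hs : ContinuousOn (fun z => g2cc L n (sqf z)) (g2D L (n + 1)) :=
      ih.comp g2_cont_sqf.continuousOn fun z hz => g2D_sqf L hz
    have hD : g2D L (n + 1) = (g2D L (n + 1) ∩ {z | 0 ≤ z.re}) ∪ (g2D L (n + 1) ∩ {z | z.re ≤ 0}) := by
      rw [← inter_union_distrib_left]
      symm
      refine inter_eq_left.2 fun z _ => ?_
      exact le_total 0 z.re
    have hcl : IsClosed (g2D L (n + 1)) :=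
      (isClosed_le (continuous_norm.pow _) continuous_const).inter
        (isClosed_le continuous_const continuous_im)
    rw [hD]
    refine ContinuousOn.union_of_isClosed ?_ ?_
      (hcl.inter (isClosed_le continuous_const continuous_re))
      (hcl.inter (isClosed_le continuous_re continuous_const))
    · have h1 : ContinuousOn (fun z => B.Φ (g2cc L n (sqf z))) (g2D L (n + 1)) :=
        B.contΦ.comp hs fun z hz => g2cc_memX L n (g2D_sqf L hz)
      refine (h1.mono inter_subset_left).congr fun z hz => ?_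
      exact (g2_ap z _).1 hz.2
    · have h1 : ContinuousOn (fun z => B.g4 (exp (g2cc L n (sqf z)))) (g2D L (n + 1)) :=
        B.cont4.comp (continuous_exp.comp_continuousOn hs) fun z hz =>
          g2_exp_mem (g2cc_memX L n (g2D_sqf L hz)).1
      refine (h1.mono inter_subset_left).congr fun z hz => ?_
      exact g2cc_feM L n hz.1 hz.2

private theorem g2cc_bdd : ∃ M : ℝ, ∀ n, ∀ z ∈ g2D L n, ‖g2cc L n z‖ ≤ M := by
  obtain ⟨C, hC1, -, hC4⟩ := B.bdd
  have hcomp : IsCompact (HB L.r0) := by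
    have : HB L.r0 = closedBall 0 L.r0 ∩ {t | 0 ≤ t.im} := by
      ext t
      simp [HB]
    rw [this]
    exact (isCompact_closedBall 0 L.r0).inter_right (isClosed_le continuous_const continuous_im)
  obtain ⟨M1, hM1⟩ := hcomp.exists_bound_of_continuousOn L.cont
  refine ⟨max M1 (2 * |C|), fun n => ?_⟩
  induction n with
  | zero =>
    intro z hz
    rw [g2D_zero] at hz
    exact (hM1 z hz).trans (le_max_left _ _)
  | succ n ih =>
    intro z hz
    have h1 := ih _ (g2D_sqf L hz)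
    have h2 := g2cc_memX L n (g2D_sqf L hz)
    have h3 : 2 * |C| ≤ max M1 (2 * |C|) := le_max_right _ _
    have h4 := le_abs_self C
    have h5 := abs_nonneg C
    by_cases h : 0 ≤ z.re
    · have e : g2cc L (n + 1) z = B.Φ (g2cc L n (sqf z)) := (g2_ap z _).1 h
      rw [e]
      have h6 := hC1 _ h2
      have h7 : ‖B.Φ (g2cc L n (sqf z))‖ ≤ ‖B.Φ (g2cc L n (sqf z)) - g2cc L n (sqf z) / 2‖ +
          ‖g2cc L n (sqf z) / 2‖ := by
        have := norm_add_le (B.Φ (g2cc L n (sqf z)) - g2cc L n (sqf z) / 2) (g2cc L n (sqf z) / 2)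
        rwa [sub_add_cancel] at this
      have h8 : ‖g2cc L n (sqf z) / 2‖ = ‖g2cc L n (sqf z)‖ / 2 := by
        rw [norm_div]; norm_num
      rw [h8] at h7
      linarith
    · have e : g2cc L (n + 1) z = B.g4 (exp (g2cc L n (sqf z))) := (g2_ap z _).2 (not_le.1 h)
      rw [e]
      have h6 := hC4 _ (g2_exp_mem h2.1)
      linarith

/-! ## the map on the open half disc -/

open Classical in
private def g2c (L : LB B) (z : ℂ) : ℂ :=
  if h : ∃ n, z ∈ g2D L n then g2cc L (Nat.find h) z else 0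

private theorem g2c_eq {n : ℕ} {z : ℂ} (hz : z ∈ g2D L n) : g2c L z = g2cc L n z := by
  classical
  have h : ∃ n, z ∈ g2D L n := ⟨n, hz⟩
  rw [g2c, dif_pos h]
  exact (g2cc_le L (Nat.find_min' h hz) (Nat.find_spec h)).symm

private theorem g2c_cont : ContinuousOn (g2c L) g2E := by
  intro z hz
  obtain ⟨n, hn⟩ := g2_exists hz L.pos
  have hzn : z ∈ g2D L n := ⟨hn.le, hz.2⟩
  have h1 : ContinuousWithinAt (g2c L) (g2D L n) z :=
    (g2cc_cont L n z hzn).congr (fun y hy => g2c_eq L hy) (g2c_eq L hzn)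
  refine h1.mono_of_mem_nhdsWithin ?_
  have h2 : {y : ℂ | ‖y‖ ^ 2 ^ n < L.r0} ∈ 𝓝 z :=
    (isOpen_lt (continuous_norm.pow _) continuous_const).mem_nhds hn
  filter_upwards [nhdsWithin_le_nhds h2, self_mem_nhdsWithin] with y hy hy2
  exact ⟨le_of_lt hy, hy2.2⟩

private theorem g2c_mem {Z : Set ℂ} (hZ : A.Xo ⊆ Z) (hF : MapsTo S.F Z Z)
    (hd : ∀ z ∈ HB L.r0, exp (L.c z) ∉ Z) {z : ℂ} (hz : z ∈ g2E) : g2c L z ∈ OO Z := by
  obtain ⟨n, hn⟩ := g2_exD L hz
  rw [g2c_eq L hn]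
  exact g2cc_mem L hZ hF hd n hn

private theorem g2c_memX {z : ℂ} (hz : z ∈ g2E) : g2c L z ∈ OO A.Xo :=
  g2c_mem L subset_rfl A.FXo (fun _ hz => (L.maps hz).2) hz

private theorem g2c_L {z : ℂ} (hz : z ∈ HB L.r0) : g2c L z = L.c z := by
  rw [← g2D_zero] at hz
  exact g2c_eq L hz

private theorem g2c_fe {z : ℂ} (hz : z ∈ g2E) : g2c L z = B.ap (g2lt z) (g2c L (sqf z)) := by
  obtain ⟨n, hn⟩ := g2_exD L hz
  have h1 := g2D_mono L n hn
  rw [g2c_eq L h1, g2c_eq L (g2D_sqf L h1)]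
  rfl

private theorem g2c_feP {z : ℂ} (hz : z ∈ g2E) (h : 0 ≤ z.re) :
    g2c L z = B.Φ (g2c L (sqf z)) := by
  rw [g2c_fe L hz]
  exact (g2_ap z _).1 h

private theorem g2c_feM {z : ℂ} (hz : z ∈ g2E) (h : z.re ≤ 0) :
    g2c L z = B.g4 (exp (g2c L (sqf z))) := by
  obtain ⟨n, hn⟩ := g2_exD L hz
  have h1 := g2D_mono L n hn
  rw [g2c_eq L h1, g2c_eq L (g2D_sqf L h1)]
  exact g2cc_feM L n h1 h

private theorem g2c_word (n : ℕ) {z : ℂ} (hz : z ∈ g2E) :
    g2c L z = B.ev (g2wd n z) (g2c L (sqf^[n] z)) := by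
  induction n generalizing z with
  | zero => rfl
  | succ n ih =>
    rw [g2wd, Br.ev, Function.iterate_succ_apply, ← ih (g2E_sqf hz)]
    exact g2c_fe L hz

private theorem g2c_F {z : ℂ} (hz : z ∈ g2E) :
    S.F (exp (g2c L z)) = exp (g2c L (sqf z)) := by
  rw [g2c_fe L hz]
  exact B.F_ap _ (g2c_memX L (g2E_sqf hz))

private theorem g2c_Fn (n : ℕ) {z : ℂ} (hz : z ∈ g2E) :
    S.F^[n] (exp (g2c L z)) = exp (g2c L (sqf^[n] z)) := by
  induction n generalizing z with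
  | zero => rfl
  | succ n ih => rw [Function.iterate_succ_apply, g2c_F L hz, ih (g2E_sqf hz)]; rfl

private theorem g2c_Do {δ : ℝ} (hδr : δ ≤ L.r0) {z : ℂ} (hz : z ∈ g2E)
    (h : δ ≤ ‖z‖) : exp (g2c L z) ∉ L.Do δ := by
  rintro ⟨t, ht, hte⟩
  have htE : t ∈ g2E := ⟨ht.1.trans (h.trans_lt hz.1), ht.2⟩
  have htB : t ∈ HB L.r0 := ⟨ht.1.le.trans hδr, ht.2⟩
  have h1 : exp (g2c L t) = exp (g2c L z) := by
    rw [g2c_L L htB]
    exact hte
  obtain ⟨n, hn⟩ := g2_exists hz L.pos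
  have h2 : exp (g2c L (sqf^[n] t)) = exp (g2c L (sqf^[n] z)) := by
    rw [← g2c_Fn L n htE, ← g2c_Fn L n hz, h1]
  have hzn : sqf^[n] z ∈ HB L.r0 := ⟨by rw [g2_norm_iter]; exact hn.le, g2_iter_im n z hz.2⟩
  have hle : ‖t‖ ^ 2 ^ n ≤ ‖z‖ ^ 2 ^ n :=
    pow_le_pow_left₀ (norm_nonneg _) (ht.1.le.trans h) _
  have htn : sqf^[n] t ∈ HB L.r0 :=
    ⟨by rw [g2_norm_iter]; exact hle.trans hn.le, g2_iter_im n t ht.2⟩
  rw [g2c_L L hzn, g2c_L L htn] at h2
  have h3 : L.c (sqf^[n] t) = L.c (sqf^[n] z) := by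
    obtain ⟨k, hk⟩ := exp_eq_exp_iff_exists_int.1 h2
    have i1 := L.im_mem _ htn
    have i2 := L.im_mem _ hzn
    have h4 : (L.c (sqf^[n] t)).im = (L.c (sqf^[n] z)).im + k * (2 * Real.pi) := by
      rw [hk]
      simp
    have hpi := Real.pi_pos
    have hk0 : k = 0 := by
      have h5 : (k : ℝ) * (2 * Real.pi) < 1 * (2 * Real.pi) := by linarith [i1.2, i2.1]
      have h6 : (-1 : ℝ) * (2 * Real.pi) < (k : ℝ) * (2 * Real.pi) := by linarith [i1.1, i2.2]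
      have h7 : (k : ℝ) < 1 := lt_of_mul_lt_mul_right h5 (by positivity)
      have h8 : (-1 : ℝ) < k := lt_of_mul_lt_mul_right h6 (by positivity)
      have h9 : k < 1 := by exact_mod_cast h7
      have h10 : -1 < k := by exact_mod_cast h8
      omega
    rw [hk, hk0]
    simp
  have h4 := L.inj htn hzn h3
  have h5 : ‖t‖ ^ 2 ^ n = ‖z‖ ^ 2 ^ n := by
    rw [← g2_norm_iter, ← g2_norm_iter, h4]
  have h6 : ‖t‖ = ‖z‖ :=
    (pow_left_inj₀ (norm_nonneg _) (norm_nonneg _) (by positivity)).1 h5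
  linarith [ht.1]

private theorem g2c_bdd : ∃ M : ℝ, ∀ z ∈ g2E, ‖g2c L z‖ ≤ M := by
  obtain ⟨M, hM⟩ := g2cc_bdd L
  refine ⟨M, fun z hz => ?_⟩
  obtain ⟨n, hn⟩ := g2_exD L hz
  rw [g2c_eq L hn]
  exact hM n z hn

private theorem g2_smul_E {t : ℝ} (ht : 0 < t) (ht1 : t < 1) {z : ℂ} (hz : z ∈ HD) :
    (t : ℂ) * z ∈ g2E := by
  constructor
  · rw [norm_mul, norm_real, Real.norm_eq_abs, abs_of_pos ht]
    calc t * ‖z‖ ≤ t * 1 := mul_le_mul_of_nonneg_left hz.1 ht.le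
      _ < 1 := by linarith
  · rw [im_ofReal_mul]
    exact mul_nonneg ht.le hz.2

private theorem g2_iter_HD {z : ℂ} (hz : z ∈ HD) (n : ℕ) : sqf^[n] z ∈ HD :=
  ⟨by rw [g2_norm_iter]; exact pow_le_one₀ (norm_nonneg _) hz.1, g2_iter_im n z hz.2⟩

/-- the radial estimate -/
private theorem g2_key {No : Set ℂ} {δ : ℝ} (hδ : 0 < δ) (hδ' : δ ≤ L.r0)
    (hd : ∀ ζ ∈ HB L.r0, exp (L.c ζ) ∉ No) (hN : MapsTo S.F No No)
    (hS : Shrinks B (A.Xo ∪ No ∪ L.Do δ)) (η : ℝ) (hη : 0 < η) :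
    ∃ r : ℝ, 0 < r ∧ r < 1 ∧ ∀ z ∈ HD, ∀ s t : ℝ, 0 < s → s < 1 → 0 < t → t < 1 →
      r ≤ s * ‖z‖ → r ≤ t * ‖z‖ → ‖g2c L (s * z) - g2c L (t * z)‖ ≤ η := by
  obtain ⟨M, hM⟩ := g2c_bdd L
  obtain ⟨N, hNs⟩ := hS (2 * M) η hη
  have hδ1 : δ < 1 := hδ'.trans_lt L.lt
  have h2N : (0 : ℝ) < 2 ^ N := by positivity
  have h2N1 : (1 : ℝ) ≤ 2 ^ N := one_le_pow₀ (by norm_num)
  have hx0 : 0 < (1 - δ) / 2 ^ N := div_pos (by linarith) h2N
  have hx1 : (1 - δ) / 2 ^ N ≤ 1 - δ := div_le_self (by linarith) h2N1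
  have hr : δ ≤ (1 - (1 - δ) / 2 ^ N) ^ 2 ^ N := by
    have h1 := one_add_mul_le_pow (a := -((1 - δ) / 2 ^ N)) (by linarith) (2 ^ N)
    have h2 : 1 + ((2 ^ N : ℕ) : ℝ) * (-((1 - δ) / 2 ^ N)) = δ := by
      push_cast
      field_simp
      ring
    rw [h2] at h1
    simpa [sub_eq_add_neg] using h1
  have hXN : MapsTo S.F (A.Xo ∪ No) (A.Xo ∪ No) := by
    rintro x (hx | hx)
    · exact Or.inl (A.FXo hx)
    · exact Or.inr (hN hx)
  have hE : ∀ z ∈ g2E, g2c L z ∈ OO (A.Xo ∪ No) := fun z hz =>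
    g2c_mem L subset_union_left hXN (fun z hz h => h.elim (L.maps hz).2 (hd z hz)) hz
  refine ⟨1 - (1 - δ) / 2 ^ N, by linarith, by linarith, ?_⟩
  intro z hz s t hs hs1 ht ht1 hsr htr
  set w := sqf^[N] z with hw
  have hwD : w ∈ HD := g2_iter_HD hz N
  let J : Set ℝ := {τ | 0 < τ ∧ τ < 1 ∧ δ ≤ τ * ‖w‖}
  have hJc : J.OrdConnected := by
    refine ⟨fun a ha b hb x hx => ⟨ha.1.trans_le hx.1, hx.2.trans_lt hb.2.1, ?_⟩⟩
    exact ha.2.2.trans (mul_le_mul_of_nonneg_right hx.1 (norm_nonneg _))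
  have hJE : ∀ τ ∈ J, (τ : ℂ) * w ∈ g2E := fun τ hτ => g2_smul_E hτ.1 hτ.2.1 hwD
  have hnorm : ∀ τ : ℝ, 0 < τ → ‖(τ : ℂ) * w‖ = τ * ‖w‖ := fun τ hτ => by
    rw [norm_mul, norm_real, Real.norm_eq_abs, abs_of_pos hτ]
  have hlump : Lump (A.Xo ∪ No ∪ L.Do δ) (2 * M) ((fun τ : ℝ => g2c L (τ * w)) '' J) := by
    refine ⟨?_, ?_, ?_⟩
    · rintro _ ⟨τ, hτ, rfl⟩
      have h1 := hE _ (hJE τ hτ)
      refine ⟨h1.1, ?_⟩
      rintro (h2 | h2)
      · exact h1.2 h2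
      · refine g2c_Do L hδ' (hJE τ hτ) ?_ h2
        rw [hnorm τ hτ.1]
        exact hτ.2.2
    · refine hJc.isPreconnected.image _ ?_
      refine (g2c_cont L).comp ?_ hJE
      exact ((continuous_ofReal).mul continuous_const).continuousOn
    · rintro _ ⟨τ, hτ, rfl⟩ _ ⟨τ', hτ', rfl⟩
      have h1 := hM _ (hJE τ hτ)
      have h2 := hM _ (hJE τ' hτ')
      have h3 := norm_sub_le (g2c L (τ * w)) (g2c L (τ' * w))
      linarith
  have hmemJ : ∀ τ : ℝ, 0 < τ → τ < 1 → 1 - (1 - δ) / 2 ^ N ≤ τ * ‖z‖ → τ ^ 2 ^ N ∈ J := by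
    intro τ hτ hτ1 hτr
    refine ⟨by positivity, pow_lt_one₀ hτ.le hτ1 (by positivity), ?_⟩
    rw [hw, g2_norm_iter, ← mul_pow]
    exact hr.trans (pow_le_pow_left₀ (by linarith) hτr _)
  have hword : ∀ τ : ℝ, 0 < τ → τ < 1 →
      g2c L (τ * z) = B.ev (g2wd N z) (g2c L (((τ ^ 2 ^ N : ℝ) : ℂ) * w)) := by
    intro τ hτ hτ1
    rw [g2c_word L N (g2_smul_E hτ hτ1 hz), g2wd_smul N hτ, g2_iter_smul N hτ]
  rw [hword s hs hs1, hword t ht ht1]
  exact hNs (g2wd N z) (g2wd_length N z).ge _ hlump _ ⟨_, hmemJ s hs hs1 hsr, rfl⟩ _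
    ⟨_, hmemJ t ht ht1 htr, rfl⟩

end

/-- the logarithmic parametrisation of the marked basin: limit of pull-backs -/
theorem exists_c {S : TS} {A : XS S} {B : Br S A} (L : LB B) {No : Set ℂ} {δ : ℝ}
    (hδ : 0 < δ) (hδ' : δ ≤ L.r0 ^ 2) (hZ : ZS S A (A.Xo ∪ No ∪ L.Do δ))
    (hd : ∀ ζ ∈ HB L.r0, exp (L.c ζ) ∉ No) (hN : MapsTo S.F No No)
    (hS : Shrinks B (A.Xo ∪ No ∪ L.Do δ)) :
    ∃ c : ℂ → ℂ, ContinuousOn c HD ∧ MapsTo c HD (OO (A.Xo ∪ No)) ∧
      (∀ ζ ∈ HB L.r0, c ζ = L.c ζ) ∧ (∀ ζ ∈ HD, 0 ≤ ζ.re → c ζ = B.Φ (c (sqf ζ))) ∧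
      (∀ ζ ∈ HD, ζ.re ≤ 0 → c ζ = B.g4 (exp (c (sqf ζ)))) := by
  have hδr : δ ≤ L.r0 := hδ'.trans (by nlinarith [L.pos, L.lt])
  have hXN : MapsTo S.F (A.Xo ∪ No) (A.Xo ∪ No) := by
    rintro x (hx | hx)
    · exact Or.inl (A.FXo hx)
    · exact Or.inr (hN hx)
  have hE : ∀ z ∈ g2E, g2c L z ∈ OO (A.Xo ∪ No) := fun z hz =>
    g2c_mem L subset_union_left hXN (fun z hz h => h.elim (L.maps hz).2 (hd z hz)) hz
  -- the radii
  let ρ : ℕ → ℝ := fun k => 1 - 1 / ((k : ℝ) + 2)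
  have hρ0 : ∀ k, 0 < ρ k := fun k => by
    have h1 : 1 / ((k : ℝ) + 2) < 1 := by
      rw [div_lt_one (by positivity)]
      have : (0 : ℝ) ≤ k := Nat.cast_nonneg k
      linarith
    show 0 < 1 - 1 / ((k : ℝ) + 2)
    linarith
  have hρ1 : ∀ k, ρ k < 1 := fun k => by
    have h1 : 0 < 1 / ((k : ℝ) + 2) := by positivity
    show 1 - 1 / ((k : ℝ) + 2) < 1
    linarith
  have hρlim : Tendsto ρ atTop (𝓝 1) := by
    have h1 : Tendsto (fun k : ℕ => 1 / ((k : ℝ) + 2)) atTop (𝓝 0) := by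
      have h2 := (tendsto_one_div_add_atTop_nhds_zero_nat (𝕜 := ℝ)).comp (tendsto_add_atTop_nat 1)
      refine h2.congr fun k => ?_
      simp only [Function.comp]
      push_cast
      ring_nf
    have h3 := (tendsto_const_nhds (x := (1 : ℝ))).sub h1
    rwa [sub_zero] at h3
  let f : ℕ → ℂ → ℂ := fun k z => g2c L (ρ k * z)
  have hfE : ∀ k, ∀ z ∈ HD, (ρ k : ℂ) * z ∈ g2E := fun k z hz => g2_smul_E (hρ0 k) (hρ1 k) hz
  -- the sequence is uniformly Cauchy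
  have hcauchy : UniformCauchySeqOn f atTop HD := by
    rw [Metric.uniformCauchySeqOn_iff]
    intro ε hε
    obtain ⟨r, hr0, hr1, hr⟩ := g2_key L hδ hδr hd hN hS (ε / 2) (by positivity)
    set r1 : ℝ := (1 + r) / 2 with hr1d
    have hr11 : r1 < 1 := by rw [hr1d]; linarith
    have hr10 : 0 < r1 := by rw [hr1d]; linarith
    have hrr : r ≤ r1 * r1 := by rw [hr1d]; nlinarith [sq_nonneg (1 - r)]
    have hK : IsCompact (HB r1) := by
      have : HB r1 = closedBall 0 r1 ∩ {t | 0 ≤ t.im} := by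
        ext t
        simp [HB]
      rw [this]
      exact (isCompact_closedBall 0 r1).inter_right (isClosed_le continuous_const continuous_im)
    have hKE : HB r1 ⊆ g2E := fun z hz => ⟨hz.1.trans_lt hr11, hz.2⟩
    have huc := hK.uniformContinuousOn_of_continuous ((g2c_cont L).mono hKE)
    obtain ⟨d, hd0, hd1⟩ := Metric.uniformContinuousOn_iff.1 huc ε hε
    have hev : ∀ᶠ k in atTop, max r1 (1 - d / 2) < ρ k :=
      hρlim.eventually (lt_mem_nhds (max_lt hr11 (by linarith)))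
    obtain ⟨K, hK'⟩ := eventually_atTop.1 hev
    refine ⟨K, fun m hm n hn z hz => ?_⟩
    have hm1 := (le_max_left _ _).trans_lt (hK' m hm)
    have hm2 := (le_max_right _ _).trans_lt (hK' m hm)
    have hn1 := (le_max_left _ _).trans_lt (hK' n hn)
    have hn2 := (le_max_right _ _).trans_lt (hK' n hn)
    by_cases hzr : ‖z‖ ≤ r1
    · have hmem : ∀ k, (ρ k : ℂ) * z ∈ HB r1 := fun k => by
        refine ⟨?_, (hfE k z hz).2⟩
        rw [norm_mul, norm_real, Real.norm_eq_abs, abs_of_pos (hρ0 k)]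
        calc ρ k * ‖z‖ ≤ 1 * ‖z‖ := mul_le_mul_of_nonneg_right (hρ1 k).le (norm_nonneg _)
          _ ≤ r1 := by rw [one_mul]; exact hzr
      refine hd1 _ (hmem m) _ (hmem n) ?_
      rw [dist_eq_norm, ← sub_mul, norm_mul, ← ofReal_sub, norm_real, Real.norm_eq_abs]
      have h1 : |ρ m - ρ n| < d / 2 := by
        rw [abs_lt]
        constructor <;> linarith [hρ1 m, hρ1 n]
      calc |ρ m - ρ n| * ‖z‖ ≤ |ρ m - ρ n| * 1 :=
            mul_le_mul_of_nonneg_left hz.1 (abs_nonneg _)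
        _ < d := by linarith
    · have hz1 : r1 ≤ ‖z‖ := (not_le.1 hzr).le
      rw [dist_eq_norm]
      refine lt_of_le_of_lt (hr z hz (ρ m) (ρ n) (hρ0 m) (hρ1 m) (hρ0 n) (hρ1 n) ?_ ?_)
        (by linarith)
      · exact hrr.trans (mul_le_mul hm1.le hz1 hr10.le (hρ0 m).le)
      · exact hrr.trans (mul_le_mul hn1.le hz1 hr10.le (hρ0 n).le)
  have hlim : ∀ z ∈ HD, ∃ y, Tendsto (fun k => f k z) atTop (𝓝 y) := fun z hz =>
    cauchySeq_tendsto_of_complete (hcauchy.cauchySeq hz)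
  classical
  let c : ℂ → ℂ := fun z => if h : z ∈ HD then (hlim z h).choose else 0
  have hclim : ∀ z ∈ HD, Tendsto (fun k => f k z) atTop (𝓝 (c z)) := fun z hz => by
    have : c z = (hlim z hz).choose := dif_pos hz
    rw [this]
    exact (hlim z hz).choose_spec
  have hunif : TendstoUniformlyOn f c atTop HD := hcauchy.tendstoUniformlyOn_of_tendsto hclim
  have hcc : ContinuousOn c HD := by
    refine hunif.continuousOn (Frequently.of_forall fun k => ?_)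
    exact (g2c_cont L).comp (continuous_const.mul continuous_id).continuousOn fun z hz => hfE k z hz
  have hray : ∀ z : ℂ, Tendsto (fun k => (ρ k : ℂ) * z) atTop (𝓝 z) := fun z => by
    have h1 : Tendsto (fun k => (ρ k : ℂ)) atTop (𝓝 ((1 : ℝ) : ℂ)) :=
      (continuous_ofReal.tendsto 1).comp hρlim
    have h2 := h1.mul (tendsto_const_nhds (x := z))
    rwa [ofReal_one, one_mul] at h2
  have hEHD : g2E ⊆ HD := fun z hz => ⟨hz.1.le, hz.2⟩
  have hcE : ∀ z ∈ g2E, c z = g2c L z := by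
    intro z hz
    have h1 := hclim z (hEHD hz)
    have h2 : Tendsto (fun k => f k z) atTop (𝓝 (g2c L z)) := by
      have h3 : Tendsto (fun k => (ρ k : ℂ) * z) atTop (𝓝[g2E] z) :=
        tendsto_nhdsWithin_iff.2 ⟨hray z, Eventually.of_forall fun k => hfE k z (hEHD hz)⟩
      exact (g2c_cont L z hz).tendsto.comp h3
    exact tendsto_nhds_unique h1 h2
  have hsqHD : ∀ z ∈ HD, sqf z ∈ HD := fun z hz => g2_iter_HD hz 1
  have hmaps : MapsTo c HD (OO (A.Xo ∪ No)) := by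
    intro z hz
    by_cases hz1 : z ∈ g2E
    · rw [hcE z hz1]
      exact hE z hz1
    · have hzn : ‖z‖ = 1 := by
        refine le_antisymm hz.1 ?_
        by_contra h
        exact hz1 ⟨not_le.1 h, hz.2⟩
      obtain ⟨O, hO, hZO⟩ := hZ.openZ
      have h1 : ∀ᶠ k in atTop, f k z ∈ UU ∧ exp (f k z) ∉ O := by
        have hev : ∀ᶠ k in atTop, δ < ρ k :=
          hρlim.eventually (lt_mem_nhds (hδr.trans_lt L.lt))
        filter_upwards [hev] with k hk
        have h2 := hE _ (hfE k z hz)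
        refine ⟨h2.1, fun h3 => ?_⟩
        have h4 : exp (f k z) ∈ A.Xo ∪ No ∪ L.Do δ := by
          rw [hZO]
          exact ⟨h3, g2_exp_mem h2.1⟩
        rcases h4 with h5 | h5
        · exact h2.2 h5
        · refine g2c_Do L hδr (hfE k z hz) ?_ h5
          rw [norm_mul, hzn, mul_one, norm_real, Real.norm_eq_abs, abs_of_pos (hρ0 k)]
          exact hk.le
      have hcl : IsClosed {u : ℂ | u ∈ UU ∧ exp u ∉ O} :=
        (isClosed_le continuous_re continuous_const).inter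
          (hO.isClosed_compl.preimage continuous_exp)
      have h2 := hcl.mem_of_tendsto (hclim z hz) h1
      refine ⟨h2.1, fun h3 => h2.2 ?_⟩
      have h4 : exp (c z) ∈ A.Xo ∪ No ∪ L.Do δ := Or.inl h3
      rw [hZO] at h4
      exact h4.1
  have hmapsX : MapsTo c HD (OO A.Xo) := fun z hz =>
    ⟨(hmaps hz).1, fun h => (hmaps hz).2 (Or.inl h)⟩
  -- limits along rays
  have hsqlim : ∀ z ∈ HD, Tendsto (fun k => c (sqf (ρ k * z))) atTop (𝓝 (c (sqf z))) := by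
    intro z hz
    have h1 : Tendsto (fun k => sqf ((ρ k : ℂ) * z)) atTop (𝓝[HD] (sqf z)) :=
      tendsto_nhdsWithin_iff.2 ⟨(g2_cont_sqf.tendsto z).comp (hray z),
        Eventually.of_forall fun k => hsqHD _ (hEHD (hfE k z hz))⟩
    exact (hcc _ (hsqHD z hz)).tendsto.comp h1
  refine ⟨c, hcc, hmaps, fun z hz => ?_, fun z hz hre => ?_, fun z hz hre => ?_⟩
  · have hzE : z ∈ g2E := ⟨hz.1.trans_lt L.lt, hz.2⟩
    rw [hcE z hzE, g2c_L L hz]
  · have h1 := hclim z hz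
    have h2 : Tendsto (fun k => f k z) atTop (𝓝 (B.Φ (c (sqf z)))) := by
      have h3 : Tendsto (fun k => c (sqf ((ρ k : ℂ) * z))) atTop (𝓝[OO A.Xo] (c (sqf z))) :=
        tendsto_nhdsWithin_iff.2 ⟨hsqlim z hz,
          Eventually.of_forall fun k => hmapsX (hsqHD _ (hEHD (hfE k z hz)))⟩
      refine ((B.contΦ _ (hmapsX (hsqHD z hz))).tendsto.comp h3).congr fun k => ?_
      have h4 := hfE k z hz
      show B.Φ (c (sqf ((ρ k : ℂ) * z))) = g2c L ((ρ k : ℂ) * z)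
      rw [hcE _ (g2E_sqf h4), g2c_feP L h4]
      rw [re_ofReal_mul]
      exact mul_nonneg (hρ0 k).le hre
    exact tendsto_nhds_unique h1 h2
  · have h1 := hclim z hz
    have h2 : Tendsto (fun k => f k z) atTop (𝓝 (B.g4 (exp (c (sqf z))))) := by
      have h3 : Tendsto (fun k => exp (c (sqf ((ρ k : ℂ) * z)))) atTop
          (𝓝[DD] (exp (c (sqf z)))) :=
        tendsto_nhdsWithin_iff.2 ⟨(continuous_exp.tendsto _).comp (hsqlim z hz),
          Eventually.of_forall fun k =>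
            g2_exp_mem (hmapsX (hsqHD _ (hEHD (hfE k z hz)))).1⟩
      refine ((B.cont4 _ (g2_exp_mem (hmapsX (hsqHD z hz)).1)).tendsto.comp h3).congr fun k => ?_
      have h4 := hfE k z hz
      show B.g4 (exp (c (sqf ((ρ k : ℂ) * z)))) = g2c L ((ρ k : ℂ) * z)
      rw [hcE _ (g2E_sqf h4), g2c_feM L h4]
      rw [re_ofReal_mul]
      exact mul_nonpos_of_nonneg_of_nonpos (hρ0 k).le hre
    exact tendsto_nhds_unique h1 h2

end

end Pool.TU
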