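import Pool.Agent.Helper71.TU.A6

/-! # TU G3: the open marked basin -/

open Complex Set Filter Topology Metric Polynomial ComplexConjugate Pool.Tuning

namespace Pool.TU

noncomputable section

variable {S : TS} {A : XS S} {B : Br S A} {L : LB B} {c : ℂ → ℂ} {No : Set ℂ}

theorem G3_fold_norm (w : ℂ) : ‖fold w‖ = ‖w‖ := by
  unfold fold
  split_ifs
  · rfl
  · exact Complex.norm_conj w

theorem G3_fold_im (w : ℂ) : 0 ≤ (fold w).im := by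
  unfold fold
  split_ifs with h
  · exact h
  · push Not at h
    simp only [conj_im]
    linarith

theorem G3_fold_re (w : ℂ) : (fold w).re = w.re := by
  unfold fold
  split_ifs <;> simp

theorem G3_fold_real {w : ℂ} {x : ℝ} (h : fold w = (x : ℂ)) : w = (x : ℂ) := by
  unfold fold at h
  split_ifs at h with h1
  · exact h
  · rw [← Complex.conj_conj w, h, Complex.conj_ofReal]

theorem G3_sqf_norm (ζ : ℂ) : ‖sqf ζ‖ = ‖ζ‖ ^ 2 := by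
  unfold sqf
  rw [G3_fold_norm, norm_pow]

theorem G3_sqf_real (t : ℝ) : sqf (t : ℂ) = ((t ^ 2 : ℝ) : ℂ) := by
  unfold sqf fold
  have : ((t : ℂ) ^ 2).im = 0 := by
    rw [← Complex.ofReal_pow, Complex.ofReal_im]
  rw [if_pos this.ge]
  push_cast
  rfl

theorem sqf_maps : MapsTo sqf HD HD := by
  intro ζ hζ
  refine ⟨?_, G3_fold_im _⟩
  rw [G3_sqf_norm]
  exact pow_le_one₀ (norm_nonneg _) hζ.1

theorem G3_real_mem {t : ℝ} (ht : t ∈ Icc (-1 : ℝ) 1) : (t : ℂ) ∈ HD := by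
  refine ⟨?_, by simp⟩
  rw [Complex.norm_real, Real.norm_eq_abs]
  exact abs_le.2 ht

theorem G3_re_of_norm {u : ℂ} (h : ‖exp u‖ = 1) : u.re = 0 := by
  rw [Complex.norm_exp] at h
  exact Real.exp_eq_one_iff _ |>.1 h

theorem G3_half_mem {u : ℂ} (hu : u ∈ UU) : exp (u / 2) ∈ DD := by
  rw [DD, mem_closedBall_zero_iff, Complex.norm_exp, Real.exp_le_one_iff]
  have : u.re ≤ 0 := hu
  have e : (u / 2).re = u.re / 2 := by simp
  rw [e]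
  linarith

theorem G3_exp_mem {u : ℂ} (hu : u ∈ UU) : exp u ∈ DD := by
  rw [DD, mem_closedBall_zero_iff, Complex.norm_exp, Real.exp_le_one_iff]
  exact hu

theorem G3_half_sq (u : ℂ) : exp (u / 2) ^ 2 = exp u := by
  rw [← Complex.exp_nat_mul]
  congr 1
  push_cast
  ring

theorem G3_ec_half_sq (θ : ℝ) : ec (θ / 2) ^ 2 = ec θ := by
  unfold ec
  rw [← Complex.exp_nat_mul]
  congr 1
  push_cast
  ring

theorem G3_ec_two_pi : ec (2 * Real.pi) = 1 := by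
  unfold ec
  rw [← Complex.exp_two_pi_mul_I]
  congr 1
  push_cast
  ring

theorem G3_ec_zero : ec 0 = 1 := by simp [ec]

/-- a complex number on the imaginary axis -/
theorem G3_exp_re_zero {u : ℂ} (h : u.re = 0) : exp u = ec u.im := by
  unfold ec
  congr 1
  apply Complex.ext <;> simp [h]

theorem G3_eq_im {u : ℂ} (h : u.re = 0) : u = (u.im : ℂ) * I := by
  apply Complex.ext <;> simp [h]

theorem CD.memO (h : CD L c No) {ζ : ℂ} (hζ : ζ ∈ HD) : c ζ ∈ OO A.Xo :=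
  ⟨(h.maps hζ).1, fun hh => (h.maps hζ).2 (Or.inl hh)⟩

theorem CD.ne_one (h : CD L c No) {ζ : ℂ} (hζ : ζ ∈ HD) : exp (c ζ) ≠ 1 := by
  intro hh
  refine (h.maps hζ).2 (Or.inr ?_)
  rw [hh]
  exact h.one

theorem CD.exp_pos (h : CD L c No) {ζ : ℂ} (hζ : ζ ∈ HD) (hr : 0 ≤ ζ.re) :
    exp (c ζ) = S.Θ (exp (c (sqf ζ) / 2)) := by
  conv_lhs => rw [h.feP ζ hζ hr]
  exact B.expΦ _ (h.memO (sqf_maps hζ))

theorem CD.exp_neg (h : CD L c No) {ζ : ℂ} (hζ : ζ ∈ HD) (hr : ζ.re ≤ 0) :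
    exp (c ζ) = S.G4 (exp (c (sqf ζ))) := by
  conv_lhs => rw [h.feM ζ hζ hr]
  exact B.exp4 _ (G3_exp_mem (h.memO (sqf_maps hζ)).1)

theorem CD.F_eq (h : CD L c No) {ζ : ℂ} (hζ : ζ ∈ HD) : S.F (exp (c ζ)) = exp (c (sqf ζ)) := by
  have hm := (h.memO (sqf_maps hζ)).1
  rcases le_total 0 ζ.re with hr | hr
  · rw [h.exp_pos hζ hr, S.FΘ _ (G3_half_mem hm), G3_half_sq]
  · rw [h.exp_neg hζ hr, S.F4 _ (G3_exp_mem hm)]

theorem CD.c0 (h : CD L c No) : c 0 = S.κ * I := by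
  rw [h.eqL 0 ⟨by simpa using L.pos.le, by simp⟩, L.zero]

/-- the values on reals: positive side -/
theorem CD.real_pos (h : CD L c No) {t : ℝ} (ht : t ∈ Icc (-1 : ℝ) 1) (h0 : 0 ≤ t)
    (hr : (c ((t ^ 2 : ℝ) : ℂ)).re = 0)
    (hi : (c ((t ^ 2 : ℝ) : ℂ)).im ∈ Icc S.κ (2 * Real.pi)) :
    c (t : ℂ) = (S.rp (c ((t ^ 2 : ℝ) : ℂ)).im : ℂ) * I := by
  have hm := h.memO (sqf_maps (G3_real_mem ht))
  rw [h.feP _ (G3_real_mem ht) (by simpa using h0)]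
  rw [G3_sqf_real] at hm ⊢
  have e := G3_eq_im hr
  rw [e] at hm
  conv_lhs => rw [e]
  rw [B.bdΦ _ hm, bd_rp B.bd _ hi]

theorem CD.real_neg (h : CD L c No) {t : ℝ} (ht : t ∈ Icc (-1 : ℝ) 1) (h0 : t ≤ 0)
    (hr : (c ((t ^ 2 : ℝ) : ℂ)).re = 0)
    (hi : (c ((t ^ 2 : ℝ) : ℂ)).im ∈ Icc S.κ (2 * Real.pi)) :
    c (t : ℂ) = (S.rm (c ((t ^ 2 : ℝ) : ℂ)).im : ℂ) * I := by
  rw [h.feM _ (G3_real_mem ht) (by simpa using h0), G3_sqf_real, G3_exp_re_zero hr]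
  exact (bd_g B.bd B.cont2 B.exp2 B.one2 B.cont4 B.exp4 B.one4).2.2 _ hi

theorem CD.real_aux (h : CD L c No) (n : ℕ) : ∀ t : ℝ, t ∈ Icc (-1 : ℝ) 1 →
    |t| ^ (2 ^ n) ≤ L.r0 → (c (t : ℂ)).re = 0 ∧ (c (t : ℂ)).im ∈ Ioo 0 (2 * Real.pi) ∧
      (0 ≤ t → S.κ ≤ (c (t : ℂ)).im) ∧ (t ≤ 0 → (c (t : ℂ)).im ≤ S.κ) := by
  induction n with
  | zero =>
    intro t ht htr
    rw [pow_zero, pow_one] at htr
    have hm : (t : ℂ) ∈ HB L.r0 := by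
      refine ⟨?_, by simp⟩
      rwa [Complex.norm_real, Real.norm_eq_abs]
    rw [h.eqL _ hm]
    have h0 : (L.c ((0 : ℝ) : ℂ)).im = S.κ := by
      rw [Complex.ofReal_zero, L.zero]
      simp
    have h0m : (0 : ℝ) ∈ Icc (-L.r0) L.r0 := ⟨by linarith [L.pos], L.pos.le⟩
    have htm : t ∈ Icc (-L.r0) L.r0 := abs_le.1 htr
    refine ⟨(L.real _ hm).2 (by simp), L.im_mem _ hm, fun h1 => ?_, fun h1 => ?_⟩
    · have h2 : (L.c ((0 : ℝ) : ℂ)).im ≤ (L.c (t : ℂ)).im := L.mono.monotoneOn h0m htm h1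
      rwa [h0] at h2
    · have h2 : (L.c (t : ℂ)).im ≤ (L.c ((0 : ℝ) : ℂ)).im := L.mono.monotoneOn htm h0m h1
      rwa [h0] at h2
  | succ n ih =>
    intro t ht htr
    have hs : t ^ 2 ∈ Icc (-1 : ℝ) 1 := by
      constructor
      · nlinarith [sq_nonneg t]
      · rw [sq_le_one_iff_abs_le_one]
        exact abs_le.2 ht
    have hsr : |t ^ 2| ^ 2 ^ n ≤ L.r0 := by
      rw [abs_pow, ← pow_mul]
      rwa [pow_succ, mul_comm] at htr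
    obtain ⟨h1, h2, h3, -⟩ := ih (t ^ 2) hs hsr
    have h3' := h3 (sq_nonneg t)
    have hi : (c ((t ^ 2 : ℝ) : ℂ)).im ∈ Icc S.κ (2 * Real.pi) := ⟨h3', h2.2.le⟩
    have hκ := S.κ_mem
    have h2π : (2 * Real.pi) ∈ Icc S.κ (2 * Real.pi) := ⟨hκ.2.le, le_rfl⟩
    have him : ∀ y : ℝ, ((y : ℂ) * I).im = y := by
      intro y
      simp
    rcases lt_trichotomy t 0 with h0 | h0 | h0
    · rw [h.real_neg ht h0.le h1 hi]
      have hm := S.rm_mem _ hi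
      rw [← h.κω] at hm
      have hpos : 0 < S.rm (c ((t ^ 2 : ℝ) : ℂ)).im := by
        have := rm_strictAnti S hi h2π h2.2
        rwa [S.rm2] at this
      refine ⟨by simp, ?_, fun h4 => absurd h4 (not_le.2 h0), fun _ => ?_⟩
      · rw [him]
        exact ⟨hpos, lt_of_le_of_lt hm.2 hκ.2⟩
      · rw [him]
        exact hm.2
    · subst h0
      rw [Complex.ofReal_zero, h.c0]
      simp only [mul_re, ofReal_re, I_re, mul_zero, ofReal_im, I_im, mul_one, sub_self, mul_im,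
        add_zero]
      exact ⟨trivial, hκ, fun _ => le_rfl, fun _ => le_rfl⟩
    · rw [h.real_pos ht h0.le h1 hi]
      have hm := S.rp_mem _ hi
      rw [← h.κω] at hm
      have hlt : S.rp (c ((t ^ 2 : ℝ) : ℂ)).im < 2 * Real.pi := by
        have := rp_strictMono S hi h2π h2.2
        rwa [S.rp2] at this
      refine ⟨by simp, ?_, fun _ => ?_, fun h4 => absurd h4 (not_le.2 h0)⟩
      · rw [him]
        exact ⟨lt_of_lt_of_le hκ.1 hm.1, hlt⟩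
      · rw [him]
        exact hm.1

theorem G3_exists_pow {r x : ℝ} (hr : 0 < r) (h0 : 0 ≤ x) (h1 : x < 1) :
    ∃ n : ℕ, x ^ (2 ^ n) ≤ r := by
  obtain ⟨m, hm⟩ := exists_pow_lt_of_lt_one hr h1
  refine ⟨m, le_trans ?_ hm.le⟩
  exact pow_le_pow_of_le_one h0 h1.le (Nat.lt_two_pow_self).le

theorem CD.real_open (h : CD L c No) {t : ℝ} (ht : t ∈ Ioo (-1 : ℝ) 1) :
    (c (t : ℂ)).re = 0 ∧ (c (t : ℂ)).im ∈ Ioo 0 (2 * Real.pi) ∧
      (0 ≤ t → S.κ ≤ (c (t : ℂ)).im) ∧ (t ≤ 0 → (c (t : ℂ)).im ≤ S.κ) := by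
  obtain ⟨n, hn⟩ := G3_exists_pow L.pos (abs_nonneg t) (abs_lt.2 ht)
  exact h.real_aux n t (Ioo_subset_Icc_self ht) hn

theorem CD.contReal (h : CD L c No) : ContinuousOn (fun t : ℝ => c (t : ℂ)) (Icc (-1 : ℝ) 1) :=
  h.cont.comp Complex.continuous_ofReal.continuousOn (fun _ ht => G3_real_mem ht)

theorem CD.real' (h : CD L c No) {t : ℝ} (ht : t ∈ Icc (-1 : ℝ) 1) :
    (c t).re = 0 ∧ (c t).im ∈ Ioo 0 (2 * Real.pi) := by
  have hcl : closure (Ioo (-1 : ℝ) 1) = Icc (-1 : ℝ) 1 := closure_Ioo (by norm_num)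
  have h1 : MapsTo (fun t : ℝ => (c (t : ℂ)).re) (Ioo (-1 : ℝ) 1) {0} := by
    intro s hs
    exact (h.real_open hs).1
  have h2 : MapsTo (fun t : ℝ => (c (t : ℂ)).im) (Ioo (-1 : ℝ) 1) (Icc 0 (2 * Real.pi)) := by
    intro s hs
    exact Ioo_subset_Icc_self (h.real_open hs).2.1
  have h1' := h1.closure_of_continuousOn (by
    rw [hcl]
    exact Complex.continuous_re.comp_continuousOn h.contReal)
  have h2' := h2.closure_of_continuousOn (by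
    rw [hcl]
    exact Complex.continuous_im.comp_continuousOn h.contReal)
  rw [hcl, closure_singleton] at h1'
  rw [hcl, isClosed_Icc.closure_eq] at h2'
  have hre : (c t).re = 0 := h1' ht
  have him : (c t).im ∈ Icc 0 (2 * Real.pi) := h2' ht
  refine ⟨hre, ?_⟩
  have hne := h.ne_one (G3_real_mem ht)
  rw [G3_exp_re_zero hre] at hne
  refine ⟨lt_of_le_of_ne him.1 fun h3 => hne ?_, lt_of_le_of_ne him.2 fun h3 => hne ?_⟩
  · rw [← h3]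
    exact G3_ec_zero
  · rw [h3]
    exact G3_ec_two_pi

theorem CD.real (h : CD L c No) {t : ℝ} (ht : t ∈ Icc (-1 : ℝ) 1) :
    (c t).re = 0 ∧ (c t).im ∈ Ioo 0 (2 * Real.pi) := h.real' ht

theorem CD.mono_aux (h : CD L c No) (n : ℕ) : ∀ s t : ℝ, s ∈ Icc (-1 : ℝ) 1 →
    t ∈ Icc (-1 : ℝ) 1 → |s| ^ (2 ^ n) ≤ L.r0 → |t| ^ (2 ^ n) ≤ L.r0 → s < t →
    (c (s : ℂ)).im < (c (t : ℂ)).im := by
  induction n with
  | zero =>
    intro s t hs ht hsr htr hst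
    rw [pow_zero, pow_one] at hsr htr
    have hm : ∀ x : ℝ, |x| ≤ L.r0 → (x : ℂ) ∈ HB L.r0 := by
      intro x hx
      refine ⟨?_, by simp⟩
      rwa [Complex.norm_real, Real.norm_eq_abs]
    rw [h.eqL _ (hm s hsr), h.eqL _ (hm t htr)]
    exact L.mono (abs_le.1 hsr) (abs_le.1 htr) hst
  | succ n ih =>
    have hsq : ∀ x : ℝ, x ∈ Icc (-1 : ℝ) 1 → x ^ 2 ∈ Icc (-1 : ℝ) 1 := by
      intro x hx
      constructor
      · nlinarith [sq_nonneg x]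
      · rw [sq_le_one_iff_abs_le_one]
        exact abs_le.2 hx
    have hsr' : ∀ x : ℝ, |x| ^ 2 ^ (n + 1) ≤ L.r0 → |x ^ 2| ^ 2 ^ n ≤ L.r0 := by
      intro x hx
      rw [abs_pow, ← pow_mul]
      rwa [pow_succ, mul_comm] at hx
    have hval : ∀ x : ℝ, x ∈ Icc (-1 : ℝ) 1 → |x| ^ 2 ^ (n + 1) ≤ L.r0 →
        (c ((x ^ 2 : ℝ) : ℂ)).re = 0 ∧ (c ((x ^ 2 : ℝ) : ℂ)).im ∈ Icc S.κ (2 * Real.pi) := by
      intro x hx hxr
      obtain ⟨h1, h2, h3, -⟩ := h.real_aux n (x ^ 2) (hsq x hx) (hsr' x hxr)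
      exact ⟨h1, h3 (sq_nonneg x), h2.2.le⟩
    have him : ∀ y : ℝ, ((y : ℂ) * I).im = y := by
      intro y
      simp
    have hP : ∀ s t : ℝ, s ∈ Icc (-1 : ℝ) 1 → t ∈ Icc (-1 : ℝ) 1 → |s| ^ (2 ^ (n + 1)) ≤ L.r0 →
        |t| ^ (2 ^ (n + 1)) ≤ L.r0 → 0 ≤ s → s < t → (c (s : ℂ)).im < (c (t : ℂ)).im := by
      intro s t hs ht hsr htr h0 hst
      rw [h.real_pos hs h0 (hval s hs hsr).1 (hval s hs hsr).2,
        h.real_pos ht (h0.trans hst.le) (hval t ht htr).1 (hval t ht htr).2, him, him]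
      refine rp_strictMono S (hval s hs hsr).2 (hval t ht htr).2 ?_
      exact ih _ _ (hsq s hs) (hsq t ht) (hsr' s hsr) (hsr' t htr) (by nlinarith)
    have hN : ∀ s t : ℝ, s ∈ Icc (-1 : ℝ) 1 → t ∈ Icc (-1 : ℝ) 1 → |s| ^ (2 ^ (n + 1)) ≤ L.r0 →
        |t| ^ (2 ^ (n + 1)) ≤ L.r0 → t ≤ 0 → s < t → (c (s : ℂ)).im < (c (t : ℂ)).im := by
      intro s t hs ht hsr htr h0 hst
      rw [h.real_neg hs (hst.le.trans h0) (hval s hs hsr).1 (hval s hs hsr).2,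
        h.real_neg ht h0 (hval t ht htr).1 (hval t ht htr).2, him, him]
      refine rm_strictAnti S (hval t ht htr).2 (hval s hs hsr).2 ?_
      exact ih _ _ (hsq t ht) (hsq s hs) (hsr' t htr) (hsr' s hsr) (by nlinarith)
    intro s t hs ht hsr htr hst
    rcases le_or_gt 0 s with h0 | h0
    · exact hP s t hs ht hsr htr h0 hst
    · rcases le_or_gt t 0 with h1 | h1
      · exact hN s t hs ht hsr htr h1 hst
      · have h0m : (0 : ℝ) ∈ Icc (-1 : ℝ) 1 := by constructor <;> norm_num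
        have h0r : |(0 : ℝ)| ^ (2 ^ (n + 1)) ≤ L.r0 := by
          rw [abs_zero, zero_pow (by positivity)]
          exact L.pos.le
        exact (hN s 0 hs h0m hsr h0r le_rfl h0).trans (hP 0 t h0m ht h0r htr le_rfl h1)

theorem CD.mono_open (h : CD L c No) :
    StrictMonoOn (fun t : ℝ => (c t).im) (Ioo (-1) 1) := by
  intro s hs t ht hst
  obtain ⟨n, hn⟩ := G3_exists_pow L.pos (abs_nonneg s) (abs_lt.2 hs)
  obtain ⟨m, hm⟩ := G3_exists_pow L.pos (abs_nonneg t) (abs_lt.2 ht)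
  have hmax : ∀ x : ℝ, x ∈ Ioo (-1 : ℝ) 1 → ∀ k : ℕ, k ≤ max n m → |x| ^ 2 ^ k ≤ L.r0 →
      |x| ^ 2 ^ (max n m) ≤ L.r0 := by
    intro x hx k hk hxr
    refine le_trans ?_ hxr
    exact pow_le_pow_of_le_one (abs_nonneg x) (abs_lt.2 hx).le
      (Nat.pow_le_pow_right (by norm_num) hk)
  exact h.mono_aux (max n m) s t (Ioo_subset_Icc_self hs) (Ioo_subset_Icc_self ht)
    (hmax s hs n (le_max_left _ _) hn) (hmax t ht m (le_max_right _ _) hm) hst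

theorem CD.mono (h : CD L c No) : StrictMonoOn (fun t : ℝ => (c t).im) (Icc (-1) 1) := by
  have hc : ContinuousOn (fun t : ℝ => (c (t : ℂ)).im) (Icc (-1 : ℝ) 1) :=
    Complex.continuous_im.comp_continuousOn h.contReal
  have hup : ∀ v ∈ Ioo (-1 : ℝ) 1, ∀ t ∈ Icc v 1, (c (v : ℂ)).im ≤ (c (t : ℂ)).im := by
    intro v hv
    have h1 : MapsTo (fun t : ℝ => (c (t : ℂ)).im) (Ioo v 1) (Ici (c (v : ℂ)).im) := by
      intro w hw
      exact (h.mono_open hv ⟨hv.1.trans hw.1, hw.2⟩ hw.1).le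
    have hcl : closure (Ioo v 1) = Icc v 1 := closure_Ioo (ne_of_lt hv.2)
    have h2 := h1.closure_of_continuousOn (by
      rw [hcl]
      exact hc.mono (Icc_subset_Icc_left hv.1.le))
    rw [hcl, isClosed_Ici.closure_eq] at h2
    exact fun t ht => h2 ht
  have hdn : ∀ u ∈ Ioo (-1 : ℝ) 1, ∀ s ∈ Icc (-1) u, (c (s : ℂ)).im ≤ (c (u : ℂ)).im := by
    intro u hu
    have h1 : MapsTo (fun t : ℝ => (c (t : ℂ)).im) (Ioo (-1) u) (Iic (c (u : ℂ)).im) := by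
      intro w hw
      exact (h.mono_open ⟨hw.1, hw.2.trans hu.2⟩ hu hw.2).le
    have hcl : closure (Ioo (-1) u) = Icc (-1) u := closure_Ioo (ne_of_lt hu.1)
    have h2 := h1.closure_of_continuousOn (by
      rw [hcl]
      exact hc.mono (Icc_subset_Icc_right hu.2.le))
    rw [hcl, isClosed_Iic.closure_eq] at h2
    exact fun t ht => h2 ht
  intro s hs t ht hst
  obtain ⟨u, hu1, hu2⟩ := exists_between hst
  obtain ⟨v, hv1, hv2⟩ := exists_between hu2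
  have hu : u ∈ Ioo (-1 : ℝ) 1 := ⟨lt_of_le_of_lt hs.1 hu1, lt_of_lt_of_le hu2 ht.2⟩
  have hv : v ∈ Ioo (-1 : ℝ) 1 := ⟨hu.1.trans hv1, lt_of_lt_of_le hv2 ht.2⟩
  have e1 := hdn u hu s ⟨hs.1, hu1.le⟩
  have e2 : (c (u : ℂ)).im < (c (v : ℂ)).im := h.mono_open hu hv hv1
  have e3 := hup v hv t ⟨hv2.le, ht.2⟩
  exact lt_of_le_of_lt e1 (lt_of_lt_of_le e2 e3)

/-- if `|exp (c ζ)| = 1` then `exp (c (sqf ζ))` is on the right part of the circle -/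
theorem CD.step (h : CD L c No) {ζ : ℂ} (hζ : ζ ∈ HD) (hr : (c ζ).re = 0) :
    ∃ θ ∈ Icc S.κ (2 * Real.pi), exp (c (sqf ζ)) = ec θ ∧
      (0 ≤ ζ.re → exp (c (sqf ζ) / 2) = ec (θ / 2)) := by
  have hn : ‖exp (c ζ)‖ = 1 := by
    rw [Complex.norm_exp, hr, Real.exp_zero]
  have hm := (h.memO (sqf_maps hζ)).1
  rcases le_or_gt 0 ζ.re with h0 | h0
  · have hn' := hn
    rw [h.exp_pos hζ h0] at hn'
    rcases S.circΘ _ (G3_half_mem hm) hn' with h1 | ⟨θ, hθ, h1⟩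
    · exfalso
      apply h.ne_one (sqf_maps hζ)
      rw [← G3_half_sq, h1, one_pow]
    · exact ⟨θ, hθ, by rw [← G3_half_sq, h1, G3_ec_half_sq], fun _ => h1⟩
  · have hn' := hn
    rw [h.exp_neg hζ h0.le] at hn'
    obtain ⟨θ, hθ, h1⟩ := S.circ4 _ (G3_exp_mem hm) hn'
    exact ⟨θ, hθ, h1, fun h2 => absurd h2 (not_le.2 h0)⟩

/-- comparison of angles -/
theorem CD.angle (h : CD L c No) {x : ℝ} (hx : x ∈ Icc (-1 : ℝ) 1) {θ : ℝ}
    (hθ : θ ∈ Icc 0 (2 * Real.pi)) (he : exp (c (x : ℂ)) = ec θ) : (c (x : ℂ)).im = θ := by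
  obtain ⟨h1, h2⟩ := h.real hx
  have h3 := h.ne_one (G3_real_mem hx)
  rw [he] at h3
  rw [G3_exp_re_zero h1] at he
  refine ec_inj' (Ioo_subset_Ico_self h2) ⟨hθ.1, lt_of_le_of_ne hθ.2 fun h4 => h3 ?_⟩ he
  rw [h4]
  exact G3_ec_two_pi

theorem CD.sign_pos (h : CD L c No) {x : ℝ} (hx : x ∈ Icc (-1 : ℝ) 1)
    (hi : S.κ ≤ (c (x : ℂ)).im) : 0 ≤ x := by
  by_contra hcon
  push Not at hcon
  have := h.mono hx (⟨by norm_num, by norm_num⟩ : (0 : ℝ) ∈ Icc (-1 : ℝ) 1) hcon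
  simp only [Complex.ofReal_zero, h.c0] at this
  simp at this
  linarith

theorem CD.sign_neg (h : CD L c No) {x : ℝ} (hx : x ∈ Icc (-1 : ℝ) 1)
    (hi : (c (x : ℂ)).im ≤ S.κ) : x ≤ 0 := by
  by_contra hcon
  push Not at hcon
  have := h.mono (⟨by norm_num, by norm_num⟩ : (0 : ℝ) ∈ Icc (-1 : ℝ) 1) hx hcon
  simp only [Complex.ofReal_zero, h.c0] at this
  simp at this
  linarith

theorem G3_real_of_sqf {ζ : ℂ} {x : ℝ} (h : sqf ζ = (x : ℂ)) :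
    ζ.re ^ 2 - ζ.im ^ 2 = x ∧ ζ.re * ζ.im = 0 := by
  have h1 := G3_fold_real h
  have h2 := congrArg Complex.re h1
  have h3 := congrArg Complex.im h1
  rw [pow_two, Complex.mul_re, Complex.ofReal_re] at h2
  rw [pow_two, Complex.mul_im, Complex.ofReal_im] at h3
  constructor <;> nlinarith

theorem G3_real_mem' {ξ : ℂ} (hξ : ξ ∈ HD) (h0 : ξ.im = 0) :
    ξ = (ξ.re : ℂ) ∧ ξ.re ∈ Icc (-1 : ℝ) 1 := by
  refine ⟨?_, abs_le.1 ((Complex.abs_re_le_norm ξ).trans hξ.1)⟩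
  apply Complex.ext <;> simp [h0]

theorem CD.nonreal_aux (h : CD L c No) (n : ℕ) : ∀ ζ : ℂ, ζ ∈ HD → ‖ζ‖ ^ 2 ^ n ≤ L.r0 →
    (c ζ).re = 0 → ζ.im = 0 := by
  induction n with
  | zero =>
    intro ζ hζ hr h0
    rw [pow_zero, pow_one] at hr
    rw [h.eqL _ ⟨hr, hζ.2⟩] at h0
    exact (L.real _ ⟨hr, hζ.2⟩).1 h0
  | succ n ih =>
    intro ζ hζ hr h0
    obtain ⟨θ, hθ, he, -⟩ := h.step hζ h0
    have hsr : ‖sqf ζ‖ ^ 2 ^ n ≤ L.r0 := by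
      rw [G3_sqf_norm, ← pow_mul]
      rwa [pow_succ, mul_comm] at hr
    have hre : (c (sqf ζ)).re = 0 := by
      apply G3_re_of_norm
      rw [he, norm_ec]
    have him := ih _ (sqf_maps hζ) hsr hre
    obtain ⟨h1, h2⟩ := G3_real_mem' (sqf_maps hζ) him
    have hang := h.angle h2 ⟨S.κ_mem.1.le.trans hθ.1, hθ.2⟩ (by rw [← h1]; exact he)
    have hpos : 0 ≤ (sqf ζ).re := h.sign_pos h2 (by rw [hang]; exact hθ.1)
    obtain ⟨h3, h4⟩ := G3_real_of_sqf h1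
    rcases mul_eq_zero.1 h4 with h5 | h5
    · rw [h5] at h3
      nlinarith [sq_nonneg ζ.im]
    · exact h5

/-- a point of modulus `1` is real: open disc -/
theorem CD.nonreal_open (h : CD L c No) {ζ : ℂ} (hζ : ζ ∈ HD) (h1 : ‖ζ‖ < 1)
    (hr : (c ζ).re = 0) : ζ.im = 0 := by
  obtain ⟨n, hn⟩ := G3_exists_pow L.pos (norm_nonneg ζ) h1
  exact h.nonreal_aux n ζ hζ hn hr

theorem G3_exp_inj {u v : ℂ} (hu : u.im ∈ Ioo 0 (2 * Real.pi)) (hv : v.im ∈ Ioo 0 (2 * Real.pi))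
    (h : exp u = exp v) : u = v := by
  obtain ⟨k, hk⟩ := Complex.exp_eq_exp_iff_exists_int.1 h
  have h1 := congrArg Complex.im hk
  simp at h1
  have h2 : k = 0 := by
    have hpi := Real.pi_pos
    have h3 : (k : ℝ) * (2 * Real.pi) < 1 * (2 * Real.pi) := by linarith [hu.1, hu.2, hv.1, hv.2]
    have h4 : (-1 : ℝ) * (2 * Real.pi) < (k : ℝ) * (2 * Real.pi) := by
      linarith [hu.1, hu.2, hv.1, hv.2]
    have h5 := lt_of_mul_lt_mul_right h3 (by positivity)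
    have h6 := lt_of_mul_lt_mul_right h4 (by positivity)
    have h7 : k < 1 := by exact_mod_cast h5
    have h8 : -1 < k := by exact_mod_cast h6
    omega
  rw [hk, h2]
  simp

theorem G3_sqf_eq {ζ ζ' : ℂ} (hζ : ζ ∈ HD) (hζ' : ζ' ∈ HD) (h : sqf ζ = sqf ζ')
    (hne : ζ ≠ ζ') : ζ'.re = -ζ.re ∧ ζ'.im = ζ.im ∧ ζ.re ≠ 0 := by
  have hre := congrArg Complex.re h
  have hn := congrArg (fun z => ‖z‖ ^ 2) h
  simp only [G3_sqf_norm] at hn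
  unfold sqf at hre
  rw [G3_fold_re, G3_fold_re, pow_two, pow_two, Complex.mul_re, Complex.mul_re] at hre
  have hn' : ‖ζ‖ ^ 2 = ‖ζ'‖ ^ 2 := by
    have := (sq_eq_sq₀ (by positivity : 0 ≤ ‖ζ‖ ^ 2) (by positivity : 0 ≤ ‖ζ'‖ ^ 2)).1 hn
    exact this
  rw [← Complex.normSq_eq_norm_sq, ← Complex.normSq_eq_norm_sq, Complex.normSq_apply,
    Complex.normSq_apply] at hn'
  have him2 : ζ.im ^ 2 = ζ'.im ^ 2 := by nlinarith
  have hre2 : ζ.re ^ 2 = ζ'.re ^ 2 := by nlinarith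
  have him : ζ'.im = ζ.im := ((sq_eq_sq₀ hζ.2 hζ'.2).1 him2).symm
  have hne' : ζ.re ≠ ζ'.re := fun hh => hne (Complex.ext hh him.symm)
  rcases sq_eq_sq_iff_eq_or_eq_neg.1 hre2 with h1 | h1
  · exact absurd h1 hne'
  · refine ⟨by linarith, him, fun h2 => hne' ?_⟩
    linarith

/-- the contradiction from `Θ = G4` -/
theorem CD.cross (h : CD L c No) {ζ ζ' : ℂ} (hζ : ζ ∈ HD) (hζ' : ζ' ∈ HD)
    (h0 : 0 ≤ ζ.re) (h0' : ζ'.re ≤ 0) (he : exp (c ζ) = exp (c ζ')) :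
    ∃ θ ∈ Icc 0 S.κ, exp (c (sqf ζ)) = ec θ := by
  have hm := (h.memO (sqf_maps hζ)).1
  have hm' := (h.memO (sqf_maps hζ')).1
  have e2 := he
  rw [h.exp_pos hζ h0, h.exp_neg hζ' h0'] at e2
  rcases S.sep4 _ (G3_half_mem hm) _ (G3_exp_mem hm') e2 with h1 | ⟨θ, hθ, h1⟩
  · exfalso
    apply h.ne_one (sqf_maps hζ)
    rw [← G3_half_sq, h1]
    norm_num
  · exact ⟨θ, hθ, by rw [← G3_half_sq, h1, G3_ec_half_sq]⟩

theorem CD.inj_aux (h : CD L c No) (n : ℕ) : ∀ ζ ζ' : ℂ, ζ ∈ HD → ζ' ∈ HD →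
    ‖ζ‖ < 1 → ‖ζ'‖ < 1 → ‖ζ‖ ^ 2 ^ n ≤ L.r0 → ‖ζ'‖ ^ 2 ^ n ≤ L.r0 →
    exp (c ζ) = exp (c ζ') → ζ = ζ' := by
  induction n with
  | zero =>
    intro ζ ζ' hζ hζ' _ _ hr hr' he
    rw [pow_zero, pow_one] at hr hr'
    have hm : ζ ∈ HB L.r0 := ⟨hr, hζ.2⟩
    have hm' : ζ' ∈ HB L.r0 := ⟨hr', hζ'.2⟩
    rw [h.eqL _ hm, h.eqL _ hm'] at he
    exact L.inj hm hm' (G3_exp_inj (L.im_mem _ hm) (L.im_mem _ hm') he)
  | succ n ih =>
    intro ζ ζ' hζ hζ' h1 h1' hr hr' he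
    have hsr : ∀ ξ : ℂ, ‖ξ‖ ^ 2 ^ (n + 1) ≤ L.r0 → ‖sqf ξ‖ ^ 2 ^ n ≤ L.r0 := by
      intro ξ hξ
      rw [G3_sqf_norm, ← pow_mul]
      rwa [pow_succ, mul_comm] at hξ
    have hs1 : ∀ ξ : ℂ, ‖ξ‖ < 1 → ‖sqf ξ‖ < 1 := by
      intro ξ hξ
      rw [G3_sqf_norm]
      exact pow_lt_one₀ (norm_nonneg _) hξ (by norm_num)
    have heF : exp (c (sqf ζ)) = exp (c (sqf ζ')) := by
      rw [← h.F_eq hζ, ← h.F_eq hζ', he]
    have hs := ih _ _ (sqf_maps hζ) (sqf_maps hζ') (hs1 _ h1) (hs1 _ h1') (hsr _ hr)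
      (hsr _ hr') heF
    -- key claim
    have key : ∀ ζ ζ' : ℂ, ζ ∈ HD → ζ' ∈ HD → ‖ζ‖ < 1 → exp (c ζ) = exp (c ζ') →
        0 < ζ.re → ζ'.re ≤ 0 → False := by
      intro ζ ζ' hζ hζ' h1 he h0 h0'
      obtain ⟨θ, hθ, h2⟩ := h.cross hζ hζ' h0.le h0' he
      have hre : (c (sqf ζ)).re = 0 := by
        apply G3_re_of_norm
        rw [h2, norm_ec]
      have him := h.nonreal_open (sqf_maps hζ) (hs1 _ h1) hre
      obtain ⟨h3, h4⟩ := G3_real_mem' (sqf_maps hζ) him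
      have hang := h.angle h4 ⟨hθ.1, hθ.2.trans S.κ_mem.2.le⟩ (by rw [← h3]; exact h2)
      have hneg : (sqf ζ).re ≤ 0 := h.sign_neg h4 (by rw [hang]; exact hθ.2)
      obtain ⟨h5, h6⟩ := G3_real_of_sqf h3
      rcases mul_eq_zero.1 h6 with h7 | h7
      · linarith
      · rw [h7] at h5
        nlinarith
    by_contra hne
    obtain ⟨e1, e2, e3⟩ := G3_sqf_eq hζ hζ' hs hne
    rcases lt_or_gt_of_ne e3 with h4 | h4
    · exact key ζ' ζ hζ' hζ h1' he.symm (by linarith) h4.le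
    · exact key ζ ζ' hζ hζ' h1 he h4 (by linarith)

theorem CD.inj_open (h : CD L c No) {ζ ζ' : ℂ} (hζ : ζ ∈ HD) (h1 : ‖ζ‖ < 1) (hζ' : ζ' ∈ HD)
    (h1' : ‖ζ'‖ < 1) (he : exp (c ζ) = exp (c ζ')) : ζ = ζ' := by
  obtain ⟨n, hn⟩ := G3_exists_pow L.pos (norm_nonneg ζ) h1
  obtain ⟨m, hm⟩ := G3_exists_pow L.pos (norm_nonneg ζ') h1'
  have hmax : ∀ x : ℂ, ‖x‖ < 1 → ∀ k : ℕ, k ≤ max n m → ‖x‖ ^ 2 ^ k ≤ L.r0 →
      ‖x‖ ^ 2 ^ (max n m) ≤ L.r0 := by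
    intro x hx k hk hxr
    refine le_trans ?_ hxr
    exact pow_le_pow_of_le_one (norm_nonneg x) hx.le (Nat.pow_le_pow_right (by norm_num) hk)
  exact h.inj_aux (max n m) ζ ζ' hζ hζ' h1 h1' (hmax _ h1 n (le_max_left _ _) hn)
    (hmax _ h1' m (le_max_right _ _) hm) he

end

end Pool.TU
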