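import Pool.Agent.Helper71.TU.G3

/-! # TU G4: injectivity on the closed half disc -/

open Complex Set Filter Topology Metric Polynomial ComplexConjugate Pool.Tuning

namespace Pool.TU

noncomputable section

variable {S : TS} {A : XS S} {B : Br S A} {L : LB B} {c : ℂ → ℂ} {No : Set ℂ}

theorem G4_iter_mem {ζ : ℂ} (hζ : ζ ∈ HD) (n : ℕ) : sqf^[n] ζ ∈ HD := by
  induction n with
  | zero => exact hζ
  | succ n ih =>
    rw [Function.iterate_succ_apply']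
    exact sqf_maps ih

theorem G4_iter_norm (ζ : ℂ) (n : ℕ) : ‖sqf^[n] ζ‖ = ‖ζ‖ ^ 2 ^ n := by
  induction n with
  | zero => simp
  | succ n ih =>
    rw [Function.iterate_succ_apply', G3_sqf_norm, ih, ← pow_mul, pow_succ]

theorem G4_iter_unit {ζ : ℂ} (h1 : ‖ζ‖ = 1) (n : ℕ) : ‖sqf^[n] ζ‖ = 1 := by
  rw [G4_iter_norm, h1, one_pow]

theorem CD.iter_eq (h : CD L c No) {ζ t : ℂ} (hζ : ζ ∈ HD) (ht : t ∈ HD)
    (he : exp (c ζ) = exp (c t)) (n : ℕ) : exp (c (sqf^[n] ζ)) = exp (c (sqf^[n] t)) := by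
  induction n with
  | zero => exact he
  | succ n ih =>
    rw [Function.iterate_succ_apply', Function.iterate_succ_apply',
      ← h.F_eq (G4_iter_mem hζ n), ← h.F_eq (G4_iter_mem ht n), ih]

theorem CD.sep (h : CD L c No) {ζ t : ℂ} (hζ : ζ ∈ HD) (h1 : ‖ζ‖ = 1) (ht : t ∈ HD)
    (h1' : ‖t‖ < 1) : exp (c ζ) ≠ exp (c t) := by
  intro he
  have hr0 := L.pos
  have hr1 := L.lt
  obtain ⟨O, hO, hOe⟩ := L.openo (L.r0 / 2) (by positivity) (by linarith)
  obtain ⟨n, hn⟩ := G3_exists_pow (r := L.r0 / 4) (by positivity) (norm_nonneg t) h1'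
  set z := sqf^[n] ζ with hz
  set w := sqf^[n] t with hw
  have hzm : z ∈ HD := G4_iter_mem hζ n
  have hwm : w ∈ HD := G4_iter_mem ht n
  have hzn : ‖z‖ = 1 := G4_iter_unit h1 n
  have hwn : ‖w‖ < L.r0 / 2 := by
    rw [hw, G4_iter_norm]
    linarith
  have hzw : exp (c z) = exp (c w) := h.iter_eq hζ ht he n
  have hwB : w ∈ HB L.r0 := ⟨by linarith, hwm.2⟩
  have hzO : exp (c z) ∈ O := by
    have : exp (c w) ∈ O ∩ DD := by
      rw [← hOe, h.eqL w hwB]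
      exact ⟨w, ⟨hwn, hwm.2⟩, rfl⟩
    rw [hzw]
    exact this.1
  have hmem : ∀ ρ ∈ Icc (0 : ℝ) 1, (ρ : ℂ) * z ∈ HD := by
    intro ρ hρ
    refine ⟨?_, ?_⟩
    · rw [norm_mul, hzn, mul_one, Complex.norm_real, Real.norm_of_nonneg hρ.1]
      exact hρ.2
    · rw [Complex.im_ofReal_mul]
      exact mul_nonneg hρ.1 hzm.2
  have hcont : ContinuousOn (fun ρ : ℝ => exp (c ((ρ : ℂ) * z))) (Icc (0 : ℝ) 1) := by
    refine Complex.continuous_exp.comp_continuousOn (h.cont.comp ?_ hmem)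
    exact (Complex.continuous_ofReal.mul continuous_const).continuousOn
  have hat : Tendsto (fun ρ : ℝ => exp (c ((ρ : ℂ) * z))) (𝓝[Icc (0 : ℝ) 1] 1)
      (𝓝 (exp (c z))) := by
    have := hcont 1 ⟨zero_le_one, le_rfl⟩
    unfold ContinuousWithinAt at this
    simpa using this
  have hev : ∀ᶠ ρ : ℝ in 𝓝[Icc (0 : ℝ) 1] 1, exp (c ((ρ : ℂ) * z)) ∈ O :=
    hat.eventually (hO.mem_nhds hzO)
  have hsub : Ioo (L.r0 / 2) (1 : ℝ) ⊆ Icc (0 : ℝ) 1 := by
    intro x hx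
    exact ⟨by linarith [hx.1], hx.2.le⟩
  have hev' : ∀ᶠ ρ : ℝ in 𝓝[Ioo (L.r0 / 2) (1 : ℝ)] 1, exp (c ((ρ : ℂ) * z)) ∈ O :=
    hev.filter_mono (nhdsWithin_mono _ hsub)
  have hne : (𝓝[Ioo (L.r0 / 2) (1 : ℝ)] (1 : ℝ)).NeBot := by
    rw [← mem_closure_iff_nhdsWithin_neBot, closure_Ioo (by linarith)]
    exact ⟨by linarith, le_rfl⟩
  obtain ⟨ρ, hρO, hρ⟩ := (hev'.and self_mem_nhdsWithin).exists
  have hm := hmem ρ (hsub hρ)
  have hin : exp (c ((ρ : ℂ) * z)) ∈ O ∩ DD := ⟨hρO, G3_exp_mem (h.memO hm).1⟩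
  rw [← hOe] at hin
  obtain ⟨t', ⟨ht1, ht2⟩, ht3⟩ := hin
  have ht3' : exp (L.c t') = exp (c ((ρ : ℂ) * z)) := ht3
  have htB : t' ∈ HB L.r0 := ⟨by linarith, ht2⟩
  rw [← h.eqL t' htB] at ht3'
  have hρn : ‖(ρ : ℂ) * z‖ = ρ := by
    rw [norm_mul, hzn, mul_one, Complex.norm_real, Real.norm_of_nonneg (by linarith [hρ.1])]
  have := h.inj_open (ζ := t') (ζ' := (ρ : ℂ) * z) ⟨by linarith, ht2⟩ (by linarith) hm
    (by rw [hρn]; exact hρ.2) ht3'
  rw [this, hρn] at ht1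
  linarith [hρ.1]

theorem G4_fold_im (w : ℂ) : (fold w).im = |w.im| := by
  unfold fold
  split_ifs with h
  · exact (abs_of_nonneg h).symm
  · push Not at h
    rw [Complex.conj_im, abs_of_neg h]

theorem G4_sqf_re (z : ℂ) : (sqf z).re = z.re ^ 2 - z.im ^ 2 := by
  unfold sqf
  rw [G3_fold_re, pow_two, Complex.mul_re]
  ring

theorem G4_sqf_im (z : ℂ) : (sqf z).im = 2 * |z.re * z.im| := by
  unfold sqf
  rw [G4_fold_im, pow_two, Complex.mul_im]
  have : z.re * z.im + z.im * z.re = 2 * (z.re * z.im) := by ring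
  rw [this, abs_mul, abs_two]

theorem G4_unit {z : ℂ} (h : ‖z‖ = 1) : z.re ^ 2 + z.im ^ 2 = 1 := by
  have := Complex.normSq_eq_norm_sq z
  rw [h, Complex.normSq_apply] at this
  nlinarith

/-- a point of the unit circle whose orbit stays in the right half plane -/
theorem G4_right {z : ℂ} (hz : z ∈ HD) (h1 : ‖z‖ = 1) (hpos : ∀ n, 0 < (sqf^[n] z).re) :
    z.im = 0 := by
  have hgrow : ∀ n : ℕ, (7 / 5 : ℝ) ^ n * z.im ≤ (sqf^[n] z).im := by
    intro n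
    induction n with
    | zero => simp
    | succ n ih =>
      have hx := hpos n
      have hx' := hpos (n + 1)
      have hy : 0 ≤ (sqf^[n] z).im := (G4_iter_mem hz n).2
      have hu := G4_unit (G4_iter_unit h1 n)
      rw [Function.iterate_succ_apply'] at hx' ⊢
      rw [G4_sqf_re] at hx'
      rw [G4_sqf_im, abs_of_nonneg (mul_nonneg hx.le hy)]
      have hx7 : 7 / 10 ≤ (sqf^[n] z).re := by nlinarith
      calc (7 / 5 : ℝ) ^ (n + 1) * z.im = 7 / 5 * ((7 / 5 : ℝ) ^ n * z.im) := by ring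
        _ ≤ 7 / 5 * (sqf^[n] z).im := by linarith
        _ ≤ 2 * ((sqf^[n] z).re * (sqf^[n] z).im) := by nlinarith
  by_contra hne
  have hy : 0 < z.im := lt_of_le_of_ne hz.2 (Ne.symm hne)
  have hlim : Tendsto (fun n : ℕ => (7 / 5 : ℝ) ^ n * z.im) atTop atTop :=
    Tendsto.atTop_mul_const hy (tendsto_pow_atTop_atTop_of_one_lt (by norm_num))
  obtain ⟨n, hn⟩ := (hlim.eventually_gt_atTop 1).exists
  have h2 := hgrow n
  have h3 : (sqf^[n] z).im ≤ 1 := (Complex.im_le_norm _).trans (G4_iter_mem hz n).1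
  linarith

theorem CD.re_iter (h : CD L c No) {ζ : ℂ} (hζ : ζ ∈ HD) (hr : (c ζ).re = 0) (n : ℕ) :
    (c (sqf^[n] ζ)).re = 0 := by
  induction n with
  | zero => exact hr
  | succ n ih =>
    obtain ⟨θ, -, h1, -⟩ := h.step (G4_iter_mem hζ n) ih
    rw [Function.iterate_succ_apply']
    apply G3_re_of_norm
    rw [h1, norm_ec]

theorem CD.nonreal (h : CD L c No) {ζ : ℂ} (hζ : ζ ∈ HD) (hr : (c ζ).re = 0) : ζ.im = 0 := by
  rcases lt_or_eq_of_le hζ.1 with h1 | h1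
  · exact h.nonreal_open hζ h1 hr
  have hzero : (0 : ℂ) ∈ HD := ⟨by simp, by simp⟩
  have hpos : ∀ n, 0 < (sqf^[n] (sqf ζ)).re := by
    intro n
    by_contra hcon
    push Not at hcon
    set z := sqf^[n] (sqf ζ) with hz
    have hzz : z = sqf^[n + 1] ζ := by rw [hz, Function.iterate_succ_apply]
    have hzm : z ∈ HD := G4_iter_mem (sqf_maps hζ) n
    have hzn : ‖z‖ = 1 := by rw [hzz]; exact G4_iter_unit h1 (n + 1)
    -- angle of `z`
    obtain ⟨θ, hθ, he, -⟩ := h.step (G4_iter_mem hζ n) (h.re_iter hζ hr n)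
    rw [← Function.iterate_succ_apply' sqf, ← hzz] at he
    have hzr : (c z).re = 0 := by rw [hzz]; exact h.re_iter hζ hr (n + 1)
    obtain ⟨θ', hθ', he', -⟩ := h.step hzm hzr
    have e1 := h.exp_neg hzm hcon
    rw [he', S.rmG _ hθ'] at e1
    have hrm := S.rm_mem _ hθ'
    rw [← h.κω] at hrm
    have hne := h.ne_one hzm
    have hκ := S.κ_mem
    have a1 : S.rm θ' ∈ Ico 0 (2 * Real.pi) := ⟨hrm.1, lt_of_le_of_lt hrm.2 hκ.2⟩
    have a2 : θ ∈ Ico 0 (2 * Real.pi) := by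
      refine ⟨hκ.1.le.trans hθ.1, lt_of_le_of_ne hθ.2 fun h4 => hne ?_⟩
      rw [he, h4]
      exact G3_ec_two_pi
    have a3 : S.rm θ' = θ := ec_inj' a1 a2 (by rw [← e1, he])
    have a4 : θ = S.κ := le_antisymm (by rw [← a3]; exact hrm.2) hθ.1
    refine h.sep hzm hzn hzero (by simp) ?_
    rw [he, a4, h.c0]
    rfl
  have hu : ‖sqf ζ‖ = 1 := by rw [G3_sqf_norm, h1, one_pow]
  have him := G4_right (sqf_maps hζ) hu hpos
  obtain ⟨h2, -⟩ := G3_real_mem' (sqf_maps hζ) him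
  obtain ⟨h3, h4⟩ := G3_real_of_sqf h2
  have h5 := hpos 0
  rw [Function.iterate_zero_apply] at h5
  rcases mul_eq_zero.1 h4 with h6 | h6
  · rw [h6] at h3
    nlinarith [sq_nonneg ζ.im]
  · exact h6

theorem CD.minus_one (h : CD L c No) {z : ℂ} (hz : z ∈ HD) (h1 : ‖z‖ = 1) {θ : ℝ}
    (hθ : θ ∈ Icc 0 S.κ) (he : exp (c (sqf z)) = ec θ) : z.re = 0 := by
  have hre : (c (sqf z)).re = 0 := by
    apply G3_re_of_norm
    rw [he, norm_ec]
  have him := h.nonreal (sqf_maps hz) hre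
  obtain ⟨h3, h4⟩ := G3_real_mem' (sqf_maps hz) him
  have hang := h.angle h4 ⟨hθ.1, hθ.2.trans S.κ_mem.2.le⟩ (by rw [← h3]; exact he)
  have hneg : (sqf z).re ≤ 0 := h.sign_neg h4 (by rw [hang]; exact hθ.2)
  obtain ⟨h5, h6⟩ := G3_real_of_sqf h3
  have hu := G4_unit h1
  rcases mul_eq_zero.1 h6 with h7 | h7
  · exact h7
  · rw [h7] at h5 hu
    nlinarith

theorem CD.quad (h : CD L c No) {z z' : ℂ} (hz : z ∈ HD) (hz' : z' ∈ HD) (h1 : ‖z‖ = 1)
    (h1' : ‖z'‖ = 1) (he : exp (c z) = exp (c z')) (h0 : 0 ≤ z.re) (h0' : z'.re ≤ 0) :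
    z.re = 0 ∧ z'.re = 0 := by
  obtain ⟨θ, hθ, h2⟩ := h.cross hz hz' h0 h0' he
  refine ⟨h.minus_one hz h1 hθ h2, h.minus_one hz' h1' hθ ?_⟩
  rw [← h.F_eq hz', ← he, h.F_eq hz, h2]

theorem CD.sameSign (h : CD L c No) {z z' : ℂ} (hz : z ∈ HD) (hz' : z' ∈ HD) (h1 : ‖z‖ = 1)
    (h1' : ‖z'‖ = 1) (he : exp (c z) = exp (c z')) : 0 ≤ z.re * z'.re := by
  rcases le_total 0 z.re with h0 | h0 <;> rcases le_total 0 z'.re with h0' | h0'
  · exact mul_nonneg h0 h0'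
  · rw [(h.quad hz hz' h1 h1' he h0 h0').1]
    simp
  · rw [(h.quad hz' hz h1' h1 he.symm h0' h0).1]
    simp
  · exact mul_nonneg_of_nonpos_of_nonpos h0 h0'

theorem CD.inj (h : CD L c No) : InjOn (fun ζ => exp (c ζ)) HD := by
  intro ζ hζ ζ' hζ' he
  have he' : exp (c ζ) = exp (c ζ') := he
  rcases lt_or_eq_of_le hζ.1 with h1 | h1 <;> rcases lt_or_eq_of_le hζ'.1 with h1' | h1'
  · exact h.inj_open hζ h1 hζ' h1' he'
  · exact absurd he'.symm (h.sep hζ' h1' hζ h1)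
  · exact absurd he' (h.sep hζ h1 hζ' h1')
  -- both on the unit circle
  have hq : ∀ n : ℕ, 2 ^ n * (1 - (ζ.re * ζ'.re + ζ.im * ζ'.im)) ≤
      1 - ((sqf^[n] ζ).re * (sqf^[n] ζ').re + (sqf^[n] ζ).im * (sqf^[n] ζ').im) := by
    intro n
    induction n with
    | zero => simp
    | succ n ih =>
      set z := sqf^[n] ζ with hz
      set z' := sqf^[n] ζ' with hz'
      have hzm : z ∈ HD := G4_iter_mem hζ n
      have hzm' : z' ∈ HD := G4_iter_mem hζ' n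
      have hzn : ‖z‖ = 1 := G4_iter_unit h1 n
      have hzn' : ‖z'‖ = 1 := G4_iter_unit h1' n
      have hee : exp (c z) = exp (c z') := h.iter_eq hζ hζ' he' n
      have hs := h.sameSign hzm hzm' hzn hzn' hee
      have hu := G4_unit hzn
      have hu' := G4_unit hzn'
      rw [Function.iterate_succ_apply', Function.iterate_succ_apply', ← hz, ← hz',
        G4_sqf_re, G4_sqf_re, G4_sqf_im, G4_sqf_im]
      have hprod : |z.re * z.im| * |z'.re * z'.im| = (z.re * z'.re) * (z.im * z'.im) := by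
        rw [← abs_mul]
        have : z.re * z.im * (z'.re * z'.im) = (z.re * z'.re) * (z.im * z'.im) := by ring
        rw [this, abs_of_nonneg (mul_nonneg hs (mul_nonneg hzm.2 hzm'.2))]
      set q := z.re * z'.re + z.im * z'.im with hqdef
      have hq0 : 0 ≤ q := add_nonneg hs (mul_nonneg hzm.2 hzm'.2)
      have hid : (z.re ^ 2 - z.im ^ 2) * (z'.re ^ 2 - z'.im ^ 2) +
          2 * |z.re * z.im| * (2 * |z'.re * z'.im|) = 2 * q ^ 2 - 1 := by
        have e1 : 2 * |z.re * z.im| * (2 * |z'.re * z'.im|) =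
            4 * (|z.re * z.im| * |z'.re * z'.im|) := by ring
        rw [e1, hprod]
        have e2 : (z.re ^ 2 + z.im ^ 2) * (z'.re ^ 2 + z'.im ^ 2) = 1 := by rw [hu, hu']; ring
        rw [hqdef]
        nlinarith
      rw [hid]
      have hq1 : q ≤ 1 := by
        nlinarith [sq_nonneg (z.re - z'.re), sq_nonneg (z.im - z'.im)]
      have : 2 * (1 - q) ≤ 1 - (2 * q ^ 2 - 1) := by nlinarith
      calc (2 : ℝ) ^ (n + 1) * (1 - (ζ.re * ζ'.re + ζ.im * ζ'.im)) =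
          2 * (2 ^ n * (1 - (ζ.re * ζ'.re + ζ.im * ζ'.im))) := by ring
        _ ≤ 2 * (1 - q) := by linarith
        _ ≤ _ := this
  have hbd : ∀ n : ℕ, 2 ^ n * (1 - (ζ.re * ζ'.re + ζ.im * ζ'.im)) ≤ (1 : ℝ) := by
    intro n
    refine (hq n).trans ?_
    have hs := h.sameSign (G4_iter_mem hζ n) (G4_iter_mem hζ' n) (G4_iter_unit h1 n)
      (G4_iter_unit h1' n) (h.iter_eq hζ hζ' he' n)
    have := mul_nonneg (G4_iter_mem hζ n).2 (G4_iter_mem hζ' n).2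
    linarith
  have hu := G4_unit h1
  have hu' := G4_unit h1'
  have hle : 1 - (ζ.re * ζ'.re + ζ.im * ζ'.im) ≤ 0 := by
    by_contra hcon
    push Not at hcon
    have hlim : Tendsto (fun n : ℕ => (2 : ℝ) ^ n * (1 - (ζ.re * ζ'.re + ζ.im * ζ'.im)))
        atTop atTop :=
      Tendsto.atTop_mul_const hcon (tendsto_pow_atTop_atTop_of_one_lt (by norm_num))
    obtain ⟨n, hn⟩ := (hlim.eventually_gt_atTop 1).exists
    linarith [hbd n]
  have hsum : (ζ.re - ζ'.re) ^ 2 + (ζ.im - ζ'.im) ^ 2 ≤ 0 := by nlinarith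
  have r1 : (ζ.re - ζ'.re) ^ 2 = 0 := by nlinarith [sq_nonneg (ζ.re - ζ'.re), sq_nonneg (ζ.im - ζ'.im)]
  have r2 : (ζ.im - ζ'.im) ^ 2 = 0 := by nlinarith [sq_nonneg (ζ.re - ζ'.re), sq_nonneg (ζ.im - ζ'.im)]
  apply Complex.ext
  · have := pow_eq_zero_iff (two_ne_zero) |>.1 r1
    linarith
  · have := pow_eq_zero_iff (two_ne_zero) |>.1 r2
    linarith

end

end Pool.TU
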