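import Pool.Agent.Helper71.TU.G4

/-! # TU G5: openness, assembly -/

open Complex Set Filter Topology Metric Polynomial ComplexConjugate Pool.Tuning

namespace Pool.TU

noncomputable section

variable {S : TS} {A : XS S} {B : Br S A} {L : LB B} {c : ℂ → ℂ} {No : Set ℂ}

/-- continuity of the inverse of a continuous map on a compact set at a point with one
preimage -/
private lemma g5_inv {f : ℂ → ℂ} {K : Set ℂ} (hK : IsCompact K) (hf : ContinuousOn f K)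
    {x0 : ℂ} (hinj : ∀ s ∈ K, f s = f x0 → s = x0) {U : Set ℂ} (hU : U ∈ 𝓝 x0) :
    ∃ V ∈ 𝓝 (f x0), ∀ s ∈ K, f s ∈ V → s ∈ U := by
  have hKc : IsCompact (K \ interior U) := hK.diff isOpen_interior
  have him : IsCompact (f '' (K \ interior U)) :=
    hKc.image_of_continuousOn (hf.mono sdiff_subset)
  refine ⟨(f '' (K \ interior U))ᶜ, ?_, ?_⟩
  · refine him.isClosed.isOpen_compl.mem_nhds ?_
    rintro ⟨s, ⟨hsK, hsU⟩, hs⟩
    have := hinj s hsK hs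
    rw [this] at hsU
    exact hsU (mem_interior_iff_mem_nhds.2 hU)
  · intro s hs hsV
    by_contra hsU
    exact hsV ⟨s, ⟨hs, fun h => hsU (interior_subset h)⟩, rfl⟩

private lemma g5_root {ξ : ℂ} (h : 0 ≤ ξ.im) : ∃ w : ℂ, w ^ 2 = ξ ∧ 0 ≤ w.re ∧ 0 ≤ w.im := by
  obtain ⟨w, hw⟩ := IsAlgClosed.exists_pow_nat_eq ξ (n := 2) (by norm_num)
  have him : 0 ≤ w.re * w.im := by
    have : (w ^ 2).im = 2 * (w.re * w.im) := by rw [pow_two, Complex.mul_im]; ring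
    rw [hw] at this
    linarith
  rcases lt_trichotomy w.im 0 with h0 | h0 | h0
  · have h1 : w.re ≤ 0 := by
      by_contra hc
      push Not at hc
      nlinarith [mul_pos hc (neg_pos.2 h0)]
    exact ⟨-w, by rw [neg_sq, hw], by simp only [Complex.neg_re]; linarith,
      by simp only [Complex.neg_im]; linarith⟩
  · rcases le_total 0 w.re with h1 | h1
    · exact ⟨w, hw, h1, h0.ge⟩
    · exact ⟨-w, by rw [neg_sq, hw], by simp only [Complex.neg_re]; linarith,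
        by simp only [Complex.neg_im]; linarith⟩
  · have h1 : 0 ≤ w.re := by
      by_contra hc
      push Not at hc
      nlinarith [mul_pos h0 (neg_pos.2 hc)]
    exact ⟨w, hw, h1, h0.le⟩

private lemma g5_norm_fold (w : ℂ) : ‖fold w‖ = ‖w‖ := by
  unfold fold
  split_ifs
  · rfl
  · exact Complex.norm_conj w

private lemma g5_norm_sqf (ζ : ℂ) : ‖sqf ζ‖ = ‖ζ‖ ^ 2 := by
  unfold sqf
  rw [g5_norm_fold, norm_pow]

private lemma g5_fold_conj {w : ℂ} (h : 0 ≤ w.im) : fold (conj w) = w := by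
  unfold fold
  split_ifs with h1
  · rw [Complex.conj_im] at h1
    have h0 : w.im = 0 := by linarith
    exact Complex.conj_eq_iff_im.2 h0
  · exact Complex.conj_conj w

private lemma g5_right {ξ : ℂ} (h : ‖ξ‖ < 1) (h0 : 0 ≤ ξ.im) :
    ∃ ζ : ℂ, ‖ζ‖ < 1 ∧ 0 ≤ ζ.im ∧ 0 ≤ ζ.re ∧ sqf ζ = ξ := by
  obtain ⟨w, hw, hr, hi⟩ := g5_root h0
  refine ⟨w, ?_, hi, hr, ?_⟩
  · have : ‖w‖ ^ 2 < 1 := by rw [← norm_pow, hw]; exact h
    nlinarith [norm_nonneg w]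
  · unfold sqf fold
    rw [hw, if_pos h0]

private lemma g5_left {ξ : ℂ} (h : ‖ξ‖ < 1) (h0 : 0 ≤ ξ.im) :
    ∃ ζ : ℂ, ‖ζ‖ < 1 ∧ 0 ≤ ζ.im ∧ ζ.re ≤ 0 ∧ sqf ζ = ξ := by
  obtain ⟨w, hw, hr, hi⟩ := g5_root h0
  refine ⟨-conj w, ?_, ?_, ?_, ?_⟩
  · have : ‖w‖ ^ 2 < 1 := by rw [← norm_pow, hw]; exact h
    rw [norm_neg, Complex.norm_conj]
    nlinarith [norm_nonneg w]
  · simpa using hi
  · simpa using hr
  · unfold sqf
    rw [neg_sq, ← map_pow, hw]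
    exact g5_fold_conj h0

private lemma g5_HD {ζ : ℂ} (h1 : ‖ζ‖ < 1) (h2 : 0 ≤ ζ.im) : ζ ∈ HD := ⟨h1.le, h2⟩

private lemma g5_compact : IsCompact HD := by
  have : HD = closedBall (0 : ℂ) 1 ∩ {ζ | 0 ≤ ζ.im} := by
    ext ζ
    simp [HD]
  rw [this]
  exact (isCompact_closedBall _ _).inter_right (isClosed_le continuous_const Complex.continuous_im)

private lemma g5_exp_DD {u : ℂ} (hu : u ∈ UU) : exp u ∈ DD := by
  have : u.re ≤ 0 := hu
  simp only [DD, mem_closedBall, dist_zero_right, Complex.norm_exp]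
  exact Real.exp_le_one_iff.2 this

private lemma g5_sub (h : CD L c No) : MapsTo c HD (OO A.Xo) := by
  intro ζ hζ
  have := h.maps hζ
  exact ⟨this.1, fun hx => this.2 (Or.inl hx)⟩

private lemma g5_ne_one (h : CD L c No) {ζ : ℂ} (hζ : ζ ∈ HD) : exp (c ζ) ≠ 1 := by
  intro hx
  have := h.maps hζ
  exact this.2 (Or.inr (hx ▸ h.one))

private lemma g5_norm_sq_exp (u : ℂ) : exp (u / 2) ^ 2 = exp u := by
  rw [← Complex.exp_nat_mul]
  congr 1
  push_cast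
  ring

private lemma g5_half_DD {u : ℂ} (hu : u ∈ UU) : exp (u / 2) ∈ DD := by
  refine g5_exp_DD ?_
  have : u.re ≤ 0 := hu
  show (u / 2).re ≤ 0
  have h2 : (u / 2).re = u.re / 2 := by
    have : u / 2 = ((1 / 2 : ℝ) : ℂ) * u := by push_cast; ring
    rw [this, Complex.re_ofReal_mul]
    ring
  rw [h2]
  linarith

private lemma g5_right_eq (h : CD L c No) {ζ : ℂ} (hζ : ζ ∈ HD) (hr : 0 ≤ ζ.re) :
    exp (c ζ) = S.Θ (exp (c (sqf ζ) / 2)) := by
  rw [h.feP ζ hζ hr]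
  exact B.expΦ _ (g5_sub h (sqf_maps hζ))

private lemma g5_left_eq (h : CD L c No) {ζ : ℂ} (hζ : ζ ∈ HD) (hr : ζ.re ≤ 0) :
    exp (c ζ) = S.G4 (exp (c (sqf ζ))) := by
  rw [h.feM ζ hζ hr]
  exact B.exp4 _ (g5_exp_DD (g5_sub h (sqf_maps hζ)).1)

/-- when `‖exp (c ξ)‖ = 1` the parameter is real and `c ξ = a I` with `a ∈ (0, 2π)` -/
private lemma g5_circ (h : CD L c No) {ξ : ℂ} (hξ : ξ ∈ HD) (h1 : ‖ξ‖ < 1)
    (hn : ‖exp (c ξ)‖ = 1) : ∃ a ∈ Ioo 0 (2 * Real.pi), c ξ = a * I := by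
  have hre : (c ξ).re = 0 := by
    rw [Complex.norm_exp] at hn
    exact (Real.exp_eq_one_iff _).1 hn
  have him := h.nonreal_open hξ h1 hre
  have hξ' : ξ = (ξ.re : ℂ) := by
    apply Complex.ext <;> simp [him]
  have hmem : ξ.re ∈ Icc (-1 : ℝ) 1 := by
    have := Complex.abs_re_le_norm ξ
    have := abs_le.1 this
    constructor <;> linarith [this.1, this.2]
  have hr := h.real hmem
  rw [← hξ'] at hr
  refine ⟨(c ξ).im, hr.2, ?_⟩
  apply Complex.ext <;> simp [hr.1]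

private lemma g5_norm_ec (θ : ℝ) : ‖ec θ‖ = 1 := by
  unfold ec
  exact Complex.norm_exp_ofReal_mul_I θ

private lemma g5_ec_sq (θ : ℝ) : ec (θ / 2) ^ 2 = ec θ := by
  unfold ec
  rw [← Complex.exp_nat_mul]
  congr 1
  push_cast
  ring

private lemma g5_ec_im (θ : ℝ) : (ec θ).im = Real.sin θ := by
  unfold ec
  exact Complex.exp_ofReal_mul_I_im θ

/-- the point `x = exp (c ζ)` is not in the tile `G2` -/
private lemma g5_not2 (h : CD L c No) {ζ : ℂ} (hζ : ζ ∈ HD) (h1 : ‖ζ‖ < 1) :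
    exp (c ζ) ∉ S.G2 '' DD := by
  rintro ⟨w, hw, hx⟩
  have hξ := sqf_maps hζ
  have hξ1 : ‖sqf ζ‖ < 1 := by rw [g5_norm_sqf]; nlinarith [norm_nonneg ζ]
  rcases le_total 0 ζ.re with hr | hr
  · have he := g5_right_eq h hζ hr
    rw [he] at hx
    have hmem : exp (c (sqf ζ) / 2) ∈ DD := g5_half_DD (g5_sub h hξ).1
    obtain ⟨θ, hθ, hs⟩ := S.sep2 _ hmem w hw hx.symm
    have hn : ‖exp (c (sqf ζ))‖ = 1 := by
      rw [← g5_norm_sq_exp, hs, norm_pow, norm_neg, g5_norm_ec, one_pow]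
    obtain ⟨a, ha, hca⟩ := g5_circ h hξ hξ1 hn
    have h2 : exp (c (sqf ζ) / 2) = ec (a / 2) := by
      unfold ec
      rw [hca]
      congr 1
      push_cast
      ring
    rw [h2] at hs
    have h3 := congrArg Complex.im hs
    rw [Complex.neg_im, g5_ec_im, g5_ec_im] at h3
    have h4 : 0 < Real.sin (a / 2) :=
      Real.sin_pos_of_pos_of_lt_pi (by linarith [ha.1]) (by linarith [ha.2])
    have h5 : 0 ≤ Real.sin (θ / 2) :=
      Real.sin_nonneg_of_nonneg_of_le_pi (by linarith [hθ.1]) (by linarith [hθ.2])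
    linarith
  · have he := g5_left_eq h hζ hr
    rw [he] at hx
    have hmem : exp (c (sqf ζ)) ∈ DD := g5_exp_DD (g5_sub h hξ).1
    have h2 := S.sep24 w hw _ hmem hx
    rw [h2.2, S.G4one] at he
    exact g5_ne_one h hζ he

/-- if `exp (c ζ) = Θ s` then `s = exp (c (sqf ζ) / 2)` -/
private lemma g5_s0 (h : CD L c No) {ζ : ℂ} (hζ : ζ ∈ HD) (h1 : ‖ζ‖ < 1) {s : ℂ}
    (hs : s ∈ DD) (hx : S.Θ s = exp (c ζ)) : s = exp (c (sqf ζ) / 2) := by
  have hξ := sqf_maps hζ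
  have hξ1 : ‖sqf ζ‖ < 1 := by rw [g5_norm_sqf]; nlinarith [norm_nonneg ζ]
  have hne := g5_ne_one h hζ
  have hs1 : s ≠ 1 := by
    rintro rfl
    rw [S.Θone] at hx
    exact hne hx.symm
  have hs2 : s ≠ -1 := by
    rintro rfl
    rw [S.Θneg] at hx
    exact hne hx.symm
  rcases le_total 0 ζ.re with hr | hr
  · have he := g5_right_eq h hζ hr
    rw [he] at hx
    rcases S.injΘ s hs _ (g5_half_DD (g5_sub h hξ).1) hx with h2 | h2 | h2
    · exact h2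
    · exact absurd h2.1 hs1
    · exact absurd h2.1 hs2
  · have he := g5_left_eq h hζ hr
    have hmem : exp (c (sqf ζ)) ∈ DD := g5_exp_DD (g5_sub h hξ).1
    have hF : exp (c (sqf ζ)) = s ^ 2 := by
      rw [← h.F_eq hζ, ← hx, S.FΘ s hs]
    rw [he] at hx
    rcases S.sep4 s hs _ hmem hx with h2 | ⟨θ, hθ, h2⟩
    · exact absurd h2 hs2
    · have hn : ‖exp (c (sqf ζ))‖ = 1 := by
        rw [hF, h2, norm_pow, g5_norm_ec, one_pow]
      obtain ⟨a, ha, hca⟩ := g5_circ h hξ hξ1 hn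
      have h3 : exp (c (sqf ζ) / 2) = ec (a / 2) := by
        unfold ec
        rw [hca]
        congr 1
        push_cast
        ring
      rw [h3, h2]
      -- both signs
      have h4 : ec (θ / 2) ^ 2 = ec (a / 2) ^ 2 := by
        rw [← h2, ← hF, ← h3, g5_norm_sq_exp]
      rcases sq_eq_sq_iff_eq_or_eq_neg.1 h4 with h5 | h5
      · exact h5
      · exfalso
        have h6 := congrArg Complex.im h5
        rw [Complex.neg_im, g5_ec_im, g5_ec_im] at h6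
        have h7 : 0 < Real.sin (a / 2) :=
          Real.sin_pos_of_pos_of_lt_pi (by linarith [ha.1]) (by linarith [ha.2])
        have h8 : 0 ≤ Real.sin (θ / 2) :=
          Real.sin_nonneg_of_nonneg_of_le_pi (by linarith [hθ.1])
            (by linarith [hθ.2, S.κ_mem.2])
        linarith

private lemma g5_step (h : CD L c No) {ζ : ℂ} (hζ : ζ ∈ HD) (h1 : ‖ζ‖ < 1)
    (hB : (fun t => exp (c t)) '' {t | ‖t‖ < 1 ∧ 0 ≤ t.im} ∈ 𝓝[DD] (exp (c (sqf ζ)))) :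
    (fun t => exp (c t)) '' {t | ‖t‖ < 1 ∧ 0 ≤ t.im} ∈ 𝓝[DD] (exp (c ζ)) := by
  set Bo : Set ℂ := (fun t => exp (c t)) '' {t | ‖t‖ < 1 ∧ 0 ≤ t.im} with hBo
  have hξ := sqf_maps hζ
  have hξ1 : ‖sqf ζ‖ < 1 := by rw [g5_norm_sqf]; nlinarith [norm_nonneg ζ]
  have hxD : exp (c ζ) ∈ DD := g5_exp_DD (g5_sub h hζ).1
  have hne := g5_ne_one h hζ
  have hDc : IsCompact DD := isCompact_closedBall _ _
  -- `F` within `DD`
  have hFt : Tendsto S.F (𝓝[DD] (exp (c ζ))) (𝓝[DD] (exp (c (sqf ζ)))) := by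
    have h2 := (S.contF _ hxD)
    have h3 : Tendsto S.F (𝓝[DD] (exp (c ζ))) (𝓝[DD] (S.F (exp (c ζ)))) :=
      tendsto_nhdsWithin_iff.2 ⟨h2, eventually_nhdsWithin_of_forall fun y hy => S.mapsF hy⟩
    rwa [h.F_eq hζ] at h3
  have hcov : DD ⊆ S.Θ '' DD ∪ (S.G2 '' DD ∪ S.G4 '' DD) := by
    intro z hz
    rcases S.cover z hz with h2 | h2 | h2
    · exact Or.inl h2
    · exact Or.inr (Or.inl h2)
    · exact Or.inr (Or.inr h2)
  have hΘD : S.Θ '' DD ⊆ DD := by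
    rintro _ ⟨s, hs, rfl⟩
    exact S.mapsΘ hs
  have h4D : S.G4 '' DD ⊆ DD := by
    rintro _ ⟨s, hs, rfl⟩
    exact S.maps4 hs
  refine nhdsWithin_mono _ hcov ?_
  rw [nhdsWithin_union, nhdsWithin_union]
  refine mem_sup.2 ⟨?_, mem_sup.2 ⟨?_, ?_⟩⟩
  · -- the tile of `Θ`
    by_cases hx : exp (c ζ) ∈ S.Θ '' DD
    swap
    · have hcl : IsClosed (S.Θ '' DD) := (hDc.image_of_continuousOn S.contΘ).isClosed
      have : 𝓝[S.Θ '' DD] (exp (c ζ)) = ⊥ := by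
        rw [← notMem_closure_iff_nhdsWithin_eq_bot, hcl.closure_eq]
        exact hx
      rw [this]
      exact mem_bot
    obtain ⟨s0, hs0, hx0⟩ := hx
    have hs0e := g5_s0 h hζ h1 hs0 hx0
    have hs00 : s0 ≠ 0 := by rw [hs0e]; exact Complex.exp_ne_zero _
    have hs0n : 0 < ‖s0‖ := norm_pos_iff.2 hs00
    have hs1 : s0 ≠ 1 := by
      rintro rfl
      rw [S.Θone] at hx0
      exact hne hx0.symm
    have hs2 : s0 ≠ -1 := by
      rintro rfl
      rw [S.Θneg] at hx0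
      exact hne hx0.symm
    -- neighbourhood for `Θ`
    obtain ⟨V2, hV2, hV2'⟩ := g5_inv (f := S.Θ) (K := DD) (x0 := s0) hDc S.contΘ
      (by
        intro s hs he
        rcases S.injΘ s hs s0 hs0 he with h2 | h2 | h2
        · exact h2
        · exact absurd h2.2 hs2
        · exact absurd h2.2 hs1) (ball_mem_nhds s0 hs0n)
    -- neighbourhood for `exp ∘ c`
    have hhalf : ContinuousWithinAt (fun t => exp (c t / 2)) HD (sqf ζ) := by
      have := h.cont (sqf ζ) hξ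
      exact (this.div_const 2).cexp
    have hU := hhalf.preimage_mem_nhdsWithin (t := ball s0 ‖s0‖)
      (by rw [← hs0e]; exact ball_mem_nhds s0 hs0n)
    obtain ⟨U, hU1, hU2⟩ := mem_nhdsWithin_iff_exists_mem_nhds_inter.1 hU
    obtain ⟨V1, hV1, hV1'⟩ := g5_inv (f := fun t => exp (c t)) (K := HD) (x0 := sqf ζ)
      g5_compact (h.cont.cexp) (fun s hs he => h.inj hs hξ he) hU1
    have hV1n : V1 ∈ 𝓝[DD] (exp (c (sqf ζ))) := mem_nhdsWithin_of_mem_nhds hV1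
    have hF1 := hFt (inter_mem hV1n hB)
    have hF2 := nhdsWithin_mono _ hΘD hF1
    rw [hx0] at hV2
    have hF3 : V2 ∈ 𝓝[S.Θ '' DD] (exp (c ζ)) := mem_nhdsWithin_of_mem_nhds hV2
    filter_upwards [hF2, hF3, self_mem_nhdsWithin] with y hy1 hy2 hy3
    obtain ⟨s, hs, rfl⟩ := hy3
    obtain ⟨hy4, ξ', hξ', hy5⟩ := hy1
    have hξ'D : ξ' ∈ HD := g5_HD hξ'.1 hξ'.2
    have hs' : s ∈ ball s0 ‖s0‖ := hV2' s hs hy2
    simp only at hy5
    rw [← hy5] at hy4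
    have hξU : ξ' ∈ U := hV1' ξ' hξ'D hy4
    have hhb : exp (c ξ' / 2) ∈ ball s0 ‖s0‖ := hU2 ⟨hξU, hξ'D⟩
    rw [S.FΘ s hs, ← g5_norm_sq_exp] at hy5
    have hse : s = exp (c ξ' / 2) := by
      rcases sq_eq_sq_iff_eq_or_eq_neg.1 hy5 with h5 | h5
      · exact h5.symm
      · exfalso
        rw [mem_ball, dist_eq_norm] at hs' hhb
        have h6 : (s - s0) + (exp (c ξ' / 2) - s0) = -(2 * s0) := by rw [h5]; ring
        have h7 : ‖(s - s0) + (exp (c ξ' / 2) - s0)‖ = 2 * ‖s0‖ := by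
          rw [h6, norm_neg, norm_mul]
          norm_num
        have h8 := norm_add_le (s - s0) (exp (c ξ' / 2) - s0)
        linarith
    obtain ⟨ζ', hz1, hz2, hz3, hz4⟩ := g5_right hξ'.1 hξ'.2
    refine ⟨ζ', ⟨hz1, hz2⟩, ?_⟩
    show exp (c ζ') = S.Θ s
    rw [g5_right_eq h (g5_HD hz1 hz2) hz3, hz4, hse]
  · -- the tile of `G2`
    have hcl : IsClosed (S.G2 '' DD) := (hDc.image_of_continuousOn S.cont2).isClosed
    have : 𝓝[S.G2 '' DD] (exp (c ζ)) = ⊥ := by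
      rw [← notMem_closure_iff_nhdsWithin_eq_bot, hcl.closure_eq]
      exact g5_not2 h hζ h1
    rw [this]
    exact mem_bot
  · -- the tile of `G4`
    have hF1 := hFt hB
    have hF2 := nhdsWithin_mono _ h4D hF1
    filter_upwards [hF2, self_mem_nhdsWithin] with y hy1 hy3
    obtain ⟨w, hw, rfl⟩ := hy3
    obtain ⟨ξ', hξ', hy5⟩ := hy1
    simp only at hy5
    rw [S.F4 w hw] at hy5
    obtain ⟨ζ', hz1, hz2, hz3, hz4⟩ := g5_left hξ'.1 hξ'.2
    refine ⟨ζ', ⟨hz1, hz2⟩, ?_⟩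
    show exp (c ζ') = S.G4 w
    rw [g5_left_eq h (g5_HD hz1 hz2) hz3, hz4, hy5]

private lemma g5_main (h : CD L c No) (n : ℕ) : ∀ ζ : ℂ, ζ ∈ HD → ‖ζ‖ < 1 →
    ‖ζ‖ ^ (2 ^ n) < L.r0 →
    (fun t => exp (c t)) '' {t | ‖t‖ < 1 ∧ 0 ≤ t.im} ∈ 𝓝[DD] (exp (c ζ)) := by
  induction n with
  | zero =>
    intro ζ hζ h1 h2
    rw [pow_zero, pow_one] at h2
    obtain ⟨δ, hδ1, hδ2⟩ := exists_between h2
    have hδ0 : 0 < δ := lt_of_le_of_lt (norm_nonneg _) hδ1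
    obtain ⟨O, hO, hOe⟩ := L.openo δ hδ0 hδ2
    have hmem : exp (c ζ) ∈ O ∩ DD := by
      rw [← hOe]
      refine ⟨ζ, ⟨hδ1, hζ.2⟩, ?_⟩
      show exp (L.c ζ) = exp (c ζ)
      rw [h.eqL ζ ⟨h2.le, hζ.2⟩]
    have h3 : O ∩ DD ∈ 𝓝[DD] (exp (c ζ)) :=
      inter_mem (mem_nhdsWithin_of_mem_nhds (hO.mem_nhds hmem.1)) self_mem_nhdsWithin
    refine mem_of_superset h3 ?_
    rw [← hOe]
    rintro _ ⟨t, ⟨ht1, ht2⟩, rfl⟩
    refine ⟨t, ⟨lt_trans ht1 (lt_trans hδ2 L.lt), ht2⟩, ?_⟩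
    show exp (c t) = exp (L.c t)
    rw [h.eqL t ⟨(lt_trans ht1 hδ2).le, ht2⟩]
  | succ n ih =>
    intro ζ hζ h1 h2
    have hξ1 : ‖sqf ζ‖ < 1 := by rw [g5_norm_sqf]; nlinarith [norm_nonneg ζ]
    refine g5_step h hζ h1 (ih (sqf ζ) (sqf_maps hζ) hξ1 ?_)
    rw [g5_norm_sqf, ← pow_mul, ← pow_succ']
    exact h2

theorem CD.openo (h : CD L c No) :
    ∃ O, IsOpen O ∧ (fun t => exp (c t)) '' {t | ‖t‖ < 1 ∧ 0 ≤ t.im} = O ∩ DD := by
  have hloc : ∀ ζ : ℂ, ‖ζ‖ < 1 → 0 ≤ ζ.im →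
      (fun t => exp (c t)) '' {t | ‖t‖ < 1 ∧ 0 ≤ t.im} ∈ 𝓝[DD] (exp (c ζ)) := by
    intro ζ h1 h2
    have ht : Tendsto (fun n : ℕ => ‖ζ‖ ^ (2 ^ n)) atTop (𝓝 0) :=
      (tendsto_pow_atTop_nhds_zero_of_lt_one (norm_nonneg ζ) h1).comp
        (tendsto_pow_atTop_atTop_of_one_lt (by norm_num))
    obtain ⟨n, hn⟩ := (ht.eventually_lt_const L.pos).exists
    exact g5_main h n ζ (g5_HD h1 h2) h1 hn
  set Bo : Set ℂ := (fun t => exp (c t)) '' {t | ‖t‖ < 1 ∧ 0 ≤ t.im} with hBo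
  refine ⟨interior (Bo ∪ DDᶜ), isOpen_interior, ?_⟩
  ext x
  constructor
  · rintro ⟨ζ, ⟨h1, h2⟩, rfl⟩
    have hxD : exp (c ζ) ∈ DD := g5_exp_DD (g5_sub h (g5_HD h1 h2)).1
    refine ⟨?_, hxD⟩
    rw [mem_interior_iff_mem_nhds]
    have h3 := hloc ζ h1 h2
    obtain ⟨U, hU, hU2⟩ := mem_nhdsWithin_iff_exists_mem_nhds_inter.1 h3
    refine mem_of_superset hU ?_
    intro y hy
    by_cases hyD : y ∈ DD
    · exact Or.inl (hU2 ⟨hy, hyD⟩)
    · exact Or.inr hyD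
  · rintro ⟨h1, h2⟩
    rcases interior_subset h1 with h3 | h3
    · exact h3
    · exact absurd h2 h3

/-- all properties of the parametrisation -/
theorem exists_bdata {S : TS} {A : XS S} {B : Br S A} {L : LB B} {c : ℂ → ℂ} {No : Set ℂ}
    (h : CD L c No) : ∃ D : BD B, D.c = c := by
  refine ⟨{
    c := c
    a := fun t => (c t).im
    cont := h.cont
    maps := g5_sub h
    inj := h.inj
    real := ?_
    mono := h.mono
    conta := ?_
    nonreal := fun ζ hζ hr => h.nonreal hζ hr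
    a0 := ?_
    feP := h.feP
    feM := h.feM
    openo := h.openo }, rfl⟩
  · intro t ht
    have hr := h.real ht
    refine ⟨?_, hr.2⟩
    apply Complex.ext <;> simp [hr.1]
  · refine Complex.continuous_im.comp_continuousOn (h.cont.comp
      Complex.continuous_ofReal.continuousOn ?_)
    intro t ht
    refine ⟨?_, ?_⟩
    · rw [Complex.norm_real, Real.norm_eq_abs]
      exact abs_le.2 ht
    · simp
  · have h0 : (0 : ℂ) ∈ HB L.r0 := ⟨by simpa using L.pos.le, by simp⟩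
    show (c ((0 : ℝ) : ℂ)).im = S.κ
    rw [Complex.ofReal_zero, h.eqL 0 h0, L.zero]
    simp

end

end Pool.TU
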