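import Pool.Agent.Helper71.TU.G5
import Pool.Agent.Helper71.TU.B15

/-! # TU G6: the marking in the plane -/

open Complex Set Filter Topology Metric Polynomial ComplexConjugate Pool.Tuning

namespace Pool.TU

noncomputable section

private theorem exp_mem_DD {u : ℂ} (hu : u ∈ UU) : exp u ∈ DD := by
  rw [DD, mem_closedBall_zero_iff, Complex.norm_exp]
  exact Real.exp_le_one_iff.mpr hu

private theorem half_mem_UU {u : ℂ} (hu : u ∈ UU) : u / 2 ∈ UU := by
  show (u / 2).re ≤ 0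
  have h : u.re ≤ 0 := hu
  have : (u / 2).re = u.re / 2 := by simp
  rw [this]; linarith

private theorem fold_of_nonneg {w : ℂ} (h : 0 ≤ w.im) : fold w = w := if_pos h

private theorem fold_of_nonpos {w : ℂ} (h : w.im ≤ 0) : fold w = conj w := by
  by_cases h0 : 0 ≤ w.im
  · have : w.im = 0 := le_antisymm h h0
    rw [fold_of_nonneg h0]
    apply Complex.ext
    · simp
    · simp [this]
  · exact if_neg h0

theorem exists_mb (q : RQ) {S : TS} (hS : IsTS q S) {A : XS S} {B : Br S A} (D : BD B)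
    {No : Set ℂ} (h1 : (1 : ℂ) ∈ No) (hfix : q.p.eval q.r = q.r)
    (hm : MapsTo D.c HD (OO (A.Xo ∪ No))) : ∃ χ, MB q D χ := by
  have hv : 0 < q.v.im := q.vpos
  set e : ℂ → ℂ := fun ζ => exp (D.c ζ) with he
  have heDD : ∀ ζ ∈ HD, e ζ ∈ DD := fun ζ hζ => exp_mem_DD (hm hζ).1
  have he1 : ∀ ζ ∈ HD, e ζ ≠ 1 := by
    intro ζ hζ h
    apply (hm hζ).2
    right
    have : exp (D.c ζ) = 1 := h
    rw [this]; exact h1
  set χp : ℂ → ℂ := fun ζ => mi q.v (e ζ) with hχp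
  have hHH : ∀ ζ ∈ HD, χp ζ ∈ HH := fun ζ hζ => mi_mem hv (heDD ζ hζ) (he1 ζ hζ)
  have hmm : ∀ ζ ∈ HD, mm q.v (χp ζ) = e ζ := fun ζ hζ => mm_mi hv (heDD ζ hζ) (he1 ζ hζ)
  have hreal : ∀ ζ ∈ HD, ((χp ζ).im = 0 ↔ ζ.im = 0) := by
    intro ζ hζ
    rw [← norm_mm_eq_one hv (hHH ζ hζ), hmm ζ hζ]
    constructor
    · intro h
      apply D.nonreal ζ hζ
      have h2 : ‖exp (D.c ζ)‖ = 1 := h
      rw [Complex.norm_exp, Real.exp_eq_one_iff] at h2
      exact h2
    · intro h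
      have hζr : ζ = ((ζ.re : ℝ) : ℂ) := by
        apply Complex.ext
        · simp
        · simp [h]
      have hmem : ζ.re ∈ Icc (-1 : ℝ) 1 := by
        have h3 : |ζ.re| ≤ ‖ζ‖ := Complex.abs_re_le_norm ζ
        have h4 : ‖ζ‖ ≤ 1 := hζ.1
        exact abs_le.mp (h3.trans h4)
      show ‖exp (D.c ζ)‖ = 1
      rw [hζr, (D.real ζ.re hmem).1, Complex.norm_exp]
      simp
  have hcontp : ContinuousOn χp HD := by
    have h2 : ContinuousOn e HD := D.cont.cexp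
    exact (mi_cont hv).comp h2 (fun ζ hζ => ⟨heDD ζ hζ, he1 ζ hζ⟩)
  have hconjHD : ∀ ζ : ℂ, ‖ζ‖ ≤ 1 → ζ.im ≤ 0 → conj ζ ∈ HD := by
    intro ζ h2 h3
    refine ⟨?_, ?_⟩
    · rw [Complex.norm_conj]; exact h2
    · simpa using h3
  -- the marking
  set χ : ℂ → ℂ := fun ζ => if 0 ≤ ζ.im then χp ζ else conj (χp (conj ζ)) with hχ
  have hup : ∀ ζ : ℂ, 0 ≤ ζ.im → χ ζ = χp ζ := fun ζ h => if_pos h
  have hconj_real : ∀ ζ : ℂ, ‖ζ‖ ≤ 1 → ζ.im = 0 → conj (χp (conj ζ)) = χp ζ := by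
    intro ζ h2 h3
    have e1 : conj ζ = ζ := by
      apply Complex.ext
      · simp
      · simp [h3]
    rw [e1]
    have hz : ζ ∈ HD := ⟨h2, h3.ge⟩
    have := (hreal ζ hz).mpr h3
    apply Complex.ext
    · simp
    · simp [this]
  have hlow : ∀ ζ : ℂ, ‖ζ‖ ≤ 1 → ζ.im ≤ 0 → χ ζ = conj (χp (conj ζ)) := by
    intro ζ h2 h3
    by_cases h4 : 0 ≤ ζ.im
    · rw [hup ζ h4, hconj_real ζ h2 (le_antisymm h3 h4)]
    · exact if_neg h4
  have hsym : ∀ ζ ∈ closedBall (0 : ℂ) 1, χ (conj ζ) = conj (χ ζ) := by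
    intro ζ hζ
    have hn : ‖ζ‖ ≤ 1 := mem_closedBall_zero_iff.mp hζ
    rcases le_total 0 ζ.im with h2 | h2
    · rw [hlow (conj ζ) (by rw [Complex.norm_conj]; exact hn) (by simpa using h2), hup ζ h2,
        Complex.conj_conj]
    · rw [hup (conj ζ) (by simpa using h2), hlow ζ hn h2, Complex.conj_conj]
  have hmem : ∀ ζ ∈ HD, χ ζ ∈ HH := by
    intro ζ hζ
    rw [hup ζ hζ.2]; exact hHH ζ hζ
  have hdisc : ∀ ζ ∈ HD, mm q.v (χ ζ) = exp (D.c ζ) := by
    intro ζ hζ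
    rw [hup ζ hζ.2]; exact hmm ζ hζ
  have hcont : ContinuousOn χ (closedBall 0 1) := by
    have hcov : closedBall (0 : ℂ) 1 = HD ∪ {ζ : ℂ | ‖ζ‖ ≤ 1 ∧ ζ.im ≤ 0} := by
      ext ζ
      simp only [mem_closedBall_zero_iff, mem_union, mem_ofPred_eq, HD]
      constructor
      · intro h
        rcases le_total 0 ζ.im with h2 | h2
        · exact Or.inl ⟨h, h2⟩
        · exact Or.inr ⟨h, h2⟩
      · rintro (h | h)
        · exact h.1
        · exact h.1
    have hc1 : IsClosed HD := by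
      have : HD = closedBall (0 : ℂ) 1 ∩ {ζ : ℂ | 0 ≤ ζ.im} := by
        ext ζ
        simp [HD]
      rw [this]
      exact isClosed_closedBall.inter (isClosed_le continuous_const Complex.continuous_im)
    have hc2 : IsClosed {ζ : ℂ | ‖ζ‖ ≤ 1 ∧ ζ.im ≤ 0} := by
      have : {ζ : ℂ | ‖ζ‖ ≤ 1 ∧ ζ.im ≤ 0} = closedBall (0 : ℂ) 1 ∩ {ζ : ℂ | ζ.im ≤ 0} := by
        ext ζ
        simp
      rw [this]
      exact isClosed_closedBall.inter (isClosed_le Complex.continuous_im continuous_const)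
    rw [hcov]
    apply ContinuousOn.union_of_isClosed _ _ hc1 hc2
    · exact hcontp.congr (fun ζ hζ => hup ζ hζ.2)
    · have h5 : ContinuousOn (fun ζ : ℂ => conj (χp (conj ζ))) {ζ : ℂ | ‖ζ‖ ≤ 1 ∧ ζ.im ≤ 0} := by
        apply Complex.continuous_conj.comp_continuousOn
        exact hcontp.comp Complex.continuous_conj.continuousOn
          (fun ζ hζ => hconjHD ζ hζ.1 hζ.2)
      exact h5.congr (fun ζ hζ => hlow ζ hζ.1 hζ.2)
  have hinjp : ∀ ζ ∈ HD, ∀ ζ' ∈ HD, χp ζ = χp ζ' → ζ = ζ' := by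
    intro ζ hζ ζ' hζ' h
    apply D.inj hζ hζ'
    show e ζ = e ζ'
    rw [← hmm ζ hζ, ← hmm ζ' hζ', h]
  have hmix : ∀ ζ ζ' : ℂ, ‖ζ‖ ≤ 1 → ‖ζ'‖ ≤ 1 → 0 ≤ ζ.im → ζ'.im < 0 → χ ζ ≠ χ ζ' := by
    intro ζ ζ' h2 h3 h4 h5 h6
    have h7 : 0 ≤ (χ ζ).im := hmem ζ ⟨h2, h4⟩
    have hz := hconjHD ζ' h3 h5.le
    rw [h6, hlow ζ' h3 h5.le] at h7
    have h8 : 0 ≤ (χp (conj ζ')).im := hHH _ hz
    have h9 : (χp (conj ζ')).im = 0 := by
      have : (conj (χp (conj ζ'))).im = -(χp (conj ζ')).im := Complex.conj_im _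
      rw [this] at h7
      linarith
    have h10 := (hreal _ hz).mp h9
    rw [Complex.conj_im] at h10
    linarith
  have hinj : InjOn χ (closedBall 0 1) := by
    intro ζ hζ ζ' hζ' h
    have hn : ‖ζ‖ ≤ 1 := mem_closedBall_zero_iff.mp hζ
    have hn' : ‖ζ'‖ ≤ 1 := mem_closedBall_zero_iff.mp hζ'
    rcases le_or_gt 0 ζ.im with h2 | h2
    · rcases le_or_gt 0 ζ'.im with h3 | h3
      · rw [hup ζ h2, hup ζ' h3] at h
        exact hinjp ζ ⟨hn, h2⟩ ζ' ⟨hn', h3⟩ h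
      · exact absurd h (hmix ζ ζ' hn hn' h2 h3)
    · rcases le_or_gt 0 ζ'.im with h3 | h3
      · exact absurd h.symm (hmix ζ' ζ hn' hn h3 h2)
      · rw [hlow ζ hn h2.le, hlow ζ' hn' h3.le] at h
        have h4 := congrArg conj h
        rw [Complex.conj_conj, Complex.conj_conj] at h4
        have h5 := hinjp _ (hconjHD ζ hn h2.le) _ (hconjHD ζ' hn' h3.le) h4
        have h6 := congrArg conj h5
        rw [Complex.conj_conj, Complex.conj_conj] at h6
        exact h6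
  have hsqHD : ∀ ζ ∈ HD, sqf ζ ∈ HD := by
    intro ζ hζ
    have hn : ‖ζ‖ ≤ 1 := hζ.1
    have hn2 : ‖ζ ^ 2‖ ≤ 1 := by
      rw [norm_pow]; exact pow_le_one₀ (norm_nonneg _) hn
    rcases le_total 0 (ζ ^ 2).im with h2 | h2
    · rw [sqf, fold_of_nonneg h2]; exact ⟨hn2, h2⟩
    · rw [sqf, fold_of_nonpos h2]; exact hconjHD _ hn2 h2
  have hconjup : ∀ ζ ∈ HD, q.h.eval (χ ζ) = χ (ζ ^ 2) := by
    intro ζ hζ
    have hn : ‖ζ‖ ≤ 1 := hζ.1
    have hn2 : ‖ζ ^ 2‖ ≤ 1 := by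
      rw [norm_pow]; exact pow_le_one₀ (norm_nonneg _) hn
    have him : (ζ ^ 2).im = 2 * ζ.re * ζ.im := by
      rw [pow_two, Complex.mul_im]; ring
    have hzim : 0 ≤ ζ.im := hζ.2
    have hsq := hsqHD ζ hζ
    have hu : D.c (sqf ζ) ∈ OO A.Xo := by
      refine ⟨(hm hsq).1, fun h => (hm hsq).2 (Or.inl h)⟩
    have hχHH := hmem ζ hζ
    have hFeq := hS.F_eq (χ ζ) hχHH
    rcases le_total 0 ζ.re with hre | hre
    · have h2 : 0 ≤ (ζ ^ 2).im := by rw [him]; positivity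
      have hsqf : sqf ζ = ζ ^ 2 := fold_of_nonneg h2
      have hd : mm q.v (χ ζ) = S.Θ (exp (D.c (sqf ζ) / 2)) := by
        rw [hdisc ζ hζ, D.feP ζ hζ hre, B.expΦ _ hu]
      have hin : mm q.v (χ ζ) ∈ S.Θ '' DD := ⟨_, exp_mem_DD (half_mem_UU hu.1), hd.symm⟩
      have h3 := hS.imΘ (χ ζ) hχHH hin
      rw [fold_of_nonneg h3, hd, S.FΘ _ (exp_mem_DD (half_mem_UU hu.1))] at hFeq
      have h4 : exp (D.c (sqf ζ) / 2) ^ 2 = exp (D.c (sqf ζ)) := by
        rw [← Complex.exp_nat_mul]; congr 1; push_cast; ring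
      rw [h4, ← hdisc _ hsq] at hFeq
      have h5 := mm_inj hv (hmem _ hsq) h3 hFeq
      rw [← h5, hsqf]
    · have h2 : (ζ ^ 2).im ≤ 0 := by
        rw [him]; nlinarith
      have hsqf : sqf ζ = conj (ζ ^ 2) := fold_of_nonpos h2
      have huDD : exp (D.c (sqf ζ)) ∈ DD := exp_mem_DD hu.1
      have hd : mm q.v (χ ζ) = S.G4 (exp (D.c (sqf ζ))) := by
        rw [hdisc ζ hζ, D.feM ζ hζ hre, B.exp4 _ huDD]
      have h3 := hS.im4 (χ ζ) hχHH ⟨_, huDD, hd.symm⟩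
      rw [fold_of_nonpos h3, hd, S.F4 _ huDD, ← hdisc _ hsq] at hFeq
      have h3' : conj (q.h.eval (χ ζ)) ∈ HH := by
        show 0 ≤ (conj (q.h.eval (χ ζ))).im
        rw [Complex.conj_im]; linarith
      have h5 := mm_inj hv (hmem _ hsq) h3' hFeq
      have h6 := congrArg conj h5
      rw [Complex.conj_conj, hsqf] at h6
      rw [← h6, hsym _ (mem_closedBall_zero_iff.mpr hn2), Complex.conj_conj]
  refine ⟨χ, ⟨hcont, hsym, hmem, hdisc, hinj, ?_, ?_, ?_⟩⟩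
  · intro ζ hζ
    have hn : ‖ζ‖ ≤ 1 := mem_closedBall_zero_iff.mp hζ
    rcases le_total 0 ζ.im with h2 | h2
    · exact hconjup ζ ⟨hn, h2⟩
    · have hz := hconjHD ζ hn h2
      have h3 := hconjup (conj ζ) hz
      rw [hsym ζ hζ, q.h_conj, ← map_pow] at h3
      have hn2 : ‖ζ ^ 2‖ ≤ 1 := by
        rw [norm_pow]; exact pow_le_one₀ (norm_nonneg _) hn
      rw [hsym _ (mem_closedBall_zero_iff.mpr hn2)] at h3
      have h4 := congrArg conj h3
      rw [Complex.conj_conj, Complex.conj_conj] at h4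
      exact h4
  · have h0 : (0 : ℂ) ∈ HD := ⟨by simp, by simp⟩
    have hd := hdisc 0 h0
    have hr0 := (D.real 0 (by constructor <;> norm_num)).1
    have h2 : mm q.v (χ 0) = mm q.v (q.r : ℂ) := by
      rw [hd, mm_real hv]
      have : D.c 0 = (S.κ : ℂ) * I := by
        have h3 : D.c ((0 : ℝ) : ℂ) = D.a 0 * I := hr0
        rw [D.a0] at h3
        simpa using h3
      rw [this, hS.κ_eq]
      have h4 : q.vr = q.r := hfix
      rw [h4, ec]
    exact mm_inj hv (hmem 0 h0) (by show 0 ≤ ((q.r : ℂ)).im; simp) h2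
  · obtain ⟨O, hO, hOeq⟩ := D.openo
    have hset : χ '' ball 0 1 = {z : ℂ | mm q.v (fold z) ∈ O} := by
      ext z
      constructor
      · rintro ⟨ζ, hζ, rfl⟩
        have hn : ‖ζ‖ < 1 := mem_ball_zero_iff.mp hζ
        rcases le_total 0 ζ.im with h2 | h2
        · have hz : ζ ∈ HD := ⟨hn.le, h2⟩
          show mm q.v (fold (χ ζ)) ∈ O
          rw [fold_of_nonneg (hmem ζ hz), hdisc ζ hz]
          have : exp (D.c ζ) ∈ O ∩ DD := by
            rw [← hOeq]; exact ⟨ζ, ⟨hn, h2⟩, rfl⟩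
          exact this.1
        · have hz := hconjHD ζ hn.le h2
          have h3 : χ ζ = conj (χ (conj ζ)) := by
            rw [hsym ζ (ball_subset_closedBall hζ), Complex.conj_conj]
          have h4 : (χ ζ).im ≤ 0 := by
            rw [h3, Complex.conj_im]
            have : 0 ≤ (χ (conj ζ)).im := hmem _ hz
            linarith
          show mm q.v (fold (χ ζ)) ∈ O
          rw [fold_of_nonpos h4, h3, Complex.conj_conj, hdisc _ hz]
          have : exp (D.c (conj ζ)) ∈ O ∩ DD := by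
            rw [← hOeq]
            refine ⟨conj ζ, ⟨?_, ?_⟩, rfl⟩
            · rw [Complex.norm_conj]; exact hn
            · simpa using h2
          exact this.1
      · intro hz
        have hz' : mm q.v (fold z) ∈ O ∩ DD := ⟨hz, mm_mem hv (fold_mem z)⟩
        rw [← hOeq] at hz'
        obtain ⟨t, ⟨ht1, ht2⟩, ht⟩ := hz'
        have htHD : t ∈ HD := ⟨ht1.le, ht2⟩
        have h3 : χ t = fold z := by
          apply mm_inj hv (hmem t htHD) (fold_mem z)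
          rw [hdisc t htHD]; exact ht
        rcases le_total 0 z.im with h2 | h2
        · refine ⟨t, mem_ball_zero_iff.mpr ht1, ?_⟩
          rw [h3, fold_of_nonneg h2]
        · refine ⟨conj t, ?_, ?_⟩
          · rw [mem_ball_zero_iff, Complex.norm_conj]; exact ht1
          · rw [hsym t (mem_closedBall_zero_iff.mpr ht1.le), h3, fold_of_nonpos h2,
              Complex.conj_conj]
    rw [hset]
    have hc : Continuous (fun z : ℂ => mm q.v (fold z)) := by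
      rw [← continuousOn_univ]
      exact (mm_cont hv).comp fold_cont.continuousOn (fun z _ => fold_mem z)
    exact hO.preimage hc

end

end Pool.TU
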