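import Pool.Agent.Helper71.TU.A6
import Pool.Agent.Helper71.TU.B15

/-! # TU G8: connectedness of the Julia set -/

open Complex Set Filter Topology Metric Polynomial ComplexConjugate Pool.Tuning

namespace Pool.TU

noncomputable section

namespace G8aux

/-! ### nested intersections -/

theorem nested_connected {K : ℕ → Set ℂ} (hc : ∀ n, IsCompact (K n))
    (hconn : ∀ n, IsConnected (K n)) (hanti : Antitone K) : IsConnected (⋂ n, K n) := by
  have hclosed : ∀ n, IsClosed (K n) := fun n => (hc n).isClosed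
  have hdir : Directed (· ⊇ ·) K := hanti.directed_ge
  have hJc : IsCompact (⋂ n, K n) := (hc 0).of_isClosed_subset (isClosed_iInter hclosed)
    (iInter_subset _ 0)
  refine ⟨?_, ?_⟩
  · exact IsCompact.nonempty_iInter_of_directed_nonempty_isCompact_isClosed K hdir
      (fun n => (hconn n).nonempty) hc hclosed
  · intro u v hu hv hsub ⟨x, hx⟩ ⟨y, hy⟩
    by_contra hne
    have hd : ∀ z ∈ ⋂ n, K n, z ∈ u → z ∉ v := fun z hz h1 h2 => hne ⟨z, hz, h1, h2⟩
    have hA : IsCompact ((⋂ n, K n) \ v) := hJc.diff hv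
    have hB : IsCompact ((⋂ n, K n) \ u) := hJc.diff hu
    have hdis : Disjoint ((⋂ n, K n) \ v) ((⋂ n, K n) \ u) := by
      rw [Set.disjoint_left]
      rintro z ⟨h1, h2⟩ ⟨_, h3⟩
      rcases hsub h1 with h | h
      · exact h3 h
      · exact h2 h
    obtain ⟨u', v', hu', hv', hAu, hBv, huv⟩ := SeparatedNhds.of_isCompact_isCompact hA hB hdis
    obtain ⟨n, hn⟩ := exists_subset_nhds_of_isCompact' hdir hc hclosed (U := u' ∪ v') (by
      intro z hz
      refine (hu'.union hv').mem_nhds ?_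
      by_cases h : z ∈ v
      · refine Or.inr (hBv ⟨hz, fun h2 => hd z hz h2 h⟩)
      · exact Or.inl (hAu ⟨hz, h⟩))
    have hx' : x ∈ u' := hAu ⟨hx.1, hd x hx.1 hx.2⟩
    have hy' : y ∈ v' := hBv ⟨hy.1, fun h => hd y hy.1 h hy.2⟩
    obtain ⟨z, _, hz1, hz2⟩ := (hconn n).isPreconnected u' v' hu' hv' hn
      ⟨x, mem_iInter.1 hx.1 n, hx'⟩ ⟨y, mem_iInter.1 hy.1 n, hy'⟩
    exact Set.disjoint_left.1 huv hz1 hz2

/-! ### folding -/

theorem fold_conj (w : ℂ) : fold (conj w) = fold w := by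
  unfold fold
  rcases lt_trichotomy w.im 0 with h | h | h
  · rw [if_pos (by rw [conj_im]; linarith), if_neg (by linarith)]
  · have e : conj w = w := Complex.conj_eq_iff_im.2 h
    simp only [e]
  · rw [if_neg (by rw [conj_im]; linarith), if_pos h.le, Complex.conj_conj]

theorem fold_of_mem {w : ℂ} (h : w ∈ HH) : fold w = w := if_pos h

theorem norm_fold (w : ℂ) : ‖fold w‖ = ‖w‖ := by
  unfold fold
  split_ifs
  · rfl
  · exact Complex.norm_conj w

theorem fold_cases (w : ℂ) : fold w = w ∨ fold w = conj w := by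
  unfold fold
  split_ifs
  · exact Or.inl rfl
  · exact Or.inr rfl

/-! ### the folded coordinate of the plane -/

variable (q : RQ)

/-- the folded coordinate -/
def gg (z : ℂ) : ℂ := mm q.v (fold z)

theorem gg_mem (z : ℂ) : gg q z ∈ DD := mm_mem q.vpos (fold_mem z)

theorem gg_cont : Continuous (gg q) :=
  (mm_cont q.vpos).comp_continuous fold_cont fold_mem

theorem gg_ne_one (z : ℂ) : gg q z ≠ 1 := mm_ne_one q.vpos (fold_mem z)

variable {q} in
theorem gg_step {S : TS} (hS : IsTS q S) (z : ℂ) : S.F (gg q z) = gg q (q.h.eval z) := by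
  rw [gg, hS.F_eq _ (fold_mem z), gg]
  rcases fold_cases z with h | h
  · rw [h]
  · rw [h, q.h_conj, fold_conj]

/-- iterates -/
def it (n : ℕ) (z : ℂ) : ℂ := (fun w => q.h.eval w)^[n] z

theorem it_cont (n : ℕ) : Continuous (it q n) := by
  have h : Continuous fun w => q.h.eval w := q.h.continuous
  exact h.iterate n

theorem it_succ (n : ℕ) (z : ℂ) : it q (n + 1) z = q.h.eval (it q n z) :=
  Function.iterate_succ_apply' _ _ _

variable {q} in
theorem gg_iter {S : TS} (hS : IsTS q S) (n : ℕ) (z : ℂ) :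
    S.F^[n] (gg q z) = gg q (it q n z) := by
  induction n with
  | zero => rfl
  | succ n ih => rw [Function.iterate_succ_apply', ih, gg_step hS, it_succ]

variable {q} in
theorem gg_iter_add {S : TS} (hS : IsTS q S) (n k : ℕ) (z : ℂ) :
    S.F^[k] (gg q (it q n z)) = gg q (it q (n + k) z) := by
  rw [← gg_iter hS, ← gg_iter hS, ← Function.iterate_add_apply, Nat.add_comm]

/-- symmetric sets over connected sets are connected -/
theorem symm_connected {Q : Set ℂ} (hQ : IsPreconnected Q) (hD : Q ⊆ DD) (h1 : (1 : ℂ) ∉ Q)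
    {x0 : ℂ} (hx0 : x0 ∈ Q) (hn : ‖x0‖ = 1) : IsConnected {z | gg q z ∈ Q} := by
  have hsub : Q ⊆ DD \ {1} := fun x hx => ⟨hD hx, fun h => h1 (by rwa [← mem_singleton_iff.1 h])⟩
  have hmi : ContinuousOn (mi q.v) Q := (mi_cont q.vpos).mono hsub
  have hmem : ∀ x ∈ Q, mi q.v x ∈ HH := fun x hx => mi_mem q.vpos (hD hx) (hsub hx).2
  have hmm : ∀ x ∈ Q, mm q.v (mi q.v x) = x := fun x hx => mm_mi q.vpos (hD hx) (hsub hx).2
  have he : {z | gg q z ∈ Q} = mi q.v '' Q ∪ (fun x => conj (mi q.v x)) '' Q := by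
    ext z
    constructor
    · intro hz
      rcases fold_cases z with h | h
      · refine Or.inl ⟨gg q z, hz, ?_⟩
        rw [gg, mi_mm q.vpos (fold_mem z), h]
      · refine Or.inr ⟨gg q z, hz, ?_⟩
        simp only [gg]
        rw [mi_mm q.vpos (fold_mem z), h, Complex.conj_conj]
    · rintro (⟨x, hx, rfl⟩ | ⟨x, hx, rfl⟩)
      · change gg q _ ∈ Q
        rw [gg, fold_of_mem (hmem x hx), hmm x hx]
        exact hx
      · change gg q _ ∈ Q
        simp only [gg]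
        rw [fold_conj, fold_of_mem (hmem x hx), hmm x hx]
        exact hx
  have hr : (mi q.v x0).im = 0 := by
    rw [← norm_mm_eq_one q.vpos (hmem x0 hx0), hmm x0 hx0, hn]
  rw [he]
  refine ⟨⟨_, Or.inl ⟨x0, hx0, rfl⟩⟩, ?_⟩
  refine IsPreconnected.union (mi q.v x0) ⟨x0, hx0, rfl⟩ ⟨x0, hx0, ?_⟩ (hQ.image _ hmi)
    (hQ.image _ (continuous_conj.comp_continuousOn hmi))
  exact Complex.conj_eq_iff_im.2 hr

/-! ### the chart at infinity -/

variable {S : TS} (C : NB S)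

theorem norm_sq4 (t : ℂ) : ‖sq4 t‖ = ‖t‖ ^ 4 := by
  rw [sq4, norm_fold, norm_neg, norm_pow]

theorem sq4_mem (t : ℂ) : 0 ≤ (sq4 t).im := fold_mem _

theorem sq4_HB {t : ℂ} (ht : t ∈ HB C.δ0) : sq4 t ∈ HB C.δ0 := by
  refine ⟨?_, sq4_mem t⟩
  rw [norm_sq4]
  calc ‖t‖ ^ 4 ≤ ‖t‖ ^ 1 := pow_le_pow_of_le_one (norm_nonneg _) (ht.1.trans C.lt.le) (by norm_num)
    _ ≤ C.δ0 := by rw [pow_one]; exact ht.1

theorem iter_sq4 (k : ℕ) {t : ℂ} (ht : t ∈ HB C.δ0) :
    sq4^[k] t ∈ HB C.δ0 ∧ ‖sq4^[k] t‖ = ‖t‖ ^ (4 ^ k) ∧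
      S.F^[k] (exp (C.c t)) = exp (C.c (sq4^[k] t)) := by
  induction k with
  | zero => simp [ht]
  | succ k ih =>
    obtain ⟨h1, h2, h3⟩ := ih
    rw [Function.iterate_succ_apply', Function.iterate_succ_apply', h3]
    refine ⟨sq4_HB C h1, ?_, C.conj4 _ h1⟩
    rw [norm_sq4, h2, ← pow_mul, pow_succ]

theorem chart_inj {t t' : ℂ} (ht : t ∈ HB C.δ0) (ht' : t' ∈ HB C.δ0)
    (h : exp (C.c t) = exp (C.c t')) : t = t' := by
  apply C.inj ht ht'
  obtain ⟨n, hn⟩ := Complex.exp_eq_exp_iff_exists_int.1 h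
  have him := congrArg Complex.im hn
  have e1 : ((n : ℂ) * (2 * Real.pi * I)).im = n * (2 * Real.pi) := by simp
  rw [add_im, e1] at him
  have h1 := abs_lt.1 (C.im_lt t ht)
  have h2 := abs_lt.1 (C.im_lt t' ht')
  have hpi := Real.pi_gt_three
  have hn0 : n = 0 := by
    by_contra hne
    rcases lt_or_gt_of_ne hne with h3 | h3
    · have h4 : (n : ℝ) ≤ -1 := by exact_mod_cast Int.le_sub_one_of_lt h3
      nlinarith
    · have h4 : (1 : ℝ) ≤ n := by exact_mod_cast h3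
      nlinarith
  rw [hn, hn0]
  simp

theorem zero_HB : (0 : ℂ) ∈ HB C.δ0 := ⟨by simpa using C.pos.le, by simp⟩

theorem chart_DD {t : ℂ} (ht : t ∈ HB C.δ0) : exp (C.c t) ∈ DD := by
  have h := C.maps ht
  rw [DD, mem_closedBall_zero_iff, Complex.norm_exp]
  exact Real.exp_le_one_iff.2 h

/-! ### the rings -/

/-- the annular half ring -/
def ring (δ : ℝ) : Set ℂ := {t | δ ^ 4 ≤ ‖t‖ ∧ ‖t‖ ≤ δ ∧ 0 ≤ t.im}

theorem ring_connected {δ : ℝ} (h0 : 0 < δ) : IsPreconnected (ring δ) := by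
  have he : ring δ = (fun p : ℝ × ℝ => (p.1 : ℂ) * exp (p.2 * I)) ''
      (Icc (δ ^ 4) δ ×ˢ Icc 0 Real.pi) := by
    ext t
    constructor
    · rintro ⟨h1, h2, h3⟩
      refine ⟨(‖t‖, arg t), ⟨⟨h1, h2⟩, Complex.arg_nonneg_iff.2 h3, Complex.arg_le_pi t⟩, ?_⟩
      exact Complex.norm_mul_exp_arg_mul_I t
    · rintro ⟨⟨r, θ⟩, ⟨⟨h1, h2⟩, h3, h4⟩, rfl⟩
      have hr : 0 ≤ r := (pow_pos h0 4).le.trans h1
      have hn : ‖(r : ℂ) * exp (θ * I)‖ = r := by
        rw [norm_mul, Complex.norm_exp_ofReal_mul_I, mul_one, Complex.norm_real,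
          Real.norm_eq_abs, abs_of_nonneg hr]
      refine ⟨by simpa only [hn] using h1, by simpa only [hn] using h2, ?_⟩
      have him : ((r : ℂ) * exp (θ * I)).im = r * Real.sin θ := by
        rw [Complex.im_ofReal_mul, Complex.exp_ofReal_mul_I_im]
      simp only [him]
      exact mul_nonneg hr (Real.sin_nonneg_of_nonneg_of_le_pi h3 h4)
  rw [he]
  refine IsPreconnected.image ?_ _ (by fun_prop)
  exact isPreconnected_Icc.prod isPreconnected_Icc

theorem ring_sub {δ : ℝ} (h : δ < C.δ0) : ring δ ⊆ HB C.δ0 :=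
  fun _ ht => ⟨ht.2.1.trans h.le, ht.2.2⟩

theorem ec_sub (θ : ℝ) : exp (((θ - 2 * Real.pi : ℝ) : ℂ) * I) = ec θ := by
  rw [ec]
  have : ((θ - 2 * Real.pi : ℝ) : ℂ) * I = (θ : ℂ) * I - 2 * Real.pi * I := by
    push_cast
    ring
  rw [this, Complex.exp_periodic.sub_eq]

theorem exp_tpi_sub (u : ℂ) : exp (u - tpi) = exp u := Complex.exp_periodic.sub_eq u

theorem ofReal_mul_I_eq {z : ℂ} (h : z.re = 0) : z = (z.im : ℂ) * I := by
  apply Complex.ext
  · simp [h]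
  · simp

/-- the lifted rings -/
def Rh {A : XS S} (B : Br S A) (δ : ℝ) : ℕ → Set ℂ
  | 0 => C.c '' ring δ
  | m + 1 => B.ap (Ltr.Q4 0) '' Rh B δ m ∪ B.ap (Ltr.P 0) '' Rh B δ m ∪
      B.ap (Ltr.Q2 (-1)) '' Rh B δ m ∪ B.ap (Ltr.P (-1)) '' Rh B δ m

/-- the invariants of the lifted rings -/
structure RI (S : TS) (A : XS S) (R : Set ℂ) : Prop where
  sub : R ⊆ OO A.Xo
  conn : IsPreconnected R
  left : ∃ θ ∈ Icc 0 S.κ, (θ : ℂ) * I ∈ R
  right : ∃ θ ∈ Icc S.κ (2 * Real.pi), ((θ - 2 * Real.pi : ℝ) : ℂ) * I ∈ R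

theorem RI_zero {A : XS S} (B : Br S A) (hd : ∀ t ∈ HB C.δ0, exp (C.c t) ∉ A.X)
    (hκ' : ∀ t ∈ HB C.δ0, exp (C.c t) ≠ ec S.κ) {δ : ℝ} (h0 : 0 < δ) (h1 : δ < C.δ0) :
    RI S A (Rh C B δ 0) := by
  have hδ1 : δ < 1 := h1.trans C.lt
  have hpow : δ ^ 4 ≤ δ := by
    calc δ ^ 4 ≤ δ ^ 1 := pow_le_pow_of_le_one h0.le hδ1.le (by norm_num)
      _ = δ := pow_one δ
  have hreal : ∀ x : ℝ, |x| ≤ δ → (x : ℂ) ∈ HB C.δ0 := fun x hx =>
    ⟨by rw [Complex.norm_real, Real.norm_eq_abs]; exact hx.trans h1.le, by simp⟩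
  have him : ∀ x : ℝ, |x| ≤ δ → C.c x = ((C.c x).im : ℂ) * I := fun x hx =>
    ofReal_mul_I_eq ((C.real _ (hreal x hx)).2 (by simp))
  have hfc : ContinuousOn (fun x : ℝ => (C.c (x : ℂ)).im) {x : ℝ | |x| ≤ δ} :=
    continuous_im.comp_continuousOn (C.cont.comp continuous_ofReal.continuousOn
      fun x hx => hreal x hx)
  have hf0 : (C.c ((0 : ℝ) : ℂ)).im = 0 := by simp [C.zero]
  have hpos := C.realpos δ h0 h1.le
  have hneg := C.realneg (-δ) (by linarith) (by linarith)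
  have hκ0 := S.κ_mem
  refine ⟨?_, ?_, ?_, ?_⟩
  · rintro _ ⟨t, ht, rfl⟩
    have ht' := ring_sub C h1 ht
    exact ⟨C.maps ht', fun h => hd t ht' (A.Xo_sub h)⟩
  · exact (ring_connected h0).image _ (C.cont.mono (ring_sub C h1))
  · refine ⟨(C.c δ).im, ⟨hpos.le, ?_⟩, ?_⟩
    · by_contra hlt
      rw [not_le] at hlt
      obtain ⟨x, hx, hx2⟩ := intermediate_value_Icc h0.le
        (hfc.mono fun x hx => abs_le.2 ⟨by linarith [hx.1], hx.2⟩)
        (show S.κ ∈ Icc _ _ from ⟨by simpa only [hf0] using hκ0.1.le, hlt.le⟩)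
      have hx' : |x| ≤ δ := abs_le.2 ⟨by linarith [hx.1], hx.2⟩
      apply hκ' x (hreal x hx')
      rw [him x hx', ec]
      simp only at hx2
      rw [hx2]
    · rw [← him δ (by rw [abs_of_pos h0])]
      refine ⟨δ, ⟨?_, ?_, ?_⟩, rfl⟩
      · rwa [Complex.norm_real, Real.norm_eq_abs, abs_of_pos h0]
      · rw [Complex.norm_real, Real.norm_eq_abs, abs_of_pos h0]
      · simp
  · refine ⟨(C.c ((-δ : ℝ) : ℂ)).im + 2 * Real.pi, ⟨?_, by linarith⟩, ?_⟩
    · by_contra hlt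
      rw [not_le] at hlt
      obtain ⟨x, hx, hx2⟩ := intermediate_value_Icc (show -δ ≤ 0 by linarith)
        (hfc.mono fun x hx => abs_le.2 ⟨hx.1, by linarith [hx.2]⟩)
        (show S.κ - 2 * Real.pi ∈ Icc _ _ from ⟨by linarith, by
          simp only [hf0]
          linarith [hκ0.2]⟩)
      have hx' : |x| ≤ δ := abs_le.2 ⟨hx.1, by linarith [hx.2]⟩
      apply hκ' x (hreal x hx')
      simp only at hx2
      rw [him x hx', hx2, ec_sub]
    · have e : (C.c ((-δ : ℝ) : ℂ)).im + 2 * Real.pi - 2 * Real.pi = (C.c ((-δ : ℝ) : ℂ)).im := by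
        ring
      rw [e, ← him (-δ) (by rw [abs_neg, abs_of_pos h0])]
      refine ⟨((-δ : ℝ) : ℂ), ⟨?_, ?_, ?_⟩, rfl⟩
      · rwa [Complex.norm_real, Real.norm_eq_abs, abs_neg, abs_of_pos h0]
      · rw [Complex.norm_real, Real.norm_eq_abs, abs_neg, abs_of_pos h0]
      · simp

theorem RI_succ (hκ : S.κ = S.ω₀) {A : XS S} (B : Br S A) {δ : ℝ} {m : ℕ}
    (h : RI S A (Rh C B δ m)) : RI S A (Rh C B δ (m + 1)) := by
  obtain ⟨θl, hl, hlR⟩ := h.left
  obtain ⟨θr, hr, hrR⟩ := h.right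
  obtain ⟨hg2, hg4, hg4'⟩ := bd_g B.bd B.cont2 B.exp2 B.one2 B.cont4 B.exp4 B.one4
  have hpi := Real.pi_pos
  have hκm := S.κ_mem
  have hlO := h.sub hlR
  have hrO := h.sub hrR
  have hshift : ∀ u ∈ OO A.Xo, u - tpi ∈ OO A.Xo := by
    intro u hu
    refine ⟨?_, ?_⟩
    · have : (u - tpi).re = u.re := by simp [tpi]
      change (u - tpi).re ≤ 0
      rw [this]
      exact hu.1
    · rw [exp_tpi_sub]
      exact hu.2
  -- values
  have v1 : B.ap (Ltr.Q4 0) ((θl : ℂ) * I) = B.b θl := by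
    simp only [Br.ap, Int.cast_zero, zero_mul, add_zero]
    rw [hg4 θl hl, ec]
  have v2 : B.ap (Ltr.P 0) ((θl : ℂ) * I) = B.b θl := by
    simp only [Br.ap, Int.cast_zero, zero_mul, add_zero]
    exact B.bdΦ θl hlO
  have v3 : B.ap (Ltr.P 0) (((θr - 2 * Real.pi : ℝ) : ℂ) * I) = B.b (θr - 2 * Real.pi) := by
    simp only [Br.ap, Int.cast_zero, zero_mul, add_zero]
    exact B.bdΦ _ hrO
  have v4 : B.ap (Ltr.Q2 (-1)) (((θr - 2 * Real.pi : ℝ) : ℂ) * I) = B.b (θr - 2 * Real.pi) := by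
    have e1 := hg2 θr ⟨hκm.1.le.trans hr.1, hr.2⟩
    have e2 := bd_shift B.bd (θr - 2 * Real.pi)
    rw [show θr - 2 * Real.pi + 4 * Real.pi = θr + 2 * Real.pi by ring] at e2
    simp only [Br.ap, ec_sub, ← e1, e2]
    push_cast
    ring
  have v5 : B.ap (Ltr.Q2 (-1)) ((θl : ℂ) * I) = B.b (θl - 2 * Real.pi) := by
    have e1 := hg2 θl ⟨hl.1, hl.2.trans hκm.2.le⟩
    have e2 := bd_shift B.bd (θl - 2 * Real.pi)
    rw [show θl - 2 * Real.pi + 4 * Real.pi = θl + 2 * Real.pi by ring] at e2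
    rw [ec] at e1
    simp only [Br.ap, ← e1, e2]
    push_cast
    ring
  have e6 : ∀ θ : ℝ, (θ : ℂ) * I - tpi = ((θ - 2 * Real.pi : ℝ) : ℂ) * I := by
    intro θ
    rw [tpi]
    push_cast
    ring
  have v6 : B.ap (Ltr.P (-1)) ((θl : ℂ) * I) = B.b (θl - 2 * Real.pi) := by
    have h1 := hshift _ hlO
    rw [e6] at h1
    have h2 := B.bdΦ _ h1
    rw [← e6] at h2
    simp only [Br.ap]
    rw [← h2]
    congr 1
    push_cast
    ring
  have v7 : B.ap (Ltr.Q4 0) (((θr - 2 * Real.pi : ℝ) : ℂ) * I) = S.rm θr * I := by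
    simp only [Br.ap, Int.cast_zero, zero_mul, add_zero, ec_sub]
    exact hg4' θr hr
  have v8 : B.ap (Ltr.P (-1)) (((θr - 2 * Real.pi : ℝ) : ℂ) * I) =
      ((S.rp θr - 2 * Real.pi : ℝ) : ℂ) * I := by
    have h1 := hshift _ hrO
    rw [e6] at h1
    have h2 := B.bdΦ _ h1
    have e7 := bd_shift B.bd (θr - 2 * Real.pi - 2 * Real.pi)
    rw [show θr - 2 * Real.pi - 2 * Real.pi + 4 * Real.pi = θr by ring, bd_rp B.bd θr hr] at e7
    have e8 : B.b (θr - 2 * Real.pi - 2 * Real.pi) = S.rp θr * I - tpi := by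
      linear_combination -e7
    have e9 : ((θr - 2 * Real.pi : ℝ) : ℂ) * I + ((-1 : ℤ) : ℂ) * tpi =
        ((θr - 2 * Real.pi - 2 * Real.pi : ℝ) : ℂ) * I := by
      rw [tpi]
      push_cast
      ring
    simp only [Br.ap]
    rw [e9, h2, e8, e6]
  have hc : ∀ l : Ltr, IsPreconnected (B.ap l '' Rh C B δ m) := fun l =>
    h.conn.image _ ((B.contOn_ap l).mono h.sub)
  refine ⟨?_, ?_, ?_, ?_⟩
  · have hm : ∀ l : Ltr, B.ap l '' Rh C B δ m ⊆ OO A.Xo := by
      rintro l _ ⟨u, hu, rfl⟩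
      exact B.ap_mem subset_rfl A.FXo l (h.sub hu)
    exact union_subset (union_subset (union_subset (hm _) (hm _)) (hm _)) (hm _)
  · refine IsPreconnected.union (B.b (θl - 2 * Real.pi)) (Or.inr ⟨_, hlR, v5⟩) ⟨_, hlR, v6⟩ ?_
      (hc _)
    refine IsPreconnected.union (B.b (θr - 2 * Real.pi)) (Or.inr ⟨_, hrR, v3⟩) ⟨_, hrR, v4⟩ ?_
      (hc _)
    exact IsPreconnected.union (B.b θl) ⟨_, hlR, v1⟩ ⟨_, hlR, v2⟩ (hc _) (hc _)
  · have h1 := S.rm_mem θr hr
    rw [← hκ] at h1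
    exact ⟨S.rm θr, h1, Or.inl (Or.inl (Or.inl ⟨_, hrR, v7⟩))⟩
  · have h1 := S.rp_mem θr hr
    rw [← hκ] at h1
    exact ⟨S.rp θr, h1, Or.inr ⟨_, hrR, v8⟩⟩

theorem Rh_exp {A : XS S} (B : Br S A) {δ : ℝ} {m : ℕ} (h : RI S A (Rh C B δ m)) {y : ℂ}
    (hy : y ∈ DD) : y ∈ exp '' Rh C B δ (m + 1) ↔ S.F y ∈ exp '' Rh C B δ m := by
  constructor
  · rintro ⟨v, hv, rfl⟩
    have hF : ∀ l : Ltr, v ∈ B.ap l '' Rh C B δ m → S.F (exp v) ∈ exp '' Rh C B δ m := by
      rintro l ⟨u, hu, rfl⟩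
      exact ⟨u, hu, (B.F_ap l (h.sub hu)).symm⟩
    rcases hv with ((hv | hv) | hv) | hv <;> exact hF _ hv
  · rintro ⟨u, hu, he⟩
    have huO := h.sub hu
    have heD : exp u ∈ DD := by
      rw [DD, mem_closedBall_zero_iff, Complex.norm_exp]
      exact Real.exp_le_one_iff.2 huO.1
    have hshift : u - tpi ∈ OO A.Xo := by
      refine ⟨?_, ?_⟩
      · have : (u - tpi).re = u.re := by simp [tpi]
        change (u - tpi).re ≤ 0
        rw [this]
        exact huO.1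
      · rw [exp_tpi_sub]
        exact huO.2
    rcases S.cover y hy with ⟨s, hs, rfl⟩ | ⟨w, hw, rfl⟩ | ⟨w, hw, rfl⟩
    · rw [S.FΘ s hs] at he
      have h2 : exp (u / 2) ^ 2 = s ^ 2 := by
        rw [← he, ← Complex.exp_nat_mul]
        congr 1
        push_cast
        ring
      rcases sq_eq_sq_iff_eq_or_eq_neg.1 h2 with h3 | h3
      · refine ⟨B.ap (Ltr.P 0) u, Or.inl (Or.inl (Or.inr ⟨u, hu, rfl⟩)), ?_⟩
        simp only [Br.ap, Int.cast_zero, zero_mul, add_zero]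
        rw [B.expΦ u huO, h3]
      · refine ⟨B.ap (Ltr.P (-1)) u, Or.inr ⟨u, hu, rfl⟩, ?_⟩
        have e1 : u + ((-1 : ℤ) : ℂ) * tpi = u - tpi := by
          push_cast
          ring
        simp only [Br.ap]
        rw [e1, B.expΦ _ hshift]
        have e2 : (u - tpi) / 2 = u / 2 - Real.pi * I := by
          rw [tpi]
          ring
        rw [e2, Complex.exp_sub, Complex.exp_pi_mul_I, h3]
        congr 1
        ring
    · rw [S.F2 w hw] at he
      refine ⟨B.ap (Ltr.Q2 (-1)) u, Or.inl (Or.inr ⟨u, hu, rfl⟩), ?_⟩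
      have e1 : B.g2 (exp u) + ((-1 : ℤ) : ℂ) * tpi = B.g2 (exp u) - tpi := by
        push_cast
        ring
      simp only [Br.ap]
      rw [e1, exp_tpi_sub, B.exp2 _ heD, he]
    · rw [S.F4 w hw] at he
      refine ⟨B.ap (Ltr.Q4 0) u, Or.inl (Or.inl (Or.inl ⟨u, hu, rfl⟩)), ?_⟩
      simp only [Br.ap, Int.cast_zero, zero_mul, add_zero]
      rw [B.exp4 _ heD, he]

/-! ### escaping points -/

section Main

variable (hS : IsTS q S) (δ : ℝ)

/-- the points entering the chart at time `n` -/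
def EE (n : ℕ) : Set ℂ := {z | gg q (it q n z) ∈ (fun t => exp (C.c t)) '' HB δ}

/-- the points in the ring at time `n` -/
def GR0 (n : ℕ) : Set ℂ := {z | gg q (it q n z) ∈ (fun t => exp (C.c t)) '' ring δ}

variable {δ} {q}

include hS in
theorem GR0_connected (hκ : S.κ = S.ω₀) {A : XS S} (B : Br S A)
    (hd : ∀ t ∈ HB C.δ0, exp (C.c t) ∉ A.X) (hκ' : ∀ t ∈ HB C.δ0, exp (C.c t) ≠ ec S.κ)
    (h0 : 0 < δ) (h1 : δ < C.δ0) (m : ℕ) : IsConnected (GR0 q C δ m) := by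
  have hRI : ∀ m, RI S A (Rh C B δ m) := by
    intro m
    induction m with
    | zero => exact RI_zero C B hd hκ' h0 h1
    | succ m ih => exact RI_succ C hκ B ih
  have hbase : (fun t => exp (C.c t)) '' ring δ = exp '' Rh C B δ 0 := by
    simp only [Rh, image_image]
  have hiter : ∀ m, ∀ y ∈ DD, S.F^[m] y ∈ (fun t => exp (C.c t)) '' ring δ ↔
      y ∈ exp '' Rh C B δ m := by
    intro m
    induction m with
    | zero =>
      intro y _
      rw [hbase]
      rfl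
    | succ m ih =>
      intro y hy
      rw [Function.iterate_succ_apply, ih _ (S.mapsF hy), Rh_exp C B (hRI m) hy]
  have hset : GR0 q C δ m = {z | gg q z ∈ exp '' Rh C B δ m} := by
    ext z
    change gg q (it q m z) ∈ (fun t => exp (C.c t)) '' ring δ ↔ gg q z ∈ exp '' Rh C B δ m
    rw [← gg_iter hS, hiter m _ (gg_mem q z)]
  have hne : ∀ m, (1 : ℂ) ∉ exp '' Rh C B δ m := by
    intro m hm
    have hD : (1 : ℂ) ∈ DD := by simp [DD]
    rw [← hiter m 1 hD] at hm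
    have hF : S.F^[m] 1 = 1 := Function.iterate_fixed F_one m
    rw [hF] at hm
    obtain ⟨t, ht, he⟩ := hm
    have e0 : exp (C.c t) = exp (C.c 0) := by rw [C.zero, Complex.exp_zero]; exact he
    have e1 := chart_inj C (ring_sub C h1 ht) (zero_HB C) e0
    have e2 := ht.1
    rw [e1, norm_zero] at e2
    have := pow_pos h0 4
    linarith
  rw [hset]
  obtain ⟨θ, _, hθ⟩ := (hRI m).left
  refine symm_connected q ((hRI m).conn.image _ continuous_exp.continuousOn) ?_ (hne m)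
    ⟨_, hθ, rfl⟩ (Complex.norm_exp_ofReal_mul_I θ)
  rintro _ ⟨u, hu, rfl⟩
  rw [DD, mem_closedBall_zero_iff, Complex.norm_exp]
  exact Real.exp_le_one_iff.2 ((hRI m).sub hu).1

include hS in
theorem EE_step (h1 : δ < C.δ0) {n k : ℕ} {z : ℂ} {t : ℂ} (ht : t ∈ HB δ)
    (he : gg q (it q n z) = exp (C.c t)) :
    gg q (it q (n + k) z) = exp (C.c (sq4^[k] t)) ∧ sq4^[k] t ∈ HB C.δ0 ∧
      ‖sq4^[k] t‖ = ‖t‖ ^ (4 ^ k) := by
  have ht' : t ∈ HB C.δ0 := ⟨ht.1.trans h1.le, ht.2⟩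
  obtain ⟨e1, e2, e3⟩ := iter_sq4 C k ht'
  refine ⟨?_, e1, e2⟩
  rw [← gg_iter_add hS, he, e3]

include hS in
theorem EE_mono (h0 : 0 < δ) (h1 : δ < C.δ0) {n k : ℕ} {z : ℂ} (hz : z ∈ EE q C δ n) :
    z ∈ EE q C δ (n + k) := by
  obtain ⟨t, ht, he⟩ := hz
  obtain ⟨e1, e2, e3⟩ := EE_step C hS h1 (k := k) ht he.symm
  refine ⟨_, ⟨?_, e2.2⟩, e1.symm⟩
  rw [e3]
  have hδ1 : δ < 1 := h1.trans C.lt
  calc ‖t‖ ^ (4 ^ k) ≤ ‖t‖ ^ 1 := pow_le_pow_of_le_one (norm_nonneg _) (ht.1.trans hδ1.le)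
        (Nat.one_le_pow _ _ (by norm_num))
    _ ≤ δ := by rw [pow_one]; exact ht.1

include hS in
/-- points entering the chart for the first time are in the ring -/
theorem GR0_of (h0 : 0 < δ) (h1 : δ < C.δ0) {m : ℕ} {z : ℂ} (h : z ∈ EE q C δ (m + 1))
    (h' : z ∉ EE q C δ m) : z ∈ GR0 q C δ (m + 1) := by
  obtain ⟨t, ht, he⟩ := h
  refine ⟨t, ⟨?_, ht.1, ht.2⟩, he⟩
  by_contra hlt
  rw [not_le] at hlt
  have hF : S.F (gg q (it q m z)) = exp (C.c t) := by
    rw [gg_step hS, ← it_succ]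
    exact he.symm
  obtain ⟨t', ht', he'⟩ := C.level δ h0 h1 _ (gg_mem q _) t ⟨hlt.le, ht.2⟩ hF
  exact h' ⟨t', ht', he'.symm⟩

include hS in
/-- a point in the chart leaves the ring after two more steps -/
theorem not_GR0 (h0 : 0 < δ) (h1 : δ < C.δ0) {n k : ℕ} {z : ℂ} (h : z ∈ EE q C δ n) :
    z ∉ GR0 q C δ (n + (k + 2)) := by
  rintro ⟨s, hs, hse⟩
  obtain ⟨t, ht, he⟩ := h
  obtain ⟨e1, e2, e3⟩ := EE_step C hS h1 (k := k + 2) ht he.symm
  have e4 := chart_inj C (ring_sub C h1 hs) e2 (hse.trans e1)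
  have e5 := hs.1
  rw [e4, e3] at e5
  have hδ1 : δ < 1 := h1.trans C.lt
  have e6 : ‖t‖ ^ (4 ^ (k + 2)) ≤ δ ^ (4 ^ (k + 2)) :=
    pow_le_pow_left₀ (norm_nonneg _) ht.1 _
  have e7 : δ ^ (4 ^ (k + 2)) < δ ^ 4 := by
    apply pow_lt_pow_right_of_lt_one₀ h0 hδ1
    calc 4 < 4 ^ 2 := by norm_num
      _ ≤ 4 ^ (k + 2) := Nat.pow_le_pow_right (by norm_num) (by omega)
  linarith

include hS in
/-- the ring is not left to the inside -/
theorem not_GR0' (h0 : 0 < δ) (h1 : δ < C.δ0) {n : ℕ} {z t : ℂ} (ht : ‖t‖ < δ ^ 4)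
    (ht0 : 0 ≤ t.im) (he : gg q z = exp (C.c t)) : z ∉ GR0 q C δ n := by
  rintro ⟨s, hs, hse⟩
  have hδ1 : δ < 1 := h1.trans C.lt
  have hpow : δ ^ 4 ≤ δ := by
    calc δ ^ 4 ≤ δ ^ 1 := pow_le_pow_of_le_one h0.le hδ1.le (by norm_num)
      _ = δ := pow_one δ
  obtain ⟨e1, e2, e3⟩ := EE_step C hS h1 (n := 0) (k := n) (z := z) (t := t)
    ⟨ht.le.trans hpow, ht0⟩ he
  rw [Nat.zero_add] at e1
  have e4 := chart_inj C (ring_sub C h1 hs) e2 (hse.trans e1)
  have e5 := hs.1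
  rw [e4, e3] at e5
  have e6 : ‖t‖ ^ (4 ^ n) ≤ ‖t‖ ^ 1 := pow_le_pow_of_le_one (norm_nonneg _)
    (ht.le.trans (hpow.trans hδ1.le)) (Nat.one_le_pow _ _ (by norm_num))
  rw [pow_one] at e6
  linarith

theorem gg_large {δ' : ℝ} (h0 : 0 < δ') (h1 : δ' < C.δ0) : ∃ R : ℝ, ∀ z : ℂ, R ≤ ‖z‖ →
    ∃ t, ‖t‖ < δ' ∧ 0 ≤ t.im ∧ gg q z = exp (C.c t) := by
  obtain ⟨O, hO, hOe⟩ := C.openo δ' h0 h1
  have h1O : (1 : ℂ) ∈ O := by
    have : (1 : ℂ) ∈ (fun t => exp (C.c t)) '' {t | ‖t‖ < δ' ∧ 0 ≤ t.im} :=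
      ⟨0, ⟨by simpa using h0, by simp⟩, by simp [C.zero]⟩
    rw [hOe] at this
    exact this.1
  obtain ⟨η, hη, hb⟩ := Metric.isOpen_iff.1 hO 1 h1O
  obtain ⟨R, hR⟩ := mm_tendsto_one q.vpos (η / 2) (by positivity)
  refine ⟨R, fun z hz => ?_⟩
  have h2 := hR (fold z) (fold_mem z) (by rwa [norm_fold])
  have h3 : gg q z ∈ O ∩ DD := by
    refine ⟨hb ?_, gg_mem q z⟩
    rw [mem_ball, dist_eq_norm]
    exact lt_of_le_of_lt h2 (by linarith)
  rw [← hOe] at h3
  obtain ⟨t, ht, he⟩ := h3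
  exact ⟨t, ht.1, ht.2, he.symm⟩

theorem closed_EE (h1 : δ < C.δ0) (n : ℕ) : IsClosed (EE q C δ n) := by
  have hcpt : IsCompact (HB δ) := by
    have : HB δ = closedBall (0 : ℂ) δ ∩ {t | 0 ≤ t.im} := by
      ext t
      simp [HB]
    rw [this]
    exact (isCompact_closedBall _ _).inter_right (isClosed_le continuous_const continuous_im)
  have hc : IsCompact ((fun t => exp (C.c t)) '' HB δ) :=
    hcpt.image_of_continuousOn (continuous_exp.comp_continuousOn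
      (C.cont.mono fun t ht => ⟨ht.1.trans h1.le, ht.2⟩))
  exact hc.isClosed.preimage ((gg_cont q).comp (it_cont q n))

include hS in
theorem compl_filled (h0 : 0 < δ) (h1 : δ < C.δ0) (z : ℂ) :
    z ∉ filledJulia q.h ↔ ∃ n, z ∈ EE q C δ n := by
  constructor
  · intro h
    obtain ⟨R, hR⟩ := gg_large (q := q) C h0 h1
    by_contra hne
    push Not at hne
    apply h
    rw [filledJulia, mem_ofPred_eq, isBounded_iff_forall_norm_le]
    refine ⟨R, ?_⟩
    rintro _ ⟨n, rfl⟩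
    by_contra hlt
    rw [not_le] at hlt
    obtain ⟨t, ht, ht0, he⟩ := hR (it q n z) hlt.le
    exact hne n ⟨t, ⟨ht.le, ht0⟩, he.symm⟩
  · rintro ⟨n, t, ht, he⟩ hb
    rw [filledJulia, mem_ofPred_eq, isBounded_iff_forall_norm_le] at hb
    obtain ⟨M, hM⟩ := hb
    have hδ1 : δ < 1 := h1.trans C.lt
    have ht' : t ∈ HB C.δ0 := ⟨ht.1.trans h1.le, ht.2⟩
    have hcl : IsClosed (gg q '' closedBall 0 M) :=
      ((isCompact_closedBall _ _).image (gg_cont q)).isClosed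
    have htend : Tendsto (fun k : ℕ => sq4^[k] t) atTop (𝓝 0) := by
      rw [tendsto_zero_iff_norm_tendsto_zero]
      have e1 : (fun k : ℕ => ‖sq4^[k] t‖) = fun k : ℕ => ‖t‖ ^ (4 ^ k) := by
        funext k
        exact (iter_sq4 C k ht').2.1
      rw [e1]
      have e2 : Tendsto (fun k : ℕ => 4 ^ k) atTop atTop :=
        tendsto_pow_atTop_atTop_of_one_lt (by norm_num)
      exact (tendsto_pow_atTop_nhds_zero_of_lt_one (norm_nonneg _)
        (lt_of_le_of_lt ht.1 hδ1)).comp e2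
    have htend2 : Tendsto (fun k : ℕ => exp (C.c (sq4^[k] t))) atTop (𝓝 1) := by
      have e1 : Tendsto (fun k : ℕ => C.c (sq4^[k] t)) atTop (𝓝 (C.c 0)) := by
        have e2 := C.cont 0 (zero_HB C)
        refine e2.tendsto.comp (tendsto_nhdsWithin_iff.2 ⟨htend, ?_⟩)
        exact Eventually.of_forall fun k => (iter_sq4 C k ht').1
      rw [C.zero] at e1
      have e3 := (continuous_exp.tendsto 0).comp e1
      rw [Complex.exp_zero] at e3
      exact e3
    have hmem : (1 : ℂ) ∈ gg q '' closedBall 0 M := by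
      refine hcl.mem_of_tendsto htend2 (Eventually.of_forall fun k => ?_)
      rw [← (EE_step C hS h1 (k := k) ht he.symm).1]
      refine ⟨_, ?_, rfl⟩
      rw [mem_closedBall_zero_iff]
      exact hM _ ⟨n + k, rfl⟩
    obtain ⟨w, _, hw⟩ := hmem
    exact gg_ne_one q w hw

end Main

end G8aux

open G8aux in
/-- connected Julia set -/
theorem julia_connected (q : RQ) {S : TS} (hS : IsTS q S) (hκ : S.κ = S.ω₀) {A : XS S}
    (B : Br S A) (C : NB S) (hd : ∀ t ∈ HB C.δ0, exp (C.c t) ∉ A.X)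
    (hκ' : ∀ t ∈ HB C.δ0, exp (C.c t) ≠ ec S.κ) : IsConnected (julia q.h) := by
  set δ : ℝ := C.δ0 / 2 with hδ
  have h0 : 0 < δ := by
    have := C.pos
    positivity
  have h1 : δ < C.δ0 := by
    have := C.pos
    linarith
  have hδ1 : δ < 1 := h1.trans C.lt
  have hpow4 : δ ^ 4 < δ := by
    calc δ ^ 4 < δ ^ 1 := pow_lt_pow_right_of_lt_one₀ h0 hδ1 (by norm_num)
      _ = δ := pow_one δ
  set W : ℕ → Set ℂ := fun n => ⋃ k, GR0 q C δ (n + k) with hW
  have hcf := compl_filled C hS h0 h1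
  -- rings are escaping
  have hring : ∀ n, GR0 q C δ n ⊆ EE q C δ n := by
    rintro n z ⟨t, ht, he⟩
    exact ⟨t, ⟨ht.2.1, ht.2.2⟩, he⟩
  -- consecutive rings meet
  have hmeet : ∀ n, (GR0 q C δ n ∩ GR0 q C δ (n + 1)).Nonempty := by
    intro n
    -- a point of the circle `|t| = δ`
    have hδm : (δ : ℂ) ∈ HB C.δ0 :=
      ⟨by rw [Complex.norm_real, Real.norm_eq_abs, abs_of_pos h0]; exact h1.le, by simp⟩
    set x : ℂ := exp (C.c (δ : ℂ)) with hx
    have hxD : x ∈ DD := chart_DD C hδm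
    have hx1 : x ≠ 1 := by
      intro h
      have e0 : exp (C.c (δ : ℂ)) = exp (C.c 0) := by rw [C.zero, Complex.exp_zero]; exact h
      have e1 := chart_inj C hδm (zero_HB C) e0
      have : δ = 0 := by exact_mod_cast e1
      linarith
    -- preimages under `F^n`
    have hpre : ∀ m : ℕ, ∀ y ∈ DD, y ≠ 1 → ∃ y' ∈ DD, y' ≠ 1 ∧ S.F^[m] y' = y := by
      intro m
      induction m with
      | zero => exact fun y hy hy1 => ⟨y, hy, hy1, rfl⟩
      | succ m ih =>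
        intro y hy hy1
        obtain ⟨y', hy', hy1', he⟩ := ih y hy hy1
        refine ⟨S.G2 y', S.maps2 hy', ?_, ?_⟩
        · intro h
          apply hy1'
          rw [← S.F2 y' hy', h, F_one]
        · rw [Function.iterate_succ_apply, S.F2 y' hy', he]
    obtain ⟨y, hy, hy1, hye⟩ := hpre n x hxD hx1
    set z : ℂ := mi q.v y with hz
    have hzH : z ∈ HH := mi_mem q.vpos hy hy1
    have hgz : gg q z = y := by rw [gg, fold_of_mem hzH, hz, mm_mi q.vpos hy hy1]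
    have hgn : gg q (it q n z) = exp (C.c (δ : ℂ)) := by rw [← gg_iter hS, hgz, hye]
    have hgn1 : gg q (it q (n + 1) z) = exp (C.c (sq4 (δ : ℂ))) := by
      rw [it_succ, ← gg_step hS, hgn, C.conj4 _ hδm]
    have hnδ : ‖(δ : ℂ)‖ = δ := by rw [Complex.norm_real, Real.norm_eq_abs, abs_of_pos h0]
    refine ⟨z, ⟨(δ : ℂ), ⟨?_, ?_, ?_⟩, hgn.symm⟩, ⟨sq4 (δ : ℂ), ⟨?_, ?_, sq4_mem _⟩, hgn1.symm⟩⟩
    · rw [hnδ]
      exact hpow4.le
    · rw [hnδ]
    · simp
    · rw [norm_sq4, hnδ]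
    · rw [norm_sq4, hnδ]
      exact hpow4.le
  have hWconn : ∀ n, IsConnected (W n) := fun n =>
    IsConnected.iUnion_of_chain (fun k => GR0_connected C hS hκ B hd hκ' h0 h1 (n + k))
      fun k => hmeet (n + k)
  have hWanti : Antitone W := by
    intro n m hnm
    refine iUnion_subset fun k => ?_
    have : m + k = n + (m - n + k) := by omega
    rw [this]
    exact subset_iUnion (fun k => GR0 q C δ (n + k)) (m - n + k)
  -- boundedness
  obtain ⟨R, hR⟩ := gg_large (q := q) C (pow_pos h0 4) (hpow4.trans h1)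
  have hWb : ∀ n, W n ⊆ closedBall 0 R := by
    intro n z hz
    rw [mem_closedBall_zero_iff]
    by_contra hlt
    rw [not_le] at hlt
    obtain ⟨k, hk⟩ := mem_iUnion.1 hz
    obtain ⟨t, ht, ht0, he⟩ := hR z hlt.le
    exact not_GR0' C hS h0 h1 ht ht0 he hk
  have hKc : ∀ n, IsCompact (closure (W n)) := fun n =>
    (isCompact_closedBall (0 : ℂ) R).of_isClosed_subset isClosed_closure
      (closure_minimal (hWb n) isClosed_closedBall)
  -- the Julia set
  have hfr : julia q.h = ⋂ n, closure (W n) := by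
    ext z
    constructor
    · intro hz
      rw [mem_iInter]
      intro n
      rw [_root_.mem_closure_iff]
      intro O hO hzO
      -- `z` is not in `EE n`
      have hzK : ∀ m, z ∉ EE q C δ m := by
        intro m hm
        -- then a neighbourhood of `z` escapes
        obtain ⟨t, ht, he⟩ := hm
        obtain ⟨O', hO', hOe⟩ := C.openo δ h0 h1
        obtain ⟨e1, e2, e3⟩ := EE_step C hS h1 (k := 1) ht he.symm
        have hzO' : gg q (it q (m + 1) z) ∈ O' ∩ DD := by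
          rw [← hOe, e1]
          refine ⟨_, ⟨?_, e2.2⟩, rfl⟩
          rw [e3, pow_one]
          exact lt_of_le_of_lt (pow_le_pow_left₀ (norm_nonneg _) ht.1 4) hpow4
        have hopen : IsOpen ((fun z => gg q (it q (m + 1) z)) ⁻¹' O') :=
          hO'.preimage ((gg_cont q).comp (it_cont q (m + 1)))
        have hsub : (fun z => gg q (it q (m + 1) z)) ⁻¹' O' ⊆ (filledJulia q.h)ᶜ := by
          intro w hw
          have hw2 : gg q (it q (m + 1) w) ∈ O' ∩ DD := ⟨hw, gg_mem q _⟩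
          rw [← hOe] at hw2
          obtain ⟨s, hs, hse⟩ := hw2
          exact (hcf w).2 ⟨m + 1, s, ⟨hs.1.le, hs.2⟩, hse⟩
        have hcl : z ∈ closure (filledJulia q.h) := frontier_subset_closure hz
        obtain ⟨w, hw1, hw2⟩ := _root_.mem_closure_iff.1 hcl _ hopen hzO'.1
        exact hsub hw1 hw2
      have hopen2 : IsOpen (O ∩ (EE q C δ n)ᶜ) := hO.inter (closed_EE C h1 n).isOpen_compl
      have hcl : z ∈ closure (filledJulia q.h)ᶜ := by
        rw [julia, frontier_eq_closure_inter_closure] at hz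
        exact hz.2
      obtain ⟨w, ⟨hwO, hwn⟩, hwK⟩ := _root_.mem_closure_iff.1 hcl _ hopen2 ⟨hzO, hzK n⟩
      refine ⟨w, hwO, ?_⟩
      obtain ⟨m, hm⟩ := (hcf w).1 hwK
      -- first entry
      classical
      have hex : ∃ m, w ∈ EE q C δ m := ⟨m, hm⟩
      have hmin := Nat.find_spec hex
      have hgt : n < Nat.find hex := by
        by_contra hle
        rw [not_lt] at hle
        have := EE_mono C hS h0 h1 (k := n - Nat.find hex) hmin
        rw [Nat.add_sub_cancel' hle] at this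
        exact hwn this
      obtain ⟨j, hj⟩ : ∃ j, Nat.find hex = j + 1 := ⟨Nat.find hex - 1, by omega⟩
      have hnj : w ∉ EE q C δ j := Nat.find_min hex (by omega)
      rw [hj] at hmin
      have hG := GR0_of C hS h0 h1 hmin hnj
      refine mem_iUnion.2 ⟨j + 1 - n, ?_⟩
      have : n + (j + 1 - n) = j + 1 := by omega
      rw [this]
      exact hG
    · intro hz
      rw [mem_iInter] at hz
      have hWK : ∀ n, W n ⊆ (filledJulia q.h)ᶜ := by
        intro n w hw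
        obtain ⟨k, hk⟩ := mem_iUnion.1 hw
        exact (hcf w).2 ⟨_, hring _ hk⟩
      rw [julia, frontier_eq_closure_inter_closure]
      refine ⟨subset_closure ?_, closure_mono (hWK 0) (hz 0)⟩
      by_contra hne
      obtain ⟨m, t, ht, he⟩ := (hcf z).1 hne
      obtain ⟨O', hO', hOe⟩ := C.openo δ h0 h1
      obtain ⟨e1, e2, e3⟩ := EE_step C hS h1 (k := 1) ht he.symm
      have hzO' : gg q (it q (m + 1) z) ∈ O' ∩ DD := by
        rw [← hOe, e1]
        refine ⟨_, ⟨?_, e2.2⟩, rfl⟩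
        rw [e3, pow_one]
        exact lt_of_le_of_lt (pow_le_pow_left₀ (norm_nonneg _) ht.1 4) hpow4
      have hopen : IsOpen ((fun z => gg q (it q (m + 1) z)) ⁻¹' O') :=
        hO'.preimage ((gg_cont q).comp (it_cont q (m + 1)))
      obtain ⟨w, hw1, hw2⟩ := _root_.mem_closure_iff.1 (hz (m + 3)) _ hopen hzO'.1
      obtain ⟨k, hk⟩ := mem_iUnion.1 hw2
      have hw3 : gg q (it q (m + 1) w) ∈ O' ∩ DD := ⟨hw1, gg_mem q _⟩
      rw [← hOe] at hw3
      obtain ⟨s, hs, hse⟩ := hw3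
      have hwE : w ∈ EE q C δ (m + 1) := ⟨s, ⟨hs.1.le, hs.2⟩, hse⟩
      have := not_GR0 C hS h0 h1 (k := k) hwE
      rw [show m + 1 + (k + 2) = m + 3 + k by omega] at this
      exact this hk
  rw [hfr]
  exact nested_connected hKc (fun n => (hWconn n).closure) fun n m h => closure_mono (hWanti h)

end

end Pool.TU
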