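import Pool.Agent.Helper71.TU.G6
import Pool.Agent.Helper71.TU.B5

/-! # TU G9: the marked polynomial -/

open Complex Set Filter Topology Metric Polynomial ComplexConjugate Pool.Tuning

namespace Pool.TU

noncomputable section

private theorem g9_fold_real (x : ℝ) : fold (x : ℂ) = x := by
  unfold fold
  simp

private theorem g9_fold_conj (w : ℂ) : fold (conj w) = fold w := by
  unfold fold
  by_cases h1 : 0 ≤ w.im
  · by_cases h2 : 0 ≤ (conj w).im
    · rw [if_pos h2, if_pos h1]
      rw [conj_im] at h2
      have h3 : w.im = 0 := by linarith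
      apply Complex.ext
      · simp
      · simp [h3]
    · rw [if_neg h2, if_pos h1, conj_conj]
  · have h2 : 0 ≤ (conj w).im := by
      rw [conj_im]
      linarith
    rw [if_pos h2, if_neg h1]

private theorem g9_fold_h (q : RQ) (w : ℂ) :
    fold (q.h.eval (fold w)) = fold (q.h.eval w) := by
  by_cases h1 : 0 ≤ w.im
  · have : fold w = w := by
      unfold fold
      rw [if_pos h1]
    rw [this]
  · have : fold w = conj w := by
      unfold fold
      rw [if_neg h1]
    rw [this, q.h_conj, g9_fold_conj]

private theorem g9_orbit (q : RQ) {S : TS} (hS : IsTS q S) {A : XS S}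
    (hX : mm q.v q.v ∈ A.X) (n : ℕ) :
    mm q.v (fold ((fun w => q.h.eval w)^[n + 1] q.c)) ∈ A.X := by
  induction n with
  | zero =>
    have h1 : (fun w => q.h.eval w)^[0 + 1] q.c = q.v := rfl
    rw [h1]
    have h2 : fold q.v = q.v := by
      unfold fold
      rw [if_pos q.vpos.le]
    rw [h2]
    exact hX
  | succ n ih =>
    rw [Function.iterate_succ_apply']
    have h1 := A.FX ih
    rw [hS.F_eq _ (fold_mem _), g9_fold_h] at h1
    exact h1

private theorem g9_conj_iter (q : RQ) (n : ℕ) (z : ℂ) :
    (fun w => q.h.eval w)^[n] (conj z) = conj ((fun w => q.h.eval w)^[n] z) := by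
  induction n with
  | zero => rfl
  | succ n ih =>
    rw [Function.iterate_succ_apply', Function.iterate_succ_apply', ih]
    exact q.h_conj _

private theorem g9_not_basin (q : RQ) {S : TS} (hS : IsTS q S) {A : XS S}
    (hfix : q.p.eval q.r = q.r) (hX : mm q.v q.v ∈ A.X) (hr : ec S.κ ∉ A.X) :
    q.c ∉ basin q.h q.r := by
  intro hc
  have hc' : Tendsto (fun n : ℕ => (fun w => q.h.eval w)^[n] q.c) atTop (𝓝 (q.r : ℂ)) := hc
  have h1 : Tendsto (fun n : ℕ => fold ((fun w => q.h.eval w)^[n + 1] q.c)) atTop
      (𝓝 (q.r : ℂ)) := by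
    have h2 := (fold_cont.tendsto (q.r : ℂ)).comp (hc'.comp (tendsto_add_atTop_nat 1))
    rw [g9_fold_real] at h2
    exact h2
  have hrH : (q.r : ℂ) ∈ HH := by simp [HH]
  have h3 : Tendsto (fun n : ℕ => fold ((fun w => q.h.eval w)^[n + 1] q.c)) atTop
      (𝓝[HH] (q.r : ℂ)) :=
    tendsto_nhdsWithin_iff.2 ⟨h1, Eventually.of_forall fun n => fold_mem _⟩
  have h4 := (mm_cont q.vpos _ hrH).tendsto.comp h3
  have h5 : mm q.v q.r ∈ A.X :=
    A.closedX.mem_of_tendsto h4 (Eventually.of_forall fun n => g9_orbit q hS hX n)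
  apply hr
  rw [hS.κ_eq, RQ.vr, hfix, ← mm_real q.vpos]
  exact h5

theorem marked_of (q : RQ) {S : TS} (hS : IsTS q S) {A : XS S} {B : Br S A} {D : BD B}
    {χ : ℂ → ℂ} (h : MB q D χ) (hfix : q.p.eval q.r = q.r) (hM : IsMarking q.h q.r χ)
    (hJ : IsConnected (julia q.h)) (hX : mm q.v q.v ∈ A.X) (hr : ec S.κ ∉ A.X) :
    Marked 4 q.h q.r where
  deg := q.natDegree
  conn := hJ
  fix := by rw [q.h_real, hfix]
  crit := (q.crit_iff _).2 (Or.inl rfl)
  locdeg := by
    have h1 : q.h.derivative = C (4 * (q.p.leadingCoeff : ℂ)) * (X - C (q.r : ℂ)) *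
        (X - C q.c) * (X - C (conj q.c)) := by
      apply Polynomial.funext
      intro z
      have h2 := q.der z
      rw [RQ.h, h2]
      simp only [eval_mul, eval_C, eval_sub, eval_X]
    rw [h1]
    have h3 : (q.r : ℂ) - q.c ≠ 0 := by
      intro h4
      have h5 : (q.r : ℂ) = q.c := sub_eq_zero.1 h4
      have h6 := q.hc
      rw [← h5] at h6
      simp at h6
    have h3' : (q.r : ℂ) - conj q.c ≠ 0 := by
      intro h4
      have h5 : (q.r : ℂ) = conj q.c := sub_eq_zero.1 h4
      have h6 := congrArg Complex.im h5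
      have h7 := q.hc
      simp at h6
      linarith
    have h4 : (4 * (q.p.leadingCoeff : ℂ)) ≠ 0 := by
      have := q.lead
      have h5 : (q.p.leadingCoeff : ℂ) ≠ 0 := by
        exact_mod_cast this.ne'
      exact mul_ne_zero (by norm_num) h5
    simp only [derivative_mul, derivative_C, derivative_sub, derivative_X, eval_add, eval_mul,
      eval_C, eval_sub, eval_X, sub_self, mul_zero, zero_mul, zero_add,
      add_zero, sub_zero, mul_one]
    exact mul_ne_zero (mul_ne_zero h4 h3) h3'
  only := by
    intro c hc hb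
    rcases (q.crit_iff c).1 hc with h1 | h1 | h1
    · exact h1
    · exfalso
      subst h1
      exact g9_not_basin q hS hfix hX hr hb
    · exfalso
      subst h1
      apply g9_not_basin q hS hfix hX hr
      have hb' : Tendsto (fun n : ℕ => (fun w => q.h.eval w)^[n] (conj q.c)) atTop
        (𝓝 (q.r : ℂ)) := hb
      have h2 := (continuous_conj.tendsto (q.r : ℂ)).comp hb'
      rw [conj_ofReal] at h2
      have h3 : (fun x : ℂ => conj x) ∘ (fun n : ℕ => (fun w => q.h.eval w)^[n] (conj q.c)) =
          fun n : ℕ => (fun w => q.h.eval w)^[n] q.c := by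
        funext n
        simp only [Function.comp]
        rw [g9_conj_iter, conj_conj]
      rw [h3] at h2
      exact h2
  disc := by
    have _ := h
    have h1 : closure (immBasin q.h q.r) = χ '' closedBall 0 1 := by
      rw [← hM.img]
      apply Subset.antisymm
      · apply closure_minimal
        · exact image_mono ball_subset_closedBall
        · exact ((isCompact_closedBall (0 : ℂ) 1).image_of_continuousOn hM.cont).isClosed
      · have h2 : closure (ball (0 : ℂ) 1) = closedBall 0 1 := closure_ball 0 one_ne_zero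
        have h3 : ContinuousOn χ (closure (ball (0 : ℂ) 1)) := by
          rw [h2]
          exact hM.cont
        have h4 := h3.image_closure
        rwa [h2] at h4
    rw [h1]
    let e : closedBall (0 : ℂ) 1 ≃ (χ '' closedBall 0 1) :=
      Equiv.Set.imageOfInjOn χ (closedBall 0 1) hM.inj
    have he : Continuous e := by
      apply Continuous.subtype_mk
      exact continuousOn_iff_continuous_domRestrict.1 hM.cont
    have : CompactSpace (closedBall (0 : ℂ) 1) :=
      isCompact_iff_compactSpace.1 (isCompact_closedBall (0 : ℂ) 1)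
    exact ⟨(he.homeoOfEquivCompactToT2).symm⟩

end

end Pool.TU
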