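import Pool.Agent.Helper71.TU.B1

/-! # TU H1: the landing value -/

open Complex Set Filter Topology Metric Polynomial ComplexConjugate Pool.Tuning

namespace Pool.TU

noncomputable section

namespace H1aux

/-- the denominator of the landing value -/
def den (ζ : ℂ) : ℝ := ‖ζ - 2 * (1 - ‖ζ‖)‖ + ‖ζ + 2 * (1 - ‖ζ‖)‖

theorem lvd_eq (ζ : ℂ) : lvd ζ = 4 * ζ.re / den ζ := rfl

theorem den_ge1 (ζ : ℂ) : 2 * ‖ζ‖ ≤ den ζ := by
  have h := norm_add_le (ζ - 2 * (1 - ‖ζ‖)) (ζ + 2 * (1 - ‖ζ‖))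
  have e : ζ - 2 * (1 - ‖ζ‖) + (ζ + 2 * (1 - ‖ζ‖)) = 2 * ζ := by ring
  rw [e, norm_mul] at h
  simpa [den] using h

theorem den_ge2 (ζ : ℂ) : 4 * (1 - ‖ζ‖) ≤ den ζ := by
  have h := norm_sub_le (ζ + 2 * (1 - ‖ζ‖)) (ζ - 2 * (1 - ‖ζ‖))
  have e : ζ + 2 * (1 - ‖ζ‖) - (ζ - 2 * (1 - ‖ζ‖)) = ((4 * (1 - ‖ζ‖) : ℝ) : ℂ) := by
    push_cast
    ring
  rw [e, norm_real] at h
  have h2 := le_abs_self (4 * (1 - ‖ζ‖))
  rw [Real.norm_eq_abs] at h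
  unfold den
  linarith

theorem den_pos (ζ : ℂ) : 0 < den ζ := by
  have h1 := den_ge1 ζ
  have h2 := den_ge2 ζ
  linarith

theorem den_cont : Continuous den := by
  unfold den
  fun_prop

theorem lvd_continuous : Continuous lvd := by
  have : lvd = fun ζ => 4 * ζ.re / den ζ := rfl
  rw [this]
  exact (continuous_const.mul continuous_re).div den_cont fun ζ => (den_pos ζ).ne'

/-- the landing value in the plane coordinate -/
theorem lvd_plane (z : ℂ) : lvd (ofPlane z) = 4 * z.re / (‖z - 2‖ + ‖z + 2‖) := by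
  have hs : 0 < 1 + ‖z‖ := by positivity
  have hn : ‖ofPlane z‖ = ‖z‖ / (1 + ‖z‖) := by
    unfold ofPlane
    rw [norm_div]
    congr 1
    have : (1 : ℂ) + (‖z‖ : ℂ) = ((1 + ‖z‖ : ℝ) : ℂ) := by push_cast; ring
    rw [this, norm_real, Real.norm_eq_abs, abs_of_pos hs]
  have hc : (1 : ℂ) + (‖z‖ : ℂ) ≠ 0 := by
    have : (1 : ℂ) + (‖z‖ : ℂ) = ((1 + ‖z‖ : ℝ) : ℂ) := by push_cast; ring
    rw [this]
    exact_mod_cast hs.ne'
  have h1 : ofPlane z - 2 * (1 - ‖ofPlane z‖) = (z - 2) / ((1 + ‖z‖ : ℝ) : ℂ) := by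
    rw [hn]
    unfold ofPlane
    push_cast
    field_simp
    ring
  have h2 : ofPlane z + 2 * (1 - ‖ofPlane z‖) = (z + 2) / ((1 + ‖z‖ : ℝ) : ℂ) := by
    rw [hn]
    unfold ofPlane
    push_cast
    field_simp
    ring
  have h3 : (ofPlane z).re = z.re / (1 + ‖z‖) := by
    unfold ofPlane
    have : (1 : ℂ) + (‖z‖ : ℂ) = ((1 + ‖z‖ : ℝ) : ℂ) := by push_cast; ring
    rw [this, div_ofReal_re]
  have hd : den (ofPlane z) = (‖z - 2‖ + ‖z + 2‖) / (1 + ‖z‖) := by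
    unfold den
    rw [h1, h2, norm_div, norm_div, norm_real, Real.norm_eq_abs, abs_of_pos hs]
    ring
  have hp : 0 < ‖z - 2‖ + ‖z + 2‖ := by
    have := den_pos (ofPlane z)
    rw [hd] at this
    exact (div_pos_iff_of_pos_right hs).1 this
  rw [lvd_eq, h3, hd]
  field_simp

end H1aux

open H1aux

theorem lvd_cont : ContinuousOn lvd (closedBall 0 1) := lvd_continuous.continuousOn

theorem lvd_mem {ζ : ℂ} (h : ζ ∈ closedBall (0 : ℂ) 1) : lvd ζ ∈ Icc (-2) 2 := by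
  have h1 := den_ge1 ζ
  have h2 := den_pos ζ
  have h3 := abs_le.1 (abs_re_le_norm ζ)
  rw [lvd_eq, mem_Icc, le_div_iff₀ h2, div_le_iff₀ h2]
  constructor <;> linarith

theorem lvd_conj (ζ : ℂ) : lvd (conj ζ) = lvd ζ := by
  have h0 : conj (2 : ℂ) = 2 := by
    have : (2 : ℂ) = ((2 : ℝ) : ℂ) := by norm_num
    rw [this, conj_ofReal]
  have h1 : ‖conj ζ - 2 * (1 - ‖conj ζ‖)‖ = ‖ζ - 2 * (1 - ‖ζ‖)‖ := by
    rw [← Complex.norm_conj (ζ - 2 * (1 - ‖ζ‖))]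
    simp [h0]
  have h2 : ‖conj ζ + 2 * (1 - ‖conj ζ‖)‖ = ‖ζ + 2 * (1 - ‖ζ‖)‖ := by
    rw [← Complex.norm_conj (ζ + 2 * (1 - ‖ζ‖))]
    simp [h0]
  unfold lvd
  rw [h1, h2, conj_re]

theorem lvd_circle {ζ : ℂ} (h : ‖ζ‖ = 1) : lvd ζ = 2 * ζ.re := by
  unfold lvd
  rw [h]
  simp only [ofReal_one, sub_self, mul_zero, sub_zero, add_zero, h]
  ring

theorem lvd_nonneg {ζ : ℂ} (h : ζ ∈ closedBall (0 : ℂ) 1) : 0 ≤ lvd ζ ↔ 0 ≤ ζ.re := by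
  have h2 := den_pos ζ
  rw [lvd_eq, le_div_iff₀ h2]
  constructor <;> intro h <;> linarith

theorem lvd_nonpos {ζ : ℂ} (h : ζ ∈ closedBall (0 : ℂ) 1) : lvd ζ ≤ 0 ↔ ζ.re ≤ 0 := by
  have h2 := den_pos ζ
  rw [lvd_eq, div_le_iff₀ h2]
  constructor <;> intro h <;> linarith

theorem lvd_ofPlane {t : ℝ} (ht : t ∈ Icc (-2 : ℝ) 2) : lvd (ofPlane t) = t := by
  rw [lvd_plane]
  have h1 : ‖(t : ℂ) - 2‖ = 2 - t := by
    have : (t : ℂ) - 2 = ((t - 2 : ℝ) : ℂ) := by push_cast; ring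
    rw [this, norm_real, Real.norm_eq_abs, abs_of_nonpos (by linarith [ht.2])]
    ring
  have h2 : ‖(t : ℂ) + 2‖ = 2 + t := by
    have : (t : ℂ) + 2 = ((t + 2 : ℝ) : ℂ) := by push_cast; ring
    rw [this, norm_real, Real.norm_eq_abs, abs_of_nonneg (by linarith [ht.1])]
    ring
  rw [h1, h2, ofReal_re]
  ring

end

end Pool.TU
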