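import Pool.Agent.Helper71.TU.H4

/-! # TU H5: the homeomorphism Lam2 -/

open Complex Set Filter Topology Metric Polynomial ComplexConjugate Pool.Tuning

namespace Pool.TU

noncomputable section

namespace H5aux

/-- the radial factor -/
def ss (ξ : ℂ) : ℝ := 1 - Real.sqrt ‖ξ‖

/-- numerator -/
def WW (ξ : ℂ) : ℂ := ξ - 2 * ((ss ξ ^ 2 : ℝ) : ℂ)

/-- denominator -/
def NN (ξ : ℂ) : ℝ := ss ξ ^ 2 + ‖WW ξ‖

theorem sqrt_lt {ξ : ℂ} : Real.sqrt ‖ξ‖ < 1 ↔ ‖ξ‖ < 1 := by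
  rw [Real.sqrt_lt' one_pos, one_pow]

theorem ss_pos {ξ : ℂ} (h : ‖ξ‖ < 1) : 0 < ss ξ := by
  unfold ss
  have := sqrt_lt.2 h
  linarith

theorem ss_one {ξ : ℂ} (h : ‖ξ‖ = 1) : ss ξ = 0 := by
  unfold ss
  rw [h, Real.sqrt_one, sub_self]

theorem WW_one {ξ : ℂ} (h : ‖ξ‖ = 1) : WW ξ = ξ := by
  unfold WW
  rw [ss_one h]
  simp

theorem NN_pos {ξ : ℂ} (h : ‖ξ‖ ≤ 1) : 0 < NN ξ := by
  unfold NN
  rcases h.lt_or_eq with h | h
  · have := pow_pos (ss_pos h) 2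
    positivity
  · rw [WW_one h, h]
    positivity

theorem ss_cont : Continuous ss := by
  unfold ss
  fun_prop

theorem WW_cont : Continuous WW := by
  unfold WW
  have := ss_cont
  fun_prop

theorem NN_cont : Continuous NN := by
  unfold NN
  have := ss_cont
  have := WW_cont
  fun_prop

theorem cast_sub (ξ : ℂ) : (1 : ℂ) - ((Real.sqrt ‖ξ‖ : ℝ) : ℂ) = ((ss ξ : ℝ) : ℂ) := by
  unfold ss
  push_cast
  ring

/-- the uniform formula -/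
theorem Lam2_eq {ξ : ℂ} (h : ‖ξ‖ ≤ 1) : Lam2 ξ = WW ξ / ((NN ξ : ℝ) : ℂ) := by
  rcases h.lt_or_eq with h | h
  · unfold Lam2
    rw [if_pos h, cast_sub]
    have hs := ss_pos h
    have hN := NN_pos h.le
    have hsc : ((ss ξ : ℝ) : ℂ) ≠ 0 := by exact_mod_cast hs.ne'
    have hNc : ((NN ξ : ℝ) : ℂ) ≠ 0 := by exact_mod_cast hN.ne'
    have e : ξ / ((ss ξ : ℝ) : ℂ) ^ 2 - 2 = WW ξ / ((ss ξ ^ 2 : ℝ) : ℂ) := by
      unfold WW
      push_cast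
      field_simp
    rw [e]
    unfold ofPlane
    rw [norm_div, norm_real, Real.norm_eq_abs, abs_of_pos (pow_pos hs 2)]
    have e2 : (1 : ℂ) + ((‖WW ξ‖ / ss ξ ^ 2 : ℝ) : ℂ) = ((NN ξ : ℝ) : ℂ) / ((ss ξ ^ 2 : ℝ) : ℂ) := by
      unfold NN
      push_cast
      field_simp
    rw [e2]
    have hs2 : ((ss ξ ^ 2 : ℝ) : ℂ) ≠ 0 := by
      exact_mod_cast (pow_pos hs 2).ne'
    field_simp
  · unfold Lam2
    rw [if_neg (by rw [h]; exact lt_irrefl _), WW_one h]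
    unfold NN
    rw [ss_one h, WW_one h, h]
    simp

theorem norm_Lam2 {ξ : ℂ} (h : ‖ξ‖ ≤ 1) : ‖Lam2 ξ‖ = ‖WW ξ‖ / NN ξ := by
  rw [Lam2_eq h, norm_div, norm_real, Real.norm_eq_abs, abs_of_pos (NN_pos h)]

theorem im_Lam2 {ξ : ℂ} (h : ‖ξ‖ ≤ 1) : (Lam2 ξ).im = ξ.im / NN ξ := by
  rw [Lam2_eq h, div_ofReal_im]
  congr 1
  unfold WW
  rw [sub_im]
  have : (2 * ((ss ξ ^ 2 : ℝ) : ℂ)).im = 0 := by
    rw [show (2 : ℂ) * ((ss ξ ^ 2 : ℝ) : ℂ) = ((2 * ss ξ ^ 2 : ℝ) : ℂ) by push_cast; ring]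
    exact ofReal_im _
  rw [this, sub_zero]

theorem ofPlane_toPlane {ζ : ℂ} (h : ‖ζ‖ < 1) : ofPlane (toPlane ζ) = ζ := by
  have h1 : (0 : ℝ) < 1 - ‖ζ‖ := by linarith
  have hc : (1 : ℂ) - (‖ζ‖ : ℂ) = ((1 - ‖ζ‖ : ℝ) : ℂ) := by push_cast; ring
  have h3 : (1 : ℂ) - (‖ζ‖ : ℂ) ≠ 0 := by
    rw [hc]
    exact_mod_cast h1.ne'
  have hn : ‖toPlane ζ‖ = ‖ζ‖ / (1 - ‖ζ‖) := by
    unfold toPlane
    rw [norm_div, hc, norm_real, Real.norm_eq_abs, abs_of_pos h1]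
  unfold ofPlane
  rw [hn]
  unfold toPlane
  push_cast
  field_simp
  ring

theorem toPlane_ofPlane (z : ℂ) : toPlane (ofPlane z) = z := by
  have h1 : (0 : ℝ) < 1 + ‖z‖ := by positivity
  have hc : (1 : ℂ) + (‖z‖ : ℂ) = ((1 + ‖z‖ : ℝ) : ℂ) := by push_cast; ring
  have h3 : (1 : ℂ) + (‖z‖ : ℂ) ≠ 0 := by
    rw [hc]
    exact_mod_cast h1.ne'
  have hn : ‖ofPlane z‖ = ‖z‖ / (1 + ‖z‖) := by
    unfold ofPlane
    rw [norm_div, hc, norm_real, Real.norm_eq_abs, abs_of_pos h1]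
  unfold toPlane
  rw [hn]
  unfold ofPlane
  push_cast
  field_simp
  ring

/-- radial map -/
def rad (ξ : ℂ) : ℂ := ξ / (1 - (Real.sqrt ‖ξ‖ : ℝ)) ^ 2

/-- inverse radial map -/
def dar (y : ℂ) : ℂ := y / (((1 + Real.sqrt ‖y‖) ^ 2 : ℝ) : ℂ)

theorem norm_dar (y : ℂ) : ‖dar y‖ = (Real.sqrt ‖y‖ / (1 + Real.sqrt ‖y‖)) ^ 2 := by
  unfold dar
  have h1 : 0 ≤ Real.sqrt ‖y‖ := Real.sqrt_nonneg _
  have h2 : Real.sqrt ‖y‖ ^ 2 = ‖y‖ := Real.sq_sqrt (norm_nonneg _)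
  rw [norm_div, norm_real, Real.norm_eq_abs, abs_of_nonneg (by positivity), div_pow, h2]

theorem sqrt_dar (y : ℂ) : Real.sqrt ‖dar y‖ = Real.sqrt ‖y‖ / (1 + Real.sqrt ‖y‖) := by
  rw [norm_dar]
  have h1 : 0 ≤ Real.sqrt ‖y‖ := Real.sqrt_nonneg _
  exact Real.sqrt_sq (by positivity)

theorem norm_dar_lt (y : ℂ) : ‖dar y‖ < 1 := by
  have h1 : 0 ≤ Real.sqrt ‖y‖ := Real.sqrt_nonneg _
  rw [← sqrt_lt, sqrt_dar, div_lt_one (by positivity)]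
  linarith

theorem rad_dar (y : ℂ) : rad (dar y) = y := by
  unfold rad
  rw [sqrt_dar]
  have h1 : 0 ≤ Real.sqrt ‖y‖ := Real.sqrt_nonneg _
  have h2 : (1 : ℝ) + Real.sqrt ‖y‖ ≠ 0 := by positivity
  have h3 : (1 : ℂ) + (Real.sqrt ‖y‖ : ℂ) ≠ 0 := by
    have : ((1 + Real.sqrt ‖y‖ : ℝ) : ℂ) ≠ 0 := by exact_mod_cast h2
    push_cast at this
    exact this
  unfold dar
  push_cast
  field_simp
  ring

theorem norm_rad {ξ : ℂ} (h : ‖ξ‖ < 1) :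
    ‖rad ξ‖ = (Real.sqrt ‖ξ‖ / (1 - Real.sqrt ‖ξ‖)) ^ 2 := by
  unfold rad
  have h2 : Real.sqrt ‖ξ‖ ^ 2 = ‖ξ‖ := Real.sq_sqrt (norm_nonneg _)
  have h3 := ss_pos h
  rw [cast_sub, norm_div, norm_pow, norm_real, Real.norm_eq_abs, abs_of_pos h3, div_pow, h2]
  rfl

theorem dar_rad {ξ : ℂ} (h : ‖ξ‖ < 1) : dar (rad ξ) = ξ := by
  have h1 : 0 ≤ Real.sqrt ‖ξ‖ := Real.sqrt_nonneg _
  have h3 : 0 < 1 - Real.sqrt ‖ξ‖ := ss_pos h
  have h4 : Real.sqrt ‖rad ξ‖ = Real.sqrt ‖ξ‖ / (1 - Real.sqrt ‖ξ‖) := by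
    rw [norm_rad h]
    exact Real.sqrt_sq (by positivity)
  unfold dar
  rw [h4]
  have h5 : (1 : ℝ) + Real.sqrt ‖ξ‖ / (1 - Real.sqrt ‖ξ‖) = 1 / (1 - Real.sqrt ‖ξ‖) := by
    field_simp
    ring
  rw [h5]
  unfold rad
  have h6 : (1 : ℂ) - (Real.sqrt ‖ξ‖ : ℂ) ≠ 0 := by
    have : ((1 - Real.sqrt ‖ξ‖ : ℝ) : ℂ) ≠ 0 := by exact_mod_cast h3.ne'
    push_cast at this
    exact this
  push_cast
  field_simp

theorem Lam2_lt {ξ : ℂ} (h : ‖ξ‖ < 1) : Lam2 ξ = ofPlane (rad ξ - 2) := by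
  unfold Lam2
  rw [if_pos h]
  rfl

theorem fold_of {w : ℂ} (h : 0 ≤ w.im) : fold w = w := by
  unfold fold
  rw [if_pos h]

theorem fold_of_neg {w : ℂ} (h : w.im < 0) : fold w = conj w := by
  unfold fold
  rw [if_neg (not_le.2 h)]

theorem norm_fold (w : ℂ) : ‖fold w‖ = ‖w‖ := by
  unfold fold
  split_ifs
  · rfl
  · exact Complex.norm_conj w

/-- the plane map on the folded square -/
def gg (t : ℝ) (w : ℂ) : ℂ := ofPlane (w / ((t : ℝ) : ℂ) - 2)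

theorem gg_im {t : ℝ} (w : ℂ) :
    (gg t w).im = w.im / t / (1 + ‖w / ((t : ℝ) : ℂ) - 2‖) := by
  unfold gg ofPlane
  have hc : (1 : ℂ) + (‖w / ((t : ℝ) : ℂ) - 2‖ : ℂ) =
      ((1 + ‖w / ((t : ℝ) : ℂ) - 2‖ : ℝ) : ℂ) := by push_cast; ring
  rw [hc, div_ofReal_im, sub_im, div_ofReal_im]
  congr 1
  simp

theorem gg_conj (t : ℝ) (w : ℂ) : gg t (conj w) = conj (gg t w) := by
  have h0 : conj (2 : ℂ) = 2 := Complex.conj_ofNat 2
  have h1 : conj w / ((t : ℝ) : ℂ) - 2 = conj (w / ((t : ℝ) : ℂ) - 2) := by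
    rw [map_sub, map_div₀, conj_ofReal, h0]
  unfold gg ofPlane
  rw [h1, Complex.norm_conj, map_div₀, map_add, map_one, conj_ofReal]

theorem fold_gg {t : ℝ} (ht : 0 < t) (w : ℂ) : fold (gg t w) = gg t (fold w) := by
  have hp : 0 < 1 + ‖w / ((t : ℝ) : ℂ) - 2‖ := by positivity
  rcases le_or_gt 0 w.im with h | h
  · rw [fold_of h, fold_of]
    rw [gg_im]
    positivity
  · rw [fold_of_neg h, fold_of_neg, gg_conj]
    rw [gg_im]
    exact div_neg_of_neg_of_pos (div_neg_of_neg_of_pos h ht) hp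

end H5aux

open H5aux

theorem Lam2_maps : MapsTo Lam2 HD HD := by
  rintro ξ ⟨h1, h2⟩
  refine ⟨?_, ?_⟩
  · rw [norm_Lam2 h1, div_le_one (NN_pos h1)]
    unfold NN
    have := sq_nonneg (ss ξ)
    linarith
  · rw [im_Lam2 h1]
    exact div_nonneg h2 (NN_pos h1).le

theorem Lam2_cont : ContinuousOn Lam2 HD := by
  have h : ContinuousOn (fun ξ : ℂ => WW ξ / ((NN ξ : ℝ) : ℂ)) HD := by
    apply ContinuousOn.div
    · exact WW_cont.continuousOn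
    · exact (continuous_ofReal.comp NN_cont).continuousOn
    · intro ξ hξ
      exact_mod_cast (NN_pos hξ.1).ne'
  exact h.congr fun ξ hξ => Lam2_eq hξ.1

theorem Lam2_circle {ξ : ℂ} (h : ‖ξ‖ = 1) : Lam2 ξ = ξ := by
  unfold Lam2
  rw [if_neg (by rw [h]; exact lt_irrefl _)]

theorem Lam2_norm {ξ : ℂ} (h : ξ ∈ HD) : ‖Lam2 ξ‖ < 1 ↔ ‖ξ‖ < 1 := by
  constructor
  · intro h1
    by_contra hc
    have h2 : ‖ξ‖ = 1 := le_antisymm h.1 (not_lt.1 hc)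
    rw [Lam2_circle h2, h2] at h1
    exact lt_irrefl _ h1
  · intro h1
    rw [norm_Lam2 h.1, div_lt_one (NN_pos h.1)]
    unfold NN
    have := pow_pos (ss_pos h1) 2
    linarith

theorem Lam2_bij : BijOn Lam2 HD HD := by
  refine ⟨Lam2_maps, ?_, ?_⟩
  · intro ξ hξ ξ' hξ' h
    by_cases h1 : ‖ξ‖ < 1
    · have h2 : ‖ξ'‖ < 1 := by
        rw [← Lam2_norm hξ', ← h, Lam2_norm hξ]
        exact h1
      rw [Lam2_lt h1, Lam2_lt h2] at h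
      have h3 := congrArg toPlane h
      rw [toPlane_ofPlane, toPlane_ofPlane] at h3
      have h4 : rad ξ = rad ξ' := by linear_combination h3
      rw [← dar_rad h1, ← dar_rad h2, h4]
    · have h2 : ¬ ‖ξ'‖ < 1 := by
        rw [← Lam2_norm hξ', ← h, Lam2_norm hξ]
        exact h1
      have h3 : ‖ξ‖ = 1 := le_antisymm hξ.1 (not_lt.1 h1)
      have h4 : ‖ξ'‖ = 1 := le_antisymm hξ'.1 (not_lt.1 h2)
      rw [← Lam2_circle h3, ← Lam2_circle h4, h]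
  · intro ζ hζ
    by_cases h1 : ‖ζ‖ < 1
    · refine ⟨dar (toPlane ζ + 2), ⟨(norm_dar_lt _).le, ?_⟩, ?_⟩
      · have h2 : 0 < (1 + Real.sqrt ‖toPlane ζ + 2‖) ^ 2 := by
          have := Real.sqrt_nonneg ‖toPlane ζ + 2‖
          positivity
        have h3 : 0 ≤ (toPlane ζ + 2).im := by
          have hc : (1 : ℂ) - (‖ζ‖ : ℂ) = ((1 - ‖ζ‖ : ℝ) : ℂ) := by push_cast; ring
          have h4 : (toPlane ζ).im = ζ.im / (1 - ‖ζ‖) := by
            unfold toPlane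
            rw [hc, div_ofReal_im]
          have h5 : (0 : ℝ) < 1 - ‖ζ‖ := by linarith
          have h6 : 0 ≤ ζ.im := hζ.2
          rw [add_im, h4]
          simp
          positivity
        unfold dar
        rw [div_ofReal_im]
        exact div_nonneg h3 h2.le
      · rw [Lam2_lt (norm_dar_lt _), rad_dar, add_sub_cancel_right, ofPlane_toPlane h1]
    · have h3 : ‖ζ‖ = 1 := le_antisymm hζ.1 (not_lt.1 h1)
      exact ⟨ζ, hζ, Lam2_circle h3⟩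

theorem Lam2_real {ξ : ℂ} (h : ξ ∈ HD) : (Lam2 ξ).im = 0 ↔ ξ.im = 0 := by
  rw [im_Lam2 h.1, div_eq_zero_iff]
  constructor
  · rintro (h1 | h1)
    · exact h1
    · exact absurd h1 (NN_pos h.1).ne'
  · exact Or.inl

theorem Lam2_mono : StrictMonoOn (fun t : ℝ => (Lam2 t).re) (Icc (-1) 1) := by
  have hmem : ∀ t ∈ Icc (-1 : ℝ) 1, (t : ℂ) ∈ HD := by
    intro t ht
    refine ⟨?_, ?_⟩
    · rw [norm_real, Real.norm_eq_abs]
      exact abs_le.2 ht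
    · simp
  refine ContinuousOn.strictMonoOn_of_injOn_Icc (by norm_num) ?_ ?_ ?_
  · show (Lam2 ((-1 : ℝ) : ℂ)).re ≤ (Lam2 ((1 : ℝ) : ℂ)).re
    rw [Lam2_circle (by simp), Lam2_circle (by simp), ofReal_re, ofReal_re]
    norm_num
  · exact continuous_re.comp_continuousOn
      (Lam2_cont.comp continuous_ofReal.continuousOn fun t ht => hmem t ht)
  · intro t ht t' ht' h
    have h1 : Lam2 (t : ℂ) = Lam2 (t' : ℂ) := by
      refine Complex.ext h ?_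
      rw [(Lam2_real (hmem t ht)).2 (ofReal_im _), (Lam2_real (hmem t' ht')).2 (ofReal_im _)]
    have h2 := Lam2_bij.injOn (hmem t ht) (hmem t' ht') h1
    exact_mod_cast h2

theorem Lam2_zero : Lam2 0 = ofPlane (-2) := by
  rw [Lam2_lt (by simp)]
  unfold rad
  simp

theorem fold_diskMap {ζ : ℂ} (h : ζ ∈ HD) : fold (diskMap (-2) ζ) = Lam2 (sqf ζ) := by
  have hn : ‖sqf ζ‖ = ‖ζ‖ ^ 2 := by
    unfold sqf
    rw [norm_fold, norm_pow]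
  by_cases h1 : ‖ζ‖ < 1
  · have h2 : ‖sqf ζ‖ < 1 := by
      rw [hn]
      exact pow_lt_one₀ (norm_nonneg _) h1 (by norm_num)
    have h3 : (0 : ℝ) < (1 - ‖ζ‖) ^ 2 := pow_pos (by linarith) 2
    have e1 : diskMap (-2) ζ = gg ((1 - ‖ζ‖) ^ 2) (ζ ^ 2) := by
      unfold diskMap gg toPlane
      rw [if_pos h1]
      congr 1
      push_cast
      rw [div_pow]
      ring
    have e2 : Lam2 (sqf ζ) = gg ((1 - ‖ζ‖) ^ 2) (sqf ζ) := by
      rw [Lam2_lt h2]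
      unfold gg rad
      rw [hn, Real.sqrt_sq (norm_nonneg _)]
      push_cast
      rfl
    rw [e1, e2, fold_gg h3]
    rfl
  · have h3 : ‖ζ‖ = 1 := le_antisymm h.1 (not_lt.1 h1)
    have h4 : ‖sqf ζ‖ = 1 := by rw [hn, h3, one_pow]
    rw [Lam2_circle h4]
    unfold diskMap
    rw [if_neg h1]
    rfl

end

end Pool.TU
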