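import Pool.Agent.Helper71.TU.AllDefs
import Pool.Agent.Helper71.TU.H2

/-! # TU K1: uniqueness of the Böttcher parametrisation -/

open Complex Set Filter Topology Metric Polynomial ComplexConjugate Pool.Tuning

namespace Pool.TU

noncomputable section

theorem TopConj.symm {P Q : ℂ[X]} (h : TopConj P Q) : TopConj Q P := by
  obtain ⟨φ, hφ⟩ := h
  refine ⟨φ.symm, fun z => ?_⟩
  rw [φ.symm_apply_eq, hφ, φ.apply_symm_apply]

theorem TopConj.trans {P Q R : ℂ[X]} (h : TopConj P Q) (h' : TopConj Q R) : TopConj P R := by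
  obtain ⟨φ, hφ⟩ := h
  obtain ⟨φ', hφ'⟩ := h'
  refine ⟨φ.trans φ', fun z => ?_⟩
  rw [Homeomorph.trans_apply, Homeomorph.trans_apply, hφ, hφ']

theorem TopConj.of_affConj {P Q : ℂ[X]} (h : AffConj P Q) : TopConj P Q := by
  obtain ⟨a, b, ha, h⟩ := h
  refine ⟨{ toFun := fun z => (z - b) / a
            invFun := fun z => a * z + b
            left_inv := fun z => by field_simp; ring
            right_inv := fun z => by field_simp; ring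
            continuous_toFun := by fun_prop
            continuous_invFun := by fun_prop }, fun z => ?_⟩
  show (P.eval z - b) / a = Q.eval ((z - b) / a)
  have h1 := h ((z - b) / a)
  have h2 : a * ((z - b) / a) + b = z := by field_simp; ring
  rw [h2] at h1
  rw [h1]
  field_simp
  ring

theorem K1_preconn : IsPreconnected {ζ : ℂ | 1 < ‖ζ‖} := by
  have h1 : {ζ : ℂ | 1 < ‖ζ‖} = exp '' {z : ℂ | 0 < z.re} := by
    ext ζ
    constructor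
    · intro h
      have h0 : ζ ≠ 0 := by
        rintro rfl
        simp at h
        linarith
      refine ⟨log ζ, ?_, exp_log h0⟩
      show 0 < (log ζ).re
      rw [log_re]
      exact Real.log_pos h
    · rintro ⟨z, hz, rfl⟩
      show 1 < ‖exp z‖
      rw [Complex.norm_exp]
      exact Real.one_lt_exp_iff.2 hz
  rw [h1]
  have hc : Convex ℝ {z : ℂ | 0 < z.re} := convex_halfSpace_re_gt 0
  exact hc.isPreconnected.image _ Complex.continuous_exp.continuousOn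

theorem K1_open : IsOpen {ζ : ℂ | 1 < ‖ζ‖} := isOpen_lt continuous_const continuous_norm

/-- a number all of whose `2^n`-th powers are within `1/2` of `1` equals `1` -/
theorem K1_eq_one {u : ℂ} (h : ∀ n : ℕ, ‖u ^ 2 ^ n - 1‖ < 1 / 2) : u = 1 := by
  have key : ∀ n : ℕ, (3 / 2 : ℝ) ^ n * ‖u - 1‖ ≤ ‖u ^ 2 ^ n - 1‖ := by
    intro n
    induction n with
    | zero => simp
    | succ n ih =>
      have h1 : u ^ 2 ^ (n + 1) - 1 = (u ^ 2 ^ n - 1) * (u ^ 2 ^ n + 1) := by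
        rw [pow_succ 2 n, pow_mul]
        ring
      rw [h1, norm_mul]
      have h2 : (3 / 2 : ℝ) ≤ ‖u ^ 2 ^ n + 1‖ := by
        have h3 : (2 : ℂ) = (u ^ 2 ^ n + 1) - (u ^ 2 ^ n - 1) := by ring
        have h4 : ‖(2 : ℂ)‖ ≤ ‖u ^ 2 ^ n + 1‖ + ‖u ^ 2 ^ n - 1‖ := by
          conv_lhs => rw [h3]
          exact norm_sub_le _ _
        rw [Complex.norm_ofNat] at h4
        have := h n
        linarith
      calc (3 / 2 : ℝ) ^ (n + 1) * ‖u - 1‖ = ((3 / 2 : ℝ) ^ n * ‖u - 1‖) * (3 / 2) := by ring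
        _ ≤ ‖u ^ 2 ^ n - 1‖ * ‖u ^ 2 ^ n + 1‖ :=
          mul_le_mul ih h2 (by norm_num) (norm_nonneg _)
  by_contra hne
  have hpos : 0 < ‖u - 1‖ := norm_pos_iff.2 (sub_ne_zero.2 hne)
  obtain ⟨n, hn⟩ := pow_unbounded_of_one_lt (1 / ‖u - 1‖) (by norm_num : (1 : ℝ) < 3 / 2)
  rw [div_lt_iff₀ hpos] at hn
  have := key n
  have := h n
  linarith

theorem bottcher_unique {ψ : ℂ → ℂ} (h : IsBottcher (-2) ψ) :
    ∀ ζ : ℂ, 1 ≤ ‖ζ‖ → ψ ζ = ζ + ζ⁻¹ := by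
  have hJ := exists_bottcher2
  -- choice of `η`
  have hη : ∀ ζ : ℂ, 1 < ‖ζ‖ → ∃ η : ℂ, 1 < ‖η‖ ∧ η + η⁻¹ = ψ ζ := by
    intro ζ hζ
    have h1 : ψ ζ ∈ (fun ζ : ℂ => ζ + ζ⁻¹) '' {ζ | 1 < ‖ζ‖} := by
      rw [hJ.img, ← h.img]
      exact ⟨ζ, hζ, rfl⟩
    obtain ⟨η, h2, h3⟩ := h1
    exact ⟨η, h2, h3⟩
  choose! η hη1 hη2 using hη
  have hsq : ∀ z : ℂ, 1 < ‖z‖ → 1 < ‖z ^ 2‖ := by
    intro z hz
    rw [norm_pow]
    nlinarith
  have hstep : ∀ ζ : ℂ, 1 < ‖ζ‖ → η (ζ ^ 2) = η ζ ^ 2 := by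
    intro ζ hζ
    have h1 := hη2 (ζ ^ 2) (hsq ζ hζ)
    have h2 := h.conj ζ hζ.le
    have h3 := hJ.conj (η ζ) (hη1 ζ hζ).le
    rw [hη2 ζ hζ, h2] at h3
    exact hJ.inj (hη1 _ (hsq ζ hζ)) (hsq _ (hη1 ζ hζ)) (h1.trans h3)
  have hnorm : ∀ (ζ : ℂ) (n : ℕ), 1 < ‖ζ‖ → ‖ζ‖ ≤ ‖ζ ^ 2 ^ n‖ := by
    intro ζ n hζ
    rw [norm_pow]
    exact le_self_pow₀ hζ.le (by positivity)
  have hpow : ∀ (n : ℕ) (ζ : ℂ), 1 < ‖ζ‖ → η (ζ ^ 2 ^ n) = η ζ ^ 2 ^ n := by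
    intro n
    induction n with
    | zero => intro ζ _; simp
    | succ n ih =>
      intro ζ hζ
      rw [pow_succ 2 n, pow_mul, pow_mul, hstep _ (hζ.trans_le (hnorm ζ n hζ)), ih ζ hζ]
  -- behaviour at infinity
  have hlim : ∀ᶠ ζ in Bornology.cobounded ℂ, ‖η ζ / ζ - 1‖ < 1 / 2 := by
    have e1 : ∀ᶠ ζ in Bornology.cobounded ℂ, ‖ψ ζ / ζ - 1‖ < 1 / 4 := by
      have := (Metric.tendsto_nhds.1 h.infty) (1 / 4) (by norm_num)
      simpa only [dist_eq_norm] using this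
    have e2 : ∀ᶠ ζ : ℂ in Bornology.cobounded ℂ, 4 < ‖ζ‖ :=
      (tendsto_norm_cobounded_atTop).eventually (eventually_gt_atTop 4)
    filter_upwards [e1, e2] with ζ h1 h2
    have hζ1 : 1 < ‖ζ‖ := by linarith
    have h3 : ‖η ζ - ψ ζ‖ < 1 := by
      rw [← hη2 ζ hζ1]
      have : η ζ - (η ζ + (η ζ)⁻¹) = -(η ζ)⁻¹ := by ring
      rw [this, norm_neg, norm_inv]
      exact inv_lt_one_of_one_lt₀ (hη1 ζ hζ1)
    have h4 : ‖(η ζ - ψ ζ) / ζ‖ < 1 / 4 := by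
      rw [norm_div, div_lt_iff₀ (by linarith)]
      linarith
    have h5 : η ζ / ζ - 1 = (η ζ - ψ ζ) / ζ + (ψ ζ / ζ - 1) := by ring
    rw [h5]
    exact (norm_add_le _ _).trans_lt (by linarith)
  obtain ⟨M, hM⟩ : ∃ M : ℝ, ∀ ζ : ℂ, M < ‖ζ‖ → ‖η ζ / ζ - 1‖ < 1 / 2 := by
    have := (Filter.hasBasis_cobounded_norm (E := ℂ)).eventually_iff.1 hlim
    obtain ⟨M, -, hM⟩ := this
    exact ⟨M, fun ζ hζ => hM hζ.le⟩
  have hbig : ∀ ζ : ℂ, max M 1 < ‖ζ‖ → ψ ζ = ζ + ζ⁻¹ := by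
    intro ζ hζ
    have hζM : M < ‖ζ‖ := (le_max_left _ _).trans_lt hζ
    have hζ1 : 1 < ‖ζ‖ := (le_max_right _ _).trans_lt hζ
    have h0 : ζ ≠ 0 := by
      rintro rfl
      rw [norm_zero] at hζ1
      linarith
    have hu : η ζ / ζ = 1 := by
      refine K1_eq_one fun n => ?_
      rw [div_pow, ← hpow n ζ hζ1]
      exact hM _ (hζM.trans_le (hnorm ζ n hζ1))
    have : η ζ = ζ := by
      rw [div_eq_one_iff_eq h0] at hu
      exact hu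
    rw [← hη2 ζ hζ1, this]
  -- identity theorem
  have hopen : ∀ ζ : ℂ, 1 < ‖ζ‖ → ψ ζ = ζ + ζ⁻¹ := by
    have a1 : AnalyticOnNhd ℂ ψ {ζ | 1 < ‖ζ‖} := h.holo.analyticOnNhd K1_open
    have a2 : AnalyticOnNhd ℂ (fun ζ : ℂ => ζ + ζ⁻¹) {ζ | 1 < ‖ζ‖} :=
      hJ.holo.analyticOnNhd K1_open
    set z0 : ℂ := ((max M 1 + 1 : ℝ) : ℂ) with hz0
    have hz0n : ‖z0‖ = max M 1 + 1 := by
      rw [hz0, Complex.norm_real, Real.norm_of_nonneg]
      have := le_max_right M 1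
      linarith
    have hz0m : z0 ∈ {ζ : ℂ | 1 < ‖ζ‖} := by
      show 1 < ‖z0‖
      rw [hz0n]
      have := le_max_right M 1
      linarith
    have hev : ψ =ᶠ[𝓝 z0] fun ζ : ℂ => ζ + ζ⁻¹ := by
      have : {ζ : ℂ | max M 1 < ‖ζ‖} ∈ 𝓝 z0 := by
        refine (isOpen_lt continuous_const continuous_norm).mem_nhds ?_
        show max M 1 < ‖z0‖
        rw [hz0n]
        linarith
      filter_upwards [this] with ζ hζ
      exact hbig ζ hζ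
    exact fun ζ hζ => a1.eqOn_of_preconnected_of_eventuallyEq a2 K1_preconn hz0m hev hζ
  -- the circle
  have hcl : {ζ : ℂ | 1 ≤ ‖ζ‖} ⊆ closure {ζ : ℂ | 1 < ‖ζ‖} := by
    intro ζ hζ
    have hζ' : 1 ≤ ‖ζ‖ := hζ
    have t1 : Tendsto (fun n : ℕ => (1 + 1 / ((n : ℂ) + 1)) * ζ) atTop (𝓝 ((1 + 0) * ζ)) := by
      refine Tendsto.mul_const _ ?_
      refine Tendsto.const_add _ ?_
      exact tendsto_one_div_add_atTop_nhds_zero_nat
    rw [add_zero, one_mul] at t1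
    refine mem_closure_of_tendsto t1 (Eventually.of_forall fun n => ?_)
    show 1 < ‖(1 + 1 / ((n : ℂ) + 1)) * ζ‖
    rw [norm_mul]
    have h2 : (1 : ℂ) + 1 / ((n : ℂ) + 1) = ((1 + 1 / ((n : ℝ) + 1) : ℝ) : ℂ) := by
      push_cast
      rfl
    rw [h2, Complex.norm_real, Real.norm_of_nonneg (by positivity)]
    have h3 : (0 : ℝ) < 1 / ((n : ℝ) + 1) := by positivity
    nlinarith
  have hfin : EqOn ψ (fun ζ : ℂ => ζ + ζ⁻¹) {ζ : ℂ | 1 ≤ ‖ζ‖} := by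
    refine EqOn.of_subset_closure (s := {ζ : ℂ | 1 < ‖ζ‖}) (fun ζ hζ => hopen ζ hζ) h.cont
      hJ.cont ?_ hcl
    intro ζ hζ
    have h1 : 1 < ‖ζ‖ := hζ
    exact h1.le
  exact fun ζ hζ => hfin hζ

end

end Pool.TU
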