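import Pool.Agent.Helper71.TU.AllDefs

/-! # TU K2: uniqueness of the marking -/

open Complex Set Filter Topology Metric Polynomial ComplexConjugate Pool.Tuning

namespace Pool.TU

noncomputable section

/-- open mapping at every point of the domain -/
private theorem k2_open {f : ℂ → ℂ} {U : Set ℂ} (hU : IsOpen U)
    (hf : DifferentiableOn ℂ f U) (hi : InjOn f U) {z : ℂ} (hz : z ∈ U) :
    𝓝 (f z) ≤ map f (𝓝 z) := by
  have ha : AnalyticAt ℂ f z := hf.analyticAt (hU.mem_nhds hz)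
  rcases ha.eventually_constant_or_nhds_le_map_nhds with h | h
  · exfalso
    have h2 : ∀ᶠ w in 𝓝 z, f w = f z ∧ w ∈ U := h.and (hU.mem_nhds hz)
    have h3 : ∃ w, (f w = f z ∧ w ∈ U) ∧ w ≠ z := by
      have h4 : ∀ᶠ w in 𝓝[≠] z, (f w = f z ∧ w ∈ U) ∧ w ≠ z :=
        (h2.filter_mono nhdsWithin_le_nhds).and self_mem_nhdsWithin
      exact h4.exists
    obtain ⟨w, ⟨h5, h6⟩, h7⟩ := h3
    exact h7 (hi h6 hz h5)
  · exact h

/-- the inverse function is continuous -/
private theorem k2_inv_cont {f : ℂ → ℂ} {U : Set ℂ} (hU : IsOpen U)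
    (hf : DifferentiableOn ℂ f U) (hi : InjOn f U) {z : ℂ} (hz : z ∈ U) :
    Tendsto (Function.invFunOn f U) (𝓝 (f z)) (𝓝 z) := by
  refine (Filter.Tendsto.mono_left ?_ (k2_open hU hf hi hz))
  rw [Filter.tendsto_map'_iff]
  have h : (Function.invFunOn f U ∘ f) =ᶠ[𝓝 z] id := by
    filter_upwards [hU.mem_nhds hz] with w hw
    exact hi.leftInvOn_invFunOn hw
  exact (tendsto_congr' h).mpr tendsto_id

private theorem k2_right {f : ℂ → ℂ} {U : Set ℂ} (hU : IsOpen U)
    (hf : DifferentiableOn ℂ f U) (hi : InjOn f U) {z : ℂ} (hz : z ∈ U) :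
    ∀ᶠ w in 𝓝 (f z), f (Function.invFunOn f U w) = w ∧ Function.invFunOn f U w ∈ U := by
  have h : f '' U ∈ 𝓝 (f z) := k2_open hU hf hi hz (image_mem_map (hU.mem_nhds hz))
  filter_upwards [h] with w hw
  exact ⟨Function.invFunOn_eq hw, Function.invFunOn_mem hw⟩

private theorem k2_inv_deriv {f : ℂ → ℂ} {U : Set ℂ} (hU : IsOpen U)
    (hf : DifferentiableOn ℂ f U) (hi : InjOn f U) {z : ℂ} (hz : z ∈ U) (h0 : deriv f z ≠ 0) :
    HasDerivAt (Function.invFunOn f U) (deriv f z)⁻¹ (f z) := by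
  have hl : Function.invFunOn f U (f z) = z := hi.leftInvOn_invFunOn hz
  have h1 : ContinuousAt (Function.invFunOn f U) (f z) := by
    have := k2_inv_cont hU hf hi hz
    unfold ContinuousAt
    rwa [hl]
  refine HasDerivAt.of_local_left_inverse (f := f) h1 ?_ h0 ?_
  · rw [hl]
    exact (hf.differentiableAt (hU.mem_nhds hz)).hasDerivAt
  · filter_upwards [k2_right hU hf hi hz] with w hw
    exact hw.1

/-- an injective holomorphic function has nonvanishing derivative -/
theorem deriv_ne_zero_of_inj {f : ℂ → ℂ} {U : Set ℂ} (hU : IsOpen U)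
    (hf : DifferentiableOn ℂ f U) (hi : InjOn f U) : ∀ z ∈ U, deriv f z ≠ 0 := by
  intro z hz
  have ha : AnalyticAt ℂ f z := hf.analyticAt (hU.mem_nhds hz)
  have hl : Function.invFunOn f U (f z) = z := hi.leftInvOn_invFunOn hz
  -- the derivative does not vanish identically near `z`
  have h1 : ∀ᶠ w in 𝓝[≠] z, deriv f w ≠ 0 := by
    rcases ha.deriv.eventually_eq_zero_or_eventually_ne_zero with h | h
    · exfalso
      obtain ⟨ε, hε, hb⟩ := Metric.eventually_nhds_iff_ball.mp (h.and (hU.mem_nhds hz))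
      have hconst : ∀ w ∈ ball z ε, f w = f z := by
        intro w hw
        refine (convex_ball z ε).is_const_of_fderivWithin_eq_zero (𝕜 := ℂ) (f := f) ?_ ?_ hw
          (mem_ball_self hε)
        · exact hf.mono (fun x hx => (hb x hx).2)
        · intro x hx
          have hxd : DifferentiableAt ℂ f x :=
            hf.differentiableAt (hU.mem_nhds (hb x hx).2)
          rw [fderivWithin_of_isOpen isOpen_ball hx]
          have h5 := (hb x hx).1
          ext
          rw [fderiv_apply_one_eq_deriv, h5]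
          simp
      have hw : z + (ε / 2 : ℝ) ∈ ball z ε := by
        rw [mem_ball, dist_eq_norm]
        simp only [add_sub_cancel_left, Complex.norm_real, Real.norm_eq_abs]
        rw [abs_of_pos (by linarith)]
        linarith
      have h6 := hi (hb _ hw).2 hz (hconst _ hw)
      have h7 : ((ε / 2 : ℝ) : ℂ) = 0 := by
        simpa using h6
      have h8 : ε / 2 = 0 := by exact_mod_cast h7
      linarith
    · exact h
  -- the inverse is holomorphic at `f z`
  have hg : AnalyticAt ℂ (Function.invFunOn f U) (f z) := by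
    apply Complex.analyticAt_of_differentiable_on_punctured_nhds_of_continuousAt
    · have hc := k2_inv_cont hU hf hi hz
      have h2 : ∀ᶠ w in 𝓝 (f z), w ≠ f z → deriv f (Function.invFunOn f U w) ≠ 0 := by
        rw [eventually_nhdsWithin_iff] at h1
        have h3 := hc.eventually h1
        filter_upwards [h3, k2_right hU hf hi hz] with w hw hw2 hne
        apply hw
        intro h4
        apply hne
        have h5 : Function.invFunOn f U w = z := h4
        rw [← hw2.1, h5]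
      rw [eventually_nhdsWithin_iff]
      filter_upwards [h2, k2_right hU hf hi hz] with w hw hw2 hne
      have h5 := k2_inv_deriv hU hf hi hw2.2 (hw hne)
      rw [hw2.1] at h5
      exact h5.differentiableAt
    · have := k2_inv_cont hU hf hi hz
      unfold ContinuousAt
      rwa [hl]
  have h3 : HasDerivAt (fun w => Function.invFunOn f U (f w))
      (deriv (Function.invFunOn f U) (f z) * deriv f z) z :=
    hg.differentiableAt.hasDerivAt.comp z ha.differentiableAt.hasDerivAt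
  have h4 : HasDerivAt (fun w => Function.invFunOn f U (f w)) 1 z := by
    refine (hasDerivAt_id z).congr_of_eventuallyEq ?_
    filter_upwards [hU.mem_nhds hz] with w hw
    exact hi.leftInvOn_invFunOn hw
  have h5 := h3.unique h4
  intro h6
  rw [h6, mul_zero] at h5
  exact zero_ne_one h5

private theorem k2_holo {f : ℂ → ℂ} {U : Set ℂ} (hU : IsOpen U)
    (hf : DifferentiableOn ℂ f U) (hi : InjOn f U) {w : ℂ} (hw : w ∈ f '' U) :
    DifferentiableAt ℂ (Function.invFunOn f U) w := by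
  obtain ⟨z, hz, rfl⟩ := hw
  exact (k2_inv_deriv hU hf hi hz (deriv_ne_zero_of_inj hU hf hi z hz)).differentiableAt

theorem marking_zero {P : ℂ[X]} {ω : ℂ} {χ : ℂ → ℂ} (hω : P.eval ω = ω)
    (h : IsMarking P ω χ) : χ 0 = ω := by
  have h0 : (0 : ℂ) ∈ ball (0 : ℂ) 1 := mem_ball_self one_pos
  have h1 : χ 0 ∈ immBasin P ω := by
    rw [← h.img]
    exact mem_image_of_mem _ h0
  have h2 : χ 0 ∈ basin P ω := connectedComponentIn_subset _ _ h1
  have h3 : P.eval (χ 0) = χ 0 := by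
    rw [h.conj 0 (ball_subset_closedBall h0)]
    norm_num
  have h4 : ∀ n : ℕ, (fun w => P.eval w)^[n] (χ 0) = χ 0 := fun n =>
    Function.iterate_fixed (f := fun w => P.eval w) h3 n
  have h5 : Tendsto (fun n : ℕ => (fun w => P.eval w)^[n] (χ 0)) atTop (𝓝 ω) := h2
  simp only [h4] at h5
  exact tendsto_nhds_unique tendsto_const_nhds h5

/-- one side of the comparison of two markings -/
private theorem k2_phi {P : ℂ[X]} {ω : ℂ} {χ χ' : ℂ → ℂ} (hω : P.eval ω = ω)
    (h : IsMarking P ω χ) (h' : IsMarking P ω χ') :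
    DifferentiableOn ℂ (fun ζ => Function.invFunOn χ (ball 0 1) (χ' ζ)) (ball 0 1) ∧
    (∀ ζ ∈ ball (0 : ℂ) 1, Function.invFunOn χ (ball 0 1) (χ' ζ) ∈ ball (0 : ℂ) 1 ∧
      χ (Function.invFunOn χ (ball 0 1) (χ' ζ)) = χ' ζ) ∧
    Function.invFunOn χ (ball 0 1) (χ' 0) = 0 := by
  have hinj : InjOn χ (ball 0 1) := h.inj.mono ball_subset_closedBall
  have hin : ∀ ζ ∈ ball (0 : ℂ) 1, χ' ζ ∈ χ '' ball 0 1 := by
    intro ζ hζ
    rw [h.img, ← h'.img]
    exact mem_image_of_mem _ hζ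
  refine ⟨?_, ?_, ?_⟩
  · intro ζ hζ
    have h1 := k2_holo isOpen_ball h.holo hinj (hin ζ hζ)
    exact (h1.comp ζ (h'.holo.differentiableAt (isOpen_ball.mem_nhds hζ))).differentiableWithinAt
  · intro ζ hζ
    exact ⟨Function.invFunOn_mem (hin ζ hζ), Function.invFunOn_eq (hin ζ hζ)⟩
  · rw [marking_zero hω h', ← marking_zero hω h]
    exact hinj.leftInvOn_invFunOn (mem_ball_self one_pos)

theorem marking_unique {P : ℂ[X]} {ω : ℂ} {χ χ' : ℂ → ℂ} (hω : P.eval ω = ω)
    (h : IsMarking P ω χ) (h' : IsMarking P ω χ') :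
    ∀ ζ ∈ closedBall (0 : ℂ) 1, χ ζ = χ' ζ := by
  obtain ⟨d1, m1, z1⟩ := k2_phi hω h h'
  obtain ⟨d2, m2, z2⟩ := k2_phi hω h' h
  set φ : ℂ → ℂ := fun ζ => Function.invFunOn χ (ball 0 1) (χ' ζ) with hφ
  set φ' : ℂ → ℂ := fun ζ => Function.invFunOn χ' (ball 0 1) (χ ζ) with hφ'
  have hinj' : InjOn χ' (ball 0 1) := h'.inj.mono ball_subset_closedBall
  have n1 : ∀ ζ ∈ ball (0 : ℂ) 1, ‖φ ζ‖ ≤ ‖ζ‖ := fun ζ hζ =>
    Complex.norm_le_norm_of_mapsTo_ball d1
      (fun w hw => ball_subset_closedBall (m1 w hw).1) z1 (mem_ball_zero_iff.mp hζ)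
  have n2 : ∀ ζ ∈ ball (0 : ℂ) 1, ‖φ' ζ‖ ≤ ‖ζ‖ := fun ζ hζ =>
    Complex.norm_le_norm_of_mapsTo_ball d2
      (fun w hw => ball_subset_closedBall (m2 w hw).1) z2 (mem_ball_zero_iff.mp hζ)
  have hcomp : ∀ ζ ∈ ball (0 : ℂ) 1, φ' (φ ζ) = ζ := by
    intro ζ hζ
    apply hinj' (m2 _ (m1 ζ hζ).1).1 hζ
    exact ((m2 _ (m1 ζ hζ).1).2).trans (m1 ζ hζ).2
  have n3 : ∀ ζ ∈ ball (0 : ℂ) 1, ‖φ ζ‖ = ‖ζ‖ := by
    intro ζ hζ
    refine le_antisymm (n1 ζ hζ) ?_
    have := n2 _ (m1 ζ hζ).1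
    rwa [hcomp ζ hζ] at this
  have hhalf : (1 / 2 : ℂ) ∈ ball (0 : ℂ) 1 := by
    rw [mem_ball_zero_iff]
    norm_num
  have hq : (1 / 4 : ℂ) ∈ ball (0 : ℂ) 1 := by
    rw [mem_ball_zero_iff]
    norm_num
  have hφ0 : φ 0 = 0 := z1
  have hd : ‖dslope φ 0 (1 / 2)‖ = (1 : ℝ) / 1 := by
    rw [dslope_of_ne _ (by norm_num), slope_def_module, hφ0, norm_smul, sub_zero, sub_zero,
      n3 _ hhalf, norm_inv]
    norm_num
  have haff := Complex.affine_of_mapsTo_ball_of_norm_dslope_eq_div (f := φ) (c := 0) (R₁ := 1)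
    (R₂ := 1) d1 (fun w hw => by rw [hφ0]; exact ball_subset_closedBall (m1 w hw).1) hhalf hd
  set c : ℂ := dslope φ 0 (1 / 2) with hc
  have hφc : ∀ ζ ∈ ball (0 : ℂ) 1, φ ζ = c * ζ := by
    intro ζ hζ
    have := haff hζ
    simp only [hφ0, zero_add, sub_zero, smul_eq_mul] at this
    rw [this, mul_comm]
  have hcn : ‖c‖ = 1 := by rw [hd]; norm_num
  have hrel : ∀ ζ ∈ ball (0 : ℂ) 1, χ (c * ζ) = χ' ζ := by
    intro ζ hζ
    rw [← hφc ζ hζ]
    exact (m1 ζ hζ).2
  have hmem : ∀ a : ℂ, ‖a‖ ≤ 1 → a ∈ closedBall (0 : ℂ) 1 := fun a ha => by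
    rwa [mem_closedBall_zero_iff]
  have e1 : χ ((c * (1 / 2)) ^ 2) = χ (c * (1 / 4)) := by
    rw [← h.conj (c * (1 / 2)) (hmem _ (by rw [norm_mul, hcn]; norm_num)), hrel _ hhalf,
      h'.conj _ (ball_subset_closedBall hhalf), hrel _ hq]
    norm_num
  have e2 := h.inj (hmem _ (by rw [norm_pow, norm_mul, hcn]; norm_num))
    (hmem _ (by rw [norm_mul, hcn]; norm_num)) e1
  have hc0 : c ≠ 0 := by
    rw [← norm_pos_iff, hcn]
    exact one_pos
  have hc1 : c = 1 := by
    have e3 : c * c = c * 1 := by linear_combination 4 * e2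
    exact mul_left_cancel₀ hc0 e3
  have hball : EqOn χ χ' (ball 0 1) := by
    intro ζ hζ
    have := hrel ζ hζ
    rwa [hc1, one_mul] at this
  have hcl : closedBall (0 : ℂ) 1 ⊆ closure (ball 0 1) := by
    rw [closure_ball (0 : ℂ) one_ne_zero]
  exact hball.of_subset_closure h.cont h'.cont ball_subset_closedBall hcl

/-- the derivative of the marking at `0` (so that the markings depend continuously on the
polynomial) -/
theorem marking_deriv {P : ℂ[X]} {ω : ℂ} {χ : ℂ → ℂ} (hω : P.eval ω = ω)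
    (h : IsMarking P ω χ) : deriv χ 0 = 2 / P.derivative.derivative.eval ω := by
  have hb : ball (0 : ℂ) 1 ∈ 𝓝 (0 : ℂ) := isOpen_ball.mem_nhds (mem_ball_self one_pos)
  have hχ0 := marking_zero hω h
  have hd : DifferentiableAt ℂ χ 0 := h.holo.differentiableAt hb
  have hne : deriv χ 0 ≠ 0 :=
    deriv_ne_zero_of_inj isOpen_ball h.holo (h.inj.mono ball_subset_closedBall) 0
      (mem_ball_self one_pos)
  -- `P' (ω) = 0`
  have hP1 : P.derivative.eval ω = 0 := by
    have h1 : HasDerivAt (fun ζ => P.eval (χ ζ)) (P.derivative.eval ω * deriv χ 0) 0 := by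
      have h2 : HasDerivAt (fun w => P.eval w) (P.derivative.eval (χ 0)) (χ 0) :=
        P.hasDerivAt (χ 0)
      rw [hχ0] at h2
      have h3 : HasDerivAt (fun w => P.eval w) (P.derivative.eval ω) (χ 0) := by
        rw [hχ0]
        exact h2
      exact h3.comp 0 hd.hasDerivAt
    have h2 : HasDerivAt (fun ζ => P.eval (χ ζ)) (deriv χ 0 * 0) 0 := by
      have h3 : HasDerivAt (fun ζ : ℂ => ζ ^ 2) 0 0 := by
        have := hasDerivAt_pow 2 (0 : ℂ)
        simpa using this
      have h4 : HasDerivAt χ (deriv χ 0) ((fun ζ : ℂ => ζ ^ 2) 0) := by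
        simpa using hd.hasDerivAt
      have h5 : HasDerivAt (fun ζ => χ (ζ ^ 2)) (deriv χ 0 * 0) 0 := h4.comp 0 h3
      refine h5.congr_of_eventuallyEq ?_
      filter_upwards [hb] with ζ hζ
      exact h.conj ζ (ball_subset_closedBall hζ)
    have h3 := h1.unique h2
    rw [mul_zero] at h3
    exact (mul_eq_zero.mp h3).resolve_right hne
  -- `P = ω + (X - ω)^2 Q`
  obtain ⟨P1, hP1'⟩ : (X - C ω) ∣ (P - C ω) := by
    rw [dvd_iff_isRoot]
    simp [IsRoot, hω]
  have hder : P.derivative = P1 + (X - C ω) * P1.derivative := by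
    have h1 : (P - C ω).derivative = ((X - C ω) * P1).derivative := by rw [hP1']
    simp only [derivative_sub, derivative_C, sub_zero, derivative_mul, derivative_X,
      one_mul] at h1
    exact h1
  have hP1ω : P1.eval ω = 0 := by
    have h1 := congrArg (eval ω) hder
    rw [hP1] at h1
    simpa using h1.symm
  obtain ⟨Q, hQ⟩ : (X - C ω) ∣ P1 := by
    rw [dvd_iff_isRoot]
    exact hP1ω
  have hQω : P.derivative.derivative.eval ω = 2 * Q.eval ω := by
    rw [hder, hQ]
    simp only [derivative_add, derivative_mul, derivative_sub, derivative_X, derivative_C,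
      sub_zero, one_mul, eval_add, eval_mul, eval_sub, eval_X, eval_C, sub_self, zero_mul,
      add_zero]
    ring
  have hPQ : ∀ z, P.eval z = ω + (z - ω) ^ 2 * Q.eval z := by
    intro z
    have h1 : P = C ω + (X - C ω) * ((X - C ω) * Q) := by
      rw [← hQ, ← hP1']
      ring
    conv_lhs => rw [h1]
    simp only [eval_add, eval_mul, eval_sub, eval_X, eval_C]
    ring
  -- the slope
  have hk : ContinuousAt (dslope χ 0) 0 := continuousAt_dslope_same.mpr hd
  have hks : ∀ ζ, χ ζ - ω = ζ * dslope χ 0 ζ := by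
    intro ζ
    have := sub_smul_dslope χ 0 ζ
    rw [sub_zero, smul_eq_mul, hχ0] at this
    exact this.symm
  have hrel : ∀ᶠ ζ in 𝓝[≠] (0 : ℂ),
      dslope χ 0 ζ ^ 2 * Q.eval (χ ζ) = dslope χ 0 (ζ ^ 2) := by
    rw [eventually_nhdsWithin_iff]
    filter_upwards [hb] with ζ hζ hζ0
    have h1 := h.conj ζ (ball_subset_closedBall hζ)
    rw [hPQ, hks ζ] at h1
    have h2 : χ (ζ ^ 2) = ω + ζ ^ 2 * dslope χ 0 (ζ ^ 2) := by
      rw [← hks (ζ ^ 2)]
      ring
    rw [h2] at h1
    have h3 : ζ ^ 2 ≠ 0 := pow_ne_zero 2 hζ0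
    apply mul_left_cancel₀ h3
    linear_combination h1
  have hlim1 : Tendsto (fun ζ => dslope χ 0 ζ ^ 2 * Q.eval (χ ζ)) (𝓝[≠] 0)
      (𝓝 (deriv χ 0 ^ 2 * Q.eval ω)) := by
    have h1 : Tendsto (dslope χ 0) (𝓝 0) (𝓝 (deriv χ 0)) := by
      have := hk.tendsto
      rwa [dslope_same] at this
    have h2 : Tendsto χ (𝓝 0) (𝓝 ω) := by
      have := hd.continuousAt.tendsto
      rwa [hχ0] at this
    have h3 : Tendsto (fun ζ => Q.eval (χ ζ)) (𝓝 0) (𝓝 (Q.eval ω)) :=
      (Q.continuous.tendsto ω).comp h2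
    exact ((h1.pow 2).mul h3).mono_left nhdsWithin_le_nhds
  have hlim2 : Tendsto (fun ζ : ℂ => dslope χ 0 (ζ ^ 2)) (𝓝[≠] 0) (𝓝 (deriv χ 0)) := by
    have h1 : Tendsto (dslope χ 0) (𝓝 0) (𝓝 (deriv χ 0)) := by
      have := hk.tendsto
      rwa [dslope_same] at this
    have h2 : Tendsto (fun ζ : ℂ => ζ ^ 2) (𝓝 0) (𝓝 0) := by
      have := (continuous_pow 2 : Continuous fun ζ : ℂ => ζ ^ 2).tendsto 0
      simpa using this
    exact (h1.comp h2).mono_left nhdsWithin_le_nhds
  have hlim : deriv χ 0 ^ 2 * Q.eval ω = deriv χ 0 := by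
    refine tendsto_nhds_unique hlim1 (hlim2.congr' ?_)
    filter_upwards [hrel] with ζ hζ
    exact hζ.symm
  have h1 : deriv χ 0 * Q.eval ω = 1 := by
    apply mul_left_cancel₀ hne
    linear_combination hlim
  have hQ0 : Q.eval ω ≠ 0 := by
    intro h2
    rw [h2, mul_zero] at h1
    exact zero_ne_one h1
  rw [hQω]
  field_simp
  linear_combination h1

theorem marking_closure {P : ℂ[X]} {ω : ℂ} {χ : ℂ → ℂ} (h : IsMarking P ω χ) :
    closure (immBasin P ω) = χ '' closedBall 0 1 := by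
  rw [← h.img]
  apply Subset.antisymm
  · refine closure_minimal (image_mono ball_subset_closedBall) ?_
    exact ((isCompact_closedBall (0 : ℂ) 1).image_of_continuousOn h.cont).isClosed
  · have h1 : closure (ball (0 : ℂ) 1) = closedBall 0 1 := closure_ball (0 : ℂ) one_ne_zero
    rw [← h1]
    apply ContinuousOn.image_closure
    rw [h1]
    exact h.cont

end

end Pool.TU
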