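import Pool.Agent.Helper71.TU.K1
import Pool.Agent.Helper71.TU.K2
import Pool.Agent.Helper71.TU.R0

/-! # TU K3: tuned polynomials are conjugate -/

open Complex Set Filter Topology Metric Polynomial ComplexConjugate Pool.Tuning

namespace Pool.TU

noncomputable section

private theorem k3_diskMap_mem (c : ℂ) {ζ : ℂ} (hζ : ζ ∈ closedBall (0 : ℂ) 1) :
    diskMap c ζ ∈ closedBall (0 : ℂ) 1 := by
  rw [mem_closedBall_zero_iff] at hζ ⊢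
  unfold diskMap
  by_cases h : ‖ζ‖ < 1
  · rw [if_pos h]
    unfold ofPlane
    set z := toPlane ζ ^ 2 + c
    have h1 : 0 < 1 + ‖z‖ := by positivity
    have h2 : ‖(1 + (‖z‖ : ℂ))‖ = 1 + ‖z‖ := by
      have : (1 + (‖z‖ : ℂ)) = ((1 + ‖z‖ : ℝ) : ℂ) := by push_cast; ring
      rw [this, Complex.norm_real, Real.norm_of_nonneg h1.le]
    rw [norm_div, h2, div_le_one h1]
    linarith
  · rw [if_neg h, norm_pow]
    exact pow_le_one₀ (norm_nonneg _) hζ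

private theorem k3_landsAt (c : ℂ) {ψ₁ ψ₂ : ℂ → ℂ} (hψ : ∀ ζ : ℂ, 1 ≤ ‖ζ‖ → ψ₁ ζ = ψ₂ ζ)
    {ζ w : ℂ} (h : LandsAt c ψ₁ ζ w) : LandsAt c ψ₂ ζ w := by
  rcases h with ⟨h1, h2⟩ | ⟨h1, h2⟩ | ⟨h1, η, h2, h3, h4⟩
  · left
    exact ⟨h1, by rw [h2, hψ ζ h1.ge]⟩
  · right; left
    exact ⟨h1, h2⟩
  · right; right
    refine ⟨h1, η, h2, by rw [h3, hψ η h2.le], ?_⟩
    rw [h4]
    apply hψ
    have h5 : 0 < ‖η‖ := by linarith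
    have h6 : ‖η / (‖η‖ : ℂ)‖ = 1 := by
      rw [norm_div, Complex.norm_real, norm_norm, div_self h5.ne']
    rw [h6]

private theorem k3_rayRel (P : ℂ[X]) (ω c : ℂ) {ψ₁ ψ₂ χ₁ χ₂ : ℂ → ℂ}
    (hψ : ∀ ζ : ℂ, 1 ≤ ‖ζ‖ → ψ₁ ζ = ψ₂ ζ) (hχ : ∀ ζ ∈ closedBall (0 : ℂ) 1, χ₁ ζ = χ₂ ζ)
    {x y : ℂ} (h : RayRel P ω c ψ₁ χ₁ x y) : RayRel P ω c ψ₂ χ₂ x y := by
  rcases h with h | ⟨n, U, hU, hx, hy, ζ, hζ, ζ', hζ', w, h1, h2, h3, h4⟩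
  · exact Or.inl h
  · right
    refine ⟨n, U, hU, hx, hy, ζ, hζ, ζ', hζ', w, ?_, ?_, ?_, ?_⟩
    · rw [h1, hχ ζ hζ]
    · rw [h2, hχ ζ' hζ']
    · exact k3_landsAt c hψ h3
    · exact k3_landsAt c hψ h4

/-- two polynomials that are `P` tuned with `z ^ 2 - 2` are topologically conjugate -/
theorem tuned_topConj {P : ℂ[X]} {ω : ℂ} (hω : P.eval ω = ω) {Q₁ Q₂ : ℂ[X]}
    (h₁ : Tuned P ω (-2) Q₁) (h₂ : Tuned P ω (-2) Q₂) : TopConj Q₁ Q₂ := by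
  obtain ⟨ψ₁, χ₁, T₁, q₁, hψ₁, hχ₁, hT₁, hq₁, hQ₁, hr₁⟩ := h₁
  obtain ⟨ψ₂, χ₂, T₂, q₂, hψ₂, hχ₂, hT₂, hq₂, hQ₂, hr₂⟩ := h₂
  have hψ : ∀ ζ : ℂ, 1 ≤ ‖ζ‖ → ψ₁ ζ = ψ₂ ζ := by
    intro ζ hζ
    rw [bottcher_unique hψ₁ ζ hζ, bottcher_unique hψ₂ ζ hζ]
  have hχ : ∀ ζ ∈ closedBall (0 : ℂ) 1, χ₁ ζ = χ₂ ζ := marking_unique hω hχ₁ hχ₂
  have hT : ∀ z, T₁ z = T₂ z := by
    intro z
    by_cases hz : z ∈ closure (immBasin P ω)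
    · have hz' := hz
      rw [marking_closure hχ₁] at hz'
      obtain ⟨ζ, hζ, rfl⟩ := hz'
      rw [hT₁.inside ζ hζ, hχ ζ hζ, hT₂.inside ζ hζ]
      exact hχ _ (k3_diskMap_mem _ hζ)
    · rw [hT₁.outside z hz, hT₂.outside z hz]
  have hfib : ∀ x y, q₁ x = q₁ y ↔ q₂ x = q₂ y := by
    intro x y
    rw [hr₁, hr₂]
    constructor
    · exact rayEq_mono fun x y => k3_rayRel P ω (-2) hψ hχ
    · exact rayEq_mono fun x y => k3_rayRel P ω (-2) (fun ζ hζ => (hψ ζ hζ).symm)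
        fun ζ hζ => (hχ ζ hζ).symm
  let f : ℂ → ℂ := fun w => q₂ (Function.surjInv hq₁.surjective w)
  let g : ℂ → ℂ := fun w => q₁ (Function.surjInv hq₂.surjective w)
  have hf : ∀ x, f (q₁ x) = q₂ x := by
    intro x
    exact (hfib _ _).1 (Function.surjInv_eq hq₁.surjective _)
  have hg : ∀ x, g (q₂ x) = q₁ x := by
    intro x
    exact (hfib _ _).2 (Function.surjInv_eq hq₂.surjective _)
  have hfc : Continuous f := by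
    rw [hq₁.continuous_iff]
    have : f ∘ q₁ = q₂ := funext hf
    rw [this]
    exact hq₂.continuous
  have hgc : Continuous g := by
    rw [hq₂.continuous_iff]
    have : g ∘ q₂ = q₁ := funext hg
    rw [this]
    exact hq₁.continuous
  refine ⟨⟨⟨f, g, ?_, ?_⟩, hfc, hgc⟩, ?_⟩
  · intro w
    obtain ⟨x, rfl⟩ := hq₁.surjective w
    rw [hf, hg]
  · intro w
    obtain ⟨x, rfl⟩ := hq₂.surjective w
    rw [hg, hf]
  · intro z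
    obtain ⟨x, rfl⟩ := hq₁.surjective z
    change f (Q₁.eval (q₁ x)) = Q₂.eval (f (q₁ x))
    rw [hQ₁, hf, hf, hQ₂, hT]

end

end Pool.TU
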