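import Pool.Agent.Helper71.TU.K2

/-! # TU K4: invariants of topological conjugacy -/

open Complex Set Filter Topology Metric Polynomial ComplexConjugate Pool.Tuning

namespace Pool.TU

noncomputable section

theorem k4_conj_symm {P Q : ℂ[X]} (φ : ℂ ≃ₜ ℂ) (h : ∀ z, φ (P.eval z) = Q.eval (φ z)) (w : ℂ) :
    φ.symm (Q.eval w) = P.eval (φ.symm w) := by
  have := h (φ.symm w)
  rw [φ.apply_symm_apply] at this
  rw [← this, φ.symm_apply_apply]

theorem k4_injOn {P : ℂ[X]} {c : ℂ} (hc : P.derivative.eval c ≠ 0) :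
    ∃ U : Set ℂ, IsOpen U ∧ c ∈ U ∧ InjOn (fun z => P.eval z) U := by
  have hf := (P.hasStrictDerivAt c).hasStrictFDerivAt_equiv hc
  exact ⟨(hf.toOpenPartialHomeomorph _).source, (hf.toOpenPartialHomeomorph _).open_source,
    hf.mem_toOpenPartialHomeomorph_source, (hf.toOpenPartialHomeomorph _).injOn⟩

theorem k4_crit {P Q : ℂ[X]} (φ : ℂ ≃ₜ ℂ) (h : ∀ z, φ (P.eval z) = Q.eval (φ z)) (c : ℂ)
    (hc : P.derivative.eval c ≠ 0) : Q.derivative.eval (φ c) ≠ 0 := by
  obtain ⟨U, hU, hcU, hi⟩ := k4_injOn hc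
  have hV : IsOpen (φ '' U) := φ.isOpenMap U hU
  have hj : InjOn (fun z => Q.eval z) (φ '' U) := by
    rintro _ ⟨z, hz, rfl⟩ _ ⟨w, hw, rfl⟩ e
    simp only at e
    rw [← h, ← h] at e
    rw [hi hz hw (φ.injective e)]
  have := deriv_ne_zero_of_inj hV Q.differentiable.differentiableOn hj (φ c) ⟨c, hcU, rfl⟩
  rwa [Polynomial.deriv] at this

theorem crit_of_conj {P Q : ℂ[X]} (hP : 1 ≤ P.natDegree) (hQ : 1 ≤ Q.natDegree) (φ : ℂ ≃ₜ ℂ)
    (h : ∀ z, φ (P.eval z) = Q.eval (φ z)) (c : ℂ) :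
    P.derivative.eval c = 0 ↔ Q.derivative.eval (φ c) = 0 := by
  constructor
  · intro hc
    by_contra hne
    have := k4_crit φ.symm (k4_conj_symm φ h) (φ c) hne
    rw [φ.symm_apply_apply] at this
    exact this hc
  · intro hc
    by_contra hne
    exact k4_crit φ h c hne hc

theorem k4_iter_conj {f g : ℂ → ℂ} {φ : ℂ → ℂ} (h : ∀ z, φ (f z) = g (φ z)) (n : ℕ) (z : ℂ) :
    φ (f^[n] z) = g^[n] (φ z) := by
  induction n generalizing z with
  | zero => rfl
  | succ n ih => rw [Function.iterate_succ_apply, Function.iterate_succ_apply, ih, h]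

/-- local expansion bounds at a fixed point -/
theorem k4_local {P : ℂ[X]} {a : ℂ} (ha : P.eval a = a) {ε : ℝ} (hε : 0 < ε) :
    ∃ r > 0, ∀ z ∈ ball a r, ‖P.eval z - a - (z - a) * P.derivative.eval a‖ ≤ ε * ‖z - a‖ := by
  have h := (hasDerivAt_iff_isLittleO.1 (P.hasDerivAt a)).def hε
  rw [Metric.eventually_nhds_iff_ball] at h
  obtain ⟨r, hr, h⟩ := h
  refine ⟨r, hr, fun z hz => ?_⟩
  have := h z hz
  rwa [ha, smul_eq_mul] at this

theorem att_of_conj {P Q : ℂ[X]} (φ : ℂ ≃ₜ ℂ)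
    (h : ∀ z, φ (P.eval z) = Q.eval (φ z)) {a : ℂ} (ha : P.eval a = a)
    (h1 : ‖P.derivative.eval a‖ < 1) : ‖Q.derivative.eval (φ a)‖ ≤ 1 := by
  have hb : Q.eval (φ a) = φ a := by rw [← h, ha]
  obtain ⟨r, hr, hloc⟩ := k4_local (P := P) ha (sub_pos.2 h1)
  have hmaps : ∀ z ∈ ball a r, P.eval z ∈ ball a r := by
    intro z hz
    have h2 := hloc z hz
    have h3 : ‖P.eval z - a‖ ≤ ‖z - a‖ := by
      calc ‖P.eval z - a‖ = ‖(P.eval z - a - (z - a) * P.derivative.eval a) +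
            (z - a) * P.derivative.eval a‖ := by ring_nf
        _ ≤ (1 - ‖P.derivative.eval a‖) * ‖z - a‖ + ‖z - a‖ * ‖P.derivative.eval a‖ := by
            refine (norm_add_le _ _).trans (add_le_add h2 ?_)
            rw [norm_mul]
        _ = ‖z - a‖ := by ring
    rw [mem_ball, dist_eq_norm] at hz ⊢
    exact h3.trans_lt hz
  have hmaps' : ∀ (n : ℕ), ∀ z ∈ ball a r, (fun z => P.eval z)^[n] z ∈ ball a r := by
    intro n
    induction n with
    | zero => intro z hz; exact hz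
    | succ n ih =>
      intro z hz
      rw [Function.iterate_succ_apply]
      exact ih _ (hmaps z hz)
  obtain ⟨C, hC⟩ : ∃ C : ℝ, ∀ z ∈ closedBall a r, ‖φ z‖ ≤ C := by
    obtain ⟨C, hC⟩ := ((isCompact_closedBall a r).image φ.continuous).isBounded.exists_norm_le
    exact ⟨C, fun z hz => hC _ ⟨z, hz, rfl⟩⟩
  have hV : φ '' ball a r ∈ 𝓝 (φ a) :=
    (φ.isOpenMap _ isOpen_ball).mem_nhds ⟨a, mem_ball_self hr, rfl⟩
  obtain ⟨ρ, hρ, hρV⟩ := Metric.nhds_basis_closedBall.mem_iff.1 hV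
  have hbound : ∀ n : ℕ, ‖Q.derivative.eval (φ a)‖ ^ n ≤ C / ρ := by
    intro n
    have hd : HasDerivAt ((fun z => Q.eval z)^[n]) ((Q.derivative.eval (φ a)) ^ n) (φ a) :=
      HasDerivAt.iterate _ (Q.hasDerivAt (φ a)) hb n
    have hdiff : Differentiable ℂ ((fun z => Q.eval z)^[n]) := Q.differentiable.iterate n
    have h3 : ‖deriv ((fun z => Q.eval z)^[n]) (φ a)‖ ≤ C / ρ := by
      refine Complex.norm_deriv_le_of_forall_mem_sphere_norm_le hρ hdiff.diffContOnCl ?_
      intro w hw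
      obtain ⟨z, hz, rfl⟩ := hρV (sphere_subset_closedBall hw)
      rw [← k4_iter_conj (f := fun z => P.eval z) (φ := φ) h n z]
      exact hC _ (ball_subset_closedBall (hmaps' n z hz))
    rw [hd.deriv, norm_pow] at h3
    exact h3
  by_contra hne
  push Not at hne
  obtain ⟨n, hn⟩ := pow_unbounded_of_one_lt (C / ρ) hne
  exact absurd (hbound n) (not_le.2 hn)

/-- the local inverse at a repelling fixed point -/
theorem k4_inv {P : ℂ[X]} {a : ℂ} (ha : P.eval a = a) (h1 : 1 < ‖P.derivative.eval a‖) :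
    ∃ (g : ℂ → ℂ) (r k : ℝ), 0 < r ∧ 1 < k ∧ ContinuousOn g (ball a r) ∧
      (∀ z ∈ ball a r, P.eval (g z) = z) ∧ (∀ z ∈ ball a r, P.derivative.eval (g z) ≠ 0) ∧
      g a = a ∧ ∀ z ∈ ball a r, k * ‖g z - a‖ ≤ ‖z - a‖ := by
  have hc : P.derivative.eval a ≠ 0 := by
    intro h0
    rw [h0, norm_zero] at h1
    linarith
  have hf := (P.hasStrictDerivAt a).hasStrictFDerivAt_equiv hc
  set e := hf.toOpenPartialHomeomorph _ with he
  have hae : a ∈ e.source := hf.mem_toOpenPartialHomeomorph_source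
  have hcoe : ∀ z, e z = P.eval z := fun z => rfl
  have hat : a ∈ e.target := by
    have := e.map_source hae
    rwa [hcoe, ha] at this
  have hga : e.symm a = a := by
    have := e.left_inv hae
    rwa [hcoe, ha] at this
  set k := (1 + ‖P.derivative.eval a‖) / 2 with hk
  have hk1 : 1 < k := by rw [hk]; linarith
  have hkε : 0 < ‖P.derivative.eval a‖ - k := by rw [hk]; linarith
  obtain ⟨r0, hr0, hloc⟩ := k4_local (P := P) ha hkε
  have hcont : ContinuousAt e.symm a := e.continuousAt_symm hat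
  have hnb1 : ∀ᶠ z in 𝓝 a, e.symm z ∈ ball a r0 := by
    refine hcont.eventually_mem ?_
    rw [hga]
    exact ball_mem_nhds _ hr0
  have hnb2 : ∀ᶠ z in 𝓝 a, P.derivative.eval (e.symm z) ≠ 0 := by
    have hc2 : ContinuousAt (fun z => P.derivative.eval (e.symm z)) a :=
      P.derivative.continuous.continuousAt.comp hcont
    refine hc2.eventually_ne ?_
    rw [hga]
    exact hc
  have hnb3 : ∀ᶠ z in 𝓝 a, z ∈ e.target := e.open_target.mem_nhds hat
  obtain ⟨r, hr, hball⟩ := Metric.eventually_nhds_iff_ball.1 (hnb1.and (hnb2.and hnb3))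
  refine ⟨e.symm, r, k, hr, hk1, ?_, ?_, ?_, hga, ?_⟩
  · exact e.continuousOn_symm.mono fun z hz => (hball z hz).2.2
  · intro z hz
    rw [← hcoe]
    exact e.right_inv (hball z hz).2.2
  · intro z hz
    exact (hball z hz).2.1
  · intro z hz
    have h2 := hloc _ (hball z hz).1
    have h3 : P.eval (e.symm z) = z := by
      rw [← hcoe]
      exact e.right_inv (hball z hz).2.2
    rw [h3] at h2
    have h4 : ‖(e.symm z - a) * P.derivative.eval a‖ ≤
        ‖z - a‖ + (‖P.derivative.eval a‖ - k) * ‖e.symm z - a‖ := by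
      calc ‖(e.symm z - a) * P.derivative.eval a‖ =
          ‖(z - a) - (z - a - (e.symm z - a) * P.derivative.eval a)‖ := by ring_nf
        _ ≤ _ := (norm_sub_le _ _).trans (by linarith)
    rw [norm_mul] at h4
    linarith

theorem rep_of_conj {P Q : ℂ[X]} (hP : 1 ≤ P.natDegree) (hQ : 1 ≤ Q.natDegree) (φ : ℂ ≃ₜ ℂ)
    (h : ∀ z, φ (P.eval z) = Q.eval (φ z)) {a : ℂ} (ha : P.eval a = a)
    (h1 : 1 < ‖P.derivative.eval a‖) : 1 < ‖Q.derivative.eval (φ a)‖ := by
  have hb : Q.eval (φ a) = φ a := by rw [← h, ha]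
  obtain ⟨g, r, k, hr, hk, gcont, gP, gD, ga, gk⟩ := k4_inv ha h1
  have hgball : ∀ z ∈ ball a r, g z ∈ ball a r := by
    intro z hz
    have h2 := gk z hz
    rw [mem_ball, dist_eq_norm] at hz ⊢
    have h3 : ‖g z - a‖ ≤ k * ‖g z - a‖ := le_mul_of_one_le_left (norm_nonneg _) hk.le
    linarith
  set G : ℂ → ℂ := fun w => φ (g (φ.symm w)) with hG
  set V : Set ℂ := φ '' ball a r with hVdef
  have hVo : IsOpen V := φ.isOpenMap _ isOpen_ball
  have hbV : φ a ∈ V := ⟨a, mem_ball_self hr, rfl⟩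
  have hGV : ∀ w ∈ V, G w ∈ V := by
    rintro _ ⟨z, hz, rfl⟩
    refine ⟨g z, hgball z hz, ?_⟩
    simp [hG]
  have hQG : ∀ w ∈ V, Q.eval (G w) = w := by
    rintro _ ⟨z, hz, rfl⟩
    simp only [hG, φ.symm_apply_apply]
    rw [← h, gP z hz]
  have hGb : G (φ a) = φ a := by simp [hG, ga]
  have hGd : ∀ w ∈ V, HasDerivAt G (Q.derivative.eval (G w))⁻¹ w := by
    intro w hw
    refine HasDerivAt.of_local_left_inverse ?_ (Q.hasDerivAt (G w)) ?_ ?_
    · obtain ⟨z, hz, rfl⟩ := hw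
      have hc1 : ContinuousAt g (φ.symm (φ z)) := by
        rw [φ.symm_apply_apply]
        exact gcont.continuousAt (isOpen_ball.mem_nhds hz)
      exact φ.continuous.continuousAt.comp
        (ContinuousAt.comp (g := g) hc1 φ.symm.continuous.continuousAt)
    · obtain ⟨z, hz, rfl⟩ := hw
      have := k4_crit φ h (g z) (gD z hz)
      simpa [hG] using this
    · filter_upwards [hVo.mem_nhds hw] with v hv
      exact hQG v hv
  have hGn : ∀ (n : ℕ), ∀ w ∈ V, G^[n] w ∈ V := by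
    intro n
    induction n with
    | zero => intro w hw; exact hw
    | succ n ih =>
      intro w hw
      rw [Function.iterate_succ_apply]
      exact ih _ (hGV w hw)
  have hGnd : ∀ (n : ℕ), DifferentiableOn ℂ (G^[n]) V := by
    intro n
    induction n with
    | zero => exact differentiableOn_id
    | succ n ih =>
      rw [Function.iterate_succ]
      exact ih.comp (fun w hw => (hGd w hw).differentiableAt.differentiableWithinAt) hGV
  have hgn : ∀ (n : ℕ), ∀ z ∈ ball a r, g^[n] z ∈ ball a r ∧ k ^ n * ‖g^[n] z - a‖ ≤ ‖z - a‖ := by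
    intro n
    induction n with
    | zero => intro z hz; exact ⟨hz, by simp⟩
    | succ n ih =>
      intro z hz
      obtain ⟨h2, h3⟩ := ih _ (hgball z hz)
      rw [Function.iterate_succ_apply]
      refine ⟨h2, ?_⟩
      have h4 := gk z hz
      calc k ^ (n + 1) * ‖g^[n] (g z) - a‖ = k * (k ^ n * ‖g^[n] (g z) - a‖) := by ring
        _ ≤ k * ‖g z - a‖ := mul_le_mul_of_nonneg_left h3 (by linarith)
        _ ≤ ‖z - a‖ := h4
  obtain ⟨ρ, hρ, hρV⟩ := Metric.nhds_basis_closedBall.mem_iff.1 (hVo.mem_nhds hbV)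
  -- continuity of φ at a
  obtain ⟨δ, hδ, hδφ⟩ := Metric.continuousAt_iff.1 (φ.continuous.continuousAt (x := a)) (ρ / 2)
    (half_pos hρ)
  obtain ⟨n, hn⟩ := pow_unbounded_of_one_lt (r / δ) hk
  have hkn : 0 < k ^ n := by positivity
  have hsmall : ∀ w ∈ sphere (φ a) ρ, ‖G^[n] w - φ a‖ ≤ ρ / 2 := by
    intro w hw
    obtain ⟨z, hz, rfl⟩ := hρV (sphere_subset_closedBall hw)
    have h2 : φ (g^[n] z) = G^[n] (φ z) :=
      k4_iter_conj (f := g) (g := G) (φ := φ) (fun z => by simp [hG]) n z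
    rw [← h2, ← dist_eq_norm]
    refine (hδφ ?_).le
    rw [dist_eq_norm]
    have h3 := (hgn n z hz).2
    have h4 : ‖z - a‖ < r := by rwa [mem_ball, dist_eq_norm] at hz
    have h5 : r < k ^ n * δ := by
      rwa [div_lt_iff₀ hδ] at hn
    have h6 : k ^ n * ‖g^[n] z - a‖ < k ^ n * δ := by linarith
    exact lt_of_mul_lt_mul_left h6 hkn.le
  have hd : HasDerivAt (G^[n]) (((Q.derivative.eval (φ a))⁻¹) ^ n) (φ a) := by
    have := hGd (φ a) hbV
    rw [hGb] at this
    exact HasDerivAt.iterate _ this hGb n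
  have hd2 : HasDerivAt (fun w => G^[n] w - φ a) (((Q.derivative.eval (φ a))⁻¹) ^ n) (φ a) :=
    hd.sub_const _
  have hdc : DiffContOnCl ℂ (fun w => G^[n] w - φ a) (ball (φ a) ρ) := by
    refine DifferentiableOn.diffContOnCl ?_
    refine ((hGnd n).sub_const _).mono ?_
    rw [closure_ball _ hρ.ne']
    exact hρV
  have h3 := Complex.norm_deriv_le_of_forall_mem_sphere_norm_le hρ hdc hsmall
  rw [hd2.deriv] at h3
  have h4 : ρ / 2 / ρ = 1 / 2 := by field_simp
  rw [h4, norm_pow, norm_inv] at h3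
  by_contra hne
  push Not at hne
  have hQ0 : Q.derivative.eval (φ a) ≠ 0 := by
    have hc : P.derivative.eval a ≠ 0 := by
      intro h0
      rw [h0, norm_zero] at h1
      linarith
    exact k4_crit φ h a hc
  have h5 : 1 ≤ ‖Q.derivative.eval (φ a)‖⁻¹ := (one_le_inv₀ (norm_pos_iff.2 hQ0)).2 hne
  have h6 : 1 ≤ ‖Q.derivative.eval (φ a)‖⁻¹ ^ n := one_le_pow₀ h5
  linarith

end

end Pool.TU
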