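import Pool.Agent.Helper71.TU.K4

/-! # TU K5: the contradiction -/

open Complex Set Filter Topology Metric Polynomial ComplexConjugate Pool.Tuning

namespace Pool.TU

noncomputable section

namespace K5aux

theorem eval_eq {F : ℂ[X]} (hF : F.natDegree < 5) (z : ℂ) :
    F.eval z = F.coeff 0 + F.coeff 1 * z + F.coeff 2 * z ^ 2 + F.coeff 3 * z ^ 3 +
      F.coeff 4 * z ^ 4 := by
  rw [Polynomial.eval_eq_sum_range' hF]
  simp [Finset.sum_range_succ]

theorem eval_tendsto {F : ℕ → ℂ[X]} {F' : ℂ[X]} (hF : ∀ n, (F n).natDegree < 5)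
    (hF' : F'.natDegree < 5)
    (hlim : ∀ i, Tendsto (fun n => (F n).coeff i) atTop (𝓝 (F'.coeff i)))
    {z : ℕ → ℂ} {z' : ℂ} (hz : Tendsto z atTop (𝓝 z')) :
    Tendsto (fun n => (F n).eval (z n)) atTop (𝓝 (F'.eval z')) := by
  simp only [eval_eq (hF _)]
  rw [eval_eq hF']
  exact ((((hlim 0).add ((hlim 1).mul hz)).add ((hlim 2).mul (hz.pow 2))).add
    ((hlim 3).mul (hz.pow 3))).add ((hlim 4).mul (hz.pow 4))

/-- bound for the roots -/
theorem root_bound {a0 a1 a2 a3 a4 z : ℂ} {K L : ℝ} (h0 : ‖a0‖ ≤ K) (h1 : ‖a1‖ ≤ K)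
    (h2 : ‖a2‖ ≤ K) (h3 : ‖a3‖ ≤ K) (h4 : a4 ≠ 0) (hL : ‖a4⁻¹‖ ≤ L)
    (hz : a0 + a1 * z + a2 * z ^ 2 + a3 * z ^ 3 + a4 * z ^ 4 = 0) : ‖z‖ ≤ 1 + 4 * K * L := by
  have hK : 0 ≤ K := (norm_nonneg _).trans h0
  have hL0 : 0 ≤ L := (norm_nonneg _).trans hL
  rcases le_or_gt ‖z‖ 1 with h | h
  · nlinarith [mul_nonneg hK hL0]
  · have e1 : z ^ 4 = -(a4⁻¹ * (a0 + a1 * z + a2 * z ^ 2 + a3 * z ^ 3)) := by
      field_simp
      linear_combination hz
    have e2 : ‖z‖ ^ 4 ≤ L * (4 * K * ‖z‖ ^ 3) := by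
      rw [← norm_pow, e1, norm_neg, norm_mul]
      apply mul_le_mul hL _ (norm_nonneg _) hL0
      have p1 : 1 ≤ ‖z‖ ^ 3 := one_le_pow₀ h.le
      have p2 : ‖z‖ ≤ ‖z‖ ^ 3 := le_self_pow₀ h.le (by norm_num)
      have p3 : ‖z‖ ^ 2 ≤ ‖z‖ ^ 3 := pow_le_pow_right₀ h.le (by norm_num)
      calc ‖a0 + a1 * z + a2 * z ^ 2 + a3 * z ^ 3‖
          ≤ ‖a0‖ + ‖a1 * z‖ + ‖a2 * z ^ 2‖ + ‖a3 * z ^ 3‖ := by
            refine (norm_add_le _ _).trans (add_le_add_left ?_ _)
            refine (norm_add_le _ _).trans (add_le_add_left ?_ _)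
            exact norm_add_le _ _
        _ ≤ K * ‖z‖ ^ 3 + K * ‖z‖ ^ 3 + K * ‖z‖ ^ 3 + K * ‖z‖ ^ 3 := by
            rw [norm_mul, norm_mul, norm_mul, norm_pow, norm_pow]
            refine add_le_add (add_le_add (add_le_add ?_ ?_) ?_) ?_
            · calc ‖a0‖ ≤ K * 1 := by rw [mul_one]; exact h0
                _ ≤ _ := mul_le_mul_of_nonneg_left p1 hK
            · exact mul_le_mul h1 p2 (norm_nonneg _) hK
            · exact mul_le_mul h2 p3 (by positivity) hK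
            · exact mul_le_mul_of_nonneg_right h3 (by positivity)
        _ = 4 * K * ‖z‖ ^ 3 := by ring
    have e3 : 0 < ‖z‖ ^ 3 := by positivity
    have e4 : ‖z‖ * ‖z‖ ^ 3 ≤ (4 * K * L) * ‖z‖ ^ 3 := by
      calc ‖z‖ * ‖z‖ ^ 3 = ‖z‖ ^ 4 := by ring
        _ ≤ L * (4 * K * ‖z‖ ^ 3) := e2
        _ = _ := by ring
    have e5 := le_of_mul_le_mul_right e4 e3
    linarith

/-- factorisation at three roots -/
theorem factor3 {c0 c1 c2 c3 c4 x y w : ℂ} (hxy : x ≠ y) (hxw : x ≠ w) (hyw : y ≠ w)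
    (hx : c0 + c1 * x + c2 * x ^ 2 + c3 * x ^ 3 + c4 * x ^ 4 = 0)
    (hy : c0 + c1 * y + c2 * y ^ 2 + c3 * y ^ 3 + c4 * y ^ 4 = 0)
    (hw : c0 + c1 * w + c2 * w ^ 2 + c3 * w ^ 3 + c4 * w ^ 4 = 0) (z : ℂ) :
    c0 + c1 * z + c2 * z ^ 2 + c3 * z ^ 3 + c4 * z ^ 4 =
      (z - x) * (z - y) * (z - w) * (c4 * z + (c3 + c4 * (x + y + w))) := by
  set B : ℂ := c3 + c4 * (x + y + w) with hB
  set g2 : ℂ := c2 - (c4 * (x * y + x * w + y * w) - B * (x + y + w)) with hg2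
  set g1 : ℂ := c1 - (B * (x * y + x * w + y * w) - c4 * (x * y * w)) with hg1
  set g0 : ℂ := c0 + B * (x * y * w) with hg0
  have key : ∀ z : ℂ, c0 + c1 * z + c2 * z ^ 2 + c3 * z ^ 3 + c4 * z ^ 4 -
      (z - x) * (z - y) * (z - w) * (c4 * z + B) = g0 + g1 * z + g2 * z ^ 2 := by
    intro z
    rw [hg0, hg1, hg2, hB]
    ring
  have kx := key x
  have ky := key y
  have kw := key w
  rw [hx] at kx
  rw [hy] at ky
  rw [hw] at kw
  simp only [sub_self, zero_mul, mul_zero] at kx ky kw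
  have e1 : (x - y) * (g1 + g2 * (x + y)) = 0 := by linear_combination ky - kx
  have e2 : (x - w) * (g1 + g2 * (x + w)) = 0 := by linear_combination kw - kx
  have e1' := (mul_eq_zero.1 e1).resolve_left (sub_ne_zero.2 hxy)
  have e2' := (mul_eq_zero.1 e2).resolve_left (sub_ne_zero.2 hxw)
  have e3 : (y - w) * g2 = 0 := by linear_combination e1' - e2'
  have h2 := (mul_eq_zero.1 e3).resolve_left (sub_ne_zero.2 hyw)
  rw [h2] at e1' kx
  have h1 : g1 = 0 := by linear_combination e1'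
  rw [h1] at kx
  have h0 : g0 = 0 := by linear_combination -kx
  have := key z
  rw [h0, h1, h2] at this
  linear_combination this

theorem bdd_of_tendsto {u : ℕ → ℂ} {a : ℂ} (h : Tendsto u atTop (𝓝 a)) :
    ∃ K : ℝ, ∀ n, ‖u n‖ ≤ K := by
  obtain ⟨K, hK⟩ := (Metric.isBounded_range_of_tendsto u h).exists_norm_le
  exact ⟨K, fun n => hK _ (mem_range_self n)⟩

end K5aux

open K5aux

/-- a sequence of conjugates of a hyperbolic one does not converge to a conjugate of a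
parabolic one -/
theorem no_limit {P P' : ℂ[X]} (hP : DHyp P) (hP' : DPar P') (dP : P.natDegree = 4)
    (dP' : P'.natDegree = 4) {Q : ℕ → ℂ[X]} {Q' : ℂ[X]} (dQ : ∀ n, (Q n).natDegree = 4)
    (dQ' : Q'.natDegree = 4) (hQ : ∀ n, TopConj P (Q n)) (hQ' : TopConj P' Q')
    (hlim : ∀ i, Tendsto (fun n => (Q n).coeff i) atTop (𝓝 (Q'.coeff i))) : False := by
  obtain ⟨a₁, a₂, β, r, h12, h1β, h2β, f1, f2, fβ, m1, m2, dr, hr⟩ := hP.data
  obtain ⟨z₀, z₁, z₂, n01, n02, n12, g0, g1, g2, gall, r1, r2, hc⟩ := hP'.data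
  choose φ hφ using hQ
  obtain ⟨φ', hφ'⟩ := hQ'
  have d5 : ∀ n, (Q n).natDegree < 5 := fun n => by rw [dQ n]; norm_num
  have d5' : Q'.natDegree < 5 := by rw [dQ']; norm_num
  have dd5 : ∀ n, (Q n).derivative.natDegree < 5 := fun n =>
    lt_of_le_of_lt (natDegree_derivative_le _) (by rw [dQ n]; norm_num)
  have dd5' : Q'.derivative.natDegree < 5 :=
    lt_of_le_of_lt (natDegree_derivative_le _) (by rw [dQ']; norm_num)
  have hdlim : ∀ i, Tendsto (fun n => (Q n).derivative.coeff i) atTop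
      (𝓝 (Q'.derivative.coeff i)) := by
    intro i
    simp only [coeff_derivative]
    exact (hlim (i + 1)).mul_const _
  have l0 : ∀ n, (Q n).coeff 4 ≠ 0 := by
    intro n h
    have h1 : (Q n).leadingCoeff = 0 := by rw [leadingCoeff, dQ n, h]
    rw [leadingCoeff_eq_zero] at h1
    have h2 := dQ n
    rw [h1, natDegree_zero] at h2
    norm_num at h2
  have l0' : Q'.coeff 4 ≠ 0 := by
    intro h
    have h1 : Q'.leadingCoeff = 0 := by rw [leadingCoeff, dQ', h]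
    rw [leadingCoeff_eq_zero] at h1
    rw [h1, natDegree_zero] at dQ'
    norm_num at dQ'
  -- bounds
  obtain ⟨K0, hK0⟩ := bdd_of_tendsto (hlim 0)
  obtain ⟨K1, hK1⟩ := bdd_of_tendsto (hlim 1)
  obtain ⟨K2, hK2⟩ := bdd_of_tendsto (hlim 2)
  obtain ⟨K3, hK3⟩ := bdd_of_tendsto (hlim 3)
  obtain ⟨L, hL⟩ := bdd_of_tendsto ((hlim 4).inv₀ l0')
  obtain ⟨K4, hK4⟩ := bdd_of_tendsto (hlim 4)
  have hK0' : 0 ≤ K0 := (norm_nonneg _).trans (hK0 0)
  have hK1' : 0 ≤ K1 := (norm_nonneg _).trans (hK1 0)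
  have hK2' : 0 ≤ K2 := (norm_nonneg _).trans (hK2 0)
  have hK3' : 0 ≤ K3 := (norm_nonneg _).trans (hK3 0)
  have hL' : 0 ≤ L := (norm_nonneg _).trans (hL 0)
  set K : ℝ := K0 + (K1 + 1) + 2 * K2 + 3 * K3 with hKdef
  have hK' : 0 ≤ K := by positivity
  have bfix : ∀ n, ∀ z, (Q n).eval z = z → ‖z‖ ≤ 1 + 4 * K * L := by
    intro n z hz
    rw [eval_eq (d5 n)] at hz
    refine root_bound (a0 := (Q n).coeff 0) (a1 := (Q n).coeff 1 - 1) (a2 := (Q n).coeff 2)
      (a3 := (Q n).coeff 3) (a4 := (Q n).coeff 4) ?_ ?_ ?_ ?_ (l0 n) (hL n) ?_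
    · linarith [hK0 n]
    · refine (norm_sub_le _ _).trans ?_
      rw [norm_one]
      linarith [hK1 n]
    · linarith [hK2 n]
    · linarith [hK3 n]
    · linear_combination hz
  have bcrit : ∀ n, ∀ z, (Q n).derivative.eval z = 0 → ‖z‖ ≤ 1 + 4 * K * L := by
    intro n z hz
    rw [eval_eq (dd5 n)] at hz
    simp only [coeff_derivative] at hz
    have h5 : (Q n).coeff 5 = 0 := coeff_eq_zero_of_natDegree_lt (d5 n)
    have hz' : 0 + (Q n).coeff 1 * z + 2 * (Q n).coeff 2 * z ^ 2 +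
        3 * (Q n).coeff 3 * z ^ 3 + (4 * (Q n).coeff 4) * z ^ 4 = 0 := by
      push_cast at hz
      norm_num [h5] at hz
      linear_combination z * hz
    refine root_bound (a0 := 0) (a1 := (Q n).coeff 1) (a2 := 2 * (Q n).coeff 2)
      (a3 := 3 * (Q n).coeff 3) (a4 := 4 * (Q n).coeff 4) ?_ ?_ ?_ ?_ ?_ ?_ hz'
    · rw [norm_zero]
      exact hK'
    · linarith [hK1 n]
    · rw [norm_mul, RCLike.norm_ofNat]
      linarith [hK2 n]
    · rw [norm_mul, RCLike.norm_ofNat]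
      linarith [hK3 n]
    · exact mul_ne_zero (by norm_num) (l0 n)
    · rw [mul_inv, norm_mul, norm_inv, RCLike.norm_ofNat]
      have := hL n
      have h6 := norm_nonneg ((Q n).coeff 4)⁻¹
      linarith
  have fx : ∀ n, (Q n).eval (φ n a₁) = φ n a₁ := fun n => by rw [← hφ n, f1]
  have fy : ∀ n, (Q n).eval (φ n a₂) = φ n a₂ := fun n => by rw [← hφ n, f2]
  have fw : ∀ n, (Q n).eval (φ n β) = φ n β := fun n => by rw [← hφ n, fβ]
  have cs : ∀ n, (Q n).derivative.eval (φ n r) = 0 := fun n =>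
    (crit_of_conj (by rw [dP]; norm_num) (by rw [dQ n]; norm_num) (φ n) (hφ n) r).1 dr
  have hs2 : ∀ n, (Q n).eval ((Q n).eval (φ n r)) = φ n β := fun n => by
    rw [← hφ n, ← hφ n, hr]
  -- subsequence
  let v : ℕ → ℂ × ℂ × ℂ × ℂ := fun n => (φ n a₁, φ n a₂, φ n β, φ n r)
  have hv : ∀ n, v n ∈ closedBall (0 : ℂ × ℂ × ℂ × ℂ) (1 + 4 * K * L) := by
    intro n
    rw [mem_closedBall, dist_zero_right]
    simp only [v, Prod.norm_def]
    exact max_le (bfix n _ (fx n)) (max_le (bfix n _ (fy n)) (max_le (bfix n _ (fw n))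
      (bcrit n _ (cs n))))
  obtain ⟨a, -, ψ, hψ, hconv⟩ := tendsto_subseq_of_bounded (isBounded_closedBall) hv
  obtain ⟨x, y, w, s⟩ := a
  have tx : Tendsto (fun n => φ (ψ n) a₁) atTop (𝓝 x) :=
    (continuous_fst.tendsto (x, y, w, s)).comp hconv
  have ty : Tendsto (fun n => φ (ψ n) a₂) atTop (𝓝 y) :=
    ((continuous_fst.comp continuous_snd).tendsto (x, y, w, s)).comp hconv
  have tw : Tendsto (fun n => φ (ψ n) β) atTop (𝓝 w) :=
    ((continuous_fst.comp (continuous_snd.comp continuous_snd)).tendsto (x, y, w, s)).comp hconv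
  have ts : Tendsto (fun n => φ (ψ n) r) atTop (𝓝 s) :=
    ((continuous_snd.comp (continuous_snd.comp continuous_snd)).tendsto (x, y, w, s)).comp hconv
  have hlim' : ∀ i, Tendsto (fun n => (Q (ψ n)).coeff i) atTop (𝓝 (Q'.coeff i)) := fun i =>
    (hlim i).comp hψ.tendsto_atTop
  have hdlim' : ∀ i, Tendsto (fun n => (Q (ψ n)).derivative.coeff i) atTop
      (𝓝 (Q'.derivative.coeff i)) := fun i => (hdlim i).comp hψ.tendsto_atTop
  have ev : ∀ {u : ℕ → ℂ} {u' : ℂ}, Tendsto u atTop (𝓝 u') →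
      Tendsto (fun n => (Q (ψ n)).eval (u n)) atTop (𝓝 (Q'.eval u')) := fun hu =>
    eval_tendsto (fun n => d5 (ψ n)) d5' hlim' hu
  have evd : ∀ {u : ℕ → ℂ} {u' : ℂ}, Tendsto u atTop (𝓝 u') →
      Tendsto (fun n => (Q (ψ n)).derivative.eval (u n)) atTop (𝓝 (Q'.derivative.eval u')) :=
    fun hu => eval_tendsto (fun n => dd5 (ψ n)) dd5' hdlim' hu
  have qx : Q'.eval x = x := by
    have h1 := ev tx
    simp only [fx] at h1
    exact tendsto_nhds_unique h1 tx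
  have qy : Q'.eval y = y := by
    have h1 := ev ty
    simp only [fy] at h1
    exact tendsto_nhds_unique h1 ty
  have qs : Q'.derivative.eval s = 0 := by
    have h1 := evd ts
    simp only [cs] at h1
    exact tendsto_nhds_unique h1 tendsto_const_nhds
  have qw : Q'.eval (Q'.eval s) = w := by
    have h1 := ev (ev ts)
    simp only [hs2] at h1
    exact tendsto_nhds_unique h1 tw
  have qww : Q'.eval w = w := by
    have h1 := ev tw
    simp only [fw] at h1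
    exact tendsto_nhds_unique h1 tw
  have mx : ‖Q'.derivative.eval x‖ ≤ 1 := by
    refine le_of_tendsto (evd tx).norm (Eventually.of_forall fun n => ?_)
    exact att_of_conj (φ (ψ n)) (hφ (ψ n)) f1 m1
  have my : ‖Q'.derivative.eval y‖ ≤ 1 := by
    refine le_of_tendsto (evd ty).norm (Eventually.of_forall fun n => ?_)
    exact att_of_conj (φ (ψ n)) (hφ (ψ n)) f2 m2
  have hfixed : ∀ z, Q'.eval z = z → z = φ' z₀ ∨ z = φ' z₁ ∨ z = φ' z₂ := by
    intro z hz
    have h1 : P'.eval (φ'.symm z) = φ'.symm z := by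
      apply φ'.injective
      rw [hφ', φ'.apply_symm_apply, hz]
    rcases gall _ h1 with h2 | h2 | h2
    · left; rw [← h2, φ'.apply_symm_apply]
    · right; left; rw [← h2, φ'.apply_symm_apply]
    · right; right; rw [← h2, φ'.apply_symm_apply]
  have rep : ∀ b, P'.eval b = b → 1 < ‖P'.derivative.eval b‖ →
      1 < ‖Q'.derivative.eval (φ' b)‖ := fun b hb hb1 =>
    rep_of_conj (by rw [dP']; norm_num) (by rw [dQ']; norm_num) φ' hφ' hb hb1
  have hx0 : ∀ z, Q'.eval z = z → ‖Q'.derivative.eval z‖ ≤ 1 → z = φ' z₀ := by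
    intro z hz hm
    rcases hfixed z hz with h | h | h
    · exact h
    · exfalso
      have h1 := rep z₁ g1 r1
      rw [h] at hm
      linarith
    · exfalso
      have h1 := rep z₂ g2 r2
      rw [h] at hm
      linarith
  have ex := hx0 x qx mx
  have ey := hx0 y qy my
  have ew : w = φ' z₀ := by
    have h1 : P'.derivative.eval (φ'.symm s) = 0 := by
      rw [crit_of_conj (by rw [dP']; norm_num) (by rw [dQ']; norm_num) φ' hφ',
        φ'.apply_symm_apply, qs]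
    have h2 : φ' (P'.eval (P'.eval (φ'.symm s))) = w := by
      rw [hφ', hφ', φ'.apply_symm_apply, qw]
    have h3 : P'.eval (P'.eval (P'.eval (φ'.symm s))) = P'.eval (P'.eval (φ'.symm s)) := by
      apply φ'.injective
      rw [hφ', h2, qww]
    rw [← h2, hc _ h1 h3]
  -- the limit of the factorisations
  have fac : ∀ z : ℂ, Q'.eval z - z = (z - x) * (z - y) * (z - w) *
      (Q'.coeff 4 * z + (Q'.coeff 3 + Q'.coeff 4 * (x + y + w))) := by
    intro z
    have h1 : Tendsto (fun n => (Q (ψ n)).eval z - z) atTop (𝓝 (Q'.eval z - z)) :=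
      (ev tendsto_const_nhds).sub_const z
    have h2 : Tendsto (fun n => (z - φ (ψ n) a₁) * (z - φ (ψ n) a₂) * (z - φ (ψ n) β) *
        ((Q (ψ n)).coeff 4 * z + ((Q (ψ n)).coeff 3 + (Q (ψ n)).coeff 4 *
          (φ (ψ n) a₁ + φ (ψ n) a₂ + φ (ψ n) β)))) atTop
        (𝓝 ((z - x) * (z - y) * (z - w) *
      (Q'.coeff 4 * z + (Q'.coeff 3 + Q'.coeff 4 * (x + y + w))))) := by
      refine (((tendsto_const_nhds.sub tx).mul (tendsto_const_nhds.sub ty)).mul
        (tendsto_const_nhds.sub tw)).mul ?_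
      exact ((hlim' 4).mul_const z).add ((hlim' 3).add ((hlim' 4).mul ((tx.add ty).add tw)))
    refine tendsto_nhds_unique h1 (h2.congr fun n => ?_)
    have e := fun z => eval_eq (d5 (ψ n)) z
    have e1 := fx (ψ n)
    have e2 := fy (ψ n)
    have e3 := fw (ψ n)
    rw [e] at e1 e2 e3
    rw [e z]
    have := factor3 (c0 := (Q (ψ n)).coeff 0) (c1 := (Q (ψ n)).coeff 1 - 1)
      (c2 := (Q (ψ n)).coeff 2) (c3 := (Q (ψ n)).coeff 3) (c4 := (Q (ψ n)).coeff 4)
      (fun h => h12 ((φ (ψ n)).injective h)) (fun h => h1β ((φ (ψ n)).injective h))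
      (fun h => h2β ((φ (ψ n)).injective h)) (by linear_combination e1)
      (by linear_combination e2) (by linear_combination e3) z
    rw [← this]
    ring
  have hz1 : Q'.eval (φ' z₁) = φ' z₁ := by rw [← hφ', g1]
  have hz2 : Q'.eval (φ' z₂) = φ' z₂ := by rw [← hφ', g2]
  rw [ex, ey, ew] at fac
  set B : ℂ := Q'.coeff 3 + Q'.coeff 4 * (φ' z₀ + φ' z₀ + φ' z₀) with hB
  have u1 : Q'.coeff 4 * φ' z₁ + B = 0 := by
    have h1 := fac (φ' z₁)
    rw [hz1, sub_self] at h1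
    have h2 : φ' z₁ - φ' z₀ ≠ 0 := sub_ne_zero.2 fun h => n01 (φ'.injective h).symm
    rcases mul_eq_zero.1 h1.symm with h3 | h3
    · exact absurd h3 (mul_ne_zero (mul_ne_zero h2 h2) h2)
    · exact h3
  have u2 : Q'.coeff 4 * φ' z₂ + B = 0 := by
    have h1 := fac (φ' z₂)
    rw [hz2, sub_self] at h1
    have h2 : φ' z₂ - φ' z₀ ≠ 0 := sub_ne_zero.2 fun h => n02 (φ'.injective h).symm
    rcases mul_eq_zero.1 h1.symm with h3 | h3
    · exact absurd h3 (mul_ne_zero (mul_ne_zero h2 h2) h2)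
    · exact h3
  have u3 : Q'.coeff 4 * (φ' z₁ - φ' z₂) = 0 := by linear_combination u1 - u2
  rcases mul_eq_zero.1 u3 with h | h
  · exact l0' h
  · exact n12 (φ'.injective (sub_eq_zero.1 h))

end

end Pool.TU
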