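import Pool.Agent.Helper71.TU.AllDefs

/-! # TU K6: representatives -/

open Complex Set Filter Topology Metric Polynomial ComplexConjugate Pool.Tuning

namespace Pool.TU

noncomputable section

/-- the affine conjugate of a polynomial -/
def K6_T (a b : ℂ) (P : ℂ[X]) : ℂ[X] := C a⁻¹ * (P.comp (C a * X + C b) - C b)

theorem K6_eval {a b : ℂ} (ha : a ≠ 0) (P : ℂ[X]) (z : ℂ) :
    P.eval (a * z + b) = a * (K6_T a b P).eval z + b := by
  simp only [K6_T, eval_mul, eval_C, eval_sub, eval_comp, eval_add, eval_X]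
  field_simp
  ring

theorem K6_deg {a b : ℂ} (ha : a ≠ 0) (P : ℂ[X]) : (K6_T a b P).natDegree = P.natDegree := by
  unfold K6_T
  rw [natDegree_C_mul (inv_ne_zero ha), natDegree_sub_C, natDegree_comp,
    natDegree_linear ha, mul_one]

/-- the affine conjugation on `Poly D` -/
def K6_TP (D : ℕ) (a b : ℂ) (ha : a ≠ 0) (P : Poly D) : Poly D :=
  ⟨K6_T a b P.1, by rw [K6_deg ha]; exact P.2⟩

theorem K6_coeff_cont (D i : ℕ) : Continuous fun P : Poly D => P.1.coeff i := by
  have h : Continuous fun P : Poly D => fun i : ℕ => P.1.coeff i := continuous_induced_dom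
  exact (continuous_apply i).comp h

theorem K6_cont (D : ℕ) (a b : ℂ) (ha : a ≠ 0) : Continuous (K6_TP D a b ha) := by
  refine continuous_induced_rng.2 ?_
  refine continuous_pi fun i => ?_
  have h1 : (fun P : Poly D => ((fun P : Poly D => fun i : ℕ => P.1.coeff i) ∘
      (K6_TP D a b ha)) P i) = fun P : Poly D =>
      a⁻¹ * ((∑ j ∈ Finset.range (D + 1), P.1.coeff j * ((C a * X + C b) ^ j).coeff i) -
        (C b : ℂ[X]).coeff i) := by
    funext P
    show (K6_T a b P.1).coeff i = _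
    unfold K6_T
    rw [coeff_C_mul, coeff_sub, comp_eq_sum_left, Polynomial.sum_over_range' _ (by simp) (D + 1)
      (by rw [P.2]; exact Nat.lt_succ_self D), finsetSum_coeff]
    simp only [coeff_C_mul]
  rw [h1]
  refine continuous_const.mul (Continuous.sub ?_ continuous_const)
  refine continuous_finsetSum _ fun j _ => ?_
  exact (K6_coeff_cont D j).mul continuous_const

theorem K6_affConj_iff {P Q : ℂ[X]} : AffConj P Q ↔ ∃ a b : ℂ, a ≠ 0 ∧ Q = K6_T a b P := by
  constructor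
  · rintro ⟨a, b, ha, h⟩
    refine ⟨a, b, ha, ?_⟩
    refine Polynomial.funext fun z => ?_
    have h1 := h z
    rw [K6_eval ha] at h1
    have h2 := add_right_cancel h1
    exact (mul_left_cancel₀ ha h2).symm
  · rintro ⟨a, b, ha, rfl⟩
    exact ⟨a, b, ha, fun z => K6_eval ha P z⟩

theorem K6_mk_eq {D : ℕ} {P Q : Poly D} (h : MPoly.mk P = MPoly.mk Q) : AffConj P.1 Q.1 := by
  unfold MPoly.mk at h
  exact Quotient.exact h

theorem K6_mk_of {D : ℕ} {P Q : Poly D} (h : AffConj P.1 Q.1) : MPoly.mk P = MPoly.mk Q := by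
  unfold MPoly.mk
  exact Quotient.sound h

theorem K6_open (D : ℕ) : IsOpenMap (MPoly.mk (D := D)) := by
  intro U hU
  have hq : IsQuotientMap (MPoly.mk (D := D)) := isQuotientMap_quot_mk
  rw [← hq.isOpen_preimage]
  have h1 : MPoly.mk ⁻¹' (MPoly.mk '' U) = ⋃ (a : ℂ) (b : ℂ) (ha : a ≠ 0),
      K6_TP D a b ha ⁻¹' U := by
    ext P
    simp only [mem_preimage, mem_image, mem_iUnion]
    constructor
    · rintro ⟨Q, hQ, he⟩
      obtain ⟨a, b, ha, hab⟩ := K6_affConj_iff.1 (K6_mk_eq he.symm)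
      refine ⟨a, b, ha, ?_⟩
      have : K6_TP D a b ha P = Q := Subtype.ext hab.symm
      rw [this]
      exact hQ
    · rintro ⟨a, b, ha, hP⟩
      refine ⟨K6_TP D a b ha P, hP, ?_⟩
      exact (K6_mk_of (K6_affConj_iff.2 ⟨a, b, ha, rfl⟩)).symm
  rw [h1]
  exact isOpen_iUnion fun a => isOpen_iUnion fun b => isOpen_iUnion fun ha =>
    hU.preimage (K6_cont D a b ha)

/-- convergence of classes is convergence of suitable representatives -/
theorem mpoly_lift {D : ℕ} {P : ℕ → Poly D} {Q : Poly D}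
    (h : Tendsto (fun n => MPoly.mk (P n)) atTop (𝓝 (MPoly.mk Q))) :
    ∃ P' : ℕ → Poly D, (∀ n, AffConj (P n).1 (P' n).1) ∧
      ∀ i, Tendsto (fun n => (P' n).1.coeff i) atTop (𝓝 (Q.1.coeff i)) := by
  classical
  have : (𝓝 Q).IsCountablyGenerated := by
    have : 𝓝 Q = comap (fun P : Poly D => fun i : ℕ => P.1.coeff i)
        (𝓝 (fun i : ℕ => Q.1.coeff i)) := nhds_induced _ _
    rw [this]
    infer_instance
  obtain ⟨U, hU⟩ := (𝓝 Q).exists_antitone_basis
  have hev : ∀ k, ∀ᶠ n in atTop, MPoly.mk (P n) ∈ MPoly.mk '' U k := fun k =>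
    h ((K6_open D).image_mem_nhds (hU.mem k))
  set kk : ℕ → ℕ := fun n => Nat.findGreatest (fun k => MPoly.mk (P n) ∈ MPoly.mk '' U k) n
    with hkk
  have hchoice : ∀ n, ∃ P' : Poly D, MPoly.mk P' = MPoly.mk (P n) ∧
      (MPoly.mk (P n) ∈ MPoly.mk '' U (kk n) → P' ∈ U (kk n)) := by
    intro n
    by_cases h1 : MPoly.mk (P n) ∈ MPoly.mk '' U (kk n)
    · obtain ⟨P', hP', he⟩ := h1
      exact ⟨P', he, fun _ => hP'⟩
    · exact ⟨P n, rfl, fun h2 => absurd h2 h1⟩
  choose P' hP1 hP2 using hchoice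
  have hlim : Tendsto P' atTop (𝓝 Q) := by
    rw [hU.toHasBasis.tendsto_right_iff]
    intro m _
    filter_upwards [hev m, eventually_ge_atTop m] with n hn hmn
    have h1 : m ≤ kk n := Nat.le_findGreatest hmn hn
    have h2 : MPoly.mk (P n) ∈ MPoly.mk '' U (kk n) :=
      Nat.findGreatest_spec (P := fun k => MPoly.mk (P n) ∈ MPoly.mk '' U k) hmn hn
    exact hU.antitone h1 (hP2 n h2)
  refine ⟨P', fun n => K6_mk_eq (hP1 n).symm, fun i => ?_⟩
  exact ((K6_coeff_cont D i).tendsto Q).comp hlim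

end

end Pool.TU
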