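import Pool.Agent.Helper71.TU.K3
import Pool.Agent.Helper71.TU.K5
import Pool.Agent.Helper71.TU.K6

/-! # TU K7: assembly -/

open Complex Set Filter Topology Metric Polynomial ComplexConjugate Pool.Tuning

namespace Pool.TU

noncomputable section

/-- the negative answer, given the two tuned polynomials -/
theorem negative {x : ℕ → AdmPair 4 (-2)} {y : AdmPair 4 (-2)} {P P' : ℂ[X]}
    (hP : DHyp P) (hP' : DPar P') (dP : P.natDegree = 4) (dP' : P'.natDegree = 4)
    (hx : ∀ n, Tuned (x n).1.1.1 (x n).1.2 (-2) P) (hy : Tuned y.1.1.1 y.1.2 (-2) P')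
    (Q : AdmPair 4 (-2) → Poly 4)
    (hQ : ∀ z : AdmPair 4 (-2), Tuned z.1.1.1 z.1.2 (-2) (Q z).1) :
    ¬ Tendsto (fun n => MPoly.mk (Q (x n))) atTop (𝓝 (MPoly.mk (Q y))) := by
  intro hlim
  obtain ⟨P', hP1, hP2⟩ := mpoly_lift hlim
  refine no_limit hP hP' dP dP' (Q := fun n => (P' n).1) (Q' := (Q y).1) (fun n => (P' n).2)
    (Q y).2 (fun n => ?_) ?_ hP2
  · exact (tuned_topConj (x n).2.1.fix (hx n) (hQ (x n))).trans (TopConj.of_affConj (hP1 n))
  · exact tuned_topConj y.2.1.fix hy (hQ y)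

end

end Pool.TU
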