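import Pool.Agent.Helper71.TU.L1
import Pool.Agent.Helper71.TU.L2

/-! # TU L3: hats -/

open Complex Set Filter Topology Metric Polynomial ComplexConjugate Pool.Tuning

namespace Pool.TU

noncomputable section

namespace L3aux

theorem convex_UU : Convex ℝ UU := convex_halfSpace_re_le 0

theorem exp_mem_DD {u : ℂ} (hu : u ∈ UU) : exp u ∈ DD := by
  have h : u.re ≤ 0 := hu
  unfold DD
  rw [mem_closedBall_zero_iff, Complex.norm_exp]
  exact Real.exp_le_one_iff.2 h

theorem re_tpi : tpi.re = 0 := by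
  unfold tpi
  simp

theorem exp_tpi : exp tpi = 1 := by
  unfold tpi
  exact Complex.exp_two_pi_mul_I

theorem exp_int_tpi (k : ℤ) : exp (k * tpi) = 1 := by
  rw [Complex.exp_int_mul, exp_tpi, one_zpow]

theorem re_int_tpi (k : ℤ) : ((k : ℂ) * tpi).re = 0 := by
  unfold tpi
  simp

theorem add_int_mem {u : ℂ} (hu : u ∈ UU) (k : ℤ) : u + k * tpi ∈ UU := by
  have h : u.re ≤ 0 := hu
  show (u + k * tpi).re ≤ 0
  rw [Complex.add_re, re_int_tpi, add_zero]
  exact h

theorem add_tpi_mem {u : ℂ} (hu : u ∈ UU) : u + tpi ∈ UU := by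
  have h : u.re ≤ 0 := hu
  show (u + tpi).re ≤ 0
  rw [Complex.add_re, re_tpi, add_zero]
  exact h

theorem zero_mem_UU : (0 : ℂ) ∈ UU := by
  show (0 : ℂ).re ≤ 0
  simp

theorem ofReal_mul_I_mem (θ : ℝ) : (θ : ℂ) * I ∈ UU := by
  show ((θ : ℂ) * I).re ≤ 0
  simp

theorem circ_aux {κ κ' : ℝ} {R H : ℂ → ℂ} {ρ : ℝ → ℝ} (hR : RMap κ κ' R ρ)
    (hc : ContinuousOn H UU) (he : ∀ u ∈ UU, exp (H u) = R (exp u)) (h0 : H 0 = 0) :
    ∀ θ ∈ Icc 0 (2 * Real.pi), H (θ * I) = ρ θ * I := by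
  have hpi := Real.pi_pos
  apply log_unique (a := fun θ : ℝ => H (θ * I)) (b := fun θ : ℝ => (ρ θ : ℂ) * I)
    isPreconnected_Icc (x0 := 0)
  · exact hc.comp (by fun_prop) (fun θ _ => ofReal_mul_I_mem θ)
  · exact (Complex.continuous_ofReal.comp_continuousOn hR.ρcont).mul continuousOn_const
  · intro θ hθ
    rw [he _ (ofReal_mul_I_mem θ)]
    exact hR.circ θ hθ
  · exact ⟨le_rfl, by positivity⟩
  · simp [h0, hR.ρ0]

end L3aux

open L3aux

theorem exists_hat {κ κ' : ℝ} {R : ℂ → ℂ} {ρ : ℝ → ℝ} (hR : RMap κ κ' R ρ) :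
    ∃ H, IsHat R H := by
  have hpi := Real.pi_pos
  have hg : ContinuousOn (fun u => R (exp u)) UU :=
    hR.cont.comp Complex.continuous_exp.continuousOn (fun u hu => exp_mem_DD hu)
  obtain ⟨L, hL, hL1⟩ := exists_log convex_UU (fun u => R (exp u)) hg (fun u hu h =>
    Complex.exp_ne_zero u ((hR.zero _ (exp_mem_DD hu)).1 h))
  have hL0 : exp (L 0) = 1 := by
    rw [hL1 0 zero_mem_UU]
    simp only [Complex.exp_zero]
    refine (hR.one 1 ?_).2 rfl
    unfold DD
    simp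
  set H : ℂ → ℂ := fun u => L u - L 0 with hH
  have hHc : ContinuousOn H UU := hL.sub continuousOn_const
  have hHe : ∀ u ∈ UU, exp (H u) = R (exp u) := by
    intro u hu
    rw [hH]
    simp only
    rw [Complex.exp_sub, hL0, div_one, hL1 u hu]
  have hH0 : H 0 = 0 := sub_self _
  have hcirc := circ_aux hR hHc hHe hH0
  refine ⟨H, hHc, ?_, hHe, ?_, hH0⟩
  · intro u hu
    have h1 : ‖exp (H u)‖ ≤ 1 := by
      rw [hHe u hu]
      have := hR.maps (exp_mem_DD hu)
      unfold DD at this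
      rwa [mem_closedBall_zero_iff] at this
    rw [Complex.norm_exp] at h1
    exact Real.exp_le_one_iff.1 h1
  · apply log_unique (a := fun u => H (u + tpi)) (b := fun u => H u + tpi)
      convex_UU.isPreconnected (x0 := 0)
    · exact hHc.comp (by fun_prop) (fun u hu => add_tpi_mem hu)
    · exact hHc.add continuousOn_const
    · intro u hu
      rw [hHe _ (add_tpi_mem hu), Complex.exp_add, Complex.exp_add, exp_tpi, mul_one, mul_one,
        hHe u hu]
    · exact zero_mem_UU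
    · simp only [zero_add, hH0]
      have h1 := hcirc (2 * Real.pi) ⟨by positivity, le_rfl⟩
      rw [hR.ρ1] at h1
      have h2 : (((2 * Real.pi : ℝ) : ℂ) * I) = tpi := by
        unfold tpi
        push_cast
        ring
      rwa [h2] at h1

theorem hat_unique {R H K : ℂ → ℂ} (hH : IsHat R H) (hK : IsHat R K)
    (_h0 : ∀ z ∈ DD, R z = 0 ↔ z = 0) : ∀ u ∈ UU, H u = K u :=
  log_unique convex_UU.isPreconnected hH.cont hK.cont
    (fun u hu => by rw [hH.exp_eq u hu, hK.exp_eq u hu]) zero_mem_UU (by rw [hH.zero, hK.zero])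

theorem hat_circ {κ κ' : ℝ} {R H : ℂ → ℂ} {ρ : ℝ → ℝ} (hR : RMap κ κ' R ρ) (hH : IsHat R H) :
    ∀ θ ∈ Icc 0 (2 * Real.pi), H (θ * I) = ρ θ * I :=
  circ_aux hR hH.cont hH.exp_eq hH.zero

theorem hat_shift {R H : ℂ → ℂ} (hH : IsHat R H) (k : ℤ) :
    ∀ u ∈ UU, H (u + k * tpi) = H u + k * tpi := by
  induction k using Int.induction_on with
  | zero => intro u _; simp
  | succ k ih =>
    intro u hu
    have h1 := hH.period _ (add_int_mem hu k)
    have e1 : u + ((k : ℤ) : ℂ) * tpi + tpi = u + (((k : ℤ) + 1 : ℤ) : ℂ) * tpi := by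
      push_cast; ring
    rw [e1, ih u hu] at h1
    rw [h1]
    push_cast; ring
  | pred k ih =>
    intro u hu
    have h1 := hH.period _ (add_int_mem hu (-(k : ℤ) - 1))
    have e1 : u + ((-(k : ℤ) - 1 : ℤ) : ℂ) * tpi + tpi = u + ((-(k : ℤ) : ℤ) : ℂ) * tpi := by
      push_cast; ring
    rw [e1, ih u hu] at h1
    have h2 : H (u + ((-(k : ℤ) - 1 : ℤ) : ℂ) * tpi) = H u + ((-(k : ℤ) : ℤ) : ℂ) * tpi - tpi := by
      rw [h1]; ring
    rw [h2]
    push_cast; ring

theorem hat_int {R H : ℂ → ℂ} (hH : IsHat R H) (k : ℤ) : H (k * tpi) = k * tpi := by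
  have := hat_shift hH k 0 zero_mem_UU
  rwa [zero_add, hH.zero, zero_add] at this

/-- on the imaginary axis a hat is imaginary -/
theorem hat_re {κ κ' : ℝ} {R H : ℂ → ℂ} {ρ : ℝ → ℝ} (hR : RMap κ κ' R ρ) (hH : IsHat R H)
    (θ : ℝ) : (H (θ * I)).re = 0 := by
  have h1 := hH.exp_eq _ (ofReal_mul_I_mem θ)
  obtain ⟨θ0, hθ0, he⟩ := exists_ec (norm_ec θ)
  have h2 : exp ((θ : ℂ) * I) = ec θ0 := he
  rw [h2, hR.circ θ0 ⟨hθ0.1, hθ0.2.le⟩] at h1
  have h3 : ‖exp (H (θ * I))‖ = 1 := by rw [h1, norm_ec]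
  rw [Complex.norm_exp] at h3
  exact (Real.exp_eq_one_iff _).1 h3

/-- if two maps with hats agree on a preconnected set `N ∋ 1` in the right half plane, the
hats agree over `N` -/
theorem hat_agree_near_one {R K H L : ℂ → ℂ} (hR : IsHat R H) (hK : IsHat K L) {N : Set ℂ}
    (hN : IsPreconnected N) (hND : N ⊆ DD) (h1 : (1 : ℂ) ∈ N) (hre : ∀ z ∈ N, 0 < z.re)
    (h : ∀ z ∈ N, R z = K z) : ∀ u ∈ UU, exp u ∈ N → H u = L u := by
  have hlogc : ContinuousOn Complex.log N := by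
    intro z hz
    exact (continuousAt_clog (Or.inl (hre z hz))).continuousWithinAt
  have hS : IsPreconnected (Complex.log '' N) := hN.image _ hlogc
  have hne : ∀ z ∈ N, z ≠ 0 := by
    intro z hz h0
    have := hre z hz
    rw [h0] at this
    simp at this
  have hsub : Complex.log '' N ⊆ UU := by
    rintro _ ⟨z, hz, rfl⟩
    show (Complex.log z).re ≤ 0
    rw [Complex.log_re]
    apply Real.log_nonpos (norm_nonneg _)
    have := hND hz
    unfold DD at this
    rwa [mem_closedBall_zero_iff] at this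
  have key : ∀ v ∈ Complex.log '' N, H v = L v := by
    apply log_unique hS (hR.cont.mono hsub) (hK.cont.mono hsub) (x0 := 0)
    · intro v hv
      rw [hR.exp_eq v (hsub hv), hK.exp_eq v (hsub hv)]
      obtain ⟨z, hz, rfl⟩ := hv
      rw [Complex.exp_log (hne z hz)]
      exact h z hz
    · exact ⟨1, h1, Complex.log_one⟩
    · rw [hR.zero, hK.zero]
  intro u hu hexp
  have hv : Complex.log (exp u) ∈ Complex.log '' N := ⟨_, hexp, rfl⟩
  have he : exp u = exp (Complex.log (exp u)) := (Complex.exp_log (Complex.exp_ne_zero u)).symm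
  obtain ⟨n, hn⟩ := Complex.exp_eq_exp_iff_exists_int.1 he
  have hn' : u = Complex.log (exp u) + n * tpi := hn
  rw [hn', hat_shift hR n _ (hsub hv), hat_shift hK n _ (hsub hv), key _ hv]

end

end Pool.TU
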