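import Pool.Agent.Helper71.TU.B5

/-! # TU N1: the perturbed polynomials -/

open Complex Set Filter Topology Metric Polynomial ComplexConjugate Pool.Tuning

namespace Pool.TU

noncomputable section

/-- the leading coefficient -/
private def kR (ε : ℝ) : ℝ := 1 / ((1 + ε ^ 2) * (17 / 10))

private theorem kR_pos (ε : ℝ) : 0 < kR ε := by
  unfold kR
  positivity

private theorem kR_mul (ε : ℝ) : kR ε * ((1 + ε ^ 2) * (17 / 10)) = 1 := by
  unfold kR
  field_simp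

private theorem fR_eq (ε : ℝ) : fR ε = C (kR ε) * X ^ 4 + C (3 / 10 * kR ε) * X ^ 3 +
    C ((ε ^ 2 - 7 / 10) * kR ε) * X ^ 2 + C (1 + 3 / 10 * ε ^ 2 * kR ε) * X +
    C (-(7 / 10) * ε ^ 2 * kR ε) := by
  apply Polynomial.funext
  intro x
  have : kR ε = 1 / ((1 + ε ^ 2) * (17 / 10)) := rfl
  unfold fR
  rw [← this]
  simp only [eval_add, eval_mul, eval_sub, eval_pow, eval_X, eval_C, eval_one]
  ring

private theorem q_ev (a b c d e : ℝ) (z : ℂ) :
    ((C a * X ^ 4 + C b * X ^ 3 + C c * X ^ 2 + C d * X + C e : ℝ[X]).map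
      (algebraMap ℝ ℂ)).eval z = a * z ^ 4 + b * z ^ 3 + c * z ^ 2 + d * z + e := by
  simp

private theorem q_de (a b c d e : ℝ) (z : ℂ) :
    ((C a * X ^ 4 + C b * X ^ 3 + C c * X ^ 2 + C d * X + C e : ℝ[X]).map
      (algebraMap ℝ ℂ)).derivative.eval z = 4 * a * z ^ 3 + 3 * b * z ^ 2 + 2 * c * z + d := by
  simp
  ring

private theorem q_deg (a b c d e : ℝ) (ha : a ≠ 0) :
    (C a * X ^ 4 + C b * X ^ 3 + C c * X ^ 2 + C d * X + C e : ℝ[X]).natDegree = 4 := by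
  compute_degree!

private theorem q_co (a b c d e : ℝ) :
    (C a * X ^ 4 + C b * X ^ 3 + C c * X ^ 2 + C d * X + C e : ℝ[X]).coeff 4 = a := by
  simp [Polynomial.coeff_X_pow]

private theorem fR_deg (ε : ℝ) : (fR ε).natDegree = 4 := by
  rw [fR_eq]
  exact q_deg _ _ _ _ _ (kR_pos ε).ne'

private theorem fR_lead (ε : ℝ) : (fR ε).leadingCoeff = kR ε := by
  rw [Polynomial.leadingCoeff, fR_deg, fR_eq]
  exact q_co _ _ _ _ _

/-- the function -/
private def hF (ε : ℝ) (z : ℂ) : ℂ :=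
  z + (kR ε : ℂ) * (z ^ 4 + 3 / 10 * z ^ 3 + ((ε : ℂ) ^ 2 - 7 / 10) * z ^ 2 +
    3 / 10 * (ε : ℂ) ^ 2 * z - 7 / 10 * (ε : ℂ) ^ 2)

private theorem fR_ev (ε : ℝ) (z : ℂ) : ((fR ε).map (algebraMap ℝ ℂ)).eval z = hF ε z := by
  rw [fR_eq, q_ev]
  unfold hF
  push_cast
  ring

private theorem fR_de (ε : ℝ) (z : ℂ) : ((fR ε).map (algebraMap ℝ ℂ)).derivative.eval z =
    1 + (kR ε : ℂ) * (4 * z ^ 3 + 9 / 10 * z ^ 2 + 2 * ((ε : ℂ) ^ 2 - 7 / 10) * z +
      3 / 10 * (ε : ℂ) ^ 2) := by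
  rw [fR_eq, q_de]
  push_cast
  ring

/-- the critical point -/
private def cR (ε : ℝ) : ℂ := ⟨31 / 80, Real.sqrt ((17.59 + 32 * ε ^ 2) / 64)⟩

private theorem cR_sq (ε : ℝ) : cR ε ^ 2 = 31 / 40 * cR ε - (17 / 40 + (ε : ℂ) ^ 2 / 2) := by
  have h1 : Real.sqrt ((17.59 + 32 * ε ^ 2) / 64) ^ 2 = (17.59 + 32 * ε ^ 2) / 64 :=
    Real.sq_sqrt (by positivity)
  have h2 : (31 / 40 * cR ε - (17 / 40 + (ε : ℂ) ^ 2 / 2) : ℂ) =
      ((31 / 40 : ℝ) : ℂ) * cR ε - ((17 / 40 + ε ^ 2 / 2 : ℝ) : ℂ) := by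
    push_cast
    ring
  rw [h2]
  apply Complex.ext
  · rw [pow_two, Complex.mul_re, Complex.sub_re, Complex.re_ofReal_mul, Complex.ofReal_re]
    unfold cR
    dsimp only
    nlinarith
  · rw [pow_two, Complex.mul_im, Complex.sub_im, Complex.im_ofReal_mul, Complex.ofReal_im]
    unfold cR
    dsimp only
    ring

private theorem cR_im (ε : ℝ) : 0 < (cR ε).im := by
  unfold cR
  exact Real.sqrt_pos.mpr (by positivity)

private theorem cR_add (ε : ℝ) : cR ε + conj (cR ε) = 31 / 40 := by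
  apply Complex.ext
  · rw [show (31 / 40 : ℂ) = ((31 / 40 : ℝ) : ℂ) by push_cast; ring, Complex.ofReal_re,
      Complex.add_re, Complex.conj_re]
    unfold cR
    norm_num
  · rw [show (31 / 40 : ℂ) = ((31 / 40 : ℝ) : ℂ) by push_cast; ring, Complex.ofReal_im,
      Complex.add_im, Complex.conj_im]
    ring

private theorem cR_cont : Continuous cR := by
  have h1 : cR = fun ε => ((31 / 80 : ℝ) : ℂ) +
      ((Real.sqrt ((17.59 + 32 * ε ^ 2) / 64) : ℝ) : ℂ) * I := by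
    funext ε
    exact (Complex.re_add_im (cR ε)).symm
  rw [h1]
  fun_prop

private theorem kR_cont : Continuous kR := by
  unfold kR
  refine continuous_const.div (by fun_prop) ?_
  intro ε
  positivity

private theorem hF_cont {g : ℝ → ℂ} (hg : Continuous g) : Continuous (fun ε => hF ε (g ε)) := by
  unfold hF
  have := kR_cont
  fun_prop

private theorem im_lin (a b : ℝ) (z : ℂ) : ((a : ℂ) + (b : ℂ) * z).im = b * z.im := by
  rw [Complex.add_im, Complex.im_ofReal_mul, Complex.ofReal_im, zero_add]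

private theorem kR0 : kR 0 = 10 / 17 := by
  unfold kR
  norm_num

private theorem v0 : hF 0 (cR 0) =
    ((467 / 6400 : ℝ) : ℂ) + ((65083 / 108800 : ℝ) : ℂ) * cR 0 := by
  have h := cR_sq 0
  unfold hF
  rw [kR0]
  push_cast at h ⊢
  linear_combination (-467 / 2720 + 43 / 68 * cR 0 + 10 / 17 * cR 0 ^ 2) * h

private theorem w0 : hF 0 (((467 / 6400 : ℝ) : ℂ) + ((65083 / 108800 : ℝ) : ℂ) * cR 0) =
    ((84820160733247330160919 / 896799908823040000000000 : ℝ) : ℂ) +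
      ((7085270911517779748174431 / 15245598449991680000000000 : ℝ) : ℂ) * cR 0 := by
  have h := cR_sq 0
  unfold hF
  rw [kR0]
  push_cast at h ⊢
  linear_combination (-21271509109379147568919 / 381139961249792000000000 +
    1266304603647099454031 / 9528499031244800000000 * cR 0 +
    17941975284862078321 / 238212475781120000000 * cR 0 ^ 2) * h

theorem rq_feps : ∃ ε₀ : ℝ, 0 < ε₀ ∧ ∀ ε : ℝ, 0 < ε → ε < ε₀ →
    ∃ q : RQ, q.p = fR ε ∧ q.r = -1 ∧ HasAtt q := by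
  have c1 : Continuous (fun ε => (hF ε (cR ε)).im) :=
    Complex.continuous_im.comp (hF_cont cR_cont)
  have c2 : Continuous (fun ε => (hF ε (hF ε (cR ε))).im) :=
    Complex.continuous_im.comp (hF_cont (hF_cont cR_cont))
  have p1 : 0 < (hF 0 (cR 0)).im := by
    rw [v0, im_lin]
    have := cR_im 0
    positivity
  have p2 : 0 < (hF 0 (hF 0 (cR 0))).im := by
    rw [v0, w0, im_lin]
    have := cR_im 0
    positivity
  have e1 : ∀ᶠ ε in 𝓝 (0 : ℝ), 0 < (hF ε (cR ε)).im := (c1.tendsto 0).eventually_const_lt p1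
  have e2 : ∀ᶠ ε in 𝓝 (0 : ℝ), 0 < (hF ε (hF ε (cR ε))).im := (c2.tendsto 0).eventually_const_lt p2
  obtain ⟨δ, hδ, hδ2⟩ := Metric.eventually_nhds_iff.mp (e1.and e2)
  refine ⟨min δ (1 / 10), lt_min hδ (by norm_num), ?_⟩
  intro ε hε hε2
  have hε3 : ε < δ := hε2.trans_le (min_le_left _ _)
  have hε4 : ε < 1 / 10 := hε2.trans_le (min_le_right _ _)
  obtain ⟨q1, q2⟩ := hδ2 (y := ε) (by rw [Real.dist_eq, sub_zero, abs_of_pos hε]; exact hε3)
  have hk := kR_mul ε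
  have hkC : (kR ε : ℂ) * ((1 + (ε : ℂ) ^ 2) * (17 / 10)) = 1 := by
    have h := congrArg (fun x : ℝ => (x : ℂ)) hk
    push_cast at h
    exact h
  have hder : ∀ z : ℂ, ((fR ε).map (algebraMap ℝ ℂ)).derivative.eval z =
      4 * ((fR ε).leadingCoeff : ℂ) * (z - ((-1 : ℝ) : ℂ)) * (z - cR ε) * (z - conj (cR ε)) := by
    intro z
    rw [fR_de, fR_lead]
    have h1 : conj (cR ε) = 31 / 40 - cR ε := by
      rw [← cR_add ε]
      ring
    rw [h1]
    push_cast
    linear_combination -hkC + (4 * (kR ε : ℂ) * (z + 1)) * cR_sq ε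
  refine ⟨⟨fR ε, -1, cR ε, fR_deg ε, by rw [fR_lead]; exact kR_pos ε, cR_im ε, hder, ?_, ?_⟩,
    rfl, rfl, ?_⟩
  · rw [fR_ev]
    exact q1
  · rw [fR_ev, fR_ev]
    exact q2
  · have hI : (ε * I : ℂ) ^ 2 = -(ε : ℂ) ^ 2 := by
      rw [mul_pow, Complex.I_sq]
      ring
    have hd : ((fR ε).map (algebraMap ℝ ℂ)).derivative.eval (ε * I) =
        ((1 - 6 / 10 * ε ^ 2 * kR ε : ℝ) : ℂ) +
          ((-(ε * kR ε * (14 / 10 + 2 * ε ^ 2)) : ℝ) : ℂ) * I := by
      rw [fR_de]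
      push_cast
      linear_combination ((kR ε : ℂ) * (4 * (ε * I) + 9 / 10)) * hI
    refine ⟨ε * I, ?_, ?_, ?_, ?_⟩
    · simpa using hε
    · show ((fR ε).map (algebraMap ℝ ℂ)).eval (ε * I) = ε * I
      rw [fR_ev]
      unfold hF
      linear_combination ((kR ε : ℂ) * ((ε * I) ^ 2 - (ε : ℂ) ^ 2 + 3 / 10 * (ε * I) +
        ((ε : ℂ) ^ 2 - 7 / 10))) * hI
    · show ((fR ε).map (algebraMap ℝ ℂ)).derivative.eval (ε * I) ≠ 0
      rw [hd]
      intro h
      have h1 := congrArg Complex.re h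
      rw [Complex.add_re, Complex.ofReal_re, Complex.re_ofReal_mul, Complex.I_re,
        Complex.zero_re] at h1
      have hkp := kR_pos ε
      nlinarith
    · show ‖((fR ε).map (algebraMap ℝ ℂ)).derivative.eval (ε * I)‖ < 1
      rw [hd, ← sq_lt_one_iff₀ (norm_nonneg _), ← Complex.normSq_eq_norm_sq, Complex.normSq_apply,
        Complex.add_re, Complex.add_im, Complex.re_ofReal_mul, Complex.im_ofReal_mul,
        Complex.ofReal_re, Complex.ofReal_im, Complex.I_re, Complex.I_im]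
      have hkp := kR_pos ε
      obtain ⟨e, he⟩ : ∃ e : ℝ, e = ε ^ 2 := ⟨_, rfl⟩
      obtain ⟨k, hk'⟩ : ∃ k : ℝ, k = kR ε := ⟨_, rfl⟩
      have he0 : 0 < e := by rw [he]; positivity
      have he1 : e < 1 / 100 := by rw [he]; nlinarith
      have hgoal : (1 - 6 / 10 * ε ^ 2 * kR ε + -(ε * kR ε * (14 / 10 + 2 * ε ^ 2)) * 0) *
          (1 - 6 / 10 * ε ^ 2 * kR ε + -(ε * kR ε * (14 / 10 + 2 * ε ^ 2)) * 0) +
          (0 + -(ε * kR ε * (14 / 10 + 2 * ε ^ 2)) * 1) *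
          (0 + -(ε * kR ε * (14 / 10 + 2 * ε ^ 2)) * 1) - 1 =
          e * k * (-(12 / 10) + k * (36 / 100 * e + (14 / 10 + 2 * e) ^ 2)) := by
        rw [he, hk']
        ring
      have h2 : k * (36 / 100 * e + (14 / 10 + 2 * e) ^ 2) < 12 / 10 := by
        have h3 : k * ((1 + e) * (17 / 10)) = 1 := by rw [he, hk']; exact hk
        have h4 : 36 / 100 * e + (14 / 10 + 2 * e) ^ 2 < 12 / 10 * ((1 + e) * (17 / 10)) := by
          nlinarith
        rw [← hk'] at hkp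
        calc k * (36 / 100 * e + (14 / 10 + 2 * e) ^ 2)
            < k * (12 / 10 * ((1 + e) * (17 / 10))) := by
              exact mul_lt_mul_of_pos_left h4 hkp
          _ = 12 / 10 := by linear_combination (12 / 10) * h3
      have h5 : e * k * (-(12 / 10) + k * (36 / 100 * e + (14 / 10 + 2 * e) ^ 2)) < 0 := by
        rw [← hk'] at hkp
        exact mul_neg_of_pos_of_neg (mul_pos he0 hkp) (by linarith)
      linarith

end

end Pool.TU
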