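import Pool.Agent.Helper71.TU.B5

/-! # TU N2: the limit polynomial -/

open Complex Set Filter Topology Metric Polynomial ComplexConjugate Pool.Tuning

namespace Pool.TU

noncomputable section

namespace N2

theorem f0_eq : fR 0 = C (10 / 17) * X ^ 4 + C (3 / 17) * X ^ 3 + C (-(7 / 17)) * X ^ 2 + X := by
  have e : (C (1 / ((1 + (0:ℝ) ^ 2) * (17 / 10))) : ℝ[X]) = C (10 / 17) := by
    congr 1; norm_num
  have e2 : (C (7 / 10) : ℝ[X]) * C (10 / 17) = C (7 / 17) := by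
    rw [← C_mul]; congr 1; norm_num
  have e3 : (C (3 / 17) : ℝ[X]) = C (10 / 17) - C (7 / 17) := by
    rw [← C_sub]; congr 1; norm_num
  have e4 : (C (0 ^ 2) : ℝ[X]) = 0 := by norm_num
  have e5 : (C (-(7 / 17)) : ℝ[X]) = - C (7 / 17) := by rw [← C_neg]
  unfold fR
  rw [e, e4, e3, e5, ← e2]
  ring

theorem h0_eval (z : ℂ) : ((fR 0).map (algebraMap ℝ ℂ)).eval z =
    z - 7 / 17 * z ^ 2 + 3 / 17 * z ^ 3 + 10 / 17 * z ^ 4 := by
  rw [f0_eq]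
  simp
  ring

theorem d0_eval (z : ℂ) : ((fR 0).map (algebraMap ℝ ℂ)).derivative.eval z =
    1 - 14 / 17 * z + 9 / 17 * z ^ 2 + 40 / 17 * z ^ 3 := by
  rw [f0_eq]
  simp
  ring

theorem deg0 : (fR 0).natDegree = 4 := by
  rw [f0_eq]
  compute_degree!

theorem lead0 : (fR 0).leadingCoeff = 10 / 17 := by
  rw [Polynomial.leadingCoeff, deg0, f0_eq]
  simp [coeff_X]

/-- the critical point -/
def c0 : ℂ := ⟨31 / 80, Real.sqrt 1759 / 80⟩

theorem sq_s : Real.sqrt 1759 * Real.sqrt 1759 = 1759 :=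
  Real.mul_self_sqrt (by norm_num)

theorem s_pos : 0 < Real.sqrt 1759 := Real.sqrt_pos.2 (by norm_num)

theorem c0_sq : c0 ^ 2 = 31 / 40 * c0 - 17 / 40 := by
  have h := sq_s
  rw [sq]
  apply Complex.ext
  · simp [c0]
    nlinarith
  · simp [c0]
    ring

theorem c0_conj_sum : conj c0 = 31 / 40 - c0 := by
  apply Complex.ext
  · simp [c0]; norm_num
  · simp [c0]

theorem c0_cu : c0 ^ 3 = 281 / 1600 * c0 - 527 / 1600 := by
  linear_combination (c0 + 31 / 40) * c0_sq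

theorem c0_qu : c0 ^ 4 = -(12369 / 64000) * c0 - 4777 / 64000 := by
  linear_combination c0 * c0_cu + 281 / 1600 * c0_sq

theorem v_eq : ((fR 0).map (algebraMap ℝ ℂ)).eval c0 = 467 / 6400 + 65083 / 108800 * c0 := by
  rw [h0_eval]
  linear_combination (10 / 17) * c0_qu + (3 / 17) * c0_cu - (7 / 17) * c0_sq

theorem hv_eq : ((fR 0).map (algebraMap ℝ ℂ)).eval (467 / 6400 + 65083 / 108800 * c0) =
    84820160733247330160919 / 896799908823040000000000 +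
    7085270911517779748174431 / 15245598449991680000000000 * c0 := by
  rw [h0_eval]
  set a : ℂ := 467 / 6400
  set b : ℂ := 65083 / 108800
  have e2 : (a + b * c0) ^ 2 = a ^ 2 + 2 * a * b * c0 + b ^ 2 * (31 / 40 * c0 - 17 / 40) := by
    rw [← c0_sq]; ring
  have e3 : (a + b * c0) ^ 3 = a ^ 3 + 3 * a ^ 2 * b * c0 + 3 * a * b ^ 2 * (31 / 40 * c0 - 17 / 40)
      + b ^ 3 * (281 / 1600 * c0 - 527 / 1600) := by
    rw [← c0_sq, ← c0_cu]; ring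
  have e4 : (a + b * c0) ^ 4 = a ^ 4 + 4 * a ^ 3 * b * c0 +
      6 * a ^ 2 * b ^ 2 * (31 / 40 * c0 - 17 / 40)
      + 4 * a * b ^ 3 * (281 / 1600 * c0 - 527 / 1600)
      + b ^ 4 * (-(12369 / 64000) * c0 - 4777 / 64000) := by
    rw [← c0_sq, ← c0_cu, ← c0_qu]; ring
  rw [e2, e3, e4]
  simp only [a, b]
  ring

theorem c0_im : c0.im = Real.sqrt 1759 / 80 := rfl

theorem c0_re : c0.re = 31 / 80 := rfl

theorem v_im_pos : 0 < (((fR 0).map (algebraMap ℝ ℂ)).eval c0).im := by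
  rw [v_eq]
  have e : (467 / 6400 + 65083 / 108800 * c0 : ℂ) =
      ((467 / 6400 : ℝ) : ℂ) + ((65083 / 108800 : ℝ) : ℂ) * c0 := by push_cast; ring
  rw [e, add_im, ofReal_im, im_ofReal_mul, c0_im]
  have := s_pos
  positivity

theorem hv_im_pos : 0 < (((fR 0).map (algebraMap ℝ ℂ)).eval
    (((fR 0).map (algebraMap ℝ ℂ)).eval c0)).im := by
  rw [v_eq, hv_eq]
  have e : (84820160733247330160919 / 896799908823040000000000 +
    7085270911517779748174431 / 15245598449991680000000000 * c0 : ℂ) =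
      ((84820160733247330160919 / 896799908823040000000000 : ℝ) : ℂ) +
      ((7085270911517779748174431 / 15245598449991680000000000 : ℝ) : ℂ) * c0 := by
    push_cast; ring
  rw [e, add_im, ofReal_im, im_ofReal_mul, c0_im]
  have := s_pos
  positivity

/-- the real quartic -/
def q0 : RQ where
  p := fR 0
  r := -1
  c := c0
  deg := deg0
  lead := by rw [lead0]; norm_num
  hc := by rw [c0_im]; have := s_pos; positivity
  der := by
    intro z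
    rw [d0_eval, lead0, c0_conj_sum]
    push_cast
    linear_combination (40 / 17) * (z + 1) * c0_sq
  hv := v_im_pos
  hvv := hv_im_pos

theorem v_mem : ((fR 0).map (algebraMap ℝ ℂ)).eval c0 ∈ ball (((33 / 100 : ℝ)) : ℂ) (33 / 100) := by
  rw [mem_ball, dist_eq, v_eq]
  have e : (467 / 6400 + 65083 / 108800 * c0 - ((33 / 100 : ℝ) : ℂ)) =
      ((467 / 6400 - 33 / 100 : ℝ) : ℂ) + ((65083 / 108800 : ℝ) : ℂ) * c0 := by
    push_cast; ring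
  rw [e, ← sq_lt_sq₀ (norm_nonneg _) (by norm_num), Complex.sq_norm, normSq_apply]
  have e1 : ((((467 / 6400 - 33 / 100 : ℝ) : ℂ) + ((65083 / 108800 : ℝ) : ℂ) * c0)).re =
      467 / 6400 - 33 / 100 + 65083 / 108800 * (31 / 80) := by
    rw [add_re, ofReal_re, re_ofReal_mul, c0_re]
  have e2 : ((((467 / 6400 - 33 / 100 : ℝ) : ℂ) + ((65083 / 108800 : ℝ) : ℂ) * c0)).im =
      65083 / 108800 * (Real.sqrt 1759 / 80) := by
    rw [add_im, ofReal_im, im_ofReal_mul, c0_im, zero_add]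
  rw [e1, e2]
  have := sq_s
  nlinarith

theorem re_div (a b : ℂ) : (a / b).re = (a * conj b).re / normSq b := by
  rw [div_eq_mul_inv, inv_def, ← mul_assoc, re_mul_ofReal, div_eq_mul_inv]

/-- the cubic denominator -/
def QQ (u : ℂ) : ℂ := u ^ 3 - 7 * u ^ 2 + 51 * u + 2890

theorem QQ_parts (x y : ℝ) : QQ ⟨x, y⟩ = ⟨x ^ 3 - 3 * x * y ^ 2 - 7 * (x ^ 2 - y ^ 2) + 51 * x + 2890,
    3 * x ^ 2 * y - y ^ 3 - 14 * x * y + 51 * y⟩ := by
  apply Complex.ext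
  · simp [QQ, pow_succ]; ring
  · simp [QQ, pow_succ]; ring

theorem RR_parts (x y : ℝ) : (⟨x, y⟩ : ℂ) * (7 * ⟨x, y⟩ ^ 2 - 51 * ⟨x, y⟩ - 2890) =
    ⟨7 * (x ^ 3 - 3 * x * y ^ 2) - 51 * (x ^ 2 - y ^ 2) - 2890 * x,
    7 * (3 * x ^ 2 * y - y ^ 3) - 102 * x * y - 2890 * y⟩ := by
  apply Complex.ext
  · simp [pow_succ]; ring
  · simp [pow_succ]; ring

theorem SS_parts (x y : ℝ) : (⟨x, y⟩ : ℂ) ^ 3 * (⟨x, y⟩ ^ 3 - 14 * ⟨x, y⟩ ^ 2 + 153 * ⟨x, y⟩ + 11560) =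
    ⟨x ^ 6 - 15 * x ^ 4 * y ^ 2 + 15 * x ^ 2 * y ^ 4 - y ^ 6
      - 14 * (x ^ 5 - 10 * x ^ 3 * y ^ 2 + 5 * x * y ^ 4)
      + 153 * (x ^ 4 - 6 * x ^ 2 * y ^ 2 + y ^ 4) + 11560 * (x ^ 3 - 3 * x * y ^ 2),
    6 * x ^ 5 * y - 20 * x ^ 3 * y ^ 3 + 6 * x * y ^ 5
      - 14 * (5 * x ^ 4 * y - 10 * x ^ 2 * y ^ 3 + y ^ 5)
      + 153 * (4 * x ^ 3 * y - 4 * x * y ^ 3) + 11560 * (3 * x ^ 2 * y - y ^ 3)⟩ := by
  apply Complex.ext
  · simp [pow_succ]; ring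
  · simp [pow_succ]; ring

theorem normSq_QQ_pos {u : ℂ} (hu : 25 ≤ u.re) : 0 < normSq (QQ u) := by
  obtain ⟨x, y⟩ := u
  obtain ⟨t, rfl⟩ : ∃ t, x = 25 + t := ⟨x - 25, by ring⟩
  have ht : 0 ≤ t := by simpa using hu
  rw [QQ_parts, normSq_mk]
  have e : ((25 + t) ^ 3 - 3 * (25 + t) * y ^ 2 - 7 * ((25 + t) ^ 2 - y ^ 2) + 51 * (25 + t) + 2890) *
      ((25 + t) ^ 3 - 3 * (25 + t) * y ^ 2 - 7 * ((25 + t) ^ 2 - y ^ 2) + 51 * (25 + t) + 2890) +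
      (3 * (25 + t) ^ 2 * y - y ^ 3 - 14 * (25 + t) * y + 51 * y) *
      (3 * (25 + t) ^ 2 * y - y ^ 3 - 14 * (25 + t) * y + 51 * y) =
      1*t^6 + 3*t^4*y^2 + 3*t^2*y^4 + 1*y^6 + 136*t^5 + 272*t^3*y^2 + 136*t*y^4 + 7776*t^4 +
      9248*t^2*y^2 + 1472*y^4 + 245166*t^3 + 121846*t*y^2 + 4580216*t^2 + 387336*y^2 +
      48588080*t + 237622225 := by
    ring
  rw [e]
  positivity

theorem QQ_ne {u : ℂ} (hu : 25 ≤ u.re) : QQ u ≠ 0 := by
  intro h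
  have := normSq_QQ_pos hu
  rw [h] at this
  simp at this

theorem step_ineq {u : ℂ} (hu : 25 ≤ u.re) :
    7 / 1000 * normSq (QQ u) ≤ (u * (7 * u ^ 2 - 51 * u - 2890) * conj (QQ u)).re := by
  obtain ⟨x, y⟩ := u
  obtain ⟨t, rfl⟩ : ∃ t, x = 25 + t := ⟨x - 25, by ring⟩
  have ht : 0 ≤ t := by simpa using hu
  rw [QQ_parts, normSq_mk, RR_parts, mul_re, conj_re, conj_im]
  dsimp only
  rw [← sub_nonneg]
  have e : ∀ z : ℝ, 0 ≤ 1000 * z → 0 ≤ z := fun z h => by linarith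
  apply e
  have e : 1000 * ((7 * ((25 + t) ^ 3 - 3 * (25 + t) * y ^ 2) - 51 * ((25 + t) ^ 2 - y ^ 2)
      - 2890 * (25 + t)) *
      ((25 + t) ^ 3 - 3 * (25 + t) * y ^ 2 - 7 * ((25 + t) ^ 2 - y ^ 2) + 51 * (25 + t) + 2890) -
      (7 * (3 * (25 + t) ^ 2 * y - y ^ 3) - 102 * (25 + t) * y - 2890 * y) *
      -(3 * (25 + t) ^ 2 * y - y ^ 3 - 14 * (25 + t) * y + 51 * y) -
      7 / 1000 *
      (((25 + t) ^ 3 - 3 * (25 + t) * y ^ 2 - 7 * ((25 + t) ^ 2 - y ^ 2) + 51 * (25 + t) + 2890) *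
      ((25 + t) ^ 3 - 3 * (25 + t) * y ^ 2 - 7 * ((25 + t) ^ 2 - y ^ 2) + 51 * (25 + t) + 2890) +
      (3 * (25 + t) ^ 2 * y - y ^ 3 - 14 * (25 + t) * y + 51 * y) *
      (3 * (25 + t) ^ 2 * y - y ^ 3 - 14 * (25 + t) * y + 51 * y))) =
      6993*t^6 + 20979*t^4*y^2 + 20979*t^2*y^4 + 6993*y^6 + 949048*t^5 + 1898096*t^3*y^2 +
      949048*t*y^4 + 50894568*t^4 + 64399264*t^2*y^2 + 13504696*y^4 + 1381042838*t^3 +
      929286078*t*y^2 + 19743208488*t^2 + 4445138648*y^2 + 126398158440*t + 79265394425 := by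
    ring
  rw [e]
  positivity

theorem der_ineq {u : ℂ} (hu : 25 ≤ u.re) :
    0 < (u ^ 3 * (u ^ 3 - 14 * u ^ 2 + 153 * u + 11560) * conj (QQ u ^ 2)).re := by
  obtain ⟨x, y⟩ := u
  obtain ⟨t, rfl⟩ : ∃ t, x = 25 + t := ⟨x - 25, by ring⟩
  have ht : 0 ≤ t := by simpa using hu
  rw [SS_parts, QQ_parts]
  set a := (25 + t) ^ 3 - 3 * (25 + t) * y ^ 2 - 7 * ((25 + t) ^ 2 - y ^ 2) + 51 * (25 + t) + 2890
    with ha
  set b := 3 * (25 + t) ^ 2 * y - y ^ 3 - 14 * (25 + t) * y + 51 * y with hb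
  have e2 : (⟨a, b⟩ : ℂ) ^ 2 = ⟨a ^ 2 - b ^ 2, 2 * a * b⟩ := by
    apply Complex.ext
    · simp [pow_succ]
    · simp [pow_succ]; ring
  rw [e2, mul_re, conj_re, conj_im]
  dsimp only
  rw [ha, hb]
  have e : ((25 + t) ^ 6 - 15 * (25 + t) ^ 4 * y ^ 2 + 15 * (25 + t) ^ 2 * y ^ 4 - y ^ 6
      - 14 * ((25 + t) ^ 5 - 10 * (25 + t) ^ 3 * y ^ 2 + 5 * (25 + t) * y ^ 4)
      + 153 * ((25 + t) ^ 4 - 6 * (25 + t) ^ 2 * y ^ 2 + y ^ 4)
      + 11560 * ((25 + t) ^ 3 - 3 * (25 + t) * y ^ 2)) *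
      (((25 + t) ^ 3 - 3 * (25 + t) * y ^ 2 - 7 * ((25 + t) ^ 2 - y ^ 2) + 51 * (25 + t) + 2890) ^ 2 -
      (3 * (25 + t) ^ 2 * y - y ^ 3 - 14 * (25 + t) * y + 51 * y) ^ 2) -
      (6 * (25 + t) ^ 5 * y - 20 * (25 + t) ^ 3 * y ^ 3 + 6 * (25 + t) * y ^ 5
      - 14 * (5 * (25 + t) ^ 4 * y - 10 * (25 + t) ^ 2 * y ^ 3 + y ^ 5)
      + 153 * (4 * (25 + t) ^ 3 * y - 4 * (25 + t) * y ^ 3)
      + 11560 * (3 * (25 + t) ^ 2 * y - y ^ 3)) *
      -(2 * ((25 + t) ^ 3 - 3 * (25 + t) * y ^ 2 - 7 * ((25 + t) ^ 2 - y ^ 2) + 51 * (25 + t)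
      + 2890) * (3 * (25 + t) ^ 2 * y - y ^ 3 - 14 * (25 + t) * y + 51 * y)) =
      t^12 + 6*t^10*y^2 + 15*t^8*y^4 + 20*t^6*y^6 + 15*t^4*y^8 + 6*t^2*y^10 + 1*y^12 + 272*t^11
      + 1360*t^9*y^2 + 2720*t^7*y^4 + 2720*t^5*y^6 + 1360*t^3*y^8 + 272*t*y^10 + 34050*t^10 +
      139142*t^8*y^2 + 216068*t^6*y^4 + 153852*t^4*y^6 + 45818*t^2*y^8 + 2942*y^10 + 2612370*t^9
      + 8461376*t^7*y^2 + 9709908*t^5*y^4 + 4485168*t^3*y^6 + 624266*t*y^8 + 137770105*t^8 +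
      338346620*t^6*y^2 + 265961958*t^4*y^4 + 67964476*t^2*y^6 + 2579033*y^8 + 5294666464*t^7 +
      9278186928*t^5*y^2 + 4449583744*t^3*y^4 + 466063280*t*y^6 + 152819914413*t^6 +
      176310303053*t^4*y^2 + 43111960707*t^2*y^4 + 887660867*y^6 + 3350455031350*t^5 +
      2290197046540*t^3*y^2 + 213647976790*t*y^4 + 55526946746850*t^4 + 19516959657700*t^2*y^2 +
      412538239250*y^4 + 679738212773500*t^3 + 99260880919500*t*y^2 + 5844077354590625*t^2 +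
      228217943409375*y^2 + 31747960359687500*t + 82647980132812500 := by
    ring
  rw [e]
  positivity

theorem h_eval (z : ℂ) : q0.h.eval z =
    z - 7 / 17 * z ^ 2 + 3 / 17 * z ^ 3 + 10 / 17 * z ^ 4 := h0_eval z

theorem h_inv (w : ℂ) (hw : w ≠ 0) : q0.h.eval (1 / (((7 / 17 : ℝ) : ℂ) * w)) =
    17 * QQ (7 * w) / (7 * w) ^ 4 := by
  rw [h_eval, QQ]
  push_cast
  field_simp
  ring

theorem parF_eq (w : ℂ) (hw : w ≠ 0) : parF q0 (7 / 17) w =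
    (7 * w) ^ 4 / (7 * QQ (7 * w)) := by
  unfold parF
  rw [h_inv w hw]
  by_cases h : QQ (7 * w) = 0
  · simp [h]
  · push_cast
    field_simp

theorem parF_sub (w : ℂ) (hw : 25 ≤ (7 * w).re) : parF q0 (7 / 17) w - w =
    ((7 * w) * (7 * (7 * w) ^ 2 - 51 * (7 * w) - 2890) / QQ (7 * w)) / 7 := by
  have h := QQ_ne hw
  have hw0 : w ≠ 0 := by
    rintro rfl
    simp at hw
    norm_num at hw
  rw [parF_eq w hw0]
  have : QQ (7 * w) = (7 * w) ^ 3 - 7 * (7 * w) ^ 2 + 51 * (7 * w) + 2890 := rfl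
  field_simp
  rw [this]
  ring

theorem parF_der (w : ℂ) (hw : 25 ≤ (7 * w).re) : deriv (parF q0 (7 / 17)) w =
    (7 * w) ^ 3 * ((7 * w) ^ 3 - 14 * (7 * w) ^ 2 + 153 * (7 * w) + 11560) / QQ (7 * w) ^ 2 := by
  have h := QQ_ne hw
  have hw0 : w ≠ 0 := by
    rintro rfl
    simp at hw
    norm_num at hw
  have ev : parF q0 (7 / 17) =ᶠ[𝓝 w] fun w => (7 * w) ^ 4 / (7 * QQ (7 * w)) := by
    filter_upwards [isOpen_ne.mem_nhds hw0] with z hz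
    exact parF_eq z hz
  rw [ev.deriv_eq]
  have h1 : HasDerivAt (fun w : ℂ => 7 * w) 7 w := by
    simpa using (hasDerivAt_id w).const_mul (7 : ℂ)
  have h2 : HasDerivAt (fun w : ℂ => (7 * w) ^ 4) (4 * (7 * w) ^ 3 * 7) w := by
    simpa using h1.fun_pow 4
  have h3 : HasDerivAt (fun w : ℂ => 7 * QQ (7 * w))
      (7 * (3 * (7 * w) ^ 2 * 7 - 7 * (2 * (7 * w) * 7) + 51 * 7)) w := by
    have a3 : HasDerivAt (fun w : ℂ => (7 * w) ^ 3) (3 * (7 * w) ^ 2 * 7) w := by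
      simpa using h1.fun_pow 3
    have a2 : HasDerivAt (fun w : ℂ => (7 * w) ^ 2) (2 * (7 * w) * 7) w := by
      simpa using h1.fun_pow 2
    exact (((a3.sub (a2.const_mul 7)).add (h1.const_mul 51)).add_const 2890).const_mul 7
  have h4 := h2.fun_div h3 (by simpa using h)
  rw [h4.deriv]
  have : QQ (7 * w) = (7 * w) ^ 3 - 7 * (7 * w) ^ 2 + 51 * (7 * w) + 2890 := rfl
  have h7 : (7 * QQ (7 * w)) ^ 2 = 49 * QQ (7 * w) ^ 2 := by ring
  rw [h7, div_eq_div_iff (by simpa using h) (by simpa using h)]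
  rw [this]
  ring

end N2

theorem rq_f0 : ∃ q : RQ, q.p = fR 0 ∧ q.r = -1 ∧ ∃ ρ, Nonempty (PD q ρ) := by
  refine ⟨N2.q0, rfl, rfl, 33 / 100, ⟨?_⟩⟩
  have key : ∀ w : ℂ, 1 / (2 * (33 / 100 : ℝ) * (7 / 17)) ≤ w.re → 25 ≤ (7 * w).re := by
    intro w hw
    have e : (7 * w).re = 7 * w.re := by simp
    rw [e]
    have : (1 / (2 * (33 / 100 : ℝ) * (7 / 17)) : ℝ) = 850 / 231 := by norm_num
    rw [this] at hw
    linarith
  refine
    { α := 7 / 17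
      hα := by norm_num
      hρ := by norm_num
      hr := by show (-1 : ℝ) < 0; norm_num
      fix := ?_
      der1 := ?_
      der2 := ?_
      ne := ?_
      step := ⟨1 / 1000, by norm_num, ?_⟩
      der := ?_
      vmem := N2.v_mem }
  · show (fR 0).eval 0 = 0
    rw [N2.f0_eq]; simp
  · show (fR 0).derivative.eval 0 = 1
    rw [N2.f0_eq]; simp
  · show (fR 0).derivative.derivative.eval 0 = -(2 * (7 / 17))
    rw [N2.f0_eq]; simp; norm_num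
  · intro w hw
    have h := N2.QQ_ne (key w hw)
    have hw0 : w ≠ 0 := by
      rintro rfl
      have := key 0 hw
      simp at this
      norm_num at this
    rw [N2.h_inv w hw0]
    exact div_ne_zero (mul_ne_zero (by norm_num) h) (pow_ne_zero _ (mul_ne_zero (by norm_num) hw0))
  · intro w hw
    have h := N2.step_ineq (key w hw)
    have hn := N2.normSq_QQ_pos (key w hw)
    have e := congrArg Complex.re (N2.parF_sub w (key w hw))
    rw [sub_re] at e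
    have e7 : ∀ z : ℂ, (z / 7).re = z.re / 7 := fun z => by
      have : z / 7 = z / ((7 : ℝ) : ℂ) := by push_cast; rfl
      rw [this, div_ofReal_re]
    rw [e7, N2.re_div] at e
    have h2 : 7 / 1000 ≤ ((7 * w) * (7 * (7 * w) ^ 2 - 51 * (7 * w) - 2890) *
        conj (N2.QQ (7 * w))).re / normSq (N2.QQ (7 * w)) := by
      rw [le_div_iff₀ hn]
      exact h
    linarith
  · intro w hw
    rw [N2.parF_der w (key w hw), N2.re_div]
    refine div_pos (N2.der_ineq (key w hw)) ?_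
    rw [map_pow]
    exact pow_pos (N2.normSq_QQ_pos (key w hw)) 2

end

end Pool.TU
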