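import Pool.Agent.Helper71.TU.B5

/-! # TU N3: the hyperbolic tuned polynomial -/

open Complex Set Filter Topology Metric Polynomial ComplexConjugate Pool.Tuning

namespace Pool.TU

noncomputable section

private theorem gH_ev (z : ℂ) : (gH.map (algebraMap ℝ ℂ)).eval z =
    135 / 98 * z - 243 / 196 * z ^ 2 + 27 / 56 * z ^ 3 + 1215 / 392 * z ^ 4 := by
  simp [gH]
  ring

private theorem gH_de (z : ℂ) : (gH.map (algebraMap ℝ ℂ)).derivative.eval z =
    135 / 98 - 243 / 98 * z + 81 / 56 * z ^ 2 + 1215 / 98 * z ^ 3 := by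
  simp [gH]
  ring

private theorem gH_deg : gH.natDegree = 4 := by
  unfold gH
  compute_degree!

private theorem gH_lead : gH.leadingCoeff = 1215 / 392 := by
  rw [Polynomial.leadingCoeff, gH_deg]
  simp [gH, Polynomial.coeff_X_pow, Polynomial.coeff_C_mul]

/-- the critical point -/
private def cH : ℂ := ⟨11 / 40, Real.sqrt (437 / 4800)⟩

private theorem cH_sq : cH ^ 2 = 11 / 20 * cH - 1 / 6 := by
  have h1 : Real.sqrt (437 / 4800) ^ 2 = 437 / 4800 := Real.sq_sqrt (by norm_num)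
  apply Complex.ext
  · rw [show (11 / 20 * cH - 1 / 6 : ℂ) = ((11 / 20 : ℝ) : ℂ) * cH - ((1 / 6 : ℝ) : ℂ) by
      push_cast; ring]
    rw [pow_two, Complex.mul_re, Complex.sub_re, Complex.re_ofReal_mul, Complex.ofReal_re]
    unfold cH
    dsimp only
    nlinarith
  · rw [show (11 / 20 * cH - 1 / 6 : ℂ) = ((11 / 20 : ℝ) : ℂ) * cH - ((1 / 6 : ℝ) : ℂ) by
      push_cast; ring]
    rw [pow_two, Complex.mul_im, Complex.sub_im, Complex.im_ofReal_mul, Complex.ofReal_im]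
    unfold cH
    dsimp only
    ring

private theorem cH_im : 0 < cH.im := by
  unfold cH
  exact Real.sqrt_pos.mpr (by norm_num)

private theorem cH_add : cH + conj cH = 11 / 20 := by
  apply Complex.ext
  · rw [show (11 / 20 : ℂ) = ((11 / 20 : ℝ) : ℂ) by push_cast; ring, Complex.ofReal_re,
      Complex.add_re, Complex.conj_re]
    unfold cH
    norm_num
  · rw [show (11 / 20 : ℂ) = ((11 / 20 : ℝ) : ℂ) by push_cast; ring, Complex.ofReal_im,
      Complex.add_im, Complex.conj_im]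
    ring

private theorem vH : (gH.map (algebraMap ℝ ℂ)).eval cH =
    ((5787 / 62720 : ℝ) : ℂ) + ((444429 / 627200 : ℝ) : ℂ) * cH := by
  rw [gH_ev]
  push_cast
  linear_combination (-17361 / 31360 + 3429 / 1568 * cH + 1215 / 392 * cH ^ 2) * cH_sq

private theorem hvH : (gH.map (algebraMap ℝ ℂ)).eval
      (((5787 / 62720 : ℝ) : ℂ) + ((444429 / 627200 : ℝ) : ℂ) * cH) =
    ((1220627031454335525086501919 / 9705775651075653632000000000 : ℝ) : ℂ) +
      ((8779068246554503762450554639 / 13865393787250933760000000000 : ℝ) : ℂ) * cH := by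
  rw [gH_ev]
  push_cast
  linear_combination (-250743194220667338835505757 / 4852887825537826816000000000 +
    244659460774758315826673313 / 242644391276891340800000000 * cH +
    9480163624250852980344483 / 12132219563844567040000000 * cH ^ 2) * cH_sq

private theorem im_lin (a b : ℝ) (z : ℂ) : ((a : ℂ) + (b : ℂ) * z).im = b * z.im := by
  rw [Complex.add_im, Complex.im_ofReal_mul, Complex.ofReal_im, zero_add]

private theorem aH : ∃ a : ℂ, 0 < a.im ∧ a ^ 2 = 2 / 3 * a - 4 / 27 ∧ a.re = 1 / 3 ∧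
    a.im ^ 2 = 1 / 27 := by
  have h1 : Real.sqrt (1 / 27) ^ 2 = 1 / 27 := Real.sq_sqrt (by norm_num)
  refine ⟨⟨1 / 3, Real.sqrt (1 / 27)⟩, Real.sqrt_pos.mpr (by norm_num), ?_, rfl, h1⟩
  apply Complex.ext
  · rw [show (2 / 3 * (⟨1 / 3, Real.sqrt (1 / 27)⟩ : ℂ) - 4 / 27 : ℂ) =
      ((2 / 3 : ℝ) : ℂ) * ⟨1 / 3, Real.sqrt (1 / 27)⟩ - ((4 / 27 : ℝ) : ℂ) by
      push_cast; ring]
    rw [pow_two, Complex.mul_re, Complex.sub_re, Complex.re_ofReal_mul, Complex.ofReal_re]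
    dsimp only
    nlinarith
  · rw [show (2 / 3 * (⟨1 / 3, Real.sqrt (1 / 27)⟩ : ℂ) - 4 / 27 : ℂ) =
      ((2 / 3 : ℝ) : ℂ) * ⟨1 / 3, Real.sqrt (1 / 27)⟩ - ((4 / 27 : ℝ) : ℂ) by
      push_cast; ring]
    rw [pow_two, Complex.mul_im, Complex.sub_im, Complex.im_ofReal_mul, Complex.ofReal_im]
    dsimp only
    ring

private theorem aH_fix {a : ℂ} (ha : a ^ 2 = 2 / 3 * a - 4 / 27) :
    (gH.map (algebraMap ℝ ℂ)).eval a = a := by
  rw [gH_ev]
  linear_combination (-(37 : ℂ) / 98 * 0 + (1215 / 392 * a ^ 2 + (27 / 56 + 1215 / 392 * (2 / 3)) * a +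
    (-243 / 196 - 1215 / 392 * (4 / 27) + (27 / 56 + 1215 / 392 * (2 / 3)) * (2 / 3)))) * ha

private theorem aH_der {a : ℂ} (ha : a ^ 2 = 2 / 3 * a - 4 / 27) :
    (gH.map (algebraMap ℝ ℂ)).derivative.eval a =
      ((-(6 : ℝ) / 98 : ℝ) : ℂ) + ((423 / 196 : ℝ) : ℂ) * a := by
  rw [gH_de]
  push_cast
  linear_combination (1215 / 98 * a + (81 / 56 + 1215 / 98 * (2 / 3))) * ha

private theorem aH_norm {a : ℂ} (h1 : a.re = 1 / 3) (h2 : a.im ^ 2 = 1 / 27) :
    ‖((-(6 : ℝ) / 98 : ℝ) : ℂ) + ((423 / 196 : ℝ) : ℂ) * a‖ < 1 := by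
  rw [← sq_lt_one_iff₀ (norm_nonneg _), ← Complex.normSq_eq_norm_sq, Complex.normSq_apply,
    Complex.add_re, Complex.add_im, Complex.re_ofReal_mul, Complex.im_ofReal_mul,
    Complex.ofReal_re, Complex.ofReal_im, h1]
  nlinarith

private theorem aH_ne {a : ℂ} (h2 : 0 < a.im) :
    ((-(6 : ℝ) / 98 : ℝ) : ℂ) + ((423 / 196 : ℝ) : ℂ) * a ≠ 0 := by
  intro h
  have h3 := congrArg Complex.im h
  rw [im_lin, Complex.zero_im] at h3
  nlinarith

theorem rq_gH : ∃ q : RQ, q.p = gH ∧ q.r = -(2 / 3) ∧ q.vr = -1 ∧ HasAtt q := by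
  have hder : ∀ z : ℂ, (gH.map (algebraMap ℝ ℂ)).derivative.eval z =
      4 * (gH.leadingCoeff : ℂ) * (z - ((-(2 / 3) : ℝ) : ℂ)) * (z - cH) * (z - conj cH) := by
    intro z
    rw [gH_de, gH_lead]
    have h1 : conj cH = 11 / 20 - cH := by
      rw [← cH_add]
      ring
    rw [h1]
    push_cast
    linear_combination (1215 / 98 * (z + 2 / 3)) * cH_sq
  refine ⟨⟨gH, -(2 / 3), cH, gH_deg, by rw [gH_lead]; norm_num, cH_im, hder, ?_, ?_⟩, rfl, rfl,
    ?_, ?_⟩
  · rw [vH, im_lin]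
    have := cH_im
    positivity
  · rw [vH, hvH, im_lin]
    have := cH_im
    positivity
  · show gH.eval (-(2 / 3)) = -1
    unfold gH
    norm_num
  · obtain ⟨a, ha1, ha2, ha3, ha4⟩ := aH
    refine ⟨a, ha1, aH_fix ha2, ?_, ?_⟩
    · show (gH.map (algebraMap ℝ ℂ)).derivative.eval a ≠ 0
      rw [aH_der ha2]
      exact aH_ne ha1
    · show ‖(gH.map (algebraMap ℝ ℂ)).derivative.eval a‖ < 1
      rw [aH_der ha2]
      exact aH_norm ha3 ha4

/-- values needed for the hypotheses of the tuning theorems -/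
theorem gH_vals : gH.eval (-1) = 0 ∧ gH.eval 0 = 0 ∧ 1 < gH.derivative.eval 0 := by
  refine ⟨?_, ?_, ?_⟩
  · unfold gH
    norm_num
  · unfold gH
    norm_num
  · unfold gH
    norm_num

theorem dhyp_gH : DHyp (gH.map (algebraMap ℝ ℂ)) := by
  obtain ⟨a, ha1, ha2, ha3, ha4⟩ := aH
  have hb1 : (conj a).im = - a.im := Complex.conj_im a
  have hb2 : (conj a) ^ 2 = 2 / 3 * conj a - 4 / 27 := by
    have := congrArg conj ha2
    simpa [map_ofNat] using this
  have hb3 : (conj a).re = 1 / 3 := by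
    rw [Complex.conj_re]
    exact ha3
  have hb4 : (conj a).im ^ 2 = 1 / 27 := by
    rw [hb1, neg_sq]
    exact ha4
  refine ⟨⟨a, conj a, 0, ((-(2 / 3) : ℝ) : ℂ), ?_, ?_, ?_, aH_fix ha2, aH_fix hb2, ?_, ?_, ?_,
    ?_, ?_⟩⟩
  · intro h
    have h1 := congrArg Complex.im h
    rw [hb1] at h1
    linarith
  · intro h
    rw [h, Complex.zero_im] at ha1
    exact lt_irrefl _ ha1
  · intro h
    rw [h, Complex.zero_im] at hb1
    linarith
  · rw [gH_ev]
    ring
  · rw [aH_der ha2]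
    exact aH_norm ha3 ha4
  · rw [aH_der hb2]
    exact aH_norm hb3 hb4
  · rw [gH_de]
    push_cast
    ring
  · have h1 : (gH.map (algebraMap ℝ ℂ)).eval ((-(2 / 3) : ℝ) : ℂ) = -1 := by
      rw [gH_ev]
      push_cast
      ring
    rw [h1, gH_ev]
    ring

end

end Pool.TU
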