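import Pool.Agent.Helper71.TU.B8

/-! # TU Y1: petals: consequences -/

open Complex Set Filter Topology Metric Polynomial ComplexConjugate Pool.Tuning

namespace Pool.TU

noncomputable section

/-! ### half planes and discs -/

theorem y1_ball_iff {ρ : ℝ} (hρ : 0 < ρ) (z : ℂ) :
    z ∈ ball (ρ : ℂ) ρ ↔ ‖z‖ ^ 2 < 2 * ρ * z.re := by
  rw [mem_ball, dist_eq_norm]
  have h1 : ‖z - ρ‖ ^ 2 = ‖z‖ ^ 2 - 2 * ρ * z.re + ρ ^ 2 := by
    rw [← normSq_eq_norm_sq, ← normSq_eq_norm_sq, normSq_apply, normSq_apply]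
    simp
    ring
  constructor
  · intro h
    have h2 : ‖z - ρ‖ ^ 2 < ρ ^ 2 := by
      have := norm_nonneg (z - ρ)
      nlinarith
    linarith
  · intro h
    have h2 : ‖z - ρ‖ ^ 2 < ρ ^ 2 := by linarith
    exact lt_of_pow_lt_pow_left₀ 2 hρ.le h2

theorem y1_cball_iff {ρ : ℝ} (hρ : 0 < ρ) (z : ℂ) :
    z ∈ closedBall (ρ : ℂ) ρ ↔ ‖z‖ ^ 2 ≤ 2 * ρ * z.re := by
  rw [mem_closedBall, dist_eq_norm]
  have h1 : ‖z - ρ‖ ^ 2 = ‖z‖ ^ 2 - 2 * ρ * z.re + ρ ^ 2 := by
    rw [← normSq_eq_norm_sq, ← normSq_eq_norm_sq, normSq_apply, normSq_apply]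
    simp
    ring
  constructor
  · intro h
    have h2 : ‖z - ρ‖ ^ 2 ≤ ρ ^ 2 := by
      have := norm_nonneg (z - ρ)
      nlinarith
    linarith
  · intro h
    have h2 : ‖z - ρ‖ ^ 2 ≤ ρ ^ 2 := by linarith
    exact le_of_sq_le_sq h2 hρ.le

theorem y1_inv_re (z : ℂ) (α : ℝ) (_hα : 0 < α) :
    (1 / ((α : ℂ) * z)).re = z.re / (α * ‖z‖ ^ 2) := by
  rw [one_div, mul_inv, ← ofReal_inv, re_ofReal_mul, inv_re, normSq_eq_norm_sq]
  field_simp

/-- points of the disc correspond to points of the half plane -/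
theorem y1_ball_re {ρ α : ℝ} (hρ : 0 < ρ) (hα : 0 < α) {z : ℂ} (hz : z ≠ 0) :
    z ∈ ball (ρ : ℂ) ρ ↔ 1 / (2 * ρ * α) < (1 / ((α : ℂ) * z)).re := by
  have hn : 0 < ‖z‖ ^ 2 := by positivity
  rw [y1_ball_iff hρ, y1_inv_re z α hα, div_lt_div_iff₀ (by positivity) (by positivity)]
  constructor
  · intro h
    nlinarith
  · intro h
    have : α * ‖z‖ ^ 2 < α * (2 * ρ * z.re) := by nlinarith
    exact lt_of_mul_lt_mul_left this hα.le

theorem y1_cball_re {ρ α : ℝ} (hρ : 0 < ρ) (hα : 0 < α) {z : ℂ} (hz : z ≠ 0) :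
    z ∈ closedBall (ρ : ℂ) ρ ↔ 1 / (2 * ρ * α) ≤ (1 / ((α : ℂ) * z)).re := by
  have hn : 0 < ‖z‖ ^ 2 := by positivity
  rw [y1_cball_iff hρ, y1_inv_re z α hα, div_le_div_iff₀ (by positivity) (by positivity)]
  constructor
  · intro h
    nlinarith
  · intro h
    have : α * ‖z‖ ^ 2 ≤ α * (2 * ρ * z.re) := by nlinarith
    exact le_of_mul_le_mul_left this hα

theorem y1_invol {α : ℝ} (hα : 0 < α) {z : ℂ} (hz : z ≠ 0) :
    1 / ((α : ℂ) * (1 / ((α : ℂ) * z))) = z := by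
  have : (α : ℂ) ≠ 0 := by exact_mod_cast hα.ne'
  field_simp

theorem y1_im {α : ℝ} (hα : 0 < α) (z : ℂ) :
    (1 / ((α : ℂ) * z)).im = -z.im / (α * ‖z‖ ^ 2) := by
  rw [one_div, mul_inv, ← ofReal_inv, im_ofReal_mul, inv_im, normSq_eq_norm_sq]
  field_simp

theorem y1_ne_zero {κ : ℝ} (hκ : 0 < κ) {w : ℂ} (hw : κ ≤ w.re) : w ≠ 0 := by
  rintro rfl
  simp at hw
  linarith

/-! ### positive real part of the derivative -/

theorem y1_dir {F : ℂ → ℂ} {κ : ℝ} (hd : ∀ w : ℂ, κ ≤ w.re → DifferentiableAt ℂ F w)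
    (hp : ∀ w : ℂ, κ ≤ w.re → 0 < (deriv F w).re) {w1 w2 : ℂ} (h1 : κ ≤ w1.re)
    (h2 : κ ≤ w2.re) (hne : w1 ≠ w2) : 0 < ((F w2 - F w1) * conj (w2 - w1)).re := by
  have hin : ∀ t : ℝ, 0 ≤ t → t ≤ 1 → κ ≤ (w1 + t * (w2 - w1)).re := by
    intro t h0 h1'
    have : (w1 + t * (w2 - w1)).re = w1.re + t * (w2.re - w1.re) := by simp
    rw [this]
    nlinarith
  have hder : ∀ t : ℝ, 0 ≤ t → t ≤ 1 →
      HasDerivAt (fun t : ℝ => (F (w1 + t * (w2 - w1)) * conj (w2 - w1)).re)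
        (deriv F (w1 + t * (w2 - w1)) * (w2 - w1) * conj (w2 - w1)).re t := by
    intro t h0 h1'
    have hA : HasDerivAt (fun s : ℂ => w1 + s * (w2 - w1)) (w2 - w1) (t : ℂ) := by
      have := ((hasDerivAt_id (t : ℂ)).mul_const (w2 - w1)).const_add w1
      simpa using this
    have hF := (hd _ (hin t h0 h1')).hasDerivAt
    have hFA : HasDerivAt (fun s : ℂ => F (w1 + s * (w2 - w1)))
        (deriv F (w1 + t * (w2 - w1)) * (w2 - w1)) (t : ℂ) :=
      HasDerivAt.comp (t : ℂ) (h₂ := F) (h := fun s : ℂ => w1 + s * (w2 - w1)) hF hA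
    exact (hFA.mul_const (conj (w2 - w1))).real_of_complex
  obtain ⟨t, ht, he⟩ := exists_hasDerivAt_eq_slope
    (fun t : ℝ => (F (w1 + t * (w2 - w1)) * conj (w2 - w1)).re)
    (fun t : ℝ => (deriv F (w1 + t * (w2 - w1)) * (w2 - w1) * conj (w2 - w1)).re)
    (zero_lt_one' ℝ)
    (fun t ht => (hder t ht.1 ht.2).continuousAt.continuousWithinAt)
    (fun t ht => hder t ht.1.le ht.2.le)
  have hpos : 0 < (deriv F (w1 + t * (w2 - w1)) * (w2 - w1) * conj (w2 - w1)).re := by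
    rw [mul_assoc, mul_conj, mul_comm, re_ofReal_mul]
    apply mul_pos
    · exact normSq_pos.mpr (sub_ne_zero.mpr (Ne.symm hne))
    · exact hp _ (hin t ht.1.le ht.2.le)
  rw [he] at hpos
  simp only [ofReal_one, one_mul, ofReal_zero, zero_mul, add_zero, sub_zero, div_one] at hpos
  rw [sub_mul, sub_re]
  have e : w1 + (w2 - w1) = w2 := by ring
  rw [e] at hpos
  exact hpos

theorem y1_injOn {F : ℂ → ℂ} {κ : ℝ} (hd : ∀ w : ℂ, κ ≤ w.re → DifferentiableAt ℂ F w)
    (hp : ∀ w : ℂ, κ ≤ w.re → 0 < (deriv F w).re) : InjOn F {w : ℂ | κ ≤ w.re} := by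
  intro w1 h1 w2 h2 h
  by_contra hne
  have := y1_dir hd hp h1 h2 hne
  rw [h] at this
  simp at this

theorem y1_imsign {F : ℂ → ℂ} {κ : ℝ} (hd : ∀ w : ℂ, κ ≤ w.re → DifferentiableAt ℂ F w)
    (hp : ∀ w : ℂ, κ ≤ w.re → 0 < (deriv F w).re)
    (hs : ∀ w : ℂ, κ ≤ w.re → F (conj w) = conj (F w)) {w : ℂ} (h : κ ≤ w.re)
    (hne : w.im ≠ 0) : 0 < w.im * (F w).im := by
  have h1 : κ ≤ ((w.re : ℝ) : ℂ).re := by simpa using h
  have hr : (F ((w.re : ℝ) : ℂ)).im = 0 := by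
    have := hs _ h1
    rw [conj_ofReal] at this
    exact conj_eq_iff_im.mp this.symm
  have h3 : ((w.re : ℝ) : ℂ) ≠ w := by
    intro h4
    apply hne
    rw [← h4]
    simp
  have h5 := y1_dir hd hp h1 h h3
  have h6 : w - ((w.re : ℝ) : ℂ) = w.im * I := by
    apply Complex.ext <;> simp
  rw [h6] at h5
  have h7 : ((F w - F ((w.re : ℝ) : ℂ)) * conj ((w.im : ℂ) * I)).re =
      w.im * ((F w).im - (F ((w.re : ℝ) : ℂ)).im) := by
    simp
    ring
  rw [h7, hr, sub_zero] at h5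
  exact h5

/-! ### the polynomial near its parabolic point -/

theorem y1_poly {q : RQ} {ρ : ℝ} (D : PD q ρ) : ∃ a3 a4 : ℂ, ∀ z : ℂ,
    q.h.eval z = z * (1 - D.α * z + a3 * z ^ 2 + a4 * z ^ 3) := by
  have hdeg : q.h.natDegree < 5 := by rw [RQ.natDegree q]; norm_num
  have hc : ∀ n, q.h.coeff n = (q.p.coeff n : ℂ) := by
    intro n
    unfold RQ.h
    rw [coeff_map]
    rfl
  have c0 : q.p.coeff 0 = 0 := by
    rw [coeff_zero_eq_eval_zero]
    exact D.fix
  have c1 : q.p.coeff 1 = 1 := by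
    have := D.der1
    rw [← coeff_zero_eq_eval_zero, coeff_derivative] at this
    simpa using this
  have c2 : q.p.coeff 2 = -D.α := by
    have := D.der2
    rw [← coeff_zero_eq_eval_zero, coeff_derivative, coeff_derivative] at this
    norm_num at this
    linarith
  refine ⟨q.h.coeff 3, q.h.coeff 4, fun z => ?_⟩
  rw [eval_eq_sum_range' hdeg]
  simp only [Finset.sum_range_succ, Finset.sum_range_zero]
  rw [hc 0, hc 1, hc 2, c0, c1, c2]
  push_cast
  ring

theorem y1_kpos {q : RQ} {ρ : ℝ} (D : PD q ρ) : 0 < 1 / (2 * ρ * D.α) := by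
  have := D.hα
  have := D.hρ
  positivity

theorem y1_hne {q : RQ} {ρ : ℝ} (D : PD q ρ) {z : ℂ} (hz : z ∈ closedBall (ρ : ℂ) ρ)
    (h0 : z ≠ 0) : q.h.eval z ≠ 0 := by
  have h := D.ne (1 / ((D.α : ℂ) * z)) ((y1_cball_re D.hρ D.hα h0).mp hz)
  rwa [y1_invol D.hα h0] at h

theorem y1_diff {q : RQ} {ρ : ℝ} (D : PD q ρ) (w : ℂ) (hw : 1 / (2 * ρ * D.α) ≤ w.re) :
    DifferentiableAt ℂ (parF q D.α) w := by
  have h0 : w ≠ 0 := y1_ne_zero (y1_kpos D) hw
  have hα : (D.α : ℂ) ≠ 0 := by exact_mod_cast D.hα.ne'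
  unfold parF
  apply DifferentiableAt.div (differentiableAt_const _)
  · apply DifferentiableAt.const_mul
    apply DifferentiableAt.comp (g := fun z => q.h.eval z) (f := fun w => 1 / ((D.α : ℂ) * w))
    · exact q.h.differentiable.differentiableAt
    · apply DifferentiableAt.div (differentiableAt_const _)
      · exact (differentiableAt_id).const_mul _
      · exact mul_ne_zero hα h0
  · exact mul_ne_zero hα (D.ne w hw)

theorem y1_sym (q : RQ) (α : ℝ) (w : ℂ) : parF q α (conj w) = conj (parF q α w) := by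
  unfold parF
  have h1 : 1 / ((α : ℂ) * conj w) = conj (1 / ((α : ℂ) * w)) := by
    simp
  rw [h1, RQ.h_conj]
  simp

/-- `h z = 1/(α F(w))` -/
theorem y1_conj {q : RQ} {ρ : ℝ} (D : PD q ρ) {z : ℂ} (_hz : z ∈ closedBall (ρ : ℂ) ρ)
    (h0 : z ≠ 0) : parF q D.α (1 / ((D.α : ℂ) * z)) = 1 / ((D.α : ℂ) * q.h.eval z) := by
  unfold parF
  rw [y1_invol D.hα h0]

/-- a smaller petal still containing `v` -/
theorem PD.shrink {q : RQ} {ρ : ℝ} (D : PD q ρ) : ∃ ρ' < ρ, ∃ D' : PD q ρ', D'.α = D.α := by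
  have hv := (y1_ball_iff D.hρ _).mp D.vmem
  have hvp : 0 < q.v.im := RQ.vpos q
  have hv0 : q.v ≠ 0 := by
    intro h
    rw [h] at hvp
    simp at hvp
  have hn : 0 < ‖q.v‖ ^ 2 := by positivity
  have hρ := D.hρ
  have hre : 0 < q.v.re := by
    by_contra h
    push Not at h
    nlinarith
  set σ : ℝ := ‖q.v‖ ^ 2 / (2 * q.v.re) with hσ
  have hσ1 : σ < ρ := by
    rw [hσ, div_lt_iff₀ (by linarith)]
    linarith
  have hσ0 : 0 < σ := by positivity
  have hρ' : 0 < (ρ + σ) / 2 := by linarith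
  have hlt : (ρ + σ) / 2 < ρ := by linarith
  have hκ : 1 / (2 * ρ * D.α) ≤ 1 / (2 * ((ρ + σ) / 2) * D.α) := by
    apply one_div_le_one_div_of_le
    · have := D.hα
      positivity
    · have := D.hα
      nlinarith
  obtain ⟨c, hc, hstep⟩ := D.step
  refine ⟨(ρ + σ) / 2, hlt, ⟨D.α, D.hα, hρ', D.hr, D.fix, D.der1, D.der2,
    fun w hw => D.ne w (hκ.trans hw), ⟨c, hc, fun w hw => hstep w (hκ.trans hw)⟩,
    fun w hw => D.der w (hκ.trans hw), ?_⟩, rfl⟩
  rw [y1_ball_iff hρ']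
  have h1 : σ * (2 * q.v.re) = ‖q.v‖ ^ 2 := by
    rw [hσ]
    field_simp
  nlinarith

/-- elementary consequences in the `z` plane -/
theorem PD.props {q : RQ} {ρ : ℝ} (D : PD q ρ) :
    (∀ z ∈ closedBall (ρ : ℂ) ρ, z ≠ 0 → q.h.eval z ∈ ball (ρ : ℂ) ρ) ∧
    InjOn (fun z => q.h.eval z) (closedBall (ρ : ℂ) ρ) ∧
    (∀ z ∈ closedBall (ρ : ℂ) ρ, 0 < z.im → 0 < (q.h.eval z).im) ∧
    (∀ z ∈ closedBall (ρ : ℂ) ρ, q.h.eval z ≠ q.v) ∧
    (∀ z ∈ closedBall (ρ : ℂ) ρ,
      Tendsto (fun n => (fun z => q.h.eval z)^[n] z) atTop (𝓝 0)) := by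
  have hα := D.hα
  have hρ := D.hρ
  have hαC : (D.α : ℂ) ≠ 0 := by exact_mod_cast hα.ne'
  obtain ⟨c, hc, hstep⟩ := D.step
  obtain ⟨a3, a4, hpoly⟩ := y1_poly D
  have hh0 : q.h.eval 0 = 0 := by rw [hpoly 0]; ring
  have hdiff := y1_diff D
  have hder := D.der
  have hsym := fun w (_ : 1 / (2 * ρ * D.α) ≤ w.re) => y1_sym q D.α w
  have P1 : ∀ z ∈ closedBall (ρ : ℂ) ρ, z ≠ 0 → q.h.eval z ∈ ball (ρ : ℂ) ρ := by
    intro z hz h0
    have hw := (y1_cball_re hρ hα h0).mp hz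
    have h1 := hstep _ hw
    rw [y1_conj D hz h0] at h1
    rw [y1_ball_re hρ hα (y1_hne D hz h0)]
    linarith
  have P2 : InjOn (fun z => q.h.eval z) (closedBall (ρ : ℂ) ρ) := by
    intro z1 hz1 z2 hz2 h
    simp only at h
    by_cases h1 : z1 = 0
    · by_contra h2
      have h3 : z2 ≠ 0 := fun h4 => h2 (by rw [h1, h4])
      apply y1_hne D hz2 h3
      rw [← h, h1, hh0]
    · by_cases h2 : z2 = 0
      · exfalso
        apply y1_hne D hz1 h1
        rw [h, h2, hh0]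
      · have e1 := y1_conj D hz1 h1
        have e2 := y1_conj D hz2 h2
        rw [h, ← e2] at e1
        have h3 := y1_injOn hdiff hder ((y1_cball_re hρ hα h1).mp hz1)
          ((y1_cball_re hρ hα h2).mp hz2) e1
        rw [← y1_invol hα h1, h3, y1_invol hα h2]
  have P3 : ∀ z ∈ closedBall (ρ : ℂ) ρ, 0 < z.im → 0 < (q.h.eval z).im := by
    intro z hz him
    have h0 : z ≠ 0 := by
      rintro rfl
      simp at him
    have hw := (y1_cball_re hρ hα h0).mp hz
    have hn : 0 < ‖z‖ ^ 2 := by positivity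
    have him2 : (1 / ((D.α : ℂ) * z)).im < 0 := by
      rw [y1_im hα]
      apply div_neg_of_neg_of_pos (by linarith) (by positivity)
    have h1 := y1_imsign hdiff hder hsym hw him2.ne
    rw [y1_conj D hz h0, y1_im hα (q.h.eval z)] at h1
    have h2 : -(q.h.eval z).im / (D.α * ‖q.h.eval z‖ ^ 2) < 0 := by
      by_contra h3
      push Not at h3
      nlinarith
    have hn2 : 0 < ‖q.h.eval z‖ ^ 2 := by
      have := y1_hne D hz h0
      positivity
    rw [div_lt_iff₀ (by positivity)] at h2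
    linarith
  have hconjm : ∀ z ∈ closedBall (ρ : ℂ) ρ, conj z ∈ closedBall (ρ : ℂ) ρ := by
    intro z hz
    rw [y1_cball_iff hρ] at hz ⊢
    simpa using hz
  have P4 : ∀ z ∈ closedBall (ρ : ℂ) ρ, q.h.eval z ≠ q.v := by
    intro z hz hv
    have hvp : 0 < q.v.im := RQ.vpos q
    have hzim : 0 < z.im := by
      rcases lt_trichotomy z.im 0 with h | h | h
      · exfalso
        have h1 := P3 (conj z) (hconjm z hz) (by simpa using h)
        rw [RQ.h_conj, hv] at h1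
        simp at h1
        linarith
      · exfalso
        have h1 : z = (z.re : ℂ) := by
          apply Complex.ext <;> simp [h]
        rw [h1, RQ.h_real] at hv
        rw [← hv] at hvp
        simp at hvp
      · exact h
    have hzc : z = q.c := (RQ.count_up q).2 z hzim hv
    have h0 : z ≠ 0 := by
      rintro rfl
      simp at hzim
    have hw := (y1_cball_re hρ hα h0).mp hz
    -- the derivative of F vanishes
    have hd0 : q.h.derivative.eval z = 0 := by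
      rw [RQ.crit_iff]
      exact Or.inr (Or.inl hzc)
    set w : ℂ := 1 / ((D.α : ℂ) * z) with hwdef
    have hw0 : w ≠ 0 := y1_ne_zero (y1_kpos D) hw
    have hinv : 1 / ((D.α : ℂ) * w) = z := by rw [hwdef]; exact y1_invol hα h0
    have hderF : HasDerivAt (parF q D.α) 0 w := by
      have g1 : HasDerivAt (fun w : ℂ => 1 / ((D.α : ℂ) * w))
          (deriv (fun w : ℂ => 1 / ((D.α : ℂ) * w)) w) w := by
        apply DifferentiableAt.hasDerivAt
        apply DifferentiableAt.div (differentiableAt_const _)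
        · exact (differentiableAt_id).const_mul _
        · exact mul_ne_zero hαC hw0
      have g2 : HasDerivAt (fun z => q.h.eval z) (q.h.derivative.eval z) (1 / ((D.α : ℂ) * w)) := by
        rw [hinv]
        exact q.h.hasDerivAt z
      have g3 := HasDerivAt.comp w (h₂ := fun z => q.h.eval z)
        (h := fun w : ℂ => 1 / ((D.α : ℂ) * w)) g2 g1
      rw [hd0, zero_mul] at g3
      have g4 := (g3.const_mul (D.α : ℂ))
      have g5 := (hasDerivAt_const w (1 : ℂ)).div g4 (by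
        simp only [Function.comp_apply]
        exact mul_ne_zero hαC (D.ne w hw))
      have e : (parF q D.α) = fun w => (1 : ℂ) / ((D.α : ℂ) *
          ((fun z => q.h.eval z) ∘ fun w : ℂ => 1 / ((D.α : ℂ) * w)) w) := by
        funext w
        rfl
      rw [e]
      have g6 : (0 * ((D.α : ℂ) * ((fun z => q.h.eval z) ∘ fun w : ℂ => 1 / ((D.α : ℂ) * w)) w) -
          1 * ((D.α : ℂ) * 0)) / ((D.α : ℂ) *
          ((fun z => q.h.eval z) ∘ fun w : ℂ => 1 / ((D.α : ℂ) * w)) w) ^ 2 = 0 := by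
        rw [mul_zero, mul_zero, zero_mul, sub_zero, zero_div]
      rw [← g6]
      exact g5
    have := D.der w hw
    rw [hderF.deriv] at this
    simp at this
  refine ⟨P1, P2, P3, P4, ?_⟩
  intro z hz
  by_cases h0 : z = 0
  · subst h0
    have h1 : ∀ n, (fun z => q.h.eval z)^[n] 0 = 0 := by
      intro n
      induction n with
      | zero => rfl
      | succ n ih => rw [Function.iterate_succ_apply', ih]; exact hh0
    simp_rw [h1]
    exact tendsto_const_nhds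
  · -- the iterates stay in the disc, and the real part of `1/(α z_n)` grows
    have key : ∀ n, (fun z => q.h.eval z)^[n] z ∈ closedBall (ρ : ℂ) ρ ∧
        (fun z => q.h.eval z)^[n] z ≠ 0 ∧
        (1 / ((D.α : ℂ) * z)).re + n * c ≤ (1 / ((D.α : ℂ) * (fun z => q.h.eval z)^[n] z)).re := by
      intro n
      induction n with
      | zero => exact ⟨hz, h0, by simp⟩
      | succ n ih =>
        obtain ⟨i1, i2, i3⟩ := ih
        rw [Function.iterate_succ_apply']
        refine ⟨ball_subset_closedBall (P1 _ i1 i2), y1_hne D i1 i2, ?_⟩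
        have h1 := hstep _ ((y1_cball_re hρ hα i2).mp i1)
        rw [y1_conj D i1 i2] at h1
        push_cast
        have h2 : (1 / ((D.α : ℂ) * z)).re + (n + 1) * c =
          (1 / ((D.α : ℂ) * z)).re + n * c + c := by ring
        rw [h2]
        exact (add_le_add_left i3 c).trans h1
    rw [tendsto_zero_iff_norm_tendsto_zero]
    have hT : Tendsto (fun n : ℕ => (1 / ((D.α : ℂ) * z)).re + n * c) atTop atTop := by
      apply tendsto_atTop_add_const_left
      exact tendsto_natCast_atTop_atTop.atTop_mul_const hc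
    have hT2 : Tendsto (fun n : ℕ => 1 / (D.α * ((1 / ((D.α : ℂ) * z)).re + n * c))) atTop
        (𝓝 0) := by
      have h := (hT.const_mul_atTop hα).inv_tendsto_atTop
      refine h.congr fun n => ?_
      rw [Pi.inv_apply]
      exact (one_div _).symm
    have hr0 : 0 < (1 / ((D.α : ℂ) * z)).re :=
      lt_of_lt_of_le (y1_kpos D) ((y1_cball_re hρ hα h0).mp hz)
    refine squeeze_zero (fun n => norm_nonneg _) (fun n => ?_) hT2
    obtain ⟨i1, i2, i3⟩ := key n
    set zn := (fun z => q.h.eval z)^[n] z with hzn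
    have h1 : (1 / ((D.α : ℂ) * zn)).re ≤ ‖1 / ((D.α : ℂ) * zn)‖ := re_le_norm _
    have h2 : ‖1 / ((D.α : ℂ) * zn)‖ = 1 / (D.α * ‖zn‖) := by
      rw [norm_div, norm_mul, norm_one, norm_real, Real.norm_of_nonneg hα.le]
    rw [h2] at h1
    have hznp : 0 < ‖zn‖ := norm_pos_iff.mpr i2
    have hx : 0 < (1 / ((D.α : ℂ) * z)).re + n * c := by positivity
    have h3 : (1 / ((D.α : ℂ) * z)).re + n * c ≤ 1 / (D.α * ‖zn‖) := i3.trans h1
    rw [le_div_iff₀ (by positivity)] at h3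
    rw [le_div_iff₀ (by positivity)]
    nlinarith

/-- the dynamics of a parabolic petal -/
theorem PD.sp {q : RQ} {ρ : ℝ} (D : PD q ρ) :
    ∃ c C, SP (parF q D.α) (1 / (2 * ρ * D.α)) c C := by
  have hα := D.hα
  have hρ := D.hρ
  have hαC : (D.α : ℂ) ≠ 0 := by exact_mod_cast hα.ne'
  obtain ⟨c, hc, hstep⟩ := D.step
  obtain ⟨a3, a4, hpoly⟩ := y1_poly D
  -- the bounded function
  have hu : ∀ z ∈ closedBall (ρ : ℂ) ρ, 1 - D.α * z + a3 * z ^ 2 + a4 * z ^ 3 ≠ 0 := by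
    intro z hz h
    by_cases h0 : z = 0
    · subst h0
      norm_num at h
    · apply y1_hne D hz h0
      rw [hpoly z, h, mul_zero]
  have hcont : ContinuousOn (fun z : ℂ => (D.α - a3 * z - a4 * z ^ 2) /
      (D.α * (1 - D.α * z + a3 * z ^ 2 + a4 * z ^ 3))) (closedBall (ρ : ℂ) ρ) := by
    apply ContinuousOn.div
    · fun_prop
    · fun_prop
    · intro z hz
      exact mul_ne_zero hαC (hu z hz)
  obtain ⟨C, hC⟩ := (isCompact_closedBall (ρ : ℂ) ρ).exists_bound_of_continuousOn hcont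
  refine ⟨c, C, hc, y1_diff D, fun w _ => y1_sym q D.α w, hstep, D.der, ?_⟩
  intro w hw
  have hw0 : w ≠ 0 := y1_ne_zero (y1_kpos D) hw
  set z : ℂ := 1 / ((D.α : ℂ) * w) with hz
  have hz0 : z ≠ 0 := by
    rw [hz]
    exact one_div_ne_zero (mul_ne_zero hαC hw0)
  have hzw : 1 / ((D.α : ℂ) * z) = w := y1_invol hα hw0
  have hzm : z ∈ closedBall (ρ : ℂ) ρ := by
    rw [y1_cball_re hρ hα hz0, hzw]
    exact hw
  have e : parF q D.α w - w = (D.α - a3 * z - a4 * z ^ 2) /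
      (D.α * (1 - D.α * z + a3 * z ^ 2 + a4 * z ^ 3)) := by
    have h1 : parF q D.α w = 1 / ((D.α : ℂ) * q.h.eval z) := by
      rw [← hzw]
      exact y1_conj D hzm hz0
    rw [h1, hpoly z]
    nth_rewrite 1 [← hzw]
    have h2 := hu z hzm
    obtain ⟨U, hU⟩ : ∃ U, U = 1 - D.α * z + a3 * z ^ 2 + a4 * z ^ 3 := ⟨_, rfl⟩
    have h3 : D.α - a3 * z - a4 * z ^ 2 = (1 - U) / z := by
      rw [hU, eq_div_iff hz0]
      ring
    rw [← hU] at h2
    rw [← hU, h3]
    field_simp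
  rw [e]
  exact hC z hzm

end

end Pool.TU
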