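import Pool.Agent.Helper71.TU.N4
import Pool.Agent.Helper71.TU.Y1

/-! # TU N5: fixed points of the parabolic tuned polynomial -/

open Complex Set Filter Topology Metric Polynomial ComplexConjugate Pool.Tuning

namespace Pool.TU

noncomputable section

namespace N5

open N4

/-- square root of the discriminant -/
def sD : ℝ := Real.sqrt (52512 ^ 2 + 4 * 135936 * 50149)

theorem sD_sq : sD ^ 2 = 52512 ^ 2 + 4 * 135936 * 50149 := Real.sq_sqrt (by norm_num)

theorem sD_lo : 173000 < sD := by
  unfold sD
  rw [Real.lt_sqrt (by norm_num)]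
  norm_num

/-- right nonzero fixed point -/
def z1 : ℝ := (-52512 + sD) / 271872

/-- left nonzero fixed point -/
def z2 : ℝ := (-52512 - sD) / 271872

theorem z1_root : 135936 * z1 ^ 2 + 52512 * z1 - 50149 = 0 := by
  unfold z1
  have := sD_sq
  field_simp
  nlinarith

theorem z2_root : 135936 * z2 ^ 2 + 52512 * z2 - 50149 = 0 := by
  unfold z2
  have := sD_sq
  field_simp
  nlinarith

theorem z1_pos : 0 < z1 := by
  unfold z1
  have := sD_lo
  apply div_pos <;> linarith

theorem z2_neg : z2 < -(4 / 5) := by
  unfold z2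
  have := sD_lo
  rw [div_lt_iff₀ (by norm_num)]
  linarith

theorem fix_eq (z : ℂ) : (gP.map (algebraMap ℝ ℂ)).eval z - z =
    z ^ 2 * (135936 * z ^ 2 + 52512 * z - 50149) / 33275 := by
  rw [gP_eval]
  ring

theorem fix_real (z : ℝ) (h : 135936 * z ^ 2 + 52512 * z - 50149 = 0) :
    (gP.map (algebraMap ℝ ℂ)).eval (z : ℂ) = z := by
  have h1 := fix_eq z
  have h2 : (135936 * (z : ℂ) ^ 2 + 52512 * z - 50149) = 0 := by exact_mod_cast h
  rw [h2] at h1
  have h3 : (gP.map (algebraMap ℝ ℂ)).eval (z : ℂ) - z = 0 := by rw [h1]; ring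
  exact sub_eq_zero.mp h3

theorem factor (z : ℂ) : 135936 * z ^ 2 + 52512 * z - 50149 = 135936 * (z - z1) * (z - z2) := by
  have hs : (z1 : ℂ) + z2 = -52512 / 135936 := by
    unfold z1 z2
    push_cast
    ring
  have hp : (z1 : ℂ) * z2 = -50149 / 135936 := by
    have h : z1 * z2 = -50149 / 135936 := by
      unfold z1 z2
      have := sD_sq
      field_simp
      nlinarith
    rw [← ofReal_mul, h]
    push_cast
    ring
  linear_combination (135936 * z) * hs - 135936 * hp

theorem fix_iff (z : ℂ) (h : (gP.map (algebraMap ℝ ℂ)).eval z = z) :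
    z = 0 ∨ z = z1 ∨ z = z2 := by
  have h1 := fix_eq z
  rw [h, sub_self, factor] at h1
  have h2 : z ^ 2 * (135936 * (z - z1) * (z - z2)) = 0 := by
    rcases div_eq_zero_iff.mp h1.symm with h3 | h3
    · exact h3
    · norm_num at h3
  rcases mul_eq_zero.mp h2 with h3 | h3
  · left
    exact pow_eq_zero_iff (by norm_num) |>.mp h3
  · rcases mul_eq_zero.mp h3 with h4 | h4
    · right; left
      rcases mul_eq_zero.mp h4 with h5 | h5
      · norm_num at h5
      · exact sub_eq_zero.mp h5
    · right; right
      exact sub_eq_zero.mp h4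

theorem fix_im (z : ℂ) (h : (gP.map (algebraMap ℝ ℂ)).eval z = z) : z.im = 0 := by
  rcases fix_iff z h with h | h | h <;> rw [h] <;> simp

theorem der_real (z : ℝ) (h : 135936 * z ^ 2 + 52512 * z - 50149 = 0) :
    (gP.map (algebraMap ℝ ℂ)).derivative.eval (z : ℂ) =
      ((1 + z ^ 2 * (271872 * z + 52512) / 33275 : ℝ) : ℂ) := by
  rw [gP_der]
  have h2 : (135936 * (z : ℂ) ^ 2 + 52512 * z - 50149) = 0 := by exact_mod_cast h
  push_cast
  linear_combination (2 * (z : ℂ) / 33275) * h2

theorem eval_conj (z : ℂ) : (gP.map (algebraMap ℝ ℂ)).eval (conj z) =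
    conj ((gP.map (algebraMap ℝ ℂ)).eval z) :=
  RQ.h_conj qP z

end N5

open N4 N5 in
theorem dpar_gP : DPar (gP.map (algebraMap ℝ ℂ)) := by
  refine ⟨0, z1, z2, ?_, ?_, ?_, ?_, fix_real _ z1_root, fix_real _ z2_root, fix_iff, ?_, ?_, ?_⟩
  · have := z1_pos
    exact_mod_cast this.ne
  · have := z2_neg
    exact_mod_cast (by linarith : z2 < 0).ne'
  · have h1 := z1_pos
    have h2 := z2_neg
    exact_mod_cast (by linarith : z2 < z1).ne'
  · rw [gP_eval]
    ring
  · rw [der_real _ z1_root, norm_real, Real.norm_eq_abs]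
    have h1 := z1_pos
    rw [abs_of_pos (by positivity)]
    have : 0 < z1 ^ 2 * (271872 * z1 + 52512) / 33275 := by positivity
    linarith
  · rw [der_real _ z2_root, norm_real, Real.norm_eq_abs]
    have h1 := z2_neg
    have h3 : 271872 * z2 + 52512 = -sD := by
      unfold z2
      ring
    have h4 := sD_lo
    have h5 : (4 / 5) ^ 2 < z2 ^ 2 := by nlinarith
    rw [h3]
    have h6 : 2 < z2 ^ 2 * sD / 33275 := by
      rw [lt_div_iff₀ (by norm_num)]
      nlinarith
    rw [lt_abs]
    right
    have h7 : z2 ^ 2 * -sD / 33275 = -(z2 ^ 2 * sD / 33275) := by ring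
    rw [h7]
    linarith
  · intro c hc h
    have hcrit := (RQ.crit_iff qP c).mp hc
    have him := fix_im _ h
    have hpos := hv_im
    rcases hcrit with h1 | h1 | h1
    · have h2 : (gP.map (algebraMap ℝ ℂ)).eval c = -1 := by
        rw [h1]
        show (gP.map (algebraMap ℝ ℂ)).eval ((-(11 / 16) : ℝ) : ℂ) = -1
        rw [gP_eval]
        push_cast
        norm_num
      rw [h2, gP_eval]
      norm_num
    · exfalso
      have h2 : c = cc := h1
      rw [h2, hpos] at him
      have := yc_pos
      have h3 : 0 < (55322039129176877130933655802777781000864938888267557 /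
        174087087280259437592447855394677468178677760000000000 : ℝ) * yc := by positivity
      linarith
    · exfalso
      have h2 : c = conj cc := h1
      rw [h2, eval_conj, eval_conj, conj_im, hpos] at him
      have := yc_pos
      have h3 : 0 < (55322039129176877130933655802777781000864938888267557 /
        174087087280259437592447855394677468178677760000000000 : ℝ) * yc := by positivity
      linarith

end

end Pool.TU
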