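import Pool.Agent.Helper71.TU.AllDefs

/-! # TU N6: continuity of the family -/

open Complex Set Filter Topology Metric Polynomial ComplexConjugate Pool.Tuning

namespace Pool.TU

noncomputable section

theorem fR_fix (ε : ℝ) : (fR ε).eval (-1) = -1 := by
  simp [fR]

theorem fR_tendsto (i : ℕ) : Tendsto (fun ε : ℝ => (fR ε).coeff i) (𝓝 0) (𝓝 ((fR 0).coeff i)) := by
  set G : ℝ[X] := (X + 1) * (X - C (7 / 10)) with hG
  have h1 : ∀ ε : ℝ, (fR ε).coeff i = (X : ℝ[X]).coeff i +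
      (1 / ((1 + ε ^ 2) * (17 / 10))) * ((X ^ 2 * G).coeff i + ε ^ 2 * G.coeff i) := by
    intro ε
    have h0 : (X ^ 2 + C (ε ^ 2)) * (X + 1) * (X - C (7 / 10)) =
        X ^ 2 * G + C (ε ^ 2) * G := by
      rw [hG]
      ring
    rw [fR, coeff_add, coeff_C_mul, h0, coeff_add, coeff_C_mul]
  have h2 : Continuous (fun ε : ℝ => (fR ε).coeff i) := by
    have h3 : (fun ε : ℝ => (fR ε).coeff i) = fun ε : ℝ => (X : ℝ[X]).coeff i +
      (1 / ((1 + ε ^ 2) * (17 / 10))) * ((X ^ 2 * G).coeff i + ε ^ 2 * G.coeff i) := funext h1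
    rw [h3]
    have h4 : ∀ ε : ℝ, (1 + ε ^ 2) * (17 / 10) ≠ 0 := fun ε => by positivity
    exact continuous_const.add ((continuous_const.div (by fun_prop) h4).mul (by fun_prop))
  exact h2.tendsto 0

end

end Pool.TU
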