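import Pool.Agent.Helper71.TU.B1

/-! # TU P1: postcritical set, hyperbolic type -/

open Complex Set Filter Topology Metric Polynomial ComplexConjugate Pool.Tuning

namespace Pool.TU

noncomputable section

theorem p1_conj (q : RQ) (z : ℂ) : q.h.eval (conj z) = conj (q.h.eval z) := by
  unfold RQ.h
  rw [Polynomial.eval_map, Polynomial.eval_map, Polynomial.eval₂_eq_sum, Polynomial.eval₂_eq_sum,
    Polynomial.sum, Polynomial.sum, map_sum]
  refine Finset.sum_congr rfl fun i _ => ?_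
  simp

theorem p1_real (q : RQ) (x : ℝ) : q.h.eval (x : ℂ) = ((q.p.eval x : ℝ) : ℂ) := by
  unfold RQ.h
  rw [Polynomial.eval_map, Polynomial.eval₂_eq_sum, Polynomial.eval_eq_sum, Polynomial.sum,
    Polynomial.sum]
  push_cast
  rfl

theorem p1_im_pos (q : RQ) : 0 < q.v.im := q.hv

/-- closed forward invariant sets containing the critical values, from an upper orbit `O` -/
theorem p1_pc (q : RQ) {O : Set ℂ} (hO : IsCompact O) (hinv : ∀ z ∈ O, q.h.eval z ∈ O)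
    (hv : q.v ∈ O) (E : Finset ℝ) (hE : ∀ x ∈ E, q.p.eval x ∈ E) (hr : q.vr ∈ E) :
    PC q.h (O ∪ conj '' O ∪ (fun x : ℝ => (x : ℂ)) '' (E : Set ℝ)) := by
  have hEc : IsCompact ((fun x : ℝ => (x : ℂ)) '' (E : Set ℝ)) :=
    (E.finite_toSet.image _).isCompact
  refine ⟨?_, ?_, ?_⟩
  · exact ((hO.union (hO.image continuous_conj)).union hEc).isClosed
  · rintro z ((hz | ⟨w, hw, rfl⟩) | ⟨x, hx, rfl⟩)
    · exact Or.inl (Or.inl (hinv z hz))
    · refine Or.inl (Or.inr ⟨q.h.eval w, hinv w hw, ?_⟩)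
      exact (p1_conj q w).symm
    · refine Or.inr ⟨q.p.eval x, hE x hx, ?_⟩
      exact (p1_real q x).symm
  · intro z hz
    have h1 := q.der z
    have h2 : (q.p.map (algebraMap ℝ ℂ)).derivative.eval z = 0 := hz
    rw [h2] at h1
    have hl : ((q.p.leadingCoeff : ℝ) : ℂ) ≠ 0 := by
      exact_mod_cast q.lead.ne'
    have h3 : (z - q.r) * (z - q.c) * (z - conj q.c) = 0 := by
      have h4 : (4 * ((q.p.leadingCoeff : ℝ) : ℂ)) * ((z - q.r) * (z - q.c) * (z - conj q.c)) = 0 := by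
        rw [h1]; ring
      rcases mul_eq_zero.1 h4 with h5 | h5
      · exact absurd h5 (mul_ne_zero (by norm_num) hl)
      · exact h5
    rcases mul_eq_zero.1 h3 with h4 | h4
    · rcases mul_eq_zero.1 h4 with h5 | h5
      · rw [sub_eq_zero.1 h5, p1_real]
        exact Or.inr ⟨q.vr, hr, rfl⟩
      · rw [sub_eq_zero.1 h5]
        exact Or.inl (Or.inl hv)
    · rw [sub_eq_zero.1 h4, p1_conj]
      exact Or.inl (Or.inr ⟨q.v, hv, rfl⟩)

theorem exists_rg_hyp (q : RQ) {S : TS} (hS : IsTS q S) (C : KC q) {R0 R : ℝ} (h0 : 1 < R0)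
    (h : R0 < R) (h1 : R < C.R1) {A A0 : XS S}
    (hA : A.Xo = (fun ζ => mm q.v (C.K ζ)) '' ball 0 R)
    (hA0 : A0.X = (fun ζ => mm q.v (C.K ζ)) '' closedBall 0 R0)
    (hA0o : A0.Xo = (fun ζ => mm q.v (C.K ζ)) '' ball 0 R0) (E : Finset ℝ)
    (hE : ∀ x ∈ E, q.p.eval x ∈ E) (hv : q.vr ∈ E) : ∃ P, RG q A A0 P E := by
  have hvi := p1_im_pos q
  have hμ1 : ‖C.μ‖ < 1 := C.μ1
  have hpow : ∀ n : ℕ, ‖C.μ ^ n‖ ≤ 1 := fun n => by
    rw [norm_pow]; exact pow_le_one₀ (norm_nonneg _) hμ1.le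
  -- the upper orbit
  set O : Set ℂ := insert (C.K 0) (range fun n : ℕ => C.K (C.μ ^ n)) with hOdef
  have hOK : ∀ z ∈ O, ∃ ζ : ℂ, ‖ζ‖ ≤ 1 ∧ z = C.K ζ := by
    rintro z (rfl | ⟨n, rfl⟩)
    · exact ⟨0, by simp, rfl⟩
    · exact ⟨C.μ ^ n, hpow n, rfl⟩
  have hKim : ∀ ζ : ℂ, ‖ζ‖ < C.R1 → 0 < (C.K ζ).im := fun ζ hζ =>
    C.maps ζ (by simpa [mem_ball_zero_iff] using hζ)
  have hKh : ∀ ζ : ℂ, ‖ζ‖ < C.R1 → 0 < (q.h.eval (C.K ζ)).im := by
    intro ζ hζ
    rw [C.lin ζ (by simpa [mem_ball_zero_iff] using hζ)]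
    refine hKim _ ?_
    rw [norm_mul]
    have : ‖C.μ‖ * ‖ζ‖ ≤ 1 * ‖ζ‖ := mul_le_mul_of_nonneg_right hμ1.le (norm_nonneg _)
    linarith
  have hOcomp : IsCompact O := by
    have ht : Tendsto (fun n : ℕ => C.K (C.μ ^ n)) atTop (𝓝 (C.K 0)) := by
      have hc : ContinuousAt C.K 0 :=
        (C.diff.continuousOn).continuousAt (ball_mem_nhds 0 (by linarith))
      have hp : Tendsto (fun n : ℕ => C.μ ^ n) atTop (𝓝 0) :=
        tendsto_pow_atTop_nhds_zero_of_norm_lt_one hμ1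
      exact hc.tendsto.comp hp
    exact ht.isCompact_insert_range
  have hOinv : ∀ z ∈ O, q.h.eval z ∈ O := by
    rintro z (rfl | ⟨n, rfl⟩)
    · rw [C.lin 0 (mem_ball_self (by linarith)), mul_zero]
      exact Or.inl rfl
    · have hb : C.μ ^ n ∈ ball (0 : ℂ) C.R1 := by
        rw [mem_ball_zero_iff]
        have := hpow n
        linarith
      show q.h.eval (C.K (C.μ ^ n)) ∈ O
      rw [C.lin _ hb]
      refine Or.inr ⟨n + 1, ?_⟩
      show C.K (C.μ ^ (n + 1)) = C.K (C.μ * C.μ ^ n)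
      rw [pow_succ']
  have hOv : q.v ∈ O := Or.inr ⟨0, by simp [C.one]⟩
  have hcountO : O.Countable := (countable_range _).insert _
  refine ⟨O ∪ conj '' O ∪ (fun x : ℝ => (x : ℂ)) '' (E : Set ℝ), ?_⟩
  -- points of `P` in the upper half plane
  have hPu : ∀ z ∈ HH, z ∈ O ∪ conj '' O ∪ (fun x : ℝ => (x : ℂ)) '' (E : Set ℝ) →
      (∃ ζ : ℂ, ‖ζ‖ ≤ 1 ∧ z = C.K ζ) ∨ ∃ x ∈ E, z = (x : ℂ) := by
    rintro z hz ((hz' | ⟨w, hw, rfl⟩) | ⟨x, hx, rfl⟩)
    · exact Or.inl (hOK z hz')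
    · exfalso
      obtain ⟨ζ, hζ, rfl⟩ := hOK w hw
      have h2 := hKim ζ (by linarith)
      have h3 : 0 ≤ (conj (C.K ζ)).im := hz
      rw [conj_im] at h3
      linarith
    · exact Or.inr ⟨x, hx, rfl⟩
  have hA0u : ∀ z ∈ HH, mm q.v z ∈ A0.X → ∃ ζ : ℂ, ‖ζ‖ ≤ R0 ∧ z = C.K ζ := by
    intro z hz hm
    rw [hA0] at hm
    obtain ⟨ζ, hζ, he⟩ := hm
    rw [mem_closedBall_zero_iff] at hζ
    refine ⟨ζ, hζ, ?_⟩
    have hK : C.K ζ ∈ HH := (hKim ζ (by linarith)).le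
    exact (mm_inj hvi hK hz he).symm
  refine ⟨p1_pc q hOcomp hOinv hOv E hE hv, ?_, ?_, ?_, ?_, ?_, ?_⟩
  · exact ((hOcomp.union (hOcomp.image continuous_conj)).union
      (E.finite_toSet.image _).isCompact).isBounded
  · have hc : (O ∪ conj '' O ∪ (fun x : ℝ => (x : ℂ)) '' (E : Set ℝ)).Countable :=
      (hcountO.union (hcountO.image _)).union (E.finite_toSet.image _).countable
    refine (hc.isConnected_compl_of_one_lt_rank ?_).isPreconnected
    rw [Complex.rank_real_complex]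
    exact Cardinal.one_lt_two
  · rw [hA, hA0o]
    exact image_mono (ball_subset_ball h.le)
  · intro z hz hzi hh
    refine ⟨fun hP => ?_, fun hm => ?_⟩
    · rcases hPu z hz hP with ⟨ζ, hζ, rfl⟩ | ⟨x, -, rfl⟩
      · have := hKh ζ (by linarith)
        linarith
      · simp at hzi
    · obtain ⟨ζ, hζ, rfl⟩ := hA0u z hz hm
      have := hKh ζ (by linarith)
      linarith
  · intro x _ hxE
    have hx : (x : ℂ) ∈ HH := by simp [HH]
    refine ⟨fun hP => ?_, fun hm => ?_⟩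
    · rcases hPu _ hx hP with ⟨ζ, hζ, he⟩ | ⟨y, hy, he⟩
      · have h2 := hKim ζ (by linarith)
        rw [← he] at h2
        simp at h2
      · exact hxE (by rw [Complex.ofReal_injective he]; exact hy)
    · obtain ⟨ζ, hζ, he⟩ := hA0u _ hx hm
      have h2 := hKim ζ (by linarith)
      rw [← he] at h2
      simp at h2
  · intro z hz hor
    have key : (∃ ζ : ℂ, ‖ζ‖ ≤ R0 ∧ z = C.K ζ) ∨ ∃ x ∈ E, z = (x : ℂ) := by
      rcases hor with hP | hm
      · rcases hPu z hz hP with ⟨ζ, hζ, he⟩ | hx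
        · exact Or.inl ⟨ζ, by linarith, he⟩
        · exact Or.inr hx
      · exact Or.inl (hA0u z hz hm)
    rcases key with ⟨ζ, hζ, rfl⟩ | hx
    · left
      rw [hA]
      exact ⟨ζ, by rw [mem_ball_zero_iff]; linarith, rfl⟩
    · exact Or.inr hx

end

end Pool.TU
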