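import Pool.Agent.Helper71.TU.Y2
import Pool.Agent.Helper71.TU.B8

/-! # TU P2: postcritical set, parabolic type -/

open Complex Set Filter Topology Metric Polynomial ComplexConjugate Pool.Tuning

namespace Pool.TU

noncomputable section

namespace P2aux

theorem mem_ball_iff {ρ : ℝ} (hρ : 0 < ρ) (z : ℂ) :
    z ∈ ball (ρ : ℂ) ρ ↔ z.re ^ 2 + z.im ^ 2 < 2 * ρ * z.re := by
  rw [mem_ball, dist_eq_norm, ← sq_lt_sq₀ (norm_nonneg _) hρ.le, ← Complex.normSq_eq_norm_sq,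
    Complex.normSq_apply]
  simp only [sub_re, ofReal_re, sub_im, ofReal_im, sub_zero]
  constructor <;> intro h <;> nlinarith

theorem mem_closedBall_iff {ρ : ℝ} (hρ : 0 < ρ) (z : ℂ) :
    z ∈ closedBall (ρ : ℂ) ρ ↔ z.re ^ 2 + z.im ^ 2 ≤ 2 * ρ * z.re := by
  rw [mem_closedBall, dist_eq_norm, ← sq_le_sq₀ (norm_nonneg _) hρ.le,
    ← Complex.normSq_eq_norm_sq, Complex.normSq_apply]
  simp only [sub_re, ofReal_re, sub_im, ofReal_im, sub_zero]
  constructor <;> intro h <;> nlinarith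

theorem ball_sub {ρ0 ρ : ℝ} (h0 : 0 < ρ0) (h : ρ0 < ρ) :
    ball (ρ0 : ℂ) ρ0 ⊆ ball (ρ : ℂ) ρ := by
  intro z hz
  rw [mem_ball_iff h0] at hz
  rw [mem_ball_iff (h0.trans h)]
  have : 0 < z.re := by
    by_contra hc
    push Not at hc
    nlinarith [sq_nonneg z.re, sq_nonneg z.im]
  nlinarith

theorem closedBall_sub {ρ0 ρ : ℝ} (h0 : 0 < ρ0) (h : ρ0 < ρ) {z : ℂ}
    (hz : z ∈ closedBall (ρ0 : ℂ) ρ0) (hz0 : z ≠ 0) : z ∈ ball (ρ : ℂ) ρ := by
  rw [mem_closedBall_iff h0] at hz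
  rw [mem_ball_iff (h0.trans h)]
  have hpos : 0 < z.re ^ 2 + z.im ^ 2 := by
    rcases eq_or_ne z.re 0 with h1 | h1
    · rcases eq_or_ne z.im 0 with h2 | h2
      · exact absurd (Complex.ext h1 h2) hz0
      · positivity
    · positivity
  have : 0 < z.re := by
    by_contra hc
    push Not at hc
    nlinarith
  nlinarith

/-- the forward orbit of the nonreal critical value -/
def orb (q : RQ) (n : ℕ) : ℂ := (fun z => q.h.eval z)^[n] q.v

theorem orb_succ (q : RQ) (n : ℕ) : orb q (n + 1) = q.h.eval (orb q n) := by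
  unfold orb
  rw [Function.iterate_succ_apply']

theorem orb_mem {q : RQ} {ρ0 : ℝ} (D0 : PD q ρ0) (n : ℕ) :
    orb q n ∈ ball (ρ0 : ℂ) ρ0 ∧ 0 < (orb q n).im := by
  induction n with
  | zero => exact ⟨D0.vmem, q.vpos⟩
  | succ n ih =>
    have hne : orb q n ≠ 0 := by
      intro h
      have := ih.2
      rw [h] at this
      simp at this
    have hc := ball_subset_closedBall ih.1
    rw [orb_succ]
    exact ⟨D0.props.1 _ hc hne, D0.props.2.2.1 _ hc ih.2⟩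

/-- the postcritical set -/
def PP (q : RQ) (E : Finset ℝ) : Set ℂ :=
  insert 0 (range (orb q)) ∪ (fun z => conj z) '' (insert 0 (range (orb q))) ∪
    (fun x : ℝ => (x : ℂ)) '' (E : Set ℝ)

theorem mem_PP {q : RQ} {E : Finset ℝ} (h0 : (0 : ℝ) ∈ E) (z : ℂ) :
    z ∈ PP q E ↔ (∃ n, z = orb q n) ∨ (∃ n, z = conj (orb q n)) ∨ ∃ x ∈ E, z = ((x : ℝ) : ℂ) := by
  unfold PP
  constructor
  · rintro ((h | h) | h)
    · rcases h with h | ⟨n, h⟩
      · exact Or.inr (Or.inr ⟨0, h0, by rw [h]; simp⟩)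
      · exact Or.inl ⟨n, h.symm⟩
    · obtain ⟨w, hw, hwz⟩ := h
      rcases hw with hw | ⟨n, hw⟩
      · refine Or.inr (Or.inr ⟨0, h0, ?_⟩)
        rw [← hwz, hw]
        simp
      · refine Or.inr (Or.inl ⟨n, ?_⟩)
        rw [← hwz, hw]
    · obtain ⟨x, hx, hxz⟩ := h
      exact Or.inr (Or.inr ⟨x, hx, hxz.symm⟩)
  · rintro (⟨n, h⟩ | ⟨n, h⟩ | ⟨x, hx, h⟩)
    · exact Or.inl (Or.inl (Or.inr ⟨n, h.symm⟩))
    · exact Or.inl (Or.inr ⟨orb q n, Or.inr ⟨n, rfl⟩, h.symm⟩)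
    · exact Or.inr ⟨x, hx, h.symm⟩

theorem tendsto_orb {q : RQ} {ρ0 : ℝ} (D0 : PD q ρ0) : Tendsto (orb q) atTop (𝓝 0) :=
  D0.props.2.2.2.2 q.v (ball_subset_closedBall D0.vmem)

theorem compact_PP {q : RQ} {ρ0 : ℝ} (D0 : PD q ρ0) (E : Finset ℝ) : IsCompact (PP q E) := by
  have h1 : IsCompact (insert 0 (range (orb q))) := (tendsto_orb D0).isCompact_insert_range
  have h2 : IsCompact ((fun z => conj z) '' (insert 0 (range (orb q)))) :=
    h1.image continuous_conj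
  have h3 : IsCompact ((fun x : ℝ => (x : ℂ)) '' (E : Set ℝ)) :=
    (E.finite_toSet.image _).isCompact
  exact (h1.union h2).union h3

theorem countable_PP (q : RQ) (E : Finset ℝ) : (PP q E).Countable := by
  have h1 : (insert 0 (range (orb q))).Countable := (countable_range _).insert _
  exact (h1.union (h1.image _)).union (E.finite_toSet.image _).countable

theorem pc {q : RQ} {ρ0 : ℝ} (D0 : PD q ρ0) (E : Finset ℝ)
    (hE : ∀ x ∈ E, q.p.eval x ∈ E) (hv : q.vr ∈ E) (h0 : (0 : ℝ) ∈ E) :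
    PC q.h (PP q E) where
  closed := (compact_PP D0 E).isClosed
  inv := by
    intro z hz
    rw [mem_PP h0] at hz ⊢
    rcases hz with ⟨n, rfl⟩ | ⟨n, rfl⟩ | ⟨x, hx, rfl⟩
    · exact Or.inl ⟨n + 1, (orb_succ q n).symm⟩
    · refine Or.inr (Or.inl ⟨n + 1, ?_⟩)
      rw [q.h_conj, orb_succ]
    · exact Or.inr (Or.inr ⟨_, hE x hx, q.h_real x⟩)
  crit := by
    intro z hz
    rw [mem_PP h0]
    rcases (q.crit_iff z).1 hz with rfl | rfl | rfl
    · exact Or.inr (Or.inr ⟨_, hv, q.h_real q.r⟩)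
    · exact Or.inl ⟨0, rfl⟩
    · refine Or.inr (Or.inl ⟨0, ?_⟩)
      rw [q.h_conj]
      rfl

theorem conn (q : RQ) (E : Finset ℝ) : IsPreconnected (PP q E)ᶜ := by
  have := (countable_PP q E).isConnected_compl_of_one_lt_rank (E := ℂ)
    (by rw [Complex.rank_real_complex]; norm_num)
  exact this.isPreconnected

end P2aux

open P2aux in
theorem exists_rg_par (q : RQ) {S : TS} (hS : IsTS q S) {ρ0 ρ : ℝ} (D0 : PD q ρ0)
    (D : PD q ρ) (h : ρ0 < ρ) {A A0 : XS S}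
    (hA : A.Xo = mm q.v '' (ball (ρ : ℂ) ρ ∩ HH))
    (hA0 : A0.X = mm q.v '' (closedBall (ρ0 : ℂ) ρ0 ∩ HH))
    (hA0o : A0.Xo = mm q.v '' (ball (ρ0 : ℂ) ρ0 ∩ HH)) (E : Finset ℝ)
    (hE : ∀ x ∈ E, q.p.eval x ∈ E) (hv : q.vr ∈ E) (h0 : (0 : ℝ) ∈ E) :
    ∃ P, RG q A A0 P E := by
  have hmem0 : ∀ z ∈ HH, mm q.v z ∈ A0.X → z ∈ closedBall (ρ0 : ℂ) ρ0 := by
    intro z hz hzA
    rw [hA0] at hzA
    obtain ⟨w, hw, hwz⟩ := hzA
    have := mm_inj q.vpos hw.2 hz hwz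
    rw [← this]
    exact hw.1
  refine ⟨PP q E, pc D0 E hE hv h0, (compact_PP D0 E).isBounded, conn q E, ?_, ?_, ?_, ?_⟩
  · rw [hA, hA0o]
    exact image_mono (inter_subset_inter_left _ (ball_sub D0.hρ h))
  · intro z hz hzi hhz
    refine ⟨?_, ?_⟩
    · rw [mem_PP h0]
      rintro (⟨n, rfl⟩ | ⟨n, rfl⟩ | ⟨x, hx, rfl⟩)
      · rw [← orb_succ] at hhz
        exact (orb_mem D0 (n + 1)).2.ne' hhz
      · have := (orb_mem D0 n).2
        simp only [conj_im] at hzi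
        linarith
      · simp at hzi
    · intro hzA
      exact (D0.props.2.2.1 z (hmem0 z hz hzA) hzi).ne' hhz
  · intro x hx hxE
    refine ⟨?_, ?_⟩
    · rw [mem_PP h0]
      rintro (⟨n, hn⟩ | ⟨n, hn⟩ | ⟨y, hy, hn⟩)
      · have := (orb_mem D0 n).2
        rw [← hn] at this
        simp at this
      · have := (orb_mem D0 n).2
        have h2 := congrArg Complex.im hn
        simp only [ofReal_im, conj_im] at h2
        linarith
      · have : x = y := by exact_mod_cast hn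
        exact hxE (this ▸ hy)
    · intro hzA
      have hxH : (x : ℂ) ∈ HH := by
        show (0 : ℝ) ≤ (x : ℂ).im
        simp
      have h2 := hmem0 _ hxH hzA
      rw [mem_closedBall_iff D0.hρ] at h2
      simp only [ofReal_re, ofReal_im] at h2
      have h3 := D0.hr
      have h4 := D0.hρ
      nlinarith [mul_pos h4 (neg_pos.2 (lt_of_le_of_lt hx h3)), sq_nonneg x]
  · intro z hz hzP
    rcases hzP with hzP | hzA
    · rw [mem_PP h0] at hzP
      rcases hzP with ⟨n, rfl⟩ | ⟨n, rfl⟩ | ⟨x, hx, rfl⟩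
      · left
        rw [hA]
        exact ⟨_, ⟨ball_sub D0.hρ h (orb_mem D0 n).1, hz⟩, rfl⟩
      · exfalso
        have h1 := (orb_mem D0 n).2
        have h2 : (0 : ℝ) ≤ (conj (orb q n)).im := hz
        rw [conj_im] at h2
        linarith
      · exact Or.inr ⟨x, hx, rfl⟩
    · rcases eq_or_ne z 0 with rfl | hz0
      · exact Or.inr ⟨0, h0, by simp⟩
      · left
        rw [hA]
        exact ⟨z, ⟨closedBall_sub D0.hρ h (hmem0 z hz hzA) hz0, hz⟩, rfl⟩

end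

end Pool.TU
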