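import Pool.Agent.Helper71.TU.B15
import Pool.Agent.Helper71.TU.A7

/-! # TU S5: real branches -/

open Complex Set Filter Topology Metric Polynomial ComplexConjugate Pool.Tuning

namespace Pool.TU

noncomputable section

private theorem s5_fold_real (x : ℝ) : fold (x : ℂ) = x := by
  unfold fold
  simp

private theorem s5_real_mem (x : ℝ) : (x : ℂ) ∈ HH := by
  simp [HH]

private theorem s5_F_ang (q : RQ) {S : TS} (hS : IsTS q S) (x : ℝ) :
    S.F (ec (ang q.v x)) = ec (ang q.v (q.p.eval x)) := by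
  rw [← mm_real q.vpos x, hS.F_eq _ (s5_real_mem x), q.h_real x, s5_fold_real,
    mm_real q.vpos]

private theorem s5_sq (θ : ℝ) : ec (θ / 2) ^ 2 = ec θ := by
  rw [sq, ← ec_add]
  congr 1
  ring

private theorem s5_mem_DD (θ : ℝ) : ec θ ∈ DD := by
  simp [DD, norm_ec]

private theorem s5_mem (q : RQ) {S : TS} (hS : IsTS q S) (x : ℝ) :
    ang q.v (q.p.eval x) ∈ Icc S.κ (2 * Real.pi) := by
  refine ⟨?_, (ang_mem q.vpos _).2.le⟩
  rw [hS.κ_eq]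
  exact (ang_strictMono q.vpos).monotone (q.vr_le x)

/-- the right real branch: `rp (ang (h x)) = ang x` for `x ≥ r` -/
theorem rp_ang (q : RQ) {S : TS} (hS : IsTS q S) {x : ℝ} (hx : q.r ≤ x) :
    ang q.v (q.p.eval x) ∈ Icc S.κ (2 * Real.pi) ∧
      S.rp (ang q.v (q.p.eval x)) = ang q.v x := by
  have hmem := s5_mem q hS x
  refine ⟨hmem, ?_⟩
  have ht : ang q.v x ∈ Icc S.ω₀ (2 * Real.pi) := by
    refine ⟨?_, (ang_mem q.vpos _).2.le⟩
    rw [hS.ω_eq]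
    exact (ang_strictMono q.vpos).monotone hx
  obtain ⟨θ', hθ', he⟩ := rp_surj S ht
  have h1 : ec θ' = ec (ang q.v (q.p.eval x)) := by
    rw [← s5_F_ang q hS x, ← he, ← S.rpΘ θ' hθ', S.FΘ _ (s5_mem_DD _), s5_sq]
  have h2 : θ' = ang q.v (q.p.eval x) :=
    ec_inj ⟨lt_of_lt_of_le S.κ_mem.1 hθ'.1, hθ'.2⟩
      ⟨(ang_mem q.vpos _).1, (ang_mem q.vpos _).2.le⟩ h1
  rw [← h2, he]

/-- the left real branch: `rm (ang (h x)) = ang x` for `x ≤ r` -/
theorem rm_ang (q : RQ) {S : TS} (hS : IsTS q S) {x : ℝ} (hx : x ≤ q.r) :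
    ang q.v (q.p.eval x) ∈ Icc S.κ (2 * Real.pi) ∧
      S.rm (ang q.v (q.p.eval x)) = ang q.v x := by
  have hmem := s5_mem q hS x
  refine ⟨hmem, ?_⟩
  have ht : ang q.v x ∈ Icc 0 S.ω₀ := by
    refine ⟨(ang_mem q.vpos _).1.le, ?_⟩
    rw [hS.ω_eq]
    exact (ang_strictMono q.vpos).monotone hx
  obtain ⟨θ', hθ', he⟩ := rm_surj S ht
  have h1 : ec θ' = ec (ang q.v (q.p.eval x)) := by
    rw [← s5_F_ang q hS x, ← he, ← S.rmG θ' hθ', S.F4 _ (s5_mem_DD _)]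
  have h2 : θ' = ang q.v (q.p.eval x) :=
    ec_inj ⟨lt_of_lt_of_le S.κ_mem.1 hθ'.1, hθ'.2⟩
      ⟨(ang_mem q.vpos _).1, (ang_mem q.vpos _).2.le⟩ h1
  rw [← h2, he]

/-- A real fixed point to the right of the critical point is fixed by `Φ`. -/
theorem phi_fixed (q : RQ) {S : TS} (hS : IsTS q S) {A : XS S} (B : Br S A) {β : ℝ}
    (hβ : q.r < β) (hfix : q.p.eval β = β) (hO : (ang q.v β : ℂ) * I ∈ OO A.Xo) :
    B.Φ (ang q.v β * I) = ang q.v β * I := by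
  obtain ⟨h1, h2⟩ := rp_ang q hS hβ.le
  rw [hfix] at h1 h2
  rw [B.bdΦ _ hO, bd_rp B.bd _ h1, h2]

end

end Pool.TU
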