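import Pool.Agent.Helper71.TU.S2
import Pool.Agent.Helper71.TU.D5
import Pool.Agent.Helper71.TU.A7
import Pool.Agent.Helper71.TU.B15

/-! # TU S3: regular points -/

open Complex Set Filter Topology Metric Polynomial ComplexConjugate Pool.Tuning

namespace Pool.TU

noncomputable section

theorem s3_DD_preconn : IsPreconnected DD := (convex_closedBall (0 : ℂ) 1).isPreconnected

theorem s3_one_mem : (1 : ℂ) ∈ DD := by
  show (1 : ℂ) ∈ closedBall (0 : ℂ) 1
  rw [mem_closedBall, dist_zero_right]; simp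

theorem exists_ext {S : TS} {A A0 : XS S} (B : Br S A) (hsub : A0.Xo ⊆ A.Xo) :
    ∃ B0 : Br S A0, Ext B B0 := by
  obtain ⟨B0⟩ := exists_br S A0
  have hb : ∀ θ : ℝ, B.b θ = B0.b θ := by
    intro θ
    refine log_unique (isPreconnected_univ) B.bd.cont.continuousOn B0.bd.cont.continuousOn ?_
      (mem_univ (0 : ℝ)) ?_ θ (mem_univ θ)
    · intro x _
      rw [B.bd.exp_eq, B0.bd.exp_eq]
    · rw [B.bd.zero, B0.bd.zero]
  have hOO : OO A.Xo ⊆ OO A0.Xo := fun u hu => ⟨hu.1, fun h => hu.2 (hsub h)⟩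
  refine ⟨B0, hsub, ?_, ?_, ?_⟩
  · intro u hu
    obtain ⟨s, hs, hsc, hus, k, hk⟩ := A.cconn u hu
    refine log_unique hsc (B.contΦ.mono hs) (B0.contΦ.mono (hs.trans hOO)) ?_ hk ?_ u hus
    · intro x hx
      rw [B.expΦ x (hs hx), B0.expΦ x (hOO (hs hx))]
    · have e1 : (k : ℂ) * tpi = ((2 * Real.pi * k : ℝ) : ℂ) * I := by
        simp only [tpi]; push_cast; ring
      rw [e1] at hk ⊢
      rw [B.bdΦ _ (hs hk), B0.bdΦ _ (hOO (hs hk)), hb]
  · intro w hw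
    refine log_unique s3_DD_preconn B.cont2 B0.cont2 ?_ s3_one_mem ?_ w hw
    · intro x hx
      rw [B.exp2 x hx, B0.exp2 x hx]
    · rw [B.one2, B0.one2]
  · intro w hw
    refine log_unique s3_DD_preconn B.cont4 B0.cont4 ?_ s3_one_mem ?_ w hw
    · intro x hx
      rw [B.exp4 x hx, B0.exp4 x hx]
    · rw [B.one4, B0.one4]

theorem s3_exp_mem {u : ℂ} (hu : u ∈ UU) : exp u ∈ DD := by
  show exp u ∈ closedBall (0 : ℂ) 1
  rw [mem_closedBall, dist_zero_right, Complex.norm_exp]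
  exact Real.exp_le_one_iff.mpr hu

theorem s3_exp_shift (u : ℂ) (k : ℤ) : exp (u + k * tpi) = exp u := by
  have h : u + (k : ℂ) * tpi = u + k * (2 * Real.pi * I) := by simp [tpi]
  rw [h, Complex.exp_periodic.int_mul k u]

theorem s3_mem_shift {Z : Set ℂ} {u : ℂ} (hu : u ∈ OO Z) (k : ℤ) : u + k * tpi ∈ OO Z := by
  obtain ⟨h1, h2⟩ := hu
  refine ⟨?_, ?_⟩
  · have h3 : (u + (k : ℂ) * tpi).re = u.re := by simp [tpi]
    show (u + (k : ℂ) * tpi).re ≤ 0
    rw [h3]; exact h1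
  · rw [s3_exp_shift]; exact h2

theorem s3_ev_eq {S : TS} {A A0 : XS S} {B : Br S A} {B0 : Br S A0} (hE : Ext B B0)
    (w : List Ltr) {u : ℂ} (hu : u ∈ OO A.Xo) : B.ev w u = B0.ev w u := by
  induction w with
  | nil => rfl
  | cons l w ih =>
    simp only [Br.ev]
    rw [← ih]
    have hm : B.ev w u ∈ OO A.Xo := B.ev_mem subset_rfl A.FXo w hu
    cases l with
    | P k => exact hE.Φ_eq _ (s3_mem_shift hm k)
    | Q2 k =>
      simp only [Br.ap]
      rw [hE.g2_eq _ (s3_exp_mem hm.1)]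
    | Q4 k =>
      simp only [Br.ap]
      rw [hE.g4_eq _ (s3_exp_mem hm.1)]

/-- words are inverse branches of the folded iterates -/
theorem s3_iter (q : RQ) {S : TS} (hS : IsTS q S) {A0 : XS S} (B0 : Br S A0) (w : List Ltr)
    {u : ℂ} (hu : u ∈ OO A0.Xo) (h1 : exp u ≠ 1) : exp (B0.ev w u) ≠ 1 ∧
      (fun z => fold (q.h.eval z))^[w.length] (mi q.v (exp (B0.ev w u))) = mi q.v (exp u) := by
  have hv : 0 < q.v.im := q.hv
  induction w with
  | nil => exact ⟨h1, rfl⟩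
  | cons l w ih =>
    obtain ⟨ih1, ih2⟩ := ih
    have hm : B0.ev w u ∈ OO A0.Xo := B0.ev_mem subset_rfl A0.FXo w hu
    have hy : B0.ev (l :: w) u ∈ OO A0.Xo := B0.ev_mem subset_rfl A0.FXo (l :: w) hu
    have hF : S.F (exp (B0.ev (l :: w) u)) = exp (B0.ev w u) := B0.F_ap l hm
    have hne : exp (B0.ev (l :: w) u) ≠ 1 := by
      intro h
      rw [h, F_one] at hF
      exact ih1 hF.symm
    refine ⟨hne, ?_⟩
    have hyD := s3_exp_mem hy.1
    have hz := mi_mem hv hyD hne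
    have h2 := hS.F_eq _ hz
    rw [mm_mi hv hyD hne, hF] at h2
    have h3 : mi q.v (exp (B0.ev w u)) = fold (q.h.eval (mi q.v (exp (B0.ev (l :: w) u)))) := by
      rw [h2, mi_mm hv (fold_mem _)]
    rw [List.length_cons, Function.iterate_succ_apply]
    rw [← h3]
    exact ih2

theorem s3_re_bound {S : TS} (A0 : XS S) : ∃ M : ℝ, ∀ u ∈ OO A0.Xo, -M ≤ u.re := by
  obtain ⟨O, hO, hX⟩ := A0.Xo_open
  have h0 : (0 : ℂ) ∈ O := by
    have := A0.zero_mem
    rw [hX] at this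
    exact this.1
  obtain ⟨ρ, hρ, hb⟩ := Metric.isOpen_iff.mp hO 0 h0
  refine ⟨-Real.log ρ, fun u hu => ?_⟩
  rw [neg_neg]
  by_contra hlt
  push Not at hlt
  apply hu.2
  rw [hX]
  refine ⟨hb ?_, s3_exp_mem hu.1⟩
  rw [mem_ball, dist_zero_right, Complex.norm_exp]
  calc Real.exp u.re < Real.exp (Real.log ρ) := Real.exp_lt_exp.mpr hlt
    _ = ρ := Real.exp_log hρ

theorem s3_deg (q : RQ) : 2 ≤ q.h.natDegree := by
  unfold RQ.h
  rw [Polynomial.natDegree_map_eq_of_injective (algebraMap ℝ ℂ).injective, q.deg]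
  norm_num

/-- the local coordinates -/
theorem s3_coord (q : RQ) {S : TS} (A0 : XS S) {u0 : ℂ} (hu0 : u0 ∈ UU) (h1 : exp u0 ≠ 1)
    (hX0 : exp u0 ∉ A0.X) {r1 : ℝ} (hr1 : 0 < r1) :
    ∃ r > 0, r ≤ r1 ∧ ∃ lg : ℂ → ℂ,
      ContinuousOn lg (ball (mi q.v (exp u0)) r ∩ HH) ∧
      (∀ z ∈ ball (mi q.v (exp u0)) r ∩ HH, lg z ∈ OO A0.Xo ∧ exp (lg z) = mm q.v z) ∧
      ∃ δ0 > 0, ∀ u ∈ UU, ‖u - u0‖ < δ0 → exp u ≠ 1 ∧ u ∈ OO A0.Xo ∧
        mi q.v (exp u) ∈ ball (mi q.v (exp u0)) r ∩ HH ∧ lg (mi q.v (exp u)) = u := by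
  have hv : 0 < q.v.im := q.hv
  set x0 := mi q.v (exp u0) with hx0
  have hx0H : x0 ∈ HH := mi_mem hv (s3_exp_mem hu0) h1
  have hmx0 : mm q.v x0 = exp u0 := mm_mi hv (s3_exp_mem hu0) h1
  obtain ⟨ε1, hε1, hb1⟩ := Metric.isOpen_iff.mp A0.closedX.isOpen_compl (exp u0) hX0
  have hnp : 0 < ‖exp u0‖ := norm_pos_iff.mpr (Complex.exp_ne_zero u0)
  obtain ⟨r2, hr2, hc2⟩ := Metric.continuousOn_iff.mp (mm_cont hv) x0 hx0H
    (min ε1 ‖exp u0‖) (by positivity)
  have hdiv : ∀ z ∈ HH, dist z x0 < r2 → mm q.v z / exp u0 ∈ slitPlane := by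
    intro z hz hd
    have h2 := hc2 z hz hd
    rw [hmx0, dist_eq_norm] at h2
    have h3 : mm q.v z / exp u0 = 1 + (mm q.v z - exp u0) / exp u0 := by
      field_simp; ring
    rw [h3]
    refine Complex.mem_slitPlane_of_norm_lt_one ?_
    rw [norm_div, div_lt_one hnp]
    exact lt_of_lt_of_le h2 (min_le_right _ _)
  set r := min r1 r2 with hr
  have hr0 : 0 < r := by positivity
  refine ⟨r, hr0, min_le_left _ _, fun z => u0 + log (mm q.v z / exp u0), ?_, ?_, ?_⟩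
  · refine continuousOn_const.add ?_
    refine ContinuousOn.clog ?_ ?_
    · exact ((mm_cont hv).mono inter_subset_right).div_const _
    · intro z hz
      exact hdiv z hz.2 (lt_of_lt_of_le hz.1 (min_le_right _ _))
  · intro z hz
    have hd : dist z x0 < r2 := lt_of_lt_of_le hz.1 (min_le_right _ _)
    have e1 : exp (u0 + log (mm q.v z / exp u0)) = mm q.v z := by
      rw [Complex.exp_add, Complex.exp_log (Complex.slitPlane_ne_zero (hdiv z hz.2 hd))]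
      field_simp
    have e2 : mm q.v z ∈ DD := mm_mem hv hz.2
    refine ⟨⟨?_, ?_⟩, e1⟩
    · have h3 : ‖exp (u0 + log (mm q.v z / exp u0))‖ ≤ 1 := by
        rw [e1]
        have : mm q.v z ∈ closedBall (0 : ℂ) 1 := e2
        rwa [mem_closedBall, dist_zero_right] at this
      rw [Complex.norm_exp] at h3
      exact Real.exp_le_one_iff.mp h3
    · rw [e1]
      intro h
      have h2 := hc2 z hz.2 hd
      rw [hmx0] at h2
      exact hb1 (mem_ball.mpr (lt_of_lt_of_le h2 (min_le_left _ _))) (A0.Xo_sub h)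
  · have hca : ContinuousAt (fun u => mi q.v (exp u)) u0 := by
      have : ContinuousAt (mi q.v) (exp u0) := by
        unfold mi
        refine ContinuousAt.div (by fun_prop) (by fun_prop) ?_
        exact sub_ne_zero.mpr (Ne.symm h1)
      exact ContinuousAt.comp (f := fun u => exp u) this (by fun_prop)
    obtain ⟨δ1, hδ1, hc1⟩ := Metric.continuousAt_iff.mp hca r hr0
    have hce : ContinuousAt (fun u => exp u) u0 := by fun_prop
    have hev : ∀ᶠ u in 𝓝 u0, exp u ≠ 1 := hce.eventually_ne h1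
    obtain ⟨δ2, hδ2, hc2'⟩ := Metric.eventually_nhds_iff.mp hev
    refine ⟨min 1 (min δ1 δ2), by positivity, ?_⟩
    intro u hu hn
    have n1 : ‖u - u0‖ < 1 := lt_of_lt_of_le hn (min_le_left _ _)
    have n2 : ‖u - u0‖ < δ1 := lt_of_lt_of_le hn ((min_le_right _ _).trans (min_le_left _ _))
    have n3 : ‖u - u0‖ < δ2 := lt_of_lt_of_le hn ((min_le_right _ _).trans (min_le_right _ _))
    have g1 : exp u ≠ 1 := hc2' (by rw [dist_eq_norm]; exact n3)
    have g2 : mi q.v (exp u) ∈ ball x0 r := hc1 (by rw [dist_eq_norm]; exact n2)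
    have g3 : mi q.v (exp u) ∈ HH := mi_mem hv (s3_exp_mem hu) g1
    have g4 : mm q.v (mi q.v (exp u)) = exp u := mm_mi hv (s3_exp_mem hu) g1
    refine ⟨g1, ⟨hu, ?_⟩, ⟨g2, g3⟩, ?_⟩
    · intro h
      have h2 := hc2 _ g3 (lt_of_lt_of_le g2 (min_le_right _ _))
      rw [hmx0, g4] at h2
      exact hb1 (mem_ball.mpr (lt_of_lt_of_le h2 (min_le_left _ _))) (A0.Xo_sub h)
    · show u0 + log (mm q.v (mi q.v (exp u)) / exp u0) = u
      rw [g4, ← Complex.exp_sub]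
      have him : |(u - u0).im| < 1 := lt_of_le_of_lt (Complex.abs_im_le_norm _) n1
      have hp := Real.pi_gt_three
      have h5 := abs_lt.mp him
      rw [Complex.log_exp (by linarith) (by linarith)]
      ring

/-- the core estimate -/
theorem s3_core (q : RQ) {S : TS} (hS : IsTS q S) {P : Set ℂ} (hP : PC q.h P)
    {A0 : XS S} (B0 : Br S A0) {u0 : ℂ} (hu0 : u0 ∈ UU) (h1 : exp u0 ≠ 1)
    (hX0 : exp u0 ∉ A0.X) {r1 : ℝ} (hr1 : 0 < r1)
    (hr1P : Disjoint (ball (mi q.v (exp u0)) r1) P) :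
    ∃ δ0 > 0, (∀ u ∈ UU, ‖u - u0‖ < δ0 → mi q.v (exp u) ∈ ball (mi q.v (exp u0)) r1) ∧
      ∀ η > 0, ∃ η' > 0, ∀ δ ≤ δ0, ∀ w : List Ltr,
      (∀ T : ℂ → ℂ, Sec q.h w.length (ball (mi q.v (exp u0)) r1) T →
        ∀ u ∈ UU ∩ ball u0 δ, ∀ u' ∈ UU ∩ ball u0 δ,
          ‖T (mi q.v (exp u)) - T (mi q.v (exp u'))‖ ≤ η') →
      ∀ u ∈ UU ∩ ball u0 δ, ∀ u' ∈ UU ∩ ball u0 δ, ‖B0.ev w u - B0.ev w u'‖ ≤ η := by
  have hv : 0 < q.v.im := q.hv
  obtain ⟨r, hr0, hrr, lg, lgc, lgm, δ0, hδ0, hloc⟩ := s3_coord q A0 hu0 h1 hX0 hr1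
  set x0 := mi q.v (exp u0) with hx0
  obtain ⟨M, hM⟩ := s3_re_bound A0
  obtain ⟨ε₀, hε₀, C', hdiam⟩ := diam_of_exp (M := M)
  obtain ⟨C, hC⟩ := mm_lip hv
  have hx0H : x0 ∈ HH := mi_mem hv (s3_exp_mem hu0) h1
  refine ⟨δ0, hδ0, fun u hu hn => ball_subset_ball hrr (hloc u hu hn).2.2.1.1, fun η hη => ?_⟩
  set K : ℝ := |C| + 1 with hK
  have hKp : 0 < K := by positivity
  set K' : ℝ := |C'| + 1 with hK'
  have hKp' : 0 < K' := by positivity
  refine ⟨min (ε₀ / K) (η / (K * K')), by positivity, ?_⟩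
  set η' : ℝ := min (ε₀ / K) (η / (K * K')) with hη'
  have hη'p : 0 < η' := by positivity
  intro δ hδ w hT u hu u' hu'
  -- the section
  have hVm : ∀ z ∈ ball x0 r ∩ HH, exp (lg z) ≠ 1 := by
    intro z hz
    rw [(lgm z hz).2]; exact mm_ne_one hv hz.2
  set t : ℂ → ℂ := fun z => mi q.v (exp (B0.ev w (lg z))) with ht
  have hlgO : MapsTo lg (ball x0 r ∩ HH) (OO A0.Xo) := fun z hz => (lgm z hz).1
  have hevO : ∀ z ∈ ball x0 r ∩ HH, B0.ev w (lg z) ∈ OO A0.Xo := fun z hz =>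
    B0.ev_mem subset_rfl A0.FXo w (hlgO hz)
  have htc : ContinuousOn t (ball x0 r ∩ HH) := by
    refine (mi_cont hv).comp ?_ ?_
    · exact Complex.continuous_exp.comp_continuousOn ((B0.contOn_ev w).comp lgc hlgO)
    · intro z hz
      exact ⟨s3_exp_mem (hevO z hz).1, (s3_iter q hS B0 w (hlgO hz) (hVm z hz)).1⟩
  have htm : MapsTo t (ball x0 r ∩ HH) HH := fun z hz =>
    mi_mem hv (s3_exp_mem (hevO z hz).1) (s3_iter q hS B0 w (hlgO hz) (hVm z hz)).1
  have hF : ∀ z ∈ ball x0 r ∩ HH, (fun z => fold (q.h.eval z))^[w.length] (t z) = z := by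
    intro z hz
    have := (s3_iter q hS B0 w (hlgO hz) (hVm z hz)).2
    rw [(lgm z hz).2, mi_mm hv hz.2] at this
    exact this
  have hdisj : Disjoint (ball x0 r) P := hr1P.mono_left (ball_subset_ball hrr)
  obtain ⟨S1, hS1, hS1t⟩ := unfold_sec q hP w.length hx0H hr0 hdisj htc htm hF
  have hx0r : x0 ∈ ball x0 r := mem_ball_self hr0
  obtain ⟨S2, hS2, hS20⟩ := exists_sec (s3_deg q) hP w.length hr1P (w0 := x0) (z0 := S1 x0)
    (mem_ball_self hr1) (hS1.sec x0 hx0r)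
  have hS12 : ∀ z ∈ ball x0 r, S1 z = S2 z := by
    refine sec_unique (s3_deg q) hP w.length (convex_ball x0 r).isPreconnected hdisj hS1 ?_
      hx0r hS20.symm
    exact ⟨hS2.cont.mono (ball_subset_ball hrr), fun z hz => hS2.sec z (ball_subset_ball hrr hz)⟩
  have hosc : ∀ a ∈ UU ∩ ball u0 δ, ∀ b ∈ UU ∩ ball u0 δ,
      ‖exp (B0.ev w a) - exp (B0.ev w b)‖ ≤ K * η' := by
    intro a ha b hb
    have na : ‖a - u0‖ < δ0 := by
      have := ha.2
      rw [mem_ball, dist_eq_norm] at this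
      linarith
    have nb : ‖b - u0‖ < δ0 := by
      have := hb.2
      rw [mem_ball, dist_eq_norm] at this
      linarith
    obtain ⟨a1, a2, a3, a4⟩ := hloc a ha.1 na
    obtain ⟨b1, b2, b3, b4⟩ := hloc b hb.1 nb
    have h2 : ‖t (mi q.v (exp a)) - t (mi q.v (exp b))‖ ≤ η' := by
      have h3 := hT S2 hS2 a ha b hb
      rcases hS1t with h | h
      · rw [h _ a3, h _ b3, hS12 _ a3.1, hS12 _ b3.1]; exact h3
      · rw [h _ a3, h _ b3, hS12 _ a3.1, hS12 _ b3.1, ← map_sub, Complex.norm_conj]; exact h3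
    have h4 := hC _ (htm a3) _ (htm b3)
    have h5 : ∀ c : ℂ, c ∈ UU → exp c ≠ 1 → mi q.v (exp c) ∈ ball x0 r ∩ HH →
        lg (mi q.v (exp c)) = c → mm q.v (t (mi q.v (exp c))) = exp (B0.ev w c) := by
      intro c hc hc1 hc3 hc4
      show mm q.v (mi q.v (exp (B0.ev w (lg (mi q.v (exp c)))))) = exp (B0.ev w c)
      have := hevO _ hc3
      have g := (s3_iter q hS B0 w (hlgO hc3) (hVm _ hc3)).1
      rw [mm_mi hv (s3_exp_mem this.1) g, hc4]
    rw [h5 a ha.1 a1 a3 a4, h5 b hb.1 b1 b3 b4] at h4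
    calc ‖exp (B0.ev w a) - exp (B0.ev w b)‖ ≤ C * ‖t (mi q.v (exp a)) - t (mi q.v (exp b))‖ := h4
      _ ≤ K * ‖t (mi q.v (exp a)) - t (mi q.v (exp b))‖ := by
        refine mul_le_mul_of_nonneg_right ?_ (norm_nonneg _)
        rw [hK]; linarith [le_abs_self C]
      _ ≤ K * η' := mul_le_mul_of_nonneg_left h2 hKp.le
  have hTsub : UU ∩ ball u0 δ ⊆ OO A0.Xo := by
    intro a ha
    have na : ‖a - u0‖ < δ0 := by
      have := ha.2
      rw [mem_ball, dist_eq_norm] at this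
      linarith
    exact (hloc a ha.1 na).2.1
  have hconv : Convex ℝ (UU ∩ ball u0 δ) := by
    refine Convex.inter ?_ (convex_ball u0 δ)
    exact convex_halfSpace_re_le 0
  have hpre : IsPreconnected (B0.ev w '' (UU ∩ ball u0 δ)) :=
    hconv.isPreconnected.image _ ((B0.contOn_ev w).mono hTsub)
  have hε : K * η' ≤ ε₀ := by
    calc K * η' ≤ K * (ε₀ / K) := mul_le_mul_of_nonneg_left (min_le_left _ _) hKp.le
      _ = ε₀ := by field_simp
  have hd := hdiam (B0.ev w '' (UU ∩ ball u0 δ)) hpre ?_ (K * η') hε ?_ (B0.ev w u)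
    ⟨u, hu, rfl⟩ (B0.ev w u') ⟨u', hu', rfl⟩
  · calc ‖B0.ev w u - B0.ev w u'‖ ≤ C' * (K * η') := hd
      _ ≤ K' * (K * η') := by
        refine mul_le_mul_of_nonneg_right ?_ (by positivity)
        rw [hK']; linarith [le_abs_self C']
      _ ≤ K' * (K * (η / (K * K'))) := by
        refine mul_le_mul_of_nonneg_left ?_ hKp'.le
        exact mul_le_mul_of_nonneg_left (min_le_right _ _) hKp.le
      _ = η := by field_simp
  · rintro _ ⟨a, ha, rfl⟩
    have := B0.ev_mem subset_rfl A0.FXo w (hTsub ha)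
    exact ⟨hM _ this, this.1⟩
  · rintro _ ⟨a, ha, rfl⟩ _ ⟨b, hb, rfl⟩
    exact hosc a ha b hb

/-- Local shrinking and equicontinuity at the points outside the postcritical set. -/
theorem local_regular (q : RQ) {S : TS} (hS : IsTS q S) {P : Set ℂ} (hP : PC q.h P)
    (hb : Bornology.IsBounded P) (hc : IsPreconnected Pᶜ) {A A0 : XS S} (B : Br S A)
    (hsub : A0.Xo ⊆ A.Xo) {Z : Set ℂ} (hZ : ZS S A Z) {u0 : ℂ} (hu0 : u0 ∈ OO Z)
    (hreg : mi q.v (exp u0) ∉ P) (hX0 : exp u0 ∉ A0.X) :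
    (∃ δ > 0, LocShrink B Z u0 δ) ∧ EqAt B Z u0 := by
  obtain ⟨B0, hE⟩ := exists_ext (A0 := A0) B hsub
  have h1 : exp u0 ≠ 1 := fun h => hu0.2 (h ▸ hZ.one_mem)
  obtain ⟨r1, hr1, hr1P, hshr⟩ := sreg (s3_deg q) hP hb hc hreg
  obtain ⟨δ0, hδ0, hball, hcore⟩ := s3_core q hS hP B0 hu0.1 h1 hX0 hr1 hr1P
  have hOZ : ∀ u ∈ OO Z, u ∈ OO A.Xo := fun u hu => ⟨hu.1, fun h => hu.2 (hZ.Xo_sub h)⟩
  refine ⟨⟨δ0, hδ0, ?_⟩, ?_⟩
  · intro η hη
    obtain ⟨η', hη', hw⟩ := hcore η hη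
    obtain ⟨N, hN⟩ := hshr η' hη'
    refine ⟨N, fun w hwN u hu u' hu' => ?_⟩
    rw [s3_ev_eq hE w (hOZ u hu.1), s3_ev_eq hE w (hOZ u' hu'.1)]
    refine hw δ0 le_rfl w ?_ u ⟨hu.1.1, hu.2⟩ u' ⟨hu'.1.1, hu'.2⟩
    intro T hT a ha b hb'
    refine hN w.length hwN T hT _ (hball a ha.1 ?_) _ (hball b hb'.1 ?_)
    · have := ha.2; rwa [mem_ball, dist_eq_norm] at this
    · have := hb'.2; rwa [mem_ball, dist_eq_norm] at this
  · intro η hη
    obtain ⟨η', hη', hw⟩ := hcore η hη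
    obtain ⟨δ', hδ', hS'⟩ := eqreg (s3_deg q) hP hr1 hr1P (η' / 2) (by positivity)
    have hv : 0 < q.v.im := q.hv
    have hca : ContinuousAt (fun u => mi q.v (exp u)) u0 := by
      have : ContinuousAt (mi q.v) (exp u0) := by
        unfold mi
        refine ContinuousAt.div (by fun_prop) (by fun_prop) ?_
        exact sub_ne_zero.mpr (Ne.symm h1)
      exact ContinuousAt.comp (f := fun u => exp u) this (by fun_prop)
    obtain ⟨δ1, hδ1, hc1⟩ := Metric.continuousAt_iff.mp hca δ' hδ'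
    refine ⟨min δ0 δ1, by positivity, fun w u hu hn => ?_⟩
    rw [s3_ev_eq hE w (hOZ u hu), s3_ev_eq hE w (hOZ u0 hu0)]
    refine hw (min δ0 δ1) (min_le_left _ _) w ?_ u ⟨hu.1, ?_⟩ u0 ⟨hu0.1, ?_⟩
    · intro T hT a ha b hb'
      have ea := hS' w.length T hT (mi q.v (exp a)) (hc1 (lt_of_lt_of_le ha.2 (min_le_right _ _)))
      have eb := hS' w.length T hT (mi q.v (exp b)) (hc1 (lt_of_lt_of_le hb'.2 (min_le_right _ _)))
      calc ‖T (mi q.v (exp a)) - T (mi q.v (exp b))‖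
          = ‖(T (mi q.v (exp a)) - T (mi q.v (exp u0))) -
            (T (mi q.v (exp b)) - T (mi q.v (exp u0)))‖ := by ring_nf
        _ ≤ _ := norm_sub_le _ _
        _ ≤ η' / 2 + η' / 2 := add_le_add ea eb
        _ = η' := by ring
    · rw [mem_ball, dist_eq_norm]; exact hn
    · exact mem_ball_self (by positivity)

end

end Pool.TU
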