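import Pool.Agent.Helper71.TU.S1
import Pool.Agent.Helper71.TU.S3

/-! # TU S8: words shrink lumps -/

open Complex Set Filter Topology Metric Polynomial ComplexConjugate Pool.Tuning

namespace Pool.TU

noncomputable section

/-- Words shrink lumps: the case of a real quartic, given a postcritical set `P` whose points
in the region are finitely many real equicontinuity points. -/
theorem shrinks_of_rq (q : RQ) {S : TS} (hS : IsTS q S) {P : Set ℂ} (hP : PC q.h P)
    (hb : Bornology.IsBounded P) (hc : IsPreconnected Pᶜ) {A A0 : XS S} (B : Br S A)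
    (hsub : A0.Xo ⊆ A.Xo) {Z : Set ℂ} (hZ : ZS S A Z) (E : Finset ℝ)
    (hE : ∀ x ∈ E, (ang q.v x : ℂ) * I ∈ OO Z ∧ EqAt B Z (ang q.v x * I))
    (hreg : ∀ z ∈ HH, mm q.v z ∉ Z → (z ∉ P ∧ mm q.v z ∉ A0.X) ∨ ∃ x ∈ E, z = (x : ℂ)) :
    Shrinks B Z := by
  classical
  have hv : 0 < q.v.im := q.hv
  refine shrinks_of_local B hZ (E.image (fun x => (ang q.v x : ℂ) * I)) ?_ ?_
  · intro u hu
    have hD : exp u ∈ DD := by
      rw [DD, mem_closedBall, dist_zero_right, Complex.norm_exp, Real.exp_le_one_iff]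
      exact hu.1
    have h1 : exp u ≠ 1 := by
      intro h2
      apply hu.2
      rw [h2]
      exact hZ.one_mem
    have hz : mi q.v (exp u) ∈ HH := mi_mem hv hD h1
    have hm : mm q.v (mi q.v (exp u)) = exp u := mm_mi hv hD h1
    have hn : mm q.v (mi q.v (exp u)) ∉ Z := by
      rw [hm]
      exact hu.2
    rcases hreg _ hz hn with ⟨h2, h3⟩ | ⟨x, hx, h2⟩
    · left
      rw [hm] at h3
      exact (local_regular q hS hP hb hc B hsub hZ hu h2 h3).1
    · right
      refine ⟨(ang q.v x : ℂ) * I, Finset.mem_image_of_mem _ hx, ?_⟩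
      have h3 : exp u = exp ((ang q.v x : ℂ) * I) := by
        rw [← hm, h2, mm_real hv x, ec]
      obtain ⟨k, hk⟩ := Complex.exp_eq_exp_iff_exists_int.1 h3
      exact ⟨k, hk⟩
  · intro p hp
    obtain ⟨x, hx, rfl⟩ := Finset.mem_image.1 hp
    exact hE x hx

end

end Pool.TU
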