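import Pool.Agent.Helper71.TU.S4
import Pool.Agent.Helper71.TU.S5
import Pool.Agent.Helper71.TU.S8

/-! # TU P3: equicontinuity at the real points -/

open Complex Set Filter Topology Metric Polynomial ComplexConjugate Pool.Tuning

namespace Pool.TU

noncomputable section

theorem P3_hv (q : RQ) : 0 < q.v.im := q.hv

theorem P3_ec_exp (θ : ℝ) : exp ((θ : ℂ) * I) = ec θ := rfl

theorem P3_fold_im {w : ℂ} (h : (fold w).im = 0) : w.im = 0 := by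
  unfold fold at h
  split_ifs at h with h1
  · exact h
  · rw [conj_im] at h
    linarith

theorem P3_neg_ec (θ : ℝ) : -ec θ = ec (θ + Real.pi) := (A4_ec_add_pi θ).symm

theorem P3_exp_half (θ : ℝ) : exp (((θ : ℂ) * I + tpi) / 2) = -ec (θ / 2) := by
  have h1 : ((θ : ℂ) * I + tpi) / 2 = ((θ / 2 : ℝ) : ℂ) * I + Real.pi * I := by
    unfold tpi
    push_cast
    ring
  rw [h1, exp_add, exp_pi_mul_I, P3_ec_exp]
  ring

/-- `Θ(-ec (θ/2))` is not on the circle -/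
theorem P3_norm {S : TS} {θ : ℝ} (hθ : θ ∈ Ioo 0 (2 * Real.pi)) : ‖S.Θ (-ec (θ / 2))‖ ≠ 1 := by
  intro h
  have hm : -ec (θ / 2) ∈ DD := by
    rw [P3_neg_ec]
    exact A4_ec_mem _
  have h1 := hθ.1
  have h2 := hθ.2
  rcases S.circΘ _ hm h with h3 | ⟨φ, hφ, h3⟩
  · rw [P3_neg_ec] at h3
    rcases ec_eq_one ⟨by linarith [Real.pi_pos], by linarith⟩ h3 with h4 | h4
    · linarith [Real.pi_pos]
    · linarith
  · rw [P3_neg_ec] at h3
    have h5 := S.κ_mem.1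
    have h4 := ec_inj ⟨by linarith [Real.pi_pos], by linarith⟩
      ⟨by linarith [hφ.1], by linarith [hφ.2, Real.pi_pos]⟩ h3
    linarith [hφ.2]

variable {q : RQ} {S : TS} (hS : IsTS q S) {A A0 : XS S} {P : Set ℂ} {E : Finset ℝ}
  (g : RG q A A0 P E) (B : Br S A) {Z : Set ℂ} (hZ : ZS S A Z)

include hS g hZ

/-- nonreal preimages of real points are equicontinuity points -/
theorem RG.eq_im {u : ℂ} (hu : u ∈ OO Z) {z : ℂ} (hz : 0 < z.im)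
    (hh : (q.h.eval z).im = 0) (he : exp u = mm q.v z) : EqAt B Z u := by
  obtain ⟨h1, h2⟩ := g.im z hz.le hz hh
  refine (local_regular q hS g.pc g.bdd g.conn B g.sub hZ hu ?_ ?_).2
  · rw [he, mi_mm (P3_hv q) hz.le]
    exact h1
  · rw [he]
    exact h2

theorem RG.eq_re {x : ℝ} (hx : x ≤ q.r) (hE : x ∉ E) (hu : (ang q.v x : ℂ) * I ∈ OO Z) :
    EqAt B Z (ang q.v x * I) := by
  obtain ⟨h1, h2⟩ := g.re x hx hE
  have he : exp ((ang q.v x : ℂ) * I) = mm q.v x := by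
    rw [mm_real (P3_hv q) x]; rfl
  refine (local_regular q hS g.pc g.bdd g.conn B g.sub hZ hu ?_ ?_).2
  · rw [he, mi_mm (P3_hv q) (by simp [HH])]
    exact h1
  · rw [he]
    exact h2

/-- points off the circle whose image is on the circle -/
theorem RG.P3_nonreal {u : ℂ} (hu : u ∈ OO Z) (hn : ‖exp u‖ ≠ 1) (hF : ‖S.F (exp u)‖ = 1) :
    EqAt B Z u := by
  have hD : exp u ∈ DD := a2_exp_mem hu.1
  have h1 : exp u ≠ 1 := fun h => hn (by rw [h, norm_one])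
  have hmem := mi_mem (P3_hv q) hD h1
  have hmm := mm_mi (P3_hv q) hD h1
  have him : (mi q.v (exp u)).im ≠ 0 := fun h => hn (by
    rw [← hmm]
    exact (norm_mm_eq_one (P3_hv q) hmem).2 h)
  have hpos : 0 < (mi q.v (exp u)).im := lt_of_le_of_ne hmem (Ne.symm him)
  have h2 := hS.F_eq _ hmem
  rw [hmm] at h2
  rw [h2] at hF
  have h3 := (norm_mm_eq_one (P3_hv q) (fold_mem _)).1 hF
  exact RG.eq_im hS g B hZ hu hpos (P3_fold_im h3) hmm.symm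

theorem RG.P3_phi {θ : ℝ} (hθ : θ ∈ Ioo 0 (2 * Real.pi)) (hu : (θ : ℂ) * I ∈ OO Z) :
    EqAt B Z (B.Φ (θ * I + tpi)) := by
  have hO : OO Z ⊆ OO A.Xo := fun u h => ⟨h.1, fun hh => h.2 (hZ.Xo_sub hh)⟩
  have e1 : B.ap (Ltr.P 1) ((θ : ℂ) * I) = B.Φ (θ * I + tpi) := by
    simp [Br.ap]
  have hm := B.ap_mem hZ.Xo_sub hZ.FZ (Ltr.P 1) hu
  have hF := B.F_ap (Ltr.P 1) (hO hu)
  rw [e1] at hm hF
  refine RG.P3_nonreal hS g B hZ hm ?_ ?_
  · have h2 : (θ : ℂ) * I + tpi ∈ OO A.Xo := by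
      refine ⟨?_, ?_⟩
      · have h3 := (hO hu).1
        simp only [UU, mem_setOf_eq, add_re] at h3 ⊢
        have h4 : tpi.re = 0 := by simp [tpi]
        rw [h4, add_zero]
        exact h3
      · rw [exp_add, A4_exp_tpi, mul_one]
        exact (hO hu).2
    rw [B.expΦ _ h2, P3_exp_half]
    exact P3_norm hθ
  · rw [hF, P3_ec_exp, norm_ec]

theorem RG.P3_g2 {θ : ℝ} (hθ : θ ∈ Ioo 0 (2 * Real.pi)) (hu : (θ : ℂ) * I ∈ OO Z) :
    EqAt B Z (B.g2 (exp (θ * I))) := by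
  have hO : OO Z ⊆ OO A.Xo := fun u h => ⟨h.1, fun hh => h.2 (hZ.Xo_sub hh)⟩
  have e1 : B.ap (Ltr.Q2 0) ((θ : ℂ) * I) = B.g2 (exp (θ * I)) := by
    simp [Br.ap]
  have hm := B.ap_mem hZ.Xo_sub hZ.FZ (Ltr.Q2 0) hu
  have hF := B.F_ap (Ltr.Q2 0) (hO hu)
  rw [e1] at hm hF
  refine RG.P3_nonreal hS g B hZ hm ?_ ?_
  · rw [B.exp2 _ (a2_exp_mem hu.1)]
    intro h
    have h1 := S.circ2 _ (a2_exp_mem hu.1) h
    rw [P3_ec_exp] at h1
    rcases ec_eq_one ⟨hθ.1.le, hθ.2.le⟩ h1 with h4 | h4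
    · linarith [hθ.1]
    · linarith [hθ.2]
  · rw [hF, P3_ec_exp, norm_ec]

/-- the real critical value, if the real critical point is regular -/
theorem RG.eq_vr (hr : q.r ∉ E) (hu : (S.κ : ℂ) * I ∈ OO Z) :
    EqAt B Z (S.κ * I) := by
  have hO : OO Z ⊆ OO A.Xo := fun u h => ⟨h.1, fun hh => h.2 (hZ.Xo_sub hh)⟩
  have hκ : S.κ ∈ Icc S.κ (2 * Real.pi) := ⟨le_refl _, S.κ_mem.2.le⟩
  have hbd := bd_g B.bd B.cont2 B.exp2 B.one2 B.cont4 B.exp4 B.one4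
  have e0 : B.Φ ((S.κ : ℂ) * I) = (ang q.v q.r : ℂ) * I := by
    rw [B.bdΦ _ (hO hu), bd_rp B.bd _ hκ, S.rpκ, hS.ω_eq]
  have e4 : B.g4 (exp ((S.κ : ℂ) * I)) = (ang q.v q.r : ℂ) * I := by
    rw [P3_ec_exp, hbd.2.2 _ hκ, S.rmκ, hS.ω_eq]
  have hm : (ang q.v q.r : ℂ) * I ∈ OO Z := by
    have := B.ap_mem hZ.Xo_sub hZ.FZ (Ltr.P 0) hu
    have e1 : B.ap (Ltr.P 0) ((S.κ : ℂ) * I) = B.Φ (S.κ * I) := by
      simp [Br.ap]
    rwa [e1, e0] at this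
  have hre := RG.eq_re hS g B hZ (le_refl q.r) hr hm
  refine eqAt_of_letters B hZ hu ?_ (RG.P3_phi hS g B hZ S.κ_mem hu)
    (RG.P3_g2 hS g B hZ S.κ_mem hu) ?_
  · rw [e0]; exact hre
  · rw [e4]; exact hre

/-- a real fixed point with stable inverse branch -/
theorem RG.eq_beta {β : ℝ} (hβ : q.r < β) (hfix : q.p.eval β = β)
    (hu : (ang q.v β : ℂ) * I ∈ OO Z)
    (hst : ∀ η > 0, ∃ δ > 0, ∀ u ∈ OO Z, ‖u - ang q.v β * I‖ < δ → ∀ n : ℕ,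
      ‖B.Φ^[n] u - ang q.v β * I‖ < η)
    (h4 : EqAt B Z (S.rm (ang q.v β) * I)) : EqAt B Z (ang q.v β * I) := by
  have hO : OO Z ⊆ OO A.Xo := fun u h => ⟨h.1, fun hh => h.2 (hZ.Xo_sub hh)⟩
  have hang := ang_mem (P3_hv q) β
  have hκ : ang q.v β ∈ Icc S.κ (2 * Real.pi) := by
    have := (rp_ang q hS hβ.le).1
    rwa [hfix] at this
  have hbd := bd_g B.bd B.cont2 B.exp2 B.one2 B.cont4 B.exp4 B.one4
  refine eqAt_fixed B hZ hu (phi_fixed q hS B hβ hfix (hO hu)) (RG.P3_phi hS g B hZ hang hu)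
    (RG.P3_g2 hS g B hZ hang hu) ?_ hst
  rw [P3_ec_exp, hbd.2.2 _ hκ]
  exact h4

theorem RG.shrinks (h : ∀ x ∈ E, mm q.v x ∉ Z → EqAt B Z (ang q.v x * I)) :
    Shrinks B Z := by
  classical
  refine shrinks_of_rq q hS g.pc g.bdd g.conn B g.sub hZ (E.filter fun x => mm q.v x ∉ Z) ?_ ?_
  · intro x hx
    rw [Finset.mem_filter] at hx
    refine ⟨⟨?_, ?_⟩, h x hx.1 hx.2⟩
    · simp [UU]
    · rw [P3_ec_exp, ← mm_real (P3_hv q) x]
      exact hx.2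
  · intro z hz hmz
    by_cases hc : z ∈ P ∨ mm q.v z ∈ A0.X
    · right
      rcases g.reg z hz hc with h1 | ⟨x, hx, rfl⟩
      · exact absurd (hZ.Xo_sub h1) hmz
      · exact ⟨x, Finset.mem_filter.2 ⟨hx, hmz⟩, rfl⟩
    · left
      push Not at hc
      exact hc

end

end Pool.TU
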