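import Pool.Agent.Helper71.TU.S5

/-! # TU S6: stability, repelling case -/

open Complex Set Filter Topology Metric Polynomial ComplexConjugate Pool.Tuning

namespace Pool.TU

noncomputable section

/-- two-sided Lipschitz estimate near a point with nonzero derivative -/
theorem s6_bilip {f : ℂ → ℂ} {a c : ℂ} (hf : HasDerivAt f c a) (hc : c ≠ 0) :
    ∀ᶠ u in 𝓝 a, ‖c‖ / 2 * ‖u - a‖ ≤ ‖f u - f a‖ ∧ ‖f u - f a‖ ≤ 2 * ‖c‖ * ‖u - a‖ := by
  have h1 : Tendsto (fun u => ‖slope f a u‖) (𝓝[≠] a) (𝓝 ‖c‖) :=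
    (hasDerivAt_iff_tendsto_slope.1 hf).norm
  have hpos : 0 < ‖c‖ := norm_pos_iff.2 hc
  have h2 : ∀ᶠ u in 𝓝[≠] a, ‖slope f a u‖ ∈ Ioo (‖c‖ / 2) (2 * ‖c‖) :=
    h1 (Ioo_mem_nhds (by linarith) (by linarith))
  rw [eventually_nhdsWithin_iff] at h2
  filter_upwards [h2] with u hu
  by_cases hua : u = a
  · subst hua
    simp
  · have h3 := hu hua
    rw [slope_def_field, norm_div] at h3
    have h4 : 0 < ‖u - a‖ := norm_pos_iff.2 (sub_ne_zero.2 hua)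
    obtain ⟨h5, h6⟩ := h3
    rw [lt_div_iff₀ h4] at h5
    rw [div_lt_iff₀ h4] at h6
    exact ⟨h5.le, h6.le⟩

/-- expansion near a point with large derivative -/
theorem s6_exp {f : ℂ → ℂ} {a c : ℂ} (hf : HasDerivAt f c a) (hc : 1 < ‖c‖) :
    ∀ᶠ u in 𝓝 a, ‖u - a‖ ≤ ‖f u - f a‖ := by
  have h1 : Tendsto (fun u => ‖slope f a u‖) (𝓝[≠] a) (𝓝 ‖c‖) :=
    (hasDerivAt_iff_tendsto_slope.1 hf).norm
  have h2 : ∀ᶠ u in 𝓝[≠] a, ‖slope f a u‖ ∈ Ioi (1 : ℝ) := h1 (Ioi_mem_nhds hc)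
  rw [eventually_nhdsWithin_iff] at h2
  filter_upwards [h2] with u hu
  by_cases hua : u = a
  · subst hua
    simp
  · have h3 := hu hua
    rw [slope_def_field, norm_div] at h3
    have h4 : 0 < ‖u - a‖ := norm_pos_iff.2 (sub_ne_zero.2 hua)
    have h5 : 1 < ‖f u - f a‖ / ‖u - a‖ := h3
    rw [lt_div_iff₀ h4] at h5
    linarith

/-- derivative of `mi v` -/
theorem s6_mi_deriv (v : ℂ) {s : ℂ} (hs : s ≠ 1) :
    HasDerivAt (mi v) ((v - conj v) / (1 - s) ^ 2) s := by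
  have h0 : (1 : ℂ) - s ≠ 0 := sub_ne_zero.2 (Ne.symm hs)
  have h1 : HasDerivAt (fun s : ℂ => v - conj v * s) (-(conj v)) s := by
    simpa using ((hasDerivAt_id s).const_mul (conj v)).const_sub v
  have h2 : HasDerivAt (fun s : ℂ => 1 - s) (-1) s := by
    simpa using (hasDerivAt_id s).const_sub 1
  have h3 := h1.div h2 h0
  refine h3.congr_deriv ?_
  field_simp
  ring

/-- derivative of `mi v ∘ exp` -/
theorem s6_zeta_deriv (v u0 : ℂ) (h1 : exp u0 ≠ 1) :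
    HasDerivAt (fun u => mi v (exp u)) ((v - conj v) / (1 - exp u0) ^ 2 * exp u0) u0 :=
  (s6_mi_deriv v h1).comp u0 (hasDerivAt_exp u0)

theorem s6_uu {u : ℂ} (h : exp u ∈ DD) : u ∈ UU := by
  have h1 : ‖exp u‖ ≤ 1 := by simpa [DD] using h
  rw [norm_exp] at h1
  exact Real.exp_le_one_iff.1 h1

theorem s6_dd {u : ℂ} (h : u ∈ UU) : exp u ∈ DD := by
  have h1 : u.re ≤ 0 := h
  have h2 : ‖exp u‖ ≤ 1 := by
    rw [norm_exp]
    exact Real.exp_le_one_iff.2 h1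
  simpa [DD] using h2

theorem s6_dd2 {u : ℂ} (h : u ∈ UU) : exp (u / 2) ∈ DD := by
  apply s6_dd
  have h1 : u.re ≤ 0 := h
  show (u / 2).re ≤ 0
  have : (u / 2).re = u.re / 2 := by simp
  rw [this]
  linarith

/-- the basic step -/
theorem s6_step (q : RQ) {S : TS} (hS : IsTS q S) {A : XS S} (B : Br S A) {Z : Set ℂ}
    (hZ : ZS S A Z) {u : ℂ} (hu : u ∈ OO Z) :
    B.Φ u ∈ OO Z ∧ q.h.eval (mi q.v (exp (B.Φ u))) = mi q.v (exp u) ∧
      mi q.v (exp u) ∈ HH ∧ mi q.v (exp (B.Φ u)) ∈ HH ∧ mm q.v (mi q.v (exp u)) = exp u := by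
  have hv : 0 < q.v.im := q.hv
  have huU : u ∈ UU := hu.1
  have huZ : exp u ∉ Z := hu.2
  have huA : u ∈ OO A.Xo := ⟨huU, fun h => huZ (hZ.Xo_sub h)⟩
  have hD2 : exp (u / 2) ∈ DD := s6_dd2 huU
  have hexp : exp (B.Φ u) = S.Θ (exp (u / 2)) := B.expΦ u huA
  have hsq : (exp (u / 2)) ^ 2 = exp u := by
    rw [← exp_nat_mul]
    congr 1
    push_cast
    ring
  have hF : S.F (exp (B.Φ u)) = exp u := by
    rw [hexp, S.FΘ _ hD2, hsq]
  have hDΦ : exp (B.Φ u) ∈ DD := by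
    rw [hexp]
    exact S.mapsΘ hD2
  have hΦZ : exp (B.Φ u) ∉ Z := by
    intro h
    have := hZ.FZ h
    rw [hF] at this
    exact huZ this
  have hne : exp u ≠ 1 := fun h => huZ (h ▸ hZ.one_mem)
  have hneΦ : exp (B.Φ u) ≠ 1 := fun h => hΦZ (h ▸ hZ.one_mem)
  have hDu : exp u ∈ DD := s6_dd huU
  have hz : mi q.v (exp u) ∈ HH := mi_mem hv hDu hne
  have hz' : mi q.v (exp (B.Φ u)) ∈ HH := mi_mem hv hDΦ hneΦ
  have hm : mm q.v (mi q.v (exp u)) = exp u := mm_mi hv hDu hne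
  have hm' : mm q.v (mi q.v (exp (B.Φ u))) = exp (B.Φ u) := mm_mi hv hDΦ hneΦ
  have h1 := hS.F_eq _ hz'
  rw [hm', hF, ← hm] at h1
  have h2 : fold (q.h.eval (mi q.v (exp (B.Φ u)))) = mi q.v (exp u) :=
    mm_inj hv (fold_mem _) hz (by rw [← h1])
  have h3 : 0 ≤ (q.h.eval (mi q.v (exp (B.Φ u)))).im := by
    apply hS.imΘ _ hz'
    rw [hm', hexp]
    exact mem_image_of_mem _ hD2
  rw [fold, if_pos h3] at h2
  exact ⟨⟨s6_uu hDΦ, hΦZ⟩, h2, hz, hz', hm⟩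

/-- Stability of the inverse branch at a repelling real fixed point. -/
theorem hst_repelling (q : RQ) {S : TS} (hS : IsTS q S) {A : XS S} (B : Br S A) {Z : Set ℂ}
    (hZ : ZS S A Z) {β : ℝ} (hβ : q.r < β) (hfix : q.p.eval β = β)
    (hrep : 1 < q.p.derivative.eval β) (hO : (ang q.v β : ℂ) * I ∈ OO Z) :
    ∀ η > 0, ∃ δ > 0, ∀ u ∈ OO Z, ‖u - ang q.v β * I‖ < δ → ∀ n : ℕ,
      ‖B.Φ^[n] u - ang q.v β * I‖ < η := by
  have hv : 0 < q.v.im := q.hv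
  set u0 : ℂ := (ang q.v β : ℂ) * I with hu0
  have hOA : u0 ∈ OO A.Xo := ⟨hO.1, fun h => hO.2 (hZ.Xo_sub h)⟩
  have hΦ0 : B.Φ u0 = u0 := phi_fixed q hS B hβ hfix hOA
  have hne : exp u0 ≠ 1 := fun h => hO.2 (h ▸ hZ.one_mem)
  have hβH : (β : ℂ) ∈ HH := by
    show 0 ≤ (β : ℂ).im
    simp
  have hζ0 : mi q.v (exp u0) = β := by
    have : exp u0 = mm q.v β := by
      rw [mm_real hv, ec]
    rw [this, mi_mm hv hβH]
  -- the derivative of `h` at `β`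
  have hfixC : q.h.eval (β : ℂ) = β := by
    have : q.h.eval (β : ℂ) = ((q.p.eval β : ℝ) : ℂ) := by
      rw [RQ.h, Polynomial.eval_map_algebraMap]
      exact Polynomial.aeval_algebraMap_apply_eq_algebraMap_eval β q.p
    rw [this, hfix]
  have hderC : q.h.derivative.eval (β : ℂ) = ((q.p.derivative.eval β : ℝ) : ℂ) := by
    rw [RQ.h, Polynomial.derivative_map, Polynomial.eval_map_algebraMap]
    exact Polynomial.aeval_algebraMap_apply_eq_algebraMap_eval β _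
  have hnormd : 1 < ‖q.h.derivative.eval (β : ℂ)‖ := by
    rw [hderC, norm_real, Real.norm_eq_abs, abs_of_pos (by linarith)]
    exact hrep
  have hexpand : ∀ᶠ z : ℂ in 𝓝 (β : ℂ), ‖z - β‖ ≤ ‖q.h.eval z - β‖ := by
    have := s6_exp (q.h.hasDerivAt (β : ℂ)) hnormd
    simpa only [hfixC] using this
  -- the chart `ζ`
  set c : ℂ := (q.v - conj q.v) / (1 - exp u0) ^ 2 * exp u0 with hc
  have hder := s6_zeta_deriv q.v u0 hne
  have hc0 : c ≠ 0 := by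
    have h1 : q.v - conj q.v ≠ 0 := by
      intro h
      have := congrArg Complex.im h
      simp at this
      linarith
    have h2 : (1 : ℂ) - exp u0 ≠ 0 := sub_ne_zero.2 (Ne.symm hne)
    exact mul_ne_zero (div_ne_zero h1 (pow_ne_zero _ h2)) (exp_ne_zero _)
  have hcpos : 0 < ‖c‖ := norm_pos_iff.2 hc0
  have hbil := s6_bilip hder hc0
  simp only [hζ0] at hbil
  have hcont : Tendsto (fun u => mi q.v (exp u)) (𝓝 u0) (𝓝 (β : ℂ)) := by
    have := hder.continuousAt.tendsto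
    simpa only [hζ0] using this
  have hgood : ∀ᶠ u in 𝓝 u0, (‖c‖ / 2 * ‖u - u0‖ ≤ ‖mi q.v (exp u) - β‖ ∧
      ‖mi q.v (exp u) - β‖ ≤ 2 * ‖c‖ * ‖u - u0‖) ∧
      ‖mi q.v (exp u) - β‖ ≤ ‖q.h.eval (mi q.v (exp u)) - β‖ :=
    hbil.and (hcont.eventually hexpand)
  obtain ⟨δ1, hδ1, hg⟩ := Metric.eventually_nhds_iff.1 hgood
  have hΦc : ContinuousWithinAt B.Φ (OO A.Xo) u0 := B.contΦ u0 hOA
  obtain ⟨δ2, hδ2, hg2⟩ := Metric.continuousWithinAt_iff.1 hΦc δ1 hδ1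
  rw [hΦ0] at hg2
  intro η hη
  set η' : ℝ := min η (min δ1 δ2) with hη'
  have hη'pos : 0 < η' := lt_min hη (lt_min hδ1 hδ2)
  have hle1 : η' ≤ η := min_le_left _ _
  have hle2 : η' ≤ δ1 := le_trans (min_le_right _ _) (min_le_left _ _)
  have hle3 : η' ≤ δ2 := le_trans (min_le_right _ _) (min_le_right _ _)
  refine ⟨η' / 8, by positivity, ?_⟩
  intro u hu hud n
  have key : ∀ n : ℕ, B.Φ^[n] u ∈ OO Z ∧ ‖mi q.v (exp (B.Φ^[n] u)) - β‖ ≤ ‖c‖ * (η' / 4) ∧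
      ‖B.Φ^[n] u - u0‖ < η' := by
    intro n
    induction n with
    | zero =>
      have h1 : dist u u0 < δ1 := by
        rw [dist_eq_norm]
        linarith
      have h2 := (hg h1).1.2
      refine ⟨hu, ?_, ?_⟩
      · simp only [Function.iterate_zero, id_eq]
        have h3 : 2 * ‖c‖ * ‖u - u0‖ ≤ 2 * ‖c‖ * (η' / 8) :=
          mul_le_mul_of_nonneg_left hud.le (by positivity)
        calc ‖mi q.v (exp u) - β‖ ≤ 2 * ‖c‖ * ‖u - u0‖ := h2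
          _ ≤ 2 * ‖c‖ * (η' / 8) := h3
          _ = ‖c‖ * (η' / 4) := by ring
      · simp only [Function.iterate_zero, id_eq]
        linarith
    | succ n ih =>
      obtain ⟨h1, h2, h3⟩ := ih
      rw [Function.iterate_succ_apply']
      set w := B.Φ^[n] u with hw
      obtain ⟨hw1, hw2, hw3, hw4, hw5⟩ := s6_step q hS B hZ h1
      have hwA : w ∈ OO A.Xo := ⟨h1.1, fun h => h1.2 (hZ.Xo_sub h)⟩
      have hd : dist (B.Φ w) u0 < δ1 := hg2 hwA (by rw [dist_eq_norm]; linarith)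
      obtain ⟨⟨ha, hb⟩, hcc⟩ := hg hd
      rw [hw2] at hcc
      have hd2 : ‖mi q.v (exp (B.Φ w)) - β‖ ≤ ‖c‖ * (η' / 4) := hcc.trans h2
      refine ⟨hw1, hd2, ?_⟩
      have h5 : ‖c‖ / 2 * ‖B.Φ w - u0‖ ≤ ‖c‖ * (η' / 4) := ha.trans hd2
      have h6 : ‖c‖ * ‖B.Φ w - u0‖ ≤ ‖c‖ * (η' / 2) := by linarith
      have h7 : ‖B.Φ w - u0‖ ≤ η' / 2 := le_of_mul_le_mul_left h6 hcpos
      linarith
  exact lt_of_lt_of_le (key n).2.2 hle1

end

end Pool.TU
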