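import Pool.Agent.Helper71.TU.S5

/-! # TU S7: stability, parabolic case -/

open Complex Set Filter Topology Metric Polynomial ComplexConjugate Pool.Tuning

namespace Pool.TU

noncomputable section

/-- the expansion of `1/h` at a parabolic point, abstract form -/
theorem s7_inv_expand {α T : ℝ} (hα : 0 < α) (hT : 0 ≤ T) {z t : ℂ} (hz : z ≠ 0)
    (hz1 : ‖z‖ ≤ 1) (hzs : ‖z‖ * (α + T) ≤ 1 / 2) (ht : ‖t‖ ≤ T) :
    z * (1 + (-(α : ℂ) * z + z ^ 2 * t)) ≠ 0 ∧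
    ‖1 / (z * (1 + (-(α : ℂ) * z + z ^ 2 * t))) - 1 / z - α‖ ≤ 2 * (T + α * (α + T)) * ‖z‖ := by
  set s : ℂ := -(α : ℂ) * z + z ^ 2 * t with hs
  have hsn : ‖s‖ ≤ ‖z‖ * (α + T) := by
    rw [hs]
    refine (norm_add_le _ _).trans ?_
    rw [norm_mul, norm_neg, Complex.norm_real, Real.norm_of_nonneg hα.le, norm_mul, norm_pow]
    have : ‖z‖ ^ 2 * ‖t‖ ≤ ‖z‖ * T := by
      have h1 : ‖z‖ ^ 2 ≤ ‖z‖ := by nlinarith [norm_nonneg z]
      calc ‖z‖ ^ 2 * ‖t‖ ≤ ‖z‖ * ‖t‖ := mul_le_mul_of_nonneg_right h1 (norm_nonneg _)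
        _ ≤ ‖z‖ * T := mul_le_mul_of_nonneg_left ht (norm_nonneg _)
    nlinarith
  have hs2 : ‖s‖ ≤ 1 / 2 := hsn.trans hzs
  have h1s : 1 / 2 ≤ ‖1 + s‖ := by
    have := norm_sub_le (1 + s) s
    have h2 : ‖(1 : ℂ) + s - s‖ = 1 := by simp
    rw [h2] at this
    linarith
  have hne : (1 : ℂ) + s ≠ 0 := by
    intro h
    rw [h, norm_zero] at h1s
    linarith
  refine ⟨mul_ne_zero hz hne, ?_⟩
  have e1 : 1 / (z * (1 + s)) - 1 / z - α = (-(z * t) - α * s) / (1 + s) := by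
    have g1 : s = z * (-(α : ℂ) + z * t) := by rw [hs]; ring
    have g2 : 1 / (z * (1 + s)) * (1 + s) = 1 / z := by field_simp
    have g3 : 1 / z * s = -(α : ℂ) + z * t := by
      conv_lhs => rw [g1]
      field_simp
    rw [eq_div_iff hne]
    calc (1 / (z * (1 + s)) - 1 / z - α) * (1 + s)
        = 1 / (z * (1 + s)) * (1 + s) - 1 / z - 1 / z * s - α - α * s := by ring
      _ = -(z * t) - α * s := by rw [g2, g3]; ring
  rw [e1, norm_div, div_le_iff₀ (by linarith)]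
  have e2 : ‖-(z * t) - α * s‖ ≤ (T + α * (α + T)) * ‖z‖ := by
    refine (norm_sub_le _ _).trans ?_
    rw [norm_neg, norm_mul, norm_mul, Complex.norm_real, Real.norm_of_nonneg hα.le]
    have h1 : ‖z‖ * ‖t‖ ≤ ‖z‖ * T := mul_le_mul_of_nonneg_left ht (norm_nonneg _)
    have h2 : α * ‖s‖ ≤ α * (‖z‖ * (α + T)) := mul_le_mul_of_nonneg_left hsn hα.le
    nlinarith
  have h3 : 0 ≤ (T + α * (α + T)) * ‖z‖ := by positivity
  nlinarith

/-- monotonicity of the distance to `c` -/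
theorem s7_mono {α ρ K c : ℝ} (hα : 0 < α) (hρ : 0 < ρ) (hK : 0 ≤ K) (hc0 : 0 < c)
    (hc : 4 * K + (α + K) ^ 2 ≤ 2 * α * (c - 1 / (2 * ρ))) {z e : ℂ} (hz : z ≠ 0)
    (hz1 : ‖z‖ ≤ 1) (hzc : c * ‖z‖ ≤ 1) (hb : z ∉ ball (ρ : ℂ) ρ) (he : ‖e‖ ≤ K * ‖z‖) :
    ‖1 / z + α + e - c‖ ≤ ‖1 / z - c‖ := by
  have hzp : 0 < ‖z‖ := norm_pos_iff.mpr hz
  have hre : (1 / z).re ≤ 1 / (2 * ρ) := by
    have h1 : ρ ^ 2 ≤ ‖z - ρ‖ ^ 2 := by
      have : ρ ≤ ‖z - ρ‖ := by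
        have := hb
        rw [mem_ball, dist_eq_norm, not_lt] at this
        exact this
      exact pow_le_pow_left₀ hρ.le this 2
    rw [Complex.sq_norm, Complex.normSq_apply] at h1
    simp only [sub_re, ofReal_re, sub_im, ofReal_im, sub_zero] at h1
    rw [one_div, Complex.inv_re]
    have hn : 0 < normSq z := Complex.normSq_pos.mpr hz
    rw [div_le_div_iff₀ hn (by positivity), Complex.normSq_apply]
    nlinarith
  have hsq : ‖1 / z + α + e - c‖ ^ 2 ≤ ‖1 / z - c‖ ^ 2 := by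
    set X : ℂ := 1 / z - c with hX
    set Y : ℂ := α + e with hY
    have e0 : 1 / z + α + e - c = X + Y := by rw [hX, hY]; ring
    rw [e0]
    have e1 : ‖X + Y‖ ^ 2 = ‖X‖ ^ 2 + 2 * (X * conj Y).re + ‖Y‖ ^ 2 := by
      rw [Complex.sq_norm, Complex.sq_norm, Complex.sq_norm, Complex.normSq_add]
      ring
    rw [e1]
    have e2 : (X * conj Y).re = α * X.re + (X * conj e).re := by
      rw [hY]
      simp only [map_add, conj_ofReal, mul_add, add_re, mul_re, ofReal_re, ofReal_im, mul_zero,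
        sub_zero]
      ring
    have e3 : (X * conj e).re ≤ ‖X‖ * ‖e‖ := by
      refine (Complex.re_le_norm _).trans ?_
      rw [norm_mul, Complex.norm_conj]
    have e4 : ‖X‖ ≤ 1 / ‖z‖ + c := by
      rw [hX]
      refine (norm_sub_le _ _).trans ?_
      rw [norm_div, norm_one, Complex.norm_real, Real.norm_of_nonneg hc0.le]
    have e5 : ‖X‖ * ‖e‖ ≤ 2 * K := by
      calc ‖X‖ * ‖e‖ ≤ (1 / ‖z‖ + c) * (K * ‖z‖) :=
            mul_le_mul e4 he (norm_nonneg _) (by positivity)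
        _ = K * (1 + c * ‖z‖) := by field_simp
        _ ≤ 2 * K := by nlinarith
    have e6 : ‖Y‖ ≤ α + K := by
      rw [hY]
      refine (norm_add_le _ _).trans ?_
      rw [Complex.norm_real, Real.norm_of_nonneg hα.le]
      have : K * ‖z‖ ≤ K := by nlinarith
      linarith
    have e7 : ‖Y‖ ^ 2 ≤ (α + K) ^ 2 := pow_le_pow_left₀ (norm_nonneg _) e6 2
    have e8 : X.re ≤ 1 / (2 * ρ) - c := by
      rw [hX, sub_re, ofReal_re]; linarith
    have e9 : α * X.re ≤ α * (1 / (2 * ρ) - c) := mul_le_mul_of_nonneg_left e8 hα.le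
    rw [e2]
    nlinarith
  exact le_of_sq_le_sq hsq (norm_nonneg _)
  where
  le_of_sq_le_sq {a b : ℝ} (h : a ^ 2 ≤ b ^ 2) (hb : 0 ≤ b) : a ≤ b :=
    le_of_abs_le (abs_le_of_sq_le_sq h hb) |>.trans le_rfl

/-- the quartic at `0` -/
theorem s7_eval (q : RQ) (hfix : q.p.eval 0 = 0) (hpar : q.p.derivative.eval 0 = 1) (z : ℂ) :
    q.h.eval z = z * (1 + (-((-(q.p.derivative.derivative.eval 0) / 2 : ℝ) : ℂ) * z + z ^ 2 *
      ((q.p.coeff 3 : ℂ) + q.p.coeff 4 * z))) := by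
  have h0 : q.p.coeff 0 = 0 := by rw [Polynomial.coeff_zero_eq_eval_zero]; exact hfix
  have h1 : q.p.coeff 1 = 1 := by
    have := q.p.coeff_derivative 0
    rw [Polynomial.coeff_zero_eq_eval_zero, hpar] at this
    simpa using this.symm
  have h2 : q.p.derivative.derivative.eval 0 = 2 * q.p.coeff 2 := by
    rw [← Polynomial.coeff_zero_eq_eval_zero, Polynomial.coeff_derivative,
      Polynomial.coeff_derivative]
    push_cast
    ring
  have h3 : q.h.eval z = ∑ i ∈ Finset.range 5, (q.p.coeff i : ℂ) * z ^ i := by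
    unfold RQ.h
    rw [Polynomial.eval_eq_sum_range' (n := 5)]
    · simp [Polynomial.coeff_map]
    · refine lt_of_le_of_lt Polynomial.natDegree_map_le ?_
      rw [q.deg]; norm_num
  rw [h3, h2]
  simp only [Finset.sum_range_succ, Finset.sum_range_zero, h0, h1]
  push_cast
  ring

/-- Lemma A: the monotone quantity -/
theorem s7_lemA (q : RQ) (hfix : q.p.eval 0 = 0)
    (hpar : q.p.derivative.eval 0 = 1) (hatt : q.p.derivative.derivative.eval 0 < 0) {ρ : ℝ}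
    (hρ : 0 < ρ) : ∃ c > 0, ∃ r > 0, ∀ z : ℂ, z ≠ 0 → ‖z‖ < r → z ∉ ball (ρ : ℂ) ρ →
      q.h.eval z ≠ 0 ∧ ‖1 / q.h.eval z - (c : ℝ)‖ ≤ ‖1 / z - (c : ℝ)‖ := by
  set α : ℝ := -(q.p.derivative.derivative.eval 0) / 2 with hαdef
  have hα : 0 < α := by rw [hαdef]; linarith
  set T : ℝ := ‖(q.p.coeff 3 : ℂ)‖ + ‖(q.p.coeff 4 : ℂ)‖ with hTdef
  have hT : 0 ≤ T := by positivity
  set K : ℝ := 2 * (T + α * (α + T)) with hKdef
  have hK : 0 ≤ K := by positivity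
  set c : ℝ := 1 / (2 * ρ) + (4 * K + (α + K) ^ 2) / (2 * α) + 1 with hcdef
  have hc0 : 0 < c := by positivity
  have hc : 4 * K + (α + K) ^ 2 ≤ 2 * α * (c - 1 / (2 * ρ)) := by
    have : 2 * α * (c - 1 / (2 * ρ)) = 4 * K + (α + K) ^ 2 + 2 * α := by
      rw [hcdef]; field_simp; ring
    rw [this]; linarith
  refine ⟨c, hc0, min 1 (min (1 / c) (1 / (2 * (α + T)))), by positivity, ?_⟩
  intro z hz hzr hb
  have z1 : ‖z‖ ≤ 1 := (lt_of_lt_of_le hzr (min_le_left _ _)).le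
  have z2 : ‖z‖ ≤ 1 / c :=
    (lt_of_lt_of_le hzr ((min_le_right _ _).trans (min_le_left _ _))).le
  have z3 : ‖z‖ ≤ 1 / (2 * (α + T)) :=
    (lt_of_lt_of_le hzr ((min_le_right _ _).trans (min_le_right _ _))).le
  have z2' : c * ‖z‖ ≤ 1 := by
    rw [le_div_iff₀ hc0] at z2; linarith
  have z3' : ‖z‖ * (α + T) ≤ 1 / 2 := by
    rw [le_div_iff₀ (by positivity)] at z3; linarith
  have ht : ‖(q.p.coeff 3 : ℂ) + q.p.coeff 4 * z‖ ≤ T := by
    refine (norm_add_le _ _).trans ?_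
    rw [norm_mul, hTdef]
    have : ‖(q.p.coeff 4 : ℂ)‖ * ‖z‖ ≤ ‖(q.p.coeff 4 : ℂ)‖ * 1 :=
      mul_le_mul_of_nonneg_left z1 (norm_nonneg _)
    linarith
  obtain ⟨A1, A2⟩ := s7_inv_expand hα hT hz z1 z3' ht
  rw [s7_eval q hfix hpar z, ← hαdef]
  refine ⟨A1, ?_⟩
  set w : ℂ := 1 / (z * (1 + (-(α : ℂ) * z + z ^ 2 * ((q.p.coeff 3 : ℂ) + q.p.coeff 4 * z))))
    with hw
  have := s7_mono hα hρ hK hc0 hc hz z1 z2' hb (e := w - 1 / z - α) A2
  have e1 : 1 / z + (α : ℂ) + (w - 1 / z - α) - c = w - c := by ring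
  rw [e1] at this
  exact this

theorem s7_exp_lower {u u0 : ℂ} (h0 : ‖exp u0‖ = 1) (h : ‖u - u0‖ ≤ 1 / 2) :
    ‖u - u0‖ / 2 ≤ ‖exp u - exp u0‖ := by
  have e1 : exp u - exp u0 = exp u0 * (exp (u - u0) - 1) := by
    rw [mul_sub, ← Complex.exp_add]; ring_nf
  rw [e1, norm_mul, h0, one_mul]
  have e2 := Complex.norm_exp_sub_one_sub_id_le (x := u - u0) (by linarith)
  have e3 : ‖u - u0‖ ≤ ‖exp (u - u0) - 1‖ + ‖exp (u - u0) - 1 - (u - u0)‖ := by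
    have := norm_sub_le (exp (u - u0) - 1) (exp (u - u0) - 1 - (u - u0))
    have e4 : exp (u - u0) - 1 - (exp (u - u0) - 1 - (u - u0)) = u - u0 := by ring
    rwa [e4] at this
  nlinarith [norm_nonneg (u - u0)]

/-- Stability of the inverse branch at a parabolic real fixed point `0`, outside an attracting
half disc. -/
theorem hst_parabolic (q : RQ) {S : TS} (hS : IsTS q S) {A : XS S} (B : Br S A) {Z : Set ℂ}
    (hZ : ZS S A Z) (hr : q.r < 0) (hfix : q.p.eval 0 = 0)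
    (hpar : q.p.derivative.eval 0 = 1) (hatt : q.p.derivative.derivative.eval 0 < 0) {ρ : ℝ}
    (hρ : 0 < ρ) (hdisc : ∀ z ∈ HH, z ∈ ball (ρ : ℂ) ρ → mm q.v z ∈ Z)
    (hO : (ang q.v 0 : ℂ) * I ∈ OO Z) :
    ∀ η > 0, ∃ δ > 0, ∀ u ∈ OO Z, ‖u - ang q.v 0 * I‖ < δ → ∀ n : ℕ,
      ‖B.Φ^[n] u - ang q.v 0 * I‖ < η := by
  intro η hη
  have hv : 0 < q.v.im := q.hv
  set u0 : ℂ := (ang q.v 0 : ℂ) * I with hu0
  have hexp0 : exp u0 = mm q.v 0 := by
    have := mm_real hv 0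
    rw [hu0]
    rw [show (0 : ℂ) = ((0 : ℝ) : ℂ) by simp, this]
    rfl
  have h0H : (0 : ℂ) ∈ HH := by show 0 ≤ (0 : ℂ).im; simp
  have hn0 : ‖exp u0‖ = 1 := by
    rw [hexp0]; exact (norm_mm_eq_one hv h0H).mpr (by simp)
  have hsub : ∀ u ∈ OO Z, u ∈ OO A.Xo := fun u hu => ⟨hu.1, fun h => hu.2 (hZ.Xo_sub h)⟩
  have hfixΦ : B.Φ u0 = u0 := phi_fixed q hS B (β := 0) hr hfix (hsub _ hO)
  -- the plane coordinate
  set ζ : ℂ → ℂ := fun u => mi q.v (exp u) with hζ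
  have hexpD : ∀ u ∈ OO Z, exp u ∈ DD := by
    intro u hu
    show exp u ∈ closedBall (0 : ℂ) 1
    rw [mem_closedBall, dist_zero_right, Complex.norm_exp]
    exact Real.exp_le_one_iff.mpr hu.1
  have hexp1 : ∀ u ∈ OO Z, exp u ≠ 1 := by
    intro u hu h
    exact hu.2 (h ▸ hZ.one_mem)
  have hζH : ∀ u ∈ OO Z, ζ u ∈ HH := fun u hu => mi_mem hv (hexpD u hu) (hexp1 u hu)
  have hmmζ : ∀ u ∈ OO Z, mm q.v (ζ u) = exp u := fun u hu => mm_mi hv (hexpD u hu) (hexp1 u hu)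
  have hζ0 : ζ u0 = 0 := by
    show mi q.v (exp u0) = 0
    rw [hexp0]; exact mi_mm hv h0H
  have hζball : ∀ u ∈ OO Z, ζ u ∉ ball (ρ : ℂ) ρ := by
    intro u hu hb
    have := hdisc _ (hζH u hu) hb
    rw [hmmζ u hu] at this
    exact hu.2 this
  have hΦm : ∀ u ∈ OO Z, B.Φ u ∈ OO Z := by
    intro u hu
    have := B.ap_mem hZ.Xo_sub hZ.FZ (Ltr.P 0) hu
    simpa [Br.ap] using this
  have hstep : ∀ u ∈ OO Z, q.h.eval (ζ (B.Φ u)) = ζ u := by
    intro u hu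
    have hu' := hΦm u hu
    have hs : exp (u / 2) ∈ DD := by
      show exp (u / 2) ∈ closedBall (0 : ℂ) 1
      rw [mem_closedBall, dist_zero_right, Complex.norm_exp]
      refine Real.exp_le_one_iff.mpr ?_
      have h1 : u.re ≤ 0 := hu.1
      have h2 : (u / 2).re = u.re / 2 := by simp
      rw [h2]; linarith
    have h1 : exp (B.Φ u) = S.Θ (exp (u / 2)) := B.expΦ u (hsub u hu)
    have h2 : S.F (exp (B.Φ u)) = exp u := by
      rw [h1, S.FΘ _ hs, ← Complex.exp_nat_mul]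
      congr 1; push_cast; ring
    have h3 := hS.F_eq _ (hζH _ hu')
    rw [hmmζ _ hu', h2] at h3
    have h4 : 0 ≤ (q.h.eval (ζ (B.Φ u))).im := by
      refine hS.imΘ _ (hζH _ hu') ?_
      rw [hmmζ _ hu', h1]
      exact ⟨_, hs, rfl⟩
    have h5 : fold (q.h.eval (ζ (B.Φ u))) = q.h.eval (ζ (B.Φ u)) := by
      unfold fold; rw [if_pos h4]
    rw [h5, ← hmmζ u hu] at h3
    exact (mm_inj hv (hζH u hu) h4 h3).symm
  obtain ⟨c, hc, r, hr0, hA⟩ := s7_lemA q hfix hpar hatt hρ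
  -- smallness of `u` from smallness of `ζ`
  have hback : ∀ η1 > 0, ∃ ε > 0, ∀ u ∈ OO Z, ‖u - u0‖ ≤ 1 / 2 → ‖ζ u‖ < ε →
      ‖u - u0‖ < η1 := by
    intro η1 hη1
    obtain ⟨ε, hε, h⟩ := Metric.continuousOn_iff.mp (mm_cont hv) 0 h0H (η1 / 2) (by positivity)
    refine ⟨ε, hε, fun u hu h1 h2 => ?_⟩
    have h3 := h (ζ u) (hζH u hu) (by rw [dist_zero_right]; exact h2)
    rw [dist_eq_norm, hmmζ u hu, ← hexp0] at h3
    have h4 := s7_exp_lower hn0 h1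
    linarith
  -- continuity of ζ at u0
  have hζc : ContinuousOn ζ (OO Z) := by
    refine (mi_cont hv).comp (by fun_prop) ?_
    intro u hu
    exact ⟨hexpD u hu, fun h => hexp1 u hu h⟩
  have hfor : ∀ ε > 0, ∃ δ > 0, ∀ u ∈ OO Z, ‖u - u0‖ < δ → ‖ζ u‖ < ε := by
    intro ε hε
    obtain ⟨δ, hδ, h⟩ := Metric.continuousOn_iff.mp hζc u0 hO ε hε
    refine ⟨δ, hδ, fun u hu hn => ?_⟩
    have := h u hu (by rw [dist_eq_norm]; exact hn)
    rwa [hζ0, dist_zero_right] at this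
  have hΦc : ∀ ε > 0, ∃ δ > 0, ∀ u ∈ OO Z, ‖u - u0‖ < δ → ‖B.Φ u - u0‖ < ε := by
    intro ε hε
    obtain ⟨δ, hδ, h⟩ := Metric.continuousOn_iff.mp B.contΦ u0 (hsub _ hO) ε hε
    refine ⟨δ, hδ, fun u hu hn => ?_⟩
    have := h u (hsub u hu) (by rw [dist_eq_norm]; exact hn)
    rwa [hfixΦ, dist_eq_norm] at this
  obtain ⟨δ2, hδ2, hδ2r⟩ := hfor r hr0
  obtain ⟨δ3, hδ3, hδ3r⟩ := hΦc (min δ2 (1 / 2)) (by positivity)
  set η1 : ℝ := min η δ3 with hη1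
  have hη1p : 0 < η1 := lt_min hη hδ3
  obtain ⟨ε, hε, hεb⟩ := hback η1 hη1p
  obtain ⟨δ4, hδ4, hδ4b⟩ := hfor (min (1 / (4 * c)) (ε / 2)) (by positivity)
  refine ⟨min δ4 η1, by positivity, fun u hu hn => ?_⟩
  have hz0 : ‖ζ u‖ < min (1 / (4 * c)) (ε / 2) :=
    hδ4b u hu (lt_of_lt_of_le hn (min_le_left _ _))
  have hz0a : ‖ζ u‖ < 1 / (4 * c) := lt_of_lt_of_le hz0 (min_le_left _ _)
  have hz0b : ‖ζ u‖ < ε / 2 := lt_of_lt_of_le hz0 (min_le_right _ _)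
  have hOn : ∀ n : ℕ, B.Φ^[n] u ∈ OO Z := by
    intro n
    induction n with
    | zero => exact hu
    | succ n ih => rw [Function.iterate_succ_apply']; exact hΦm _ ih
  have key : ∀ n : ℕ, ‖B.Φ^[n] u - u0‖ < η1 ∧ (ζ (B.Φ^[n] u) = 0 ∨
      (ζ u ≠ 0 ∧ ‖1 / ζ u - (c : ℝ)‖ ≤ ‖1 / ζ (B.Φ^[n] u) - (c : ℝ)‖)) := by
    intro n
    induction n with
    | zero =>
      refine ⟨lt_of_lt_of_le hn (min_le_right _ _), ?_⟩
      by_cases h : ζ u = 0
      · left; exact h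
      · right; exact ⟨h, le_rfl⟩
    | succ n ih =>
      obtain ⟨ih1, ih2⟩ := ih
      have hx := hOn n
      have hy := hOn (n + 1)
      rw [Function.iterate_succ_apply'] at hy ⊢
      set x := B.Φ^[n] u with hxdef
      have hd : ‖B.Φ x - u0‖ < min δ2 (1 / 2) :=
        hδ3r x hx (lt_of_lt_of_le ih1 (min_le_right _ _))
      have hd2 : ‖B.Φ x - u0‖ < δ2 := lt_of_lt_of_le hd (min_le_left _ _)
      have hd3 : ‖B.Φ x - u0‖ ≤ 1 / 2 := (lt_of_lt_of_le hd (min_le_right _ _)).le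
      have hzr := hδ2r _ hy hd2
      by_cases hz : ζ (B.Φ x) = 0
      · refine ⟨hεb _ hy hd3 (by rw [hz, norm_zero]; exact hε), Or.inl hz⟩
      · obtain ⟨hA1, hA2⟩ := hA _ hz hzr (hζball _ hy)
        rw [hstep x hx] at hA1 hA2
        have hzz : ζ u ≠ 0 ∧ ‖1 / ζ u - (c : ℝ)‖ ≤ ‖1 / ζ (B.Φ x) - (c : ℝ)‖ := by
          rcases ih2 with h | h
          · exact absurd h hA1
          · exact ⟨h.1, h.2.trans hA2⟩
        refine ⟨hεb _ hy hd3 ?_, Or.inr hzz⟩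
        have g1 : 1 / ‖ζ u‖ - c ≤ ‖1 / ζ u - (c : ℝ)‖ := by
          have := norm_sub_norm_le (1 / ζ u) ((c : ℝ) : ℂ)
          rwa [norm_div, norm_one, Complex.norm_real, Real.norm_of_nonneg hc.le] at this
        have g2 : ‖1 / ζ (B.Φ x) - (c : ℝ)‖ ≤ 1 / ‖ζ (B.Φ x)‖ + c := by
          have := norm_sub_le (1 / ζ (B.Φ x)) ((c : ℝ) : ℂ)
          rwa [norm_div, norm_one, Complex.norm_real, Real.norm_of_nonneg hc.le] at this
        have g3 : 1 / ‖ζ u‖ - 2 * c ≤ 1 / ‖ζ (B.Φ x)‖ := by linarith [hzz.2]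
        have p0 : 0 < ‖ζ u‖ := norm_pos_iff.mpr hzz.1
        have p1 : 0 < ‖ζ (B.Φ x)‖ := norm_pos_iff.mpr hz
        have g4 : 4 * c < 1 / ‖ζ u‖ := by
          rw [lt_div_iff₀ p0]
          rw [lt_div_iff₀ (by positivity)] at hz0a
          linarith
        have g5 : 1 / (2 * ‖ζ u‖) ≤ 1 / ‖ζ (B.Φ x)‖ := by
          have : 1 / (2 * ‖ζ u‖) = (1 / ‖ζ u‖) / 2 := by field_simp
          rw [this]; linarith
        have g6 : ‖ζ (B.Φ x)‖ ≤ 2 * ‖ζ u‖ :=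
          (one_div_le_one_div (by positivity) p1).mp g5
        linarith
  intro n
  exact lt_of_lt_of_le (key n).1 (min_le_left _ _)

end

end Pool.TU
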