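import Pool.Agent.Helper71.TU.P3
import Pool.Agent.Helper71.TU.S6
import Pool.Agent.Helper71.TU.S7

/-! # TU P4: shrinking for the four cases -/

open Complex Set Filter Topology Metric Polynomial ComplexConjugate Pool.Tuning

namespace Pool.TU

noncomputable section

private theorem p4_real_mem (x : ℝ) : (x : ℂ) ∈ HH := by
  simp [HH]

private theorem p4_fold_real (x : ℝ) : fold (x : ℂ) = x := by
  unfold fold
  simp

private theorem p4_mem_OO (q : RQ) {Z : Set ℂ} {x : ℝ} (hx : mm q.v x ∉ Z) :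
    (ang q.v x : ℂ) * I ∈ OO Z := by
  refine ⟨?_, ?_⟩
  · simp [UU]
  · have h := mm_real q.vpos x
    rw [ec] at h
    rwa [← h]

private theorem p4_pull {q : RQ} {S : TS} (hS : IsTS q S) {A : XS S} {Z : Set ℂ}
    (hZ : ZS S A Z) {x y : ℝ} (hxy : q.p.eval x = y) (hy : mm q.v y ∉ Z) :
    mm q.v x ∉ Z := by
  intro hx
  apply hy
  have h := hZ.FZ hx
  rwa [hS.F_eq _ (p4_real_mem x), q.h_real x, p4_fold_real, hxy] at h

/-- shrinking at the level of the polynomial to be tuned, hyperbolic type -/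
theorem shrink_S_hyp {q : RQ} {S : TS} (hS : IsTS q S) (hfix : q.p.eval q.r = q.r)
    {A A0 : XS S} {P : Set ℂ} (g : RG q A A0 P {q.r}) (B : Br S A) {Z : Set ℂ}
    (hZ : ZS S A Z) (hr : mm q.v q.r ∈ Z) : Shrinks B Z := by
  have _ := hfix
  refine RG.shrinks hS g B hZ ?_
  intro x hx hxZ
  rw [Finset.mem_singleton] at hx
  subst hx
  exact absurd hr hxZ

/-- shrinking at the level of the polynomial to be tuned, parabolic type -/
theorem shrink_S_par {q : RQ} {S : TS} (hS : IsTS q S) (hfix : q.p.eval q.r = q.r) {ρ : ℝ}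
    (D : PD q ρ) {A A0 : XS S} (hA : A.Xo = mm q.v '' (ball (ρ : ℂ) ρ ∩ HH)) {P : Set ℂ}
    (g : RG q A A0 P {q.r, 0}) (B : Br S A) {Z : Set ℂ} (hZ : ZS S A Z)
    (hr : mm q.v q.r ∈ Z) : Shrinks B Z := by
  refine RG.shrinks hS g B hZ ?_
  intro x hx hxZ
  rw [Finset.mem_insert, Finset.mem_singleton] at hx
  rcases hx with hx | hx
  · subst hx
    exact absurd hr hxZ
  subst hx
  have hO : (ang q.v 0 : ℂ) * I ∈ OO Z := p4_mem_OO q hxZ
  have hvr : q.vr ≤ 0 := by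
    have h := q.vr_le 0
    rwa [D.fix] at h
  obtain ⟨x1, hx1, hpx1⟩ := (q.surj_real hvr).2
  have hx1Z : mm q.v x1 ∉ Z := p4_pull hS hZ hpx1 hxZ
  have hrm := (rm_ang q hS hx1).2
  rw [hpx1] at hrm
  have hr0 : q.r < 0 := D.hr
  refine RG.eq_beta hS g B hZ D.hr D.fix hO ?_ ?_
  · refine hst_parabolic q hS B hZ D.hr D.fix D.der1 ?_ D.hρ ?_ hO
    · rw [D.der2]
      have := D.hα
      linarith
    · intro z hz hzb
      apply hZ.Xo_sub
      rw [hA]
      exact ⟨z, ⟨hzb, hz⟩, rfl⟩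
  · rw [hrm]
    refine RG.eq_re hS g B hZ hx1 ?_ (p4_mem_OO q hx1Z)
    rw [Finset.mem_insert, Finset.mem_singleton]
    rintro (h | h)
    · rw [h, hfix] at hpx1
      linarith
    · linarith

/-- shrinking at the level of the tuned polynomial, hyperbolic type -/
theorem shrink_g_hyp {q : RQ} {S : TS} (hS : IsTS q S) {β : ℝ} (hβ : q.r < β)
    (hfix : q.p.eval β = β) (hrep : 1 < q.p.derivative.eval β) (hv : q.p.eval q.vr = β)
    (hvr : q.vr < q.r) {A A0 : XS S} {P : Set ℂ} (g : RG q A A0 P {q.vr, β}) (B : Br S A)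
    {Z : Set ℂ} (hZ : ZS S A Z) : Shrinks B Z := by
  have hrE : q.r ∉ ({q.vr, β} : Finset ℝ) := by
    rw [Finset.mem_insert, Finset.mem_singleton]
    rintro (h | h)
    · exact absurd h hvr.ne'
    · exact absurd h hβ.ne
  have hκ : mm q.v q.vr ∉ Z → EqAt B Z (S.κ * I) := by
    intro h
    refine RG.eq_vr hS g B hZ hrE ?_
    rw [hS.κ_eq]
    exact p4_mem_OO q h
  refine RG.shrinks hS g B hZ ?_
  intro x hx hxZ
  rw [Finset.mem_insert, Finset.mem_singleton] at hx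
  rcases hx with hx | hx
  · subst hx
    rw [← hS.κ_eq]
    exact hκ hxZ
  subst hx
  have hO : (ang q.v x : ℂ) * I ∈ OO Z := p4_mem_OO q hxZ
  have hrm := (rm_ang q hS hvr.le).2
  rw [hv] at hrm
  refine RG.eq_beta hS g B hZ hβ hfix hO ?_ ?_
  · exact hst_repelling q hS B hZ hβ hfix hrep hO
  · rw [hrm, ← hS.κ_eq]
    exact hκ (p4_pull hS hZ hv hxZ)

/-- shrinking at the level of the tuned polynomial, parabolic type -/
theorem shrink_g_par {q : RQ} {S : TS} (hS : IsTS q S) {ρ : ℝ} (D : PD q ρ)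
    (hv : q.p.eval q.vr = 0) (hvr : q.vr < q.r) {A A0 : XS S}
    (hA : A.Xo = mm q.v '' (ball (ρ : ℂ) ρ ∩ HH)) {P : Set ℂ}
    (g : RG q A A0 P {q.vr, 0}) (B : Br S A) {Z : Set ℂ} (hZ : ZS S A Z) :
    Shrinks B Z := by
  have hrE : q.r ∉ ({q.vr, 0} : Finset ℝ) := by
    rw [Finset.mem_insert, Finset.mem_singleton]
    rintro (h | h)
    · exact absurd h hvr.ne'
    · exact absurd h D.hr.ne
  have hκ : mm q.v q.vr ∉ Z → EqAt B Z (S.κ * I) := by
    intro h
    refine RG.eq_vr hS g B hZ hrE ?_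
    rw [hS.κ_eq]
    exact p4_mem_OO q h
  refine RG.shrinks hS g B hZ ?_
  intro x hx hxZ
  rw [Finset.mem_insert, Finset.mem_singleton] at hx
  rcases hx with hx | hx
  · subst hx
    rw [← hS.κ_eq]
    exact hκ hxZ
  subst hx
  have hO : (ang q.v 0 : ℂ) * I ∈ OO Z := p4_mem_OO q hxZ
  have hrm := (rm_ang q hS hvr.le).2
  rw [hv] at hrm
  refine RG.eq_beta hS g B hZ D.hr D.fix hO ?_ ?_
  · refine hst_parabolic q hS B hZ D.hr D.fix D.der1 ?_ D.hρ ?_ hO
    · rw [D.der2]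
      have := D.hα
      linarith
    · intro z hz hzb
      apply hZ.Xo_sub
      rw [hA]
      exact ⟨z, ⟨hzb, hz⟩, rfl⟩
  · rw [hrm, ← hS.κ_eq]
    exact hκ (p4_pull hS hZ hv hxZ)

end

end Pool.TU
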