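import Pool.Agent.Helper71.TU.A7
import Pool.Agent.Helper71.TU.L3

/-! # TU S1: local to global -/

open Complex Set Filter Topology Metric Polynomial ComplexConjugate Pool.Tuning

namespace Pool.TU

noncomputable section

theorem s1_tpi_re (k : ℤ) : ((k : ℂ) * tpi).re = 0 := by
  unfold tpi
  simp

theorem s1_tpi_im (k : ℤ) : ((k : ℂ) * tpi).im = k * (2 * Real.pi) := by
  unfold tpi
  simp

theorem s1_exp (u : ℂ) (k : ℤ) : exp (u + k * tpi) = exp u := by
  unfold tpi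
  exact Complex.exp_periodic.int_mul k u

theorem s1_mem {Z : Set ℂ} {u : ℂ} (h : u ∈ OO Z) (k : ℤ) : u + k * tpi ∈ OO Z := by
  refine ⟨?_, ?_⟩
  · show (u + k * tpi).re ≤ 0
    rw [add_re, s1_tpi_re, add_zero]
    exact h.1
  · rw [s1_exp]
    exact h.2

theorem s1_shift_ap {S : TS} {A : XS S} (B : Br S A) (l : Ltr) (k : ℤ) :
    ∃ l' : Ltr, ∀ u, B.ap l (u + k * tpi) = B.ap l' u := by
  cases l with
  | P j =>
    refine ⟨Ltr.P (k + j), fun u => ?_⟩
    show B.Φ (u + k * tpi + j * tpi) = B.Φ (u + ((k + j : ℤ) : ℂ) * tpi)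
    congr 1
    push_cast
    ring
  | Q2 j =>
    refine ⟨Ltr.Q2 j, fun u => ?_⟩
    show B.g2 (exp (u + k * tpi)) + j * tpi = B.g2 (exp u) + j * tpi
    rw [s1_exp]
  | Q4 j =>
    refine ⟨Ltr.Q4 j, fun u => ?_⟩
    show B.g4 (exp (u + k * tpi)) + j * tpi = B.g4 (exp u) + j * tpi
    rw [s1_exp]

/-- translation of the argument of a nonempty word -/
theorem s1_shift_ev {S : TS} {A : XS S} (B : Br S A) (k : ℤ) :
    ∀ w : List Ltr, w ≠ [] → ∃ w' : List Ltr, w'.length = w.length ∧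
      ∀ u, B.ev w (u + k * tpi) = B.ev w' u := by
  intro w
  induction w with
  | nil => exact fun h => absurd rfl h
  | cons l w ih =>
    intro _
    by_cases hw : w = []
    · subst hw
      obtain ⟨l', hl'⟩ := s1_shift_ap B l k
      exact ⟨[l'], rfl, fun u => hl' u⟩
    · obtain ⟨w', h1, h2⟩ := ih hw
      refine ⟨l :: w', by simp [h1], fun u => ?_⟩
      show B.ap l (B.ev w (u + k * tpi)) = B.ap l (B.ev w' u)
      rw [h2]

/-- equicontinuity at the translates, with uniform `δ` -/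
theorem s1_eqAt {S : TS} {A : XS S} {B : Br S A} {Z : Set ℂ} {p : ℂ} (hp : EqAt B Z p) (k : ℤ) :
    EqAt B Z (p + k * tpi) := by
  intro η hη
  obtain ⟨δ, hδ, h⟩ := hp η hη
  refine ⟨min δ η, lt_min hδ hη, fun w u hu huu => ?_⟩
  by_cases hw : w = []
  · subst hw
    show ‖u - (p + k * tpi)‖ ≤ η
    exact (huu.trans_le (min_le_right _ _)).le
  · obtain ⟨w', _, h2⟩ := s1_shift_ev B k w hw
    have h3 : u - k * tpi ∈ OO Z := by
      have := s1_mem hu (-k)
      rwa [show u + ((-k : ℤ) : ℂ) * tpi = u - k * tpi by push_cast; ring] at this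
    have h4 : B.ev w u = B.ev w' (u - k * tpi) := by
      rw [← h2 (u - k * tpi), sub_add_cancel]
    rw [h4, h2 p]
    refine h w' _ h3 ?_
    refine lt_of_eq_of_lt ?_ (huu.trans_le (min_le_left _ _))
    congr 1
    ring

/-- chain lemma -/
theorem s1_chain {ι : Type} (t : Finset ι) (V : ι → Set ℂ) (ε : ι → ℝ)
    (hV : ∀ i, IsOpen (V i)) (hε : ∀ i ∈ t, 0 ≤ ε i) (s : Set ℂ) (hs : IsPreconnected s)
    (hcov : ∀ x ∈ s, ∃ i ∈ t, x ∈ V i) (f : ℂ → ℂ)
    (hf : ∀ i ∈ t, ∀ x ∈ s ∩ V i, ∀ y ∈ s ∩ V i, ‖f x - f y‖ ≤ ε i) (x y : ℂ) (hx : x ∈ s)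
    (hy : y ∈ s) : ‖f x - f y‖ ≤ ∑ i ∈ t, ε i := by
  classical
  obtain ⟨i0, hi0, hxi0⟩ := hcov x hx
  let fam := t.powerset.filter fun r => i0 ∈ r ∧
    ∀ z ∈ s, (∃ i ∈ r, z ∈ V i) → ‖f x - f z‖ ≤ ∑ i ∈ r, ε i
  have hfam : ∀ r, r ∈ fam ↔ r ⊆ t ∧ i0 ∈ r ∧
      ∀ z ∈ s, (∃ i ∈ r, z ∈ V i) → ‖f x - f z‖ ≤ ∑ i ∈ r, ε i := by
    intro r
    show r ∈ Finset.filter _ _ ↔ _
    rw [Finset.mem_filter, Finset.mem_powerset]
  have hne : fam.Nonempty := by
    refine ⟨{i0}, (hfam _).2 ⟨?_, Finset.mem_singleton_self _, ?_⟩⟩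
    · rw [Finset.singleton_subset_iff]
      exact hi0
    · rintro z hz ⟨i, hi, hzi⟩
      rw [Finset.mem_singleton] at hi
      subst hi
      rw [Finset.sum_singleton]
      exact hf i hi0 x ⟨hx, hxi0⟩ z ⟨hz, hzi⟩
  obtain ⟨r, hr, hmax⟩ := fam.exists_max_image Finset.card hne
  obtain ⟨hr1, hr2, hr3⟩ := (hfam r).1 hr
  have hall : ∀ z ∈ s, ∃ i ∈ r, z ∈ V i := by
    by_contra hcon
    push Not at hcon
    obtain ⟨z0, hz0, hz0r⟩ := hcon
    have hA : IsOpen (⋃ i ∈ r, V i) := isOpen_biUnion fun i _ => hV i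
    have hB : IsOpen (⋃ i ∈ t \ r, V i) := isOpen_biUnion fun i _ => hV i
    have hsub : s ⊆ (⋃ i ∈ r, V i) ∪ (⋃ i ∈ t \ r, V i) := by
      intro z hz
      obtain ⟨i, hi, hzi⟩ := hcov z hz
      by_cases hir : i ∈ r
      · left
        exact mem_biUnion hir hzi
      · right
        exact mem_biUnion (Finset.mem_sdiff.2 ⟨hi, hir⟩) hzi
    have hA' : (s ∩ ⋃ i ∈ r, V i).Nonempty := ⟨x, hx, mem_biUnion hr2 hxi0⟩
    have hB' : (s ∩ ⋃ i ∈ t \ r, V i).Nonempty := by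
      refine ⟨z0, hz0, ?_⟩
      obtain ⟨i, hi, hzi⟩ := hcov z0 hz0
      refine mem_biUnion (Finset.mem_sdiff.2 ⟨hi, fun hir => ?_⟩) hzi
      exact hz0r i hir hzi
    obtain ⟨z, hz, hzA, hzB⟩ := hs _ _ hA hB hsub hA' hB'
    rw [mem_iUnion₂] at hzA hzB
    obtain ⟨i, hi, hzi⟩ := hzA
    obtain ⟨j, hj, hzj⟩ := hzB
    have hj' := Finset.mem_sdiff.1 hj
    have hnew : insert j r ∈ fam := by
      refine (hfam _).2 ⟨?_, Finset.mem_insert_of_mem hr2, ?_⟩
      · exact Finset.insert_subset hj'.1 hr1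
      · rintro y' hy' ⟨i', hi', hy'i'⟩
        rw [Finset.sum_insert hj'.2]
        rcases Finset.mem_insert.1 hi' with h1 | h1
        · subst h1
          have h2 := hr3 z hz ⟨i, hi, hzi⟩
          have h3 := hf i' hj'.1 z ⟨hz, hzj⟩ y' ⟨hy', hy'i'⟩
          calc ‖f x - f y'‖ = ‖(f x - f z) + (f z - f y')‖ := by congr 1; ring
            _ ≤ ‖f x - f z‖ + ‖f z - f y'‖ := norm_add_le _ _
            _ ≤ _ := by linarith
        · have h2 := hr3 y' hy' ⟨i', h1, hy'i'⟩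
          have h3 := hε j hj'.1
          linarith
    have h1 := hmax _ hnew
    rw [Finset.card_insert_of_notMem hj'.2] at h1
    omega
  refine (hr3 y hy (hall y hy)).trans ?_
  exact Finset.sum_le_sum_of_subset_of_nonneg hr1 fun i hi _ => hε i hi

/-- lower bound of the real part on `OO Z` -/
theorem s1_re {S : TS} {A : XS S} {Z : Set ℂ} (hZ : ZS S A Z) :
    ∃ M : ℝ, 0 ≤ M ∧ ∀ u ∈ OO Z, -M ≤ u.re := by
  obtain ⟨O, hO, hZO⟩ := hZ.openZ
  have h0 : (0 : ℂ) ∈ O := by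
    have h1 := hZ.Xo_sub A.zero_mem
    rw [hZO] at h1
    exact h1.1
  obtain ⟨r, hr, hrO⟩ := Metric.isOpen_iff.1 hO 0 h0
  refine ⟨|Real.log r|, abs_nonneg _, fun u hu => ?_⟩
  by_contra hcon
  push Not at hcon
  apply hu.2
  rw [hZO]
  have h1 : ‖exp u‖ < r := by
    rw [Complex.norm_exp]
    calc Real.exp u.re < Real.exp (-|Real.log r|) := Real.exp_lt_exp.2 hcon
      _ ≤ Real.exp (Real.log r) := Real.exp_le_exp.2 (neg_abs_le _)
      _ = r := Real.exp_log hr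
  refine ⟨hrO (by rwa [mem_ball_zero_iff]), ?_⟩
  show exp u ∈ closedBall 0 1
  rw [mem_closedBall_zero_iff, Complex.norm_exp]
  exact Real.exp_le_one_iff.2 hu.1

theorem s1_closed {S : TS} {A : XS S} {Z : Set ℂ} (hZ : ZS S A Z) : IsClosed (OO Z) := by
  obtain ⟨O, hO, hZO⟩ := hZ.openZ
  have h1 : OO Z = {u : ℂ | u.re ≤ 0} ∩ (exp ⁻¹' O)ᶜ := by
    ext u
    constructor
    · rintro ⟨h2, h3⟩
      refine ⟨h2, fun h4 => h3 ?_⟩
      rw [hZO]
      refine ⟨h4, ?_⟩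
      show exp u ∈ closedBall 0 1
      rw [mem_closedBall_zero_iff, Complex.norm_exp]
      exact Real.exp_le_one_iff.2 h2
    · rintro ⟨h2, h3⟩
      refine ⟨h2, fun h4 => h3 ?_⟩
      rw [hZO] at h4
      exact h4.1
  rw [h1]
  exact (isClosed_le Complex.continuous_re continuous_const).inter
    (hO.preimage Complex.continuous_exp).isClosed_compl

/-- Assembly: local shrinking at all points but finitely many (mod `2πi`) where the words are
equicontinuous implies that words shrink lumps. -/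
theorem shrinks_of_local {S : TS} {A : XS S} (B : Br S A) {Z : Set ℂ} (hZ : ZS S A Z)
    (P : Finset ℂ) (hloc : ∀ u ∈ OO Z, (∃ δ > 0, LocShrink B Z u δ) ∨
      ∃ p ∈ P, ∃ k : ℤ, u = p + k * tpi) (hP : ∀ p ∈ P, p ∈ OO Z ∧ EqAt B Z p) :
    Shrinks B Z := by
  classical
  intro R η hη
  obtain ⟨M, hM, hMre⟩ := s1_re hZ
  have hpi := Real.pi_pos
  -- the compact set
  set K : Set ℂ := {u | u ∈ OO Z ∧ |u.im| ≤ |R| + 2 * Real.pi} with hK
  have hKc : IsCompact K := by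
    refine Metric.isCompact_of_isClosed_isBounded ?_ ?_
    · exact (s1_closed hZ).inter (isClosed_le (continuous_abs.comp Complex.continuous_im)
        continuous_const)
    · rw [isBounded_iff_forall_norm_le]
      refine ⟨M + (|R| + 2 * Real.pi), fun u hu => ?_⟩
      have h1 := hMre u hu.1
      have h2 : u.re ≤ 0 := hu.1.1
      have h3 : |u.re| ≤ M := abs_le.2 ⟨h1, h2.trans hM⟩
      exact (Complex.norm_le_abs_re_add_abs_im u).trans (add_le_add h3 hu.2)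
  -- the special points
  obtain ⟨c, hc⟩ : ∃ c : ℝ, ∀ p ∈ P, |p.im| ≤ c := by
    refine ⟨∑ p ∈ P, |p.im|, fun p hp => ?_⟩
    exact Finset.single_le_sum (f := fun p : ℂ => |p.im|) (fun _ _ => abs_nonneg _) hp
  obtain ⟨k0, hk0⟩ : ∃ k0 : ℕ, (|R| + 2 * Real.pi + c) / (2 * Real.pi) ≤ k0 := exists_nat_ge _
  let Q : Finset ℂ := (P ×ˢ Finset.Icc (-(k0 : ℤ)) k0).image fun q => q.1 + q.2 * tpi
  have hQ1 : ∀ q ∈ Q, EqAt B Z q := by
    intro q hq
    obtain ⟨⟨p, k⟩, hpk, rfl⟩ := Finset.mem_image.1 hq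
    exact s1_eqAt (hP p (Finset.mem_product.1 hpk).1).2 k
  have hQ2 : ∀ u ∈ K, (∃ p ∈ P, ∃ k : ℤ, u = p + k * tpi) → u ∈ Q := by
    rintro u hu ⟨p, hp, k, rfl⟩
    refine Finset.mem_image.2 ⟨(p, k), Finset.mem_product.2 ⟨hp, ?_⟩, rfl⟩
    have h1 : |p.im + k * (2 * Real.pi)| ≤ |R| + 2 * Real.pi := by
      have := hu.2
      rwa [add_im, s1_tpi_im] at this
    have h2 : |(k : ℝ) * (2 * Real.pi)| ≤ |R| + 2 * Real.pi + c := by
      have h3 : (k : ℝ) * (2 * Real.pi) = (p.im + k * (2 * Real.pi)) - p.im := by ring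
      rw [h3]
      refine (abs_sub _ _).trans ?_
      exact add_le_add h1 (hc p hp)
    rw [abs_mul, abs_of_pos (by positivity : (0 : ℝ) < 2 * Real.pi),
      ← le_div_iff₀ (by positivity)] at h2
    have h4 : |(k : ℝ)| ≤ k0 := h2.trans hk0
    have h5 : |k| ≤ (k0 : ℤ) := by exact_mod_cast h4
    rw [abs_le] at h5
    exact Finset.mem_Icc.2 h5
  -- radii at the special points
  set η1 : ℝ := η / (4 * ((Q.card : ℝ) + 1)) with hη1
  have hη1pos : 0 < η1 := by positivity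
  have hδQ : ∀ q : ℂ, ∃ δ : ℝ, 0 < δ ∧ (q ∈ Q → ∀ w : List Ltr, ∀ u ∈ OO Z, ‖u - q‖ < δ →
      ‖B.ev w u - B.ev w q‖ ≤ η1) := by
    intro q
    by_cases hq : q ∈ Q
    · obtain ⟨δ, h1, h2⟩ := hQ1 q hq η1 hη1pos
      exact ⟨δ, h1, fun _ => h2⟩
    · exact ⟨1, one_pos, fun h => absurd h hq⟩
  choose δQ hδQpos hδQ using hδQ
  -- the remaining compact set
  set K' : Set ℂ := K \ ⋃ q ∈ Q, ball q (δQ q) with hK'
  have hK'c : IsCompact K' := hKc.diff (isOpen_biUnion fun q _ => isOpen_ball)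
  have hδ : ∀ u : ℂ, ∃ δ : ℝ, 0 < δ ∧ (u ∈ K' → LocShrink B Z u δ) := by
    intro u
    by_cases hu : u ∈ K'
    · rcases hloc u hu.1.1 with ⟨δ, h1, h2⟩ | h
      · exact ⟨δ, h1, fun _ => h2⟩
      · exfalso
        apply hu.2
        exact mem_biUnion (hQ2 u hu.1 h) (mem_ball_self (hδQpos u))
    · exact ⟨1, one_pos, fun h => absurd h hu⟩
  choose δ hδpos hδ using hδ
  obtain ⟨F, hFK, hF⟩ := hK'c.elim_nhds_subcover (fun u => ball u (δ u))
    (fun u _ => ball_mem_nhds u (hδpos u))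
  set η2 : ℝ := η / (2 * ((F.card : ℝ) + 1)) with hη2
  have hη2pos : 0 < η2 := by positivity
  have hN : ∀ u : ℂ, ∃ N : ℕ, u ∈ F → ∀ w : List Ltr, N ≤ w.length → ∀ v ∈ OO Z ∩ ball u (δ u),
      ∀ v' ∈ OO Z ∩ ball u (δ u), ‖B.ev w v - B.ev w v'‖ ≤ η2 := by
    intro u
    by_cases hu : u ∈ F
    · obtain ⟨N, h⟩ := hδ u (hFK u hu) η2 hη2pos
      exact ⟨N, fun _ => h⟩
    · exact ⟨0, fun h => absurd h hu⟩
  choose N hN using hN
  refine ⟨F.sup N + 1, fun w hw s hs x hx y hy => ?_⟩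
  have hw0 : w ≠ [] := by
    rintro rfl
    simp at hw
  -- translation
  obtain ⟨k, hk1, hk2⟩ : ∃ k : ℤ, 0 ≤ x.im - k * (2 * Real.pi) ∧
      x.im - k * (2 * Real.pi) ≤ 2 * Real.pi := by
    refine ⟨⌊x.im / (2 * Real.pi)⌋, ?_, ?_⟩
    · have := Int.floor_le (x.im / (2 * Real.pi))
      rw [le_div_iff₀ (by positivity)] at this
      linarith
    · have := (Int.lt_floor_add_one (x.im / (2 * Real.pi))).le
      rw [div_le_iff₀ (by positivity)] at this
      linarith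
  obtain ⟨w', hw'1, hw'2⟩ := s1_shift_ev B k w hw0
  set s' : Set ℂ := (fun u => u - k * tpi) '' s with hs'
  have hs'OO : s' ⊆ OO Z := by
    rintro _ ⟨u, hu, rfl⟩
    have := s1_mem (hs.sub hu) (-k)
    rwa [show u + ((-k : ℤ) : ℂ) * tpi = u - k * tpi by push_cast; ring] at this
  have hs'K : s' ⊆ K := by
    intro v hv
    refine ⟨hs'OO hv, ?_⟩
    obtain ⟨u, hu, rfl⟩ := hv
    show |(u - k * tpi).im| ≤ _
    rw [sub_im, s1_tpi_im]
    have h1 : |u.im - x.im| ≤ |R| := by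
      rw [← sub_im]
      exact (Complex.abs_im_le_norm _).trans ((hs.diam u hu x hx).trans (le_abs_self R))
    have h2 : u.im - k * (2 * Real.pi) = (u.im - x.im) + (x.im - k * (2 * Real.pi)) := by ring
    rw [h2]
    refine (abs_add_le _ _).trans (add_le_add h1 ?_)
    rw [abs_of_nonneg hk1]
    exact hk2
  have hs'c : IsPreconnected s' :=
    hs.conn.image _ (continuous_id.sub continuous_const).continuousOn
  have hev : ∀ u, B.ev w u = B.ev w' (u - k * tpi) := by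
    intro u
    rw [← hw'2 (u - k * tpi), sub_add_cancel]
  rw [hev x, hev y]
  have hlen : F.sup N + 1 ≤ w'.length := by rw [hw'1]; exact hw
  have key := s1_chain (Q.disjSum F)
    (fun i => Sum.elim (fun q => ball q (δQ q)) (fun u => ball u (δ u)) i)
    (fun i => Sum.elim (fun _ => 2 * η1) (fun _ => η2) i) (by
      rintro (q | u)
      · exact isOpen_ball
      · exact isOpen_ball) (by
      rintro (q | u) _
      · show 0 ≤ 2 * η1
        positivity
      · exact hη2pos.le) s' hs'c (by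
      intro v hv
      by_cases h : v ∈ ⋃ q ∈ Q, ball q (δQ q)
      · rw [mem_iUnion₂] at h
        obtain ⟨q, hq, hvq⟩ := h
        exact ⟨Sum.inl q, Finset.inl_mem_disjSum.2 hq, hvq⟩
      · have h1 := hF ⟨hs'K hv, h⟩
        rw [mem_iUnion₂] at h1
        obtain ⟨u, hu, hvu⟩ := h1
        exact ⟨Sum.inr u, Finset.inr_mem_disjSum.2 hu, hvu⟩) (B.ev w') (by
      rintro (q | u) hi v hv v' hv'
      · have hq : q ∈ Q := Finset.inl_mem_disjSum.1 hi
        have h1 := hδQ q hq w' v (hs'OO hv.1) (by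
          have : v ∈ ball q (δQ q) := hv.2
          rwa [mem_ball, dist_eq_norm] at this)
        have h2 := hδQ q hq w' v' (hs'OO hv'.1) (by
          have : v' ∈ ball q (δQ q) := hv'.2
          rwa [mem_ball, dist_eq_norm] at this)
        show ‖B.ev w' v - B.ev w' v'‖ ≤ 2 * η1
        calc ‖B.ev w' v - B.ev w' v'‖ =
              ‖(B.ev w' v - B.ev w' q) - (B.ev w' v' - B.ev w' q)‖ := by congr 1; ring
          _ ≤ ‖B.ev w' v - B.ev w' q‖ + ‖B.ev w' v' - B.ev w' q‖ := norm_sub_le _ _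
          _ ≤ 2 * η1 := by linarith
      · have hu : u ∈ F := Finset.inr_mem_disjSum.1 hi
        refine hN u hu w' ?_ v ⟨hs'OO hv.1, hv.2⟩ v' ⟨hs'OO hv'.1, hv'.2⟩
        exact (Finset.le_sup hu).trans ((Nat.le_succ _).trans hlen))
    (x - k * tpi) (y - k * tpi) ⟨x, hx, rfl⟩ ⟨y, hy, rfl⟩
  refine key.trans ?_
  rw [Finset.sum_disjSum]
  simp only [Sum.elim_inl, Sum.elim_inr, Finset.sum_const, nsmul_eq_mul]
  have h1 : (Q.card : ℝ) * (2 * η1) ≤ η / 2 := by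
    rw [hη1]
    have e : (Q.card : ℝ) * (2 * (η / (4 * ((Q.card : ℝ) + 1)))) =
        ((Q.card : ℝ) / ((Q.card : ℝ) + 1)) * (η / 2) := by
      field_simp
      ring
    rw [e]
    refine mul_le_of_le_one_left (by positivity) ?_
    rw [div_le_one (by positivity)]
    linarith
  have h2 : (F.card : ℝ) * η2 ≤ η / 2 := by
    rw [hη2]
    have e : (F.card : ℝ) * (η / (2 * ((F.card : ℝ) + 1))) =
        ((F.card : ℝ) / ((F.card : ℝ) + 1)) * (η / 2) := by
      field_simp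
    rw [e]
    refine mul_le_of_le_one_left (by positivity) ?_
    rw [div_le_one (by positivity)]
    linarith
  linarith

end

end Pool.TU
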