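import Pool.Agent.Helper71.TU.D1
import Pool.Agent.Helper71.TU.B1

/-! # TU S2: small diameters, unfolding -/

open Complex Set Filter Topology Metric Polynomial ComplexConjugate Pool.Tuning

namespace Pool.TU

noncomputable section

/-- a continuous integer multiple of `2πi` on a preconnected set, vanishing somewhere, is zero -/
theorem s2_int_const {s : Set ℂ} (hs : IsPreconnected s) {g : ℂ → ℂ} (hg : ContinuousOn g s)
    (hint : ∀ u ∈ s, exp (g u) = 1) {u0 : ℂ} (hu0 : u0 ∈ s) (h0 : g u0 = 0) :
    ∀ u ∈ s, g u = 0 := by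
  intro u hu
  obtain ⟨n, hn⟩ := exp_eq_one_iff.1 (hint u hu)
  by_contra hne
  have hn0 : n ≠ 0 := by
    rintro rfl
    apply hne
    rw [hn]
    simp
  -- the imaginary part
  have himc : ContinuousOn (fun u => (g u).im) s := continuous_im.comp_continuousOn hg
  have hpi := Real.pi_pos
  have him : (g u).im = n * (2 * Real.pi) := by
    rw [hn]
    simp
  have key : ∃ w ∈ s, (g w).im = Real.pi ∨ (g w).im = -Real.pi := by
    rcases lt_or_gt_of_ne hn0 with h | h
    · have h1 : (g u).im ≤ -Real.pi := by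
        rw [him]
        have : (n : ℝ) ≤ -1 := by exact_mod_cast Int.le_sub_one_of_lt h
        nlinarith
      have h2 : -Real.pi ≤ (g u0).im := by
        rw [h0]
        simp [hpi.le]
      obtain ⟨w, hw, hw2⟩ := hs.intermediate_value hu hu0 himc ⟨h1, h2⟩
      exact ⟨w, hw, Or.inr hw2⟩
    · have h1 : Real.pi ≤ (g u).im := by
        rw [him]
        have : (1 : ℝ) ≤ n := by exact_mod_cast h
        nlinarith
      have h2 : (g u0).im ≤ Real.pi := by
        rw [h0]
        simp [hpi.le]
      obtain ⟨w, hw, hw2⟩ := hs.intermediate_value hu0 hu himc ⟨h2, h1⟩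
      exact ⟨w, hw, Or.inl hw2⟩
  obtain ⟨w, hw, hw2⟩ := key
  obtain ⟨m, hm⟩ := exp_eq_one_iff.1 (hint w hw)
  have him2 : (g w).im = m * (2 * Real.pi) := by
    rw [hm]
    simp
  rw [him2] at hw2
  rcases hw2 with h | h
  · have : ((2 * m : ℤ) : ℝ) = ((1 : ℤ) : ℝ) := by
      have h3 : (2 * (m : ℝ) - 1) * Real.pi = 0 := by linarith
      rcases mul_eq_zero.1 h3 with h4 | h4
      · push_cast
        linarith
      · exact absurd h4 hpi.ne'
    have := Int.cast_injective this
    omega
  · have : ((2 * m : ℤ) : ℝ) = ((-1 : ℤ) : ℝ) := by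
      have h3 : (2 * (m : ℝ) + 1) * Real.pi = 0 := by linarith
      rcases mul_eq_zero.1 h3 with h4 | h4
      · push_cast
        linarith
      · exact absurd h4 hpi.ne'
    have := Int.cast_injective this
    omega

/-- A connected set of small exponential image, away from `-∞`, is small. -/
theorem diam_of_exp {M : ℝ} : ∃ ε₀ > 0, ∃ C : ℝ, ∀ s : Set ℂ, IsPreconnected s →
    (∀ u ∈ s, -M ≤ u.re ∧ u.re ≤ 0) → ∀ ε ≤ ε₀, (∀ u ∈ s, ∀ u' ∈ s, ‖exp u - exp u'‖ ≤ ε) →
    ∀ u ∈ s, ∀ u' ∈ s, ‖u - u'‖ ≤ C * ε := by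
  have hM : 0 < Real.exp M := Real.exp_pos M
  refine ⟨1 / (2 * Real.exp M), by positivity, 3 / 2 * Real.exp M, ?_⟩
  intro s hs hre ε hε hexp u hu u' hu'
  have hsmall : ∀ w ∈ s, ‖exp (w - u') - 1‖ ≤ Real.exp M * ε := by
    intro w hw
    have h1 : exp (w - u') - 1 = (exp w - exp u') * exp (-u') := by
      rw [sub_mul, ← exp_add, ← exp_add]
      simp [sub_eq_add_neg]
    rw [h1, norm_mul, norm_exp (-u')]
    have h2 : Real.exp (-u').re ≤ Real.exp M := by
      apply Real.exp_le_exp.2
      have := (hre u' hu').1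
      simp only [neg_re]
      linarith
    calc ‖exp w - exp u'‖ * Real.exp (-u').re ≤ ε * Real.exp M :=
          mul_le_mul (hexp w hw u' hu') h2 (Real.exp_pos _).le
            (le_trans (norm_nonneg _) (hexp w hw u' hu'))
      _ = Real.exp M * ε := mul_comm _ _
  have hhalf : Real.exp M * ε ≤ 1 / 2 := by
    calc Real.exp M * ε ≤ Real.exp M * (1 / (2 * Real.exp M)) :=
          mul_le_mul_of_nonneg_left hε hM.le
      _ = 1 / 2 := by field_simp
  have hslit : ∀ w ∈ s, exp (w - u') ∈ slitPlane := by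
    intro w hw
    have h1 := (hsmall w hw).trans hhalf
    have h2 : exp (w - u') = 1 + (exp (w - u') - 1) := by ring
    rw [h2]
    apply mem_slitPlane_of_norm_lt_one
    linarith
  have hgc : ContinuousOn (fun w => (w - u') - log (exp (w - u'))) s := by
    apply ContinuousOn.sub (by fun_prop)
    apply ContinuousOn.clog
    · fun_prop
    · exact hslit
  have hg1 : ∀ w ∈ s, exp ((w - u') - log (exp (w - u'))) = 1 := by
    intro w _
    rw [exp_sub, exp_log (exp_ne_zero _), div_self (exp_ne_zero _)]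
  have hg0 := s2_int_const hs hgc hg1 hu' (by simp) u hu
  have h1 : u - u' = log (1 + (exp (u - u') - 1)) := by
    have h2 : 1 + (exp (u - u') - 1) = exp (u - u') := by ring
    rw [h2]
    exact sub_eq_zero.1 hg0
  rw [h1]
  calc ‖log (1 + (exp (u - u') - 1))‖ ≤ 3 / 2 * ‖exp (u - u') - 1‖ :=
        norm_log_one_add_half_le_self ((hsmall u hu).trans hhalf)
    _ ≤ 3 / 2 * (Real.exp M * ε) := mul_le_mul_of_nonneg_left (hsmall u hu) (by norm_num)
    _ = 3 / 2 * Real.exp M * ε := by ring

theorem s2_h_conj (q : RQ) (z : ℂ) : q.h.eval (conj z) = conj (q.h.eval z) := by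
  rw [RQ.h, Polynomial.eval_map_algebraMap, Polynomial.eval_map_algebraMap]
  exact Polynomial.aeval_conj q.p z

theorem s2_fold_cases (w : ℂ) : w = fold w ∨ w = conj (fold w) := by
  unfold fold
  split_ifs
  · exact Or.inl rfl
  · right
    simp

theorem s2_iter_conj (q : RQ) (n : ℕ) (z : ℂ) :
    (fun z => q.h.eval z)^[n] (conj z) = conj ((fun z => q.h.eval z)^[n] z) := by
  induction n with
  | zero => rfl
  | succ n ih =>
    rw [Function.iterate_succ_apply', Function.iterate_succ_apply', ih]
    exact s2_h_conj q _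

/-- the iterates of `h` are the iterates of the folded map up to conjugation -/
theorem s2_iter (q : RQ) (n : ℕ) (z : ℂ) :
    (fun z => q.h.eval z)^[n] z = (fun z => fold (q.h.eval z))^[n] z ∨
      (fun z => q.h.eval z)^[n] z = conj ((fun z => fold (q.h.eval z))^[n] z) := by
  induction n with
  | zero => exact Or.inl rfl
  | succ n ih =>
    rw [Function.iterate_succ_apply', Function.iterate_succ_apply']
    rcases ih with h | h
    · rw [h]
      exact s2_fold_cases _
    · rw [h]
      show q.h.eval (conj _) = fold (q.h.eval _) ∨ q.h.eval (conj _) = conj (fold (q.h.eval _))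
      rw [s2_h_conj]
      rcases s2_fold_cases (q.h.eval ((fun z => fold (q.h.eval z))^[n] z)) with h2 | h2
      · right
        rw [← h2]
      · left
        rw [h2]
        simp only [conj_conj]
        rw [← h2]

theorem s2_iter_cont (q : RQ) (n : ℕ) : Continuous ((fun z => q.h.eval z)^[n]) := by
  apply Continuous.iterate
  exact q.h.continuous

/-- the folded iterates on a connected piece of the half plane are unfolded by a section -/
theorem unfold_sec (q : RQ) {P : Set ℂ} (hP : PC q.h P) (n : ℕ) {x0 : ℂ}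
    (hx0 : x0 ∈ HH) {r : ℝ} (hr0 : 0 < r) (hr : Disjoint (ball x0 r) P) {t : ℂ → ℂ}
    (ht : ContinuousOn t (ball x0 r ∩ HH)) (htm : MapsTo t (ball x0 r ∩ HH) HH)
    (hF : ∀ w ∈ ball x0 r ∩ HH, (fun z => fold (q.h.eval z))^[n] (t w) = w) :
    ∃ S, Sec q.h n (ball x0 r) S ∧
      ((∀ w ∈ ball x0 r ∩ HH, t w = S w) ∨ (∀ w ∈ ball x0 r ∩ HH, t w = conj (S w))) := by
  have hd : 2 ≤ q.h.natDegree := by
    have : q.h.natDegree = 4 := by
      rw [RQ.h, Polynomial.natDegree_map]
      exact q.deg
    omega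
  have hHHconv : Convex ℝ HH := by
    intro x hx y hy a b ha hb _
    have h1 : 0 ≤ x.im := hx
    have h2 : 0 ≤ y.im := hy
    show 0 ≤ (a • x + b • y).im
    simp only [add_im, real_smul, mul_im, ofReal_re, ofReal_im, zero_mul, add_zero]
    positivity
  have hIconv : Convex ℝ {w : ℂ | 0 < w.im} := convex_halfSpace_im_gt 0
  set V : Set ℂ := ball x0 r ∩ HH with hV
  set V0 : Set ℂ := ball x0 r ∩ {w : ℂ | 0 < w.im} with hV0
  have hVconn : IsPreconnected V := ((convex_ball x0 r).inter hHHconv).isPreconnected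
  have hV0conn : IsPreconnected V0 := ((convex_ball x0 r).inter hIconv).isPreconnected
  have hV0V : V0 ⊆ V := fun w hw => ⟨hw.1, le_of_lt (show 0 < w.im from hw.2)⟩
  have hVcl : V ⊆ closure V0 := by
    intro w hw
    have h1 : Tendsto (fun s : ℝ => w + s * I) (𝓝[>] 0) (𝓝 w) := by
      have : Tendsto (fun s : ℝ => w + s * I) (𝓝 0) (𝓝 (w + (0 : ℝ) * I)) := by
        have hc : Continuous (fun s : ℝ => w + s * I) := by fun_prop
        exact hc.tendsto 0
      simp only [ofReal_zero, zero_mul, add_zero] at this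
      exact this.mono_left nhdsWithin_le_nhds
    refine mem_closure_of_tendsto h1 ?_
    have h2 : ∀ᶠ s : ℝ in 𝓝[>] 0, w + s * I ∈ ball x0 r :=
      h1 (isOpen_ball.mem_nhds hw.1)
    filter_upwards [h2, self_mem_nhdsWithin] with s hs hs0
    have h3 : 0 ≤ w.im := hw.2
    have h4 : (0 : ℝ) < s := hs0
    refine ⟨hs, ?_⟩
    show 0 < (w + s * I).im
    simp only [add_im, mul_im, ofReal_re, I_im, ofReal_im, I_re, mul_one, mul_zero, add_zero]
    linarith
  have hx0V : x0 ∈ V := ⟨mem_ball_self hr0, hx0⟩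
  -- the iterate of `t`
  set k : ℂ → ℂ := fun w => (fun z => q.h.eval z)^[n] (t w) with hk
  have hkc : ContinuousOn k V := (s2_iter_cont q n).comp_continuousOn ht
  have hkv : ∀ w ∈ V, k w = w ∨ k w = conj w := by
    intro w hw
    have := s2_iter q n (t w)
    rw [hF w hw] at this
    exact this
  have hdich : (∀ w ∈ V0, k w = w) ∨ (∀ w ∈ V0, k w = conj w) := by
    by_contra hcon
    push Not at hcon
    obtain ⟨⟨a, ha, ha2⟩, ⟨b, hb, hb2⟩⟩ := hcon
    have ha3 : k a = conj a := (hkv a (hV0V ha)).resolve_left ha2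
    have hb3 : k b = b := (hkv b (hV0V hb)).resolve_right hb2
    have hc : ContinuousOn (fun w => (k w).im) V0 :=
      continuous_im.comp_continuousOn (hkc.mono hV0V)
    have h1 : (k a).im ≤ 0 := by
      rw [ha3]
      have : 0 < a.im := ha.2
      simp only [conj_im]
      linarith
    have h2 : 0 ≤ (k b).im := by
      rw [hb3]
      have : 0 < b.im := hb.2
      linarith
    obtain ⟨w, hw, hw2⟩ := hV0conn.intermediate_value ha hb hc ⟨h1, h2⟩
    have hw3 : 0 < w.im := hw.2
    have hw4 : (k w).im = 0 := hw2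
    rcases hkv w (hV0V hw) with h | h
    · rw [h] at hw4
      linarith
    · rw [h] at hw4
      simp only [conj_im] at hw4
      linarith
  rcases hdich with h | h
  · have hall : ∀ w ∈ V, k w = w := by
      have h1 : EqOn k (fun w => w) V0 := h
      exact h1.of_subset_closure hkc continuousOn_id hV0V hVcl
    obtain ⟨S, hS, hS0⟩ := exists_sec hd hP n hr (mem_ball_self hr0) (hall x0 hx0V)
    refine ⟨S, hS, Or.inl ?_⟩
    have hSV : Sec q.h n V S := ⟨hS.cont.mono inter_subset_left, fun w hw => hS.sec w hw.1⟩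
    have htV : Sec q.h n V t := ⟨ht, hall⟩
    exact sec_unique hd hP n hVconn (hr.mono_left inter_subset_left) htV hSV hx0V hS0.symm
  · have hall : ∀ w ∈ V, k w = conj w := by
      have h1 : EqOn k (fun w => conj w) V0 := h
      exact h1.of_subset_closure hkc continuous_conj.continuousOn hV0V hVcl
    have hall2 : ∀ w ∈ V, (fun z => q.h.eval z)^[n] (conj (t w)) = w := by
      intro w hw
      rw [s2_iter_conj]
      have := hall w hw
      show conj (k w) = w
      rw [this, conj_conj]
    obtain ⟨S, hS, hS0⟩ := exists_sec hd hP n hr (mem_ball_self hr0) (hall2 x0 hx0V)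
    refine ⟨S, hS, Or.inr ?_⟩
    have hSV : Sec q.h n V S := ⟨hS.cont.mono inter_subset_left, fun w hw => hS.sec w hw.1⟩
    have htV : Sec q.h n V (fun w => conj (t w)) :=
      ⟨continuous_conj.comp_continuousOn ht, hall2⟩
    intro w hw
    have := sec_unique hd hP n hVconn (hr.mono_left inter_subset_left) htV hSV hx0V hS0.symm w hw
    rw [← this]
    simp

end

end Pool.TU
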