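import Pool.Agent.Helper71.TU.A7

/-! # TU S4: equicontinuity at special points -/

open Complex Set Filter Topology Metric Polynomial ComplexConjugate Pool.Tuning

namespace Pool.TU

noncomputable section

theorem s4_exp_shift (u : ℂ) (k : ℤ) : exp (u + k * tpi) = exp u := by
  have h : u + (k : ℂ) * tpi = u + k * (2 * Real.pi * I) := by simp [tpi]
  rw [h, Complex.exp_periodic.int_mul k u]

theorem s4_mem_shift {Z : Set ℂ} {u : ℂ} (hu : u ∈ OO Z) (k : ℤ) : u + k * tpi ∈ OO Z := by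
  obtain ⟨h1, h2⟩ := hu
  refine ⟨?_, ?_⟩
  · have h3 : (u + (k : ℂ) * tpi).re = u.re := by simp [tpi]
    show (u + (k : ℂ) * tpi).re ≤ 0
    rw [h3]; exact h1
  · rw [s4_exp_shift]; exact h2

theorem s4_ap_shift {S : TS} {A : XS S} (B : Br S A) (l : Ltr) (m : ℤ) :
    ∃ l' : Ltr, ∀ v : ℂ, B.ap l (v + m * tpi) = B.ap l' v := by
  cases l with
  | P k =>
    refine ⟨Ltr.P (m + k), fun v => ?_⟩
    simp only [Br.ap]
    push_cast
    rw [show v + (m : ℂ) * tpi + k * tpi = v + (m + k) * tpi by ring]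
  | Q2 k =>
    refine ⟨Ltr.Q2 k, fun v => ?_⟩
    simp only [Br.ap]
    rw [s4_exp_shift]
  | Q4 k =>
    refine ⟨Ltr.Q4 k, fun v => ?_⟩
    simp only [Br.ap]
    rw [s4_exp_shift]

/-- the translation remark -/
theorem s4_ev_shift {S : TS} {A : XS S} (B : Br S A) (w : List Ltr) (k : ℤ) :
    ∃ (w' : List Ltr) (m : ℤ), ∀ u : ℂ, B.ev w (u + k * tpi) = B.ev w' u + m * tpi := by
  induction w with
  | nil => exact ⟨[], k, fun u => rfl⟩
  | cons l w ih =>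
    obtain ⟨w', m, h⟩ := ih
    obtain ⟨l', hl⟩ := s4_ap_shift B l m
    refine ⟨l' :: w', 0, fun u => ?_⟩
    simp only [Br.ev]
    rw [h u, hl]
    simp

theorem s4_ev_append {S : TS} {A : XS S} (B : Br S A) (w : List Ltr) (l : Ltr) (u : ℂ) :
    B.ev (w ++ [l]) u = B.ev w (B.ap l u) := by
  induction w with
  | nil => rfl
  | cons a w ih => simp only [List.cons_append, Br.ev, ih]

theorem s4_Φ_nat {S : TS} {A : XS S} (B : Br S A) {u : ℂ} (hu : u ∈ OO A.Xo) (n : ℕ) :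
    B.Φ (u + 2 * n * tpi) = B.Φ u + n * tpi := by
  induction n with
  | zero => simp
  | succ n ih =>
    have h1 : u + 2 * (n : ℂ) * tpi ∈ OO A.Xo := by
      have := s4_mem_shift hu (2 * n)
      push_cast at this
      exact this
    have h2 := B.Φ_shift h1
    push_cast
    rw [show u + 2 * ((n : ℂ) + 1) * tpi = u + 2 * (n : ℂ) * tpi + 2 * tpi by ring, h2, ih]
    ring

theorem s4_Φ_int {S : TS} {A : XS S} (B : Br S A) {u : ℂ} (hu : u ∈ OO A.Xo) (m : ℤ) :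
    B.Φ (u + 2 * m * tpi) = B.Φ u + m * tpi := by
  obtain ⟨n, hn | hn⟩ := m.eq_nat_or_neg
  · subst hn
    have := s4_Φ_nat B hu n
    push_cast
    exact this
  · subst hn
    have h1 : u + 2 * ((-(n : ℤ) : ℤ) : ℂ) * tpi ∈ OO A.Xo := by
      have := s4_mem_shift hu (2 * (-(n : ℤ)))
      push_cast at this ⊢
      exact this
    have h2 := s4_Φ_nat B h1 n
    push_cast at h2 ⊢
    rw [show u + 2 * (-(n : ℂ)) * tpi + 2 * (n : ℂ) * tpi = u by ring] at h2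
    rw [h2]; ring

/-- equicontinuity at the translates, uniformly in the translation -/
theorem EqAt.shift {S : TS} {A : XS S} {B : Br S A} {Z : Set ℂ} (hZ : ZS S A Z) {u0 : ℂ}
    (hu0 : u0 ∈ OO Z) (h : EqAt B Z u0) :
    ∀ η : ℝ, 0 < η → ∃ δ > 0, ∀ (k : ℤ) (w : List Ltr), ∀ u ∈ OO Z,
      ‖u - (u0 + k * tpi)‖ < δ → ‖B.ev w u - B.ev w (u0 + k * tpi)‖ ≤ η := by
  intro η hη
  obtain ⟨δ, hδ, hd⟩ := h η hη
  refine ⟨δ, hδ, fun k w u hu hn => ?_⟩
  obtain ⟨w', m, hw⟩ := s4_ev_shift B w k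
  have h1 : u + ((-k : ℤ) : ℂ) * tpi ∈ OO Z := s4_mem_shift hu (-k)
  have h2 : u = (u + ((-k : ℤ) : ℂ) * tpi) + k * tpi := by push_cast; ring
  have h3 := hd w' _ h1 (by
    have : u + ((-k : ℤ) : ℂ) * tpi - u0 = u - (u0 + k * tpi) := by push_cast; ring
    rw [this]; exact hn)
  rw [hw u0]
  conv_lhs => rw [h2]
  rw [hw]
  have h4 : B.ev w' (u + ((-k : ℤ) : ℂ) * tpi) + (m : ℂ) * tpi - (B.ev w' u0 + m * tpi) =
      B.ev w' (u + ((-k : ℤ) : ℂ) * tpi) - B.ev w' u0 := by ring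
  rw [h4]; exact h3

theorem s4_OO_sub {S : TS} {A : XS S} {Z : Set ℂ} (hZ : ZS S A Z) {u : ℂ} (hu : u ∈ OO Z) :
    u ∈ OO A.Xo := ⟨hu.1, fun h => hu.2 (hZ.Xo_sub h)⟩

theorem s4_exp_mem {u : ℂ} (hu : u ∈ UU) : exp u ∈ DD := by
  show exp u ∈ closedBall (0 : ℂ) 1
  rw [mem_closedBall, dist_zero_right, Complex.norm_exp]
  exact Real.exp_le_one_iff.mpr hu

/-- continuity within `OO Z` in epsilon form -/
theorem s4_cont {f : ℂ → ℂ} {T : Set ℂ} (hf : ContinuousOn f T) {a : ℂ} (ha : a ∈ T) {ε : ℝ}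
    (hε : 0 < ε) : ∃ δ > 0, ∀ u ∈ T, ‖u - a‖ < δ → ‖f u - f a‖ < ε := by
  obtain ⟨δ, hδ, h⟩ := Metric.continuousOn_iff.mp hf a ha ε hε
  refine ⟨δ, hδ, fun u hu hn => ?_⟩
  have := h u hu (by rw [dist_eq_norm]; exact hn)
  rwa [dist_eq_norm] at this

/-- the letters other than even translates of `Φ` near a point `u0` with equicontinuous images -/
theorem s4_step {S : TS} {A : XS S} (B : Br S A) {Z : Set ℂ} (hZ : ZS S A Z) {u0 : ℂ}
    (hu0 : u0 ∈ OO Z) (h1 : EqAt B Z (B.Φ (u0 + tpi)))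
    (h2 : EqAt B Z (B.g2 (exp u0))) (h4 : EqAt B Z (B.g4 (exp u0))) {η : ℝ} (hη : 0 < η) :
    ∃ δ > 0, ∀ u ∈ OO Z, ‖u - u0‖ < δ → ∀ (w : List Ltr) (m : ℤ),
      ‖B.ev w (B.Φ (u + tpi) + m * tpi) - B.ev w (B.Φ (u0 + tpi) + m * tpi)‖ ≤ η ∧
      ‖B.ev w (B.g2 (exp u) + m * tpi) - B.ev w (B.g2 (exp u0) + m * tpi)‖ ≤ η ∧
      ‖B.ev w (B.g4 (exp u) + m * tpi) - B.ev w (B.g4 (exp u0) + m * tpi)‖ ≤ η := by
  have e1 : ∀ u ∈ OO Z, u + tpi ∈ OO Z := by
    intro u hu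
    have := s4_mem_shift hu 1
    simpa using this
  have a1 : ∀ u ∈ OO Z, B.Φ (u + tpi) ∈ OO Z := by
    intro u hu
    have := B.ap_mem hZ.Xo_sub hZ.FZ (Ltr.P 1) hu
    simpa [Br.ap] using this
  have a2 : ∀ u ∈ OO Z, B.g2 (exp u) ∈ OO Z := by
    intro u hu
    have := B.ap_mem hZ.Xo_sub hZ.FZ (Ltr.Q2 0) hu
    simpa [Br.ap] using this
  have a4 : ∀ u ∈ OO Z, B.g4 (exp u) ∈ OO Z := by
    intro u hu
    have := B.ap_mem hZ.Xo_sub hZ.FZ (Ltr.Q4 0) hu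
    simpa [Br.ap] using this
  obtain ⟨d1, hd1, H1⟩ := EqAt.shift hZ (a1 u0 hu0) h1 η hη
  obtain ⟨d2, hd2, H2⟩ := EqAt.shift hZ (a2 u0 hu0) h2 η hη
  obtain ⟨d4, hd4, H4⟩ := EqAt.shift hZ (a4 u0 hu0) h4 η hη
  have c1 : ContinuousOn (fun u => B.Φ (u + tpi)) (OO Z) := by
    refine B.contΦ.comp (by fun_prop) ?_
    intro u hu
    exact s4_OO_sub hZ (e1 u hu)
  have c2 : ContinuousOn (fun u => B.g2 (exp u)) (OO Z) := by
    refine B.cont2.comp (by fun_prop) ?_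
    intro u hu
    exact s4_exp_mem hu.1
  have c4 : ContinuousOn (fun u => B.g4 (exp u)) (OO Z) := by
    refine B.cont4.comp (by fun_prop) ?_
    intro u hu
    exact s4_exp_mem hu.1
  obtain ⟨δ1, hδ1, K1⟩ := s4_cont c1 hu0 hd1
  obtain ⟨δ2, hδ2, K2⟩ := s4_cont c2 hu0 hd2
  obtain ⟨δ4, hδ4, K4⟩ := s4_cont c4 hu0 hd4
  refine ⟨min δ1 (min δ2 δ4), by positivity, fun u hu hn w m => ⟨?_, ?_, ?_⟩⟩
  · refine H1 m w _ (s4_mem_shift (a1 u hu) m) ?_
    have := K1 u hu (lt_of_lt_of_le hn (min_le_left _ _))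
    rw [show B.Φ (u + tpi) + (m : ℂ) * tpi - (B.Φ (u0 + tpi) + m * tpi) =
      B.Φ (u + tpi) - B.Φ (u0 + tpi) by ring]
    exact this
  · refine H2 m w _ (s4_mem_shift (a2 u hu) m) ?_
    have := K2 u hu (lt_of_lt_of_le hn ((min_le_right _ _).trans (min_le_left _ _)))
    rw [show B.g2 (exp u) + (m : ℂ) * tpi - (B.g2 (exp u0) + m * tpi) =
      B.g2 (exp u) - B.g2 (exp u0) by ring]
    exact this
  · refine H4 m w _ (s4_mem_shift (a4 u hu) m) ?_
    have := K4 u hu (lt_of_lt_of_le hn ((min_le_right _ _).trans (min_le_right _ _)))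
    rw [show B.g4 (exp u) + (m : ℂ) * tpi - (B.g4 (exp u0) + m * tpi) =
      B.g4 (exp u) - B.g4 (exp u0) by ring]
    exact this

/-- Equicontinuity at a point whose images under the branches are equicontinuity points. -/
theorem eqAt_of_letters {S : TS} {A : XS S} (B : Br S A) {Z : Set ℂ} (hZ : ZS S A Z) {u0 : ℂ}
    (hu0 : u0 ∈ OO Z) (h0 : EqAt B Z (B.Φ u0)) (h1 : EqAt B Z (B.Φ (u0 + tpi)))
    (h2 : EqAt B Z (B.g2 (exp u0))) (h4 : EqAt B Z (B.g4 (exp u0))) : EqAt B Z u0 := by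
  intro η hη
  have a0 : ∀ u ∈ OO Z, B.Φ u ∈ OO Z := by
    intro u hu
    have := B.ap_mem hZ.Xo_sub hZ.FZ (Ltr.P 0) hu
    simpa [Br.ap] using this
  obtain ⟨d0, hd0, H0⟩ := EqAt.shift hZ (a0 u0 hu0) h0 η hη
  have c0 : ContinuousOn B.Φ (OO Z) := B.contΦ.mono (fun u hu => s4_OO_sub hZ hu)
  obtain ⟨δ0, hδ0, K0⟩ := s4_cont c0 hu0 hd0
  obtain ⟨δ1, hδ1, K1⟩ := s4_step B hZ hu0 h1 h2 h4 hη
  refine ⟨min η (min δ0 δ1), by positivity, fun w u hu hn => ?_⟩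
  have hn0 : ‖u - u0‖ < η := lt_of_lt_of_le hn (min_le_left _ _)
  have hn1 : ‖u - u0‖ < δ0 := lt_of_lt_of_le hn ((min_le_right _ _).trans (min_le_left _ _))
  have hn2 : ‖u - u0‖ < δ1 := lt_of_lt_of_le hn ((min_le_right _ _).trans (min_le_right _ _))
  rcases List.eq_nil_or_concat w with hw | ⟨w', l, hw⟩
  · subst hw
    simp only [Br.ev]; exact hn0.le
  · rw [hw, List.concat_eq_append, s4_ev_append, s4_ev_append]
    cases l with
    | P k =>
      simp only [Br.ap]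
      rcases Int.even_or_odd' k with ⟨m, hm | hm⟩
      · rw [hm]
        push_cast
        rw [s4_Φ_int B (s4_OO_sub hZ hu), s4_Φ_int B (s4_OO_sub hZ hu0)]
        refine H0 m w' _ (s4_mem_shift (a0 u hu) m) ?_
        rw [show B.Φ u + (m : ℂ) * tpi - (B.Φ u0 + m * tpi) = B.Φ u - B.Φ u0 by ring]
        exact K0 u hu hn1
      · rw [hm]
        push_cast
        have e1 : ∀ u ∈ OO Z, u + tpi ∈ OO A.Xo := by
          intro u hu
          have := s4_mem_shift hu 1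
          exact s4_OO_sub hZ (by simpa using this)
        rw [show u + (2 * (m : ℂ) + 1) * tpi = u + tpi + 2 * m * tpi by ring,
          show u0 + (2 * (m : ℂ) + 1) * tpi = u0 + tpi + 2 * m * tpi by ring,
          s4_Φ_int B (e1 u hu), s4_Φ_int B (e1 u0 hu0)]
        exact (K1 u hu hn2 w' m).1
    | Q2 k => exact (K1 u hu hn2 w' k).2.1
    | Q4 k => exact (K1 u hu hn2 w' k).2.2

/-- Equicontinuity at a fixed point of `Φ`: the other branches lead to equicontinuity points,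
and the orbits of `Φ` stay close. -/
theorem eqAt_fixed {S : TS} {A : XS S} (B : Br S A) {Z : Set ℂ} (hZ : ZS S A Z) {u0 : ℂ}
    (hu0 : u0 ∈ OO Z) (hfix : B.Φ u0 = u0) (h1 : EqAt B Z (B.Φ (u0 + tpi)))
    (h2 : EqAt B Z (B.g2 (exp u0))) (h4 : EqAt B Z (B.g4 (exp u0)))
    (hst : ∀ η > 0, ∃ δ > 0, ∀ u ∈ OO Z, ‖u - u0‖ < δ → ∀ n : ℕ, ‖B.Φ^[n] u - u0‖ < η) :
    EqAt B Z u0 := by
  intro η hη
  have a0 : ∀ u ∈ OO Z, B.Φ u ∈ OO Z := by
    intro u hu
    have := B.ap_mem hZ.Xo_sub hZ.FZ (Ltr.P 0) hu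
    simpa [Br.ap] using this
  have an : ∀ n : ℕ, ∀ u ∈ OO Z, B.Φ^[n] u ∈ OO Z := by
    intro n
    induction n with
    | zero => intro u hu; exact hu
    | succ n ih =>
      intro u hu
      rw [Function.iterate_succ_apply']
      exact a0 _ (ih u hu)
  obtain ⟨δ1, hδ1, K1⟩ := s4_step B hZ hu0 h1 h2 h4 hη
  obtain ⟨δ, hδ, hs⟩ := hst (min η δ1) (by positivity)
  refine ⟨δ, hδ, fun w u hu hn => ?_⟩
  have e1 : ∀ u ∈ OO Z, u + tpi ∈ OO A.Xo := by
    intro u hu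
    have := s4_mem_shift hu 1
    exact s4_OO_sub hZ (by simpa using this)
  have key : ∀ (w : List Ltr) (n : ℕ) (m : ℤ),
      ‖B.ev w (B.Φ^[n] u + m * tpi) - B.ev w (u0 + m * tpi)‖ ≤ η := by
    intro w
    induction w using List.reverseRecOn with
    | nil =>
      intro n m
      simp only [Br.ev]
      rw [show B.Φ^[n] u + (m : ℂ) * tpi - (u0 + m * tpi) = B.Φ^[n] u - u0 by ring]
      exact (lt_of_lt_of_le (hs u hu hn n) (min_le_left _ _)).le
    | append_singleton w l ih =>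
      intro n m
      have hx : B.Φ^[n] u ∈ OO Z := an n u hu
      have hxn : ‖B.Φ^[n] u - u0‖ < δ1 := lt_of_lt_of_le (hs u hu hn n) (min_le_right _ _)
      rw [s4_ev_append, s4_ev_append]
      cases l with
      | P k =>
        simp only [Br.ap]
        rcases Int.even_or_odd' (m + k) with ⟨j, hj | hj⟩
        · have hj' : (m : ℂ) + k = 2 * j := by exact_mod_cast hj
          rw [show B.Φ^[n] u + (m : ℂ) * tpi + k * tpi = B.Φ^[n] u + 2 * j * tpi by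
              rw [← hj']; ring,
            show u0 + (m : ℂ) * tpi + k * tpi = u0 + 2 * j * tpi by rw [← hj']; ring,
            s4_Φ_int B (s4_OO_sub hZ hx), s4_Φ_int B (s4_OO_sub hZ hu0), hfix,
            ← Function.iterate_succ_apply' B.Φ n u]
          exact ih (n + 1) j
        · have hj' : (m : ℂ) + k = 2 * j + 1 := by exact_mod_cast hj
          rw [show B.Φ^[n] u + (m : ℂ) * tpi + k * tpi = B.Φ^[n] u + tpi + 2 * j * tpi by
              rw [show B.Φ^[n] u + (m : ℂ) * tpi + k * tpi = B.Φ^[n] u + (m + k) * tpi by ring,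
                hj']; ring,
            show u0 + (m : ℂ) * tpi + k * tpi = u0 + tpi + 2 * j * tpi by
              rw [show u0 + (m : ℂ) * tpi + k * tpi = u0 + (m + k) * tpi by ring, hj']; ring,
            s4_Φ_int B (e1 _ hx), s4_Φ_int B (e1 _ hu0)]
          exact (K1 _ hx hxn w j).1
      | Q2 k =>
        simp only [Br.ap]
        rw [s4_exp_shift, s4_exp_shift]
        exact (K1 _ hx hxn w k).2.1
      | Q4 k =>
        simp only [Br.ap]
        rw [s4_exp_shift, s4_exp_shift]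
        exact (K1 _ hx hxn w k).2.2
  have := key w 0 0
  simpa using this

end

end Pool.TU
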