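import Pool.Agent.Helper71.TU.T2
import Pool.Agent.Helper71.TU.H6
import Pool.Agent.Helper71.TU.A6

/-! # TU T10: the branches of the twist -/

open Complex Set Filter Topology Metric Polynomial ComplexConjugate Pool.Tuning

namespace Pool.TU

noncomputable section

private theorem t10_exp_tpi (k : ℤ) (u : ℂ) : exp (u + k * tpi) = exp u := by
  have h : (k : ℂ) * tpi = k * (2 * Real.pi * I) := rfl
  rw [h, Complex.exp_add, Complex.exp_int_mul_two_pi_mul_I, mul_one]

private theorem t10_tpi_re (k : ℤ) : ((k : ℂ) * tpi).re = 0 := by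
  simp [tpi]

private theorem t10_OO_shift {Z : Set ℂ} {u : ℂ} (hu : u ∈ OO Z) (k : ℤ) :
    u + k * tpi ∈ OO Z := by
  refine ⟨?_, ?_⟩
  · show (u + k * tpi).re ≤ 0
    rw [Complex.add_re, t10_tpi_re, add_zero]
    exact hu.1
  · rw [t10_exp_tpi]
    exact hu.2

private theorem t10_shift_nat {S : TS} {A : XS S} (B : Br S A) (n : ℕ) {u : ℂ}
    (hu : u ∈ OO A.Xo) : B.Φ (u + 2 * (n : ℂ) * tpi) = B.Φ u + n * tpi := by
  induction n with
  | zero => simp
  | succ n ih =>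
      have hm : u + 2 * (n : ℂ) * tpi ∈ OO A.Xo := by
        have := t10_OO_shift hu (2 * (n : ℤ))
        push_cast at this
        exact this
      have e : u + 2 * ((n + 1 : ℕ) : ℂ) * tpi = (u + 2 * (n : ℂ) * tpi) + 2 * tpi := by
        push_cast; ring
      rw [e, B.Φ_shift hm, ih]
      push_cast
      ring

private theorem t10_shift {S : TS} {A : XS S} (B : Br S A) (k : ℤ) {u : ℂ}
    (hu : u ∈ OO A.Xo) : B.Φ (u + 2 * (k : ℂ) * tpi) = B.Φ u + k * tpi := by
  obtain ⟨n, rfl | rfl⟩ := k.eq_nat_or_neg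
  · have := t10_shift_nat B n hu
    push_cast
    exact this
  · have hm : u + 2 * ((-(n : ℤ) : ℤ) : ℂ) * tpi ∈ OO A.Xo := by
      have := t10_OO_shift hu (2 * (-(n : ℤ)))
      push_cast at this ⊢
      exact this
    have h1 := t10_shift_nat B n hm
    have e : u + 2 * ((-(n : ℤ) : ℤ) : ℂ) * tpi + 2 * (n : ℂ) * tpi = u := by
      push_cast; ring
    rw [e] at h1
    rw [h1]
    push_cast
    ring

open Classical in
/-- the twisted lifted branch -/
private def t10Φ {S : TS} {A : XS S} {B : Br S A} (D : BD B) (tr : ℂ → ℂ) (u : ℂ) : ℂ :=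
  if exp (u / 2) ∈ D.Pp then D.c (tr (D.inv (exp u))) + (u - D.c (D.inv (exp u))) / 2
  else B.Φ u

open Classical in
/-- the twisted logarithm of the left tile -/
private def t10g {S : TS} {A : XS S} {B : Br S A} (D : BD B) (tl : ℂ → ℂ) (w : ℂ) : ℂ :=
  if w ∈ D.Bc then D.c (tl (D.inv w)) else B.g4 w

section

variable {S : TS} {A : XS S} {B : Br S A} {D : BD B} {tr tl : ℂ → ℂ} (R : Roots tr tl)

private theorem t10_sq (u : ℂ) : exp (u / 2) ^ 2 = exp u := by
  rw [← Complex.exp_nat_mul]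
  congr 1
  push_cast
  ring

private theorem t10_Pp {u : ℂ} (h : exp (u / 2) ∈ D.Pp) :
    ∃ ξ ∈ HD, exp (D.c ξ / 2) = exp (u / 2) ∧ exp u = exp (D.c ξ) ∧ D.inv (exp u) = ξ := by
  obtain ⟨ξ, hξ, he⟩ := h
  have he' : exp (D.c ξ / 2) = exp (u / 2) := he
  have h1 : exp u = exp (D.c ξ) := by
    rw [← t10_sq u, ← t10_sq (D.c ξ), he']
  exact ⟨ξ, hξ, he', h1, by rw [h1]; exact D.inv_exp hξ⟩

private theorem t10_mem_Bc {ξ : ℂ} (hξ : ξ ∈ HD) : exp (D.c ξ) ∈ D.Bc := ⟨ξ, hξ, rfl⟩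

private theorem t10_Bo_sub : D.Bo ⊆ D.Bc := by
  rintro _ ⟨t, ht, rfl⟩
  exact ⟨t, ⟨ht.1.le, ht.2⟩, rfl⟩

include R in
private theorem t10Φ_in {ξ : ℂ} (hξ : ξ ∈ HD) {u : ℂ} (he : exp (D.c ξ / 2) = exp (u / 2)) :
    t10Φ D tr u = D.c (tr ξ) + (u - D.c ξ) / 2 := by
  have _ := R
  have hmem : exp (u / 2) ∈ D.Pp := ⟨ξ, hξ, he⟩
  have h1 : exp u = exp (D.c ξ) := by
    rw [← t10_sq u, ← t10_sq (D.c ξ), he]
  unfold t10Φ
  rw [if_pos hmem, h1, D.inv_exp hξ]

/-- if `exp u` is not in the open basin nothing changes -/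
private theorem t10Φ_out (R : Roots tr tl) {u : ℂ} (_hu : u ∈ OO A.Xo) (h : exp u ∉ D.Bo) :
    t10Φ D tr u = B.Φ u := by
  by_cases hP : exp (u / 2) ∈ D.Pp
  · obtain ⟨ξ, hξ, he, h1, h2⟩ := t10_Pp hP
    rw [t10Φ_in R hξ he]
    have hn : ‖ξ‖ = 1 := by
      rw [h1, D.Bo_iff hξ] at h
      exact le_antisymm hξ.1 (not_lt.mp h)
    have h3 : sqf (tr ξ) = ξ := R.r_circ ξ hξ hn
    have h4 := D.feP (tr ξ) (R.mr hξ) (R.r_re ξ hξ)
    rw [h3] at h4
    obtain ⟨n, hn'⟩ := Complex.exp_eq_exp_iff_exists_int.mp he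
    have h5 : u = D.c ξ + 2 * ((-n : ℤ) : ℂ) * tpi := by
      have : tpi = 2 * Real.pi * I := rfl
      rw [this]
      push_cast
      linear_combination (-2) * hn'
    have h6 : D.c ξ ∈ OO A.Xo := D.maps hξ
    have h7 := t10_shift B (-n) h6
    rw [← h5] at h7
    rw [h7, ← h4]
    have h8 : (u - D.c ξ) / 2 = ((-n : ℤ) : ℂ) * tpi := by
      rw [h5]; ring
    rw [h8]
  · unfold t10Φ
    rw [if_neg hP]

private theorem t10Φ_cont (R : Roots tr tl) : ContinuousOn (t10Φ D tr) (OO A.Xo) := by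
  obtain ⟨O, hO, hBo⟩ := D.openo
  have hBo' : D.Bo = O ∩ DD := hBo
  set C1 : Set ℂ := {u | u ∈ OO A.Xo ∧ exp (u / 2) ∈ D.Pp} with hC1
  set C2 : Set ℂ := {u | u ∈ OO A.Xo ∧ (exp u ∉ O ∨ -exp (u / 2) ∈ D.Pp)} with hC2
  have hcov : OO A.Xo ⊆ C1 ∪ C2 := by
    intro u hu
    by_cases hP : exp (u / 2) ∈ D.Pp
    · exact Or.inl ⟨hu, hP⟩
    · right
      refine ⟨hu, ?_⟩
      by_cases hO' : exp u ∈ O
      · right
        have hDD : exp u ∈ DD := by
          have : ‖exp u‖ ≤ 1 := by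
            rw [Complex.norm_exp]
            exact Real.exp_le_one_iff.mpr hu.1
          simpa [DD] using this
        have h1 : exp u ∈ D.Bo := by rw [hBo']; exact ⟨hO', hDD⟩
        have h2 : exp (u / 2) ^ 2 ∈ D.Bc := by
          rw [t10_sq]; exact t10_Bo_sub h1
        exact (D.sheet h2).resolve_left hP
      · exact Or.inl hO'
  have hf1 : ContinuousOn (t10Φ D tr) C1 := by
    have h1 : ContinuousOn (fun u => D.c (tr (D.inv (exp u))) +
        (u - D.c (D.inv (exp u))) / 2) C1 := by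
      have hi : ContinuousOn (fun u => D.inv (exp u)) C1 := by
        refine D.inv_cont.comp Complex.continuous_exp.continuousOn ?_
        rintro u ⟨_, hP⟩
        obtain ⟨ξ, hξ, _, h1, _⟩ := t10_Pp hP
        rw [h1]
        exact t10_mem_Bc hξ
      have hi2 : MapsTo (fun u => D.inv (exp u)) C1 HD := by
        rintro u ⟨_, hP⟩
        obtain ⟨ξ, hξ, _, _, h2⟩ := t10_Pp hP
        show D.inv (exp u) ∈ HD
        rw [h2]
        exact hξ
      have h3 : ContinuousOn (fun u => D.c (tr (D.inv (exp u)))) C1 :=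
        D.cont.comp (R.cr.comp hi hi2) (fun u hu => R.mr (hi2 hu))
      have h4 : ContinuousOn (fun u => D.c (D.inv (exp u))) C1 := D.cont.comp hi hi2
      exact h3.add ((continuousOn_id.sub h4).div_const 2)
    refine h1.congr ?_
    rintro u ⟨_, hP⟩
    unfold t10Φ
    rw [if_pos hP]
  have hf2 : ContinuousOn (t10Φ D tr) C2 := by
    have h1 : ContinuousOn B.Φ C2 := B.contΦ.mono (fun u hu => hu.1)
    refine h1.congr ?_
    rintro u ⟨hu, h | h⟩
    · refine t10Φ_out R hu ?_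
      intro hb
      rw [hBo'] at hb
      exact h hb.1
    · have h2 : exp (u / 2) ∉ D.Pp := by
        have := D.sheet_disj h
        rwa [neg_neg] at this
      unfold t10Φ
      rw [if_neg h2]
  -- both pieces are relatively closed
  have hc1 : ∃ K, IsClosed K ∧ C1 = OO A.Xo ∩ K := by
    refine ⟨{u | exp (u / 2) ∈ D.Pp}, ?_, rfl⟩
    exact D.Pp_closed.preimage (by fun_prop)
  have hc2 : ∃ K, IsClosed K ∧ C2 = OO A.Xo ∩ K := by
    refine ⟨{u | exp u ∉ O ∨ -exp (u / 2) ∈ D.Pp}, ?_, rfl⟩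
    refine IsClosed.union ?_ ?_
    · exact (hO.preimage Complex.continuous_exp).isClosed_compl
    · exact D.Pp_closed.preimage (by fun_prop)
  obtain ⟨K1, hK1, e1⟩ := hc1
  obtain ⟨K2, hK2, e2⟩ := hc2
  intro u hu
  have key : ∀ (C K : Set ℂ), IsClosed K → C = OO A.Xo ∩ K → ContinuousOn (t10Φ D tr) C →
      ContinuousWithinAt (t10Φ D tr) C u := by
    intro C K hK hCK hf
    by_cases hu' : u ∈ C
    · exact hf u hu'
    · have hnc : u ∉ closure C := by
        intro hcl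
        have h1 : closure C ⊆ K := by
          rw [hCK]
          exact (closure_mono inter_subset_right).trans hK.closure_eq.subset
        apply hu'
        rw [hCK]
        exact ⟨hu, h1 hcl⟩
      have hbot : 𝓝[C] u = ⊥ := by
        rw [← notMem_closure_iff_nhdsWithin_eq_bot]
        exact hnc
      show Tendsto _ (𝓝[C] u) _
      rw [hbot]
      exact tendsto_bot
  have h1 := key C1 K1 hK1 e1 hf1
  have h2 := key C2 K2 hK2 e2 hf2
  exact (h1.union h2).mono hcov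

end

/-- the branches of the twist -/
theorem exists_br_twist {S : TS} (hκ : S.κ = S.ω₀) {A : XS S} {B : Br S A} {D : BD B}
    {tr tl : ℂ → ℂ} (R : Roots tr tl) {T : TS} (hT : TW0 D tr tl T) {A' : XS T}
    (hA : A'.Xo = A.Xo) : ∃ B' : Br T A',
      (∀ l, ∀ u ∈ OO A.Xo, exp u ∉ D.Bo → B'.ap l u = B.ap l u) ∧
      (∀ ζ ∈ HD, 0 ≤ ζ.re → D.c ζ = B'.ap (Ltr.P 0) (D.c (tau ζ))) ∧
      (∀ ζ ∈ HD, ζ.re ≤ 0 → D.c ζ = B'.ap (Ltr.Q4 0) (D.c (tau ζ))) := by
  have _ := hκ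
  obtain ⟨B'⟩ := exists_br T A'
  have hDDc : IsPreconnected DD := (convex_closedBall (0 : ℂ) 1).isPreconnected
  have h1DD : (1 : ℂ) ∈ DD := by simp [DD]
  have hexpDD : ∀ u ∈ UU, exp u ∈ DD := by
    intro u hu
    have : ‖exp u‖ ≤ 1 := by
      rw [Complex.norm_exp]
      exact Real.exp_le_one_iff.mpr hu
    simpa [DD] using this
  have h1Bc : (1 : ℂ) ∉ D.Bc := by
    rintro ⟨ξ, hξ, he⟩
    exact D.ne_one hξ he
  -- the exponential of the twisted branch
  have hexp : ∀ u ∈ OO A.Xo, exp (t10Φ D tr u) = T.Θ (exp (u / 2)) := by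
    intro u hu
    have hs : exp (u / 2) ∈ DD := hexpDD _ (by
      show (u / 2).re ≤ 0
      have h2 : (u / 2).re = u.re / 2 := by
        simp
      rw [h2]
      have := hu.1
      have h3 : u.re ≤ 0 := this
      linarith)
    by_cases hP : exp (u / 2) ∈ D.Pp
    · obtain ⟨ξ, hξ, he, h1, h2⟩ := t10_Pp hP
      rw [t10Φ_in R hξ he, Complex.exp_add, ← he, hT.Θ_in ξ hξ]
      have h3 : exp ((u - D.c ξ) / 2) = 1 := by
        have : (u - D.c ξ) / 2 = u / 2 - D.c ξ / 2 := by ring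
        rw [this, Complex.exp_sub, he, div_self (Complex.exp_ne_zero _)]
      rw [h3, mul_one]
    · have h1 : t10Φ D tr u = B.Φ u := by
        unfold t10Φ
        rw [if_neg hP]
      rw [h1, B.expΦ u hu]
      by_cases hB : exp u ∈ D.Bc
      · have h2 : exp (u / 2) ^ 2 ∈ D.Bc := by rw [t10_sq]; exact hB
        have h3 := (D.sheet h2).resolve_left hP
        obtain ⟨ξ, hξ, he⟩ := h3
        have he' : exp (D.c ξ / 2) = -exp (u / 2) := he
        have h4 : exp (u / 2) = -exp (D.c ξ / 2) := by rw [he', neg_neg]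
        rw [h4]
        exact (hT.Θ_neg ξ hξ).symm
      · have h2 : exp (u / 2) ^ 2 ∉ D.Bo := by
          rw [t10_sq]
          exact fun h => hB (t10_Bo_sub h)
        exact (hT.Θ_out _ hs h2).symm
  -- values over 1
  have hval : ∀ k : ℤ, (k : ℂ) * tpi ∈ OO A.Xo → B'.Φ (k * tpi) = t10Φ D tr (k * tpi) := by
    intro k hk
    have h1 : exp ((k : ℂ) * tpi) = 1 := by
      have := t10_exp_tpi k 0
      rwa [zero_add, Complex.exp_zero] at this
    rw [t10Φ_out R hk (by rw [h1]; exact fun h => h1Bc (t10_Bo_sub h))]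
    rcases Int.even_or_odd' k with ⟨m, hm | hm⟩
    · have e : (k : ℂ) * tpi = 2 * (m : ℂ) * tpi := by rw [hm]; push_cast; ring
      rw [e, B'.Φ_even m, B.Φ_even m]
    · have e : (k : ℂ) * tpi = (2 * (m : ℂ) + 1) * tpi := by rw [hm]; push_cast; ring
      rw [e, B'.Φ_odd m, B.Φ_odd m]
  -- the branch
  have hΦ : ∀ u ∈ OO A.Xo, B'.Φ u = t10Φ D tr u := by
    intro u hu
    have hu' : u ∈ OO A'.Xo := by rw [hA]; exact hu
    obtain ⟨s, hs, hsc, hus, k, hk⟩ := A'.cconn u hu'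
    have hs' : s ⊆ OO A.Xo := by rw [← hA]; exact hs
    refine log_unique hsc (B'.contΦ.mono hs) ((t10Φ_cont R).mono hs') ?_ hk
      (hval k (hs' hk)) u hus
    intro x hx
    rw [B'.expΦ x (hs hx), hexp x (hs' hx)]
  have hg2 : ∀ w ∈ DD, B'.g2 w = B.g2 w := by
    refine log_unique hDDc B'.cont2 B.cont2 ?_ h1DD (by rw [B'.one2, B.one2])
    intro w hw
    rw [B'.exp2 w hw, B.exp2 w hw, hT.G2_eq w hw]
  -- the left tile
  have hgin : ∀ ξ ∈ HD, t10g D tl (exp (D.c ξ)) = D.c (tl ξ) := by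
    intro ξ hξ
    unfold t10g
    rw [if_pos (t10_mem_Bc hξ), D.inv_exp hξ]
  have hgout : ∀ w ∈ DD, w ∉ D.Bo → t10g D tl w = B.g4 w := by
    intro w hw hb
    by_cases hB : w ∈ D.Bc
    · obtain ⟨ξ, hξ, he⟩ := hB
      have he' : exp (D.c ξ) = w := he
      subst he'
      rw [hgin ξ hξ]
      have hn : ‖ξ‖ = 1 := by
        rw [D.Bo_iff hξ] at hb
        exact le_antisymm hξ.1 (not_lt.mp hb)
      have h3 : sqf (tl ξ) = ξ := R.l_circ ξ hξ hn
      have h4 := D.feM (tl ξ) (R.ml hξ) (R.l_re ξ hξ)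
      rw [h3] at h4
      exact h4
    · unfold t10g
      rw [if_neg hB]
  have hgcont : ContinuousOn (t10g D tl) DD := by
    obtain ⟨O, hO, hBo⟩ := D.openo
    have hBo' : D.Bo = O ∩ DD := hBo
    have hcl2 : IsClosed (DD ∩ Oᶜ) := isClosed_closedBall.inter hO.isClosed_compl
    have h1 : ContinuousOn (t10g D tl) D.Bc := by
      have hi2 : MapsTo D.inv D.Bc HD := fun z hz => (D.inv_mem hz).1
      have h3 : ContinuousOn (fun w => D.c (tl (D.inv w))) D.Bc :=
        D.cont.comp (R.cl.comp D.inv_cont hi2) (fun u hu => R.ml (hi2 hu))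
      refine h3.congr ?_
      intro w hw
      unfold t10g
      rw [if_pos hw]
    have h2 : ContinuousOn (t10g D tl) (DD ∩ Oᶜ) := by
      refine (B.cont4.mono inter_subset_left).congr ?_
      intro w hw
      refine hgout w hw.1 ?_
      rw [hBo']
      exact fun h => hw.2 h.1
    have h3 := h1.union_of_isClosed h2 D.Bc_closed hcl2
    refine h3.mono ?_
    intro w hw
    by_cases hw' : w ∈ O
    · left
      exact t10_Bo_sub (by rw [hBo']; exact ⟨hw', hw⟩)
    · exact Or.inr ⟨hw, hw'⟩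
  have hgexp : ∀ w ∈ DD, exp (t10g D tl w) = T.G4 w := by
    intro w hw
    by_cases hB : w ∈ D.Bc
    · obtain ⟨ξ, hξ, he⟩ := hB
      have he' : exp (D.c ξ) = w := he
      subst he'
      rw [hgin ξ hξ, hT.G4_in ξ hξ]
    · have hb : w ∉ D.Bo := fun h => hB (t10_Bo_sub h)
      rw [hgout w hw hb, B.exp4 w hw, hT.G4_out w hw hb]
  have hg4 : ∀ w ∈ DD, B'.g4 w = t10g D tl w := by
    refine log_unique hDDc B'.cont4 hgcont ?_ h1DD ?_
    · intro w hw
      rw [B'.exp4 w hw, hgexp w hw]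
    · rw [B'.one4, hgout 1 h1DD (fun h => h1Bc (t10_Bo_sub h)), B.one4]
  refine ⟨B', ?_, ?_, ?_⟩
  · intro l u hu hb
    cases l with
    | P k =>
        show B'.Φ (u + k * tpi) = B.Φ (u + k * tpi)
        have h1 := t10_OO_shift hu k
        rw [hΦ _ h1]
        exact t10Φ_out R h1 (by rw [t10_exp_tpi]; exact hb)
    | Q2 k =>
        show B'.g2 (exp u) + k * tpi = B.g2 (exp u) + k * tpi
        rw [hg2 _ (hexpDD u hu.1)]
    | Q4 k =>
        show B'.g4 (exp u) + k * tpi = B.g4 (exp u) + k * tpi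
        rw [hg4 _ (hexpDD u hu.1), hgout _ (hexpDD u hu.1) hb]
  · intro ζ hζ hre
    show D.c ζ = B'.Φ (D.c (tau ζ) + ((0 : ℤ) : ℂ) * tpi)
    have h0 : D.c (tau ζ) + ((0 : ℤ) : ℂ) * tpi = D.c (tau ζ) := by simp
    have hτ := tau_maps hζ
    rw [h0, hΦ _ (D.maps hτ), t10Φ_in R hτ rfl, R.r_inv ζ hζ hre]
    ring
  · intro ζ hζ hre
    show D.c ζ = B'.g4 (exp (D.c (tau ζ))) + ((0 : ℤ) : ℂ) * tpi
    have hτ := tau_maps hζ
    rw [hg4 _ (D.mem_DD hτ), hgin _ hτ, R.l_inv ζ hζ hre]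
    simp

end

end Pool.TU
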