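import Pool.Agent.Helper71.TU.T1
import Pool.Agent.Helper71.TU.H6

/-! # TU T11: chart at infinity of the twist -/

open Complex Set Filter Topology Metric Polynomial ComplexConjugate Pool.Tuning

namespace Pool.TU

noncomputable section

private theorem t11_exp_mem {u : ℂ} (h : u ∈ UU) : exp u ∈ DD := by
  have h' : u.re ≤ 0 := h
  simp only [DD, mem_closedBall, dist_zero_right, norm_exp]
  exact Real.exp_le_one_iff.2 h'

private theorem t11_HB_mono {a b : ℝ} (h : a ≤ b) : HB a ⊆ HB b :=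
  fun _ ht => ⟨ht.1.trans h, ht.2⟩

private theorem t11_fold_norm (z : ℂ) : ‖fold z‖ = ‖z‖ := by
  unfold fold
  split_ifs
  · rfl
  · simp

private theorem t11_fold_im (z : ℂ) : 0 ≤ (fold z).im := by
  unfold fold
  split_ifs with h
  · exact h
  · simp only [conj_im]
    linarith [not_le.1 h]

private theorem t11_sq4 {δ : ℝ} (h0 : 0 ≤ δ) (h1 : δ ≤ 1) {t : ℂ} (ht : t ∈ HB δ) :
    sq4 t ∈ HB δ := by
  refine ⟨?_, t11_fold_im _⟩
  unfold sq4
  rw [t11_fold_norm, norm_neg, norm_pow]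
  have h2 : ‖t‖ ≤ δ := ht.1
  have h3 : ‖t‖ ^ 4 ≤ δ ^ 4 := pow_le_pow_left₀ (norm_nonneg _) h2 4
  have h4 : δ ^ 4 ≤ δ := by
    calc δ ^ 4 ≤ δ ^ 1 := pow_le_pow_of_le_one h0 h1 (by norm_num)
      _ = δ := pow_one δ
  exact h3.trans h4

/-- the Böttcher chart at infinity for the twist -/
theorem exists_nb_twist {S : TS} {A : XS S} {B : Br S A} {D : BD B} {T : TS} {A' : XS T}
    {B' : Br T A'} (hT : TW D T A' B') (h1 : (1 : ℂ) ∉ D.Bc) (C : NB S) : Nonempty (NB T) := by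
  have hBoBc : D.Bo ⊆ D.Bc := by
    rintro z ⟨t, ht, rfl⟩
    exact ⟨t, ⟨le_of_lt ht.1, ht.2⟩, rfl⟩
  -- choose the radius
  obtain ⟨δ1, hδ1, hδ1', hav⟩ : ∃ δ1 : ℝ, 0 < δ1 ∧ δ1 ≤ C.δ0 ∧
      ∀ t ∈ HB δ1, exp (C.c t) ∉ D.Bc := by
    have h0 : (0 : ℂ) ∈ HB C.δ0 := ⟨by simpa using C.pos.le, by simp⟩
    have hc : ContinuousWithinAt (fun t => exp (C.c t)) (HB C.δ0) 0 :=
      (continuous_exp.comp_continuousOn C.cont) 0 h0
    have hop : D.Bcᶜ ∈ 𝓝 (exp (C.c 0)) := by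
      refine D.Bc_closed.isOpen_compl.mem_nhds ?_
      rw [C.zero, exp_zero]
      exact h1
    have h2 : ∀ᶠ t in 𝓝[HB C.δ0] 0, exp (C.c t) ∈ D.Bcᶜ := hc hop
    rw [eventually_nhdsWithin_iff, Metric.eventually_nhds_iff] at h2
    obtain ⟨ε, hε, h3⟩ := h2
    refine ⟨min (ε / 2) C.δ0, lt_min (by linarith) C.pos, min_le_right _ _, ?_⟩
    intro t ht
    refine h3 ?_ (t11_HB_mono (min_le_right _ _) ht)
    have : ‖t‖ ≤ ε / 2 := ht.1.trans (min_le_left _ _)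
    simp only [dist_zero_right]
    linarith
  have hlt : δ1 < 1 := lt_of_le_of_lt hδ1' C.lt
  have hmono : HB δ1 ⊆ HB C.δ0 := t11_HB_mono hδ1'
  have hU : ∀ t ∈ HB δ1, C.c t ∈ UU := fun t ht => C.maps (hmono ht)
  have hDD : ∀ t ∈ HB δ1, exp (C.c t) ∈ DD := fun t ht => t11_exp_mem (hU t ht)
  have hsq : ∀ t ∈ HB δ1, sq4 t ∈ HB δ1 := fun t ht => t11_sq4 hδ1.le hlt.le ht
  have hBo : ∀ t ∈ HB δ1, exp (C.c t) ∉ D.Bo := fun t ht h => hav t ht (hBoBc h)
  have hhalf : ∀ t ∈ HB δ1, exp (C.c (sq4 t) / 2) ∈ DD := by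
    intro t ht
    refine t11_exp_mem ?_
    have : (C.c (sq4 t)).re ≤ 0 := hU _ (hsq t ht)
    show (C.c (sq4 t) / 2).re ≤ 0
    have h2 : (C.c (sq4 t) / 2).re = (C.c (sq4 t)).re / 2 := by
      simp
    rw [h2]; linarith
  have hsqr : ∀ t : ℂ, exp (C.c (sq4 t) / 2) ^ 2 = exp (C.c (sq4 t)) := by
    intro t
    rw [← exp_nat_mul]
    congr 1
    push_cast
    ring
  refine ⟨{
    δ0 := δ1
    c := C.c
    pos := hδ1
    lt := hlt
    cont := C.cont.mono hmono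
    zero := C.zero
    maps := fun t ht => C.maps (hmono ht)
    im_lt := fun t ht => C.im_lt t (hmono ht)
    inj := C.inj.mono hmono
    real := fun t ht => C.real t (hmono ht)
    realpos := fun x hx hx' => C.realpos x hx (hx'.trans hδ1')
    realneg := fun x hx hx' => C.realneg x hx ((neg_le_neg hδ1').trans hx')
    openo := fun δ hδ hδ' => C.openo δ hδ (hδ'.trans_le hδ1')
    conj4 := ?_
    s1 := ?_
    s2 := ?_
    s3 := ?_
    s4 := ?_
    level := ?_ }⟩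
  · intro t ht
    rw [hT.F_out _ (hDD t ht) (hBo t ht), C.conj4 t (hmono ht)]
  · intro t ht hr
    rw [C.s1 t (hmono ht) hr]
    refine (hT.Θ_out _ ?_ ?_).symm
    · have := hhalf t ht
      simp only [DD, mem_closedBall, dist_zero_right, norm_neg] at this ⊢
      exact this
    · rw [neg_sq, hsqr]
      exact hBo _ (hsq t ht)
  · intro t ht hr hr'
    rw [C.s2 t (hmono ht) hr hr']
    exact (hT.G2_eq _ (hDD _ (hsq t ht))).symm
  · intro t ht hr hr'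
    rw [C.s3 t (hmono ht) hr hr']
    refine (hT.Θ_out _ (hhalf t ht) ?_).symm
    rw [hsqr]
    exact hBo _ (hsq t ht)
  · intro t ht hr
    rw [C.s4 t (hmono ht) hr]
    exact (hT.G4_out _ (hDD _ (hsq t ht)) (hBo _ (hsq t ht))).symm
  · intro δ hδ hδ' z hz t ht hzt
    have hδ1lt : δ ≤ 1 := (hδ'.le.trans hlt.le)
    have ht1 : t ∈ HB δ1 := by
      refine t11_HB_mono ?_ ht
      have h4 : δ ^ 4 ≤ δ := by
        calc δ ^ 4 ≤ δ ^ 1 := pow_le_pow_of_le_one hδ.le hδ1lt (by norm_num)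
          _ = δ := pow_one δ
      exact h4.trans hδ'.le
    have hzBo : z ∉ D.Bo := by
      rintro ⟨ζ, hζ, rfl⟩
      have hζ' : ζ ∈ HD := ⟨le_of_lt hζ.1, hζ.2⟩
      have h3 : T.F (exp (D.c ζ)) = exp (D.c (tau ζ)) := hT.F_in ζ hζ'
      simp only at hzt
      rw [h3] at hzt
      refine hav t ht1 ?_
      rw [← hzt]
      exact ⟨tau ζ, tau_maps hζ', rfl⟩
    rw [hT.F_out z hz hzBo] at hzt
    exact C.level δ hδ (hδ'.trans_le hδ1') z hz t ht hzt

end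

end Pool.TU
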