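import Pool.Agent.Helper71.TU.T1

/-! # TU T9: the rigid set of the twist -/

open Complex Set Filter Topology Metric Polynomial ComplexConjugate Pool.Tuning

namespace Pool.TU

noncomputable section

theorem exists_xs_twist {S : TS} {A : XS S} {B : Br S A} {D : BD B}
    {tr tl : ℂ → ℂ} (R : Roots tr tl) {T : TS} (hT : TW0 D tr tl T) (hX : Disjoint A.X D.Bo) :
    ∃ A' : XS T, A'.X = A.X ∧ A'.Xo = A.Xo ∧ A'.idx = A.idx ∧ A'.e = A.e := by
  have hout : ∀ z ∈ A.X, z ∉ D.Bo := fun z hz h => Set.disjoint_left.1 hX hz h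
  have hF : ∀ z ∈ A.X, T.F z = S.F z := fun z hz => hT.F_out z (A.subX hz) (hout z hz)
  have hΘ : ∀ s ∈ DD, s ^ 2 ∈ A.X → T.Θ s = S.Θ s := fun s hs hs2 =>
    hT.Θ_out s hs (hout _ hs2)
  refine ⟨{ X := A.X
            Xo := A.Xo
            closedX := A.closedX
            subX := A.subX
            Xo_sub := A.Xo_sub
            Xo_open := A.Xo_open
            zero_mem := A.zero_mem
            one_nmem := A.one_nmem
            FX := ?_
            FXo := ?_
            notG2 := ?_
            notG4 := ?_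
            inj := ?_
            nzF := ?_
            logext := A.logext
            cconn := A.cconn
            idx := A.idx
            e := A.e
            idx_cont := A.idx_cont
            idx_val := A.idx_val
            path := ?_ }, rfl, rfl, rfl, rfl⟩
  · intro z hz
    rw [hF z hz]
    exact A.FX hz
  · intro z hz
    rw [hF z (A.Xo_sub hz)]
    exact A.FXo hz
  · intro w hw
    rw [hT.G2_eq w hw]
    exact A.notG2 w hw
  · intro w hw
    by_cases hB : w ∈ D.Bo
    · obtain ⟨ξ, hξ, rfl⟩ := hB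
      have hξ1 : ‖ξ‖ < 1 := hξ.1
      have hξD : ξ ∈ HD := ⟨hξ1.le, hξ.2⟩
      intro hmem
      have h1 : T.G4 (exp (D.c ξ)) = exp (D.c (tl ξ)) := hT.G4_in ξ hξD
      have h2 : tl ξ ∈ HD := R.ml hξD
      have h3 : ‖tl ξ‖ < 1 := (R.l_norm ξ hξD).2 hξ1
      have h4 : exp (D.c (tl ξ)) ∈ D.Bo := ⟨tl ξ, ⟨h3, h2.2⟩, rfl⟩
      apply hout _ hmem
      show T.G4 (exp (D.c ξ)) ∈ D.Bo
      rw [h1]
      exact h4
    · rw [hT.G4_out w hw hB]
      exact A.notG4 w hw
  · intro z hz z' hz' h
    rw [hF z hz, hF z' hz'] at h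
    exact A.inj hz hz' h
  · intro z hz
    rw [hF z hz]
    exact A.nzF z hz
  · intro s hs hs2 hne
    rw [hΘ s hs hs2] at hne
    obtain ⟨γ, h1, h2, h3, h4⟩ := A.path s hs hs2 hne
    refine ⟨γ, h1, h2, ?_, h4⟩
    intro t ht
    obtain ⟨h5, h6, h7⟩ := h3 t ht
    refine ⟨h5, h6, ?_⟩
    rw [hΘ _ h5 h6]
    exact h7

/-- a disc chart of the rigid set is a disc chart for the twist -/
theorem DC.twist {S : TS} {A : XS S} {B : Br S A} {D : BD B} {T : TS} {A' : XS T}
    {B' : Br T A'} (hT : TW D T A' B') (hX : Disjoint A.X D.Bo) (C : DC A) :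
    ∃ C' : DC A', C'.R = C.R ∧ C'.μ = C.μ ∧ C'.τ = C.τ := by
  have hout : ∀ z ∈ A.X, z ∉ D.Bo := fun z hz h => Set.disjoint_left.1 hX hz h
  have hF : ∀ z ∈ A.X, T.F z = S.F z := fun z hz => hT.F_out z (A.subX hz) (hout z hz)
  refine ⟨{ τ := C.τ
            ε := C.ε
            R := C.R
            μ := C.μ
            rh := C.rh
            hR := C.hR
            μ0 := C.μ0
            μ1 := C.μ1
            contε := C.contε
            τ_eq := C.τ_eq
            inj := C.inj
            img := ?_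
            imgo := ?_
            lin := ?_
            ret := ?_
            e0 := ?_
            idx0 := ?_
            circ := ?_ }, rfl, rfl, rfl⟩
  · rw [hT.X_eq]
    exact C.img
  · rw [hT.Xo_eq]
    exact C.imgo
  · intro ζ hζ
    have h1 : C.τ ζ ∈ A.X := by
      rw [← C.img]
      exact mem_image_of_mem _ hζ
    rw [hF _ h1]
    exact C.lin ζ hζ
  · rw [hT.Xo_eq]
    exact C.ret
  · rw [hT.e_eq]
    exact C.e0
  · intro u
    rw [hT.idx_eq]
    exact C.idx0 u
  · intro z hz
    rw [hT.X_eq] at hz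
    exact C.circ z hz

end

end Pool.TU
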