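import Pool.Agent.Helper71.TU.T8
import Pool.Agent.Helper71.TU.T9
import Pool.Agent.Helper71.TU.T10

/-! # TU T13: assembly of the twist -/

open Complex Set Filter Topology Metric Polynomial ComplexConjugate Pool.Tuning

namespace Pool.TU

noncomputable section

/-- The twisted tile system exists. -/
theorem exists_twist {S : TS} (hκ : S.κ = S.ω₀) {A : XS S} {B : Br S A} (D : BD B)
    (hX : Disjoint A.X D.Bo) : ∃ (T : TS) (A' : XS T) (B' : Br T A'), TW D T A' B' := by
  obtain ⟨tr, tl, R⟩ := exists_roots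
  obtain ⟨T, hT⟩ := exists_tw0 hκ D R
  obtain ⟨A', h1, h2, h3, h4⟩ := exists_xs_twist R hT hX
  obtain ⟨B', h5, h6, h7⟩ := exists_br_twist hκ R hT h2
  exact ⟨T, A', B', hT.κ_eq, hT.ω_eq, hT.beta, hT.F_in, hT.F_out, hT.Θ_out, hT.G2_eq,
    hT.G4_out, h1, h2, h3, h4, h5, h6, h7⟩

end

end Pool.TU
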