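import Pool.Agent.Helper71.TU.T2
import Pool.Agent.Helper71.TU.H6

/-! # TU T3: the twisted map -/

open Complex Set Filter Topology Metric Polynomial ComplexConjugate Pool.Tuning

namespace Pool.TU

noncomputable section

variable {S : TS} {A : XS S} {B : Br S A} (D : BD B)

theorem t3_mem_Bc {ζ : ℂ} (hζ : ζ ∈ HD) : exp (D.c ζ) ∈ D.Bc := ⟨ζ, hζ, rfl⟩

theorem BD.tF_in {ζ : ℂ} (hζ : ζ ∈ HD) : D.tF (exp (D.c ζ)) = exp (D.c (tau ζ)) := by
  unfold BD.tF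
  rw [if_pos (t3_mem_Bc D hζ), D.inv_exp hζ]

/-- points of `Bc` outside `Bo` -/
theorem t3_norm {ζ : ℂ} (hζ : ζ ∈ HD) (h : exp (D.c ζ) ∉ D.Bo) : ‖ζ‖ = 1 := by
  rw [D.Bo_iff hζ] at h
  exact le_antisymm hζ.1 (not_lt.mp h)

theorem BD.tF_out {z : ℂ} (hz : z ∈ DD) (h : z ∉ D.Bo) : D.tF z = S.F z := by
  by_cases hc : z ∈ D.Bc
  · obtain ⟨ζ, hζ, rfl⟩ := hc
    have h1 : ‖ζ‖ = 1 := t3_norm D hζ h
    show D.tF (exp (D.c ζ)) = S.F (exp (D.c ζ))
    rw [D.tF_in hζ, D.F_eq hζ, tau_circle hζ h1]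
  · unfold BD.tF
    rw [if_neg hc]

theorem t3_Bc_sub : D.Bc ⊆ DD := by
  rintro z ⟨ζ, hζ, rfl⟩
  exact D.mem_DD hζ

theorem t3_Bo_sub : D.Bo ⊆ D.Bc := by
  rintro z ⟨ζ, hζ, rfl⟩
  exact ⟨ζ, ⟨hζ.1.le, hζ.2⟩, rfl⟩

theorem t3_out_closed : IsClosed (DD \ D.Bo) := by
  obtain ⟨O, hO, hO2⟩ := D.openo
  have h : DD \ D.Bo = DD ∩ Oᶜ := by
    have h2 : D.Bo = O ∩ DD := hO2
    rw [h2]
    ext z
    constructor
    · rintro ⟨h3, h4⟩
      exact ⟨h3, fun h5 => h4 ⟨h5, h3⟩⟩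
    · rintro ⟨h3, h4⟩
      exact ⟨h3, fun h5 => h4 h5.1⟩
  rw [h]
  exact isClosed_closedBall.inter hO.isClosed_compl

theorem t3_union : DD = D.Bc ∪ (DD \ D.Bo) := by
  ext z
  constructor
  · intro hz
    by_cases h : z ∈ D.Bc
    · exact Or.inl h
    · exact Or.inr ⟨hz, fun h2 => h (t3_Bo_sub D h2)⟩
  · rintro (h | h)
    · exact t3_Bc_sub D h
    · exact h.1

theorem BD.tF_cont : ContinuousOn D.tF DD := by
  rw [t3_union D]
  apply ContinuousOn.union_of_isClosed _ _ D.Bc_closed (t3_out_closed D)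
  · have h1 : ContinuousOn (fun z => exp (D.c (tau (D.inv z)))) D.Bc := by
      apply Complex.continuous_exp.comp_continuousOn
      exact (D.cont.comp (tau_cont.comp D.inv_cont (fun z hz => (D.inv_mem hz).1))
        (fun z hz => tau_maps (D.inv_mem hz).1))
    refine h1.congr ?_
    intro z hz
    show D.tF z = exp (D.c (tau (D.inv z)))
    unfold BD.tF
    rw [if_pos hz]
  · refine (S.contF.mono sdiff_subset).congr ?_
    intro z hz
    exact D.tF_out hz.1 hz.2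

theorem BD.tF_maps : MapsTo D.tF DD DD := by
  intro z hz
  unfold BD.tF
  split_ifs with h
  · exact D.mem_DD (tau_maps (D.inv_mem h).1)
  · exact S.mapsF hz

end

end Pool.TU
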