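import Pool.Agent.Helper71.TU.T3

/-! # TU T4: the twisted critical tile -/

open Complex Set Filter Topology Metric Polynomial ComplexConjugate Pool.Tuning

namespace Pool.TU

noncomputable section

variable {S : TS} {A : XS S} {B : Br S A} (D : BD B)

theorem t4_mem_Pp {ξ : ℂ} (hξ : ξ ∈ HD) : exp (D.c ξ / 2) ∈ D.Pp := ⟨ξ, hξ, rfl⟩

theorem t4_Pp_sub : D.Pp ⊆ DD := by
  rintro s ⟨ξ, hξ, rfl⟩
  exact a2_exp_mem (a2_half_mem (D.maps hξ).1)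

theorem t4_Pp_sq {s : ℂ} (hs : s ∈ D.Pp) : s ^ 2 ∈ D.Bc := by
  obtain ⟨ξ, hξ, rfl⟩ := hs
  show exp (D.c ξ / 2) ^ 2 ∈ D.Bc
  rw [a2_exp_half_sq]
  exact ⟨ξ, hξ, rfl⟩

variable {tr tl : ℂ → ℂ} (R : Roots tr tl)

include R

theorem BD.tΘ_in {ξ : ℂ} (hξ : ξ ∈ HD) : D.tΘ tr (exp (D.c ξ / 2)) = exp (D.c (tr ξ)) := by
  unfold BD.tΘ
  rw [if_pos (t4_mem_Pp D hξ), a2_exp_half_sq, D.inv_exp hξ]

theorem BD.tΘ_neg {ξ : ℂ} (hξ : ξ ∈ HD) :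
    D.tΘ tr (-exp (D.c ξ / 2)) = S.Θ (-exp (D.c ξ / 2)) := by
  unfold BD.tΘ
  rw [if_neg (D.sheet_disj (t4_mem_Pp D hξ))]

theorem BD.tΘ_out {s : ℂ} (hs : s ∈ DD) (h : s ^ 2 ∉ D.Bo) : D.tΘ tr s = S.Θ s := by
  by_cases hp : s ∈ D.Pp
  · obtain ⟨ξ, hξ, rfl⟩ := hp
    have h2 : exp (D.c ξ / 2) ^ 2 ∉ D.Bo := h
    rw [a2_exp_half_sq] at h2
    have h1 : ‖ξ‖ = 1 := t3_norm D hξ h2
    show D.tΘ tr (exp (D.c ξ / 2)) = S.Θ (exp (D.c ξ / 2))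
    rw [D.tΘ_in R hξ, D.Θ_eq (R.mr hξ) (R.r_re ξ hξ), R.r_circ ξ hξ h1]
  · unfold BD.tΘ
    rw [if_neg hp]

theorem BD.tΘ_cont : ContinuousOn (D.tΘ tr) DD := by
  have hK1 : IsClosed {s : ℂ | s ∈ DD ∧ s ^ 2 ∈ DD \ D.Bo} := by
    have h1 : {s : ℂ | s ∈ DD ∧ s ^ 2 ∈ DD \ D.Bo} = DD ∩ (fun s : ℂ => s ^ 2) ⁻¹' (DD \ D.Bo) := rfl
    rw [h1]
    exact isClosed_closedBall.inter ((t3_out_closed D).preimage (continuous_pow 2))
  have hK2 : IsClosed {s : ℂ | -s ∈ D.Pp} := by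
    have h1 : {s : ℂ | -s ∈ D.Pp} = (fun s : ℂ => -s) ⁻¹' D.Pp := rfl
    rw [h1]
    exact D.Pp_closed.preimage continuous_neg
  have hun : DD ⊆ D.Pp ∪ ({s : ℂ | s ∈ DD ∧ s ^ 2 ∈ DD \ D.Bo} ∪ {s : ℂ | -s ∈ D.Pp}) := by
    intro s hs
    by_cases h : s ^ 2 ∈ D.Bo
    · rcases D.sheet (t3_Bo_sub D h) with h2 | h2
      · exact Or.inl h2
      · exact Or.inr (Or.inr h2)
    · refine Or.inr (Or.inl ⟨hs, ?_, h⟩)
      have h1 : ‖s‖ ≤ 1 := by simpa [DD] using hs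
      show s ^ 2 ∈ closedBall (0 : ℂ) 1
      rw [mem_closedBall_zero_iff, norm_pow]
      exact pow_le_one₀ (norm_nonneg s) h1
  refine ContinuousOn.mono ?_ hun
  apply ContinuousOn.union_of_isClosed _ _ D.Pp_closed (hK1.union hK2)
  · have h1 : ContinuousOn (fun s : ℂ => exp (D.c (tr (D.inv (s ^ 2))))) D.Pp := by
      apply Complex.continuous_exp.comp_continuousOn
      have h2 : ContinuousOn (fun s : ℂ => D.inv (s ^ 2)) D.Pp :=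
        D.inv_cont.comp (continuous_pow 2).continuousOn (fun s hs => t4_Pp_sq D hs)
      have h3 : ContinuousOn (fun s : ℂ => tr (D.inv (s ^ 2))) D.Pp :=
        R.cr.comp h2 (fun s hs => (D.inv_mem (t4_Pp_sq D hs)).1)
      exact D.cont.comp h3 (fun s hs => R.mr (D.inv_mem (t4_Pp_sq D hs)).1)
    refine h1.congr ?_
    intro s hs
    show D.tΘ tr s = _
    unfold BD.tΘ
    rw [if_pos hs]
  · apply ContinuousOn.union_of_isClosed _ _ hK1 hK2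
    · refine (S.contΘ.mono (fun s hs => hs.1)).congr ?_
      intro s hs
      exact D.tΘ_out R hs.1 hs.2.2
    · have hsub : {s : ℂ | -s ∈ D.Pp} ⊆ DD := by
        intro s hs
        have h1 := t4_Pp_sub D hs
        have h2 : ‖-s‖ ≤ 1 := by simpa [DD] using h1
        rw [norm_neg] at h2
        simpa [DD] using h2
      refine (S.contΘ.mono hsub).congr ?_
      intro s hs
      show D.tΘ tr s = _
      unfold BD.tΘ
      have h1 := D.sheet_disj hs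
      rw [neg_neg] at h1
      rw [if_neg h1]

theorem BD.tΘ_maps : MapsTo (D.tΘ tr) DD DD := by
  intro s hs
  unfold BD.tΘ
  split_ifs with h
  · exact D.mem_DD (R.mr (D.inv_mem (t4_Pp_sq D h)).1)
  · exact S.mapsΘ hs

theorem BD.tΘ_F : ∀ s ∈ DD, D.tF (D.tΘ tr s) = s ^ 2 := by
  intro s hs
  by_cases hp : s ∈ D.Pp
  · obtain ⟨ξ, hξ, rfl⟩ := hp
    show D.tF (D.tΘ tr (exp (D.c ξ / 2))) = exp (D.c ξ / 2) ^ 2
    rw [D.tΘ_in R hξ, D.tF_in (R.mr hξ), R.r_tau ξ hξ, a2_exp_half_sq]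
  · have h1 : D.tΘ tr s = S.Θ s := by
      unfold BD.tΘ
      rw [if_neg hp]
    have h2 : S.Θ s ∉ D.Bc := fun h => hp (D.of_Θ hs h)
    rw [h1]
    unfold BD.tF
    rw [if_neg h2, S.FΘ s hs]

theorem BD.tΘ_inj : ∀ s ∈ DD, ∀ s' ∈ DD, D.tΘ tr s = D.tΘ tr s' →
    s = s' ∨ (s = 1 ∧ s' = -1) ∨ (s = -1 ∧ s' = 1) := by
  intro s hs s' hs' h
  have hin : ∀ t ∈ D.Pp, D.tΘ tr t ∈ D.Bc := by
    rintro t ⟨ξ, hξ, rfl⟩
    show D.tΘ tr (exp (D.c ξ / 2)) ∈ D.Bc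
    rw [D.tΘ_in R hξ]
    exact t3_mem_Bc D (R.mr hξ)
  have hout : ∀ t ∈ DD, t ∉ D.Pp → D.tΘ tr t = S.Θ t := by
    intro t _ ht2
    unfold BD.tΘ
    rw [if_neg ht2]
  have hnot : ∀ t ∈ DD, t ∉ D.Pp → D.tΘ tr t ∉ D.Bc := by
    intro t ht ht2 h3
    rw [hout t ht ht2] at h3
    exact ht2 (D.of_Θ ht h3)
  by_cases hp : s ∈ D.Pp
  · by_cases hp' : s' ∈ D.Pp
    · left
      obtain ⟨ξ, hξ, rfl⟩ := hp
      obtain ⟨ξ', hξ', rfl⟩ := hp'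
      have h1 : D.tΘ tr (exp (D.c ξ / 2)) = D.tΘ tr (exp (D.c ξ' / 2)) := h
      rw [D.tΘ_in R hξ, D.tΘ_in R hξ'] at h1
      have h2 := D.inj (R.mr hξ) (R.mr hξ') h1
      have h3 : ξ = ξ' := by
        rw [← R.r_tau ξ hξ, ← R.r_tau ξ' hξ', h2]
      rw [h3]
    · exfalso
      apply hnot s' hs' hp'
      rw [← h]
      exact hin s hp
  · by_cases hp' : s' ∈ D.Pp
    · exfalso
      apply hnot s hs hp
      rw [h]
      exact hin s' hp'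
    · rw [hout s hs hp, hout s' hs' hp'] at h
      exact S.injΘ s hs s' hs' h

end

end Pool.TU
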