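import Pool.Agent.Helper71.TU.T3

/-! # TU T5: the twisted left tile -/

open Complex Set Filter Topology Metric Polynomial ComplexConjugate Pool.Tuning

namespace Pool.TU

noncomputable section

variable {S : TS} {A : XS S} {B : Br S A} (D : BD B)

variable {tr tl : ℂ → ℂ} (R : Roots tr tl)

include R

theorem BD.t4_in {ξ : ℂ} (hξ : ξ ∈ HD) : D.t4 tl (exp (D.c ξ)) = exp (D.c (tl ξ)) := by
  unfold BD.t4
  rw [if_pos (t3_mem_Bc D hξ), D.inv_exp hξ]

theorem BD.t4_out {w : ℂ} (hw : w ∈ DD) (h : w ∉ D.Bo) : D.t4 tl w = S.G4 w := by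
  by_cases hc : w ∈ D.Bc
  · obtain ⟨ξ, hξ, rfl⟩ := hc
    have h1 : ‖ξ‖ = 1 := t3_norm D hξ h
    show D.t4 tl (exp (D.c ξ)) = S.G4 (exp (D.c ξ))
    rw [D.t4_in R hξ, D.G4_eq (R.ml hξ) (R.l_re ξ hξ), R.l_circ ξ hξ h1]
  · unfold BD.t4
    rw [if_neg hc]

theorem BD.t4_cont : ContinuousOn (D.t4 tl) DD := by
  rw [t3_union D]
  apply ContinuousOn.union_of_isClosed _ _ D.Bc_closed (t3_out_closed D)
  · have h1 : ContinuousOn (fun z => exp (D.c (tl (D.inv z)))) D.Bc := by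
      apply Complex.continuous_exp.comp_continuousOn
      exact (D.cont.comp (R.cl.comp D.inv_cont (fun z hz => (D.inv_mem hz).1))
        (fun z hz => R.ml (D.inv_mem hz).1))
    refine h1.congr ?_
    intro z hz
    show D.t4 tl z = exp (D.c (tl (D.inv z)))
    unfold BD.t4
    rw [if_pos hz]
  · refine (S.cont4.mono sdiff_subset).congr ?_
    intro z hz
    exact D.t4_out R hz.1 hz.2

theorem BD.t4_maps : MapsTo (D.t4 tl) DD DD := by
  intro w hw
  unfold BD.t4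
  split_ifs with h
  · exact D.mem_DD (R.ml (D.inv_mem h).1)
  · exact S.maps4 hw

theorem BD.t4_F : ∀ w ∈ DD, D.tF (D.t4 tl w) = w := by
  intro w hw
  by_cases hc : w ∈ D.Bc
  · obtain ⟨ξ, hξ, rfl⟩ := hc
    show D.tF (D.t4 tl (exp (D.c ξ))) = exp (D.c ξ)
    rw [D.t4_in R hξ, D.tF_in (R.ml hξ), R.l_tau ξ hξ]
  · have h1 : D.t4 tl w = S.G4 w := by
      unfold BD.t4
      rw [if_neg hc]
    have h2 : S.G4 w ∉ D.Bc := fun h => hc (D.of_G4 hw h)
    rw [h1]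
    unfold BD.tF
    rw [if_neg h2, S.F4 w hw]

end

end Pool.TU
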