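import Pool.Agent.Helper71.TU.T4
import Pool.Agent.Helper71.TU.T5
import Pool.Agent.Helper71.TU.L2

/-! # TU T6: gluing of twisted tiles -/

open Complex Set Filter Topology Metric Polynomial ComplexConjugate Pool.Tuning

namespace Pool.TU

noncomputable section

private theorem t6_real {t : ℝ} (ht : t ∈ Icc (-1 : ℝ) 1) : (t : ℂ) ∈ HD := by
  refine ⟨?_, by simp⟩
  rw [Complex.norm_real, Real.norm_eq_abs, abs_le]
  exact ht

private theorem t6_fold {z : ℂ} (h : 0 ≤ z.im) : fold z = z := by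
  unfold fold
  rw [if_pos h]

private theorem t6_fold_conj {z : ℂ} (h : 0 ≤ z.im) : fold (conj z) = z := by
  unfold fold
  split_ifs with h1
  · rw [Complex.conj_im] at h1
    have h2 : z.im = 0 := by linarith
    apply Complex.ext
    · simp
    · simp [h2]
  · simp

/-- right square roots in the half disc -/
private theorem t6_sqrt {ξ : ℂ} (hξ : ξ ∈ HD) : ∃ ζ ∈ HD, 0 ≤ ζ.re ∧ sqf ζ = ξ := by
  have harg := Complex.arg_nonneg_iff.2 hξ.2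
  have hpi := Complex.arg_le_pi ξ
  have hpos := Real.pi_pos
  have h0 : (((Real.sqrt ‖ξ‖ : ℝ) : ℂ) * exp (((arg ξ / 2 : ℝ) : ℂ) * I)) ^ 2 = ξ := by
    rw [mul_pow, ← Complex.exp_nat_mul, ← Complex.ofReal_pow, Real.sq_sqrt (norm_nonneg _)]
    conv_rhs => rw [← Complex.norm_mul_exp_arg_mul_I ξ]
    congr 2
    push_cast
    ring
  have hre : (((Real.sqrt ‖ξ‖ : ℝ) : ℂ) * exp (((arg ξ / 2 : ℝ) : ℂ) * I)).re =
      Real.sqrt ‖ξ‖ * Real.cos (arg ξ / 2) := by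
    rw [Complex.re_ofReal_mul, Complex.exp_ofReal_mul_I_re]
  have him : (((Real.sqrt ‖ξ‖ : ℝ) : ℂ) * exp (((arg ξ / 2 : ℝ) : ℂ) * I)).im =
      Real.sqrt ‖ξ‖ * Real.sin (arg ξ / 2) := by
    rw [Complex.im_ofReal_mul, Complex.exp_ofReal_mul_I_im]
  refine ⟨((Real.sqrt ‖ξ‖ : ℝ) : ℂ) * exp (((arg ξ / 2 : ℝ) : ℂ) * I), ⟨?_, ?_⟩, ?_, ?_⟩
  · rw [norm_mul, Complex.norm_exp_ofReal_mul_I, mul_one, Complex.norm_real,
      Real.norm_of_nonneg (Real.sqrt_nonneg _)]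
    exact Real.sqrt_le_one.2 hξ.1
  · rw [him]
    exact mul_nonneg (Real.sqrt_nonneg _)
      (Real.sin_nonneg_of_nonneg_of_le_pi (by linarith) (by linarith))
  · rw [hre]
    exact mul_nonneg (Real.sqrt_nonneg _)
      (Real.cos_nonneg_of_neg_pi_div_two_le_of_le (by linarith) (by linarith))
  · unfold sqf
    rw [h0]
    exact t6_fold hξ.2

/-- left square roots in the half disc -/
private theorem t6_sqrt' {ξ : ℂ} (hξ : ξ ∈ HD) : ∃ ζ ∈ HD, ζ.re ≤ 0 ∧ sqf ζ = ξ := by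
  obtain ⟨ζ, hζ, hre, hs⟩ := t6_sqrt hξ
  refine ⟨-conj ζ, ⟨?_, ?_⟩, ?_, ?_⟩
  · rw [norm_neg, Complex.norm_conj]
    exact hζ.1
  · simpa using hζ.2
  · simpa using hre
  · have h1 : 0 ≤ (ζ ^ 2).im := by
      rw [sq, Complex.mul_im]
      nlinarith [mul_nonneg hre hζ.2]
    unfold sqf at hs ⊢
    rw [t6_fold h1] at hs
    rw [neg_sq, ← map_pow, t6_fold_conj h1, hs]

variable {S : TS} {A : XS S} {B : Br S A} (D : BD B)

include D in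
private theorem BD.t6_uu {ζ : ℂ} (hζ : ζ ∈ HD) : (D.c ζ).re ≤ 0 := (D.maps hζ).1

include D in
private theorem BD.t6_half {ξ : ℂ} (hξ : ξ ∈ HD) : exp (D.c ξ / 2) ∈ DD := by
  unfold DD
  rw [mem_closedBall_zero_iff, Complex.norm_exp]
  apply Real.exp_le_one_iff.2
  have h := D.t6_uu hξ
  have h2 : (D.c ξ / 2).re = (D.c ξ).re / 2 := by simp
  rw [h2]
  linarith

private theorem t6_ec_mem (θ : ℝ) : ec θ ∈ DD := by
  unfold DD
  rw [mem_closedBall_zero_iff, norm_ec]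

include D in
private theorem BD.t6_sq {s : ℂ} (h : s ∈ D.Pp) : s ^ 2 ∈ D.Bc := by
  obtain ⟨ξ, hξ, rfl⟩ := h
  refine ⟨ξ, hξ, ?_⟩
  simp only
  rw [← Complex.exp_nat_mul]
  congr 1
  push_cast
  ring

include D in
private theorem BD.t6_Θ {s : ℂ} (h : s ∈ D.Pp) : S.Θ s ∈ D.Bc := by
  obtain ⟨ξ, hξ, rfl⟩ := h
  obtain ⟨ζ, hζ, hre, hs⟩ := t6_sqrt hξ
  refine ⟨ζ, hζ, ?_⟩
  simp only
  rw [D.Θ_eq hζ hre, hs]

include D in
private theorem BD.t6_G4 {w : ℂ} (h : w ∈ D.Bc) : S.G4 w ∈ D.Bc := by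
  obtain ⟨ξ, hξ, rfl⟩ := h
  obtain ⟨ζ, hζ, hre, hs⟩ := t6_sqrt' hξ
  refine ⟨ζ, hζ, ?_⟩
  simp only
  rw [D.G4_eq hζ hre, hs]

include D in
private theorem BD.t6_half_real {t : ℝ} (ht : t ∈ Icc (-1 : ℝ) 1) :
    exp (D.c t / 2) = ec (D.a t / 2) := by
  rw [(D.real t ht).1]
  unfold ec
  congr 1
  push_cast
  ring

private theorem t6_ofReal {ζ : ℂ} (h : ζ.im = 0) : ((ζ.re : ℝ) : ℂ) = ζ := by
  apply Complex.ext
  · simp
  · simp [h]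

private theorem t6_re {ζ : ℂ} (h : ζ ∈ HD) : ζ.re ∈ Icc (-1 : ℝ) 1 := by
  have h1 := (Complex.abs_re_le_norm ζ).trans h.1
  exact abs_le.1 h1

variable {tr tl : ℂ → ℂ} (R : Roots tr tl)

include R

private theorem BD.t6_Θ_in {s : ℂ} (h : s ∈ D.Pp) :
    ∃ ξ ∈ HD, s = exp (D.c ξ / 2) ∧ D.tΘ tr s = exp (D.c (tr ξ)) := by
  obtain ⟨ξ, hξ, rfl⟩ := h
  exact ⟨ξ, hξ, rfl, D.tΘ_in R hξ⟩

private theorem BD.t6_4_in {w : ℂ} (h : w ∈ D.Bc) :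
    ∃ ξ ∈ HD, w = exp (D.c ξ) ∧ D.t4 tl w = exp (D.c (tl ξ)) := by
  obtain ⟨ξ, hξ, rfl⟩ := h
  exact ⟨ξ, hξ, rfl, D.t4_in R hξ⟩

omit R in
private theorem BD.t6_Θ_out {s : ℂ} (h : s ∉ D.Pp) : D.tΘ tr s = S.Θ s := by
  unfold BD.tΘ
  rw [if_neg h]

omit R in
private theorem BD.t6_4_out {w : ℂ} (h : w ∉ D.Bc) : D.t4 tl w = S.G4 w := by
  unfold BD.t4
  rw [if_neg h]

theorem BD.t_cover : ∀ z ∈ DD, z ∈ D.tΘ tr '' DD ∨ z ∈ S.G2 '' DD ∨ z ∈ D.t4 tl '' DD := by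
  intro z hz
  by_cases hB : z ∈ D.Bc
  · obtain ⟨ζ, hζ, rfl⟩ := hB
    have hτ : tau ζ ∈ HD := tau_maps hζ
    rcases le_total 0 ζ.re with h | h
    · left
      refine ⟨exp (D.c (tau ζ) / 2), D.t6_half hτ, ?_⟩
      rw [D.tΘ_in R hτ, R.r_inv ζ hζ h]
    · right
      right
      refine ⟨exp (D.c (tau ζ)), D.mem_DD hτ, ?_⟩
      rw [D.t4_in R hτ, R.l_inv ζ hζ h]
  · rcases S.cover z hz with ⟨s, hs, rfl⟩ | h | ⟨w, hw, rfl⟩
    · left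
      refine ⟨s, hs, ?_⟩
      apply D.t6_Θ_out
      intro hP
      exact hB (D.t6_Θ hP)
    · exact Or.inr (Or.inl h)
    · right
      right
      refine ⟨w, hw, ?_⟩
      apply D.t6_4_out
      intro hP
      exact hB (D.t6_G4 hP)

omit R in
private theorem BD.t_F2_aux : ∀ w ∈ DD, D.tF (S.G2 w) = w := by
  intro w hw
  unfold BD.tF
  rw [if_neg (D.of_G2 hw)]
  exact S.F2 w hw

theorem BD.t_F2 : ∀ w ∈ DD, D.tF (S.G2 w) = w := by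
  have := R
  exact D.t_F2_aux

theorem BD.t_bd2 : ∀ θ ∈ Icc 0 (2 * Real.pi), S.G2 (ec θ) = D.tΘ tr (-(ec (θ / 2))) := by
  intro θ hθ
  have := R
  rw [D.t6_Θ_out]
  · exact S.bd2 θ hθ
  · intro h
    exact D.Pp_ne h θ hθ rfl

omit R in
private theorem BD.t6_le {t : ℝ} (ht : t ∈ Icc (-1 : ℝ) 1) :
    D.a t ≤ D.a (-(2 / 3)) ↔ t ≤ -(2 / 3) :=
  D.mono.le_iff_le ht ⟨by norm_num, by norm_num⟩

omit R in
private theorem BD.t6_κ : D.a (-(2 / 3)) < S.κ := by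
  rw [← D.a0]
  exact D.mono ⟨by norm_num, by norm_num⟩ ⟨by norm_num, by norm_num⟩ (by norm_num)

theorem BD.t_bd4 (hκ : S.κ = S.ω₀) : ∀ θ ∈ Icc 0 (D.a (-(2 / 3))),
    D.t4 tl (ec θ) = D.tΘ tr (ec (θ / 2)) := by
  intro θ hθ
  have _ := hκ
  have hκ1 := D.t6_κ
  have hκ2 := S.κ_mem.2
  by_cases hB : ec θ ∈ D.Bc
  · obtain ⟨ζ, hζ, he⟩ := hB
    simp only at he
    have hn : ‖exp (D.c ζ)‖ = 1 := by rw [he, norm_ec]
    obtain ⟨him, hea⟩ := D.circle hζ hn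
    have ht := t6_re hζ
    have hζ' := t6_ofReal him
    have haI := (D.real ζ.re ht).2
    have hθt : θ = D.a ζ.re := by
      apply ec_inj' ⟨hθ.1, by linarith [hθ.2]⟩ ⟨haI.1.le, haI.2⟩
      rw [← hea, he]
    have htle : ζ.re ≤ -(2 / 3) := by
      apply (D.t6_le ht).1
      rw [← hθt]
      exact hθ.2
    have h1 : ec (θ / 2) = exp (D.c ζ / 2) := by
      rw [hθt, ← D.t6_half_real ht, hζ']
    rw [h1, D.tΘ_in R hζ, ← he, D.t4_in R hζ, (R.eq_iff ζ hζ).2 ⟨him, htle⟩]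
  · rw [D.t6_4_out hB, D.t6_Θ_out]
    · exact S.bd4 θ ⟨hθ.1, by linarith [hθ.2]⟩
    · intro hP
      apply hB
      have := D.t6_sq hP
      rw [sq, ← ec_add, add_halves] at this
      exact this

theorem BD.t_sep2 : ∀ s ∈ DD, ∀ w ∈ DD, D.tΘ tr s = S.G2 w →
    ∃ θ ∈ Icc 0 (2 * Real.pi), s = -(ec (θ / 2)) := by
  intro s hs w hw h
  by_cases hP : s ∈ D.Pp
  · obtain ⟨ξ, hξ, -, h2⟩ := D.t6_Θ_in R hP
    exfalso
    apply D.of_G2 hw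
    rw [← h, h2]
    exact ⟨tr ξ, R.mr hξ, rfl⟩
  · rw [D.t6_Θ_out hP] at h
    exact S.sep2 s hs w hw h

theorem BD.t_sep4 (hκ : S.κ = S.ω₀) : ∀ s ∈ DD, ∀ w ∈ DD, D.tΘ tr s = D.t4 tl w →
    s = -1 ∨ ∃ θ ∈ Icc 0 (D.a (-(2 / 3))), s = ec (θ / 2) := by
  intro s hs w hw h
  have _ := hκ
  by_cases hP : s ∈ D.Pp
  · obtain ⟨ξ, hξ, h1, h2⟩ := D.t6_Θ_in R hP
    by_cases hB : w ∈ D.Bc
    · obtain ⟨ξ', hξ', -, h4⟩ := D.t6_4_in R hB
      right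
      rw [h2, h4] at h
      have h5 : tr ξ = tl ξ' := D.inj (R.mr hξ) (R.ml hξ') h
      have h6 : ξ = ξ' := by
        rw [← R.r_tau ξ hξ, ← R.l_tau ξ' hξ', h5]
      rw [← h6] at h5
      obtain ⟨him, hle⟩ := (R.eq_iff ξ hξ).1 h5
      have ht := t6_re hξ
      refine ⟨D.a ξ.re, ⟨(D.real _ ht).2.1.le, (D.t6_le ht).2 hle⟩, ?_⟩
      rw [← D.t6_half_real ht, t6_ofReal him]
      exact h1
    · exfalso
      apply hB
      apply D.of_G4 hw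
      rw [D.t6_4_out hB] at h
      rw [← h, h2]
      exact ⟨tr ξ, R.mr hξ, rfl⟩
  · rw [D.t6_Θ_out hP] at h
    by_cases hB : w ∈ D.Bc
    · obtain ⟨ξ', hξ', -, h4⟩ := D.t6_4_in R hB
      exfalso
      apply hP
      apply D.of_Θ hs
      rw [h, h4]
      exact ⟨tl ξ', R.ml hξ', rfl⟩
    · rw [D.t6_4_out hB] at h
      rcases S.sep4 s hs w hw h with h1 | ⟨θ, hθ, h1⟩
      · exact Or.inl h1
      · rcases le_or_gt θ (D.a (-(2 / 3))) with h2 | h2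
        · exact Or.inr ⟨θ, ⟨hθ.1, h2⟩, h1⟩
        · exfalso
          apply hP
          have hc : ContinuousOn D.a (Icc (-(2 / 3)) 0) :=
            D.conta.mono (Icc_subset_Icc (by norm_num) (by norm_num))
          have hiv := intermediate_value_Icc (by norm_num : (-(2 / 3) : ℝ) ≤ 0) hc
          have hθ' : θ ∈ Icc (D.a (-(2 / 3))) (D.a 0) := by
            rw [D.a0]
            exact ⟨h2.le, hθ.2⟩
          obtain ⟨t, ht, hat⟩ := hiv hθ'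
          have ht' : t ∈ Icc (-1 : ℝ) 1 := ⟨by linarith [ht.1], by linarith [ht.2]⟩
          refine ⟨t, t6_real ht', ?_⟩
          simp only
          rw [D.t6_half_real ht', hat, h1]

theorem BD.t_sep24 : ∀ w ∈ DD, ∀ w' ∈ DD, S.G2 w = D.t4 tl w' → w = 1 ∧ w' = 1 := by
  intro w hw w' hw' h
  by_cases hB : w' ∈ D.Bc
  · obtain ⟨ξ', hξ', -, h4⟩ := D.t6_4_in R hB
    exfalso
    apply D.of_G2 hw
    rw [h, h4]
    exact ⟨tl ξ', R.ml hξ', rfl⟩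
  · rw [D.t6_4_out hB] at h
    exact S.sep24 w hw w' hw' h

end

end Pool.TU
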