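import Pool.Agent.Helper71.TU.T4
import Pool.Agent.Helper71.TU.T5

/-! # TU T7: real branches of the twist -/

open Complex Set Filter Topology Metric Polynomial ComplexConjugate Pool.Tuning

namespace Pool.TU

noncomputable section

variable {S : TS} {A : XS S} {B : Br S A} (D : BD B)

variable {tr tl : ℂ → ℂ} (R : Roots tr tl)

/-- the real point `t` of `[-1,1]` lies in `HD` -/
private theorem t7_mem {t : ℝ} (h : t ∈ Icc (-1 : ℝ) 1) : (t : ℂ) ∈ HD := by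
  refine ⟨?_, by simp⟩
  rw [Complex.norm_real, Real.norm_eq_abs]
  exact abs_le.mpr h

private theorem t7_re {ξ : ℂ} (h : ξ ∈ HD) : ξ.re ∈ Icc (-1 : ℝ) 1 :=
  abs_le.mp ((Complex.abs_re_le_norm ξ).trans h.1)

private theorem t7_eq {ξ : ℂ} (h : ξ.im = 0) : ξ = ((ξ.re : ℝ) : ℂ) := by
  apply Complex.ext <;> simp [h]

private theorem t7_exp (D : BD B) {t : ℝ} (h : t ∈ Icc (-1 : ℝ) 1) :
    exp (D.c t) = ec (D.a t) := by
  rw [(D.real t h).1, ec]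

private theorem t7_exp2 (D : BD B) {t : ℝ} (h : t ∈ Icc (-1 : ℝ) 1) :
    exp (D.c t / 2) = ec (D.a t / 2) := by
  rw [(D.real t h).1, ec]
  congr 1
  push_cast
  ring

private theorem t7_le (D : BD B) {s t : ℝ} (hs : s ∈ Icc (-1 : ℝ) 1) (ht : t ∈ Icc (-1 : ℝ) 1)
    (h : s ≤ t) : D.a s ≤ D.a t :=
  (D.mono.le_iff_le hs ht).mpr h

private theorem t7_real (D : BD B) {ξ : ℂ} (hξ : ξ ∈ HD) (hi : ξ.im = 0)
    (hr : -(2 / 3) ≤ ξ.re) : D.a ξ.re ∈ Icc (D.a (-(2 / 3))) (2 * Real.pi) ∧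
      exp (D.c ξ) = ec (D.a ξ.re) ∧ exp (D.c ξ / 2) = ec (D.a ξ.re / 2) := by
  have h1 := t7_re hξ
  have h2 := t7_eq hi
  refine ⟨⟨t7_le D ⟨by norm_num, by norm_num⟩ h1 hr, ((D.real _ h1).2.2).le⟩, ?_, ?_⟩
  · conv_lhs => rw [h2]
    exact t7_exp D h1
  · conv_lhs => rw [h2]
    exact t7_exp2 D h1

include R

theorem BD.t_circΘ (hκ : S.κ = S.ω₀) : ∀ s ∈ DD, ‖D.tΘ tr s‖ = 1 →
    s = 1 ∨ ∃ θ ∈ Icc (D.a (-(2 / 3))) (2 * Real.pi), s = ec (θ / 2) := by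
  intro s hs h
  by_cases hP : s ∈ D.Pp
  · obtain ⟨ξ, hξ, rfl⟩ := hP
    simp only [] at h
    rw [BD.tΘ_in D R hξ] at h
    obtain ⟨h1, -⟩ := D.circle (R.mr hξ) h
    obtain ⟨h2, h3⟩ := (R.r_real ξ hξ).mp h1
    obtain ⟨h4, -, h5⟩ := t7_real D hξ h2 h3
    exact Or.inr ⟨_, h4, h5⟩
  · have h1 : D.tΘ tr s = S.Θ s := by
      unfold BD.tΘ
      rw [if_neg hP]
    rw [h1] at h
    rcases S.circΘ s hs h with h2 | ⟨θ, hθ, h2⟩
    · exact Or.inl h2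
    · refine Or.inr ⟨θ, ⟨?_, hθ.2⟩, h2⟩
      refine le_trans ?_ hθ.1
      rw [← D.a0]
      exact t7_le D ⟨by norm_num, by norm_num⟩ ⟨by norm_num, by norm_num⟩ (by norm_num)

theorem BD.t_circ4 (hκ : S.κ = S.ω₀) : ∀ w ∈ DD, ‖D.t4 tl w‖ = 1 →
    ∃ θ ∈ Icc (D.a (-(2 / 3))) (2 * Real.pi), w = ec θ := by
  intro w hw h
  by_cases hP : w ∈ D.Bc
  · obtain ⟨ξ, hξ, rfl⟩ := hP
    simp only [] at h
    rw [BD.t4_in D R hξ] at h
    obtain ⟨h1, -⟩ := D.circle (R.ml hξ) h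
    obtain ⟨h2, h3⟩ := (R.l_real ξ hξ).mp h1
    obtain ⟨h4, h5, -⟩ := t7_real D hξ h2 h3
    exact ⟨_, h4, h5⟩
  · have h1 : D.t4 tl w = S.G4 w := by
      unfold BD.t4
      rw [if_neg hP]
    rw [h1] at h
    obtain ⟨θ, hθ, h2⟩ := S.circ4 w hw h
    refine ⟨θ, ⟨?_, hθ.2⟩, h2⟩
    refine le_trans ?_ hθ.1
    rw [← D.a0]
    exact t7_le D ⟨by norm_num, by norm_num⟩ ⟨by norm_num, by norm_num⟩ (by norm_num)

/-- the real branches of the twist -/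
theorem BD.t_real (hκ : S.κ = S.ω₀) : ∃ rp rm : ℝ → ℝ,
    ContinuousOn rp (Icc (D.a (-(2 / 3))) (2 * Real.pi)) ∧
    ContinuousOn rm (Icc (D.a (-(2 / 3))) (2 * Real.pi)) ∧
    (∀ t ∈ Icc (-(2 / 3) : ℝ) 1, rp (D.a t) = D.a (tr t).re ∧ rm (D.a t) = D.a (tl t).re) ∧
    (∀ θ ∈ Icc (D.a 1) (2 * Real.pi), rp θ = S.rp θ ∧ rm θ = S.rm θ) ∧
    (∀ θ ∈ Icc (D.a (-(2 / 3))) (2 * Real.pi), rp θ ∈ Icc S.ω₀ (2 * Real.pi) ∧
      rm θ ∈ Icc 0 S.ω₀ ∧ D.tΘ tr (ec (θ / 2)) = ec (rp θ) ∧ D.t4 tl (ec θ) = ec (rm θ)) := by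
  classical
  have m1 : (1 : ℝ) ∈ Icc (-1 : ℝ) 1 := ⟨by norm_num, le_rfl⟩
  have m0 : (0 : ℝ) ∈ Icc (-1 : ℝ) 1 := ⟨by norm_num, by norm_num⟩
  have mn : (-(2 / 3) : ℝ) ∈ Icc (-1 : ℝ) 1 := ⟨by norm_num, by norm_num⟩
  have mt : ∀ t ∈ Icc (-(2 / 3) : ℝ) 1, t ∈ Icc (-1 : ℝ) 1 := fun t ht =>
    ⟨le_trans (by norm_num) ht.1, ht.2⟩
  have ha1 : D.a 1 < 2 * Real.pi := (D.real 1 m1).2.2
  have ha01 : D.a 0 ≤ D.a 1 := t7_le D m0 m1 (by norm_num)
  have hn1 : D.a (-(2 / 3)) ≤ D.a 1 := t7_le D mn m1 (by norm_num)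
  have hpos : ∀ t ∈ Icc (-1 : ℝ) 1, 0 < D.a t := fun t ht => (D.real t ht).2.1
  have hval : ∀ t ∈ Icc (-1 : ℝ) 1, D.inv (ec (D.a t)) = t := by
    intro t ht
    rw [← t7_exp D ht]
    exact D.inv_exp (t7_mem ht)
  have hsurj : ∀ θ ∈ Icc (D.a (-(2 / 3))) (D.a 1), ∃ t ∈ Icc (-(2 / 3) : ℝ) 1, D.a t = θ := by
    intro θ hθ
    have h1 : ContinuousOn D.a (Icc (-(2 / 3) : ℝ) 1) :=
      D.conta.mono (fun t ht => mt t ht)
    exact intermediate_value_Icc (by norm_num) h1 hθ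
  have hBc : ∀ θ ∈ Icc (D.a (-(2 / 3))) (D.a 1), ec θ ∈ D.Bc := by
    intro θ hθ
    obtain ⟨t, ht, rfl⟩ := hsurj θ hθ
    exact ⟨t, t7_mem (mt t ht), t7_exp D (mt t ht)⟩
  have hinv : ContinuousOn (fun θ : ℝ => D.inv (ec θ)) (Icc (D.a (-(2 / 3))) (D.a 1)) :=
    D.inv_cont.comp continuous_ec.continuousOn hBc
  have hinvm : MapsTo (fun θ : ℝ => D.inv (ec θ)) (Icc (D.a (-(2 / 3))) (D.a 1)) HD :=
    fun θ hθ => (D.inv_mem (hBc θ hθ)).1
  have hgen : ∀ q : ℂ → ℂ, ContinuousOn q HD → MapsTo q HD HD →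
      ContinuousOn (fun θ : ℝ => D.a (q (D.inv (ec θ))).re) (Icc (D.a (-(2 / 3))) (D.a 1)) := by
    intro q hq hm
    have h1 : ContinuousOn (fun θ : ℝ => q (D.inv (ec θ))) (Icc (D.a (-(2 / 3))) (D.a 1)) :=
      hq.comp hinv hinvm
    have h2 : ContinuousOn (fun θ : ℝ => (q (D.inv (ec θ))).re)
        (Icc (D.a (-(2 / 3))) (D.a 1)) := Complex.continuous_re.comp_continuousOn h1
    exact D.conta.comp h2 (fun θ hθ => t7_re (hm (hinvm hθ)))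
  have hglue : ∀ (q : ℂ → ℂ) (r : ℝ → ℝ), ContinuousOn q HD → MapsTo q HD HD →
      ContinuousOn r (Icc (D.a 1) (2 * Real.pi)) → D.a (q 1).re = r (D.a 1) →
      ContinuousOn (fun θ : ℝ => if θ ≤ D.a 1 then D.a (q (D.inv (ec θ))).re else r θ)
        (Icc (D.a (-(2 / 3))) (2 * Real.pi)) := by
    intro q r hq hm hr he
    rw [← Icc_union_Icc_eq_Icc hn1 ha1.le]
    refine ContinuousOn.union_of_isClosed ?_ ?_ isClosed_Icc isClosed_Icc
    · refine (hgen q hq hm).congr (fun θ hθ => ?_)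
      simp only []
      rw [if_pos hθ.2]
    · refine hr.congr (fun θ hθ => ?_)
      by_cases h : θ ≤ D.a 1
      · have h1 : θ = D.a 1 := le_antisymm h hθ.1
        rw [if_pos h, h1, hval 1 m1]
        exact_mod_cast he
      · rw [if_neg h]
  have hone := D.a_one
  have her : D.a (tr 1).re = S.rp (D.a 1) := by
    rw [R.r_vals.2.2, hone.1]
    simp
  have hel : D.a (tl 1).re = S.rm (D.a 1) := by
    rw [R.l_vals.2.2, hone.2]
    simp
  have hκ1 : S.κ ≤ D.a 1 := by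
    rw [← D.a0]
    exact ha01
  have hsub : Icc (D.a 1) (2 * Real.pi) ⊆ Icc S.κ (2 * Real.pi) := fun θ hθ =>
    ⟨hκ1.trans hθ.1, hθ.2⟩
  refine ⟨fun θ : ℝ => if θ ≤ D.a 1 then D.a (tr (D.inv (ec θ))).re else S.rp θ,
    fun θ : ℝ => if θ ≤ D.a 1 then D.a (tl (D.inv (ec θ))).re else S.rm θ,
    hglue tr S.rp R.cr R.mr (S.contrp.mono hsub) her,
    hglue tl S.rm R.cl R.ml (S.contrm.mono hsub) hel, ?_, ?_, ?_⟩
  · intro t ht
    have h1 : D.a t ≤ D.a 1 := t7_le D (mt t ht) m1 ht.2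
    simp only []
    rw [if_pos h1, if_pos h1, hval t (mt t ht)]
    exact ⟨rfl, rfl⟩
  · intro θ hθ
    simp only []
    by_cases h : θ ≤ D.a 1
    · have h1 : θ = D.a 1 := le_antisymm h hθ.1
      rw [if_pos h, if_pos h, h1, hval 1 m1]
      exact ⟨by exact_mod_cast her, by exact_mod_cast hel⟩
    · rw [if_neg h, if_neg h]
      exact ⟨rfl, rfl⟩
  · intro θ hθ
    simp only []
    by_cases h : θ ≤ D.a 1
    · rw [if_pos h, if_pos h]
      obtain ⟨t, ht, rfl⟩ := hsurj θ ⟨hθ.1, h⟩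
      have ht1 := mt t ht
      have htH := t7_mem ht1
      rw [hval t ht1]
      have hr := R.mr htH
      have hl := R.ml htH
      have hri : (tr t).im = 0 := (R.r_real _ htH).mpr ⟨by simp, by simpa using ht.1⟩
      have hli : (tl t).im = 0 := (R.l_real _ htH).mpr ⟨by simp, by simpa using ht.1⟩
      have hrr := R.r_re _ htH
      have hll := R.l_re _ htH
      have hr1 := t7_re hr
      have hl1 := t7_re hl
      refine ⟨⟨?_, ((D.real _ hr1).2.2).le⟩, ⟨(hpos _ hl1).le, ?_⟩, ?_, ?_⟩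
      · rw [← hκ, ← D.a0]
        exact t7_le D m0 hr1 hrr
      · rw [← hκ, ← D.a0]
        exact t7_le D hl1 m0 hll
      · rw [← t7_exp2 D ht1, BD.tΘ_in D R htH, ← t7_exp D hr1, ← t7_eq hri]
      · rw [← t7_exp D ht1, BD.t4_in D R htH, ← t7_exp D hl1, ← t7_eq hli]
    · rw [if_neg h, if_neg h]
      push Not at h
      have hθ' : θ ∈ Icc S.κ (2 * Real.pi) := ⟨hκ1.trans h.le, hθ.2⟩
      have hθ0 : 0 < θ := (hpos 1 m1).trans h
      refine ⟨S.rp_mem θ hθ', S.rm_mem θ hθ', ?_, ?_⟩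
      · have hP : ec (θ / 2) ∉ D.Pp := by
          intro hP
          obtain ⟨t, ht, he⟩ := D.Pp_circle hP (norm_ec _)
          have h1 := (D.real t ht).2
          have h2 : θ / 2 = D.a t / 2 :=
            ec_inj ⟨by linarith, by linarith [hθ.2, Real.pi_pos]⟩
              ⟨by linarith [h1.1], by linarith [h1.2, Real.pi_pos]⟩ he
          have h3 := t7_le D ht m1 ht.2
          linarith
        have h1 : D.tΘ tr (ec (θ / 2)) = S.Θ (ec (θ / 2)) := by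
          unfold BD.tΘ
          rw [if_neg hP]
        rw [h1]
        exact S.rpΘ θ hθ'
      · have hP : ec θ ∉ D.Bc := by
          rintro ⟨ξ, hξ, he⟩
          simp only [] at he
          have h0 : ‖exp (D.c ξ)‖ = 1 := by rw [he, norm_ec]
          obtain ⟨-, h1⟩ := D.circle hξ h0
          have hr1 := t7_re hξ
          have h2 := (D.real _ hr1).2
          have h3 : D.a ξ.re = θ :=
            ec_inj ⟨h2.1, h2.2.le⟩ ⟨hθ0, hθ.2⟩ (h1.symm.trans he)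
          have h4 := t7_le D hr1 m1 hr1.2
          linarith
        have h1 : D.t4 tl (ec θ) = S.G4 (ec θ) := by
          unfold BD.t4
          rw [if_neg hP]
        rw [h1]
        exact S.rmG θ hθ'

end

end Pool.TU
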