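import Pool.Agent.Helper71.TU.AllDefs

/-! # TU X1: Koenigs linearisation -/

open Complex Set Filter Topology Metric Polynomial ComplexConjugate Pool.Tuning

namespace Pool.TU

noncomputable section

namespace X1

/-- local inverse of a holomorphic germ -/
theorem exists_inv (φ : ℂ → ℂ) (hφ : AnalyticAt ℂ φ 0) (h0 : φ 0 = 0) (c : ℂ) (hc : c ≠ 0)
    (hd : HasDerivAt φ c 0) : ∃ ψ : OpenPartialHomeomorph ℂ ℂ,
      (ψ : ℂ → ℂ) = φ ∧ (0 : ℂ) ∈ ψ.source ∧ AnalyticAt ℂ ψ.symm 0 := by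
  have hs : HasStrictDerivAt φ c 0 := by
    have := hφ.hasStrictDerivAt
    rwa [hd.deriv] at this
  have hF := hs.hasStrictFDerivAt_equiv hc
  refine ⟨hF.toOpenPartialHomeomorph φ, hF.toOpenPartialHomeomorph_coe,
    hF.mem_toOpenPartialHomeomorph_source, ?_⟩
  have := (hF.toOpenPartialHomeomorph φ).analyticAt_symm' (a := 0)
    hF.mem_toOpenPartialHomeomorph_source (i := _) hφ hF.hasFDerivAt.fderiv
  rw [hF.toOpenPartialHomeomorph_coe, h0] at this
  exact this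

/-- linearisation of `g z = μ z + z ^ 2 q z` -/
theorem linear (μ : ℂ) (h0 : μ ≠ 0) (h1 : ‖μ‖ < 1) (q : ℂ → ℂ) (hq : Differentiable ℂ q) :
    ∃ (φ : ℂ → ℂ) (r : ℝ), 0 < r ∧ DifferentiableOn ℂ φ (ball 0 r) ∧ φ 0 = 0 ∧
      HasDerivAt φ 1 0 ∧ ∀ z ∈ ball (0 : ℂ) r, φ (μ * z + z ^ 2 * q z) = μ * φ z := by
  have hμ : 0 < ‖μ‖ := norm_pos_iff.2 h0
  -- bound for `q`
  obtain ⟨C, hC⟩ := (isCompact_closedBall (0 : ℂ) 1).exists_bound_of_continuousOn
    hq.continuous.continuousOn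
  have hC0 : 0 ≤ C := (norm_nonneg _).trans (hC 0 (by simp))
  -- the contraction factor
  have hsq : ‖μ‖ < Real.sqrt ‖μ‖ := by
    rw [Real.lt_sqrt hμ.le]
    nlinarith
  obtain ⟨σ, hσ1, hσ2⟩ := exists_between hsq
  have hσ0 : 0 < σ := hμ.trans hσ1
  have hσμ : σ ^ 2 < ‖μ‖ := (Real.lt_sqrt hσ0.le).1 hσ2
  have hσlt : σ < 1 := by nlinarith
  set g : ℂ → ℂ := fun z => μ * z + z ^ 2 * q z with hg
  set r : ℝ := min 1 ((σ - ‖μ‖) / (C + 1)) with hr
  have hrpos : 0 < r := lt_min one_pos (div_pos (by linarith) (by linarith))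
  have hr1 : r ≤ 1 := min_le_left _ _
  have hrC : C * r ≤ σ - ‖μ‖ := by
    have h1 : r ≤ (σ - ‖μ‖) / (C + 1) := min_le_right _ _
    have h2 : r * (C + 1) ≤ σ - ‖μ‖ := (le_div_iff₀ (by linarith)).1 h1
    nlinarith
  have hqb : ∀ z : ℂ, ‖z‖ < r → ‖q z‖ ≤ C := fun z hz => hC z (by simpa using hz.le.trans hr1)
  have hgb : ∀ z : ℂ, ‖z‖ < r → ‖g z‖ ≤ σ * ‖z‖ := by
    intro z hz
    calc ‖g z‖ ≤ ‖μ * z‖ + ‖z ^ 2 * q z‖ := norm_add_le _ _
      _ = ‖μ‖ * ‖z‖ + ‖z‖ ^ 2 * ‖q z‖ := by rw [norm_mul, norm_mul, norm_pow]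
      _ ≤ ‖μ‖ * ‖z‖ + ‖z‖ ^ 2 * C := by
          have := hqb z hz
          gcongr
      _ ≤ σ * ‖z‖ := by
          have : ‖z‖ * C ≤ σ - ‖μ‖ := by nlinarith [norm_nonneg z]
          nlinarith [norm_nonneg z]
  have hit : ∀ n : ℕ, ∀ z : ℂ, ‖z‖ < r → ‖g^[n] z‖ ≤ σ ^ n * ‖z‖ := by
    intro n
    induction n with
    | zero => intro z _; simp
    | succ n ih =>
      intro z hz
      rw [Function.iterate_succ_apply']
      have h1 := ih z hz
      have h2 : ‖g^[n] z‖ < r := by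
        have : σ ^ n ≤ 1 := pow_le_one₀ hσ0.le hσlt.le
        nlinarith [norm_nonneg z]
      calc ‖g (g^[n] z)‖ ≤ σ * ‖g^[n] z‖ := hgb _ h2
        _ ≤ σ * (σ ^ n * ‖z‖) := by gcongr
        _ = σ ^ (n + 1) * ‖z‖ := by ring
  have hitr : ∀ n : ℕ, ∀ z : ℂ, ‖z‖ < r → ‖g^[n] z‖ < r := by
    intro n z hz
    have h1 := hit n z hz
    have : σ ^ n ≤ 1 := pow_le_one₀ hσ0.le hσlt.le
    nlinarith [norm_nonneg z]
  -- the terms
  set T : ℕ → ℂ → ℂ := fun n z => (g^[n] z) ^ 2 * q (g^[n] z) / μ ^ (n + 1) with hT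
  have hTb : ∀ n z, ‖z‖ < r → ‖T n z‖ ≤ (C / ‖μ‖ * (σ ^ 2 / ‖μ‖) ^ n) * ‖z‖ ^ 2 := by
    intro n z hz
    have h1 := hit n z hz
    have h2 := hqb _ (hitr n z hz)
    have h3 : ‖T n z‖ = ‖g^[n] z‖ ^ 2 * ‖q (g^[n] z)‖ / ‖μ‖ ^ (n + 1) := by
      simp [hT]
    rw [h3]
    calc ‖g^[n] z‖ ^ 2 * ‖q (g^[n] z)‖ / ‖μ‖ ^ (n + 1)
        ≤ (σ ^ n * ‖z‖) ^ 2 * C / ‖μ‖ ^ (n + 1) := by gcongr
      _ = (C / ‖μ‖ * (σ ^ 2 / ‖μ‖) ^ n) * ‖z‖ ^ 2 := by
          rw [div_pow]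
          field_simp
          ring
  have hgeo : Summable fun n : ℕ => C / ‖μ‖ * (σ ^ 2 / ‖μ‖) ^ n := by
    apply Summable.mul_left
    apply summable_geometric_of_lt_one (by positivity)
    rw [div_lt_one hμ]
    exact hσμ
  have hTb' : ∀ n, ∀ z ∈ ball (0 : ℂ) r, ‖T n z‖ ≤ C / ‖μ‖ * (σ ^ 2 / ‖μ‖) ^ n := by
    intro n z hz
    have hz' : ‖z‖ < r := by simpa using hz
    refine (hTb n z hz').trans ?_
    have h1 : ‖z‖ ^ 2 ≤ 1 := by
      have : ‖z‖ ≤ 1 := hz'.le.trans hr1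
      nlinarith [norm_nonneg z]
    have h2 : 0 ≤ C / ‖μ‖ * (σ ^ 2 / ‖μ‖) ^ n := by positivity
    nlinarith
  have hgd : Differentiable ℂ g := by
    apply Differentiable.add
    · fun_prop
    · exact (differentiable_id.pow 2).mul hq
  have hitd : ∀ n : ℕ, Differentiable ℂ (g^[n]) := by
    intro n
    induction n with
    | zero => exact differentiable_id
    | succ n ih =>
      rw [Function.iterate_succ']
      exact hgd.comp ih
  have hTd : ∀ n, Differentiable ℂ (T n) := by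
    intro n
    apply Differentiable.div_const
    exact ((hitd n).pow 2).mul (hq.comp (hitd n))
  set S : ℂ → ℂ := fun z => ∑' n, T n z with hS
  have hSd : DifferentiableOn ℂ S (ball 0 r) :=
    differentiableOn_tsum_of_summable_norm hgeo (fun n => (hTd n).differentiableOn)
      isOpen_ball hTb'
  have hsum : ∀ z : ℂ, ‖z‖ < r → Summable fun n => T n z := by
    intro z hz
    apply Summable.of_norm_bounded hgeo
    intro n
    exact hTb' n z (by simpa using hz)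
  have hSb : ∀ z : ℂ, ‖z‖ < r → ‖S z‖ ≤ (∑' n : ℕ, C / ‖μ‖ * (σ ^ 2 / ‖μ‖) ^ n) * ‖z‖ ^ 2 := by
    intro z hz
    rw [← tsum_mul_right]
    exact tsum_of_norm_bounded (hgeo.mul_right _).hasSum (fun n => hTb n z hz)
  have hS0 : S 0 = 0 := by
    have := hSb 0 (by simpa using hrpos)
    simpa using this
  have hSder : HasDerivAt S 0 0 := by
    rw [hasDerivAt_iff_isLittleO]
    simp only [hS0, sub_zero, smul_zero]
    have h1 : S =O[𝓝 0] fun z : ℂ => ‖z‖ ^ 2 := by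
      apply Asymptotics.IsBigO.of_bound (∑' n : ℕ, C / ‖μ‖ * (σ ^ 2 / ‖μ‖) ^ n)
      filter_upwards [ball_mem_nhds (0 : ℂ) hrpos] with z hz
      have := hSb z (by simpa using hz)
      simpa using this
    have h2 : (fun z : ℂ => ‖z‖ ^ 2) =o[𝓝 0] fun z : ℂ => z := by
      have := Asymptotics.isLittleO_pow_id (𝕜 := ℂ) (n := 2) (by norm_num)
      exact (Asymptotics.isLittleO_norm_left.2 this).congr_left (fun z => by simp [norm_pow])
    exact h1.trans_isLittleO h2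
  refine ⟨fun z => z + S z, r, hrpos, differentiableOn_id.add hSd, by simp [hS0], ?_, ?_⟩
  · have := (hasDerivAt_id (0 : ℂ)).add hSder
    rw [add_zero] at this
    exact this
  · intro z hz
    have hz' : ‖z‖ < r := by simpa using hz
    have hgz : ‖g z‖ < r := hitr 1 z hz'
    have h1 : ∀ n, T n (g z) = μ * T (n + 1) z := by
      intro n
      simp only [hT, ← Function.iterate_succ_apply]
      field_simp
      ring
    have h2 : S (g z) = μ * ∑' n, T (n + 1) z := by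
      simp only [hS]
      rw [← tsum_mul_left]
      exact tsum_congr h1
    have h3 : S z = T 0 z + ∑' n, T (n + 1) z := (hsum z hz').tsum_eq_zero_add
    have h4 : μ * T 0 z = z ^ 2 * q z := by
      simp only [hT, Function.iterate_zero, id, zero_add, pow_one]
      field_simp
    show g z + S (g z) = μ * (z + S z)
    rw [h2, h3, mul_add, mul_add, h4]
    simp only [hg]
    ring

end X1

/-- local Koenigs linearisation -/
theorem koenigs_local (h : ℂ[X]) (a : ℂ) (ha : h.eval a = a) (h0 : h.derivative.eval a ≠ 0)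
    (h1 : ‖h.derivative.eval a‖ < 1) : ∃ (K : ℂ → ℂ) (r : ℝ), 0 < r ∧
      DifferentiableOn ℂ K (ball 0 r) ∧ InjOn K (ball 0 r) ∧ K 0 = a ∧
      ∀ ζ ∈ ball (0 : ℂ) r, h.eval (K ζ) = K (h.derivative.eval a * ζ) := by
  set μ := h.derivative.eval a with hμ
  set p : ℂ[X] := h.comp (X + C a) - C a with hp
  have hpe : ∀ z, p.eval z = h.eval (z + a) - a := by
    intro z
    simp [hp, eval_comp]
  have hp0 : p.coeff 0 = 0 := by
    rw [coeff_zero_eq_eval_zero, hpe, zero_add, ha, sub_self]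
  have hp1 : p.coeff 1 = μ := by
    have h2 : p.derivative.coeff 0 = p.coeff 1 := by
      rw [coeff_derivative]; simp
    rw [← h2, coeff_zero_eq_eval_zero]
    simp [hp, derivative_comp, eval_comp, hμ]
  set q : ℂ[X] := p.divX.divX with hq
  have hpq : ∀ z, p.eval z = μ * z + z ^ 2 * q.eval z := by
    intro z
    have e1 : p = p.divX * X + C (p.coeff 0) := (divX_mul_X_add p).symm
    have e2 : p.divX = q * X + C (p.divX.coeff 0) := (divX_mul_X_add p.divX).symm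
    have e3 : p.divX.coeff 0 = μ := by rw [coeff_divX]; simpa using hp1
    have e4 : p.divX.eval z = q.eval z * z + μ := by
      rw [e2, e3]
      simp only [eval_add, eval_mul, eval_X, eval_C]
    have e5 : p.eval z = p.divX.eval z * z := by
      conv_lhs => rw [e1]
      simp [hp0]
    rw [e5, e4]
    ring
  obtain ⟨φ, r, hr, hφd, hφ0, hφ1, hφ⟩ := X1.linear μ h0 h1 (fun z => q.eval z) q.differentiable
  have hφan : AnalyticAt ℂ φ 0 := hφd.analyticAt (ball_mem_nhds _ hr)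
  obtain ⟨ψ, hψ, hψ0, hψan⟩ := X1.exists_inv φ hφan hφ0 1 one_ne_zero hφ1
  have hψs0 : ψ.symm 0 = 0 := by
    have := ψ.left_inv hψ0
    rwa [hψ, hφ0] at this
  have ht0 : (0 : ℂ) ∈ ψ.target := by
    have := ψ.map_source hψ0
    rwa [hψ, hφ0] at this
  have hcont : ContinuousAt ψ.symm 0 := hψan.continuousAt
  -- the good conditions
  have c1 : ∀ᶠ ζ in 𝓝 (0 : ℂ), AnalyticAt ℂ ψ.symm ζ := hψan.eventually_analyticAt
  have c2 : ∀ᶠ ζ in 𝓝 (0 : ℂ), ζ ∈ ψ.target := ψ.open_target.mem_nhds ht0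
  have c3 : ∀ᶠ ζ in 𝓝 (0 : ℂ), ψ.symm ζ ∈ ball (0 : ℂ) r := by
    apply hcont
    rw [hψs0]
    exact ball_mem_nhds _ hr
  have c4 : ∀ᶠ ζ in 𝓝 (0 : ℂ), p.eval (ψ.symm ζ) ∈ ψ.source := by
    have hc : ContinuousAt (fun ζ => p.eval (ψ.symm ζ)) 0 :=
      ContinuousAt.comp (g := fun z => p.eval z) p.continuous.continuousAt hcont
    apply hc
    have : p.eval (ψ.symm 0) = 0 := by rw [hψs0, hpq]; simp
    simp only [this]
    exact ψ.open_source.mem_nhds hψ0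
  have hall := c1.and (c2.and (c3.and c4))
  obtain ⟨ρ, hρ, hball⟩ := Metric.eventually_nhds_iff_ball.1 hall
  refine ⟨fun ζ => ψ.symm ζ + a, ρ, hρ, ?_, ?_, by simp [hψs0], ?_⟩
  · intro ζ hζ
    exact ((hball ζ hζ).1.differentiableAt.add_const a).differentiableWithinAt
  · intro ζ hζ ξ hξ he
    exact ψ.symm.injOn (hball ζ hζ).2.1 (hball ξ hξ).2.1 (add_right_cancel he)
  · intro ζ hζ
    obtain ⟨b1, b2, b3, b4⟩ := hball ζ hζ
    have e1 : φ (ψ.symm ζ) = ζ := by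
      have := ψ.right_inv b2
      rwa [hψ] at this
    have e2 := hφ _ b3
    rw [← hpq, e1] at e2
    have e3 := ψ.left_inv b4
    rw [hψ, e2] at e3
    show h.eval (ψ.symm ζ + a) = ψ.symm (μ * ζ) + a
    rw [e3, hpe]
    ring

end

end Pool.TU
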