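import Pool.Agent.Helper71.TU.X1
import Pool.Agent.Helper71.TU.B8
import Pool.Agent.Helper71.TU.B3

/-! # TU X2: the Koenigs chart up to the critical value -/

open Complex Set Filter Topology Metric Polynomial ComplexConjugate Pool.Tuning

namespace Pool.TU

noncomputable section

private lemma X2_loc (q : RQ) {z : ℂ} (hz : z ∈ HH) (h1 : 0 < (q.h.eval z).im)
    (h2 : q.h.eval z ≠ q.v) : 0 < z.im ∧ q.h.derivative.eval z ≠ 0 := by
  have hz' : 0 ≤ z.im := hz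
  have him : 0 < z.im := by
    rcases hz'.lt_or_eq with h | h
    · exact h
    · exfalso
      have hre : z = (z.re : ℂ) := by
        apply Complex.ext
        · simp
        · simp [← h]
      rw [hre, q.h_real] at h1
      simp at h1
  refine ⟨him, ?_⟩
  intro h
  rcases (q.crit_iff z).1 h with h | h | h
  · rw [h] at him; simp at him
  · exact h2 (by rw [h]; rfl)
  · rw [h] at him
    have := q.hc
    simp at him
    linarith

/-- lifting a disc avoiding the critical values -/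
theorem lift_disc (q : RQ) {K : ℂ → ℂ} {r : ℝ} (hr : 0 < r)
    (hK : DifferentiableOn ℂ K (ball 0 r)) (hi : InjOn K (ball 0 r))
    (hm : ∀ ζ ∈ ball (0 : ℂ) r, 0 < (K ζ).im) (hv : ∀ ζ ∈ ball (0 : ℂ) r, K ζ ≠ q.v) {μ : ℂ}
    (h0 : μ ≠ 0) (h1 : ‖μ‖ < 1) (hc : ∀ ζ ∈ ball (0 : ℂ) r, q.h.eval (K ζ) = K (μ * ζ)) :
    ∃ K' : ℂ → ℂ, DifferentiableOn ℂ K' (ball 0 (r / ‖μ‖)) ∧ InjOn K' (ball 0 (r / ‖μ‖)) ∧
      (∀ ζ ∈ ball (0 : ℂ) (r / ‖μ‖), 0 < (K' ζ).im) ∧ (∀ ζ ∈ ball (0 : ℂ) r, K' ζ = K ζ) ∧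
      ∀ ζ ∈ ball (0 : ℂ) (r / ‖μ‖), q.h.eval (K' ζ) = K' (μ * ζ) := by
  have hμ : 0 < ‖μ‖ := norm_pos_iff.2 h0
  have hrr : r ≤ r / ‖μ‖ := by
    rw [le_div_iff₀ hμ]
    nlinarith
  have hsub : ball (0 : ℂ) r ⊆ ball 0 (r / ‖μ‖) := ball_subset_ball hrr
  have hmul : ∀ ζ ∈ ball (0 : ℂ) (r / ‖μ‖), μ * ζ ∈ ball (0 : ℂ) r := by
    intro ζ hζ
    rw [mem_ball_zero_iff] at hζ ⊢
    rw [norm_mul]
    rw [lt_div_iff₀ hμ] at hζ
    linarith
  have h0r : (0 : ℂ) ∈ ball (0 : ℂ) r := mem_ball_self hr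
  have h0r' : (0 : ℂ) ∈ ball (0 : ℂ) (r / ‖μ‖) := hsub h0r
  set g : ℂ → ℂ := fun ζ => K (μ * ζ) with hg
  have hgd : DifferentiableOn ℂ g (ball 0 (r / ‖μ‖)) :=
    hK.comp (differentiable_id.const_mul μ).differentiableOn hmul
  set s : Set ℂ := {w | 0 < w.im ∧ w ≠ q.v} with hs
  have hso : IsOpen s :=
    (isOpen_lt continuous_const Complex.continuous_im).inter isOpen_ne
  have hE : IsClosed HH := isClosed_le continuous_const Complex.continuous_im
  have hEo : ∀ z : ℂ, 0 < z.im → z ∈ interior HH := by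
    intro z hz
    have : {w : ℂ | 0 < w.im} ⊆ interior HH :=
      interior_maximal (fun w (hw : 0 < w.im) => (le_of_lt hw : (0 : ℝ) ≤ w.im))
        (isOpen_lt continuous_const Complex.continuous_im)
    exact this hz
  have hgs : MapsTo g (ball 0 (r / ‖μ‖)) s := fun ζ hζ => ⟨hm _ (hmul ζ hζ), hv _ (hmul ζ hζ)⟩
  obtain ⟨l, hlc, hlE, hlg, hl0⟩ := lift_gen q.h (by rw [q.natDegree]; norm_num) hE hso
    (fun z hz hzs => ⟨hEo z (X2_loc q hz hzs.1 hzs.2).1, (X2_loc q hz hzs.1 hzs.2).2⟩)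
    (convex_ball (0 : ℂ) (r / ‖μ‖)) hgd.continuousOn hgs h0r'
    (show K 0 ∈ HH from (hm 0 h0r).le) (by simpa [hg] using hc 0 h0r)
  have hlp : ∀ ζ ∈ ball (0 : ℂ) (r / ‖μ‖), 0 < (l ζ).im ∧ q.h.derivative.eval (l ζ) ≠ 0 := by
    intro ζ hζ
    have h2 := hgs hζ
    rw [← hlg ζ hζ] at h2
    exact X2_loc q (hlE hζ) h2.1 h2.2
  have heq : ∀ ζ ∈ ball (0 : ℂ) r, l ζ = K ζ := by
    refine lift_uniq q.h (convex_ball (0 : ℂ) r).isPreconnected (hlc.mono hsub)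
      hK.continuousOn ?_ (fun x hx => (hlp x (hsub hx)).2) h0r hl0
    intro x hx
    rw [hlg x (hsub hx), hc x hx]
  refine ⟨l, ?_, ?_, fun ζ hζ => (hlp ζ hζ).1, heq, ?_⟩
  · intro ζ hζ
    have hder : HasStrictDerivAt (fun z => q.h.eval z) (q.h.derivative.eval (l ζ)) (l ζ) :=
      q.h.hasStrictDerivAt (l ζ)
    have hne := (hlp ζ hζ).2
    have hF := hder.hasStrictFDerivAt_equiv hne
    have hlca : ContinuousAt l ζ := hlc.continuousAt (isOpen_ball.mem_nhds hζ)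
    have hev := hlca.eventually hF.eventually_left_inverse
    have hinv : DifferentiableAt ℂ (hder.localInverse _ _ _ hne) (q.h.eval (l ζ)) :=
      (hder.to_localInverse hne).hasDerivAt.differentiableAt
    have hgda : DifferentiableAt ℂ g ζ := hgd.differentiableAt (isOpen_ball.mem_nhds hζ)
    rw [hlg ζ hζ] at hinv
    have hcomp : DifferentiableAt ℂ (fun x => hder.localInverse _ _ _ hne (g x)) ζ :=
      DifferentiableAt.comp ζ hinv hgda
    refine (hcomp.congr_of_eventuallyEq ?_).differentiableWithinAt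
    filter_upwards [hev, isOpen_ball.mem_nhds hζ] with x hx hxb
    rw [← hlg x hxb]
    exact hx.symm
  · intro x hx y hy hxy
    have h2 : g x = g y := by rw [← hlg x hx, ← hlg y hy, hxy]
    have h3 := hi (hmul x hx) (hmul y hy) h2
    exact mul_left_cancel₀ h0 h3
  · intro ζ hζ
    rw [hlg ζ hζ, heq _ (hmul ζ hζ)]

theorem exists_kc (q : RQ) (a : ℂ) (ha : 0 < a.im) (hfix : q.h.eval a = a)
    (h0 : q.h.derivative.eval a ≠ 0) (h1 : ‖q.h.derivative.eval a‖ < 1) :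
    ∃ C : KC q, C.K 0 = a ∧ C.μ = q.h.derivative.eval a := by
  set μ := q.h.derivative.eval a with hμdef
  have hμ : 0 < ‖μ‖ := norm_pos_iff.2 h0
  have hav : a ≠ q.v := by
    intro h
    have h2 := q.count_up.2 a ha (by rw [hfix, h])
    exact h0 ((q.crit_iff a).2 (Or.inr (Or.inl h2)))
  obtain ⟨K0, r0, hr0, hd0, hi0, hK0, hl0⟩ := koenigs_local q.h a hfix h0 h1
  have hKc : ContinuousAt K0 0 := (hd0.differentiableAt (ball_mem_nhds _ hr0)).continuousAt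
  have hev : ∀ᶠ ζ in 𝓝 (0 : ℂ), 0 < (K0 ζ).im ∧ K0 ζ ≠ q.v := by
    have hopen : IsOpen {w : ℂ | 0 < w.im ∧ w ≠ q.v} :=
      (isOpen_lt continuous_const Complex.continuous_im).inter isOpen_ne
    exact hKc.eventually (hopen.mem_nhds (by rw [hK0]; exact ⟨ha, hav⟩))
  obtain ⟨r1', hr1', hr1b⟩ := Metric.eventually_nhds_iff_ball.1 hev
  set r1 := min r0 r1' with hr1def
  have hr1 : 0 < r1 := lt_min hr0 hr1'
  have hs0 : ball (0 : ℂ) r1 ⊆ ball 0 r0 := ball_subset_ball (min_le_left _ _)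
  have hs1 : ball (0 : ℂ) r1 ⊆ ball 0 r1' := ball_subset_ball (min_le_right _ _)
  have key : ∃ (K : ℂ → ℂ) (R : ℝ), 0 < R ∧ r1 ≤ R ∧ DifferentiableOn ℂ K (ball 0 R) ∧
      InjOn K (ball 0 R) ∧ (∀ ζ ∈ ball (0 : ℂ) R, 0 < (K ζ).im) ∧
      (∀ ζ ∈ ball (0 : ℂ) R, q.h.eval (K ζ) = K (μ * ζ)) ∧
      (∀ ζ ∈ ball (0 : ℂ) r1, K ζ = K0 ζ) ∧ ∃ ζ ∈ ball (0 : ℂ) R, K ζ = q.v := by
    by_contra hcon
    push Not at hcon
    have hall : ∀ n : ℕ, ∃ K : ℂ → ℂ, r1 ≤ r1 / ‖μ‖ ^ n ∧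
        DifferentiableOn ℂ K (ball 0 (r1 / ‖μ‖ ^ n)) ∧
        InjOn K (ball 0 (r1 / ‖μ‖ ^ n)) ∧ (∀ ζ ∈ ball (0 : ℂ) (r1 / ‖μ‖ ^ n), 0 < (K ζ).im) ∧
        (∀ ζ ∈ ball (0 : ℂ) (r1 / ‖μ‖ ^ n), q.h.eval (K ζ) = K (μ * ζ)) ∧
        (∀ ζ ∈ ball (0 : ℂ) r1, K ζ = K0 ζ) := by
      intro n
      induction n with
      | zero =>
        refine ⟨K0, by simp, ?_, ?_, ?_, ?_, fun _ _ => rfl⟩ <;> rw [pow_zero, div_one]
        · exact hd0.mono hs0
        · exact hi0.mono hs0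
        · exact fun ζ hζ => (hr1b ζ (hs1 hζ)).1
        · exact fun ζ hζ => hl0 ζ (hs0 hζ)
      | succ n ih =>
        obtain ⟨K, hle, hKd, hKi, hKm, hKl, hKe⟩ := ih
        have hpos : 0 < r1 / ‖μ‖ ^ n := by positivity
        have hnv := hcon K _ hpos hle hKd hKi hKm hKl hKe
        obtain ⟨K', hK'd, hK'i, hK'm, hK'e, hK'l⟩ :=
          lift_disc q hpos hKd hKi hKm hnv h0 h1 hKl
        have hrw : r1 / ‖μ‖ ^ n / ‖μ‖ = r1 / ‖μ‖ ^ (n + 1) := by
          rw [pow_succ, div_div]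
        rw [hrw] at hK'd hK'i hK'm hK'l
        refine ⟨K', ?_, hK'd, hK'i, hK'm, hK'l, ?_⟩
        · rw [← hrw]
          refine hle.trans ?_
          rw [le_div_iff₀ hμ]
          nlinarith
        · intro ζ hζ
          rw [hK'e ζ (ball_subset_ball hle hζ), hKe ζ hζ]
    -- Schwarz
    set ζ1 : ℂ := ((r1 / 2 : ℝ) : ℂ) with hζ1
    have hn1 : ‖ζ1‖ = r1 / 2 := by
      rw [hζ1, Complex.norm_real, Real.norm_of_nonneg (by positivity)]
    have hζ1b : ζ1 ∈ ball (0 : ℂ) r1 := by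
      rw [mem_ball_zero_iff, hn1]; linarith
    have hζ10 : ζ1 ≠ 0 := by
      intro h; rw [h, norm_zero] at hn1; linarith
    set w0 : ℂ := (K0 ζ1 - a) / (K0 ζ1 - conj a) with hw0
    have hden : ∀ w : ℂ, 0 < w.im → w - conj a ≠ 0 := by
      intro w hw h
      have h2 : (w - conj a).im = 0 := by rw [h]; simp
      simp at h2
      linarith
    have hw0ne : w0 ≠ 0 := by
      rw [hw0]
      refine div_ne_zero ?_ (hden _ (hr1b _ (hs1 hζ1b)).1)
      intro h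
      have h2 : K0 ζ1 = K0 0 := by rw [hK0]; exact sub_eq_zero.1 h
      exact hζ10 (hi0 (hs0 hζ1b) (mem_ball_self hr0) h2)
    have hbound : ∀ n : ℕ, ‖w0‖ ≤ ‖μ‖ ^ n := by
      intro n
      obtain ⟨K, hle, hKd, hKi, hKm, hKl, hKe⟩ := hall n
      have hpos : 0 < r1 / ‖μ‖ ^ n := by positivity
      have hKz : K 0 = a := by rw [hKe 0 (mem_ball_self hr1), hK0]
      set f : ℂ → ℂ := fun ζ => (K ζ - a) / (K ζ - conj a) with hf
      have hfd : DifferentiableOn ℂ f (ball 0 (r1 / ‖μ‖ ^ n)) :=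
        (hKd.sub_const a).div (hKd.sub_const _) (fun ζ hζ => hden _ (hKm ζ hζ))
      have hf0 : f 0 = 0 := by simp [hf, hKz]
      have hfm : MapsTo f (ball 0 (r1 / ‖μ‖ ^ n)) (ball (f 0) 1) := by
        intro ζ hζ
        rw [hf0, mem_ball_zero_iff]
        simp only [hf]
        rw [norm_div, div_lt_one (norm_pos_iff.2 (hden _ (hKm ζ hζ)))]
        have h3 := hKm ζ hζ
        rw [← sq_lt_sq₀ (norm_nonneg _) (norm_nonneg _), ← Complex.normSq_eq_norm_sq,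
          ← Complex.normSq_eq_norm_sq, Complex.normSq_apply, Complex.normSq_apply]
        simp
        nlinarith
      have hζ1n : ζ1 ∈ ball (0 : ℂ) (r1 / ‖μ‖ ^ n) := ball_subset_ball hle hζ1b
      have h4 := Complex.dist_le_div_mul_dist_of_mapsTo_ball hfd
        (hfm.mono_right ball_subset_closedBall) hζ1n
      rw [hf0, dist_zero_right, dist_zero_right, hn1] at h4
      have h5 : f ζ1 = w0 := by simp only [hf, hw0]; rw [hKe ζ1 hζ1b]
      rw [h5] at h4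
      refine h4.trans ?_
      have h6 : 1 / (r1 / ‖μ‖ ^ n) * (r1 / 2) = ‖μ‖ ^ n / 2 := by
        field_simp
      rw [h6]
      have : 0 ≤ ‖μ‖ ^ n := by positivity
      linarith
    have hlim : Tendsto (fun n : ℕ => ‖μ‖ ^ n) atTop (𝓝 0) :=
      tendsto_pow_atTop_nhds_zero_of_lt_one (norm_nonneg _) h1
    have h7 : ‖w0‖ ≤ 0 := ge_of_tendsto' hlim hbound
    exact hw0ne (norm_le_zero_iff.1 h7)
  obtain ⟨K, R, hR, hr1R, hKd, hKi, hKm, hKl, hKe, ζv, hζv, hKv⟩ := key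
  have hKz : K 0 = a := by rw [hKe 0 (mem_ball_self hr1), hK0]
  have hζv0 : ζv ≠ 0 := by
    intro h; rw [h, hKz] at hKv; exact hav hKv
  have hn : 0 < ‖ζv‖ := norm_pos_iff.2 hζv0
  have hnR : ‖ζv‖ < R := mem_ball_zero_iff.1 hζv
  have hmul : ∀ ζ ∈ ball (0 : ℂ) (R / ‖ζv‖), ζv * ζ ∈ ball (0 : ℂ) R := by
    intro ζ hζ
    rw [mem_ball_zero_iff] at hζ ⊢
    rw [norm_mul]
    rw [lt_div_iff₀ hn] at hζ
    linarith
  refine ⟨{ K := fun ζ => K (ζv * ζ)
            R1 := R / ‖ζv‖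
            μ := μ
            hR1 := (one_lt_div hn).2 hnR
            diff := hKd.comp (differentiable_id.const_mul ζv).differentiableOn hmul
            inj := ?_
            maps := fun ζ hζ => hKm _ (hmul ζ hζ)
            one := by simpa using hKv
            μ0 := h0
            μ1 := h1
            lin := ?_ }, ?_, rfl⟩
  · intro x hx y hy hxy
    exact mul_left_cancel₀ hζv0 (hKi (hmul x hx) (hmul y hy) hxy)
  · intro ζ hζ
    change q.h.eval (K (ζv * ζ)) = K (ζv * (μ * ζ))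
    rw [hKl _ (hmul ζ hζ)]
    congr 1
    ring
  · simpa using hKz

end

end Pool.TU
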