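import Pool.Agent.Helper71.TU.L3

/-! # TU X3: retractions off half discs -/

open Complex Set Filter Topology Metric Polynomial ComplexConjugate Pool.Tuning

namespace Pool.TU

noncomputable section

/-- the half disc -/
def x3H (δ : ℝ) : Set ℂ := {t | ‖t‖ ≤ δ ∧ 0 ≤ t.im}

theorem x3H_closed (δ : ℝ) : IsClosed (x3H δ) :=
  (isClosed_le continuous_norm continuous_const).inter
    (isClosed_le continuous_const Complex.continuous_im)

theorem x3H_compact (δ : ℝ) : IsCompact (x3H δ) := by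
  refine (isCompact_closedBall (0 : ℂ) δ).of_isClosed_subset (x3H_closed δ) ?_
  intro t ht
  rw [mem_closedBall, dist_zero_right]
  exact ht.1

theorem x3H_convex (δ : ℝ) : Convex ℝ (x3H δ) := by
  have h1 : Convex ℝ (closedBall (0 : ℂ) δ) := convex_closedBall 0 δ
  have h2 : Convex ℝ {t : ℂ | 0 ≤ t.im} := convex_halfSpace_im_ge 0
  have h3 : x3H δ = closedBall (0 : ℂ) δ ∩ {t : ℂ | 0 ≤ t.im} := by
    ext t
    simp [x3H]
  rw [h3]
  exact h1.inter h2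

/-- vertical projection of the half disc to its arc -/
def x3p (δ : ℝ) (t : ℂ) : ℂ := (t.re : ℂ) + (Real.sqrt (δ ^ 2 - t.re ^ 2) : ℝ) * I

theorem x3p_cont (δ : ℝ) : Continuous (x3p δ) := by
  unfold x3p
  fun_prop

theorem x3p_re (δ : ℝ) (t : ℂ) : (x3p δ t).re = t.re := by
  simp [x3p]

theorem x3p_im (δ : ℝ) (t : ℂ) : (x3p δ t).im = Real.sqrt (δ ^ 2 - t.re ^ 2) := by
  simp [x3p]

theorem x3_sq (t : ℂ) : ‖t‖ ^ 2 = t.re ^ 2 + t.im ^ 2 := by
  rw [← Complex.normSq_eq_norm_sq, Complex.normSq_apply]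
  ring

theorem x3p_norm {δ : ℝ} (hδ : 0 < δ) {t : ℂ} (ht : t ∈ x3H δ) : ‖x3p δ t‖ = δ := by
  have h1 : ‖x3p δ t‖ ^ 2 = δ ^ 2 := by
    rw [x3_sq, x3p_re, x3p_im, Real.sq_sqrt]
    · ring
    · have h2 := x3_sq t
      have h3 : ‖t‖ ^ 2 ≤ δ ^ 2 := by
        have := ht.1
        gcongr
      nlinarith [sq_nonneg t.im]
  have h4 : 0 ≤ ‖x3p δ t‖ := norm_nonneg _
  nlinarith

theorem x3p_mem {δ : ℝ} (hδ : 0 < δ) {t : ℂ} (ht : t ∈ x3H δ) : x3p δ t ∈ x3H δ := by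
  refine ⟨(x3p_norm hδ ht).le, ?_⟩
  rw [x3p_im]
  exact Real.sqrt_nonneg _

theorem x3p_id {δ : ℝ} {t : ℂ} (ht : t ∈ x3H δ) (hn : ‖t‖ = δ) : x3p δ t = t := by
  apply Complex.ext
  · rw [x3p_re]
  · rw [x3p_im]
    have h2 := x3_sq t
    have h3 : δ ^ 2 - t.re ^ 2 = t.im ^ 2 := by
      rw [hn] at h2
      linarith
    rw [h3, Real.sqrt_sq ht.2]

section

variable {C Co : Set ℂ} {δ : ℝ} {τ : ℂ → ℂ}

/-- the inverse of the chart -/
def x3s (δ : ℝ) (τ : ℂ → ℂ) : ℂ → ℂ := Function.invFunOn τ (x3H δ)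

theorem x3_img (h : HC C Co δ τ) : τ '' x3H δ = C := h.img

theorem x3_closedC (h : HC C Co δ τ) : IsClosed C := by
  rw [← x3_img h]
  exact ((x3H_compact δ).image_of_continuousOn h.cont).isClosed

theorem x3s_mem (h : HC C Co δ τ) {z : ℂ} (hz : z ∈ C) : x3s δ τ z ∈ x3H δ := by
  rw [← x3_img h] at hz
  exact Function.invFunOn_mem hz

theorem x3s_eq (h : HC C Co δ τ) {z : ℂ} (hz : z ∈ C) : τ (x3s δ τ z) = z := by
  rw [← x3_img h] at hz
  exact Function.invFunOn_eq hz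

theorem x3s_cont (h : HC C Co δ τ) : ContinuousOn (x3s δ τ) C := by
  rw [continuousOn_iff_isClosed]
  intro F hF
  refine ⟨τ '' (x3H δ ∩ F), ?_, ?_⟩
  · have h1 : IsCompact (x3H δ ∩ F) := (x3H_compact δ).inter_right hF
    exact (h1.image_of_continuousOn (h.cont.mono inter_subset_left)).isClosed
  · ext z
    constructor
    · rintro ⟨h1, h2⟩
      exact ⟨⟨x3s δ τ z, ⟨x3s_mem h h2, h1⟩, x3s_eq h h2⟩, h2⟩
    · rintro ⟨⟨t, ⟨ht, htF⟩, rfl⟩, h2⟩
      refine ⟨?_, h2⟩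
      have h3 : x3s δ τ (τ t) = t := h.inj (x3s_mem h h2) ht (x3s_eq h h2)
      rw [mem_preimage, h3]
      exact htF

theorem x3_notmem (h : HC C Co δ τ) {t : ℂ} (ht : t ∈ x3H δ) (hn : ‖t‖ = δ) :
    τ t ∈ C \ Co := by
  refine ⟨?_, ?_⟩
  · rw [← x3_img h]
    exact mem_image_of_mem _ ht
  · intro h1
    rw [← h.imgo] at h1
    obtain ⟨t', ⟨h2, h3⟩, h4⟩ := h1
    have h5 : t' = t := h.inj ⟨h2.le, h3⟩ ht h4
    rw [h5] at h2
    exact absurd hn (ne_of_lt h2)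

theorem x3_sub (h : HC C Co δ τ) : Co ⊆ C := by
  rw [← h.imgo, ← h.img]
  apply image_mono
  rintro t ⟨h1, h2⟩
  exact ⟨h1.le, h2⟩

theorem x3_normσ (h : HC C Co δ τ) {z : ℂ} (hz : z ∈ C) (hzo : z ∉ Co) :
    ‖x3s δ τ z‖ = δ := by
  by_contra h1
  have h2 := x3s_mem h hz
  have h3 : ‖x3s δ τ z‖ < δ := lt_of_le_of_ne h2.1 h1
  apply hzo
  rw [← h.imgo]
  exact ⟨x3s δ τ z, ⟨h3, h2.2⟩, x3s_eq h hz⟩

theorem x3_closedD (h : HC C Co δ τ) : IsClosed (DD \ Co) := by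
  obtain ⟨O, hO, hOe⟩ := h.openo
  have h1 : DD \ Co = DD ∩ Oᶜ := by
    ext z
    rw [hOe]
    simp only [Set.mem_sdiff, mem_inter_iff, mem_compl_iff]
    tauto
  rw [h1]
  exact isClosed_closedBall.inter hO.isClosed_compl

theorem x3_cover (h : HC C Co δ τ) : DD = C ∪ (DD \ Co) := by
  ext z
  constructor
  · intro hz
    by_cases h1 : z ∈ Co
    · exact Or.inl (x3_sub h h1)
    · exact Or.inr ⟨hz, h1⟩
  · rintro (h1 | h1)
    · exact h.sub h1
    · exact h1.1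

open Classical in
/-- gluing a function on `C` with one on `DD \ Co` -/
theorem x3_glue (h : HC C Co δ τ) {f g : ℂ → ℂ} (hf : ContinuousOn f C)
    (hg : ContinuousOn g (DD \ Co)) (hfg : ∀ z ∈ C, z ∉ Co → f z = g z) :
    ContinuousOn (fun z => if z ∈ C then f z else g z) DD := by
  rw [x3_cover h]
  refine ContinuousOn.union_of_isClosed ?_ ?_ (x3_closedC h) (x3_closedD h)
  · refine hf.congr ?_
    intro z hz
    simp only [if_pos hz]
  · refine hg.congr ?_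
    intro z hz
    by_cases h1 : z ∈ C
    · simp only [if_pos h1]
      exact hfg z h1 hz.2
    · simp only [if_neg h1]

end

/-- retraction of the disc off a half disc -/
theorem exists_ret {C Co : Set ℂ} {δ : ℝ} {τ : ℂ → ℂ} (h : HC C Co δ τ) :
    ∃ rt : ℂ → ℂ, ContinuousOn rt DD ∧ MapsTo rt DD (DD \ Co) ∧ (∀ z ∈ DD \ Co, rt z = z) ∧
      ∀ z ∈ Co, rt z ∈ C \ Co := by
  classical
  have hf : ContinuousOn (fun z => τ (x3p δ (x3s δ τ z))) C := by
    have h1 : ContinuousOn (fun z => x3p δ (x3s δ τ z)) C :=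
      (x3p_cont δ).comp_continuousOn (x3s_cont h)
    have h2 : MapsTo (fun z => x3p δ (x3s δ τ z)) C (x3H δ) := by
      intro z hz
      exact x3p_mem h.pos (x3s_mem h hz)
    exact ContinuousOn.comp (g := τ) (t := x3H δ) h.cont h1 h2
  have hid : ∀ z ∈ C, z ∉ Co → τ (x3p δ (x3s δ τ z)) = z := by
    intro z hz hzo
    rw [x3p_id (x3s_mem h hz) (x3_normσ h hz hzo), x3s_eq h hz]
  refine ⟨fun z => if z ∈ C then τ (x3p δ (x3s δ τ z)) else z, ?_, ?_, ?_, ?_⟩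
  · exact x3_glue h hf continuousOn_id hid
  · intro z hz
    by_cases h1 : z ∈ C
    · simp only [if_pos h1]
      have h2 := x3_notmem h (x3p_mem h.pos (x3s_mem h h1)) (x3p_norm h.pos (x3s_mem h h1))
      exact ⟨h.sub h2.1, h2.2⟩
    · simp only [if_neg h1]
      exact ⟨hz, fun h2 => h1 (x3_sub h h2)⟩
  · intro z hz
    by_cases h1 : z ∈ C
    · simp only [if_pos h1]
      exact hid z h1 hz.2
    · simp only [if_neg h1]
  · intro z hz
    have h1 : z ∈ C := x3_sub h hz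
    simp only [if_pos h1]
    exact x3_notmem h (x3p_mem h.pos (x3s_mem h h1)) (x3p_norm h.pos (x3s_mem h h1))

theorem x3_expDD {u : ℂ} : exp u ∈ DD ↔ u ∈ UU := by
  rw [DD, mem_closedBall, dist_zero_right, Complex.norm_exp, Real.exp_le_one_iff]
  rfl

theorem x3_exp_add (u : ℂ) : exp (u + tpi) = exp u := by
  rw [tpi, Complex.exp_add, Complex.exp_two_pi_mul_I, mul_one]

/-- hat version, if the half disc does not contain `0` -/
theorem exists_hret {C Co : Set ℂ} {δ : ℝ} {τ : ℂ → ℂ} (h : HC C Co δ τ) (h0 : (0 : ℂ) ∉ C) :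
    ∃ rh : ℂ → ℂ, HRet Co rh ∧ ∀ u ∈ UU, exp u ∈ Co → exp (rh u) ∈ C \ Co := by
  classical
  have hτ0 : ∀ t ∈ x3H δ, τ t ≠ 0 := by
    intro t ht h1
    apply h0
    rw [← x3_img h, ← h1]
    exact mem_image_of_mem _ ht
  obtain ⟨ℓ, hℓc, hℓe⟩ := exists_log (x3H_convex δ) τ h.cont hτ0
  have hf : ContinuousOn (fun z => ℓ (x3p δ (x3s δ τ z)) - ℓ (x3s δ τ z)) C := by
    have h1 : ContinuousOn (fun z => x3p δ (x3s δ τ z)) C :=
      (x3p_cont δ).comp_continuousOn (x3s_cont h)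
    have h2 : MapsTo (fun z => x3p δ (x3s δ τ z)) C (x3H δ) := by
      intro z hz
      exact x3p_mem h.pos (x3s_mem h hz)
    have h3 : MapsTo (x3s δ τ) C (x3H δ) := fun z hz => x3s_mem h hz
    exact (ContinuousOn.comp (g := ℓ) (t := x3H δ) hℓc h1 h2).sub
      (ContinuousOn.comp (g := ℓ) (t := x3H δ) hℓc (x3s_cont h) h3)
  have hid : ∀ z ∈ C, z ∉ Co → ℓ (x3p δ (x3s δ τ z)) - ℓ (x3s δ τ z) = 0 := by
    intro z hz hzo
    rw [x3p_id (x3s_mem h hz) (x3_normσ h hz hzo), sub_self]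
  have hexp : ∀ u : ℂ, exp u ∈ C → exp (u + (ℓ (x3p δ (x3s δ τ (exp u))) -
      ℓ (x3s δ τ (exp u)))) = τ (x3p δ (x3s δ τ (exp u))) := by
    intro u hu
    have h1 := x3s_mem h hu
    rw [Complex.exp_add, Complex.exp_sub, hℓe _ (x3p_mem h.pos h1), hℓe _ h1, x3s_eq h hu]
    field_simp
  obtain ⟨d, hdef⟩ : ∃ d : ℂ → ℂ, d = fun z => if z ∈ C then
    ℓ (x3p δ (x3s δ τ z)) - ℓ (x3s δ τ z) else 0 := ⟨_, rfl⟩
  have hd1 : ∀ z ∈ C, d z = ℓ (x3p δ (x3s δ τ z)) - ℓ (x3s δ τ z) := by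
    intro z hz
    rw [hdef]
    simp only [if_pos hz]
  have hd2 : ∀ z ∉ Co, d z = 0 := by
    intro z hz
    by_cases h1 : z ∈ C
    · rw [hd1 z h1]
      exact hid z h1 hz
    · rw [hdef]
      simp only [if_neg h1]
  have hdc : ContinuousOn d DD := by
    rw [hdef]
    exact x3_glue h hf continuousOn_const hid
  have hval : ∀ u ∈ UU, exp (u + d (exp u)) ∈ DD \ Co := by
    intro u hu
    by_cases h1 : exp u ∈ C
    · rw [hd1 _ h1, hexp u h1]
      have h2 := x3_notmem h (x3p_mem h.pos (x3s_mem h h1)) (x3p_norm h.pos (x3s_mem h h1))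
      exact ⟨h.sub h2.1, h2.2⟩
    · have h3 : exp u ∉ Co := fun h2 => h1 (x3_sub h h2)
      rw [hd2 _ h3, add_zero]
      exact ⟨x3_expDD.2 hu, h3⟩
  refine ⟨fun u => u + d (exp u), ⟨?_, ?_, ?_, ?_⟩, ?_⟩
  · refine continuousOn_id.add (ContinuousOn.comp (g := d) (t := DD) hdc
      Complex.continuous_exp.continuousOn ?_)
    intro u hu
    exact x3_expDD.2 hu
  · intro u hu
    have h1 := hval u hu
    exact ⟨x3_expDD.1 h1.1, h1.2⟩
  · intro u hu
    rw [hd2 _ hu.2, add_zero]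
  · intro u _
    rw [x3_exp_add]
    ring
  · intro u hu huo
    have h1 : exp u ∈ C := x3_sub h huo
    change exp (u + d (exp u)) ∈ C \ Co
    rw [hd1 _ h1, hexp u h1]
    exact x3_notmem h (x3p_mem h.pos (x3s_mem h h1)) (x3p_norm h.pos (x3s_mem h h1))

end

end Pool.TU
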