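import Pool.Agent.Helper71.TU.L3

/-! # TU X4: linking, hyperbolic type -/

open Complex Set Filter Topology Metric Polynomial ComplexConjugate Pool.Tuning

namespace Pool.TU

noncomputable section

theorem x4_tpi_re : tpi.re = 0 := by
  simp [tpi]

theorem x4_tpi_im : tpi.im = 2 * Real.pi := by
  simp [tpi]

theorem x4_re (u : ℂ) (k : ℤ) : (u + k * tpi).re = u.re := by
  simp [x4_tpi_re]

theorem x4_im (u : ℂ) (k : ℤ) : (u + k * tpi).im = u.im + k * (2 * Real.pi) := by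
  simp [x4_tpi_im]

theorem x4_shift {f : ℂ → ℂ} (hf : ∀ u ∈ UU, f (u + tpi) = f u + tpi) :
    ∀ k : ℤ, ∀ u ∈ UU, f (u + k * tpi) = f u + k * tpi := by
  intro k
  induction k using Int.induction_on with
  | zero =>
    intro u _
    simp
  | succ n ih =>
    intro u hu
    have h1 : u + ((n : ℤ) : ℂ) * tpi ∈ UU := by
      change (u + ((n : ℤ) : ℂ) * tpi).re ≤ 0
      rw [x4_re]
      exact hu
    have h2 := hf _ h1
    rw [ih u hu] at h2
    have h3 : u + (((n : ℤ) + 1 : ℤ) : ℂ) * tpi = u + ((n : ℤ) : ℂ) * tpi + tpi := by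
      push_cast
      ring
    rw [h3, h2]
    push_cast
    ring
  | pred n ih =>
    intro u hu
    have h1 : u + ((-(n : ℤ) - 1 : ℤ) : ℂ) * tpi ∈ UU := by
      change (u + ((-(n : ℤ) - 1 : ℤ) : ℂ) * tpi).re ≤ 0
      rw [x4_re]
      exact hu
    have h2 := hf _ h1
    have h3 : u + ((-(n : ℤ) - 1 : ℤ) : ℂ) * tpi + tpi = u + ((-(n : ℤ) : ℤ) : ℂ) * tpi := by
      push_cast
      ring
    rw [h3, ih u hu] at h2
    have h4 : f (u + ((-(n : ℤ) - 1 : ℤ) : ℂ) * tpi) =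
        f u + ((-(n : ℤ) : ℤ) : ℂ) * tpi - tpi := by
      rw [h2]
      ring
    rw [h4]
    push_cast
    ring

/-- a map commuting with the translation moves the points of a strip by a bounded amount -/
theorem x4_disp {f : ℂ → ℂ} (hc : ContinuousOn f UU)
    (hf : ∀ u ∈ UU, f (u + tpi) = f u + tpi) (M : ℝ) :
    ∃ D : ℝ, ∀ u ∈ UU, -M ≤ u.re → ‖f u - u‖ ≤ D := by
  have hK : IsCompact (Icc (-M) 0 ×ℂ Icc 0 (2 * Real.pi)) :=
    isCompact_Icc.reProdIm isCompact_Icc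
  have hsub : (Icc (-M) 0 ×ℂ Icc 0 (2 * Real.pi)) ⊆ UU := by
    intro u hu
    exact hu.1.2
  obtain ⟨D, hD⟩ := hK.exists_bound_of_continuousOn
    ((hc.mono hsub).sub continuousOn_id)
  refine ⟨D, ?_⟩
  intro u hu hM
  have hpi : 0 < 2 * Real.pi := by positivity
  obtain ⟨k, hk⟩ : ∃ k : ℤ, k = -⌊u.im / (2 * Real.pi)⌋ := ⟨_, rfl⟩
  have h1 : u + (k : ℂ) * tpi ∈ (Icc (-M) 0 ×ℂ Icc 0 (2 * Real.pi)) := by
    refine ⟨?_, ?_⟩
    · rw [mem_preimage, x4_re]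
      exact ⟨hM, hu⟩
    · rw [mem_preimage, x4_im, hk]
      have h2 := Int.floor_le (u.im / (2 * Real.pi))
      have h3 := Int.lt_floor_add_one (u.im / (2 * Real.pi))
      rw [le_div_iff₀ hpi] at h2
      rw [div_lt_iff₀ hpi] at h3
      push_cast
      constructor
      · linarith
      · linarith
  have h4 := hD _ h1
  have h5 := x4_shift hf k u hu
  have h6 : f (u + (k : ℂ) * tpi) - (u + (k : ℂ) * tpi) = f u - u := by
    rw [h5]
    ring
  change ‖f (u + (k : ℂ) * tpi) - (u + (k : ℂ) * tpi)‖ ≤ D at h4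
  rw [h6] at h4
  exact h4

/-- points off a rigid set are in a strip -/
theorem x4_strip {S : TS} (A : XS S) : ∃ M : ℝ, ∀ u ∈ OO A.Xo, -M ≤ u.re := by
  obtain ⟨O, hO, hXo⟩ := A.Xo_open
  have h0 : (0 : ℂ) ∈ O := by
    have := A.zero_mem
    rw [hXo] at this
    exact this.1
  obtain ⟨r, hr, hball⟩ := Metric.isOpen_iff.1 hO 0 h0
  refine ⟨-Real.log r, ?_⟩
  intro u hu
  rw [neg_neg]
  by_contra h1
  push Not at h1
  apply hu.2
  rw [hXo]
  refine ⟨hball ?_, ?_⟩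
  · rw [mem_ball, dist_zero_right, Complex.norm_exp]
    exact (Real.lt_log_iff_exp_lt hr).1 h1
  · rw [DD, mem_closedBall, dist_zero_right, Complex.norm_exp, Real.exp_le_one_iff]
    exact hu.1

/-- Linking for rigid sets with a hat retraction. -/
theorem linked_hyp {S : TS} (A : XS S) {rh : ℂ → ℂ} (h : HRet A.Xo rh) {Eo : Set ℂ}
    {rE : ℂ → ℂ} (hE : HRet Eo rE) (hEX : ∀ u ∈ OO A.Xo, rE u ∈ OO A.Xo)
    (h1 : (1 : ℂ) ∈ Eo) (hEo : ∃ O, IsOpen O ∧ Eo = O ∩ DD) : Linked A (A.Xo ∪ Eo) := by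
  intro R
  obtain ⟨M, hM⟩ := x4_strip A
  obtain ⟨f, hf⟩ : ∃ f : ℂ → ℂ, f = fun u => rE (rh u) := ⟨_, rfl⟩
  have hrU : ∀ u ∈ UU, rh u ∈ UU := fun u hu => (h.maps hu).1
  have hfc : ContinuousOn f UU := by
    rw [hf]
    exact ContinuousOn.comp (g := rE) (t := UU) hE.cont h.cont hrU
  have hfp : ∀ u ∈ UU, f (u + tpi) = f u + tpi := by
    intro u hu
    rw [hf]
    change rE (rh (u + tpi)) = rE (rh u) + tpi
    rw [h.period u hu, hE.period _ (hrU u hu)]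
  have hfm : ∀ u ∈ UU, f u ∈ OO (A.Xo ∪ Eo) := by
    intro u hu
    rw [hf]
    change rE (rh u) ∈ OO (A.Xo ∪ Eo)
    have h2 := hEX _ (h.maps hu)
    have h3 := hE.maps (hrU u hu)
    refine ⟨h2.1, ?_⟩
    rintro (h4 | h4)
    · exact h2.2 h4
    · exact h3.2 h4
  have hfi : ∀ u ∈ OO (A.Xo ∪ Eo), f u = u := by
    intro u hu
    rw [hf]
    change rE (rh u) = u
    have h2 : u ∈ OO A.Xo := ⟨hu.1, fun h3 => hu.2 (Or.inl h3)⟩
    have h3 : u ∈ OO Eo := ⟨hu.1, fun h3 => hu.2 (Or.inr h3)⟩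
    rw [h.id u h2, hE.id u h3]
  obtain ⟨D, hD⟩ := x4_disp hfc hfp M
  refine ⟨2 * D + 2 * R, ?_⟩
  intro a ha b hb _ hab
  have haX : a ∈ OO A.Xo := ⟨ha.1, fun h3 => ha.2 (Or.inl h3)⟩
  have hbX : b ∈ OO A.Xo := ⟨hb.1, fun h3 => hb.2 (Or.inl h3)⟩
  have hconv : Convex ℝ {u : ℂ | u.re ≤ 0} := convex_halfSpace_re_le 0
  have hconv2 : Convex ℝ {u : ℂ | -M ≤ u.re} := convex_halfSpace_re_ge (-M)
  have hsU : segment ℝ a b ⊆ UU := hconv.segment_subset ha.1 hb.1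
  have hsM : segment ℝ a b ⊆ {u : ℂ | -M ≤ u.re} := hconv2.segment_subset (hM a haX) (hM b hbX)
  have hR : 0 ≤ R := le_trans (norm_nonneg _) hab
  have hsB : segment ℝ a b ⊆ closedBall a R := by
    refine (convex_closedBall a R).segment_subset ?_ ?_
    · rw [mem_closedBall, dist_self]
      exact hR
    · rw [mem_closedBall, dist_comm, dist_eq_norm]
      exact hab
  refine ⟨f '' segment ℝ a b, ⟨?_, ?_, ?_⟩, ?_, ?_⟩
  · rintro _ ⟨u, hu, rfl⟩
    exact hfm u (hsU hu)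
  · exact (convex_segment a b).isPreconnected.image f (hfc.mono hsU)
  · rintro _ ⟨x, hx, rfl⟩ _ ⟨y, hy, rfl⟩
    have h2 := hD x (hsU hx) (hsM hx)
    have h3 := hD y (hsU hy) (hsM hy)
    have h4 := hsB hx
    have h5 := hsB hy
    rw [mem_closedBall, dist_eq_norm] at h4 h5
    have h6 : f x - f y = (f x - x) - (f y - y) + ((x - a) - (y - a)) := by ring
    rw [h6]
    calc ‖(f x - x) - (f y - y) + ((x - a) - (y - a))‖
        ≤ ‖(f x - x) - (f y - y)‖ + ‖(x - a) - (y - a)‖ := norm_add_le _ _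
      _ ≤ (‖f x - x‖ + ‖f y - y‖) + (‖x - a‖ + ‖y - a‖) :=
          add_le_add (norm_sub_le _ _) (norm_sub_le _ _)
      _ ≤ 2 * D + 2 * R := by linarith
  · exact ⟨a, left_mem_segment ℝ a b, hfi a ha⟩
  · exact ⟨b, right_mem_segment ℝ a b, hfi b hb⟩

end

end Pool.TU
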