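import Pool.Agent.Helper71.TU.X2
import Pool.Agent.Helper71.TU.B15
import Pool.Agent.Helper71.TU.B1
import Pool.Agent.Helper71.TU.L3
import Pool.Agent.Helper71.TU.X5aux

/-! # TU X5: the rigid set of hyperbolic type -/

open Complex Set Filter Topology Metric Polynomial ComplexConjugate Pool.Tuning

namespace Pool.TU

noncomputable section

namespace X5

theorem exp_add_tpi (u : ℂ) : exp (u + tpi) = exp u := by
  rw [exp_add, tpi, exp_two_pi_mul_I, mul_one]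

theorem tpi_re : tpi.re = 0 := by simp [tpi]

theorem isClosed_UU : IsClosed UU := isClosed_le Complex.continuous_re continuous_const

theorem convex_UU : Convex ℝ UU := convex_halfSpace_re_le 0

/-- the inverse of a continuous injection on a compact set is continuous on the image -/
theorem cont_invFunOn {f : ℂ → ℂ} {K : Set ℂ} (hK : IsCompact K)
    (hf : ContinuousOn f K) (hi : InjOn f K) :
    ContinuousOn (Function.invFunOn f K) (f '' K) := by
  rw [continuousOn_iff_isClosed]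
  intro t ht
  refine ⟨f '' (K ∩ t), ((hK.inter_right ht).image_of_continuousOn
    (hf.mono inter_subset_left)).isClosed, ?_⟩
  ext z
  constructor
  · rintro ⟨hz, x, hx, rfl⟩
    refine ⟨⟨x, ⟨hx, ?_⟩, rfl⟩, x, hx, rfl⟩
    have : Function.invFunOn f K (f x) = x := hi.leftInvOn_invFunOn hx
    rw [mem_preimage, this] at hz
    exact hz
  · rintro ⟨⟨x, ⟨hx, hxt⟩, rfl⟩, -⟩
    refine ⟨?_, x, hx, rfl⟩
    have : Function.invFunOn f K (f x) = x := hi.leftInvOn_invFunOn hx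
    rw [mem_preimage, this]
    exact hxt

/-! ### the exit time of the ray from `1` -/

/-- exit time -/
def ex (R : ℝ) (ζ : ℂ) : ℝ :=
  (-(ζ - 1).re + Real.sqrt ((ζ - 1).re ^ 2 + ‖ζ - 1‖ ^ 2 * (R ^ 2 - 1))) / ‖ζ - 1‖ ^ 2

theorem normSq_aux (w : ℂ) (t : ℝ) : ‖1 + t * w‖ ^ 2 = 1 + 2 * t * w.re + t ^ 2 * ‖w‖ ^ 2 := by
  rw [← Complex.normSq_eq_norm_sq, ← Complex.normSq_eq_norm_sq, Complex.normSq_apply,
    Complex.normSq_apply]
  simp
  ring

theorem ex_spec {R : ℝ} (hR : 1 < R) {ζ : ℂ} (hζ : ζ ∈ closedBall (0 : ℂ) R) (h1 : ζ ≠ 1) :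
    ‖1 + (ex R ζ) * (ζ - 1)‖ = R ∧ 1 ≤ ex R ζ ∧ (‖ζ‖ = R → ex R ζ = 1) := by
  set w := ζ - 1 with hw
  have hw0 : w ≠ 0 := sub_ne_zero.2 h1
  have ha : 0 < ‖w‖ ^ 2 := by positivity
  set a := ‖w‖ ^ 2 with had
  set b := w.re with hbd
  have hR2 : 0 < R ^ 2 - 1 := by nlinarith
  have hD : 0 < b ^ 2 + a * (R ^ 2 - 1) := by positivity
  set s := Real.sqrt (b ^ 2 + a * (R ^ 2 - 1)) with hs
  have hs2 : s ^ 2 = b ^ 2 + a * (R ^ 2 - 1) := Real.sq_sqrt hD.le
  have hex : ex R ζ = (-b + s) / a := rfl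
  have hζn : ‖ζ‖ ^ 2 = 1 + 2 * b + a := by
    have := normSq_aux w 1
    have h2 : (1 : ℂ) + ((1 : ℝ) : ℂ) * w = ζ := by rw [hw]; push_cast; ring
    rw [h2] at this
    rw [this]; ring
  have hζ2 : ‖ζ‖ ≤ R := by simpa using hζ
  have hζR : ‖ζ‖ ^ 2 ≤ R ^ 2 := pow_le_pow_left₀ (norm_nonneg _) hζ2 2
  refine ⟨?_, ?_, ?_⟩
  · have h3 := normSq_aux w (ex R ζ)
    have h4 : 1 + 2 * ex R ζ * w.re + ex R ζ ^ 2 * ‖w‖ ^ 2 = R ^ 2 := by
      rw [← hbd, ← had, hex]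
      field_simp
      nlinarith
    rw [h4] at h3
    exact (pow_left_inj₀ (norm_nonneg _) (by linarith) two_ne_zero).1 h3
  · rw [hex, le_div_iff₀ ha]
    have h5 : (a + b) ^ 2 ≤ b ^ 2 + a * (R ^ 2 - 1) := by nlinarith
    have h6 := Real.abs_le_sqrt h5
    have h7 := le_abs_self (a + b)
    linarith
  · intro hR'
    rw [hex, div_eq_one_iff_eq ha.ne']
    have h8 : b ^ 2 + a * (R ^ 2 - 1) = (a + b) ^ 2 := by
      rw [← hR', hζn]; ring
    have h9 : 0 ≤ a + b := by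
      rw [hR'] at hζn
      nlinarith
    rw [hs, h8, Real.sqrt_sq h9]
    ring

theorem ex_cont (R : ℝ) : ContinuousOn (ex R) {1}ᶜ := by
  unfold ex
  apply ContinuousOn.div
  · fun_prop
  · fun_prop
  · intro ζ hζ
    have : ζ - 1 ≠ 0 := sub_ne_zero.2 hζ
    positivity

section

variable {τ : ℂ → ℂ} {R R1 : ℝ}

/-- the logarithm of `τ ζ / (ζ - 1)` -/
theorem exists_eps (hR1 : 1 < R1) (hR : R < R1) (hd : DifferentiableOn ℂ τ (ball 0 R1))
    (hi : InjOn τ (ball 0 R1)) (h1 : τ 1 = 0) :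
    ∃ ε : ℂ → ℂ, ContinuousOn ε (closedBall 0 R) ∧
      ∀ ζ ∈ closedBall (0 : ℂ) R, τ ζ = (ζ - 1) * exp (ε ζ) := by
  have h1m : (1 : ℂ) ∈ ball (0 : ℂ) R1 := by simpa using hR1
  have hsub : closedBall (0 : ℂ) R ⊆ ball 0 R1 := closedBall_subset_ball hR
  have hds : DifferentiableOn ℂ (dslope τ 1) (ball 0 R1) :=
    (Complex.differentiableOn_dslope (isOpen_ball.mem_nhds h1m)).2 hd
  obtain ⟨ε, hε, he⟩ := exists_log (convex_closedBall 0 R) (dslope τ 1)
    (hds.continuousOn.mono hsub) (by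
      intro ζ hζ
      by_cases h : ζ = 1
      · rw [h, dslope_same]
        exact deriv_ne_zero_of_injOn isOpen_ball hd hi h1m
      · intro h0
        have := sub_smul_dslope τ 1 ζ
        rw [h0, smul_zero, h1, sub_zero] at this
        rw [← h1] at this
        exact h (hi (hsub hζ) h1m this.symm))
  refine ⟨ε, hε, fun ζ hζ => ?_⟩
  rw [he ζ hζ]
  have := sub_smul_dslope τ 1 ζ
  rw [h1, sub_zero, smul_eq_mul] at this
  exact this.symm

open Classical in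
/-- the hat retraction -/
theorem exists_ret (hR1 : 1 < R) {ε : ℂ → ℂ} (hc : ContinuousOn τ (closedBall 0 R))
    (hi : InjOn τ (closedBall 0 R)) (hn : ∀ ζ ∈ closedBall (0 : ℂ) R, ‖τ ζ‖ ≤ 1)
    (hε : ContinuousOn ε (closedBall 0 R))
    (hτ : ∀ ζ ∈ closedBall (0 : ℂ) R, τ ζ = (ζ - 1) * exp (ε ζ))
    (ho : IsOpen (τ '' ball 0 R)) : ∃ rh, HRet (τ '' ball 0 R) rh := by
  set K : Set ℂ := closedBall 0 R with hK
  set T : ℂ → ℂ := Function.invFunOn τ K with hT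
  have hTc : ContinuousOn T (τ '' K) := cont_invFunOn (isCompact_closedBall 0 R) hc hi
  have hTm : ∀ z ∈ τ '' K, T z ∈ K := fun z hz => Function.invFunOn_mem hz
  have hTe : ∀ z ∈ τ '' K, τ (T z) = z := fun z hz => Function.invFunOn_eq hz
  have hTτ : ∀ ζ ∈ K, T (τ ζ) = ζ := fun ζ hζ => hi.leftInvOn_invFunOn hζ
  have h1K : (1 : ℂ) ∈ K := by simpa [hK] using hR1.le
  have hτ1 : τ 1 = 0 := by rw [hτ 1 h1K]; simp
  have hsub : ball (0 : ℂ) R ⊆ K := ball_subset_closedBall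
  have hTne : ∀ u, exp u ∈ τ '' K → T (exp u) ≠ 1 := by
    intro u hu h
    have := hTe _ hu
    rw [h, hτ1] at this
    exact exp_ne_zero u this.symm
  set π : ℂ → ℂ := fun ζ => 1 + (ex R ζ) * (ζ - 1) with hπ
  set d : ℂ → ℂ := fun ζ => (Real.log (ex R ζ) : ℂ) + ε (π ζ) - ε ζ with hd
  have hex : ContinuousOn (ex R) (K \ {1}) := (ex_cont R).mono fun z hz => hz.2
  have hexC : ContinuousOn (fun ζ => ((ex R ζ : ℝ) : ℂ)) (K \ {1}) :=
    Complex.continuous_ofReal.comp_continuousOn hex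
  have hπc : ContinuousOn π (K \ {1}) :=
    continuousOn_const.add (hexC.mul (by fun_prop))
  have hπm : ∀ ζ ∈ K \ {1}, ‖π ζ‖ = R := fun ζ hζ => (ex_spec hR1 hζ.1 hζ.2).1
  have hπK : MapsTo π (K \ {1}) K := fun ζ hζ => by
    rw [hK, mem_closedBall_zero_iff, hπm ζ hζ]
  have hdc : ContinuousOn d (K \ {1}) := by
    refine (ContinuousOn.add ?_ (hε.comp hπc hπK)).sub (hε.mono sdiff_subset)
    apply Complex.continuous_ofReal.comp_continuousOn
    apply hex.log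
    intro ζ hζ
    have := (ex_spec hR1 hζ.1 hζ.2).2.1
    linarith
  have hd0 : ∀ ζ ∈ K \ {1}, ‖ζ‖ = R → d ζ = 0 := by
    intro ζ hζ h
    have h1 := (ex_spec hR1 hζ.1 hζ.2).2.2 h
    have h2 : π ζ = ζ := by simp only [hπ, h1]; push_cast; ring
    simp only [hd, h2, h1]
    simp
  have hexp : ∀ ζ ∈ K \ {1}, ∀ u, exp u = τ ζ → exp (u + d ζ) = τ (π ζ) := by
    intro ζ hζ u hu
    have h1 := (ex_spec hR1 hζ.1 hζ.2).2.1
    have h2 : exp ((Real.log (ex R ζ) : ℝ) : ℂ) = ex R ζ := by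
      rw [← Complex.ofReal_exp, Real.exp_log (by linarith)]
    rw [exp_add, hu, hτ _ (hπK hζ), hτ ζ hζ.1]
    simp only [hd]
    rw [exp_sub, exp_add, h2]
    have : π ζ - 1 = ex R ζ * (ζ - 1) := by simp only [hπ]; ring
    rw [this]
    field_simp
  have hXo : ∀ ζ ∈ K, τ ζ ∈ τ '' ball 0 R ↔ ‖ζ‖ < R := by
    intro ζ hζ
    constructor
    · rintro ⟨ξ, hξ, h⟩
      rw [← hi (hsub hξ) hζ h]
      simpa using hξ
    · intro h
      exact mem_image_of_mem _ (by simpa using h)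
  set rh : ℂ → ℂ := fun u => if exp u ∈ τ '' ball 0 R then u + d (T (exp u)) else u with hrh
  have hXs : τ '' ball 0 R ⊆ τ '' K := image_mono hsub
  -- the value over the image
  have hval : ∀ u, exp u ∈ τ '' K → rh u = u + d (T (exp u)) := by
    intro u hu
    simp only [hrh]
    split_ifs with h
    · rfl
    · have h1 := hTm _ hu
      have h2 : ‖T (exp u)‖ = R := by
        apply le_antisymm
        · simpa [hK] using h1
        · by_contra hc
          push Not at hc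
          apply h
          rw [← hTe _ hu]
          exact (hXo _ h1).2 hc
      rw [hd0 _ ⟨h1, hTne u hu⟩ h2, add_zero]
  refine ⟨rh, ?_, ?_, ?_, ?_⟩
  · -- continuity
    have hcl1 : IsClosed (UU ∩ {u | exp u ∈ τ '' K}) :=
      isClosed_UU.inter (((isCompact_closedBall (0 : ℂ) R).image_of_continuousOn hc).isClosed.preimage
        continuous_exp)
    have hcl2 : IsClosed (UU ∩ {u | exp u ∉ τ '' ball 0 R}) :=
      isClosed_UU.inter (ho.isClosed_compl.preimage continuous_exp)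
    have hun : UU = (UU ∩ {u | exp u ∈ τ '' K}) ∪ (UU ∩ {u | exp u ∉ τ '' ball 0 R}) := by
      ext u
      constructor
      · intro hu
        by_cases h : exp u ∈ τ '' ball 0 R
        · exact Or.inl ⟨hu, hXs h⟩
        · exact Or.inr ⟨hu, h⟩
      · rintro (h | h)
        · exact h.1
        · exact h.1
    rw [hun]
    apply ContinuousOn.union_of_isClosed _ _ hcl1 hcl2
    · have hT2 : ContinuousOn (fun u => T (exp u)) (UU ∩ {u | exp u ∈ τ '' K}) :=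
        hTc.comp continuous_exp.continuousOn fun u hu => hu.2
      have : ContinuousOn (fun u => u + d (T (exp u))) (UU ∩ {u | exp u ∈ τ '' K}) :=
        continuousOn_id.add (hdc.comp hT2 fun u hu => ⟨hTm _ hu.2, hTne u hu.2⟩)
      exact this.congr fun u hu => hval u hu.2
    · have : ContinuousOn (fun u : ℂ => u) (UU ∩ {u | exp u ∉ τ '' ball 0 R}) := continuousOn_id
      refine this.congr fun u hu => ?_
      simp only [hrh]
      rw [if_neg hu.2]
  · intro u hu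
    by_cases h : exp u ∈ τ '' ball 0 R
    · have h1 := hXs h
      have hζ : T (exp u) ∈ K \ {1} := ⟨hTm _ h1, hTne u h1⟩
      have h2 : exp (rh u) = τ (π (T (exp u))) := by
        rw [hval u h1]
        exact hexp _ hζ u (hTe _ h1).symm
      refine ⟨?_, ?_⟩
      · have h3 := hn _ (hπK hζ)
        rw [← h2, norm_exp] at h3
        exact Real.exp_le_one_iff.1 h3
      · rw [h2, hXo _ (hπK hζ), hπm _ hζ]
        exact lt_irrefl R
    · have : rh u = u := by simp only [hrh]; rw [if_neg h]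
      rw [this]
      exact ⟨hu, h⟩
  · intro u hu
    simp only [hrh]
    rw [if_neg hu.2]
  · intro u _
    simp only [hrh, exp_add_tpi]
    split_ifs
    · ring
    · rfl

end

/-- logarithms from a hat retraction -/
theorem logext_of_ret {Z : Set ℂ} {rh : ℂ → ℂ} (h : HRet Z rh)
    (h0 : ∀ u : ℂ, u.re = 0 → u ∈ OO Z) (g b : ℂ → ℂ) (hg : ContinuousOn g (OO Z))
    (hg0 : ∀ u ∈ OO Z, g u ≠ 0) (hb : ContinuousOn b (OO Z ∩ {u | u.re = 0}))
    (hbg : ∀ u ∈ OO Z, u.re = 0 → exp (b u) = g u) :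
    ∃ L : ℂ → ℂ, ContinuousOn L (OO Z) ∧ (∀ u ∈ OO Z, exp (L u) = g u) ∧
      (∀ u ∈ OO Z, u.re = 0 → L u = b u) := by
  obtain ⟨L0, hL0, hL0e⟩ := exists_log convex_UU (fun u => g (rh u)) (hg.comp h.cont h.maps)
    (fun u hu => hg0 _ (h.maps hu))
  have hsub : OO Z ⊆ UU := fun u hu => hu.1
  have hL : ∀ u ∈ OO Z, exp (L0 u) = g u := by
    intro u hu
    rw [hL0e u (hsub hu), h.id u hu]
  have h00 : (0 : ℂ) ∈ OO Z := h0 0 rfl
  have hc : exp (L0 0 - b 0) = 1 := by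
    rw [exp_sub, hL 0 h00, hbg 0 h00 rfl, div_self (hg0 0 h00)]
  refine ⟨fun u => L0 u - (L0 0 - b 0), (hL0.mono hsub).sub continuousOn_const, ?_, ?_⟩
  · intro u hu
    rw [exp_sub, hc, div_one, hL u hu]
  · intro u hu hre
    have hconn : IsPreconnected {u : ℂ | u.re = 0} :=
      (convex_hyperplane Complex.reLm.isLinear 0).isPreconnected
    refine log_unique hconn (a := fun u => L0 u - (L0 0 - b 0)) (b := b) ?_ ?_ ?_
      (show (0 : ℂ) ∈ {u : ℂ | u.re = 0} from rfl) (by ring) u hre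
    · exact (hL0.mono fun u hu => hsub (h0 u hu)).sub continuousOn_const
    · exact hb.mono fun u hu => ⟨h0 u hu, hu⟩
    · intro u hu
      rw [exp_sub, hc, div_one, hL u (h0 u hu), hbg u (h0 u hu) hu]

/-- a direction such that the ray avoids two points -/
theorem exists_dir (ζ p1 p2 : ℂ) : ∃ d : ℂ, ‖d‖ = 1 ∧ ∀ t : ℝ, 0 < t → ζ + t * d ≠ p1 ∧
    ζ + t * d ≠ p2 := by
  by_contra hcon
  push Not at hcon
  have key : ∀ d : ℂ, ‖d‖ = 1 → ∃ t : ℝ, 0 < t ∧ (ζ + t * d = p1 ∨ ζ + t * d = p2) := by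
    intro d hd
    obtain ⟨t, ht, h⟩ := hcon d hd
    refine ⟨t, ht, ?_⟩
    by_cases h1 : ζ + t * d = p1
    · exact Or.inl h1
    · exact Or.inr (h h1)
  obtain ⟨t1, ht1, h1⟩ := key 1 (by simp)
  obtain ⟨t2, ht2, h2⟩ := key (-1) (by simp)
  obtain ⟨t3, ht3, h3⟩ := key I (by simp)
  have h12 : ∀ p : ℂ, ζ + t1 * 1 = p → ζ + t2 * (-1) = p → False := by
    intro p e1 e2
    have := congrArg Complex.re (e1.trans e2.symm)
    simp at this
    linarith
  have h13 : ∀ p : ℂ, ζ + t1 * 1 = p → ζ + t3 * I = p → False := by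
    intro p e1 e2
    have := congrArg Complex.re (e1.trans e2.symm)
    simp at this
    linarith
  have h23 : ∀ p : ℂ, ζ + t2 * (-1) = p → ζ + t3 * I = p → False := by
    intro p e1 e2
    have := congrArg Complex.re (e1.trans e2.symm)
    simp at this
    linarith
  rcases h1 with h1 | h1 <;> rcases h2 with h2 | h2 <;> rcases h3 with h3 | h3
  · exact h12 _ h1 h2
  · exact h12 _ h1 h2
  · exact h13 _ h1 h3
  · exact h23 _ h2 h3
  · exact h23 _ h2 h3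
  · exact h13 _ h1 h3
  · exact h12 _ h1 h2
  · exact h12 _ h1 h2

/-- exit time of a ray -/
theorem exists_exit {ζ d : ℂ} {R : ℝ} (hζ : ‖ζ‖ < R) (hd : ‖d‖ = 1) :
    ∃ T : ℝ, 0 < T ∧ ‖ζ + T * d‖ = R := by
  have hR : 0 < R := lt_of_le_of_lt (norm_nonneg _) hζ
  have hc : ContinuousOn (fun t : ℝ => ‖ζ + t * d‖) (Icc 0 (2 * R)) := by fun_prop
  have h2 : R ≤ ‖ζ + ((2 * R : ℝ) : ℂ) * d‖ := by
    have h3 : ‖((2 * R : ℝ) : ℂ) * d‖ = 2 * R := by
      rw [norm_mul, hd, mul_one, Complex.norm_real, Real.norm_eq_abs, abs_of_pos (by linarith)]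
    have h4 : ‖((2 * R : ℝ) : ℂ) * d‖ ≤ ‖ζ + ((2 * R : ℝ) : ℂ) * d‖ + ‖ζ‖ := by
      have := norm_sub_le (ζ + ((2 * R : ℝ) : ℂ) * d) ζ
      rwa [add_sub_cancel_left] at this
    linarith
  obtain ⟨T, hT, hTe⟩ := intermediate_value_Icc (by linarith : (0 : ℝ) ≤ 2 * R) hc
    (show R ∈ Icc (‖ζ + ((0 : ℝ) : ℂ) * d‖) (‖ζ + ((2 * R : ℝ) : ℂ) * d‖) from
      ⟨by simpa using hζ.le, h2⟩)
  refine ⟨T, ?_, hTe⟩
  rcases eq_or_lt_of_le hT.1 with h | h
  · exfalso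
    rw [← h] at hTe
    simp at hTe
    linarith
  · exact h

/-- paths in the double cover -/
theorem exists_path {τ ε Θ : ℂ → ℂ} {R : ℝ} {μ : ℂ}
    (hn : ∀ ζ ∈ closedBall (0 : ℂ) R, ‖τ ζ‖ ≤ 1) (hε : ContinuousOn ε (closedBall 0 R))
    (hτ : ∀ ζ ∈ closedBall (0 : ℂ) R, τ ζ = (ζ - 1) * exp (ε ζ))
    (hi : InjOn τ (closedBall 0 R))
    (hΘ : ∀ s ∈ DD, ∀ ζ ∈ closedBall (0 : ℂ) R, s ^ 2 = τ ζ → Θ s = 0 → ζ = μ)
    {s : ℂ} (hs : s ∈ DD) (hX : s ^ 2 ∈ τ '' closedBall 0 R) (hs0 : Θ s ≠ 0) :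
    ∃ γ : ℝ → ℂ, ContinuousOn γ (Icc 0 1) ∧ γ 0 = s ∧
      (∀ t ∈ Icc (0 : ℝ) 1, γ t ∈ DD ∧ γ t ^ 2 ∈ τ '' closedBall 0 R ∧ Θ (γ t) ≠ 0) ∧
        γ 1 ^ 2 ∉ τ '' ball 0 R := by
  obtain ⟨ζ1, hζ1, hs1⟩ := hX
  have hsub : ball (0 : ℂ) R ⊆ closedBall 0 R := ball_subset_closedBall
  have hζ1' : ‖ζ1‖ ≤ R := by simpa using hζ1
  rcases eq_or_lt_of_le hζ1' with hR | hR
  · -- already over the boundary
    refine ⟨fun _ => s, continuousOn_const, rfl, fun t _ => ⟨hs, ⟨ζ1, hζ1, hs1⟩, hs0⟩, ?_⟩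
    rintro ⟨ξ, hξ, h⟩
    have h1 := hi (hsub hξ) hζ1 (h.trans hs1.symm)
    rw [h1, mem_ball_zero_iff] at hξ
    linarith
  · obtain ⟨d, hd, hav⟩ := exists_dir ζ1 1 μ
    obtain ⟨T, hT, hTe⟩ := exists_exit hR hd
    have hd0 : d ≠ 0 := by rw [← norm_pos_iff, hd]; exact one_pos
    set Z : ℝ → ℂ := fun t => ζ1 + ((t * T : ℝ) : ℂ) * d with hZ
    have hZc : Continuous Z := by fun_prop
    have hZ0 : Z 0 = ζ1 := by simp [hZ]
    have hZ1 : ‖Z 1‖ = R := by simp only [hZ, one_mul]; exact hTe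
    have hZK : ∀ t ∈ Icc (0 : ℝ) 1, Z t ∈ closedBall (0 : ℂ) R := by
      intro t ht
      have hZ1K : Z 1 ∈ closedBall (0 : ℂ) R := by rw [mem_closedBall_zero_iff, hZ1]
      have h1 := (convex_closedBall (0 : ℂ) R) hζ1 hZ1K (sub_nonneg.2 ht.2) ht.1 (by ring)
      have h2 : (1 - t) • ζ1 + t • Z 1 = Z t := by
        simp only [hZ, Complex.real_smul]
        push_cast
        ring
      rwa [h2] at h1
    have hZav : ∀ t ∈ Ioc (0 : ℝ) 1, Z t ≠ 1 ∧ Z t ≠ μ := fun t ht => hav _ (mul_pos ht.1 hT)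
    -- the square root of `Z t - 1`
    obtain ⟨σ, hσc, hσ2, hσ0⟩ : ∃ σ : ℝ → ℂ, ContinuousOn σ (Icc 0 1) ∧
        (∀ t ∈ Icc (0 : ℝ) 1, σ t ^ 2 = Z t - 1) ∧ σ 0 * exp (ε ζ1 / 2) = s := by
      by_cases h1 : ζ1 = 1
      · refine ⟨fun t => ((Real.sqrt (t * T) : ℝ) : ℂ) * exp (log d / 2), ?_, ?_, ?_⟩
        · apply Continuous.continuousOn
          fun_prop
        · intro t ht
          have h2 : 0 ≤ t * T := mul_nonneg ht.1 hT.le
          rw [mul_pow, ← exp_nat_mul, ← Complex.ofReal_pow, Real.sq_sqrt h2]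
          push_cast
          rw [mul_div_cancel₀ _ (two_ne_zero), exp_log hd0, hZ, h1]
          push_cast
          ring
        · have h2 : s ^ 2 = 0 := by
            rw [← hs1, h1, hτ 1 (by rw [← h1]; exact hζ1)]; simp
          have h3 : s = 0 := pow_eq_zero_iff two_ne_zero |>.1 h2
          rw [h3]; simp
      · have hζne : ζ1 - 1 ≠ 0 := sub_ne_zero.2 h1
        have hsne : s ≠ 0 := by
          intro h0
          rw [h0, hτ ζ1 hζ1] at hs1
          have h5 : (ζ1 - 1) * exp (ε ζ1) = 0 := by rw [hs1]; ring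
          exact mul_ne_zero hζne (exp_ne_zero _) h5
        obtain ⟨L, hLc, hLe, hL0⟩ := exists_log_path (fun t => Z t - 1)
          (by fun_prop) (by
            intro t ht
            rcases eq_or_lt_of_le ht.1 with h | h
            · rw [← h, hZ0]; exact hζne
            · exact sub_ne_zero.2 (hZav t ⟨h, ht.2⟩).1)
          (2 * log s - ε ζ1) (by
            rw [hZ0, exp_sub, two_mul, exp_add, exp_log hsne, ← pow_two, ← hs1, hτ ζ1 hζ1]
            field_simp)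
        refine ⟨fun t => exp (L t / 2), ?_, ?_, ?_⟩
        · exact (hLc.div_const 2).cexp
        · intro t ht
          rw [← exp_nat_mul]
          push_cast
          rw [mul_div_cancel₀ _ (two_ne_zero), hLe t ht]
        · change exp (L 0 / 2) * exp (ε ζ1 / 2) = s
          rw [hL0, ← exp_add]
          have : (2 * log s - ε ζ1) / 2 + ε ζ1 / 2 = log s := by ring
          rw [this, exp_log hsne]
    have hεZ : ContinuousOn (fun t => ε (Z t)) (Icc (0 : ℝ) 1) :=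
      hε.comp hZc.continuousOn hZK
    have hγ2 : ∀ t ∈ Icc (0 : ℝ) 1, (σ t * exp (ε (Z t) / 2)) ^ 2 = τ (Z t) := by
      intro t ht
      rw [mul_pow, hσ2 t ht, ← exp_nat_mul]
      push_cast
      rw [mul_div_cancel₀ _ (two_ne_zero), hτ _ (hZK t ht)]
    have hγ0 : σ 0 * exp (ε (Z 0) / 2) = s := by rw [hZ0]; exact hσ0
    have hγD : ∀ t ∈ Icc (0 : ℝ) 1, σ t * exp (ε (Z t) / 2) ∈ DD := by
      intro t ht
      have h1 := hn _ (hZK t ht)
      rw [← hγ2 t ht, norm_pow] at h1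
      rw [DD, mem_closedBall_zero_iff]
      exact (pow_le_one_iff_of_nonneg (norm_nonneg _) two_ne_zero).1 h1
    refine ⟨fun t => σ t * exp (ε (Z t) / 2), hσc.mul (hεZ.div_const 2).cexp, hγ0, ?_, ?_⟩
    · intro t ht
      refine ⟨hγD t ht, ⟨Z t, hZK t ht, (hγ2 t ht).symm⟩, ?_⟩
      rcases eq_or_lt_of_le ht.1 with h | h
      · rw [← h]
        change Θ (σ 0 * exp (ε (Z 0) / 2)) ≠ 0
        rw [hγ0]; exact hs0
      · intro h0
        exact (hZav t ⟨h, ht.2⟩).2 (hΘ _ (hγD t ht) _ (hZK t ht) (hγ2 t ht) h0)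
    · rw [hγ2 1 ⟨zero_le_one, le_rfl⟩]
      rintro ⟨ξ, hξ, h⟩
      have h1 := hi (hsub hξ) (hZK 1 ⟨zero_le_one, le_rfl⟩) h
      rw [h1, mem_ball_zero_iff, hZ1] at hξ
      exact lt_irrefl _ hξ

end X5

theorem exists_dc (q : RQ) {S : TS} (hS : IsTS q S) (C : KC q) {R : ℝ}
    (hR : R ∈ Ioo 1 C.R1) : ∃ (A : XS S) (D : DC A), D.R = R ∧ D.μ = C.μ ∧
      (∀ ζ ∈ closedBall (0 : ℂ) R, D.τ ζ = mm q.v (C.K ζ)) := by
  have hv : 0 < q.v.im := q.hv
  set τ : ℂ → ℂ := fun ζ => mm q.v (C.K ζ) with hτdef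
  have hKH : ∀ ζ ∈ ball (0 : ℂ) C.R1, C.K ζ ∈ HH := fun ζ hζ => (C.maps ζ hζ).le
  have hsub : closedBall (0 : ℂ) R ⊆ ball 0 C.R1 := closedBall_subset_ball hR.2
  have hbsub : ball (0 : ℂ) R ⊆ closedBall 0 R := ball_subset_closedBall
  have hτd : DifferentiableOn ℂ τ (ball 0 C.R1) := by
    have h1 : ∀ ζ ∈ ball (0 : ℂ) C.R1, C.K ζ - conj q.v ≠ 0 := by
      intro ζ hζ h0
      have h2 := C.maps ζ hζ
      rw [sub_eq_zero.1 h0, conj_im] at h2
      linarith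
    exact (C.diff.sub_const _).div (C.diff.sub_const _) h1
  have hτi : InjOn τ (ball 0 C.R1) := fun x hx y hy h =>
    C.inj hx hy (mm_inj hv (hKH x hx) (hKH y hy) h)
  have h1m : (1 : ℂ) ∈ ball (0 : ℂ) C.R1 := by simpa using C.hR1
  have h1R : (1 : ℂ) ∈ ball (0 : ℂ) R := by simpa using hR.1
  have hτ1 : τ 1 = 0 := by simp only [hτdef, C.one]; exact mm_self hv
  have hτD : ∀ ζ ∈ ball (0 : ℂ) C.R1, τ ζ ∈ DD := fun ζ hζ => mm_mem hv (hKH ζ hζ)
  have hτn : ∀ ζ ∈ ball (0 : ℂ) C.R1, ‖τ ζ‖ ≤ 1 := fun ζ hζ => by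
    simpa [DD] using hτD ζ hζ
  have hτn1 : ∀ ζ ∈ ball (0 : ℂ) C.R1, ‖τ ζ‖ ≠ 1 := fun ζ hζ h => by
    rw [hτdef] at h
    rw [norm_mm_eq_one hv (hKH ζ hζ)] at h
    exact (C.maps ζ hζ).ne' h
  have hμm : ∀ {r : ℝ} {ζ : ℂ}, ζ ∈ closedBall (0 : ℂ) r → C.μ * ζ ∈ closedBall (0 : ℂ) r := by
    intro r ζ hζ
    rw [mem_closedBall_zero_iff] at hζ ⊢
    rw [norm_mul]
    exact (mul_le_of_le_one_left (norm_nonneg _) C.μ1.le).trans hζ
  have hμb : ∀ {r : ℝ} {ζ : ℂ}, ζ ∈ ball (0 : ℂ) r → C.μ * ζ ∈ ball (0 : ℂ) r := by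
    intro r ζ hζ
    rw [mem_ball_zero_iff] at hζ ⊢
    rw [norm_mul]
    exact (mul_le_of_le_one_left (norm_nonneg _) C.μ1.le).trans_lt hζ
  have hlin : ∀ ζ ∈ ball (0 : ℂ) C.R1, S.F (τ ζ) = τ (C.μ * ζ) := by
    intro ζ hζ
    simp only [hτdef]
    rw [hS.F_eq _ (hKH ζ hζ), C.lin ζ hζ, fold,
      if_pos (show 0 ≤ (C.K (C.μ * ζ)).im from hKH _ (hμb hζ))]
  -- the critical point is not reached
  have hμ1 : ∀ ζ ∈ ball (0 : ℂ) C.R1, C.μ * ζ ≠ 1 := by
    intro ζ hζ h1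
    have hKc : C.K ζ = q.c := by
      apply (q.count_up).2 _ (C.maps ζ hζ)
      rw [C.lin ζ hζ, h1, C.one]
    have hK1 : HasDerivAt C.K (deriv C.K ζ) ζ :=
      (C.diff.differentiableAt (isOpen_ball.mem_nhds hζ)).hasDerivAt
    have hK2 : HasDerivAt C.K (deriv C.K 1) (C.μ * ζ) := by
      rw [h1]
      exact (C.diff.differentiableAt (isOpen_ball.mem_nhds h1m)).hasDerivAt
    have hm : HasDerivAt (fun z : ℂ => C.μ * z) C.μ ζ := by
      simpa using (hasDerivAt_id ζ).const_mul C.μ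
    have e1 : HasDerivAt (fun z => C.K (C.μ * z)) (deriv C.K 1 * C.μ) ζ := hK2.comp ζ hm
    have e2 : HasDerivAt (fun z => q.h.eval (C.K z))
        (q.h.derivative.eval (C.K ζ) * deriv C.K ζ) ζ :=
      (q.h.hasDerivAt (C.K ζ)).comp ζ hK1
    have e3 : (fun z => q.h.eval (C.K z)) =ᶠ[𝓝 ζ] fun z => C.K (C.μ * z) := by
      filter_upwards [isOpen_ball.mem_nhds hζ] with z hz
      exact C.lin z hz
    have e4 := e2.unique (e1.congr_of_eventuallyEq e3)
    have e5 : q.h.derivative.eval (C.K ζ) = 0 := by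
      rw [hKc]
      have := q.der q.c
      rw [RQ.h, this]
      simp
    rw [e5, zero_mul] at e4
    exact mul_ne_zero (X5.deriv_ne_zero_of_injOn isOpen_ball C.diff C.inj h1m) C.μ0 e4.symm
  obtain ⟨ε, hεc, hε⟩ := X5.exists_eps (R := R) C.hR1 hR.2 hτd hτi hτ1
  have hopen : IsOpen (τ '' ball 0 R) :=
    X5.isOpen_image_of_injOn isOpen_ball (hτd.mono (hbsub.trans hsub))
      (hτi.mono (hbsub.trans hsub))
  have hτc : ContinuousOn τ (closedBall 0 R) := hτd.continuousOn.mono hsub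
  have hτiR : InjOn τ (closedBall 0 R) := hτi.mono hsub
  obtain ⟨rh, hrh⟩ := X5.exists_ret hR.1 hτc hτiR (fun ζ hζ => hτn ζ (hsub hζ)) hεc hε hopen
  have him : ∀ u : ℂ, u.re = 0 → u ∈ OO (τ '' ball 0 R) := by
    intro u hu
    refine ⟨hu.le, ?_⟩
    rintro ⟨ξ, hξ, h⟩
    apply hτn1 ξ (hsub (hbsub hξ))
    rw [h, norm_exp, hu, Real.exp_zero]
  have h1o : (1 : ℂ) ∉ τ '' closedBall 0 R := by
    rintro ⟨ξ, hξ, h⟩
    apply hτn1 ξ (hsub hξ)
    rw [h, norm_one]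
  have hnG : ∀ ζ ∈ closedBall (0 : ℂ) R, 0 < (q.h.eval (C.K ζ)).im := by
    intro ζ hζ
    rw [C.lin ζ (hsub hζ)]
    exact C.maps _ (hsub (hμm hζ))
  have hΘ : ∀ s ∈ DD, ∀ ζ ∈ closedBall (0 : ℂ) R, s ^ 2 = τ ζ → S.Θ s = 0 → ζ = C.μ := by
    intro s hs ζ hζ h1 h2
    have h3 := S.FΘ s hs
    rw [h2, h1] at h3
    have h4 := hlin 1 h1m
    rw [hτ1, mul_one, h3] at h4
    have hμR : C.μ ∈ closedBall (0 : ℂ) R := by
      have := hμm (hbsub h1R)
      rwa [mul_one] at this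
    exact hτiR hζ hμR h4
  let A : XS S :=
    { X := τ '' closedBall 0 R
      Xo := τ '' ball 0 R
      closedX := ((isCompact_closedBall (0 : ℂ) R).image_of_continuousOn hτc).isClosed
      subX := by rintro _ ⟨ζ, hζ, rfl⟩; exact hτD ζ (hsub hζ)
      Xo_sub := image_mono hbsub
      Xo_open := ⟨τ '' ball 0 R, hopen, by
        rw [inter_eq_left.2]
        rintro _ ⟨ζ, hζ, rfl⟩
        exact hτD ζ (hsub (hbsub hζ))⟩
      zero_mem := ⟨1, h1R, hτ1⟩
      one_nmem := h1o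
      FX := by
        rintro _ ⟨ζ, hζ, rfl⟩
        rw [hlin ζ (hsub hζ)]
        exact mem_image_of_mem _ (hμm hζ)
      FXo := by
        rintro _ ⟨ζ, hζ, rfl⟩
        rw [hlin ζ (hsub (hbsub hζ))]
        exact mem_image_of_mem _ (hμb hζ)
      notG2 := by
        rintro w hw ⟨ζ, hζ, h⟩
        have h1 := hS.im2 (C.K ζ) (hKH ζ (hsub hζ)) ⟨w, hw, h.symm⟩
        have h2 := hnG ζ hζ
        linarith
      notG4 := by
        rintro w hw ⟨ζ, hζ, h⟩
        have h1 := hS.im4 (C.K ζ) (hKH ζ (hsub hζ)) ⟨w, hw, h.symm⟩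
        have h2 := hnG ζ hζ
        linarith
      inj := by
        rintro _ ⟨ζ, hζ, rfl⟩ _ ⟨ζ', hζ', rfl⟩ h
        rw [hlin ζ (hsub hζ), hlin ζ' (hsub hζ')] at h
        have h1 := hτiR (hμm hζ) (hμm hζ') h
        rw [mul_left_cancel₀ C.μ0 h1]
      nzF := by
        rintro _ ⟨ζ, hζ, rfl⟩ h
        rw [hlin ζ (hsub hζ), ← hτ1] at h
        exact hμ1 ζ (hsub hζ) (hτi (hsub (hμm hζ)) h1m h)
      logext := fun g b hg hg0 hb hbg => X5.logext_of_ret hrh him g b hg hg0 hb hbg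
      cconn := by
        intro u hu
        refine ⟨OO (τ '' ball 0 R), Subset.rfl, ?_, hu, 0, ?_⟩
        · have h1 : rh '' UU = OO (τ '' ball 0 R) := by
            apply Subset.antisymm
            · rintro _ ⟨u, hu, rfl⟩; exact hrh.maps hu
            · intro u hu
              exact ⟨u, hu.1, hrh.id u hu⟩
          rw [← h1]
          exact X5.convex_UU.isPreconnected.image _ hrh.cont
        · simpa using him 0 rfl
      idx := fun _ => 0
      e := 0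
      idx_cont := continuousOn_const
      idx_val := by simp
      path := fun s hs hX hs0 => X5.exists_path (fun ζ hζ => hτn ζ (hsub hζ)) hεc hε hτiR hΘ
        hs hX hs0 }
  refine ⟨A, {
    τ := τ
    ε := ε
    R := R
    μ := C.μ
    rh := rh
    hR := hR.1
    μ0 := C.μ0
    μ1 := C.μ1
    contε := hεc
    τ_eq := hε
    inj := hτiR
    img := rfl
    imgo := rfl
    lin := fun ζ hζ => hlin ζ (hsub hζ)
    ret := hrh
    e0 := rfl
    idx0 := fun _ => rfl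
    circ := by
      rintro _ ⟨ζ, hζ, rfl⟩
      exact hτn1 ζ (hsub hζ) }, rfl, rfl, fun ζ _ => rfl⟩

end

end Pool.TU
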