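import Pool.Agent.Helper71.TU.AllDefs

/-! # TU X6: the model conjugacy -/

open Complex Set Filter Topology Metric Polynomial ComplexConjugate Pool.Tuning

namespace Pool.TU

noncomputable section

namespace X6

/-- the model map `(ρ, φ) ↦ (ρ^s, φ + c log ρ)` -/
def mdl (s c : ℝ) (ζ : ℂ) : ℂ :=
  ((‖ζ‖ ^ s : ℝ) : ℂ) * ((ζ / ((‖ζ‖ : ℝ) : ℂ)) * exp (((c * Real.log ‖ζ‖ : ℝ) : ℂ) * I))

lemma mdl_zero (s c : ℝ) : mdl s c 0 = 0 := by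
  simp [mdl]

lemma norm_dir {ζ : ℂ} (h : ζ ≠ 0) (x : ℝ) :
    ‖ζ / ((‖ζ‖ : ℝ) : ℂ) * exp ((x : ℂ) * I)‖ = 1 := by
  rw [norm_mul, norm_div, Complex.norm_real, norm_norm, div_self (norm_ne_zero_iff.2 h),
    Complex.norm_exp_ofReal_mul_I, one_mul]

lemma norm_mdl {s : ℝ} (hs : 0 < s) (c : ℝ) (ζ : ℂ) : ‖mdl s c ζ‖ = ‖ζ‖ ^ s := by
  rcases eq_or_ne ζ 0 with rfl | h
  · rw [mdl_zero, norm_zero, Real.zero_rpow hs.ne']
  · rw [mdl, norm_mul, norm_dir h, mul_one, Complex.norm_real, Real.norm_eq_abs,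
      abs_of_nonneg (Real.rpow_nonneg (norm_nonneg _) _)]

lemma norm_mdl_le (s c : ℝ) (ζ : ℂ) : ‖mdl s c ζ‖ ≤ ‖ζ‖ ^ s := by
  rcases eq_or_ne ζ 0 with rfl | h
  · rw [mdl_zero, norm_zero]
    exact Real.rpow_nonneg le_rfl _
  · rw [mdl, norm_mul, norm_dir h, mul_one, Complex.norm_real, Real.norm_eq_abs,
      abs_of_nonneg (Real.rpow_nonneg (norm_nonneg ζ) _)]

lemma mdl_comp {s' : ℝ} (hs' : 0 < s') (s c c' : ℝ) (ζ : ℂ) :
    mdl s c (mdl s' c' ζ) = mdl (s' * s) (c' + c * s') ζ := by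
  rcases eq_or_ne ζ 0 with rfl | h
  · rw [mdl_zero, mdl_zero, mdl_zero]
  · have hn : 0 < ‖ζ‖ := norm_pos_iff.2 h
    have hp : 0 < ‖ζ‖ ^ s' := Real.rpow_pos_of_pos hn _
    have h1 : mdl s' c' ζ / ((‖mdl s' c' ζ‖ : ℝ) : ℂ) =
        ζ / ((‖ζ‖ : ℝ) : ℂ) * exp (((c' * Real.log ‖ζ‖ : ℝ) : ℂ) * I) := by
      rw [norm_mdl hs', mdl, mul_div_cancel_left₀]
      exact_mod_cast hp.ne'
    have h2 : Real.log (‖ζ‖ ^ s') = s' * Real.log ‖ζ‖ := Real.log_rpow hn _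
    rw [mdl, h1, norm_mdl hs', h2, ← Real.rpow_mul hn.le, mdl, mul_assoc (ζ / _), ← exp_add]
    congr 3
    push_cast
    ring_nf

lemma mdl_one_zero (ζ : ℂ) : mdl 1 0 ζ = ζ := by
  rcases eq_or_ne ζ 0 with rfl | h
  · exact mdl_zero 1 0
  · have hn : ((‖ζ‖ : ℝ) : ℂ) ≠ 0 := by exact_mod_cast norm_ne_zero_iff.2 h
    rw [mdl, Real.rpow_one, zero_mul, ofReal_zero, zero_mul, exp_zero, mul_one,
      mul_div_cancel₀ _ hn]

lemma mdl_mul (s c : ℝ) (μ ζ : ℂ) : mdl s c (μ * ζ) = mdl s c μ * mdl s c ζ := by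
  rcases eq_or_ne ζ 0 with rfl | h
  · rw [mul_zero, mdl_zero, mul_zero]
  rcases eq_or_ne μ 0 with rfl | h'
  · rw [zero_mul, mdl_zero, zero_mul]
  have hn := norm_ne_zero_iff.2 h
  have hn' := norm_ne_zero_iff.2 h'
  have h1 : exp (((c * (Real.log ‖μ‖ + Real.log ‖ζ‖) : ℝ) : ℂ) * I) =
      exp (((c * Real.log ‖μ‖ : ℝ) : ℂ) * I) * exp (((c * Real.log ‖ζ‖ : ℝ) : ℂ) * I) := by
    rw [← exp_add]
    congr 1
    push_cast
    ring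
  rw [mdl, norm_mul, Real.mul_rpow (norm_nonneg _) (norm_nonneg _), Real.log_mul hn' hn, h1,
    ofReal_mul, ofReal_mul, mul_div_mul_comm, mdl, mdl]
  ring

lemma mdl_one (s c : ℝ) : mdl s c 1 = 1 := by
  simp [mdl]

lemma mdl_eq_one {s : ℝ} (hs : 0 < s) {c : ℝ} {ζ : ℂ} (h : mdl s c ζ = 1) : ζ = 1 := by
  have h1 : ‖ζ‖ ^ s = 1 := by rw [← norm_mdl hs c, h, norm_one]
  have h2 : ‖ζ‖ = 1 := by
    refine Real.rpow_left_injOn hs.ne' (norm_nonneg ζ) (zero_le_one : (0 : ℝ) ≤ 1) ?_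
    change ‖ζ‖ ^ s = 1 ^ s
    rw [h1, Real.one_rpow]
  rw [mdl, h2, Real.one_rpow, Real.log_one, mul_zero, ofReal_zero, zero_mul, exp_zero,
    ofReal_one, div_one, mul_one, one_mul] at h
  exact h

lemma continuousAt_mdl {s : ℝ} (hs : 0 < s) (c : ℝ) (ζ : ℂ) :
    ContinuousAt (fun x : ℝ × ℝ × ℂ => mdl x.1 x.2.1 x.2.2) (s, c, ζ) := by
  have hrp : ContinuousAt (fun x : ℝ × ℝ × ℂ => ‖x.2.2‖ ^ x.1) (s, c, ζ) :=
    ContinuousAt.rpow (by fun_prop) (by fun_prop) (Or.inr hs)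
  rcases eq_or_ne ζ 0 with rfl | h
  · have h1 : Tendsto (fun x : ℝ × ℝ × ℂ => ‖x.2.2‖ ^ x.1) (𝓝 (s, c, 0)) (𝓝 0) := by
      have h2 := hrp.tendsto
      simp only [norm_zero, Real.zero_rpow hs.ne'] at h2
      exact h2
    rw [ContinuousAt]
    simp only [mdl_zero]
    exact squeeze_zero_norm (fun x => norm_mdl_le _ _ _) h1
  · have hn := norm_ne_zero_iff.2 h
    have hn' : ((‖ζ‖ : ℝ) : ℂ) ≠ 0 := by exact_mod_cast hn
    have h2 : ContinuousAt (fun x : ℝ × ℝ × ℂ => ((‖x.2.2‖ ^ x.1 : ℝ) : ℂ)) (s, c, ζ) :=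
      continuous_ofReal.continuousAt.comp hrp
    have h3 : ContinuousAt (fun x : ℝ × ℝ × ℂ => x.2.2 / ((‖x.2.2‖ : ℝ) : ℂ)) (s, c, ζ) :=
      ContinuousAt.div (by fun_prop) (by fun_prop) hn'
    have h4 : ContinuousAt (fun x : ℝ × ℝ × ℂ => Real.log ‖x.2.2‖) (s, c, ζ) :=
      ContinuousAt.log (by fun_prop) hn
    have h5 : ContinuousAt (fun x : ℝ × ℝ × ℂ =>
        exp (((x.2.1 * Real.log ‖x.2.2‖ : ℝ) : ℂ) * I)) (s, c, ζ) := by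
      have h6 : ContinuousAt (fun x : ℝ × ℝ × ℂ => ((x.2.1 * Real.log ‖x.2.2‖ : ℝ) : ℂ) * I)
          (s, c, ζ) := by
        have h7 : ContinuousAt (fun x : ℝ × ℝ × ℂ => x.2.1 * Real.log ‖x.2.2‖) (s, c, ζ) :=
          ContinuousAt.mul (by fun_prop) h4
        exact (continuous_ofReal.continuousAt.comp h7).mul continuousAt_const
      exact continuous_exp.continuousAt.comp h6
    exact h2.mul (h3.mul h5)

lemma continuous_mdl {s : ℝ} (hs : 0 < s) (c : ℝ) : Continuous (mdl s c) := by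
  rw [continuous_iff_continuousAt]
  intro ζ
  have h : ContinuousAt (fun ζ : ℂ => (s, c, ζ)) ζ := by fun_prop
  exact ContinuousAt.comp (f := fun ζ : ℂ => (s, c, ζ)) (continuousAt_mdl hs c ζ) h

lemma mdl_inv {s : ℝ} (hs : 0 < s) (c : ℝ) (ζ : ℂ) : mdl s⁻¹ (-(c / s)) (mdl s c ζ) = ζ := by
  rw [mdl_comp hs, mul_inv_cancel₀ hs.ne', neg_mul, div_mul_cancel₀ _ hs.ne', add_neg_cancel,
    mdl_one_zero]

lemma mdl_inv' {s : ℝ} (hs : 0 < s) (c : ℝ) (ζ : ℂ) : mdl s c (mdl s⁻¹ (-(c / s)) ζ) = ζ := by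
  rw [mdl_comp (inv_pos.2 hs), inv_mul_cancel₀ hs.ne', ← div_eq_mul_inv, neg_add_cancel,
    mdl_one_zero]

lemma image_mdl {s : ℝ} (hs : 0 < s) (c : ℝ) (S : Set ℝ) :
    mdl s c '' {ζ | ‖ζ‖ ^ s ∈ S} = {w | ‖w‖ ∈ S} := by
  ext w
  constructor
  · rintro ⟨ζ, hζ, rfl⟩
    change ‖mdl s c ζ‖ ∈ S
    rw [norm_mdl hs]
    exact hζ
  · intro hw
    refine ⟨mdl s⁻¹ (-(c / s)) w, ?_, mdl_inv' hs c w⟩
    change ‖mdl s⁻¹ (-(c / s)) w‖ ^ s ∈ S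
    rw [norm_mdl (inv_pos.2 hs), ← Real.rpow_mul (norm_nonneg _), inv_mul_cancel₀ hs.ne',
      Real.rpow_one]
    exact hw

lemma image_closedBall {s : ℝ} (hs : 0 < s) (c : ℝ) {R : ℝ} (hR : 0 < R) :
    mdl s c '' closedBall 0 R = closedBall 0 (R ^ s) := by
  have h1 : (closedBall 0 R : Set ℂ) = {ζ | ‖ζ‖ ^ s ∈ Iic (R ^ s)} := by
    ext ζ
    rw [mem_closedBall_zero_iff, mem_ofPred_eq, mem_Iic,
      Real.rpow_le_rpow_iff (norm_nonneg _) hR.le hs]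
  rw [h1, image_mdl hs]
  ext w
  rw [mem_closedBall_zero_iff]
  rfl

lemma image_ball {s : ℝ} (hs : 0 < s) (c : ℝ) {R : ℝ} (hR : 0 < R) :
    mdl s c '' ball 0 R = ball 0 (R ^ s) := by
  have h1 : (ball 0 R : Set ℂ) = {ζ | ‖ζ‖ ^ s ∈ Iio (R ^ s)} := by
    ext ζ
    rw [mem_ball_zero_iff, mem_ofPred_eq, mem_Iio,
      Real.rpow_lt_rpow_iff (norm_nonneg _) hR.le hs]
  rw [h1, image_mdl hs]
  ext w
  rw [mem_ball_zero_iff]
  rfl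

/-- the continuous logarithm of `(mdl s c ζ - 1) / (ζ - 1)` -/
lemma exists_quot_log {s : ℝ} (hs : 0 < s) (c : ℝ) (S : Set ℂ) (hS : (1 : ℂ) ∉ S) :
    ∃ ℓ : ℂ → ℂ, ContinuousOn ℓ S ∧ ∀ ζ ∈ S, mdl s c ζ - 1 = (ζ - 1) * exp (ℓ ζ) := by
  classical
  have hs' : ∀ t : unitInterval, 0 < 1 + (t : ℝ) * (s - 1) := by
    intro t
    have h1 := t.2.1
    have h2 := t.2.2
    rcases eq_or_lt_of_le h2 with h3 | h3
    · rw [h3]; linarith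
    · nlinarith
  have hne : ∀ ζ : S, (ζ : ℂ) - 1 ≠ 0 := fun ζ h => hS (by
    rw [← sub_eq_zero.1 h]
    exact ζ.2)
  have hnz : ∀ x : unitInterval × S,
      (mdl (1 + (x.1 : ℝ) * (s - 1)) ((x.1 : ℝ) * c) x.2 - 1) / ((x.2 : ℂ) - 1) ≠ 0 := by
    intro x
    refine div_ne_zero (fun h => hne x.2 ?_) (hne x.2)
    rw [mdl_eq_one (hs' x.1) (sub_eq_zero.1 h), sub_self]
  have hcont : Continuous fun x : unitInterval × S =>
      (mdl (1 + (x.1 : ℝ) * (s - 1)) ((x.1 : ℝ) * c) x.2 - 1) / ((x.2 : ℂ) - 1) := by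
    have h1 : Continuous fun x : unitInterval × S =>
        mdl (1 + (x.1 : ℝ) * (s - 1)) ((x.1 : ℝ) * c) x.2 := by
      rw [continuous_iff_continuousAt]
      intro x
      have h2 : ContinuousAt (fun x : unitInterval × S =>
          ((1 + (x.1 : ℝ) * (s - 1), (x.1 : ℝ) * c, (x.2 : ℂ)) : ℝ × ℝ × ℂ)) x := by fun_prop
      exact ContinuousAt.comp (f := fun x : unitInterval × S =>
          ((1 + (x.1 : ℝ) * (s - 1), (x.1 : ℝ) * c, (x.2 : ℂ)) : ℝ × ℝ × ℂ))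
        (continuousAt_mdl (hs' x.1) _ _) h2
    exact (h1.sub continuous_const).div (by fun_prop) fun x => hne x.2
  let H : C(unitInterval × S, {z : ℂ // z ≠ 0}) :=
    ⟨fun x => ⟨_, hnz x⟩, hcont.subtype_mk _⟩
  let f : C(S, ℂ) := ContinuousMap.const S 0
  have H_0 : ∀ a : S, H (0, a) = (⟨exp (f a), exp_ne_zero _⟩ : {z : ℂ // z ≠ 0}) := by
    intro a
    apply Subtype.ext
    change (mdl (1 + ((0 : unitInterval) : ℝ) * (s - 1)) (((0 : unitInterval) : ℝ) * c) a - 1) /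
      ((a : ℂ) - 1) = exp 0
    rw [Set.Icc.coe_zero, zero_mul, zero_mul, add_zero, mdl_one_zero, div_self (hne a),
      exp_zero]
  let L := Complex.isCoveringMap_exp.liftHomotopy H f H_0
  have hL : ∀ x, exp (L x) = (H x : ℂ) := by
    intro x
    have h1 := congr_fun (Complex.isCoveringMap_exp.liftHomotopy_lifts H f H_0) x
    exact congr_arg Subtype.val h1
  refine ⟨fun ζ => if h : ζ ∈ S then L (1, ⟨ζ, h⟩) else 0, ?_, ?_⟩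
  · rw [continuousOn_iff_continuous_domRestrict]
    have h1 : S.domRestrict (fun ζ => if h : ζ ∈ S then L (1, ⟨ζ, h⟩) else 0) =
        fun ζ : S => L (1, ζ) := by
      funext ζ
      rw [domRestrict_apply, dif_pos ζ.2]
    rw [h1]
    exact L.continuous.comp (by fun_prop)
  · intro ζ hζ
    have h1 := hL (1, ⟨ζ, hζ⟩)
    have h2 : (H (1, ⟨ζ, hζ⟩) : ℂ) = (mdl s c ζ - 1) / (ζ - 1) := by
      change (mdl (1 + ((1 : unitInterval) : ℝ) * (s - 1)) (((1 : unitInterval) : ℝ) * c) ζ - 1) /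
        (ζ - 1) = _
      rw [Set.Icc.coe_one, one_mul, one_mul, add_sub_cancel]
    simp only [dif_pos hζ]
    rw [h1, h2, mul_div_cancel₀ _ (hne ⟨ζ, hζ⟩)]

end X6

open X6 in
/-- The model conjugacy between multiplications: `(ρ, φ) ↦ (ρ^σ, φ + c log ρ)`. -/
theorem exists_model {μ μ' : ℂ} (h0 : μ ≠ 0) (h1 : ‖μ‖ < 1) (h0' : μ' ≠ 0) (h1' : ‖μ'‖ < 1)
    {R : ℝ} (hR : 1 < R) : ∃ (Q ℓ : ℂ → ℂ), ContinuousOn Q (closedBall 0 R) ∧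
      InjOn Q (closedBall 0 R) ∧
      Q '' closedBall 0 R = closedBall 0 (R ^ (Real.log ‖μ'‖ / Real.log ‖μ‖)) ∧
      Q '' ball 0 R = ball 0 (R ^ (Real.log ‖μ'‖ / Real.log ‖μ‖)) ∧ Q 1 = 1 ∧
      (∀ ζ ∈ closedBall (0 : ℂ) R, Q (μ * ζ) = μ' * Q ζ) ∧
      ContinuousOn ℓ (closedBall 0 R \ {1}) ∧
      (∀ ζ ∈ closedBall (0 : ℂ) R \ {1}, Q ζ - 1 = (ζ - 1) * exp (ℓ ζ)) := by
  have hn : 0 < ‖μ‖ := norm_pos_iff.2 h0
  have hn' : 0 < ‖μ'‖ := norm_pos_iff.2 h0'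
  have hl : Real.log ‖μ‖ < 0 := Real.log_neg hn h1
  have hl' : Real.log ‖μ'‖ < 0 := Real.log_neg hn' h1'
  set σ : ℝ := Real.log ‖μ'‖ / Real.log ‖μ‖ with hσ
  have hσ0 : 0 < σ := div_pos_of_neg_of_neg hl' hl
  set c : ℝ := (arg μ' - arg μ) / Real.log ‖μ‖ with hc
  have hR0 : 0 < R := by linarith
  have hμ : mdl σ c μ = μ' := by
    have e1 : ‖μ‖ ^ σ = ‖μ'‖ := by
      rw [Real.rpow_def_of_pos hn, hσ, mul_div_cancel₀ _ hl.ne, Real.exp_log hn']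
    have e2 : c * Real.log ‖μ‖ = arg μ' - arg μ := by
      rw [hc, div_mul_cancel₀ _ hl.ne]
    have e3 : μ / ((‖μ‖ : ℝ) : ℂ) = exp (arg μ * I) := by
      have e4 : ((‖μ‖ : ℝ) : ℂ) ≠ 0 := by exact_mod_cast hn.ne'
      rw [div_eq_iff e4, mul_comm]
      exact (Complex.norm_mul_exp_arg_mul_I μ).symm
    rw [mdl, e1, e2, e3, ← exp_add, ← add_mul, ← ofReal_add, add_sub_cancel]
    exact Complex.norm_mul_exp_arg_mul_I μ'
  obtain ⟨ℓ, hℓ1, hℓ2⟩ := exists_quot_log hσ0 c (closedBall (0 : ℂ) R \ {1}) (fun h => h.2 rfl)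
  refine ⟨mdl σ c, ℓ, (continuous_mdl hσ0 c).continuousOn, ?_, image_closedBall hσ0 c hR0,
    image_ball hσ0 c hR0, mdl_one σ c, fun ζ _ => by rw [mdl_mul, hμ], hℓ1, hℓ2⟩
  intro z _ w _ h
  rw [← mdl_inv hσ0 c z, h, mdl_inv hσ0 c w]

end

end Pool.TU
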