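import Pool.Agent.Helper71.TU.X6

/-! # TU X7: conjugacy of rigid sets -/

open Complex Set Filter Topology Metric Polynomial ComplexConjugate Pool.Tuning

namespace Pool.TU

noncomputable section

/-- the inverse of a continuous injection on a compact set is continuous on the image -/
theorem x7_continuousOn_invFunOn {f : ℂ → ℂ} {K : Set ℂ} (hK : IsCompact K)
    (hf : ContinuousOn f K) (hi : InjOn f K) :
    ContinuousOn (Function.invFunOn f K) (f '' K) := by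
  rw [continuousOn_iff_isClosed]
  intro t ht
  refine ⟨f '' (K ∩ t), ((hK.inter_right ht).image_of_continuousOn
    (hf.mono inter_subset_left)).isClosed, ?_⟩
  ext z
  constructor
  · rintro ⟨hz, x, hx, rfl⟩
    refine ⟨⟨x, ⟨hx, ?_⟩, rfl⟩, x, hx, rfl⟩
    have : Function.invFunOn f K (f x) = x := hi.leftInvOn_invFunOn hx
    rw [mem_preimage, this] at hz
    exact hz
  · rintro ⟨⟨x, ⟨hx, hxt⟩, rfl⟩, -⟩
    refine ⟨?_, x, hx, rfl⟩
    have : Function.invFunOn f K (f x) = x := hi.leftInvOn_invFunOn hx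
    rw [mem_preimage, this]
    exact hxt

theorem DC.x7contτ {S : TS} {A : XS S} (D : DC A) : ContinuousOn D.τ (closedBall 0 D.R) := by
  have h : ContinuousOn (fun ζ => (ζ - 1) * exp (D.ε ζ)) (closedBall 0 D.R) :=
    (by fun_prop : Continuous fun ζ : ℂ => ζ - 1).continuousOn.mul D.contε.cexp
  exact h.congr D.τ_eq

/-- inverse of the chart -/
def DC.x7i {S : TS} {A : XS S} (D : DC A) : ℂ → ℂ := Function.invFunOn D.τ (closedBall 0 D.R)

theorem DC.x7i_τ {S : TS} {A : XS S} (D : DC A) {ζ : ℂ} (h : ζ ∈ closedBall (0 : ℂ) D.R) :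
    D.x7i (D.τ ζ) = ζ := D.inj.leftInvOn_invFunOn h

theorem DC.x7i_mem {S : TS} {A : XS S} (D : DC A) {z : ℂ} (h : z ∈ A.X) :
    D.x7i z ∈ closedBall (0 : ℂ) D.R := by
  rw [← D.img] at h
  exact Function.invFunOn_mem h

theorem DC.x7τ_i {S : TS} {A : XS S} (D : DC A) {z : ℂ} (h : z ∈ A.X) : D.τ (D.x7i z) = z := by
  rw [← D.img] at h
  exact Function.invFunOn_eq h

theorem DC.x7i_cont {S : TS} {A : XS S} (D : DC A) : ContinuousOn D.x7i A.X := by
  rw [← D.img]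
  exact x7_continuousOn_invFunOn (isCompact_closedBall 0 D.R) D.x7contτ D.inj

theorem DC.x7one {S : TS} {A : XS S} (D : DC A) : (1 : ℂ) ∈ closedBall (0 : ℂ) D.R := by
  simpa using D.hR.le

theorem DC.x7τ_one {S : TS} {A : XS S} (D : DC A) : D.τ 1 = 0 := by
  rw [D.τ_eq 1 D.x7one]; simp

theorem DC.x7i_ne {S : TS} {A : XS S} (D : DC A) {z : ℂ} (h : z ∈ A.X) (h0 : z ≠ 0) :
    D.x7i z ≠ 1 := by
  intro h1
  apply h0
  rw [← D.x7τ_i h, h1, D.x7τ_one]

theorem exists_xpair_hyp {f g : TS} {A : XS f} {B : XS g} (cf : DC A) (cg : DC B)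
    (hR : cg.R = cf.R ^ (Real.log ‖cg.μ‖ / Real.log ‖cf.μ‖)) : Nonempty (XPair A B) := by
  obtain ⟨Q, ℓ, hQc, hQi, hQ1, hQ2, hQone, hQμ, hℓc, hℓ⟩ :=
    exists_model cf.μ0 cf.μ1 cg.μ0 cg.μ1 cf.hR
  rw [← hR] at hQ1 hQ2
  have hQm : ∀ ζ ∈ closedBall (0 : ℂ) cf.R, Q ζ ∈ closedBall (0 : ℂ) cg.R := by
    intro ζ hζ
    rw [← hQ1]
    exact mem_image_of_mem Q hζ
  have hmul : ∀ ζ ∈ closedBall (0 : ℂ) cf.R, cf.μ * ζ ∈ closedBall (0 : ℂ) cf.R := by
    intro ζ hζ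
    rw [mem_closedBall_zero_iff] at hζ ⊢
    rw [norm_mul]
    exact (mul_le_of_le_one_left (norm_nonneg _) cf.μ1.le).trans hζ
  have hne : ∀ u : ℂ, exp u ∈ A.X → cf.x7i (exp u) ∈ closedBall (0 : ℂ) cf.R \ {1} := by
    intro u hu
    exact ⟨cf.x7i_mem hu, cf.x7i_ne hu (exp_ne_zero u)⟩
  have hexpH : ∀ u : ℂ, exp u ∈ A.X → exp (u + ℓ (cf.x7i (exp u)) +
      cg.ε (Q (cf.x7i (exp u))) - cf.ε (cf.x7i (exp u))) = cg.τ (Q (cf.x7i (exp u))) := by
    intro u hu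
    set ζ := cf.x7i (exp u) with hζ
    have h1 : exp u = (ζ - 1) * exp (cf.ε ζ) := by
      rw [← cf.τ_eq ζ (hne u hu).1, hζ, cf.x7τ_i hu]
    rw [cg.τ_eq _ (hQm ζ (hne u hu).1), hℓ ζ (hne u hu), exp_sub, exp_add, exp_add, h1]
    field_simp
  refine ⟨{
    P := fun z => cg.τ (Q (cf.x7i z))
    H := fun u => u + ℓ (cf.x7i (exp u)) + cg.ε (Q (cf.x7i (exp u))) - cf.ε (cf.x7i (exp u))
    cont := ?_
    maps := ?_
    inj := ?_
    surj := ?_
    Xo_iff := ?_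
    conjF := ?_
    zero := ?_
    contH := ?_
    mapsH := ?_
    expH := ?_
    period := ?_ }⟩
  · exact cg.x7contτ.comp (hQc.comp cf.x7i_cont fun z hz => cf.x7i_mem hz)
      fun z hz => hQm _ (cf.x7i_mem hz)
  · intro z hz
    rw [← cg.img]
    exact mem_image_of_mem _ (hQm _ (cf.x7i_mem hz))
  · intro z hz w hw h
    have h1 := cg.inj (hQm _ (cf.x7i_mem hz)) (hQm _ (cf.x7i_mem hw)) h
    have h2 := hQi (cf.x7i_mem hz) (cf.x7i_mem hw) h1
    rw [← cf.x7τ_i hz, ← cf.x7τ_i hw, h2]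
  · intro w hw
    rw [← cg.img] at hw
    obtain ⟨ξ, hξ, rfl⟩ := hw
    rw [← hQ1] at hξ
    obtain ⟨ζ, hζ, rfl⟩ := hξ
    refine ⟨cf.τ ζ, ?_, ?_⟩
    · rw [← cf.img]; exact mem_image_of_mem _ hζ
    · simp only; rw [cf.x7i_τ hζ]
  · intro z hz
    have hζ := cf.x7i_mem hz
    have e1 : cg.τ (Q (cf.x7i z)) ∈ B.Xo ↔ Q (cf.x7i z) ∈ ball (0 : ℂ) cg.R := by
      rw [← cg.imgo]
      constructor
      · rintro ⟨ξ, hξ, h⟩
        rw [← cg.inj (ball_subset_closedBall hξ) (hQm _ hζ) h]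
        exact hξ
      · intro h; exact mem_image_of_mem _ h
    have e2 : Q (cf.x7i z) ∈ ball (0 : ℂ) cg.R ↔ cf.x7i z ∈ ball (0 : ℂ) cf.R := by
      rw [← hQ2]
      constructor
      · rintro ⟨ξ, hξ, h⟩
        rw [← hQi (ball_subset_closedBall hξ) hζ h]
        exact hξ
      · intro h; exact mem_image_of_mem _ h
    have e3 : z ∈ A.Xo ↔ cf.x7i z ∈ ball (0 : ℂ) cf.R := by
      rw [← cf.imgo]
      constructor
      · rintro ⟨ξ, hξ, rfl⟩
        rw [cf.x7i_τ (ball_subset_closedBall hξ)]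
        exact hξ
      · intro h
        exact ⟨cf.x7i z, h, cf.x7τ_i hz⟩
    rw [e1, e2, e3]
  · intro z hz
    have hζ := cf.x7i_mem hz
    have h1 : f.F z = cf.τ (cf.μ * cf.x7i z) := by
      rw [← cf.lin _ hζ, cf.x7τ_i hz]
    rw [h1, cf.x7i_τ (hmul _ hζ), hQμ _ hζ, cg.lin _ (hQm _ hζ)]
  · have h1 : cf.x7i 0 = 1 := by
      rw [← cf.x7τ_one, cf.x7i_τ cf.x7one]
    rw [h1, hQone, cg.x7τ_one]
  · have hT : ContinuousOn (fun u => cf.x7i (exp u)) {u | u ∈ UU ∧ exp u ∈ A.X} :=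
      cf.x7i_cont.comp continuous_exp.continuousOn fun u hu => hu.2
    refine ((continuousOn_id.add ?_).add ?_).sub ?_
    · exact hℓc.comp hT fun u hu => hne u hu.2
    · exact cg.contε.comp (hQc.comp hT fun u hu => (hne u hu.2).1)
        fun u hu => hQm _ (hne u hu.2).1
    · exact cf.contε.comp hT fun u hu => (hne u hu.2).1
  · intro u hu hX
    have h1 := hexpH u hX
    have h2 : cg.τ (Q (cf.x7i (exp u))) ∈ DD := by
      apply B.subX
      rw [← cg.img]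
      exact mem_image_of_mem _ (hQm _ (hne u hX).1)
    rw [← h1] at h2
    change _ ≤ (0 : ℝ)
    have h3 : ‖exp (u + ℓ (cf.x7i (exp u)) + cg.ε (Q (cf.x7i (exp u))) -
      cf.ε (cf.x7i (exp u)))‖ ≤ 1 := by simpa [DD] using h2
    rw [norm_exp] at h3
    exact Real.exp_le_one_iff.mp h3
  · intro u hu hX
    exact hexpH u hX
  · intro u hu hX
    have : exp (u + tpi) = exp u := by
      rw [exp_add, tpi, exp_two_pi_mul_I, mul_one]
    simp only [this]
    ring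

end

end Pool.TU
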