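import Pool.Agent.Helper71.TU.X7
import Pool.Agent.Helper71.TU.X3
import Pool.Agent.Helper71.TU.L2

/-! # TU X8: extension with a twist -/

open Complex Set Filter Topology Metric Polynomial ComplexConjugate Pool.Tuning

namespace Pool.TU

noncomputable section

namespace X8

/-! ### gluing and descent -/

theorem cont_union_rel {α β : Type*} [TopologicalSpace α] [TopologicalSpace β] {f : α → β}
    {W s t : Set α} (hs : ContinuousOn f (W ∩ s)) (ht : ContinuousOn f (W ∩ t))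
    (hsc : IsClosed s) (htc : IsClosed t) : ContinuousOn f (W ∩ (s ∪ t)) := by
  rw [inter_union_distrib_left]
  refine fun x hx ↦ .union ?_ ?_
  · by_cases h : x ∈ W ∩ s
    · exact hs x h
    · have hxW : x ∈ W := by rcases hx with h | h <;> exact h.1
      have hxs : x ∉ s := fun h' => h ⟨hxW, h'⟩
      apply (continuousWithinAt_of_notMem_closure (s := s) (f := f) (by rwa [hsc.closure_eq])).mono
      exact inter_subset_right
  · by_cases h : x ∈ W ∩ t
    · exact ht x h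
    · have hxW : x ∈ W := by rcases hx with h | h <;> exact h.1
      have hxs : x ∉ t := fun h' => h ⟨hxW, h'⟩
      apply (continuousWithinAt_of_notMem_closure (s := t) (f := f) (by rwa [htc.closure_eq])).mono
      exact inter_subset_right

/-- a function on the image of a compact set -/
theorem cont_of_comp {α β : Type*} [TopologicalSpace α] [TopologicalSpace β]
    {K : Set α} (hK : IsCompact K) (hKc : IsClosed K) {q : α → ℂ} (hq : ContinuousOn q K)
    {h : ℂ → β} (hh : ContinuousOn (fun x => h (q x)) K) : ContinuousOn h (q '' K) := by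
  rw [continuousOn_iff_isClosed]
  intro t ht
  have h1 : IsClosed (K ∩ (fun x => h (q x)) ⁻¹' t) := hh.preimage_isClosed_of_isClosed hKc ht
  have h2 : IsCompact (K ∩ (fun x => h (q x)) ⁻¹' t) :=
    hK.of_isClosed_subset h1 inter_subset_left
  refine ⟨q '' (K ∩ (fun x => h (q x)) ⁻¹' t),
    (h2.image_of_continuousOn (hq.mono inter_subset_left)).isClosed, ?_⟩
  ext z
  constructor
  · rintro ⟨hz, x, hx, rfl⟩
    exact ⟨⟨x, ⟨hx, hz⟩, rfl⟩, x, hx, rfl⟩
  · rintro ⟨⟨x, ⟨hx, hxt⟩, rfl⟩, -⟩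
    exact ⟨hxt, x, hx, rfl⟩

theorem exp_add_tpi (u : ℂ) : exp (u + tpi) = exp u := by
  rw [exp_add, tpi, exp_two_pi_mul_I, mul_one]

theorem exp_sub_tpi (u : ℂ) : exp (u - tpi) = exp u := by
  have := exp_add_tpi (u - tpi)
  rw [sub_add_cancel] at this
  exact this.symm

theorem tpi_re : tpi.re = 0 := by simp [tpi]

theorem tpi_im : tpi.im = 2 * Real.pi := by simp [tpi]

theorem mem_UU_exp {u : ℂ} : u ∈ UU ↔ exp u ∈ DD := by
  rw [DD, mem_closedBall_zero_iff, norm_exp, Real.exp_le_one_iff]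
  rfl

theorem log_mem_UU {z : ℂ} (hz : z ∈ DD) (h0 : z ≠ 0) : log z ∈ UU := by
  rw [mem_UU_exp, exp_log h0]
  exact hz

theorem isClosed_UU : IsClosed UU := isClosed_le Complex.continuous_re continuous_const

/-- integer periodicity from periodicity -/
theorem per_int {Y : Set ℂ} {D : ℂ → ℂ}
    (h : ∀ u ∈ UU, exp u ∈ Y → D (u + tpi) = D u) (n : ℤ) :
    ∀ u ∈ UU, exp u ∈ Y → D (u + n * tpi) = D u := by
  have hmem : ∀ (m : ℤ) (u : ℂ), u ∈ UU → u + m * tpi ∈ UU := by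
    intro m u hu
    change (u + m * tpi).re ≤ 0
    have : (u + m * tpi).re = u.re := by
      simp [tpi_re, tpi_im]
    rw [this]; exact hu
  have hexp : ∀ (m : ℤ) (u : ℂ), exp (u + m * tpi) = exp u := by
    intro m u
    rw [exp_add, tpi, exp_int_mul_two_pi_mul_I, mul_one]
  induction n using Int.induction_on with
  | zero => intro u _ _; simp
  | succ k ih =>
    intro u hu hY
    have h1 := h (u + (k : ℤ) * tpi) (hmem k u hu) (by rw [hexp]; exact hY)
    have h2 : u + ((k : ℤ) + 1 : ℤ) * tpi = u + (k : ℤ) * tpi + tpi := by push_cast; ring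
    rw [h2, h1, ih u hu hY]
  | pred k ih =>
    intro u hu hY
    have h1 := h (u + (-(k : ℤ) - 1 : ℤ) * tpi) (hmem _ u hu) (by rw [hexp]; exact hY)
    have h2 : u + (-(k : ℤ) - 1 : ℤ) * tpi + tpi = u + (-(k : ℤ) : ℤ) * tpi := by push_cast; ring
    rw [h2] at h1
    rw [← h1, ih u hu hY]

theorem log_exp_per {Y : Set ℂ} {D : ℂ → ℂ}
    (h : ∀ u ∈ UU, exp u ∈ Y → D (u + tpi) = D u) {u v : ℂ} (hu : u ∈ UU) (hY : exp u ∈ Y)
    (huv : exp v = exp u) : D v = D u := by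
  obtain ⟨n, hn⟩ := exp_eq_exp_iff_exists_int.1 huv
  have : v = u + n * tpi := by rw [hn, tpi]
  rw [this]
  exact per_int h n u hu hY

/-- descent of periodic functions -/
theorem descend {Y : Set ℂ} {D : ℂ → ℂ} (hc : ContinuousOn D {u | u ∈ UU ∧ exp u ∈ Y})
    (h : ∀ u ∈ UU, exp u ∈ Y → D (u + tpi) = D u) :
    ContinuousOn (fun z => D (log z)) ((DD \ {0}) ∩ Y) := by
  intro z0 hz0
  have h00 : z0 ≠ 0 := hz0.1.2
  by_cases hs : z0 ∈ slitPlane
  · have h1 : ContinuousWithinAt log ((DD \ {0}) ∩ Y) z0 :=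
      (continuousAt_clog hs).continuousWithinAt
    have h2 : MapsTo log ((DD \ {0}) ∩ Y) {u | u ∈ UU ∧ exp u ∈ Y} := by
      intro z hz
      exact ⟨log_mem_UU hz.1.1 hz.1.2, by rw [exp_log hz.1.2]; exact hz.2⟩
    exact (hc _ (h2 hz0)).comp h1 h2
  · have hs' : -z0 ∈ slitPlane := by
      rw [mem_slitPlane_iff] at hs ⊢
      push Not at hs
      left
      rw [neg_re, neg_pos]
      rcases lt_or_eq_of_le hs.1 with h | h
      · exact h
      · exact absurd (Complex.ext h hs.2) h00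
    set L : ℂ → ℂ := fun z => log (-z) + Real.pi * I with hL
    have hLe : ∀ z, z ≠ 0 → exp (L z) = z := by
      intro z hz
      simp only [hL]
      rw [exp_add, exp_log (neg_ne_zero.2 hz), exp_pi_mul_I]
      ring
    have h1 : ContinuousWithinAt L ((DD \ {0}) ∩ Y) z0 := by
      apply ContinuousAt.continuousWithinAt
      have : ContinuousAt (fun z : ℂ => log (-z)) z0 :=
        ContinuousAt.comp (f := fun z : ℂ => -z) (g := log) (continuousAt_clog hs')
          continuous_neg.continuousAt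
      exact this.add continuousAt_const
    have h2 : MapsTo L ((DD \ {0}) ∩ Y) {u | u ∈ UU ∧ exp u ∈ Y} := by
      intro z hz
      have := hLe z hz.1.2
      refine ⟨?_, by rw [this]; exact hz.2⟩
      rw [mem_UU_exp, this]; exact hz.1.1
    have h3 : ContinuousWithinAt (fun z => D (L z)) ((DD \ {0}) ∩ Y) z0 :=
      (hc _ (h2 hz0)).comp h1 h2
    refine h3.congr ?_ ?_
    · intro z hz
      exact log_exp_per h (h2 hz).1 (h2 hz).2 (by rw [exp_log hz.1.2, hLe z hz.1.2])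
    · exact log_exp_per h (h2 hz0).1 (h2 hz0).2 (by rw [exp_log h00, hLe z0 h00])

/-- Tietze -/
theorem tietze_on {W Y : Set ℂ} (hY : IsClosed Y) {d : ℂ → ℂ} (hd : ContinuousOn d (W ∩ Y)) :
    ∃ d1 : ℂ → ℂ, ContinuousOn d1 W ∧ ∀ z ∈ W ∩ Y, d1 z = d z := by
  classical
  set s : Set W := Subtype.val ⁻¹' Y with hs
  have hsc : IsClosed s := hY.preimage continuous_subtype_val
  let f : C(s, ℂ) := ⟨fun z => d z.1.1, by
    apply hd.comp_continuous (continuous_subtype_val.comp continuous_subtype_val)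
    intro z
    exact ⟨z.1.2, z.2⟩⟩
  obtain ⟨g, hg⟩ := ContinuousMap.exists_restrict_eq hsc f
  refine ⟨fun z => if h : z ∈ W then g ⟨z, h⟩ else 0, ?_, ?_⟩
  · rw [continuousOn_iff_continuous_domRestrict]
    convert g.continuous using 1
    ext z
    simp
  · intro z hz
    simp only
    rw [dif_pos hz.1]
    have := congrArg (fun F : C(s, ℂ) => F ⟨⟨z, hz.1⟩, hz.2⟩) hg
    exact this

/-! ### linear interpolation -/

/-- linear interpolation -/
def lin (a b a' b' θ : ℝ) : ℝ := a' + (θ - a) / (b - a) * (b' - a')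

theorem lin_cont (a b a' b' : ℝ) : Continuous (lin a b a' b') := by
  unfold lin; fun_prop

theorem lin_left (a b a' b' : ℝ) : lin a b a' b' a = a' := by simp [lin]

theorem lin_right {a b : ℝ} (h : a < b) (a' b' : ℝ) : lin a b a' b' b = b' := by
  have : b - a ≠ 0 := by linarith
  simp [lin, div_self this]

theorem lin_mem {a b a' b' θ : ℝ} (h : a < b) (h' : a' ≤ b') (hθ : θ ∈ Icc a b) :
    lin a b a' b' θ ∈ Icc a' b' := by
  have h1 : 0 ≤ (θ - a) / (b - a) := div_nonneg (by linarith [hθ.1]) (by linarith)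
  have h2 : (θ - a) / (b - a) ≤ 1 := by rw [div_le_one (by linarith)]; linarith [hθ.2]
  constructor
  · have : 0 ≤ (θ - a) / (b - a) * (b' - a') := mul_nonneg h1 (by linarith)
    unfold lin; linarith
  · have : (θ - a) / (b - a) * (b' - a') ≤ 1 * (b' - a') :=
      mul_le_mul_of_nonneg_right h2 (by linarith)
    unfold lin; linarith

section rho

variable (r : ℝ → ℝ) (s1 κ β s2 s1' κ' β' s2' : ℝ)

/-- the circle map -/
def rho (θ : ℝ) : ℝ :=
  if θ ≤ s1 then r θ else if θ ≤ κ then lin s1 κ s1' κ' θ else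
    if θ ≤ β then lin κ β κ' β' θ else if θ ≤ s2 then lin β s2 β' s2' θ else r θ

variable {r s1 κ β s2 s1' κ' β' s2'}

theorem rho1 {θ : ℝ} (h : θ ≤ s1) : rho r s1 κ β s2 s1' κ' β' s2' θ = r θ := by
  simp [rho, h]

theorem rho2 (hr1 : r s1 = s1') {θ : ℝ} (h : θ ∈ Icc s1 κ) :
    rho r s1 κ β s2 s1' κ' β' s2' θ = lin s1 κ s1' κ' θ := by
  unfold rho
  rcases eq_or_lt_of_le h.1 with h1 | h1
  · rw [if_pos h1.ge, ← h1, lin_left, hr1]
  · rw [if_neg (not_le.2 h1), if_pos h.2]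

theorem rho3 (o1 : s1 < κ) {θ : ℝ} (h : θ ∈ Icc κ β) :
    rho r s1 κ β s2 s1' κ' β' s2' θ = lin κ β κ' β' θ := by
  unfold rho
  rw [if_neg (not_le.2 (o1.trans_le h.1))]
  rcases eq_or_lt_of_le h.1 with h1 | h1
  · rw [if_pos h1.ge, ← h1, lin_left, lin_right o1]
  · rw [if_neg (not_le.2 h1), if_pos h.2]

theorem rho4 (o1 : s1 < κ) (o2 : κ < β) {θ : ℝ} (h : θ ∈ Icc β s2) :
    rho r s1 κ β s2 s1' κ' β' s2' θ = lin β s2 β' s2' θ := by
  unfold rho
  rw [if_neg (not_le.2 ((o1.trans o2).trans_le h.1)), if_neg (not_le.2 (o2.trans_le h.1))]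
  rcases eq_or_lt_of_le h.1 with h1 | h1
  · rw [if_pos h1.ge, ← h1, lin_left, lin_right o2]
  · rw [if_neg (not_le.2 h1), if_pos h.2]

theorem rho5 (o1 : s1 < κ) (o2 : κ < β) (o3 : β < s2) (hr2 : r s2 = s2') {θ : ℝ} (h : s2 ≤ θ) :
    rho r s1 κ β s2 s1' κ' β' s2' θ = r θ := by
  unfold rho
  rw [if_neg (not_le.2 (((o1.trans o2).trans o3).trans_le h)),
    if_neg (not_le.2 ((o2.trans o3).trans_le h)), if_neg (not_le.2 (o3.trans_le h))]
  rcases eq_or_lt_of_le h with h1 | h1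
  · rw [if_pos h1.ge, ← h1, lin_right o3, hr2]
  · rw [if_neg (not_le.2 h1)]

theorem rho_cont {T : ℝ} (o0 : 0 < s1) (o1 : s1 < κ) (o2 : κ < β) (o3 : β < s2) (o4 : s2 < T)
    (hr1 : r s1 = s1') (hr2 : r s2 = s2') (h1 : ContinuousOn r (Icc 0 s1))
    (h2 : ContinuousOn r (Icc s2 T)) :
    ContinuousOn (rho r s1 κ β s2 s1' κ' β' s2') (Icc 0 T) := by
  have e : Icc 0 T = Icc 0 s1 ∪ (Icc s1 κ ∪ (Icc κ β ∪ (Icc β s2 ∪ Icc s2 T))) := by
    rw [Icc_union_Icc_eq_Icc o3.le o4.le, Icc_union_Icc_eq_Icc o2.le (o3.trans o4).le,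
      Icc_union_Icc_eq_Icc o1.le (o2.trans (o3.trans o4)).le,
      Icc_union_Icc_eq_Icc o0.le (o1.trans (o2.trans (o3.trans o4))).le]
  rw [e]
  refine ContinuousOn.union_of_isClosed (h1.congr fun θ h => rho1 h.2) ?_ isClosed_Icc
    (isClosed_Icc.union (isClosed_Icc.union (isClosed_Icc.union isClosed_Icc)))
  refine ContinuousOn.union_of_isClosed ((lin_cont _ _ _ _).continuousOn.congr
    fun θ h => rho2 hr1 h) ?_ isClosed_Icc (isClosed_Icc.union (isClosed_Icc.union isClosed_Icc))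
  refine ContinuousOn.union_of_isClosed ((lin_cont _ _ _ _).continuousOn.congr
    fun θ h => rho3 o1 h) ?_ isClosed_Icc (isClosed_Icc.union isClosed_Icc)
  refine ContinuousOn.union_of_isClosed ((lin_cont _ _ _ _).continuousOn.congr
    fun θ h => rho4 o1 o2 h) ?_ isClosed_Icc isClosed_Icc
  exact h2.congr fun θ h => rho5 o1 o2 o3 hr2 h.1

end rho

/-! ### the circle displacement -/

open Classical in
/-- the angle in `[0, 2π)` -/
def tt (z : ℂ) : ℝ := if h : ‖z‖ = 1 then Classical.choose (exists_ec h) else 0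

theorem tt_mem {z : ℂ} (h : ‖z‖ = 1) : tt z ∈ Ico 0 (2 * Real.pi) := by
  rw [tt, dif_pos h]; exact (Classical.choose_spec (exists_ec h)).1

theorem ec_tt {z : ℂ} (h : ‖z‖ = 1) : ec (tt z) = z := by
  rw [tt, dif_pos h]; exact (Classical.choose_spec (exists_ec h)).2.symm

theorem tt_ec {θ : ℝ} (h : θ ∈ Icc 0 (2 * Real.pi)) : tt (ec θ) = θ ∨
    (θ = 2 * Real.pi ∧ tt (ec θ) = 0) := by
  have h1 := tt_mem (norm_ec θ)
  have h2 := ec_tt (norm_ec θ)
  rcases eq_or_lt_of_le h.2 with h3 | h3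
  · right
    refine ⟨h3, ?_⟩
    have h4 : ec θ = 1 := by
      rw [h3, ec]; push_cast; exact exp_two_pi_mul_I
    rw [h4] at h2
    have h5 := ec_eq_one ⟨h1.1, h1.2.le⟩ (by rw [h4]; exact h2)
    rcases h5 with h5 | h5
    · exact h5
    · exact absurd h5 h1.2.ne
  · left
    exact ec_inj' h1 ⟨h.1, h3⟩ h2

/-- displacement on the circle -/
def dC (ρ : ℝ → ℝ) (z : ℂ) : ℂ := ((ρ (tt z) - tt z : ℝ) : ℂ) * I

theorem dC_ec {ρ : ℝ → ℝ} (h0 : ρ 0 = 0) (h1 : ρ (2 * Real.pi) = 2 * Real.pi) {θ : ℝ}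
    (h : θ ∈ Icc 0 (2 * Real.pi)) : dC ρ (ec θ) = ((ρ θ - θ : ℝ) : ℂ) * I := by
  unfold dC
  rcases tt_ec h with h2 | ⟨h2, h3⟩
  · rw [h2]
  · rw [h3, h2, h0, h1]; simp

theorem dC_cont {ρ : ℝ → ℝ} (h0 : ρ 0 = 0) (h1 : ρ (2 * Real.pi) = 2 * Real.pi)
    (hc : ContinuousOn ρ (Icc 0 (2 * Real.pi))) : ContinuousOn (dC ρ) (sphere 0 1) := by
  have e : ec '' Icc 0 (2 * Real.pi) = sphere (0 : ℂ) 1 := by
    apply Subset.antisymm
    · rintro _ ⟨θ, _, rfl⟩
      rw [mem_sphere_zero_iff_norm, norm_ec]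
    · intro z hz
      rw [mem_sphere_zero_iff_norm] at hz
      exact ⟨tt z, Ico_subset_Icc_self (tt_mem hz), ec_tt hz⟩
  rw [← e]
  refine cont_of_comp isCompact_Icc isClosed_Icc continuous_ec.continuousOn ?_
  have h2 : ContinuousOn (fun θ : ℝ => ((ρ θ - θ : ℝ) : ℂ) * I) (Icc 0 (2 * Real.pi)) :=
    (Complex.continuous_ofReal.comp_continuousOn (hc.sub continuousOn_id)).mul continuousOn_const
  exact h2.congr fun θ h => dC_ec h0 h1 h

/-- clamping to the left half plane -/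
def cl (w : ℂ) : ℂ := ((min w.re 0 : ℝ) : ℂ) + (w.im : ℂ) * I

theorem cl_cont : Continuous cl := by unfold cl; fun_prop

theorem cl_mem (w : ℂ) : cl w ∈ UU := by
  change (cl w).re ≤ 0
  simp [cl]

theorem cl_id {w : ℂ} (h : w ∈ UU) : cl w = w := by
  have h' : w.re ≤ 0 := h
  unfold cl
  rw [min_eq_left h']
  exact re_add_im w

theorem cl_add (w : ℂ) : cl (w + tpi) = cl w + tpi := by
  apply Complex.ext
  · simp [cl, tpi_re]
  · simp [cl]

theorem ec_eq (θ : ℝ) : ec θ = exp (θ * I) := rfl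

theorem log_ec {θ : ℝ} (h1 : -Real.pi < θ) (h2 : θ ≤ Real.pi) : log (ec θ) = θ * I := by
  rw [ec_eq, log_exp]
  · simpa using h1
  · simpa using h2

theorem ec_sub_two_pi (θ : ℝ) : ec (θ - 2 * Real.pi) = ec θ := by
  rw [ec_eq, ec_eq]
  have : (((θ - 2 * Real.pi : ℝ) : ℂ) * I) = θ * I - tpi := by rw [tpi]; push_cast; ring
  rw [this, exp_sub_tpi]

theorem s1_lt_pi {s1 s2 : ℝ} {N : Set ℂ} (h0 : 0 < s1) (h1 : s1 < s2) (h2 : s2 < 2 * Real.pi)
    (arc : ∀ θ ∈ Icc 0 (2 * Real.pi), ec θ ∈ N ↔ θ ≤ s1 ∨ s2 ≤ θ) (hre : ∀ z ∈ N, 0 < z.re) :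
    s1 < Real.pi ∧ Real.pi < s2 := by
  have hpi := Real.pi_pos
  have h3 : ec Real.pi ∉ N := by
    intro h
    have := hre _ h
    rw [ec_eq, exp_pi_mul_I] at this
    norm_num at this
  rw [arc Real.pi ⟨hpi.le, by linarith⟩] at h3
  push Not at h3
  exact h3

section NP

variable {f g : TS} {M : NS f} {N : NS g} (n : NPair f g M N)

include n in
theorem logP {ρ : ℝ → ℝ} (hρ1 : ∀ θ ≤ n.s1, ρ θ = n.ρ θ) (hρ2 : ∀ θ, n.s2 ≤ θ → ρ θ = n.ρ θ)
    {θ : ℝ} (hθ : θ ∈ Icc 0 (2 * Real.pi)) (h : ec θ ∈ M.N) :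
    log (n.P (ec θ)) - log (ec θ) = ((ρ θ - θ : ℝ) : ℂ) * I := by
  obtain ⟨a1, a2⟩ := s1_lt_pi n.s_ord.1 n.s_ord.2.1 n.s_ord.2.2 n.arc M.repos
  obtain ⟨b1, b2⟩ := s1_lt_pi n.s_ord'.1 n.s_ord'.2.1 n.s_ord'.2.2 n.arc' N.repos
  have hpi := Real.pi_pos
  rw [n.circ θ hθ h]
  rcases (n.arc θ hθ).1 h with h1 | h1
  · have h2 := n.ρmem1 θ ⟨hθ.1, h1⟩
    rw [log_ec (by linarith [h2.1]) (by linarith [h2.2]), log_ec (by linarith [hθ.1]) (by linarith),
      hρ1 θ h1]
    push_cast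
    ring
  · have h2 := n.ρmem2 θ ⟨h1, hθ.2⟩
    rw [← ec_sub_two_pi (n.ρ θ), ← ec_sub_two_pi θ,
      log_ec (by linarith [h2.1]) (by linarith [h2.2]),
      log_ec (by linarith [hθ.1]) (by linarith [hθ.2]), hρ2 θ h1]
    push_cast
    ring

end NP

end X8

open X8

/-- Extension of a rigid conjugacy to the whole disc, hyperbolic case, with a twist `j`. -/
theorem extend_hyp {f g : TS} {A : XS f} {B : XS g} (cf : DC A) (cg : DC B)
    (x : XPair A B) {M : NS f} {N : NS g} (n : NPair f g M N) (hM : Disjoint M.N A.X)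
    (hN : Disjoint N.N B.X) {βf βg : ℝ} (hf : IsBeta f βf) (hg : IsBeta g βg)
    (o1 : n.s1 < f.κ) (o2 : βf < n.s2) (o3 : n.s1' < g.κ) (o4 : βg < n.s2') (j : ℤ) :
    ∃ (P H : ℂ → ℂ) (ρ : ℝ → ℝ), RMapB f g βf βg P ρ ∧ IsHat P H ∧
      (∀ z ∈ A.X, P z = x.P z) ∧ (∀ u ∈ UU, exp u ∈ A.X → H u = x.H u + j * tpi) ∧
      (∀ z ∈ M.N, P z = n.P z) ∧ (∀ z ∈ DD, P z ∈ B.Xo ↔ z ∈ A.Xo) ∧
      (∀ z ∈ DD, P z ∈ N.No → z ∈ M.No) := by
  classical
  have hpi := Real.pi_pos
  have oκβ : f.κ < βf := hf.mem.1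
  have oκβ' : g.κ < βg := hg.mem.1
  obtain ⟨ord1, ord2, ord3⟩ := n.s_ord
  obtain ⟨ord1', ord2', ord3'⟩ := n.s_ord'
  set ρ : ℝ → ℝ := rho n.ρ n.s1 f.κ βf n.s2 n.s1' g.κ βg n.s2' with hρdef
  have r1 : ∀ θ ≤ n.s1, ρ θ = n.ρ θ := fun θ h => rho1 h
  have r2 : ∀ θ ∈ Icc n.s1 f.κ, ρ θ = lin n.s1 f.κ n.s1' g.κ θ := fun θ h => rho2 n.ρs1 h
  have r3 : ∀ θ ∈ Icc f.κ βf, ρ θ = lin f.κ βf g.κ βg θ := fun θ h => rho3 o1 h
  have r4 : ∀ θ ∈ Icc βf n.s2, ρ θ = lin βf n.s2 βg n.s2' θ := fun θ h => rho4 o1 oκβ h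
  have r5 : ∀ θ, n.s2 ≤ θ → ρ θ = n.ρ θ := fun θ h => rho5 o1 oκβ o2 n.ρs2 h
  have hρc : ContinuousOn ρ (Icc 0 (2 * Real.pi)) :=
    rho_cont ord1 o1 oκβ o2 ord3 n.ρs1 n.ρs2 n.ρcont1 n.ρcont2
  have hρ0 : ρ 0 = 0 := by rw [r1 0 ord1.le]; exact n.ρ0
  have hρ1 : ρ (2 * Real.pi) = 2 * Real.pi := by rw [r5 _ ord3.le]; exact n.ρ1
  have hρκ : ρ f.κ = g.κ := by rw [r3 f.κ ⟨le_rfl, oκβ.le⟩, lin_left]
  have hρβ : ρ βf = βg := by rw [r4 βf ⟨le_rfl, o2.le⟩, lin_left]
  have m1 : ∀ θ ∈ Icc 0 n.s1, ρ θ ∈ Icc 0 n.s1' := fun θ h => by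
    rw [r1 θ h.2]; exact n.ρmem1 θ h
  have m2 : ∀ θ ∈ Icc n.s1 f.κ, ρ θ ∈ Icc n.s1' g.κ := fun θ h => by
    rw [r2 θ h]; exact lin_mem o1 o3.le h
  have m3 : ∀ θ ∈ Icc f.κ βf, ρ θ ∈ Icc g.κ βg := fun θ h => by
    rw [r3 θ h]; exact lin_mem oκβ oκβ'.le h
  have m4 : ∀ θ ∈ Icc βf n.s2, ρ θ ∈ Icc βg n.s2' := fun θ h => by
    rw [r4 θ h]; exact lin_mem o2 o4.le h
  have m5 : ∀ θ ∈ Icc n.s2 (2 * Real.pi), ρ θ ∈ Icc n.s2' (2 * Real.pi) := fun θ h => by
    rw [r5 θ h.1]; exact n.ρmem2 θ h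
  have hρlo : ∀ θ ∈ Icc 0 f.κ, ρ θ ∈ Icc 0 g.κ := by
    intro θ h
    rcases le_total θ n.s1 with h1 | h1
    · have := m1 θ ⟨h.1, h1⟩
      exact ⟨this.1, by linarith [this.2]⟩
    · have := m2 θ ⟨h1, h.2⟩
      exact ⟨by linarith [this.1], this.2⟩
  have hρtop : ∀ θ ∈ Icc βf (2 * Real.pi), ρ θ ∈ Icc βg (2 * Real.pi) := by
    intro θ h
    rcases le_total θ n.s2 with h1 | h1
    · have := m4 θ ⟨h.1, h1⟩
      exact ⟨this.1, by linarith [this.2]⟩
    · have := m5 θ ⟨h1, h.2⟩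
      exact ⟨by linarith [this.1], this.2⟩
  have hρhi : ∀ θ ∈ Icc f.κ (2 * Real.pi), ρ θ ∈ Icc g.κ (2 * Real.pi) := by
    intro θ h
    rcases le_total θ βf with h1 | h1
    · have := m3 θ ⟨h.1, h1⟩
      exact ⟨this.1, by linarith [this.2]⟩
    · have := hρtop θ ⟨h1, h.2⟩
      exact ⟨by linarith [this.1], this.2⟩
  have hρm : ∀ θ ∈ Icc 0 (2 * Real.pi), ρ θ ∈ Icc 0 (2 * Real.pi) := by
    intro θ h
    rcases le_total θ f.κ with h1 | h1
    · have := hρlo θ ⟨h.1, h1⟩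
      exact ⟨this.1, by linarith [this.2]⟩
    · have := hρhi θ ⟨h1, h.2⟩
      exact ⟨by linarith [this.1], this.2⟩
  -- closed sets
  have clM := M.closedN
  have clX := A.closedX
  have h0M : (0 : ℂ) ∉ M.N := fun h => by simpa using M.repos 0 h
  have h0N : (0 : ℂ) ∉ N.N := fun h => by simpa using N.repos 0 h
  have hMX : ∀ z ∈ M.N, z ∉ A.X := fun z hz hz' => disjoint_left.1 hM hz hz'
  have hNX : ∀ z ∈ N.N, z ∉ B.X := fun z hz hz' => disjoint_left.1 hN hz hz'
  have hPN0 : ∀ z ∈ M.N, n.P z ≠ 0 := fun z hz h => h0N (by rw [← h]; exact n.maps hz)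
  -- the displacement
  set DX : ℂ → ℂ := fun u => x.H u + j * tpi - u with hDX
  have hDXc : ContinuousOn DX {u | u ∈ UU ∧ exp u ∈ A.X} :=
    (x.contH.add continuousOn_const).sub continuousOn_id
  have hDXp : ∀ u ∈ UU, exp u ∈ A.X → DX (u + tpi) = DX u := by
    intro u hu hX
    simp only [hDX]
    rw [x.period u hu hX]
    ring
  set dN : ℂ → ℂ := fun z => log (n.P z) - log z with hdN
  have hdNc : ContinuousOn dN M.N := by
    refine ContinuousOn.sub ?_ ?_
    · exact n.cont.clog fun z hz => Or.inl (N.repos _ (n.maps hz))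
    · exact continuousOn_id.clog fun z hz => Or.inl (M.repos _ hz)
  set d : ℂ → ℂ := fun z => if z ∈ A.X then DX (log z) else if z ∈ M.N then dN z else dC ρ z
    with hd
  have hdX : ∀ z ∈ A.X, d z = DX (log z) := fun z hz => by simp only [hd]; rw [if_pos hz]
  have hdM : ∀ z ∈ M.N, d z = dN z := fun z hz => by
    simp only [hd]; rw [if_neg (hMX z hz), if_pos hz]
  have hdC : ∀ z ∈ sphere (0 : ℂ) 1, d z = dC ρ z := by
    intro z hz
    rw [mem_sphere_zero_iff_norm] at hz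
    have h1 : z ∉ A.X := fun h => cf.circ z h hz
    simp only [hd]
    rw [if_neg h1]
    split_ifs with h2
    · have h3 := ec_tt hz
      have h4 := tt_mem hz
      have h5 := logP n r1 r5 (Ico_subset_Icc_self h4) (by rw [h3]; exact h2)
      rw [h3] at h5
      simp only [hdN]
      rw [h5, dC]
    · rfl
  set W : Set ℂ := DD \ {0} with hW
  set Y : Set ℂ := A.X ∪ (M.N ∪ sphere 0 1) with hY
  have hYc : IsClosed Y := clX.union (clM.union isClosed_sphere)
  have hdc : ContinuousOn d (W ∩ Y) := by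
    apply cont_union_rel _ _ clX (clM.union isClosed_sphere)
    · exact (descend hDXc hDXp).congr fun z hz => hdX z hz.2
    · apply cont_union_rel _ _ clM isClosed_sphere
      · exact (hdNc.mono inter_subset_right).congr fun z hz => hdM z hz.2
      · exact ((dC_cont hρ0 hρ1 hρc).mono inter_subset_right).congr fun z hz => hdC z hz.2
  obtain ⟨d1, hd1c, hd1⟩ := tietze_on hYc hdc
  -- the first approximation
  set H1 : ℂ → ℂ := fun u => cl (u + d1 (exp u)) with hH1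
  have hexpW : ∀ u ∈ UU, exp u ∈ W := fun u hu => ⟨mem_UU_exp.1 hu, exp_ne_zero u⟩
  have hH1c : ContinuousOn H1 UU := by
    apply cl_cont.comp_continuousOn
    exact continuousOn_id.add (hd1c.comp continuous_exp.continuousOn hexpW)
  have hH1m : MapsTo H1 UU UU := fun u _ => cl_mem _
  have hH1p : ∀ u ∈ UU, H1 (u + tpi) = H1 u + tpi := by
    intro u _
    simp only [hH1]
    rw [X8.exp_add_tpi, ← cl_add]
    congr 1
    ring
  have kX : ∀ u ∈ UU, exp u ∈ A.X → H1 u = x.H u + j * tpi := by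
    intro u hu hX
    have e1 : d1 (exp u) = x.H u + j * tpi - u := by
      rw [hd1 _ ⟨hexpW u hu, Or.inl hX⟩, hdX _ hX,
        log_exp_per hDXp hu hX (by rw [exp_log (exp_ne_zero u)])]
    simp only [hH1]
    rw [e1]
    have e2 : u + (x.H u + j * tpi - u) = x.H u + j * tpi := by ring
    rw [e2]
    apply cl_id
    change (x.H u + j * tpi).re ≤ 0
    have e3 : (x.H u + j * tpi).re = (x.H u).re := by simp [tpi_re, tpi_im]
    rw [e3]
    exact x.mapsH u hu hX
  have kXe : ∀ u ∈ UU, exp u ∈ A.X → exp (H1 u) = x.P (exp u) := by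
    intro u hu hX
    rw [kX u hu hX, exp_add, x.expH u hu hX, tpi, exp_int_mul_two_pi_mul_I, mul_one]
  have kM : ∀ u ∈ UU, exp u ∈ M.N → H1 u = u + (log (n.P (exp u)) - log (exp u)) := by
    intro u hu hX
    have e1 : d1 (exp u) = log (n.P (exp u)) - log (exp u) := by
      rw [hd1 _ ⟨hexpW u hu, Or.inr (Or.inl hX)⟩, hdM _ hX]
    simp only [hH1]
    rw [e1]
    apply cl_id
    rw [mem_UU_exp, exp_add, exp_sub, exp_log (hPN0 _ hX), exp_log (exp_ne_zero u),
      mul_div_cancel₀ _ (exp_ne_zero u)]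
    exact N.subN (n.maps hX)
  have kMe : ∀ u ∈ UU, exp u ∈ M.N → exp (H1 u) = n.P (exp u) := by
    intro u hu hX
    rw [kM u hu hX, exp_add, exp_sub, exp_log (hPN0 _ hX), exp_log (exp_ne_zero u),
      mul_div_cancel₀ _ (exp_ne_zero u)]
  have kC : ∀ θ ∈ Icc 0 (2 * Real.pi), H1 (θ * I) = ρ θ * I := by
    intro θ hθ
    have hu : (θ : ℂ) * I ∈ UU := by
      change ((θ : ℂ) * I).re ≤ 0
      simp
    have hs : ec θ ∈ sphere (0 : ℂ) 1 := by rw [mem_sphere_zero_iff_norm, norm_ec]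
    have e1 : d1 (exp (θ * I)) = ((ρ θ - θ : ℝ) : ℂ) * I := by
      rw [← ec_eq, hd1 _ ⟨by rw [ec_eq]; exact hexpW _ hu, Or.inr (Or.inr hs)⟩, hdC _ hs,
        dC_ec hρ0 hρ1 hθ]
    simp only [hH1]
    rw [e1]
    have e2 : (θ : ℂ) * I + ((ρ θ - θ : ℝ) : ℂ) * I = ρ θ * I := by push_cast; ring
    rw [e2]
    apply cl_id
    change ((ρ θ : ℂ) * I).re ≤ 0
    simp
  -- the retractions
  obtain ⟨δ, τ, hHC⟩ := n.chart
  obtain ⟨rE, hrE, hrE2⟩ := exists_hret hHC h0N
  set rB := cg.rh with hrBdef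
  have hrB : HRet B.Xo rB := cg.ret
  have hEB : ∀ w ∈ OO B.Xo, rE w ∈ OO B.Xo := by
    intro w hw
    by_cases h : exp w ∈ N.No
    · have h1 := hrE2 w hw.1 h
      exact ⟨(hrE.maps hw.1).1, fun h2 => hNX _ h1.1 (B.Xo_sub h2)⟩
    · rw [hrE.id w ⟨hw.1, h⟩]; exact hw
  have hfix : ∀ w, w ∈ UU → exp w ∉ B.Xo → exp w ∉ N.No → rE (rB w) = w := by
    intro w hw h1 h2
    rw [hrB.id w ⟨hw, h1⟩, hrE.id w ⟨hw, h2⟩]
  -- the hat
  set H : ℂ → ℂ := fun u => if exp u ∈ A.Xo ∨ exp u ∈ M.No then H1 u else rE (rB (H1 u))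
    with hH
  have hHX : ∀ u ∈ UU, exp u ∈ A.X → H u = H1 u := by
    intro u hu hX
    simp only [hH]
    split_ifs with h
    · rfl
    · push Not at h
      apply hfix _ (hH1m hu)
      · rw [kXe u hu hX, x.Xo_iff _ hX]; exact h.1
      · rw [kXe u hu hX]
        intro h2
        exact hNX _ (N.No_sub h2) (x.maps hX)
  have hHM : ∀ u ∈ UU, exp u ∈ M.N → H u = H1 u := by
    intro u hu hX
    simp only [hH]
    split_ifs with h
    · rfl
    · push Not at h
      apply hfix _ (hH1m hu)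
      · rw [kMe u hu hX]
        intro h2
        exact hNX _ (n.maps hX) (B.Xo_sub h2)
      · rw [kMe u hu hX, n.No_iff _ hX]; exact h.2
  have hHo : ∀ u, exp u ∉ A.Xo → exp u ∉ M.No → H u = rE (rB (H1 u)) := by
    intro u h1 h2
    simp only [hH]
    rw [if_neg (by push Not; exact ⟨h1, h2⟩)]
  have hHout : ∀ u ∈ UU, exp u ∉ A.Xo → exp u ∉ M.No → H u ∈ OO B.Xo ∧ H u ∈ OO N.No := by
    intro u hu h1 h2
    rw [hHo u h1 h2]
    exact ⟨hEB _ (hrB.maps (hH1m hu)), hrE.maps (hrB.maps (hH1m hu)).1⟩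
  have hHm : MapsTo H UU UU := by
    intro u hu
    by_cases h : exp u ∈ A.Xo ∨ exp u ∈ M.No
    · simp only [hH]; rw [if_pos h]; exact hH1m hu
    · push Not at h
      exact (hHout u hu h.1 h.2).1.1
  have hHp : ∀ u ∈ UU, H (u + tpi) = H u + tpi := by
    intro u hu
    simp only [hH]
    rw [X8.exp_add_tpi]
    split_ifs with h
    · exact hH1p u hu
    · rw [hH1p u hu, hrB.period _ (hH1m hu), hrE.period _ (hrB.maps (hH1m hu)).1]
  have hHc : ContinuousOn H UU := by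
    obtain ⟨O1, hO1, hO1e⟩ := A.Xo_open
    obtain ⟨O2, hO2, hO2e⟩ := M.No_open
    have e1 : UU = (UU ∩ exp ⁻¹' (A.X ∪ M.N)) ∪ (UU ∩ exp ⁻¹' (O1 ∪ O2)ᶜ) := by
      ext u
      constructor
      · intro hu
        have hDu := mem_UU_exp.1 hu
        by_cases h : exp u ∈ O1 ∪ O2
        · left
          refine ⟨hu, ?_⟩
          rcases h with h | h
          · left; apply A.Xo_sub; rw [hO1e]; exact ⟨h, hDu⟩
          · right; apply M.No_sub; rw [hO2e]; exact ⟨h, hDu⟩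
        · exact Or.inr ⟨hu, h⟩
      · rintro (h | h) <;> exact h.1
    rw [e1]
    apply ContinuousOn.union_of_isClosed
    · refine (hH1c.mono inter_subset_left).congr ?_
      rintro u ⟨hu, h | h⟩
      · exact hHX u hu h
      · exact hHM u hu h
    · have e2 : ContinuousOn (fun u => rE (rB (H1 u))) (UU ∩ exp ⁻¹' (O1 ∪ O2)ᶜ) :=
        (hrE.cont.comp (hrB.cont.comp hH1c hH1m) fun u hu => (hrB.maps (hH1m hu)).1).mono
          inter_subset_left
      refine e2.congr ?_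
      rintro u ⟨hu, h⟩
      apply hHo
      · intro h2; apply h; left; rw [hO1e] at h2; exact h2.1
      · intro h2; apply h; right; rw [hO2e] at h2; exact h2.1
    · exact X8.isClosed_UU.inter ((clX.union clM).preimage continuous_exp)
    · exact X8.isClosed_UU.inter ((hO1.union hO2).isClosed_compl.preimage continuous_exp)
  have hH0 : H 0 = 0 := by
    have h1 : exp 0 ∈ M.N := by rw [exp_zero]; exact M.No_sub M.one_mem
    have hu : (0 : ℂ) ∈ UU := by change (0 : ℂ).re ≤ 0; simp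
    rw [hHM 0 hu h1, kM 0 hu h1, exp_zero, n.one]
    simp
  -- the map
  set P : ℂ → ℂ := fun z => if z = 0 then 0 else exp (H (log z)) with hP
  have hPexp : ∀ u ∈ UU, P (exp u) = exp (H u) := by
    intro u hu
    simp only [hP]
    rw [if_neg (exp_ne_zero u)]
    refine log_exp_per (Y := univ) (D := fun u => exp (H u)) ?_ hu (mem_univ _)
      (by rw [exp_log (exp_ne_zero u)])
    intro v hv _
    rw [hHp v hv, X8.exp_add_tpi]
  have hPlog : ∀ z ∈ W, P z = exp (H (log z)) := by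
    intro z hz
    simp only [hP]
    rw [if_neg (show ¬ z = 0 from hz.2)]
  have hPX : ∀ z ∈ A.X, P z = x.P z := by
    intro z hz
    by_cases h0 : z = 0
    · simp only [hP]; rw [if_pos h0, h0, x.zero]
    · have hu := log_mem_UU (A.subX hz) h0
      have he : exp (log z) = z := exp_log h0
      rw [hPlog z ⟨A.subX hz, h0⟩, hHX _ hu (by rw [he]; exact hz), kXe _ hu (by rw [he]; exact hz),
        he]
  have hPM : ∀ z ∈ M.N, P z = n.P z := by
    intro z hz
    have h0 : z ≠ 0 := fun h => h0M (by rw [← h]; exact hz)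
    have hu := log_mem_UU (M.subN hz) h0
    have he : exp (log z) = z := exp_log h0
    rw [hPlog z ⟨M.subN hz, h0⟩, hHM _ hu (by rw [he]; exact hz), kMe _ hu (by rw [he]; exact hz),
      he]
  have hPout : ∀ z ∈ DD, z ∉ A.Xo → z ∉ M.No → P z ∉ B.Xo ∧ P z ∉ N.No := by
    intro z hz h1 h2
    have h0 : z ≠ 0 := fun h => h1 (by rw [h]; exact A.zero_mem)
    have hu := log_mem_UU hz h0
    have he : exp (log z) = z := exp_log h0
    have := hHout _ hu (by rw [he]; exact h1) (by rw [he]; exact h2)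
    rw [hPlog z ⟨hz, h0⟩]
    exact ⟨this.1.2, this.2.2⟩
  have hPBo : ∀ z ∈ DD, P z ∈ B.Xo ↔ z ∈ A.Xo := by
    intro z hz
    constructor
    · intro h
      by_contra hc
      by_cases h2 : z ∈ M.No
      · rw [hPM z (M.No_sub h2)] at h
        exact hNX _ (n.maps (M.No_sub h2)) (B.Xo_sub h)
      · exact (hPout z hz hc h2).1 h
    · intro h
      rw [hPX z (A.Xo_sub h), x.Xo_iff z (A.Xo_sub h)]
      exact h
  have hPNo : ∀ z ∈ DD, P z ∈ N.No → z ∈ M.No := by
    intro z hz h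
    by_contra hc
    by_cases h2 : z ∈ A.Xo
    · rw [hPX z (A.Xo_sub h2)] at h
      exact hNX _ (N.No_sub h) (x.maps (A.Xo_sub h2))
    · exact (hPout z hz h2 hc).2 h
  have hPD : MapsTo P DD DD := by
    intro z hz
    by_cases h0 : z = 0
    · simp only [hP]; rw [if_pos h0]; simp [DD]
    · rw [hPlog z ⟨hz, h0⟩, ← mem_UU_exp]
      exact hHm (log_mem_UU hz h0)
  have hPc : ContinuousOn P DD := by
    have e1 : ContinuousOn P W := by
      have e2 : ContinuousOn (fun u => exp (H u)) {u | u ∈ UU ∧ exp u ∈ (univ : Set ℂ)} :=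
        (hHc.mono fun u hu => hu.1).cexp
      have e3 := descend e2 (by
        intro u hu _
        rw [hHp u hu, X8.exp_add_tpi])
      rw [inter_univ] at e3
      exact e3.congr hPlog
    intro z hz
    by_cases h0 : z = 0
    · subst h0
      obtain ⟨O, hO, hOe⟩ := A.Xo_open
      have hOz : (0 : ℂ) ∈ O := by
        have := A.zero_mem
        rw [hOe] at this
        exact this.1
      have e4 : ContinuousWithinAt x.P A.Xo 0 :=
        (x.cont 0 (A.Xo_sub A.zero_mem)).mono A.Xo_sub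
      have e5 : ContinuousWithinAt P A.Xo 0 :=
        e4.congr (fun z hz => hPX z (A.Xo_sub hz)) (hPX 0 (A.Xo_sub A.zero_mem))
      rw [hOe] at e5
      rw [inter_comm, continuousWithinAt_inter (hO.mem_nhds hOz)] at e5
      exact e5
    · have e4 := e1 z ⟨hz, h0⟩
      rw [hW, Set.sdiff_eq, continuousWithinAt_inter (isOpen_compl_singleton.mem_nhds h0)] at e4
      exact e4
  have hPcirc : ∀ θ ∈ Icc 0 (2 * Real.pi), P (ec θ) = ec (ρ θ) := by
    intro θ hθ
    have hu : (θ : ℂ) * I ∈ UU := by change ((θ : ℂ) * I).re ≤ 0; simp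
    have e1 : H (θ * I) = ρ θ * I := by
      simp only [hH]
      split_ifs with h
      · exact kC θ hθ
      · push Not at h
        rw [kC θ hθ]
        rw [← ec_eq] at h
        apply hfix
        · change ((ρ θ : ℂ) * I).re ≤ 0; simp
        · rw [← ec_eq]
          intro h2
          exact cg.circ _ (B.Xo_sub h2) (norm_ec _)
        · rw [← ec_eq, n.arco' _ (hρm θ hθ)]
          rw [n.arco θ hθ] at h
          push Not at h ⊢
          have h2 := h.2
          have h3 : ρ θ ∈ Icc n.s1' n.s2' := by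
            rcases le_total θ f.κ with c1 | c1
            · have := m2 θ ⟨h2.1, c1⟩
              exact ⟨this.1, by linarith [this.2]⟩
            · rcases le_total θ βf with c2 | c2
              · have := m3 θ ⟨c1, c2⟩
                exact ⟨by linarith [this.1], by linarith [this.2]⟩
              · have := m4 θ ⟨c2, h2.2⟩
                exact ⟨by linarith [this.1], this.2⟩
          exact h3
    rw [ec_eq θ, hPexp _ hu, e1, ← ec_eq]
  refine ⟨P, H, ρ, ?_, ?_, hPX, ?_, hPM, hPBo, hPNo⟩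
  · exact
      { cont := hPc
        maps := hPD
        zero := by
          intro z hz
          constructor
          · intro h
            by_contra h0
            rw [hPlog z ⟨hz, h0⟩] at h
            exact exp_ne_zero _ h
          · intro h
            simp only [hP]
            rw [if_pos h]
        one := by
          intro z hz
          have h1N : (1 : ℂ) ∈ N.No := N.one_mem
          constructor
          · intro h
            have h2 := hPNo z hz (by rw [h]; exact h1N)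
            rw [hPM z (M.No_sub h2), ← n.one] at h
            exact n.inj (M.No_sub h2) (M.No_sub M.one_mem) h
          · intro h
            rw [h, hPM 1 (M.No_sub M.one_mem), n.one]
        ρcont := hρc
        ρ0 := hρ0
        ρ1 := hρ1
        ρκ := hρκ
        ρlo := hρlo
        ρhi := hρhi
        circ := hPcirc
        ρβ := hρβ
        ρmid := m3
        ρtop := hρtop }
  · exact ⟨hHc, hHm, fun u hu => (hPexp u hu).symm, hHp, hH0⟩
  · intro u hu hX
    rw [hHX u hu hX, kX u hu hX]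

end

end Pool.TU
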