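import Pool.Agent.Helper71.TU.X8
import Pool.Agent.Helper71.TU.A10

/-! # TU X9: engine data, hyperbolic case -/

open Complex Set Filter Topology Metric Polynomial ComplexConjugate Pool.Tuning

namespace Pool.TU

noncomputable section

private lemma x9_tpi : exp tpi = 1 := by
  unfold tpi; exact Complex.exp_two_pi_mul_I

private lemma x9_exp_int (k : ℤ) : exp ((k : ℂ) * tpi) = 1 := by
  unfold tpi
  rw [Complex.exp_eq_one_iff]
  exact ⟨k, rfl⟩

private lemma x9_tpi_re : tpi.re = 0 := by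
  unfold tpi; simp

private lemma x9_int_re (k : ℤ) : ((k : ℂ) * tpi).re = 0 := by
  unfold tpi; simp

/-- points of `X` in the `Θ` tile -/
private lemma x9_tile {S : TS} (A : XS S) {z : ℂ} (hz : z ∈ A.X) :
    ∃ s ∈ DD, S.Θ s = z ∧ s ^ 2 = S.F z ∧ s ^ 2 ∈ A.X ∧ s ≠ 0 := by
  have h2 : z ∈ S.Θ '' DD := by
    rcases S.cover z (A.subX hz) with h | ⟨w, hw, h⟩ | ⟨w, hw, h⟩
    · exact h
    · exact absurd (h ▸ hz) (A.notG2 w hw)
    · exact absurd (h ▸ hz) (A.notG4 w hw)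
  obtain ⟨s, hs, rfl⟩ := h2
  have h3 := S.FΘ s hs
  refine ⟨s, hs, rfl, h3.symm, ?_, ?_⟩
  · rw [← h3]; exact A.FX hz
  · rintro rfl
    apply A.nzF _ hz
    rw [h3]; simp

/-- half logarithms -/
private lemma x9_log {s : ℂ} (hs : s ∈ DD) (h0 : s ≠ 0) : ∃ u ∈ UU, exp (u / 2) = s := by
  refine ⟨2 * log s, ?_, ?_⟩
  · have h1 : ‖s‖ ≤ 1 := by simpa [DD] using hs
    have h2 : (2 * log s).re = 2 * Real.log ‖s‖ := by simp [log_re]
    show (2 * log s).re ≤ 0
    rw [h2]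
    have := Real.log_nonpos (norm_nonneg s) h1
    linarith
  · rw [mul_div_cancel_left₀ _ (two_ne_zero), exp_log h0]

private lemma x9_exp_mem {u : ℂ} (hu : u ∈ UU) : exp u ∈ DD := by
  have : u.re ≤ 0 := hu
  simp only [DD, mem_closedBall_zero_iff, norm_exp]
  exact Real.exp_le_one_iff.2 this

private lemma x9_mem_of_exp {u : ℂ} (hu : exp u ∈ DD) : u ∈ UU := by
  simp only [DD, mem_closedBall_zero_iff, norm_exp] at hu
  exact Real.exp_le_one_iff.1 hu

private lemma x9_half {u : ℂ} (hu : u ∈ UU) : u / 2 ∈ UU := by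
  have : u.re ≤ 0 := hu
  show (u / 2).re ≤ 0
  have h : (u / 2).re = u.re / 2 := by simp
  rw [h]; linarith

private lemma x9_sq (u : ℂ) : exp (u / 2) ^ 2 = exp u := by
  rw [← exp_nat_mul]; congr 1; push_cast; ring

/-- the shift rule for all integers -/
private lemma x9_shift {S : TS} {A : XS S} (B : Br S A) (k : ℤ) :
    ∀ u ∈ OO A.Xo, u + 2 * k * tpi ∈ OO A.Xo ∧ B.Φ (u + 2 * k * tpi) = B.Φ u + k * tpi := by
  have hmem : ∀ (m : ℤ), ∀ u ∈ OO A.Xo, u + 2 * m * tpi ∈ OO A.Xo := by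
    intro m u hu
    refine ⟨?_, ?_⟩
    · have h1 : u.re ≤ 0 := hu.1
      show (u + 2 * m * tpi).re ≤ 0
      have h2 : (2 * (m : ℂ) * tpi) = ((2 * m : ℤ) : ℂ) * tpi := by push_cast; ring
      rw [add_re, h2, x9_int_re]; linarith
    · have h2 : (2 * (m : ℂ) * tpi) = ((2 * m : ℤ) : ℂ) * tpi := by push_cast; ring
      rw [exp_add, h2, x9_exp_int, mul_one]
      exact hu.2
  intro u hu
  refine ⟨hmem k u hu, ?_⟩
  induction k using Int.induction_on with
  | zero => simp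
  | succ n ih =>
    have h1 := B.Φ_shift (hmem n u hu)
    have h2 : u + 2 * ((n : ℤ) + 1 : ℤ) * tpi = u + 2 * ((n : ℤ) : ℂ) * tpi + 2 * tpi := by
      push_cast; ring
    rw [h2, h1, ih]; push_cast; ring
  | pred n ih =>
    have h1 := B.Φ_shift (hmem (-(n : ℤ) - 1) u hu)
    have h2 : u + 2 * ((-(n : ℤ) - 1 : ℤ) : ℂ) * tpi + 2 * tpi =
        u + 2 * ((-(n : ℤ) : ℤ) : ℂ) * tpi := by
      push_cast; ring
    rw [h2, ih] at h1
    have h3 : B.Φ (u + 2 * ((-(n : ℤ) - 1 : ℤ) : ℂ) * tpi) =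
        B.Φ u + ((-(n : ℤ) : ℤ) : ℂ) * tpi - tpi := by
      rw [h1]; ring
    rw [h3]; push_cast; ring

/-- the universal cover of the punctured rigid set is connected -/
private lemma x9_conn {S : TS} {A : XS S} (c : DC A) :
    IsPreconnected {u | u ∈ UU ∧ exp u ∈ A.X} ∧ ∃ u0, u0 ∈ UU ∧ exp u0 ∈ A.X := by
  set V : Set ℂ := {w | 1 + exp w ∈ closedBall (0 : ℂ) c.R} with hV
  have hR := c.hR
  set a : ℝ := Real.log (c.R - 1) with ha
  have hHV : {w : ℂ | w.re ≤ a} ⊆ V := by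
    intro w hw
    have h1 : w.re ≤ a := hw
    have h2 : Real.exp w.re ≤ c.R - 1 := by
      have := Real.exp_le_exp.2 h1
      rwa [ha, Real.exp_log (by linarith)] at this
    show 1 + exp w ∈ closedBall (0 : ℂ) c.R
    rw [mem_closedBall_zero_iff]
    calc ‖1 + exp w‖ ≤ ‖(1 : ℂ)‖ + ‖exp w‖ := norm_add_le _ _
      _ = 1 + Real.exp w.re := by rw [norm_one, norm_exp]
      _ ≤ c.R := by linarith
  have hHc : IsPreconnected {w : ℂ | w.re ≤ a} := (convex_halfSpace_re_le a).isPreconnected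
  have hVc : IsPreconnected V := by
    refine isPreconnected_of_forall (a : ℂ) fun w hw => ?_
    refine ⟨(fun t : ℝ => w - t) '' Ici 0 ∪ {w : ℂ | w.re ≤ a}, ?_, Or.inr (by simp),
      Or.inl ⟨0, by simp, by simp⟩, ?_⟩
    · refine union_subset ?_ hHV
      rintro _ ⟨t, ht, rfl⟩
      have ht0 : (0 : ℝ) ≤ t := ht
      have hw' : ‖1 + exp w‖ ≤ c.R := by
        have : 1 + exp w ∈ closedBall (0 : ℂ) c.R := hw
        rwa [mem_closedBall_zero_iff] at this
      show 1 + exp (w - t) ∈ closedBall (0 : ℂ) c.R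
      rw [mem_closedBall_zero_iff]
      have h1 : exp (w - t) = ((Real.exp (-t) : ℝ) : ℂ) * exp w := by
        rw [sub_eq_add_neg, exp_add, mul_comm]; push_cast; rfl
      have h2 : 1 + exp (w - t) =
          ((1 - Real.exp (-t) : ℝ) : ℂ) + ((Real.exp (-t) : ℝ) : ℂ) * (1 + exp w) := by
        rw [h1]; push_cast; ring
      have h3 : Real.exp (-t) ≤ 1 := Real.exp_le_one_iff.2 (by linarith)
      have h4 : 0 < Real.exp (-t) := Real.exp_pos _
      rw [h2]
      calc ‖((1 - Real.exp (-t) : ℝ) : ℂ) + ((Real.exp (-t) : ℝ) : ℂ) * (1 + exp w)‖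
          ≤ ‖((1 - Real.exp (-t) : ℝ) : ℂ)‖ + ‖((Real.exp (-t) : ℝ) : ℂ) * (1 + exp w)‖ :=
            norm_add_le _ _
        _ = (1 - Real.exp (-t)) + Real.exp (-t) * ‖1 + exp w‖ := by
            rw [norm_mul, norm_real, norm_real, Real.norm_of_nonneg (by linarith),
              Real.norm_of_nonneg h4.le]
        _ ≤ (1 - Real.exp (-t)) + Real.exp (-t) * c.R := by
            have := mul_le_mul_of_nonneg_left hw' h4.le
            linarith
        _ ≤ c.R := by nlinarith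
    · refine IsPreconnected.union (w - (max 0 (w.re - a) : ℝ)) ⟨max 0 (w.re - a), ?_, rfl⟩ ?_
        ?_ hHc
      · show (0 : ℝ) ≤ max 0 (w.re - a)
        exact le_max_left _ _
      · show (w - (max 0 (w.re - a) : ℝ)).re ≤ a
        rw [sub_re, ofReal_re]
        have := le_max_right 0 (w.re - a)
        linarith
      · refine (isPreconnected_Ici (a := (0 : ℝ))).image _ ?_
        exact (continuous_const.sub continuous_ofReal).continuousOn
  have himg : (fun w => w + c.ε (1 + exp w)) '' V = {u | u ∈ UU ∧ exp u ∈ A.X} := by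
    ext u
    constructor
    · rintro ⟨w, hw, rfl⟩
      have h1 : exp (w + c.ε (1 + exp w)) = c.τ (1 + exp w) := by
        rw [c.τ_eq _ hw, exp_add]; ring
      have h2 : exp (w + c.ε (1 + exp w)) ∈ A.X := by
        rw [h1, ← c.img]; exact mem_image_of_mem _ hw
      exact ⟨x9_mem_of_exp (A.subX h2), h2⟩
    · rintro ⟨-, hu⟩
      rw [← c.img] at hu
      obtain ⟨ζ, hζ, hζu⟩ := hu
      rw [c.τ_eq ζ hζ] at hζu
      have h1 : exp (u - c.ε ζ) = ζ - 1 := by
        rw [exp_sub, ← hζu, mul_div_assoc, div_self (exp_ne_zero _), mul_one]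
      have h2 : 1 + exp (u - c.ε ζ) = ζ := by rw [h1]; ring
      refine ⟨u - c.ε ζ, ?_, ?_⟩
      · show 1 + exp (u - c.ε ζ) ∈ closedBall (0 : ℂ) c.R
        rw [h2]; exact hζ
      · simp only [h2]; ring
  have hcont : ContinuousOn (fun w => w + c.ε (1 + exp w)) V := by
    refine continuousOn_id.add (c.contε.comp ?_ fun w hw => hw)
    exact (continuous_const.add continuous_exp).continuousOn
  refine ⟨himg ▸ hVc.image _ hcont, ?_⟩
  have h3 : (fun w => w + c.ε (1 + exp w)) (a : ℂ) ∈ {u | u ∈ UU ∧ exp u ∈ A.X} := by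
    rw [← himg]; exact mem_image_of_mem _ (hHV (by simp))
  exact ⟨_, h3⟩

/-- `A.X` is preconnected -/
private lemma x9_connX {S : TS} {A : XS S} (c : DC A) : IsPreconnected A.X := by
  rw [← c.img]
  refine (convex_closedBall (0 : ℂ) c.R).isPreconnected.image _ ?_
  have h : EqOn c.τ (fun ζ => (ζ - 1) * exp (c.ε ζ)) (closedBall 0 c.R) := fun ζ hζ => c.τ_eq ζ hζ
  refine ContinuousOn.congr ?_ h
  exact (continuousOn_id.sub continuousOn_const).mul (continuous_exp.comp_continuousOn c.contε)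

/-- The engine data in the hyperbolic case. -/
theorem exists_ed_hyp {f g : TS} {A : XS f} {B : XS g} (cf : DC A) (cg : DC B)
    (x : XPair A B) {M : NS f} {N : NS g} (n : NPair f g M N) (hM : Disjoint M.N A.X)
    (hN : Disjoint N.N B.X) {βf βg : ℝ} (hf : IsBeta f βf) (hg : IsBeta g βg)
    (o1 : n.s1 < f.κ) (o2 : βf < n.s2) (o3 : n.s1' < g.κ) (o4 : βg < n.s2') :
    ∃ (P H : ℂ → ℂ) (ρ : ℝ → ℝ), ED f g A B M N βf βg P H ρ ∧ (∀ z ∈ M.N, P z = n.P z) := by
  choose P H ρ hrm hhat hPX hHX hPN hXo hNo using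
    extend_hyp cf cg x n hM hN hf hg o1 o2 o3 o4
  have hpre : ∀ j, PreED f g A B M N βf βg (P j) (H j) (ρ j) := fun j =>
    { bf := hf
      bg := hg
      rm := hrm j
      hat := hhat j
      ee := by rw [cf.e0, cg.e0]
      mapsX := fun z hz => by rw [hPX j z hz]; exact x.maps hz
      injX := fun z hz z' hz' h => by
        rw [hPX j z hz, hPX j z' hz'] at h; exact x.inj hz hz' h
      surjX := fun y hy => by
        obtain ⟨z, hz, rfl⟩ := x.surj hy
        exact ⟨z, hz, hPX j z hz⟩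
      Xo_iff := hXo j
      conjX := fun z hz => by rw [hPX j _ (A.FX hz), hPX j z hz]; exact x.conjF z hz
      mapsN := fun z hz => by rw [hPN j z hz]; exact n.maps hz
      No_of := hNo j
      N1 := fun z hz y hy hF he => by
        rw [hPN j _ hF] at he; exact n.N1 z hz y hy hF he
      N2 := fun R K R' σ h1 h2 h3 h4 z hz => by
        rw [hPN j z hz]
        exact n.N2 R K R' σ h1 h2 (fun z hz => by rw [h3 z hz, hPN j z hz]) h4 z hz }
  choose R' hRc hRm hRl using fun j => exists_lift (hrm j).toRMap (hhat j)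
  -- the value of the lift on `A.X`
  have hval : ∀ j : ℤ, ∀ s ∈ DD, s ^ 2 ∈ A.X → ∀ u ∈ UU, exp (u / 2) = s →
      R' j (f.Θ s) = g.Θ (exp ((x.H u + j * tpi) / 2)) := by
    intro j s hs hs2 u hu hus
    have h1 : exp u ∈ A.X := by rw [← x9_sq, hus]; exact hs2
    rw [← hus, (hRl j).Θ_eq u hu, hHX j u hu h1]
  have hpar : ∀ (i k : ℤ), ∀ s ∈ DD, s ^ 2 ∈ A.X → s ≠ 0 →
      R' (i + 2 * k) (f.Θ s) = R' i (f.Θ s) := by
    intro i k s hs hs2 h0
    obtain ⟨u, hu, hus⟩ := x9_log hs h0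
    rw [hval _ s hs hs2 u hu hus, hval _ s hs hs2 u hu hus]
    congr 1
    have : (x.H u + ((i + 2 * k : ℤ) : ℂ) * tpi) / 2 = (x.H u + i * tpi) / 2 + k * tpi := by
      push_cast; ring
    rw [this, exp_add, x9_exp_int, mul_one]
  -- one of the two parities agrees with `x.P`
  have hsplit : ∀ z ∈ A.X, (R' 0 z = x.P z ∨ R' 1 z = x.P z) ∧ R' 0 z ≠ R' 1 z := by
    intro z hz
    obtain ⟨s, hs, rfl, hsF, hsX, hs0⟩ := x9_tile A hz
    obtain ⟨u, hu, hus⟩ := x9_log hs hs0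
    have hux : exp u ∈ A.X := by rw [← x9_sq, hus]; exact hsX
    have hv0 := hval 0 s hs hsX u hu hus
    have hv1 := hval 1 s hs hsX u hu hus
    set σ := exp (x.H u / 2) with hσ
    have e0 : exp ((x.H u + ((0 : ℤ) : ℂ) * tpi) / 2) = σ := by
      rw [hσ]; congr 1; push_cast; ring
    have e1 : exp ((x.H u + ((1 : ℤ) : ℂ) * tpi) / 2) = -σ := by
      have : (x.H u + ((1 : ℤ) : ℂ) * tpi) / 2 = x.H u / 2 + Real.pi * I := by
        unfold tpi; push_cast; ring
      rw [this, exp_add, exp_pi_mul_I, hσ]; ring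
    rw [e0] at hv0
    rw [e1] at hv1
    have hHu : x.H u ∈ UU := x.mapsH u hu hux
    have hσD : σ ∈ DD := x9_exp_mem (x9_half hHu)
    have hσD' : -σ ∈ DD := by
      simp only [DD, mem_closedBall_zero_iff, norm_neg] at hσD ⊢; exact hσD
    have hPX' := x.maps hz
    obtain ⟨s', hs', hs'e, hs'F, -, -⟩ := x9_tile B hPX'
    have hsq : s' ^ 2 = σ ^ 2 := by
      rw [hs'F, ← x.conjF _ hz, ← hsF, ← hus, x9_sq, hσ, x9_sq, x.expH u hu hux]
    have hor : s' = σ ∨ s' = -σ := sq_eq_sq_iff_eq_or_eq_neg.1 hsq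
    have hone : ∀ y, x.P (f.Θ s) = y → y ≠ 1 := by
      rintro y rfl h
      exact B.one_nmem (h ▸ hPX')
    have hσ0 : σ ≠ 0 := exp_ne_zero _
    refine ⟨?_, ?_⟩
    · rcases hor with h | h
      · left; rw [hv0, ← h, hs'e]
      · right; rw [hv1, ← h, hs'e]
    · rw [hv0, hv1]
      intro h
      rcases g.injΘ σ hσD (-σ) hσD' h with h | ⟨h, h'⟩ | ⟨h, h'⟩
      · apply hσ0
        have : 2 * σ = 0 := by linear_combination h
        simpa using this
      · rcases hor with h3 | h3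
        · apply hone _ hs'e.symm; rw [h3, h, g.Θone]
        · apply hone _ hs'e.symm; rw [h3, h', g.Θneg]
      · rcases hor with h3 | h3
        · apply hone _ hs'e.symm; rw [h3, h, g.Θneg]
        · apply hone _ hs'e.symm; rw [h3, h', g.Θone]
  have hcl : ∀ i : ℤ, IsClosed (A.X ∩ {z | R' i z = x.P z}) := by
    intro i
    have h1 : ContinuousOn (fun z => (R' i z, x.P z)) A.X :=
      ((hRc i).mono A.subX).prodMk x.cont
    exact h1.preimage_isClosed_of_isClosed A.closedX isClosed_diagonal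
  have hz0 : (0 : ℂ) ∈ A.X := A.Xo_sub A.zero_mem
  obtain ⟨i, hi⟩ : ∃ i : ℤ, ∀ z ∈ A.X, R' i z = x.P z := by
    by_contra hcon
    push Not at hcon
    obtain ⟨z0, hz0, hne0⟩ := hcon 0
    obtain ⟨z1, hz1, hne1⟩ := hcon 1
    have hpc := isPreconnected_closed_iff.1 (x9_connX cf) _ _ (hcl 0) (hcl 1) ?_ ?_ ?_
    · obtain ⟨z, hz, h0, h1⟩ := hpc
      exact (hsplit z hz).2 (h0.2.trans h1.2.symm)
    · intro z hz
      rcases (hsplit z hz).1 with h | h
      · exact Or.inl ⟨hz, h⟩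
      · exact Or.inr ⟨hz, h⟩
    · exact ⟨z1, hz1, hz1, (hsplit z1 hz1).1.resolve_right hne1⟩
    · exact ⟨z0, hz0, hz0, (hsplit z0 hz0).1.resolve_left hne0⟩
  have hik : ∀ k : ℤ, ∀ z ∈ A.X, R' (i + 2 * k) z = P (i + 2 * k) z := by
    intro k z hz
    obtain ⟨s, hs, rfl, hsF, hsX, hs0⟩ := x9_tile A hz
    rw [hpar i k s hs hsX hs0, hi _ hz, hPX _ _ hz]
  have hinv := fun j => (hpre j).inv0
  have hhat' : ∀ k : ℤ, ∃ H', IsHat (R' (i + 2 * k)) H' := fun k =>
    ((hinv _).lift_props (hpre _) (hRc _) (hRm _) (hRl _) (hik k)).2.2.2.2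
  choose H' hH' using hhat'
  obtain ⟨C⟩ := exists_br f A
  obtain ⟨E⟩ := exists_br g B
  obtain ⟨hWc, u0, hu0, hu0X⟩ := x9_conn cf
  have hi0 : i + 2 * 0 = i := by ring
  -- the constant of the hat for the twist `i`
  have hPi : ∀ k : ℤ, ∀ u ∈ UU, exp u ∈ A.X → exp (H' k u) = exp (x.H u) := by
    intro k u hu hux
    rw [(hH' k).exp_eq u hu, hik k _ hux, hPX _ _ hux, x.expH u hu hux]
  obtain ⟨c, hc⟩ : ∃ c : ℤ, ∀ u ∈ UU, exp u ∈ A.X → H' 0 u = x.H u + c * tpi := by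
    obtain ⟨c, hc⟩ := Complex.exp_eq_exp_iff_exists_int.1 (hPi 0 u0 hu0 hu0X)
    refine ⟨c, fun u hu hux => ?_⟩
    have hc' : H' 0 u0 = x.H u0 + c * tpi := by rw [hc]; unfold tpi; ring
    have h1 : ContinuousOn (fun u => x.H u + c * tpi) {u | u ∈ UU ∧ exp u ∈ A.X} :=
      x.contH.add continuousOn_const
    refine log_unique hWc ((hH' 0).cont.mono fun u hu => hu.1) h1 ?_
      (x0 := u0) ⟨hu0, hu0X⟩ hc' u ⟨hu, hux⟩
    rintro u ⟨hu, hux⟩
    rw [hPi 0 u hu hux, exp_add, x9_exp_int, mul_one]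
  -- comparison of the hats for different twists
  have hcmp : ∀ k : ℤ, ∀ v ∈ UU, exp v ∈ A.X → H' k v = H' 0 v + k * tpi := by
    intro k v hv hvX
    obtain ⟨s, hs, hsz, hsF, hsX, hs0⟩ := x9_tile A hvX
    obtain ⟨γ, hγc, hγ0, hγ, hγ1⟩ := A.path s hs hsX (by rw [hsz]; exact exp_ne_zero _)
    have hcont : ContinuousOn (fun t => f.Θ (γ t)) (Icc 0 1) :=
      f.contΘ.comp hγc fun t ht => (hγ t ht).1
    obtain ⟨L, hLc, hLe, hL0⟩ := exists_log_path (fun t => f.Θ (γ t)) hcont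
      (fun t ht => (hγ t ht).2.2) v (by simp only [hγ0, hsz])
    have hLU : ∀ t ∈ Icc (0 : ℝ) 1, L t ∈ UU := by
      intro t ht
      apply x9_mem_of_exp
      rw [hLe t ht]; exact f.mapsΘ (hγ t ht).1
    have hLU' : MapsTo L (Icc 0 1) UU := fun t ht => hLU t ht
    have h1m : (1 : ℝ) ∈ Icc (0 : ℝ) 1 := by simp
    have h0m : (0 : ℝ) ∈ Icc (0 : ℝ) 1 := by simp
    have hkey := log_unique (X := ℝ) (S := Icc 0 1) isPreconnected_Icc
      (a := fun t => H' k (L t)) (b := fun t => H' 0 (L t) + k * tpi)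
      ((hH' k).cont.comp hLc hLU') (((hH' 0).cont.comp hLc hLU').add continuousOn_const) ?_
      h1m ?_ 0 h0m
    · simpa only [hL0] using hkey
    · intro t ht
      rw [exp_add, x9_exp_int, mul_one, (hH' k).exp_eq _ (hLU t ht),
        (hH' 0).exp_eq _ (hLU t ht), hLe t ht]
      by_cases h0 : γ t = 0
      · rw [h0, (hRl _).Θ0, (hRl _).Θ0]
      · rw [hpar i k _ (hγ t ht).1 (hγ t ht).2.1 h0, hpar i 0 _ (hγ t ht).1 (hγ t ht).2.1 h0]
    · obtain ⟨u1, hu1, hu1e, hu1L⟩ := C.coverΦ (hγ 1 h1m).1 (hLe 1 h1m) hγ1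
      have hu1X : exp u1 ∈ A.X := by rw [← x9_sq, hu1e]; exact (hγ 1 h1m).2.1
      have hm := fun j => (hinv j).mapsO
      have e1 := phi_hat C E (hrm (i + 2 * k)).toRMap (hhat _) (hRc _) (hRl _) (hH' k)
        (hm _) u1 hu1
      have e0 := phi_hat C E (hrm (i + 2 * 0)).toRMap (hhat _) (hRc _) (hRl _) (hH' 0)
        (hm _) u1 hu1
      rw [hu1L, e1, e0, hHX _ u1 hu1.1 hu1X]
      have e2 : x.H u1 + ((i + 2 * k : ℤ) : ℂ) * tpi = H (i + 2 * 0) u1 + 2 * k * tpi := by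
        rw [hHX _ u1 hu1.1 hu1X]; push_cast; ring
      rw [e2]
      exact (x9_shift E k _ (hm _ hu1)).2
  -- the right twist
  set k : ℤ := c - i with hk
  have hj : i + 2 * k = c + k := by rw [hk]; ring
  refine ⟨P (i + 2 * k), H (i + 2 * k), ρ (i + 2 * k), { hpre (i + 2 * k) with
    baseX := ?_
    baseH := ?_ }, hPN _⟩
  · intro R'' _ hl z hz
    rw [lift_unique hl (hRl _) z (A.subX hz)]
    exact hik k z hz
  · intro R'' H'' _ hl hh u hu hux
    have h1 : IsHat (R' (i + 2 * k)) H'' :=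
      { cont := hh.cont
        maps := hh.maps
        exp_eq := fun u hu => by
          rw [hh.exp_eq u hu]; exact lift_unique hl (hRl _) _ (x9_exp_mem hu)
        period := hh.period
        zero := hh.zero }
    have h2 : ∀ z ∈ DD, R' (i + 2 * k) z = 0 ↔ z = 0 := by
      obtain ⟨ρ', hρ'⟩ :=
        ((hinv _).lift_props (hpre _) (hRc _) (hRm _) (hRl _) (hik k)).2.2.2.1
      exact hρ'.zero
    rw [hat_unique h1 (hH' k) h2 u hu, hcmp k u hu hux, hc u hu hux, hHX _ u hu hux, hj]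
    push_cast; ring

end

end Pool.TU
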