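import Pool.Agent.Helper71.TU.Y1
import Pool.Agent.Helper71.TU.X3
import Pool.Agent.Helper71.TU.B15

/-! # TU Y2: the rigid set of parabolic type -/

open Complex Set Filter Topology Metric Polynomial ComplexConjugate Pool.Tuning

namespace Pool.TU

noncomputable section

namespace Y2

/-- the closed half disc -/
def EE (ρ : ℝ) : Set ℂ := closedBall (ρ : ℂ) ρ ∩ HH

/-- the half disc -/
def Eo (ρ : ℝ) : Set ℂ := ball (ρ : ℂ) ρ ∩ HH

theorem Eo_sub (ρ : ℝ) : Eo ρ ⊆ EE ρ := inter_subset_inter_left _ ball_subset_closedBall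

theorem convex_HH : Convex ℝ HH := by
  have : HH = {z : ℂ | (0 : ℝ) ≤ z.im} := rfl
  rw [this]
  exact convex_halfSpace_im_ge 0

theorem closed_HH : IsClosed HH := isClosed_le continuous_const Complex.continuous_im

theorem compact_EE (ρ : ℝ) : IsCompact (EE ρ) :=
  (isCompact_closedBall _ _).inter_right closed_HH

theorem mi_cont' (v : ℂ) : ContinuousOn (mi v) {1}ᶜ := by
  unfold mi
  apply ContinuousOn.div
  · fun_prop
  · fun_prop
  · intro s hs h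
    exact hs (sub_eq_zero.1 h).symm

theorem open_mm {v : ℂ} (hv : 0 < v.im) {B : Set ℂ} (hB : IsOpen B) :
    ∃ O, IsOpen O ∧ mm v '' (B ∩ HH) = O ∩ DD := by
  refine ⟨{1}ᶜ ∩ mi v ⁻¹' B, (mi_cont' v).isOpen_inter_preimage isOpen_compl_singleton hB, ?_⟩
  ext s
  constructor
  · rintro ⟨z, ⟨hzB, hzH⟩, rfl⟩
    refine ⟨⟨mm_ne_one hv hzH, ?_⟩, mm_mem hv hzH⟩
    rw [mem_preimage, mi_mm hv hzH]
    exact hzB
  · rintro ⟨⟨h1, h2⟩, h3⟩
    exact ⟨mi v s, ⟨h2, mi_mem hv h3 h1⟩, mm_mi hv h3 h1⟩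

theorem hc_mm {v : ℂ} (hv : 0 < v.im) {ρ : ℝ} (hρ : 0 < ρ) :
    HC (mm v '' EE ρ) (mm v '' Eo ρ) ρ (fun t => mm v (ρ + t)) where
  pos := hρ
  cont := by
    apply (mm_cont hv).comp (by fun_prop)
    rintro t ⟨_, h2⟩
    change 0 ≤ ((ρ : ℂ) + t).im
    simpa using h2
  inj := by
    rintro t ⟨_, h2⟩ t' ⟨_, h2'⟩ h
    have := mm_inj hv (show 0 ≤ ((ρ : ℂ) + t).im by simpa using h2)
      (show 0 ≤ ((ρ : ℂ) + t').im by simpa using h2') h
    simpa using this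
  img := by
    ext s
    constructor
    · rintro ⟨t, ⟨h1, h2⟩, rfl⟩
      refine ⟨ρ + t, ⟨?_, ?_⟩, rfl⟩
      · rw [mem_closedBall, dist_eq_norm]
        simpa using h1
      · change 0 ≤ ((ρ : ℂ) + t).im
        simpa using h2
    · rintro ⟨z, ⟨h1, h2⟩, rfl⟩
      refine ⟨z - ρ, ⟨?_, ?_⟩, by simp⟩
      · rw [mem_closedBall, dist_eq_norm] at h1
        exact h1
      · have : 0 ≤ z.im := h2
        simpa using this
  imgo := by
    ext s
    constructor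
    · rintro ⟨t, ⟨h1, h2⟩, rfl⟩
      refine ⟨ρ + t, ⟨?_, ?_⟩, rfl⟩
      · rw [mem_ball, dist_eq_norm]
        simpa using h1
      · change 0 ≤ ((ρ : ℂ) + t).im
        simpa using h2
    · rintro ⟨z, ⟨h1, h2⟩, rfl⟩
      refine ⟨z - ρ, ⟨?_, ?_⟩, by simp⟩
      · rw [mem_ball, dist_eq_norm] at h1
        exact h1
      · have : 0 ≤ z.im := h2
        simpa using this
  sub := by
    rintro s ⟨z, ⟨_, h2⟩, rfl⟩
    exact mm_mem hv h2
  openo := open_mm hv isOpen_ball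

/-! ### the real trace -/

theorem real_mem_ball {ρ : ℝ} (x : ℝ) : (x : ℂ) ∈ ball (ρ : ℂ) ρ ↔ 0 < x ∧ x < 2 * ρ := by
  rw [mem_ball, dist_eq_norm, ← ofReal_sub, norm_real, Real.norm_eq_abs, abs_lt]
  constructor
  · rintro ⟨h1, h2⟩; constructor <;> linarith
  · rintro ⟨h1, h2⟩; constructor <;> linarith

theorem real_mem_closedBall {ρ : ℝ} (x : ℝ) :
    (x : ℂ) ∈ closedBall (ρ : ℂ) ρ ↔ 0 ≤ x ∧ x ≤ 2 * ρ := by
  rw [mem_closedBall, dist_eq_norm, ← ofReal_sub, norm_real, Real.norm_eq_abs, abs_le]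
  constructor
  · rintro ⟨h1, h2⟩; constructor <;> linarith
  · rintro ⟨h1, h2⟩; constructor <;> linarith

theorem eq_real {z : ℂ} (hz : z.im = 0) : z = (z.re : ℂ) := by
  apply Complex.ext <;> simp [hz]

/-- the trace of the half disc on the circle -/
theorem trace {v : ℂ} (hv : 0 < v.im) {ρ : ℝ} {θ : ℝ} (hθ : θ ∈ Ico 0 (2 * Real.pi)) :
    ec θ ∈ mm v '' Eo ρ ↔ ang v 0 < θ ∧ θ < ang v (2 * ρ) := by
  have hmono := ang_strictMono hv
  constructor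
  · rintro ⟨z, ⟨h1, h2⟩, h3⟩
    have him : z.im = 0 := by
      rw [← norm_mm_eq_one hv h2, h3, norm_ec]
    rw [eq_real him] at h1 h3
    rw [real_mem_ball] at h1
    rw [mm_real hv] at h3
    have h4 := ang_mem hv z.re
    have h5 := ec_inj' ⟨h4.1.le, h4.2⟩ hθ h3
    rw [← h5]
    exact ⟨hmono h1.1, hmono h1.2⟩
  · rintro ⟨h1, h2⟩
    have h0 := ang_mem hv 0
    obtain ⟨x, hx⟩ := ang_surj hv (θ := θ) ⟨h0.1.trans h1, hθ.2⟩
    refine ⟨x, ⟨?_, ?_⟩, ?_⟩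
    · rw [real_mem_ball]
      rw [← hx] at h1 h2
      exact ⟨hmono.lt_iff_lt.1 h1, hmono.lt_iff_lt.1 h2⟩
    · change 0 ≤ ((x : ℂ)).im
      simp
    · rw [mm_real hv, hx]

/-! ### dynamics -/

section Dyn

variable {q : RQ} {S : TS} (hS : IsTS q S) {ρ : ℝ} (D : PD q ρ)

include D in
theorem h_mem {z : ℂ} (hz : z ∈ EE ρ) : q.h.eval z ∈ EE ρ := by
  obtain ⟨p1, _, p3, _, _⟩ := D.props
  refine ⟨?_, ?_⟩
  · by_cases h0 : z = 0
    · have h1 : q.h.eval z = 0 := by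
        have := q.h_real 0
        rw [D.fix] at this
        rw [h0]
        simpa using this
      rw [h1]
      have := (real_mem_closedBall (ρ := ρ) 0).2 ⟨le_rfl, by linarith [D.hρ]⟩
      simpa using this
    · exact ball_subset_closedBall (p1 z hz.1 h0)
  · change 0 ≤ (q.h.eval z).im
    rcases (show 0 ≤ z.im from hz.2).lt_or_eq with h | h
    · exact (p3 z hz.1 h).le
    · rw [eq_real h.symm, q.h_real]
      simp

include D in
theorem h_memo {z : ℂ} (hz : z ∈ Eo ρ) : q.h.eval z ∈ Eo ρ := by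
  refine ⟨D.props.1 z (ball_subset_closedBall hz.1) ?_, (h_mem D (Eo_sub ρ hz)).2⟩
  rintro rfl
  have := (real_mem_ball (ρ := ρ) 0).1 (by simpa using hz.1)
  exact lt_irrefl _ this.1

include hS D in
theorem F_mm {z : ℂ} (hz : z ∈ EE ρ) : S.F (mm q.v z) = mm q.v (q.h.eval z) := by
  rw [hS.F_eq z hz.2]
  have h := (h_mem D hz).2
  congr 1
  unfold fold
  rw [if_pos]
  exact h

include D in
theorem v_mem : q.v ∈ Eo ρ := ⟨D.vmem, q.vpos.le⟩

include hS D in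
theorem F_zero : S.F 0 = mm q.v (q.h.eval q.v) := by
  rw [← mm_self q.vpos]
  exact F_mm hS D (Eo_sub ρ (v_mem D))

/-- a point of the half disc with `Im h ≤ 0` is real -/
theorem im_zero {z : ℂ} (hz : z ∈ EE ρ) (D : PD q ρ) (h : (q.h.eval z).im ≤ 0) : z.im = 0 := by
  rcases (show 0 ≤ z.im from hz.2).lt_or_eq with h' | h'
  · exact absurd (D.props.2.2.1 z hz.1 h') (not_lt.2 h)
  · exact h'.symm

include hS D in
theorem notG2 {w : ℂ} (hw : w ∈ DD) : S.G2 w ∉ mm q.v '' EE ρ := by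
  rintro ⟨z, hz, h⟩
  have h1 := hS.im2 z hz.2 (h ▸ mem_image_of_mem _ hw)
  have h2 := im_zero hz D h1
  have h3 : w = 1 := S.circ2 w hw (by rw [← h, norm_mm_eq_one q.vpos hz.2]; exact h2)
  rw [h3, S.G2one] at h
  exact mm_ne_one q.vpos hz.2 h

include hS D in
theorem notG4 {w : ℂ} (hw : w ∈ DD) : S.G4 w ∉ mm q.v '' EE ρ := by
  rintro ⟨z, hz, h⟩
  have h1 := hS.im4 z hz.2 (h ▸ mem_image_of_mem _ hw)
  have h2 := im_zero hz D h1
  obtain ⟨θ, hθ, h3⟩ := S.circ4 w hw (by rw [← h, norm_mm_eq_one q.vpos hz.2]; exact h2)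
  rw [h3, S.rmG θ hθ, eq_real h2, mm_real q.vpos] at h
  have h4 := S.rm_mem θ hθ
  have h5 := ang_mem q.vpos z.re
  have hω := S.ω₀_mem
  have h6 := ec_inj' ⟨h5.1.le, h5.2⟩ ⟨h4.1, h4.2.trans_lt hω.2⟩ h
  have h7 : 0 ≤ z.re := by
    have := hz.1
    rw [eq_real h2, real_mem_closedBall] at this
    exact this.1
  have h8 := ang_strictMono q.vpos (D.hr.trans_le h7)
  rw [h6] at h8
  rw [hS.ω_eq] at h4
  exact absurd h4.2 (not_le.2 h8)

include hS D in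
theorem nzF {z : ℂ} (hz : z ∈ EE ρ) : S.F (mm q.v z) ≠ 0 := by
  rw [F_mm hS D hz, Ne, mm_eq_zero q.vpos (h_mem D hz).2]
  exact D.props.2.2.2.1 z hz.1

end Dyn

/-! ### rays -/

/-- one of three rays avoids two points -/
theorem exists_dir (w0 a b : ℂ) : ∃ d : ℂ, 1 ≤ ‖d‖ ∧ 0 < d.im ∧
    (∀ l : ℝ, 0 < l → w0 + l * d ≠ a) ∧ ∀ l : ℝ, 0 < l → w0 + l * d ≠ b := by
  have key : ∀ d d' : ℂ, d.im = 1 → d'.im = 1 → d.re ≠ d'.re → ∀ x : ℂ,
      (∀ l : ℝ, 0 < l → w0 + l * d ≠ x) ∨ ∀ l : ℝ, 0 < l → w0 + l * d' ≠ x := by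
    intro d d' h1 h2 h3 x
    by_contra hcon
    push Not at hcon
    obtain ⟨⟨l, hl, e1⟩, ⟨l', hl', e2⟩⟩ := hcon
    have e3 : (l : ℂ) * d = l' * d' := by
      have := e1.trans e2.symm
      simpa using this
    have e4 := congrArg Complex.im e3
    have e5 := congrArg Complex.re e3
    simp only [mul_im, ofReal_re, ofReal_im, zero_mul, add_zero, h1, h2, mul_one] at e4
    simp only [mul_re, ofReal_re, ofReal_im, zero_mul, sub_zero, e4] at e5
    exact h3 (mul_left_cancel₀ hl'.ne' e5)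
  have hn : ∀ x : ℝ, 1 ≤ ‖(⟨x, 1⟩ : ℂ)‖ := by
    intro x
    have := Complex.abs_im_le_norm (⟨x, 1⟩ : ℂ)
    simpa using this
  have k01 := key ⟨0, 1⟩ ⟨1, 1⟩ rfl rfl (by norm_num)
  have k02 := key ⟨0, 1⟩ ⟨2, 1⟩ rfl rfl (by norm_num)
  have k12 := key ⟨1, 1⟩ ⟨2, 1⟩ rfl rfl (by norm_num)
  by_cases A0 : ∀ l : ℝ, 0 < l → w0 + l * (⟨0, 1⟩ : ℂ) ≠ a
  · by_cases B0 : ∀ l : ℝ, 0 < l → w0 + l * (⟨0, 1⟩ : ℂ) ≠ b
    · exact ⟨_, hn 0, one_pos, A0, B0⟩
    · have B1 := (k01 b).resolve_left B0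
      have B2 := (k02 b).resolve_left B0
      rcases k12 a with A1 | A2
      · exact ⟨_, hn 1, one_pos, A1, B1⟩
      · exact ⟨_, hn 2, one_pos, A2, B2⟩
  · have A1 := (k01 a).resolve_left A0
    have A2 := (k02 a).resolve_left A0
    rcases k12 b with B1 | B2
    · exact ⟨_, hn 1, one_pos, A1, B1⟩
    · exact ⟨_, hn 2, one_pos, A2, B2⟩

/-- a segment to the arc -/
theorem exists_seg {ρ : ℝ} (hρ : 0 < ρ) {w0 : ℂ} (hw : w0 ∈ Eo ρ) (a b : ℂ) :
    ∃ d : ℂ, (∀ t ∈ Icc (0 : ℝ) 1, w0 + t * d ∈ EE ρ) ∧ w0 + (1 : ℝ) * d ∉ Eo ρ ∧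
      (∀ t ∈ Ioc (0 : ℝ) 1, w0 + t * d ≠ a ∧ w0 + t * d ≠ b) ∧ d ≠ 0 := by
  obtain ⟨d, hd1, hd2, hda, hdb⟩ := exists_dir w0 a b
  have hcont : ContinuousOn (fun l : ℝ => ‖w0 + l * d - ρ‖) (Icc 0 (2 * ρ)) := by fun_prop
  have h0 : ‖w0 + (0 : ℝ) * d - ρ‖ ≤ ρ := by
    have := hw.1
    rw [mem_ball, dist_eq_norm] at this
    simpa using this.le
  have h1 : ρ ≤ ‖w0 + ((2 * ρ : ℝ) : ℂ) * d - ρ‖ := by
    have e1 : ‖((2 * ρ : ℝ) : ℂ) * d‖ - ‖w0 - ρ‖ ≤ ‖w0 + ((2 * ρ : ℝ) : ℂ) * d - ρ‖ := by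
      have : w0 + ((2 * ρ : ℝ) : ℂ) * d - ρ = ((2 * ρ : ℝ) : ℂ) * d - (-(w0 - ρ)) := by ring
      rw [this]
      have h2 := norm_sub_norm_le (((2 * ρ : ℝ) : ℂ) * d) (-(w0 - ρ))
      rwa [norm_neg] at h2
    have e2 : 2 * ρ ≤ ‖((2 * ρ : ℝ) : ℂ) * d‖ := by
      rw [norm_mul, norm_real, Real.norm_eq_abs, abs_of_pos (by linarith)]
      nlinarith
    have e3 := hw.1
    rw [mem_ball, dist_eq_norm] at e3
    linarith
  obtain ⟨l, hl, hl2⟩ := intermediate_value_Icc (by linarith : (0 : ℝ) ≤ 2 * ρ) hcont ⟨h0, h1⟩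
  simp only at hl2
  have hl0 : 0 < l := by
    rcases hl.1.lt_or_eq with h | h
    · exact h
    · exfalso
      rw [← h] at hl2
      have := hw.1
      rw [mem_ball, dist_eq_norm] at this
      simp only [ofReal_zero, zero_mul, add_zero] at hl2
      linarith
  have hend : w0 + l * d ∈ closedBall (ρ : ℂ) ρ := by
    rw [mem_closedBall, dist_eq_norm]
    exact hl2.le
  refine ⟨l * d, ?_, ?_, ?_, ?_⟩
  · intro t ht
    have e : w0 + t * (l * d) = (1 - t) • w0 + t • (w0 + l * d) := by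
      simp only [real_smul, ofReal_sub, ofReal_one]
      ring
    refine ⟨?_, ?_⟩
    · rw [e]
      exact (convex_closedBall (ρ : ℂ) ρ) (ball_subset_closedBall hw.1) hend (by linarith [ht.2])
        ht.1 (by ring)
    · change 0 ≤ (w0 + t * (l * d)).im
      have h3 : 0 ≤ w0.im := hw.2
      have h4 : (w0 + t * (l * d)).im = w0.im + t * (l * d.im) := by simp
      rw [h4]
      have := mul_nonneg ht.1 (mul_nonneg hl0.le hd2.le)
      linarith
  · rintro ⟨h3, _⟩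
    rw [mem_ball, dist_eq_norm] at h3
    rw [ofReal_one, one_mul, hl2] at h3
    exact lt_irrefl _ h3
  · intro t ht
    have h3 : 0 < t * l := mul_pos ht.1 hl0
    have h4 : w0 + t * (l * d) = w0 + ((t * l : ℝ) : ℂ) * d := by push_cast; ring
    rw [h4]
    exact ⟨hda _ h3, hdb _ h3⟩
  · intro h
    have := congrArg Complex.im h
    simp only [mul_im, ofReal_re, ofReal_im, zero_mul, add_zero, zero_im] at this
    have := mul_pos hl0 hd2
    linarith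

/-- square roots along a path in the half disc -/
theorem exists_sqrt {v : ℂ} (hv : 0 < v.im) {ρ : ℝ} {w0 d s : ℂ}
    (hE : ∀ t ∈ Icc (0 : ℝ) 1, w0 + t * d ∈ EE ρ) (hs : s ^ 2 = mm v w0)
    (hav : ∀ t ∈ Ioc (0 : ℝ) 1, w0 + t * d ≠ v) (hd : d ≠ 0) :
    ∃ γ : ℝ → ℂ, ContinuousOn γ (Icc 0 1) ∧ γ 0 = s ∧
      ∀ t ∈ Icc (0 : ℝ) 1, γ t ^ 2 = mm v (w0 + t * d) := by
  have hw0 : w0 ∈ EE ρ := by simpa using hE 0 ⟨le_rfl, zero_le_one⟩
  by_cases h0 : s = 0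
  · -- start at the critical value
    have hwv : w0 = v := by
      rw [h0] at hs
      rw [← mm_eq_zero hv hw0.2, ← hs]
      simp
    have hden : ∀ t ∈ Icc (0 : ℝ) 1, w0 + t * d - conj v ≠ 0 := by
      intro t ht h
      have h1 := (hE t ht).2
      have h2 : w0 + t * d = conj v := sub_eq_zero.1 h
      rw [h2] at h1
      have h3 : 0 ≤ (conj v).im := h1
      rw [conj_im] at h3
      linarith
    obtain ⟨L, hL1, hL2, _⟩ := exists_log_path (fun t : ℝ => d / (w0 + t * d - conj v))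
      (ContinuousOn.div (by fun_prop) (by fun_prop) hden)
      (fun t ht => div_ne_zero hd (hden t ht)) (Complex.log (d / (w0 + (0 : ℝ) * d - conj v)))
      (Complex.exp_log (div_ne_zero hd (hden 0 ⟨le_rfl, zero_le_one⟩)))
    refine ⟨fun t => (Real.sqrt t : ℂ) * exp (L t / 2), ?_, ?_, ?_⟩
    · apply ContinuousOn.mul
      · exact (Complex.continuous_ofReal.comp Real.continuous_sqrt).continuousOn
      · exact Complex.continuous_exp.comp_continuousOn (hL1.div_const 2)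
    · simp [h0]
    · intro t ht
      have h1 : (Real.sqrt t : ℂ) ^ 2 = t := by
        rw [← ofReal_pow, Real.sq_sqrt ht.1]
      have h2 : exp (L t / 2) ^ 2 = exp (L t) := by
        rw [← Complex.exp_nat_mul]
        congr 1
        push_cast
        ring
      rw [mul_pow, h1, h2, hL2 t ht]
      unfold mm
      rw [hwv]
      simp only [add_sub_cancel_left]
      rw [mul_div_assoc]
  · have hne : ∀ t ∈ Icc (0 : ℝ) 1, mm v (w0 + t * d) ≠ 0 := by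
      intro t ht
      rcases ht.1.lt_or_eq with h | h
      · rw [Ne, mm_eq_zero hv (hE t ht).2]
        exact hav t ⟨h, ht.2⟩
      · rw [← h]
        simp only [ofReal_zero, zero_mul, add_zero]
        rw [← hs]
        exact pow_ne_zero 2 h0
    have hcont : ContinuousOn (fun t : ℝ => mm v (w0 + t * d)) (Icc 0 1) := by
      apply (mm_cont hv).comp (by fun_prop)
      intro t ht
      exact (hE t ht).2
    obtain ⟨L, hL1, hL2, hL3⟩ := exists_log_path (fun t : ℝ => mm v (w0 + t * d)) hcont hne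
      (2 * Complex.log s) (by
        simp only [ofReal_zero, zero_mul, add_zero]
        rw [← hs, two_mul, Complex.exp_add, Complex.exp_log h0, sq])
    refine ⟨fun t => exp (L t / 2), ?_, ?_, ?_⟩
    · exact Complex.continuous_exp.comp_continuousOn (hL1.div_const 2)
    · simp only [hL3]
      rw [mul_div_cancel_left₀ _ (two_ne_zero), Complex.exp_log h0]
    · intro t ht
      rw [← hL2 t ht, ← Complex.exp_nat_mul]
      congr 1
      push_cast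
      ring

theorem path {q : RQ} {S : TS} (hS : IsTS q S) {ρ : ℝ} (D : PD q ρ) (s : ℂ) (hs : s ∈ DD)
    (hsX : s ^ 2 ∈ mm q.v '' EE ρ) (hΘ : S.Θ s ≠ 0) :
    ∃ γ : ℝ → ℂ, ContinuousOn γ (Icc 0 1) ∧ γ 0 = s ∧
    (∀ t ∈ Icc (0 : ℝ) 1, γ t ∈ DD ∧ γ t ^ 2 ∈ mm q.v '' EE ρ ∧ S.Θ (γ t) ≠ 0) ∧
      γ 1 ^ 2 ∉ mm q.v '' Eo ρ := by
  obtain ⟨w0, hw0, hw0s⟩ := hsX
  by_cases hin : w0 ∈ Eo ρ
  · obtain ⟨d, hd1, hd2, hd3, hd4⟩ := exists_seg D.hρ hin q.v (q.h.eval q.v)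
    obtain ⟨γ, g1, g2, g3⟩ := exists_sqrt q.vpos hd1 hw0s.symm (fun t ht => (hd3 t ht).1) hd4
    have gD : ∀ t ∈ Icc (0 : ℝ) 1, γ t ∈ DD := by
      intro t ht
      have h1 : γ t ^ 2 ∈ DD := by
        rw [g3 t ht]
        exact mm_mem q.vpos (hd1 t ht).2
      unfold DD at h1 ⊢
      rw [mem_closedBall_zero_iff, norm_pow] at h1
      rw [mem_closedBall_zero_iff]
      by_contra hcon
      push Not at hcon
      nlinarith [norm_nonneg (γ t)]
    refine ⟨γ, g1, g2, ?_, ?_⟩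
    · intro t ht
      refine ⟨gD t ht, ?_, ?_⟩
      · rw [g3 t ht]
        exact mem_image_of_mem _ (hd1 t ht)
      · rcases ht.1.lt_or_eq with h | h
        · intro h5
          have h6 := S.FΘ (γ t) (gD t ht)
          rw [h5, g3 t ht, F_zero hS D] at h6
          have h7 := mm_inj q.vpos (show q.h.eval q.v ∈ HH from q.hvv.le) (hd1 t ht).2 h6
          exact (hd3 t ⟨h, ht.2⟩).2 h7.symm
        · rw [← h, g2]
          exact hΘ
    · rw [g3 1 ⟨zero_le_one, le_rfl⟩]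
      rintro ⟨z, hz, hz2⟩
      have h7 := mm_inj q.vpos hz.2 (hd1 1 ⟨zero_le_one, le_rfl⟩).2 hz2
      rw [h7] at hz
      exact hd2 hz
  · refine ⟨fun _ => s, continuousOn_const, rfl, fun t _ => ⟨hs, ⟨w0, hw0, hw0s⟩, hΘ⟩, ?_⟩
    rintro ⟨z, hz, hz2⟩
    have h7 := mm_inj q.vpos hz.2 hw0.2 (hz2.trans hw0s.symm)
    rw [h7] at hz
    exact hin hz

/-! ### sheets -/

theorem tpi_ne : tpi ≠ 0 := by
  unfold tpi
  exact Complex.two_pi_I_ne_zero

theorem exp_add_tpi (u : ℂ) (k : ℤ) : exp (u + k * tpi) = exp u := by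
  rw [Complex.exp_add]
  have : exp (k * tpi) = 1 := by
    unfold tpi
    exact Complex.exp_int_mul_two_pi_mul_I k
  rw [this, mul_one]

theorem tpi_re (k : ℤ) : ((k : ℂ) * tpi).re = 0 := by
  unfold tpi
  simp

theorem convex_DD : Convex ℝ DD := convex_closedBall _ _

theorem one_mem_DD : (1 : ℂ) ∈ DD := by
  unfold DD
  simp

theorem exp_mem {u : ℂ} (hu : u ∈ UU) : exp u ∈ DD := by
  unfold DD
  rw [mem_closedBall_zero_iff, Complex.norm_exp]
  exact Real.exp_le_one_iff.2 hu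

/-- logarithm of the retraction -/
theorem exists_ell {Xo : Set ℂ} (h0 : (0 : ℂ) ∈ Xo) (h1 : (1 : ℂ) ∉ Xo) {rt : ℂ → ℂ}
    (hrt : ContinuousOn rt DD) (hm : MapsTo rt DD (DD \ Xo)) (hid : ∀ z ∈ DD \ Xo, rt z = z) :
    ∃ ℓ : ℂ → ℂ, ContinuousOn ℓ DD ∧ MapsTo ℓ DD UU ∧ (∀ z ∈ DD, exp (ℓ z) = rt z) ∧
      ℓ 1 = 0 ∧ ∀ z ∈ DD, ℓ (rt z) = ℓ z := by
  obtain ⟨L, hL1, hL2⟩ := exists_log convex_DD rt hrt (by
    intro z hz h
    exact (hm hz).2 (h ▸ h0))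
  have hrt1 : rt 1 = 1 := hid 1 ⟨one_mem_DD, h1⟩
  have hexp1 : exp (L 1) = 1 := by rw [hL2 1 one_mem_DD, hrt1]
  have hexp : ∀ z ∈ DD, exp (L z - L 1) = rt z := by
    intro z hz
    rw [Complex.exp_sub, hexp1, div_one, hL2 z hz]
  have hcont : ContinuousOn (fun z => L z - L 1) DD := hL1.sub continuousOn_const
  refine ⟨fun z => L z - L 1, hcont, ?_, hexp, sub_self _, ?_⟩
  · intro z hz
    have h2 := (hm hz).1
    rw [← hexp z hz] at h2
    unfold DD at h2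
    rw [mem_closedBall_zero_iff, Complex.norm_exp] at h2
    exact Real.exp_le_one_iff.1 h2
  · have hmaps : MapsTo rt DD DD := fun z hz => (hm hz).1
    refine log_unique convex_DD.isPreconnected (hcont.comp hrt hmaps) hcont ?_
      one_mem_DD ?_
    · intro z hz
      exact (hexp _ (hmaps hz)).trans ((hid _ (hm hz)).trans (hexp z hz).symm)
    · change L (rt 1) - L 1 = L 1 - L 1
      rw [hrt1]

/-- the index of the sheet -/
def ix (ℓ : ℂ → ℂ) (u : ℂ) : ℤ := round (((u - ℓ (exp u)) / tpi).re)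

/-- a retraction together with its logarithm -/
structure SH (Xo : Set ℂ) (rt ℓ : ℂ → ℂ) : Prop where
  h0 : (0 : ℂ) ∈ Xo
  h1 : (1 : ℂ) ∉ Xo
  rc : ContinuousOn rt DD
  rm : MapsTo rt DD (DD \ Xo)
  ri : ∀ z ∈ DD \ Xo, rt z = z
  lc : ContinuousOn ℓ DD
  lm : MapsTo ℓ DD UU
  le : ∀ z ∈ DD, exp (ℓ z) = rt z
  l1 : ℓ 1 = 0
  lr : ∀ z ∈ DD, ℓ (rt z) = ℓ z

section Sheets

variable {Xo : Set ℂ} {rt ℓ : ℂ → ℂ} (h : SH Xo rt ℓ)

include h

theorem ix_spec {u : ℂ} (hu : u ∈ OO Xo) : u = ℓ (exp u) + ix ℓ u * tpi := by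
  have h2 : exp (ℓ (exp u)) = exp u := by
    rw [h.le _ (exp_mem hu.1), h.ri _ ⟨exp_mem hu.1, hu.2⟩]
  obtain ⟨n, hn⟩ := Complex.exp_eq_exp_iff_exists_int.1 h2.symm
  have h3 : (u - ℓ (exp u)) / tpi = n := by
    rw [div_eq_iff tpi_ne, sub_eq_iff_eq_add, add_comm]
    unfold tpi
    exact hn
  have h4 : ix ℓ u = n := by
    unfold ix
    rw [h3]
    simp
  rw [h4]
  unfold tpi
  exact hn

theorem ix_cont : ContinuousOn (ix ℓ) (OO Xo) := by
  rw [Int.isClosedEmbedding_coe_real.isInducing.continuousOn_iff]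
  have h1 : ContinuousOn (fun u : ℂ => ((u - ℓ (exp u)) / tpi).re) (OO Xo) := by
    apply Complex.continuous_re.comp_continuousOn
    apply ContinuousOn.div_const
    apply ContinuousOn.sub continuousOn_id
    exact h.lc.comp Complex.continuous_exp.continuousOn fun u hu => exp_mem hu.1
  refine h1.congr fun u hu => ?_
  simp only [Function.comp]
  conv_rhs => rw [show u - ℓ (exp u) = ix ℓ u * tpi by
    rw [sub_eq_iff_eq_add, add_comm]; exact ix_spec h hu]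
  rw [mul_div_assoc, div_self tpi_ne, mul_one]
  simp

theorem sheet_mem {z : ℂ} (hz : z ∈ DD) (k : ℤ) : ℓ z + k * tpi ∈ OO Xo := by
  refine ⟨?_, ?_⟩
  · have h1 := h.lm hz
    change (ℓ z + k * tpi).re ≤ 0
    rw [Complex.add_re, tpi_re, add_zero]
    exact h1
  · rw [exp_add_tpi, h.le z hz]
    exact (h.rm hz).2

theorem ix_val {z : ℂ} (hz : z ∈ DD) (k : ℤ) : ix ℓ (ℓ z + k * tpi) = k := by
  unfold ix
  rw [exp_add_tpi, h.le z hz, h.lr z hz, add_sub_cancel_left, mul_div_assoc, div_self tpi_ne,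
    mul_one]
  simp

theorem ix_int (k : ℤ) : ix ℓ (k * tpi) = k := by
  have := ix_val h one_mem_DD k
  rwa [h.l1, zero_add] at this

theorem int_mem (k : ℤ) : (k : ℂ) * tpi ∈ OO Xo := by
  have := sheet_mem h one_mem_DD k
  rwa [h.l1, zero_add] at this

theorem cconn {u : ℂ} (hu : u ∈ OO Xo) :
    ∃ s ⊆ OO Xo, IsPreconnected s ∧ u ∈ s ∧ ∃ k : ℤ, (k : ℂ) * tpi ∈ s := by
  refine ⟨(fun z => ℓ z + ix ℓ u * tpi) '' DD, ?_, ?_, ?_, ix ℓ u, ?_⟩
  · rintro _ ⟨z, hz, rfl⟩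
    exact sheet_mem h hz _
  · exact convex_DD.isPreconnected.image _ (h.lc.add continuousOn_const)
  · exact ⟨exp u, exp_mem hu.1, (ix_spec h hu).symm⟩
  · exact ⟨1, one_mem_DD, by simp only [h.l1, zero_add]⟩

theorem logext
    (hT : ∀ u ∈ OO Xo, u.re = 0 → ∃ T ⊆ OO Xo ∩ {u : ℂ | u.re = 0}, IsPreconnected T ∧ u ∈ T ∧
      ∃ k : ℤ, (k : ℂ) * tpi ∈ T)
    (g b : ℂ → ℂ) (hg : ContinuousOn g (OO Xo)) (hg0 : ∀ u ∈ OO Xo, g u ≠ 0)
    (hb : ContinuousOn b (OO Xo ∩ {u | u.re = 0}))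
    (hbg : ∀ u ∈ OO Xo, u.re = 0 → exp (b u) = g u) :
    ∃ L : ℂ → ℂ, ContinuousOn L (OO Xo) ∧ (∀ u ∈ OO Xo, exp (L u) = g u) ∧
      (∀ u ∈ OO Xo, u.re = 0 → L u = b u) := by
  have hk : ∀ k : ℤ, ∃ L : ℂ → ℂ, ContinuousOn L DD ∧
      (∀ z ∈ DD, exp (L z) = g (ℓ z + k * tpi)) ∧ L 1 = b (k * tpi) := by
    intro k
    obtain ⟨L, hL1, hL2⟩ := exists_log convex_DD (fun z => g (ℓ z + k * tpi))
      (hg.comp (h.lc.add continuousOn_const) fun z hz => sheet_mem h hz k)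
      (fun z hz => hg0 _ (sheet_mem h hz k))
    have h2 : exp (b (k * tpi)) = exp (L 1) := by
      rw [hbg _ (int_mem h k) (tpi_re k), hL2 1 one_mem_DD, h.l1, zero_add]
    refine ⟨fun z => L z + (b (k * tpi) - L 1), hL1.add continuousOn_const, ?_, by ring⟩
    intro z hz
    rw [Complex.exp_add, Complex.exp_sub, h2, div_self (Complex.exp_ne_zero _), mul_one, hL2 z hz]
  choose L hL1 hL2 hL3 using hk
  have hcont : ContinuousOn (fun u => L (ix ℓ u) (exp u)) (OO Xo) := by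
    intro u hu
    have h1 : ContinuousWithinAt (fun u' => L (ix ℓ u) (exp u')) (OO Xo) u :=
      ((hL1 (ix ℓ u)).comp Complex.continuous_exp.continuousOn fun u hu => exp_mem hu.1) u hu
    refine h1.congr_of_eventuallyEq ?_ rfl
    have h2 := (ix_cont h) u hu
    have h3 : ∀ᶠ u' in 𝓝[OO Xo] u, ix ℓ u' = ix ℓ u :=
      h2.eventually (eventually_of_mem (isOpen_discrete {ix ℓ u} |>.mem_nhds rfl) fun _ h => h)
    filter_upwards [h3] with u' hu'
    rw [hu']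
  have hexp : ∀ u ∈ OO Xo, exp (L (ix ℓ u) (exp u)) = g u := by
    intro u hu
    rw [hL2 _ _ (exp_mem hu.1), ← ix_spec h hu]
  refine ⟨fun u => L (ix ℓ u) (exp u), hcont, hexp, ?_⟩
  intro u hu hre
  obtain ⟨T, hT1, hT2, hT3, k, hT4⟩ := hT u hu hre
  refine log_unique hT2 (hcont.mono fun x hx => (hT1 hx).1) (hb.mono hT1) ?_ hT4 ?_ u hT3
  · intro x hx
    rw [hexp x (hT1 hx).1, hbg x (hT1 hx).1 (hT1 hx).2]
  · have h1 : exp ((k : ℂ) * tpi) = 1 := by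
      have := exp_add_tpi 0 k
      rwa [zero_add, Complex.exp_zero] at this
    rw [ix_int h, h1, hL3]

end Sheets

theorem exists_T {v : ℂ} (hv : 0 < v.im) {ρ : ℝ} (hρ : 0 < ρ) (u : ℂ)
    (hu : u ∈ OO (mm v '' Eo ρ)) (hre : u.re = 0) :
    ∃ T ⊆ OO (mm v '' Eo ρ) ∩ {u : ℂ | u.re = 0}, IsPreconnected T ∧ u ∈ T ∧
      ∃ k : ℤ, (k : ℂ) * tpi ∈ T := by
  have ha := ang_mem hv 0
  have hb := ang_mem hv (2 * ρ)
  have hab : ang v 0 < ang v (2 * ρ) := ang_strictMono hv (by linarith)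
  have hpi := Real.two_pi_pos
  have hecp : ∀ θ : ℝ, ec (θ + 2 * Real.pi) = ec θ := by
    intro θ
    have := exp_add_tpi (θ * I) 1
    unfold tpi at this
    unfold ec
    rw [← this]
    congr 1
    push_cast
    ring
  have hJ : ∀ θ ∈ Icc (ang v (2 * ρ) - 2 * Real.pi) (ang v 0), ec θ ∉ mm v '' Eo ρ := by
    intro θ hθ hmem
    by_cases h0 : 0 ≤ θ
    · have := (trace hv ⟨h0, by linarith [hθ.2, ha.2]⟩).1 hmem
      linarith [this.1, hθ.2]
    · push Not at h0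
      rw [← hecp] at hmem
      have := (trace hv ⟨by linarith [hθ.1, hb.1], by linarith⟩).1 hmem
      linarith [this.2, hθ.1]
  have hexp : ∀ (θ : ℝ) (k : ℤ), exp (θ * I + k * tpi) = ec θ := by
    intro θ k
    rw [exp_add_tpi]
    rfl
  have main : ∀ k : ℤ, ∀ θ ∈ Icc (ang v (2 * ρ) - 2 * Real.pi) (ang v 0),
      u = θ * I + k * tpi → ∃ T ⊆ OO (mm v '' Eo ρ) ∩ {u : ℂ | u.re = 0}, IsPreconnected T ∧
        u ∈ T ∧ ∃ k : ℤ, (k : ℂ) * tpi ∈ T := by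
    intro k θ hθ hueq
    refine ⟨(fun θ : ℝ => (θ : ℂ) * I + k * tpi) '' Icc (ang v (2 * ρ) - 2 * Real.pi) (ang v 0),
      ?_, ?_, ⟨θ, hθ, hueq.symm⟩, k, ⟨0, ⟨by linarith [hb.2], ha.1.le⟩, by simp⟩⟩
    · rintro _ ⟨θ', hθ', rfl⟩
      have hre' : ((θ' : ℂ) * I + k * tpi).re = 0 := by
        rw [Complex.add_re, tpi_re]
        simp
      refine ⟨⟨hre'.le, ?_⟩, hre'⟩
      simp only
      rw [hexp]
      exact hJ θ' hθ'
    · exact isPreconnected_Icc.image _ (by fun_prop)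
  set m : ℤ := ⌊u.im / (2 * Real.pi)⌋ with hm
  have h1 : (m : ℝ) * (2 * Real.pi) ≤ u.im := (le_div_iff₀ hpi).1 (Int.floor_le _)
  have h2 : u.im < ((m : ℝ) + 1) * (2 * Real.pi) := (div_lt_iff₀ hpi).1 (Int.lt_floor_add_one _)
  set θ0 : ℝ := u.im - m * (2 * Real.pi) with hθ0
  have h3 : 0 ≤ θ0 := by rw [hθ0]; linarith
  have h4 : θ0 < 2 * Real.pi := by rw [hθ0]; linarith
  have hueq : u = θ0 * I + m * tpi := by
    unfold tpi
    apply Complex.ext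
    · simp [hre]
    · rw [hθ0]
      simp
      try ring
  have h5 : ec θ0 ∉ mm v '' Eo ρ := by
    rw [← hexp θ0 m, ← hueq]
    exact hu.2
  rw [trace hv ⟨h3, h4⟩, not_and_or, not_lt, not_lt] at h5
  rcases h5 with h5 | h5
  · exact main m θ0 ⟨by linarith [hb.2], h5⟩ hueq
  · refine main (m + 1) (θ0 - 2 * Real.pi) ⟨by linarith, by linarith [ha.1]⟩ ?_
    rw [hueq]
    unfold tpi
    push_cast
    ring

theorem conv_EE (ρ : ℝ) : Convex ℝ (EE ρ) := (convex_closedBall _ _).inter convex_HH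

end Y2

open Y2 in
/-- The rigid set of a parabolic petal. -/
theorem exists_xs_par (q : RQ) {S : TS} (hS : IsTS q S) {ρ : ℝ} (D : PD q ρ) :
    ∃ A : XS S, A.X = mm q.v '' (closedBall (ρ : ℂ) ρ ∩ HH) ∧
      A.Xo = mm q.v '' (ball (ρ : ℂ) ρ ∩ HH) ∧ A.e = 1 ∧
      (∃ τ, HC A.X A.Xo ρ τ) ∧
      -- logarithm on the complement, giving the index
      ∃ rt ℓ : ℂ → ℂ, ContinuousOn rt DD ∧ MapsTo rt DD (DD \ A.Xo) ∧
        (∀ z ∈ DD \ A.Xo, rt z = z) ∧ ContinuousOn ℓ DD ∧ MapsTo ℓ DD UU ∧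
        (∀ z ∈ DD, exp (ℓ z) = rt z) ∧ (∀ z ∈ DD, ∀ k : ℤ, A.idx (ℓ z + k * tpi) = k) := by
  have hv := q.vpos
  have hc := hc_mm hv D.hρ
  obtain ⟨rt, r1, r2, r3, _⟩ := exists_ret hc
  have h0 : (0 : ℂ) ∈ mm q.v '' Eo ρ := ⟨q.v, v_mem D, mm_self hv⟩
  have h1X : (1 : ℂ) ∉ mm q.v '' EE ρ := by
    rintro ⟨z, hz, hz1⟩
    exact mm_ne_one hv hz.2 hz1
  have h1 : (1 : ℂ) ∉ mm q.v '' Eo ρ := fun h => h1X (image_mono (Eo_sub ρ) h)
  obtain ⟨ℓ, l1, l2, l3, l4, l5⟩ := exists_ell h0 h1 r1 r2 r3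
  have h : SH (mm q.v '' Eo ρ) rt ℓ := ⟨h0, h1, r1, r2, r3, l1, l2, l3, l4, l5⟩
  let A : XS S :=
    { X := mm q.v '' EE ρ
      Xo := mm q.v '' Eo ρ
      closedX := ((compact_EE ρ).image_of_continuousOn
        ((mm_cont hv).mono inter_subset_right)).isClosed
      subX := hc.sub
      Xo_sub := image_mono (Eo_sub ρ)
      Xo_open := hc.openo
      zero_mem := h0
      one_nmem := h1X
      FX := by
        rintro _ ⟨z, hz, rfl⟩
        rw [F_mm hS D hz]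
        exact mem_image_of_mem _ (h_mem D hz)
      FXo := by
        rintro _ ⟨z, hz, rfl⟩
        rw [F_mm hS D (Eo_sub ρ hz)]
        exact mem_image_of_mem _ (h_memo D hz)
      notG2 := fun w hw => notG2 hS D hw
      notG4 := fun w hw => notG4 hS D hw
      inj := by
        rintro _ ⟨z, hz, rfl⟩ _ ⟨z', hz', rfl⟩ he
        rw [F_mm hS D hz, F_mm hS D hz'] at he
        have h2 := mm_inj hv (h_mem D hz).2 (h_mem D hz').2 he
        rw [D.props.2.1 hz.1 hz'.1 h2]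
      nzF := by
        rintro _ ⟨z, hz, rfl⟩
        exact nzF hS D hz
      logext := fun g b hg hg0 hb hbg =>
        Y2.logext h (fun u hu hre => exists_T hv D.hρ u hu hre) g b hg hg0 hb hbg
      cconn := fun u hu => Y2.cconn h hu
      idx := ix ℓ
      e := 1
      idx_cont := ix_cont h
      idx_val := fun k => by rw [ix_int h, one_mul]
      path := fun s hs hsX hΘ => Y2.path hS D s hs hsX hΘ }
  exact ⟨A, rfl, rfl, rfl, ⟨_, hc⟩, rt, ℓ, r1, r2, r3, l1, l2, l3, fun z hz k => ix_val h hz k⟩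

end

end Pool.TU
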