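import Pool.Agent.Helper71.TU.L3

/-! # TU Y3: linking, parabolic type -/

open Complex Set Filter Topology Metric Polynomial ComplexConjugate Pool.Tuning

namespace Pool.TU

noncomputable section

theorem y3_re (u : ℂ) (k : ℤ) : (u + k * tpi).re = u.re := by
  simp [tpi]

theorem y3_exp (u : ℂ) (k : ℤ) : exp (u + k * tpi) = exp u := by
  rw [tpi, Complex.exp_add, Complex.exp_int_mul_two_pi_mul_I, mul_one]

theorem y3_shift {f : ℂ → ℂ} (hf : ∀ u ∈ UU, f (u + tpi) = f u + tpi) :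
    ∀ k : ℤ, ∀ u ∈ UU, f (u + k * tpi) = f u + k * tpi := by
  intro k
  induction k using Int.induction_on with
  | zero =>
    intro u _
    simp
  | succ n ih =>
    intro u hu
    have h1 : u + ((n : ℤ) : ℂ) * tpi ∈ UU := by
      change (u + ((n : ℤ) : ℂ) * tpi).re ≤ 0
      rw [y3_re]
      exact hu
    have h2 := hf _ h1
    rw [ih u hu] at h2
    have h3 : u + (((n : ℤ) + 1 : ℤ) : ℂ) * tpi = u + ((n : ℤ) : ℂ) * tpi + tpi := by
      push_cast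
      ring
    rw [h3, h2]
    push_cast
    ring
  | pred n ih =>
    intro u hu
    have h1 : u + ((-(n : ℤ) - 1 : ℤ) : ℂ) * tpi ∈ UU := by
      change (u + ((-(n : ℤ) - 1 : ℤ) : ℂ) * tpi).re ≤ 0
      rw [y3_re]
      exact hu
    have h2 := hf _ h1
    have h3 : u + ((-(n : ℤ) - 1 : ℤ) : ℂ) * tpi + tpi = u + ((-(n : ℤ) : ℤ) : ℂ) * tpi := by
      push_cast
      ring
    rw [h3, ih u hu] at h2
    have h4 : f (u + ((-(n : ℤ) - 1 : ℤ) : ℂ) * tpi) =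
        f u + ((-(n : ℤ) : ℤ) : ℂ) * tpi - tpi := by
      rw [h2]
      ring
    rw [h4]
    push_cast
    ring

/-- Linking for rigid sets of parabolic type. -/
theorem linked_par {S : TS} (A : XS S) {rt ℓ : ℂ → ℂ} (hrt : ContinuousOn rt DD)
    (hrm : MapsTo rt DD (DD \ A.Xo)) (hri : ∀ z ∈ DD \ A.Xo, rt z = z)
    (hℓ : ContinuousOn ℓ DD) (hℓm : MapsTo ℓ DD UU) (hℓe : ∀ z ∈ DD, exp (ℓ z) = rt z)
    (hidx : ∀ z ∈ DD, ∀ k : ℤ, A.idx (ℓ z + k * tpi) = k) {Eo : Set ℂ} {rE : ℂ → ℂ}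
    (hE : HRet Eo rE) (hEX : ∀ u ∈ OO A.Xo, rE u ∈ OO A.Xo)
    (hEo : ∃ O, IsOpen O ∧ Eo = O ∩ DD) : Linked A (A.Xo ∪ Eo) := by
  intro R
  have hDc : IsCompact DD := isCompact_closedBall 0 1
  have hDp : IsPreconnected DD := (convex_closedBall (0 : ℂ) 1).isPreconnected
  obtain ⟨D, hD⟩ := hDc.exists_bound_of_continuousOn
    (ContinuousOn.comp (g := rE) (t := UU) hE.cont hℓ hℓm)
  -- the representation of a point of the region
  have hrep : ∀ a ∈ OO (A.Xo ∪ Eo), exp a ∈ DD ∧ a = ℓ (exp a) + (A.idx a : ℤ) * tpi := by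
    intro a ha
    have h1 : exp a ∈ DD := by
      rw [DD, mem_closedBall, dist_zero_right, Complex.norm_exp, Real.exp_le_one_iff]
      exact ha.1
    refine ⟨h1, ?_⟩
    have h2 : exp (ℓ (exp a)) = exp a := by
      rw [hℓe _ h1, hri _ ⟨h1, fun h3 => ha.2 (Or.inl h3)⟩]
    obtain ⟨k, hk⟩ := Complex.exp_eq_exp_iff_exists_int.1 h2.symm
    have h3 : a = ℓ (exp a) + (k : ℂ) * tpi := hk
    have h4 : A.idx a = k := by
      rw [h3]
      exact hidx _ h1 k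
    rw [h4]
    exact h3
  have hin : ∀ z ∈ DD, ∀ k : ℤ, ℓ z + (k : ℂ) * tpi ∈ OO A.Xo := by
    intro z hz k
    refine ⟨?_, ?_⟩
    · change (ℓ z + (k : ℂ) * tpi).re ≤ 0
      rw [y3_re]
      exact hℓm hz
    · rw [y3_exp, hℓe z hz]
      exact (hrm hz).2
  refine ⟨2 * D, ?_⟩
  intro a ha b hb hab _
  obtain ⟨ha1, ha2⟩ := hrep a ha
  obtain ⟨hb1, hb2⟩ := hrep b hb
  obtain ⟨k, hk⟩ : ∃ k : ℤ, k = A.idx a := ⟨_, rfl⟩
  rw [← hk] at ha2 hab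
  rw [← hab] at hb2
  refine ⟨(fun z => rE (ℓ z + (k : ℂ) * tpi)) '' DD, ⟨?_, ?_, ?_⟩, ?_, ?_⟩
  · rintro _ ⟨z, hz, rfl⟩
    have h2 := hEX _ (hin z hz k)
    have h3 := hE.maps (hin z hz k).1
    refine ⟨h2.1, ?_⟩
    rintro (h4 | h4)
    · exact h2.2 h4
    · exact h3.2 h4
  · refine hDp.image _ ?_
    refine ContinuousOn.comp (g := rE) (t := UU) hE.cont
      (hℓ.add continuousOn_const) ?_
    intro z hz
    exact (hin z hz k).1
  · rintro _ ⟨x, hx, rfl⟩ _ ⟨y, hy, rfl⟩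
    have h2 := hD x hx
    have h3 := hD y hy
    change ‖rE (ℓ x)‖ ≤ D at h2
    change ‖rE (ℓ y)‖ ≤ D at h3
    change ‖rE (ℓ x + (k : ℂ) * tpi) - rE (ℓ y + (k : ℂ) * tpi)‖ ≤ 2 * D
    rw [y3_shift hE.period k _ (hℓm hx), y3_shift hE.period k _ (hℓm hy)]
    have h6 : rE (ℓ x) + (k : ℂ) * tpi - (rE (ℓ y) + (k : ℂ) * tpi) =
        rE (ℓ x) - rE (ℓ y) := by ring
    rw [h6]
    linarith [norm_sub_le (rE (ℓ x)) (rE (ℓ y))]
  · refine ⟨exp a, ha1, ?_⟩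
    change rE (ℓ (exp a) + (k : ℂ) * tpi) = a
    rw [← ha2]
    exact hE.id a ⟨ha.1, fun h3 => ha.2 (Or.inr h3)⟩
  · refine ⟨exp b, hb1, ?_⟩
    change rE (ℓ (exp b) + (k : ℂ) * tpi) = b
    rw [← hb2]
    exact hE.id b ⟨hb.1, fun h3 => hb.2 (Or.inr h3)⟩

end

end Pool.TU
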