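import Pool.Agent.Helper71.TU.AllDefs

/-! # TU Y5: the base crescent map -/

open Complex Set Filter Topology Metric Polynomial ComplexConjugate Pool.Tuning

namespace Pool.TU

noncomputable section

namespace Y5aux

/-- the interpolation -/
def ph (φ₀ φ₁ : ℝ → ℝ) (t y : ℝ) : ℝ := (1 - t) * φ₀ y + t * φ₁ y

theorem ph_strictMono {φ₀ φ₁ : ℝ → ℝ} (h0 : StrictMono φ₀) (h1 : StrictMono φ₁) {t : ℝ}
    (ht : t ∈ Icc (0 : ℝ) 1) : StrictMono (ph φ₀ φ₁ t) := by
  intro x y hxy
  have a := h0 hxy
  have b := h1 hxy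
  unfold ph
  rcases eq_or_lt_of_le ht.1 with h | h
  · subst h
    simpa using a
  · have h2 : (1 - t) * φ₀ x ≤ (1 - t) * φ₀ y :=
      mul_le_mul_of_nonneg_left a.le (by linarith [ht.2])
    have h3 : t * φ₁ x < t * φ₁ y := mul_lt_mul_of_pos_left b h
    linarith

theorem ph_surj {φ₀ φ₁ : ℝ → ℝ} (c0 : Continuous φ₀) (c1 : Continuous φ₁) (h0 : StrictMono φ₀)
    (h1 : StrictMono φ₁) (s0 : Function.Surjective φ₀) (s1 : Function.Surjective φ₁) {t : ℝ}
    (ht : t ∈ Icc (0 : ℝ) 1) (y' : ℝ) : ∃ y, ph φ₀ φ₁ t y = y' := by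
  obtain ⟨y1, hy1⟩ := s0 y'
  obtain ⟨y2, hy2⟩ := s1 y'
  have hc : Continuous (ph φ₀ φ₁ t) := by
    unfold ph
    fun_prop
  have ht1 : 0 ≤ 1 - t := by linarith [ht.2]
  have hlo : ph φ₀ φ₁ t (min y1 y2) ≤ y' := by
    have e1 : φ₀ (min y1 y2) ≤ y' := hy1 ▸ h0.monotone (min_le_left _ _)
    have e2 : φ₁ (min y1 y2) ≤ y' := hy2 ▸ h1.monotone (min_le_right _ _)
    have e3 := mul_le_mul_of_nonneg_left e1 ht1
    have e4 := mul_le_mul_of_nonneg_left e2 ht.1
    unfold ph
    linarith
  have hhi : y' ≤ ph φ₀ φ₁ t (max y1 y2) := by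
    have e1 : y' ≤ φ₀ (max y1 y2) := hy1 ▸ h0.monotone (le_max_left _ _)
    have e2 : y' ≤ φ₁ (max y1 y2) := hy2 ▸ h1.monotone (le_max_right _ _)
    have e3 := mul_le_mul_of_nonneg_left e1 ht1
    have e4 := mul_le_mul_of_nonneg_left e2 ht.1
    unfold ph
    linarith
  obtain ⟨y, _, hy⟩ := intermediate_value_Icc (min_le_max) hc.continuousOn ⟨hlo, hhi⟩
  exact ⟨y, hy⟩

/-- the reparametrisation of `[0, 1]` -/
def et (a t : ℝ) : ℝ := a * t / ((1 - t) + a * t)

theorem den_pos {a t : ℝ} (ha : 0 < a) (ht : t ∈ Icc (0 : ℝ) 1) : 0 < (1 - t) + a * t := by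
  rcases eq_or_lt_of_le ht.1 with h | h
  · subst h
    simp
  · have := mul_pos ha h
    linarith [ht.2]

theorem et_mem {a t : ℝ} (ha : 0 < a) (ht : t ∈ Icc (0 : ℝ) 1) : et a t ∈ Icc (0 : ℝ) 1 := by
  have h := den_pos ha ht
  constructor
  · exact div_nonneg (mul_nonneg ha.le ht.1) h.le
  · rw [et, div_le_one h]
    linarith [ht.2]

theorem et_inj {a t t' : ℝ} (ha : 0 < a) (ht : t ∈ Icc (0 : ℝ) 1) (ht' : t' ∈ Icc (0 : ℝ) 1)
    (h : et a t = et a t') : t = t' := by
  have h1 := den_pos ha ht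
  have h2 := den_pos ha ht'
  rw [et, et, div_eq_div_iff h1.ne' h2.ne'] at h
  have h3 : a * (t - t') = 0 := by linear_combination h
  rcases mul_eq_zero.1 h3 with h4 | h4
  · exact absurd h4 ha.ne'
  · exact sub_eq_zero.1 h4

theorem et_zero (a : ℝ) : et a 0 = 0 := by simp [et]

theorem et_one {a : ℝ} (ha : 0 < a) : et a 1 = 1 := by
  simp [et, ha.ne']

theorem et_surj {a s : ℝ} (ha : 0 < a) (hs : s ∈ Icc (0 : ℝ) 1) :
    ∃ t ∈ Icc (0 : ℝ) 1, et a t = s := by
  have hc : ContinuousOn (et a) (Icc 0 1) := by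
    refine ContinuousOn.div (by fun_prop) (by fun_prop) fun t ht => (den_pos ha ht).ne'
  have h := intermediate_value_Icc (zero_le_one) hc
  rw [et_zero, et_one ha] at h
  exact h hs

theorem et_val {t s : ℝ} (ht : t ∈ Ioo (0 : ℝ) 1) (hs : s ∈ Ioo (0 : ℝ) 1) :
    ∃ a : ℝ, 0 < a ∧ et a t = s := by
  have h1 : 0 < 1 - t := by linarith [ht.2]
  have h2 : 0 < 1 - s := by linarith [hs.2]
  have h3 := ht.1
  have h4 := hs.1
  refine ⟨s * (1 - t) / (t * (1 - s)), by positivity, ?_⟩
  have hd : s * (1 - t) / (t * (1 - s)) * t = s * (1 - t) / (1 - s) := by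
    field_simp
  rw [et, hd]
  have h5 : 1 - t + s * (1 - t) / (1 - s) = (1 - t) / (1 - s) := by
    field_simp
    ring
  rw [h5]
  field_simp

end Y5aux

open Y5aux in
theorem exists_cb {F F' : ℂ → ℂ} {κ c C κ' c' C' : ℝ} (h : SP F κ c C) (h' : SP F' κ' c' C')
    {b g b' g' : ℝ → ℝ} (hb : GR F κ b g) (hb' : GR F' κ' b' g') {v v' : ℂ}
    (hv : κ < v.re ∧ v.re < b v.im ∧ v.im < 0) (hv' : κ' < v'.re ∧ v'.re < b' v'.im ∧ v'.im < 0) :
    ∃ ψ, CB F F' κ κ' b b' v v' ψ := by
  -- the inverse of `g`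
  set G : ℝ ≃o ℝ := hb.gmono.orderIsoOfSurjective g hb.gsurj with hG
  set gi : ℝ → ℝ := fun y => G.symm y with hgi
  have hggi : ∀ y, g (gi y) = y := fun y => G.apply_symm_apply y
  have hgig : ∀ y, gi (g y) = y := fun y => G.symm_apply_apply y
  have hgic : Continuous gi := G.symm.continuous
  have hgim : StrictMono gi := G.symm.strictMono
  have g0 : g 0 = 0 := by
    have := hb.godd 0
    rw [neg_zero] at this
    linarith
  have g'0 : g' 0 = 0 := by
    have := hb'.godd 0
    rw [neg_zero] at this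
    linarith
  have gi0 : gi 0 = 0 := by rw [← g0, hgig, g0]
  have giodd : ∀ y, gi (-y) = -gi y := by
    intro y
    apply hb.gmono.injective
    rw [hggi, hb.godd, hggi]
  -- parameters of the marked points
  set tv : ℝ := (v.re - κ) / (b v.im - κ) with htv
  have hbv : 0 < b v.im - κ := by linarith [hb.gt v.im]
  have hbv' : 0 < b' v'.im - κ' := by linarith [hb'.gt v'.im]
  have htv1 : tv ∈ Ioo (0 : ℝ) 1 :=
    ⟨div_pos (by linarith [hv.1]) hbv, by rw [htv, div_lt_one hbv]; linarith [hv.2.1]⟩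
  set sv : ℝ := (v'.re - κ') / (b' v'.im - κ') with hsv
  have hsv1 : sv ∈ Ioo (0 : ℝ) 1 :=
    ⟨div_pos (by linarith [hv'.1]) hbv', by rw [hsv, div_lt_one hbv']; linarith [hv'.2.1]⟩
  obtain ⟨a, ha, hav⟩ := et_val htv1 hsv1
  -- the slope
  obtain ⟨l, hl, hlv⟩ : ∃ l : ℝ, 0 < l ∧
      (1 - tv) * (l * v.im) + tv * g' (l * gi v.im) = v'.im := by
    set f : ℝ → ℝ := fun l => (1 - tv) * (l * v.im) + tv * g' (l * gi v.im) with hf
    have hfc : Continuous f := by
      have := hb'.gcont
      simp only [hf]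
      fun_prop
    have h1 : 0 < 1 - tv := by linarith [htv1.2]
    have hgv : gi v.im < 0 := by
      rw [← gi0]
      exact hgim hv.2.2
    have h2 : (1 - tv) * v.im < 0 := mul_neg_of_pos_of_neg h1 hv.2.2
    set l₁ : ℝ := v'.im / ((1 - tv) * v.im) with hl₁
    have hl₁0 : 0 < l₁ := div_pos_of_neg_of_neg hv'.2.2 h2
    have h3 : f l₁ ≤ v'.im := by
      have h4 : (1 - tv) * (l₁ * v.im) = v'.im := by
        have e : (1 - tv) * (l₁ * v.im) = l₁ * ((1 - tv) * v.im) := by ring
        rw [e, hl₁, div_mul_cancel₀ _ h2.ne]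
      have h5 : g' (l₁ * gi v.im) ≤ 0 := by
        rw [← g'0]
        exact hb'.gmono.monotone (mul_nonpos_of_nonneg_of_nonpos hl₁0.le hgv.le)
      have h6 : tv * g' (l₁ * gi v.im) ≤ 0 := mul_nonpos_of_nonneg_of_nonpos htv1.1.le h5
      simp only [hf]
      linarith
    have h4 : f 0 = 0 := by simp [hf, g'0]
    obtain ⟨l, hl, hl2⟩ := intermediate_value_Icc' hl₁0.le hfc.continuousOn
      (show v'.im ∈ Icc (f l₁) (f 0) from ⟨h3, by rw [h4]; exact hv'.2.2.le⟩)
    refine ⟨l, lt_of_le_of_ne hl.1 ?_, hl2⟩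
    rintro rfl
    rw [h4] at hl2
    exact absurd hl2 (ne_of_gt hv'.2.2)
  -- the two boundary maps
  set φ₀ : ℝ → ℝ := fun y => l * y with hφ₀
  set φ₁ : ℝ → ℝ := fun y => g' (l * gi y) with hφ₁
  have c0 : Continuous φ₀ := by
    simp only [hφ₀]
    fun_prop
  have c1 : Continuous φ₁ := by
    have := hb'.gcont
    simp only [hφ₁]
    fun_prop
  have m0 : StrictMono φ₀ := fun x y hxy => mul_lt_mul_of_pos_left hxy hl
  have m1 : StrictMono φ₁ := fun x y hxy => hb'.gmono (mul_lt_mul_of_pos_left (hgim hxy) hl)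
  have s0 : Function.Surjective φ₀ := fun y => ⟨y / l, by simp only [hφ₀]; field_simp⟩
  have s1 : Function.Surjective φ₁ := by
    intro y
    obtain ⟨z, hz⟩ := hb'.gsurj y
    refine ⟨g (z / l), ?_⟩
    simp only [hφ₁, hgig]
    rw [← hz]
    congr 1
    field_simp
  have z0 : φ₀ 0 = 0 := by simp [hφ₀]
  have z1 : φ₁ 0 = 0 := by simp [hφ₁, gi0, g'0]
  have o0 : ∀ y, φ₀ (-y) = -φ₀ y := fun y => by simp [hφ₀]
  have o1 : ∀ y, φ₁ (-y) = -φ₁ y := fun y => by
    simp only [hφ₁]
    rw [giodd, mul_neg, hb'.godd]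
  -- the parameters
  set T : ℂ → ℝ := fun w => (w.re - κ) / (b w.im - κ) with hT
  have hbp : ∀ y, 0 < b y - κ := fun y => by linarith [hb.gt y]
  have hbp' : ∀ y, 0 < b' y - κ' := fun y => by linarith [hb'.gt y]
  have hTm : ∀ w ∈ Cr κ b, T w ∈ Icc (0 : ℝ) 1 := by
    intro w hw
    refine ⟨div_nonneg (by linarith [hw.1]) (hbp _).le, ?_⟩
    simp only [hT]
    rw [div_le_one (hbp _)]
    linarith [hw.2]
  have hTc : Continuous T := by
    refine Continuous.div (by fun_prop) ?_ fun w => (hbp _).ne'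
    exact (hb.cont.comp continuous_im).sub continuous_const
  have hTre : ∀ w : ℂ, w.re = κ + T w * (b w.im - κ) := by
    intro w
    simp only [hT]
    rw [div_mul_cancel₀ _ (hbp _).ne']
    ring
  set Y : ℂ → ℝ := fun w => ph φ₀ φ₁ (T w) w.im with hY
  have hYc : Continuous Y := by
    simp only [hY, ph]
    have e0 := c0.comp continuous_im
    have e1 := c1.comp continuous_im
    exact ((continuous_const.sub hTc).mul e0).add (hTc.mul e1)
  set ψ : ℂ → ℂ := fun w =>
    (((κ' + et a (T w) * (b' (Y w) - κ') : ℝ) : ℂ)) + ((Y w : ℝ) : ℂ) * I with hψ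
  have hre : ∀ w, (ψ w).re = κ' + et a (T w) * (b' (Y w) - κ') := by
    intro w
    simp only [hψ, add_re, mul_re, ofReal_re, ofReal_im, I_re, I_im]
    ring
  have him : ∀ w, (ψ w).im = Y w := by
    intro w
    simp only [hψ, add_im, mul_im, ofReal_re, ofReal_im, I_re, I_im]
    ring
  have hYm : ∀ {t : ℝ}, t ∈ Icc (0 : ℝ) 1 → StrictMono (ph φ₀ φ₁ t) := fun ht =>
    ph_strictMono m0 m1 ht
  have hY0 : ∀ t, ph φ₀ φ₁ t 0 = 0 := fun t => by simp [ph, z0, z1]
  -- the two sides
  have hl1 : ∀ w ∈ Cr κ b, (ψ w).re = κ' ↔ w.re = κ := by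
    intro w hw
    rw [hre]
    constructor
    · intro h1
      have h2 : et a (T w) * (b' (Y w) - κ') = 0 := by linarith
      have h3 : et a (T w) = 0 := (mul_eq_zero.1 h2).resolve_right (hbp' _).ne'
      have h4 : T w = 0 := et_inj ha (hTm w hw) ⟨le_rfl, zero_le_one⟩ (by rw [h3, et_zero])
      rw [hTre w, h4]
      ring
    · intro h1
      have h4 : T w = 0 := by simp [hT, h1]
      rw [h4, et_zero]
      ring
  have hr1 : ∀ w ∈ Cr κ b, (ψ w).re = b' (ψ w).im ↔ w.re = b w.im := by
    intro w hw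
    rw [hre, him]
    constructor
    · intro h1
      have h2 : (et a (T w) - 1) * (b' (Y w) - κ') = 0 := by linear_combination h1
      have h3 : et a (T w) - 1 = 0 := (mul_eq_zero.1 h2).resolve_right (hbp' _).ne'
      have h4 : T w = 1 := et_inj ha (hTm w hw) ⟨zero_le_one, le_rfl⟩
        (by rw [et_one ha]; linarith)
      rw [hTre w, h4]
      ring
    · intro h1
      have h4 : T w = 1 := by
        simp only [hT]
        rw [h1, div_self (hbp _).ne']
      rw [h4, et_one ha]
      ring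
  refine ⟨ψ, ?_, ?_, ?_, hl1, hr1, ?_, ?_, ?_, ?_, ?_, ?_⟩
  · -- continuity
    have e1 : ContinuousOn (fun w => et a (T w)) (Cr κ b) := by
      simp only [et]
      refine ContinuousOn.div (by fun_prop) (by fun_prop) fun w hw => (den_pos ha (hTm w hw)).ne'
    have e2 : Continuous fun w => b' (Y w) - κ' := (hb'.cont.comp hYc).sub continuous_const
    simp only [hψ]
    refine ContinuousOn.add ?_ ?_
    · exact continuous_ofReal.comp_continuousOn (continuousOn_const.add (e1.mul e2.continuousOn))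
    · exact ((continuous_ofReal.comp hYc).mul continuous_const).continuousOn
  · -- injectivity
    intro w hw w' hw' hww
    have e1 : Y w = Y w' := by rw [← him, ← him, hww]
    have e2 : et a (T w) = et a (T w') := by
      have e3 := congrArg Complex.re hww
      rw [hre, hre, ← e1] at e3
      have e4 : (et a (T w) - et a (T w')) * (b' (Y w) - κ') = 0 := by linear_combination e3
      have e5 := (mul_eq_zero.1 e4).resolve_right (hbp' _).ne'
      linarith
    have e3 : T w = T w' := et_inj ha (hTm w hw) (hTm w' hw') e2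
    have e4 : w.im = w'.im := by
      apply (hYm (hTm w hw)).injective
      have : Y w = Y w' := e1
      simp only [hY] at this
      rw [this, e3]
    apply Complex.ext _ e4
    rw [hTre w, hTre w', e3, e4]
  · -- image
    ext w'
    constructor
    · rintro ⟨w, hw, rfl⟩
      have e1 := et_mem ha (hTm w hw)
      have e2 := hbp' (Y w)
      refine ⟨?_, ?_⟩
      · rw [hre]
        have := mul_nonneg e1.1 e2.le
        linarith
      · rw [hre, him]
        have := mul_le_mul_of_nonneg_right e1.2 e2.le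
        linarith
    · intro hw'
      have e2 := hbp' w'.im
      obtain ⟨t, ht, hts⟩ := et_surj ha (s := (w'.re - κ') / (b' w'.im - κ'))
        ⟨div_nonneg (by linarith [hw'.1]) e2.le, by rw [div_le_one e2]; linarith [hw'.2]⟩
      obtain ⟨y, hy⟩ := ph_surj c0 c1 m0 m1 s0 s1 ht w'.im
      set w : ℂ := ((κ + t * (b y - κ) : ℝ) : ℂ) + (y : ℂ) * I with hw
      have wre : w.re = κ + t * (b y - κ) := by
        simp only [hw, add_re, mul_re, ofReal_re, ofReal_im, I_re, I_im]
        ring
      have wim : w.im = y := by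
        simp only [hw, add_im, mul_im, ofReal_re, ofReal_im, I_re, I_im]
        ring
      have hTw : T w = t := by
        simp only [hT]
        rw [wre, wim, add_sub_cancel_left, mul_div_assoc, div_self (hbp y).ne', mul_one]
      have hYw : Y w = w'.im := by
        simp only [hY]
        rw [hTw, wim, hy]
      refine ⟨w, ⟨?_, ?_⟩, ?_⟩
      · rw [wre]
        have := mul_nonneg ht.1 (hbp y).le
        linarith
      · rw [wre, wim]
        have := mul_le_mul_of_nonneg_right ht.2 (hbp y).le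
        linarith
      · apply Complex.ext
        · rw [hre, hTw, hYw, hts, div_mul_cancel₀ _ e2.ne']
          ring
        · rw [him, hYw]
  · -- functional equation
    intro w hw
    have hw2 : w = (κ : ℂ) + (w.im : ℂ) * I := by
      apply Complex.ext
      · simp [hw]
      · simp
    have hFw : F w = (b (g w.im) : ℂ) + (g w.im : ℂ) * I := by
      rw [hw2, ← hb.gval]
      simp
    have fre : (F w).re = b (g w.im) := by
      rw [hFw]
      simp
    have fim : (F w).im = g w.im := by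
      rw [hFw]
      simp
    have hT1 : T (F w) = 1 := by
      simp only [hT]
      rw [fre, fim, div_self (hbp _).ne']
    have hT0 : T w = 0 := by simp [hT, hw]
    have hY1 : Y (F w) = g' (l * w.im) := by
      simp only [hY]
      rw [hT1, fim]
      simp only [ph, hφ₁, hgig]
      ring
    have hY0' : Y w = l * w.im := by
      simp only [hY]
      rw [hT0]
      simp only [ph, hφ₀]
      ring
    have e1 : ψ w = (κ' : ℂ) + ((l * w.im : ℝ) : ℂ) * I := by
      apply Complex.ext
      · rw [hre, hT0, et_zero]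
        simp
      · rw [him, hY0']
        simp
    rw [e1, hb'.gval]
    apply Complex.ext
    · rw [hre, hT1, hY1, et_one ha]
      simp
    · rw [him, hY1]
      simp
  · -- zero
    intro w hw
    rw [him]
    constructor
    · intro h1
      exact (hYm (hTm w hw)).injective (h1.trans (hY0 _).symm)
    · intro h1
      simp only [hY]
      rw [h1, hY0]
  · -- neg
    intro w hw
    rw [him]
    have := (hYm (hTm w hw)).lt_iff_lt (a := w.im) (b := 0)
    rw [hY0] at this
    exact this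
  · -- base
    have hT0 : T (κ : ℂ) = 0 := by simp [hT]
    have hY0' : Y (κ : ℂ) = 0 := by
      simp only [hY]
      rw [ofReal_im, hY0]
    apply Complex.ext
    · rw [hre, hT0, et_zero]
      simp
    · rw [him, hY0']
      simp
  · -- val
    have hTv : T v = tv := rfl
    have hYv : Y v = v'.im := by
      simp only [hY]
      rw [hTv]
      simp only [ph, hφ₀, hφ₁]
      exact hlv
    apply Complex.ext
    · rw [hre, hTv, hYv, hav, hsv, div_mul_cancel₀ _ hbv'.ne']
      ring
    · rw [him, hYv]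
  · -- properness
    intro R
    obtain ⟨y1, hy1⟩ := s0 R
    obtain ⟨y2, hy2⟩ := s1 R
    set y0 : ℝ := max (max y1 y2) 0 with hy0
    have hy0' : 0 ≤ y0 := le_max_right _ _
    obtain ⟨M, hM⟩ := (isCompact_Icc (a := -y0) (b := y0)).exists_bound_of_continuousOn
      hb.cont.continuousOn
    have hbig : ∀ t ∈ Icc (0 : ℝ) 1, ∀ y, y0 ≤ y → R ≤ ph φ₀ φ₁ t y := by
      intro t ht y hy
      have e1 : R ≤ φ₀ y := hy1 ▸ m0.monotone (((le_max_left _ _).trans (le_max_left _ _)).trans hy)
      have e2 : R ≤ φ₁ y := hy2 ▸ m1.monotone (((le_max_right _ _).trans (le_max_left _ _)).trans hy)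
      have ht1 : 0 ≤ 1 - t := by linarith [ht.2]
      have e3 := mul_le_mul_of_nonneg_left e1 ht1
      have e4 := mul_le_mul_of_nonneg_left e2 ht.1
      unfold ph
      linarith
    refine ⟨|κ| + M + y0, fun w hw hwR => ?_⟩
    have hbigim : y0 ≤ |w.im| := by
      by_contra hlt
      rw [not_le] at hlt
      have hmem : w.im ∈ Icc (-y0) y0 := ⟨(abs_lt.1 hlt).1.le, (abs_lt.1 hlt).2.le⟩
      have hM1 := hM _ hmem
      rw [Real.norm_eq_abs] at hM1
      have hM0 : 0 ≤ M := (abs_nonneg _).trans hM1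
      have hre1 : |w.re| ≤ |κ| + M := by
        rw [abs_le]
        constructor
        · have := neg_abs_le κ
          linarith [hw.1]
        · have := le_abs_self (b w.im)
          have := abs_nonneg κ
          linarith [hw.2]
      have := Complex.norm_le_abs_re_add_abs_im w
      linarith
    have hYbig : R ≤ |Y w| := by
      rcases le_abs.1 hbigim with h1 | h1
      · exact (hbig _ (hTm w hw) _ h1).trans (le_abs_self _)
      · have h2 := hbig _ (hTm w hw) _ h1
        have h3 : ph φ₀ φ₁ (T w) (-w.im) = -Y w := by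
          simp only [hY, ph]
          rw [o0, o1]
          ring
        rw [h3] at h2
        exact h2.trans (neg_le_abs _)
    calc R ≤ |Y w| := hYbig
      _ = |(ψ w).im| := by rw [him]
      _ ≤ ‖ψ w‖ := abs_im_le_norm _

end

end Pool.TU
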