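import Pool.Agent.Helper71.TU.AllDefs

/-! # TU Y6: extension to the half planes -/

open Complex Set Filter Topology Metric Polynomial ComplexConjugate Pool.Tuning

namespace Pool.TU

noncomputable section

/-- the iterates move to the right -/
private theorem y6_iter_step {F : ℂ → ℂ} {κ c C : ℝ} (h : SP F κ c C) (n : ℕ) (w : ℂ)
    (hw : κ ≤ w.re) : w.re + n * c ≤ (F^[n] w).re := by
  induction n with
  | zero => simp
  | succ n ih =>
      rw [Function.iterate_succ_apply']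
      have h1 : κ ≤ (F^[n] w).re := by
        have : 0 ≤ (n : ℝ) * c := by have := h.hc; positivity
        linarith
      have h2 := h.step _ h1
      push_cast
      linarith

private theorem y6_iter_mem {F : ℂ → ℂ} {κ c C : ℝ} (h : SP F κ c C) (n : ℕ) (w : ℂ)
    (hw : κ ≤ w.re) : κ ≤ (F^[n] w).re := by
  have h1 := y6_iter_step h n w hw
  have : 0 ≤ (n : ℝ) * c := by have := h.hc; positivity
  linarith

/-- the iterates stay at bounded distance -/
private theorem y6_iter_bdd {F : ℂ → ℂ} {κ c C : ℝ} (h : SP F κ c C) (n : ℕ) (w : ℂ)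
    (hw : κ ≤ w.re) : ‖F^[n] w - w‖ ≤ n * C := by
  induction n with
  | zero => simp
  | succ n ih =>
      rw [Function.iterate_succ_apply']
      have h1 := y6_iter_mem h n w hw
      have h2 := h.bdd _ h1
      have h3 : F (F^[n] w) - w = (F (F^[n] w) - F^[n] w) + (F^[n] w - w) := by ring
      rw [h3]
      push_cast
      calc _ ≤ ‖F (F^[n] w) - F^[n] w‖ + ‖F^[n] w - w‖ := norm_add_le _ _
        _ ≤ _ := by linarith

/-- cancelling iterates -/
private theorem y6_iter_inj {F : ℂ → ℂ} {κ c C : ℝ} (h : SP F κ c C) {b g : ℝ → ℝ}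
    (hb : GR F κ b g) (n : ℕ) {w w' : ℂ} (hw : κ ≤ w.re) (hw' : κ ≤ w'.re)
    (he : F^[n] w = F^[n] w') : w = w' := by
  induction n with
  | zero => simpa using he
  | succ n ih =>
      rw [Function.iterate_succ_apply', Function.iterate_succ_apply'] at he
      exact ih (hb.inj (y6_iter_mem h n w hw) (y6_iter_mem h n w' hw') he)

/-- every point is an iterate of a point of the strict crescent -/
private theorem y6_exists {F : ℂ → ℂ} {κ c C : ℝ} (h : SP F κ c C) {b g : ℝ → ℝ}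
    (hb : GR F κ b g) : ∀ (m : ℕ) (w : ℂ), κ ≤ w.re → w.re < κ + m * c →
    ∃ (n : ℕ) (w0 : ℂ), κ ≤ w0.re ∧ w0.re < b w0.im ∧ F^[n] w0 = w := by
  intro m
  induction m with
  | zero => intro w hw hw'; simp at hw'; linarith
  | succ m ih =>
      intro w hw hw'
      by_cases hlt : w.re < b w.im
      · exact ⟨0, w, hw, hlt, rfl⟩
      · have hmem : w ∈ F '' {w | κ ≤ w.re} := by
          rw [hb.img]; exact not_lt.mp hlt
        obtain ⟨w1, hw1, rfl⟩ := hmem
        have hs := h.step w1 hw1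
        push_cast at hw'
        obtain ⟨n, w0, h1, h2, h3⟩ := ih w1 hw1 (by linarith)
        exact ⟨n + 1, w0, h1, h2, by rw [Function.iterate_succ_apply', h3]⟩

private theorem y6_exists' {F : ℂ → ℂ} {κ c C : ℝ} (h : SP F κ c C) {b g : ℝ → ℝ}
    (hb : GR F κ b g) (w : ℂ) (hw : κ ≤ w.re) :
    ∃ (n : ℕ) (w0 : ℂ), κ ≤ w0.re ∧ w0.re < b w0.im ∧ F^[n] w0 = w := by
  obtain ⟨m, hm⟩ := exists_nat_gt ((w.re - κ) / c)
  have hc := h.hc
  rw [div_lt_iff₀ hc] at hm
  exact y6_exists h hb m w hw (by linarith)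

/-- uniqueness of the representation -/
private theorem y6_unique {F : ℂ → ℂ} {κ c C : ℝ} (h : SP F κ c C) {b g : ℝ → ℝ}
    (hb : GR F κ b g) {n m : ℕ} {w w' : ℂ} (hw : κ ≤ w.re) (hw' : κ ≤ w'.re)
    (hs : w.re < b w.im) (hs' : w'.re < b w'.im)
    (he : F^[n] w = F^[m] w') : n = m ∧ w = w' := by
  have key : ∀ {n m : ℕ} {w w' : ℂ}, κ ≤ w.re → κ ≤ w'.re → w.re < b w.im →
      F^[n] w = F^[m] w' → n ≤ m → n = m := by
    intro n m w w' hw hw' hs he hnm
    by_contra hne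
    obtain ⟨k, rfl⟩ := Nat.exists_eq_add_of_le hnm
    have hk : k ≠ 0 := by rintro rfl; simp at hne
    obtain ⟨l, rfl⟩ := Nat.exists_eq_succ_of_ne_zero hk
    rw [Function.iterate_add_apply] at he
    have h1 := y6_iter_inj h hb n hw (y6_iter_mem h (l + 1) w' hw') he
    rw [Function.iterate_succ_apply'] at h1
    have h2 : w ∈ F '' {w | κ ≤ w.re} := ⟨_, y6_iter_mem h l w' hw', h1.symm⟩
    rw [hb.img] at h2
    exact absurd hs (not_lt.mpr h2)
  have hnm : n = m := by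
    rcases le_total n m with hle | hle
    · exact key hw hw' hs he hle
    · exact (key hw' hw hs' he.symm hle).symm
  subst hnm
  exact ⟨rfl, y6_iter_inj h hb n hw hw' he⟩

/-- points of the right side of the crescent -/
private theorem y6_right {F : ℂ → ℂ} {κ c C : ℝ} (_h : SP F κ c C) {b g : ℝ → ℝ}
    (hb : GR F κ b g) {w : ℂ} (hw : w.re = b w.im) : ∃ w1 : ℂ, w1.re = κ ∧ F w1 = w := by
  have hmem : w ∈ F '' {w | κ ≤ w.re} := by rw [hb.img]; exact hw.ge
  obtain ⟨w1, hw1, rfl⟩ := hmem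
  refine ⟨w1, ?_, rfl⟩
  by_contra hne
  have hlt : κ < w1.re := lt_of_le_of_ne hw1 (Ne.symm hne)
  have hmem : F w1 ∈ F '' {w | κ < w.re} := ⟨w1, hlt, rfl⟩
  rw [hb.imgo] at hmem
  exact absurd hw (ne_of_gt hmem)

/-- signs of the imaginary part -/
private theorem y6_im_mono {F : ℂ → ℂ} {κ c C : ℝ} (h : SP F κ c C) (x : ℝ) (hx : κ ≤ x) :
    StrictMono fun y : ℝ => (F (x + y * I)).im := by
  have hder : ∀ y : ℝ, HasDerivAt (fun y : ℝ => (F (x + y * I)).im)
      (deriv F (x + y * I)).re y := by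
    intro y
    have hre : κ ≤ ((x : ℂ) + y * I).re := by simpa using hx
    have h1 : HasDerivAt F (deriv F (x + y * I)) ((x : ℂ) + y * I) :=
      (h.diff _ hre).hasDerivAt
    have h2 : HasDerivAt (fun y : ℝ => (x : ℂ) + y * I) I y := by
      have h3 : HasDerivAt (fun y : ℝ => (y : ℂ)) 1 y := Complex.ofRealCLM.hasDerivAt
      have h4 := (h3.mul_const I).const_add (x : ℂ)
      simpa using h4
    have h3 : HasDerivAt (fun y : ℝ => F (x + y * I)) (deriv F (x + y * I) * I) y :=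
      HasDerivAt.comp y h1 h2
    have h4 := (Complex.imCLM.hasFDerivAt.comp_hasDerivAt y h3)
    have h5 : Complex.imCLM (deriv F (x + y * I) * I) = (deriv F (x + y * I)).re := by simp
    rw [h5] at h4
    exact h4
  refine strictMono_of_deriv_pos ?_
  intro y
  rw [(hder y).deriv]
  exact h.der _ (by simpa using hx)

private theorem y6_im_real {F : ℂ → ℂ} {κ c C : ℝ} (h : SP F κ c C) (x : ℝ) (hx : κ ≤ x) :
    (F x).im = 0 := by
  have h1 := h.sym (x : ℂ) (by simpa using hx)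
  rw [Complex.conj_ofReal] at h1
  have h2 := congrArg Complex.im h1
  simp at h2
  linarith

private theorem y6_im {F : ℂ → ℂ} {κ c C : ℝ} (h : SP F κ c C) (w : ℂ) (hw : κ ≤ w.re) :
    ((F w).im = 0 ↔ w.im = 0) ∧ ((F w).im < 0 ↔ w.im < 0) := by
  have hm := y6_im_mono h w.re hw
  have h0 := y6_im_real h w.re hw
  have e0 : (fun y : ℝ => (F ((w.re : ℂ) + y * I)).im) 0 = 0 := by simpa using h0
  have e1 : (fun y : ℝ => (F ((w.re : ℂ) + y * I)).im) w.im = (F w).im := by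
    simp [Complex.re_add_im]
  constructor
  · rw [← e1]
    constructor
    · intro he
      exact hm.injective (he.trans e0.symm)
    · intro he
      rw [he]
      exact e0
  · rw [← e1]
    nth_rewrite 1 [← e0]
    exact hm.lt_iff_lt

private theorem y6_im_iter {F : ℂ → ℂ} {κ c C : ℝ} (h : SP F κ c C) (n : ℕ) (w : ℂ)
    (hw : κ ≤ w.re) : ((F^[n] w).im = 0 ↔ w.im = 0) ∧ ((F^[n] w).im < 0 ↔ w.im < 0) := by
  induction n with
  | zero => simp
  | succ n ih =>
      rw [Function.iterate_succ_apply']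
      have h1 := y6_im h _ (y6_iter_mem h n w hw)
      exact ⟨h1.1.trans ih.1, h1.2.trans ih.2⟩

/-- the half plane as a type -/
private abbrev Y6W (κ : ℝ) : Type := {w : ℂ // κ ≤ w.re}

private def y6f {F : ℂ → ℂ} {κ c C : ℝ} (h : SP F κ c C) (w : Y6W κ) : Y6W κ :=
  ⟨F w.1, by have := h.step w.1 w.2; have := h.hc; have := w.2; linarith⟩

private theorem y6f_iter {F : ℂ → ℂ} {κ c C : ℝ} (h : SP F κ c C) (n : ℕ) (w : Y6W κ) :
    ((y6f h)^[n] w).1 = F^[n] w.1 := by
  induction n with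
  | zero => rfl
  | succ n ih =>
      rw [Function.iterate_succ_apply', Function.iterate_succ_apply']
      show F ((y6f h)^[n] w).1 = _
      rw [ih]

private theorem y6_closed (κ : ℝ) : IsClosed {w : ℂ | κ ≤ w.re} :=
  isClosed_le continuous_const Complex.continuous_re

private theorem y6f_cont {F : ℂ → ℂ} {κ c C : ℝ} (h : SP F κ c C) : Continuous (y6f h) := by
  refine Continuous.subtype_mk ?_ _
  rw [continuous_iff_continuousAt]
  intro w
  exact (h.diff w.1 w.2).continuousAt.comp continuous_subtype_val.continuousAt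

private theorem y6f_emb {F : ℂ → ℂ} {κ c C : ℝ} (h : SP F κ c C) {b g : ℝ → ℝ}
    (hb : GR F κ b g) : IsClosedEmbedding (y6f h) := by
  have hinj : Function.Injective (y6f h) := by
    intro x y hxy
    have h1 : F x.1 = F y.1 := congrArg Subtype.val hxy
    exact Subtype.ext (hb.inj x.2 y.2 h1)
  have hprop : IsProperMap (y6f h) := by
    have : WeaklyLocallyCompactSpace (Y6W κ) :=
      (y6_closed κ).weaklyLocallyCompactSpace
    rw [isProperMap_iff_isCompact_preimage]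
    refine ⟨y6f_cont h, ?_⟩
    intro K hK
    have hKc : IsClosed K := hK.isClosed
    rw [Subtype.isCompact_iff] at hK ⊢
    have hcl : IsClosed (Subtype.val '' (y6f h ⁻¹' K) : Set ℂ) := by
      refine (IsClosed.isClosedEmbedding_subtypeVal (y6_closed κ)).isClosedMap _ ?_
      exact hKc.preimage (y6f_cont h)
    refine Metric.isCompact_of_isClosed_isBounded hcl ?_
    obtain ⟨R, hR⟩ := hK.isBounded.exists_norm_le
    refine isBounded_iff_forall_norm_le.mpr ⟨R + C, ?_⟩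
    rintro _ ⟨w, hw, rfl⟩
    have h1 : ‖F w.1‖ ≤ R := hR _ ⟨y6f h w, hw, rfl⟩
    have h2 := h.bdd w.1 w.2
    have h3 : ‖w.1‖ ≤ ‖F w.1‖ + ‖F w.1 - w.1‖ := by
      have : w.1 = F w.1 - (F w.1 - w.1) := by ring
      calc ‖w.1‖ = ‖F w.1 - (F w.1 - w.1)‖ := by rw [← this]
        _ ≤ _ := norm_sub_le _ _
    linarith
  exact IsClosedEmbedding.of_continuous_injective_isClosedMap (y6f_cont h) hinj
    hprop.isClosedMap

private theorem y6f_iter_emb {F : ℂ → ℂ} {κ c C : ℝ} (h : SP F κ c C) {b g : ℝ → ℝ}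
    (hb : GR F κ b g) (n : ℕ) : IsClosedEmbedding (y6f h)^[n] := by
  induction n with
  | zero => exact IsClosedEmbedding.id
  | succ n ih =>
      rw [Function.iterate_succ']
      exact (y6f_emb h hb).comp ih

open Classical in
/-- the extension -/
private def y6Ψ (F F' : ℂ → ℂ) (κ : ℝ) (b : ℝ → ℝ) (ψ : ℂ → ℂ) (w : ℂ) : ℂ :=
  if h : ∃ p : ℕ × ℂ, κ ≤ p.2.re ∧ p.2.re < b p.2.im ∧ F^[p.1] p.2 = w then
    F'^[h.choose.1] (ψ h.choose.2) else 0

private theorem y6Ψ_strict {F F' : ℂ → ℂ} {κ c C : ℝ} (h : SP F κ c C) {b g : ℝ → ℝ}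
    (hb : GR F κ b g) (ψ : ℂ → ℂ) (n : ℕ) (w : ℂ) (hw : κ ≤ w.re) (hs : w.re < b w.im) :
    y6Ψ F F' κ b ψ (F^[n] w) = F'^[n] (ψ w) := by
  have hex : ∃ p : ℕ × ℂ, κ ≤ p.2.re ∧ p.2.re < b p.2.im ∧ F^[p.1] p.2 = F^[n] w :=
    ⟨(n, w), hw, hs, rfl⟩
  unfold y6Ψ
  rw [dif_pos hex]
  obtain ⟨h1, h2, h3⟩ := hex.choose_spec
  obtain ⟨h4, h5⟩ := y6_unique h hb h1 hw h2 hs h3
  rw [h4, h5]

private theorem y6Ψ_val {F F' : ℂ → ℂ} {κ c C κ' : ℝ} (h : SP F κ c C)
    {b g b' : ℝ → ℝ} (hb : GR F κ b g) {v v' : ℂ}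
    {ψ : ℂ → ℂ} (hψ : CB F F' κ κ' b b' v v' ψ) (n : ℕ) (w : ℂ) (hw : w ∈ Cr κ b) :
    y6Ψ F F' κ b ψ (F^[n] w) = F'^[n] (ψ w) := by
  rcases lt_or_eq_of_le hw.2 with hlt | heq
  · exact y6Ψ_strict h hb ψ n w hw.1 hlt
  · obtain ⟨w1, h1, rfl⟩ := y6_right h hb heq
    rw [← Function.iterate_succ_apply, y6Ψ_strict h hb ψ (n + 1) w1 h1.ge (h1 ▸ hb.gt _),
      Function.iterate_succ_apply, hψ.fe w1 h1]

/-- extension of the crescent map to the half planes -/
theorem exists_half {F F' : ℂ → ℂ} {κ c C κ' c' C' : ℝ} (h : SP F κ c C) (h' : SP F' κ' c' C')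
    {b g b' g' : ℝ → ℝ} (hb : GR F κ b g) (hb' : GR F' κ' b' g') {v v' : ℂ}
    (hv : κ < v.re ∧ v.re < b v.im ∧ v.im < 0) {ψ : ℂ → ℂ} (hψ : CB F F' κ κ' b b' v v' ψ) :
    ∃ Ψ : ℂ → ℂ, ContinuousOn Ψ {w | κ ≤ w.re} ∧ InjOn Ψ {w | κ ≤ w.re} ∧
      Ψ '' {w | κ ≤ w.re} = {w | κ' ≤ w.re} ∧ Ψ '' {w | κ < w.re} = {w | κ' < w.re} ∧
      (∀ w : ℂ, κ ≤ w.re → Ψ (F w) = F' (Ψ w)) ∧
      (∀ w : ℂ, κ ≤ w.re → ((Ψ w).im = 0 ↔ w.im = 0) ∧ ((Ψ w).im < 0 ↔ w.im < 0)) ∧
      Ψ κ = κ' ∧ Ψ v = v' ∧ ∀ R : ℝ, ∃ R' : ℝ, ∀ w : ℂ, κ ≤ w.re → R' ≤ ‖w‖ → R ≤ ‖Ψ w‖ := by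
  set Ψ := y6Ψ F F' κ b ψ with hΨ
  have hψm : ∀ w ∈ Cr κ b, ψ w ∈ Cr κ' b' := fun w hw => by
    rw [← hψ.img]; exact ⟨w, hw, rfl⟩
  have hval : ∀ n w, w ∈ Cr κ b → Ψ (F^[n] w) = F'^[n] (ψ w) := fun n w hw =>
    y6Ψ_val h hb hψ n w hw
  have hrep : ∀ w : ℂ, κ ≤ w.re → ∃ (n : ℕ) (w0 : ℂ), w0 ∈ Cr κ b ∧ w0.re < b w0.im ∧
      F^[n] w0 = w := by
    intro w hw
    obtain ⟨n, w0, h1, h2, h3⟩ := y6_exists' h hb w hw
    exact ⟨n, w0, ⟨h1, h2.le⟩, h2, h3⟩
  -- strict points go to strict points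
  have hstrict : ∀ w ∈ Cr κ b, w.re < b w.im → (ψ w).re < b' (ψ w).im := by
    intro w hw hs
    refine lt_of_le_of_ne (hψm w hw).2 ?_
    intro he
    exact hs.ne ((hψ.right w hw).mp he)
  have hmaps : ∀ w : ℂ, κ ≤ w.re → κ' ≤ (Ψ w).re := by
    intro w hw
    obtain ⟨n, w0, h1, _, rfl⟩ := hrep w hw
    rw [hval n w0 h1]
    exact y6_iter_mem h' n _ (hψm w0 h1).1
  have hedge : ∀ w : ℂ, κ ≤ w.re → ((Ψ w).re = κ' ↔ w.re = κ) := by
    intro w hw
    obtain ⟨n, w0, h1, _, rfl⟩ := hrep w hw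
    rw [hval n w0 h1]
    rcases Nat.eq_zero_or_pos n with rfl | hn
    · exact hψ.left w0 h1
    · have hn' : (1 : ℝ) ≤ n := by exact_mod_cast hn
      have h2 := y6_iter_step h n w0 h1.1
      have h3 := y6_iter_step h' n (ψ w0) (hψm w0 h1).1
      have h4 := (hψm w0 h1).1
      have h5 := h1.1
      have h6 : c ≤ (n : ℝ) * c := by nlinarith [h.hc]
      have h7 : c' ≤ (n : ℝ) * c' := by nlinarith [h'.hc]
      have h8 := h.hc
      have h9 := h'.hc
      constructor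
      · intro he; linarith
      · intro he; linarith
  refine ⟨Ψ, ?_, ?_, ?_, ?_, ?_, ?_, ?_, ?_, ?_⟩
  · -- continuity
    rw [continuousOn_iff_continuous_domRestrict]
    set A : ℕ → Set (Y6W κ) := fun n => (y6f h)^[n] '' {w : Y6W κ | w.1 ∈ Cr κ b} with hA
    have hCcl : IsClosed {w : Y6W κ | w.1 ∈ Cr κ b} := by
      have h1 : IsClosed {w : ℂ | w ∈ Cr κ b} := by
        refine IsClosed.inter (y6_closed κ) ?_
        exact isClosed_le Complex.continuous_re (hb.cont.comp Complex.continuous_im)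
      exact h1.preimage continuous_subtype_val
    refine LocallyFinite.continuous (f := A) ?_ ?_ ?_ ?_
    · intro x
      refine ⟨{y : Y6W κ | y.1.re < x.1.re + 1}, ?_, ?_⟩
      · refine IsOpen.mem_nhds ?_ ?_
        · exact isOpen_lt (Complex.continuous_re.comp continuous_subtype_val) continuous_const
        · show x.1.re < x.1.re + 1
          linarith
      · obtain ⟨N, hN⟩ := exists_nat_gt ((x.1.re + 1 - κ) / c)
        refine (Set.finite_lt_nat N).subset ?_
        rintro n ⟨y, ⟨w, hw, rfl⟩, hy⟩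
        have hy' : ((y6f h)^[n] w).1.re < x.1.re + 1 := hy
        rw [y6f_iter] at hy'
        have h2 := y6_iter_step h n w.1 w.2
        have h3 := w.2
        have h4 : (n : ℝ) * c < x.1.re + 1 - κ := by linarith
        have h5 : (n : ℝ) < (x.1.re + 1 - κ) / c := by
          rw [lt_div_iff₀ h.hc]; exact h4
        have h6 : (n : ℝ) < N := h5.trans hN
        exact_mod_cast h6
    · rw [Set.eq_univ_iff_forall]
      intro x
      obtain ⟨n, w0, h1, _, h3⟩ := hrep x.1 x.2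
      rw [Set.mem_iUnion]
      refine ⟨n, ⟨w0, h1.1⟩, h1, ?_⟩
      apply Subtype.ext
      rw [y6f_iter]
      exact h3
    · intro n
      exact (y6f_iter_emb h hb n).isClosedMap _ hCcl
    · intro n
      rintro _ ⟨w, hw, rfl⟩
      have hmap := (y6f_iter_emb h hb n).isEmbedding.map_nhdsWithin_eq
        {w : Y6W κ | w.1 ∈ Cr κ b} w
      show Tendsto _ (𝓝[(y6f h)^[n] '' {w : Y6W κ | w.1 ∈ Cr κ b}] _) _
      rw [← hmap, tendsto_map'_iff]
      have e1 : ({w : ℂ | κ ≤ w.re}.domRestrict Ψ) ((y6f h)^[n] w) = F'^[n] (ψ w.1) := by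
        show Ψ ((y6f h)^[n] w).1 = _
        rw [y6f_iter]
        exact hval n w.1 hw
      rw [e1]
      have hcF' : ContinuousOn (F'^[n]) {w | κ' ≤ w.re} := by
        clear e1 hmap
        induction n with
        | zero => exact continuousOn_id
        | succ n ih =>
            rw [Function.iterate_succ']
            refine ContinuousOn.comp (t := {w | κ' ≤ w.re}) ?_ ih ?_
            · intro z hz
              exact (h'.diff z hz).continuousAt.continuousWithinAt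
            · intro z hz
              exact y6_iter_mem h' n z hz
      have hc1 : ContinuousOn (fun z : ℂ => F'^[n] (ψ z)) (Cr κ b) :=
        hcF'.comp hψ.cont (fun z hz => (hψm z hz).1)
      have hc2 : ContinuousOn (fun z : Y6W κ => F'^[n] (ψ z.1))
          {w : Y6W κ | w.1 ∈ Cr κ b} :=
        hc1.comp continuous_subtype_val.continuousOn (fun z hz => hz)
      have hc3 := hc2 w hw
      refine Tendsto.congr' ?_ hc3
      filter_upwards [self_mem_nhdsWithin] with z hz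
      show F'^[n] (ψ z.1) = Ψ ((y6f h)^[n] z).1
      rw [y6f_iter]
      exact (hval n z.1 hz).symm
  · -- injectivity
    intro w hw w' hw' he
    obtain ⟨n, w0, h1, h2, rfl⟩ := hrep w hw
    obtain ⟨m, w0', h1', h2', rfl⟩ := hrep w' hw'
    rw [hval n w0 h1, hval m w0' h1'] at he
    obtain ⟨h3, h4⟩ := y6_unique h' hb' (hψm w0 h1).1 (hψm w0' h1').1 (hstrict w0 h1 h2)
      (hstrict w0' h1' h2') he
    rw [h3, hψ.inj h1 h1' h4]
  · -- image
    ext w'
    constructor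
    · rintro ⟨w, hw, rfl⟩
      exact hmaps w hw
    · intro hw'
      obtain ⟨n, w0', h1, h2, rfl⟩ := y6_exists' h' hb' w' hw'
      have h3 : w0' ∈ ψ '' Cr κ b := by rw [hψ.img]; exact ⟨h1, h2.le⟩
      obtain ⟨w0, h4, rfl⟩ := h3
      exact ⟨F^[n] w0, y6_iter_mem h n w0 h4.1, hval n w0 h4⟩
  · -- open image
    ext w'
    constructor
    · rintro ⟨w, hw, rfl⟩
      have hw1 : κ < w.re := hw
      refine lt_of_le_of_ne (hmaps w hw1.le) ?_
      intro he
      exact hw1.ne' ((hedge w hw1.le).mp he.symm)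
    · intro hw'
      have hw1 : κ' < w'.re := hw'
      obtain ⟨n, w0', h1, h2, rfl⟩ := y6_exists' h' hb' w' hw1.le
      have h3 : w0' ∈ ψ '' Cr κ b := by rw [hψ.img]; exact ⟨h1, h2.le⟩
      obtain ⟨w0, h4, rfl⟩ := h3
      have h5 := y6_iter_mem h n w0 h4.1
      refine ⟨F^[n] w0, ?_, hval n w0 h4⟩
      refine lt_of_le_of_ne h5 ?_
      intro he
      have h6 := (hedge _ h5).mpr he.symm
      rw [hval n w0 h4] at h6
      exact hw1.ne' h6
  · -- functional equation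
    intro w hw
    obtain ⟨n, w0, h1, _, rfl⟩ := hrep w hw
    rw [hval n w0 h1, ← Function.iterate_succ_apply' F, hval (n + 1) w0 h1,
      Function.iterate_succ_apply']
  · -- signs
    intro w hw
    obtain ⟨n, w0, h1, _, rfl⟩ := hrep w hw
    rw [hval n w0 h1]
    have h2 := y6_im_iter h n w0 h1.1
    have h3 := y6_im_iter h' n (ψ w0) (hψm w0 h1).1
    have h4 := hψ.zero w0 h1
    have h5 := hψ.neg w0 h1
    exact ⟨h3.1.trans (h4.trans h2.1.symm), h3.2.trans (h5.trans h2.2.symm)⟩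
  · have h1 : (κ : ℂ) ∈ Cr κ b := by
      refine ⟨?_, ?_⟩
      · simp
      · simpa using (hb.gt 0).le
    have h2 := hval 0 κ h1
    simpa [hψ.base] using h2
  · have h1 : v ∈ Cr κ b := ⟨hv.1.le, hv.2.1.le⟩
    have h2 := hval 0 v h1
    simpa [hψ.val] using h2
  · -- properness
    intro R
    have hC : 0 ≤ C := (norm_nonneg _).trans (h.bdd κ (by simp))
    have hC' : 0 ≤ C' := (norm_nonneg _).trans (h'.bdd κ' (by simp))
    obtain ⟨N, hN⟩ := exists_nat_gt ((R - κ') / c')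
    rw [div_lt_iff₀ h'.hc] at hN
    obtain ⟨R1, hR1⟩ := hψ.prop (R + N * C')
    refine ⟨R1 + N * C, ?_⟩
    intro w hw hwR
    obtain ⟨n, w0, h1, _, rfl⟩ := hrep w hw
    rw [hval n w0 h1]
    by_cases hn : n ≤ N
    · have hn' : (n : ℝ) ≤ N := by exact_mod_cast hn
      have h2 := y6_iter_bdd h n w0 h1.1
      have h3 := y6_iter_bdd h' n (ψ w0) (hψm w0 h1).1
      have h4 : ‖F^[n] w0‖ ≤ ‖w0‖ + n * C := by
        have : F^[n] w0 = w0 + (F^[n] w0 - w0) := by ring
        rw [this]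
        exact (norm_add_le _ _).trans (by linarith)
      have h5 : ‖ψ w0‖ ≤ ‖F'^[n] (ψ w0)‖ + n * C' := by
        have : ψ w0 = F'^[n] (ψ w0) - (F'^[n] (ψ w0) - ψ w0) := by ring
        calc ‖ψ w0‖ = ‖F'^[n] (ψ w0) - (F'^[n] (ψ w0) - ψ w0)‖ := by rw [← this]
          _ ≤ _ := (norm_sub_le _ _).trans (by linarith)
      have h6 : (n : ℝ) * C ≤ N * C := mul_le_mul_of_nonneg_right hn' hC
      have h7 : (n : ℝ) * C' ≤ N * C' := mul_le_mul_of_nonneg_right hn' hC'
      have h8 := hR1 w0 h1 (by linarith)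
      linarith
    · have hn' : (N : ℝ) ≤ n := by exact_mod_cast (not_le.mp hn).le
      have h2 := y6_iter_step h' n (ψ w0) (hψm w0 h1).1
      have h3 := (hψm w0 h1).1
      have h4 : (N : ℝ) * c' ≤ n * c' := mul_le_mul_of_nonneg_right hn' h'.hc.le
      have h5 : R ≤ (F'^[n] (ψ w0)).re := by linarith
      exact h5.trans (Complex.re_le_norm _)

end

end Pool.TU
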