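import Pool.Agent.Helper71.TU.AllDefs

/-! # TU Y4: the image of the half plane -/

open Complex Set Filter Topology Metric Polynomial ComplexConjugate Pool.Tuning

namespace Pool.TU

noncomputable section

theorem SP.injOn' {F : ℂ → ℂ} {κ c C : ℝ} (h : SP F κ c C) : InjOn F {w | κ ≤ w.re} := by
  intro w1 hw1 w2 hw2 he
  by_contra hne
  obtain ⟨d, hd⟩ : ∃ d, d = w2 - w1 := ⟨_, rfl⟩
  have hd0 : d ≠ 0 := by rw [hd]; exact sub_ne_zero.2 (Ne.symm hne)
  have hw1' : κ ≤ w1.re := hw1
  have hw2' : κ ≤ w2.re := hw2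
  have hmem : ∀ t ∈ Icc (0 : ℝ) 1, κ ≤ (w1 + (t : ℂ) * d).re := by
    intro t ht
    have : (w1 + (t : ℂ) * d).re = (1 - t) * w1.re + t * w2.re := by
      rw [hd]; simp; ring
    rw [this]
    nlinarith [ht.1, ht.2]
  have hder : ∀ t ∈ Icc (0 : ℝ) 1,
      HasDerivAt (fun t : ℝ => (F (w1 + (t : ℂ) * d) / d).re)
        ((deriv F (w1 + (t : ℂ) * d)).re) t := by
    intro t ht
    have h1 : HasDerivAt (fun t : ℝ => w1 + (t : ℂ) * d) d t := by
      have := ((Complex.ofRealCLM.hasDerivAt (x := t)).mul_const d).const_add w1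
      simpa using this
    have h2 := (h.diff _ (hmem t ht)).hasDerivAt
    have h3 : HasDerivAt (fun t : ℝ => F (w1 + (t : ℂ) * d))
        (deriv F (w1 + (t : ℂ) * d) * d) t :=
      HasDerivAt.comp t h2 h1
    have h4 := h3.div_const d
    have h5 : HasDerivAt (fun t : ℝ => (F (w1 + (t : ℂ) * d) / d).re)
        ((deriv F (w1 + (t : ℂ) * d) * d / d).re) t := by
      exact (Complex.reCLM.hasFDerivAt.comp_hasDerivAt t h4)
    rwa [mul_div_cancel_right₀ _ hd0] at h5
  have hmono : StrictMonoOn (fun t : ℝ => (F (w1 + (t : ℂ) * d) / d).re) (Icc 0 1) := by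
    apply strictMonoOn_of_deriv_pos (convex_Icc 0 1)
    · intro t ht
      exact (hder t ht).continuousAt.continuousWithinAt
    · intro t ht
      rw [interior_Icc] at ht
      rw [(hder t ⟨ht.1.le, ht.2.le⟩).deriv]
      exact h.der _ (hmem t ⟨ht.1.le, ht.2.le⟩)
  have := hmono (left_mem_Icc.2 zero_le_one) (right_mem_Icc.2 zero_le_one) zero_lt_one
  have e1 : w1 + ((1 : ℝ) : ℂ) * d = w2 := by rw [hd]; push_cast; ring
  have e0 : w1 + ((0 : ℝ) : ℂ) * d = w1 := by push_cast; ring
  simp only [e1, e0, he] at this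
  exact lt_irrefl _ this

theorem SP.imMono {F : ℂ → ℂ} {κ c C : ℝ} (h : SP F κ c C) {x : ℝ} (hx : κ ≤ x) :
    StrictMono (fun y : ℝ => (F (x + y * I)).im) := by
  have hre : ∀ y : ℝ, ((x : ℂ) + y * I).re = x := by intro y; simp
  have hder : ∀ y : ℝ, HasDerivAt (fun y : ℝ => (F (x + y * I)).im)
      ((deriv F (x + y * I)).re) y := by
    intro y
    have h1 : HasDerivAt (fun y : ℝ => (x : ℂ) + (y : ℂ) * I) I y := by
      have := ((Complex.ofRealCLM.hasDerivAt (x := y)).mul_const I).const_add (x : ℂ)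
      simpa using this
    have h2 := (h.diff ((x : ℂ) + y * I) (by rw [hre]; exact hx)).hasDerivAt
    have h3 : HasDerivAt (fun y : ℝ => F ((x : ℂ) + (y : ℂ) * I))
        (deriv F ((x : ℂ) + y * I) * I) y :=
      HasDerivAt.comp y h2 h1
    have h5 : HasDerivAt (fun y : ℝ => (F ((x : ℂ) + (y : ℂ) * I)).im)
        ((deriv F ((x : ℂ) + y * I) * I).im) y := by
      exact (Complex.imCLM.hasFDerivAt.comp_hasDerivAt y h3)
    simpa using h5
  apply strictMono_of_deriv_pos
  intro y
  rw [(hder y).deriv]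
  exact h.der _ (by rw [hre]; exact hx)

theorem SP.contF {F : ℂ → ℂ} {κ c C : ℝ} (h : SP F κ c C) : ContinuousOn F {w | κ ≤ w.re} :=
  fun w hw => (h.diff w hw).continuousAt.continuousWithinAt

theorem SP.imSurj {F : ℂ → ℂ} {κ c C : ℝ} (h : SP F κ c C) {x : ℝ} (hx : κ ≤ x) :
    Function.Surjective (fun y : ℝ => (F (x + y * I)).im) := by
  have hre : ∀ y : ℝ, ((x : ℂ) + y * I).re = x := by intro y; simp
  have hcont : Continuous (fun y : ℝ => (F (x + y * I)).im) := by
    rw [continuous_iff_continuousAt]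
    intro y
    have h2 := (h.diff ((x : ℂ) + y * I) (by rw [hre]; exact hx)).continuousAt
    have h1 : ContinuousAt (fun y : ℝ => (x : ℂ) + (y : ℂ) * I) y := by fun_prop
    exact Complex.continuous_im.continuousAt.comp
      (ContinuousAt.comp (f := fun y : ℝ => (x : ℂ) + (y : ℂ) * I) h2 h1)
  have hbd : ∀ y : ℝ, |(F (x + y * I)).im - y| ≤ C := by
    intro y
    have h1 := h.bdd ((x : ℂ) + y * I) (by rw [hre]; exact hx)
    have h2 := Complex.abs_im_le_norm (F ((x : ℂ) + y * I) - (x + y * I))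
    have h3 : (F ((x : ℂ) + y * I) - (x + y * I)).im = (F (x + y * I)).im - y := by simp
    rw [h3] at h2
    exact h2.trans h1
  apply hcont.surjective
  · refine tendsto_atTop_mono (f := fun y : ℝ => y + (-C)) ?_
      (tendsto_atTop_add_const_right _ _ tendsto_id)
    intro y
    have := (abs_le.1 (hbd y)).1
    show y + (-C) ≤ (F (x + y * I)).im
    linarith
  · refine tendsto_atBot_mono (f := fun y : ℝ => y + C) ?_
      (tendsto_atBot_add_const_right _ _ tendsto_id)
    intro y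
    have := (abs_le.1 (hbd y)).2
    show (F (x + y * I)).im ≤ y + C
    linarith

theorem SP.graph {F : ℂ → ℂ} {κ c C : ℝ} (h : SP F κ c C) : ∃ b g, GR F κ b g := by
  have hre : ∀ x y : ℝ, ((x : ℂ) + y * I).re = x := by intro x y; simp
  have him : ∀ x y : ℝ, ((x : ℂ) + y * I).im = y := by intro x y; simp
  have hex : ∀ x v : ℝ, ∃ y : ℝ, κ ≤ x → (F (x + y * I)).im = v := by
    intro x v
    by_cases hx : κ ≤ x
    · obtain ⟨y, hy⟩ := h.imSurj hx v
      exact ⟨y, fun _ => hy⟩
    · exact ⟨0, fun h => absurd h hx⟩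
  choose Y hY using hex
  have huniq : ∀ x v y : ℝ, κ ≤ x → (F (x + y * I)).im = v → Y x v = y := by
    intro x v y hx hy
    apply (h.imMono hx).injective
    simp only
    rw [hY x v hx, hy]
  -- joint continuity
  have hYc : ContinuousOn (fun p : ℝ × ℝ => Y p.1 p.2) {p | κ ≤ p.1} := by
    intro p0 hp0
    have hp0' : κ ≤ p0.1 := hp0
    obtain ⟨y0, hy0⟩ : ∃ y0, y0 = Y p0.1 p0.2 := ⟨_, rfl⟩
    have hcx : ∀ y : ℝ, ContinuousWithinAt
        (fun p : ℝ × ℝ => (F ((p.1 : ℂ) + y * I)).im) {p | κ ≤ p.1} p0 := by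
      intro y
      have h2 := (h.diff ((p0.1 : ℂ) + y * I) (by rw [hre]; exact hp0')).continuousAt
      have h1 : ContinuousAt (fun p : ℝ × ℝ => (p.1 : ℂ) + (y : ℂ) * I) p0 := by fun_prop
      exact (Complex.continuous_im.continuousAt.comp
        (ContinuousAt.comp (f := fun p : ℝ × ℝ => (p.1 : ℂ) + (y : ℂ) * I) h2 h1)).continuousWithinAt
    have hc2 : ContinuousWithinAt (fun p : ℝ × ℝ => p.2) {p | κ ≤ p.1} p0 :=
      continuous_snd.continuousWithinAt
    have hval : (F ((p0.1 : ℂ) + y0 * I)).im = p0.2 := by rw [hy0]; exact hY _ _ hp0'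
    rw [ContinuousWithinAt, tendsto_order]
    constructor
    · intro a ha
      rw [← hy0] at ha
      have hlt : (F ((p0.1 : ℂ) + a * I)).im < p0.2 := by
        rw [← hval]; exact h.imMono hp0' ha
      have hev := Filter.Tendsto.eventually_lt (hcx a) hc2 hlt
      filter_upwards [hev, self_mem_nhdsWithin] with p hp hpm
      have hpm' : κ ≤ p.1 := hpm
      rw [← hY p.1 p.2 hpm'] at hp
      exact (h.imMono hpm').lt_iff_lt.1 hp
    · intro a ha
      rw [← hy0] at ha
      have hlt : p0.2 < (F ((p0.1 : ℂ) + a * I)).im := by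
        rw [← hval]; exact h.imMono hp0' ha
      have hev := Filter.Tendsto.eventually_lt hc2 (hcx a) hlt
      filter_upwards [hev, self_mem_nhdsWithin] with p hp hpm
      have hpm' : κ ≤ p.1 := hpm
      rw [← hY p.1 p.2 hpm'] at hp
      exact (h.imMono hpm').lt_iff_lt.1 hp
  -- the map (x, v) ↦ Re F(x + i Y x v)
  have hrc : ContinuousOn (fun p : ℝ × ℝ => (F ((p.1 : ℂ) + (Y p.1 p.2 : ℝ) * I)).re)
      {p | κ ≤ p.1} := by
    have h1 : ContinuousOn (fun p : ℝ × ℝ => (p.1 : ℂ) + (Y p.1 p.2 : ℝ) * I) {p | κ ≤ p.1} := by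
      apply ContinuousOn.add
      · exact (Complex.continuous_ofReal.comp continuous_fst).continuousOn
      · exact (Complex.continuous_ofReal.comp_continuousOn hYc).mul continuousOn_const
    have h2 := h.contF.comp h1 (by
      intro p hp
      have hp' : κ ≤ p.1 := hp
      simp only [mem_ofPred_eq, hre]
      exact hp')
    exact Complex.continuous_re.comp_continuousOn h2
  obtain ⟨r, hr⟩ : ∃ r : ℝ → ℝ → ℝ, r = fun x v : ℝ => (F ((x : ℂ) + (Y x v : ℝ) * I)).re := ⟨_, rfl⟩
  have hrv : ∀ v, ContinuousOn (fun x => r x v) (Ici κ) := by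
    intro v
    have h1 : ContinuousOn (fun x : ℝ => (x, v)) (Ici κ) := by fun_prop
    have := hrc.comp h1 (by intro x hx; exact hx)
    rw [hr]
    exact this
  have hFr : ∀ x v, κ ≤ x → F ((x : ℂ) + (Y x v : ℝ) * I) = r x v + v * I := by
    intro x v hx
    apply Complex.ext
    · rw [hre, hr]
    · rw [him, hY x v hx]
  have hinj : ∀ v x x', κ ≤ x → κ ≤ x' → r x v = r x' v → x = x' := by
    intro v x x' hx hx' he
    have m1 : ((x : ℂ) + (Y x v : ℝ) * I) ∈ {w : ℂ | κ ≤ w.re} := by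
      show κ ≤ ((x : ℂ) + (Y x v : ℝ) * I).re
      rw [hre]; exact hx
    have m2 : ((x' : ℂ) + (Y x' v : ℝ) * I) ∈ {w : ℂ | κ ≤ w.re} := by
      show κ ≤ ((x' : ℂ) + (Y x' v : ℝ) * I).re
      rw [hre]; exact hx'
    have h1 := h.injOn' m1 m2 (by rw [hFr x v hx, hFr x' v hx', he])
    have h2 := congrArg Complex.re h1
    rwa [hre, hre] at h2
  have hstep : ∀ x v, κ ≤ x → x + c ≤ r x v := by
    intro x v hx
    have := h.step ((x : ℂ) + (Y x v : ℝ) * I) (by rw [hre]; exact hx)
    rw [hre] at this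
    rw [hr]
    exact this
  have hc := h.hc
  have hmin : ∀ x v, κ ≤ x → r κ v ≤ r x v := by
    intro x v hx
    by_contra hlt
    push Not at hlt
    obtain ⟨x', hx', hxr⟩ : ∃ x', x ≤ x' ∧ r κ v ≤ r x' v := by
      refine ⟨max x (r κ v), le_max_left _ _, ?_⟩
      have := hstep (max x (r κ v)) v (hx.trans (le_max_left _ _))
      have h2 := le_max_right x (r κ v)
      linarith
    have hcI : ContinuousOn (fun x => r x v) (Icc x x') :=
      (hrv v).mono (fun t ht => hx.trans ht.1)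
    obtain ⟨t, ht, hte⟩ := intermediate_value_Icc hx' hcI ⟨hlt.le, hxr⟩
    have := hinj v t κ (hx.trans ht.1) le_rfl hte
    have hxk : x = κ := le_antisymm (ht.1.trans this.le) hx
    rw [hxk] at hlt
    exact lt_irrefl _ hlt
  have hmin' : ∀ x v, κ < x → r κ v < r x v := by
    intro x v hx
    rcases lt_or_eq_of_le (hmin x v hx.le) with h1 | h1
    · exact h1
    · exact absurd (hinj v κ x le_rfl hx.le h1) (ne_of_lt hx)
  have hdecomp : ∀ w : ℂ, κ ≤ w.re → F w = r w.re (F w).im + (F w).im * I := by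
    intro w hw
    have h1 : Y w.re (F w).im = w.im := by
      apply huniq _ _ _ hw
      rw [Complex.re_add_im]
    have h2 := hFr w.re (F w).im hw
    rw [h1, Complex.re_add_im] at h2
    exact h2
  have hrew : ∀ w : ℂ, κ ≤ w.re → (F w).re = r w.re (F w).im := by
    intro w hw
    have h1 := congrArg Complex.re (hdecomp w hw)
    rw [hre] at h1
    exact h1
  have hsurj : ∀ v u : ℝ, r κ v ≤ u → ∃ x, κ ≤ x ∧ r x v = u := by
    intro v u hu
    have hx' : κ ≤ max κ u := le_max_left _ _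
    have hxr : u ≤ r (max κ u) v := by
      have := hstep (max κ u) v hx'
      have h2 := le_max_right κ u
      linarith
    have hcI : ContinuousOn (fun x => r x v) (Icc κ (max κ u)) :=
      (hrv v).mono (fun t ht => ht.1)
    obtain ⟨t, ht, hte⟩ := intermediate_value_Icc hx' hcI ⟨hu, hxr⟩
    exact ⟨t, ht.1, hte⟩
  have hYneg : ∀ v, Y κ (-v) = -(Y κ v) := by
    intro v
    apply huniq _ _ _ le_rfl
    have h1 : ((κ : ℂ) + ((-(Y κ v) : ℝ) : ℂ) * I) = conj ((κ : ℂ) + (Y κ v : ℝ) * I) := by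
      apply Complex.ext <;> simp
    rw [h1, h.sym _ (by rw [hre]), Complex.conj_im, hY κ v le_rfl]
  refine ⟨fun v => r κ v, fun y => (F (κ + y * I)).im, ?_⟩
  constructor
  · -- cont
    have h1 : ContinuousOn (fun v : ℝ => (κ, v)) univ := by fun_prop
    have := hrc.comp h1 (by intro x hx; exact le_refl κ)
    rw [hr]
    exact continuousOn_univ.1 this
  · -- even
    intro v
    show r κ (-v) = r κ v
    rw [hr]
    simp only
    rw [hYneg]
    have h1 : ((κ : ℂ) + ((-(Y κ v) : ℝ) : ℂ) * I) = conj ((κ : ℂ) + (Y κ v : ℝ) * I) := by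
      apply Complex.ext <;> simp
    rw [h1, h.sym _ (by rw [hre]), Complex.conj_re]
  · -- gt
    intro v
    have := hstep κ v le_rfl
    show κ < r κ v
    linarith
  · -- img
    ext w
    simp only [mem_image, mem_ofPred_eq]
    constructor
    · rintro ⟨z, hz, rfl⟩
      rw [hrew z hz]
      exact hmin _ _ hz
    · intro hw
      obtain ⟨x, hx, hxe⟩ := hsurj w.im w.re hw
      refine ⟨(x : ℂ) + (Y x w.im : ℝ) * I, by rw [hre]; exact hx, ?_⟩
      rw [hFr x w.im hx, hxe, Complex.re_add_im]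
  · -- imgo
    ext w
    simp only [mem_image, mem_ofPred_eq]
    constructor
    · rintro ⟨z, hz, rfl⟩
      rw [hrew z hz.le]
      exact hmin' _ _ hz
    · intro hw
      obtain ⟨x, hx, hxe⟩ := hsurj w.im w.re hw.le
      refine ⟨(x : ℂ) + (Y x w.im : ℝ) * I, ?_, ?_⟩
      · rw [hre]
        rcases lt_or_eq_of_le hx with h1 | h1
        · exact h1
        · rw [← h1] at hxe
          rw [hxe] at hw
          exact absurd hw (lt_irrefl _)
      · rw [hFr x w.im hx, hxe, Complex.re_add_im]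
  · exact h.injOn'
  · -- gcont
    rw [continuous_iff_continuousAt]
    intro y
    have h2 := (h.diff ((κ : ℂ) + y * I) (by rw [hre])).continuousAt
    have h1 : ContinuousAt (fun y : ℝ => (κ : ℂ) + (y : ℂ) * I) y := by fun_prop
    exact Complex.continuous_im.continuousAt.comp
      (ContinuousAt.comp (f := fun y : ℝ => (κ : ℂ) + (y : ℂ) * I) h2 h1)
  · exact h.imMono le_rfl
  · exact h.imSurj le_rfl
  · -- godd
    intro y
    show (F ((κ : ℂ) + ((-y : ℝ) : ℂ) * I)).im = -(F (κ + y * I)).im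
    have h1 : ((κ : ℂ) + ((-y : ℝ) : ℂ) * I) = conj ((κ : ℂ) + (y : ℝ) * I) := by
      apply Complex.ext <;> simp
    rw [h1, h.sym _ (by rw [hre]), Complex.conj_im]
  · -- gval
    intro y
    have h1 := hdecomp ((κ : ℂ) + y * I) (by rw [hre])
    rw [hre] at h1
    exact h1

end

end Pool.TU
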