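import Pool.Agent.Helper71.TU.Y1
import Pool.Agent.Helper71.TU.Y4
import Pool.Agent.Helper71.TU.Y5
import Pool.Agent.Helper71.TU.Y6

/-! # TU Y7: conjugacy of petals -/

open Complex Set Filter Topology Metric Polynomial ComplexConjugate Pool.Tuning

namespace Pool.TU

noncomputable section

theorem y7_im_le {α : ℝ} (hα : 0 < α) {z : ℂ} (hz : z ≠ 0) :
    (1 / ((α : ℂ) * z)).im ≤ 0 ↔ 0 ≤ z.im := by
  have hn : 0 < ‖z‖ ^ 2 := by positivity
  rw [y1_im hα, div_le_iff₀ (by positivity)]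
  constructor <;> intro h <;> linarith

theorem y7_im_eq {α : ℝ} (hα : 0 < α) {z : ℂ} (hz : z ≠ 0) :
    (1 / ((α : ℂ) * z)).im = 0 ↔ z.im = 0 := by
  have hn : 0 < ‖z‖ ^ 2 := by positivity
  rw [y1_im hα, div_eq_zero_iff]
  constructor
  · rintro (h | h)
    · linarith
    · exact absurd h (by positivity)
  · intro h
    left
    linarith

theorem y7_h0 {q : RQ} {ρ : ℝ} (D : PD q ρ) : q.h.eval 0 = 0 := by
  obtain ⟨a3, a4, hpoly⟩ := y1_poly D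
  rw [hpoly 0]
  ring

theorem y7_v {q : RQ} {ρ : ℝ} (D : PD q ρ) {b g : ℝ → ℝ}
    (hb : GR (parF q D.α) (1 / (2 * ρ * D.α)) b g) :
    q.v ≠ 0 ∧ 1 / (2 * ρ * D.α) < (1 / ((D.α : ℂ) * q.v)).re ∧
      (1 / ((D.α : ℂ) * q.v)).re < b (1 / ((D.α : ℂ) * q.v)).im ∧
      (1 / ((D.α : ℂ) * q.v)).im < 0 := by
  have hvp : 0 < q.v.im := RQ.vpos q
  have hv0 : q.v ≠ 0 := by
    intro h
    rw [h] at hvp
    simp at hvp
  have hα := D.hα
  have hαC : (D.α : ℂ) ≠ 0 := by exact_mod_cast hα.ne'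
  refine ⟨hv0, (y1_ball_re D.hρ hα hv0).mp D.vmem, ?_, ?_⟩
  · by_contra h
    push Not at h
    have h1 : (1 / ((D.α : ℂ) * q.v)) ∈ parF q D.α '' {w | 1 / (2 * ρ * D.α) ≤ w.re} := by
      rw [hb.img]
      exact h
    obtain ⟨w, hw, he⟩ := h1
    have hw0 : w ≠ 0 := y1_ne_zero (y1_kpos D) hw
    have hz0 : 1 / ((D.α : ℂ) * w) ≠ 0 := one_div_ne_zero (mul_ne_zero hαC hw0)
    have hzm : 1 / ((D.α : ℂ) * w) ∈ closedBall (ρ : ℂ) ρ := by
      rw [y1_cball_re D.hρ hα hz0, y1_invol hα hw0]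
      exact hw
    apply D.props.2.2.2.1 _ hzm
    have h2 := y1_conj D hzm hz0
    rw [y1_invol hα hw0, he] at h2
    have h3 := congrArg (fun x => 1 / ((D.α : ℂ) * x)) h2
    rw [y1_invol hα hv0, y1_invol hα (y1_hne D hzm hz0)] at h3
    exact h3.symm
  · have hn : 0 < ‖q.v‖ ^ 2 := by positivity
    rw [y1_im hα]
    exact div_neg_of_neg_of_pos (by linarith) (by positivity)

/-- The crescent construction: two parabolic petals are conjugate, with `v ↦ v`. -/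
theorem crescent {q q' : RQ} {ρ ρ' : ℝ} (D : PD q ρ) (D' : PD q' ρ') :
    ∃ Ψ : ℂ → ℂ, ContinuousOn Ψ (closedBall (ρ : ℂ) ρ ∩ HH) ∧
      InjOn Ψ (closedBall (ρ : ℂ) ρ ∩ HH) ∧
      Ψ '' (closedBall (ρ : ℂ) ρ ∩ HH) = closedBall (ρ' : ℂ) ρ' ∩ HH ∧
      Ψ '' (ball (ρ : ℂ) ρ ∩ HH) = ball (ρ' : ℂ) ρ' ∩ HH ∧
      (∀ z ∈ closedBall (ρ : ℂ) ρ ∩ HH, (Ψ z).im = 0 ↔ z.im = 0) ∧ Ψ 0 = 0 ∧
      Ψ q.v = q'.v ∧ Ψ (2 * ρ : ℝ) = (2 * ρ' : ℝ) ∧
      (∀ z ∈ closedBall (ρ : ℂ) ρ ∩ HH, Ψ (q.h.eval z) = q'.h.eval (Ψ z)) := by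
  obtain ⟨c, C, hS⟩ := D.sp
  obtain ⟨c', C', hS'⟩ := D'.sp
  obtain ⟨b, g, hb⟩ := hS.graph
  obtain ⟨b', g', hb'⟩ := hS'.graph
  obtain ⟨hv0, hv⟩ := y7_v D hb
  obtain ⟨hv0', hv'⟩ := y7_v D' hb'
  obtain ⟨ψ, hψ⟩ := exists_cb hS hS' hb hb' hv hv'
  obtain ⟨W, Wc, Wi, Wim, Wimo, Wfe, Wsg, Wκ, Wv, Wp⟩ := exists_half hS hS' hb hb' hv hψ
  have hα := D.hα
  have hρ := D.hρ
  have hα' := D'.hα
  have hρ' := D'.hρ
  have hκ := y1_kpos D
  have hκ' := y1_kpos D'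
  have hαC : (D.α : ℂ) ≠ 0 := by exact_mod_cast hα.ne'
  have hαC' : (D'.α : ℂ) ≠ 0 := by exact_mod_cast hα'.ne'
  -- values in the right half plane
  have Wre : ∀ w : ℂ, 1 / (2 * ρ * D.α) ≤ w.re → 1 / (2 * ρ' * D'.α) ≤ (W w).re := by
    intro w hw
    have : W w ∈ W '' {w | 1 / (2 * ρ * D.α) ≤ w.re} := ⟨w, hw, rfl⟩
    rw [Wim] at this
    exact this
  have Wreo : ∀ w : ℂ, 1 / (2 * ρ * D.α) < w.re → 1 / (2 * ρ' * D'.α) < (W w).re := by
    intro w hw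
    have : W w ∈ W '' {w | 1 / (2 * ρ * D.α) < w.re} := ⟨w, hw, rfl⟩
    rw [Wimo] at this
    exact this
  have Wle : ∀ w : ℂ, 1 / (2 * ρ * D.α) ≤ w.re → ((W w).im ≤ 0 ↔ w.im ≤ 0) := by
    intro w hw
    obtain ⟨s1, s2⟩ := Wsg w hw
    rw [le_iff_lt_or_eq, le_iff_lt_or_eq, s1, s2]
  set P : ℂ → ℂ := fun z => if z = 0 then 0 else 1 / ((D'.α : ℂ) * W (1 / ((D.α : ℂ) * z)))
    with hP
  have P0 : P 0 = 0 := by rw [hP]; simp
  have Pz : ∀ z : ℂ, z ≠ 0 → P z = 1 / ((D'.α : ℂ) * W (1 / ((D.α : ℂ) * z))) := by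
    intro z hz
    rw [hP]
    simp only
    rw [if_neg hz]
  -- points of the disc
  have hw : ∀ z ∈ closedBall (ρ : ℂ) ρ, z ≠ 0 → 1 / (2 * ρ * D.α) ≤ (1 / ((D.α : ℂ) * z)).re :=
    fun z hz h0 => (y1_cball_re hρ hα h0).mp hz
  have hWne : ∀ z ∈ closedBall (ρ : ℂ) ρ, z ≠ 0 → W (1 / ((D.α : ℂ) * z)) ≠ 0 :=
    fun z hz h0 => y1_ne_zero hκ' (Wre _ (hw z hz h0))
  have Pne : ∀ z ∈ closedBall (ρ : ℂ) ρ, z ≠ 0 → P z ≠ 0 := by
    intro z hz h0
    rw [Pz z h0]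
    exact one_div_ne_zero (mul_ne_zero hαC' (hWne z hz h0))
  have Pinv : ∀ z ∈ closedBall (ρ : ℂ) ρ, z ≠ 0 →
      1 / ((D'.α : ℂ) * P z) = W (1 / ((D.α : ℂ) * z)) := by
    intro z hz h0
    rw [Pz z h0, y1_invol hα' (hWne z hz h0)]
  have h0ball : (0 : ℂ) ∉ ball (ρ : ℂ) ρ := by
    rw [y1_ball_iff hρ]
    simp
  have h0ball' : (0 : ℂ) ∉ ball (ρ' : ℂ) ρ' := by
    rw [y1_ball_iff hρ']
    simp
  have h0cball : (0 : ℂ) ∈ closedBall (ρ : ℂ) ρ := by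
    rw [y1_cball_iff hρ]
    simp
  have h0cball' : (0 : ℂ) ∈ closedBall (ρ' : ℂ) ρ' := by
    rw [y1_cball_iff hρ']
    simp
  have h0HH : (0 : ℂ) ∈ HH := by simp [HH]
  have Pm : ∀ z ∈ closedBall (ρ : ℂ) ρ, z ≠ 0 → P z ∈ closedBall (ρ' : ℂ) ρ' := by
    intro z hz h0
    rw [y1_cball_re hρ' hα' (Pne z hz h0), Pinv z hz h0]
    exact Wre _ (hw z hz h0)
  have PHH : ∀ z ∈ closedBall (ρ : ℂ) ρ, z ≠ 0 → (P z ∈ HH ↔ z ∈ HH) := by
    intro z hz h0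
    change 0 ≤ (P z).im ↔ 0 ≤ z.im
    rw [← y7_im_le hα' (Pne z hz h0), Pinv z hz h0, Wle _ (hw z hz h0), y7_im_le hα h0]
  refine ⟨P, ?_, ?_, ?_, ?_, ?_, P0, ?_, ?_, ?_⟩
  · -- continuity
    intro z hz
    by_cases h0 : z = 0
    · subst h0
      -- at the parabolic point
      rw [Metric.continuousWithinAt_iff]
      intro ε hε
      obtain ⟨R', hR'⟩ := Wp (1 / (D'.α * ε) + 1)
      have hM : 0 < max R' 1 := lt_of_lt_of_le one_pos (le_max_right _ _)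
      refine ⟨1 / (D.α * max R' 1), by positivity, ?_⟩
      intro y hy hd
      rw [P0, dist_zero_right]
      by_cases hy0 : y = 0
      · rw [hy0, P0, norm_zero]
        exact hε
      · rw [dist_zero_right] at hd
        have hyn : 0 < ‖y‖ := norm_pos_iff.mpr hy0
        have h1 : R' ≤ ‖1 / ((D.α : ℂ) * y)‖ := by
          rw [norm_div, norm_mul, norm_one, norm_real, Real.norm_of_nonneg hα.le]
          refine (le_max_left R' 1).trans ?_
          rw [le_div_iff₀ (by positivity)]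
          rw [lt_div_iff₀ (by positivity)] at hd
          nlinarith
        have h2 := hR' _ (hw y hy.1 hy0) h1
        rw [Pz y hy0, norm_div, norm_mul, norm_one, norm_real, Real.norm_of_nonneg hα'.le]
        have h3 : 1 / (D'.α * ε) < ‖W (1 / ((D.α : ℂ) * y))‖ := by linarith
        have h4 : 0 < ‖W (1 / ((D.α : ℂ) * y))‖ := lt_trans (by positivity) h3
        rw [div_lt_iff₀ (by positivity)] at h3
        rw [div_lt_iff₀ (by positivity)]
        linarith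
    · have h1 : ContinuousWithinAt (fun z => 1 / ((D'.α : ℂ) * W (1 / ((D.α : ℂ) * z))))
          (closedBall (ρ : ℂ) ρ ∩ HH ∩ {0}ᶜ) z := by
        apply ContinuousWithinAt.div continuousWithinAt_const
        · apply ContinuousWithinAt.mul continuousWithinAt_const
          have h2 : ContinuousWithinAt (fun z : ℂ => 1 / ((D.α : ℂ) * z))
              (closedBall (ρ : ℂ) ρ ∩ HH ∩ {0}ᶜ) z := by
            apply ContinuousWithinAt.div continuousWithinAt_const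
            · exact continuousWithinAt_const.mul continuousWithinAt_id
            · exact mul_ne_zero hαC h0
          exact ContinuousWithinAt.comp (t := {w : ℂ | 1 / (2 * ρ * D.α) ≤ w.re})
            (Wc _ (hw z hz.1 h0)) h2 (fun y hy => hw y hy.1.1 hy.2)
        · exact mul_ne_zero hαC' (hWne z hz.1 h0)
      have h3 : ContinuousWithinAt P (closedBall (ρ : ℂ) ρ ∩ HH ∩ {0}ᶜ) z :=
        h1.congr (fun y hy => Pz y hy.2) (Pz z h0)
      have h4 : ({0}ᶜ : Set ℂ) ∈ 𝓝 z := isOpen_compl_singleton.mem_nhds h0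
      exact (continuousWithinAt_inter h4).mp h3
  · -- injectivity
    intro z1 hz1 z2 hz2 h
    by_cases h1 : z1 = 0
    · by_contra h2
      have h3 : z2 ≠ 0 := fun h4 => h2 (by rw [h1, h4])
      apply Pne z2 hz2.1 h3
      rw [← h, h1, P0]
    · by_cases h2 : z2 = 0
      · exfalso
        apply Pne z1 hz1.1 h1
        rw [h, h2, P0]
      · have e : W (1 / ((D.α : ℂ) * z1)) = W (1 / ((D.α : ℂ) * z2)) := by
          rw [← Pinv z1 hz1.1 h1, ← Pinv z2 hz2.1 h2, h]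
        have h3 := Wi (hw z1 hz1.1 h1) (hw z2 hz2.1 h2) e
        rw [← y1_invol hα h1, h3, y1_invol hα h2]
  · -- image of the closed disc
    ext y
    constructor
    · rintro ⟨z, hz, rfl⟩
      by_cases h0 : z = 0
      · rw [h0, P0]
        exact ⟨h0cball', h0HH⟩
      · exact ⟨Pm z hz.1 h0, (PHH z hz.1 h0).mpr hz.2⟩
    · intro hy
      by_cases h0 : y = 0
      · exact ⟨0, ⟨h0cball, h0HH⟩, by rw [h0, P0]⟩
      · have h1 : 1 / ((D'.α : ℂ) * y) ∈ W '' {w | 1 / (2 * ρ * D.α) ≤ w.re} := by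
          rw [Wim]
          exact (y1_cball_re hρ' hα' h0).mp hy.1
        obtain ⟨w, hwm, hwe⟩ := h1
        have hw0 : w ≠ 0 := y1_ne_zero hκ hwm
        have hz0 : 1 / ((D.α : ℂ) * w) ≠ 0 := one_div_ne_zero (mul_ne_zero hαC hw0)
        have hzm : 1 / ((D.α : ℂ) * w) ∈ closedBall (ρ : ℂ) ρ := by
          rw [y1_cball_re hρ hα hz0, y1_invol hα hw0]
          exact hwm
        have he : P (1 / ((D.α : ℂ) * w)) = y := by
          rw [Pz _ hz0, y1_invol hα hw0, hwe, y1_invol hα' h0]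
        refine ⟨1 / ((D.α : ℂ) * w), ⟨hzm, ?_⟩, he⟩
        rw [← PHH _ hzm hz0, he]
        exact hy.2
  · -- image of the open disc
    ext y
    constructor
    · rintro ⟨z, hz, rfl⟩
      have h0 : z ≠ 0 := by
        rintro rfl
        exact h0ball hz.1
      have hzc := ball_subset_closedBall hz.1
      refine ⟨?_, (PHH z hzc h0).mpr hz.2⟩
      rw [y1_ball_re hρ' hα' (Pne z hzc h0), Pinv z hzc h0]
      exact Wreo _ ((y1_ball_re hρ hα h0).mp hz.1)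
    · intro hy
      have h0 : y ≠ 0 := by
        rintro rfl
        exact h0ball' hy.1
      have h1 : 1 / ((D'.α : ℂ) * y) ∈ W '' {w | 1 / (2 * ρ * D.α) < w.re} := by
        rw [Wimo]
        exact (y1_ball_re hρ' hα' h0).mp hy.1
      obtain ⟨w, hwm, hwe⟩ := h1
      have hwm' : 1 / (2 * ρ * D.α) ≤ w.re := le_of_lt hwm
      have hw0 : w ≠ 0 := y1_ne_zero hκ hwm'
      have hz0 : 1 / ((D.α : ℂ) * w) ≠ 0 := one_div_ne_zero (mul_ne_zero hαC hw0)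
      have hzm : 1 / ((D.α : ℂ) * w) ∈ closedBall (ρ : ℂ) ρ := by
        rw [y1_cball_re hρ hα hz0, y1_invol hα hw0]
        exact hwm'
      have he : P (1 / ((D.α : ℂ) * w)) = y := by
        rw [Pz _ hz0, y1_invol hα hw0, hwe, y1_invol hα' h0]
      refine ⟨1 / ((D.α : ℂ) * w), ⟨?_, ?_⟩, he⟩
      · rw [y1_ball_re hρ hα hz0, y1_invol hα hw0]
        exact hwm
      · rw [← PHH _ hzm hz0, he]
        exact hy.2
  · -- real points
    intro z hz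
    by_cases h0 : z = 0
    · rw [h0, P0]
    · rw [← y7_im_eq hα' (Pne z hz.1 h0), Pinv z hz.1 h0, (Wsg _ (hw z hz.1 h0)).1,
        y7_im_eq hα h0]
  · rw [Pz _ hv0, Wv, y1_invol hα' hv0']
  · have h1 : ((2 * ρ : ℝ) : ℂ) ≠ 0 := by exact_mod_cast (by positivity : (2 * ρ : ℝ) ≠ 0)
    have h2 : 1 / ((D.α : ℂ) * ((2 * ρ : ℝ) : ℂ)) = ((1 / (2 * ρ * D.α) : ℝ) : ℂ) := by
      push_cast
      rw [mul_comm (D.α : ℂ)]
    have h3 : ((1 / (2 * ρ' * D'.α) : ℝ) : ℂ) ≠ 0 := by exact_mod_cast hκ'.ne'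
    rw [Pz _ h1, h2, Wκ]
    have hρC : (ρ' : ℂ) ≠ 0 := by exact_mod_cast hρ'.ne'
    push_cast
    field_simp
  · -- functional equation
    intro z hz
    by_cases h0 : z = 0
    · rw [h0, P0, y7_h0 D, P0, y7_h0 D']
    · have hh := y1_hne D hz.1 h0
      rw [Pz _ hh, ← y1_conj D hz.1 h0, Wfe _ (hw z hz.1 h0)]
      have h1 := y1_conj D' (Pm z hz.1 h0) (Pne z hz.1 h0)
      rw [Pinv z hz.1 h0] at h1
      rw [h1, y1_invol hα' (y1_hne D' (Pm z hz.1 h0) (Pne z hz.1 h0))]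

end

end Pool.TU
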