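import Pool.Agent.Helper71.TU.Y7
import Pool.Agent.Helper71.TU.B2

/-! # TU Y8: conjugacy of rigid sets, parabolic type -/

open Complex Set Filter Topology Metric Polynomial ComplexConjugate Pool.Tuning

namespace Pool.TU

noncomputable section

private lemma y8_ofReal_mem_closedBall {r x : ℝ} :
    ((x : ℂ) ∈ closedBall (r : ℂ) r) ↔ x ∈ Icc 0 (2 * r) := by
  rw [mem_closedBall, dist_eq_norm, ← ofReal_sub, norm_real, Real.norm_eq_abs, abs_le, mem_Icc]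
  constructor
  · rintro ⟨h1, h2⟩; constructor <;> linarith
  · rintro ⟨h1, h2⟩; constructor <;> linarith

private lemma y8_ofReal_mem_ball {r x : ℝ} :
    ((x : ℂ) ∈ ball (r : ℂ) r) ↔ x ∈ Ioo 0 (2 * r) := by
  rw [mem_ball, dist_eq_norm, ← ofReal_sub, norm_real, Real.norm_eq_abs, abs_lt, mem_Ioo]
  constructor
  · rintro ⟨h1, h2⟩; constructor <;> linarith
  · rintro ⟨h1, h2⟩; constructor <;> linarith

private lemma y8_real_mem_HH (x : ℝ) : (x : ℂ) ∈ HH := by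
  simp [HH]

/-- the angles of the real points of a subset of the half plane -/
private lemma y8_arc {v : ℂ} (hv : 0 < v.im) {K : Set ℂ} (hK : K ⊆ HH) {θ : ℝ}
    (hθ : θ ∈ Icc 0 (2 * Real.pi)) :
    ec θ ∈ mm v '' K ↔ ∃ x : ℝ, (x : ℂ) ∈ K ∧ θ = ang v x := by
  constructor
  · rintro ⟨z, hz, hzθ⟩
    have hzH := hK hz
    have h1 : ‖mm v z‖ = 1 := by rw [hzθ]; exact norm_ec θ
    have him := (norm_mm_eq_one hv hzH).1 h1
    have hzr : z = ((z.re : ℝ) : ℂ) := by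
      apply Complex.ext <;> simp [him]
    refine ⟨z.re, by rw [← hzr]; exact hz, ?_⟩
    have h2 : ec θ = ec (ang v z.re) := by
      rw [← mm_real hv, ← hzr, hzθ]
    have hne : θ ≠ 0 := by
      rintro rfl
      apply mm_ne_one hv hzH
      rw [hzθ]; simp [ec]
    have h3 := ang_mem hv z.re
    exact ec_inj ⟨lt_of_le_of_ne hθ.1 (Ne.symm hne), hθ.2⟩ ⟨h3.1, h3.2.le⟩ h2
  · rintro ⟨x, hx, rfl⟩
    exact ⟨x, hx, mm_real hv x⟩

private lemma y8_arc_closed {v : ℂ} (hv : 0 < v.im) {r : ℝ} {θ : ℝ}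
    (hθ : θ ∈ Icc 0 (2 * Real.pi)) :
    ec θ ∈ mm v '' (closedBall (r : ℂ) r ∩ HH) ↔ θ ∈ Icc (ang v 0) (ang v (2 * r)) := by
  rw [y8_arc hv inter_subset_right hθ]
  have hm := ang_strictMono hv
  constructor
  · rintro ⟨x, hx, rfl⟩
    have h := y8_ofReal_mem_closedBall.1 hx.1
    exact ⟨hm.monotone h.1, hm.monotone h.2⟩
  · rintro ⟨h1, h2⟩
    have hθ' : θ ∈ Ioo 0 (2 * Real.pi) :=
      ⟨lt_of_lt_of_le (ang_mem hv 0).1 h1, lt_of_le_of_lt h2 (ang_mem hv _).2⟩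
    obtain ⟨x, rfl⟩ := ang_surj hv hθ'
    exact ⟨x, ⟨y8_ofReal_mem_closedBall.2 ⟨hm.le_iff_le.1 h1, hm.le_iff_le.1 h2⟩,
      y8_real_mem_HH x⟩, rfl⟩

private lemma y8_arc_open {v : ℂ} (hv : 0 < v.im) {r : ℝ} {θ : ℝ}
    (hθ : θ ∈ Icc 0 (2 * Real.pi)) :
    ec θ ∈ mm v '' (ball (r : ℂ) r ∩ HH) ↔ θ ∈ Ioo (ang v 0) (ang v (2 * r)) := by
  rw [y8_arc hv inter_subset_right hθ]
  have hm := ang_strictMono hv
  constructor
  · rintro ⟨x, hx, rfl⟩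
    have h := y8_ofReal_mem_ball.1 hx.1
    exact ⟨hm h.1, hm h.2⟩
  · rintro ⟨h1, h2⟩
    have hθ' : θ ∈ Ioo 0 (2 * Real.pi) :=
      ⟨lt_trans (ang_mem hv 0).1 h1, lt_trans h2 (ang_mem hv _).2⟩
    obtain ⟨x, rfl⟩ := ang_surj hv hθ'
    exact ⟨x, ⟨y8_ofReal_mem_ball.2 ⟨hm.lt_iff_lt.1 h1, hm.lt_iff_lt.1 h2⟩,
      y8_real_mem_HH x⟩, rfl⟩

/-- on the petal the folding does nothing -/
private lemma y8_fold {q : RQ} {ρ : ℝ} (D : PD q ρ) {z : ℂ}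
    (hz : z ∈ closedBall (ρ : ℂ) ρ ∩ HH) : q.h.eval z ∈ HH ∧ fold (q.h.eval z) = q.h.eval z := by
  have h : 0 ≤ (q.h.eval z).im := by
    rcases lt_or_eq_of_le (show 0 ≤ z.im from hz.2) with h0 | h0
    · exact (D.props.2.2.1 z hz.1 h0).le
    · have hzr : z = ((z.re : ℝ) : ℂ) := by
        apply Complex.ext <;> simp [← h0]
      rw [hzr]
      have : q.h.eval ((z.re : ℝ) : ℂ) = ((q.p.eval z.re : ℝ) : ℂ) := by
        unfold RQ.h
        rw [Polynomial.eval_map_algebraMap]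
        exact Polynomial.aeval_algebraMap_apply_eq_algebraMap_eval (A := ℂ) z.re q.p
      rw [this]; simp
  exact ⟨h, by unfold fold; rw [if_pos h]⟩

/-- The pair of parabolic rigid sets; `f` may be a twist of the tile system of `q`. -/
theorem exists_xpair_par {q q' : RQ} {S S' : TS} (hS : IsTS q S) (hS' : IsTS q' S') {ρ ρ' : ℝ}
    (D : PD q ρ) (D' : PD q' ρ') {T : TS} {A : XS T} {B : XS S'}
    (hT : ∀ z ∈ A.X, T.F z = S.F z) (hA : A.X = mm q.v '' (closedBall (ρ : ℂ) ρ ∩ HH))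
    (hAo : A.Xo = mm q.v '' (ball (ρ : ℂ) ρ ∩ HH))
    (hB : B.X = mm q'.v '' (closedBall (ρ' : ℂ) ρ' ∩ HH))
    (hBo : B.Xo = mm q'.v '' (ball (ρ' : ℂ) ρ' ∩ HH)) :
    ∃ x : XPairP A B, x.a = ang q.v 0 ∧ x.b = ang q.v (2 * ρ) ∧ x.a' = ang q'.v 0 ∧
      x.b' = ang q'.v (2 * ρ') := by
  obtain ⟨Ψ, hc, hi, him, himo, hreal, h0, hv, h2, hfe⟩ := crescent D D'
  have v0 : 0 < q.v.im := q.hv
  have v0' : 0 < q'.v.im := q'.hv
  have hmap : MapsTo Ψ (closedBall (ρ : ℂ) ρ ∩ HH) (closedBall (ρ' : ℂ) ρ' ∩ HH) := by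
    intro z hz; rw [← him]; exact mem_image_of_mem _ hz
  -- the map on a point of the form `mm z`
  have hP : ∀ z ∈ HH, mm q'.v (Ψ (mi q.v (mm q.v z))) = mm q'.v (Ψ z) := by
    intro z hz; rw [mi_mm v0 hz]
  have hA1 : ∀ z ∈ A.X, mi q.v z ∈ closedBall (ρ : ℂ) ρ ∩ HH ∧ mm q.v (mi q.v z) = z := by
    intro z hz
    rw [hA] at hz
    obtain ⟨z0, hz0, rfl⟩ := hz
    rw [mi_mm v0 hz0.2]
    exact ⟨hz0, rfl⟩
  have hAD : A.X ⊆ DD \ {1} := by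
    intro z hz
    refine ⟨A.subX hz, ?_⟩
    rintro h
    exact A.one_nmem (by rw [mem_singleton_iff] at h; rwa [← h])
  have hmi : ContinuousOn (mi q.v) A.X := (mi_cont v0).mono hAD
  -- real points
  have hre : ∀ x : ℝ, x ∈ Icc 0 (2 * ρ) → ∃ y : ℝ, y ∈ Icc 0 (2 * ρ') ∧ Ψ x = (y : ℂ) := by
    intro x hx
    have hxm : (x : ℂ) ∈ closedBall (ρ : ℂ) ρ ∩ HH :=
      ⟨y8_ofReal_mem_closedBall.2 hx, y8_real_mem_HH x⟩
    have h3 := (hreal _ hxm).2 (by simp)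
    have h4 : Ψ x = (((Ψ x).re : ℝ) : ℂ) := by
      apply Complex.ext <;> simp [h3]
    refine ⟨(Ψ x).re, ?_, h4⟩
    have h5 := (hmap hxm).1
    rw [h4] at h5
    exact y8_ofReal_mem_closedBall.1 h5
  have harcA : ∀ θ ∈ Icc (ang q.v 0) (ang q.v (2 * ρ)),
      ∃ x : ℝ, x ∈ Icc 0 (2 * ρ) ∧ θ = ang q.v x := by
    rintro θ ⟨h1, h2⟩
    have hθ' : θ ∈ Ioo 0 (2 * Real.pi) :=
      ⟨lt_of_lt_of_le (ang_mem v0 0).1 h1, lt_of_le_of_lt h2 (ang_mem v0 _).2⟩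
    obtain ⟨x, rfl⟩ := ang_surj v0 hθ'
    have hm := ang_strictMono v0
    exact ⟨x, ⟨hm.le_iff_le.1 h1, hm.le_iff_le.1 h2⟩, rfl⟩
  have hmiang : ∀ x : ℝ, mi q.v (ec (ang q.v x)) = x := by
    intro x
    rw [← mm_real v0, mi_mm v0 (y8_real_mem_HH x)]
  refine ⟨{
    P := fun s => mm q'.v (Ψ (mi q.v s))
    ρ := fun θ => ang q'.v (Ψ (mi q.v (ec θ))).re
    a := ang q.v 0
    b := ang q.v (2 * ρ)
    a' := ang q'.v 0
    b' := ang q'.v (2 * ρ')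
    cont := ?_
    maps := ?_
    inj := ?_
    surj := ?_
    Xo_iff := ?_
    conjF := ?_
    zero := ?_
    ord := ?_
    ord' := ?_
    arc := ?_
    arco := ?_
    arc' := ?_
    arco' := ?_
    ρcont := ?_
    ρmem := ?_
    ρa := ?_
    ρb := ?_
    circ := ?_ }, rfl, rfl, rfl, rfl⟩
  · refine (mm_cont v0').comp (hc.comp hmi fun z hz => (hA1 z hz).1) ?_
    intro z hz
    exact (hmap (hA1 z hz).1).2
  · intro z hz
    rw [hB]
    exact mem_image_of_mem _ (hmap (hA1 z hz).1)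
  · intro z hz z' hz' h
    have h3 := mm_inj v0' (hmap (hA1 z hz).1).2 (hmap (hA1 z' hz').1).2 h
    have h4 := hi (hA1 z hz).1 (hA1 z' hz').1 h3
    rw [← (hA1 z hz).2, ← (hA1 z' hz').2, h4]
  · intro y hy
    rw [hB] at hy
    obtain ⟨y0, hy0, rfl⟩ := hy
    rw [← him] at hy0
    obtain ⟨z, hz, rfl⟩ := hy0
    exact ⟨mm q.v z, by rw [hA]; exact mem_image_of_mem _ hz, hP z hz.2⟩
  · intro z hz
    obtain ⟨hm, he⟩ := hA1 z hz
    rw [hBo, hAo]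
    constructor
    · rintro ⟨y, hy, hy'⟩
      have h3 := mm_inj v0' hy.2 (hmap hm).2 hy'
      rw [← himo] at hy
      obtain ⟨w, hw, hw'⟩ := hy
      have h4 : w = mi q.v z := hi ⟨ball_subset_closedBall hw.1, hw.2⟩ hm (by rw [hw', h3])
      exact ⟨w, hw, by rw [h4, he]⟩
    · rintro ⟨w, hw, hw'⟩
      have h4 : mi q.v z = w := by rw [← hw', mi_mm v0 hw.2]
      refine ⟨Ψ w, ?_, by simp only [h4]⟩
      rw [← himo]; exact mem_image_of_mem _ hw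
  · intro z hz
    obtain ⟨hm, he⟩ := hA1 z hz
    have h3 : T.F z = mm q.v (q.h.eval (mi q.v z)) := by
      rw [hT z hz]
      conv_lhs => rw [← he]
      rw [hS.F_eq _ hm.2, (y8_fold D hm).2]
    have h4 : S'.F (mm q'.v (Ψ (mi q.v z))) = mm q'.v (q'.h.eval (Ψ (mi q.v z))) := by
      rw [hS'.F_eq _ (hmap hm).2, (y8_fold D' (hmap hm)).2]
    rw [h3, h4, mi_mm v0 (y8_fold D hm).1, hfe _ hm]
  · have h3 : mi q.v 0 = q.v := by simp [mi]
    simp only [h3, hv]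
    exact mm_self v0'
  · exact ⟨(ang_mem v0 0).1, ang_strictMono v0 (by have := D.hρ; linarith), (ang_mem v0 _).2⟩
  · exact ⟨(ang_mem v0' 0).1, ang_strictMono v0' (by have := D'.hρ; linarith),
      (ang_mem v0' _).2⟩
  · intro θ hθ; rw [hA]; exact y8_arc_closed v0 hθ
  · intro θ hθ; rw [hAo]; exact y8_arc_open v0 hθ
  · intro θ hθ; rw [hB]; exact y8_arc_closed v0' hθ
  · intro θ hθ; rw [hBo]; exact y8_arc_open v0' hθ
  · have h3 : MapsTo ec (Icc (ang q.v 0) (ang q.v (2 * ρ))) A.X := by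
      intro θ hθ
      obtain ⟨x, hx, rfl⟩ := harcA θ hθ
      rw [hA, ← mm_real v0]
      exact ⟨x, ⟨y8_ofReal_mem_closedBall.2 hx, y8_real_mem_HH x⟩, rfl⟩
    refine (ang_cont v0').comp_continuousOn (continuous_re.comp_continuousOn ?_)
    exact (hc.comp hmi fun z hz => (hA1 z hz).1).comp continuous_ec.continuousOn h3
  · intro θ hθ
    obtain ⟨x, hx, rfl⟩ := harcA θ hθ
    obtain ⟨y, hy, hxy⟩ := hre x hx
    rw [hmiang, hxy, ofReal_re]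
    have hm := ang_strictMono v0'
    exact ⟨hm.monotone hy.1, hm.monotone hy.2⟩
  · rw [hmiang, ofReal_zero, h0, zero_re]
  · rw [hmiang, h2, ofReal_re]
  · intro θ hθ
    obtain ⟨x, hx, rfl⟩ := harcA θ hθ
    obtain ⟨y, hy, hxy⟩ := hre x hx
    rw [hmiang, hxy, ofReal_re, mm_real v0']

end

end Pool.TU
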