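import Pool.Agent.Helper71.TU.X3
import Pool.Agent.Helper71.TU.A10

/-! # TU Y9: engine data, parabolic case -/

open Complex Set Filter Topology Metric Polynomial ComplexConjugate Pool.Tuning

namespace Pool.TU

noncomputable section

namespace Y9aux

/-- linear piece -/
theorem piece {p q v w : ℝ} (hpq : p < q) (hvw : v ≤ w) :
    ∃ ρ : ℝ → ℝ, ContinuousOn ρ (Icc p q) ∧ ρ p = v ∧ ρ q = w ∧
      ∀ θ ∈ Icc p q, ρ θ ∈ Icc v w := by
  have h0 : 0 < q - p := sub_pos.2 hpq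
  refine ⟨fun θ => v + (θ - p) / (q - p) * (w - v), ?_, ?_, ?_, ?_⟩
  · fun_prop
  · simp
  · simp only
    rw [div_self h0.ne']
    ring
  · intro θ hθ
    have h1 : 0 ≤ (θ - p) / (q - p) := div_nonneg (sub_nonneg.2 hθ.1) h0.le
    have h2 : (θ - p) / (q - p) ≤ 1 := (div_le_one h0).2 (by linarith [hθ.2])
    have h3 : 0 ≤ w - v := sub_nonneg.2 hvw
    constructor
    · show v ≤ v + (θ - p) / (q - p) * (w - v)
      have := mul_nonneg h1 h3
      linarith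
    · show v + (θ - p) / (q - p) * (w - v) ≤ w
      have := mul_le_mul_of_nonneg_right h2 h3
      linarith

/-- gluing -/
theorem paste {p q r : ℝ} (hpq : p ≤ q) (hqr : q ≤ r) {f g : ℝ → ℝ}
    (hf : ContinuousOn f (Icc p q)) (hg : ContinuousOn g (Icc q r)) (h : f q = g q) :
    ∃ ρ : ℝ → ℝ, ContinuousOn ρ (Icc p r) ∧ (∀ θ ∈ Icc p q, ρ θ = f θ) ∧
      (∀ θ ∈ Icc q r, ρ θ = g θ) := by
  classical
  have h1 : ∀ θ ∈ Icc p q, (if θ ≤ q then f θ else g θ) = f θ := fun θ hθ => if_pos hθ.2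
  have h2 : ∀ θ ∈ Icc q r, (if θ ≤ q then f θ else g θ) = g θ := by
    intro θ hθ
    by_cases h3 : θ ≤ q
    · have h4 : θ = q := le_antisymm h3 hθ.1
      rw [if_pos h3, h4, h]
    · exact if_neg h3
  refine ⟨fun θ => if θ ≤ q then f θ else g θ, ?_, h1, h2⟩
  rw [← Icc_union_Icc_eq_Icc hpq hqr]
  exact (hf.congr h1).union_of_isClosed (hg.congr h2) isClosed_Icc isClosed_Icc

/-- the map on the circle -/
theorem circle_lift {r0 r1 r2 r3 r4 r5 r6 r7 v1 v2 v3 v4 v5 v6 : ℝ}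
    (h1 : r0 ≤ r1) (h2 : r1 < r2) (h3 : r2 < r3) (h4 : r3 < r4) (h5 : r4 ≤ r5) (h6 : r5 < r6)
    (h7 : r6 ≤ r7) (k2 : v1 ≤ v2) (k3 : v2 ≤ v3) (k4 : v3 ≤ v4) (k6 : v5 ≤ v6)
    {f g e : ℝ → ℝ} (hf : ContinuousOn f (Icc r0 r1)) (hg : ContinuousOn g (Icc r4 r5))
    (he : ContinuousOn e (Icc r6 r7)) (f1 : f r1 = v1) (g1 : g r4 = v4) (g2 : g r5 = v5)
    (e1 : e r6 = v6) :
    ∃ ρ : ℝ → ℝ, ContinuousOn ρ (Icc r0 r7) ∧ (∀ θ ∈ Icc r0 r1, ρ θ = f θ) ∧
      (∀ θ ∈ Icc r1 r2, ρ θ ∈ Icc v1 v2) ∧ (∀ θ ∈ Icc r2 r3, ρ θ ∈ Icc v2 v3) ∧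
      (∀ θ ∈ Icc r3 r4, ρ θ ∈ Icc v3 v4) ∧ (∀ θ ∈ Icc r4 r5, ρ θ = g θ) ∧
      (∀ θ ∈ Icc r5 r6, ρ θ ∈ Icc v5 v6) ∧ (∀ θ ∈ Icc r6 r7, ρ θ = e θ) := by
  obtain ⟨p2, c2, a2, b2, m2⟩ := piece h2 k2
  obtain ⟨p3, c3, a3, b3, m3⟩ := piece h3 k3
  obtain ⟨p4, c4, a4, b4, m4⟩ := piece h4 k4
  obtain ⟨p6, c6, a6, b6, m6⟩ := piece h6 k6
  obtain ⟨q2, C2, L2, R2⟩ := paste h1 h2.le hf c2 (f1.trans a2.symm)
  have q2r : q2 r2 = v2 := by rw [R2 r2 ⟨h2.le, le_rfl⟩, b2]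
  obtain ⟨q3, C3, L3, R3⟩ := paste (h1.trans h2.le) h3.le C2 c3 (q2r.trans a3.symm)
  have q3r : q3 r3 = v3 := by rw [R3 r3 ⟨h3.le, le_rfl⟩, b3]
  obtain ⟨q4, C4, L4, R4⟩ := paste (h1.trans (h2.le.trans h3.le)) h4.le C3 c4
    (q3r.trans a4.symm)
  have q4r : q4 r4 = v4 := by rw [R4 r4 ⟨h4.le, le_rfl⟩, b4]
  obtain ⟨q5, C5, L5, R5⟩ := paste (h1.trans (h2.le.trans (h3.le.trans h4.le))) h5 C4 hg
    (q4r.trans g1.symm)
  have q5r : q5 r5 = v5 := by rw [R5 r5 ⟨h5, le_rfl⟩, g2]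
  obtain ⟨q6, C6, L6, R6⟩ := paste (h1.trans (h2.le.trans (h3.le.trans (h4.le.trans h5))))
    h6.le C5 c6 (q5r.trans a6.symm)
  have q6r : q6 r6 = v6 := by rw [R6 r6 ⟨h6.le, le_rfl⟩, b6]
  obtain ⟨q7, C7, L7, R7⟩ := paste
    (h1.trans (h2.le.trans (h3.le.trans (h4.le.trans (h5.trans h6.le))))) h7 C6 he
    (q6r.trans e1.symm)
  refine ⟨q7, C7, ?_, ?_, ?_, ?_, ?_, ?_, R7⟩
  · intro θ hθ
    have := hθ.1
    have := hθ.2
    rw [L7 θ ⟨by linarith, by linarith⟩, L6 θ ⟨by linarith, by linarith⟩,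
      L5 θ ⟨by linarith, by linarith⟩, L4 θ ⟨by linarith, by linarith⟩,
      L3 θ ⟨by linarith, by linarith⟩, L2 θ ⟨by linarith, by linarith⟩]
  · intro θ hθ
    have := hθ.1
    have := hθ.2
    rw [L7 θ ⟨by linarith, by linarith⟩, L6 θ ⟨by linarith, by linarith⟩,
      L5 θ ⟨by linarith, by linarith⟩, L4 θ ⟨by linarith, by linarith⟩,
      L3 θ ⟨by linarith, by linarith⟩, R2 θ ⟨by linarith, by linarith⟩]
    exact m2 θ hθ
  · intro θ hθ
    have := hθ.1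
    have := hθ.2
    rw [L7 θ ⟨by linarith, by linarith⟩, L6 θ ⟨by linarith, by linarith⟩,
      L5 θ ⟨by linarith, by linarith⟩, L4 θ ⟨by linarith, by linarith⟩,
      R3 θ ⟨by linarith, by linarith⟩]
    exact m3 θ hθ
  · intro θ hθ
    have := hθ.1
    have := hθ.2
    rw [L7 θ ⟨by linarith, by linarith⟩, L6 θ ⟨by linarith, by linarith⟩,
      L5 θ ⟨by linarith, by linarith⟩, R4 θ ⟨by linarith, by linarith⟩]
    exact m4 θ hθ
  · intro θ hθ
    have := hθ.1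
    have := hθ.2
    rw [L7 θ ⟨by linarith, by linarith⟩, L6 θ ⟨by linarith, by linarith⟩,
      R5 θ ⟨by linarith, by linarith⟩]
  · intro θ hθ
    have := hθ.1
    have := hθ.2
    rw [L7 θ ⟨by linarith, by linarith⟩, R6 θ ⟨by linarith, by linarith⟩]
    exact m6 θ hθ

/-- continuity through a quotient map of a compact set -/
theorem contOn_image {K : Set ℝ} (hK : IsCompact K) {e : ℝ → ℂ} {G : ℂ → ℂ}
    (he : ContinuousOn e K) (hG : ContinuousOn (fun x => G (e x)) K) :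
    ContinuousOn G (e '' K) := by
  rw [continuousOn_iff_isClosed]
  intro t ht
  refine ⟨e '' (K ∩ (fun x => G (e x)) ⁻¹' t), ?_, ?_⟩
  · have h1 : IsClosed (K ∩ (fun x => G (e x)) ⁻¹' t) :=
      hG.preimage_isClosed_of_isClosed hK.isClosed ht
    exact ((hK.of_isClosed_subset h1 inter_subset_left).image_of_continuousOn
      (he.mono inter_subset_left)).isClosed
  · ext y
    constructor
    · rintro ⟨h1, x, hx, rfl⟩
      exact ⟨⟨x, ⟨hx, h1⟩, rfl⟩, mem_image_of_mem _ hx⟩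
    · rintro ⟨⟨x, ⟨hx, h1⟩, rfl⟩, h2⟩
      exact ⟨h1, h2⟩

/-- the circle map -/
theorem exists_circ {ρ : ℝ → ℝ} (hc : ContinuousOn ρ (Icc 0 (2 * Real.pi))) (h0 : ρ 0 = 0)
    (h1 : ρ (2 * Real.pi) = 2 * Real.pi) : ∃ q : ℂ → ℂ, ContinuousOn q (sphere 0 1) ∧
      ∀ θ ∈ Icc 0 (2 * Real.pi), q (ec θ) = ec (ρ θ) := by
  classical
  have hpi := Real.pi_pos
  have hx : ∀ z : ℂ, ∃ θ : ℝ, ‖z‖ = 1 → θ ∈ Ico 0 (2 * Real.pi) ∧ z = ec θ := by
    intro z
    by_cases h : ‖z‖ = 1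
    · obtain ⟨θ, h2, h3⟩ := exists_ec h
      exact ⟨θ, fun _ => ⟨h2, h3⟩⟩
    · exact ⟨0, fun h' => absurd h' h⟩
  choose t ht using hx
  have hq : ∀ θ ∈ Icc 0 (2 * Real.pi), ec (ρ (t (ec θ))) = ec (ρ θ) := by
    intro θ hθ
    obtain ⟨h2, h3⟩ := ht (ec θ) (norm_ec θ)
    rcases eq_or_lt_of_le hθ.2 with h4 | h4
    · have h5 : ec (t (ec θ)) = 1 := by rw [← h3, h4, ec_two_pi]
      rcases ec_eq_one ⟨h2.1, h2.2.le⟩ h5 with h6 | h6
      · rw [h6, h0, h4, h1, ec_two_pi]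
        unfold ec
        simp
      · exact absurd h6 h2.2.ne
    · rw [ec_inj' h2 ⟨hθ.1, h4⟩ h3.symm]
  refine ⟨fun z => ec (ρ (t z)), ?_, hq⟩
  have h2 : sphere (0 : ℂ) 1 = ec '' Icc 0 (2 * Real.pi) := by
    ext z
    rw [mem_sphere_zero_iff_norm]
    constructor
    · intro h
      obtain ⟨θ, h2, h3⟩ := exists_ec h
      exact ⟨θ, ⟨h2.1, h2.2.le⟩, h3.symm⟩
    · rintro ⟨θ, -, rfl⟩
      exact norm_ec θ
  rw [h2]
  apply contOn_image isCompact_Icc continuous_ec.continuousOn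
  exact (continuous_ec.comp_continuousOn hc).congr hq

/-- extension to the disc of a map defined on a closed set -/
theorem exists_ext {C : Set ℂ} (hC : IsClosed C) {p : ℂ → ℂ} (hp : ContinuousOn p C)
    (hm : MapsTo p C DD) : ∃ P : ℂ → ℂ, Continuous P ∧ (∀ z, P z ∈ DD) ∧
      ∀ z ∈ C, P z = p z := by
  obtain ⟨G, hG⟩ := ContinuousMap.exists_restrict_eq hC
    (⟨fun z : C => p z, hp.comp_continuous continuous_subtype_val (fun z => z.2)⟩ : C(C, ℂ))
  have hG' : ∀ z ∈ C, G z = p z := by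
    intro z hz
    exact DFunLike.congr_fun hG ⟨z, hz⟩
  have hpos : ∀ w : ℂ, 0 < max 1 ‖w‖ := fun w => lt_of_lt_of_le one_pos (le_max_left _ _)
  refine ⟨fun z => G z / ((max 1 ‖G z‖ : ℝ) : ℂ), ?_, ?_, ?_⟩
  · refine G.continuous.div ?_ ?_
    · exact continuous_ofReal.comp (continuous_const.max G.continuous.norm)
    · intro z h
      exact (hpos (G z)).ne' (by exact_mod_cast h)
  · intro z
    unfold DD
    rw [mem_closedBall_zero_iff, norm_div, norm_real, Real.norm_of_nonneg (hpos _).le,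
      div_le_one (hpos _)]
    exact le_max_right _ _
  · intro z hz
    have h1 : ‖p z‖ ≤ 1 := by
      have := hm hz
      unfold DD at this
      rwa [mem_closedBall_zero_iff] at this
    simp only
    rw [hG' z hz, max_eq_left h1]
    simp

/-- three points off any line -/
theorem off_line {δ : ℝ} (hδ : 0 < δ) {d p : ℂ} (hd : d ≠ 0) :
    ∃ m : ℂ, (‖m‖ ≤ δ ∧ 0 ≤ m.im) ∧ d.re * (m - p).im - d.im * (m - p).re ≠ 0 := by
  by_contra hcon
  push Not at hcon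
  have h1 := hcon (δ : ℂ) ⟨by rw [norm_real, Real.norm_of_nonneg hδ.le], by simp⟩
  have h2 := hcon (-(δ : ℂ)) ⟨by rw [norm_neg, norm_real, Real.norm_of_nonneg hδ.le], by simp⟩
  have h3 := hcon ((δ : ℂ) * I) ⟨by rw [norm_mul, norm_real, norm_I, Real.norm_of_nonneg hδ.le,
    mul_one], by simpa using hδ.le⟩
  simp only [sub_im, sub_re, ofReal_im, ofReal_re, neg_im, neg_re, mul_im, mul_re, I_re, I_im,
    mul_zero, mul_one, sub_zero, add_zero] at h1 h2 h3
  have h4 : d.im * δ = 0 := by linarith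
  have h5 : d.im = 0 := by
    rcases mul_eq_zero.1 h4 with h | h
    · exact h
    · exact absurd h hδ.ne'
  have h6 : d.re * δ = 0 := by
    rw [h5] at h1 h3
    linarith
  have h7 : d.re = 0 := by
    rcases mul_eq_zero.1 h6 with h | h
    · exact h
    · exact absurd h hδ.ne'
  exact hd (Complex.ext h7 h5)

theorem convex_hd (δ : ℝ) : Convex ℝ {t : ℂ | ‖t‖ ≤ δ ∧ 0 ≤ t.im} := by
  have h1 : Convex ℝ (closedBall (0 : ℂ) δ) := convex_closedBall 0 δ
  have h2 : Convex ℝ {t : ℂ | 0 ≤ t.im} := convex_halfSpace_im_ge 0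
  have h3 : {t : ℂ | ‖t‖ ≤ δ ∧ 0 ≤ t.im} = closedBall (0 : ℂ) δ ∩ {t : ℂ | 0 ≤ t.im} := by
    ext t
    simp
  rw [h3]
  exact h1.inter h2

/-- the half disc minus a point is connected -/
theorem conn_hd {δ : ℝ} (hδ : 0 < δ) (t0 : ℂ) :
    IsPreconnected ({t : ℂ | ‖t‖ ≤ δ ∧ 0 ≤ t.im} \ {t0}) := by
  set C : Set ℂ := {t : ℂ | ‖t‖ ≤ δ ∧ 0 ≤ t.im} with hC
  have hconv : Convex ℝ C := convex_hd δ
  have hseg : ∀ a b : ℂ, IsPreconnected (segment ℝ a b) := fun a b =>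
    (convex_segment a b).isPreconnected
  refine isPreconnected_of_forall_pair fun p hp q hq => ?_
  by_cases h0 : t0 ∈ segment ℝ p q
  · have hpq : q - p ≠ 0 := by
      intro h
      have h1 : q = p := sub_eq_zero.1 h
      rw [h1, segment_same] at h0
      exact hp.2 h0.symm
    obtain ⟨m, hm, hm2⟩ := off_line (p := p) hδ hpq
    rw [segment_eq_image'] at h0
    obtain ⟨r, -, hr⟩ := h0
    simp only at hr
    have key1 : t0 ∉ segment ℝ p m := by
      rw [segment_eq_image']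
      rintro ⟨s, -, hs⟩
      simp only at hs
      have e1 : (t0 - p) = (r : ℂ) * (q - p) := by
        rw [← hr, Complex.real_smul]; ring
      have e2 : (t0 - p) = (s : ℂ) * (m - p) := by
        rw [← hs, Complex.real_smul]; ring
      have e3 : (q - p).re * (t0 - p).im - (q - p).im * (t0 - p).re = 0 := by
        rw [e1]
        simp only [mul_im, mul_re, ofReal_re, ofReal_im, zero_mul, add_zero, sub_zero]
        ring
      rw [e2] at e3
      simp only [mul_im, mul_re, ofReal_re, ofReal_im, zero_mul, add_zero, sub_zero] at e3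
      have e4 : s * ((q - p).re * (m - p).im - (q - p).im * (m - p).re) = 0 := by
        linear_combination e3
      rcases mul_eq_zero.1 e4 with h | h
      · rw [h] at e2
        apply hp.2
        rw [mem_singleton_iff]
        have : t0 - p = 0 := by rw [e2]; simp
        exact (sub_eq_zero.1 this).symm
      · exact hm2 h
    have key2 : t0 ∉ segment ℝ q m := by
      rw [segment_eq_image']
      rintro ⟨s, -, hs⟩
      simp only at hs
      have e1 : (t0 - q) = ((r - 1 : ℝ) : ℂ) * (q - p) := by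
        rw [← hr, Complex.real_smul]; push_cast; ring
      have e2 : (t0 - q) = (s : ℂ) * (m - q) := by
        rw [← hs, Complex.real_smul]; ring
      have e3 : (q - p).re * (t0 - q).im - (q - p).im * (t0 - q).re = 0 := by
        rw [e1]
        simp only [mul_im, mul_re, ofReal_re, ofReal_im, zero_mul, add_zero, sub_zero]
        ring
      rw [e2] at e3
      simp only [mul_im, mul_re, ofReal_re, ofReal_im, zero_mul, add_zero, sub_zero] at e3
      have e4 : s * ((q - p).re * (m - p).im - (q - p).im * (m - p).re) = 0 := by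
        simp only [sub_re, sub_im] at e3 ⊢
        linear_combination e3
      rcases mul_eq_zero.1 e4 with h | h
      · rw [h] at e2
        apply hq.2
        rw [mem_singleton_iff]
        have : t0 - q = 0 := by rw [e2]; simp
        exact (sub_eq_zero.1 this).symm
      · exact hm2 h
    refine ⟨segment ℝ p m ∪ segment ℝ q m, ?_, Or.inl (left_mem_segment ℝ p m),
      Or.inr (left_mem_segment ℝ q m), ?_⟩
    · refine union_subset ?_ ?_
      · intro y hy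
        refine ⟨hconv.segment_subset hp.1 hm hy, ?_⟩
        rintro rfl
        exact key1 hy
      · intro y hy
        refine ⟨hconv.segment_subset hq.1 hm hy, ?_⟩
        rintro rfl
        exact key2 hy
    · exact IsPreconnected.union m (right_mem_segment ℝ p m) (right_mem_segment ℝ q m)
        (hseg _ _) (hseg _ _)
  · refine ⟨segment ℝ p q, ?_, left_mem_segment ℝ p q, right_mem_segment ℝ p q, hseg _ _⟩
    intro y hy
    refine ⟨hconv.segment_subset hp.1 hq.1 hy, ?_⟩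
    rintro rfl
    exact h0 hy

theorem HC.conn {C Co : Set ℂ} {δ : ℝ} {τ : ℂ → ℂ} (h : HC C Co δ τ) : IsPreconnected C := by
  rw [← h.img]
  exact (convex_hd δ).isPreconnected.image _ h.cont

theorem HC.conn' {C Co : Set ℂ} {δ : ℝ} {τ : ℂ → ℂ} (h : HC C Co δ τ) {z0 : ℂ} (hz : z0 ∈ C) :
    IsPreconnected (C \ {z0}) := by
  rw [← h.img] at hz
  obtain ⟨t0, ht0, rfl⟩ := hz
  have h1 : C \ {τ t0} = τ '' ({t : ℂ | ‖t‖ ≤ δ ∧ 0 ≤ t.im} \ {t0}) := by
    rw [← h.img]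
    ext y
    constructor
    · rintro ⟨⟨t, ht, rfl⟩, h2⟩
      refine ⟨t, ⟨ht, ?_⟩, rfl⟩
      rintro rfl
      exact h2 rfl
    · rintro ⟨t, ⟨ht, h2⟩, rfl⟩
      refine ⟨⟨t, ht, rfl⟩, ?_⟩
      intro h3
      exact h2 (h.inj ht ht0 h3)
  rw [h1]
  exact (conn_hd h.pos t0).image _ (h.cont.mono sdiff_subset)

/-- periodic functions descend to the punctured disc -/
theorem descend {Q : ℂ → ℂ} (hQ : ContinuousOn Q UU) (hp : ∀ u ∈ UU, Q (u + tpi) = Q u) :
    ContinuousOn (fun z => Q (log z)) (DD \ {0}) ∧ ∀ u ∈ UU, Q (log (exp u)) = Q u := by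
  have hk : ∀ (k : ℤ), ∀ u ∈ UU, Q (u + k * tpi) = Q u := by
    intro k
    induction k using Int.induction_on with
    | zero => intro u _; simp
    | succ k ih =>
      intro u hu
      have h1 := hp _ (L3aux.add_int_mem hu k)
      rw [ih u hu] at h1
      rw [← h1]
      congr 1
      push_cast
      ring
    | pred k ih =>
      intro u hu
      have h1 := hp _ (L3aux.add_int_mem hu (-(k : ℤ) - 1))
      rw [← h1, ← ih u hu]
      congr 1
      push_cast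
      ring
  have he : ∀ u ∈ UU, ∀ v, exp v = exp u → Q v = Q u := by
    intro u hu v hv
    obtain ⟨k, hk'⟩ := Complex.exp_eq_exp_iff_exists_int.1 hv
    rw [hk']
    have := hk k u hu
    unfold tpi at this
    exact this
  have hlog : ∀ z ∈ DD \ {(0 : ℂ)}, log z ∈ UU := by
    intro z hz
    show (log z).re ≤ 0
    rw [log_re]
    apply Real.log_nonpos (norm_nonneg _)
    have := hz.1
    unfold DD at this
    rwa [mem_closedBall_zero_iff] at this
  have hlog' : ∀ z ∈ DD \ {(0 : ℂ)}, log (-z) + Real.pi * I ∈ UU := by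
    intro z hz
    have h1 : -z ∈ DD \ {(0 : ℂ)} := by
      refine ⟨?_, ?_⟩
      · have := hz.1
        unfold DD at this ⊢
        rwa [mem_closedBall_zero_iff, norm_neg, ← mem_closedBall_zero_iff]
      · intro h
        exact hz.2 (by simpa using h)
    have h2 : (log (-z)).re ≤ 0 := hlog _ h1
    show (log (-z) + Real.pi * I).re ≤ 0
    simpa using h2
  refine ⟨?_, fun u hu => he u hu _ (exp_log (exp_ne_zero u))⟩
  intro z hz
  have hz0 : z ≠ 0 := hz.2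
  by_cases hs : z ∈ slitPlane
  · have h1 : ContinuousWithinAt Complex.log (DD \ {0}) z :=
      (continuousAt_clog hs).continuousWithinAt
    exact (hQ _ (hlog z hz)).comp h1 hlog
  · have hs' : -z ∈ slitPlane := by
      rw [mem_slitPlane_iff] at hs ⊢
      push Not at hs
      left
      rw [neg_re]
      rcases lt_or_eq_of_le hs.1 with h | h
      · linarith
      · exact absurd (Complex.ext h hs.2) hz0
    have h1 : ContinuousWithinAt (fun w => Complex.log (-w) + Real.pi * I) (DD \ {0}) z := by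
      refine ContinuousWithinAt.add ?_ continuousWithinAt_const
      exact ((continuousAt_clog hs').comp continuousAt_neg).continuousWithinAt
    have h2 : ∀ w ∈ DD \ {(0 : ℂ)}, Q (log w) = Q (log (-w) + Real.pi * I) := by
      intro w hw
      apply he _ (hlog' w hw)
      have hw0 : w ≠ 0 := hw.2
      rw [exp_log hw0, exp_add, exp_log (neg_ne_zero.2 hw0), exp_pi_mul_I]
      ring
    refine ContinuousWithinAt.congr (f := fun w => Q (log (-w) + Real.pi * I)) ?_ h2 (h2 z hz)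
    exact ContinuousWithinAt.comp (f := fun w => Complex.log (-w) + Real.pi * I)
      (hQ _ (hlog' z hz)) h1 hlog'


theorem ec_zero : ec 0 = 1 := by
  unfold ec
  simp

/-- the extension -/
theorem extend_par {f g : TS} {A : XS f} {B : XS g} (x : XPairP A B)
    (hc' : ∃ τ δ, HC B.X B.Xo δ τ)
    {M : NS f} {N : NS g} (n : NPair f g M N) (hM : Disjoint M.N A.X)
    (hN : Disjoint N.N B.X) {ρ : ℝ → ℝ} (hρ : ContinuousOn ρ (Icc 0 (2 * Real.pi)))
    (r0 : ρ 0 = 0) (r6 : ρ (2 * Real.pi) = 2 * Real.pi)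
    (hρm : ∀ θ ∈ Icc 0 (2 * Real.pi), ρ θ ∈ Icc 0 (2 * Real.pi))
    (r1 : ∀ θ ∈ Icc 0 n.s1, ρ θ = n.ρ θ) (r2 : ∀ θ ∈ Icc n.s1 x.a, ρ θ ∈ Icc n.s1' x.a')
    (r3 : ∀ θ ∈ Icc x.a x.b, ρ θ = x.ρ θ) (r4 : ∀ θ ∈ Icc x.b n.s2, ρ θ ∈ Icc x.b' n.s2')
    (r5 : ∀ θ ∈ Icc n.s2 (2 * Real.pi), ρ θ = n.ρ θ) (w1 : n.s1' ≤ x.b') (w2 : x.a' ≤ n.s2') :
    ∃ P : ℂ → ℂ, ContinuousOn P DD ∧ MapsTo P DD DD ∧ (∀ z ∈ A.X, P z = x.P z) ∧
      (∀ z ∈ M.N, P z = n.P z) ∧ (∀ z ∈ DD, P z = 0 ↔ z = 0) ∧ (∀ z ∈ DD, P z = 1 ↔ z = 1) ∧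
      (∀ θ ∈ Icc 0 (2 * Real.pi), P (ec θ) = ec (ρ θ)) ∧
      (∀ z ∈ DD, P z ∈ B.Xo ↔ z ∈ A.Xo) ∧ (∀ z ∈ DD, P z ∈ N.No → z ∈ M.No) := by
  classical
  obtain ⟨τB, δB, hcB⟩ := hc'
  obtain ⟨δN, τN, hcN⟩ := n.chart
  obtain ⟨rB, rBc, rBm, rBi, rBo⟩ := exists_ret hcB
  obtain ⟨rN, rNc, rNm, rNi, rNo⟩ := exists_ret hcN
  obtain ⟨q, qc, hq⟩ := exists_circ hρ r0 r6
  have hMA : ∀ z ∈ M.N, z ∉ A.X := fun z h1 h2 => Set.disjoint_left.1 hM h1 h2
  have hNB : ∀ z ∈ N.N, z ∉ B.X := fun z h1 h2 => Set.disjoint_left.1 hN h1 h2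
  -- the composed retraction
  have rt_m : ∀ z ∈ DD, rN (rB z) ∈ DD ∧ rN (rB z) ∉ B.Xo ∧ rN (rB z) ∉ N.No := by
    intro z hz
    have h1 := rBm hz
    have h2 := rNm h1.1
    refine ⟨h2.1, ?_, h2.2⟩
    by_cases h3 : rB z ∈ N.No
    · have h4 := rNo _ h3
      exact fun h5 => hNB _ h4.1 (B.Xo_sub h5)
    · rw [rNi _ ⟨h1.1, h3⟩]
      exact h1.2
  have rt_i : ∀ z ∈ DD, z ∉ B.Xo → z ∉ N.No → rN (rB z) = z := by
    intro z hz h1 h2
    rw [rBi z ⟨hz, h1⟩, rNi z ⟨hz, h2⟩]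
  have rt_c : ContinuousOn (fun z => rN (rB z)) DD := rNc.comp rBc (fun z hz => (rBm hz).1)
  -- the map on the closed set
  set p : ℂ → ℂ := fun z => if z ∈ A.X then x.P z else if z ∈ M.N then n.P z else q z with hp
  have pA : ∀ z ∈ A.X, p z = x.P z := fun z hz => by simp only [hp, if_pos hz]
  have pM : ∀ z ∈ M.N, p z = n.P z := fun z hz => by
    simp only [hp, if_neg (hMA z hz), if_pos hz]
  have pS : ∀ θ ∈ Icc 0 (2 * Real.pi), p (ec θ) = ec (ρ θ) := by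
    intro θ hθ
    by_cases h1 : ec θ ∈ A.X
    · have h2 := (x.arc θ hθ).1 h1
      rw [pA _ h1, x.circ θ h2, r3 θ h2]
    · by_cases h2 : ec θ ∈ M.N
      · rw [pM _ h2, n.circ θ hθ h2]
        rcases (n.arc θ hθ).1 h2 with h3 | h3
        · rw [r1 θ ⟨hθ.1, h3⟩]
        · rw [r5 θ ⟨h3, hθ.2⟩]
      · simp only [hp, if_neg h1, if_neg h2]
        exact hq θ hθ
  have hsph : ∀ z ∈ sphere (0 : ℂ) 1, ∃ θ ∈ Icc 0 (2 * Real.pi), z = ec θ := by
    intro z hz
    rw [mem_sphere_zero_iff_norm] at hz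
    obtain ⟨θ, h2, h3⟩ := exists_ec hz
    exact ⟨θ, ⟨h2.1, h2.2.le⟩, h3⟩
  have pq : ∀ z ∈ sphere (0 : ℂ) 1, p z = q z := by
    intro z hz
    obtain ⟨θ, hθ, rfl⟩ := hsph z hz
    rw [pS θ hθ, hq θ hθ]
  have pc : ContinuousOn p (A.X ∪ M.N ∪ sphere 0 1) := by
    refine ContinuousOn.union_of_isClosed ?_ (qc.congr pq) (A.closedX.union M.closedN)
      isClosed_sphere
    exact (x.cont.congr pA).union_of_isClosed (n.cont.congr pM) A.closedX M.closedN
  have pm : MapsTo p (A.X ∪ M.N ∪ sphere 0 1) DD := by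
    rintro z ((hz | hz) | hz)
    · rw [pA z hz]
      exact B.subX (x.maps hz)
    · rw [pM z hz]
      exact N.subN (n.maps hz)
    · obtain ⟨θ, hθ, rfl⟩ := hsph z hz
      rw [pS θ hθ]
      exact A5aux.ec_mem_DD _
  obtain ⟨G, Gc, Gm, hG⟩ := exists_ext ((A.closedX.union M.closedN).union isClosed_sphere) pc pm
  -- the map
  set P : ℂ → ℂ := fun z => if z ∈ A.X then x.P z else if z ∈ M.N then n.P z else
    rN (rB (G z)) with hP
  have PA : ∀ z ∈ A.X, P z = x.P z := fun z hz => by simp only [hP, if_pos hz]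
  have PM : ∀ z ∈ M.N, P z = n.P z := fun z hz => by
    simp only [hP, if_neg (hMA z hz), if_pos hz]
  have PG0 : ∀ z, z ∉ A.X → z ∉ M.N → P z = rN (rB (G z)) := fun z h1 h2 => by
    simp only [hP, if_neg h1, if_neg h2]
  have PG : ∀ z, z ∉ A.Xo → z ∉ M.No → P z = rN (rB (G z)) := by
    intro z h1 h2
    by_cases h3 : z ∈ A.X
    · have h4 : G z = x.P z := by rw [hG z (Or.inl (Or.inl h3)), pA z h3]
      have h5 := x.maps h3
      rw [PA z h3, h4, rt_i _ (B.subX h5) (fun h => h1 ((x.Xo_iff z h3).1 h))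
        (fun h => hNB _ (N.No_sub h) h5)]
    · by_cases h4 : z ∈ M.N
      · have h5 : G z = n.P z := by rw [hG z (Or.inl (Or.inr h4)), pM z h4]
        have h6 := n.maps h4
        rw [PM z h4, h5, rt_i _ (N.subN h6) (fun h => hNB _ h6 (B.Xo_sub h))
          (fun h => h2 ((n.No_iff z h4).1 h))]
      · exact PG0 z h3 h4
  have h1M : (1 : ℂ) ∈ M.N := M.No_sub M.one_mem
  have h0A : (0 : ℂ) ∈ A.X := A.Xo_sub A.zero_mem
  have h0B : (0 : ℂ) ∈ B.X := B.Xo_sub B.zero_mem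
  refine ⟨P, ?_, ?_, PA, PM, ?_, ?_, ?_, ?_, ?_⟩
  · -- continuity
    obtain ⟨O1, hO1, hXo⟩ := A.Xo_open
    obtain ⟨O2, hO2, hNo⟩ := M.No_open
    have hDD : IsClosed DD := isClosed_closedBall
    set K : Set ℂ := DD ∩ (O1ᶜ ∩ O2ᶜ) with hK
    have hKc : IsClosed K := hDD.inter (hO1.isClosed_compl.inter hO2.isClosed_compl)
    have hKm : ∀ z ∈ K, z ∉ A.Xo ∧ z ∉ M.No := by
      rintro z ⟨-, h1, h2⟩
      rw [hXo, hNo]
      exact ⟨fun h => h1 h.1, fun h => h2 h.1⟩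
    have hcov : DD ⊆ (A.X ∪ M.N) ∪ K := by
      intro z hz
      by_cases h1 : z ∈ A.X
      · exact Or.inl (Or.inl h1)
      · by_cases h2 : z ∈ M.N
        · exact Or.inl (Or.inr h2)
        · refine Or.inr ⟨hz, fun h => h1 (A.Xo_sub ?_), fun h => h2 (M.No_sub ?_)⟩
          · rw [hXo]
            exact ⟨h, hz⟩
          · rw [hNo]
            exact ⟨h, hz⟩
    refine ContinuousOn.mono ?_ hcov
    refine ContinuousOn.union_of_isClosed ?_ ?_ (A.closedX.union M.closedN) hKc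
    · exact (x.cont.congr PA).union_of_isClosed (n.cont.congr PM) A.closedX M.closedN
    · have h1 : ContinuousOn (fun z => rN (rB (G z))) K :=
        rt_c.comp Gc.continuousOn (fun z _ => Gm z)
      exact h1.congr (fun z hz => PG z (hKm z hz).1 (hKm z hz).2)
  · -- maps
    intro z hz
    by_cases h1 : z ∈ A.X
    · rw [PA z h1]
      exact B.subX (x.maps h1)
    · by_cases h2 : z ∈ M.N
      · rw [PM z h2]
        exact N.subN (n.maps h2)
      · rw [PG0 z h1 h2]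
        exact (rt_m _ (Gm z)).1
  · -- zero
    intro z hz
    by_cases h1 : z ∈ A.X
    · rw [PA z h1]
      constructor
      · intro h2
        exact x.inj h1 h0A (by rw [h2, x.zero])
      · rintro rfl
        exact x.zero
    · have h3 : z ≠ 0 := by
        rintro rfl
        exact h1 h0A
      refine ⟨fun h4 => ?_, fun h => absurd h h3⟩
      exfalso
      by_cases h2 : z ∈ M.N
      · rw [PM z h2] at h4
        exact hNB _ (n.maps h2) (by rw [h4]; exact h0B)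
      · rw [PG0 z h1 h2] at h4
        exact (rt_m _ (Gm z)).2.1 (by rw [h4]; exact B.zero_mem)
  · -- one
    intro z hz
    by_cases h2 : z ∈ M.N
    · rw [PM z h2]
      constructor
      · intro h3
        exact n.inj h2 h1M (by rw [h3, n.one])
      · rintro rfl
        exact n.one
    · have h3 : z ≠ 1 := by
        rintro rfl
        exact h2 h1M
      refine ⟨fun h4 => ?_, fun h => absurd h h3⟩
      exfalso
      by_cases h1 : z ∈ A.X
      · rw [PA z h1] at h4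
        exact B.one_nmem (by rw [← h4]; exact x.maps h1)
      · rw [PG0 z h1 h2] at h4
        exact (rt_m _ (Gm z)).2.2 (by rw [h4]; exact N.one_mem)
  · -- circle
    intro θ hθ
    by_cases h1 : ec θ ∈ A.X
    · rw [PA _ h1, ← pA _ h1, pS θ hθ]
    · by_cases h2 : ec θ ∈ M.N
      · rw [PM _ h2, ← pM _ h2, pS θ hθ]
      · have hs : ec θ ∈ sphere (0 : ℂ) 1 := by
          rw [mem_sphere_zero_iff_norm]
          exact norm_ec θ
        have h3 : G (ec θ) = ec (ρ θ) := by rw [hG _ (Or.inr hs), pS θ hθ]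
        have h4 := hρm θ hθ
        have h5 : ¬ (θ ∈ Icc x.a x.b) := fun h => h1 ((x.arc θ hθ).2 h)
        have h6 : ¬ (θ ≤ n.s1 ∨ n.s2 ≤ θ) := fun h => h2 ((n.arc θ hθ).2 h)
        push Not at h6
        have h7 : θ < x.a ∨ x.b < θ := by
          by_contra hcon
          push Not at hcon
          exact h5 ⟨hcon.1, hcon.2⟩
        have h8 : ec (ρ θ) ∉ B.Xo ∧ ec (ρ θ) ∉ N.No := by
          rw [x.arco' _ h4, n.arco' _ h4]
          rcases h7 with h7 | h7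
          · have h9 := r2 θ ⟨h6.1.le, h7.le⟩
            refine ⟨fun h => absurd h.1 (not_lt.2 h9.2), ?_⟩
            rintro (h | h)
            · exact absurd h (not_lt.2 h9.1)
            · exact absurd h (not_lt.2 (h9.2.trans w2))
          · have h9 := r4 θ ⟨h7.le, h6.2.le⟩
            refine ⟨fun h => absurd h.2 (not_lt.2 h9.1), ?_⟩
            rintro (h | h)
            · exact absurd h (not_lt.2 (w1.trans h9.1))
            · exact absurd h (not_lt.2 h9.2)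
        rw [PG0 _ h1 h2, h3, rt_i _ (A5aux.ec_mem_DD _) h8.1 h8.2]
  · -- Xo
    intro z hz
    by_cases h1 : z ∈ A.X
    · rw [PA z h1]
      exact x.Xo_iff z h1
    · refine ⟨fun h => ?_, fun h => absurd (A.Xo_sub h) h1⟩
      exfalso
      by_cases h2 : z ∈ M.N
      · rw [PM z h2] at h
        exact hNB _ (n.maps h2) (B.Xo_sub h)
      · rw [PG0 z h1 h2] at h
        exact (rt_m _ (Gm z)).2.1 h
  · -- No
    intro z hz h
    by_cases h2 : z ∈ M.N
    · rw [PM z h2] at h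
      exact (n.No_iff z h2).1 h
    · exfalso
      by_cases h1 : z ∈ A.X
      · rw [PA z h1] at h
        exact hNB _ (N.No_sub h) (x.maps h1)
      · rw [PG0 z h1 h2] at h
        exact (rt_m _ (Gm z)).2.2 h


/-- the lift agrees with `P` on the rigid set -/
theorem baseX {f g : TS} {A : XS f} {B : XS g} (x : XPairP A B) (hcn : IsPreconnected A.X)
    {P H : ℂ → ℂ} {ρ : ℝ → ℝ} (hR : RMap f.κ g.κ P ρ) (hH : IsHat P H)
    (hPX : ∀ z ∈ A.X, P z = x.P z) (ha : f.ω₀ ≤ x.a) {R' : ℂ → ℂ} (hc : ContinuousOn R' DD)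
    (hL : IsLift f g P H R') : ∀ z ∈ A.X, R' z = P z := by
  have hpi := Real.pi_pos
  have hDD : IsCompact DD := isCompact_closedBall 0 1
  have hneg : ∀ w ∈ DD, -w ∈ DD := by
    intro w hw
    unfold DD at hw ⊢
    rwa [mem_closedBall_zero_iff, norm_neg, ← mem_closedBall_zero_iff]
  set D2 : Set (ℂ × ℂ) := DD ×ˢ DD with hD2
  have hD2c : IsCompact D2 := hDD.prod hDD
  have hD2cl : IsClosed D2 := hD2c.isClosed
  have c1 : ContinuousOn (fun p : ℂ × ℂ => f.Θ p.1) D2 :=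
    f.contΘ.comp continuous_fst.continuousOn (fun p hp => hp.1)
  have c2 : ContinuousOn (fun p : ℂ × ℂ => g.Θ p.2) D2 :=
    g.contΘ.comp continuous_snd.continuousOn (fun p hp => hp.2)
  have c3 : ContinuousOn (fun p : ℂ × ℂ => g.Θ (-p.2)) D2 :=
    g.contΘ.comp continuous_snd.neg.continuousOn (fun p hp => hneg _ hp.2)
  have m1 : MapsTo (fun p : ℂ × ℂ => f.Θ p.1) D2 DD := fun p hp => f.mapsΘ hp.1
  have c4 : ContinuousOn (fun p : ℂ × ℂ => (R' (f.Θ p.1), g.Θ p.2)) D2 :=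
    (hc.comp c1 m1).prodMk c2
  have c5 : ContinuousOn (fun p : ℂ × ℂ => (P (f.Θ p.1), g.Θ (-p.2))) D2 :=
    (hR.cont.comp c1 m1).prodMk c3
  have k1 := c1.preimage_isClosed_of_isClosed hD2cl A.closedX
  have k2 := c4.preimage_isClosed_of_isClosed hD2cl isClosed_diagonal
  have k3 := c5.preimage_isClosed_of_isClosed hD2cl isClosed_diagonal
  set K : Set (ℂ × ℂ) := (D2 ∩ (fun p : ℂ × ℂ => f.Θ p.1) ⁻¹' A.X) ∩
    ((D2 ∩ (fun p : ℂ × ℂ => (R' (f.Θ p.1), g.Θ p.2)) ⁻¹' diagonal ℂ) ∩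
    (D2 ∩ (fun p : ℂ × ℂ => (P (f.Θ p.1), g.Θ (-p.2))) ⁻¹' diagonal ℂ)) with hK
  have hKD : K ⊆ D2 := fun p hp => hp.1.1
  have hKc : IsCompact K := hD2c.of_isClosed_subset (k1.inter (k2.inter k3)) hKD
  set T2 : Set ℂ := (fun p : ℂ × ℂ => f.Θ p.1) '' K with hT2
  have hT2c : IsClosed T2 := (hKc.image_of_continuousOn (c1.mono hKD)).isClosed
  have hT1c : IsClosed (A.X ∩ {z | R' z = P z}) := by
    have h1 : ContinuousOn (fun z => (R' z, P z)) A.X :=
      (hc.mono A.subX).prodMk (hR.cont.mono A.subX)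
    exact h1.preimage_isClosed_of_isClosed A.closedX isClosed_diagonal
  -- properties of the points of `T2`
  have hT2p : ∀ z ∈ T2, ∃ w ∈ DD, z ∈ A.X ∧ R' z = g.Θ w ∧ P z = g.Θ (-w) := by
    rintro _ ⟨p, ⟨⟨hp, h1⟩, ⟨-, h2⟩, ⟨-, h3⟩⟩, rfl⟩
    exact ⟨p.2, hp.2, h1, h2, h3⟩
  have hPB : ∀ z ∈ A.X, P z ∈ B.X := fun z hz => by
    rw [hPX z hz]
    exact x.maps hz
  have hP1 : ∀ z ∈ A.X, P z ≠ 1 := fun z hz h => B.one_nmem (by rw [← h]; exact hPB z hz)
  -- disjointness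
  have hdis : ∀ z ∈ T2, R' z ≠ P z := by
    intro z hz h
    obtain ⟨w, hw, hzX, h1, h2⟩ := hT2p z hz
    have h3 : g.Θ w = g.Θ (-w) := by rw [← h1, ← h2, h]
    rcases g.injΘ w hw (-w) (hneg w hw) h3 with h4 | ⟨h4, h5⟩ | ⟨h4, h5⟩
    · have h6 : w = 0 := by
        have : 2 * w = 0 := by linear_combination h4
        simpa using this
      rw [h6, neg_zero] at h2
      apply B.nzF _ (hPB z hzX)
      rw [h2, g.FΘ 0 (by rw [← h6]; exact hw)]
      simp
    · exact hP1 z hzX (by rw [h2, h5, g.Θneg])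
    · exact hP1 z hzX (by rw [h2, h5, g.Θone])
  -- covering
  have hcov : A.X ⊆ (A.X ∩ {z | R' z = P z}) ∪ T2 := by
    intro z hz
    obtain ⟨s, hs, hzs, hs2⟩ := A10aux.X_tile A hz
    have hFz : f.F z = s ^ 2 := by rw [hzs, f.FΘ s hs]
    have h0 : s ≠ 0 := by
      rintro rfl
      apply A.nzF z hz
      rw [hFz]
      simp
    obtain ⟨u, hu, hu1, hu2⟩ := A10aux.exists_half_log hs h0
    have hHu := hH.maps hu
    set w : ℂ := exp (H u / 2) with hw
    have hwD : w ∈ DD := A8_exp_mem (A8_half_mem hHu)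
    have hR'z : R' z = g.Θ w := by rw [hzs, ← hu1, hL.Θ_eq u hu]
    obtain ⟨s', hs', hzs', -⟩ := A10aux.X_tile B (hPB z hz)
    have h1 : s' ^ 2 = w ^ 2 := by
      rw [← g.FΘ s' hs', ← hzs', hPX z hz, ← x.conjF z hz, hFz, ← hPX _ hs2, ← hu2,
        ← hH.exp_eq u hu, hw, A8_exp_half_sq]
    rcases sq_eq_sq_iff_eq_or_eq_neg.1 h1 with h2 | h2
    · left
      refine ⟨hz, ?_⟩
      show R' z = P z
      rw [hR'z, hzs', h2]
    · right
      have hm : (s, w) ∈ D2 := ⟨hs, hwD⟩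
      refine ⟨(s, w), ⟨⟨hm, ?_⟩, ⟨hm, ?_⟩, ⟨hm, ?_⟩⟩, hzs.symm⟩
      · show f.Θ s ∈ A.X
        rw [← hzs]
        exact hz
      · show R' (f.Θ s) = g.Θ w
        rw [← hzs]
        exact hR'z
      · show P (f.Θ s) = g.Θ (-w)
        rw [← hzs, hzs', h2]
  -- the base point
  have ha1 : x.a ∈ Icc 0 (2 * Real.pi) := ⟨x.ord.1.le, (x.ord.2.1.trans x.ord.2.2).le⟩
  have hzX : ec x.a ∈ A.X := (x.arc x.a ha1).2 ⟨le_rfl, x.ord.2.1.le⟩
  have hbase : ec x.a ∉ T2 := by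
    intro hz
    obtain ⟨w, hw, -, h1, h2⟩ := hT2p _ hz
    have n2 : ‖P (ec x.a)‖ = 1 := by rw [hR.circ _ ha1, norm_ec]
    have n1 : ‖R' (ec x.a)‖ = 1 := by
      obtain ⟨θ, hθ, hθa⟩ := rp_surj f (show x.a ∈ Icc f.ω₀ (2 * Real.pi) from ⟨ha, ha1.2⟩)
      have e1 : ec x.a = f.Θ (exp ((θ : ℂ) * I / 2)) := by
        have e2 := f.rpΘ θ hθ
        rw [hθa] at e2
        rw [← e2]
        unfold ec
        congr 2
        push_cast
        ring
      have hθ' : θ ∈ Icc 0 (2 * Real.pi) := ⟨f.κ_mem.1.le.trans hθ.1, hθ.2⟩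
      rw [e1, hL.Θ_eq _ (L3aux.ofReal_mul_I_mem θ), hat_circ hR hH θ hθ']
      have e3 : exp ((ρ θ : ℂ) * I / 2) = ec (ρ θ / 2) := by
        unfold ec
        congr 1
        push_cast
        ring
      rw [e3, g.rpΘ _ (hR.ρhi θ hθ), norm_ec]
    rw [h2] at n2
    rw [h1] at n1
    have hq1 : g.Θ (-w) ≠ 1 := by
      rw [← h2]
      exact hP1 _ hzX
    rcases g.circΘ _ (hneg w hw) n2 with h3 | ⟨θ1, hθ1, h3⟩
    · exact hq1 (by rw [h3, g.Θone])
    · rcases g.circΘ _ hw n1 with h4 | ⟨θ2, hθ2, h4⟩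
      · exact hq1 (by rw [h4, g.Θneg])
      · have hκ := g.κ_mem.1
        have e4 : ec (θ1 / 2) = ec (θ2 / 2 + Real.pi) := by
          have e5 : ec Real.pi = -1 := by
            unfold ec
            exact exp_pi_mul_I
          rw [ec_add, e5, ← h4, ← h3]
          ring
        have e6 := ec_inj (a := θ1 / 2) (b := θ2 / 2 + Real.pi)
          ⟨by linarith [hθ1.1], by linarith [hθ1.2]⟩
          ⟨by linarith [hθ2.1], by linarith [hθ2.2]⟩ e4
        linarith [hθ1.2, hθ2.1]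
  intro z hz
  by_contra hne
  have hzT : z ∈ T2 := by
    rcases hcov hz with h | h
    · exact absurd h.2 hne
    · exact h
  have hbT : ec x.a ∈ A.X ∩ {z | R' z = P z} := by
    rcases hcov hzX with h | h
    · exact h
    · exact absurd h hbase
  obtain ⟨y, hy, h1, h2⟩ := isPreconnected_closed_iff.1 hcn _ _ hT1c hT2c hcov
    ⟨ec x.a, hzX, hbT⟩ ⟨z, hz, hzT⟩
  exact hdis y h2 h1.2

end Y9aux

open Y9aux

/-- The engine data in the parabolic case. -/
theorem exists_ed_par {f g : TS} {A : XS f} {B : XS g} (x : XPairP A B)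
    (eA : A.e = 1) (eB : B.e = 1) (hc : ∃ τ δ, HC A.X A.Xo δ τ) (hc' : ∃ τ δ, HC B.X B.Xo δ τ)
    {M : NS f} {N : NS g} (n : NPair f g M N) (hM : Disjoint M.N A.X)
    (hN : Disjoint N.N B.X) {βf βg : ℝ} (hf : IsBeta f βf) (hg : IsBeta g βg)
    (o1 : n.s1 < f.κ) (o2 : βf < x.a) (o2' : x.b < n.s2) (o3 : n.s1' < g.κ) (o4 : βg ≤ x.a')
    (o4' : x.b' < n.s2') :
    ∃ (P H : ℂ → ℂ) (ρ : ℝ → ℝ), ED f g A B M N βf βg P H ρ ∧ (∀ z ∈ M.N, P z = n.P z) ∧
      (∀ z ∈ A.X, P z = x.P z) := by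
  have hpi := Real.pi_pos
  obtain ⟨τA, δA, hcA⟩ := hc
  have hcn : IsPreconnected A.X := HC.conn hcA
  have h0A : (0 : ℂ) ∈ A.X := A.Xo_sub A.zero_mem
  have hcn' : IsPreconnected (A.X \ {0}) := HC.conn' hcA h0A
  -- the map on the circle
  have q1 := hf.mem.1
  have q2 := hg.mem.1
  have q3 := x.ord
  have q4 := x.ord'
  have q5 := n.s_ord
  have q6 := n.s_ord'
  obtain ⟨ρ, ρc, R1, R2, R3, R4, R5, R6, R7⟩ := circle_lift (r0 := 0) (r1 := n.s1)
    (r2 := f.κ) (r3 := βf) (r4 := x.a) (r5 := x.b) (r6 := n.s2) (r7 := 2 * Real.pi)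
    (v1 := n.s1') (v2 := g.κ) (v3 := βg) (v4 := x.a') (v5 := x.b') (v6 := n.s2')
    q5.1.le o1 q1 o2 q3.2.1.le o2' q5.2.2.le o3.le q2.le o4 o4'.le n.ρcont1 x.ρcont n.ρcont2
    n.ρs1 x.ρa x.ρb n.ρs2
  have ρ0 : ρ 0 = 0 := by rw [R1 0 ⟨le_rfl, q5.1.le⟩, n.ρ0]
  have ρ1 : ρ (2 * Real.pi) = 2 * Real.pi := by
    rw [R7 _ ⟨q5.2.2.le, le_rfl⟩, n.ρ1]
  have hlo : ∀ θ ∈ Icc 0 f.κ, ρ θ ∈ Icc 0 g.κ := by
    intro θ hθ
    rcases le_total θ n.s1 with h | h
    · rw [R1 θ ⟨hθ.1, h⟩]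
      have := n.ρmem1 θ ⟨hθ.1, h⟩
      exact ⟨this.1, this.2.trans o3.le⟩
    · have := R2 θ ⟨h, hθ.2⟩
      exact ⟨q6.1.le.trans this.1, this.2⟩
  have htop : ∀ θ ∈ Icc βf (2 * Real.pi), ρ θ ∈ Icc βg (2 * Real.pi) := by
    intro θ hθ
    rcases le_total θ x.a with h | h
    · have := R4 θ ⟨hθ.1, h⟩
      exact ⟨this.1, by linarith [this.2, q4.2.1, q4.2.2]⟩
    · rcases le_total θ x.b with h' | h'
      · rw [R5 θ ⟨h, h'⟩]
        have := x.ρmem θ ⟨h, h'⟩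
        exact ⟨o4.trans this.1, by linarith [this.2, q4.2.2]⟩
      · rcases le_total θ n.s2 with h'' | h''
        · have := R6 θ ⟨h', h''⟩
          exact ⟨by linarith [this.1, q4.2.1], by linarith [this.2, q6.2.2]⟩
        · rw [R7 θ ⟨h'', hθ.2⟩]
          have := n.ρmem2 θ ⟨h'', hθ.2⟩
          exact ⟨by linarith [this.1, q4.2.1], this.2⟩
  have hmid : ∀ θ ∈ Icc f.κ βf, ρ θ ∈ Icc g.κ βg := R3
  have hhi : ∀ θ ∈ Icc f.κ (2 * Real.pi), ρ θ ∈ Icc g.κ (2 * Real.pi) := by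
    intro θ hθ
    rcases le_total θ βf with h | h
    · have := R3 θ ⟨hθ.1, h⟩
      exact ⟨this.1, this.2.trans hg.mem.2.le⟩
    · have := htop θ ⟨h, hθ.2⟩
      exact ⟨q2.le.trans this.1, this.2⟩
  have hρm : ∀ θ ∈ Icc 0 (2 * Real.pi), ρ θ ∈ Icc 0 (2 * Real.pi) := by
    intro θ hθ
    rcases le_total θ f.κ with h | h
    · have := hlo θ ⟨hθ.1, h⟩
      exact ⟨this.1, this.2.trans g.κ_mem.2.le⟩
    · have := hhi θ ⟨h, hθ.2⟩
      exact ⟨g.κ_mem.1.le.trans this.1, this.2⟩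
  have ρκ : ρ f.κ = g.κ :=
    le_antisymm (R2 f.κ ⟨o1.le, le_rfl⟩).2 (R3 f.κ ⟨le_rfl, q1.le⟩).1
  have ρβ : ρ βf = βg :=
    le_antisymm (R3 βf ⟨q1.le, le_rfl⟩).2 (R4 βf ⟨le_rfl, o2.le⟩).1
  have ρa : ρ x.a = x.a' := by rw [R5 x.a ⟨le_rfl, q3.2.1.le⟩, x.ρa]
  obtain ⟨P, Pc, Pm, PA, PM, P0, P1, Pci, PXo, PNo⟩ := extend_par x hc' n hM hN ρc ρ0 ρ1 hρm R1
    (by
      intro θ hθ
      rcases le_total θ f.κ with h | h
      · have := R2 θ ⟨hθ.1, h⟩
        exact ⟨this.1, by linarith [this.2]⟩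
      · rcases le_total θ βf with h' | h'
        · have := R3 θ ⟨h, h'⟩
          exact ⟨by linarith [this.1], by linarith [this.2]⟩
        · have := R4 θ ⟨h', hθ.2⟩
          exact ⟨by linarith [this.1], this.2⟩) R5 R6 R7 (by linarith) (by linarith)
  have hrm : RMapB f g βf βg P ρ :=
    { cont := Pc
      maps := Pm
      zero := P0
      one := P1
      ρcont := ρc
      ρ0 := ρ0
      ρ1 := ρ1
      ρκ := ρκ
      ρlo := hlo
      ρhi := hhi
      circ := Pci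
      ρβ := ρβ
      ρmid := hmid
      ρtop := htop }
  obtain ⟨H, hH⟩ := exists_hat hrm.toRMap
  have hpre : PreED f g A B M N βf βg P H ρ :=
    { bf := hf
      bg := hg
      rm := hrm
      hat := hH
      ee := by rw [eA, eB]
      mapsX := fun z hz => by rw [PA z hz]; exact x.maps hz
      injX := fun z hz z' hz' h => by
        rw [PA z hz, PA z' hz'] at h; exact x.inj hz hz' h
      surjX := fun y hy => by
        obtain ⟨z, hz, rfl⟩ := x.surj hy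
        exact ⟨z, hz, PA z hz⟩
      Xo_iff := PXo
      conjX := fun z hz => by rw [PA _ (A.FX hz), PA z hz]; exact x.conjF z hz
      mapsN := fun z hz => by rw [PM z hz]; exact n.maps hz
      No_of := PNo
      N1 := fun z hz y hy hF he => by
        rw [PM _ hF] at he; exact n.N1 z hz y hy hF he
      N2 := fun R K R' σ h1 h2 h3 h4 z hz => by
        rw [PM z hz]
        exact n.N2 R K R' σ h1 h2 (fun z hz => by rw [h3 z hz, PM z hz]) h4 z hz }
  have hωa : f.ω₀ ≤ x.a := (a3_ω_le hf).trans o2.le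
  have hbX : ∀ R' : ℂ → ℂ, ContinuousOn R' DD → IsLift f g P H R' → ∀ z ∈ A.X, R' z = P z :=
    fun R' hRc hRl => baseX x hcn hrm.toRMap hH PA hωa hRc hRl
  refine ⟨P, H, ρ, { hpre with baseX := hbX, baseH := ?_ }, PM, PA⟩
  intro R' H' hRc hRl hH' u hu hux
  have hbX' := hbX R' hRc hRl
  -- the circle map of the lift
  obtain ⟨L, Lc, Lm, Ll⟩ := exists_lift hrm.toRMap hH
  have hLR : ∀ z ∈ DD, L z = R' z := lift_unique Ll hRl
  have hRm : MapsTo R' DD DD := fun z hz => by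
    rw [← hLR z hz]
    exact Lm hz
  obtain ⟨-, -, -, ⟨ρ', hρ'⟩, -⟩ := (PreED.inv0 hpre).lift_props hpre hRc hRm hRl hbX'
  -- the difference of the hats
  have hQ : ContinuousOn (fun u => H' u - H u) UU := hH'.cont.sub hH.cont
  obtain ⟨d1, d2⟩ := descend hQ (fun u hu => by
    rw [hH'.period u hu, hH.period u hu]
    ring)
  have hsub : A.X \ {0} ⊆ DD \ {0} := fun z hz => ⟨A.subX hz.1, hz.2⟩
  have ha1 : x.a ∈ Icc 0 (2 * Real.pi) := ⟨x.ord.1.le, (x.ord.2.1.trans x.ord.2.2).le⟩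
  have hzX : ec x.a ∈ A.X := (x.arc x.a ha1).2 ⟨le_rfl, x.ord.2.1.le⟩
  have key := log_unique hcn' (a := fun z => H' (log z) - H (log z)) (b := fun _ => 0)
    (d1.mono hsub) continuousOn_const (fun z hz => by
      have hz0 : z ≠ 0 := hz.2
      have hlog : log z ∈ UU := A8_mem_UU (A.subX hz.1) (exp_log hz0)
      rw [exp_sub, hH'.exp_eq _ hlog, hH.exp_eq _ hlog, exp_log hz0, hbX' z hz.1, exp_zero,
        div_self]
      intro h
      exact hz0 ((P0 z (A.subX hz.1)).1 h)) (x0 := ec x.a)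
    ⟨hzX, by
      rw [mem_singleton_iff]
      exact exp_ne_zero _⟩ (by
      have e1 : H' (log (ec x.a)) - H (log (ec x.a)) = H' (x.a * I) - H (x.a * I) :=
        d2 _ (L3aux.ofReal_mul_I_mem x.a)
      rw [e1, hat_circ hρ'.toRMap hH' _ ha1, hat_circ hrm.toRMap hH _ ha1, ρa]
      have e2 : ec (ρ' x.a) = ec x.a' := by
        rw [← hρ'.circ _ ha1, hbX' _ hzX, hrm.circ _ ha1, ρa]
      have e3 : x.a ∈ Icc f.κ (2 * Real.pi) := ⟨by linarith, ha1.2⟩
      have e4 := hρ'.ρhi _ e3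
      have e5 : ρ' x.a = x.a' := ec_inj ⟨lt_of_lt_of_le g.κ_mem.1 e4.1, e4.2⟩
        ⟨x.ord'.1, (x.ord'.2.1.trans x.ord'.2.2).le⟩ e2
      rw [e5, sub_self])
  have h1 := key (exp u) ⟨hux, by
    rw [mem_singleton_iff]
    exact exp_ne_zero _⟩
  have h2 : H' (log (exp u)) - H (log (exp u)) = H' u - H u := d2 u hu
  have h3 : H' u - H u = 0 := by
    rw [← h2]
    exact h1
  exact sub_eq_zero.1 h3

end

end Pool.TU
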