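import Pool.Agent.Helper71.TU.L1
import Pool.Agent.Helper71.TU.L2
import Pool.Agent.Helper71.TU.L3
import Pool.Agent.Helper71.TU.A1
import Pool.Agent.Helper71.TU.A2
import Pool.Agent.Helper71.TU.A3
import Pool.Agent.Helper71.TU.A4
import Pool.Agent.Helper71.TU.A5
import Pool.Agent.Helper71.TU.A6
import Pool.Agent.Helper71.TU.A7
import Pool.Agent.Helper71.TU.A8
import Pool.Agent.Helper71.TU.A9
import Pool.Agent.Helper71.TU.A10
import Pool.Agent.Helper71.TU.A11
import Pool.Agent.Helper71.TU.A12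
import Pool.Agent.Helper71.TU.A13
import Pool.Agent.Helper71.TU.A14
import Pool.Agent.Helper71.TU.D1
import Pool.Agent.Helper71.TU.D2
import Pool.Agent.Helper71.TU.D3
import Pool.Agent.Helper71.TU.D4
import Pool.Agent.Helper71.TU.D5
import Pool.Agent.Helper71.TU.B1
import Pool.Agent.Helper71.TU.B2
import Pool.Agent.Helper71.TU.B3
import Pool.Agent.Helper71.TU.B4
import Pool.Agent.Helper71.TU.B5
import Pool.Agent.Helper71.TU.B6
import Pool.Agent.Helper71.TU.B7
import Pool.Agent.Helper71.TU.B8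
import Pool.Agent.Helper71.TU.B9
import Pool.Agent.Helper71.TU.B10
import Pool.Agent.Helper71.TU.B11
import Pool.Agent.Helper71.TU.B12
import Pool.Agent.Helper71.TU.B13
import Pool.Agent.Helper71.TU.B14
import Pool.Agent.Helper71.TU.B15
import Pool.Agent.Helper71.TU.S1
import Pool.Agent.Helper71.TU.S2
import Pool.Agent.Helper71.TU.S3
import Pool.Agent.Helper71.TU.S4
import Pool.Agent.Helper71.TU.S5
import Pool.Agent.Helper71.TU.S6
import Pool.Agent.Helper71.TU.S7
import Pool.Agent.Helper71.TU.S8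
import Pool.Agent.Helper71.TU.X1
import Pool.Agent.Helper71.TU.X2
import Pool.Agent.Helper71.TU.X3
import Pool.Agent.Helper71.TU.X4
import Pool.Agent.Helper71.TU.X5
import Pool.Agent.Helper71.TU.X6
import Pool.Agent.Helper71.TU.X7
import Pool.Agent.Helper71.TU.X8
import Pool.Agent.Helper71.TU.X9
import Pool.Agent.Helper71.TU.C1
import Pool.Agent.Helper71.TU.C2
import Pool.Agent.Helper71.TU.C3
import Pool.Agent.Helper71.TU.Y1
import Pool.Agent.Helper71.TU.Y2
import Pool.Agent.Helper71.TU.Y3
import Pool.Agent.Helper71.TU.Y4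
import Pool.Agent.Helper71.TU.Y5
import Pool.Agent.Helper71.TU.Y6
import Pool.Agent.Helper71.TU.Y7
import Pool.Agent.Helper71.TU.Y8
import Pool.Agent.Helper71.TU.Y9
import Pool.Agent.Helper71.TU.P1
import Pool.Agent.Helper71.TU.P2
import Pool.Agent.Helper71.TU.P3
import Pool.Agent.Helper71.TU.P4
import Pool.Agent.Helper71.TU.G1
import Pool.Agent.Helper71.TU.G2
import Pool.Agent.Helper71.TU.G3
import Pool.Agent.Helper71.TU.G4
import Pool.Agent.Helper71.TU.G5
import Pool.Agent.Helper71.TU.G6
import Pool.Agent.Helper71.TU.G7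
import Pool.Agent.Helper71.TU.G8
import Pool.Agent.Helper71.TU.G9
import Pool.Agent.Helper71.TU.H1
import Pool.Agent.Helper71.TU.H2
import Pool.Agent.Helper71.TU.H3
import Pool.Agent.Helper71.TU.H4
import Pool.Agent.Helper71.TU.H5
import Pool.Agent.Helper71.TU.H6
import Pool.Agent.Helper71.TU.T1
import Pool.Agent.Helper71.TU.T2
import Pool.Agent.Helper71.TU.T3
import Pool.Agent.Helper71.TU.T4
import Pool.Agent.Helper71.TU.T5
import Pool.Agent.Helper71.TU.T6
import Pool.Agent.Helper71.TU.T7
import Pool.Agent.Helper71.TU.T8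
import Pool.Agent.Helper71.TU.T9
import Pool.Agent.Helper71.TU.T10
import Pool.Agent.Helper71.TU.T11
import Pool.Agent.Helper71.TU.T12
import Pool.Agent.Helper71.TU.T13
import Pool.Agent.Helper71.TU.F1
import Pool.Agent.Helper71.TU.F2
import Pool.Agent.Helper71.TU.F3
import Pool.Agent.Helper71.TU.F4
import Pool.Agent.Helper71.TU.F5
import Pool.Agent.Helper71.TU.F6
import Pool.Agent.Helper71.TU.F7
import Pool.Agent.Helper71.TU.F8
import Pool.Agent.Helper71.TU.F9
import Pool.Agent.Helper71.TU.F10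
import Pool.Agent.Helper71.TU.F11
import Pool.Agent.Helper71.TU.F12
import Pool.Agent.Helper71.TU.F13
import Pool.Agent.Helper71.TU.F14
import Pool.Agent.Helper71.TU.K1
import Pool.Agent.Helper71.TU.K2
import Pool.Agent.Helper71.TU.K3
import Pool.Agent.Helper71.TU.K4
import Pool.Agent.Helper71.TU.K5
import Pool.Agent.Helper71.TU.K6
import Pool.Agent.Helper71.TU.K7
import Pool.Agent.Helper71.TU.N1
import Pool.Agent.Helper71.TU.N2
import Pool.Agent.Helper71.TU.N3
import Pool.Agent.Helper71.TU.N4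
import Pool.Agent.Helper71.TU.N5
import Pool.Agent.Helper71.TU.N6
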