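import Pool.Agent.Helper71.TU.Final

/-! # TU: all definitions -/

open Complex Set Filter Topology Metric Polynomial ComplexConjugate Pool.Tuning

namespace Pool.TU

noncomputable section


section Defsx

/-- closed unit disc -/
def DD : Set ℂ := closedBall 0 1

/-- closed left half plane -/
def UU : Set ℂ := {u | u.re ≤ 0}

/-- point of the circle with angle `θ` -/
def ec (θ : ℝ) : ℂ := exp (θ * I)

/-- two pi i -/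
def tpi : ℂ := 2 * Real.pi * I

/-- A tile system: the dynamics of a real quartic folded to the closed upper half plane with
`∞` added, in the coordinate of the closed disc in which the nonreal critical value is `0` and
`∞` is `1`.  `Θ` parametrises the tile containing the nonreal critical point (`F (Θ s) = s²`),
`G2`, `G4` the two other tiles. The boundary point `ec κ` is the real critical value and
`ec ω₀` is the real critical point. -/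
structure TS where
  κ : ℝ
  ω₀ : ℝ
  Θ : ℂ → ℂ
  G2 : ℂ → ℂ
  G4 : ℂ → ℂ
  F : ℂ → ℂ
  rp : ℝ → ℝ
  rm : ℝ → ℝ
  κ_mem : κ ∈ Ioo 0 (2 * Real.pi)
  ω₀_mem : ω₀ ∈ Ioo 0 (2 * Real.pi)
  contΘ : ContinuousOn Θ DD
  cont2 : ContinuousOn G2 DD
  cont4 : ContinuousOn G4 DD
  contF : ContinuousOn F DD
  mapsΘ : MapsTo Θ DD DD
  maps2 : MapsTo G2 DD DD
  maps4 : MapsTo G4 DD DD
  mapsF : MapsTo F DD DD
  FΘ : ∀ s ∈ DD, F (Θ s) = s ^ 2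
  F2 : ∀ w ∈ DD, F (G2 w) = w
  F4 : ∀ w ∈ DD, F (G4 w) = w
  cover : ∀ z ∈ DD, z ∈ Θ '' DD ∨ z ∈ G2 '' DD ∨ z ∈ G4 '' DD
  Θone : Θ 1 = 1
  Θneg : Θ (-1) = 1
  G2one : G2 1 = 1
  G4one : G4 1 = 1
  injΘ : ∀ s ∈ DD, ∀ s' ∈ DD, Θ s = Θ s' → s = s' ∨ (s = 1 ∧ s' = -1) ∨ (s = -1 ∧ s' = 1)
  bd2 : ∀ θ ∈ Icc 0 (2 * Real.pi), G2 (ec θ) = Θ (-(ec (θ / 2)))
  bd4 : ∀ θ ∈ Icc 0 κ, G4 (ec θ) = Θ (ec (θ / 2))
  sep2 : ∀ s ∈ DD, ∀ w ∈ DD, Θ s = G2 w → ∃ θ ∈ Icc 0 (2 * Real.pi), s = -(ec (θ / 2))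
  sep4 : ∀ s ∈ DD, ∀ w ∈ DD, Θ s = G4 w → s = -1 ∨ ∃ θ ∈ Icc 0 κ, s = ec (θ / 2)
  sep24 : ∀ w ∈ DD, ∀ w' ∈ DD, G2 w = G4 w' → w = 1 ∧ w' = 1
  nz2 : ∀ w ∈ DD, G2 w ≠ 0
  nz4 : ∀ w ∈ DD, G4 w ≠ 0
  nzΘ : ∀ s, ‖s‖ = 1 → Θ s ≠ 0
  contrp : ContinuousOn rp (Icc κ (2 * Real.pi))
  contrm : ContinuousOn rm (Icc κ (2 * Real.pi))
  rpκ : rp κ = ω₀
  rmκ : rm κ = ω₀
  rp2 : rp (2 * Real.pi) = 2 * Real.pi
  rm2 : rm (2 * Real.pi) = 0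
  rp_mem : ∀ θ ∈ Icc κ (2 * Real.pi), rp θ ∈ Icc ω₀ (2 * Real.pi)
  rm_mem : ∀ θ ∈ Icc κ (2 * Real.pi), rm θ ∈ Icc 0 ω₀
  rpΘ : ∀ θ ∈ Icc κ (2 * Real.pi), Θ (ec (θ / 2)) = ec (rp θ)
  rmG : ∀ θ ∈ Icc κ (2 * Real.pi), G4 (ec θ) = ec (rm θ)
  circΘ : ∀ s ∈ DD, ‖Θ s‖ = 1 → s = 1 ∨ ∃ θ ∈ Icc κ (2 * Real.pi), s = ec (θ / 2)
  circ2 : ∀ w ∈ DD, ‖G2 w‖ = 1 → w = 1
  circ4 : ∀ w ∈ DD, ‖G4 w‖ = 1 → ∃ θ ∈ Icc κ (2 * Real.pi), w = ec θ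

/-- logarithmic lift of a self map of the disc fixing `0` -/
structure IsHat (R H : ℂ → ℂ) : Prop where
  cont : ContinuousOn H UU
  maps : MapsTo H UU UU
  exp_eq : ∀ u ∈ UU, exp (H u) = R (exp u)
  period : ∀ u ∈ UU, H (u + tpi) = H u + tpi
  zero : H 0 = 0

/-- the class of maps of the disc that can be lifted; `ρ` is the map on the circle -/
structure RMap (κ κ' : ℝ) (R : ℂ → ℂ) (ρ : ℝ → ℝ) : Prop where
  cont : ContinuousOn R DD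
  maps : MapsTo R DD DD
  zero : ∀ z ∈ DD, R z = 0 ↔ z = 0
  one : ∀ z ∈ DD, R z = 1 ↔ z = 1
  ρcont : ContinuousOn ρ (Icc 0 (2 * Real.pi))
  ρ0 : ρ 0 = 0
  ρ1 : ρ (2 * Real.pi) = 2 * Real.pi
  ρκ : ρ κ = κ'
  ρlo : ∀ θ ∈ Icc 0 κ, ρ θ ∈ Icc 0 κ'
  ρhi : ∀ θ ∈ Icc κ (2 * Real.pi), ρ θ ∈ Icc κ' (2 * Real.pi)
  circ : ∀ θ ∈ Icc 0 (2 * Real.pi), R (ec θ) = ec (ρ θ)

/-- `R'` is the lift of `R` (with logarithmic lift `H`) by the tile systems `f`, `g`. -/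
structure IsLift (f g : TS) (R H R' : ℂ → ℂ) : Prop where
  Θ_eq : ∀ u ∈ UU, R' (f.Θ (exp (u / 2))) = g.Θ (exp (H u / 2))
  Θ0 : R' (f.Θ 0) = g.Θ 0
  G2_eq : ∀ w ∈ DD, R' (f.G2 w) = g.G2 (R w)
  G4_eq : ∀ w ∈ DD, R' (f.G4 w) = g.G4 (R w)

end Defsx

section Defs2x

/-- `β` is a fixed boundary point of the right real branch and `rm β = κ`
(the real critical value is the left preimage of `β`). -/
structure IsBeta (S : TS) (β : ℝ) : Prop where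
  mem : β ∈ Ioo S.κ (2 * Real.pi)
  fixp : S.rp β = β
  fixm : S.rm β = S.κ

/-- the class of maps adapted to the points `βf`, `βg` -/
structure RMapB (f g : TS) (βf βg : ℝ) (R : ℂ → ℂ) (ρ : ℝ → ℝ) : Prop extends
    RMap f.κ g.κ R ρ where
  ρβ : ρ βf = βg
  ρmid : ∀ θ ∈ Icc f.κ βf, ρ θ ∈ Icc g.κ βg
  ρtop : ∀ θ ∈ Icc βf (2 * Real.pi), ρ θ ∈ Icc βg (2 * Real.pi)

/-- the points of the left half plane whose exponential avoids `Z` -/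
def OO (Z : Set ℂ) : Set ℂ := {u | u ∈ UU ∧ exp u ∉ Z}

/-- boundary lift of `Θ` -/
structure IsBd (S : TS) (b : ℝ → ℂ) : Prop where
  cont : Continuous b
  exp_eq : ∀ θ : ℝ, exp (b θ) = S.Θ (ec (θ / 2))
  zero : b 0 = 0

/-- A rigid set: a closed forward invariant set `X` (with relative interior `Xo`) around the
critical value `0` on which `F` is injective. -/
structure XS (S : TS) where
  X : Set ℂ
  Xo : Set ℂ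
  closedX : IsClosed X
  subX : X ⊆ DD
  Xo_sub : Xo ⊆ X
  Xo_open : ∃ O, IsOpen O ∧ Xo = O ∩ DD
  zero_mem : (0 : ℂ) ∈ Xo
  one_nmem : (1 : ℂ) ∉ X
  FX : MapsTo S.F X X
  FXo : MapsTo S.F Xo Xo
  notG2 : ∀ w ∈ DD, S.G2 w ∉ X
  notG4 : ∀ w ∈ DD, S.G4 w ∉ X
  inj : InjOn S.F X
  nzF : ∀ z ∈ X, S.F z ≠ 0
  /-- logarithms exist on `OO Xo`, with prescribed boundary values -/
  logext : ∀ g b : ℂ → ℂ, ContinuousOn g (OO Xo) → (∀ u ∈ OO Xo, g u ≠ 0) →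
    ContinuousOn b (OO Xo ∩ {u | u.re = 0}) → (∀ u ∈ OO Xo, u.re = 0 → exp (b u) = g u) →
    ∃ L : ℂ → ℂ, ContinuousOn L (OO Xo) ∧ (∀ u ∈ OO Xo, exp (L u) = g u) ∧
      (∀ u ∈ OO Xo, u.re = 0 → L u = b u)
  /-- every point of `OO Xo` is joined in `OO Xo` to a point over `1` -/
  cconn : ∀ u ∈ OO Xo, ∃ s ⊆ OO Xo, IsPreconnected s ∧ u ∈ s ∧ ∃ k : ℤ, (k : ℂ) * tpi ∈ s
  idx : ℂ → ℤ
  e : ℤ
  idx_cont : ContinuousOn idx (OO Xo)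
  idx_val : ∀ k : ℤ, idx ((k : ℂ) * tpi) = e * k
  /-- points of the double cover of `X` are joined to points over the boundary of `X` -/
  path : ∀ s ∈ DD, s ^ 2 ∈ X → S.Θ s ≠ 0 → ∃ γ : ℝ → ℂ, ContinuousOn γ (Icc 0 1) ∧ γ 0 = s ∧
    (∀ t ∈ Icc (0 : ℝ) 1, γ t ∈ DD ∧ γ t ^ 2 ∈ X ∧ S.Θ (γ t) ≠ 0) ∧ γ 1 ^ 2 ∉ Xo

/-- A set of lifted inverse branches. -/
structure Br (S : TS) (A : XS S) where
  b : ℝ → ℂ
  Φ : ℂ → ℂ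
  g2 : ℂ → ℂ
  g4 : ℂ → ℂ
  bd : IsBd S b
  contΦ : ContinuousOn Φ (OO A.Xo)
  expΦ : ∀ u ∈ OO A.Xo, exp (Φ u) = S.Θ (exp (u / 2))
  bdΦ : ∀ θ : ℝ, (θ : ℂ) * I ∈ OO A.Xo → Φ ((θ : ℂ) * I) = b θ
  cont2 : ContinuousOn g2 DD
  exp2 : ∀ w ∈ DD, exp (g2 w) = S.G2 w
  one2 : g2 1 = tpi
  cont4 : ContinuousOn g4 DD
  exp4 : ∀ w ∈ DD, exp (g4 w) = S.G4 w
  one4 : g4 1 = 0

/-- letters: an inverse branch together with a translation -/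
inductive Ltr
  | P (k : ℤ)
  | Q2 (k : ℤ)
  | Q4 (k : ℤ)

/-- the lifted inverse branch of a letter -/
def Br.ap {S : TS} {A : XS S} (B : Br S A) : Ltr → ℂ → ℂ
  | Ltr.P k, u => B.Φ (u + k * tpi)
  | Ltr.Q2 k, u => B.g2 (exp u) + k * tpi
  | Ltr.Q4 k, u => B.g4 (exp u) + k * tpi

/-- the lifted inverse branch of a word (the head of the list is applied last) -/
def Br.ev {S : TS} {A : XS S} (B : Br S A) : List Ltr → ℂ → ℂ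
  | [], u => u
  | l :: w, u => B.ap l (B.ev w u)

/-- `s` is preconnected, inside `OO Z`, of diameter at most `R` -/
structure Lump (Z : Set ℂ) (R : ℝ) (s : Set ℂ) : Prop where
  sub : s ⊆ OO Z
  conn : IsPreconnected s
  diam : ∀ x ∈ s, ∀ y ∈ s, ‖x - y‖ ≤ R

/-- words shrink the lumps uniformly -/
def Shrinks {S : TS} {A : XS S} (B : Br S A) (Z : Set ℂ) : Prop :=
  ∀ R η : ℝ, 0 < η → ∃ N : ℕ, ∀ w : List Ltr, N ≤ w.length → ∀ s, Lump Z R s →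
    ∀ x ∈ s, ∀ y ∈ s, ‖B.ev w x - B.ev w y‖ ≤ η

/-- points of `OO Z` of the same index at bounded distance lie in a common lump -/
def Linked {S : TS} (A : XS S) (Z : Set ℂ) : Prop :=
  ∀ R : ℝ, ∃ R' : ℝ, ∀ a ∈ OO Z, ∀ b ∈ OO Z, A.idx a = A.idx b → ‖a - b‖ ≤ R →
    ∃ s, Lump Z R' s ∧ a ∈ s ∧ b ∈ s

/-- a neighbourhood of infinity (of the point `1`) -/
structure NS (S : TS) where
  N : Set ℂ
  No : Set ℂ
  closedN : IsClosed N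
  subN : N ⊆ DD
  No_sub : No ⊆ N
  No_open : ∃ O, IsOpen O ∧ No = O ∩ DD
  one_mem : (1 : ℂ) ∈ No
  FN : MapsTo S.F N N
  FNo : MapsTo S.F No No
  conn : IsPreconnected N
  repos : ∀ z ∈ N, 0 < z.re

end Defs2x

section Defs3x

/-- The data for the pull-back construction: `P0` is a map of the disc that conjugates `f` to
`g` on the rigid sets and near infinity, `H0` is its logarithmic lift. -/
structure PreED (f g : TS) (A : XS f) (B : XS g) (M : NS f) (N : NS g) (βf βg : ℝ)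
    (P0 H0 : ℂ → ℂ) (ρ0 : ℝ → ℝ) : Prop where
  bf : IsBeta f βf
  bg : IsBeta g βg
  rm : RMapB f g βf βg P0 ρ0
  hat : IsHat P0 H0
  ee : A.e = B.e
  mapsX : MapsTo P0 A.X B.X
  injX : InjOn P0 A.X
  surjX : SurjOn P0 A.X B.X
  Xo_iff : ∀ z ∈ DD, P0 z ∈ B.Xo ↔ z ∈ A.Xo
  conjX : ∀ z ∈ A.X, P0 (f.F z) = g.F (P0 z)
  mapsN : MapsTo P0 M.N N.N
  No_of : ∀ z ∈ DD, P0 z ∈ N.No → z ∈ M.No
  N1 : ∀ z ∈ DD, ∀ x ∈ N.No, f.F z ∈ M.N → P0 (f.F z) = g.F x → z ∈ M.No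
  N2 : ∀ (R H R' : ℂ → ℂ) (ρ : ℝ → ℝ), RMap f.κ g.κ R ρ → IsHat R H →
    (∀ z ∈ M.N, R z = P0 z) → IsLift f g R H R' → ∀ z ∈ M.N, R' z = P0 z

/-- The complete data: the first lift of `P0` agrees with `P0` on the rigid set, and so do the
hats. -/
structure ED (f g : TS) (A : XS f) (B : XS g) (M : NS f) (N : NS g) (βf βg : ℝ)
    (P0 H0 : ℂ → ℂ) (ρ0 : ℝ → ℝ) : Prop extends PreED f g A B M N βf βg P0 H0 ρ0 where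
  baseX : ∀ R' : ℂ → ℂ, ContinuousOn R' DD → IsLift f g P0 H0 R' → ∀ z ∈ A.X, R' z = P0 z
  baseH : ∀ R' H' : ℂ → ℂ, ContinuousOn R' DD → IsLift f g P0 H0 R' → IsHat R' H' →
    ∀ u ∈ UU, exp u ∈ A.X → H' u = H0 u

/-- Invariants of the pull-back sequence. -/
structure Inv (f g : TS) (A : XS f) (B : XS g) (M : NS f) (N : NS g) (βf βg : ℝ)
    (P0 H0 : ℂ → ℂ) (R H : ℂ → ℂ) (ρ : ℝ → ℝ) : Prop where
  rm : RMapB f g βf βg R ρ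
  hat : IsHat R H
  eqX : ∀ z ∈ A.X, R z = P0 z
  eqHX : ∀ u ∈ UU, exp u ∈ A.X → H u = H0 u
  eqN : ∀ z ∈ M.N, R z = P0 z
  Xo_of : ∀ z ∈ DD, R z ∈ B.Xo → z ∈ A.Xo
  No_of : ∀ z ∈ DD, R z ∈ N.No → z ∈ M.No

/-- The result of the pull-back construction: a semiconjugacy. -/
structure EC (f g : TS) (A : XS f) (B : XS g) (M : NS f) (N : NS g) (βf βg : ℝ)
    (P0 H0 : ℂ → ℂ) (R H : ℂ → ℂ) (ρ : ℝ → ℝ) : Prop extends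
    Inv f g A B M N βf βg P0 H0 R H ρ where
  lift : IsLift f g R H R
  bdd : ∃ D : ℝ, ∀ u ∈ OO A.Xo, ‖H u - u‖ ≤ D

end Defs3x

section A6x

/-- A pull-back sequence. -/
structure Seq (f g : TS) (A : XS f) (B : XS g) (M : NS f) (N : NS g) (βf βg : ℝ)
    (P0 H0 : ℂ → ℂ) (R H : ℕ → ℂ → ℂ) (ρ : ℕ → ℝ → ℝ) : Prop where
  zero : R 0 = P0 ∧ H 0 = H0
  inv : ∀ n, Inv f g A B M N βf βg P0 H0 (R n) (H n) (ρ n)
  lift : ∀ n, IsLift f g (R n) (H n) (R (n + 1))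

end A6x

section D1x

/-- `S` is a continuous section of the `n`-th iterate of `h` on `V` -/
structure Sec (h : ℂ[X]) (n : ℕ) (V : Set ℂ) (S : ℂ → ℂ) : Prop where
  cont : ContinuousOn S V
  sec : ∀ w ∈ V, (fun z => h.eval z)^[n] (S w) = w

/-- `P` is closed, forward invariant and contains the critical values. -/
structure PC (h : ℂ[X]) (P : Set ℂ) : Prop where
  closed : IsClosed P
  inv : ∀ z ∈ P, h.eval z ∈ P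
  crit : ∀ z, h.derivative.eval z = 0 → h.eval z ∈ P

end D1x

section B0x

/-- closed upper half plane -/
def HH : Set ℂ := {z | 0 ≤ z.im}

/-- folding to the upper half plane -/
def fold (w : ℂ) : ℂ := if 0 ≤ w.im then w else conj w

/-- the coordinate of the closed disc: `v ↦ 0`, `∞ ↦ 1` -/
def mm (v z : ℂ) : ℂ := (z - v) / (z - conj v)

/-- the inverse coordinate -/
def mi (v s : ℂ) : ℂ := (v - conj v * s) / (1 - s)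

/-- the angle of a real point -/
def ang (v : ℂ) (x : ℝ) : ℝ := 2 * Real.pi - 2 * arg (x - conj v)

/-- Real quartics with one real and two nonreal critical points, the critical value of the
critical point in the upper half plane lying in the upper half plane, and its image too. -/
structure RQ where
  p : ℝ[X]
  r : ℝ
  c : ℂ
  deg : p.natDegree = 4
  lead : 0 < p.leadingCoeff
  hc : 0 < c.im
  der : ∀ z : ℂ, (p.map (algebraMap ℝ ℂ)).derivative.eval z =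
    4 * (p.leadingCoeff : ℂ) * (z - r) * (z - c) * (z - conj c)
  hv : 0 < ((p.map (algebraMap ℝ ℂ)).eval c).im
  hvv : 0 < ((p.map (algebraMap ℝ ℂ)).eval ((p.map (algebraMap ℝ ℂ)).eval c)).im

/-- the complex polynomial -/
def RQ.h (q : RQ) : ℂ[X] := q.p.map (algebraMap ℝ ℂ)

/-- the nonreal critical value -/
def RQ.v (q : RQ) : ℂ := q.h.eval q.c

/-- the real critical value -/
def RQ.vr (q : RQ) : ℝ := q.p.eval q.r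

/-- the tile system of a real quartic -/
structure IsTS (q : RQ) (S : TS) : Prop where
  F_eq : ∀ z ∈ HH, S.F (mm q.v z) = mm q.v (fold (q.h.eval z))
  κ_eq : S.κ = ang q.v q.vr
  ω_eq : S.ω₀ = ang q.v q.r
  Θ0 : S.Θ 0 = mm q.v q.c
  imΘ : ∀ z ∈ HH, mm q.v z ∈ S.Θ '' DD → 0 ≤ (q.h.eval z).im
  im2 : ∀ z ∈ HH, mm q.v z ∈ S.G2 '' DD → (q.h.eval z).im ≤ 0
  im4 : ∀ z ∈ HH, mm q.v z ∈ S.G4 '' DD → (q.h.eval z).im ≤ 0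

end B0x

section B2x

open Classical in
/-- the folded map in the disc coordinate -/
def FF (q : RQ) (s : ℂ) : ℂ := if s = 1 then 1 else mm q.v (fold (q.h.eval (mi q.v s)))

end B2x

section B4x

/-- The tiles before the choice of signs. -/
structure Tiles (q : RQ) (Θ Ga Gb : ℂ → ℂ) : Prop where
  contΘ : ContinuousOn Θ DD
  conta : ContinuousOn Ga DD
  contb : ContinuousOn Gb DD
  mapsΘ : MapsTo Θ DD DD
  mapsa : MapsTo Ga DD DD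
  mapsb : MapsTo Gb DD DD
  FΘ : ∀ s ∈ DD, FF q (Θ s) = s ^ 2
  Fa : ∀ w ∈ DD, FF q (Ga w) = w
  Fb : ∀ w ∈ DD, FF q (Gb w) = w
  inΘ : ∀ s ∈ ball (0 : ℂ) 1, ∃ z : ℂ, 0 < z.im ∧ 0 < (q.h.eval z).im ∧ Θ s = mm q.v z
  ina : ∀ w ∈ ball (0 : ℂ) 1, ∃ z : ℂ, 0 < z.im ∧ (q.h.eval z).im < 0 ∧ Ga w = mm q.v z
  inb : ∀ w ∈ ball (0 : ℂ) 1, ∃ z : ℂ, 0 < z.im ∧ (q.h.eval z).im < 0 ∧ Gb w = mm q.v z
  Θ0 : Θ 0 = mm q.v q.c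
  injΘ : InjOn Θ (ball 0 1)
  neab : ∀ w ∈ ball (0 : ℂ) 1, Ga w ≠ Gb w
  coverT : ∀ z : ℂ, 0 < z.im → 0 < (q.h.eval z).im → mm q.v z ∈ Θ '' ball 0 1
  coverE : ∀ z : ℂ, 0 < z.im → (q.h.eval z).im < 0 → mm q.v z ∈ Ga '' ball 0 1 ∨
    mm q.v z ∈ Gb '' ball 0 1

end B4x

section D4x

/-- all long words are uniformly small on the `δ`-ball around `u0` -/
def LocShrink {S : TS} {A : XS S} (B : Br S A) (Z : Set ℂ) (u0 : ℂ) (δ : ℝ) : Prop :=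
  ∀ η : ℝ, 0 < η → ∃ N : ℕ, ∀ w : List Ltr, N ≤ w.length → ∀ u ∈ OO Z ∩ ball u0 δ,
    ∀ u' ∈ OO Z ∩ ball u0 δ, ‖B.ev w u - B.ev w u'‖ ≤ η

/-- all words are equicontinuous at `u0` -/
def EqAt {S : TS} {A : XS S} (B : Br S A) (Z : Set ℂ) (u0 : ℂ) : Prop :=
  ∀ η : ℝ, 0 < η → ∃ δ > 0, ∀ w : List Ltr, ∀ u ∈ OO Z, ‖u - u0‖ < δ →
    ‖B.ev w u - B.ev w u0‖ ≤ η

/-- the standing assumptions for the set `Z` removed from the disc -/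
structure ZS (S : TS) (A : XS S) (Z : Set ℂ) : Prop where
  sub : Z ⊆ DD
  Xo_sub : A.Xo ⊆ Z
  openZ : ∃ O, IsOpen O ∧ Z = O ∩ DD
  one_mem : (1 : ℂ) ∈ Z
  FZ : MapsTo S.F Z Z

/-- `B0` is a set of branches on a larger domain, extending `B` -/
structure Ext {S : TS} {A A0 : XS S} (B : Br S A) (B0 : Br S A0) : Prop where
  sub : A0.Xo ⊆ A.Xo
  Φ_eq : ∀ u ∈ OO A.Xo, B.Φ u = B0.Φ u
  g2_eq : ∀ w ∈ DD, B.g2 w = B0.g2 w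
  g4_eq : ∀ w ∈ DD, B.g4 w = B0.g4 w

end D4x

section X1x

/-- A Koenigs chart of a real quartic: `K` linearises `h` at an attracting fixed point in the
upper half plane on a disc whose image contains the critical value `v = K 1`. -/
structure KC (q : RQ) where
  K : ℂ → ℂ
  R1 : ℝ
  μ : ℂ
  hR1 : 1 < R1
  diff : DifferentiableOn ℂ K (ball 0 R1)
  inj : InjOn K (ball 0 R1)
  maps : ∀ ζ ∈ ball (0 : ℂ) R1, 0 < (K ζ).im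
  one : K 1 = q.v
  μ0 : μ ≠ 0
  μ1 : ‖μ‖ < 1
  lin : ∀ ζ ∈ ball (0 : ℂ) R1, q.h.eval (K ζ) = K (μ * ζ)

/-- A hat retraction of the left half plane onto `OO Z`. -/
structure HRet (Z : Set ℂ) (rh : ℂ → ℂ) : Prop where
  cont : ContinuousOn rh UU
  maps : MapsTo rh UU (OO Z)
  id : ∀ u ∈ OO Z, rh u = u
  period : ∀ u ∈ UU, rh (u + tpi) = rh u + tpi

/-- A half disc chart. -/
structure HC (C Co : Set ℂ) (δ : ℝ) (τ : ℂ → ℂ) : Prop where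
  pos : 0 < δ
  cont : ContinuousOn τ {t | ‖t‖ ≤ δ ∧ 0 ≤ t.im}
  inj : InjOn τ {t | ‖t‖ ≤ δ ∧ 0 ≤ t.im}
  img : τ '' {t | ‖t‖ ≤ δ ∧ 0 ≤ t.im} = C
  imgo : τ '' {t | ‖t‖ < δ ∧ 0 ≤ t.im} = Co
  sub : C ⊆ DD
  openo : ∃ O, IsOpen O ∧ Co = O ∩ DD

end X1x

section C1x

/-- half disc -/
def HB (δ : ℝ) : Set ℂ := {t | ‖t‖ ≤ δ ∧ 0 ≤ t.im}

/-- the folded power map at infinity in the coordinate `t = -1/φ` -/
def sq4 (t : ℂ) : ℂ := fold (-t ^ 4)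

/-- Böttcher chart at infinity (at the point `1` of the disc): `c` is the logarithm of the
chart `τ = exp ∘ c`. -/
structure NB (S : TS) where
  δ0 : ℝ
  c : ℂ → ℂ
  pos : 0 < δ0
  lt : δ0 < 1
  cont : ContinuousOn c (HB δ0)
  zero : c 0 = 0
  maps : MapsTo c (HB δ0) UU
  im_lt : ∀ t ∈ HB δ0, |(c t).im| < 1
  inj : InjOn c (HB δ0)
  real : ∀ t ∈ HB δ0, (c t).re = 0 ↔ t.im = 0
  realpos : ∀ x : ℝ, 0 < x → x ≤ δ0 → 0 < (c x).im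
  realneg : ∀ x : ℝ, x < 0 → -δ0 ≤ x → (c x).im < 0
  openo : ∀ δ : ℝ, 0 < δ → δ < δ0 →
    ∃ O, IsOpen O ∧ (fun t => exp (c t)) '' {t | ‖t‖ < δ ∧ 0 ≤ t.im} = O ∩ DD
  conj4 : ∀ t ∈ HB δ0, S.F (exp (c t)) = exp (c (sq4 t))
  s1 : ∀ t ∈ HB δ0, t.im ≤ -t.re → exp (c t) = S.Θ (-exp (c (sq4 t) / 2))
  s2 : ∀ t ∈ HB δ0, t.re ≤ 0 → -t.re ≤ t.im → exp (c t) = S.G2 (exp (c (sq4 t)))
  s3 : ∀ t ∈ HB δ0, 0 ≤ t.re → t.re ≤ t.im → exp (c t) = S.Θ (exp (c (sq4 t) / 2))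
  s4 : ∀ t ∈ HB δ0, t.im ≤ t.re → exp (c t) = S.G4 (exp (c (sq4 t)))
  level : ∀ δ : ℝ, 0 < δ → δ < δ0 → ∀ z ∈ DD, ∀ t ∈ HB (δ ^ 4), S.F z = exp (c t) →
    ∃ t' ∈ HB δ, z = exp (c t')

/-- A pair of neighbourhoods of infinity with a conjugacy. -/
structure NPair (f g : TS) (M : NS f) (N : NS g) where
  P : ℂ → ℂ
  ρ : ℝ → ℝ
  s1 : ℝ
  s2 : ℝ
  s1' : ℝ
  s2' : ℝ
  cont : ContinuousOn P M.N
  maps : MapsTo P M.N N.N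
  inj : InjOn P M.N
  one : P 1 = 1
  No_iff : ∀ z ∈ M.N, P z ∈ N.No ↔ z ∈ M.No
  N1 : ∀ z ∈ DD, ∀ x ∈ N.No, f.F z ∈ M.N → P (f.F z) = g.F x → z ∈ M.No
  N2 : ∀ (R H R' : ℂ → ℂ) (ρ : ℝ → ℝ), RMap f.κ g.κ R ρ → IsHat R H →
    (∀ z ∈ M.N, R z = P z) → IsLift f g R H R' → ∀ z ∈ M.N, R' z = P z
  s_ord : 0 < s1 ∧ s1 < s2 ∧ s2 < 2 * Real.pi
  s_ord' : 0 < s1' ∧ s1' < s2' ∧ s2' < 2 * Real.pi
  arc : ∀ θ ∈ Icc 0 (2 * Real.pi), ec θ ∈ M.N ↔ θ ≤ s1 ∨ s2 ≤ θ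
  arco : ∀ θ ∈ Icc 0 (2 * Real.pi), ec θ ∈ M.No ↔ θ < s1 ∨ s2 < θ
  arc' : ∀ θ ∈ Icc 0 (2 * Real.pi), ec θ ∈ N.N ↔ θ ≤ s1' ∨ s2' ≤ θ
  arco' : ∀ θ ∈ Icc 0 (2 * Real.pi), ec θ ∈ N.No ↔ θ < s1' ∨ s2' < θ
  ρcont1 : ContinuousOn ρ (Icc 0 s1)
  ρcont2 : ContinuousOn ρ (Icc s2 (2 * Real.pi))
  ρmem1 : ∀ θ ∈ Icc 0 s1, ρ θ ∈ Icc 0 s1'
  ρmem2 : ∀ θ ∈ Icc s2 (2 * Real.pi), ρ θ ∈ Icc s2' (2 * Real.pi)
  ρ0 : ρ 0 = 0
  ρs1 : ρ s1 = s1'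
  ρs2 : ρ s2 = s2'
  ρ1 : ρ (2 * Real.pi) = 2 * Real.pi
  circ : ∀ θ ∈ Icc 0 (2 * Real.pi), ec θ ∈ M.N → P (ec θ) = ec (ρ θ)
  chartM : ∃ δ τ, HC M.N M.No δ τ
  chart : ∃ δ τ, HC N.N N.No δ τ

end C1x

section X3x

/-- disc chart of a rigid set of hyperbolic type -/
structure DC {S : TS} (A : XS S) where
  τ : ℂ → ℂ
  ε : ℂ → ℂ
  R : ℝ
  μ : ℂ
  rh : ℂ → ℂ
  hR : 1 < R
  μ0 : μ ≠ 0
  μ1 : ‖μ‖ < 1
  contε : ContinuousOn ε (closedBall 0 R)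
  τ_eq : ∀ ζ ∈ closedBall (0 : ℂ) R, τ ζ = (ζ - 1) * exp (ε ζ)
  inj : InjOn τ (closedBall 0 R)
  img : τ '' closedBall 0 R = A.X
  imgo : τ '' ball 0 R = A.Xo
  lin : ∀ ζ ∈ closedBall (0 : ℂ) R, S.F (τ ζ) = τ (μ * ζ)
  ret : HRet A.Xo rh
  e0 : A.e = 0
  idx0 : ∀ u, A.idx u = 0
  circ : ∀ z ∈ A.X, ‖z‖ ≠ 1

/-- A conjugacy of rigid sets with a hat. -/
structure XPair {f g : TS} (A : XS f) (B : XS g) where
  P : ℂ → ℂ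
  H : ℂ → ℂ
  cont : ContinuousOn P A.X
  maps : MapsTo P A.X B.X
  inj : InjOn P A.X
  surj : SurjOn P A.X B.X
  Xo_iff : ∀ z ∈ A.X, P z ∈ B.Xo ↔ z ∈ A.Xo
  conjF : ∀ z ∈ A.X, P (f.F z) = g.F (P z)
  zero : P 0 = 0
  contH : ContinuousOn H {u | u ∈ UU ∧ exp u ∈ A.X}
  mapsH : ∀ u ∈ UU, exp u ∈ A.X → H u ∈ UU
  expH : ∀ u ∈ UU, exp u ∈ A.X → exp (H u) = P (exp u)
  period : ∀ u ∈ UU, exp u ∈ A.X → H (u + tpi) = H u + tpi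

end X3x

section Y1x

/-- the polynomial seen from its parabolic point `0`, in the coordinate `w = 1/(αz)` -/
def parF (q : RQ) (α : ℝ) (w : ℂ) : ℂ := 1 / (α * q.h.eval (1 / (α * w)))

/-- Parabolic data: `h z = z - α z² + …` and the disc `|z - ρ| ≤ ρ` is an attracting petal
on which things are explicit; it contains the critical value `v`. -/
structure PD (q : RQ) (ρ : ℝ) where
  α : ℝ
  hα : 0 < α
  hρ : 0 < ρ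
  hr : q.r < 0
  fix : q.p.eval 0 = 0
  der1 : q.p.derivative.eval 0 = 1
  der2 : q.p.derivative.derivative.eval 0 = -(2 * α)
  ne : ∀ w : ℂ, 1 / (2 * ρ * α) ≤ w.re → q.h.eval (1 / (α * w)) ≠ 0
  step : ∃ c > 0, ∀ w : ℂ, 1 / (2 * ρ * α) ≤ w.re → w.re + c ≤ (parF q α w).re
  der : ∀ w : ℂ, 1 / (2 * ρ * α) ≤ w.re → 0 < (deriv (parF q α) w).re
  vmem : q.v ∈ ball (ρ : ℂ) ρ

/-- A conjugacy of parabolic rigid sets. -/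
structure XPairP {f g : TS} (A : XS f) (B : XS g) where
  P : ℂ → ℂ
  ρ : ℝ → ℝ
  a : ℝ
  b : ℝ
  a' : ℝ
  b' : ℝ
  cont : ContinuousOn P A.X
  maps : MapsTo P A.X B.X
  inj : InjOn P A.X
  surj : SurjOn P A.X B.X
  Xo_iff : ∀ z ∈ A.X, P z ∈ B.Xo ↔ z ∈ A.Xo
  conjF : ∀ z ∈ A.X, P (f.F z) = g.F (P z)
  zero : P 0 = 0
  ord : 0 < a ∧ a < b ∧ b < 2 * Real.pi
  ord' : 0 < a' ∧ a' < b' ∧ b' < 2 * Real.pi
  arc : ∀ θ ∈ Icc 0 (2 * Real.pi), ec θ ∈ A.X ↔ θ ∈ Icc a b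
  arco : ∀ θ ∈ Icc 0 (2 * Real.pi), ec θ ∈ A.Xo ↔ θ ∈ Ioo a b
  arc' : ∀ θ ∈ Icc 0 (2 * Real.pi), ec θ ∈ B.X ↔ θ ∈ Icc a' b'
  arco' : ∀ θ ∈ Icc 0 (2 * Real.pi), ec θ ∈ B.Xo ↔ θ ∈ Ioo a' b'
  ρcont : ContinuousOn ρ (Icc a b)
  ρmem : ∀ θ ∈ Icc a b, ρ θ ∈ Icc a' b'
  ρa : ρ a = a'
  ρb : ρ b = b'
  circ : ∀ θ ∈ Icc a b, P (ec θ) = ec (ρ θ)

/-- Dynamics on a right half plane: steps to the right, `Re F' > 0`, real. -/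
structure SP (F : ℂ → ℂ) (κ c C : ℝ) : Prop where
  hc : 0 < c
  diff : ∀ w : ℂ, κ ≤ w.re → DifferentiableAt ℂ F w
  sym : ∀ w : ℂ, κ ≤ w.re → F (conj w) = conj (F w)
  step : ∀ w : ℂ, κ ≤ w.re → w.re + c ≤ (F w).re
  der : ∀ w : ℂ, κ ≤ w.re → 0 < (deriv F w).re
  bdd : ∀ w : ℂ, κ ≤ w.re → ‖F w - w‖ ≤ C

/-- the image of the half plane is the region to the right of the graph of `b` -/
structure GR (F : ℂ → ℂ) (κ : ℝ) (b : ℝ → ℝ) (g : ℝ → ℝ) : Prop where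
  cont : Continuous b
  even : ∀ y, b (-y) = b y
  gt : ∀ y, κ < b y
  img : F '' {w | κ ≤ w.re} = {w | b w.im ≤ w.re}
  imgo : F '' {w | κ < w.re} = {w | b w.im < w.re}
  inj : InjOn F {w | κ ≤ w.re}
  gcont : Continuous g
  gmono : StrictMono g
  gsurj : Function.Surjective g
  godd : ∀ y, g (-y) = -g y
  gval : ∀ y : ℝ, F (κ + y * I) = b (g y) + g y * I

/-- the base crescent -/
def Cr (κ : ℝ) (b : ℝ → ℝ) : Set ℂ := {w | κ ≤ w.re ∧ w.re ≤ b w.im}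

/-- the map between base crescents, sending `v` to `v'` -/
structure CB (F F' : ℂ → ℂ) (κ κ' : ℝ) (b b' : ℝ → ℝ) (v v' : ℂ) (ψ : ℂ → ℂ) : Prop where
  cont : ContinuousOn ψ (Cr κ b)
  inj : InjOn ψ (Cr κ b)
  img : ψ '' Cr κ b = Cr κ' b'
  left : ∀ w ∈ Cr κ b, (ψ w).re = κ' ↔ w.re = κ
  right : ∀ w ∈ Cr κ b, (ψ w).re = b' (ψ w).im ↔ w.re = b w.im
  fe : ∀ w : ℂ, w.re = κ → ψ (F w) = F' (ψ w)
  zero : ∀ w ∈ Cr κ b, (ψ w).im = 0 ↔ w.im = 0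
  neg : ∀ w ∈ Cr κ b, (ψ w).im < 0 ↔ w.im < 0
  base : ψ κ = κ'
  val : ψ v = v'
  prop : ∀ R : ℝ, ∃ R' : ℝ, ∀ w ∈ Cr κ b, R' ≤ ‖w‖ → R ≤ ‖ψ w‖

end Y1x

section P1x

/-- Regularity data: a postcritical set `P`, whose points (and those of the small rigid set
`A0`) in the half plane lie over `A.Xo` or are among the real points `E`. -/
structure RG (q : RQ) {S : TS} (A A0 : XS S) (P : Set ℂ) (E : Finset ℝ) : Prop where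
  pc : PC q.h P
  bdd : Bornology.IsBounded P
  conn : IsPreconnected Pᶜ
  sub : A0.Xo ⊆ A.Xo
  im : ∀ z ∈ HH, 0 < z.im → (q.h.eval z).im = 0 → z ∉ P ∧ mm q.v z ∉ A0.X
  re : ∀ x : ℝ, x ≤ q.r → x ∉ E → (x : ℂ) ∉ P ∧ mm q.v x ∉ A0.X
  reg : ∀ z ∈ HH, z ∈ P ∨ mm q.v z ∈ A0.X → mm q.v z ∈ A.Xo ∨ ∃ x ∈ E, z = (x : ℂ)

end P1x

section G1x

/-- closed upper half disc -/
def HD : Set ℂ := {ζ | ‖ζ‖ ≤ 1 ∧ 0 ≤ ζ.im}

/-- folded squaring -/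
def sqf (ζ : ℂ) : ℂ := fold (ζ ^ 2)

/-- Local Böttcher chart at the real superattracting fixed point (the boundary point
`ec κ = ec ω₀` of the disc): `c` is the logarithm of the chart. -/
structure LB {S : TS} {A : XS S} (B : Br S A) where
  r0 : ℝ
  c : ℂ → ℂ
  pos : 0 < r0
  lt : r0 < 1
  cont : ContinuousOn c (HB r0)
  maps : MapsTo c (HB r0) (OO A.Xo)
  im_mem : ∀ ζ ∈ HB r0, (c ζ).im ∈ Ioo 0 (2 * Real.pi)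
  inj : InjOn c (HB r0)
  real : ∀ ζ ∈ HB r0, (c ζ).re = 0 ↔ ζ.im = 0
  mono : StrictMonoOn (fun x : ℝ => (c x).im) (Icc (-r0) r0)
  zero : c 0 = S.κ * I
  feP : ∀ ζ ∈ HB r0, 0 ≤ ζ.re → c ζ = B.Φ (c (sqf ζ))
  feM : ∀ ζ ∈ HB r0, ζ.re ≤ 0 → c ζ = B.g4 (exp (c (sqf ζ)))
  openo : ∀ δ : ℝ, 0 < δ → δ < r0 →
    ∃ O, IsOpen O ∧ (fun t => exp (c t)) '' {t | ‖t‖ < δ ∧ 0 ≤ t.im} = O ∩ DD

/-- the plane version: the chart is the restriction of a holomorphic real map -/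
structure LBq (q : RQ) {S : TS} {A : XS S} {B : Br S A} (L : LB B) : Prop where
  holo : ∃ χ0 : ℂ → ℂ, DifferentiableOn ℂ χ0 (ball 0 L.r0) ∧
    (∀ ζ ∈ ball (0 : ℂ) L.r0, χ0 (conj ζ) = conj (χ0 ζ)) ∧ χ0 0 = q.r ∧
    (∀ ζ ∈ ball (0 : ℂ) L.r0, 0 ≤ ζ.im → χ0 ζ ∈ HH ∧ mm q.v (χ0 ζ) = exp (L.c ζ)) ∧
    ∀ ζ ∈ ball (0 : ℂ) L.r0, q.h.eval (χ0 ζ) = χ0 (ζ ^ 2)

/-- the marked basin at the level of the disc -/
structure BD {S : TS} {A : XS S} (B : Br S A) where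
  c : ℂ → ℂ
  a : ℝ → ℝ
  cont : ContinuousOn c HD
  maps : MapsTo c HD (OO A.Xo)
  inj : InjOn (fun ζ => exp (c ζ)) HD
  real : ∀ t ∈ Icc (-1 : ℝ) 1, c t = a t * I ∧ a t ∈ Ioo 0 (2 * Real.pi)
  mono : StrictMonoOn a (Icc (-1) 1)
  conta : ContinuousOn a (Icc (-1) 1)
  nonreal : ∀ ζ ∈ HD, (c ζ).re = 0 → ζ.im = 0
  a0 : a 0 = S.κ
  feP : ∀ ζ ∈ HD, 0 ≤ ζ.re → c ζ = B.Φ (c (sqf ζ))
  feM : ∀ ζ ∈ HD, ζ.re ≤ 0 → c ζ = B.g4 (exp (c (sqf ζ)))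
  openo : ∃ O, IsOpen O ∧ (fun t => exp (c t)) '' {t | ‖t‖ < 1 ∧ 0 ≤ t.im} = O ∩ DD

/-- relatively open marked basin in the disc -/
def BD.Bo {S : TS} {A : XS S} {B : Br S A} (D : BD B) : Set ℂ :=
  (fun t => exp (D.c t)) '' {t | ‖t‖ < 1 ∧ 0 ≤ t.im}

/-- closed marked basin in the disc -/
def BD.Bc {S : TS} {A : XS S} {B : Br S A} (D : BD B) : Set ℂ :=
  (fun t => exp (D.c t)) '' HD

/-- small invariant neighbourhood of the superattracting point -/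
def LB.Do {S : TS} {A : XS S} {B : Br S A} (L : LB B) (δ : ℝ) : Set ℂ :=
  (fun t => exp (L.c t)) '' {t | ‖t‖ < δ ∧ 0 ≤ t.im}

/-- The logarithmic parametrisation of the marked basin with its functional equations. -/
structure CD {S : TS} {A : XS S} {B : Br S A} (L : LB B) (c : ℂ → ℂ) (No : Set ℂ) : Prop where
  κω : S.κ = S.ω₀
  one : (1 : ℂ) ∈ No
  cont : ContinuousOn c HD
  maps : MapsTo c HD (OO (A.Xo ∪ No))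
  eqL : ∀ ζ ∈ HB L.r0, c ζ = L.c ζ
  feP : ∀ ζ ∈ HD, 0 ≤ ζ.re → c ζ = B.Φ (c (sqf ζ))
  feM : ∀ ζ ∈ HD, ζ.re ≤ 0 → c ζ = B.g4 (exp (c (sqf ζ)))

end G1x

section H1x

/-- landing value: the point of `[-2,2]` where the ray through a point of the closed disc
(the plane with its circle at infinity) lands -/
def lvd (ζ : ℂ) : ℝ :=
  4 * ζ.re / (‖ζ - 2 * (1 - ‖ζ‖)‖ + ‖ζ + 2 * (1 - ‖ζ‖)‖)

/-- the homeomorphism of the half disc with `fold (diskMap (-2) ζ) = Lam2 (sqf ζ)` -/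
def Lam2 (ξ : ℂ) : ℂ :=
  if ‖ξ‖ < 1 then ofPlane (ξ / (1 - (Real.sqrt ‖ξ‖ : ℝ)) ^ 2 - 2) else ξ

/-- the folded model map -/
def tau (ζ : ℂ) : ℂ := fold (diskMap (-2) ζ)

/-- the right and left inverse branches of `tau` -/
structure Roots (tr tl : ℂ → ℂ) : Prop where
  cr : ContinuousOn tr HD
  cl : ContinuousOn tl HD
  mr : MapsTo tr HD HD
  ml : MapsTo tl HD HD
  r_re : ∀ ξ ∈ HD, 0 ≤ (tr ξ).re
  l_re : ∀ ξ ∈ HD, (tl ξ).re ≤ 0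
  r_tau : ∀ ξ ∈ HD, tau (tr ξ) = ξ
  l_tau : ∀ ξ ∈ HD, tau (tl ξ) = ξ
  r_inv : ∀ ζ ∈ HD, 0 ≤ ζ.re → tr (tau ζ) = ζ
  l_inv : ∀ ζ ∈ HD, ζ.re ≤ 0 → tl (tau ζ) = ζ
  r_norm : ∀ ξ ∈ HD, ‖tr ξ‖ < 1 ↔ ‖ξ‖ < 1
  l_norm : ∀ ξ ∈ HD, ‖tl ξ‖ < 1 ↔ ‖ξ‖ < 1
  r_circ : ∀ ξ ∈ HD, ‖ξ‖ = 1 → sqf (tr ξ) = ξ
  l_circ : ∀ ξ ∈ HD, ‖ξ‖ = 1 → sqf (tl ξ) = ξ
  r_real : ∀ ξ ∈ HD, (tr ξ).im = 0 ↔ ξ.im = 0 ∧ -(2 / 3) ≤ ξ.re
  l_real : ∀ ξ ∈ HD, (tl ξ).im = 0 ↔ ξ.im = 0 ∧ -(2 / 3) ≤ ξ.re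
  eq_iff : ∀ ξ ∈ HD, tr ξ = tl ξ ↔ ξ.im = 0 ∧ ξ.re ≤ -(2 / 3)
  r_mono : StrictMonoOn (fun t : ℝ => (tr t).re) (Icc (-(2 / 3)) 1)
  l_anti : StrictAntiOn (fun t : ℝ => (tl t).re) (Icc (-(2 / 3)) 1)
  r_vals : tr (-(2 / 3)) = 0 ∧ tr (2 / 3) = 2 / 3 ∧ tr 1 = 1
  l_vals : tl (-(2 / 3)) = 0 ∧ tl (2 / 3) = -(2 / 3) ∧ tl 1 = -1

end H1x

section H2ax

variable {S : TS} {A : XS S} {B : Br S A} (D : BD B)

/-- inverse of the parametrisation -/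
def BD.inv (z : ℂ) : ℂ := Function.invFunOn (fun ζ => exp (D.c ζ)) HD z

/-- the principal sheet of the double cover of `Bc` -/
def BD.Pp : Set ℂ := (fun ξ => exp (D.c ξ / 2)) '' HD

open Classical in
/-- the twisted folded map -/
def BD.tF (z : ℂ) : ℂ := if z ∈ D.Bc then exp (D.c (tau (D.inv z))) else S.F z

open Classical in
/-- the twisted tile of the critical point -/
def BD.tΘ (tr : ℂ → ℂ) (s : ℂ) : ℂ :=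
  if s ∈ D.Pp then exp (D.c (tr (D.inv (s ^ 2)))) else S.Θ s

open Classical in
/-- the twisted left tile -/
def BD.t4 (tl : ℂ → ℂ) (w : ℂ) : ℂ :=
  if w ∈ D.Bc then exp (D.c (tl (D.inv w))) else S.G4 w

end H2ax

section H2x

/-- The twisted tile system: `S` with the dynamics on the marked basin replaced by the model
`z ^ 2 - 2`. -/
structure TW0 {S : TS} {A : XS S} {B : Br S A} (D : BD B) (tr tl : ℂ → ℂ) (T : TS) : Prop where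
  κ_eq : T.κ = D.a (-(2 / 3))
  ω_eq : T.ω₀ = S.ω₀
  beta : IsBeta T (D.a (2 / 3))
  F_in : ∀ ζ ∈ HD, T.F (exp (D.c ζ)) = exp (D.c (tau ζ))
  F_out : ∀ z ∈ DD, z ∉ D.Bo → T.F z = S.F z
  Θ_in : ∀ ξ ∈ HD, T.Θ (exp (D.c ξ / 2)) = exp (D.c (tr ξ))
  Θ_neg : ∀ ξ ∈ HD, T.Θ (-exp (D.c ξ / 2)) = S.Θ (-exp (D.c ξ / 2))
  Θ_out : ∀ s ∈ DD, s ^ 2 ∉ D.Bo → T.Θ s = S.Θ s
  G2_eq : ∀ w ∈ DD, T.G2 w = S.G2 w
  G4_in : ∀ ξ ∈ HD, T.G4 (exp (D.c ξ)) = exp (D.c (tl ξ))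
  G4_out : ∀ w ∈ DD, w ∉ D.Bo → T.G4 w = S.G4 w

/-- `T` is the tile system `S` with the dynamics on the marked basin replaced by the model
`z ^ 2 - 2` (and unchanged elsewhere). -/
structure TW {S : TS} {A : XS S} {B : Br S A} (D : BD B) (T : TS) (A' : XS T)
    (B' : Br T A') : Prop where
  κ_eq : T.κ = D.a (-(2 / 3))
  ω_eq : T.ω₀ = S.ω₀
  beta : IsBeta T (D.a (2 / 3))
  F_in : ∀ ζ ∈ HD, T.F (exp (D.c ζ)) = exp (D.c (tau ζ))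
  F_out : ∀ z ∈ DD, z ∉ D.Bo → T.F z = S.F z
  Θ_out : ∀ s ∈ DD, s ^ 2 ∉ D.Bo → T.Θ s = S.Θ s
  G2_eq : ∀ w ∈ DD, T.G2 w = S.G2 w
  G4_out : ∀ w ∈ DD, w ∉ D.Bo → T.G4 w = S.G4 w
  X_eq : A'.X = A.X
  Xo_eq : A'.Xo = A.Xo
  idx_eq : A'.idx = A.idx
  e_eq : A'.e = A.e
  ap_out : ∀ l, ∀ u ∈ OO A.Xo, exp u ∉ D.Bo → B'.ap l u = B.ap l u
  feP : ∀ ζ ∈ HD, 0 ≤ ζ.re → D.c ζ = B'.ap (Ltr.P 0) (D.c (tau ζ))
  feM : ∀ ζ ∈ HD, ζ.re ≤ 0 → D.c ζ = B'.ap (Ltr.Q4 0) (D.c (tau ζ))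

end H2x

section G4x

/-- the marking in the plane -/
structure MB (q : RQ) {S : TS} {A : XS S} {B : Br S A} (D : BD B) (χ : ℂ → ℂ) : Prop where
  cont : ContinuousOn χ (closedBall 0 1)
  sym : ∀ ζ ∈ closedBall (0 : ℂ) 1, χ (conj ζ) = conj (χ ζ)
  mem : ∀ ζ ∈ HD, χ ζ ∈ HH
  disc : ∀ ζ ∈ HD, mm q.v (χ ζ) = exp (D.c ζ)
  inj : InjOn χ (closedBall 0 1)
  conjF : ∀ ζ ∈ closedBall (0 : ℂ) 1, q.h.eval (χ ζ) = χ (ζ ^ 2)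
  zero : χ 0 = q.r
  opn : IsOpen (χ '' ball 0 1)

/-- All the data of a pair (polynomial with a marked basin, tuned polynomial). -/
structure FD (q q' : RQ) where
  S : TS
  g : TS
  hS : IsTS q S
  hg : IsTS q' g
  fix : q.p.eval q.r = q.r
  A : XS S
  B : Br S A
  L : LB B
  hL : LBq q L
  D : BD B
  hD : ∀ ζ ∈ HB L.r0, D.c ζ = L.c ζ
  χ : ℂ → ℂ
  mb : MB q D χ
  T : TS
  A' : XS T
  B' : Br T A'
  hT : TW D T A' B'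
  G : XS g
  E : Br g G
  M : NS T
  N : NS g
  βg : ℝ
  hβ : IsBeta g βg
  P0 : ℂ → ℂ
  H0 : ℂ → ℂ
  R : ℂ → ℂ
  H : ℂ → ℂ
  ρ : ℝ → ℝ
  hE : EC T g A' G M N (D.a (2 / 3)) βg P0 H0 R H ρ
  he : A'.e = G.e
  injX : InjOn R A.X
  injN : InjOn R M.N
  mapsNo : MapsTo R M.No N.No
  mapsXo : MapsTo R A.Xo G.Xo
  hM : ∀ ζ ∈ HD, exp (D.c ζ) ∉ M.N
  MF : MapsTo S.F M.N M.N
  shG : Shrinks E (G.Xo ∪ N.No)
  δ : ℝ
  hδ : 0 < δ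
  hδ' : δ < L.r0
  zs : ZS S A (A.Xo ∪ M.No ∪ L.Do δ)
  shS : Shrinks B (A.Xo ∪ M.No ∪ L.Do δ)
  lk : Linked A (A.Xo ∪ M.No ∪ L.Do δ)

end G4x

section H3x

variable {q q' : RQ}

/-- the set removed from the disc -/
def FD.Z (d : FD q q') : Set ℂ := d.A.Xo ∪ d.M.No ∪ d.L.Do d.δ

end H3x

section H5x

variable {q q' : RQ}

/-- the unfolded semiconjugacy -/
def FD.Pi (d : FD q q') (z : ℂ) : ℂ :=
  if 0 ≤ z.im then mi q'.v (d.R (mm q.v z)) else conj (mi q'.v (d.R (mm q.v (conj z))))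

open Classical in
/-- the glued map -/
def FD.Tp (d : FD q q') (z : ℂ) : ℂ :=
  if z ∈ d.χ '' closedBall 0 1 then
    d.χ (diskMap (-2) (Function.invFunOn d.χ (closedBall 0 1) z)) else q.h.eval z

/-- a parametrised preimage of the closed basin, of depth `n` -/
structure Par (q : RQ) (χ : ℂ → ℂ) (n : ℕ) (s : ℂ → ℂ) : Prop where
  cont : ContinuousOn s (closedBall 0 1)
  eq : ∀ ζ ∈ closedBall (0 : ℂ) 1, (fun w => q.h.eval w)^[n] (s ζ) = χ ζ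
  out : ∀ m < n, ∀ ζ ∈ closedBall (0 : ℂ) 1,
    (fun w => q.h.eval w)^[m] (s ζ) ∉ χ '' closedBall 0 1

/-- the ray classes -/
def FD.Cls (d : FD q q') (x y : ℂ) : Prop :=
  x = y ∨ ∃ n s, Par q d.χ n s ∧ ∃ ζ ∈ closedBall (0 : ℂ) 1, ∃ ζ' ∈ closedBall (0 : ℂ) 1,
    x = s ζ ∧ y = s ζ' ∧ lvd ζ = lvd ζ'

end H5x

section K1x

/-- topological conjugacy of polynomials -/
def TopConj (P Q : ℂ[X]) : Prop := ∃ φ : ℂ ≃ₜ ℂ, ∀ z, φ (P.eval z) = Q.eval (φ z)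

/-- dynamical data of the hyperbolic tuned polynomial -/
structure DHyp (P : ℂ[X]) : Prop where
  data : ∃ a₁ a₂ β r : ℂ, a₁ ≠ a₂ ∧ a₁ ≠ β ∧ a₂ ≠ β ∧ P.eval a₁ = a₁ ∧ P.eval a₂ = a₂ ∧
    P.eval β = β ∧ ‖P.derivative.eval a₁‖ < 1 ∧ ‖P.derivative.eval a₂‖ < 1 ∧
    P.derivative.eval r = 0 ∧ P.eval (P.eval r) = β

/-- dynamical data of the parabolic tuned polynomial -/
structure DPar (P : ℂ[X]) : Prop where
  data : ∃ z₀ z₁ z₂ : ℂ, z₀ ≠ z₁ ∧ z₀ ≠ z₂ ∧ z₁ ≠ z₂ ∧ P.eval z₀ = z₀ ∧ P.eval z₁ = z₁ ∧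
    P.eval z₂ = z₂ ∧ (∀ z, P.eval z = z → z = z₀ ∨ z = z₁ ∨ z = z₂) ∧
    1 < ‖P.derivative.eval z₁‖ ∧ 1 < ‖P.derivative.eval z₂‖ ∧
    ∀ c, P.derivative.eval c = 0 → P.eval (P.eval (P.eval c)) = P.eval (P.eval c) →
      P.eval (P.eval c) = z₀

end K1x

section N1x

/-- the family to be tuned; `ε = 0` is the limit -/
def fR (ε : ℝ) : ℝ[X] :=
  X + C (1 / ((1 + ε ^ 2) * (17 / 10))) * ((X ^ 2 + C (ε ^ 2)) * (X + 1) * (X - C (7 / 10)))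

/-- the hyperbolic tuned polynomial -/
def gH : ℝ[X] := C (135 / 98) * X + C (-(243 / 196)) * X ^ 2 + C (27 / 56) * X ^ 3 +
  C (1215 / 392) * X ^ 4

/-- the parabolic tuned polynomial -/
def gP : ℝ[X] := X + C (-(4559 / 3025)) * X ^ 2 + C (52512 / 33275) * X ^ 3 +
  C (135936 / 33275) * X ^ 4

/-- an attracting fixed point in the upper half plane -/
def HasAtt (q : RQ) : Prop := ∃ a : ℂ, 0 < a.im ∧ q.h.eval a = a ∧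
  q.h.derivative.eval a ≠ 0 ∧ ‖q.h.derivative.eval a‖ < 1

end N1x

end

end Pool.TU
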