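import Pool.Agent.Helper71.TU.C1
import Pool.Agent.Helper71.TU.B5

/-! # TU C2aux: the coordinate at infinity in the plane -/

open Complex Set Filter Topology Metric Polynomial ComplexConjugate Pool.Tuning

namespace Pool.TU

noncomputable section

/-- the coordinate `x = 1 / (A z)` at infinity as a function of the Böttcher parameter `t` -/
structure C2Ch (q : RQ) where
  A : ℝ
  X : ℂ → ℂ
  δ1 : ℝ
  hA : 0 < A
  pos : 0 < δ1
  lt : δ1 < 1
  cont : ContinuousOn X (ball 0 δ1)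
  inj : InjOn X (ball 0 δ1)
  near : ∀ t ∈ ball (0 : ℂ) δ1, ‖X t + t‖ ≤ ‖t‖ / 2
  real : ∀ t ∈ ball (0 : ℂ) δ1, X (conj t) = conj (X t)
  im_neg : ∀ t ∈ ball (0 : ℂ) δ1, 0 < t.im → (X t).im < 0
  fe : ∀ t ∈ ball (0 : ℂ) δ1, t ≠ 0 → q.h.eval (1 / (A * X t)) = 1 / (A * X (-t ^ 4))
  opn : ∀ δ : ℝ, 0 < δ → δ ≤ δ1 → IsOpen (X '' ball 0 δ)

theorem c2_exists (q : RQ) : Nonempty (C2Ch q) := by
  set a : ℝ := q.p.leadingCoeff with ha'
  have ha : 0 < a := q.lead
  set A : ℝ := a ^ ((1 : ℝ) / 3) with hA'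
  have hA : 0 < A := Real.rpow_pos_of_pos ha _
  have hA3 : A ^ 3 = a := by
    rw [hA', ← Real.rpow_natCast, ← Real.rpow_mul ha.le]
    norm_num
  have hAc : (A : ℂ) ≠ 0 := by exact_mod_cast hA.ne'
  have hcoef : ∀ k, q.h.coeff k = ((q.p.coeff k : ℝ) : ℂ) := fun k => by
    rw [RQ.h, Polynomial.coeff_map]
    rfl
  set R : ℂ → ℂ := fun x => A * ∑ k ∈ Finset.range 5, q.h.coeff k * (A : ℂ)⁻¹ ^ k * x ^ (4 - k)
    with hR
  have hRd : Differentiable ℂ R := by
    rw [hR]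
    fun_prop
  have h4 : q.h.coeff 4 = (a : ℂ) := by
    rw [hcoef, ha', Polynomial.leadingCoeff, q.deg]
  have hR0 : R 0 = 1 := by
    rw [hR]
    simp only [Finset.sum_range_succ, Finset.sum_range_zero]
    norm_num
    rw [h4, ← hA3]
    push_cast
    field_simp
  have hRh : ∀ x : ℂ, x ≠ 0 → R x = A * x ^ 4 * q.h.eval (1 / (A * x)) := by
    intro x hx
    rw [hR, Polynomial.eval_eq_sum_range, q.natDegree]
    simp only [Finset.mul_sum]
    refine Finset.sum_congr rfl fun k hk => ?_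
    have hk' : k ≤ 4 := by
      have := Finset.mem_range.1 hk
      omega
    have e1 : x ^ 4 = x ^ (4 - k) * x ^ k := by rw [← pow_add]; congr 1; omega
    rw [e1, one_div, mul_inv, mul_pow, inv_pow x k]
    have : x ^ k ≠ 0 := pow_ne_zero _ hx
    field_simp
  have hRr : ∀ x, R (conj x) = conj (R x) := by
    intro x
    rw [hR]
    simp only [map_mul, map_sum, map_pow, map_inv₀, conj_ofReal, hcoef]
  set e : ℂ → ℂ := fun x => (R x)⁻¹ with he'
  have he : AnalyticAt ℂ e 0 := by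
    have := (hRd.analyticAt 0).inv (by rw [hR0]; exact one_ne_zero)
    exact this
  have he0 : e 0 = 1 := by rw [he']; simp only [hR0, inv_one]
  have her : ∀ᶠ z in 𝓝 (0 : ℂ), e (conj z) = conj (e z) := by
    refine Eventually.of_forall fun z => ?_
    rw [he']
    simp only [hRr, map_inv₀]
  obtain ⟨φ, r, hr, hφd, hφi, hφ0, hφ1, hF, hfe, hφr⟩ :=
    boettcher_local 4 (by norm_num) e he he0 her
  have h0r : (0 : ℂ) ∈ ball (0 : ℂ) r := mem_ball_self hr
  have hRne : ∀ x ∈ ball (0 : ℂ) r, R x ≠ 0 := by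
    intro x hx h0
    have h1 : φ x ^ 4 = 0 := by
      rw [← hfe x hx]
      rw [he']
      simp only [h0, inv_zero, mul_zero, hφ0]
    have h2 : φ x = φ 0 := by
      rw [hφ0]
      exact pow_eq_zero_iff (by norm_num) |>.1 h1
    have h3 : x = 0 := hφi hx h0r h2
    rw [h3, hR0] at h0
    exact one_ne_zero h0
  have hφa : AnalyticAt ℂ φ 0 := hφd.analyticAt (isOpen_ball.mem_nhds h0r)
  have hφs : HasStrictDerivAt φ 1 0 := by
    have := hφa.hasStrictDerivAt
    rwa [hφ1] at this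
  -- the near estimate
  have hnear : ∀ᶠ x in 𝓝 (0 : ℂ), ‖φ x - x‖ ≤ 1 / 3 * ‖x‖ := by
    have h1 := hasDerivAt_iff_isLittleO.1 hφs.hasDerivAt
    have h2 := h1.def (c := 1 / 3) (by norm_num)
    filter_upwards [h2] with x hx
    simpa [hφ0] using hx
  obtain ⟨r1, hr1, hr1'⟩ := Metric.eventually_nhds_iff_ball.1 hnear
  set r' : ℝ := min r r1 with hr'
  have hr'0 : 0 < r' := lt_min hr hr1
  have hsub : ball (0 : ℂ) r' ⊆ ball 0 r := ball_subset_ball (min_le_left _ _)
  have hsub1 : ball (0 : ℂ) r' ⊆ ball 0 r1 := ball_subset_ball (min_le_right _ _)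
  set Φ := (hφs.hasStrictFDerivAt_equiv one_ne_zero).toOpenPartialHomeomorph φ with hΦ
  have hΦc : ∀ w, Φ w = φ w := fun w => by
    rw [hΦ]
    rfl
  have hΦ0 : (0 : ℂ) ∈ Φ.source :=
    (hφs.hasStrictFDerivAt_equiv one_ne_zero).mem_toOpenPartialHomeomorph_source
  set Ψ := Φ.restrOpen (ball 0 r') isOpen_ball with hΨ
  have hΨs : Ψ.source = Φ.source ∩ ball 0 r' := Φ.restrOpen_source _ _
  have hΨc : ∀ w, Ψ w = φ w := fun w => hΦc w
  have h0s : (0 : ℂ) ∈ Ψ.source := by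
    rw [hΨs]
    exact ⟨hΦ0, mem_ball_self hr'0⟩
  have h0t : (0 : ℂ) ∈ Ψ.target := by
    have := Ψ.map_source h0s
    rwa [hΨc, hφ0] at this
  obtain ⟨d, hd, hd'⟩ := Metric.isOpen_iff.1 Ψ.open_target 0 h0t
  set δ1 : ℝ := min d (1 / 2) with hδ1
  have hδ1p : 0 < δ1 := lt_min hd (by norm_num)
  have hδ1l : δ1 < 1 := lt_of_le_of_lt (min_le_right _ _) (by norm_num)
  have hδt : ∀ t ∈ ball (0 : ℂ) δ1, t ∈ Ψ.target := fun t ht =>
    hd' (ball_subset_ball (min_le_left _ _) ht)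
  set X : ℂ → ℂ := fun t => Ψ.symm (-t) with hX
  have hneg : ∀ t ∈ ball (0 : ℂ) δ1, -t ∈ ball (0 : ℂ) δ1 := fun t ht => by
    rw [mem_ball_zero_iff] at ht ⊢
    rwa [norm_neg]
  have hXs : ∀ t ∈ ball (0 : ℂ) δ1, X t ∈ Ψ.source := fun t ht =>
    Ψ.map_target (hδt _ (hneg t ht))
  have hXb' : ∀ t ∈ ball (0 : ℂ) δ1, X t ∈ ball (0 : ℂ) r' := fun t ht => by
    have := hXs t ht
    rw [hΨs] at this
    exact this.2
  have hXb : ∀ t ∈ ball (0 : ℂ) δ1, X t ∈ ball (0 : ℂ) r := fun t ht => hsub (hXb' t ht)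
  have hφX : ∀ t ∈ ball (0 : ℂ) δ1, φ (X t) = -t := fun t ht => by
    have := Ψ.right_inv (hδt _ (hneg t ht))
    rwa [hΨc] at this
  have hXuniq : ∀ t ∈ ball (0 : ℂ) δ1, ∀ x ∈ ball (0 : ℂ) r, φ x = -t → x = X t := by
    intro t ht x hx h
    exact hφi hx (hXb t ht) (by rw [h, hφX t ht])
  have hcont : ContinuousOn X (ball 0 δ1) := by
    refine Ψ.continuousOn_symm.comp continuous_neg.continuousOn fun t ht => ?_
    exact hδt _ (hneg t ht)
  have hinj : InjOn X (ball 0 δ1) := by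
    intro t ht t' ht' h
    have h1 := hφX t ht
    rw [h, hφX t' ht'] at h1
    exact (neg_injective h1).symm
  have hnearX : ∀ t ∈ ball (0 : ℂ) δ1, ‖X t + t‖ ≤ ‖t‖ / 2 := by
    intro t ht
    have h1 := hr1' (X t) (hsub1 (hXb' t ht))
    rw [hφX t ht] at h1
    have h2 : ‖X t + t‖ = ‖-t - X t‖ := by
      rw [← norm_neg]
      congr 1
      ring
    have h3 : ‖X t‖ ≤ ‖X t + t‖ + ‖t‖ := by
      have := norm_sub_le (X t + t) t
      rwa [add_sub_cancel_right] at this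
    rw [h2] at h3 ⊢
    linarith
  have hreal : ∀ t ∈ ball (0 : ℂ) δ1, X (conj t) = conj (X t) := by
    intro t ht
    have hct : conj t ∈ ball (0 : ℂ) δ1 := by
      rw [mem_ball_zero_iff] at ht ⊢
      rwa [RCLike.norm_conj]
    have hcx : conj (X t) ∈ ball (0 : ℂ) r := by
      have := hXb t ht
      rw [mem_ball_zero_iff] at this ⊢
      rwa [RCLike.norm_conj]
    refine (hXuniq _ hct _ hcx ?_).symm
    rw [hφr _ (hXb t ht), hφX t ht, map_neg]
  have hneim : ∀ t ∈ ball (0 : ℂ) δ1, t.im ≠ 0 → (X t).im ≠ 0 := by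
    intro t ht h h0
    have hct : conj t ∈ ball (0 : ℂ) δ1 := by
      rw [mem_ball_zero_iff] at ht ⊢
      rwa [RCLike.norm_conj]
    have h1 : X (conj t) = X t := by
      rw [hreal t ht]
      exact conj_eq_iff_im.2 h0
    have h2 : conj t = t := hinj hct ht h1
    exact h (conj_eq_iff_im.1 h2)
  have himneg : ∀ t ∈ ball (0 : ℂ) δ1, 0 < t.im → (X t).im < 0 := by
    intro t ht him
    set H : Set ℂ := {s | s ∈ ball (0 : ℂ) δ1 ∧ 0 < s.im} with hH
    have hconv : Convex ℝ H := by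
      have h1 : Convex ℝ {s : ℂ | 0 < s.im} := convex_halfSpace_im_gt 0
      exact (convex_ball (0 : ℂ) δ1).inter h1
    have hpre : IsPreconnected H := hconv.isPreconnected
    by_contra hcon
    have hcon' : 0 < (X t).im := lt_of_le_of_ne (not_lt.1 hcon) (hneim t ht him.ne').symm
    -- the point i y
    set y : ℝ := δ1 / 2 with hy
    have hy0 : 0 < y := by positivity
    set s : ℂ := y * I with hs
    have hsn : ‖s‖ = y := by
      rw [hs, norm_mul, norm_real, norm_I, mul_one, Real.norm_eq_abs, abs_of_pos hy0]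
    have hsb : s ∈ ball (0 : ℂ) δ1 := by
      rw [mem_ball_zero_iff, hsn, hy]
      linarith
    have hsim : s.im = y := by rw [hs]; simp
    have hsX : (X s).im < 0 := by
      have h1 := hnearX s hsb
      rw [hsn] at h1
      have h2 := (abs_le.1 ((abs_im_le_norm (X s + s)).trans h1)).2
      rw [add_im, hsim] at h2
      linarith
    have hc : ContinuousOn (fun t => (X t).im) H :=
      continuous_im.comp_continuousOn (hcont.mono fun s hs => hs.1)
    have hiv := hpre.intermediate_value (a := s) (b := t) ⟨hsb, by rw [hsim]; exact hy0⟩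
      ⟨ht, him⟩ hc
    obtain ⟨w, hw, hw0⟩ := hiv ⟨hsX.le, hcon'.le⟩
    exact hneim w hw.1 hw.2.ne' hw0
  refine ⟨⟨A, X, δ1, hA, hδ1p, hδ1l, hcont, hinj, hnearX, hreal, himneg, ?_, ?_⟩⟩
  · intro t ht ht0
    have hx0 : X t ≠ 0 := by
      intro h
      have h1 := hnearX t ht
      rw [h, zero_add] at h1
      have h2 : 0 < ‖t‖ := norm_pos_iff.2 ht0
      linarith
    have ht4 : -t ^ 4 ∈ ball (0 : ℂ) δ1 := by
      rw [mem_ball_zero_iff] at ht ⊢
      rw [norm_neg, norm_pow]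
      have h1 : ‖t‖ ≤ 1 := (ht.trans hδ1l).le
      calc ‖t‖ ^ 4 ≤ ‖t‖ ^ 1 := pow_le_pow_of_le_one (norm_nonneg _) h1 (by norm_num)
        _ = ‖t‖ := pow_one _
        _ < δ1 := ht
    have h1 : X t ^ 4 * e (X t) = X (-t ^ 4) := by
      refine hXuniq _ ht4 _ (hF _ (hXb t ht)) ?_
      rw [hfe _ (hXb t ht), hφX t ht, neg_neg]
      ring
    have h2 := hRne _ (hXb t ht)
    have h3 := hRh (X t) hx0
    rw [← h1, he']
    have h4 : q.h.eval (1 / (A * X t)) = R (X t) / (A * X t ^ 4) := by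
      rw [h3]
      field_simp
    rw [h4]
    field_simp
  · intro δ hδ hδl
    have : X '' ball 0 δ = Ψ.source ∩ Ψ ⁻¹' ball 0 δ := by
      ext x
      constructor
      · rintro ⟨t, ht, rfl⟩
        have ht1 := ball_subset_ball hδl ht
        refine ⟨hXs t ht1, ?_⟩
        rw [mem_preimage, hΨc, hφX t ht1, mem_ball_zero_iff, norm_neg]
        exact mem_ball_zero_iff.1 ht
      · rintro ⟨hx, hx2⟩
        rw [mem_preimage] at hx2
        refine ⟨-Ψ x, ?_, ?_⟩
        · rw [mem_ball_zero_iff, norm_neg]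
          exact mem_ball_zero_iff.1 hx2
        · rw [hX]
          simp only [neg_neg]
          exact Ψ.left_inv hx
    rw [this]
    exact Ψ.isOpen_inter_preimage isOpen_ball

end

end Pool.TU
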