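import Pool.Agent.Helper71.TU.C2aux
import Pool.Agent.Helper71.TU.B1

/-! # TU C2b: the coordinate of the disc near `1` -/

open Complex Set Filter Topology Metric Polynomial ComplexConjugate Pool.Tuning

namespace Pool.TU

noncomputable section

/-- numerator and denominator -/
def c2N (A : ℝ) (v x : ℂ) : ℂ := 1 - A * v * x

theorem c2_normSq (A : ℝ) (v x : ℂ) :
    normSq (c2N A v x) = normSq (c2N A (conj v) x) + 4 * A * v.im * x.im := by
  simp only [c2N, normSq_apply, sub_re, sub_im, mul_re, mul_im, one_re, one_im, ofReal_re,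
    ofReal_im, conj_re, conj_im]
  ring

/-- the Möbius map -/
def c2m (A : ℝ) (v x : ℂ) : ℂ := c2N A v x / c2N A (conj v) x

theorem c2m_mm (A : ℝ) (hA : 0 < A) (v : ℂ) {x : ℂ} (hx : x ≠ 0) :
    mm v (1 / (A * x)) = c2m A v x := by
  have hA' : (A : ℂ) ≠ 0 := by exact_mod_cast hA.ne'
  have hAx : (A : ℂ) * x ≠ 0 := mul_ne_zero hA' hx
  have e1 : 1 / (A * x) - v = c2N A v x / (A * x) := by
    rw [c2N]
    field_simp
  have e2 : 1 / (A * x) - conj v = c2N A (conj v) x / (A * x) := by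
    rw [c2N]
    field_simp
  rw [mm, e1, e2, c2m, div_div_div_cancel_right₀ hAx]

theorem c2m_le (A : ℝ) (hA : 0 < A) {v : ℂ} (hv : 0 < v.im) {x : ℂ}
    (hD : c2N A (conj v) x ≠ 0) : ‖c2m A v x‖ ≤ 1 ↔ x.im ≤ 0 := by
  have h1 : 0 < normSq (c2N A (conj v) x) := normSq_pos.2 hD
  have h2 : ‖c2m A v x‖ ≤ 1 ↔ normSq (c2N A v x) ≤ normSq (c2N A (conj v) x) := by
    rw [c2m, norm_div, div_le_one (norm_pos_iff.2 hD), ← Complex.sq_norm, ← Complex.sq_norm,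
      pow_le_pow_iff_left₀ (norm_nonneg _) (norm_nonneg _) two_ne_zero]
  rw [h2, c2_normSq]
  have h3 : 0 < 4 * A * v.im := by positivity
  constructor
  · intro h
    by_contra h'
    have : 0 < 4 * A * v.im * x.im := mul_pos h3 (not_le.1 h')
    linarith
  · intro h
    have : 4 * A * v.im * x.im ≤ 0 := mul_nonpos_of_nonneg_of_nonpos h3.le h
    linarith

theorem c2m_eq (A : ℝ) (hA : 0 < A) {v : ℂ} (hv : 0 < v.im) {x : ℂ}
    (hD : c2N A (conj v) x ≠ 0) : ‖c2m A v x‖ = 1 ↔ x.im = 0 := by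
  have h2 : ‖c2m A v x‖ = 1 ↔ normSq (c2N A v x) = normSq (c2N A (conj v) x) := by
    rw [c2m, norm_div, div_eq_one_iff_eq (norm_pos_iff.2 hD).ne', ← Complex.sq_norm,
      ← Complex.sq_norm, pow_left_inj₀ (norm_nonneg _) (norm_nonneg _) two_ne_zero]
  rw [h2, c2_normSq]
  have h3 : 4 * A * v.im ≠ 0 := by positivity
  constructor
  · intro h
    have : 4 * A * v.im * x.im = 0 := by linarith
    exact (mul_eq_zero.1 this).resolve_left h3
  · intro h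
    rw [h]
    ring

theorem c2m_inj (A : ℝ) (hA : 0 < A) {v : ℂ} (hv : 0 < v.im) {x y : ℂ}
    (hx : c2N A (conj v) x ≠ 0) (hy : c2N A (conj v) y ≠ 0) (h : c2m A v x = c2m A v y) :
    x = y := by
  rw [c2m, c2m, div_eq_div_iff hx hy] at h
  have hA' : (A : ℂ) ≠ 0 := by exact_mod_cast hA.ne'
  have hv' : v - conj v ≠ 0 := by
    rw [sub_conj]
    intro h0
    have := congrArg Complex.im h0
    simp at this
    exact hv.ne' this
  have h2 : (A : ℂ) * (v - conj v) * (y - x) = 0 := by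
    simp only [c2N] at h
    linear_combination h
  have h3 := (mul_eq_zero.1 h2).resolve_left (mul_ne_zero hA' hv')
  exact (sub_eq_zero.1 h3).symm

theorem c2_im_inv (A : ℝ) (x : ℂ) : (1 / ((A : ℂ) * x)).im = -(x.im) / (A * normSq x) := by
  by_cases hA : A = 0
  · rw [hA]
    simp
  rw [one_div, mul_inv, ← ofReal_inv, im_ofReal_mul, inv_im]
  field_simp

theorem c2_im_inv_nonneg {A : ℝ} (hA : 0 < A) {x : ℂ} (hx : x ≠ 0) :
    0 ≤ (1 / ((A : ℂ) * x)).im ↔ x.im ≤ 0 := by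
  rw [c2_im_inv]
  have : 0 < A * normSq x := mul_pos hA (normSq_pos.2 hx)
  rw [le_div_iff₀ this]
  constructor <;> intro h <;> linarith

theorem c2_fold_of {w : ℂ} (h : 0 ≤ w.im) : fold w = w := if_pos h

theorem c2_fold_of_neg {w : ℂ} (h : w.im < 0) : fold w = conj w := if_neg (not_le.2 h)

/-- the final data, before the sectors -/
structure C2D (q : RQ) where
  C : C2Ch q
  δ0 : ℝ
  pos : 0 < δ0
  lt : δ0 < C.δ1
  slit : ∀ t ∈ closedBall (0 : ℂ) δ0, c2m C.A q.v (C.X t) ∈ slitPlane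
  small : ∀ t ∈ closedBall (0 : ℂ) δ0, ‖log (c2m C.A q.v (C.X t))‖ < 1
  den : ∀ t ∈ closedBall (0 : ℂ) δ0, c2N C.A (conj q.v) (C.X t) ≠ 0
  num : ∀ t ∈ closedBall (0 : ℂ) δ0, 0 < (c2N C.A q.v (C.X t)).re

theorem C2Ch.X0 {q : RQ} (C : C2Ch q) : C.X 0 = 0 := by
  have := C.near 0 (mem_ball_self C.pos)
  simpa using this

theorem c2d_exists (q : RQ) : Nonempty (C2D q) := by
  obtain ⟨C⟩ := c2_exists q
  have hX : ContinuousAt C.X 0 :=
    (C.cont 0 (mem_ball_self C.pos)).continuousAt (isOpen_ball.mem_nhds (mem_ball_self C.pos))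
  have hN : ∀ w : ℂ, ContinuousAt (fun t => c2N C.A w (C.X t)) 0 := fun w => by
    unfold c2N
    exact continuousAt_const.sub (continuousAt_const.mul hX)
  have hN0 : ∀ w : ℂ, c2N C.A w (C.X 0) = 1 := fun w => by
    rw [c2N, C.X0, mul_zero, sub_zero]
  have hM : ContinuousAt (fun t => c2m C.A q.v (C.X t)) 0 := by
    unfold c2m
    refine (hN _).div (hN _) ?_
    rw [hN0]
    exact one_ne_zero
  have hM0 : c2m C.A q.v (C.X 0) = 1 := by rw [c2m, hN0, hN0, div_one]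
  have h1 : ∀ᶠ t in 𝓝 (0 : ℂ), c2m C.A q.v (C.X t) ∈ slitPlane :=
    hM.eventually_mem (isOpen_slitPlane.mem_nhds (by rw [hM0]; exact one_mem_slitPlane))
  have h2 : ∀ᶠ t in 𝓝 (0 : ℂ), ‖log (c2m C.A q.v (C.X t))‖ < 1 := by
    have : ContinuousAt (fun t => log (c2m C.A q.v (C.X t))) 0 :=
      hM.clog (by rw [hM0]; exact one_mem_slitPlane)
    refine this.norm.eventually_lt_const ?_
    change ‖log (c2m C.A q.v (C.X 0))‖ < 1
    rw [hM0, log_one, norm_zero]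
    exact one_pos
  have h3 : ∀ᶠ t in 𝓝 (0 : ℂ), c2N C.A (conj q.v) (C.X t) ≠ 0 :=
    (hN _).eventually_ne (by rw [hN0]; exact one_ne_zero)
  have h4 : ∀ᶠ t in 𝓝 (0 : ℂ), 0 < (c2N C.A q.v (C.X t)).re := by
    have : ContinuousAt (fun t => (c2N C.A q.v (C.X t)).re) 0 :=
      continuous_re.continuousAt.comp (hN _)
    refine this.eventually_const_lt ?_
    change 0 < (c2N C.A q.v (C.X 0)).re
    rw [hN0]
    simp
  obtain ⟨d, hd, hd'⟩ := Metric.nhds_basis_closedBall.eventually_iff.1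
    (h1.and (h2.and (h3.and h4)))
  refine ⟨⟨C, min d (C.δ1 / 2), lt_min hd (half_pos C.pos),
    lt_of_le_of_lt (min_le_right _ _) (half_lt_self C.pos), ?_, ?_, ?_, ?_⟩⟩
  · exact fun t ht => (hd' (closedBall_subset_closedBall (min_le_left _ _) ht)).1
  · exact fun t ht => (hd' (closedBall_subset_closedBall (min_le_left _ _) ht)).2.1
  · exact fun t ht => (hd' (closedBall_subset_closedBall (min_le_left _ _) ht)).2.2.1
  · exact fun t ht => (hd' (closedBall_subset_closedBall (min_le_left _ _) ht)).2.2.2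

namespace C2D

variable {q : RQ} (d : C2D q)

/-- the chart -/
def M (t : ℂ) : ℂ := c2m d.C.A q.v (d.C.X t)

/-- the logarithm of the chart -/
def c (t : ℂ) : ℂ := log (d.M t)

theorem lt_one : d.δ0 < 1 := d.lt.trans d.C.lt

theorem sub : closedBall (0 : ℂ) d.δ0 ⊆ ball 0 d.C.δ1 := closedBall_subset_ball d.lt

theorem mem_cb {t : ℂ} (ht : t ∈ HB d.δ0) : t ∈ closedBall (0 : ℂ) d.δ0 :=
  mem_closedBall_zero_iff.2 ht.1

theorem mem_b {t : ℂ} (ht : t ∈ HB d.δ0) : t ∈ ball (0 : ℂ) d.C.δ1 := d.sub (d.mem_cb ht)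

theorem zero_mem : (0 : ℂ) ∈ HB d.δ0 := ⟨by rw [norm_zero]; exact d.pos.le, le_refl _⟩

theorem M0 : d.M 0 = 1 := by
  rw [M, d.C.X0, c2m, c2N, c2N]
  simp

theorem c0 : d.c 0 = 0 := by rw [c, M0, log_one]

theorem M_ne {t : ℂ} (ht : t ∈ closedBall (0 : ℂ) d.δ0) : d.M t ≠ 0 :=
  slitPlane_ne_zero (d.slit t ht)

theorem exp_c {t : ℂ} (ht : t ∈ closedBall (0 : ℂ) d.δ0) : exp (d.c t) = d.M t :=
  exp_log (d.M_ne ht)

theorem contM : ContinuousOn d.M (closedBall 0 d.δ0) := by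
  have h : ∀ w : ℂ, ContinuousOn (fun t => c2N d.C.A w (d.C.X t)) (closedBall 0 d.δ0) :=
    fun w => by
      unfold c2N
      exact continuousOn_const.sub (continuousOn_const.mul (d.C.cont.mono d.sub))
  unfold M c2m
  exact (h _).div (h _) d.den

theorem contc : ContinuousOn d.c (closedBall 0 d.δ0) := d.contM.clog d.slit

theorem X_ne {t : ℂ} (ht : t ∈ ball (0 : ℂ) d.C.δ1) (h0 : t ≠ 0) : d.C.X t ≠ 0 := by
  intro h
  have h1 := d.C.near t ht
  rw [h, zero_add] at h1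
  have h2 : 0 < ‖t‖ := norm_pos_iff.2 h0
  linarith

theorem X_im_zero {t : ℂ} (ht : t ∈ ball (0 : ℂ) d.C.δ1) (h0 : t.im = 0) :
    (d.C.X t).im = 0 := by
  have h1 := d.C.real t ht
  rw [conj_eq_iff_im.2 h0] at h1
  exact conj_eq_iff_im.1 h1.symm

theorem X_im_pos {t : ℂ} (ht : t ∈ ball (0 : ℂ) d.C.δ1) (h0 : t.im < 0) :
    0 < (d.C.X t).im := by
  have hct : conj t ∈ ball (0 : ℂ) d.C.δ1 := by
    rw [mem_ball_zero_iff] at ht ⊢
    rwa [RCLike.norm_conj]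
  have h1 := d.C.real t ht
  have h2 := d.C.im_neg (conj t) hct (by rw [conj_im]; linarith)
  rw [h1, conj_im] at h2
  linarith

theorem X_im_le {t : ℂ} (ht : t ∈ ball (0 : ℂ) d.C.δ1) : (d.C.X t).im ≤ 0 ↔ 0 ≤ t.im := by
  constructor
  · intro h
    by_contra h'
    have := d.X_im_pos ht (not_le.1 h')
    linarith
  · intro h
    rcases h.eq_or_lt with h | h
    · exact (d.X_im_zero ht h.symm).le
    · exact (d.C.im_neg t ht h).le

theorem M_mem {t : ℂ} (ht : t ∈ HB d.δ0) : d.M t ∈ DD := by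
  rw [DD, mem_closedBall_zero_iff]
  exact (c2m_le _ d.C.hA q.vpos (d.den t (d.mem_cb ht))).2 ((d.X_im_le (d.mem_b ht)).2 ht.2)

theorem M_norm {t : ℂ} (ht : t ∈ HB d.δ0) : ‖d.M t‖ = 1 ↔ t.im = 0 := by
  rw [M, c2m_eq _ d.C.hA q.vpos (d.den t (d.mem_cb ht))]
  constructor
  · intro h
    by_contra h'
    have := d.C.im_neg t (d.mem_b ht) (lt_of_le_of_ne ht.2 (Ne.symm h'))
    linarith
  · exact d.X_im_zero (d.mem_b ht)

theorem M_inj {t t' : ℂ} (ht : t ∈ closedBall (0 : ℂ) d.δ0)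
    (ht' : t' ∈ closedBall (0 : ℂ) d.δ0) (h : d.M t = d.M t') : t = t' :=
  d.C.inj (d.sub ht) (d.sub ht') (c2m_inj _ d.C.hA q.vpos (d.den t ht) (d.den t' ht') h)

theorem sq4_mem {δ : ℝ} (hδ : δ ≤ 1) {t : ℂ} (ht : t ∈ HB δ) : sq4 t ∈ HB δ := by
  have h0 : 0 ≤ ‖t‖ := norm_nonneg _
  refine ⟨?_, fold_mem _⟩
  have h1 : ‖sq4 t‖ = ‖t‖ ^ 4 := by
    rw [sq4, fold]
    split_ifs
    · rw [norm_neg, norm_pow]
    · rw [RCLike.norm_conj, norm_neg, norm_pow]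
  rw [h1]
  calc ‖t‖ ^ 4 ≤ ‖t‖ ^ 1 := pow_le_pow_of_le_one h0 (ht.1.trans hδ) (by norm_num)
    _ = ‖t‖ := pow_one _
    _ ≤ δ := ht.1

theorem sq4_eq_zero {t : ℂ} : sq4 t = 0 ↔ t = 0 := by
  rw [sq4, fold]
  split_ifs
  · rw [neg_eq_zero, pow_eq_zero_iff (by norm_num)]
  · rw [map_eq_zero, neg_eq_zero, pow_eq_zero_iff (by norm_num)]

theorem neg4_mem {t : ℂ} (ht : t ∈ HB d.δ0) : -t ^ 4 ∈ ball (0 : ℂ) d.C.δ1 := by
  refine d.sub ?_
  rw [mem_closedBall_zero_iff, norm_neg, norm_pow]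
  calc ‖t‖ ^ 4 ≤ ‖t‖ ^ 1 :=
        pow_le_pow_of_le_one (norm_nonneg _) (ht.1.trans d.lt_one.le) (by norm_num)
    _ = ‖t‖ := pow_one _
    _ ≤ d.δ0 := ht.1

/-- the point of the plane -/
def z (t : ℂ) : ℂ := 1 / (d.C.A * d.C.X t)

theorem z_mem {t : ℂ} (ht : t ∈ HB d.δ0) (h0 : t ≠ 0) : d.z t ∈ HH := by
  have hx := d.X_ne (d.mem_b ht) h0
  exact (c2_im_inv_nonneg d.C.hA hx).2 ((d.X_im_le (d.mem_b ht)).2 ht.2)

theorem mm_z {t : ℂ} (ht : t ∈ HB d.δ0) (h0 : t ≠ 0) : mm q.v (d.z t) = d.M t :=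
  c2m_mm _ d.C.hA _ (d.X_ne (d.mem_b ht) h0)

theorem h_z {t : ℂ} (ht : t ∈ HB d.δ0) (h0 : t ≠ 0) :
    q.h.eval (d.z t) = 1 / (d.C.A * d.C.X (-t ^ 4)) := d.C.fe t (d.mem_b ht) h0

theorem h_z_im {t : ℂ} (ht : t ∈ HB d.δ0) (h0 : t ≠ 0) :
    0 ≤ (q.h.eval (d.z t)).im ↔ 0 ≤ (-t ^ 4).im := by
  have hx : d.C.X (-t ^ 4) ≠ 0 :=
    d.X_ne (d.neg4_mem ht) (neg_ne_zero.2 (pow_ne_zero _ h0))
  rw [d.h_z ht h0, c2_im_inv_nonneg d.C.hA hx, d.X_im_le (d.neg4_mem ht)]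

theorem h_z_im' {t : ℂ} (ht : t ∈ HB d.δ0) (h0 : t ≠ 0) (h : 0 < (-t ^ 4).im) :
    0 < (q.h.eval (d.z t)).im := by
  have hx : d.C.X (-t ^ 4) ≠ 0 :=
    d.X_ne (d.neg4_mem ht) (neg_ne_zero.2 (pow_ne_zero _ h0))
  rw [d.h_z ht h0, c2_im_inv]
  have h1 := d.C.im_neg _ (d.neg4_mem ht) h
  have h2 : 0 < d.C.A * normSq (d.C.X (-t ^ 4)) := mul_pos d.C.hA (normSq_pos.2 hx)
  exact div_pos (by linarith) h2

theorem conj4 {S : TS} (hS : IsTS q S) {t : ℂ} (ht : t ∈ HB d.δ0) :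
    S.F (d.M t) = d.M (sq4 t) := by
  by_cases h0 : t = 0
  · subst h0
    have h1 : sq4 0 = 0 := sq4_eq_zero.2 rfl
    rw [h1, M0]
    have h2 := S.F2 1 (by rw [DD, mem_closedBall_zero_iff]; simp)
    rwa [S.G2one] at h2
  · have hx : d.C.X (-t ^ 4) ≠ 0 :=
      d.X_ne (d.neg4_mem ht) (neg_ne_zero.2 (pow_ne_zero _ h0))
    rw [← d.mm_z ht h0, hS.F_eq _ (d.z_mem ht h0)]
    by_cases h : 0 ≤ (-t ^ 4).im
    · rw [c2_fold_of ((d.h_z_im ht h0).2 h), sq4, c2_fold_of h, d.h_z ht h0,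
        c2m_mm _ d.C.hA _ hx]
      rfl
    · have h' : (q.h.eval (d.z t)).im < 0 := by
        by_contra hcon
        exact h ((d.h_z_im ht h0).1 (not_lt.1 hcon))
      have hx' : conj (d.C.X (-t ^ 4)) ≠ 0 := (_root_.map_ne_zero _).2 hx
      rw [c2_fold_of_neg h', sq4, c2_fold_of_neg (not_le.1 h), d.h_z ht h0]
      have e1 : conj (1 / ((d.C.A : ℂ) * d.C.X (-t ^ 4))) =
          1 / ((d.C.A : ℂ) * conj (d.C.X (-t ^ 4))) := by
        rw [map_div₀, map_one, map_mul, conj_ofReal]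
      rw [e1, c2m_mm _ d.C.hA _ hx', M, d.C.real _ (d.neg4_mem ht)]

theorem im_exp {w : ℂ} (h : |w.im| < 1) : 0 < (exp w).im ↔ 0 < w.im := by
  rw [exp_im]
  have hpi := Real.pi_gt_three
  obtain ⟨h1, h2⟩ := abs_lt.1 h
  have he := Real.exp_pos w.re
  constructor
  · intro h3
    by_contra h4
    have h5 : Real.sin w.im ≤ 0 :=
      Real.sin_nonpos_of_nonpos_of_neg_pi_le (not_lt.1 h4) (by linarith)
    nlinarith
  · intro h3
    exact mul_pos he (Real.sin_pos_of_pos_of_lt_pi h3 (by linarith))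

theorem im_exp' {w : ℂ} (h : |w.im| < 1) : (exp w).im < 0 ↔ w.im < 0 := by
  rw [exp_im]
  have hpi := Real.pi_gt_three
  obtain ⟨h1, h2⟩ := abs_lt.1 h
  have he := Real.exp_pos w.re
  constructor
  · intro h3
    by_contra h4
    have h5 : 0 ≤ Real.sin w.im :=
      Real.sin_nonneg_of_nonneg_of_le_pi (not_lt.1 h4) (by linarith)
    nlinarith
  · intro h3
    have := Real.sin_neg_of_neg_of_neg_pi_lt h3 (by linarith)
    nlinarith

theorem im_lt {t : ℂ} (ht : t ∈ closedBall (0 : ℂ) d.δ0) : |(d.c t).im| < 1 :=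
  lt_of_le_of_lt (abs_im_le_norm _) (d.small t ht)

/-- the sign of the imaginary part of the chart on the real axis -/
theorem M_im_real {x : ℝ} (hx : (x : ℂ) ∈ HB d.δ0) :
    ∃ k : ℝ, 0 < k ∧ (d.M x).im = -(k * (d.C.X x).re) := by
  have him : (d.C.X x).im = 0 := d.X_im_zero (d.mem_b hx) (ofReal_im x)
  have hN := d.num x (d.mem_cb hx)
  have hD := d.den x (d.mem_cb hx)
  set y : ℝ := (d.C.X x).re with hy
  have hX : d.C.X x = y := by
    apply Complex.ext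
    · rw [ofReal_re]
    · rw [ofReal_im, him]
  have hD' : c2N d.C.A (conj q.v) (d.C.X x) = conj (c2N d.C.A q.v (d.C.X x)) := by
    rw [c2N, c2N, hX]
    simp only [map_sub, map_one, map_mul, conj_ofReal]
  set w := c2N d.C.A q.v (d.C.X x) with hw
  have hw0 : w ≠ 0 := by
    intro h
    rw [h] at hN
    simp at hN
  have hwim : w.im = -(d.C.A * q.v.im * y) := by
    rw [hw, c2N, hX]
    simp [mul_re, mul_im]
  have hM : d.M x = w ^ 2 / (normSq w : ℂ) := by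
    rw [M, c2m, hD', ← hw]
    have h1 : (normSq w : ℂ) = w * conj w := (mul_conj w).symm
    have hc : conj w ≠ 0 := (_root_.map_ne_zero _).2 hw0
    rw [h1]
    field_simp
  have hn : 0 < normSq w := normSq_pos.2 hw0
  have him2 : (d.M x).im = 2 * w.re * w.im / normSq w := by
    rw [hM, div_ofReal_im, sq, mul_im]
    ring
  refine ⟨2 * w.re * (d.C.A * q.v.im) / normSq w, ?_, ?_⟩
  · have := d.C.hA
    have := q.vpos
    positivity
  · rw [him2, hwim]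
    ring

theorem realpos {x : ℝ} (h0 : 0 < x) (hx : x ≤ d.δ0) : 0 < (d.c x).im := by
  have hm : (x : ℂ) ∈ HB d.δ0 := by
    refine ⟨?_, by rw [ofReal_im]⟩
    rw [norm_real, Real.norm_eq_abs, abs_of_pos h0]
    exact hx
  rw [← im_exp (d.im_lt (d.mem_cb hm)), d.exp_c (d.mem_cb hm)]
  obtain ⟨k, hk, hk'⟩ := d.M_im_real hm
  rw [hk']
  have h1 := d.C.near x (d.mem_b hm)
  rw [norm_real, Real.norm_eq_abs, abs_of_pos h0] at h1
  have h2 := (abs_le.1 ((abs_re_le_norm (d.C.X x + x)).trans h1)).2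
  rw [add_re, ofReal_re] at h2
  have h3 : (d.C.X x).re < 0 := by linarith
  nlinarith

theorem realneg {x : ℝ} (h0 : x < 0) (hx : -d.δ0 ≤ x) : (d.c x).im < 0 := by
  have hm : (x : ℂ) ∈ HB d.δ0 := by
    refine ⟨?_, by rw [ofReal_im]⟩
    rw [norm_real, Real.norm_eq_abs, abs_of_neg h0]
    linarith
  rw [← im_exp' (d.im_lt (d.mem_cb hm)), d.exp_c (d.mem_cb hm)]
  obtain ⟨k, hk, hk'⟩ := d.M_im_real hm
  rw [hk']
  have h1 := d.C.near x (d.mem_b hm)
  rw [norm_real, Real.norm_eq_abs, abs_of_neg h0] at h1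
  have h2 := (abs_le.1 ((abs_re_le_norm (d.C.X x + x)).trans h1)).1
  rw [add_re, ofReal_re] at h2
  have h3 : 0 < (d.C.X x).re := by linarith
  nlinarith

theorem openo {δ : ℝ} (h0 : 0 < δ) (hδ : δ < d.δ0) :
    ∃ O, IsOpen O ∧ (fun t => exp (d.c t)) '' {t | ‖t‖ < δ ∧ 0 ≤ t.im} = O ∩ DD := by
  have hv := q.vpos
  have hA := d.C.hA
  have hA' : (d.C.A : ℂ) ≠ 0 := by exact_mod_cast hA.ne'
  have hvv : q.v - conj q.v ≠ 0 := by
    rw [sub_conj]
    intro h0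
    have := congrArg Complex.im h0
    simp at this
    exact hv.ne' this
  set U : Set ℂ := d.C.X '' ball 0 δ with hU
  have hUo : IsOpen U := d.C.opn δ h0 (hδ.le.trans d.lt.le)
  set Ω : Set ℂ := {s | q.v - conj q.v * s ≠ 0} with hΩ
  have hΩo : IsOpen Ω := isOpen_ne_fun (by fun_prop) continuous_const
  set μ : ℂ → ℂ := fun s => (1 - s) / (d.C.A * (q.v - conj q.v * s)) with hμ
  have hμc : ContinuousOn μ Ω := by
    refine ContinuousOn.div (by fun_prop) (by fun_prop) fun s hs => mul_ne_zero hA' hs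
  refine ⟨Ω ∩ μ ⁻¹' U, hμc.isOpen_inter_preimage hΩo hUo, ?_⟩
  have hcb : ∀ t : ℂ, ‖t‖ < δ → t ∈ closedBall (0 : ℂ) d.δ0 := fun t ht =>
    mem_closedBall_zero_iff.2 (ht.le.trans hδ.le)
  -- inversion formulas
  have hinv1 : ∀ t ∈ closedBall (0 : ℂ) d.δ0, d.M t ∈ Ω ∧ μ (d.M t) = d.C.X t := by
    intro t ht
    have hD := d.den t ht
    have e1 : q.v - conj q.v * d.M t = (q.v - conj q.v) / c2N d.C.A (conj q.v) (d.C.X t) := by
      rw [M, c2m, eq_div_iff hD]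
      rw [sub_mul, mul_assoc, div_mul_cancel₀ _ hD]
      rw [c2N, c2N]
      ring
    have e2 : 1 - d.M t = d.C.A * (q.v - conj q.v) * d.C.X t /
        c2N d.C.A (conj q.v) (d.C.X t) := by
      rw [M, c2m, eq_div_iff hD, sub_mul, div_mul_cancel₀ _ hD]
      rw [c2N, c2N]
      ring
    have h1 : d.M t ∈ Ω := by
      rw [hΩ, mem_setOf_eq, e1]
      exact div_ne_zero hvv hD
    refine ⟨h1, ?_⟩
    rw [hμ]
    simp only
    rw [e1, e2]
    field_simp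
  ext s
  constructor
  · rintro ⟨t, ⟨ht, him⟩, rfl⟩
    have hHB : t ∈ HB d.δ0 := ⟨ht.le.trans hδ.le, him⟩
    simp only
    rw [d.exp_c (hcb t ht)]
    obtain ⟨h1, h2⟩ := hinv1 t (hcb t ht)
    refine ⟨⟨h1, ?_⟩, d.M_mem hHB⟩
    rw [mem_preimage, h2]
    exact ⟨t, mem_ball_zero_iff.2 ht, rfl⟩
  · rintro ⟨⟨h1, t, ht, htx⟩, h3⟩
    have ht' : ‖t‖ < δ := mem_ball_zero_iff.1 ht
    have hD := d.den t (hcb t ht')
    have hs : d.M t = s := by
      have h1' : q.v - conj q.v * s ≠ 0 := h1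
      have h4 : (d.C.A : ℂ) * μ s * (q.v - conj q.v * s) = 1 - s := by
        rw [hμ]
        simp only
        generalize q.v - conj q.v * s = w at h1'
        field_simp
      rw [M, c2m, div_eq_iff hD, htx, c2N, c2N]
      linear_combination -h4
    have him : 0 ≤ t.im := by
      rw [← hs, M, DD, mem_closedBall_zero_iff, c2m_le _ hA hv hD] at h3
      exact (d.X_im_le (d.sub (hcb t ht'))).1 h3
    refine ⟨t, ⟨ht', him⟩, ?_⟩
    simp only
    rw [d.exp_c (hcb t ht'), hs]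

end C2D

end

end Pool.TU
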