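import Mathlib

/-! # Tuning of polynomials (k = 1, d = 2): the notions of the problem -/

open Polynomial Complex Set Filter Topology Metric

namespace Pool.Tuning

noncomputable section

/-- The filled Julia set: the points with bounded forward orbit. -/
def filledJulia (P : ℂ[X]) : Set ℂ :=
  {z | Bornology.IsBounded (Set.range fun n : ℕ => (fun w => P.eval w)^[n] z)}

/-- The Julia set of a polynomial: the boundary of the filled Julia set. -/
def julia (P : ℂ[X]) : Set ℂ := frontier (filledJulia P)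

/-- The full basin of the fixed point `ω`. -/
def basin (P : ℂ[X]) (ω : ℂ) : Set ℂ :=
  {z | Tendsto (fun n : ℕ => (fun w => P.eval w)^[n] z) atTop (𝓝 ω)}

/-- The immediate basin: the component of the basin containing `ω`. -/
def immBasin (P : ℂ[X]) (ω : ℂ) : Set ℂ := connectedComponentIn (basin P ω) ω

/-- `P` has degree `D` and connected Julia set, `ω` is a superattracting fixed point of
local degree `2` (so `k = 1`, `d = 2`), no other critical point lies in the full basin of `ω`
and the closure of the immediate basin is homeomorphic to the closed unit disc. -/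
structure Marked (D : ℕ) (P : ℂ[X]) (ω : ℂ) : Prop where
  deg : P.natDegree = D
  conn : IsConnected (julia P)
  fix : P.eval ω = ω
  crit : P.derivative.eval ω = 0
  locdeg : P.derivative.derivative.eval ω ≠ 0
  only : ∀ c, P.derivative.eval c = 0 → c ∈ basin P ω → c = ω
  disc : Nonempty (closure (immBasin P ω) ≃ₜ closedBall (0 : ℂ) 1)

/-- The internal marking (Böttcher parametrisation of the closed immediate basin). -/
structure IsMarking (P : ℂ[X]) (ω : ℂ) (χ : ℂ → ℂ) : Prop where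
  cont : ContinuousOn χ (closedBall 0 1)
  inj : InjOn χ (closedBall 0 1)
  holo : DifferentiableOn ℂ χ (ball 0 1)
  img : χ '' ball 0 1 = immBasin P ω
  conj : ∀ ζ ∈ closedBall (0 : ℂ) 1, P.eval (χ ζ) = χ (ζ ^ 2)

/-- `ψ` is the Böttcher parametrisation of the basin of infinity of `z ^ 2 + c`, extended
continuously to the circle: external rays and their landing points. -/
structure IsBottcher (c : ℂ) (ψ : ℂ → ℂ) : Prop where
  cont : ContinuousOn ψ {ζ | 1 ≤ ‖ζ‖}
  inj : InjOn ψ {ζ | 1 < ‖ζ‖}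
  holo : DifferentiableOn ℂ ψ {ζ | 1 < ‖ζ‖}
  img : ψ '' {ζ | 1 < ‖ζ‖} = (filledJulia (X ^ 2 + C c))ᶜ
  conj : ∀ ζ, 1 ≤ ‖ζ‖ → ψ ζ ^ 2 + c = ψ (ζ ^ 2)
  infty : Tendsto (fun ζ => ψ ζ / ζ) (Bornology.cobounded ℂ) (𝓝 1)

/-- The open unit disc as a copy of the plane (radial homeomorphism). -/
def toPlane (ζ : ℂ) : ℂ := ζ / (1 - ‖ζ‖)

/-- Inverse of `toPlane`. -/
def ofPlane (z : ℂ) : ℂ := z / (1 + ‖z‖)

/-- `z ^ 2 + c` on the plane together with its circle at infinity, seen in the closed disc. -/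
def diskMap (c ζ : ℂ) : ℂ := if ‖ζ‖ < 1 then ofPlane (toPlane ζ ^ 2 + c) else ζ ^ 2

/-- `LandsAt c ψ ζ w`: the point `ζ` of the closed disc (the dynamical plane of `z ^ 2 + c`
with its circle at infinity) is the point `w` of the filled Julia set, or lies on an external
ray landing at `w` (its end point at infinity included). -/
def LandsAt (c : ℂ) (ψ : ℂ → ℂ) (ζ w : ℂ) : Prop :=
  (‖ζ‖ = 1 ∧ w = ψ ζ) ∨
  (‖ζ‖ < 1 ∧ toPlane ζ ∈ filledJulia (X ^ 2 + C c) ∧ w = toPlane ζ) ∨
  (‖ζ‖ < 1 ∧ ∃ η : ℂ, 1 < ‖η‖ ∧ toPlane ζ = ψ η ∧ w = ψ (η / ‖η‖))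

/-- The glued map before rays are collapsed: `z ^ 2 + c` on the closed immediate basin
(through the marking `χ`), `P` elsewhere. -/
structure IsGlued (P : ℂ[X]) (ω c : ℂ) (χ T : ℂ → ℂ) : Prop where
  inside : ∀ ζ ∈ closedBall (0 : ℂ) 1, T (χ ζ) = χ (diskMap c ζ)
  outside : ∀ z, z ∉ closure (immBasin P ω) → T z = P.eval z

/-- `U` is a preimage of the immediate basin `B` of depth exactly `n`:
a connected component of `P^{-n}(B)` that enters `B` at time `n` and not before. -/
def IsPreimage (P : ℂ[X]) (ω : ℂ) (n : ℕ) (U : Set ℂ) : Prop :=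
  ∃ u, (fun w => P.eval w)^[n] u ∈ immBasin P ω ∧
    (∀ m < n, (fun w => P.eval w)^[m] u ∉ immBasin P ω) ∧
    U = connectedComponentIn ((fun w => P.eval w)^[n] ⁻¹' immBasin P ω) u

/-- The ray relation: two points are related if they are equal or lie in the closure of
one preimage `U` of `B` and their images in the closure of `B` are carried by rays with a
common landing point. -/
def RayRel (P : ℂ[X]) (ω c : ℂ) (ψ χ : ℂ → ℂ) (x y : ℂ) : Prop :=
  x = y ∨ ∃ n U, IsPreimage P ω n U ∧ x ∈ closure U ∧ y ∈ closure U ∧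
    ∃ ζ ∈ closedBall (0 : ℂ) 1, ∃ ζ' ∈ closedBall (0 : ℂ) 1, ∃ w,
      (fun w => P.eval w)^[n] x = χ ζ ∧ (fun w => P.eval w)^[n] y = χ ζ' ∧
      LandsAt c ψ ζ w ∧ LandsAt c ψ ζ' w

/-- Collapsing the rays: `x` and `y` are identified by the smallest closed equivalence
relation of the plane that contains the ray relation. -/
def RayEq (P : ℂ[X]) (ω c : ℂ) (ψ χ : ℂ → ℂ) (x y : ℂ) : Prop :=
  ∀ r : ℂ → ℂ → Prop, Equivalence r → IsClosed {p : ℂ × ℂ | r p.1 p.2} →
    (∀ a b, RayRel P ω c ψ χ a b → r a b) → r x y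

/-- `Q` is (topologically conjugate to) `P` tuned with `z ^ 2 + c` at `ω`: `q` is a quotient
map of the plane whose fibres are the ray classes, and `Q` is the map induced by the glued
map. -/
def Tuned (P : ℂ[X]) (ω c : ℂ) (Q : ℂ[X]) : Prop :=
  ∃ ψ χ T q : ℂ → ℂ, IsBottcher c ψ ∧ IsMarking P ω χ ∧ IsGlued P ω c χ T ∧
    IsQuotientMap q ∧ (∀ z, Q.eval (q z) = q (T z)) ∧
    (∀ x y, q x = q y ↔ RayEq P ω c ψ χ x y)

/-- Admissible: the hypotheses hold and the tuned map is conjugate to a polynomial of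
degree `D`. -/
def Admissible (D : ℕ) (c : ℂ) (P : ℂ[X]) (ω : ℂ) : Prop :=
  Marked D P ω ∧ ∃ Q : ℂ[X], Q.natDegree = D ∧ Tuned P ω c Q

/-- Polynomials of degree `D`, with the topology of coefficients. -/
def Poly (D : ℕ) : Type := {P : ℂ[X] // P.natDegree = D}

instance (D : ℕ) : TopologicalSpace (Poly D) :=
  TopologicalSpace.induced (fun P : Poly D => fun i : ℕ => P.1.coeff i) inferInstance

/-- Affine conjugacy. -/
def AffConj (P Q : ℂ[X]) : Prop :=
  ∃ a b : ℂ, a ≠ 0 ∧ ∀ z, P.eval (a * z + b) = a * Q.eval z + b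

theorem affConj_equiv (D : ℕ) : Equivalence (fun P Q : Poly D => AffConj P.1 Q.1) where
  refl P := ⟨1, 0, one_ne_zero, fun z => by simp⟩
  symm := by
    rintro P Q ⟨a, b, ha, h⟩
    refine ⟨a⁻¹, -(a⁻¹ * b), inv_ne_zero ha, fun z => ?_⟩
    have := h (a⁻¹ * z + -(a⁻¹ * b))
    have e : a * (a⁻¹ * z + -(a⁻¹ * b)) + b = z := by field_simp; ring
    rw [e] at this
    rw [this]; field_simp; ring
  trans := by
    rintro P Q R ⟨a, b, ha, h⟩ ⟨a', b', ha', h'⟩
    refine ⟨a * a', a * b' + b, mul_ne_zero ha ha', fun z => ?_⟩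
    have e : a * a' * z + (a * b' + b) = a * (a' * z + b') + b := by ring
    rw [e, h, h']; ring

/-- Polynomials of degree `D` modulo affine conjugacy, with the quotient topology. -/
def MPoly (D : ℕ) : Type := Quotient (⟨_, affConj_equiv D⟩ : Setoid (Poly D))

instance (D : ℕ) : TopologicalSpace (MPoly D) :=
  inferInstanceAs (TopologicalSpace (Quotient (⟨_, affConj_equiv D⟩ : Setoid (Poly D))))

/-- The class of a polynomial. -/
def MPoly.mk {D : ℕ} (P : Poly D) : MPoly D :=
  Quotient.mk (⟨_, affConj_equiv D⟩ : Setoid (Poly D)) P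

/-- The admissible pairs `(P, ω)`, topologised by coefficients and `ω`. -/
def AdmPair (D : ℕ) (c : ℂ) : Type := {x : Poly D × ℂ // Admissible D c x.1.1 x.2}

instance (D : ℕ) (c : ℂ) : TopologicalSpace (AdmPair D c) :=
  inferInstanceAs (TopologicalSpace {x : Poly D × ℂ // Admissible D c x.1.1 x.2})

end

end Pool.Tuning
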