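import Pool.Agent.Helper71.TU.K2
import Pool.Agent.Helper71.TU.D4

/-! # TU K8: the markings vary continuously -/

open Complex Set Filter Topology Metric Polynomial ComplexConjugate Pool.Tuning

namespace Pool.TU

noncomputable section

namespace K8aux

/-- second order Schwarz lemma -/
theorem schwarz2 {f : ℂ → ℂ} {ρ M : ℝ} (hρ : 0 < ρ) (hf : DifferentiableOn ℂ f (ball 0 ρ))
    (h0 : f 0 = 0) (h1 : deriv f 0 = 0) (hM : ∀ z ∈ ball (0 : ℂ) ρ, ‖f z‖ ≤ M) :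
    ∀ z ∈ ball (0 : ℂ) ρ, ‖f z‖ ≤ M * (‖z‖ / ρ) ^ 2 := by
  intro z hz
  have hd : HasDerivAt f 0 0 := by
    have := (hf.differentiableAt (ball_mem_nhds 0 hρ)).hasDerivAt
    rwa [h1] at this
  have hmaps : MapsTo f (ball (0 : ℂ) ρ) (closedBall (f 0) M) := by
    intro w hw
    rw [h0, mem_closedBall, dist_zero_right]
    exact hM w hw
  have hlit : (fun w => f w - f 0) =o[𝓝 (0 : ℂ)] (fun w : ℂ => ‖w - 0‖ ^ 1) := by
    have h2 := hasDerivAt_iff_isLittleO.mp hd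
    simp only [smul_zero, sub_zero] at h2
    simp only [sub_zero, pow_one]
    exact h2.norm_right
  have h3 := Complex.dist_le_mul_div_pow_of_mapsTo_ball_of_isLittleO (n := 1) hf hmaps hlit hz
  rw [h0, dist_zero_right, dist_zero_right] at h3
  exact h3

/-- second order remainder -/
theorem rem2 {f : ℂ → ℂ} {ρ B c0 c1 : ℝ} (hρ : 0 < ρ) (hf : DifferentiableOn ℂ f (ball 0 ρ))
    (hB : ∀ z ∈ ball (0 : ℂ) ρ, ‖f z‖ ≤ B) (h0 : ‖f 0‖ ≤ c0) (h1 : ‖deriv f 0‖ ≤ c1) :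
    ∀ z ∈ ball (0 : ℂ) ρ, ‖f z - f 0 - deriv f 0 * z‖ ≤ (B + c0 + c1 * ρ) * (‖z‖ / ρ) ^ 2 := by
  have hfd : HasDerivAt f (deriv f 0) 0 :=
    (hf.differentiableAt (ball_mem_nhds 0 hρ)).hasDerivAt
  refine schwarz2 (f := fun z => f z - f 0 - deriv f 0 * z) hρ ?_ ?_ ?_ ?_
  · exact (hf.sub_const _).sub ((differentiableOn_id).const_mul _)
  · simp
  · have h2 : HasDerivAt (fun z => f z - f 0 - deriv f 0 * z) (deriv f 0 - deriv f 0 * 1) 0 :=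
      (hfd.sub_const _).sub ((hasDerivAt_id (0 : ℂ)).const_mul _)
    rw [h2.deriv]
    ring
  · intro z hz
    have hz' : ‖z‖ ≤ ρ := by
      rw [mem_ball, dist_zero_right] at hz
      exact hz.le
    have h2 : ‖deriv f 0 * z‖ ≤ c1 * ρ := by
      rw [norm_mul]
      exact mul_le_mul h1 hz' (norm_nonneg _) ((norm_nonneg _).trans h1)
    calc ‖f z - f 0 - deriv f 0 * z‖ ≤ ‖f z - f 0‖ + ‖deriv f 0 * z‖ := norm_sub_le _ _
      _ ≤ (‖f z‖ + ‖f 0‖) + ‖deriv f 0 * z‖ := by gcongr; exact norm_sub_le _ _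
      _ ≤ B + c0 + c1 * ρ := by linarith [hB z hz]

/-- maximum of a holomorphic function on a closed disc is on the circle -/
theorem max_circle {f : ℂ → ℂ} {ρ r : ℝ} (hr : 0 < r) (hrρ : r < ρ)
    (hf : DifferentiableOn ℂ f (ball 0 ρ)) :
    ∃ z : ℂ, ‖z‖ = r ∧ ∀ w ∈ closedBall (0 : ℂ) r, ‖f w‖ ≤ ‖f z‖ := by
  have hd : DiffContOnCl ℂ f (ball 0 r) := by
    refine DifferentiableOn.diffContOnCl ?_
    rw [closure_ball _ hr.ne']
    exact hf.mono (closedBall_subset_ball hrρ)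
  obtain ⟨z, hz, hmax⟩ := Complex.exists_mem_frontier_isMaxOn_norm isBounded_ball
    (nonempty_ball.mpr hr) hd
  rw [frontier_ball _ hr.ne', mem_sphere, dist_zero_right] at hz
  refine ⟨z, hz, ?_⟩
  intro w hw
  rw [← closure_ball _ hr.ne'] at hw
  exact hmax hw

/-- the deterministic estimate on a small disc -/
theorem small_disc {χ χ₀ f f₀ : ℂ → ℂ} {R K r ε e1 e2 : ℝ} {p : ℂ} (hR : 1 ≤ R) (hK : 0 ≤ K)
    (hχ : DifferentiableOn ℂ χ (ball 0 1)) (hχ₀ : DifferentiableOn ℂ χ₀ (ball 0 1))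
    (hb : ∀ z ∈ ball (0 : ℂ) 1, ‖χ z‖ ≤ R) (hb₀ : ∀ z ∈ ball (0 : ℂ) 1, ‖χ₀ z‖ ≤ R)
    (hc : ‖deriv χ 0‖ ≤ R) (hc₀ : ‖deriv χ₀ 0‖ ≤ R)
    (hf : ∀ z, ‖z‖ ≤ R → ‖f z - f₀ z‖ ≤ ε)
    (he : ∀ z ∈ ball (0 : ℂ) 1, f (χ z) = χ (z ^ 2))
    (he₀ : ∀ z ∈ ball (0 : ℂ) 1, f₀ (χ₀ z) = χ₀ (z ^ 2))
    (hp : p * deriv χ₀ 0 = 1)
    (hU : ∀ m : ℝ, m ≤ 1 / 2 → ∀ x y : ℂ, ‖x - χ₀ 0‖ ≤ m → ‖y - χ₀ 0‖ ≤ m →
      ‖f₀ x - f₀ y - p * ((x - χ₀ 0) ^ 2 - (y - χ₀ 0) ^ 2)‖ ≤ K * m ^ 2 * ‖x - y‖)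
    (h1 : ‖χ 0 - χ₀ 0‖ ≤ e1) (h2 : ‖deriv χ 0 - deriv χ₀ 0‖ ≤ e2)
    (hr : 0 < r) (hr1 : 16 * R * r ≤ 1) (hr2 : (6 * R * ‖p‖ + 32 * K * R ^ 2 + 1) * r ≤ 1 / 2)
    (he1 : e1 ≤ 1 / 4) (hs : ‖p‖ * (e1 + e2) + 2 * K * e1 ≤ r / 2) :
    ∀ z ∈ closedBall (0 : ℂ) r, ‖χ z - χ₀ z‖ * r ≤ 2 * e1 + 2 * e2 + ε := by
  have he1' : 0 ≤ e1 := (norm_nonneg _).trans h1
  have he2' : 0 ≤ e2 := (norm_nonneg _).trans h2
  have hr1' : r < 1 := by nlinarith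
  have hr16 : r ≤ 1 / 16 := by nlinarith
  have h0b : (0 : ℂ) ∈ ball (0 : ℂ) 1 := mem_ball_self one_pos
  obtain ⟨z, hz, hmax⟩ := max_circle (f := fun z => χ z - χ₀ z) hr hr1' (hχ.sub hχ₀)
  have hmax' : ∀ w ∈ closedBall (0 : ℂ) r, ‖χ w - χ₀ w‖ ≤ ‖χ z - χ₀ z‖ := hmax
  set B := ‖χ z - χ₀ z‖ with hB
  have hB0 : 0 ≤ B := norm_nonneg _
  suffices hmain : B * r ≤ 2 * e1 + 2 * e2 + ε by
    intro w hw
    exact (mul_le_mul_of_nonneg_right (hmax' w hw) hr.le).trans hmain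
  have hz1 : z ∈ ball (0 : ℂ) 1 := by
    rw [mem_ball, dist_zero_right, hz]; exact hr1'
  -- expansions at z
  have hrem : ‖χ z - χ 0 - deriv χ 0 * z‖ ≤ 3 * R * r ^ 2 := by
    have := rem2 one_pos hχ hb (hb 0 h0b) hc z hz1
    rw [hz] at this
    refine this.trans (le_of_eq ?_)
    ring
  have hrem₀ : ‖χ₀ z - χ₀ 0 - deriv χ₀ 0 * z‖ ≤ 3 * R * r ^ 2 := by
    have := rem2 one_pos hχ₀ hb₀ (hb₀ 0 h0b) hc₀ z hz1
    rw [hz] at this
    refine this.trans (le_of_eq ?_)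
    ring
  have hr2' : r ^ 2 ≤ r := by nlinarith
  have hRr : 3 * R * r ^ 2 ≤ 3 * R * r := by
    have : 0 ≤ 3 * R := by linarith
    exact mul_le_mul_of_nonneg_left hr2' this
  have hx : ‖χ z - χ₀ 0‖ ≤ e1 + 4 * R * r := by
    have e : χ z - χ₀ 0 = (χ 0 - χ₀ 0) + deriv χ 0 * z + (χ z - χ 0 - deriv χ 0 * z) := by ring
    rw [e]
    have h3 : ‖deriv χ 0 * z‖ ≤ R * r := by
      rw [norm_mul, hz]
      exact mul_le_mul_of_nonneg_right hc hr.le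
    calc _ ≤ ‖(χ 0 - χ₀ 0) + deriv χ 0 * z‖ + ‖χ z - χ 0 - deriv χ 0 * z‖ := norm_add_le _ _
      _ ≤ (‖χ 0 - χ₀ 0‖ + ‖deriv χ 0 * z‖) + ‖χ z - χ 0 - deriv χ 0 * z‖ := by
          gcongr; exact norm_add_le _ _
      _ ≤ e1 + 4 * R * r := by linarith
  have hy : ‖χ₀ z - χ₀ 0‖ ≤ e1 + 4 * R * r := by
    have e : χ₀ z - χ₀ 0 = deriv χ₀ 0 * z + (χ₀ z - χ₀ 0 - deriv χ₀ 0 * z) := by ring
    rw [e]
    have h3 : ‖deriv χ₀ 0 * z‖ ≤ R * r := by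
      rw [norm_mul, hz]
      exact mul_le_mul_of_nonneg_right hc₀ hr.le
    calc _ ≤ ‖deriv χ₀ 0 * z‖ + ‖χ₀ z - χ₀ 0 - deriv χ₀ 0 * z‖ := norm_add_le _ _
      _ ≤ e1 + 4 * R * r := by linarith
  have hm : e1 + 4 * R * r ≤ 1 / 2 := by linarith
  have hU' := hU (e1 + 4 * R * r) hm (χ z) (χ₀ z) hx hy
  rw [← hB] at hU'
  have hm2 : (e1 + 4 * R * r) ^ 2 ≤ 2 * e1 + 32 * R ^ 2 * r ^ 2 := by
    have h3 : e1 ^ 2 ≤ e1 := by nlinarith
    nlinarith [sq_nonneg (e1 - 4 * R * r)]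
  -- the quadratic term
  have hquad : (2 * r - ‖p‖ * (e1 + e2) - 6 * R * ‖p‖ * r ^ 2) * B ≤
      ‖p * ((χ z - χ₀ 0) ^ 2 - (χ₀ z - χ₀ 0) ^ 2)‖ := by
    have e : p * ((χ z - χ₀ 0) ^ 2 - (χ₀ z - χ₀ 0) ^ 2) =
        (2 * z + (p * (deriv χ 0 - deriv χ₀ 0) * z + p * (χ 0 - χ₀ 0) +
          p * (χ z - χ 0 - deriv χ 0 * z) + p * (χ₀ z - χ₀ 0 - deriv χ₀ 0 * z))) *
          (χ z - χ₀ z) := by
      linear_combination (2 * z * (χ z - χ₀ z)) * hp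
    rw [e, norm_mul, ← hB]
    refine mul_le_mul_of_nonneg_right ?_ hB0
    set E := p * (deriv χ 0 - deriv χ₀ 0) * z + p * (χ 0 - χ₀ 0) +
          p * (χ z - χ 0 - deriv χ 0 * z) + p * (χ₀ z - χ₀ 0 - deriv χ₀ 0 * z) with hE
    have hp0 : 0 ≤ ‖p‖ := norm_nonneg p
    have hE' : ‖E‖ ≤ ‖p‖ * (e1 + e2) + 6 * R * ‖p‖ * r ^ 2 := by
      have a1 : ‖p * (deriv χ 0 - deriv χ₀ 0) * z‖ ≤ ‖p‖ * e2 := by
        rw [norm_mul, norm_mul, hz]
        have : ‖p‖ * ‖deriv χ 0 - deriv χ₀ 0‖ * r ≤ ‖p‖ * e2 * 1 := by gcongr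
        linarith
      have a2 : ‖p * (χ 0 - χ₀ 0)‖ ≤ ‖p‖ * e1 := by
        rw [norm_mul]; gcongr
      have a3 : ‖p * (χ z - χ 0 - deriv χ 0 * z)‖ ≤ ‖p‖ * (3 * R * r ^ 2) := by
        rw [norm_mul]; gcongr
      have a4 : ‖p * (χ₀ z - χ₀ 0 - deriv χ₀ 0 * z)‖ ≤ ‖p‖ * (3 * R * r ^ 2) := by
        rw [norm_mul]; gcongr
      calc ‖E‖ ≤ ‖p * (deriv χ 0 - deriv χ₀ 0) * z + p * (χ 0 - χ₀ 0) +
            p * (χ z - χ 0 - deriv χ 0 * z)‖ + ‖p * (χ₀ z - χ₀ 0 - deriv χ₀ 0 * z)‖ :=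
            norm_add_le _ _
        _ ≤ ‖p * (deriv χ 0 - deriv χ₀ 0) * z + p * (χ 0 - χ₀ 0)‖ +
            ‖p * (χ z - χ 0 - deriv χ 0 * z)‖ + ‖p * (χ₀ z - χ₀ 0 - deriv χ₀ 0 * z)‖ := by
            gcongr; exact norm_add_le _ _
        _ ≤ ‖p * (deriv χ 0 - deriv χ₀ 0) * z‖ + ‖p * (χ 0 - χ₀ 0)‖ +
            ‖p * (χ z - χ 0 - deriv χ 0 * z)‖ + ‖p * (χ₀ z - χ₀ 0 - deriv χ₀ 0 * z)‖ := by
            gcongr; exact norm_add_le _ _
        _ ≤ _ := by linarith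
    have h2z : ‖(2 : ℂ) * z‖ = 2 * r := by rw [norm_mul, hz]; simp
    have h3 : ‖(2 : ℂ) * z‖ - ‖E‖ ≤ ‖2 * z + E‖ := by
      have := norm_sub_norm_le (2 * z) (-E)
      rwa [norm_neg, sub_neg_eq_add] at this
    linarith
  -- the values at z ^ 2
  have hz2 : z ^ 2 ∈ ball (0 : ℂ) r := by
    rw [mem_ball, dist_zero_right, norm_pow, hz]
    nlinarith
  have hδ2 : ‖χ (z ^ 2) - χ₀ (z ^ 2)‖ ≤ B * r ^ 2 + 2 * e1 + 2 * e2 := by
    have hdd : deriv (fun z => χ z - χ₀ z) 0 = deriv χ 0 - deriv χ₀ 0 := by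
      have a1 := (hχ.differentiableAt (ball_mem_nhds (0 : ℂ) one_pos)).hasDerivAt
      have a2 := (hχ₀.differentiableAt (ball_mem_nhds (0 : ℂ) one_pos)).hasDerivAt
      exact (a1.sub a2).deriv
    have a3 := rem2 (f := fun z => χ z - χ₀ z) (c0 := e1) (c1 := e2) (B := B) hr
      ((hχ.sub hχ₀).mono (ball_subset_ball hr1'.le))
      (fun w hw => hmax' w (ball_subset_closedBall hw)) h1 (by rw [hdd]; exact h2) (z ^ 2) hz2
    have hzz : ‖z ^ 2‖ = r ^ 2 := by rw [norm_pow, hz]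
    rw [hdd, hzz] at a3
    have a4 : (r ^ 2 / r) ^ 2 = r ^ 2 := by
      field_simp
    rw [a4] at a3
    have e : χ (z ^ 2) - χ₀ (z ^ 2) = (χ (z ^ 2) - χ₀ (z ^ 2) - (χ 0 - χ₀ 0) -
        (deriv χ 0 - deriv χ₀ 0) * z ^ 2) + (χ 0 - χ₀ 0) +
        (deriv χ 0 - deriv χ₀ 0) * z ^ 2 := by ring
    rw [e]
    have a5 : ‖(deriv χ 0 - deriv χ₀ 0) * z ^ 2‖ ≤ e2 * r ^ 2 := by
      rw [norm_mul, hzz]; gcongr
    have a6 : r ^ 2 ≤ 1 / 16 := by nlinarith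
    have a7 : (B + e1 + e2 * r) * r ^ 2 ≤ B * r ^ 2 + e1 / 2 + e2 / 2 := by
      have b1 : e1 * r ^ 2 ≤ e1 * (1 / 16) := mul_le_mul_of_nonneg_left a6 he1'
      have b2 : e2 * r * r ^ 2 ≤ e2 * 1 * (1 / 16) := by gcongr
      nlinarith
    have a8 : e2 * r ^ 2 ≤ e2 * (1 / 16) := mul_le_mul_of_nonneg_left a6 he2'
    calc _ ≤ ‖χ (z ^ 2) - χ₀ (z ^ 2) - (χ 0 - χ₀ 0) - (deriv χ 0 - deriv χ₀ 0) * z ^ 2 +
          (χ 0 - χ₀ 0)‖ + ‖(deriv χ 0 - deriv χ₀ 0) * z ^ 2‖ := norm_add_le _ _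
      _ ≤ (‖χ (z ^ 2) - χ₀ (z ^ 2) - (χ 0 - χ₀ 0) - (deriv χ 0 - deriv χ₀ 0) * z ^ 2‖ +
          ‖χ 0 - χ₀ 0‖) + ‖(deriv χ 0 - deriv χ₀ 0) * z ^ 2‖ := by
          gcongr; exact norm_add_le _ _
      _ ≤ _ := by linarith
  -- the functional equations
  have hfe : ‖f₀ (χ z) - f₀ (χ₀ z)‖ ≤ (B * r ^ 2 + 2 * e1 + 2 * e2) + ε := by
    have e : f₀ (χ z) - f₀ (χ₀ z) = (χ (z ^ 2) - χ₀ (z ^ 2)) - (f (χ z) - f₀ (χ z)) := by
      rw [he z hz1, he₀ z hz1]; ring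
    rw [e]
    calc _ ≤ ‖χ (z ^ 2) - χ₀ (z ^ 2)‖ + ‖f (χ z) - f₀ (χ z)‖ := norm_sub_le _ _
      _ ≤ _ := add_le_add hδ2 (hf _ (hb z hz1))
  have hfinal : (2 * r - ‖p‖ * (e1 + e2) - 6 * R * ‖p‖ * r ^ 2) * B ≤
      (B * r ^ 2 + 2 * e1 + 2 * e2) + ε + K * (e1 + 4 * R * r) ^ 2 * B := by
    have e : p * ((χ z - χ₀ 0) ^ 2 - (χ₀ z - χ₀ 0) ^ 2) = (f₀ (χ z) - f₀ (χ₀ z)) -
        (f₀ (χ z) - f₀ (χ₀ z) - p * ((χ z - χ₀ 0) ^ 2 - (χ₀ z - χ₀ 0) ^ 2)) := by ring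
    rw [e] at hquad
    exact hquad.trans ((norm_sub_le _ _).trans (add_le_add hfe hU'))
  have hKm : K * (e1 + 4 * R * r) ^ 2 * B ≤ K * (2 * e1 + 32 * R ^ 2 * r ^ 2) * B := by
    gcongr
  have hcoef : (6 * R * ‖p‖ + 32 * K * R ^ 2 + 1) * r ^ 2 ≤ 1 / 2 * r := by
    have := mul_le_mul_of_nonneg_right hr2 hr.le
    nlinarith
  have hfin2 : (2 * r - (‖p‖ * (e1 + e2) + 2 * K * e1) -
      (6 * R * ‖p‖ + 32 * K * R ^ 2 + 1) * r ^ 2) * B ≤ 2 * e1 + 2 * e2 + ε := by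
    nlinarith
  have hge : r ≤ 2 * r - (‖p‖ * (e1 + e2) + 2 * K * e1) -
      (6 * R * ‖p‖ + 32 * K * R ^ 2 + 1) * r ^ 2 := by linarith
  calc B * r = r * B := mul_comm _ _
    _ ≤ _ := mul_le_mul_of_nonneg_right hge hB0
    _ ≤ _ := hfin2

/-- evaluation is continuous in the coefficients and the point -/
theorem eval_tendsto {N : ℕ} {Q : ℕ → ℂ[X]} {Q₀ : ℂ[X]} (dQ : ∀ n, (Q n).natDegree ≤ N)
    (dQ₀ : Q₀.natDegree ≤ N)
    (hQ : ∀ i, Tendsto (fun n => (Q n).coeff i) atTop (𝓝 (Q₀.coeff i))) {x : ℕ → ℂ} {x₀ : ℂ}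
    (hx : Tendsto x atTop (𝓝 x₀)) :
    Tendsto (fun n => (Q n).eval (x n)) atTop (𝓝 (Q₀.eval x₀)) := by
  have e : ∀ n, (Q n).eval (x n) = ∑ i ∈ Finset.range (N + 1), (Q n).coeff i * x n ^ i :=
    fun n => Polynomial.eval_eq_sum_range' (Nat.lt_succ_of_le (dQ n)) _
  have e₀ : Q₀.eval x₀ = ∑ i ∈ Finset.range (N + 1), Q₀.coeff i * x₀ ^ i :=
    Polynomial.eval_eq_sum_range' (Nat.lt_succ_of_le dQ₀) _
  simp_rw [e, e₀]
  exact tendsto_finsetSum _ (fun i _ => (hQ i).mul (hx.pow i))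

/-- a common escape radius -/
theorem escape {D : ℕ} (hD : 2 ≤ D) {P : ℕ → ℂ[X]} {P₀ : ℂ[X]}
    (dP : ∀ n, (P n).natDegree = D) (dP₀ : P₀.natDegree = D)
    (hP : ∀ i, Tendsto (fun n => (P n).coeff i) atTop (𝓝 (P₀.coeff i))) :
    ∃ R : ℝ, 1 ≤ R ∧ ∀ᶠ n in atTop, ∀ z : ℂ, R ≤ ‖z‖ → 2 * ‖z‖ ≤ ‖(P n).eval z‖ := by
  have hP₀ : P₀.coeff D ≠ 0 := by
    rw [← dP₀]
    intro h
    have h1 : P₀ = 0 := Polynomial.leadingCoeff_eq_zero.mp h
    rw [h1] at dP₀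
    simp at dP₀
    omega
  set m : ℝ := ‖P₀.coeff D‖ / 2 with hm
  have hm0 : 0 < m := by
    have := norm_pos_iff.mpr hP₀
    positivity
  set S : ℝ := ∑ i ∈ Finset.range D, (‖P₀.coeff i‖ + 1) with hS
  have hS0 : 0 ≤ S := Finset.sum_nonneg (fun i _ => by positivity)
  refine ⟨max 1 ((S + 2) / m), le_max_left _ _, ?_⟩
  have ev1 : ∀ᶠ n in atTop, m < ‖(P n).coeff D‖ := by
    have h1 : Tendsto (fun n => ‖(P n).coeff D‖) atTop (𝓝 ‖P₀.coeff D‖) := (hP D).norm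
    refine h1.eventually (lt_mem_nhds ?_)
    rw [hm]
    have := norm_pos_iff.mpr hP₀
    linarith
  have ev2 : ∀ᶠ n in atTop, ∀ i ∈ Finset.range D, ‖(P n).coeff i‖ < ‖P₀.coeff i‖ + 1 := by
    rw [Filter.eventually_all_finset]
    intro i _
    have h1 : Tendsto (fun n => ‖(P n).coeff i‖) atTop (𝓝 ‖P₀.coeff i‖) := (hP i).norm
    exact h1.eventually (gt_mem_nhds (by linarith))
  filter_upwards [ev1, ev2] with n h1 h2 z hz
  have hz1 : 1 ≤ ‖z‖ := (le_max_left _ _).trans hz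
  have hz2 : (S + 2) / m ≤ ‖z‖ := (le_max_right _ _).trans hz
  rw [div_le_iff₀ hm0] at hz2
  have e : (P n).eval z = (∑ i ∈ Finset.range D, (P n).coeff i * z ^ i) +
      (P n).coeff D * z ^ D := by
    rw [Polynomial.eval_eq_sum_range' (show (P n).natDegree < D + 1 by rw [dP n]; omega),
      Finset.sum_range_succ]
  obtain ⟨E, rfl⟩ : ∃ E, D = E + 2 := ⟨D - 2, by omega⟩
  have h3 : ‖∑ i ∈ Finset.range (E + 2), (P n).coeff i * z ^ i‖ ≤ S * ‖z‖ ^ (E + 1) := by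
    rw [hS, Finset.sum_mul]
    refine (norm_sum_le _ _).trans (Finset.sum_le_sum ?_)
    intro i hi
    rw [norm_mul, norm_pow]
    refine mul_le_mul (h2 i hi).le ?_ (by positivity) (by positivity)
    refine pow_le_pow_right₀ hz1 ?_
    have := Finset.mem_range.mp hi
    omega
  have h4 : m * ‖z‖ ^ (E + 2) ≤ ‖(P n).coeff (E + 2) * z ^ (E + 2)‖ := by
    rw [norm_mul, norm_pow]
    exact mul_le_mul_of_nonneg_right h1.le (by positivity)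
  have h5 : m * ‖z‖ ^ (E + 2) - S * ‖z‖ ^ (E + 1) ≤ ‖(P n).eval z‖ := by
    rw [e]
    have h6 := norm_sub_norm_le ((P n).coeff (E + 2) * z ^ (E + 2))
      (-(∑ i ∈ Finset.range (E + 2), (P n).coeff i * z ^ i))
    rw [norm_neg, sub_neg_eq_add, add_comm ((P n).coeff (E + 2) * z ^ (E + 2))] at h6
    linarith
  have h6 : ‖z‖ ≤ ‖z‖ ^ (E + 1) := by
    have := pow_le_pow_right₀ hz1 (show 1 ≤ E + 1 by omega)
    simpa using this
  have h7 : m * ‖z‖ ^ (E + 2) - S * ‖z‖ ^ (E + 1) = (m * ‖z‖ - S) * ‖z‖ ^ (E + 1) := by ring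
  have h8 : 2 * ‖z‖ ^ (E + 1) ≤ (m * ‖z‖ - S) * ‖z‖ ^ (E + 1) := by
    refine mul_le_mul_of_nonneg_right ?_ (by positivity)
    linarith
  linarith

/-- the marking is bounded by an escape radius -/
theorem marking_bound {P : ℂ[X]} {ω : ℂ} {χ : ℂ → ℂ} (h : IsMarking P ω χ) {R : ℝ}
    (hR : 1 ≤ R) (hesc : ∀ z : ℂ, R ≤ ‖z‖ → 2 * ‖z‖ ≤ ‖P.eval z‖) :
    ∀ ζ ∈ ball (0 : ℂ) 1, ‖χ ζ‖ ≤ R := by
  intro ζ hζ
  by_contra hlt
  rw [not_le] at hlt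
  have hmem : χ ζ ∈ basin P ω := by
    have h1 : χ ζ ∈ immBasin P ω := by rw [← h.img]; exact ⟨ζ, hζ, rfl⟩
    exact connectedComponentIn_subset _ _ h1
  have hgrow : ∀ k : ℕ, 2 ^ k * ‖χ ζ‖ ≤ ‖(fun w => P.eval w)^[k] (χ ζ)‖ := by
    intro k
    induction k with
    | zero => simp
    | succ k ih =>
        rw [Function.iterate_succ_apply']
        have h2 : R ≤ ‖(fun w => P.eval w)^[k] (χ ζ)‖ := by
          refine le_trans ?_ ih
          have h3 : (1 : ℝ) ≤ 2 ^ k := one_le_pow₀ (by norm_num)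
          nlinarith
        have h4 := hesc _ h2
        rw [pow_succ]
        show 2 ^ k * 2 * ‖χ ζ‖ ≤ ‖P.eval ((fun w => P.eval w)^[k] (χ ζ))‖
        linarith
  have hlim : Tendsto (fun k : ℕ => ‖(fun w => P.eval w)^[k] (χ ζ)‖) atTop (𝓝 ‖ω‖) :=
    Tendsto.norm hmem
  have hinf : Tendsto (fun k : ℕ => (2 : ℝ) ^ k * ‖χ ζ‖) atTop atTop :=
    (tendsto_pow_atTop_atTop_of_one_lt (by norm_num)).atTop_mul_const (by linarith)
  exact not_tendsto_nhds_of_tendsto_atTop (tendsto_atTop_mono hgrow hinf) _ hlim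

theorem marking_deriv_ne {P : ℂ[X]} {ω : ℂ} {χ : ℂ → ℂ} (h : IsMarking P ω χ) :
    deriv χ 0 ≠ 0 :=
  deriv_ne_zero_of_inj isOpen_ball h.holo (h.inj.mono ball_subset_closedBall) 0
    (mem_ball_self one_pos)

theorem marking_crit {P : ℂ[X]} {ω : ℂ} {χ : ℂ → ℂ} (hω : P.eval ω = ω)
    (h : IsMarking P ω χ) : P.derivative.eval ω = 0 := by
  have h0 := marking_zero hω h
  have hne := marking_deriv_ne h
  have hd : HasDerivAt χ (deriv χ 0) 0 :=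
    (h.holo.differentiableAt (ball_mem_nhds 0 one_pos)).hasDerivAt
  have h1 : HasDerivAt (fun ζ => P.eval (χ ζ)) (P.derivative.eval (χ 0) * deriv χ 0) 0 :=
    HasDerivAt.comp (0 : ℂ) (P.hasDerivAt (χ 0)) hd
  have h2 : HasDerivAt (fun ζ : ℂ => χ (ζ ^ 2)) (deriv χ 0 * 0) 0 := by
    have h3 : HasDerivAt (fun ζ : ℂ => ζ ^ 2) 0 0 := by
      have := hasDerivAt_pow 2 (0 : ℂ)
      simpa using this
    have h4 : HasDerivAt χ (deriv χ 0) ((0 : ℂ) ^ 2) := by simpa using hd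
    exact HasDerivAt.comp (0 : ℂ) h4 h3
  have h3 : (fun ζ => P.eval (χ ζ)) =ᶠ[𝓝 0] fun ζ : ℂ => χ (ζ ^ 2) := by
    filter_upwards [ball_mem_nhds (0 : ℂ) one_pos] with ζ hζ
    exact h.conj ζ (ball_subset_closedBall hζ)
  have h4 := h1.unique (h2.congr_of_eventuallyEq h3)
  rw [mul_zero, h0] at h4
  exact (mul_eq_zero.mp h4).resolve_right hne

/-- second order expansion of a polynomial at a critical point, in difference form -/
theorem quad_diff (P : ℂ[X]) {ω : ℂ} (hc : P.derivative.eval ω = 0) :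
    ∃ K : ℝ, 0 ≤ K ∧ ∀ m : ℝ, m ≤ 1 / 2 → ∀ x y : ℂ, ‖x - ω‖ ≤ m → ‖y - ω‖ ≤ m →
      ‖P.eval x - P.eval y - (P.derivative.derivative.eval ω / 2) *
        ((x - ω) ^ 2 - (y - ω) ^ 2)‖ ≤ K * m ^ 2 * ‖x - y‖ := by
  set p : ℂ := P.derivative.derivative.eval ω / 2 with hp
  set G : ℂ → ℂ := fun w => P.derivative.eval (ω + w) - 2 * p * w with hG
  have hGd : ∀ w, HasDerivAt G (P.derivative.derivative.eval (ω + w) - 2 * p) w := by
    intro w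
    have h1 : HasDerivAt (fun w : ℂ => P.derivative.eval (ω + w))
        (P.derivative.derivative.eval (ω + w) * 1) w :=
      HasDerivAt.comp w (P.derivative.hasDerivAt (ω + w)) ((hasDerivAt_id w).const_add ω)
    have h2 : HasDerivAt (fun w : ℂ => 2 * p * w) (2 * p * 1) w :=
      (hasDerivAt_id w).const_mul _
    have h3 := h1.sub h2
    rw [mul_one, mul_one] at h3
    exact h3
  have hGcont : Continuous G := by
    rw [continuous_iff_continuousAt]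
    exact fun w => (hGd w).continuousAt
  obtain ⟨K, hK⟩ := (isCompact_closedBall (0 : ℂ) 1).exists_bound_of_continuousOn
    hGcont.continuousOn
  have hK0 : 0 ≤ K := (norm_nonneg _).trans (hK 0 (mem_closedBall_self zero_le_one))
  have hG0 : G 0 = 0 := by simp [hG, hc]
  have hG1 : deriv G 0 = 0 := by
    rw [(hGd 0).deriv, add_zero, hp]
    ring
  have hS := schwarz2 (f := G) (ρ := 1) (M := K) one_pos
    (fun w _ => (hGd w).differentiableAt.differentiableWithinAt) hG0 hG1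
    (fun z hz => hK z (ball_subset_closedBall hz))
  refine ⟨K, hK0, ?_⟩
  intro m hm x y hx hy
  have hm0 : 0 ≤ m := (norm_nonneg _).trans hx
  have hV : ∀ z ∈ closedBall ω m, HasDerivWithinAt (fun z => P.eval z - p * (z - ω) ^ 2)
      (G (z - ω)) (closedBall ω m) z := by
    intro z _
    have h1 := P.hasDerivAt z
    have h2 : HasDerivAt (fun z : ℂ => p * (z - ω) ^ 2) (p * (2 * (z - ω) * 1)) z := by
      have h3 := (((hasDerivAt_id z).sub_const ω).pow 2).const_mul p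
      simpa using h3
    have h3 := h1.sub h2
    have e : G (z - ω) = P.derivative.eval z - p * (2 * (z - ω) * 1) := by
      simp only [hG]
      rw [add_sub_cancel]
      ring
    rw [e]
    exact h3.hasDerivWithinAt
  have hb : ∀ z ∈ closedBall ω m, ‖G (z - ω)‖ ≤ K * m ^ 2 := by
    intro z hz
    rw [mem_closedBall, dist_eq_norm] at hz
    have h1 : z - ω ∈ ball (0 : ℂ) 1 := by
      rw [mem_ball, dist_zero_right]
      linarith
    have h2 := hS _ h1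
    rw [div_one] at h2
    refine h2.trans ?_
    gcongr
  have h4 := (convex_closedBall ω m).norm_image_sub_le_of_norm_hasDerivWithin_le hV hb
    (show y ∈ closedBall ω m by rw [mem_closedBall, dist_eq_norm]; exact hy)
    (show x ∈ closedBall ω m by rw [mem_closedBall, dist_eq_norm]; exact hx)
  have e : P.eval x - P.eval y - p * ((x - ω) ^ 2 - (y - ω) ^ 2) =
      (P.eval x - p * (x - ω) ^ 2) - (P.eval y - p * (y - ω) ^ 2) := by ring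
  rw [e]
  exact h4

end K8aux

/-- If the polynomials (of fixed degree) and the superattracting fixed points converge, then
the markings converge uniformly on compact subsets of the open disc. -/
theorem marking_tendsto {D : ℕ} (hD : 2 ≤ D) {P : ℕ → ℂ[X]} {P₀ : ℂ[X]}
    (dP : ∀ n, (P n).natDegree = D) (dP₀ : P₀.natDegree = D) {ω : ℕ → ℂ} {ω₀ : ℂ}
    {χ : ℕ → ℂ → ℂ} {χ₀ : ℂ → ℂ}
    (hP : ∀ i, Tendsto (fun n => (P n).coeff i) atTop (𝓝 (P₀.coeff i)))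
    (hω : Tendsto ω atTop (𝓝 ω₀)) (hf : ∀ n, (P n).eval (ω n) = ω n)
    (hf₀ : P₀.eval ω₀ = ω₀) (hχ : ∀ n, IsMarking (P n) (ω n) (χ n))
    (hχ₀ : IsMarking P₀ ω₀ χ₀) : TendstoLocallyUniformlyOn χ χ₀ atTop (ball 0 1) := by
  classical
  obtain ⟨Re, hRe1, hesc⟩ := K8aux.escape hD dP dP₀ hP
  obtain ⟨Rf, hRf1, hescf⟩ := K8aux.escape hD (P := fun _ => P₀) (fun _ => dP₀) dP₀
    (fun i => tendsto_const_nhds)
  obtain ⟨_, hescf'⟩ := hescf.exists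
  have hχz : ∀ n, χ n 0 = ω n := fun n => marking_zero (hf n) (hχ n)
  have hχz₀ : χ₀ 0 = ω₀ := marking_zero hf₀ hχ₀
  have hne₀ := K8aux.marking_deriv_ne hχ₀
  have hcrit := K8aux.marking_crit hf₀ hχ₀
  have hmd := fun n => marking_deriv (hf n) (hχ n)
  have hmd₀ := marking_deriv hf₀ hχ₀
  have hP2 : P₀.derivative.derivative.eval ω₀ ≠ 0 := by
    intro h
    rw [hmd₀, h, div_zero] at hne₀
    exact hne₀ rfl
  -- the derivatives at zero converge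
  have hP2t : Tendsto (fun n => (P n).derivative.derivative.eval (ω n)) atTop
      (𝓝 (P₀.derivative.derivative.eval ω₀)) := by
    have hnd : ∀ Q : ℂ[X], Q.natDegree = D → Q.derivative.derivative.natDegree ≤ D := by
      intro Q hQ
      have h1 := Polynomial.natDegree_derivative_le Q
      have h2 := Polynomial.natDegree_derivative_le Q.derivative
      omega
    refine K8aux.eval_tendsto (fun n => hnd _ (dP n)) (hnd _ dP₀) ?_ hω
    intro i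
    simp only [Polynomial.coeff_derivative]
    exact ((hP _).mul_const _).mul_const _
  have hdt : Tendsto (fun n => deriv (χ n) 0) atTop (𝓝 (deriv χ₀ 0)) := by
    simp_rw [hmd, hmd₀]
    exact tendsto_const_nhds.div hP2t hP2
  set p : ℂ := P₀.derivative.derivative.eval ω₀ / 2 with hp
  have hpd : p * deriv χ₀ 0 = 1 := by
    rw [hmd₀, hp]
    field_simp
  obtain ⟨K, hK0, hK⟩ := K8aux.quad_diff P₀ hcrit
  set R : ℝ := max (max Re Rf) (‖deriv χ₀ 0‖ + 1) with hR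
  have hR1 : 1 ≤ R := hRe1.trans ((le_max_left _ _).trans (le_max_left _ _))
  have hbχ₀ : ∀ z ∈ ball (0 : ℂ) 1, ‖χ₀ z‖ ≤ R := fun z hz =>
    (K8aux.marking_bound hχ₀ hRf1 hescf' z hz).trans
      ((le_max_right _ _).trans (le_max_left _ _))
  have hbχ : ∀ᶠ n in atTop, ∀ z ∈ ball (0 : ℂ) 1, ‖χ n z‖ ≤ R := by
    filter_upwards [hesc] with n hn z hz
    exact (K8aux.marking_bound (hχ n) hRe1 hn z hz).trans
      ((le_max_left _ _).trans (le_max_left _ _))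
  have hc₀ : ‖deriv χ₀ 0‖ ≤ R := by
    have := le_max_right (max Re Rf) (‖deriv χ₀ 0‖ + 1)
    linarith
  have hcn : ∀ᶠ n in atTop, ‖deriv (χ n) 0‖ ≤ R := by
    have h1 : Tendsto (fun n => ‖deriv (χ n) 0‖) atTop (𝓝 ‖deriv χ₀ 0‖) := hdt.norm
    have h2 := h1.eventually (gt_mem_nhds (show ‖deriv χ₀ 0‖ < ‖deriv χ₀ 0‖ + 1 by linarith))
    filter_upwards [h2] with n hn
    exact hn.le.trans (le_max_right _ _)
  -- the small radius
  obtain ⟨r, hr0, hr1, hr2⟩ : ∃ r : ℝ, 0 < r ∧ 16 * R * r ≤ 1 ∧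
      (6 * R * ‖p‖ + 32 * K * R ^ 2 + 1) * r ≤ 1 / 2 := by
    have hC : 0 < 6 * R * ‖p‖ + 32 * K * R ^ 2 + 1 := by
      have : 0 ≤ ‖p‖ := norm_nonneg p
      have : 0 ≤ 6 * R * ‖p‖ := by positivity
      have : 0 ≤ 32 * K * R ^ 2 := by positivity
      linarith
    have hR0 : 0 < R := by linarith
    refine ⟨min (1 / (16 * R)) (1 / (2 * (6 * R * ‖p‖ + 32 * K * R ^ 2 + 1))), ?_, ?_, ?_⟩
    · exact lt_min (by positivity) (by positivity)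
    · calc 16 * R * min (1 / (16 * R)) (1 / (2 * (6 * R * ‖p‖ + 32 * K * R ^ 2 + 1)))
          ≤ 16 * R * (1 / (16 * R)) := by gcongr; exact min_le_left _ _
        _ = 1 := by field_simp
    · calc (6 * R * ‖p‖ + 32 * K * R ^ 2 + 1) *
            min (1 / (16 * R)) (1 / (2 * (6 * R * ‖p‖ + 32 * K * R ^ 2 + 1)))
          ≤ (6 * R * ‖p‖ + 32 * K * R ^ 2 + 1) *
            (1 / (2 * (6 * R * ‖p‖ + 32 * K * R ^ 2 + 1))) := by
            gcongr; exact min_le_right _ _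
        _ = 1 / 2 := by field_simp
  have hr1' : r < 1 := by nlinarith
  -- the errors
  set e1 : ℕ → ℝ := fun n => ‖χ n 0 - χ₀ 0‖ with he1
  set e2 : ℕ → ℝ := fun n => ‖deriv (χ n) 0 - deriv χ₀ 0‖ with he2
  set e3 : ℕ → ℝ := fun n => ∑ i ∈ Finset.range (D + 1),
    ‖(P n).coeff i - P₀.coeff i‖ * R ^ i with he3
  have te1 : Tendsto e1 atTop (𝓝 0) := by
    have h1 : Tendsto (fun n => χ n 0 - χ₀ 0) atTop (𝓝 0) := by
      simp_rw [hχz, hχz₀]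
      have := hω.sub_const ω₀
      rwa [sub_self] at this
    have := h1.norm
    rwa [norm_zero] at this
  have te2 : Tendsto e2 atTop (𝓝 0) := by
    have h1 := (hdt.sub_const (deriv χ₀ 0)).norm
    rwa [sub_self, norm_zero] at h1
  have te3 : Tendsto e3 atTop (𝓝 0) := by
    have h1 : Tendsto e3 atTop (𝓝 (∑ i ∈ Finset.range (D + 1), (0 : ℝ) * R ^ i)) := by
      refine tendsto_finsetSum _ (fun i _ => ?_)
      have h2 := ((hP i).sub_const (P₀.coeff i)).norm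
      rw [sub_self, norm_zero] at h2
      exact h2.mul_const _
    simpa using h1
  have hfe : ∀ n, ∀ z, ‖z‖ ≤ R → ‖(P n).eval z - P₀.eval z‖ ≤ e3 n := by
    intro n z hz
    rw [Polynomial.eval_eq_sum_range' (show (P n).natDegree < D + 1 by rw [dP n]; omega),
      Polynomial.eval_eq_sum_range' (show P₀.natDegree < D + 1 by rw [dP₀]; omega),
      ← Finset.sum_sub_distrib]
    refine (norm_sum_le _ _).trans (Finset.sum_le_sum ?_)
    intro i _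
    rw [← sub_mul, norm_mul, norm_pow]
    gcongr
  have hsmall : ∀ η > 0, ∀ᶠ n in atTop, ∀ z ∈ closedBall (0 : ℂ) r,
      ‖χ n z - χ₀ z‖ ≤ η := by
    intro η hη
    have ev1 : ∀ᶠ n in atTop, e1 n < 1 / 4 := te1.eventually (gt_mem_nhds (by norm_num))
    have ev2 : ∀ᶠ n in atTop, ‖p‖ * (e1 n + e2 n) + 2 * K * e1 n < r / 2 := by
      have h1 : Tendsto (fun n => ‖p‖ * (e1 n + e2 n) + 2 * K * e1 n) atTop
          (𝓝 (‖p‖ * (0 + 0) + 2 * K * 0)) :=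
        ((te1.add te2).const_mul _).add (te1.const_mul _)
      refine h1.eventually (gt_mem_nhds ?_)
      simpa using hr0
    have ev3 : ∀ᶠ n in atTop, 2 * e1 n + 2 * e2 n + e3 n < η * r := by
      have h1 : Tendsto (fun n => 2 * e1 n + 2 * e2 n + e3 n) atTop
          (𝓝 (2 * 0 + 2 * 0 + 0)) := ((te1.const_mul _).add (te2.const_mul _)).add te3
      refine h1.eventually (gt_mem_nhds ?_)
      have : 0 < η * r := mul_pos hη hr0
      simpa using this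
    filter_upwards [ev1, ev2, ev3, hbχ, hcn] with n h1 h2 h3 h4 h5 z hz
    have h6 := K8aux.small_disc (χ := χ n) (χ₀ := χ₀) (f := fun z => (P n).eval z)
      (f₀ := fun z => P₀.eval z) (R := R) (K := K) (r := r) (ε := e3 n) (e1 := e1 n)
      (e2 := e2 n) (p := p) hR1 hK0 (hχ n).holo hχ₀.holo h4 hbχ₀ h5 hc₀ (hfe n)
      (fun z hz => (hχ n).conj z (ball_subset_closedBall hz))
      (fun z hz => hχ₀.conj z (ball_subset_closedBall hz)) hpd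
      (by rw [hχz₀]; exact hK) le_rfl le_rfl hr0 hr1 hr2 h1.le h2.le z hz
    have h7 : ‖χ n z - χ₀ z‖ * r ≤ η * r := h6.trans h3.le
    exact le_of_mul_le_mul_right h7 hr0
  -- the whole disc
  rw [Metric.tendstoLocallyUniformlyOn_iff]
  intro ε hε x hx
  rw [mem_ball, dist_zero_right] at hx
  set s : ℝ := (1 + ‖x‖) / 2 with hs
  have hs0 : 0 < s := by have := norm_nonneg x; rw [hs]; linarith
  have hs1 : s < 1 := by rw [hs]; linarith
  have hxs : ‖x‖ < s := by rw [hs]; linarith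
  set ρ : ℝ := (1 + s) / 2 with hρ
  have hsρ : s < ρ := by rw [hρ]; linarith
  have hρ1 : ρ < 1 := by rw [hρ]; linarith
  have hρ0 : 0 < ρ := hs0.trans hsρ
  have hq0 : 0 ≤ s / ρ := by positivity
  have hq1 : s / ρ < 1 := (div_lt_one hρ0).2 hsρ
  refine ⟨ball 0 s, mem_nhdsWithin_of_mem_nhds (isOpen_ball.mem_nhds (by simpa using hxs)), ?_⟩
  have hKt : Tendsto (fun N : ℕ => 2 * R * ((s / ρ) ^ N * (1 - s / ρ)⁻¹)) atTop (𝓝 0) := by
    have h1 := tendsto_pow_atTop_nhds_zero_of_lt_one hq0 hq1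
    have h2 := (h1.mul_const ((1 - s / ρ)⁻¹)).const_mul (2 * R)
    simpa using h2
  obtain ⟨N, hN⟩ := (hKt.eventually (gt_mem_nhds (half_pos hε))).exists
  set sg : ℝ := ∑ k ∈ Finset.range N, (s / r) ^ k with hsg
  have hsg0 : 0 ≤ sg := Finset.sum_nonneg (fun k _ => by positivity)
  have hη0 : 0 < ε / (2 * (sg + 1)) := by positivity
  filter_upwards [hsmall _ hη0, hbχ] with n h1 h2 y hy
  have h3 := D4aux.two_bounds (g := fun z => χ n z - χ₀ z) (x0 := 0) (r := 1) (s := s)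
    (ρ := ρ) (t := r) (M := 2 * R) (η := ε / (2 * (sg + 1))) hs0 hsρ hρ1 hr0 hr1'
    ((hχ n).holo.sub hχ₀.holo) ?_ ?_ N hy
  · rw [dist_comm, dist_eq_norm]
    refine lt_of_le_of_lt h3 ?_
    have h4 : ε / (2 * (sg + 1)) * sg ≤ ε / 2 := by
      have e : ε / (2 * (sg + 1)) * sg = ε / 2 * (sg / (sg + 1)) := by field_simp
      rw [e]
      have h5 : sg / (sg + 1) ≤ 1 := by
        rw [div_le_one (by linarith)]
        linarith
      have h6 : 0 ≤ ε / 2 := by linarith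
      nlinarith
    rw [← hsg]
    linarith
  · intro z hz
    rw [mem_sphere, dist_zero_right] at hz
    have hz' : z ∈ ball (0 : ℂ) 1 := by rw [mem_ball, dist_zero_right, hz]; exact hρ1
    calc ‖χ n z - χ₀ z‖ ≤ ‖χ n z‖ + ‖χ₀ z‖ := norm_sub_le _ _
      _ ≤ 2 * R := by linarith [h2 z hz', hbχ₀ z hz']
  · intro z hz
    exact h1 z (sphere_subset_closedBall hz)

end

end Pool.TU
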