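import Pool.Agent.Helper71.TU.B5

/-! # TU N4: the parabolic tuned polynomial -/

open Complex Set Filter Topology Metric Polynomial ComplexConjugate Pool.Tuning

namespace Pool.TU

noncomputable section

namespace N4

theorem gP_natDegree : gP.natDegree = 4 := by
  unfold gP
  compute_degree!

theorem gP_lead : gP.leadingCoeff = 135936 / 33275 := by
  unfold Polynomial.leadingCoeff
  rw [gP_natDegree]
  unfold gP
  simp [coeff_X, coeff_X_pow, coeff_C_mul]

theorem gP_eval (z : ℂ) : (gP.map (algebraMap ℝ ℂ)).eval z =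
    z - 4559 / 3025 * z ^ 2 + 52512 / 33275 * z ^ 3 + 135936 / 33275 * z ^ 4 := by
  unfold gP
  simp only [Polynomial.map_add, Polynomial.map_mul, Polynomial.map_pow, Polynomial.map_X,
    Polynomial.map_C, eval_add, eval_mul, eval_pow, eval_X, eval_C, Complex.coe_algebraMap]
  push_cast
  ring

theorem gP_der (z : ℂ) : (gP.map (algebraMap ℝ ℂ)).derivative.eval z =
    1 - 2 * (4559 / 3025) * z + 3 * (52512 / 33275) * z ^ 2 + 4 * (135936 / 33275) * z ^ 3 := by
  unfold gP
  simp only [Polynomial.map_add, Polynomial.map_mul, Polynomial.map_pow, Polynomial.map_X,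
    Polynomial.map_C, eval_add, eval_mul, eval_pow, eval_X, eval_C, Complex.coe_algebraMap,
    Polynomial.derivative_add, derivative_C_mul, derivative_X_pow, derivative_X, eval_one]
  push_cast
  ring

/-- imaginary part of the critical point -/
def yc : ℝ := Real.sqrt (3025 / 33984 - (751 / 3776) ^ 2)

theorem yc_pos : 0 < yc := Real.sqrt_pos.mpr (by norm_num)

theorem yc_sq : yc ^ 2 = 3025 / 33984 - (751 / 3776) ^ 2 := Real.sq_sqrt (by norm_num)

/-- the critical point -/
def cc : ℂ := ⟨751 / 3776, yc⟩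

theorem cc_sq : cc ^ 2 = 751 / 1888 * cc - 3025 / 33984 := by
  have h := yc_sq
  apply Complex.ext
  · have : (cc ^ 2).re = (751 / 3776) ^ 2 - yc ^ 2 := by
      simp [cc, pow_two]
    rw [this, h]
    simp [cc]
    norm_num
  · have : (cc ^ 2).im = 2 * (751 / 3776) * yc := by
      simp [cc, pow_two]
      ring
    rw [this]
    simp [cc]
    left
    norm_num


theorem mulc (a b a' b' : ℂ) : (a + b * cc) * (a' + b' * cc) =
    (a * a' - b * b' * (3025 / 33984)) + (a * b' + a' * b + b * b' * (751 / 1888)) * cc := by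
  linear_combination (b * b') * cc_sq

theorem cc_pow3 : cc ^ 3 = (-(2271775 / 64161792)) + (2220409 / 32080896) * cc := by
  have h := mulc (-(3025 / 33984)) (751 / 1888) 0 1
  have e : cc ^ 3 = ((-(3025 / 33984)) + (751 / 1888) * cc) * (0 + 1 * cc) := by
    linear_combination cc * cc_sq
  rw [e, h]
  norm_num

theorem cc_pow4 : cc ^ 4 = (-(6716737225 / 1090237169664)) + (-(477028441 / 60568731648)) * cc := by
  have h := mulc (-(3025 / 33984)) (751 / 1888) (-(3025 / 33984)) (751 / 1888)
  have e : cc ^ 4 = ((-(3025 / 33984)) + (751 / 1888) * cc) * ((-(3025 / 33984)) + (751 / 1888) * cc) := by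
    linear_combination (cc ^ 2 + (751 / 1888 * cc - 3025 / 33984)) * cc_sq
  rw [e, h]
  norm_num

theorem v_eq : (gP.map (algebraMap ℝ ℂ)).eval cc = (4685191 / 88222464) + (21241370677 / 44478825600) * cc := by
  rw [gP_eval, cc_sq, cc_pow3, cc_pow4]
  ring

theorem v_sq : ((4685191 / 88222464) + (21241370677 / 44478825600) * cc) ^ 2 = (-(388512510641888294729 / 22225714927222888857600)) + (1584922132385479128693637 / 11205464609141539799040000) * cc := by
  have h := mulc (4685191 / 88222464) (21241370677 / 44478825600) (4685191 / 88222464) (21241370677 / 44478825600)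
  rw [pow_two, h]
  norm_num

theorem v_pow3 : ((4685191 / 88222464) + (21241370677 / 44478825600) * cc) ^ 3 = (-(38863839594966731283881286355570649 / 5599281425943604836834916266147840000)) + (73488089175621033622526684179863357397 / 2822971052246567438570936950849536000000) * cc := by
  have h := mulc (-(388512510641888294729 / 22225714927222888857600)) (1584922132385479128693637 / 11205464609141539799040000) (4685191 / 88222464) (21241370677 / 44478825600)
  rw [pow_succ, v_sq, h]
  norm_num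

theorem v_pow4 : ((4685191 / 88222464) + (21241370677 / 44478825600) * cc) ^ 4 = (-(2080948273551152162717727373175833804137970168169 / 1410616152937154878406486889500446520776851456000000)) + (2142746434216365099988047927422795041004186913265957 / 711185643772482251196603806789808454224995942400000000) * cc := by
  have h := mulc (-(388512510641888294729 / 22225714927222888857600)) (1584922132385479128693637 / 11205464609141539799040000) (-(388512510641888294729 / 22225714927222888857600)) (1584922132385479128693637 / 11205464609141539799040000)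
  rw [show ((4685191 / 88222464) + (21241370677 / 44478825600) * cc) ^ 4 = (((4685191 / 88222464) + (21241370677 / 44478825600) * cc) ^ 2) * (((4685191 / 88222464) + (21241370677 / 44478825600) * cc) ^ 2) by ring, v_sq, h]
  norm_num

theorem hv_eq : (gP.map (algebraMap ℝ ℂ)).eval ((gP.map (algebraMap ℝ ℂ)).eval cc) =
    (21571096155694032694851233263720634522417976084631 / 345296702043489793571797399129938779858534400000000) + (55322039129176877130933655802777781000864938888267557 / 174087087280259437592447855394677468178677760000000000) * cc := by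
  rw [v_eq, gP_eval, v_sq, v_pow3, v_pow4]
  ring

theorem lin_re (a b : ℝ) : ((a : ℂ) + b * cc).re = a + b * (751 / 3776) := by
  simp [cc]

theorem lin_im (a b : ℝ) : ((a : ℂ) + b * cc).im = b * yc := by
  simp [cc]

theorem v_re : ((gP.map (algebraMap ℝ ℂ)).eval cc).re = (4685191 / 88222464) + (21241370677 / 44478825600) * (751 / 3776) := by
  have h := lin_re (4685191 / 88222464) (21241370677 / 44478825600)
  rw [v_eq, ← h]
  push_cast
  rfl

theorem v_im : ((gP.map (algebraMap ℝ ℂ)).eval cc).im = (21241370677 / 44478825600) * yc := by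
  have h := lin_im (4685191 / 88222464) (21241370677 / 44478825600)
  rw [v_eq, ← h]
  push_cast
  rfl

theorem hv_im : ((gP.map (algebraMap ℝ ℂ)).eval ((gP.map (algebraMap ℝ ℂ)).eval cc)).im =
    (55322039129176877130933655802777781000864938888267557 / 174087087280259437592447855394677468178677760000000000) * yc := by
  have h := lin_im (21571096155694032694851233263720634522417976084631 / 345296702043489793571797399129938779858534400000000) (55322039129176877130933655802777781000864938888267557 / 174087087280259437592447855394677468178677760000000000)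
  rw [hv_eq, ← h]
  push_cast
  rfl
/-! ### the half plane -/

/-- denominator of `1/h(1/W)` -/
def Qt (W : ℂ) : ℂ := 33275 * W ^ 3 - 50149 * W ^ 2 + 52512 * W + 135936

/-- numerator for the derivative -/
def Nt (W : ℂ) : ℂ := 33275 * W ^ 3 - 2 * 50149 * W ^ 2 + 3 * 52512 * W + 4 * 135936

/-- numerator for the step -/
def Mt (W : ℂ) : ℂ := 50149 * W ^ 2 - 52512 * W - 135936

theorem Qt_mk (x y : ℝ) : Qt ⟨x, y⟩ =
    ⟨33275 * (x ^ 3 - 3 * x * y ^ 2) - 50149 * (x ^ 2 - y ^ 2) + 52512 * x + 135936,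
      33275 * (3 * x ^ 2 * y - y ^ 3) - 50149 * (2 * x * y) + 52512 * y⟩ := by
  unfold Qt
  apply Complex.ext
  · simp [pow_succ]
    ring
  · simp [pow_succ]
    ring

theorem Nt_mk (x y : ℝ) : Nt ⟨x, y⟩ =
    ⟨33275 * (x ^ 3 - 3 * x * y ^ 2) - 2 * 50149 * (x ^ 2 - y ^ 2) + 3 * 52512 * x + 4 * 135936,
      33275 * (3 * x ^ 2 * y - y ^ 3) - 2 * 50149 * (2 * x * y) + 3 * 52512 * y⟩ := by
  unfold Nt
  apply Complex.ext
  · simp [pow_succ]
    ring
  · simp [pow_succ]
    ring

theorem Mt_mk (x y : ℝ) : Mt ⟨x, y⟩ =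
    ⟨50149 * (x ^ 2 - y ^ 2) - 52512 * x - 135936, 50149 * (2 * x * y) - 52512 * y⟩ := by
  unfold Mt
  apply Complex.ext
  · simp [pow_succ]
  · simp [pow_succ]
    ring

theorem cube_mk (x y : ℝ) : (⟨x, y⟩ : ℂ) ^ 3 = ⟨x ^ 3 - 3 * x * y ^ 2, 3 * x ^ 2 * y - y ^ 3⟩ := by
  apply Complex.ext
  · simp [pow_succ]
    ring
  · simp [pow_succ]
    ring

theorem step_pos (t y : ℝ) (ht : 0 ≤ t) :
    0 < ((⟨10 / 3 + t, y⟩ : ℂ) * Mt ⟨10 / 3 + t, y⟩ * conj (Qt ⟨10 / 3 + t, y⟩)).re -
      1 / 50 * normSq (Qt ⟨10 / 3 + t, y⟩) := by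
  rw [Mt_mk, Qt_mk]
  simp only [Complex.mul_re, Complex.mul_im, Complex.conj_re, Complex.conj_im, normSq_mk]
  ring_nf
  positivity

theorem der_pos (t y : ℝ) (ht : 0 ≤ t) :
    0 < ((⟨10 / 3 + t, y⟩ : ℂ) ^ 3 * Nt ⟨10 / 3 + t, y⟩ *
      (conj (Qt ⟨10 / 3 + t, y⟩) * conj (Qt ⟨10 / 3 + t, y⟩))).re := by
  rw [Nt_mk, Qt_mk, cube_mk]
  simp only [Complex.mul_re, Complex.mul_im, Complex.conj_re, Complex.conj_im]
  ring_nf
  positivity

theorem Qt_ne (W : ℂ) (hW : 10 / 3 ≤ W.re) : Qt W ≠ 0 := by
  intro h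
  have h1 := der_pos (W.re - 10 / 3) W.im (by linarith)
  rw [show (10 / 3 + (W.re - 10 / 3) : ℝ) = W.re by ring] at h1
  have h2 : (⟨W.re, W.im⟩ : ℂ) = W := rfl
  rw [h2, h] at h1
  simp at h1

theorem re_div (z u : ℂ) : (z / u).re = (z * conj u).re / normSq u := by
  rw [div_eq_mul_inv, Complex.inv_def, ← mul_assoc, re_mul_ofReal, div_eq_mul_inv]


theorem eval_inv (W : ℂ) (hW : W ≠ 0) : (gP.map (algebraMap ℝ ℂ)).eval (1 / W) =
    Qt W / (33275 * W ^ 4) := by
  rw [gP_eval]
  unfold Qt
  field_simp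
  ring

/-- the leading coefficient at the parabolic point -/
def al : ℝ := 4559 / 3025

theorem al_pos : 0 < al := by unfold al; norm_num

theorem re_al (w : ℂ) (hw : 1 / (2 * (3 / 20) * al) ≤ w.re) : 10 / 3 ≤ ((al : ℂ) * w).re := by
  rw [re_ofReal_mul]
  have h := mul_le_mul_of_nonneg_left hw al_pos.le
  have e : al * (1 / (2 * (3 / 20) * al)) = 10 / 3 := by
    have := al_pos.ne'
    field_simp
    norm_num
  rw [e] at h
  exact h

theorem ne_zero_of_re {W : ℂ} (hW : 10 / 3 ≤ W.re) : W ≠ 0 := by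
  intro h
  rw [h] at hW
  norm_num at hW

theorem parF_val (q : RQ) (hq : q.p = gP) (w : ℂ) (hw : (al : ℂ) * w ≠ 0)
    (hQ : Qt (al * w) ≠ 0) :
    parF q al w = 33275 * (al * w) ^ 4 / (al * Qt (al * w)) := by
  unfold parF RQ.h
  rw [hq, eval_inv _ hw]
  have h1 : (al : ℂ) ≠ 0 := by exact_mod_cast al_pos.ne'
  field_simp

theorem Qt_deriv (W : ℂ) : HasDerivAt Qt (3 * 33275 * W ^ 2 - 2 * 50149 * W + 52512) W := by
  unfold Qt
  have h3 := (hasDerivAt_pow 3 W).const_mul (33275 : ℂ)
  have h2 := (hasDerivAt_pow 2 W).const_mul (50149 : ℂ)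
  have h1 := (hasDerivAt_id W).const_mul (52512 : ℂ)
  have h := ((h3.sub h2).add h1).add_const (135936 : ℂ)
  refine HasDerivAt.congr_deriv h ?_
  push_cast
  ring

theorem G_deriv (W : ℂ) (hQ : Qt W ≠ 0) : HasDerivAt (fun W : ℂ => 33275 * W ^ 4 / Qt W)
    (33275 * W ^ 3 * Nt W / (Qt W * Qt W)) W := by
  have h4 := (hasDerivAt_pow 4 W).const_mul (33275 : ℂ)
  have h := h4.div (Qt_deriv W) hQ
  refine HasDerivAt.congr_deriv h ?_
  have e : Nt W = 4 * Qt W - W * (3 * 33275 * W ^ 2 - 2 * 50149 * W + 52512) := by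
    unfold Nt Qt
    ring
  rw [e]
  field_simp
  push_cast
  ring

theorem parF_deriv (q : RQ) (hq : q.p = gP) (w : ℂ) (hw : 1 / (2 * (3 / 20) * al) ≤ w.re) :
    HasDerivAt (parF q al) (33275 * (al * w) ^ 3 * Nt (al * w) /
      (Qt (al * w) * Qt (al * w))) w := by
  have hW := re_al w hw
  have hQ := Qt_ne _ hW
  have h0 := ne_zero_of_re hW
  have hal : (al : ℂ) ≠ 0 := by exact_mod_cast al_pos.ne'
  have h1 : HasDerivAt (fun w : ℂ => (al : ℂ) * w) (al * 1) w :=
    (hasDerivAt_id w).const_mul (al : ℂ)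
  have h2 := ((G_deriv _ hQ).comp w h1).const_mul (1 / (al : ℂ))
  have h3 : 1 / (al : ℂ) * (33275 * (al * w) ^ 3 * Nt (al * w) /
      (Qt (al * w) * Qt (al * w)) * (al * 1)) = 33275 * (al * w) ^ 3 * Nt (al * w) /
      (Qt (al * w) * Qt (al * w)) := by
    field_simp
  rw [h3] at h2
  refine h2.congr_of_eventuallyEq ?_
  have c1 : ContinuousAt (fun w : ℂ => Qt (al * w)) w := by
    unfold Qt
    fun_prop
  have c2 : ContinuousAt (fun w : ℂ => (al : ℂ) * w) w := by fun_prop
  filter_upwards [c1.eventually_ne hQ, c2.eventually_ne h0] with z hz hz0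
  rw [parF_val q hq z hz0 hz]
  simp only [Function.comp]
  field_simp

theorem parF_step (q : RQ) (hq : q.p = gP) (w : ℂ) (hw : 1 / (2 * (3 / 20) * al) ≤ w.re) :
    w.re + 1 / (50 * al) ≤ (parF q al w).re := by
  have hW := re_al w hw
  have hQ := Qt_ne _ hW
  have h0 := ne_zero_of_re hW
  have hal : (al : ℂ) ≠ 0 := by exact_mod_cast al_pos.ne'
  have hw0 : w ≠ 0 := right_ne_zero_of_mul h0
  have e : parF q al w - w = ((1 / al : ℝ) : ℂ) * ((al * w) * Mt (al * w) / Qt (al * w)) := by
    rw [parF_val q hq w h0 hQ]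
    push_cast
    field_simp
    unfold Mt Qt
    ring
  have h1 := step_pos (((al : ℂ) * w).re - 10 / 3) ((al : ℂ) * w).im (by linarith)
  rw [show (10 / 3 + (((al : ℂ) * w).re - 10 / 3) : ℝ) = ((al : ℂ) * w).re by ring] at h1
  have h2 : (⟨((al : ℂ) * w).re, ((al : ℂ) * w).im⟩ : ℂ) = (al : ℂ) * w := rfl
  rw [h2] at h1
  have hN : 0 < normSq (Qt (al * w)) := normSq_pos.mpr hQ
  have h3 : 1 / 50 ≤ ((al * w) * Mt (al * w) / Qt (al * w)).re := by
    rw [re_div, le_div_iff₀ hN]
    linarith
  have h4 : (parF q al w - w).re = (1 / al) * ((al * w) * Mt (al * w) / Qt (al * w)).re := by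
    rw [e, re_ofReal_mul]
  have h5 : 1 / (50 * al) = (1 / al) * (1 / 50) := by
    rw [one_div, mul_inv]
    ring
  have h6 : (1 / al) * (1 / 50) ≤ (1 / al) * ((al * w) * Mt (al * w) / Qt (al * w)).re :=
    mul_le_mul_of_nonneg_left h3 (by have := al_pos; positivity)
  rw [sub_re] at h4
  rw [h5]
  linarith

theorem parF_der (q : RQ) (hq : q.p = gP) (w : ℂ) (hw : 1 / (2 * (3 / 20) * al) ≤ w.re) :
    0 < (deriv (parF q al) w).re := by
  have hW := re_al w hw
  have hQ := Qt_ne _ hW
  rw [(parF_deriv q hq w hw).deriv, re_div]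
  have h1 := der_pos (((al : ℂ) * w).re - 10 / 3) ((al : ℂ) * w).im (by linarith)
  rw [show (10 / 3 + (((al : ℂ) * w).re - 10 / 3) : ℝ) = ((al : ℂ) * w).re by ring] at h1
  have h2 : (⟨((al : ℂ) * w).re, ((al : ℂ) * w).im⟩ : ℂ) = (al : ℂ) * w := rfl
  rw [h2] at h1
  apply div_pos
  · have h3 : (33275 * ((al : ℂ) * w) ^ 3 * Nt (al * w) * conj (Qt (al * w) * Qt (al * w))) =
        ((33275 : ℝ) : ℂ) * (((al : ℂ) * w) ^ 3 * Nt (al * w) *
          (conj (Qt (al * w)) * conj (Qt (al * w)))) := by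
      rw [map_mul]
      push_cast
      ring
    rw [h3, re_ofReal_mul]
    positivity
  · exact normSq_pos.mpr (mul_ne_zero hQ hQ)

/-- the parabolic quartic -/
def qP : RQ where
  p := gP
  r := -(11 / 16)
  c := cc
  deg := gP_natDegree
  lead := by rw [gP_lead]; norm_num
  hc := yc_pos
  der := by
    intro z
    rw [gP_der, gP_lead]
    have h1 : (z - cc) * (z - conj cc) = z ^ 2 - 751 / 1888 * z + 3025 / 33984 := by
      have h2 : cc + conj cc = 751 / 1888 := by
        rw [Complex.add_conj]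
        simp [cc]
        norm_num
      have h3 : cc * conj cc = 3025 / 33984 := by
        rw [Complex.mul_conj]
        have h4 : normSq cc = 3025 / 33984 := by
          have := yc_sq
          simp only [cc, normSq_mk]
          nlinarith
        rw [h4]
        push_cast
        rfl
      linear_combination (-z) * h2 + h3
    push_cast
    linear_combination (-(4 * (135936 / 33275 : ℂ) * (z + 11 / 16))) * h1
  hv := by
    rw [v_im]
    have := yc_pos
    positivity
  hvv := by
    rw [hv_im]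
    have := yc_pos
    positivity

theorem vr_qP : qP.vr = -1 := by
  show gP.eval (-(11 / 16)) = -1
  unfold gP
  simp only [eval_add, eval_mul, eval_pow, eval_X, eval_C]
  norm_num

theorem v_mem : qP.v ∈ ball (((3 / 20 : ℝ)) : ℂ) (3 / 20) := by
  rw [mem_ball, Complex.dist_eq]
  have h1 : ‖qP.v - ((3 / 20 : ℝ) : ℂ)‖ ^ 2 < (3 / 20) ^ 2 := by
    rw [← normSq_eq_norm_sq, normSq_apply]
    have h2 : (qP.v - ((3 / 20 : ℝ) : ℂ)).re = ((gP.map (algebraMap ℝ ℂ)).eval cc).re - 3 / 20 := by
      rw [sub_re, ofReal_re]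
      rfl
    have h3 : (qP.v - ((3 / 20 : ℝ) : ℂ)).im = ((gP.map (algebraMap ℝ ℂ)).eval cc).im := by
      rw [sub_im, ofReal_im, sub_zero]
      rfl
    rw [h2, h3, v_re, v_im]
    have := yc_sq
    nlinarith
  exact lt_of_pow_lt_pow_left₀ 2 (by norm_num) h1

/-- the parabolic data -/
def pdP : PD qP (3 / 20) where
  α := al
  hα := al_pos
  hρ := by norm_num
  hr := by show (-(11 / 16) : ℝ) < 0; norm_num
  fix := by
    show gP.eval 0 = 0
    unfold gP
    simp
  der1 := by
    show gP.derivative.eval 0 = 1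
    unfold gP
    simp
  der2 := by
    show gP.derivative.derivative.eval 0 = -(2 * al)
    unfold gP al
    simp
    norm_num
  ne := by
    intro w hw
    have hW := re_al w hw
    have hQ := Qt_ne _ hW
    have h0 := ne_zero_of_re hW
    show (gP.map (algebraMap ℝ ℂ)).eval (1 / (al * w)) ≠ 0
    rw [eval_inv _ h0]
    exact div_ne_zero hQ (mul_ne_zero (by norm_num) (pow_ne_zero _ h0))
  step := ⟨1 / (50 * al), by have := al_pos; positivity, fun w hw => parF_step qP rfl w hw⟩
  der := fun w hw => parF_der qP rfl w hw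
  vmem := v_mem

end N4

open N4 in
theorem rq_gP : ∃ q : RQ, q.p = gP ∧ q.r = -(11 / 16) ∧ q.vr = -1 ∧
    ∃ ρ, Nonempty (PD q ρ) :=
  ⟨qP, rfl, rfl, vr_qP, 3 / 20, ⟨pdP⟩⟩

theorem gP_vals : gP.eval (-1) = 0 := by
  unfold gP
  simp only [eval_add, eval_mul, eval_pow, eval_X, eval_C]
  norm_num

end

end Pool.TU
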