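import Pool.Agent.Helper71.TU.T6
import Pool.Agent.Helper71.TU.T7

/-! # TU T8: the twisted tile system -/

open Complex Set Filter Topology Metric Polynomial ComplexConjugate Pool.Tuning

namespace Pool.TU

noncomputable section

theorem exists_tw0 {S : TS} (hκ : S.κ = S.ω₀) {A : XS S} {B : Br S A} (D : BD B)
    {tr tl : ℂ → ℂ} (R : Roots tr tl) : ∃ T : TS, TW0 D tr tl T := by
  classical
  obtain ⟨rp, rm, hrpc, hrmc, hin, hout, hmem⟩ := D.t_real R hκ
  have hpi := Real.pi_pos
  have hm : (-(2 / 3) : ℝ) ∈ Icc (-1 : ℝ) 1 := by constructor <;> norm_num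
  have hp : (2 / 3 : ℝ) ∈ Icc (-1 : ℝ) 1 := by constructor <;> norm_num
  have h1 : (1 : ℝ) ∈ Icc (-1 : ℝ) 1 := by constructor <;> norm_num
  have am := (D.real _ hm).2
  have ap := (D.real _ hp).2
  have a1 := (D.real _ h1).2
  have one_DD : (1 : ℂ) ∈ DD := by simp [DD]
  have neg_DD : (-1 : ℂ) ∈ DD := by simp [DD]
  have BoBc : ∀ z, z ∈ D.Bo → z ∈ D.Bc := by
    rintro z ⟨t, ⟨ht1, ht2⟩, rfl⟩
    exact ⟨t, ⟨ht1.le, ht2⟩, rfl⟩
  have one_Bo : (1 : ℂ) ∉ D.Bo := by
    intro h
    obtain ⟨ζ, hζ, he⟩ := BoBc _ h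
    exact D.ne_one hζ he
  -- casts
  have cm : ((-(2 / 3) : ℝ) : ℂ) = -(2 / 3) := by push_cast; ring
  have cp : ((2 / 3 : ℝ) : ℂ) = 2 / 3 := by push_cast; ring
  have rpm : rp (D.a (-(2 / 3))) = S.ω₀ := by
    rw [(hin _ ⟨le_refl _, by norm_num⟩).1, cm, R.r_vals.1]
    simp [D.a0, hκ]
  have rmm : rm (D.a (-(2 / 3))) = S.ω₀ := by
    rw [(hin _ ⟨le_refl _, by norm_num⟩).2, cm, R.l_vals.1]
    simp [D.a0, hκ]
  have h2pi : (2 * Real.pi) ∈ Icc (D.a 1) (2 * Real.pi) := ⟨a1.2.le, le_refl _⟩
  have re23 : ((2 / 3 : ℂ)).re = 2 / 3 := by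
    rw [← cp]; exact ofReal_re _
  have rem23 : ((-(2 / 3) : ℂ)).re = -(2 / 3) := by
    rw [← cm]; exact ofReal_re _
  refine ⟨{ κ := D.a (-(2 / 3))
            ω₀ := S.ω₀
            Θ := D.tΘ tr
            G2 := S.G2
            G4 := D.t4 tl
            F := D.tF
            rp := rp
            rm := rm
            κ_mem := am
            ω₀_mem := S.ω₀_mem
            contΘ := D.tΘ_cont R
            cont2 := S.cont2
            cont4 := D.t4_cont R
            contF := D.tF_cont
            mapsΘ := D.tΘ_maps R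
            maps2 := S.maps2
            maps4 := D.t4_maps R
            mapsF := D.tF_maps
            FΘ := D.tΘ_F R
            F2 := D.t_F2 R
            F4 := D.t4_F R
            cover := D.t_cover R
            Θone := ?_
            Θneg := ?_
            G2one := S.G2one
            G4one := ?_
            injΘ := D.tΘ_inj R
            bd2 := D.t_bd2 R
            bd4 := D.t_bd4 R hκ
            sep2 := D.t_sep2 R
            sep4 := D.t_sep4 R hκ
            sep24 := D.t_sep24 R
            nz2 := S.nz2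
            nz4 := ?_
            nzΘ := ?_
            contrp := hrpc
            contrm := hrmc
            rpκ := rpm
            rmκ := rmm
            rp2 := ?_
            rm2 := ?_
            rp_mem := fun θ hθ => (hmem θ hθ).1
            rm_mem := fun θ hθ => (hmem θ hθ).2.1
            rpΘ := fun θ hθ => (hmem θ hθ).2.2.1
            rmG := fun θ hθ => (hmem θ hθ).2.2.2
            circΘ := D.t_circΘ R hκ
            circ2 := S.circ2
            circ4 := D.t_circ4 R hκ }, ?_⟩
  · rw [D.tΘ_out R one_DD (by simpa using one_Bo), S.Θone]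
  · rw [D.tΘ_out R neg_DD (by simpa using one_Bo), S.Θneg]
  · rw [D.t4_out R one_DD one_Bo, S.G4one]
  · intro w hw
    unfold BD.t4
    split_ifs with h
    · exact exp_ne_zero _
    · exact S.nz4 w hw
  · intro s hs
    unfold BD.tΘ
    split_ifs with h
    · exact exp_ne_zero _
    · exact S.nzΘ s hs
  · rw [(hout _ h2pi).1, S.rp2]
  · rw [(hout _ h2pi).2, S.rm2]
  · exact
      { κ_eq := rfl
        ω_eq := rfl
        beta :=
          { mem := ⟨D.mono hm hp (by norm_num), ap.2⟩
            fixp := by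
              show rp (D.a (2 / 3)) = D.a (2 / 3)
              rw [(hin _ ⟨by norm_num, by norm_num⟩).1, cp, R.r_vals.2.1, re23]
            fixm := by
              show rm (D.a (2 / 3)) = D.a (-(2 / 3))
              rw [(hin _ ⟨by norm_num, by norm_num⟩).2, cp, R.l_vals.2.1, rem23] }
        F_in := fun ζ hζ => D.tF_in hζ
        F_out := fun z hz h => D.tF_out hz h
        Θ_in := fun ξ hξ => D.tΘ_in R hξ
        Θ_neg := fun ξ hξ => D.tΘ_neg R hξ
        Θ_out := fun s hs h => D.tΘ_out R hs h
        G2_eq := fun w _ => rfl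
        G4_in := fun ξ hξ => D.t4_in R hξ
        G4_out := fun w hw h => D.t4_out R hw h }

end

end Pool.TU
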