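import Pool.Agent.Helper71.TU.All

/-! # TU Top1: assembly of the data of the polynomial to be tuned -/

open Complex Set Filter Topology Metric Polynomial ComplexConjugate Pool.Tuning

namespace Pool.TU

noncomputable section

theorem HD_closed : IsCompact HD := by
  have : HD = closedBall 0 1 ∩ {z | 0 ≤ z.im} := by
    ext z; simp [HD]
  rw [this]
  exact (isCompact_closedBall _ _).inter_right (isClosed_le continuous_const continuous_im)

theorem BD.Bc_compact {S : TS} {A : XS S} {B : Br S A} (D : BD B) : IsCompact D.Bc := by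
  refine HD_closed.image_of_continuousOn ?_
  exact continuous_exp.comp_continuousOn D.cont

theorem sqf_HB {δ : ℝ} (hδ : δ ≤ 1) {t : ℂ} (ht : ‖t‖ < δ) :
    ‖sqf t‖ < δ ∧ 0 ≤ (sqf t).im := by
  have h1 : ‖sqf t‖ = ‖t‖ ^ 2 := by
    unfold sqf fold
    split_ifs <;> simp [norm_pow]
  refine ⟨?_, fold_mem _⟩
  rw [h1]
  have := norm_nonneg t
  nlinarith

theorem LB.F_eq {S : TS} {A : XS S} {B : Br S A} (L : LB B) {t : ℂ} (ht : t ∈ HB L.r0) :
    S.F (exp (L.c t)) = exp (L.c (sqf t)) := by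
  have hs : sqf t ∈ HB L.r0 := by
    rcases ht with ⟨h1, h2⟩
    refine ⟨?_, fold_mem _⟩
    have h1' : ‖sqf t‖ = ‖t‖ ^ 2 := by
      unfold sqf fold
      split_ifs <;> simp [norm_pow]
    rw [h1']
    have := norm_nonneg t
    have := L.lt
    nlinarith
  rcases le_total 0 t.re with h | h
  · rw [L.feP t ht h]
    have := B.F_ap (Ltr.P 0) (L.maps hs)
    simpa [Br.ap] using this
  · rw [L.feM t ht h]
    have := B.F_ap (Ltr.Q4 0) (L.maps hs)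
    have e : exp (B.ap (Ltr.Q4 0) (L.c (sqf t))) = exp (B.g4 (exp (L.c (sqf t)))) := by
      simp [Br.ap]
    rwa [e] at this

/-- the set removed is admissible -/
theorem zs_of {S : TS} {A : XS S} {B : Br S A} (L : LB B) (M : NS S) {δ : ℝ} (hδ : 0 < δ)
    (hδ' : δ < L.r0) : ZS S A (A.Xo ∪ M.No ∪ L.Do δ) where
  sub := by
    rintro z ((hz | hz) | hz)
    · exact A.subX (A.Xo_sub hz)
    · exact M.subN (M.No_sub hz)
    · obtain ⟨O, -, hO⟩ := L.openo δ hδ hδ'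
      have : z ∈ O ∩ DD := by rw [← hO]; exact hz
      exact this.2
  Xo_sub := fun z hz => Or.inl (Or.inl hz)
  openZ := by
    obtain ⟨O1, h1, e1⟩ := A.Xo_open
    obtain ⟨O2, h2, e2⟩ := M.No_open
    obtain ⟨O3, h3, e3⟩ := L.openo δ hδ hδ'
    refine ⟨O1 ∪ O2 ∪ O3, (h1.union h2).union h3, ?_⟩
    rw [union_inter_distrib_right, union_inter_distrib_right, ← e1, ← e2, ← e3]
    rfl
  one_mem := Or.inl (Or.inr M.one_mem)
  FZ := by
    rintro z ((hz | hz) | hz)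
    · exact Or.inl (Or.inl (A.FXo hz))
    · exact Or.inl (Or.inr (M.FNo hz))
    · obtain ⟨t, ⟨ht1, ht2⟩, rfl⟩ := hz
      refine Or.inr ?_
      have ht : t ∈ HB L.r0 := ⟨(ht1.trans hδ').le, ht2⟩
      have hs := sqf_HB (hδ'.trans L.lt).le ht1
      exact ⟨sqf t, hs, (L.F_eq ht).symm⟩

theorem stage {q : RQ} {S : TS} (hS : IsTS q S) (hfix : q.p.eval q.r = q.r) {A : XS S}
    (B : Br S A) (hA : ec S.κ ∉ A.X) (C : NB S)
    (hsh : ∀ (L : LB B) (M : NS S) (δ : ℝ), 0 < δ → δ < L.r0 →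
      Shrinks B (A.Xo ∪ M.No ∪ L.Do δ)) :
    ∃ (L : LB B) (D : BD B) (χ : ℂ → ℂ), LBq q L ∧ (∀ ζ ∈ HB L.r0, D.c ζ = L.c ζ) ∧
      (1 : ℂ) ∉ D.Bc ∧ MB q D χ ∧ IsMarking q.h q.r χ ∧ Marked 4 q.h q.r := by
  have hκω : S.κ = S.ω₀ := by rw [hS.κ_eq, hS.ω_eq]; congr 1
  have h1A : (1 : ℂ) ∉ A.X := A.one_nmem
  have h1κ : ec S.κ ≠ 1 := by
    intro h
    have := S.κ_mem
    rcases ec_eq_one ⟨this.1.le, this.2.le⟩ h with h | h
    · exact this.1.ne' h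
    · exact this.2.ne h
  -- separation constants
  obtain ⟨ε1, hε1, hb1⟩ : ∃ ε > 0, ∀ z, ‖z - 1‖ < ε → z ∉ A.X := by
    have : A.Xᶜ ∈ 𝓝 (1 : ℂ) := A.closedX.isOpen_compl.mem_nhds h1A
    obtain ⟨ε, hε, hb⟩ := Metric.mem_nhds_iff.1 this
    exact ⟨ε, hε, fun z hz => hb (by rwa [mem_ball, dist_eq_norm])⟩
  set ε2 : ℝ := ‖ec S.κ - 1‖ / 2 with hε2
  have hε2p : 0 < ε2 := by
    rw [hε2]; have : 0 < ‖ec S.κ - 1‖ := norm_pos_iff.2 (sub_ne_zero.2 h1κ); linarith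
  obtain ⟨C0, hC0⟩ := C.shrink (min ε1 ε2) (lt_min hε1 hε2p)
  obtain ⟨M, M', n, hM, -⟩ := exists_npair C0 C0 ε2 hε2p
  obtain ⟨L, hL, hLε⟩ := exists_lb q hS B hfix hA ε2 hε2p
  have hLN : ∀ ζ ∈ HB L.r0, exp (L.c ζ) ∉ M.N := by
    intro ζ hζ h
    have h2 := hM _ h
    have h3 := hLε ζ hζ
    have : ‖ec S.κ - 1‖ ≤ ‖exp (L.c ζ) - 1‖ + ‖exp (L.c ζ) - ec S.κ‖ := by
      have e : ec S.κ - 1 = (exp (L.c ζ) - 1) - (exp (L.c ζ) - ec S.κ) := by ring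
      rw [e]; exact norm_sub_le _ _
    have : ‖ec S.κ - 1‖ = 2 * ε2 := by rw [hε2]; ring
    linarith
  have hr0 := L.pos
  have hr1 := L.lt
  have hδ : 0 < L.r0 ^ 2 := by positivity
  have hδ' : L.r0 ^ 2 < L.r0 := by nlinarith
  obtain ⟨c, hc1, hc2, hc3, hc4, hc5⟩ := exists_c L (No := M.No) hδ le_rfl
    (zs_of L M hδ hδ') (fun ζ hζ h => hLN ζ hζ (M.No_sub h)) M.FNo (hsh L M _ hδ hδ')
  have hcd : CD L c M.No := ⟨hκω, M.one_mem, hc1, hc2, hc3, hc4, hc5⟩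
  obtain ⟨D, rfl⟩ := exists_bdata hcd
  obtain ⟨χ, hχ⟩ := exists_mb q hS D M.one_mem hfix hc2
  have hmk := hχ.marking q hS hfix hL hc3
  have hJ := julia_connected q hS hκω B C0
    (fun t ht => hb1 _ (lt_of_lt_of_le (hC0 t ht) (min_le_left _ _)))
    (fun t ht h => by
      have := lt_of_lt_of_le (hC0 t ht) (min_le_right _ _)
      rw [h] at this
      have h' : ‖ec S.κ - 1‖ = 2 * ε2 := by rw [hε2]; ring
      linarith)
  refine ⟨L, D, χ, hL, hc3, ?_, hχ, hmk.1, ?_⟩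
  · rintro ⟨ζ, hζ, h⟩
    exact (hc2 hζ).2 (by simp only [h]; exact Or.inr M.one_mem)
  · refine marked_of q hS hχ hfix hmk.1 hJ ?_ hA
    have h0 : mm q.v q.v = 0 := mm_self (v := q.v) q.hv
    rw [h0]; exact A.Xo_sub A.zero_mem

end

end Pool.TU
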