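import Pool.Agent.Helper71.TU.Top1

/-! # TU Top2: assembly of all data -/

open Complex Set Filter Topology Metric Polynomial ComplexConjugate Pool.Tuning

namespace Pool.TU

noncomputable section

/-- union of two half discs -/
theorem HRet.union {C1 Co1 C2 Co2 : Set ℂ} {δ1 δ2 : ℝ} {τ1 τ2 : ℂ → ℂ}
    (h1 : HC C1 Co1 δ1 τ1) (h2 : HC C2 Co2 δ2 τ2) (hd : Disjoint C1 C2) (z1 : (0 : ℂ) ∉ C1)
    (z2 : (0 : ℂ) ∉ C2) : ∃ rE : ℂ → ℂ, HRet (Co1 ∪ Co2) rE ∧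
      ∀ u ∈ UU, exp (rE u) = exp u ∨ exp (rE u) ∈ C1 ∪ C2 := by
  obtain ⟨r1, hr1, hr1'⟩ := exists_hret h1 z1
  obtain ⟨r2, hr2, hr2'⟩ := exists_hret h2 z2
  have key1 : ∀ u ∈ UU, r1 u = u ∨ exp (r1 u) ∈ C1 := by
    intro u hu
    by_cases h : exp u ∈ Co1
    · exact Or.inr (hr1' u hu h).1
    · exact Or.inl (hr1.id u ⟨hu, h⟩)
  have key2 : ∀ u ∈ UU, r2 u = u ∨ exp (r2 u) ∈ C2 := by
    intro u hu
    by_cases h : exp u ∈ Co2
    · exact Or.inr (hr2' u hu h).1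
    · exact Or.inl (hr2.id u ⟨hu, h⟩)
  have hUU2 : MapsTo r2 UU UU := fun u hu => (hr2.maps hu).1
  have sub1 : Co1 ⊆ C1 := by
    rw [← h1.img, ← h1.imgo]
    exact image_mono (fun t ht => ⟨ht.1.le, ht.2⟩)
  have sub2 : Co2 ⊆ C2 := by
    rw [← h2.img, ← h2.imgo]
    exact image_mono (fun t ht => ⟨ht.1.le, ht.2⟩)
  refine ⟨fun u => r1 (r2 u), ⟨?_, ?_, ?_, ?_⟩, ?_⟩
  · exact hr1.cont.comp hr2.cont hUU2
  · intro u hu
    have hm := hr1.maps (hUU2 hu)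
    refine ⟨hm.1, ?_⟩
    rintro (h | h)
    · exact hm.2 h
    · rcases key1 _ (hUU2 hu) with h' | h'
      · simp only [h'] at h
        exact (hr2.maps hu).2 h
      · exact disjoint_left.1 hd h' (sub2 h)
  · intro u hu
    have e2 : r2 u = u := hr2.id u ⟨hu.1, fun h => hu.2 (Or.inr h)⟩
    show r1 (r2 u) = u
    rw [e2]
    exact hr1.id u ⟨hu.1, fun h => hu.2 (Or.inl h)⟩
  · intro u hu
    show r1 (r2 (u + tpi)) = r1 (r2 u) + tpi
    rw [hr2.period u hu, hr1.period _ (hUU2 hu)]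
  · intro u hu
    rcases key1 _ (hUU2 hu) with h' | h'
    · show exp (r1 (r2 u)) = _ ∨ exp (r1 (r2 u)) ∈ _
      rw [h']
      rcases key2 u hu with h | h
      · rw [h]; exact Or.inl rfl
      · exact Or.inr (Or.inr h)
    · exact Or.inr (Or.inl h')

/-- the local Böttcher disc as a half disc chart -/
theorem LB.hc {S : TS} {A : XS S} {B : Br S A} (L : LB B) {δ : ℝ} (hδ : 0 < δ)
    (hδ' : δ < L.r0) : HC ((fun t => exp (L.c t)) '' HB δ) (L.Do δ) δ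
      (fun t => exp (L.c t)) := by
  have hsub : HB δ ⊆ HB L.r0 := fun t ht => ⟨ht.1.trans hδ'.le, ht.2⟩
  refine ⟨hδ, ?_, ?_, rfl, rfl, ?_, L.openo δ hδ hδ'⟩
  · exact continuous_exp.comp_continuousOn (L.cont.mono hsub)
  · intro x hx y hy hxy
    refine L.inj (hsub hx) (hsub hy) ?_
    obtain ⟨k, hk⟩ := Complex.exp_eq_exp_iff_exists_int.1 hxy
    have h1 := L.im_mem x (hsub hx)
    have h2 := L.im_mem y (hsub hy)
    have him : (L.c x).im = (L.c y).im + k * (2 * Real.pi) := by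
      rw [hk]; simp
    have hk0 : k = 0 := by
      have hp := Real.pi_pos
      by_contra hne
      rcases lt_or_gt_of_ne hne with h | h
      · have : (k : ℝ) ≤ -1 := by exact_mod_cast (by omega : k ≤ -1)
        nlinarith [h1.1, h2.2]
      · have : (1 : ℝ) ≤ k := by exact_mod_cast (by omega : 1 ≤ k)
        nlinarith [h1.2, h2.1]
    rw [hk, hk0]; simp
  · rintro z ⟨t, ht, rfl⟩
    have := (L.maps (hsub ht)).1
    show exp (L.c t) ∈ DD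
    rw [DD, mem_closedBall_zero_iff, Complex.norm_exp]
    exact Real.exp_le_one_iff.2 this

/-- a neighbourhood of infinity for the twist is one for the original system -/
theorem NS.untwist {S : TS} {A : XS S} {B : Br S A} {D : BD B} {T : TS} {A' : XS T}
    {B' : Br T A'} (hT : TW D T A' B') (M : NS T) (hM : ∀ ζ ∈ HD, exp (D.c ζ) ∉ M.N) :
    ∃ M' : NS S, M'.N = M.N ∧ M'.No = M.No := by
  have hB : ∀ z ∈ M.N, z ∉ D.Bo := by
    rintro z hz ⟨ζ, hζ, rfl⟩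
    exact hM ζ ⟨hζ.1.le, hζ.2⟩ hz
  exact ⟨⟨M.N, M.No, M.closedN, M.subN, M.No_sub, M.No_open, M.one_mem,
    fun z hz => by rw [← hT.F_out z (M.subN hz) (hB z hz)]; exact M.FN hz,
    fun z hz => by
      rw [← hT.F_out z (M.subN (M.No_sub hz)) (hB z (M.No_sub hz))]; exact M.FNo hz,
    M.conn, M.repos⟩, rfl, rfl⟩

/-- Assembly. -/
theorem mkFD {q q' : RQ} {S g : TS} (hS : IsTS q S) (hg : IsTS q' g)
    (fix : q.p.eval q.r = q.r) {A : XS S} {B : Br S A} {L : LB B} (hL : LBq q L) {D : BD B}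
    (hD : ∀ ζ ∈ HB L.r0, D.c ζ = L.c ζ) {χ : ℂ → ℂ} (mb : MB q D χ) {T : TS} {A' : XS T}
    {B' : Br T A'} (hT : TW D T A' B') {G : XS g} (E : Br g G) {M : NS T} {N : NS g}
    (n : NPair T g M N) {βg : ℝ} (hβ : IsBeta g βg) {P H : ℂ → ℂ} {ρ : ℝ → ℝ}
    (hED : ED T g A' G M N (D.a (2 / 3)) βg P H ρ) (hPn : ∀ z ∈ M.N, P z = n.P z)
    (hM : ∀ ζ ∈ HD, exp (D.c ζ) ∉ M.N) (shG : Shrinks E (G.Xo ∪ N.No))
    (lkG : Linked G (G.Xo ∪ N.No)) {δ : ℝ} (hδ : 0 < δ) (hδ' : δ < L.r0)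
    (shS : Shrinks B (A.Xo ∪ M.No ∪ L.Do δ)) (lk : Linked A (A.Xo ∪ M.No ∪ L.Do δ)) :
    Nonempty (FD q q') := by
  obtain ⟨R, H', ρ', hE⟩ := engine hED E shG lkG
  obtain ⟨M', hM'1, hM'2⟩ := M.untwist hT hM
  refine ⟨⟨S, g, hS, hg, fix, A, B, L, hL, D, hD, χ, mb, T, A', B', hT, G, E, M, N, βg, hβ,
    P, H, R, H', ρ', hE, hED.ee, ?_, ?_, ?_, ?_, hM, ?_, shG, δ, hδ, hδ', ?_, shS, lk⟩⟩
  · intro x hx y hy hxy
    rw [← hT.X_eq] at hx hy
    rw [hE.eqX x hx, hE.eqX y hy] at hxy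
    exact hED.injX hx hy hxy
  · intro x hx y hy hxy
    rw [hE.eqN x hx, hE.eqN y hy, hPn x hx, hPn y hy] at hxy
    exact n.inj hx hy hxy
  · intro x hx
    have hx' := M.No_sub hx
    rw [hE.eqN x hx', hPn x hx']
    exact (n.No_iff x hx').2 hx
  · intro x hx
    rw [← hT.Xo_eq] at hx
    have hx' := A'.Xo_sub hx
    rw [hE.eqX x hx']
    exact (hED.Xo_iff x (A'.subX hx')).2 hx
  · rw [← hM'1]; exact M'.FN
  · have := zs_of L M' hδ hδ'
    rwa [hM'2] at this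

end

end Pool.TU
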