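import Pool.Agent.Helper71.TU.Top2

/-! # TU Top3: the two tuning theorems -/

open Complex Set Filter Topology Metric Polynomial ComplexConjugate Pool.Tuning

namespace Pool.TU

noncomputable section

/-- small neighbourhoods of infinity do not reach a given point of the circle -/
theorem s1_lt {f g : TS} {M : NS f} {N : NS g} (n : NPair f g M N) {θ : ℝ}
    (hθ : θ ∈ Ioo 0 (2 * Real.pi)) (h : ec θ ∉ M.N) : n.s1 < θ ∧ θ < n.s2 := by
  have h1 := (n.arc θ ⟨hθ.1.le, hθ.2.le⟩).not.1 h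
  push Not at h1
  exact ⟨h1.1, h1.2⟩

theorem s1_lt' {f g : TS} {M : NS f} {N : NS g} (n : NPair f g M N) {θ : ℝ}
    (hθ : θ ∈ Ioo 0 (2 * Real.pi)) (h : ec θ ∉ N.N) : n.s1' < θ ∧ θ < n.s2' := by
  have h1 := (n.arc' θ ⟨hθ.1.le, hθ.2.le⟩).not.1 h
  push Not at h1
  exact ⟨h1.1, h1.2⟩

/-- a finite union of closed sets avoiding `1` is at positive distance from `1` -/
theorem far_one {X : Set ℂ} (hX : IsClosed X) (h : (1 : ℂ) ∉ X) :
    ∃ ε > 0, ∀ z, ‖z - 1‖ < ε → z ∉ X := by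
  obtain ⟨ε, hε, hb⟩ := Metric.mem_nhds_iff.1 (hX.isOpen_compl.mem_nhds h)
  exact ⟨ε, hε, fun z hz => hb (by rwa [mem_ball, dist_eq_norm])⟩

theorem isBeta_of {q : RQ} {S : TS} (hS : IsTS q S) {β : ℝ} (hβ : q.r < β)
    (hfix : q.p.eval β = β) (hv : q.p.eval q.vr = β) (hvr : q.vr < q.r) :
    IsBeta S (ang q.v β) := by
  have h1 := rp_ang q hS hβ.le
  have h2 := rm_ang q hS hvr.le
  rw [hfix] at h1
  rw [hv] at h2
  refine ⟨⟨?_, (ang_mem (v := q.v) q.hv β).2⟩, h1.2, ?_⟩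
  · rw [hS.κ_eq]
    exact ang_strictMono (v := q.v) q.hv (hvr.trans hβ)
  · rw [h2.2, hS.κ_eq]

theorem tuned_hyp (q q' : RQ) (hfix : q.p.eval q.r = q.r) (ha : HasAtt q) (ha' : HasAtt q')
    {β : ℝ} (hβ : q'.r < β) (hfβ : q'.p.eval β = β) (hrep : 1 < q'.p.derivative.eval β)
    (hvβ : q'.p.eval q'.vr = β) (hvr : q'.vr < q'.r) :
    Marked 4 q.h q.r ∧ Tuned q.h q.r (-2) q'.h := by
  obtain ⟨S, hS⟩ := exists_ts q
  obtain ⟨g, hg⟩ := exists_ts q'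
  obtain ⟨a, ha1, ha2, ha3, ha4⟩ := ha
  obtain ⟨a', ha1', ha2', ha3', ha4'⟩ := ha'
  obtain ⟨C, -, hCμ⟩ := exists_kc q a ha1 ha2 ha3 ha4
  obtain ⟨C', -, hCμ'⟩ := exists_kc q' a' ha1' ha2' ha3' ha4'
  -- radii
  set σ : ℝ := Real.log ‖C'.μ‖ / Real.log ‖C.μ‖ with hσ
  have hσ0 : 0 < σ := by
    have h1 : Real.log ‖C'.μ‖ < 0 := Real.log_neg (norm_pos_iff.2 C'.μ0) C'.μ1
    have h2 : Real.log ‖C.μ‖ < 0 := Real.log_neg (norm_pos_iff.2 C.μ0) C.μ1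
    exact div_pos_of_neg_of_neg h1 h2
  obtain ⟨R, hR1, hR2, hR3⟩ : ∃ R : ℝ, 1 < R ∧ R < C.R1 ∧ R ^ σ < C'.R1 := by
    have hc : ContinuousAt (fun R : ℝ => R ^ σ) 1 :=
      Real.continuousAt_rpow_const _ _ (Or.inl one_ne_zero)
    have h1 : ∀ᶠ R in 𝓝 (1 : ℝ), R ^ σ < C'.R1 := by
      refine hc.eventually_lt continuousAt_const ?_
      simpa using C'.hR1
    have h2 : ∀ᶠ R in 𝓝 (1 : ℝ), R < C.R1 := continuousAt_id.eventually_lt continuousAt_const C.hR1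
    obtain ⟨ε, hε, hb⟩ := Metric.eventually_nhds_iff.1 (h1.and h2)
    refine ⟨1 + ε / 2, by linarith, (hb ?_).2, (hb ?_).1⟩ <;>
      simp [abs_of_pos hε, hε]
  have hR' : 1 < R ^ σ := Real.one_lt_rpow hR1 hσ0
  obtain ⟨R0, hR0, hR0'⟩ := exists_between hR1
  obtain ⟨R0', hR0g, hR0g'⟩ := exists_between hR'
  obtain ⟨A, cA, eA1, eA2, eA3⟩ := exists_dc q hS C ⟨hR1, hR2⟩
  obtain ⟨A0, cA0, eA01, eA02, eA03⟩ := exists_dc q hS C ⟨hR0, hR0'.trans hR2⟩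
  obtain ⟨G, cG, eG1, eG2, eG3⟩ := exists_dc q' hg C' ⟨hR', hR3⟩
  obtain ⟨G0, cG0, eG01, eG02, eG03⟩ := exists_dc q' hg C' ⟨hR0g, hR0g'.trans hR3⟩
  have img : ∀ {q : RQ} {S : TS} {C : KC q} {A : XS S} (cA : DC A) {R : ℝ}, cA.R = R →
      (∀ ζ ∈ closedBall (0 : ℂ) R, cA.τ ζ = mm q.v (C.K ζ)) →
      A.X = (fun ζ => mm q.v (C.K ζ)) '' closedBall 0 R ∧
      A.Xo = (fun ζ => mm q.v (C.K ζ)) '' ball 0 R := by
    intro q S C A cA R e1 e2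
    subst e1
    exact ⟨by rw [← cA.img]; exact image_congr e2,
      by rw [← cA.imgo]; exact image_congr fun ζ hζ => e2 ζ (ball_subset_closedBall hζ)⟩
  have hA := img cA eA1 eA3
  have hA0 := img cA0 eA01 eA03
  have hG := img cG eG1 eG3
  have hG0 := img cG0 eG01 eG03
  obtain ⟨B⟩ := exists_br S A
  obtain ⟨E⟩ := exists_br g G
  obtain ⟨P, hP⟩ := exists_rg_hyp q hS C hR0 hR0' hR2 hA.2 hA0.1 hA0.2 {q.r}
    (by simp [hfix]) (by simp [RQ.vr, hfix])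
  obtain ⟨P', hP'⟩ := exists_rg_hyp q' hg C' hR0g hR0g' hR3 hG.2 hG0.1 hG0.2 {q'.vr, β}
    (by
      intro x hx
      rcases Finset.mem_insert.1 hx with h | h
      · rw [h, hvβ]; simp
      · rw [Finset.mem_singleton.1 h, hfβ]; simp)
    (by simp)
  obtain ⟨C1⟩ := exists_nb q hS
  obtain ⟨C1'⟩ := exists_nb q' hg
  have hκA : ec S.κ ∉ A.X := fun h => cA.circ _ h (norm_ec _)
  have hvr' : q.vr = q.r := hfix
  have hmr : mm q.v q.r = ec S.κ := by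
    rw [hS.κ_eq, hvr']; exact mm_real (v := q.v) q.hv q.r
  obtain ⟨L, D, χ, hL, hD, h1D, mb, hmk, hMk⟩ := stage hS hfix B hκA C1 (fun L M δ h1 h2 =>
    shrink_S_hyp hS hfix hP B (zs_of L M h1 h2) (by
      rw [hmr]
      refine Or.inr ⟨0, ⟨by simpa using h1, by simp⟩, ?_⟩
      show exp (L.c 0) = _
      rw [L.zero]; rfl))
  refine ⟨hMk, ?_⟩
  have hX : Disjoint A.X D.Bo := D.disj A.closedX A.FX hκA
  obtain ⟨T, A', B', hT⟩ := exists_twist (by rw [hS.κ_eq, hS.ω_eq, hvr']) D hX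
  obtain ⟨cA', eA'1, eA'2, -⟩ := cA.twist hT hX
  obtain ⟨CT⟩ := exists_nb_twist hT h1D C1
  have hβg := isBeta_of hg hβ hfβ hvβ hvr
  -- small neighbourhoods of infinity
  obtain ⟨ε1, hε1, hb1⟩ := far_one (X := A.X ∪ D.Bc) (A.closedX.union D.Bc_closed)
    (by rintro (h | h); exacts [A.one_nmem h, h1D h])
  have hne : ∀ θ ∈ Ioo (0 : ℝ) (2 * Real.pi), (1 : ℂ) ≠ ec θ := fun θ hθ h => by
    rcases ec_eq_one ⟨hθ.1.le, hθ.2.le⟩ h.symm with h | h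
    · exact hθ.1.ne' h
    · exact hθ.2.ne h
  have hβm : ang q'.v β ∈ Ioo 0 (2 * Real.pi) := ang_mem (v := q'.v) q'.hv β
  obtain ⟨ε2, hε2, hb2⟩ := far_one (X := G.X ∪ {ec g.κ, ec (ang q'.v β)})
    (G.closedX.union ((Set.finite_singleton _).insert _).isClosed)
    (by
      rintro (h | h)
      · exact G.one_nmem h
      · rcases h with h | h
        · exact hne _ g.κ_mem h
        · exact hne _ hβm h)
  obtain ⟨M, N, n, hMε, hNε⟩ := exists_npair CT C1' (min ε1 ε2) (lt_min hε1 hε2)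
  have hM1 : ∀ z ∈ M.N, z ∉ A.X ∪ D.Bc := fun z hz => hb1 z ((hMε z hz).trans_le (min_le_left _ _))
  have hN1 : ∀ z ∈ N.N, z ∉ G.X ∪ {ec g.κ, ec (ang q'.v β)} :=
    fun z hz => hb2 z ((hNε z hz).trans_le (min_le_right _ _))
  have hMB : ∀ ζ ∈ HD, exp (D.c ζ) ∉ M.N := fun ζ hζ h => hM1 _ h (Or.inr ⟨ζ, hζ, rfl⟩)
  have hMX : Disjoint M.N A'.X := by
    rw [hT.X_eq]; exact disjoint_left.2 fun z hz h => hM1 z hz (Or.inl h)
  have hNX : Disjoint N.N G.X := disjoint_left.2 fun z hz h => hN1 z hz (Or.inl h)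
  have haD : ∀ t : ℝ, t ∈ Icc (-1 : ℝ) 1 → ec (D.a t) ∉ M.N ∧ D.a t ∈ Ioo 0 (2 * Real.pi) := by
    intro t ht
    have h := D.real t ht
    refine ⟨?_, h.2⟩
    have := hMB t ⟨by rw [Complex.norm_real]; exact abs_le.2 ht, by simp⟩
    rwa [h.1] at this
  have o1 : n.s1 < T.κ := by
    rw [hT.κ_eq]
    have := haD (-(2 / 3)) ⟨by norm_num, by norm_num⟩
    exact (s1_lt n this.2 this.1).1
  have o2 : D.a (2 / 3) < n.s2 := by
    have := haD (2 / 3) ⟨by norm_num, by norm_num⟩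
    exact (s1_lt n this.2 this.1).2
  have o3 : n.s1' < g.κ := (s1_lt' n g.κ_mem fun h => hN1 _ h (Or.inr (Or.inl rfl))).1
  have o4 : ang q'.v β < n.s2' := (s1_lt' n hβm fun h => hN1 _ h (Or.inr (Or.inr rfl))).2
  obtain ⟨x⟩ := exists_xpair_hyp cA' cG (by rw [eG1, eA'1, eA1, eG2, eA'2, eA2])
  obtain ⟨P0, H0, ρ0, hED, hPn⟩ := exists_ed_hyp cA' cG x n hMX hNX hT.beta hβg o1 o2 o3 o4
  -- linking and shrinking
  have z0A : (0 : ℂ) ∈ A.Xo := A.zero_mem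
  have h0M : (0 : ℂ) ∉ M.N := fun h => hM1 0 h (Or.inl (A.Xo_sub z0A))
  have h0N : (0 : ℂ) ∉ N.N := fun h => hN1 0 h (Or.inl (G.Xo_sub G.zero_mem))
  obtain ⟨δN, τN, hcN⟩ := n.chart
  obtain ⟨δM, τM, hcM⟩ := n.chartM
  have noM : M.No ⊆ M.N := M.No_sub
  have shG : Shrinks E (G.Xo ∪ N.No) := by
    refine shrink_g_hyp hg hβ hfβ hrep hvβ hvr hP' E ⟨?_, subset_union_left, ?_, Or.inr N.one_mem, ?_⟩
    · exact union_subset (G.Xo_sub.trans G.subX) (N.No_sub.trans N.subN)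
    · obtain ⟨O1, h1, e1⟩ := G.Xo_open
      obtain ⟨O2, h2, e2⟩ := N.No_open
      exact ⟨O1 ∪ O2, h1.union h2, by rw [union_inter_distrib_right, ← e1, ← e2]⟩
    · rintro z (hz | hz)
      · exact Or.inl (G.FXo hz)
      · exact Or.inr (N.FNo hz)
  have lkG : Linked G (G.Xo ∪ N.No) := by
    obtain ⟨rE, hrE, hrE'⟩ := exists_hret hcN h0N
    refine linked_hyp G cG.ret hrE ?_ N.one_mem N.No_open
    intro u hu
    refine ⟨(hrE.maps hu.1).1, ?_⟩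
    by_cases h : exp u ∈ N.No
    · intro h'
      exact disjoint_left.1 hNX (hrE' u hu.1 h).1 (G.Xo_sub h')
    · rw [hrE.id u ⟨hu.1, h⟩]; exact hu.2
  set δ := L.r0 / 2 with hδe
  have hδ : 0 < δ := by have := L.pos; positivity
  have hδ' : δ < L.r0 := by have := L.pos; rw [hδe]; linarith
  obtain ⟨M', hM'1, hM'2⟩ := M.untwist hT hMB
  have shS : Shrinks B (A.Xo ∪ M.No ∪ L.Do δ) := by
    rw [← hM'2]
    refine shrink_S_hyp hS hfix hP B (zs_of L M' hδ hδ') ?_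
    rw [hmr]
    refine Or.inr ⟨0, ⟨by simpa using hδ, by simp⟩, ?_⟩
    show exp (L.c 0) = _
    rw [L.zero]; rfl
  have hLsub : HB δ ⊆ HD := fun t ht => ⟨ht.1.trans (hδ'.trans L.lt).le, ht.2⟩
  have hLB : ∀ t ∈ HB δ, exp (L.c t) = exp (D.c t) := fun t ht => by
    rw [hD t ⟨ht.1.trans hδ'.le, ht.2⟩]
  have lk : Linked A (A.Xo ∪ M.No ∪ L.Do δ) := by
    obtain ⟨rE, hrE, hrE'⟩ := HRet.union hcM (L.hc hδ hδ') (by
      refine disjoint_left.2 ?_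
      rintro z hz ⟨t, ht, rfl⟩
      simp only [hLB t ht] at hz
      exact hMB t (hLsub ht) hz) h0M (by
      rintro ⟨t, ht, h⟩
      exact exp_ne_zero _ h)
    have := linked_hyp A cA.ret hrE (by
      intro u hu
      refine ⟨(hrE.maps hu.1).1, ?_⟩
      rcases hrE' u hu.1 with h | h | h
      · rw [h]; exact hu.2
      · intro h'
        exact hM1 _ h (Or.inl (A.Xo_sub h'))
      · obtain ⟨t, ht, h⟩ := h
        rw [← h]
        exact (L.maps (⟨ht.1.trans hδ'.le, ht.2⟩ : t ∈ HB L.r0)).2) (Or.inl M.one_mem) (by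
      obtain ⟨O2, h2, e2⟩ := M.No_open
      obtain ⟨O3, h3, e3⟩ := L.openo δ hδ hδ'
      refine ⟨O2 ∪ O3, h2.union h3, ?_⟩
      rw [union_inter_distrib_right, ← e2, ← e3]
      rfl)
    rwa [← union_assoc] at this
  obtain ⟨d⟩ := mkFD hS hg hfix hL hD mb hT E n hβg hED hPn hMB shG lkG hδ hδ' shS lk
  exact d.tuned

theorem tuned_par (q q' : RQ) (hfix : q.p.eval q.r = q.r) {ρ ρ' : ℝ} (Dp : PD q ρ)
    (Dp' : PD q' ρ') (hv0 : q'.p.eval q'.vr = 0) (hvr : q'.vr < q'.r) :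
    Marked 4 q.h q.r ∧ Tuned q.h q.r (-2) q'.h := by
  obtain ⟨S, hS⟩ := exists_ts q
  obtain ⟨g, hg⟩ := exists_ts q'
  obtain ⟨ρ0, hρ0, Dp0, -⟩ := Dp.shrink
  obtain ⟨ρ0', hρ0', Dp0', -⟩ := Dp'.shrink
  obtain ⟨A, hAX, hAo, eA, ⟨τA, hcA⟩, rt, ℓ, r1, r2, r3, l1, l2, l3, l4⟩ := exists_xs_par q hS Dp
  obtain ⟨A0, hA0X, hA0o, -⟩ := exists_xs_par q hS Dp0
  obtain ⟨G, hGX, hGo, eG, ⟨τG, hcG⟩, rt', ℓ', r1', r2', r3', l1', l2', l3', l4'⟩ :=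
    exists_xs_par q' hg Dp'
  obtain ⟨G0, hG0X, hG0o, -⟩ := exists_xs_par q' hg Dp0'
  obtain ⟨B⟩ := exists_br S A
  obtain ⟨E⟩ := exists_br g G
  obtain ⟨P, hP⟩ := exists_rg_par q hS Dp0 Dp hρ0 hAo hA0X hA0o {q.r, 0}
    (by
      intro x hx
      rcases Finset.mem_insert.1 hx with h | h
      · rw [h, hfix]; simp
      · rw [Finset.mem_singleton.1 h, Dp.fix]; simp) (by simp [RQ.vr, hfix]) (by simp)
  obtain ⟨P', hP'⟩ := exists_rg_par q' hg Dp0' Dp' hρ0' hGo hG0X hG0o {q'.vr, 0}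
    (by
      intro x hx
      rcases Finset.mem_insert.1 hx with h | h
      · rw [h, hv0]; simp
      · rw [Finset.mem_singleton.1 h, Dp'.fix]; simp)
    (by simp) (by simp)
  obtain ⟨C1⟩ := exists_nb q hS
  obtain ⟨C1'⟩ := exists_nb q' hg
  have hvr' : q.vr = q.r := hfix
  have hmr : mm q.v q.r = ec S.κ := by
    rw [hS.κ_eq, hvr']; exact mm_real (v := q.v) q.hv q.r
  have hκA : ec S.κ ∉ A.X := by
    rw [hAX, ← hmr]
    rintro ⟨z, ⟨hz1, hz2⟩, h⟩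
    have : z = q.r := mm_inj (v := q.v) q.hv hz2 (by simp [HH]) h
    rw [this, mem_closedBall, dist_eq_norm] at hz1
    have h1 := Dp.hr
    have h2 := Dp.hρ
    have h3 : ‖((q.r : ℂ) - (ρ : ℂ))‖ = ρ - q.r := by
      rw [← Complex.ofReal_sub, Complex.norm_real, Real.norm_eq_abs, abs_of_neg (by linarith)]
      ring
    linarith
  obtain ⟨L, D, χ, hL, hD, h1D, mb, hmk, hMk⟩ := stage hS hfix B hκA C1 (fun L M δ h1 h2 =>
    shrink_S_par hS hfix Dp hAo hP B (zs_of L M h1 h2) (by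
      rw [hmr]
      refine Or.inr ⟨0, ⟨by simpa using h1, by simp⟩, ?_⟩
      show exp (L.c 0) = _
      rw [L.zero]; rfl))
  refine ⟨hMk, ?_⟩
  have hX : Disjoint A.X D.Bo := D.disj A.closedX A.FX hκA
  obtain ⟨T, A', B', hT⟩ := exists_twist (by rw [hS.κ_eq, hS.ω_eq, hvr']) D hX
  obtain ⟨CT⟩ := exists_nb_twist hT h1D C1
  have hβg := isBeta_of hg Dp'.hr Dp'.fix hv0 hvr
  obtain ⟨x, xa, xb, xa', xb'⟩ := exists_xpair_par hS hg Dp Dp' (A := A') (B := G)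
    (by
      intro z hz
      rw [hT.X_eq] at hz
      exact hT.F_out z (A.subX hz) (disjoint_left.1 hX hz))
    (by rw [hT.X_eq, hAX]) (by rw [hT.Xo_eq, hAo]) hGX hGo
  -- small neighbourhoods of infinity
  obtain ⟨ε1, hε1, hb1⟩ := far_one (X := A.X ∪ D.Bc) (A.closedX.union D.Bc_closed)
    (by rintro (h | h); exacts [A.one_nmem h, h1D h])
  have hne : ∀ θ ∈ Ioo (0 : ℝ) (2 * Real.pi), (1 : ℂ) ≠ ec θ := fun θ hθ h => by
    rcases ec_eq_one ⟨hθ.1.le, hθ.2.le⟩ h.symm with h | h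
    · exact hθ.1.ne' h
    · exact hθ.2.ne h
  obtain ⟨ε2, hε2, hb2⟩ := far_one (X := G.X ∪ {ec g.κ})
    (G.closedX.union isClosed_singleton)
    (by
      rintro (h | h)
      · exact G.one_nmem h
      · exact hne _ g.κ_mem h)
  obtain ⟨M, N, n, hMε, hNε⟩ := exists_npair CT C1' (min ε1 ε2) (lt_min hε1 hε2)
  have hM1 : ∀ z ∈ M.N, z ∉ A.X ∪ D.Bc := fun z hz => hb1 z ((hMε z hz).trans_le (min_le_left _ _))
  have hN1 : ∀ z ∈ N.N, z ∉ G.X ∪ {ec g.κ} :=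
    fun z hz => hb2 z ((hNε z hz).trans_le (min_le_right _ _))
  have hMB : ∀ ζ ∈ HD, exp (D.c ζ) ∉ M.N := fun ζ hζ h => hM1 _ h (Or.inr ⟨ζ, hζ, rfl⟩)
  have hMX : Disjoint M.N A'.X := by
    rw [hT.X_eq]; exact disjoint_left.2 fun z hz h => hM1 z hz (Or.inl h)
  have hNX : Disjoint N.N G.X := disjoint_left.2 fun z hz h => hN1 z hz (Or.inl h)
  have haD : ∀ t : ℝ, t ∈ Icc (-1 : ℝ) 1 → ec (D.a t) ∉ M.N ∧ D.a t ∈ Ioo 0 (2 * Real.pi) := by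
    intro t ht
    have h := D.real t ht
    refine ⟨?_, h.2⟩
    have := hMB t ⟨by rw [Complex.norm_real]; exact abs_le.2 ht, by simp⟩
    rwa [h.1] at this
  have o1 : n.s1 < T.κ := by
    rw [hT.κ_eq]
    have := haD (-(2 / 3)) ⟨by norm_num, by norm_num⟩
    exact (s1_lt n this.2 this.1).1
  have hxa : x.a ∈ Ioo 0 (2 * Real.pi) := ⟨x.ord.1, x.ord.2.1.trans x.ord.2.2⟩
  have hxb : x.b ∈ Ioo 0 (2 * Real.pi) := ⟨x.ord.1.trans x.ord.2.1, x.ord.2.2⟩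
  have hxb' : x.b' ∈ Ioo 0 (2 * Real.pi) := ⟨x.ord'.1.trans x.ord'.2.1, x.ord'.2.2⟩
  have hbA : ec x.b ∈ A'.X := (x.arc _ ⟨hxb.1.le, hxb.2.le⟩).2 ⟨x.ord.2.1.le, le_rfl⟩
  have hbG : ec x.b' ∈ G.X := (x.arc' _ ⟨hxb'.1.le, hxb'.2.le⟩).2 ⟨x.ord'.2.1.le, le_rfl⟩
  have o2 : D.a (2 / 3) < x.a := by
    have h1 : D.a (2 / 3) < D.a 1 := D.mono ⟨by norm_num, by norm_num⟩ ⟨by norm_num, by norm_num⟩
      (by norm_num)
    by_contra hcon
    push Not at hcon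
    have h2 : x.a < D.a 1 := hcon.trans_lt h1
    have h0 : D.a 0 < x.a := by
      rw [D.a0, xa, hS.κ_eq, hvr']
      exact ang_strictMono (v := q.v) q.hv Dp.hr
    obtain ⟨y, hy1, hy2⟩ := exists_between (lt_min h2 x.ord.2.1)
    have hy3 := lt_min_iff.1 hy2
    have hci : ContinuousOn D.a (Icc 0 1) := D.conta.mono (Icc_subset_Icc (by norm_num) le_rfl)
    obtain ⟨t, ht, hty⟩ := intermediate_value_Icc (zero_le_one' ℝ) hci
      ⟨(h0.trans hy1).le, hy3.1.le⟩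
    have ht' : t ∈ Icc (-1 : ℝ) 1 := ⟨by linarith [ht.1], ht.2⟩
    have hm := D.maps (show (t : ℂ) ∈ HD from
      ⟨by rw [Complex.norm_real]; exact abs_le.2 ht', by simp⟩)
    have hyX : ec y ∈ A'.Xo := (x.arco y ⟨(hxa.1.trans hy1).le,
      (hy3.2.trans x.ord.2.2).le⟩).2 ⟨hy1, hy3.2⟩
    rw [hT.Xo_eq] at hyX
    refine hm.2 ?_
    rw [(D.real t ht').1, hty]
    exact hyX
  have o2' : x.b < n.s2 := (s1_lt n hxb fun h => disjoint_left.1 hMX h hbA).2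
  have o3 : n.s1' < g.κ := (s1_lt' n g.κ_mem fun h => hN1 _ h (Or.inr rfl)).1
  have o4 : ang q'.v 0 ≤ x.a' := xa'.ge
  have o4' : x.b' < n.s2' := (s1_lt' n hxb' fun h => disjoint_left.1 hNX h hbG).2
  obtain ⟨P0, H0, ρ0, hED, hPn, -⟩ := exists_ed_par x (by rw [hT.e_eq, eA]) eG
    ⟨τA, ρ, by rw [hT.X_eq, hT.Xo_eq]; exact hcA⟩ ⟨τG, ρ', hcG⟩ n hMX hNX hT.beta hβg o1 o2 o2'
    o3 o4 o4'
  -- linking and shrinking
  have h0M : (0 : ℂ) ∉ M.N := fun h => hM1 0 h (Or.inl (A.Xo_sub A.zero_mem))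
  have h0N : (0 : ℂ) ∉ N.N := fun h => hN1 0 h (Or.inl (G.Xo_sub G.zero_mem))
  obtain ⟨δN, τN, hcN⟩ := n.chart
  obtain ⟨δM, τM, hcM⟩ := n.chartM
  have shG : Shrinks E (G.Xo ∪ N.No) := by
    refine shrink_g_par hg Dp' hv0 hvr hGo hP' E ⟨?_, subset_union_left, ?_, Or.inr N.one_mem, ?_⟩
    · exact union_subset (G.Xo_sub.trans G.subX) (N.No_sub.trans N.subN)
    · obtain ⟨O1, h1, e1⟩ := G.Xo_open
      obtain ⟨O2, h2, e2⟩ := N.No_open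
      exact ⟨O1 ∪ O2, h1.union h2, by rw [union_inter_distrib_right, ← e1, ← e2]⟩
    · rintro z (hz | hz)
      · exact Or.inl (G.FXo hz)
      · exact Or.inr (N.FNo hz)
  have lkG : Linked G (G.Xo ∪ N.No) := by
    obtain ⟨rE, hrE, hrE'⟩ := exists_hret hcN h0N
    refine linked_par G r1' r2' r3' l1' l2' l3' l4' hrE ?_ N.No_open
    intro u hu
    refine ⟨(hrE.maps hu.1).1, ?_⟩
    by_cases h : exp u ∈ N.No
    · intro h'
      exact disjoint_left.1 hNX (hrE' u hu.1 h).1 (G.Xo_sub h')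
    · rw [hrE.id u ⟨hu.1, h⟩]; exact hu.2
  set δ := L.r0 / 2 with hδe
  have hδ : 0 < δ := by have := L.pos; positivity
  have hδ' : δ < L.r0 := by have := L.pos; rw [hδe]; linarith
  obtain ⟨M', hM'1, hM'2⟩ := M.untwist hT hMB
  have shS : Shrinks B (A.Xo ∪ M.No ∪ L.Do δ) := by
    rw [← hM'2]
    refine shrink_S_par hS hfix Dp hAo hP B (zs_of L M' hδ hδ') ?_
    rw [hmr]
    refine Or.inr ⟨0, ⟨by simpa using hδ, by simp⟩, ?_⟩
    show exp (L.c 0) = _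
    rw [L.zero]; rfl
  have hLsub : HB δ ⊆ HD := fun t ht => ⟨ht.1.trans (hδ'.trans L.lt).le, ht.2⟩
  have hLB : ∀ t ∈ HB δ, exp (L.c t) = exp (D.c t) := fun t ht => by
    rw [hD t ⟨ht.1.trans hδ'.le, ht.2⟩]
  have lk : Linked A (A.Xo ∪ M.No ∪ L.Do δ) := by
    obtain ⟨rE, hrE, hrE'⟩ := HRet.union hcM (L.hc hδ hδ') (by
      refine disjoint_left.2 ?_
      rintro z hz ⟨t, ht, rfl⟩
      simp only [hLB t ht] at hz
      exact hMB t (hLsub ht) hz) h0M (by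
      rintro ⟨t, ht, h⟩
      exact exp_ne_zero _ h)
    have := linked_par A r1 r2 r3 l1 l2 l3 l4 hrE (by
      intro u hu
      refine ⟨(hrE.maps hu.1).1, ?_⟩
      rcases hrE' u hu.1 with h | h | h
      · rw [h]; exact hu.2
      · intro h'
        exact hM1 _ h (Or.inl (A.Xo_sub h'))
      · obtain ⟨t, ht, h⟩ := h
        rw [← h]
        exact (L.maps (⟨ht.1.trans hδ'.le, ht.2⟩ : t ∈ HB L.r0)).2) (by
      obtain ⟨O2, h2, e2⟩ := M.No_open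
      obtain ⟨O3, h3, e3⟩ := L.openo δ hδ hδ'
      refine ⟨O2 ∪ O3, h2.union h3, ?_⟩
      rw [union_inter_distrib_right, ← e2, ← e3]
      rfl)
    rwa [← union_assoc] at this
  obtain ⟨d⟩ := mkFD hS hg hfix hL hD mb hT E n hβg hED hPn hMB shG lkG hδ hδ' shS lk
  exact d.tuned

end

end Pool.TU
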