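import Pool.Agent.Helper71.TU.Top3

/-! # TU Top4: the final theorem -/

open Complex Set Filter Topology Metric Polynomial ComplexConjugate Pool.Tuning

namespace Pool.TU

noncomputable section

/-- the complex polynomials to be tuned -/
def fC (ε : ℝ) : ℂ[X] := (fR ε).map (algebraMap ℝ ℂ)

theorem fC_admissible : ∃ ε₀ : ℝ, 0 < ε₀ ∧ ∀ ε : ℝ, 0 < ε → ε < ε₀ →
    Marked 4 (fC ε) (-1) ∧ Tuned (fC ε) (-1) (-2) (gH.map (algebraMap ℝ ℂ)) := by
  obtain ⟨ε₀, h0, h⟩ := rq_feps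
  obtain ⟨q', p', r', v', a'⟩ := rq_gH
  refine ⟨ε₀, h0, fun ε h1 h2 => ?_⟩
  obtain ⟨q, p, r, a⟩ := h ε h1 h2
  have hh : q.h = fC ε := by rw [RQ.h, p]; rfl
  have hh' : q'.h = gH.map (algebraMap ℝ ℂ) := by rw [RQ.h, p']
  have := tuned_hyp q q' (by rw [p, r]; exact fR_fix ε) a a' (β := 0)
    (by rw [r']; norm_num) (by rw [p']; exact gH_vals.2.1) (by rw [p']; exact gH_vals.2.2)
    (by rw [v', p']; exact gH_vals.1) (by rw [v', r']; norm_num)
  rw [hh, hh', r] at this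
  simpa using this

theorem f0_admissible :
    Marked 4 (fC 0) (-1) ∧ Tuned (fC 0) (-1) (-2) (gP.map (algebraMap ℝ ℂ)) := by
  obtain ⟨q, p, r, ρ, ⟨D⟩⟩ := rq_f0
  obtain ⟨q', p', r', v', ρ', ⟨D'⟩⟩ := rq_gP
  have hh : q.h = fC 0 := by rw [RQ.h, p]; rfl
  have hh' : q'.h = gP.map (algebraMap ℝ ℂ) := by rw [RQ.h, p']
  have := tuned_par q q' (by rw [p, r]; exact fR_fix 0) D D'
    (by rw [v', p']; exact gP_vals) (by rw [v', r']; norm_num)
  rw [hh, hh', r] at this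
  simpa using this

theorem gH_deg : (gH.map (algebraMap ℝ ℂ)).natDegree = 4 := by
  obtain ⟨q', p', -⟩ := rq_gH
  have := q'.natDegree
  rwa [RQ.h, p'] at this

theorem gP_deg : (gP.map (algebraMap ℝ ℂ)).natDegree = 4 := by
  obtain ⟨q', p', -⟩ := rq_gP
  have := q'.natDegree
  rwa [RQ.h, p'] at this

/-- a point of the space of admissible pairs -/
def mkAdm (P : ℂ[X]) (ω : ℂ) (Q : ℂ[X]) (hQ : Q.natDegree = 4)
    (h : Marked 4 P ω ∧ Tuned P ω (-2) Q) : AdmPair 4 (-2) :=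
  ⟨(⟨P, h.1.deg⟩, ω), h.1, Q, hQ, h.2⟩

theorem tendsto_adm {x : ℕ → AdmPair 4 (-2)} {y : AdmPair 4 (-2)}
    (h1 : ∀ i, Tendsto (fun n => (x n).1.1.1.coeff i) atTop (𝓝 (y.1.1.1.coeff i)))
    (h2 : Tendsto (fun n => (x n).1.2) atTop (𝓝 y.1.2)) : Tendsto x atTop (𝓝 y) := by
  have h3 : Tendsto (fun n => (x n).1.1) atTop (𝓝 y.1.1) := by
    rw [nhds_induced, tendsto_comap_iff]
    exact tendsto_pi_nhds.2 h1
  exact tendsto_subtype_rng.2 (h3.prodMk_nhds h2)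

/-- the final theorem -/
theorem final : ∃ (x : ℕ → AdmPair 4 (-2)) (y : AdmPair 4 (-2)), Tendsto x atTop (𝓝 y) ∧
    ∀ Q : AdmPair 4 (-2) → Poly 4,
      (∀ z : AdmPair 4 (-2), Tuned z.1.1.1 z.1.2 (-2) (Q z).1) →
      ¬ Tendsto (fun n => MPoly.mk (Q (x n))) atTop (𝓝 (MPoly.mk (Q y))) := by
  obtain ⟨ε₀, h0, h⟩ := fC_admissible
  set e : ℕ → ℝ := fun n => ε₀ / (n + 2) with he
  have he0 : ∀ n, 0 < e n := fun n => by rw [he]; positivity
  have he1 : ∀ n, e n < ε₀ := fun n => by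
    rw [he]
    have : (1 : ℝ) < n + 2 := by have : (0:ℝ) ≤ n := Nat.cast_nonneg n; linarith
    exact div_lt_self h0 this
  have hlim : Tendsto e atTop (𝓝 0) := by
    have := (tendsto_const_div_atTop_nhds_zero_nat ε₀).comp (tendsto_add_atTop_nat 2)
    refine this.congr fun n => ?_
    simp [he]
  refine ⟨fun n => mkAdm (fC (e n)) (-1) _ gH_deg (h (e n) (he0 n) (he1 n)),
    mkAdm (fC 0) (-1) _ gP_deg f0_admissible, ?_, ?_⟩
  · refine tendsto_adm (fun i => ?_) tendsto_const_nhds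
    have h1 := (fR_tendsto i).comp hlim
    have h2 := (continuous_ofReal.tendsto _).comp h1
    refine (h2.congr fun n => ?_).trans (le_of_eq ?_)
    · simp [mkAdm, fC, coeff_map]
    · simp [mkAdm, fC, coeff_map]
  · intro Q hQ
    exact negative dhyp_gH dpar_gP gH_deg gP_deg
      (fun n => (h (e n) (he0 n) (he1 n)).2) f0_admissible.2 Q hQ

/-- no continuous choice of tuned polynomials -/
theorem final' : ¬ ∃ Q : AdmPair 4 (-2) → MPoly 4, Continuous Q ∧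
    ∀ z : AdmPair 4 (-2), ∃ P : Poly 4, Q z = MPoly.mk P ∧ Tuned z.1.1.1 z.1.2 (-2) P.1 := by
  rintro ⟨Q, hQ, hT⟩
  obtain ⟨x, y, hxy, hf⟩ := final
  choose P hP hP' using hT
  refine hf P hP' ?_
  have := (hQ.tendsto y).comp hxy
  rw [hP y] at this
  refine this.congr fun n => ?_
  exact hP (x n)

end

end Pool.TU
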