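import Pool.Agent.Helper71.TU.Top4
import Pool.Agent.Helper71.TU.K8

/-! # TU Top5: the markings of the admissible pairs; the Julia set of `z ^ 2 - 2` -/

open Complex Set Filter Topology Metric Polynomial ComplexConjugate Pool.Tuning

namespace Pool.TU

noncomputable section

/-- every admissible pair has exactly one internal marking -/
theorem adm_marking {D : ℕ} {c : ℂ} (z : AdmPair D c) : ∃ χ : ℂ → ℂ,
    IsMarking z.1.1.1 z.1.2 χ ∧ ∀ χ' : ℂ → ℂ, IsMarking z.1.1.1 z.1.2 χ' →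
      EqOn χ' χ (closedBall 0 1) := by
  obtain ⟨hM, Q, -, ψ, χ, T, q, -, hχ, -⟩ := z.2
  exact ⟨χ, hχ, fun χ' h' => fun ζ hζ => marking_unique hM.fix h' hχ ζ hζ⟩

/-- the markings vary continuously -/
theorem adm_marking_tendsto {D : ℕ} (hD : 2 ≤ D) {c : ℂ} (x : ℕ → AdmPair D c)
    (y : AdmPair D c) (h : Tendsto x atTop (𝓝 y)) (χ : ℕ → ℂ → ℂ) (χ₀ : ℂ → ℂ)
    (hχ : ∀ n, IsMarking (x n).1.1.1 (x n).1.2 (χ n)) (hχ₀ : IsMarking y.1.1.1 y.1.2 χ₀) :
    TendstoLocallyUniformlyOn χ χ₀ atTop (ball 0 1) := by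
  have h1 : Tendsto (fun n => (x n).1) atTop (𝓝 y.1) :=
    (continuous_subtype_val.tendsto y).comp h
  have h2 : Tendsto (fun n => (x n).1.1) atTop (𝓝 y.1.1) :=
    (continuous_fst.tendsto _).comp h1
  have h3 : Tendsto (fun n => (x n).1.2) atTop (𝓝 y.1.2) :=
    (continuous_snd.tendsto _).comp h1
  have h4 : ∀ i, Tendsto (fun n => (x n).1.1.1.coeff i) atTop (𝓝 (y.1.1.1.coeff i)) := by
    rw [nhds_induced, tendsto_comap_iff] at h2
    exact tendsto_pi_nhds.1 h2
  exact marking_tendsto hD (fun n => (x n).1.1.2) y.1.1.2 h4 h3 (fun n => (x n).2.1.fix)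
    y.2.1.fix hχ hχ₀

/-- the Julia set of `z ^ 2 - 2` is the segment `[-2, 2]` -/
theorem julia2 : julia (X ^ 2 + C (-2)) = {z | z.im = 0 ∧ z.re ∈ Icc (-2 : ℝ) 2} := by
  rw [julia, filled2]
  have hc : IsClosed {z : ℂ | z.im = 0 ∧ z.re ∈ Icc (-2 : ℝ) 2} :=
    (isClosed_eq continuous_im continuous_const).inter (isClosed_Icc.preimage continuous_re)
  have hi : interior {z : ℂ | z.im = 0 ∧ z.re ∈ Icc (-2 : ℝ) 2} = ∅ := by
    rw [Set.eq_empty_iff_forall_notMem]
    intro z hz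
    rw [mem_interior_iff_mem_nhds, Metric.mem_nhds_iff] at hz
    obtain ⟨ε, hε, h⟩ := hz
    have h1 : z + ((ε / 2 : ℝ) : ℂ) * I ∈ ball z ε := by
      rw [mem_ball, dist_eq_norm]
      simp only [add_sub_cancel_left, norm_mul, norm_I, mul_one, Complex.norm_real]
      rw [Real.norm_of_nonneg (by linarith)]
      linarith
    have h2 := (h h1).1
    have h3 := (h (mem_ball_self hε)).1
    simp only [add_im, mul_im, ofReal_re, I_im, mul_one, ofReal_im, I_re, mul_zero, add_zero] at h2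
    linarith
  rw [frontier, hc.closure_eq, hi, diff_empty]

end

end Pool.TU
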